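import Mathlib

/-!
# EAC: absolute complexity of Euler geodesics (MP_5a62a1_an), definitions of the final statement

Points and vectors of the Euclidean plane are complex numbers.
-/

set_option autoImplicit false

noncomputable section

namespace Pool.Agent.EAC

open MeasureTheory Set Filter Topology Metric
open scoped ENNReal

/-- `∂/∂x`. -/
def dx {F : Type*} [NormedAddCommGroup F] [NormedSpace ℝ F] (f : ℂ → F) : ℂ → F :=
  fun z => fderiv ℝ f z 1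

/-- `∂/∂y`. -/
def dy {F : Type*} [NormedAddCommGroup F] [NormedSpace ℝ F] (f : ℂ → F) : ℂ → F :=
  fun z => fderiv ℝ f z Complex.I

/-- The gradient of a real function, as a complex number. -/
def grad (p : ℂ → ℝ) (z : ℂ) : ℂ := ((dx p z : ℝ) : ℂ) + ((dy p z : ℝ) : ℂ) * Complex.I

/-- `M` is a compact connected planar domain with real-analytic boundary: at every point of
`M` which is not an interior point there is a local injective holomorphic chart taking `M` to the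
closed upper half plane. -/
structure AnalyticDomain (M : Set ℂ) : Prop where
  compact : IsCompact M
  connected : IsConnected M
  chart : ∀ x ∈ M, x ∉ interior M → ∃ r > 0, ∃ φ : ℂ → ℂ, DifferentiableOn ℂ φ (ball x r) ∧
    InjOn φ (ball x r) ∧ φ x = 0 ∧ ∀ z ∈ ball x r, (z ∈ M ↔ 0 ≤ (φ z).im)

/-- The functions `g i j` (`i + j ≤ s`) are the weak derivatives `∂_x^i ∂_y^j v` of `v` in the
interior of `M`. -/
structure IsWeak (M : Set ℂ) (s : ℕ) (v : ℂ → ℂ) (g : ℕ → ℕ → ℂ → ℂ) : Prop where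
  zero : ∀ z ∈ interior M, g 0 0 z = v z
  meas : ∀ i j, i + j ≤ s → AEStronglyMeasurable (g i j) (volume.restrict (interior M))
  weak : ∀ i j, i + j ≤ s → ∀ φ : ℂ → ℝ, ContDiff ℝ (⊤ : ℕ∞) φ → HasCompactSupport φ →
    tsupport φ ⊆ interior M →
    ∫ z in interior M, φ z • g i j z =
      (-1 : ℝ) ^ (i + j) • ∫ z in interior M, (dx^[i] (dy^[j] φ)) z • v z

/-- `∑_{k ≤ s} ∫_M |∇^k v|²` for the family `g` of derivatives of `v`. -/
def hsSq (M : Set ℂ) (s : ℕ) (g : ℕ → ℕ → ℂ → ℂ) : ℝ≥0∞ :=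
  ∑ k ∈ Finset.range (s + 1), ∑ i ∈ Finset.range (k + 1),
    (k.choose i : ℝ≥0∞) * ∫⁻ z in interior M, ‖g i (k - i) z‖ₑ ^ 2

/-- The Sobolev norm `‖v‖_{H^s(M)}` (`= ⊤` if `v` is not of class `H^s`). -/
def hsNorm (M : Set ℂ) (s : ℕ) (v : ℂ → ℂ) : ℝ≥0∞ :=
  (⨅ g ∈ {g | IsWeak M s v g}, hsSq M s g) ^ (1 / 2 : ℝ)

/-- `v` is divergence free and tangent to the boundary of `M` (weak form). -/
def DivFree (M : Set ℂ) (v : ℂ → ℂ) : Prop :=
  ∀ φ : ℂ → ℝ, ContDiff ℝ (⊤ : ℕ∞) φ → HasCompactSupport φ →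
    ∫ z in interior M, fderiv ℝ φ z (v z) = 0

/-- `v` is a solution of the Euler equations on `M` on the time interval `[0,T]`, continuous with
values in the divergence free `H^s` vector fields. -/
structure IsEuler (M : Set ℂ) (s : ℕ) (T : ℝ) (v : ℝ → ℂ → ℂ) : Prop where
  cont : ∀ t ∈ Icc 0 T, ContinuousOn (v t) M
  divfree : ∀ t ∈ Icc 0 T, DivFree M (v t)
  hs : ∀ t ∈ Icc 0 T, hsNorm M s (v t) < ⊤
  hs_cont : ∀ t ∈ Icc 0 T, Tendsto (fun τ => hsNorm M s (fun z => v τ z - v t z))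
    (𝓝[Icc 0 T] t) (𝓝 0)
  momentum : ∃ (p : ℝ → ℂ → ℝ) (K : NNReal), ∀ t ∈ Icc 0 T, LipschitzOnWith K (p t) M ∧
    ∀ z ∈ interior M, DifferentiableAt ℝ (p t) z ∧
      HasDerivWithinAt (fun τ => v τ z) (-(fderiv ℝ (v t) z (v t z)) - grad (p t) z) (Icc 0 T) t

/-- `X` is the flow of `v` on `M`. -/
structure IsFlow (M : Set ℂ) (T : ℝ) (v : ℝ → ℂ → ℂ) (X : ℝ → ℂ → ℂ) : Prop where
  init : ∀ z ∈ M, X 0 z = z
  bij : ∀ t ∈ Icc 0 T, BijOn (X t) M M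
  deriv : ∀ t ∈ Icc 0 T, ∀ z ∈ M, HasDerivWithinAt (fun τ => X τ z) (v t (X t z)) (Icc 0 T) t

/-- `γ` is the `L²` geodesic of `D_μ^s(M)` with `γ 0 = id` and initial velocity `v 0`: the flow of
the solution `v` of the Euler equations. -/
def IsGeodesic (M : Set ℂ) (s : ℕ) (v : ℝ → ℂ → ℂ) (γ : ℝ → ℂ → ℂ) : Prop :=
  ∀ T > 0, IsEuler M s T v ∧ IsFlow M T v γ

/-- `U_ε = exp_e(B_ε)`: time one maps of the flows of the solutions of the Euler equations with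
initial velocity of `H^s` norm less than `ε`. -/
def expBall (M : Set ℂ) (s : ℕ) (ε : ℝ≥0∞) : Set (ℂ → ℂ) :=
  {ξ | ∃ v X, IsEuler M s 1 v ∧ hsNorm M s (v 0) < ε ∧ IsFlow M 1 v X ∧ EqOn ξ (X 1) M}

/-- `η` is on `M` a composition of `N` maps of `U_ε`. -/
def Decomposes (M : Set ℂ) (s : ℕ) (ε : ℝ≥0∞) (η : ℂ → ℂ) (N : ℕ) : Prop :=
  ∃ l : List (ℂ → ℂ), l.length = N ∧ (∀ ξ ∈ l, ξ ∈ expBall M s ε) ∧
    EqOn η (l.foldr (fun ξ g => ξ ∘ g) id) M

/-- `C_ε(η)`. -/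
def complexityEps (M : Set ℂ) (s : ℕ) (ε : ℝ≥0∞) (η : ℂ → ℂ) : ℝ≥0∞ :=
  ⨅ N ∈ {N : ℕ | Decomposes M s ε η N}, (N : ℝ≥0∞)

/-- The absolute complexity `C(η) = limsup_{ε → 0} ε C_ε(η)`. -/
def absComplexity (M : Set ℂ) (s : ℕ) (η : ℂ → ℂ) : ℝ≥0∞ :=
  limsup (fun ε : ℝ => ENNReal.ofReal ε * complexityEps M s (ENNReal.ofReal ε) η) (𝓝[>] 0)

end Pool.Agent.EAC
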