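import Pool.Agent.EAC.KSinh

/-!
# EAC-K02: bounds for the kernel `ker h z w`

`a = π(z - conj w)/(2h)`, `b = π(z-w)/(2h)`, `x = re a = re b`, `y1 = im a = π(Y+Y')/(2h) ∈ [0,π]`,
`y2 = im b = π(Y-Y')/(2h) ∈ [-π/2,π/2]`. `‖sinh a‖² = sinh² x + sin² y1`, `‖sinh b‖² = sinh² x + sin² y2`
(`norm_sinh_sq`), `sin² y1 - sin² y2 = sin(y1+y2) sin(y1-y2) = sin(πY/h) sin(πY'/h) ≥ 0`, hence
(`norm_sinh_ab`) `‖sinh b‖ ≤ ‖sinh a‖` and `|sin y2| ≤ |sin y1|`. `z ≠ w` gives `sinh b ≠ 0`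
(`norm_sinh_ge`), so `sinh a ≠ 0` and
`cth a - cth b = sinh (b-a)/(sinh a sinh b)`, `b - a = -iπY'/h`, `‖sinh(b-a)‖ = |sin(y1-y2)| ≤ |sin y1| + |sin y2|
≤ 2 |sin y1| ≤ 2 ‖sinh a‖`: `norm_ker_le`.

`norm_ker_le_near`: `‖sinh b‖ ≥ (2/π)‖b‖ = ‖z-w‖/h`.
`norm_ker_le_q`: `norm_sinh_ge'` with `‖b‖ = (π/2) ‖z-w‖/h ≥ ‖z-w‖/h`.
`norm_ker_far`: `x' = |re w| ≥ π/2`, `|re (z-w)| ≥ x' - 1 ≥ x'/3`; `‖sinh b‖ ≥ sinh (π x'/(6h))`; with `t = 1/h ≥ 4`
`sinh u ≥ exp u / 4` for `u = π x' t/6 ≥ 1`, `exp u = exp x' exp (x'(π t/6 - 1))`, `x'(π t/6-1) ≥ (π/2)(π t/12) ≥ 0.41 t`,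
`exp (0.41 t) ≥ (0.41 t)²/2`; so `‖ker‖ ≤ (t/2)/(0.021 t² exp x') ≤ 25 h exp (-x')`.
-/

set_option autoImplicit false

noncomputable section

namespace Pool.Agent.EAC.PartK

open MeasureTheory Set Filter Topology Metric
open scoped ComplexConjugate

theorem kker_ka_re {h : ℝ} (z w : ℂ) :
    (Real.pi * (z - conj w) / (2 * h) : ℂ).re = Real.pi * (z.re - w.re) / (2 * h) := by
  have e : (Real.pi * (z - conj w) / (2 * h) : ℂ) = ((Real.pi / (2 * h) : ℝ) : ℂ) * (z - conj w) := by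
    push_cast; ring
  rw [e, Complex.re_ofReal_mul]
  simp only [Complex.sub_re, Complex.conj_re]
  ring

theorem kker_ka_im {h : ℝ} (z w : ℂ) :
    (Real.pi * (z - conj w) / (2 * h) : ℂ).im = Real.pi * (z.im + w.im) / (2 * h) := by
  have e : (Real.pi * (z - conj w) / (2 * h) : ℂ) = ((Real.pi / (2 * h) : ℝ) : ℂ) * (z - conj w) := by
    push_cast; ring
  rw [e, Complex.im_ofReal_mul]
  simp only [Complex.sub_im, Complex.conj_im]
  ring

theorem kker_kb_re {h : ℝ} (z w : ℂ) :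
    (Real.pi * (z - w) / (2 * h) : ℂ).re = Real.pi * (z.re - w.re) / (2 * h) := by
  have e : (Real.pi * (z - w) / (2 * h) : ℂ) = ((Real.pi / (2 * h) : ℝ) : ℂ) * (z - w) := by
    push_cast; ring
  rw [e, Complex.re_ofReal_mul]
  simp only [Complex.sub_re]
  ring

theorem kker_kb_im {h : ℝ} (z w : ℂ) :
    (Real.pi * (z - w) / (2 * h) : ℂ).im = Real.pi * (z.im - w.im) / (2 * h) := by
  have e : (Real.pi * (z - w) / (2 * h) : ℂ) = ((Real.pi / (2 * h) : ℝ) : ℂ) * (z - w) := by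
    push_cast; ring
  rw [e, Complex.im_ofReal_mul]
  simp only [Complex.sub_im]
  ring

theorem kker_kb_norm {h : ℝ} (hh : 0 < h) (z w : ℂ) :
    ‖(Real.pi * (z - w) / (2 * h) : ℂ)‖ = Real.pi / 2 * (‖z - w‖ / h) := by
  have e : (Real.pi * (z - w) / (2 * h) : ℂ) = ((Real.pi / (2 * h) : ℝ) : ℂ) * (z - w) := by
    push_cast; ring
  have hp : 0 < Real.pi / (2 * h) := by positivity
  rw [e, norm_mul, Complex.norm_real, Real.norm_eq_abs, abs_of_pos hp]
  field_simp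

theorem kker_kb_im_le {h : ℝ} (hh : 0 < h) {z w : ℂ} (hz : z ∈ S h) (hw : w ∈ S h) :
    |(Real.pi * (z - w) / (2 * h) : ℂ).im| ≤ Real.pi / 2 := by
  rw [kker_kb_im]
  obtain ⟨hz0, hz1⟩ := hz
  obtain ⟨hw0, hw1⟩ := hw
  have h1 : |z.im - w.im| ≤ h := by
    rw [abs_le]; constructor <;> linarith
  have hp := Real.pi_pos
  rw [abs_div, abs_mul, abs_of_pos hp, abs_of_pos (by positivity : (0 : ℝ) < 2 * h),
    div_le_div_iff₀ (by positivity) (by positivity)]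
  nlinarith [mul_le_mul_of_nonneg_left h1 hp.le]

theorem kker_sin_y_le {h : ℝ} (hh : 0 < h) {z w : ℂ} (hz : z ∈ S h) (hw : w ∈ S h) :
    Real.sin (Real.pi * (z.im - w.im) / (2 * h)) ^ 2 ≤
      Real.sin (Real.pi * (z.im + w.im) / (2 * h)) ^ 2 := by
  obtain ⟨hz0, hz1⟩ := hz
  obtain ⟨hw0, hw1⟩ := hw
  have hp := Real.pi_pos
  set y1 := Real.pi * (z.im + w.im) / (2 * h) with hy1
  set y2 := Real.pi * (z.im - w.im) / (2 * h) with hy2
  have e1 : y1 + y2 = Real.pi * (z.im / h) := by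
    rw [hy1, hy2]; field_simp; ring
  have e2 : y1 - y2 = Real.pi * (w.im / h) := by
    rw [hy1, hy2]; field_simp; ring
  have s1 : 0 ≤ Real.sin (y1 + y2) := by
    rw [e1]
    apply Real.sin_nonneg_of_nonneg_of_le_pi
    · positivity
    · have : z.im / h ≤ 1 := by rw [div_le_one hh]; exact hz1
      nlinarith
  have s2 : 0 ≤ Real.sin (y1 - y2) := by
    rw [e2]
    apply Real.sin_nonneg_of_nonneg_of_le_pi
    · positivity
    · have : w.im / h ≤ 1 := by rw [div_le_one hh]; exact hw1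
      nlinarith
  have e3 : Real.sin (y1 + y2) * Real.sin (y1 - y2) = Real.sin y1 ^ 2 - Real.sin y2 ^ 2 := by
    rw [Real.sin_add, Real.sin_sub]
    have c1 := Real.sin_sq_add_cos_sq y1
    have c2 := Real.sin_sq_add_cos_sq y2
    have c1' : Real.cos y1 ^ 2 = 1 - Real.sin y1 ^ 2 := by linarith
    have c2' : Real.cos y2 ^ 2 = 1 - Real.sin y2 ^ 2 := by linarith
    have : (Real.sin y1 * Real.cos y2 + Real.cos y1 * Real.sin y2) *
        (Real.sin y1 * Real.cos y2 - Real.cos y1 * Real.sin y2) =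
        Real.sin y1 ^ 2 * Real.cos y2 ^ 2 - Real.cos y1 ^ 2 * Real.sin y2 ^ 2 := by ring
    rw [this, c1', c2']
    ring
  have := mul_nonneg s1 s2
  linarith

theorem norm_sinh_ab {h : ℝ} (hh : 0 < h) {z w : ℂ} (hz : z ∈ S h) (hw : w ∈ S h) :
    ‖Complex.sinh (Real.pi * (z - w) / (2 * h))‖ ≤
      ‖Complex.sinh (Real.pi * (z - conj w) / (2 * h))‖ := by
  have h1 := norm_sinh_sq (Real.pi * (z - w) / (2 * h) : ℂ)
  have h2 := norm_sinh_sq (Real.pi * (z - conj w) / (2 * h) : ℂ)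
  rw [kker_kb_re, kker_kb_im] at h1
  rw [kker_ka_re, kker_ka_im] at h2
  have h3 := kker_sin_y_le hh hz hw
  exact (sq_le_sq₀ (norm_nonneg _) (norm_nonneg _)).mp (by rw [h1, h2]; linarith)

theorem sinh_b_ge {h : ℝ} (hh : 0 < h) {z w : ℂ} (hz : z ∈ S h) (hw : w ∈ S h) :
    ‖z - w‖ / h ≤ ‖Complex.sinh (Real.pi * (z - w) / (2 * h))‖ := by
  have h1 := norm_sinh_ge (kker_kb_im_le hh hz hw)
  rw [kker_kb_norm hh] at h1
  have hp := Real.pi_pos
  have e : 2 / Real.pi * (Real.pi / 2 * (‖z - w‖ / h)) = ‖z - w‖ / h := by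
    field_simp
  rw [e] at h1
  exact h1

theorem sinh_b_ne {h : ℝ} (hh : 0 < h) {z w : ℂ} (hz : z ∈ S h) (hw : w ∈ S h) (hne : z ≠ w) :
    Complex.sinh (Real.pi * (z - w) / (2 * h)) ≠ 0 := by
  have h1 := sinh_b_ge hh hz hw
  have h2 : 0 < ‖z - w‖ / h := by
    have : 0 < ‖z - w‖ := norm_pos_iff.mpr (sub_ne_zero.mpr hne)
    positivity
  exact norm_pos_iff.mp (lt_of_lt_of_le h2 h1)

theorem kker_cth_sub {a b : ℂ} (ha : Complex.sinh a ≠ 0) (hb : Complex.sinh b ≠ 0) :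
    cth a - cth b = Complex.sinh (b - a) / (Complex.sinh a * Complex.sinh b) := by
  rw [cth, cth, Complex.sinh_sub]
  field_simp

theorem norm_ker_le {h : ℝ} (hh : 0 < h) {z w : ℂ} (hz : z ∈ S h) (hw : w ∈ S h) (hne : z ≠ w) :
    ‖ker h z w‖ ≤ 1 / (2 * h * ‖Complex.sinh (Real.pi * (z - w) / (2 * h))‖) := by
  have hb := sinh_b_ne hh hz hw hne
  have hab := norm_sinh_ab hh hz hw
  have hsy := kker_sin_y_le hh hz hw
  have ha2 := norm_sinh_sq (Real.pi * (z - conj w) / (2 * h) : ℂ)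
  rw [kker_ka_re, kker_ka_im] at ha2
  have hd2 := norm_sinh_sq ((Real.pi * (z - w) / (2 * h) : ℂ) - (Real.pi * (z - conj w) / (2 * h) : ℂ))
  rw [Complex.sub_re, Complex.sub_im, kker_ka_re, kker_ka_im, kker_kb_re, kker_kb_im, sub_self, Real.sinh_zero] at hd2
  rw [ker]
  set a : ℂ := Real.pi * (z - conj w) / (2 * h) with hadef
  set b : ℂ := Real.pi * (z - w) / (2 * h) with hbdef
  set x := Real.pi * (z.re - w.re) / (2 * h)
  set y1 := Real.pi * (z.im + w.im) / (2 * h)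
  set y2 := Real.pi * (z.im - w.im) / (2 * h)
  have hbpos : 0 < ‖Complex.sinh b‖ := norm_pos_iff.mpr hb
  have hapos : 0 < ‖Complex.sinh a‖ := lt_of_lt_of_le hbpos hab
  have ha : Complex.sinh a ≠ 0 := norm_pos_iff.mp hapos
  rw [kker_cth_sub ha hb, norm_mul, norm_div, norm_mul, Complex.norm_real, Real.norm_eq_abs,
    abs_of_pos (by positivity : 0 < 1 / (4 * h))]
  -- ‖sinh (b - a)‖ ≤ 2 ‖sinh a‖
  have k1 : |Real.sin y1| ≤ ‖Complex.sinh a‖ := by
    apply abs_le_of_sq_le_sq _ (norm_nonneg _)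
    nlinarith [sq_nonneg (Real.sinh x)]
  have k2 : |Real.sin y2| ≤ |Real.sin y1| := sq_le_sq.mp hsy
  have k3 : ‖Complex.sinh (b - a)‖ = |Real.sin (y2 - y1)| := by
    have : ‖Complex.sinh (b - a)‖ ^ 2 = |Real.sin (y2 - y1)| ^ 2 := by
      rw [hd2, sq_abs]; ring
    exact (sq_eq_sq₀ (norm_nonneg _) (abs_nonneg _)).mp this
  have k4 : |Real.sin (y2 - y1)| ≤ |Real.sin y2| + |Real.sin y1| := by
    rw [Real.sin_sub]
    calc |Real.sin y2 * Real.cos y1 - Real.cos y2 * Real.sin y1|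
        ≤ |Real.sin y2 * Real.cos y1| + |Real.cos y2 * Real.sin y1| := abs_sub _ _
      _ = |Real.sin y2| * |Real.cos y1| + |Real.cos y2| * |Real.sin y1| := by
          rw [abs_mul, abs_mul]
      _ ≤ |Real.sin y2| * 1 + 1 * |Real.sin y1| := by
          gcongr
          · exact Real.abs_cos_le_one _
          · exact Real.abs_cos_le_one _
      _ = _ := by ring
  have k5 : ‖Complex.sinh (b - a)‖ ≤ 2 * ‖Complex.sinh a‖ := by
    rw [k3]; linarith
  calc 1 / (4 * h) * (‖Complex.sinh (b - a)‖ / (‖Complex.sinh a‖ * ‖Complex.sinh b‖))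
      ≤ 1 / (4 * h) * (2 * ‖Complex.sinh a‖ / (‖Complex.sinh a‖ * ‖Complex.sinh b‖)) := by
        gcongr
    _ = 1 / (2 * h * ‖Complex.sinh b‖) := by
        field_simp
        ring

theorem norm_ker_le_near {h : ℝ} (hh : 0 < h) {z w : ℂ} (hz : z ∈ S h) (hw : w ∈ S h)
    (hne : z ≠ w) : ‖ker h z w‖ ≤ 1 / (2 * ‖z - w‖) := by
  refine (norm_ker_le hh hz hw hne).trans ?_
  have h0 : 0 < ‖z - w‖ := norm_pos_iff.mpr (sub_ne_zero.mpr hne)
  have h1 := sinh_b_ge hh hz hw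
  apply one_div_le_one_div_of_le (by positivity)
  calc 2 * ‖z - w‖ = 2 * h * (‖z - w‖ / h) := by field_simp
    _ ≤ _ := by gcongr

theorem norm_ker_le_q {h : ℝ} (hh : 0 < h) {z w : ℂ} (hz : z ∈ S h) (hw : w ∈ S h)
    (hne : z ≠ w) : ‖ker h z w‖ ≤ 25 * (h ^ 2 / (‖z - w‖ * (h + ‖z - w‖) ^ 2)) := by
  refine (norm_ker_le hh hz hw hne).trans ?_
  have h0 : 0 < ‖z - w‖ := norm_pos_iff.mpr (sub_ne_zero.mpr hne)
  have h1 := norm_sinh_ge' (kker_kb_im_le hh hz hw)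
  rw [kker_kb_norm hh] at h1
  have hpi : 1 ≤ Real.pi / 2 := by linarith [Real.pi_gt_three]
  have hu : 0 < ‖z - w‖ / h := by positivity
  have h2 : ‖z - w‖ / h ≤ Real.pi / 2 * (‖z - w‖ / h) := by nlinarith
  have h3 : 1 / 50 * (‖z - w‖ / h * (1 + ‖z - w‖ / h) ^ 2) ≤
      ‖Complex.sinh (Real.pi * (z - w) / (2 * h))‖ := by
    refine le_trans ?_ h1
    gcongr
  have h4 : 0 < 1 / 50 * (‖z - w‖ / h * (1 + ‖z - w‖ / h) ^ 2) := by positivity
  calc 1 / (2 * h * ‖Complex.sinh (Real.pi * (z - w) / (2 * h))‖)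
      ≤ 1 / (2 * h * (1 / 50 * (‖z - w‖ / h * (1 + ‖z - w‖ / h) ^ 2))) := by
        apply one_div_le_one_div_of_le (by positivity)
        gcongr
    _ = 25 * (h ^ 2 / (‖z - w‖ * (h + ‖z - w‖) ^ 2)) := by
        have : h + ‖z - w‖ ≠ 0 := by positivity
        have e : 1 + ‖z - w‖ / h = (h + ‖z - w‖) / h := by field_simp
        rw [e]
        field_simp
        ring

theorem kker_sinh_ge_exp {u : ℝ} (hu : 1 ≤ u) : Real.exp u / 4 ≤ Real.sinh u := by
  rw [Real.sinh_eq]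
  have h1 : Real.exp (-u) ≤ 1 := by
    rw [Real.exp_le_one_iff]; linarith
  have h2 : 1 + u ≤ Real.exp u := by linarith [Real.add_one_le_exp u]
  linarith

theorem norm_ker_far {h : ℝ} (hh : 0 < h) (h4 : h ≤ 1 / 4) {z w : ℂ} (hz : z ∈ S h) (hw : w ∈ S h)
    (hz1 : |z.re| ≤ 1) (hw1 : Real.pi / 2 ≤ |w.re|) :
    ‖ker h z w‖ ≤ 25 * h * Real.exp (-|w.re|) := by
  have hp1 : 3.1415 < Real.pi := Real.pi_gt_d4
  have hne : z ≠ w := by
    rintro rfl
    linarith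
  refine (norm_ker_le hh hz hw hne).trans ?_
  obtain ⟨t, ht⟩ : ∃ t, t = 1 / h := ⟨_, rfl⟩
  have ht4 : 4 ≤ t := by
    rw [ht, le_div_iff₀ hh]; linarith
  have hth : t * h = 1 := by rw [ht]; field_simp
  obtain ⟨x', hx'⟩ : ∃ x', x' = |w.re| := ⟨_, rfl⟩
  rw [← hx'] at hw1 ⊢
  have hre : x' / 3 ≤ |z.re - w.re| := by
    have : |w.re| ≤ |z.re - w.re| + |z.re| := by
      have := abs_sub_abs_le_abs_sub w.re z.re
      rw [abs_sub_comm] at this
      linarith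
    rw [← hx'] at this
    linarith
  have hx : Real.pi * x' * t / 6 ≤ |(Real.pi * (z - w) / (2 * h) : ℂ).re| := by
    rw [kker_kb_re, abs_div, abs_mul, abs_of_pos Real.pi_pos, abs_of_pos (by positivity : (0 : ℝ) < 2 * h),
      le_div_iff₀ (by positivity)]
    calc Real.pi * x' * t / 6 * (2 * h) = Real.pi * (x' / 3) * (t * h) := by ring
      _ = Real.pi * (x' / 3) := by rw [hth]; ring
      _ ≤ _ := by gcongr
  have hx1 : 1.5 ≤ x' := by linarith
  have hu1 : 1 ≤ Real.pi * x' * t / 6 := by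
    have : 3 * 1.5 * 4 ≤ Real.pi * x' * t := by gcongr; linarith
    linarith
  have hs1 : Real.exp (Real.pi * x' * t / 6) / 4 ≤
      ‖Complex.sinh (Real.pi * (z - w) / (2 * h))‖ :=
    (kker_sinh_ge_exp hu1).trans ((Real.sinh_le_sinh.mpr hx).trans (sinh_abs_re_le _))
  have hq : 0.41 * t ≤ x' * (Real.pi * t / 6 - 1) := by
    have q1 : Real.pi * t / 12 ≤ Real.pi * t / 6 - 1 := by nlinarith
    have q2 : 0 ≤ Real.pi * t / 12 := by positivity
    calc 0.41 * t ≤ Real.pi / 2 * (Real.pi * t / 12) := by nlinarith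
      _ ≤ x' * (Real.pi * t / 6 - 1) := by gcongr
  have hexp : Real.exp x' * ((0.41 * t) ^ 2 / 2) ≤ Real.exp (Real.pi * x' * t / 6) := by
    have e : Real.pi * x' * t / 6 = x' + x' * (Real.pi * t / 6 - 1) := by ring
    rw [e, Real.exp_add]
    gcongr
    have q3 : 0 ≤ 0.41 * t := by positivity
    have q4 := Real.quadratic_le_exp_of_nonneg q3
    have q5 : Real.exp (0.41 * t) ≤ Real.exp (x' * (Real.pi * t / 6 - 1)) :=
      Real.exp_le_exp.mpr hq
    nlinarith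
  have hfin : 0.021 * t ^ 2 * Real.exp x' ≤ ‖Complex.sinh (Real.pi * (z - w) / (2 * h))‖ := by
    refine le_trans ?_ hs1
    have q6 : 0 < Real.exp x' := Real.exp_pos _
    have q7 : 0.021 * t ^ 2 * Real.exp x' ≤ Real.exp x' * ((0.41 * t) ^ 2 / 2) / 4 := by
      have : 0.021 * t ^ 2 ≤ (0.41 * t) ^ 2 / 2 / 4 := by nlinarith [sq_nonneg t]
      calc 0.021 * t ^ 2 * Real.exp x' ≤ (0.41 * t) ^ 2 / 2 / 4 * Real.exp x' := by gcongr
        _ = _ := by ring
    linarith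
  have hEpos : 0 < Real.exp x' := Real.exp_pos _
  have htpos : 0 < t := by linarith
  calc 1 / (2 * h * ‖Complex.sinh (Real.pi * (z - w) / (2 * h))‖)
      ≤ 1 / (2 * h * (0.021 * t ^ 2 * Real.exp x')) := by
        apply one_div_le_one_div_of_le (by positivity)
        gcongr
    _ = 1 / 0.042 * h * Real.exp (-x') := by
        rw [Real.exp_neg, ht]
        field_simp
        norm_num
    _ ≤ 25 * h * Real.exp (-x') := by
        gcongr
        norm_num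

theorem kker_measurable_cth : Measurable cth := by
  unfold cth
  exact (Complex.continuous_cosh.measurable).div Complex.continuous_sinh.measurable

theorem measurable_ker (h : ℝ) (z : ℂ) : Measurable (ker h z) := by
  unfold ker
  have h1 : Measurable (fun w : ℂ => (Real.pi * (z - conj w) / (2 * h) : ℂ)) := by
    apply Continuous.measurable
    have : Continuous (fun w : ℂ => conj w) := Complex.continuous_conj
    fun_prop
  have h2 : Measurable (fun w : ℂ => (Real.pi * (z - w) / (2 * h) : ℂ)) := by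
    apply Continuous.measurable
    fun_prop
  exact ((kker_measurable_cth.comp h1).sub (kker_measurable_cth.comp h2)).const_mul _

end Pool.Agent.EAC.PartK
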