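import Pool.Agent.EAC.KDefs

/-!
# EAC-K08: radial integrals in the plane

Mathlib: `MeasureTheory.Measure.integral_fun_norm_addHaar`, `integrable_fun_norm_addHaar` (or polar coordinates
`Complex.integral_comp_polarCoord_symm`): `∫_ℂ g(‖w‖) = 2π ∫_0^∞ r g(r) dr`; indicator functions for the sets; translation
invariance for the centre `c`.
-/

set_option autoImplicit false

noncomputable section

namespace Pool.Agent.EAC.PartK

open MeasureTheory Set Filter Topology Metric

theorem plane_radial (c : ℂ) {f : ℝ → ℝ} {J : ℝ} (hi : IntegrableOn (fun y : ℝ => y * f y) (Ioi 0))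
    (hv : ∫ y in Ioi (0 : ℝ), y * f y = J) :
    Integrable (fun w : ℂ => f ‖w - c‖) ∧ ∫ w : ℂ, f ‖w - c‖ = 2 * Real.pi * J := by
  have h1 : Integrable (fun w : ℂ => f ‖w‖) := by
    rw [integrable_fun_norm_addHaar (μ := (volume : Measure ℂ)) (f := f)]
    simpa [Complex.finrank_real_complex] using hi
  refine ⟨h1.comp_sub_right c, ?_⟩
  rw [integral_sub_right_eq_self (fun w : ℂ => f ‖w‖) c, integral_fun_norm_addHaar]
  have hvol : (volume : Measure ℂ).real (ball 0 1) = Real.pi := by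
    simp [Measure.real, Complex.volume_ball]
  rw [hvol]
  simp only [Complex.finrank_real_complex, smul_eq_mul, nsmul_eq_mul]
  norm_num
  rw [hv]; ring

theorem plane_radial_on (c : ℂ) {f : ℝ → ℝ} {A : Set ℝ} (hA : MeasurableSet A) {J : ℝ}
    (hi : IntegrableOn (fun y : ℝ => y * f y) (Ioi 0 ∩ A))
    (hv : ∫ y in Ioi (0 : ℝ) ∩ A, y * f y = J) :
    IntegrableOn (fun w : ℂ => f ‖w - c‖) {w : ℂ | ‖w - c‖ ∈ A} ∧
      ∫ w in {w : ℂ | ‖w - c‖ ∈ A}, f ‖w - c‖ = 2 * Real.pi * J := by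
  have hm : MeasurableSet {w : ℂ | ‖w - c‖ ∈ A} :=
    (measurable_id.sub_const c).norm hA
  have e : (fun y : ℝ => y * A.indicator f y) = A.indicator (fun y => y * f y) := by
    funext y
    by_cases hy : y ∈ A
    · simp [hy]
    · simp [hy]
  have e2 : {w : ℂ | ‖w - c‖ ∈ A}.indicator (fun w : ℂ => f ‖w - c‖)
      = fun w : ℂ => A.indicator f ‖w - c‖ := by
    funext w
    by_cases hy : ‖w - c‖ ∈ A
    · simp [hy]
    · simp [hy]
  obtain ⟨h1, h2⟩ := plane_radial c (f := A.indicator f) (J := J)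
    (by
      rw [e]
      rw [inter_comm] at hi
      exact (integrable_indicator_iff hA).2 (by rwa [IntegrableOn, Measure.restrict_restrict hA]))
    (by rw [e, setIntegral_indicator hA, hv])
  constructor
  · rw [← integrable_indicator_iff hm, e2]
    exact h1
  · rw [← integral_indicator hm, e2]
    exact h2

theorem plane_ball (c : ℂ) {R : ℝ} (hR : 0 ≤ R) :
    IntegrableOn (fun w : ℂ => 1 / ‖w - c‖) (ball c R) ∧
      ∫ w in ball c R, 1 / ‖w - c‖ = 2 * Real.pi * R := by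
  have e : ball c R = {w : ℂ | ‖w - c‖ ∈ Iio R} := by
    ext w
    simp [dist_eq_norm]
  have e3 : EqOn (fun y : ℝ => y * (1 / y)) (fun _ => 1) (Ioi 0 ∩ Iio R) := by
    intro y hy
    have : y ≠ 0 := ne_of_gt hy.1
    field_simp
  have hm : MeasurableSet (Ioi (0 : ℝ) ∩ Iio R) := measurableSet_Ioi.inter measurableSet_Iio
  have := plane_radial_on c (f := fun y => 1 / y) (A := Iio R) measurableSet_Iio (J := R)
    (by
      rw [integrableOn_congr_fun e3 hm]
      rw [Ioi_inter_Iio]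
      exact integrableOn_const (by simp))
    (by
      rw [setIntegral_congr_fun hm e3, Ioi_inter_Iio]
      simp [hR])
  rw [e]
  exact this

theorem plane_out {R : ℝ} (hR : 0 < R) :
    IntegrableOn (fun w : ℂ => 1 / ‖w‖ ^ 3) {w : ℂ | R ≤ ‖w‖} ∧
      ∫ w in {w : ℂ | R ≤ ‖w‖}, 1 / ‖w‖ ^ 3 = 2 * Real.pi / R := by
  have hset : Ioi (0 : ℝ) ∩ Ici R = Ici R := by
    ext y; simp only [mem_inter_iff, mem_Ioi, mem_Ici, and_iff_right_iff_imp]
    exact fun h => hR.trans_le h
  have e3 : EqOn (fun y : ℝ => y * (1 / y ^ 3)) (fun y => y ^ (-2 : ℝ)) (Ioi R) := by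
    intro y hy
    have hy0 : 0 < y := hR.trans hy
    show y * (1 / y ^ 3) = y ^ (-2 : ℝ)
    rw [Real.rpow_neg hy0.le]
    norm_num
    field_simp
  have := plane_radial_on 0 (f := fun y => 1 / y ^ 3) (A := Ici R) measurableSet_Ici (J := 1 / R)
    (by
      rw [hset, integrableOn_Ici_iff_integrableOn_Ioi, integrableOn_congr_fun e3 measurableSet_Ioi]
      exact integrableOn_Ioi_rpow_of_lt (by norm_num) hR)
    (by
      rw [hset, integral_Ici_eq_integral_Ioi, setIntegral_congr_fun measurableSet_Ioi e3,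
        integral_Ioi_rpow_of_lt (by norm_num) hR]
      norm_num
      rw [Real.rpow_neg_one])
  simp only [sub_zero, mem_Ici] at this
  refine ⟨this.1, ?_⟩
  rw [this.2]; ring

theorem plane_q (c : ℂ) {h : ℝ} (hh : 0 < h) :
    Integrable (fun w : ℂ => h ^ 2 / (‖w - c‖ * (h + ‖w - c‖) ^ 2)) ∧
      ∫ w : ℂ, h ^ 2 / (‖w - c‖ * (h + ‖w - c‖) ^ 2) = 2 * Real.pi * h := by
  have e3 : EqOn (fun y : ℝ => y * (h ^ 2 / (y * (h + y) ^ 2))) (fun y => h ^ 2 / (h + y) ^ 2)
      (Ioi 0) := by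
    intro y hy
    have hy0 : (0 : ℝ) < y := hy
    have : h + y ≠ 0 := by positivity
    show y * (h ^ 2 / (y * (h + y) ^ 2)) = h ^ 2 / (h + y) ^ 2
    field_simp
  have hd : ∀ x ∈ Ici (0 : ℝ), HasDerivAt (fun y : ℝ => -(h ^ 2 / (h + y))) (h ^ 2 / (h + x) ^ 2) x := by
    intro x hx
    have hx0 : (0 : ℝ) ≤ x := hx
    have hne : h + x ≠ 0 := by positivity
    have h1 : HasDerivAt (fun y : ℝ => h + y) 1 x := by
      simpa using (hasDerivAt_id x).const_add h
    have h2 := ((hasDerivAt_const x (h ^ 2)).div h1 hne).neg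
    convert! h2 using 1
    field_simp
    ring
  have ht : Tendsto (fun y : ℝ => -(h ^ 2 / (h + y))) atTop (𝓝 0) := by
    have : Tendsto (fun y : ℝ => h ^ 2 / (h + y)) atTop (𝓝 0) :=
      Tendsto.div_atTop tendsto_const_nhds (tendsto_atTop_add_const_left _ h tendsto_id)
    simpa using this.neg
  have hint : IntegrableOn (fun y : ℝ => h ^ 2 / (h + y) ^ 2) (Ioi 0) :=
    integrableOn_Ioi_deriv_of_nonneg' hd (fun x _ => by positivity) ht
  refine plane_radial c (f := fun y => h ^ 2 / (y * (h + y) ^ 2)) (J := h) ?_ ?_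
  · rw [integrableOn_congr_fun e3 measurableSet_Ioi]
    exact hint
  · rw [setIntegral_congr_fun measurableSet_Ioi e3,
      integral_Ioi_of_hasDerivAt_of_tendsto' hd hint ht]
    have : h ≠ 0 := hh.ne'
    field_simp
    ring

theorem plane_ann {R1 R2 : ℝ} (h1 : 0 < R1) (h2 : R1 ≤ R2) :
    IntegrableOn (fun w : ℂ => 1 / ‖w‖ ^ 2) {w : ℂ | R1 ≤ ‖w‖ ∧ ‖w‖ ≤ R2} ∧
      ∫ w in {w : ℂ | R1 ≤ ‖w‖ ∧ ‖w‖ ≤ R2}, 1 / ‖w‖ ^ 2 = 2 * Real.pi * Real.log (R2 / R1) := by
  have hset : Ioi (0 : ℝ) ∩ Icc R1 R2 = Icc R1 R2 := by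
    ext y; simp only [mem_inter_iff, mem_Ioi, mem_Icc, and_iff_right_iff_imp]
    exact fun h => h1.trans_le h.1
  have e3 : EqOn (fun y : ℝ => y * (1 / y ^ 2)) (fun y => 1 / y) (Icc R1 R2) := by
    intro y hy
    have hy0 : 0 < y := h1.trans_le hy.1
    show y * (1 / y ^ 2) = 1 / y
    field_simp
  have hc : ContinuousOn (fun y : ℝ => 1 / y) (Icc R1 R2) :=
    continuousOn_const.div continuousOn_id fun y hy => (h1.trans_le hy.1).ne'
  have := plane_radial_on 0 (f := fun y => 1 / y ^ 2) (A := Icc R1 R2) measurableSet_Icc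
    (J := Real.log (R2 / R1))
    (by
      rw [hset, integrableOn_congr_fun e3 measurableSet_Icc]
      exact hc.integrableOn_Icc)
    (by
      rw [hset, setIntegral_congr_fun measurableSet_Icc e3, integral_Icc_eq_integral_Ioc,
        ← intervalIntegral.integral_of_le h2, integral_one_div_of_pos h1 (h1.trans_le h2)])
  simpa only [sub_zero, mem_Icc] using this

end Pool.Agent.EAC.PartK
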