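import Pool.Agent.EAC.KTime
import Pool.Agent.EAC.KKer
import Pool.Agent.EAC.KPlane

/-!
# EAC-K27: the corners are fixed points of the flow (helper10)
-/

set_option autoImplicit false

noncomputable section

namespace Pool.Agent.EAC.PartK

open MeasureTheory Set Filter Topology Metric

theorem mm_le_sin {ζ : ℂ} (h0 : 0 ≤ ζ.im) (h1 : ζ.im ≤ 1) : mm ζ ≤ 100 * ‖Complex.sin ζ‖ := by
  have hm : 0 ≤ mm ζ := by unfold mm; positivity
  rcases hm.eq_or_lt with h2 | h2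
  · rw [← h2]; positivity
  have hr : rho ζ = (mm ζ)⁻¹ := rfl
  have hrp : 0 < rho ζ := by rw [hr]; positivity
  have hs : Complex.sin ζ ≠ 0 := by
    intro hs
    have := rho_le h0
    rw [hs, norm_zero, div_zero] at this
    linarith
  have hsn : 0 < ‖Complex.sin ζ‖ := norm_pos_iff.mpr hs
  have h3 := rho_ge h0 h1 hs
  rw [hr, div_le_iff₀ (by positivity)] at h3
  have h4 : (mm ζ)⁻¹ * (100 * ‖Complex.sin ζ‖) * mm ζ = 100 * ‖Complex.sin ζ‖ := by
    field_simp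
  nlinarith

theorem sinh_le_two_mul {y : ℝ} (h0 : 0 ≤ y) (h1 : y ≤ 1) : Real.sinh y ≤ 2 * y := by
  have e1 := Real.abs_exp_sub_one_sub_id_le (x := y) (by rw [abs_of_nonneg h0]; exact h1)
  have e2 := Real.abs_exp_sub_one_sub_id_le (x := -y) (by rw [abs_neg, abs_of_nonneg h0]; exact h1)
  rw [abs_le] at e1 e2
  rw [Real.sinh_eq]
  nlinarith [e1.1, e1.2, e2.1, e2.2]

theorem norm_sin_le_sub {ζ : ℂ} (h0 : 0 ≤ ζ.im) (h1 : ζ.im ≤ 1) (k : ℤ) :
    ‖Complex.sin ζ‖ ≤ 2 * ‖ζ - k * Real.pi‖ := by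
  apply le_of_sq_le_sq _ (by positivity)
  have e := norm_sin_sq ζ
  have e1 : Real.sin ζ.re ^ 2 ≤ (ζ.re - k * Real.pi) ^ 2 := by
    have h2 : Real.sin (ζ.re - k * Real.pi) ^ 2 = Real.sin ζ.re ^ 2 := by
      rw [Real.sin_sub_int_mul_pi, mul_pow]
      have : (((-1 : ℝ) ^ k) ^ 2) = 1 := by
        rw [← zpow_natCast, ← zpow_mul, mul_comm, zpow_mul]
        norm_num
      rw [this, one_mul]
    rw [← h2]
    exact sq_le_sq.mpr (Real.abs_sin_le_abs)
  have e2 : Real.sinh ζ.im ^ 2 ≤ 4 * ζ.im ^ 2 := by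
    have h3 := sinh_le_two_mul h0 h1
    have h4 : 0 ≤ Real.sinh ζ.im := Real.sinh_nonneg_iff.mpr h0
    nlinarith
  have e3 : ‖ζ - k * Real.pi‖ ^ 2 = (ζ.re - k * Real.pi) ^ 2 + ζ.im ^ 2 := by
    rw [Complex.sq_norm, Complex.normSq_apply]
    simp
    ring
  rw [e, mul_pow, e3]
  nlinarith [sq_nonneg (ζ.re - k * Real.pi)]

theorem norm_W_le {h B : ℝ} (hh : 0 < h) (hB : 0 ≤ B) {f : ℂ → ℝ} (hf : ∀ w ∈ S h, |f w| ≤ B) {ζ : ℂ}
    (hζ : ζ ∈ S h) : ‖W h f ζ‖ ≤ B * (25 * (2 * Real.pi * h)) := by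
  obtain ⟨hi, he⟩ := plane_q ζ hh
  have hi2 : Integrable (fun w : ℂ => B * (25 * (h ^ 2 / (‖w - ζ‖ * (h + ‖w - ζ‖) ^ 2)))) :=
    (hi.const_mul 25).const_mul B
  have h1 : ‖W h f ζ‖ ≤ ∫ w in S h, B * (25 * (h ^ 2 / (‖w - ζ‖ * (h + ‖w - ζ‖) ^ 2))) := by
    unfold W
    apply norm_integral_le_of_norm_le hi2.integrableOn
    have hne : ∀ᵐ w ∂(volume.restrict (S h)), w ≠ ζ :=
      ae_restrict_of_ae (by
        have : (volume : Measure ℂ) {ζ} = 0 := measure_singleton ζ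
        exact compl_mem_ae_iff.mpr this)
    filter_upwards [ae_restrict_mem (measurableSet_S h), hne] with w hw hn
    rw [norm_mul, Complex.norm_real, Real.norm_eq_abs]
    have h2 := norm_ker_le_q hh hζ hw hn.symm
    rw [norm_sub_rev ζ w] at h2
    exact mul_le_mul (hf w hw) h2 (norm_nonneg _) hB
  refine h1.trans ?_
  have h3 : ∫ w in S h, B * (25 * (h ^ 2 / (‖w - ζ‖ * (h + ‖w - ζ‖) ^ 2))) ≤
      ∫ w : ℂ, B * (25 * (h ^ 2 / (‖w - ζ‖ * (h + ‖w - ζ‖) ^ 2))) := by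
    apply setIntegral_le_integral hi2
    filter_upwards with w
    positivity
  refine h3.trans ?_
  rw [integral_const_mul, integral_const_mul, he]

/-- the corners are fixed points of the flow. -/
theorem corner_fixed {h lam : ℝ} (hh : 0 < h) (hh1 : h ≤ 1) {w : ℝ → ℂ → ℝ} {Φ : ℝ → ℂ → ℂ}
    (hS : StripSol h lam w Φ) (k : ℤ) {t : ℝ} (ht : 0 ≤ t) :
    Φ t (k * Real.pi) = k * Real.pi := by
  rcases ht.eq_or_lt with h0 | h0
  · rw [← h0]
    apply hS.init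
    constructor <;> simp [hh.le]
  obtain ⟨d, hd, hsup⟩ := hS.supp t h0
  have hk : ((k : ℂ) * Real.pi) ∈ S h := by constructor <;> simp [hh.le]
  -- the density is bounded
  have hB : ∀ τ ∈ Icc 0 t, ∀ z ∈ S h, |rho z * w τ z| ≤ 2 / d := by
    intro τ hτ z hz
    have h1 := (dens_of_sol hS hτ.1).nonneg z hz
    rw [abs_of_nonneg h1]
    by_cases hw : w τ z = 0
    · rw [hw, mul_zero]; positivity
    · have h2 := (hsup τ hτ z hz hw).1
      exact ((dens_of_sol hS hτ.1).le z hz).trans (div_le_div_of_nonneg_left (by norm_num) hd h2)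
  obtain ⟨K, hK⟩ : ∃ K : ℝ, K = 200 * (|lam| + 2 + 2 / d * (25 * (2 * Real.pi * h))) := ⟨_, rfl⟩
  have hV : ∀ τ ∈ Icc 0 t, ∀ z ∈ S h,
      ‖Vel h lam mm (fun x => rho x * w τ x) z‖ ≤ K * ‖z - k * Real.pi‖ := by
    intro τ hτ z hz
    have hzi : z.im ≤ 1 := hz.2.trans hh1
    have h1 := mm_le_sin hz.1 hzi
    have h2 := norm_sin_le_sub hz.1 hzi k
    have h3 := Lam_bounds (lam := lam) hh (dens_of_sol hS hτ.1)
    have h4 := norm_W_le hh (by positivity) (hB τ hτ) hz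
    have hm : 0 ≤ mm z := by unfold mm; positivity
    unfold Vel
    rw [norm_mul, Complex.norm_real, Real.norm_of_nonneg hm]
    have h5 : ‖-(Lam h lam (fun x => rho x * w τ x) : ℂ) +
        Complex.I * (starRingEnd ℂ) (W h (fun x => rho x * w τ x) z)‖ ≤
        |lam| + 2 + 2 / d * (25 * (2 * Real.pi * h)) := by
      refine (norm_add_le _ _).trans ?_
      rw [norm_neg, norm_mul, Complex.norm_I, one_mul, Complex.norm_real, RCLike.norm_conj,
        Real.norm_eq_abs]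
      have h6 : |Lam h lam (fun x => rho x * w τ x)| ≤ |lam| + 2 := by
        rw [abs_le]
        have := abs_le.mp (le_refl |lam|)
        constructor <;> linarith [h3.1, h3.2]
      linarith
    calc mm z * _ ≤ (100 * (2 * ‖z - k * Real.pi‖)) *
          (|lam| + 2 + 2 / d * (25 * (2 * Real.pi * h))) :=
          mul_le_mul (h1.trans (by linarith)) h5 (norm_nonneg _) (by positivity)
      _ = K * ‖z - k * Real.pi‖ := by rw [hK]; ring
  have hZ : ∀ τ, 0 ≤ τ → HasDerivWithinAt (fun τ => Φ τ (k * Real.pi) - k * Real.pi)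
      (Vel h lam mm (fun x => rho x * w τ x) (Φ τ (k * Real.pi))) (Ici 0) τ := fun τ hτ =>
    (hS.flow τ hτ _ hk).sub_const _
  have hg := norm_le_gronwallBound_of_norm_deriv_right_le (f := fun τ => Φ τ (k * Real.pi) - k * Real.pi)
    (f' := fun τ => Vel h lam mm (fun x => rho x * w τ x) (Φ τ (k * Real.pi)))
    (δ := 0) (K := K) (ε := 0) (a := 0) (b := t)
    (fun τ hτ => ((hZ τ hτ.1).continuousWithinAt).mono Icc_subset_Ici_self)
    (fun τ hτ => (hZ τ hτ.1).mono (Ici_subset_Ici.mpr hτ.1))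
    (by rw [hS.init _ hk]; simp)
    (fun τ hτ => by
      rw [add_zero]
      exact hV τ ⟨hτ.1, hτ.2.le⟩ _ ((hS.bij τ hτ.1).mapsTo hk))
    t ⟨ht, le_rfl⟩
  rw [gronwallBound_ε0_δ0] at hg
  exact sub_eq_zero.mp (norm_le_zero_iff.mp hg)

end Pool.Agent.EAC.PartK
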