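import Pool.Agent.EAC.Iface
import Pool.Agent.EAC.KCorner

/-!
# EAC: the final theorem from the interface theorems
-/

set_option autoImplicit false

noncomputable section

namespace Pool.Agent.EAC

open MeasureTheory Set Filter Topology Metric
open scoped ENNReal

theorem comp_bound {M : Set ℂ} {s : ℕ} {K ε : ℝ}
    (hK : ∀ ξ ∈ expBall M s (ENNReal.ofReal ε), ∀ x ∈ M, ∀ y ∈ M,
      ‖x - y‖ ≤ Real.exp (K * ε) * ‖ξ x - ξ y‖) :
    ∀ l : List (ℂ → ℂ), (∀ ξ ∈ l, ξ ∈ expBall M s (ENNReal.ofReal ε)) →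
      (∀ x ∈ M, (l.foldr (fun ξ g => ξ ∘ g) id) x ∈ M) ∧
      ∀ x ∈ M, ∀ y ∈ M, ‖x - y‖ ≤ Real.exp (K * ε * l.length) *
        ‖(l.foldr (fun ξ g => ξ ∘ g) id) x - (l.foldr (fun ξ g => ξ ∘ g) id) y‖ := by
  intro l
  induction l with
  | nil => intro _; simp
  | cons ξ l ih =>
    intro hl
    have h1 := ih (fun η hη => hl η (List.mem_cons_of_mem _ hη))
    have hξ := hl ξ (List.mem_cons_self)
    obtain ⟨v, X, hv, hn, hX, hE⟩ := hξ
    have hmap : ∀ x ∈ M, ξ x ∈ M := fun x hx => by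
      rw [hE hx]
      exact (hX.bij 1 ⟨zero_le_one, le_refl _⟩).mapsTo hx
    refine ⟨fun x hx => hmap _ (h1.1 x hx), fun x hx y hy => ?_⟩
    have h2 := h1.2 x hx y hy
    have h3 := hK ξ (hl ξ (List.mem_cons_self)) _ (h1.1 x hx) _ (h1.1 y hy)
    have e : Real.exp (K * ε * (ξ :: l).length) = Real.exp (K * ε * l.length) * Real.exp (K * ε) := by
      rw [← Real.exp_add]; congr 1; push_cast [List.length_cons]; ring
    rw [e, mul_assoc]
    exact h2.trans (mul_le_mul_of_nonneg_left h3 (Real.exp_pos _).le)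

/-- lower bound for the complexity. -/
theorem complexity_lower {M : Set ℂ} (hM : AnalyticDomain M) {s : ℕ} (hs : 3 ≤ s) :
    ∃ K > 0, ∀ (η : ℂ → ℂ) (x y : ℂ) (D : ℝ), x ∈ M → y ∈ M → 
      Real.exp D * ‖η x - η y‖ < ‖x - y‖ → 
      ENNReal.ofReal (D / K) ≤ absComplexity M s η := by
  obtain ⟨K, hK, ε₀, hε₀, hA⟩ := A_main hM hs
  refine ⟨K, hK, fun η x y D hx hy hD => ?_⟩
  unfold absComplexity
  refine le_limsup_of_frequently_le ?_ (by isBoundedDefault)
  refine Eventually.frequently ?_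
  have : ∀ᶠ ε : ℝ in 𝓝[>] (0 : ℝ), 0 < ε ∧ ε ≤ ε₀ := by
    refine (eventually_mem_nhdsWithin).and ?_
    exact (nhdsWithin_le_nhds) (eventually_le_nhds hε₀)
  filter_upwards [this] with ε hε
  obtain ⟨h0, h1⟩ := hε
  unfold complexityEps
  rw [mul_comm, ← ENNReal.div_le_iff_le_mul (by left; simpa using h0)
    (by left; exact ENNReal.ofReal_ne_top)]
  refine le_iInf₂ fun N hN => ?_
  obtain ⟨l, hl, hlm, hE⟩ := hN
  have hb := (comp_bound (K := K) (fun ξ hξ => hA ε h0 h1 ξ hξ) l hlm).2 x hx y hy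
  rw [← hE hx, ← hE hy, hl] at hb
  have h2 : D ≤ K * ε * N := by
    by_contra hlt
    push Not at hlt
    have h3 := Real.exp_le_exp.mpr hlt.le
    have h4 : Real.exp (K * ε * N) * ‖η x - η y‖ ≤ Real.exp D * ‖η x - η y‖ :=
      mul_le_mul_of_nonneg_right h3 (norm_nonneg _)
    linarith
  rw [← ENNReal.ofReal_div_of_pos h0]
  rw [show (N : ℝ≥0∞) = ENNReal.ofReal (N : ℝ) by simp]
  apply ENNReal.ofReal_le_ofReal
  rw [div_div, div_le_iff₀ (by positivity)]
  linarith [h2]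

theorem velZ_congr {h lam : ℝ} {w w' : ℂ → ℝ} (hw : ∀ ζ ∈ S h, w ζ = w' ζ) :
    velZ h lam w = velZ h lam w' := by
  have hS : MeasurableSet (S h) := by
    have : IsClosed (S h) := by
      have e : S h = Complex.im ⁻¹' (Icc 0 h) := by ext z; simp [S]
      rw [e]; exact isClosed_Icc.preimage Complex.continuous_im
    exact this.measurableSet
  have hSp : MeasurableSet (Sper h) := by
    have e : Sper h = Complex.re ⁻¹' (Ico 0 (2 * Real.pi)) ∩ Complex.im ⁻¹' (Icc 0 h) := by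
      ext z; simp [Sper]; tauto
    rw [e]
    exact (measurableSet_Ico.preimage Complex.measurable_re).inter
      (measurableSet_Icc.preimage Complex.measurable_im)
  have h1 : Lam h lam (fun x => rho x * w x) = Lam h lam (fun x => rho x * w' x) := by
    unfold Lam
    congr 2
    refine setIntegral_congr_fun hSp fun z hz => ?_
    have hz' : z ∈ S h := ⟨hz.2.2.1, hz.2.2.2⟩
    simp only [hw z hz']
  have h2 : W h (fun x => rho x * w x) = W h (fun x => rho x * w' x) := by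
    funext z
    unfold W
    refine setIntegral_congr_fun hS fun y hy => ?_
    simp only [hw y hy]
  funext z
  unfold velZ
  rw [h1, h2]

/-- the double exponential beats the exponential. -/
theorem growth_beat {c C1 K a δ : ℝ} (hc : 0 < c) (hC1 : 0 < C1) (hK : 0 < K) (hδ : 0 < δ) (ha : a ≤ c / 2)
    (C : ℝ) : ∃ t ≥ 0, ∃ D : ℝ, 0 < D ∧ Real.exp D * Real.exp (C1 - Real.exp (c * t) / C1) < δ ∧
      C * Real.exp (a * t) < D / K := by
  -- D = exp(ct)/C1 - C1 + log δ - 1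
  have hlim : Tendsto (fun t : ℝ => Real.exp (c / 2 * t)) atTop atTop := by
    apply Real.tendsto_exp_atTop.comp
    exact Tendsto.const_mul_atTop (by positivity) tendsto_id
  set B := max (|C| * K) 1 with hB
  have hBpos : 0 < B := lt_of_lt_of_le one_pos (le_max_right _ _)
  -- u^2/C1 - C1 + log δ - 1 > B u for u large
  have h1 : ∀ᶠ u : ℝ in atTop, B * u < u ^ 2 / C1 - C1 + Real.log δ - 1 := by
    have h2 : Tendsto (fun u : ℝ => u * (u / C1 - B)) atTop atTop := by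
      apply Tendsto.atTop_mul_atTop₀ tendsto_id
      apply tendsto_atTop_add_const_right
      exact tendsto_id.atTop_div_const hC1
    filter_upwards [h2.eventually_gt_atTop (C1 - Real.log δ + 1)] with u hu
    have e : u * (u / C1 - B) = u ^ 2 / C1 - B * u := by ring
    rw [e] at hu
    linarith
  obtain ⟨t, ht1, ht2⟩ := ((hlim.eventually h1).and (eventually_ge_atTop (0 : ℝ))).exists
  have hsq : Real.exp (c / 2 * t) ^ 2 = Real.exp (c * t) := by
    rw [← Real.exp_nat_mul]; congr 1; push_cast; ring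
  rw [hsq] at ht1
  refine ⟨t, ht2, Real.exp (c * t) / C1 - C1 + Real.log δ - 1, ?_, ?_, ?_⟩
  · have : 0 < B * Real.exp (c / 2 * t) := by positivity
    linarith
  · rw [← Real.exp_add]
    have e : Real.exp (c * t) / C1 - C1 + Real.log δ - 1 + (C1 - Real.exp (c * t) / C1) =
        Real.log δ - 1 := by ring
    rw [e, Real.exp_sub, Real.exp_log hδ]
    rw [div_lt_iff₀ (Real.exp_pos 1)]
    have := Real.add_one_lt_exp (x := (1 : ℝ)) one_ne_zero
    nlinarith
  · rw [lt_div_iff₀ hK]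
    refine lt_of_le_of_lt ?_ ht1
    have h3 : Real.exp (a * t) ≤ Real.exp (c / 2 * t) :=
      Real.exp_le_exp.mpr (mul_le_mul_of_nonneg_right ha ht2)
    calc C * Real.exp (a * t) * K ≤ |C| * Real.exp (a * t) * K := by
          gcongr; exact le_abs_self C
      _ = (|C| * K) * Real.exp (a * t) := by ring
      _ ≤ B * Real.exp (c / 2 * t) := by
          apply mul_le_mul (le_max_left _ _) h3 (Real.exp_pos _).le hBpos.le

/-- MP_5a62a1_an, Q1 is false for every integer `s ≥ 3`. -/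
theorem result_main (s : ℕ) (hs : 3 ≤ s) (L : ℝ) (hL : 0 < L) :
    ∃ M : Set ℂ, AnalyticDomain M ∧ ∃ (v : ℝ → ℂ → ℂ) (γ : ℝ → ℂ → ℂ), IsGeodesic M s v γ ∧
      ∀ C : ℝ, ∃ t ≥ 0,
        ENNReal.ofReal (C * Real.exp (L * t * (hsNorm M s (v 0)).toReal)) <
          absComplexity M s (γ t) := by
  obtain ⟨lam, hlam, w0, hw0, c, hc, h0, hh0, δ, hδ, hK⟩ := K_final
  obtain ⟨h1, hh1, hN⟩ := N_final lam hw0 s (ε := c / (2 * L)) (by positivity)
  set h := min (min h0 1) (h1 / 2) with hh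
  have hpos : 0 < h := by positivity
  have hle0 : h ≤ h0 := (min_le_left _ _).trans (min_le_left _ _)
  have hle1 : h ≤ 1 := (min_le_left _ _).trans (min_le_right _ _)
  have hlt1 : h < h1 := lt_of_le_of_lt (min_le_right _ _) (by linarith)
  obtain ⟨w, Φ, hS, hi⟩ := X_final hpos hle1 hw0
  have hM := Z_domain hpos hle1
  obtain ⟨γ, hγ, hZ⟩ := Z_final hpos hle1 hS
  obtain ⟨C1, hC1, hD⟩ := hK h hpos hle0 w Φ hS hi
  refine ⟨dom h, hM, _, γ, hγ s, fun C => ?_⟩
  obtain ⟨K, hKpos, hlow⟩ := complexity_lower hM hs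
  -- the norm of the initial velocity
  have hv0 : hsNorm (dom h) s (velZ h lam (w 0)) ≤ ENNReal.ofReal (c / (2 * L)) := by
    rw [velZ_congr hi]
    exact hN h hpos hlt1
  set r := (hsNorm (dom h) s (velZ h lam (w 0))).toReal with hr
  have hrle : r ≤ c / (2 * L) := ENNReal.toReal_le_of_le_ofReal (by positivity) hv0
  have hra : L * r ≤ c / 2 := by
    calc L * r ≤ L * (c / (2 * L)) := by gcongr
      _ = c / 2 := by field_simp
  obtain ⟨t, ht, D, hD0, hD1, hD2⟩ := growth_beat (δ := δ) hc hC1 hKpos hδ hra C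
  refine ⟨t, ht, ?_⟩
  obtain ⟨ζ, hζ, hζ1, hζ2⟩ := hD t ht
  have h0S : (0 : ℂ) ∈ S h := ⟨le_refl _, hpos.le⟩
  have hZ0 : Zi 0 = 1 := by simp [Zi]
  have hΦ0 : Φ t 0 = 0 := by
    have := PartK.corner_fixed hpos hle1 hS 0 ht
    simpa using this
  have hy := hZ t ht 0 h0S
  rw [hZ0, hΦ0, hZ0] at hy
  have hx := hZ t ht ζ hζ
  have hlt : Real.exp D * ‖γ t (Zi ζ) - γ t 1‖ < ‖Zi ζ - 1‖ := by
    rw [hx.2, hy.2]
    calc Real.exp D * ‖Zi (Φ t ζ) - 1‖
        ≤ Real.exp D * Real.exp (C1 - Real.exp (c * t) / C1) := by gcongr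
      _ < δ := hD1
      _ ≤ ‖Zi ζ - 1‖ := hζ1
  refine lt_of_lt_of_le ?_ (hlow (γ t) (Zi ζ) 1 D hx.1 hy.1 hlt)
  have e : L * t * (hsNorm (dom h) s (velZ h lam (w 0))).toReal = L * r * t := by rw [hr]; ring
  rw [e]
  have hDK : 0 < D / K := by positivity
  rw [ENNReal.ofReal_lt_ofReal_iff hDK]
  exact hD2

end Pool.Agent.EAC
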