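import Pool.Agent.EAC.GB

/-!
# EAC-G1: Cauchy–Pompeiu representation of a compactly supported function which is continuous, and
differentiable with bounded derivative off the line `Im = b`.

Fix `ζ`, polar coordinates `z = ζ + r e^{iθ}` (`Complex.integral_comp_polarCoord_symm` after a translation; Jacobian `r`):
`CT k ζ = ∫_0^∞ ∫_{-π}^{π} e^{-iθ} k(ζ + r e^{iθ}) dθ dr`, and with `k = ½(D 1 + i D i)`:
`e^{-iθ} k = ½ (D(e^{iθ}) + i D(i e^{iθ})) = ½ (∂_r u + (i/r) ∂_θ u)`.
Radial part: for every `θ ≠ 0, π` the function `r ↦ u(ζ + r e^{iθ})` is continuous on `[0,ρ]`, differentiable except for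
at most one `r`, derivative bounded: `∫_0^ρ ∂_r u dr = -u(ζ)` for large `ρ` (FTC with a countable exceptional set,
`intervalIntegral.integral_eq_of_hasDerivAt_off_countable...` /
`MeasureTheory.integral_eq_of_hasDerivWithinAt_off_countable_of_le`).
Angular part: `θ ↦ u(ζ + r e^{iθ})` is continuous, `2π`-periodic, differentiable except at finitely many `θ` (for `r ≠ |Im ζ - b|`
at most two; if the circle is... the circle is never contained in the line): `∫_{-π}^{π} D(i e^{iθ}) dθ = 0` for every `r > 0`.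
So `CT k ζ = ½ ∫_{-π}^{π} (-u ζ) dθ = -π u ζ`. Measurability of `k`: `D z = fderiv ℝ u z` off the line, `measurable_fderiv`.
-/

set_option autoImplicit false

noncomputable section

namespace Pool.Agent.EAC

open MeasureTheory Set Filter Topology Metric
open scoped ENNReal ComplexConjugate

/-- the unit vector `e^{iθ}`. -/
def g1e (θ : ℝ) : ℂ := Real.cos θ + Real.sin θ * Complex.I

theorem g1e_norm (θ : ℝ) : ‖g1e θ‖ = 1 := by
  have : g1e θ = Complex.exp (θ * Complex.I) := by
    rw [Complex.exp_mul_I]; simp [g1e]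
  rw [this, Complex.norm_exp_ofReal_mul_I]

theorem g1e_ne (θ : ℝ) : g1e θ ≠ 0 := by
  intro h
  have := g1e_norm θ
  rw [h] at this
  simp at this

theorem g1e_cont : Continuous g1e := by
  unfold g1e
  fun_prop

theorem g1e_deriv (θ : ℝ) : HasDerivAt g1e (Complex.I * g1e θ) θ := by
  have h1 := (Real.hasDerivAt_cos θ).ofReal_comp
  have h2 := ((Real.hasDerivAt_sin θ).ofReal_comp).mul_const Complex.I
  have h3 := h1.add h2
  have e : ((-Real.sin θ : ℝ) : ℂ) + (Real.cos θ : ℂ) * Complex.I = Complex.I * g1e θ := by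
    unfold g1e
    rw [Complex.ofReal_neg]
    linear_combination (-(Real.sin θ : ℂ)) * Complex.I_sq
  rw [e] at h3
  exact h3

theorem g1e_im (θ : ℝ) : (g1e θ).im = Real.sin θ := by
  unfold g1e
  rw [Complex.add_im, Complex.ofReal_im, Complex.im_ofReal_mul, Complex.I_im]
  ring

theorem sin_countable (c : ℝ) : {θ : ℝ | Real.sin θ = c}.Countable := by
  by_cases h : ∃ t, Real.sin t = c
  · obtain ⟨t, ht⟩ := h
    have : {θ : ℝ | Real.sin θ = c} ⊆ (Set.range fun k : ℤ => (2 * k * Real.pi + t)) ∪
        (Set.range fun k : ℤ => ((2 * k + 1) * Real.pi - t)) := by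
      intro θ hθ
      have h1 : Real.sin t = Real.sin θ := by rw [ht, hθ]
      rw [Real.sin_eq_sin_iff] at h1
      obtain ⟨k, hk⟩ := h1
      rcases hk with hk | hk
      · exact Or.inl ⟨k, hk.symm⟩
      · exact Or.inr ⟨k, hk.symm⟩
    exact ((Set.countable_range _).union (Set.countable_range _)).mono this
  · have : {θ : ℝ | Real.sin θ = c} = ∅ := by
      ext θ
      constructor
      · intro hθ
        exact h ⟨θ, hθ⟩
      · intro hθ
        exact hθ.elim
    rw [this]
    exact Set.countable_empty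

theorem dbar_rot (L : ℂ →L[ℝ] ℂ) (θ : ℝ) :
    dbar L / g1e θ = (1 / 2 : ℂ) * (L (g1e θ) + Complex.I * L (Complex.I * g1e θ)) := by
  have hc : g1e θ = (Real.cos θ) • (1 : ℂ) + (Real.sin θ) • Complex.I := by
    unfold g1e
    simp only [Complex.real_smul, mul_one]
  have hi : Complex.I * g1e θ = (Real.cos θ) • Complex.I + (-Real.sin θ) • (1 : ℂ) := by
    unfold g1e
    simp only [Complex.real_smul, Complex.ofReal_neg]
    linear_combination ((Real.sin θ : ℂ)) * Complex.I_sq
  have e1 : L (g1e θ) = (Real.cos θ : ℂ) * L 1 + (Real.sin θ : ℂ) * L Complex.I := by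
    rw [hc, map_add, map_smul, map_smul]
    simp only [Complex.real_smul]
  have e2 : L (Complex.I * g1e θ) = (Real.cos θ : ℂ) * L Complex.I + (-(Real.sin θ : ℂ)) * L 1 := by
    rw [hi, map_add, map_smul, map_smul]
    simp only [Complex.real_smul, Complex.ofReal_neg]
  rw [div_eq_iff (g1e_ne θ), e1, e2]
  unfold dbar g1e
  have h1 : (Real.sin θ : ℂ) ^ 2 + (Real.cos θ : ℂ) ^ 2 = 1 := by
    exact_mod_cast Real.sin_sq_add_cos_sq θ
  have h2 := Complex.I_sq
  linear_combination (-(1 / 2 : ℂ) * (L 1 + Complex.I * L Complex.I)) * h1 +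
    ((1 / 2 : ℂ) * (L 1 * (Real.sin θ : ℂ) ^ 2 - (Real.sin θ : ℂ) * (Real.cos θ : ℂ) * L Complex.I)) * h2

theorem ct_rep {u : ℂ → ℂ} {D : ℂ → (ℂ →L[ℝ] ℂ)} {b B R : ℝ} {c : ℂ} (hu : Continuous u)
    (hs : ∀ z, z ∉ closedBall c R → u z = 0)
    (hD : ∀ z : ℂ, z.im ≠ b → HasFDerivAt u (D z) z) (hB : ∀ z : ℂ, z.im ≠ b → ‖D z‖ ≤ B) (ζ : ℂ) :
    CT (fun z => if z.im = b then 0 else dbar (D z)) ζ = -(Real.pi : ℂ) * u ζ := by
  classical
  have hB0 : 0 ≤ B := by
    have h := hB ((b + 1 : ℝ) * Complex.I) (by simp)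
    exact (norm_nonneg _).trans h
  -- points on rays and circles
  set E : ℝ → ℝ → ℂ := fun r θ => ζ + (r : ℂ) * g1e θ with hE
  have hEim : ∀ r θ, (E r θ).im = ζ.im + r * Real.sin θ := by
    intro r θ
    rw [hE]
    simp only [Complex.add_im, Complex.im_ofReal_mul, g1e_im]
  have hEc : Continuous fun p : ℝ × ℝ => E p.1 p.2 := by
    rw [hE]
    have := g1e_cont
    fun_prop
  -- the two partial derivatives
  set F1 : ℝ × ℝ → ℂ := fun p => if (E p.1 p.2).im = b then 0 else
    fderiv ℝ u (E p.1 p.2) (g1e p.2) with hF1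
  set F2 : ℝ × ℝ → ℂ := fun p => if (E p.1 p.2).im = b then 0 else
    fderiv ℝ u (E p.1 p.2) (Complex.I * g1e p.2) with hF2
  have hset : MeasurableSet {p : ℝ × ℝ | (E p.1 p.2).im = b} :=
    (isClosed_eq (Complex.continuous_im.comp hEc) continuous_const).measurableSet
  have hfm : Measurable fun p : ℝ × ℝ => fderiv ℝ u (E p.1 p.2) :=
    (measurable_fderiv ℝ u).comp hEc.measurable
  have hap : ∀ g : ℝ × ℝ → ℂ, Measurable g →
      Measurable fun p : ℝ × ℝ => fderiv ℝ u (E p.1 p.2) (g p) := by
    intro g hg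
    have h1 : Continuous fun q : (ℂ →L[ℝ] ℂ) × ℂ => q.1 q.2 := isBoundedBilinearMap_apply.continuous
    exact h1.measurable.comp (hfm.prodMk hg)
  have hF1m : Measurable F1 := Measurable.ite hset measurable_const
    (hap _ (g1e_cont.measurable.comp measurable_snd))
  have hF2m : Measurable F2 := Measurable.ite hset measurable_const
    (hap _ ((g1e_cont.measurable.comp measurable_snd).const_mul Complex.I))
  have hDf : ∀ z : ℂ, z.im ≠ b → D z = fderiv ℝ u z := fun z hz => (hD z hz).fderiv.symm
  have hF1b : ∀ p, ‖F1 p‖ ≤ B := by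
    intro p
    simp only [hF1]
    split_ifs with h
    · simpa using hB0
    · rw [← hDf _ h]
      calc _ ≤ ‖D (E p.1 p.2)‖ * ‖g1e p.2‖ := ContinuousLinearMap.le_opNorm _ _
        _ ≤ B := by rw [g1e_norm, mul_one]; exact hB _ h
  have hF2b : ∀ p, ‖F2 p‖ ≤ B := by
    intro p
    simp only [hF2]
    split_ifs with h
    · simpa using hB0
    · rw [← hDf _ h]
      calc _ ≤ ‖D (E p.1 p.2)‖ * ‖Complex.I * g1e p.2‖ := ContinuousLinearMap.le_opNorm _ _
        _ ≤ B := by rw [norm_mul, Complex.norm_I, g1e_norm, one_mul, mul_one]; exact hB _ h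
  -- support
  set ρ : ℝ := |R| + ‖ζ - c‖ + 1 with hρ
  have hρ0 : 0 < ρ := by positivity
  have hfar : ∀ r θ, ρ ≤ r → E r θ ∉ closedBall c R := by
    intro r θ hr hmem
    rw [mem_closedBall, dist_eq_norm] at hmem
    have hr0 : 0 ≤ r := hρ0.le.trans hr
    have h1 : ‖(r : ℂ) * g1e θ‖ = r := by
      rw [norm_mul, g1e_norm, mul_one, Complex.norm_real, Real.norm_of_nonneg hr0]
    have h2 : (r : ℂ) * g1e θ = (E r θ - c) - (ζ - c) := by rw [hE]; ring
    have h3 : r ≤ ‖E r θ - c‖ + ‖ζ - c‖ := by
      calc r = ‖(r : ℂ) * g1e θ‖ := h1.symm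
        _ = ‖(E r θ - c) - (ζ - c)‖ := by rw [← h2]
        _ ≤ _ := norm_sub_le (E r θ - c) (ζ - c)
    have h4 : R ≤ |R| := le_abs_self R
    linarith
  have hfd : ∀ r θ, ρ ≤ r → fderiv ℝ u (E r θ) = 0 := by
    intro r θ hr
    have h1 := hfar r θ hr
    have h2 : u =ᶠ[𝓝 (E r θ)] fun _ => 0 := by
      filter_upwards [isClosed_closedBall.isOpen_compl.mem_nhds h1] with z hz
      exact hs z hz
    rw [h2.fderiv_eq]
    simp
  have hF1z : ∀ r θ, ρ ≤ r → F1 (r, θ) = 0 := by
    intro r θ hr
    simp [hF1, hfd r θ hr]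
  have hF2z : ∀ r θ, ρ ≤ r → F2 (r, θ) = 0 := by
    intro r θ hr
    simp [hF2, hfd r θ hr]
  -- reduction to polar coordinates
  have e1 : CT (fun z => if z.im = b then 0 else dbar (D z)) ζ =
      ∫ z : ℂ, (if (z + ζ).im = b then 0 else dbar (D (z + ζ))) / z := by
    unfold CT
    rw [← integral_add_right_eq_self (fun z => (if z.im = b then 0 else dbar (D z)) / (z - ζ)) ζ]
    simp only [add_sub_cancel_right]
  rw [e1, ← Complex.integral_comp_polarCoord_symm]
  have e2 : ∫ p in polarCoord.target, p.1 • ((if (Complex.polarCoord.symm p + ζ).im = b then 0 else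
      dbar (D (Complex.polarCoord.symm p + ζ))) / (Complex.polarCoord.symm p)) =
      ∫ p in polarCoord.target, (1 / 2 : ℂ) * (F1 p + Complex.I * F2 p) := by
    refine setIntegral_congr_fun polarCoord.open_target.measurableSet ?_
    intro p hp
    have hp1 : 0 < p.1 := by
      rw [polarCoord_target] at hp
      exact hp.1
    have hsym : Complex.polarCoord.symm p = (p.1 : ℂ) * g1e p.2 := by
      rw [Complex.polarCoord_symm_apply]; rfl
    have hEp : Complex.polarCoord.symm p + ζ = E p.1 p.2 := by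
      rw [hsym, hE]; ring
    simp only [hEp]
    rw [hsym]
    simp only [hF1, hF2]
    split_ifs with h
    · simp
    · have h1 := dbar_rot (D (E p.1 p.2)) p.2
      rw [← hDf _ h, ← h1]
      have h2 : (p.1 : ℂ) ≠ 0 := by exact_mod_cast hp1.ne'
      have h3 := g1e_ne p.2
      rw [Complex.real_smul]
      field_simp
  rw [e2, polarCoord_target]
  -- restriction to a bounded rectangle
  set S : Set (ℝ × ℝ) := Ioc 0 ρ ×ˢ Ioo (-Real.pi) Real.pi with hS
  have e3 : ∫ p in Ioi (0 : ℝ) ×ˢ Ioo (-Real.pi) Real.pi, (1 / 2 : ℂ) * (F1 p + Complex.I * F2 p) =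
      ∫ p in S, (1 / 2 : ℂ) * (F1 p + Complex.I * F2 p) := by
    refine setIntegral_eq_of_subset_of_forall_sdiff_eq_zero ?_ ?_ ?_
    · exact measurableSet_Ioi.prod measurableSet_Ioo
    · exact Set.prod_mono Ioc_subset_Ioi_self (Subset.refl _)
    · rintro ⟨r, θ⟩ ⟨h1, h2⟩
      have hr : ρ ≤ r := by
        by_contra hlt
        push Not at hlt
        exact h2 ⟨⟨h1.1, hlt.le⟩, h1.2⟩
      rw [hF1z r θ hr, hF2z r θ hr]
      simp
  rw [e3]
  have hSfin : volume S < ⊤ := by
    rw [hS, Measure.volume_eq_prod, Measure.prod_prod]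
    exact ENNReal.mul_lt_top (by simp) (by simp)
  have hi1 : IntegrableOn F1 S := Measure.integrableOn_of_bounded hSfin.ne
    hF1m.aestronglyMeasurable (Filter.Eventually.of_forall hF1b)
  have hi2 : IntegrableOn F2 S := Measure.integrableOn_of_bounded hSfin.ne
    hF2m.aestronglyMeasurable (Filter.Eventually.of_forall hF2b)
  have e4 : ∫ p in S, (1 / 2 : ℂ) * (F1 p + Complex.I * F2 p) =
      (1 / 2 : ℂ) * ((∫ p in S, F1 p) + Complex.I * ∫ p in S, F2 p) := by
    rw [integral_const_mul, integral_add hi1 (hi2.const_mul _), integral_const_mul]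
  rw [e4]
  -- radial part
  have r1 : ∫ p in S, F1 p = -(2 * Real.pi : ℂ) * u ζ := by
    have hprod : ∫ p in S, F1 p = ∫ θ in Ioo (-Real.pi) Real.pi, ∫ r in Ioc 0 ρ, F1 (r, θ) := by
      have h0 : Integrable F1 ((volume.restrict (Ioc 0 ρ)).prod
          (volume.restrict (Ioo (-Real.pi) Real.pi))) := by
        rw [Measure.prod_restrict]
        exact hi1
      calc ∫ p in S, F1 p = ∫ p, F1 p ∂((volume.restrict (Ioc 0 ρ)).prod
          (volume.restrict (Ioo (-Real.pi) Real.pi))) := by
            rw [Measure.prod_restrict]; rfl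
        _ = _ := integral_prod_symm _ h0
    rw [hprod]
    have hin : ∀ᵐ θ ∂(volume.restrict (Ioo (-Real.pi) Real.pi)),
        ∫ r in Ioc 0 ρ, F1 (r, θ) = -u ζ := by
      rw [ae_restrict_iff' measurableSet_Ioo]
      have hne : ∀ᵐ θ : ℝ, θ ≠ 0 := by simp [ae_iff]
      filter_upwards [hne] with θ hθ hmem
      have hsin : Real.sin θ ≠ 0 := by
        intro h
        rw [Real.sin_eq_zero_iff_of_lt_of_lt hmem.1 hmem.2] at h
        exact hθ h
      have hcount : {r : ℝ | (E r θ).im = b}.Countable := by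
        refine (Set.countable_singleton ((b - ζ.im) / Real.sin θ)).mono ?_
        intro r hr
        have h1 : ζ.im + r * Real.sin θ = b := by rw [← hEim]; exact hr
        rw [mem_singleton_iff, eq_div_iff hsin]
        linarith
      have hcont : Continuous fun r : ℝ => E r θ := hEc.comp (continuous_id.prodMk continuous_const)
      have hint : IntervalIntegrable (fun r => F1 (r, θ)) volume 0 ρ := by
        rw [intervalIntegrable_iff, uIoc_of_le hρ0.le]
        exact Measure.integrableOn_of_bounded (by simp)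
          (hF1m.comp (measurable_id.prodMk measurable_const)).aestronglyMeasurable
          (Filter.Eventually.of_forall fun r => hF1b (r, θ))
      have hftc := MeasureTheory.integral_eq_of_hasDerivAt_off_countable
        (fun r => u (E r θ)) (fun r => F1 (r, θ)) hcount
        ((hu.comp hcont).continuousOn) (a := 0) (b := ρ) (by
          intro r hr
          have h1 : (E r θ).im ≠ b := hr.2
          have h2 : HasDerivAt (fun r : ℝ => E r θ) (g1e θ) r := by
            have h3 := ((hasDerivAt_id r).ofReal_comp.mul_const (g1e θ)).const_add ζ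
            simp only [Complex.ofReal_one, one_mul] at h3
            exact h3
          have h4 := (hD _ h1).comp_hasDerivAt r h2
          have h5 : F1 (r, θ) = D (E r θ) (g1e θ) := by
            simp only [hF1]
            rw [if_neg h1, hDf _ h1]
          show HasDerivAt (fun r => u (E r θ)) (F1 (r, θ)) r
          rw [h5]
          exact h4) hint
      rw [← intervalIntegral.integral_of_le hρ0.le, hftc, hs _ (hfar ρ θ le_rfl)]
      have h0 : E 0 θ = ζ := by rw [hE]; simp
      rw [h0, zero_sub]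
    rw [integral_congr_ae hin, integral_const]
    have hv : (volume.restrict (Ioo (-Real.pi) Real.pi)).real univ = 2 * Real.pi := by
      rw [Measure.real, Measure.restrict_apply_univ, Real.volume_Ioo, ENNReal.toReal_ofReal (by linarith [Real.pi_pos])]
      ring
    rw [hv, Complex.real_smul]
    push_cast
    ring
  have r2 : ∫ p in S, F2 p = 0 := by
    have h0 : IntegrableOn F2 (Ioc 0 ρ ×ˢ Ioo (-Real.pi) Real.pi) (volume.prod volume) := hi2
    have h1 := setIntegral_prod F2 h0
    rw [← Measure.volume_eq_prod, ← hS] at h1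
    rw [h1]
    refine setIntegral_eq_zero_of_forall_eq_zero ?_
    intro r hr
    have hr0 : 0 < r := hr.1
    have hpi := Real.pi_pos
    have hcount : {θ : ℝ | (E r θ).im = b}.Countable := by
      refine (sin_countable ((b - ζ.im) / r)).mono ?_
      intro θ hθ
      have h1 : ζ.im + r * Real.sin θ = b := by rw [← hEim]; exact hθ
      show Real.sin θ = (b - ζ.im) / r
      rw [eq_div_iff hr0.ne']
      linarith
    have hcont : Continuous fun θ : ℝ => E r θ := hEc.comp (continuous_const.prodMk continuous_id)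
    have hint : IntervalIntegrable (fun θ => (r : ℂ) * F2 (r, θ)) volume (-Real.pi) Real.pi := by
      rw [intervalIntegrable_iff, uIoc_of_le (by linarith)]
      refine Integrable.const_mul ?_ _
      exact Measure.integrableOn_of_bounded (by simp)
        (hF2m.comp (measurable_const.prodMk measurable_id)).aestronglyMeasurable
        (Filter.Eventually.of_forall fun θ => hF2b (r, θ))
    have hftc := MeasureTheory.integral_eq_of_hasDerivAt_off_countable
      (fun θ => u (E r θ)) (fun θ => (r : ℂ) * F2 (r, θ)) hcount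
      ((hu.comp hcont).continuousOn) (a := -Real.pi) (b := Real.pi) (by
        intro θ hθ
        have h1 : (E r θ).im ≠ b := hθ.2
        have h2 : HasDerivAt (fun θ : ℝ => E r θ) ((r : ℂ) * (Complex.I * g1e θ)) θ := by
          exact ((g1e_deriv θ).const_mul (r : ℂ)).const_add ζ
        have h4 := (hD _ h1).comp_hasDerivAt θ h2
        have h5 : (r : ℂ) * F2 (r, θ) = D (E r θ) ((r : ℂ) * (Complex.I * g1e θ)) := by
          simp only [hF2]
          rw [if_neg h1, hDf _ h1, ← Complex.real_smul, ← Complex.real_smul, map_smul]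
        show HasDerivAt (fun θ => u (E r θ)) ((r : ℂ) * F2 (r, θ)) θ
        rw [h5]
        exact h4) hint
    have hper : E r Real.pi = E r (-Real.pi) := by
      rw [hE]
      simp [g1e]
    rw [← integral_Ioc_eq_integral_Ioo, ← intervalIntegral.integral_of_le (by linarith)]
    rw [hper, sub_self, intervalIntegral.integral_const_mul] at hftc
    rcases mul_eq_zero.mp hftc with h | h
    · exact absurd h (by exact_mod_cast hr0.ne')
    · exact h
  rw [r1, r2]
  ring

end Pool.Agent.EAC
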