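import Pool.Agent.EAC.GB

/-!
# EAC-G2: basic properties of the Cauchy transform

`ct_integrable`, `ct_bound`: `int_inv_norm`. `ct_lip`: `CT w ζ = ∫ w(ζ+s)/s ds` (translation invariance), so
`CT w ζ₁ - CT w ζ₂ = ∫ (w(ζ₁+s) - w(ζ₂+s))/s ds`, the integrand is supported in two discs of radius `R`.
`ct_smooth_far`: if `w` vanishes on `ball ζ₀ (2δ)`, `‖1/(z-ζ₁) - 1/(z-ζ₂)‖ ≤ ‖ζ₁-ζ₂‖/δ²` for `ζ₁, ζ₂ ∈ ball ζ₀ δ`.
`ct_shift`: change of variables.  `ct_conj`: reflection: change of variables `z ↦ rfl' b z` (measure preserving).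
-/

set_option autoImplicit false

noncomputable section

namespace Pool.Agent.EAC

open MeasureTheory Set Filter Topology Metric
open scoped ENNReal ComplexConjugate

private theorem norm_div_le_aux {w : ℂ → ℂ} {B : ℝ} (hB : ∀ z, ‖w z‖ ≤ B) (ζ z : ℂ) :
    ‖w z / (z - ζ)‖ ≤ B * ‖z - ζ‖⁻¹ := by
  rw [norm_div, div_eq_mul_inv]
  exact mul_le_mul_of_nonneg_right (hB z) (by positivity)

theorem ct_integrable {w : ℂ → ℂ} {c : ℂ} {R B : ℝ} (hm : AEStronglyMeasurable w volume)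
    (hB : ∀ z, ‖w z‖ ≤ B) (hs : ∀ z, z ∉ closedBall c R → w z = 0) (ζ : ℂ) :
    Integrable (fun z => w z / (z - ζ)) := by
  have hR' : (0 : ℝ) < max R 1 := lt_of_lt_of_le one_pos (le_max_right _ _)
  have hsub : Function.support (fun z => w z / (z - ζ)) ⊆ closedBall c (max R 1) := by
    intro z hz
    by_contra h
    apply hz
    have : z ∉ closedBall c R := fun h' => h (closedBall_subset_closedBall (le_max_left _ _) h')
    simp [hs z this]
  rw [← integrableOn_iff_integrable_of_support_subset hsub]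
  refine Integrable.mono' ((int_inv_norm hR' c ζ).1.const_mul B) ?_ (ae_of_all _ fun z => ?_)
  · refine AEStronglyMeasurable.restrict ?_
    simp only [div_eq_mul_inv]
    exact hm.mul ((measurable_id.sub_const ζ).inv.aestronglyMeasurable)
  · exact norm_div_le_aux hB ζ z

theorem ct_bound {w : ℂ → ℂ} {c : ℂ} {R B : ℝ} (hR : 0 < R) (hB : ∀ z, ‖w z‖ ≤ B)
    (hs : ∀ z, z ∉ closedBall c R → w z = 0) (ζ : ℂ) : ‖CT w ζ‖ ≤ 6 * Real.pi * R * B := by
  have hB0 : 0 ≤ B := (norm_nonneg _).trans (hB 0)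
  obtain ⟨h1, h2⟩ := int_inv_norm hR c ζ
  have e : CT w ζ = ∫ z in closedBall c R, w z / (z - ζ) := by
    unfold CT
    rw [setIntegral_eq_integral_of_forall_compl_eq_zero]
    intro z hz
    simp [hs z hz]
  rw [e]
  have h3 : ‖∫ z in closedBall c R, w z / (z - ζ)‖ ≤ ∫ z in closedBall c R, B * ‖z - ζ‖⁻¹ :=
    norm_integral_le_of_norm_le (h1.const_mul B) (ae_of_all _ fun z => norm_div_le_aux hB ζ z)
  rw [integral_const_mul] at h3
  have h4 := mul_le_mul_of_nonneg_left h2 hB0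
  calc _ ≤ _ := h3
    _ ≤ _ := h4
    _ = _ := by ring

private theorem ct_trans (w : ℂ → ℂ) (ζ : ℂ) : CT w ζ = ∫ s, w (ζ + s) / s := by
  unfold CT
  rw [← integral_add_left_eq_self (fun z => w z / (z - ζ)) ζ]
  congr 1
  funext s
  simp

theorem ct_lip {w : ℂ → ℂ} {c : ℂ} {R L : ℝ} (hR : 0 < R)
    (hL : ∀ z z', ‖w z - w z'‖ ≤ L * ‖z - z'‖) (hs : ∀ z, z ∉ closedBall c R → w z = 0)
    (ζ₁ ζ₂ : ℂ) : ‖CT w ζ₁ - CT w ζ₂‖ ≤ 12 * Real.pi * R * L * ‖ζ₁ - ζ₂‖ := by
  have hL0 : 0 ≤ L := by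
    have := hL 1 0
    simp at this
    exact (norm_nonneg _).trans this
  have hcont : Continuous w := by
    have : LipschitzWith (Real.toNNReal L) w := by
      refine LipschitzWith.of_dist_le_mul fun z z' => ?_
      rw [dist_eq_norm, dist_eq_norm, Real.coe_toNNReal _ hL0]
      exact hL z z'
    exact this.continuous
  have hcs : HasCompactSupport w :=
    HasCompactSupport.intro (isCompact_closedBall c R) (fun z hz => hs z hz)
  obtain ⟨B, hB⟩ := hcont.bounded_above_of_compact_support hcs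
  have hint : ∀ ζ, Integrable (fun s => w (ζ + s) / s) := by
    intro ζ
    have h := ct_integrable hcont.aestronglyMeasurable hB hs ζ
    have h2 := h.comp_add_left ζ
    refine h2.congr (ae_of_all _ fun s => ?_)
    simp
  rw [ct_trans, ct_trans, ← integral_sub (hint ζ₁) (hint ζ₂)]
  obtain ⟨a1, a2⟩ := int_inv_norm hR (c - ζ₁) 0
  obtain ⟨b1, b2⟩ := int_inv_norm hR (c - ζ₂) 0
  set g : ℂ → ℝ := fun s => L * ‖ζ₁ - ζ₂‖ *
    ((closedBall (c - ζ₁) R).indicator (fun z : ℂ => ‖z - 0‖⁻¹) s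
      + (closedBall (c - ζ₂) R).indicator (fun z : ℂ => ‖z - 0‖⁻¹) s) with hg
  have i1 : Integrable ((closedBall (c - ζ₁) R).indicator (fun z : ℂ => ‖z - 0‖⁻¹)) :=
    (integrable_indicator_iff measurableSet_closedBall).2 a1
  have i2 : Integrable ((closedBall (c - ζ₂) R).indicator (fun z : ℂ => ‖z - 0‖⁻¹)) :=
    (integrable_indicator_iff measurableSet_closedBall).2 b1
  have hgi : Integrable g := (i1.add i2).const_mul _
  have hval : ∫ s, g s ≤ 12 * Real.pi * R * L * ‖ζ₁ - ζ₂‖ := by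
    rw [hg, integral_const_mul, integral_add i1 i2, integral_indicator measurableSet_closedBall,
      integral_indicator measurableSet_closedBall]
    have h0 : 0 ≤ L * ‖ζ₁ - ζ₂‖ := mul_nonneg hL0 (norm_nonneg _)
    have := mul_le_mul_of_nonneg_left (add_le_add a2 b2) h0
    calc _ ≤ _ := this
      _ = _ := by ring
  refine (norm_integral_le_of_norm_le hgi (ae_of_all _ fun s => ?_)).trans hval
  have hnn1 : 0 ≤ (closedBall (c - ζ₁) R).indicator (fun z : ℂ => ‖z - 0‖⁻¹) s :=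
    indicator_nonneg (fun _ _ => by positivity) _
  have hnn2 : 0 ≤ (closedBall (c - ζ₂) R).indicator (fun z : ℂ => ‖z - 0‖⁻¹) s :=
    indicator_nonneg (fun _ _ => by positivity) _
  have hkey : ‖w (ζ₁ + s) / s - w (ζ₂ + s) / s‖ ≤ L * ‖ζ₁ - ζ₂‖ * ‖s - 0‖⁻¹ := by
    rw [← sub_div, norm_div, div_eq_mul_inv, sub_zero]
    refine mul_le_mul_of_nonneg_right ?_ (by positivity)
    refine (hL _ _).trans (le_of_eq ?_)
    congr 2
    ring
  have h0 : 0 ≤ L * ‖ζ₁ - ζ₂‖ := mul_nonneg hL0 (norm_nonneg _)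
  by_cases m1 : s ∈ closedBall (c - ζ₁) R
  · have : ‖s - 0‖⁻¹ = (closedBall (c - ζ₁) R).indicator (fun z : ℂ => ‖z - 0‖⁻¹) s := by
      rw [indicator_of_mem m1]
    rw [this] at hkey
    refine hkey.trans ?_
    exact mul_le_mul_of_nonneg_left (le_add_of_nonneg_right hnn2) h0
  · by_cases m2 : s ∈ closedBall (c - ζ₂) R
    · have : ‖s - 0‖⁻¹ = (closedBall (c - ζ₂) R).indicator (fun z : ℂ => ‖z - 0‖⁻¹) s := by
        rw [indicator_of_mem m2]
      rw [this] at hkey
      refine hkey.trans ?_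
      exact mul_le_mul_of_nonneg_left (le_add_of_nonneg_left hnn1) h0
    · have e1 : w (ζ₁ + s) = 0 := by
        apply hs
        intro h
        apply m1
        rw [mem_closedBall, dist_eq_norm] at h ⊢
        convert h using 2
        ring
      have e2 : w (ζ₂ + s) = 0 := by
        apply hs
        intro h
        apply m2
        rw [mem_closedBall, dist_eq_norm] at h ⊢
        convert h using 2
        ring
      rw [e1, e2]
      simp only [zero_div, sub_zero, norm_zero]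
      exact mul_nonneg h0 (add_nonneg (by simpa using hnn1) (by simpa using hnn2))

theorem ct_far {w : ℂ → ℂ} {c ζ₀ : ℂ} {R B δ : ℝ} (hR : 0 < R) (hδ : 0 < δ)
    (hm : AEStronglyMeasurable w volume) (hB : ∀ z, ‖w z‖ ≤ B)
    (hs : ∀ z, z ∉ closedBall c R → w z = 0) (hz : ∀ z ∈ ball ζ₀ (2 * δ), w z = 0)
    {ζ₁ ζ₂ : ℂ} (h1 : ζ₁ ∈ closedBall ζ₀ δ) (h2 : ζ₂ ∈ closedBall ζ₀ δ) :
    ‖CT w ζ₁ - CT w ζ₂‖ ≤ Real.pi * R ^ 2 * B / δ ^ 2 * ‖ζ₁ - ζ₂‖ := by
  have hB0 : 0 ≤ B := (norm_nonneg _).trans (hB 0)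
  have i1 := ct_integrable hm hB hs ζ₁
  have i2 := ct_integrable hm hB hs ζ₂
  unfold CT
  rw [← integral_sub i1 i2,
    ← setIntegral_eq_integral_of_forall_compl_eq_zero (s := closedBall c R)
      (fun z hz => by simp [hs z hz])]
  have hvol : volume.real (closedBall c R) = Real.pi * R ^ 2 := by
    rw [Measure.real, Complex.volume_closedBall, ENNReal.toReal_mul, ENNReal.toReal_pow,
      ENNReal.toReal_ofReal hR.le]
    simp [mul_comm]
  have hlt : volume (closedBall c R) < ⊤ := measure_closedBall_lt_top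
  have := norm_setIntegral_le_of_norm_le_const (f := fun z => w z / (z - ζ₁) - w z / (z - ζ₂))
    (C := B / δ ^ 2 * ‖ζ₁ - ζ₂‖) hlt (fun z _ => by
      by_cases hzb : z ∈ ball ζ₀ (2 * δ)
      · simp only [hz z hzb, zero_div, sub_self, norm_zero]
        positivity
      · have hd : 2 * δ ≤ ‖z - ζ₀‖ := by
          rw [mem_ball, dist_eq_norm, not_lt] at hzb
          exact hzb
        rw [mem_closedBall, dist_eq_norm] at h1 h2
        have d1 : δ ≤ ‖z - ζ₁‖ := by
          have : ‖z - ζ₀‖ ≤ ‖z - ζ₁‖ + ‖ζ₁ - ζ₀‖ := by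
            have := norm_add_le (z - ζ₁) (ζ₁ - ζ₀)
            simpa using this
          linarith
        have d2 : δ ≤ ‖z - ζ₂‖ := by
          have : ‖z - ζ₀‖ ≤ ‖z - ζ₂‖ + ‖ζ₂ - ζ₀‖ := by
            have := norm_add_le (z - ζ₂) (ζ₂ - ζ₀)
            simpa using this
          linarith
        have n1 : z - ζ₁ ≠ 0 := norm_pos_iff.1 (hδ.trans_le d1)
        have n2 : z - ζ₂ ≠ 0 := norm_pos_iff.1 (hδ.trans_le d2)
        have e : w z / (z - ζ₁) - w z / (z - ζ₂) = w z * (ζ₁ - ζ₂) / ((z - ζ₁) * (z - ζ₂)) := by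
          field_simp
          ring
        rw [e, norm_div, norm_mul, norm_mul, div_mul_eq_mul_div]
        have hd2 : δ ^ 2 ≤ ‖z - ζ₁‖ * ‖z - ζ₂‖ := by
          rw [sq]
          exact mul_le_mul d1 d2 hδ.le (norm_nonneg _)
        have hp : 0 < δ ^ 2 := by positivity
        refine div_le_div₀ (by positivity) ?_ hp hd2
        exact mul_le_mul_of_nonneg_right (hB z) (norm_nonneg _))
  rw [hvol] at this
  calc _ ≤ _ := this
    _ = _ := by ring

theorem ct_add {w₁ w₂ : ℂ → ℂ} {ζ : ℂ} (h1 : Integrable (fun z => w₁ z / (z - ζ)))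
    (h2 : Integrable (fun z => w₂ z / (z - ζ))) :
    CT (fun z => w₁ z + w₂ z) ζ = CT w₁ ζ + CT w₂ ζ := by
  unfold CT
  rw [← integral_add h1 h2]
  congr 1
  funext z
  rw [add_div]

theorem ct_smul (a : ℂ) (w : ℂ → ℂ) (ζ : ℂ) : CT (fun z => a * w z) ζ = a * CT w ζ := by
  unfold CT
  rw [← integral_const_mul]
  congr 1
  funext z
  rw [mul_div_assoc]

theorem ct_shift (w : ℂ → ℂ) (c ζ : ℂ) : CT (fun z => w (z - c)) ζ = CT w (ζ - c) := by
  unfold CT
  rw [← integral_sub_right_eq_self (fun z => w z / (z - (ζ - c))) c]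
  congr 1
  funext z
  congr 1
  ring

theorem ct_conj (w : ℂ → ℂ) (b : ℝ) (ζ : ℂ) :
    CT (fun z => conj (w (rfl' b z))) ζ = conj (CT w (rfl' b ζ)) := by
  have hcv : ∀ g : ℂ → ℂ, ∫ z, g (rfl' b z) = ∫ z, g z := by
    intro g
    unfold rfl'
    have h1 : ∫ z : ℂ, g (conj z + (2 * b : ℝ) * Complex.I)
        = ∫ z : ℂ, g (z + (2 * b : ℝ) * Complex.I) := by
      have := (Complex.conjLIE.measurePreserving).integral_comp
        (Complex.conjLIE.toHomeomorph.measurableEmbedding)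
        (fun z : ℂ => g (z + (2 * b : ℝ) * Complex.I))
      exact this
    rw [h1]
    exact integral_add_right_eq_self g _
  unfold CT
  rw [← integral_conj, ← hcv]
  congr 1
  funext z
  change conj (w (rfl' b (rfl' b z))) / (rfl' b z - ζ) = _
  rw [rfl'_rfl', map_div₀]
  congr 1
  unfold rfl'
  simp only [map_sub, map_add, Complex.conj_conj, map_mul, Complex.conj_ofReal, Complex.conj_I]
  ring

end Pool.Agent.EAC
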