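import Pool.Agent.EAC.G1
import Pool.Agent.EAC.G2

/-!
# EAC-G3: the Cauchy transform of `χ 1_{Im ≥ 0}` is Lipschitz

`u z = χ z * u0 z`, `u0 z = -2 i max (Im z) 0`, `χ = bmp R`. `u` is continuous, supported in `closedBall 0 (8R)`,
differentiable off `Im = 0` with bounded derivative, and `∂̄ u = χ 1_{Im>0} + u0 ∂̄χ` (`∂̄(z̄ - z) = 1`). `ct_rep`:
`CT(χ 1_{Im ≥ 0}) = -π u - CT(u0 ∂̄χ)` (the line has measure 0). `u` is Lipschitz; `u0 ∂̄χ` is Lipschitz with compact support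
(`∂̄χ = ½ (χ_x + i χ_y)` is smooth, compactly supported), so `ct_lip` applies.
-/

set_option autoImplicit false

noncomputable section

namespace Pool.Agent.EAC

open MeasureTheory Set Filter Topology Metric
open scoped ENNReal ComplexConjugate

private def eg3u (z : ℂ) : ℂ := ((-2 * max z.im 0 : ℝ) : ℂ) * Complex.I

private theorem eg3u_lip (z w : ℂ) : ‖eg3u z - eg3u w‖ ≤ 2 * ‖z - w‖ := by
  unfold eg3u
  rw [← sub_mul, norm_mul, Complex.norm_I, mul_one, ← Complex.ofReal_sub, Complex.norm_real,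
    Real.norm_eq_abs]
  have h1 : |max z.im 0 - max w.im 0| ≤ |z.im - w.im| := abs_max_sub_max_le_abs _ _ _
  have h2 : |z.im - w.im| ≤ ‖z - w‖ := by
    have := Complex.abs_im_le_norm (z - w)
    rwa [Complex.sub_im] at this
  have e : -2 * max z.im 0 - -2 * max w.im 0 = -2 * (max z.im 0 - max w.im 0) := by ring
  rw [e, abs_mul, abs_neg, abs_two]
  linarith

private theorem eg3u_bd (z : ℂ) : ‖eg3u z‖ ≤ 2 * ‖z‖ := by
  have h := eg3u_lip z 0
  have h0 : eg3u 0 = 0 := by simp [eg3u]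
  rwa [h0, sub_zero, sub_zero] at h

private theorem eg3_mul {f : ℂ → ℂ} {L M ρ : ℝ} (hL0 : 0 ≤ L) (hρ : 0 ≤ ρ)
    (hL : ∀ z w, ‖f z - f w‖ ≤ L * ‖z - w‖) (hM : ∀ z, ‖f z‖ ≤ M)
    (hs : ∀ z, z ∉ closedBall (0 : ℂ) ρ → f z = 0) (z w : ℂ) :
    ‖f z * eg3u z - f w * eg3u w‖ ≤ (2 * M + 2 * ρ * L) * ‖z - w‖ := by
  have hM0 : 0 ≤ M := le_trans (norm_nonneg _) (hM 0)
  have hn : 0 ≤ ‖z - w‖ := norm_nonneg _
  by_cases hw : w ∈ closedBall (0 : ℂ) ρ
  · have hw' : ‖w‖ ≤ ρ := by simpa using hw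
    have e : f z * eg3u z - f w * eg3u w = f z * (eg3u z - eg3u w) + (f z - f w) * eg3u w := by
      ring
    rw [e]
    refine le_trans (norm_add_le _ _) ?_
    rw [norm_mul, norm_mul]
    have a1 : ‖f z‖ * ‖eg3u z - eg3u w‖ ≤ M * (2 * ‖z - w‖) :=
      mul_le_mul (hM z) (eg3u_lip z w) (norm_nonneg _) hM0
    have a2 : ‖f z - f w‖ * ‖eg3u w‖ ≤ (L * ‖z - w‖) * (2 * ρ) :=
      mul_le_mul (hL z w) (le_trans (eg3u_bd w) (by linarith)) (norm_nonneg _) (by positivity)
    nlinarith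
  · rw [hs w hw, zero_mul, sub_zero, norm_mul]
    by_cases hz : z ∈ closedBall (0 : ℂ) ρ
    · have hz' : ‖z‖ ≤ ρ := by simpa using hz
      have a1 : ‖f z‖ ≤ L * ‖z - w‖ := by
        have := hL z w
        rwa [hs w hw, sub_zero] at this
      have a2 : ‖f z‖ * ‖eg3u z‖ ≤ (L * ‖z - w‖) * (2 * ρ) :=
        mul_le_mul a1 (le_trans (eg3u_bd z) (by linarith)) (norm_nonneg _) (by positivity)
      have a3 : 0 ≤ M * ‖z - w‖ := by positivity
      nlinarith
    · rw [hs z hz, norm_zero, zero_mul]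
      positivity

/-- `∂̄χ`. -/
private def eg3g (R : ℝ) (z : ℂ) : ℂ :=
  (1 / 2 : ℂ) * (((fderiv ℝ (bmp R) z 1 : ℝ) : ℂ) +
    Complex.I * ((fderiv ℝ (bmp R) z Complex.I : ℝ) : ℂ))

private theorem eg3_supp {R : ℝ} (hR : 0 < R) : HasCompactSupport (bmp R) := by
  refine HasCompactSupport.intro (isCompact_closedBall (0 : ℂ) (8 * R)) fun z hz => ?_
  apply bmp_zero hR
  rw [mem_closedBall, dist_zero_right, not_le] at hz
  exact hz.le

private theorem eg3g_smooth (R : ℝ) : ContDiff ℝ 1 (eg3g R) := by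
  have h0 : ContDiff ℝ 1 (fderiv ℝ (bmp R)) :=
    (bmp_smooth R).fderiv_right (m := 1) (by norm_cast)
  have h1 : ContDiff ℝ 1 fun z => fderiv ℝ (bmp R) z 1 := h0.clm_apply contDiff_const
  have h2 : ContDiff ℝ 1 fun z => fderiv ℝ (bmp R) z Complex.I := h0.clm_apply contDiff_const
  have h3 : ContDiff ℝ 1 fun z => ((fderiv ℝ (bmp R) z 1 : ℝ) : ℂ) :=
    Complex.ofRealCLM.contDiff.comp h1
  have h4 : ContDiff ℝ 1 fun z => ((fderiv ℝ (bmp R) z Complex.I : ℝ) : ℂ) :=
    Complex.ofRealCLM.contDiff.comp h2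
  unfold eg3g
  exact contDiff_const.mul (h3.add (contDiff_const.mul h4))

private theorem eg3g_zero {R : ℝ} (hR : 0 < R) {z : ℂ} (hz : z ∉ closedBall (0 : ℂ) (8 * R)) :
    eg3g R z = 0 := by
  have h1 : bmp R =ᶠ[𝓝 z] fun _ => (0 : ℝ) := by
    have ho : IsOpen (closedBall (0 : ℂ) (8 * R))ᶜ := isClosed_closedBall.isOpen_compl
    filter_upwards [ho.mem_nhds hz] with w hw
    apply bmp_zero hR
    rw [mem_compl_iff, mem_closedBall, dist_zero_right, not_le] at hw
    exact hw.le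
  have h2 : fderiv ℝ (bmp R) z = 0 := by
    rw [h1.fderiv_eq]
    simp
  simp [eg3g, h2]

private theorem eg3g_supp {R : ℝ} (hR : 0 < R) : HasCompactSupport (eg3g R) :=
  HasCompactSupport.intro (isCompact_closedBall (0 : ℂ) (8 * R)) fun _ hz => eg3g_zero hR hz

private theorem eg3g_lip {R : ℝ} (hR : 0 < R) : ∃ L ≥ (0 : ℝ), ∀ z w : ℂ,
    ‖eg3g R z - eg3g R w‖ ≤ L * ‖z - w‖ := by
  obtain ⟨C, hC⟩ := (eg3g_smooth R).lipschitzWith_of_hasCompactSupport (eg3g_supp hR)
    one_ne_zero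
  exact ⟨C, C.2, fun z w => by
    have := hC.dist_le_mul z w
    rwa [dist_eq_norm, dist_eq_norm] at this⟩

private theorem eg3g_bd {R : ℝ} (hR : 0 < R) : ∃ M : ℝ, ∀ z : ℂ, ‖eg3g R z‖ ≤ M := by
  obtain ⟨M, hM⟩ := (eg3g_supp hR).exists_bound_of_continuous (eg3g_smooth R).continuous
  exact ⟨M, hM⟩

/-- the function `u`. -/
private def eg3U (R : ℝ) (z : ℂ) : ℂ := (bmp R z : ℂ) * eg3u z

private theorem eg3U_lip {R : ℝ} (hR : 0 < R) : ∃ L ≥ (0 : ℝ), ∀ z w : ℂ,
    ‖eg3U R z - eg3U R w‖ ≤ L * ‖z - w‖ := by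
  obtain ⟨L, hL0, hL⟩ := bmp_lip hR
  refine ⟨2 * 1 + 2 * (8 * R) * L, by positivity, fun z w => ?_⟩
  refine eg3_mul (f := fun z => (bmp R z : ℂ)) hL0 (by positivity) ?_ ?_ ?_ z w
  · intro z w
    rw [← Complex.ofReal_sub, Complex.norm_real, Real.norm_eq_abs]
    exact hL z w
  · intro z
    rw [Complex.norm_real, Real.norm_eq_abs, abs_of_nonneg (bmp_mem R z).1]
    exact (bmp_mem R z).2
  · intro z hz
    rw [mem_closedBall, dist_zero_right, not_le] at hz
    rw [bmp_zero hR hz.le, Complex.ofReal_zero]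

private theorem eg3U_pos {R : ℝ} {z : ℂ} (hz : 0 < z.im) :
    HasFDerivAt (eg3U R) (((bmp R z : ℂ) • ((-2 * Complex.I) • (Complex.ofRealCLM.comp
      Complex.imCLM))) + (Complex.ofRealCLM.comp (fderiv ℝ (bmp R) z)).smulRight
      (eg3u z)) z := by
  have h1 : HasFDerivAt (fun z => (bmp R z : ℂ))
      (Complex.ofRealCLM.comp (fderiv ℝ (bmp R) z)) z := by
    have := ((bmp_smooth R).differentiable (by norm_num) z).hasFDerivAt
    exact Complex.ofRealCLM.hasFDerivAt.comp z this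
  have h2 : HasFDerivAt (fun z : ℂ => (-2 * Complex.I) * ((z.im : ℝ) : ℂ))
      ((-2 * Complex.I) • (Complex.ofRealCLM.comp Complex.imCLM)) z := by
    have : HasFDerivAt (fun z : ℂ => ((z.im : ℝ) : ℂ)) (Complex.ofRealCLM.comp Complex.imCLM) z :=
      (Complex.ofRealCLM.comp Complex.imCLM).hasFDerivAt
    exact this.const_mul _
  have h3 : eg3u =ᶠ[𝓝 z] fun z : ℂ => (-2 * Complex.I) * ((z.im : ℝ) : ℂ) := by
    have ho : IsOpen {w : ℂ | 0 < w.im} := isOpen_lt continuous_const Complex.continuous_im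
    filter_upwards [ho.mem_nhds hz] with w hw
    have hw' : 0 ≤ w.im := le_of_lt hw
    unfold eg3u
    rw [max_eq_left hw']
    push_cast
    ring
  have h4 : HasFDerivAt eg3u ((-2 * Complex.I) • (Complex.ofRealCLM.comp Complex.imCLM)) z :=
    h2.congr_of_eventuallyEq h3
  exact h1.mul' h4

private theorem eg3U_neg {R : ℝ} {z : ℂ} (hz : z.im < 0) :
    HasFDerivAt (eg3U R) (0 : ℂ →L[ℝ] ℂ) z := by
  have h3 : eg3U R =ᶠ[𝓝 z] fun _ : ℂ => (0 : ℂ) := by
    have ho : IsOpen {w : ℂ | w.im < 0} := isOpen_lt Complex.continuous_im continuous_const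
    filter_upwards [ho.mem_nhds hz] with w hw
    have hw' : w.im ≤ 0 := le_of_lt hw
    unfold eg3U eg3u
    rw [max_eq_right hw']
    simp
  exact (hasFDerivAt_const (0 : ℂ) z).congr_of_eventuallyEq h3

private theorem eg3_dbar {R : ℝ} {z : ℂ} (hz : z.im ≠ 0) :
    dbar (fderiv ℝ (eg3U R) z) =
      (if 0 ≤ z.im then (bmp R z : ℂ) else 0) + eg3g R z * eg3u z := by
  rcases lt_or_gt_of_ne hz with h | h
  · rw [(eg3U_neg h).fderiv, if_neg (not_le.mpr h)]
    unfold dbar eg3u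
    rw [max_eq_right h.le]
    simp
  · rw [(eg3U_pos h).fderiv, if_pos h.le]
    unfold dbar eg3g
    simp only [_root_.add_apply, _root_.smul_apply,
      ContinuousLinearMap.comp_apply, Complex.imCLM_apply, Complex.ofRealCLM_apply,
      ContinuousLinearMap.smulRight_apply, Complex.one_im, Complex.I_im, smul_eq_mul,
      Complex.ofReal_zero, Complex.ofReal_one]
    linear_combination (-(bmp R z : ℂ)) * Complex.I_sq

private theorem eg3_null : (volume : Measure ℂ) {z : ℂ | z.im = 0} = 0 := by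
  have h := Measure.addHaar_submodule (volume : Measure ℂ) (LinearMap.ker Complex.imLm)
    (by
      intro h
      have : Complex.I ∈ LinearMap.ker Complex.imLm := by rw [h]; trivial
      simp at this)
  have e : ((LinearMap.ker Complex.imLm : Submodule ℝ ℂ) : Set ℂ) = {z : ℂ | z.im = 0} := by
    ext z
    simp
  rwa [e] at h

theorem halfplane_lip {R : ℝ} (hR : 0 < R) : ∃ L ≥ 0, ∀ ζ₁ ζ₂ : ℂ,
    ‖CT (fun z => if 0 ≤ z.im then (bmp R z : ℂ) else 0) ζ₁ -
      CT (fun z => if 0 ≤ z.im then (bmp R z : ℂ) else 0) ζ₂‖ ≤ L * ‖ζ₁ - ζ₂‖ := by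
  obtain ⟨L, hL0, hL⟩ := eg3U_lip hR
  obtain ⟨Lg, hLg0, hLg⟩ := eg3g_lip hR
  obtain ⟨M, hM⟩ := eg3g_bd hR
  have hM0 : 0 ≤ M := le_trans (norm_nonneg _) (hM 0)
  have hR8 : 0 < 8 * R := by positivity
  set e : ℂ → ℂ := fun z => eg3g R z * eg3u z with he
  set k1 : ℂ → ℂ := fun z => if 0 ≤ z.im then (bmp R z : ℂ) else 0 with hk1
  set Le : ℝ := 2 * M + 2 * (8 * R) * Lg with hLe
  have heL : ∀ z w, ‖e z - e w‖ ≤ Le * ‖z - w‖ := fun z w =>
    eg3_mul hLg0 hR8.le hLg hM (fun z hz => eg3g_zero hR hz) z w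
  have hes : ∀ z, z ∉ closedBall (0 : ℂ) (8 * R) → e z = 0 := fun z hz => by
    rw [he]
    simp only
    rw [eg3g_zero hR hz, zero_mul]
  have hu0 : Continuous eg3u := by unfold eg3u; fun_prop
  have hec : Continuous e := (eg3g_smooth R).continuous.mul hu0
  have hUs : ∀ z, z ∉ closedBall (0 : ℂ) (8 * R) → eg3U R z = 0 := fun z hz => by
    rw [mem_closedBall, dist_zero_right, not_le] at hz
    unfold eg3U
    rw [bmp_zero hR hz.le, Complex.ofReal_zero, zero_mul]
  have hUc : Continuous (eg3U R) := by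
    have := (bmp_smooth R).continuous
    unfold eg3U
    exact (Complex.continuous_ofReal.comp this).mul hu0
  have hbe : ∀ z, ‖e z‖ ≤ M * (2 * (8 * R)) := by
    intro z
    by_cases hz : z ∈ closedBall (0 : ℂ) (8 * R)
    · have hz' : ‖z‖ ≤ 8 * R := by simpa using hz
      rw [he]
      simp only
      rw [norm_mul]
      exact mul_le_mul (hM z) (le_trans (eg3u_bd z) (by linarith)) (norm_nonneg _) hM0
    · rw [hes z hz, norm_zero]
      positivity
  have hrep : ∀ ζ : ℂ, CT k1 ζ = -(Real.pi : ℂ) * eg3U R ζ - CT e ζ := by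
    intro ζ
    have h := ct_rep (u := eg3U R) (D := fun z => fderiv ℝ (eg3U R) z) (b := 0) (B := L)
      (R := 8 * R) (c := 0) hUc hUs
      (fun z hz => by
        rcases lt_or_gt_of_ne hz with h | h
        · exact (eg3U_neg h).differentiableAt.hasFDerivAt
        · exact (eg3U_pos h).differentiableAt.hasFDerivAt)
      (fun z _ => by
        have hlw : LipschitzWith (Real.toNNReal L) (eg3U R) :=
          LipschitzWith.of_dist_le_mul fun z w => by
            rw [dist_eq_norm, dist_eq_norm, Real.coe_toNNReal L hL0]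
            exact hL z w
        have := norm_fderiv_le_of_lipschitz ℝ hlw (x₀ := z)
        rwa [Real.coe_toNNReal L hL0] at this) ζ
    have hae : CT (fun z => if z.im = (0 : ℝ) then 0 else dbar (fderiv ℝ (eg3U R) z)) ζ =
        CT (fun z => k1 z + e z) ζ := by
      unfold CT
      refine integral_congr_ae ?_
      have hn : ∀ᵐ z : ℂ ∂volume, z.im ≠ 0 := by
        rw [ae_iff]
        simpa using eg3_null
      filter_upwards [hn] with z hz
      rw [if_neg hz, eg3_dbar hz]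
    have hk1m : AEStronglyMeasurable k1 volume := by
      have hm : Measurable k1 := by
        refine Measurable.ite ?_ ?_ measurable_const
        · exact measurableSet_le measurable_const Complex.measurable_im
        · exact (Complex.continuous_ofReal.comp (bmp_smooth R).continuous).measurable
      exact hm.aestronglyMeasurable
    have hk1b : ∀ z, ‖k1 z‖ ≤ 1 := by
      intro z
      rw [hk1]
      simp only
      split_ifs
      · rw [Complex.norm_real, Real.norm_eq_abs, abs_of_nonneg (bmp_mem R z).1]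
        exact (bmp_mem R z).2
      · simp
    have hk1s : ∀ z, z ∉ closedBall (0 : ℂ) (8 * R) → k1 z = 0 := by
      intro z hz
      rw [mem_closedBall, dist_zero_right, not_le] at hz
      rw [hk1]
      simp only
      rw [bmp_zero hR hz.le]
      simp
    have hadd := ct_add (ζ := ζ) (ct_integrable hk1m hk1b hk1s ζ)
      (ct_integrable hec.aestronglyMeasurable hbe hes ζ)
    rw [hae, hadd] at h
    linear_combination h
  refine ⟨Real.pi * L + 12 * Real.pi * (8 * R) * Le, by positivity, fun ζ₁ ζ₂ => ?_⟩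
  rw [hrep, hrep]
  have e1 : -(Real.pi : ℂ) * eg3U R ζ₁ - CT e ζ₁ - (-(Real.pi : ℂ) * eg3U R ζ₂ - CT e ζ₂) =
      -((Real.pi : ℂ) * (eg3U R ζ₁ - eg3U R ζ₂)) - (CT e ζ₁ - CT e ζ₂) := by ring
  rw [e1]
  refine le_trans (norm_sub_le _ _) ?_
  rw [norm_neg, norm_mul, Complex.norm_real, Real.norm_eq_abs, abs_of_pos Real.pi_pos]
  have a1 := mul_le_mul_of_nonneg_left (hL ζ₁ ζ₂) Real.pi_pos.le
  have a2 := ct_lip hR8 heL hes ζ₁ ζ₂
  calc Real.pi * ‖eg3U R ζ₁ - eg3U R ζ₂‖ + ‖CT e ζ₁ - CT e ζ₂‖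
      ≤ Real.pi * (L * ‖ζ₁ - ζ₂‖) + 12 * Real.pi * (8 * R) * Le * ‖ζ₁ - ζ₂‖ := add_le_add a1 a2
    _ = _ := by ring

end Pool.Agent.EAC
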