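import Pool.Agent.EAC.G3

/-!
# EAC-G4: Cauchy transform of Hölder densities on half planes (Lipschitz), of bounded densities (log-Lipschitz)

`ct_holder`: by `ct_shift` assume `c = 0`. Let `d = ‖ζ₁ - ζ₂‖ ≤ 4R`, `m` the midpoint, `k* = k m`, `χ = bmp R`.
`k = k* χ + (k - k* χ)`. First part: `halfplane_lip`, `‖k*‖ ≤ B`. Second part `e = k - k* χ`: supported in `closedBall 0 (8R)`,
`‖e z‖ ≤ K' ‖z - m‖^β`, `K' = K + B/(2R)^β·2` (for `‖z‖ ≤ 4R`, `χ = 1`; for `4R ≤ ‖z‖ ≤ 8R`: `k z = 0`, `‖z-m‖ ≥ 2R`).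
Near `‖z-m‖ ≤ 2d`: `∫ ‖e‖ (1/|z-ζ₁| + 1/|z-ζ₂|) ≤ K' (2d)^β · 2 · 6π·2d ≤ C K' d`; far: `|1/(z-ζ₁) - 1/(z-ζ₂)| ≤ 2 d/‖z-m‖²`
(`‖z-ζᵢ‖ ≥ (3/4)‖z-m‖`), `int_rpow_norm` with `ρ = 10R`.
`ct_holder_lower`: from `ct_holder` applied to `conj (k (rfl' c.im z))` and `ct_conj`.
`ct_log`: near `2d`: `≤ B · 2 · 6π · 2d`; far (`‖z-m‖ ≤ 3R`): `2 d B ∫ ‖z-m‖⁻² = 4π d B log(3R/2d)` (`int_inv_sq`), if `2d ≤ 3R`.
-/

set_option autoImplicit false

noncomputable section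

namespace Pool.Agent.EAC

open MeasureTheory Set Filter Topology Metric
open scoped ENNReal ComplexConjugate

/-- pointwise near / far estimate of the difference of the kernels -/
private theorem kernel_near (z ζ₁ ζ₂ w : ℂ) :
    ‖w / (z - ζ₁) - w / (z - ζ₂)‖ ≤ ‖w‖ * (‖z - ζ₁‖⁻¹ + ‖z - ζ₂‖⁻¹) := by
  calc ‖w / (z - ζ₁) - w / (z - ζ₂)‖ ≤ ‖w / (z - ζ₁)‖ + ‖w / (z - ζ₂)‖ := norm_sub_le _ _
    _ = ‖w‖ * (‖z - ζ₁‖⁻¹ + ‖z - ζ₂‖⁻¹) := by
      rw [norm_div, norm_div]; ring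

private theorem kernel_far {z ζ₁ ζ₂ m w : ℂ} (hm : m = (ζ₁ + ζ₂) / 2)
    (hd : 0 < ‖ζ₁ - ζ₂‖) (hz : 2 * ‖ζ₁ - ζ₂‖ ≤ ‖z - m‖) :
    ‖w / (z - ζ₁) - w / (z - ζ₂)‖ ≤ ‖w‖ * (2 * ‖ζ₁ - ζ₂‖ * (‖z - m‖ ^ 2)⁻¹) := by
  set d := ‖ζ₁ - ζ₂‖ with hdd
  have e1 : ‖m - ζ₁‖ = d / 2 := by
    have : m - ζ₁ = -((ζ₁ - ζ₂) / 2) := by rw [hm]; ring
    rw [this, norm_neg, norm_div]
    simp [hdd]
  have e2 : ‖m - ζ₂‖ = d / 2 := by
    have : m - ζ₂ = (ζ₁ - ζ₂) / 2 := by rw [hm]; ring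
    rw [this, norm_div]
    simp [hdd]
  have hn : 0 < ‖z - m‖ := by linarith
  have h1 : 3 / 4 * ‖z - m‖ ≤ ‖z - ζ₁‖ := by
    have : ‖z - m‖ ≤ ‖z - ζ₁‖ + ‖m - ζ₁‖ := by
      have := norm_sub_le (z - ζ₁) (m - ζ₁)
      simpa using this
    linarith
  have h2 : 3 / 4 * ‖z - m‖ ≤ ‖z - ζ₂‖ := by
    have : ‖z - m‖ ≤ ‖z - ζ₂‖ + ‖m - ζ₂‖ := by
      have := norm_sub_le (z - ζ₂) (m - ζ₂)
      simpa using this
    linarith
  have p1 : 0 < ‖z - ζ₁‖ := by linarith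
  have p2 : 0 < ‖z - ζ₂‖ := by linarith
  have n1 : z - ζ₁ ≠ 0 := norm_pos_iff.mp p1
  have n2 : z - ζ₂ ≠ 0 := norm_pos_iff.mp p2
  have e3 : w / (z - ζ₁) - w / (z - ζ₂) = w * (ζ₁ - ζ₂) / ((z - ζ₁) * (z - ζ₂)) := by
    field_simp
    ring
  rw [e3, norm_div, norm_mul, norm_mul, ← hdd, mul_div_assoc]
  apply mul_le_mul_of_nonneg_left _ (norm_nonneg w)
  rw [div_le_iff₀ (mul_pos p1 p2)]
  have h3 : 3 / 4 * ‖z - m‖ * (3 / 4 * ‖z - m‖) ≤ ‖z - ζ₁‖ * ‖z - ζ₂‖ :=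
    mul_le_mul h1 h2 (by positivity) p1.le
  have h4 : 2 * d * (‖z - m‖ ^ 2)⁻¹ * (3 / 4 * ‖z - m‖ * (3 / 4 * ‖z - m‖)) ≤
      2 * d * (‖z - m‖ ^ 2)⁻¹ * (‖z - ζ₁‖ * ‖z - ζ₂‖) :=
    mul_le_mul_of_nonneg_left h3 (by positivity)
  have h5 : 2 * d * (‖z - m‖ ^ 2)⁻¹ * (3 / 4 * ‖z - m‖ * (3 / 4 * ‖z - m‖)) = 9 / 8 * d := by
    field_simp
    ring
  linarith

private theorem near_int {ζ₁ ζ₂ m : ℂ} (hd : 0 < ‖ζ₁ - ζ₂‖) :
    IntegrableOn (fun z : ℂ => ‖z - ζ₁‖⁻¹ + ‖z - ζ₂‖⁻¹) (closedBall m (2 * ‖ζ₁ - ζ₂‖)) ∧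
      ∫ z in closedBall m (2 * ‖ζ₁ - ζ₂‖), (‖z - ζ₁‖⁻¹ + ‖z - ζ₂‖⁻¹) ≤
        24 * Real.pi * ‖ζ₁ - ζ₂‖ := by
  obtain ⟨a1, a2⟩ := int_inv_norm (R := 2 * ‖ζ₁ - ζ₂‖) (by linarith) m ζ₁
  obtain ⟨b1, b2⟩ := int_inv_norm (R := 2 * ‖ζ₁ - ζ₂‖) (by linarith) m ζ₂
  refine ⟨a1.add b1, ?_⟩
  rw [integral_add a1 b1]
  linarith

/-- difference estimate, Hölder case -/
private theorem ct_diff_holder {e : ℂ → ℂ} {ζ₁ ζ₂ m : ℂ} {β K ρ : ℝ} (hβ : 0 < β) (hρ : 0 < ρ)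
    (hK : 0 ≤ K) (hm : m = (ζ₁ + ζ₂) / 2) (hd : 0 < ‖ζ₁ - ζ₂‖)
    (i1 : Integrable (fun z => e z / (z - ζ₁))) (i2 : Integrable (fun z => e z / (z - ζ₂)))
    (he : ∀ z, ‖e z‖ ≤ K * ‖z - m‖ ^ β) (hs : ∀ z, z ∉ closedBall m ρ → e z = 0) :
    ‖CT e ζ₁ - CT e ζ₂‖ ≤ K * ‖ζ₁ - ζ₂‖ *
      (24 * Real.pi * (2 * ‖ζ₁ - ζ₂‖) ^ β + 4 * Real.pi * ρ ^ β / β) := by
  set d := ‖ζ₁ - ζ₂‖ with hdd
  obtain ⟨n1, n2⟩ := near_int (m := m) hd
  obtain ⟨f1, f2⟩ := int_rpow_norm hβ hρ m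
  unfold CT
  rw [← integral_sub i1 i2]
  set g : ℂ → ℝ := fun z =>
    (closedBall m (2 * d)).indicator
      (fun z => K * (2 * d) ^ β * (‖z - ζ₁‖⁻¹ + ‖z - ζ₂‖⁻¹)) z +
    (closedBall m ρ).indicator (fun z => 2 * d * K * ‖z - m‖ ^ (β - 2)) z with hg
  have ga : Integrable ((closedBall m (2 * d)).indicator
      (fun z => K * (2 * d) ^ β * (‖z - ζ₁‖⁻¹ + ‖z - ζ₂‖⁻¹))) :=
    (integrable_indicator_iff measurableSet_closedBall).mpr (n1.const_mul _)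
  have gb : Integrable ((closedBall m ρ).indicator
      (fun z : ℂ => 2 * d * K * ‖z - m‖ ^ (β - 2))) :=
    (integrable_indicator_iff measurableSet_closedBall).mpr (f1.const_mul _)
  have hle : ∀ z, ‖e z / (z - ζ₁) - e z / (z - ζ₂)‖ ≤ g z := by
    intro z
    have pa : 0 ≤ (closedBall m (2 * d)).indicator
        (fun z => K * (2 * d) ^ β * (‖z - ζ₁‖⁻¹ + ‖z - ζ₂‖⁻¹)) z :=
      indicator_nonneg (fun z _ => by positivity) z
    have pb : 0 ≤ (closedBall m ρ).indicator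
        (fun z : ℂ => 2 * d * K * ‖z - m‖ ^ (β - 2)) z :=
      indicator_nonneg (fun z _ => by positivity) z
    by_cases hz : z ∈ closedBall m (2 * d)
    · refine le_trans (kernel_near z ζ₁ ζ₂ (e z)) ?_
      have hz' : ‖z - m‖ ≤ 2 * d := by simpa [dist_eq_norm] using hz
      have h1 : ‖e z‖ ≤ K * (2 * d) ^ β :=
        (he z).trans (mul_le_mul_of_nonneg_left
          (Real.rpow_le_rpow (norm_nonneg _) hz' hβ.le) hK)
      have h2 : ‖e z‖ * (‖z - ζ₁‖⁻¹ + ‖z - ζ₂‖⁻¹) ≤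
          K * (2 * d) ^ β * (‖z - ζ₁‖⁻¹ + ‖z - ζ₂‖⁻¹) :=
        mul_le_mul_of_nonneg_right h1 (by positivity)
      refine h2.trans ?_
      rw [hg]
      simp only
      rw [indicator_of_mem hz] at pa ⊢
      linarith
    · by_cases hz2 : z ∈ closedBall m ρ
      · have hz' : 2 * d ≤ ‖z - m‖ := by
          have : ¬ ‖z - m‖ ≤ 2 * d := by simpa [dist_eq_norm] using hz
          linarith
        have hpos : 0 < ‖z - m‖ := by linarith
        refine le_trans (kernel_far hm hd hz') ?_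
        have h2 : ‖e z‖ * (2 * d * (‖z - m‖ ^ 2)⁻¹) ≤
            K * ‖z - m‖ ^ β * (2 * d * (‖z - m‖ ^ 2)⁻¹) :=
          mul_le_mul_of_nonneg_right (he z) (by positivity)
        refine h2.trans ?_
        have h3 : ‖z - m‖ ^ (β - 2) = ‖z - m‖ ^ β * (‖z - m‖ ^ 2)⁻¹ := by
          rw [Real.rpow_sub hpos, Real.rpow_two]
          rfl
        rw [hg]
        simp only
        rw [indicator_of_mem hz2, indicator_of_notMem hz, h3]
        apply le_of_eq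
        ring
      · rw [hs z hz2]
        simp only [zero_div, sub_self, norm_zero]
        rw [hg]
        exact add_nonneg pa pb
  have hint := norm_integral_le_of_norm_le (ga.add gb) (Filter.Eventually.of_forall hle)
  refine hint.trans ?_
  have : ∫ z, g z = K * (2 * d) ^ β * (∫ z in closedBall m (2 * d), (‖z - ζ₁‖⁻¹ + ‖z - ζ₂‖⁻¹)) +
      2 * d * K * (∫ z in closedBall m ρ, ‖z - m‖ ^ (β - 2)) := by
    rw [hg, integral_add ga gb, integral_indicator measurableSet_closedBall,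
      integral_indicator measurableSet_closedBall, integral_const_mul, integral_const_mul]
  have hgg : (∫ a, ((closedBall m (2 * d)).indicator
      (fun z => K * (2 * d) ^ β * (‖z - ζ₁‖⁻¹ + ‖z - ζ₂‖⁻¹)) +
      (closedBall m ρ).indicator (fun z : ℂ => 2 * d * K * ‖z - m‖ ^ (β - 2))) a) =
      ∫ z, g z := rfl
  rw [hgg, this, f2]
  have h4 : K * (2 * d) ^ β * (∫ z in closedBall m (2 * d), (‖z - ζ₁‖⁻¹ + ‖z - ζ₂‖⁻¹)) ≤
      K * (2 * d) ^ β * (24 * Real.pi * d) :=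
    mul_le_mul_of_nonneg_left n2 (by positivity)
  have h5 : K * d * (24 * Real.pi * (2 * d) ^ β + 4 * Real.pi * ρ ^ β / β) =
      K * (2 * d) ^ β * (24 * Real.pi * d) + 2 * d * K * (2 * Real.pi * ρ ^ β / β) := by
    ring
  rw [h5]
  linarith

/-- difference estimate, bounded case -/
private theorem ct_diff_log {e : ℂ → ℂ} {ζ₁ ζ₂ m : ℂ} {B ρ : ℝ}
    (hB0 : 0 ≤ B) (hm : m = (ζ₁ + ζ₂) / 2) (hd : 0 < ‖ζ₁ - ζ₂‖) (hρ : 2 * ‖ζ₁ - ζ₂‖ ≤ ρ)
    (i1 : Integrable (fun z => e z / (z - ζ₁))) (i2 : Integrable (fun z => e z / (z - ζ₂)))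
    (he : ∀ z, ‖e z‖ ≤ B) (hs : ∀ z, z ∉ closedBall m ρ → e z = 0) :
    ‖CT e ζ₁ - CT e ζ₂‖ ≤ B * ‖ζ₁ - ζ₂‖ *
      (24 * Real.pi + 4 * Real.pi * Real.log (ρ / (2 * ‖ζ₁ - ζ₂‖))) := by
  set d := ‖ζ₁ - ζ₂‖ with hdd
  obtain ⟨n1, n2⟩ := near_int (m := m) hd
  obtain ⟨f1, f2⟩ := int_inv_sq (δ := 2 * d) (ρ := ρ) (by linarith) hρ m
  have hms : MeasurableSet (closedBall m ρ \ ball m (2 * d)) :=
    measurableSet_closedBall.diff measurableSet_ball
  unfold CT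
  rw [← integral_sub i1 i2]
  set g : ℂ → ℝ := fun z =>
    (closedBall m (2 * d)).indicator (fun z => B * (‖z - ζ₁‖⁻¹ + ‖z - ζ₂‖⁻¹)) z +
    (closedBall m ρ \ ball m (2 * d)).indicator (fun z => 2 * d * B * (‖z - m‖ ^ 2)⁻¹) z with hg
  have ga : Integrable ((closedBall m (2 * d)).indicator
      (fun z => B * (‖z - ζ₁‖⁻¹ + ‖z - ζ₂‖⁻¹))) :=
    (integrable_indicator_iff measurableSet_closedBall).mpr (n1.const_mul _)
  have gb : Integrable ((closedBall m ρ \ ball m (2 * d)).indicator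
      (fun z : ℂ => 2 * d * B * (‖z - m‖ ^ 2)⁻¹)) :=
    (integrable_indicator_iff hms).mpr (f1.const_mul _)
  have hle : ∀ z, ‖e z / (z - ζ₁) - e z / (z - ζ₂)‖ ≤ g z := by
    intro z
    have pa : 0 ≤ (closedBall m (2 * d)).indicator
        (fun z => B * (‖z - ζ₁‖⁻¹ + ‖z - ζ₂‖⁻¹)) z :=
      indicator_nonneg (fun z _ => by positivity) z
    have pb : 0 ≤ (closedBall m ρ \ ball m (2 * d)).indicator
        (fun z : ℂ => 2 * d * B * (‖z - m‖ ^ 2)⁻¹) z :=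
      indicator_nonneg (fun z _ => by positivity) z
    by_cases hz : z ∈ closedBall m (2 * d)
    · refine le_trans (kernel_near z ζ₁ ζ₂ (e z)) ?_
      have h2 : ‖e z‖ * (‖z - ζ₁‖⁻¹ + ‖z - ζ₂‖⁻¹) ≤
          B * (‖z - ζ₁‖⁻¹ + ‖z - ζ₂‖⁻¹) :=
        mul_le_mul_of_nonneg_right (he z) (by positivity)
      refine h2.trans ?_
      rw [hg]
      simp only
      rw [indicator_of_mem hz] at pa ⊢
      linarith
    · have hz' : 2 * d < ‖z - m‖ := by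
        have : ¬ ‖z - m‖ ≤ 2 * d := by simpa [dist_eq_norm] using hz
        linarith
      by_cases hz2 : z ∈ closedBall m ρ
      · have hz3 : z ∈ closedBall m ρ \ ball m (2 * d) := by
          refine ⟨hz2, ?_⟩
          simp only [mem_ball, dist_eq_norm, not_lt]
          exact hz'.le
        refine le_trans (kernel_far hm hd hz'.le) ?_
        have h2 : ‖e z‖ * (2 * d * (‖z - m‖ ^ 2)⁻¹) ≤
            B * (2 * d * (‖z - m‖ ^ 2)⁻¹) :=
          mul_le_mul_of_nonneg_right (he z) (by positivity)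
        refine h2.trans ?_
        rw [hg]
        simp only
        rw [indicator_of_mem hz3, indicator_of_notMem hz]
        apply le_of_eq
        ring
      · rw [hs z hz2]
        simp only [zero_div, sub_self, norm_zero]
        rw [hg]
        exact add_nonneg pa pb
  have hint := norm_integral_le_of_norm_le (ga.add gb) (Filter.Eventually.of_forall hle)
  refine hint.trans ?_
  have : ∫ z, g z = B * (∫ z in closedBall m (2 * d), (‖z - ζ₁‖⁻¹ + ‖z - ζ₂‖⁻¹)) +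
      2 * d * B * (∫ z in closedBall m ρ \ ball m (2 * d), (‖z - m‖ ^ 2)⁻¹) := by
    rw [hg, integral_add ga gb, integral_indicator measurableSet_closedBall,
      integral_indicator hms, integral_const_mul, integral_const_mul]
  have hgg : (∫ a, ((closedBall m (2 * d)).indicator
      (fun z => B * (‖z - ζ₁‖⁻¹ + ‖z - ζ₂‖⁻¹)) +
      (closedBall m ρ \ ball m (2 * d)).indicator
        (fun z : ℂ => 2 * d * B * (‖z - m‖ ^ 2)⁻¹)) a) =
      ∫ z, g z := rfl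
  rw [hgg, this, f2]
  have h4 : B * (∫ z in closedBall m (2 * d), (‖z - ζ₁‖⁻¹ + ‖z - ζ₂‖⁻¹)) ≤
      B * (24 * Real.pi * d) :=
    mul_le_mul_of_nonneg_left n2 hB0
  have h5 : B * d * (24 * Real.pi + 4 * Real.pi * Real.log (ρ / (2 * d))) =
      B * (24 * Real.pi * d) + 2 * d * B * (2 * Real.pi * Real.log (ρ / (2 * d))) := by
    ring
  rw [h5]
  linarith

private theorem holder_cont {k : ℂ → ℂ} {K β : ℝ} (hβ : 0 < β) (hK : 0 ≤ K)
    (h : ∀ z w, ‖k z - k w‖ ≤ K * ‖z - w‖ ^ β) : Continuous k := by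
  rw [continuous_iff_continuousAt]
  intro w
  rw [ContinuousAt, tendsto_iff_norm_sub_tendsto_zero]
  have h1 : Tendsto (fun z : ℂ => K * ‖z - w‖ ^ β) (𝓝 w) (𝓝 (K * ‖w - w‖ ^ β)) := by
    apply Tendsto.const_mul
    have hc : Continuous (fun z : ℂ => ‖z - w‖ ^ β) :=
      (continuous_norm.comp (continuous_id.sub continuous_const)).rpow_const
        (fun _ => Or.inr hβ.le)
    exact hc.tendsto w
  rw [sub_self, norm_zero, Real.zero_rpow hβ.ne', mul_zero] at h1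
  exact squeeze_zero (fun z => norm_nonneg _) (fun z => h z w) h1

private theorem mid_mem {c ζ₁ ζ₂ : ℂ} {r : ℝ} (h1 : ζ₁ ∈ closedBall c r) (h2 : ζ₂ ∈ closedBall c r) :
    ‖(ζ₁ + ζ₂) / 2 - c‖ ≤ r := by
  rw [mem_closedBall, dist_eq_norm] at h1 h2
  have e : (ζ₁ + ζ₂) / 2 - c = ((ζ₁ - c) + (ζ₂ - c)) / 2 := by ring
  rw [e, norm_div]
  have := norm_add_le (ζ₁ - c) (ζ₂ - c)
  simp only [Complex.norm_ofNat]
  linarith

private theorem ct_holder_zero {R β : ℝ} (hR : 0 < R) (hβ : 0 < β) :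
    ∃ C ≥ 0, ∀ (k : ℂ → ℂ) (B K : ℝ), 0 ≤ B → 0 ≤ K → (∀ z, ‖k z‖ ≤ B) →
      (∀ z w, ‖k z - k w‖ ≤ K * ‖z - w‖ ^ β) → (∀ z, z ∉ closedBall (0 : ℂ) R → k z = 0) →
      ∀ ζ₁ ∈ closedBall (0 : ℂ) (2 * R), ∀ ζ₂ ∈ closedBall (0 : ℂ) (2 * R),
        ‖CT (fun z => if 0 ≤ z.im then k z else 0) ζ₁ -
          CT (fun z => if 0 ≤ z.im then k z else 0) ζ₂‖ ≤ C * (B + K) * ‖ζ₁ - ζ₂‖ := by
  obtain ⟨L, hL0, hL⟩ := halfplane_lip hR
  set A : ℝ := 24 * Real.pi * (8 * R) ^ β + 4 * Real.pi * (10 * R) ^ β / β with hA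
  have hA0 : 0 ≤ A := by positivity
  have hq0 : 0 < (2 * R) ^ β := by positivity
  refine ⟨L + (1 + 1 / (2 * R) ^ β) * A, by positivity, ?_⟩
  intro k B K hB hK hkB hkK hks ζ₁ h1 ζ₂ h2
  by_cases hd : ζ₁ = ζ₂
  · subst hd
    simp
  have hdp : 0 < ‖ζ₁ - ζ₂‖ := norm_pos_iff.mpr (sub_ne_zero.mpr hd)
  set m : ℂ := (ζ₁ + ζ₂) / 2 with hm
  have hmn : ‖m‖ ≤ 2 * R := by
    have := mid_mem h1 h2
    rwa [sub_zero] at this
  have hkc : Continuous k := holder_cont hβ hK hkK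
  have hbc : Continuous (bmp R) := (bmp_smooth R).continuous
  have hset : MeasurableSet {z : ℂ | 0 ≤ z.im} :=
    measurableSet_le measurable_const Complex.measurable_im
  set e : ℂ → ℂ := fun z => if 0 ≤ z.im then k z - k m * (bmp R z : ℂ) else 0 with he
  set χ : ℂ → ℂ := fun z => if 0 ≤ z.im then (bmp R z : ℂ) else 0 with hχ
  have hem : AEStronglyMeasurable e volume := by
    apply Measurable.aestronglyMeasurable
    apply Measurable.ite hset _ measurable_const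
    exact (hkc.sub (continuous_const.mul (Complex.continuous_ofReal.comp hbc))).measurable
  have hχm : AEStronglyMeasurable χ volume := by
    apply Measurable.aestronglyMeasurable
    apply Measurable.ite hset _ measurable_const
    exact (Complex.continuous_ofReal.comp hbc).measurable
  have hbn : ∀ z, ‖(bmp R z : ℂ)‖ ≤ 1 := by
    intro z
    rw [Complex.norm_real, Real.norm_eq_abs, abs_of_nonneg (bmp_mem R z).1]
    exact (bmp_mem R z).2
  have hχB : ∀ z, ‖χ z‖ ≤ 1 := by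
    intro z
    rw [hχ]
    simp only
    split_ifs
    · exact hbn z
    · simp
  have hχs : ∀ z, z ∉ closedBall (0 : ℂ) (8 * R) → χ z = 0 := by
    intro z hz
    have hz' : 8 * R ≤ ‖z‖ := by
      have : ¬ ‖z‖ ≤ 8 * R := by simpa [dist_eq_norm] using hz
      linarith
    rw [hχ]
    simp only
    split_ifs
    · rw [bmp_zero hR hz']; simp
    · rfl
  have heK : ∀ z, ‖e z‖ ≤ (K + B / (2 * R) ^ β) * ‖z - m‖ ^ β := by
    intro z
    rw [he]
    simp only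
    split_ifs with him
    · by_cases hz : ‖z‖ ≤ 4 * R
      · rw [bmp_one hR hz]
        simp only [Complex.ofReal_one, mul_one]
        refine (hkK z m).trans ?_
        apply mul_le_mul_of_nonneg_right _ (by positivity)
        have : 0 ≤ B / (2 * R) ^ β := by positivity
        linarith
      · have hz' : 4 * R < ‖z‖ := not_le.mp hz
        have hk0 : k z = 0 := by
          apply hks
          rw [mem_closedBall, dist_zero_right]
          intro h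
          linarith
        rw [hk0, zero_sub, norm_neg, norm_mul]
        have hzm : 2 * R ≤ ‖z - m‖ := by
          have := norm_sub_norm_le z m
          linarith
        have h3 : (2 * R) ^ β ≤ ‖z - m‖ ^ β := Real.rpow_le_rpow (by positivity) hzm hβ.le
        have h4 : ‖k m‖ * ‖(bmp R z : ℂ)‖ ≤ B := by
          calc ‖k m‖ * ‖(bmp R z : ℂ)‖ ≤ B * 1 :=
                mul_le_mul (hkB m) (hbn z) (norm_nonneg _) hB
            _ = B := mul_one B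
        have h5 : B = B / (2 * R) ^ β * (2 * R) ^ β := by
          rw [div_mul_cancel₀ _ hq0.ne']
        have h6 : B / (2 * R) ^ β * (2 * R) ^ β ≤ B / (2 * R) ^ β * ‖z - m‖ ^ β :=
          mul_le_mul_of_nonneg_left h3 (by positivity)
        have h7 : B / (2 * R) ^ β * ‖z - m‖ ^ β ≤ (K + B / (2 * R) ^ β) * ‖z - m‖ ^ β := by
          apply mul_le_mul_of_nonneg_right _ (by positivity)
          linarith
        linarith
    · rw [norm_zero]
      positivity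
  have hes0 : ∀ z, z ∉ closedBall (0 : ℂ) (8 * R) → e z = 0 := by
    intro z hz
    have hz' : 8 * R < ‖z‖ := by
      have : ¬ ‖z‖ ≤ 8 * R := by simpa [dist_eq_norm] using hz
      linarith
    rw [he]
    simp only
    split_ifs
    · have hk0 : k z = 0 := by
        apply hks
        rw [mem_closedBall, dist_zero_right]
        intro h
        linarith
      rw [bmp_zero hR hz'.le, hk0]; simp
    · rfl
  have hes : ∀ z, z ∉ closedBall m (10 * R) → e z = 0 := by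
    intro z hz
    apply hes0
    intro hz2
    apply hz
    rw [mem_closedBall, dist_eq_norm] at hz2 ⊢
    rw [sub_zero] at hz2
    have := norm_sub_le z m
    linarith
  have heB : ∀ z, ‖e z‖ ≤ 2 * B := by
    intro z
    rw [he]
    simp only
    split_ifs
    · calc ‖k z - k m * (bmp R z : ℂ)‖ ≤ ‖k z‖ + ‖k m * (bmp R z : ℂ)‖ := norm_sub_le _ _
        _ ≤ B + B * 1 := by
          rw [norm_mul]
          exact add_le_add (hkB z) (mul_le_mul (hkB m) (hbn z) (norm_nonneg _) hB)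
        _ = 2 * B := by ring
    · rw [norm_zero]; linarith
  have ie : ∀ ζ, Integrable (fun z => e z / (z - ζ)) := fun ζ =>
    ct_integrable hem heB hes0 ζ
  have iχ : ∀ ζ, Integrable (fun z => χ z / (z - ζ)) := fun ζ =>
    ct_integrable hχm hχB hχs ζ
  have iχ' : ∀ ζ, Integrable (fun z => (k m * χ z) / (z - ζ)) := by
    intro ζ
    have := (iχ ζ).const_mul (k m)
    refine this.congr (Filter.Eventually.of_forall fun z => ?_)
    simp only
    rw [mul_div_assoc]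
  have hsplit : (fun z : ℂ => if 0 ≤ z.im then k z else 0) = fun z => k m * χ z + e z := by
    funext z
    rw [he, hχ]
    simp only
    split_ifs
    · ring
    · ring
  have hCT : ∀ ζ, CT (fun z => if 0 ≤ z.im then k z else 0) ζ = k m * CT χ ζ + CT e ζ := by
    intro ζ
    rw [hsplit, ct_add (iχ' ζ) (ie ζ), ct_smul]
  rw [hCT, hCT]
  have e1 : k m * CT χ ζ₁ + CT e ζ₁ - (k m * CT χ ζ₂ + CT e ζ₂) =
      k m * (CT χ ζ₁ - CT χ ζ₂) + (CT e ζ₁ - CT e ζ₂) := by ring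
  rw [e1]
  have hK' : 0 ≤ K + B / (2 * R) ^ β := by positivity
  have hE := ct_diff_holder hβ (by linarith : 0 < 10 * R) hK' hm hdp (ie ζ₁) (ie ζ₂) heK hes
  have hd4 : ‖ζ₁ - ζ₂‖ ≤ 4 * R := by
    rw [mem_closedBall, dist_eq_norm, sub_zero] at h1 h2
    have := norm_sub_le ζ₁ ζ₂
    linarith
  have hE2 : ‖CT e ζ₁ - CT e ζ₂‖ ≤ (K + B / (2 * R) ^ β) * ‖ζ₁ - ζ₂‖ * A := by
    refine hE.trans (mul_le_mul_of_nonneg_left ?_ (by positivity))
    rw [hA]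
    have : (2 * ‖ζ₁ - ζ₂‖) ^ β ≤ (8 * R) ^ β :=
      Real.rpow_le_rpow (by positivity) (by linarith) hβ.le
    have h8 : 24 * Real.pi * (2 * ‖ζ₁ - ζ₂‖) ^ β ≤ 24 * Real.pi * (8 * R) ^ β :=
      mul_le_mul_of_nonneg_left this (by positivity)
    linarith
  have hχL : ‖k m * (CT χ ζ₁ - CT χ ζ₂)‖ ≤ B * (L * ‖ζ₁ - ζ₂‖) := by
    rw [norm_mul]
    exact mul_le_mul (hkB m) (hL ζ₁ ζ₂) (norm_nonneg _) hB
  have hK2 : K + B / (2 * R) ^ β ≤ (1 + 1 / (2 * R) ^ β) * (B + K) := by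
    have : (1 + 1 / (2 * R) ^ β) * (B + K) =
        K + B / (2 * R) ^ β + (B + K / (2 * R) ^ β) := by ring
    rw [this]
    have : 0 ≤ B + K / (2 * R) ^ β := by positivity
    linarith
  have h9 : (K + B / (2 * R) ^ β) * ‖ζ₁ - ζ₂‖ * A ≤
      (1 + 1 / (2 * R) ^ β) * (B + K) * ‖ζ₁ - ζ₂‖ * A := by
    apply mul_le_mul_of_nonneg_right _ hA0
    exact mul_le_mul_of_nonneg_right hK2 (norm_nonneg _)
  have h10 : B * (L * ‖ζ₁ - ζ₂‖) ≤ (B + K) * (L * ‖ζ₁ - ζ₂‖) :=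
    mul_le_mul_of_nonneg_right (by linarith) (by positivity)
  calc ‖k m * (CT χ ζ₁ - CT χ ζ₂) + (CT e ζ₁ - CT e ζ₂)‖
      ≤ ‖k m * (CT χ ζ₁ - CT χ ζ₂)‖ + ‖CT e ζ₁ - CT e ζ₂‖ := norm_add_le _ _
    _ ≤ (B + K) * (L * ‖ζ₁ - ζ₂‖) + (1 + 1 / (2 * R) ^ β) * (B + K) * ‖ζ₁ - ζ₂‖ * A := by
      linarith
    _ = (L + (1 + 1 / (2 * R) ^ β) * A) * (B + K) * ‖ζ₁ - ζ₂‖ := by ring

theorem ct_holder {R β : ℝ} (hR : 0 < R) (hβ : 0 < β) (hβ1 : β ≤ 1) :
    ∃ C ≥ 0, ∀ (k : ℂ → ℂ) (c : ℂ) (B K : ℝ), 0 ≤ B → 0 ≤ K → (∀ z, ‖k z‖ ≤ B) →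
      (∀ z w, ‖k z - k w‖ ≤ K * ‖z - w‖ ^ β) → (∀ z, z ∉ closedBall c R → k z = 0) →
      ∀ ζ₁ ∈ closedBall c (2 * R), ∀ ζ₂ ∈ closedBall c (2 * R),
        ‖CT (fun z => if c.im ≤ z.im then k z else 0) ζ₁ -
          CT (fun z => if c.im ≤ z.im then k z else 0) ζ₂‖ ≤ C * (B + K) * ‖ζ₁ - ζ₂‖ := by
  obtain ⟨C, hC0, hC⟩ := ct_holder_zero hR hβ
  refine ⟨C, hC0, ?_⟩
  intro k c B K hB hK hkB hkK hks ζ₁ h1 ζ₂ h2
  have hfun : (fun z : ℂ => if c.im ≤ z.im then k z else 0) =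
      fun z => (fun w : ℂ => if 0 ≤ w.im then k (w + c) else 0) (z - c) := by
    funext z
    simp only [Complex.sub_im, sub_nonneg, sub_add_cancel]
  rw [hfun, ct_shift (fun w : ℂ => if 0 ≤ w.im then k (w + c) else 0) c ζ₁,
    ct_shift (fun w : ℂ => if 0 ≤ w.im then k (w + c) else 0) c ζ₂]
  have := hC (fun w => k (w + c)) B K hB hK (fun z => hkB _)
    (fun z w => by
      have := hkK (z + c) (w + c)
      simpa using this)
    (fun z hz => by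
      apply hks
      intro h
      apply hz
      rw [mem_closedBall, dist_eq_norm] at h ⊢
      simpa using h)
    (ζ₁ - c) (by
      rw [mem_closedBall, dist_eq_norm] at h1 ⊢
      simpa using h1)
    (ζ₂ - c) (by
      rw [mem_closedBall, dist_eq_norm] at h2 ⊢
      simpa using h2)
  simpa using this

theorem ct_holder_lower {R β : ℝ} (hR : 0 < R) (hβ : 0 < β) (hβ1 : β ≤ 1) :
    ∃ C ≥ 0, ∀ (k : ℂ → ℂ) (c : ℂ) (B K : ℝ), 0 ≤ B → 0 ≤ K → (∀ z, ‖k z‖ ≤ B) →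
      (∀ z w, ‖k z - k w‖ ≤ K * ‖z - w‖ ^ β) → (∀ z, z ∉ closedBall c R → k z = 0) →
      ∀ ζ₁ ∈ closedBall c (2 * R), ∀ ζ₂ ∈ closedBall c (2 * R),
        ‖CT (fun z => if z.im ≤ c.im then k z else 0) ζ₁ -
          CT (fun z => if z.im ≤ c.im then k z else 0) ζ₂‖ ≤ C * (B + K) * ‖ζ₁ - ζ₂‖ := by
  obtain ⟨C, hC0, hC⟩ := ct_holder hR hβ hβ1
  refine ⟨C, hC0, ?_⟩
  intro k c B K hB hK hkB hkK hks ζ₁ h1 ζ₂ h2
  have hcc : rfl' c.im c = c := rfl'_self rfl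
  have hball : ∀ (z : ℂ) (r : ℝ), z ∈ closedBall c r → rfl' c.im z ∈ closedBall c r := by
    intro z r hz
    rw [mem_closedBall, dist_eq_norm] at hz ⊢
    have := rfl'_norm c.im z c
    rw [hcc] at this
    rw [this]
    exact hz
  set k' : ℂ → ℂ := fun z => conj (k (rfl' c.im z)) with hk'
  have hfun : (fun z : ℂ => if c.im ≤ z.im then k' z else 0) =
      fun z => conj ((fun w : ℂ => if w.im ≤ c.im then k w else 0) (rfl' c.im z)) := by
    funext z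
    simp only [rfl'_im]
    by_cases h : c.im ≤ z.im
    · rw [if_pos h, if_pos (by linarith)]
    · rw [if_neg h, if_neg (by intro h'; apply h; linarith), map_zero]
  have hCT : ∀ ζ, CT (fun z : ℂ => if c.im ≤ z.im then k' z else 0) (rfl' c.im ζ) =
      conj (CT (fun w : ℂ => if w.im ≤ c.im then k w else 0) ζ) := by
    intro ζ
    rw [hfun, ct_conj (fun w : ℂ => if w.im ≤ c.im then k w else 0) c.im (rfl' c.im ζ), rfl'_rfl']
  have := hC k' c B K hB hK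
    (fun z => by
      rw [hk']
      simp only [RCLike.norm_conj]
      exact hkB _)
    (fun z w => by
      rw [hk']
      simp only
      rw [← map_sub, RCLike.norm_conj, ← rfl'_norm c.im z w]
      exact hkK _ _)
    (fun z hz => by
      rw [hk']
      simp only
      rw [hks, map_zero]
      intro h
      apply hz
      have := hball _ _ h
      rwa [rfl'_rfl'] at this)
    (rfl' c.im ζ₁) (hball _ _ h1) (rfl' c.im ζ₂) (hball _ _ h2)
  rw [hCT, hCT, ← map_sub, RCLike.norm_conj, rfl'_norm] at this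
  exact this

theorem ct_log {R : ℝ} (hR : 0 < R) :
    ∃ C ≥ 0, ∀ (k : ℂ → ℂ) (c : ℂ) (B : ℝ), 0 ≤ B → AEStronglyMeasurable k volume →
      (∀ z, ‖k z‖ ≤ B) → (∀ z, z ∉ closedBall c R → k z = 0) →
      ∀ ζ₁ ∈ closedBall c (2 * R), ∀ ζ₂ ∈ closedBall c (2 * R),
        ‖CT k ζ₁ - CT k ζ₂‖ ≤ C * B * lgm ‖ζ₁ - ζ₂‖ := by
  refine ⟨24 * Real.pi + 4 * Real.pi * (1 + |Real.log (4 * R)|), by positivity, ?_⟩
  intro k c B hB hkm hkB hks ζ₁ h1 ζ₂ h2
  by_cases hd : ζ₁ = ζ₂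
  · subst hd
    simp [lgm]
  have hdp : 0 < ‖ζ₁ - ζ₂‖ := norm_pos_iff.mpr (sub_ne_zero.mpr hd)
  set m : ℂ := (ζ₁ + ζ₂) / 2 with hm
  have hmn : ‖m - c‖ ≤ 2 * R := mid_mem h1 h2
  have hd4 : ‖ζ₁ - ζ₂‖ ≤ 4 * R := by
    rw [mem_closedBall, dist_eq_norm] at h1 h2
    have := norm_sub_le (ζ₁ - c) (ζ₂ - c)
    rw [sub_sub_sub_cancel_right] at this
    linarith
  have hks' : ∀ z, z ∉ closedBall m (8 * R) → k z = 0 := by
    intro z hz
    apply hks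
    intro hz2
    apply hz
    rw [mem_closedBall, dist_eq_norm] at hz2 ⊢
    have := norm_sub_le (z - c) (m - c)
    rw [sub_sub_sub_cancel_right] at this
    linarith
  have h := ct_diff_log hB hm hdp (by linarith : 2 * ‖ζ₁ - ζ₂‖ ≤ 8 * R)
    (ct_integrable hkm hkB hks ζ₁) (ct_integrable hkm hkB hks ζ₂) hkB hks'
  refine h.trans ?_
  set d := ‖ζ₁ - ζ₂‖ with hdd
  have e1 : 8 * R / (2 * d) = 4 * R / d := by
    field_simp
    ring
  rw [e1, Real.log_div (by positivity) hdp.ne']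
  have l1 : Real.log (4 * R) - Real.log d ≤
      (1 + |Real.log (4 * R)|) * (1 + max 0 (-Real.log d)) := by
    have a1 := le_abs_self (Real.log (4 * R))
    have a2 := le_max_right 0 (-Real.log d)
    have a3 := le_max_left 0 (-Real.log d)
    have a4 := abs_nonneg (Real.log (4 * R))
    nlinarith [mul_nonneg a4 a3]
  have l2 : (1 : ℝ) ≤ 1 + max 0 (-Real.log d) := by
    have a3 := le_max_left 0 (-Real.log d)
    linarith
  have l3 : 24 * Real.pi + 4 * Real.pi * (Real.log (4 * R) - Real.log d) ≤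
      (24 * Real.pi + 4 * Real.pi * (1 + |Real.log (4 * R)|)) *
        (1 + max 0 (-Real.log d)) := by
    have p := Real.pi_pos
    have b1 : 24 * Real.pi ≤ 24 * Real.pi * (1 + max 0 (-Real.log d)) :=
      le_mul_of_one_le_right (by positivity) l2
    have b2 : 4 * Real.pi * (Real.log (4 * R) - Real.log d) ≤
        4 * Real.pi * ((1 + |Real.log (4 * R)|) * (1 + max 0 (-Real.log d))) :=
      mul_le_mul_of_nonneg_left l1 (by positivity)
    calc _ ≤ 24 * Real.pi * (1 + max 0 (-Real.log d)) +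
        4 * Real.pi * ((1 + |Real.log (4 * R)|) * (1 + max 0 (-Real.log d))) := add_le_add b1 b2
      _ = _ := by ring
  calc B * d * (24 * Real.pi + 4 * Real.pi * (Real.log (4 * R) - Real.log d))
      ≤ B * d * ((24 * Real.pi + 4 * Real.pi * (1 + |Real.log (4 * R)|)) *
        (1 + max 0 (-Real.log d))) := mul_le_mul_of_nonneg_left l3 (by positivity)
    _ = (24 * Real.pi + 4 * Real.pi * (1 + |Real.log (4 * R)|)) * B * lgm d := by
      unfold lgm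
      ring

end Pool.Agent.EAC
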