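import Pool.Agent.EAC.G4

/-!
# EAC-G5: LEMMA S (local Schauder estimate for `∂̄ g = q`, half disc with `g` real on the diameter, and full disc)

Half disc: `E = {c.im ≤ Im z}`, `b = c.im`. Extend: `g̃ = g` on `E`, `g̃ z = conj (g (rfl' b z))` below (continuous because `g` is real
on the line; Lipschitz `L0` on `closedBall c R`). `χ z = bmp (R/16) (z - c)` (`1` on radius `R/4`, `0` outside `R/2`, so `u = χ g̃` is differentiable off the line everywhere and `0` outside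
`closedBall c (R/2)`). `ct_rep` (line `Im = b`): `-π u = CT(∂̄u)`, `∂̄u = χ q̃ + g̃ ∂̄χ` with `q̃ = q` above, `conj (q (rfl' b z))` below.
`CT(g̃ ∂̄χ)`: `ct_far` on `closedBall c (R/8)` (`∂̄χ = 0` on `ball c (R/4)`). `CT(χ q̃)`: extend `q` from the open half disc by
`holder_ext` to `q'`, `k = χ q'` (Hölder, constant `C (B+K)`, support in `closedBall c R`), upper half: `ct_holder`; lower half: `ct_holder_lower` for
`conj (k (rfl' b z))`. Log version: `ct_log` for the bounded density `χ q̃`.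
Full disc: `u = χ g`, `k = χ q'`, `CT k = CT(k 1_{Im ≥ b}) + CT(k 1_{Im < b})`, `b = c.im`.
On `closedBall c (R/8)` the bump is `1`, so `u = g`.
-/

set_option autoImplicit false

noncomputable section

namespace Pool.Agent.EAC

open MeasureTheory Set Filter Topology Metric
open scoped ENNReal ComplexConjugate

/-- hypotheses of Lemma S on the half disc `{‖z - c‖ ≤ R, c.im ≤ Im z}`. -/
structure HalfData (R : ℝ) (c : ℂ) (g : ℂ → ℂ) (D : ℂ → (ℂ →L[ℝ] ℂ)) (q : ℂ → ℂ) (A B : ℝ) : Prop where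
  lip : ∃ L0 : ℝ, ∀ z ∈ closedBall c R, c.im ≤ z.im → ∀ w ∈ closedBall c R, c.im ≤ w.im →
    ‖g z - g w‖ ≤ L0 * ‖z - w‖
  deriv : ∀ z ∈ ball c R, c.im < z.im → HasFDerivAt g (D z) z
  dbar : ∀ z ∈ ball c R, c.im < z.im → Pool.Agent.EAC.dbar (D z) = q z
  real : ∀ z ∈ closedBall c R, z.im = c.im → (g z).im = 0
  bdg : ∀ z ∈ closedBall c R, c.im ≤ z.im → ‖g z‖ ≤ A
  bdq : ∀ z ∈ ball c R, c.im < z.im → ‖q z‖ ≤ B

/-- hypotheses of Lemma S on the full disc. -/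
structure DiscData (R : ℝ) (c : ℂ) (g : ℂ → ℂ) (D : ℂ → (ℂ →L[ℝ] ℂ)) (q : ℂ → ℂ) (A B : ℝ) : Prop where
  lip : ∃ L0 : ℝ, ∀ z ∈ closedBall c R, ∀ w ∈ closedBall c R, ‖g z - g w‖ ≤ L0 * ‖z - w‖
  deriv : ∀ z ∈ ball c R, HasFDerivAt g (D z) z
  dbar : ∀ z ∈ ball c R, Pool.Agent.EAC.dbar (D z) = q z
  bdg : ∀ z ∈ closedBall c R, ‖g z‖ ≤ A
  bdq : ∀ z ∈ ball c R, ‖q z‖ ≤ B

/-! ### auxiliary lemmas -/

private theorem line_null (b : ℝ) : volume {z : ℂ | z.im = b} = 0 := by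
  have h : {z : ℂ | z.im = b} = Complex.measurableEquivRealProd ⁻¹' (univ ×ˢ {b}) := by
    ext z; simp [Complex.measurableEquivRealProd_apply]
  rw [h, Complex.volume_preserving_equiv_real_prod.measure_preimage
    ((MeasurableSet.univ.prod (measurableSet_singleton b)).nullMeasurableSet),
    Measure.volume_eq_prod, Measure.prod_prod]
  simp

private theorem line_ae (b : ℝ) : ∀ᵐ z : ℂ, z.im ≠ b := by
  rw [ae_iff]
  simpa using line_null b

private theorem ct_congr {w₁ w₂ : ℂ → ℂ} (b : ℝ) (h : ∀ z : ℂ, z.im ≠ b → w₁ z = w₂ z) (ζ : ℂ) :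
    CT w₁ ζ = CT w₂ ζ := by
  unfold CT
  apply integral_congr_ae
  filter_upwards [line_ae b] with z hz
  rw [h z hz]

/-- the cut off -/
private def chi (R : ℝ) (c z : ℂ) : ℝ := bmp (R / 16) (z - c)

private theorem chi_smooth (R : ℝ) (c : ℂ) : ContDiff ℝ (⊤ : ℕ∞) (chi R c) := by
  unfold chi
  exact (bmp_smooth (R / 16)).comp (contDiff_id.sub contDiff_const)

private theorem chi_diff (R : ℝ) (c z : ℂ) : HasFDerivAt (chi R c) (fderiv ℝ (chi R c) z) z :=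
  ((chi_smooth R c).differentiable (by simp) z).hasFDerivAt

private theorem chi_one {R : ℝ} (hR : 0 < R) {c z : ℂ} (hz : z ∈ closedBall c (R / 4)) :
    chi R c z = 1 := by
  rw [mem_closedBall, dist_eq_norm] at hz
  exact bmp_one (by positivity) (by linarith)

private theorem chi_zero {R : ℝ} (hR : 0 < R) {c z : ℂ} (hz : z ∉ ball c (R / 2)) :
    chi R c z = 0 := by
  rw [mem_ball, dist_eq_norm, not_lt] at hz
  exact bmp_zero (by positivity) (by linarith)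

private theorem chi_mem (R : ℝ) (c z : ℂ) : 0 ≤ chi R c z ∧ chi R c z ≤ 1 := bmp_mem _ _

private theorem chi_norm_le (R : ℝ) (c z : ℂ) : ‖((chi R c z : ℝ) : ℂ)‖ ≤ 1 := by
  rw [Complex.norm_real, Real.norm_eq_abs, abs_of_nonneg (chi_mem R c z).1]
  exact (chi_mem R c z).2

private theorem chi_congr {R : ℝ} {c z w : ℂ} (h : ‖z - c‖ = ‖w - c‖) : chi R c z = chi R c w := by
  unfold chi bmp; rw [h]

/-- `∂̄χ` -/
private def dchi (R : ℝ) (c z : ℂ) : ℂ :=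
  (1 / 2 : ℂ) * ((fderiv ℝ (chi R c) z 1 : ℝ) + Complex.I * (fderiv ℝ (chi R c) z Complex.I : ℝ))

private theorem dchi_cont (R : ℝ) (c : ℂ) : Continuous (dchi R c) := by
  have h : Continuous (fderiv ℝ (chi R c)) := (chi_smooth R c).continuous_fderiv (by simp)
  have h1 : Continuous (fun z => fderiv ℝ (chi R c) z 1) := h.clm_apply continuous_const
  have h2 : Continuous (fun z => fderiv ℝ (chi R c) z Complex.I) := h.clm_apply continuous_const
  unfold dchi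
  exact continuous_const.mul ((Complex.continuous_ofReal.comp h1).add
    (continuous_const.mul (Complex.continuous_ofReal.comp h2)))

private theorem dchi_zero {R : ℝ} (hR : 0 < R) {c z : ℂ} (hz : z ∈ ball c (R / 4)) :
    dchi R c z = 0 := by
  have h : chi R c =ᶠ[𝓝 z] fun _ => (1 : ℝ) := by
    filter_upwards [isOpen_ball.mem_nhds hz] with w hw
    exact chi_one hR (ball_subset_closedBall hw)
  have h2 : fderiv ℝ (chi R c) z = 0 := by
    rw [h.fderiv_eq]; simp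
  unfold dchi; rw [h2]; simp

private theorem chi_lip {R : ℝ} (hR : 0 < R) : ∃ L ≥ 0, (∀ c z w : ℂ,
    |chi R c z - chi R c w| ≤ L * ‖z - w‖) ∧ (∀ c z : ℂ, ‖fderiv ℝ (chi R c) z‖ ≤ L) ∧
    ∀ c z : ℂ, ‖dchi R c z‖ ≤ L := by
  obtain ⟨L, hL0, hL⟩ := bmp_lip (R := R / 16) (by positivity)
  have h1 : ∀ c z w : ℂ, |chi R c z - chi R c w| ≤ L * ‖z - w‖ := by
    intro c z w
    have := hL (z - c) (w - c)
    simpa [chi] using this
  have h2 : ∀ c z : ℂ, ‖fderiv ℝ (chi R c) z‖ ≤ L := by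
    intro c z
    apply (chi_diff R c z).le_of_lip' hL0
    filter_upwards with w
    rw [Real.norm_eq_abs]; exact h1 c w z
  refine ⟨L, hL0, h1, h2, fun c z => ?_⟩
  have e1 : |fderiv ℝ (chi R c) z 1| ≤ L := by
    have := (fderiv ℝ (chi R c) z).le_opNorm 1
    rw [norm_one, mul_one, Real.norm_eq_abs] at this
    exact this.trans (h2 c z)
  have e2 : |fderiv ℝ (chi R c) z Complex.I| ≤ L := by
    have := (fderiv ℝ (chi R c) z).le_opNorm Complex.I
    rw [Complex.norm_I, mul_one, Real.norm_eq_abs] at this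
    exact this.trans (h2 c z)
  unfold dchi
  calc ‖(1 / 2 : ℂ) * ((fderiv ℝ (chi R c) z 1 : ℝ) + Complex.I * (fderiv ℝ (chi R c) z Complex.I : ℝ))‖
      = 1 / 2 * ‖((fderiv ℝ (chi R c) z 1 : ℝ) : ℂ) + Complex.I * (fderiv ℝ (chi R c) z Complex.I : ℝ)‖ := by
        rw [norm_mul]; norm_num
    _ ≤ 1 / 2 * (L + L) := by
        gcongr
        refine (norm_add_le _ _).trans (add_le_add ?_ ?_)
        · rw [Complex.norm_real, Real.norm_eq_abs]; exact e1
        · rw [norm_mul, Complex.norm_I, one_mul, Complex.norm_real, Real.norm_eq_abs]; exact e2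
    _ = L := by ring

open Classical in
/-- density -/
private def Wf (R : ℝ) (c : ℂ) (Q : ℂ → ℂ) (z : ℂ) : ℂ :=
  if z.im = c.im then 0 else if z ∈ ball c R then ((chi R c z : ℝ) : ℂ) * Q z else 0

private theorem Wf_supp (R : ℝ) (c : ℂ) (Q : ℂ → ℂ) (z : ℂ) (hz : z ∉ closedBall c R) :
    Wf R c Q z = 0 := by
  have : z ∉ ball c R := fun h => hz (ball_subset_closedBall h)
  unfold Wf; simp [this]

private theorem Wf_bd {R B : ℝ} (c : ℂ) (Q : ℂ → ℂ) (hB0 : 0 ≤ B)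
    (hB : ∀ z ∈ ball c R, z.im ≠ c.im → ‖Q z‖ ≤ B) (z : ℂ) : ‖Wf R c Q z‖ ≤ B := by
  unfold Wf
  split_ifs with h1 h2
  · simpa using hB0
  · rw [norm_mul]
    calc _ ≤ 1 * B := mul_le_mul (chi_norm_le R c z) (hB z h2 h1) (norm_nonneg _) zero_le_one
      _ = B := one_mul B
  · simpa using hB0

private theorem core {R : ℝ} (hR : 0 < R) : ∃ C ≥ 0, ∀ (c : ℂ) (G : ℂ → ℂ)
    (DG : ℂ → (ℂ →L[ℝ] ℂ)) (A B L0 : ℝ), 0 ≤ A → 0 ≤ B →
    (∀ z ∈ closedBall c R, ∀ w ∈ closedBall c R, ‖G z - G w‖ ≤ L0 * ‖z - w‖) →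
    (∀ z ∈ ball c R, z.im ≠ c.im → HasFDerivAt G (DG z) z) →
    (∀ z ∈ closedBall c R, ‖G z‖ ≤ A) →
    (∀ z ∈ ball c R, z.im ≠ c.im → ‖dbar (DG z)‖ ≤ B) →
    AEStronglyMeasurable (Wf R c (fun z => dbar (DG z))) volume ∧
    ∀ ζ₁ ∈ closedBall c (R / 8), ∀ ζ₂ ∈ closedBall c (R / 8),
      ‖G ζ₁ - G ζ₂‖ ≤ C * A * ‖ζ₁ - ζ₂‖ +
        ‖CT (Wf R c (fun z => dbar (DG z))) ζ₁ - CT (Wf R c (fun z => dbar (DG z))) ζ₂‖ := by
  obtain ⟨Lc, hLc0, hLc1, hLc2, hLc3⟩ := chi_lip hR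
  refine ⟨64 * Real.pi * Lc, by positivity, ?_⟩
  intro c G DG A B L0 hA hB hlip hD hbd hQ
  have hSo : IsOpen {z : ℂ | z ∈ ball c R ∧ z.im ≠ c.im} :=
    isOpen_ball.inter ((isOpen_ne.preimage Complex.continuous_im))
  set S : Set ℂ := {z : ℂ | z ∈ ball c R ∧ z.im ≠ c.im} with hS
  have hGc : ContinuousOn G (closedBall c R) := by
    have hL : 0 ≤ max L0 0 := le_max_right _ _
    apply LipschitzOnWith.continuousOn (K := (max L0 0).toNNReal)
    apply LipschitzOnWith.of_dist_le_mul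
    intro z hz w hw
    rw [dist_eq_norm, dist_eq_norm, Real.coe_toNNReal _ hL]
    exact (hlip z hz w hw).trans (mul_le_mul_of_nonneg_right (le_max_left _ _) (norm_nonneg _))
  -- measurability
  have hW1m : AEStronglyMeasurable (Wf R c (fun z => dbar (DG z))) volume := by
    have hm : Measurable (fun z => ((chi R c z : ℝ) : ℂ) * dbar (fderiv ℝ G z)) := by
      have h1 : Measurable (fun z => fderiv ℝ G z 1) := measurable_fderiv_apply_const ℝ G 1
      have h2 : Measurable (fun z => fderiv ℝ G z Complex.I) :=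
        measurable_fderiv_apply_const ℝ G Complex.I
      have h3 : Measurable (fun z => ((chi R c z : ℝ) : ℂ)) :=
        (Complex.continuous_ofReal.comp (chi_smooth R c).continuous).measurable
      unfold dbar
      exact h3.mul ((h1.add (h2.const_mul _)).const_mul _)
    have he : Wf R c (fun z => dbar (DG z)) =
        S.indicator (fun z => ((chi R c z : ℝ) : ℂ) * dbar (fderiv ℝ G z)) := by
      funext z
      unfold Wf
      by_cases h1 : z.im = c.im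
      · rw [if_pos h1, indicator_of_notMem]
        exact fun h => h.2 h1
      · rw [if_neg h1]
        by_cases h2 : z ∈ ball c R
        · rw [if_pos h2, indicator_of_mem (show z ∈ S from ⟨h2, h1⟩), (hD z h2 h1).fderiv]
        · rw [if_neg h2, indicator_of_notMem]
          exact fun h => h2 h.1
    rw [he]
    exact (hm.indicator hSo.measurableSet).aestronglyMeasurable
  refine ⟨hW1m, ?_⟩
  set u : ℂ → ℂ := fun z => ((chi R c z : ℝ) : ℂ) * G z with hu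
  have hu0 : ∀ z, z ∉ closedBall c (R / 2) → u z = 0 := by
    intro z hz
    have : chi R c z = 0 := chi_zero hR (fun h => hz (ball_subset_closedBall h))
    simp [hu, this]
  have huc : Continuous u := by
    rw [continuous_iff_continuousAt]
    intro z
    by_cases hz : z ∈ ball c R
    · have h1 : ContinuousAt G z := hGc.continuousAt (mem_of_superset (isOpen_ball.mem_nhds hz)
        ball_subset_closedBall)
      exact ((Complex.continuous_ofReal.comp (chi_smooth R c).continuous).continuousAt).mul h1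
    · have hz' : z ∉ closedBall c (R / 2) := by
        intro h; apply hz
        rw [mem_closedBall] at h; rw [mem_ball]; linarith
      have : u =ᶠ[𝓝 z] fun _ => 0 := by
        filter_upwards [isClosed_closedBall.isOpen_compl.mem_nhds hz'] with w hw
        exact hu0 w hw
      exact continuousAt_const.congr this.symm
  classical
  set Du : ℂ → (ℂ →L[ℝ] ℂ) := fun z => if z ∈ ball c R then
    (chi R c z) • DG z + (fderiv ℝ (chi R c) z).smulRight (G z) else 0 with hDu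
  have hDuD : ∀ z : ℂ, z.im ≠ c.im → HasFDerivAt u (Du z) z := by
    intro z hz
    by_cases h : z ∈ ball c R
    · have h1 : HasFDerivAt (fun z => (chi R c z) • G z)
          ((chi R c z) • DG z + (fderiv ℝ (chi R c) z).smulRight (G z)) z :=
        (chi_diff R c z).smul (hD z h hz)
      have h2 : u = fun z => (chi R c z) • G z := by
        funext w; simp [hu]
      rw [h2, hDu]; simp only [if_pos h]
      exact h1
    · have hz' : z ∉ closedBall c (R / 2) := by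
        intro h'; apply h
        rw [mem_closedBall] at h'; rw [mem_ball]; linarith
      have : u =ᶠ[𝓝 z] fun _ => 0 := by
        filter_upwards [isClosed_closedBall.isOpen_compl.mem_nhds hz'] with w hw
        exact hu0 w hw
      rw [hDu]; simp only [if_neg h]
      exact (hasFDerivAt_const (0 : ℂ) z).congr_of_eventuallyEq this
  have hDGb : ∀ z ∈ ball c R, z.im ≠ c.im → ‖DG z‖ ≤ max L0 0 := by
    intro z hz hz'
    apply (hD z hz hz').le_of_lip' (le_max_right _ _)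
    filter_upwards [isOpen_ball.mem_nhds hz] with w hw
    exact (hlip w (ball_subset_closedBall hw) z (ball_subset_closedBall hz)).trans
      (mul_le_mul_of_nonneg_right (le_max_left _ _) (norm_nonneg _))
  have hDub : ∀ z : ℂ, z.im ≠ c.im → ‖Du z‖ ≤ max L0 0 + Lc * A := by
    intro z hz
    have hp : 0 ≤ max L0 0 + Lc * A := add_nonneg (le_max_right _ _) (mul_nonneg hLc0 hA)
    by_cases h : z ∈ ball c R
    · rw [hDu]; simp only [if_pos h]
      refine (norm_add_le _ _).trans (add_le_add ?_ ?_)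
      · rw [norm_smul, Real.norm_eq_abs, abs_of_nonneg (chi_mem R c z).1]
        calc chi R c z * ‖DG z‖ ≤ 1 * max L0 0 :=
              mul_le_mul (chi_mem R c z).2 (hDGb z h hz) (norm_nonneg _) zero_le_one
          _ = _ := one_mul _
      · rw [ContinuousLinearMap.norm_smulRight_apply]
        exact mul_le_mul (hLc2 c z) (hbd z (ball_subset_closedBall h)) (norm_nonneg _) hLc0
    · rw [hDu]; simp only [if_neg h]; simpa using hp
  have hrep : ∀ ζ : ℂ, CT (fun z => if z.im = c.im then 0 else dbar (Du z)) ζ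
      = -(Real.pi : ℂ) * u ζ := fun ζ => ct_rep huc hu0 hDuD hDub ζ
  set W2 : ℂ → ℂ := S.indicator (fun z => G z * dchi R c z) with hW2
  have hdec : (fun z => if z.im = c.im then 0 else dbar (Du z)) =
      fun z => Wf R c (fun z => dbar (DG z)) z + W2 z := by
    funext z
    by_cases h1 : z.im = c.im
    · rw [if_pos h1, hW2, indicator_of_notMem (fun h => h.2 h1)]
      unfold Wf; simp [h1]
    · rw [if_neg h1]
      by_cases h2 : z ∈ ball c R
      · rw [hW2, indicator_of_mem (show z ∈ S from ⟨h2, h1⟩)]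
        unfold Wf
        rw [if_neg h1, if_pos h2, hDu]
        simp only [if_pos h2]
        unfold dbar dchi
        simp only [ContinuousLinearMap.add_apply, ContinuousLinearMap.smul_apply,
          ContinuousLinearMap.smulRight_apply, Complex.real_smul]
        ring
      · rw [hW2, indicator_of_notMem (fun h => h2 h.1)]
        unfold Wf
        rw [if_neg h1, if_neg h2, hDu]
        simp only [if_neg h2]
        unfold dbar; simp
  have hW2m : AEStronglyMeasurable W2 volume := by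
    have h1 : ContinuousOn (fun z => G z * dchi R c z) S :=
      (hGc.mono (fun z hz => ball_subset_closedBall hz.1)).mul (dchi_cont R c).continuousOn
    have h2 := h1.aestronglyMeasurable hSo.measurableSet (μ := volume)
    exact (aestronglyMeasurable_indicator_iff hSo.measurableSet).2 h2
  have hW2b : ∀ z, ‖W2 z‖ ≤ A * Lc := by
    intro z
    by_cases h : z ∈ S
    · rw [hW2, indicator_of_mem h, norm_mul]
      exact mul_le_mul (hbd z (ball_subset_closedBall h.1)) (hLc3 c z) (norm_nonneg _) hA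
    · rw [hW2, indicator_of_notMem h]; simpa using mul_nonneg hA hLc0
  have hW2s : ∀ z, z ∉ closedBall c R → W2 z = 0 := by
    intro z hz
    rw [hW2, indicator_of_notMem]
    exact fun h => hz (ball_subset_closedBall h.1)
  have hW2z : ∀ z ∈ ball c (2 * (R / 8)), W2 z = 0 := by
    intro z hz
    have : z ∈ ball c (R / 4) := by
      have e : 2 * (R / 8) = R / 4 := by ring
      rwa [e] at hz
    by_cases h : z ∈ S
    · rw [hW2, indicator_of_mem h, dchi_zero hR this, mul_zero]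
    · rw [hW2, indicator_of_notMem h]
  have hsum : ∀ ζ : ℂ, -(Real.pi : ℂ) * u ζ = CT (Wf R c (fun z => dbar (DG z))) ζ + CT W2 ζ := by
    intro ζ
    rw [← hrep ζ, hdec]
    exact ct_add (ct_integrable hW1m (Wf_bd c _ hB hQ) (Wf_supp R c _) ζ)
      (ct_integrable hW2m hW2b hW2s ζ)
  intro ζ₁ h1 ζ₂ h2
  have hfar := ct_far hR (by positivity : 0 < R / 8) hW2m hW2b hW2s hW2z h1 h2
  have hu1 : u ζ₁ = G ζ₁ := by
    have : ζ₁ ∈ closedBall c (R / 4) := closedBall_subset_closedBall (by linarith) h1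
    simp [hu, chi_one hR this]
  have hu2 : u ζ₂ = G ζ₂ := by
    have : ζ₂ ∈ closedBall c (R / 4) := closedBall_subset_closedBall (by linarith) h2
    simp [hu, chi_one hR this]
  have hpi : (1 : ℝ) ≤ Real.pi := by linarith [Real.pi_gt_three]
  have key : Real.pi * ‖G ζ₁ - G ζ₂‖ ≤
      ‖CT (Wf R c (fun z => dbar (DG z))) ζ₁ - CT (Wf R c (fun z => dbar (DG z))) ζ₂‖ +
        ‖CT W2 ζ₁ - CT W2 ζ₂‖ := by
    have e : -(Real.pi : ℂ) * (G ζ₁ - G ζ₂) =
        (CT (Wf R c (fun z => dbar (DG z))) ζ₁ - CT (Wf R c (fun z => dbar (DG z))) ζ₂) +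
          (CT W2 ζ₁ - CT W2 ζ₂) := by
      rw [← hu1, ← hu2, mul_sub, hsum ζ₁, hsum ζ₂]; ring
    have e2 : Real.pi * ‖G ζ₁ - G ζ₂‖ = ‖-(Real.pi : ℂ) * (G ζ₁ - G ζ₂)‖ := by
      rw [norm_mul, norm_neg, Complex.norm_real, Real.norm_eq_abs, abs_of_pos Real.pi_pos]
    rw [e2, e]; exact norm_add_le _ _
  have h3 : ‖G ζ₁ - G ζ₂‖ ≤ Real.pi * ‖G ζ₁ - G ζ₂‖ := by
    nlinarith [norm_nonneg (G ζ₁ - G ζ₂)]
  have h4 : Real.pi * R ^ 2 * (A * Lc) / (R / 8) ^ 2 * ‖ζ₁ - ζ₂‖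
      = 64 * Real.pi * Lc * A * ‖ζ₁ - ζ₂‖ := by
    field_simp
    ring
  rw [h4] at hfar
  linarith

/-- Hölder constant of `χ q'`. -/
private theorem chi_holder {R β L : ℝ} (hβ : 0 < β) (hβ1 : β ≤ 1) {c : ℂ}
    (hL : ∀ z w : ℂ, |chi R c z - chi R c w| ≤ L * ‖z - w‖) (hL0 : 0 ≤ L)
    {q' : ℂ → ℂ} {B K : ℝ} (hB0 : 0 ≤ B) (hq : ∀ z, ‖q' z‖ ≤ B)
    (hK : ∀ z w, ‖q' z - q' w‖ ≤ K * ‖z - w‖ ^ β) (z w : ℂ) :
    ‖((chi R c z : ℝ) : ℂ) * q' z - ((chi R c w : ℝ) : ℂ) * q' w‖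
      ≤ ((1 + L) * B + K) * ‖z - w‖ ^ β := by
  have h1 : |chi R c z - chi R c w| ≤ (1 + L) * ‖z - w‖ ^ β := by
    have hr : 0 ≤ ‖z - w‖ := norm_nonneg _
    rcases le_total ‖z - w‖ 1 with h | h
    · rcases hr.eq_or_lt with h0 | h0
      · have : z = w := by rw [← sub_eq_zero, ← norm_eq_zero]; exact h0.symm
        rw [this]; simp [Real.zero_rpow hβ.ne']
      · have h2 : ‖z - w‖ ≤ ‖z - w‖ ^ β := by
          calc ‖z - w‖ = ‖z - w‖ ^ (1 : ℝ) := (Real.rpow_one _).symm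
            _ ≤ ‖z - w‖ ^ β := Real.rpow_le_rpow_of_exponent_ge h0 h hβ1
        calc |chi R c z - chi R c w| ≤ L * ‖z - w‖ := hL z w
          _ ≤ L * ‖z - w‖ ^ β := mul_le_mul_of_nonneg_left h2 hL0
          _ ≤ (1 + L) * ‖z - w‖ ^ β := by
              apply mul_le_mul_of_nonneg_right (by linarith) (by positivity)
    · have h2 : 1 ≤ ‖z - w‖ ^ β := Real.one_le_rpow h hβ.le
      have h3 : |chi R c z - chi R c w| ≤ 1 := by
        rw [abs_le]
        constructor <;> linarith [(chi_mem R c z).1, (chi_mem R c z).2, (chi_mem R c w).1,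
          (chi_mem R c w).2]
      nlinarith
  have e : ((chi R c z : ℝ) : ℂ) * q' z - ((chi R c w : ℝ) : ℂ) * q' w
      = ((chi R c z - chi R c w : ℝ) : ℂ) * q' z + ((chi R c w : ℝ) : ℂ) * (q' z - q' w) := by
    push_cast; ring
  rw [e]
  refine (norm_add_le _ _).trans ?_
  rw [norm_mul, norm_mul, Complex.norm_real, Real.norm_eq_abs]
  have h4 : |chi R c z - chi R c w| * ‖q' z‖ ≤ (1 + L) * ‖z - w‖ ^ β * B :=
    mul_le_mul h1 (hq z) (norm_nonneg _) (by positivity)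
  have h5 : ‖((chi R c w : ℝ) : ℂ)‖ * ‖q' z - q' w‖ ≤ 1 * (K * ‖z - w‖ ^ β) :=
    mul_le_mul (chi_norm_le R c w) (hK z w) (norm_nonneg _) zero_le_one
  calc _ ≤ (1 + L) * ‖z - w‖ ^ β * B + 1 * (K * ‖z - w‖ ^ β) := add_le_add h4 h5
    _ = _ := by ring

private theorem holder_cont {β K : ℝ} (hβ : 0 < β) {k : ℂ → ℂ}
    (hK : ∀ z w, ‖k z - k w‖ ≤ K * ‖z - w‖ ^ β) : Continuous k := by
  rw [continuous_iff_continuousAt]
  intro z
  rw [ContinuousAt, tendsto_iff_norm_sub_tendsto_zero]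
  have h : Tendsto (fun w => K * ‖w - z‖ ^ β) (𝓝 z) (𝓝 0) := by
    have h1 : Tendsto (fun w : ℂ => ‖w - z‖) (𝓝 z) (𝓝 0) := by
      have : Continuous (fun w : ℂ => ‖w - z‖) := by fun_prop
      simpa using this.tendsto z
    have h2 := (h1.rpow_const (p := β) (Or.inr hβ.le)).const_mul K
    simpa [Real.zero_rpow hβ.ne'] using h2
  exact squeeze_zero (fun w => norm_nonneg _) (fun w => hK w z) h

/-- Schauder estimate for the density. -/
private theorem dens {R β : ℝ} (hR : 0 < R) (hβ : 0 < β) (hβ1 : β ≤ 1) :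
    ∃ C ≥ 0, ∀ (c : ℂ) (Q k₁ k₂ : ℂ → ℂ) (B K : ℝ), 0 ≤ B → 0 ≤ K →
      (∀ z, ‖k₁ z‖ ≤ B) → (∀ z, ‖k₂ z‖ ≤ B) →
      (∀ z w, ‖k₁ z - k₁ w‖ ≤ K * ‖z - w‖ ^ β) → (∀ z w, ‖k₂ z - k₂ w‖ ≤ K * ‖z - w‖ ^ β) →
      (∀ z, z ∉ closedBall c R → k₁ z = 0) → (∀ z, z ∉ closedBall c R → k₂ z = 0) →
      (∀ z, c.im < z.im → Wf R c Q z = k₁ z) → (∀ z, z.im < c.im → Wf R c Q z = k₂ z) →
      ∀ ζ₁ ∈ closedBall c (R / 8), ∀ ζ₂ ∈ closedBall c (R / 8),
        ‖CT (Wf R c Q) ζ₁ - CT (Wf R c Q) ζ₂‖ ≤ C * (B + K) * ‖ζ₁ - ζ₂‖ := by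
  obtain ⟨C1, hC1, h1⟩ := ct_holder hR hβ hβ1
  obtain ⟨C2, hC2, h2⟩ := ct_holder_lower hR hβ hβ1
  refine ⟨C1 + C2, by positivity, ?_⟩
  intro c Q k₁ k₂ B K hB hK hb1 hb2 hk1 hk2 hs1 hs2 hup hlo ζ₁ hζ1 ζ₂ hζ2
  have hsub : closedBall c (R / 8) ⊆ closedBall c (2 * R) :=
    closedBall_subset_closedBall (by linarith)
  have e1 := h1 k₁ c B K hB hK hb1 hk1 hs1 ζ₁ (hsub hζ1) ζ₂ (hsub hζ2)
  have e2 := h2 k₂ c B K hB hK hb2 hk2 hs2 ζ₁ (hsub hζ1) ζ₂ (hsub hζ2)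
  set U : ℂ → ℂ := fun z => if c.im ≤ z.im then k₁ z else 0 with hU
  set V : ℂ → ℂ := fun z => if z.im ≤ c.im then k₂ z else 0 with hV
  have hUm : AEStronglyMeasurable U volume :=
    (Measurable.ite (isClosed_le continuous_const Complex.continuous_im).measurableSet
      (holder_cont hβ hk1).measurable measurable_const).aestronglyMeasurable
  have hVm : AEStronglyMeasurable V volume :=
    (Measurable.ite (isClosed_le Complex.continuous_im continuous_const).measurableSet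
      (holder_cont hβ hk2).measurable measurable_const).aestronglyMeasurable
  have hUb : ∀ z, ‖U z‖ ≤ B := by
    intro z; rw [hU]; dsimp only; split_ifs
    · exact hb1 z
    · simpa using hB
  have hVb : ∀ z, ‖V z‖ ≤ B := by
    intro z; rw [hV]; dsimp only; split_ifs
    · exact hb2 z
    · simpa using hB
  have hUs : ∀ z, z ∉ closedBall c R → U z = 0 := by
    intro z hz; rw [hU]; dsimp only; rw [hs1 z hz]; simp
  have hVs : ∀ z, z ∉ closedBall c R → V z = 0 := by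
    intro z hz; rw [hV]; dsimp only; rw [hs2 z hz]; simp
  have hsum : ∀ ζ, CT (Wf R c Q) ζ = CT U ζ + CT V ζ := by
    intro ζ
    rw [← ct_add (ct_integrable hUm hUb hUs ζ) (ct_integrable hVm hVb hVs ζ)]
    apply ct_congr c.im
    intro z hz
    rcases lt_or_gt_of_ne hz with h | h
    · rw [hlo z h, hU, hV]; dsimp only
      rw [if_neg (not_le.2 h), if_pos h.le, zero_add]
    · rw [hup z h, hU, hV]; dsimp only
      rw [if_pos h.le, if_neg (not_le.2 h), add_zero]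
  rw [hsum, hsum]
  have e3 : CT U ζ₁ + CT V ζ₁ - (CT U ζ₂ + CT V ζ₂) = (CT U ζ₁ - CT U ζ₂) + (CT V ζ₁ - CT V ζ₂) := by
    ring
  rw [e3]
  calc _ ≤ ‖CT U ζ₁ - CT U ζ₂‖ + ‖CT V ζ₁ - CT V ζ₂‖ := norm_add_le _ _
    _ ≤ C1 * (B + K) * ‖ζ₁ - ζ₂‖ + C2 * (B + K) * ‖ζ₁ - ζ₂‖ := add_le_add e1 e2
    _ = _ := by ring

/-! ### the reflected function -/

private def gt (c : ℂ) (g : ℂ → ℂ) (z : ℂ) : ℂ :=
  if c.im ≤ z.im then g z else conj (g (rfl' c.im z))

private def Dt (c : ℂ) (D : ℂ → (ℂ →L[ℝ] ℂ)) (z : ℂ) : ℂ →L[ℝ] ℂ :=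
  if c.im ≤ z.im then D z else
    (Complex.conjCLE : ℂ →L[ℝ] ℂ).comp ((D (rfl' c.im z)).comp (Complex.conjCLE : ℂ →L[ℝ] ℂ))

private theorem rfl_norm (c z : ℂ) : ‖rfl' c.im z - c‖ = ‖z - c‖ := by
  have h := rfl'_norm c.im z c
  rwa [rfl'_self rfl] at h

private theorem rfl_ball {c z : ℂ} {R : ℝ} (h : z ∈ ball c R) : rfl' c.im z ∈ ball c R := by
  rw [mem_ball, dist_eq_norm] at *
  rwa [rfl_norm]

private theorem rfl_cball {c z : ℂ} {R : ℝ} (h : z ∈ closedBall c R) :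
    rfl' c.im z ∈ closedBall c R := by
  rw [mem_closedBall, dist_eq_norm] at *
  rwa [rfl_norm]

private theorem conj_diff (z w : ℂ) : ‖conj z - conj w‖ = ‖z - w‖ := by
  rw [← map_sub, Complex.norm_conj]

private theorem dbar_conj (L : ℂ →L[ℝ] ℂ) :
    dbar ((Complex.conjCLE : ℂ →L[ℝ] ℂ).comp (L.comp (Complex.conjCLE : ℂ →L[ℝ] ℂ)))
      = conj (dbar L) := by
  unfold dbar
  simp only [ContinuousLinearMap.comp_apply, ContinuousLinearEquiv.coe_coe, Complex.conjCLE_apply,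
    map_mul, map_add, map_one, map_div₀, Complex.conj_I, map_neg, map_ofNat]
  ring

private theorem half_lip {R L0 : ℝ} {c : ℂ} {g : ℂ → ℂ}
    (hlip : ∀ z ∈ closedBall c R, c.im ≤ z.im → ∀ w ∈ closedBall c R, c.im ≤ w.im →
      ‖g z - g w‖ ≤ L0 * ‖z - w‖)
    (hreal : ∀ z ∈ closedBall c R, z.im = c.im → (g z).im = 0) :
    ∀ z ∈ closedBall c R, ∀ w ∈ closedBall c R, ‖gt c g z - gt c g w‖ ≤ 3 * |L0| * ‖z - w‖ := by
  have hlip' : ∀ z ∈ closedBall c R, c.im ≤ z.im → ∀ w ∈ closedBall c R, c.im ≤ w.im →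
      ‖g z - g w‖ ≤ |L0| * ‖z - w‖ := fun z hz hz' w hw hw' =>
    (hlip z hz hz' w hw hw').trans (mul_le_mul_of_nonneg_right (le_abs_self _) (norm_nonneg _))
  -- imaginary part
  have him : ∀ w ∈ closedBall c R, c.im ≤ w.im → |(g w).im| ≤ |L0| * (w.im - c.im) := by
    intro w hw hw'
    set p : ℂ := ⟨w.re, c.im⟩ with hp
    have hpn : ‖p - c‖ ≤ ‖w - c‖ := by
      have h1 : ‖p - c‖ = |w.re - c.re| := by
        rw [Complex.norm_eq_sqrt_sq_add_sq]
        simp [hp, Real.sqrt_sq_eq_abs]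
      rw [h1]
      exact Complex.abs_re_le_norm (w - c)
    have hpb : p ∈ closedBall c R := by
      rw [mem_closedBall, dist_eq_norm] at *; linarith
    have h2 := hlip' w hw hw' p hpb le_rfl
    have h3 : ‖w - p‖ = w.im - c.im := by
      rw [Complex.norm_eq_sqrt_sq_add_sq]
      simp only [hp, Complex.sub_re, Complex.sub_im, sub_self]
      rw [zero_pow two_ne_zero, zero_add, Real.sqrt_sq_eq_abs, abs_of_nonneg (by linarith)]
    have h4 : |(g w).im| ≤ ‖g w - g p‖ := by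
      have := Complex.abs_im_le_norm (g w - g p)
      rwa [Complex.sub_im, hreal p hpb rfl, sub_zero] at this
    rw [h3] at h2
    exact h4.trans h2
  have hpos : ∀ r : ℝ, 0 ≤ r → |L0| * r ≤ 3 * |L0| * r := by
    intro r hr; nlinarith [mul_nonneg (abs_nonneg L0) hr]
  -- mixed case
  have mixed : ∀ z ∈ closedBall c R, ∀ w ∈ closedBall c R, c.im ≤ z.im → w.im < c.im →
      ‖g z - conj (g (rfl' c.im w))‖ ≤ 3 * |L0| * ‖z - w‖ := by
    intro z hz w hw hz' hw'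
    set w' := rfl' c.im w with hw'd
    have hw1 : w'.im = 2 * c.im - w.im := rfl'_im _ _
    have hw2 : c.im ≤ w'.im := by linarith
    have hre : w'.re = w.re := by simp [hw'd, rfl']
    have h1 : ‖z - w'‖ ≤ ‖z - w‖ := by
      rw [Complex.norm_eq_sqrt_sq_add_sq, Complex.norm_eq_sqrt_sq_add_sq]
      apply Real.sqrt_le_sqrt
      simp only [Complex.sub_re, Complex.sub_im, hre, hw1]
      nlinarith
    have h2 : w'.im - c.im ≤ ‖z - w‖ := by
      have := Complex.abs_im_le_norm (z - w)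
      rw [Complex.sub_im] at this
      have := (le_abs_self _).trans this
      linarith
    have h3 : ‖g w' - conj (g w')‖ = 2 * |(g w').im| := by
      have : g w' - conj (g w') = ((2 * (g w').im : ℝ) : ℂ) * Complex.I := by
        apply Complex.ext <;> simp
        ring
      rw [this, norm_mul, Complex.norm_I, mul_one, Complex.norm_real, Real.norm_eq_abs, abs_mul]
      norm_num
    have h4 := hlip' z hz hz' w' (rfl_cball hw) hw2
    have h5 := him w' (rfl_cball hw) hw2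
    calc ‖g z - conj (g w')‖ = ‖(g z - g w') + (g w' - conj (g w'))‖ := by congr 1; ring
      _ ≤ ‖g z - g w'‖ + ‖g w' - conj (g w')‖ := norm_add_le _ _
      _ ≤ |L0| * ‖z - w‖ + 2 * (|L0| * ‖z - w‖) := by
          rw [h3]
          have a1 : |L0| * ‖z - w'‖ ≤ |L0| * ‖z - w‖ := mul_le_mul_of_nonneg_left h1 (abs_nonneg _)
          have a2 : |L0| * (w'.im - c.im) ≤ |L0| * ‖z - w‖ :=
            mul_le_mul_of_nonneg_left h2 (abs_nonneg _)
          linarith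
      _ = 3 * |L0| * ‖z - w‖ := by ring
  intro z hz w hw
  unfold gt
  by_cases h1 : c.im ≤ z.im <;> by_cases h2 : c.im ≤ w.im
  · rw [if_pos h1, if_pos h2]
    exact (hlip' z hz h1 w hw h2).trans (hpos _ (norm_nonneg _))
  · rw [if_pos h1, if_neg h2]
    exact mixed z hz w hw h1 (not_le.1 h2)
  · rw [if_neg h1, if_pos h2, norm_sub_rev, norm_sub_rev z w]
    exact mixed w hw z hz h2 (not_le.1 h1)
  · rw [if_neg h1, if_neg h2, conj_diff, ← rfl'_norm c.im z w]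
    have a1 : c.im ≤ (rfl' c.im z).im := by rw [rfl'_im]; linarith
    have a2 : c.im ≤ (rfl' c.im w).im := by rw [rfl'_im]; linarith
    exact (hlip' _ (rfl_cball hz) a1 _ (rfl_cball hw) a2).trans (hpos _ (norm_nonneg _))

private theorem half_deriv {R A B : ℝ} {c : ℂ} {g q : ℂ → ℂ} {D : ℂ → (ℂ →L[ℝ] ℂ)}
    (h : HalfData R c g D q A B) {z : ℂ} (hz : z ∈ ball c R) (hz' : z.im ≠ c.im) :
    HasFDerivAt (gt c g) (Dt c D z) z := by
  rcases lt_or_gt_of_ne hz' with h1 | h1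
  · have e : gt c g =ᶠ[𝓝 z] fun w => conj (g (rfl' c.im w)) := by
      filter_upwards [(isOpen_lt Complex.continuous_im continuous_const).mem_nhds h1] with w hw
      unfold gt; rw [if_neg (not_le.2 hw)]
    have h2 : c.im < (rfl' c.im z).im := by rw [rfl'_im]; linarith
    have h3 := h.deriv _ (rfl_ball hz) h2
    have h4 : HasFDerivAt (rfl' c.im) (Complex.conjCLE : ℂ →L[ℝ] ℂ) z := by
      unfold rfl'
      exact (Complex.conjCLE.hasFDerivAt (x := z)).add_const _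
    have h5 : HasFDerivAt (fun w => conj (g (rfl' c.im w)))
        ((Complex.conjCLE : ℂ →L[ℝ] ℂ).comp ((D (rfl' c.im z)).comp
          (Complex.conjCLE : ℂ →L[ℝ] ℂ))) z :=
      (Complex.conjCLE.hasFDerivAt (x := g (rfl' c.im z))).comp z (h3.comp z h4)
    have h6 : Dt c D z = (Complex.conjCLE : ℂ →L[ℝ] ℂ).comp ((D (rfl' c.im z)).comp
          (Complex.conjCLE : ℂ →L[ℝ] ℂ)) := by
      unfold Dt; rw [if_neg (not_le.2 h1)]
    rw [h6]
    exact h5.congr_of_eventuallyEq e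
  · have e : gt c g =ᶠ[𝓝 z] g := by
      filter_upwards [(isOpen_lt continuous_const Complex.continuous_im).mem_nhds h1] with w hw
      unfold gt; rw [if_pos (le_of_lt hw)]
    have h6 : Dt c D z = D z := by
      unfold Dt; rw [if_pos h1.le]
    rw [h6]
    exact (h.deriv z hz h1).congr_of_eventuallyEq e

private theorem half_dbar {R A B : ℝ} {c : ℂ} {g q : ℂ → ℂ} {D : ℂ → (ℂ →L[ℝ] ℂ)}
    (h : HalfData R c g D q A B) {z : ℂ} (hz : z ∈ ball c R) (hz' : z.im ≠ c.im) :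
    dbar (Dt c D z) = if c.im ≤ z.im then q z else conj (q (rfl' c.im z)) := by
  unfold Dt
  rcases lt_or_gt_of_ne hz' with h1 | h1
  · have h2 : c.im < (rfl' c.im z).im := by rw [rfl'_im]; linarith
    rw [if_neg (not_le.2 h1), if_neg (not_le.2 h1), dbar_conj, h.dbar _ (rfl_ball hz) h2]
  · rw [if_pos h1.le, if_pos h1.le, h.dbar z hz h1]

private theorem half_bd {R A B : ℝ} {c : ℂ} {g q : ℂ → ℂ} {D : ℂ → (ℂ →L[ℝ] ℂ)}
    (h : HalfData R c g D q A B) {z : ℂ} (hz : z ∈ closedBall c R) : ‖gt c g z‖ ≤ A := by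
  unfold gt
  split_ifs with h1
  · exact h.bdg z hz h1
  · rw [Complex.norm_conj]
    exact h.bdg _ (rfl_cball hz) (by rw [rfl'_im]; linarith)

private theorem half_bq {R A B : ℝ} {c : ℂ} {g q : ℂ → ℂ} {D : ℂ → (ℂ →L[ℝ] ℂ)}
    (h : HalfData R c g D q A B) {z : ℂ} (hz : z ∈ ball c R) (hz' : z.im ≠ c.im) :
    ‖dbar (Dt c D z)‖ ≤ B := by
  rw [half_dbar h hz hz']
  rcases lt_or_gt_of_ne hz' with h1 | h1
  · rw [if_neg (not_le.2 h1), Complex.norm_conj]
    exact h.bdq _ (rfl_ball hz) (by rw [rfl'_im]; linarith)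
  · rw [if_pos h1.le]
    exact h.bdq z hz h1

theorem lemmaS_half {R β : ℝ} (hR : 0 < R) (hβ : 0 < β) (hβ1 : β ≤ 1) :
    ∃ C ≥ 0, ∀ (c : ℂ) (g : ℂ → ℂ) (D : ℂ → (ℂ →L[ℝ] ℂ)) (q : ℂ → ℂ) (A B K : ℝ), 0 ≤ A → 0 ≤ B →
      0 ≤ K → HalfData R c g D q A B →
      (∀ z ∈ ball c R, c.im < z.im → ∀ w ∈ ball c R, c.im < w.im → ‖q z - q w‖ ≤ K * ‖z - w‖ ^ β) →
      ∀ ζ₁ ∈ closedBall c (R / 8), c.im ≤ ζ₁.im → ∀ ζ₂ ∈ closedBall c (R / 8), c.im ≤ ζ₂.im →
        ‖g ζ₁ - g ζ₂‖ ≤ C * (A + B + K) * ‖ζ₁ - ζ₂‖ := by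
  obtain ⟨C1, hC1, hcore⟩ := core hR
  obtain ⟨C2, hC2, hdens⟩ := dens hR hβ hβ1
  obtain ⟨L, hL0, hL, -, -⟩ := chi_lip hR
  refine ⟨C1 + C2 * (2 + 2 * (1 + L)), by positivity, ?_⟩
  intro c g D q A B K hA hB hK h hq ζ₁ hζ1 hi1 ζ₂ hζ2 hi2
  obtain ⟨L0, hlip⟩ := h.lip
  obtain ⟨-, hmain⟩ := hcore c (gt c g) (Dt c D) A B (3 * |L0|) hA hB (half_lip hlip h.real)
    (fun z hz hz' => half_deriv h hz hz') (fun z hz => half_bd h hz)
    (fun z hz hz' => half_bq h hz hz')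
  have hm := hmain ζ₁ hζ1 ζ₂ hζ2
  have hg1 : gt c g ζ₁ = g ζ₁ := by unfold gt; rw [if_pos hi1]
  have hg2 : gt c g ζ₂ = g ζ₂ := by unfold gt; rw [if_pos hi2]
  rw [hg1, hg2] at hm
  -- extension of `q`
  obtain ⟨q', hq'e, hq'b, hq'h⟩ := holder_ext hβ hβ1 (E := {z | z ∈ ball c R ∧ c.im < z.im})
    (q := q) hB hK (fun z hz => h.bdq z hz.1 hz.2)
    (fun z hz w hw => hq z hz.1 hz.2 w hw.1 hw.2)
  set k₁ : ℂ → ℂ := fun z => ((chi R c z : ℝ) : ℂ) * q' z with hk1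
  set k₂ : ℂ → ℂ := fun z => conj (k₁ (rfl' c.im z)) with hk2
  have hk1h : ∀ z w, ‖k₁ z - k₁ w‖ ≤ ((1 + L) * (2 * B) + 2 * K) * ‖z - w‖ ^ β :=
    fun z w => chi_holder hβ hβ1 (hL c) hL0 (by positivity) hq'b hq'h z w
  have hk2h : ∀ z w, ‖k₂ z - k₂ w‖ ≤ ((1 + L) * (2 * B) + 2 * K) * ‖z - w‖ ^ β := by
    intro z w
    rw [hk2]; dsimp only
    rw [conj_diff, ← rfl'_norm c.im z w]
    exact hk1h _ _
  have hk1b : ∀ z, ‖k₁ z‖ ≤ 2 * B := by
    intro z
    rw [hk1]; dsimp only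
    rw [norm_mul]
    calc _ ≤ 1 * (2 * B) := mul_le_mul (chi_norm_le R c z) (hq'b z) (norm_nonneg _) zero_le_one
      _ = _ := one_mul _
  have hk2b : ∀ z, ‖k₂ z‖ ≤ 2 * B := by
    intro z
    rw [hk2]; dsimp only
    rw [Complex.norm_conj]; exact hk1b _
  have hchi0 : ∀ z, z ∉ ball c R → chi R c z = 0 := fun z hz => chi_zero hR (fun h' => hz
    (ball_subset_ball (by linarith) h'))
  have hk1s : ∀ z, z ∉ closedBall c R → k₁ z = 0 := by
    intro z hz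
    rw [hk1]; dsimp only
    rw [hchi0 z (fun h' => hz (ball_subset_closedBall h'))]; simp
  have hk2s : ∀ z, z ∉ closedBall c R → k₂ z = 0 := by
    intro z hz
    have : rfl' c.im z ∉ closedBall c R := by
      intro h'; apply hz
      have := rfl_cball h'
      rwa [rfl'_rfl'] at this
    rw [hk2]; dsimp only
    rw [hk1s _ this]; simp
  have hup : ∀ z, c.im < z.im → Wf R c (fun z => dbar (Dt c D z)) z = k₁ z := by
    intro z hz
    unfold Wf
    rw [if_neg hz.ne']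
    by_cases hz2 : z ∈ ball c R
    · rw [if_pos hz2]
      dsimp only
      rw [half_dbar h hz2 hz.ne', if_pos hz.le, hk1]
      dsimp only
      rw [hq'e (show z ∈ {z | z ∈ ball c R ∧ c.im < z.im} from ⟨hz2, hz⟩)]
    · rw [if_neg hz2, hk1]; dsimp only
      rw [hchi0 z hz2]; simp
  have hlo : ∀ z, z.im < c.im → Wf R c (fun z => dbar (Dt c D z)) z = k₂ z := by
    intro z hz
    unfold Wf
    rw [if_neg hz.ne]
    have hz3 : c.im < (rfl' c.im z).im := by rw [rfl'_im]; linarith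
    have hce : chi R c (rfl' c.im z) = chi R c z := chi_congr (rfl_norm c z)
    by_cases hz2 : z ∈ ball c R
    · rw [if_pos hz2]
      dsimp only
      rw [half_dbar h hz2 hz.ne, if_neg (not_le.2 hz), hk2, hk1]
      dsimp only
      rw [hq'e (show rfl' c.im z ∈ {z | z ∈ ball c R ∧ c.im < z.im} from ⟨rfl_ball hz2, hz3⟩),
        map_mul, Complex.conj_ofReal, hce]
    · rw [if_neg hz2, hk2, hk1]; dsimp only
      rw [hce, hchi0 z hz2]; simp
  have hd := hdens c (fun z => dbar (Dt c D z)) k₁ k₂ (2 * B) ((1 + L) * (2 * B) + 2 * K)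
    (by positivity) (by positivity) hk1b hk2b hk1h hk2h hk1s hk2s hup hlo ζ₁ hζ1 ζ₂ hζ2
  have hr := norm_nonneg (ζ₁ - ζ₂)
  have hfin : C1 * A * ‖ζ₁ - ζ₂‖ + C2 * (2 * B + ((1 + L) * (2 * B) + 2 * K)) * ‖ζ₁ - ζ₂‖
      ≤ (C1 + C2 * (2 + 2 * (1 + L))) * (A + B + K) * ‖ζ₁ - ζ₂‖ := by
    rw [← add_mul]
    apply mul_le_mul_of_nonneg_right _ hr
    have a1 : 0 ≤ C1 * (B + K) := by positivity
    have a2 : 0 ≤ C2 * (2 + 2 * (1 + L)) * A := by positivity
    have a3 : 0 ≤ C2 * (2 * (1 + L)) * K := by positivity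
    nlinarith
  linarith

theorem lemmaS_half_log {R : ℝ} (hR : 0 < R) :
    ∃ C ≥ 0, ∀ (c : ℂ) (g : ℂ → ℂ) (D : ℂ → (ℂ →L[ℝ] ℂ)) (q : ℂ → ℂ) (A B : ℝ), 0 ≤ A → 0 ≤ B →
      HalfData R c g D q A B →
      ∀ ζ₁ ∈ closedBall c (R / 8), c.im ≤ ζ₁.im → ∀ ζ₂ ∈ closedBall c (R / 8), c.im ≤ ζ₂.im →
        ‖g ζ₁ - g ζ₂‖ ≤ C * (A + B) * lgm ‖ζ₁ - ζ₂‖ := by
  obtain ⟨C1, hC1, hcore⟩ := core hR
  obtain ⟨C2, hC2, hlog⟩ := ct_log hR
  refine ⟨C1 + C2, by positivity, ?_⟩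
  intro c g D q A B hA hB h ζ₁ hζ1 hi1 ζ₂ hζ2 hi2
  obtain ⟨L0, hlip⟩ := h.lip
  obtain ⟨hmeas, hmain⟩ := hcore c (gt c g) (Dt c D) A B (3 * |L0|) hA hB (half_lip hlip h.real)
    (fun z hz hz' => half_deriv h hz hz') (fun z hz => half_bd h hz)
    (fun z hz hz' => half_bq h hz hz')
  have hm := hmain ζ₁ hζ1 ζ₂ hζ2
  have hg1 : gt c g ζ₁ = g ζ₁ := by unfold gt; rw [if_pos hi1]
  have hg2 : gt c g ζ₂ = g ζ₂ := by unfold gt; rw [if_pos hi2]
  rw [hg1, hg2] at hm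
  have hsub : closedBall c (R / 8) ⊆ closedBall c (2 * R) :=
    closedBall_subset_closedBall (by linarith)
  have hl := hlog (Wf R c (fun z => dbar (Dt c D z))) c B hB hmeas
    (Wf_bd c _ hB (fun z hz hz' => half_bq h hz hz')) (Wf_supp R c _) ζ₁ (hsub hζ1) ζ₂ (hsub hζ2)
  have hr := norm_nonneg (ζ₁ - ζ₂)
  have h1 := le_lgm hr
  have h2 := lgm_nonneg hr
  have a1 : C1 * A * ‖ζ₁ - ζ₂‖ ≤ C1 * A * lgm ‖ζ₁ - ζ₂‖ :=
    mul_le_mul_of_nonneg_left h1 (by positivity)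
  have a2 : 0 ≤ C1 * B * lgm ‖ζ₁ - ζ₂‖ := by positivity
  have a3 : 0 ≤ C2 * A * lgm ‖ζ₁ - ζ₂‖ := by positivity
  nlinarith

theorem lemmaS_disc {R β : ℝ} (hR : 0 < R) (hβ : 0 < β) (hβ1 : β ≤ 1) :
    ∃ C ≥ 0, ∀ (c : ℂ) (g : ℂ → ℂ) (D : ℂ → (ℂ →L[ℝ] ℂ)) (q : ℂ → ℂ) (A B K : ℝ), 0 ≤ A → 0 ≤ B →
      0 ≤ K → DiscData R c g D q A B →
      (∀ z ∈ ball c R, ∀ w ∈ ball c R, ‖q z - q w‖ ≤ K * ‖z - w‖ ^ β) →
      ∀ ζ₁ ∈ closedBall c (R / 8), ∀ ζ₂ ∈ closedBall c (R / 8),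
        ‖g ζ₁ - g ζ₂‖ ≤ C * (A + B + K) * ‖ζ₁ - ζ₂‖ := by
  obtain ⟨C1, hC1, hcore⟩ := core hR
  obtain ⟨C2, hC2, hdens⟩ := dens hR hβ hβ1
  obtain ⟨L, hL0, hL, -, -⟩ := chi_lip hR
  refine ⟨C1 + C2 * (2 + 2 * (1 + L)), by positivity, ?_⟩
  intro c g D q A B K hA hB hK h hq ζ₁ hζ1 ζ₂ hζ2
  obtain ⟨L0, hlip⟩ := h.lip
  have hbq : ∀ z ∈ ball c R, z.im ≠ c.im → ‖dbar (D z)‖ ≤ B := by
    intro z hz _; rw [h.dbar z hz]; exact h.bdq z hz
  obtain ⟨-, hmain⟩ := hcore c g D A B L0 hA hB hlip (fun z hz _ => h.deriv z hz) h.bdg hbq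
  have hm := hmain ζ₁ hζ1 ζ₂ hζ2
  obtain ⟨q', hq'e, hq'b, hq'h⟩ := holder_ext hβ hβ1 (E := ball c R)
    (q := q) hB hK h.bdq hq
  set k₁ : ℂ → ℂ := fun z => ((chi R c z : ℝ) : ℂ) * q' z with hk1
  have hk1h : ∀ z w, ‖k₁ z - k₁ w‖ ≤ ((1 + L) * (2 * B) + 2 * K) * ‖z - w‖ ^ β :=
    fun z w => chi_holder hβ hβ1 (hL c) hL0 (by positivity) hq'b hq'h z w
  have hk1b : ∀ z, ‖k₁ z‖ ≤ 2 * B := by
    intro z
    rw [hk1]; dsimp only
    rw [norm_mul]
    calc _ ≤ 1 * (2 * B) := mul_le_mul (chi_norm_le R c z) (hq'b z) (norm_nonneg _) zero_le_one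
      _ = _ := one_mul _
  have hchi0 : ∀ z, z ∉ ball c R → chi R c z = 0 := fun z hz => chi_zero hR (fun h' => hz
    (ball_subset_ball (by linarith) h'))
  have hk1s : ∀ z, z ∉ closedBall c R → k₁ z = 0 := by
    intro z hz
    rw [hk1]; dsimp only
    rw [hchi0 z (fun h' => hz (ball_subset_closedBall h'))]; simp
  have hW : ∀ z, z.im ≠ c.im → Wf R c (fun z => dbar (D z)) z = k₁ z := by
    intro z hz
    unfold Wf
    rw [if_neg hz]
    by_cases hz2 : z ∈ ball c R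
    · rw [if_pos hz2]
      dsimp only
      rw [h.dbar z hz2, hk1]
      dsimp only
      rw [hq'e hz2]
    · rw [if_neg hz2, hk1]; dsimp only
      rw [hchi0 z hz2]; simp
  have hd := hdens c (fun z => dbar (D z)) k₁ k₁ (2 * B) ((1 + L) * (2 * B) + 2 * K)
    (by positivity) (by positivity) hk1b hk1b hk1h hk1h hk1s hk1s (fun z hz => hW z hz.ne')
    (fun z hz => hW z hz.ne) ζ₁ hζ1 ζ₂ hζ2
  have hr := norm_nonneg (ζ₁ - ζ₂)
  have hfin : C1 * A * ‖ζ₁ - ζ₂‖ + C2 * (2 * B + ((1 + L) * (2 * B) + 2 * K)) * ‖ζ₁ - ζ₂‖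
      ≤ (C1 + C2 * (2 + 2 * (1 + L))) * (A + B + K) * ‖ζ₁ - ζ₂‖ := by
    rw [← add_mul]
    apply mul_le_mul_of_nonneg_right _ hr
    have a1 : 0 ≤ C1 * (B + K) := by positivity
    have a2 : 0 ≤ C2 * (2 + 2 * (1 + L)) * A := by positivity
    have a3 : 0 ≤ C2 * (2 * (1 + L)) * K := by positivity
    nlinarith
  linarith

theorem lemmaS_disc_log {R : ℝ} (hR : 0 < R) :
    ∃ C ≥ 0, ∀ (c : ℂ) (g : ℂ → ℂ) (D : ℂ → (ℂ →L[ℝ] ℂ)) (q : ℂ → ℂ) (A B : ℝ), 0 ≤ A → 0 ≤ B →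
      DiscData R c g D q A B →
      ∀ ζ₁ ∈ closedBall c (R / 8), ∀ ζ₂ ∈ closedBall c (R / 8),
        ‖g ζ₁ - g ζ₂‖ ≤ C * (A + B) * lgm ‖ζ₁ - ζ₂‖ := by
  obtain ⟨C1, hC1, hcore⟩ := core hR
  obtain ⟨C2, hC2, hlog⟩ := ct_log hR
  refine ⟨C1 + C2, by positivity, ?_⟩
  intro c g D q A B hA hB h ζ₁ hζ1 ζ₂ hζ2
  obtain ⟨L0, hlip⟩ := h.lip
  have hbq : ∀ z ∈ ball c R, z.im ≠ c.im → ‖dbar (D z)‖ ≤ B := by
    intro z hz _; rw [h.dbar z hz]; exact h.bdq z hz
  obtain ⟨hmeas, hmain⟩ := hcore c g D A B L0 hA hB hlip (fun z hz _ => h.deriv z hz) h.bdg hbq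
  have hm := hmain ζ₁ hζ1 ζ₂ hζ2
  have hsub : closedBall c (R / 8) ⊆ closedBall c (2 * R) :=
    closedBall_subset_closedBall (by linarith)
  have hl := hlog (Wf R c (fun z => dbar (D z))) c B hB hmeas
    (Wf_bd c _ hB hbq) (Wf_supp R c _) ζ₁ (hsub hζ1) ζ₂ (hsub hζ2)
  have hr := norm_nonneg (ζ₁ - ζ₂)
  have h1 := le_lgm hr
  have h2 := lgm_nonneg hr
  have a1 : C1 * A * ‖ζ₁ - ζ₂‖ ≤ C1 * A * lgm ‖ζ₁ - ζ₂‖ :=
    mul_le_mul_of_nonneg_left h1 (by positivity)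
  have a2 : 0 ≤ C1 * B * lgm ‖ζ₁ - ζ₂‖ := by positivity
  have a3 : 0 ≤ C2 * A * lgm ‖ζ₁ - ζ₂‖ := by positivity
  nlinarith

end Pool.Agent.EAC
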