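import Pool.Agent.EAC.GDefs

/-!
# EAC-GBb: elementary facts: integrals of radial kernels.

* `int_inv_norm`: if `‖ζ - c‖ ≤ 2R` then `closedBall c R ⊆ closedBall ζ (3R)` and
  `∫_{closedBall ζ ρ} ‖z-ζ‖⁻¹ = 2πρ`; otherwise `‖z-ζ‖ ≥ R` on the ball.
-/

set_option autoImplicit false

noncomputable section

namespace Pool.Agent.EAC

open MeasureTheory Set Filter Topology Metric
open scoped ENNReal ComplexConjugate

/-- polar coordinates for a radial function, centred at `0`. -/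
theorem radial_zero {f : ℝ → ℝ} {S : Set ℝ} (hS : MeasurableSet S) :
    (IntegrableOn (fun z : ℂ => f ‖z‖) {z : ℂ | ‖z‖ ∈ S} ↔
      IntegrableOn (fun r : ℝ => r * f r) (Ioi 0 ∩ S)) ∧
    ∫ z in {z : ℂ | ‖z‖ ∈ S}, f ‖z‖ = 2 * Real.pi * ∫ r in Ioi 0 ∩ S, r * f r := by
  have hS' : MeasurableSet {z : ℂ | ‖z‖ ∈ S} := measurable_norm hS
  have e1 : (fun z : ℂ => (S.indicator f) ‖z‖) =
      ({z : ℂ | ‖z‖ ∈ S}).indicator (fun z : ℂ => f ‖z‖) := by
    funext z
    by_cases hz : ‖z‖ ∈ S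
    · rw [Set.indicator_of_mem hz, Set.indicator_of_mem (show z ∈ {z : ℂ | ‖z‖ ∈ S} from hz)]
    · rw [Set.indicator_of_notMem hz,
        Set.indicator_of_notMem (show z ∉ {z : ℂ | ‖z‖ ∈ S} from hz)]
  have e2 : (fun y : ℝ => y ^ (Module.finrank ℝ ℂ - 1) • (S.indicator f) y) =
      S.indicator (fun r : ℝ => r * f r) := by
    funext y
    rw [Complex.finrank_real_complex]
    by_cases hy : y ∈ S
    · rw [Set.indicator_of_mem hy, Set.indicator_of_mem hy]
      simp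
    · rw [Set.indicator_of_notMem hy, Set.indicator_of_notMem hy]
      simp
  have hb : (volume : Measure ℂ).real (ball (0 : ℂ) 1) = Real.pi := by
    rw [Measure.real, Complex.volume_ball]
    simp
  constructor
  · rw [← integrable_indicator_iff hS', ← e1,
      integrable_fun_norm_addHaar (volume : Measure ℂ) (f := S.indicator f), e2]
    rw [IntegrableOn, integrable_indicator_iff hS, IntegrableOn, Measure.restrict_restrict hS,
      Set.inter_comm]
    rfl
  · rw [← integral_indicator hS', ← e1,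
      integral_fun_norm_addHaar (volume : Measure ℂ) (S.indicator f), e2,
      integral_indicator hS, Measure.restrict_restrict hS, hb, Complex.finrank_real_complex,
      Set.inter_comm]
    simp only [nsmul_eq_mul, smul_eq_mul, Nat.cast_ofNat]
    ring

/-- polar coordinates for a radial function, centred at `m`. -/
theorem radial {f : ℝ → ℝ} {S : Set ℝ} (hS : MeasurableSet S) (m : ℂ) :
    (IntegrableOn (fun z : ℂ => f ‖z - m‖) {z : ℂ | ‖z - m‖ ∈ S} ↔
      IntegrableOn (fun r : ℝ => r * f r) (Ioi 0 ∩ S)) ∧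
    ∫ z in {z : ℂ | ‖z - m‖ ∈ S}, f ‖z - m‖ = 2 * Real.pi * ∫ r in Ioi 0 ∩ S, r * f r := by
  have hmp : MeasurePreserving (fun z : ℂ => z - m) volume volume :=
    measurePreserving_sub_right volume m
  have hemb : MeasurableEmbedding (fun z : ℂ => z - m) := measurableEmbedding_subRight m
  have hpre : {z : ℂ | ‖z - m‖ ∈ S} = (fun z : ℂ => z - m) ⁻¹' {z : ℂ | ‖z‖ ∈ S} := rfl
  obtain ⟨h1, h2⟩ := radial_zero (f := f) hS
  constructor
  · rw [hpre, ← h1]
    exact hmp.integrableOn_comp_preimage hemb (f := fun z : ℂ => f ‖z‖)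
  · rw [hpre, ← h2]
    exact hmp.setIntegral_preimage_emb hemb (fun z : ℂ => f ‖z‖) {z : ℂ | ‖z‖ ∈ S}

theorem closedBall_radial (m : ℂ) (ρ : ℝ) :
    closedBall m ρ = {z : ℂ | ‖z - m‖ ∈ Iic ρ} := by
  ext z
  simp [dist_eq_norm]

/-- `∫_{‖z-m‖ ≤ ρ} ‖z-m‖^(β-1) ≤ C` type bounds used in the Hölder estimate: with `0 < β`,
`∫_{‖z-m‖ ≤ ρ} ‖z-m‖^(β-2) = 2π ρ^β/β`. -/
theorem int_rpow_norm {β ρ : ℝ} (hβ : 0 < β) (hρ : 0 < ρ) (m : ℂ) :
    IntegrableOn (fun z : ℂ => ‖z - m‖ ^ (β - 2)) (closedBall m ρ) ∧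
      ∫ z in closedBall m ρ, ‖z - m‖ ^ (β - 2) = 2 * Real.pi * ρ ^ β / β := by
  obtain ⟨h1, h2⟩ := radial (f := fun r : ℝ => r ^ (β - 2)) (measurableSet_Iic (a := ρ)) m
  have hset : Ioi (0 : ℝ) ∩ Iic ρ = Ioc 0 ρ := rfl
  have hcongr : ∀ r ∈ Ioc (0 : ℝ) ρ, r * r ^ (β - 2) = r ^ (β - 1) := by
    intro r hr
    have := Real.rpow_add hr.1 1 (β - 2)
    rw [Real.rpow_one] at this
    rw [← this]
    congr 1
    ring
  have hint : IntegrableOn (fun r : ℝ => r ^ (β - 1)) (Ioc 0 ρ) := by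
    have := intervalIntegral.intervalIntegrable_rpow' (a := 0) (b := ρ) (r := β - 1) (by linarith)
    exact (intervalIntegrable_iff_integrableOn_Ioc_of_le hρ.le).1 this
  rw [closedBall_radial, h1, h2, hset]
  constructor
  · exact hint.congr_fun (fun r hr => (hcongr r hr).symm) measurableSet_Ioc
  · rw [setIntegral_congr_fun measurableSet_Ioc hcongr,
      ← intervalIntegral.integral_of_le hρ.le, integral_rpow (Or.inl (by linarith))]
    rw [Real.zero_rpow (by linarith), sub_add_cancel, sub_zero, mul_div_assoc]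

/-- `∫_{δ ≤ ‖z-m‖ ≤ ρ} ‖z-m‖⁻² = 2π log(ρ/δ)`. -/
theorem int_inv_sq {δ ρ : ℝ} (hδ : 0 < δ) (hρ : δ ≤ ρ) (m : ℂ) :
    IntegrableOn (fun z : ℂ => (‖z - m‖ ^ 2)⁻¹) (closedBall m ρ \ ball m δ) ∧
      ∫ z in closedBall m ρ \ ball m δ, (‖z - m‖ ^ 2)⁻¹ = 2 * Real.pi * Real.log (ρ / δ) := by
  obtain ⟨h1, h2⟩ := radial (f := fun r : ℝ => (r ^ 2)⁻¹) (measurableSet_Icc (a := δ) (b := ρ)) m
  have hset : Ioi (0 : ℝ) ∩ Icc δ ρ = Icc δ ρ :=
    Set.inter_eq_right.2 fun r hr => lt_of_lt_of_le hδ hr.1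
  have hball : closedBall m ρ \ ball m δ = {z : ℂ | ‖z - m‖ ∈ Icc δ ρ} := by
    ext z
    simp [dist_eq_norm, and_comm]
  have hcongr : ∀ r ∈ Icc δ ρ, r * (r ^ 2)⁻¹ = r⁻¹ := by
    intro r hr
    have : 0 < r := lt_of_lt_of_le hδ hr.1
    field_simp
  have hint : IntegrableOn (fun r : ℝ => r⁻¹) (Icc δ ρ) := by
    apply ContinuousOn.integrableOn_Icc
    exact ContinuousOn.inv₀ continuousOn_id fun r hr => (lt_of_lt_of_le hδ hr.1).ne'
  rw [hball, h1, h2, hset]
  constructor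
  · exact hint.congr_fun (fun r hr => (hcongr r hr).symm) measurableSet_Icc
  · rw [setIntegral_congr_fun measurableSet_Icc hcongr, integral_Icc_eq_integral_Ioc,
      ← intervalIntegral.integral_of_le hρ,
      integral_inv_of_pos hδ (lt_of_lt_of_le hδ hρ)]

/-- integral of `1/|z - ζ|` over a disc. -/
theorem int_inv_norm {R : ℝ} (hR : 0 < R) (c ζ : ℂ) :
    IntegrableOn (fun z : ℂ => ‖z - ζ‖⁻¹) (closedBall c R) ∧
      ∫ z in closedBall c R, ‖z - ζ‖⁻¹ ≤ 6 * Real.pi * R := by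
  have hcong : (fun z : ℂ => ‖z - ζ‖ ^ ((1 : ℝ) - 2)) = fun z : ℂ => ‖z - ζ‖⁻¹ := by
    funext z
    rw [show ((1 : ℝ) - 2) = -1 by norm_num, Real.rpow_neg_one]
  by_cases hc : ‖ζ - c‖ ≤ 2 * R
  · obtain ⟨h1, h2⟩ := int_rpow_norm (β := 1) (ρ := 3 * R) one_pos (by linarith) ζ
    rw [hcong] at h1 h2
    have hsub : closedBall c R ⊆ closedBall ζ (3 * R) := by
      apply closedBall_subset_closedBall'
      rw [dist_comm, dist_eq_norm]
      linarith
    refine ⟨h1.mono_set hsub, ?_⟩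
    calc ∫ z in closedBall c R, ‖z - ζ‖⁻¹ ≤ ∫ z in closedBall ζ (3 * R), ‖z - ζ‖⁻¹ :=
          setIntegral_mono_set h1 (Eventually.of_forall fun z => by positivity)
            (Eventually.of_forall hsub)
      _ = 6 * Real.pi * R := by
          rw [h2, Real.rpow_one]
          ring
  · push Not at hc
    have hlow : ∀ z ∈ closedBall c R, R ≤ ‖z - ζ‖ := by
      intro z hz
      rw [mem_closedBall, dist_eq_norm] at hz
      have : ‖ζ - c‖ ≤ ‖z - c‖ + ‖z - ζ‖ := by
        calc ‖ζ - c‖ = ‖(z - c) - (z - ζ)‖ := by congr 1; ring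
          _ ≤ _ := norm_sub_le _ _
      linarith
    have hcont : ContinuousOn (fun z : ℂ => ‖z - ζ‖⁻¹) (closedBall c R) :=
      ContinuousOn.inv₀ (by fun_prop) fun z hz => (lt_of_lt_of_le hR (hlow z hz)).ne'
    have hI : IntegrableOn (fun z : ℂ => ‖z - ζ‖⁻¹) (closedBall c R) :=
      hcont.integrableOn_compact (isCompact_closedBall c R)
    refine ⟨hI, ?_⟩
    calc ∫ z in closedBall c R, ‖z - ζ‖⁻¹ ≤ ∫ _z in closedBall c R, R⁻¹ := by
          apply setIntegral_mono_on hI _ measurableSet_closedBall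
          · intro z hz
            exact inv_anti₀ hR (hlow z hz)
          · exact integrableOn_const (measure_closedBall_lt_top).ne
      _ = Real.pi * R := by
          rw [setIntegral_const, Measure.real, Complex.volume_closedBall]
          simp only [ENNReal.toReal_mul, ENNReal.toReal_pow, ENNReal.toReal_ofReal hR.le,
            ENNReal.coe_toReal, NNReal.coe_real_pi, smul_eq_mul]
          field_simp
      _ ≤ 6 * Real.pi * R := by
          have := Real.pi_pos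
          nlinarith [mul_pos this hR]

end Pool.Agent.EAC
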