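import Pool.Agent.EAC.GDefs

/-!
# EAC-GBa: elementary facts: the bump `bmp`, the reflection `rfl'`, the modulus `lgm`, Hölder extension.

* `holder_ext`: McShane: `q̂ x = inf_{y ∈ E} (q y + K ‖x-y‖^β)` for real functions (`‖·‖^β` is subadditive,
  `Real.add_rpow_le_rpow_add`/`NNReal.rpow_add_le_add_rpow`), clamp to `[-B,B]`; complex: real and imaginary parts
  (the constants get a factor 2).
-/

set_option autoImplicit false

noncomputable section

namespace Pool.Agent.EAC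

open MeasureTheory Set Filter Topology Metric
open scoped ENNReal ComplexConjugate

theorem bmp_smooth (R : ℝ) : ContDiff ℝ (⊤ : ℕ∞) (bmp R) := by
  unfold bmp
  refine Real.smoothTransition.contDiff.comp ?_
  refine ContDiff.div_const ?_ _
  exact contDiff_const.sub (contDiff_norm_sq ℝ)

theorem bmp_mem (R : ℝ) (z : ℂ) : 0 ≤ bmp R z ∧ bmp R z ≤ 1 :=
  ⟨Real.smoothTransition.nonneg _, Real.smoothTransition.le_one _⟩

theorem bmp_one {R : ℝ} (hR : 0 < R) {z : ℂ} (hz : ‖z‖ ≤ 4 * R) : bmp R z = 1 := by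
  unfold bmp
  apply Real.smoothTransition.one_of_one_le
  rw [le_div_iff₀ (by positivity)]
  have h0 : 0 ≤ ‖z‖ := norm_nonneg z
  nlinarith

theorem bmp_zero {R : ℝ} (hR : 0 < R) {z : ℂ} (hz : 8 * R ≤ ‖z‖) : bmp R z = 0 := by
  unfold bmp
  apply Real.smoothTransition.zero_of_nonpos
  apply div_nonpos_of_nonpos_of_nonneg
  · nlinarith
  · positivity

theorem bmp_lip {R : ℝ} (hR : 0 < R) : ∃ L ≥ 0, ∀ z w, |bmp R z - bmp R w| ≤ L * ‖z - w‖ := by
  have hc : HasCompactSupport (bmp R) := by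
    refine HasCompactSupport.intro (isCompact_closedBall (0 : ℂ) (8 * R)) ?_
    intro x hx
    apply bmp_zero hR
    rw [mem_closedBall_zero_iff, not_le] at hx
    exact hx.le
  have h1 : ContDiff ℝ 1 (bmp R) := (bmp_smooth R).of_le (by exact_mod_cast le_top)
  obtain ⟨C, hC⟩ := h1.lipschitzWith_of_hasCompactSupport hc (by norm_num)
  refine ⟨C, C.2, fun z w => ?_⟩
  have := hC.dist_le_mul z w
  rwa [Real.dist_eq, dist_eq_norm] at this

theorem rfl'_rfl' (b : ℝ) (z : ℂ) : rfl' b (rfl' b z) = z := by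
  unfold rfl'
  apply Complex.ext <;> simp

theorem rfl'_im (b : ℝ) (z : ℂ) : (rfl' b z).im = 2 * b - z.im := by
  unfold rfl'
  simp
  ring

theorem rfl'_norm (b : ℝ) (z w : ℂ) : ‖rfl' b z - rfl' b w‖ = ‖z - w‖ := by
  unfold rfl'
  rw [add_sub_add_right_eq_sub, ← map_sub, Complex.norm_conj]

theorem rfl'_self {b : ℝ} {z : ℂ} (hz : z.im = b) : rfl' b z = z := by
  unfold rfl'
  apply Complex.ext
  · simp
  · simp [hz]
    ring

theorem lgm_nonneg {r : ℝ} (hr : 0 ≤ r) : 0 ≤ lgm r := by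
  unfold lgm
  have : 0 ≤ max 0 (-Real.log r) := le_max_left _ _
  positivity

theorem le_lgm {r : ℝ} (hr : 0 ≤ r) : r ≤ lgm r := by
  unfold lgm
  have : 0 ≤ max 0 (-Real.log r) := le_max_left _ _
  nlinarith

private theorem lgm_small {r : ℝ} (hr : 0 < r) (h1 : r ≤ 1) : lgm r = r * (1 - Real.log r) := by
  unfold lgm
  rw [max_eq_right]
  · ring
  · have := Real.log_nonpos hr.le h1
    linarith

private theorem lgm_mono_small {r t : ℝ} (hr : 0 < r) (hrt : r ≤ t) (ht : t ≤ 1) :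
    lgm r ≤ lgm t := by
  have ht0 : 0 < t := lt_of_lt_of_le hr hrt
  rw [lgm_small hr (hrt.trans ht), lgm_small ht0 ht]
  have h1 : Real.log t ≤ 0 := Real.log_nonpos ht0.le ht
  have h2 : Real.log t - Real.log r ≤ t / r - 1 := by
    rw [← Real.log_div ht0.ne' hr.ne']
    exact Real.log_le_sub_one_of_pos (by positivity)
  have h3 : r * (Real.log t - Real.log r) ≤ t - r := by
    calc r * (Real.log t - Real.log r) ≤ r * (t / r - 1) :=
          mul_le_mul_of_nonneg_left h2 hr.le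
      _ = t - r := by field_simp
  nlinarith [mul_nonneg (sub_nonneg.2 hrt) (neg_nonneg.2 h1)]

theorem lgm_mono {r t : ℝ} (hr : 0 ≤ r) (hrt : r ≤ t) : lgm r ≤ lgm t := by
  rcases hr.eq_or_lt with h0 | h0
  · subst h0
    have : lgm 0 = 0 := by simp [lgm]
    rw [this]
    exact lgm_nonneg hrt
  rcases le_total t 1 with ht | ht
  · exact lgm_mono_small h0 hrt ht
  rcases le_total r 1 with h1 | h1
  · have h2 := lgm_mono_small h0 h1 le_rfl
    have h3 : lgm 1 = 1 := by simp [lgm]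
    rw [h3] at h2
    exact h2.trans (ht.trans (le_lgm (by linarith)))
  · have h2 : lgm r = r := by
      unfold lgm
      rw [max_eq_left, add_zero, mul_one]
      have := Real.log_nonneg h1
      linarith
    rw [h2]
    exact hrt.trans (le_lgm (by linarith))

/-- McShane extension of a bounded real function. -/
private theorem holder_ext_real {β : ℝ} (hβ : 0 < β) (hβ1 : β ≤ 1) {E : Set ℂ} (hE : E.Nonempty)
    {f : ℂ → ℝ} {B K : ℝ}
    (hK0 : 0 ≤ K) (hB : ∀ z ∈ E, |f z| ≤ B) (hK : ∀ z ∈ E, ∀ w ∈ E, |f z - f w| ≤ K * ‖z - w‖ ^ β) :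
    ∃ F : ℂ → ℝ, EqOn F f E ∧ (∀ z, |F z| ≤ B) ∧ ∀ z w, |F z - F w| ≤ K * ‖z - w‖ ^ β := by
  have : Nonempty E := hE.to_subtype
  set G : ℂ → ℝ := fun x => ⨅ y : E, (f y + K * ‖x - y‖ ^ β) with hG
  have hbdd : ∀ x : ℂ, BddBelow (range fun y : E => f y + K * ‖x - (y : ℂ)‖ ^ β) := by
    intro x
    refine ⟨-B, ?_⟩
    rintro _ ⟨y, rfl⟩
    have h1 := (abs_le.1 (hB y y.2)).1
    have h2 : 0 ≤ K * ‖x - (y : ℂ)‖ ^ β := by positivity
    show -B ≤ f y + K * ‖x - (y : ℂ)‖ ^ β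
    linarith
  have hB0 : 0 ≤ B := by
    obtain ⟨e, he⟩ := hE
    exact (abs_nonneg _).trans (hB e he)
  have hle : ∀ x z : ℂ, G x ≤ G z + K * ‖x - z‖ ^ β := by
    intro x z
    rw [← sub_le_iff_le_add]
    refine le_ciInf fun y => ?_
    have h1 : G x ≤ f y + K * ‖x - y‖ ^ β := ciInf_le (hbdd x) y
    have h2 : ‖x - (y : ℂ)‖ ^ β ≤ ‖x - z‖ ^ β + ‖z - y‖ ^ β := by
      calc ‖x - (y : ℂ)‖ ^ β ≤ (‖x - z‖ + ‖z - y‖) ^ β := by
            apply Real.rpow_le_rpow (norm_nonneg _) _ hβ.le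
            exact norm_sub_le_norm_sub_add_norm_sub _ _ _
        _ ≤ _ := Real.rpow_add_le_add_rpow (norm_nonneg _) (norm_nonneg _) hβ.le hβ1
    have h3 := mul_le_mul_of_nonneg_left h2 hK0
    linarith
  have hGl : ∀ z w, |G z - G w| ≤ K * ‖z - w‖ ^ β := by
    intro z w
    rw [abs_le]
    have h1 := hle z w
    have h2 := hle w z
    rw [norm_sub_rev] at h2
    constructor <;> linarith
  have hGe : ∀ x ∈ E, G x = f x := by
    intro x hx
    apply le_antisymm
    · have h1 : G x ≤ f x + K * ‖x - x‖ ^ β := ciInf_le (hbdd x) ⟨x, hx⟩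
      rwa [sub_self, norm_zero, Real.zero_rpow hβ.ne', mul_zero, add_zero] at h1
    · refine le_ciInf fun y => ?_
      have h1 := (abs_le.1 (hK x hx y y.2)).2
      linarith
  refine ⟨fun x => max (-B) (min B (G x)), ?_, ?_, ?_⟩
  · intro x hx
    have h1 := abs_le.1 (hB x hx)
    show max (-B) (min B (G x)) = f x
    rw [hGe x hx, min_eq_right h1.2, max_eq_right h1.1]
  · intro z
    rw [abs_le]
    exact ⟨le_max_left _ _, max_le (by linarith) (min_le_left _ _)⟩
  · intro z w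
    refine le_trans ?_ (hGl z w)
    show |max (-B) (min B (G z)) - max (-B) (min B (G w))| ≤ |G z - G w|
    rw [max_comm (-B), max_comm (-B)]
    refine (abs_max_sub_max_le_abs _ _ _).trans ?_
    rw [min_comm B, min_comm B]
    have := abs_min_sub_min_le_max (G z) B (G w) B
    simpa using this

/-- extension of bounded Hölder functions to the plane. -/
theorem holder_ext {β : ℝ} (hβ : 0 < β) (hβ1 : β ≤ 1) {E : Set ℂ} {q : ℂ → ℂ} {B K : ℝ} (hB0 : 0 ≤ B)
    (hK0 : 0 ≤ K) (hB : ∀ z ∈ E, ‖q z‖ ≤ B) (hK : ∀ z ∈ E, ∀ w ∈ E, ‖q z - q w‖ ≤ K * ‖z - w‖ ^ β) :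
    ∃ q' : ℂ → ℂ, EqOn q' q E ∧ (∀ z, ‖q' z‖ ≤ 2 * B) ∧
      ∀ z w, ‖q' z - q' w‖ ≤ 2 * K * ‖z - w‖ ^ β := by
  rcases E.eq_empty_or_nonempty with hE | hE
  · refine ⟨fun _ => 0, ?_, ?_, ?_⟩
    · rw [hE]
      exact eqOn_empty _ _
    · intro z
      simpa using hB0
    · intro z w
      simp only [sub_self, norm_zero]
      positivity
  · obtain ⟨F1, h1, h1b, h1k⟩ := holder_ext_real (f := fun z => (q z).re) hβ hβ1 hE hK0
      (fun z hz => (Complex.abs_re_le_norm _).trans (hB z hz))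
      (fun z hz w hw => by
        rw [← Complex.sub_re]
        exact (Complex.abs_re_le_norm _).trans (hK z hz w hw))
    obtain ⟨F2, h2, h2b, h2k⟩ := holder_ext_real (f := fun z => (q z).im) hβ hβ1 hE hK0
      (fun z hz => (Complex.abs_im_le_norm _).trans (hB z hz))
      (fun z hz w hw => by
        rw [← Complex.sub_im]
        exact (Complex.abs_im_le_norm _).trans (hK z hz w hw))
    refine ⟨fun z => ⟨F1 z, F2 z⟩, ?_, ?_, ?_⟩
    · intro z hz
      apply Complex.ext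
      · exact h1 hz
      · exact h2 hz
    · intro z
      refine (Complex.norm_le_abs_re_add_abs_im _).trans ?_
      have ha := h1b z
      have hb := h2b z
      show |F1 z| + |F2 z| ≤ 2 * B
      linarith
    · intro z w
      refine (Complex.norm_le_abs_re_add_abs_im _).trans ?_
      have ha := h1k z w
      have hb := h2k z w
      show |F1 z - F1 w| + |F2 z - F2 w| ≤ 2 * K * ‖z - w‖ ^ β
      linarith

end Pool.Agent.EAC
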