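import Pool.Agent.EAC.Defs

/-!
# EAC, PART G: definitions (Cauchy transform)
-/

set_option autoImplicit false

noncomputable section

namespace Pool.Agent.EAC

open MeasureTheory Set Filter Topology Metric
open scoped ENNReal ComplexConjugate

/-- Cauchy transform `∫ w(z)/(z - ζ) dA(z)`. -/
def CT (w : ℂ → ℂ) (ζ : ℂ) : ℂ := ∫ z, w z / (z - ζ)

/-- `∂̄` of a real linear map. -/
def dbar (D : ℂ →L[ℝ] ℂ) : ℂ := (1 / 2 : ℂ) * (D 1 + Complex.I * D Complex.I)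

/-- log-Lipschitz modulus of continuity. -/
def lgm (r : ℝ) : ℝ := r * (1 + max 0 (-Real.log r))

/-- reflection in the line `Im = b`. -/
def rfl' (b : ℝ) (z : ℂ) : ℂ := conj z + (2 * b : ℝ) * Complex.I

/-- smooth radial bump: `1` for `‖z‖ ≤ 4R`, `0` for `‖z‖ ≥ 8R`. -/
def bmp (R : ℝ) (z : ℂ) : ℝ := Real.smoothTransition ((64 * R ^ 2 - ‖z‖ ^ 2) / (48 * R ^ 2))

end Pool.Agent.EAC
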