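import Pool.Agent.EAC.Geo4a

/-!
# EAC Geo4b: smoothness of `mm`, `rho`; `mm` is Lipschitz on the strip

Proof plan.
* `contDiffOn_mm`, `contDiffOn_rho`: `Zi` is complex differentiable on the open set `Oset`, hence `ContDiffOn ℂ` and
  `ContDiffOn ℝ` (`DifferentiableOn.contDiffOn`, `ContDiffOn.restrict_scalars`), `zp = 4(1-z^2)/qq` is smooth at
  `Zi ζ` (`qq ≠ 0` by `qq_ne_zero`), `‖·‖^2` smooth (`ContDiffOn.norm_sq`), inverse of a nonvanishing function.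
* `mm_lipschitz`: `mm = ‖G‖` with `G = (zp ∘ Zi)^2`, and `G' = 2 zp' (Zi ζ)` on the convex open set `U 1`
  because `Zi' = 1/zp (Zi ζ)`; `‖zp'‖ ≤ L`; extend by continuity to `S 1 = closure (U 1)`.
-/

set_option autoImplicit false

noncomputable section

namespace Pool.Agent.EAC.Geo

open MeasureTheory Set Filter Topology Metric
open scoped ENNReal ComplexConjugate

private theorem g4_qq (ζ : ℂ) : qq (Zi ζ) ≠ 0 := qq_ne_zero (qA_Zi_ne_zero ζ) (qB_Zi_ne_zero ζ)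

private theorem g4_Zi : ContDiffOn ℂ (⊤ : ℕ∞) Zi Oset := by
  have h : DifferentiableOn ℂ Zi Oset := fun ζ hζ =>
    (hasDerivAt_Zi hζ).differentiableAt.differentiableWithinAt
  exact h.contDiffOn isOpen_Oset

private theorem g4_zp : ContDiffOn ℂ (⊤ : ℕ∞) (fun ζ => zp (Zi ζ)) Oset := by
  have h1 : ContDiffOn ℂ (⊤ : ℕ∞) (fun ζ => 4 * (1 - Zi ζ ^ 2)) Oset :=
    contDiffOn_const.mul (contDiffOn_const.sub (g4_Zi.pow 2))
  have h2 : ContDiffOn ℂ (⊤ : ℕ∞) (fun ζ => qq (Zi ζ)) Oset := by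
    unfold qq
    exact ((g4_Zi.pow 4).add (contDiffOn_const.mul (g4_Zi.pow 2))).add contDiffOn_const
  exact h1.div h2 (fun ζ _ => g4_qq ζ)

theorem contDiffOn_mm : ContDiffOn ℝ (⊤ : ℕ∞) mm Oset := by
  have h := g4_zp.restrict_scalars ℝ
  exact h.norm_sq ℝ

theorem contDiffOn_rho : ContDiffOn ℝ (⊤ : ℕ∞) rho Oset :=
  contDiffOn_mm.inv (fun _ hζ => (mm_pos hζ).ne')

/-- the derivative of `zp` -/
private def zpd (z : ℂ) : ℂ :=
  (4 * (-(2 * z)) * qq z - 4 * (1 - z ^ 2) * (4 * z ^ 3 + 12 * z)) / qq z ^ 2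

private theorem hasDerivAt_zp {z : ℂ} (h : qq z ≠ 0) : HasDerivAt zp (zpd z) z := by
  have h1 : HasDerivAt (fun z : ℂ => 4 * (1 - z ^ 2)) (4 * (-(2 * z))) z := by
    have := ((hasDerivAt_pow 2 z).const_sub 1).const_mul 4
    simpa using this
  have h2 : HasDerivAt qq (4 * z ^ 3 + 12 * z) z := by
    have := ((hasDerivAt_pow 4 z).add ((hasDerivAt_pow 2 z).const_mul 6)).add_const 1
    have e : (4 * z ^ 3 + 12 * z) = ((4 : ℕ) : ℂ) * z ^ (4 - 1) + 6 * (((2 : ℕ) : ℂ) * z ^ (2 - 1)) := by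
      norm_num; ring
    rw [e]
    exact this
  exact h1.div h2 h

private theorem norm_zpd_le {z : ℂ} (h1 : ‖z‖ ≤ 1) (h2 : 1 / 8 ≤ ‖qq z‖) : ‖zpd z‖ ≤ 12288 := by
  have h3 := norm_qq_le h1
  have hz0 := norm_nonneg z
  have hp2 : ‖z ^ 2‖ ≤ 1 := by rw [norm_pow]; exact pow_le_one₀ hz0 h1
  have hp3 : ‖z ^ 3‖ ≤ 1 := by rw [norm_pow]; exact pow_le_one₀ hz0 h1
  have e1 : ‖4 * (-(2 * z)) * qq z‖ ≤ 64 := by
    rw [norm_mul, norm_mul, norm_neg, norm_mul, Complex.norm_ofNat, Complex.norm_ofNat]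
    nlinarith [norm_nonneg (qq z)]
  have e2 : ‖1 - z ^ 2‖ ≤ 2 := by
    have := norm_sub_le (1 : ℂ) (z ^ 2)
    rw [norm_one] at this
    linarith
  have e3 : ‖4 * z ^ 3 + 12 * z‖ ≤ 16 := by
    have := norm_add_le (4 * z ^ 3) (12 * z)
    rw [norm_mul, norm_mul, Complex.norm_ofNat, Complex.norm_ofNat] at this
    linarith
  have e4 : ‖4 * (1 - z ^ 2) * (4 * z ^ 3 + 12 * z)‖ ≤ 128 := by
    rw [norm_mul, norm_mul, Complex.norm_ofNat]
    have := mul_le_mul e2 e3 (norm_nonneg _) (by norm_num)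
    linarith
  have e5 : ‖4 * (-(2 * z)) * qq z - 4 * (1 - z ^ 2) * (4 * z ^ 3 + 12 * z)‖ ≤ 192 := by
    have := norm_sub_le (4 * (-(2 * z)) * qq z) (4 * (1 - z ^ 2) * (4 * z ^ 3 + 12 * z))
    linarith
  unfold zpd
  rw [norm_div, norm_pow]
  have h4 : (1 / 64 : ℝ) ≤ ‖qq z‖ ^ 2 := by nlinarith
  rw [div_le_iff₀ (by linarith)]
  linarith

/-- the square of `zp ∘ Zi` -/
private def g4G (ζ : ℂ) : ℂ := zp (Zi ζ) ^ 2

private theorem g4_norm (ζ : ℂ) : mm ζ = ‖g4G ζ‖ := by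
  unfold mm g4G; rw [norm_pow]

private theorem g4_deriv {ζ : ℂ} (h : ζ ∈ Oset) : HasDerivAt g4G (2 * zpd (Zi ζ)) ζ := by
  have h1 := (hasDerivAt_zp (g4_qq ζ)).comp ζ (hasDerivAt_Zi h)
  have h2 := h1.pow 2
  have e : 2 * zpd (Zi ζ) = ((2 : ℕ) : ℂ) * (zp ∘ Zi) ζ ^ (2 - 1) * (zpd (Zi ζ) * (zp (Zi ζ))⁻¹) := by
    have := zp_Zi_ne_zero h
    simp only [Function.comp]
    have e2 : zp (Zi ζ) ^ (2 - 1) * (zpd (Zi ζ) * (zp (Zi ζ))⁻¹) = zpd (Zi ζ) := by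
      rw [show 2 - 1 = 1 from rfl, pow_one]
      field_simp
    rw [mul_assoc, e2]
    norm_num
  rw [e]
  exact h2

private theorem g4_cont : ContinuousOn g4G {ζ | 0 ≤ ζ.im} := by
  have h1 : ContinuousOn (fun ζ => 4 * (1 - Zi ζ ^ 2)) {ζ : ℂ | 0 ≤ ζ.im} :=
    continuousOn_const.mul (continuousOn_const.sub (continuousOn_Zi.pow 2))
  have h2 : ContinuousOn (fun ζ => qq (Zi ζ)) {ζ : ℂ | 0 ≤ ζ.im} :=
    continuous_qq.comp_continuousOn continuousOn_Zi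
  exact (h1.div h2 (fun ζ _ => g4_qq ζ)).pow 2

private theorem g4_convex : Convex ℝ (U 1) := by
  have e : U 1 = Complex.im ⁻¹' (Ioo 0 1) := rfl
  rw [e]
  exact (convex_Ioo 0 1).linear_preimage Complex.imLm

private theorem g4_closure : S 1 ⊆ closure (U 1) := by
  intro ζ hζ
  obtain ⟨h0, h1⟩ := hζ
  rw [Metric.mem_closure_iff]
  intro ε hε
  -- move towards the middle line
  set δ := min (ε / 2) (1 / 2) with hδ
  have hδ0 : 0 < δ := by rw [hδ]; positivity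
  have hδ1 : δ ≤ ε / 2 := min_le_left _ _
  have hδ2 : δ ≤ 1 / 2 := min_le_right _ _
  refine ⟨ζ + (δ * (1 / 2 - ζ.im) : ℝ) * Complex.I, ?_, ?_⟩
  · have : (ζ + (δ * (1 / 2 - ζ.im) : ℝ) * Complex.I).im = ζ.im + δ * (1 / 2 - ζ.im) := by
      simp
    constructor
    · rw [this]; nlinarith
    · rw [this]; nlinarith
  · rw [dist_eq_norm]
    have : ζ - (ζ + (δ * (1 / 2 - ζ.im) : ℝ) * Complex.I) = -((δ * (1 / 2 - ζ.im) : ℝ) * Complex.I) := by
      ring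
    rw [this, norm_neg, norm_mul, Complex.norm_I, mul_one, Complex.norm_real, Real.norm_eq_abs,
      abs_mul, abs_of_pos hδ0]
    have : |1 / 2 - ζ.im| ≤ 1 := by rw [abs_le]; constructor <;> linarith
    nlinarith [abs_nonneg (1 / 2 - ζ.im)]

theorem mm_lipschitz : ∃ L : ℝ, 0 < L ∧ ∀ ζ ∈ S 1, ∀ ζ' ∈ S 1, |mm ζ - mm ζ'| ≤ L * ‖ζ - ζ'‖ := by
  refine ⟨24576, by norm_num, ?_⟩
  have hU : LipschitzOnWith (24576 : NNReal) g4G (U 1) := by
    rw [lipschitzOnWith_iff_norm_sub_le]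
    intro x hx y hy
    have := Convex.norm_image_sub_le_of_norm_hasDerivWithin_le (𝕜 := ℂ) (f := g4G)
      (f' := fun ζ => 2 * zpd (Zi ζ)) (s := U 1) (C := 24576) (x := y) (y := x)
      (fun ζ hζ => (g4_deriv (U_subset_Oset 1 hζ)).hasDerivWithinAt) ?_ g4_convex hy hx
    · exact this
    · intro ζ hζ
      have h0 : 0 ≤ ζ.im := hζ.1.le
      have hS : ζ ∈ S 1 := ⟨h0, hζ.2.le⟩
      have := norm_zpd_le (norm_Zi_le h0) (eighth_le_qq le_rfl (Zi_mem_dom hS))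
      rw [norm_mul, Complex.norm_ofNat]
      linarith
  have hcl : closure (U 1) ⊆ {ζ : ℂ | 0 ≤ ζ.im} := by
    apply closure_minimal
    · intro ζ hζ; exact hζ.1.le
    · exact isClosed_le continuous_const Complex.continuous_im
  have hS : LipschitzOnWith (24576 : NNReal) g4G (closure (U 1)) :=
    LipschitzOnWith.closure (g4_cont.mono hcl) hU
  intro ζ hζ ζ' hζ'
  have h1 := (lipschitzOnWith_iff_norm_sub_le.1 hS) (g4_closure hζ) (g4_closure hζ')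
  rw [g4_norm, g4_norm]
  exact (abs_norm_sub_norm_le _ _).trans h1

end Pool.Agent.EAC.Geo
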