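import Pool.Agent.EAC.Geo2a

/-!
# EAC Geo5: `zet` is Lipschitz modulo `2π`

Proof plan.
`kap = qB/qA` is Lipschitz on the closed upper half disc (`‖qA‖ ≥ 1`, `‖qB‖ ≤ ‖qA‖ ≤ 8`, the numerator of
`kap z - kap z'` is `(qB z - qB z') qA z' + qB z' (qA z' - qA z)`, and `qA z - qA z'` is `(z - z')` times a bounded
factor).  Choose `n` with `δ = zet z - zet z' - 2πn`, `|Re δ| ≤ π` (`|Re (zet z) - Re (zet z')| < 2π`: `n ∈ {-1,0,1}`),
`|Im δ| ≤ 1` (both imaginary parts are in `[0,1]`): `‖kap z - kap z'‖ = ‖kap z'‖ ‖e^{iδ} - 1‖ ≥ e^{-1} ‖e^{iδ} - 1‖`, and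
`|e^{a+ib} - 1|^2 = (e^a - 1)^2 + 2 e^a (1 - cos b)` with `|a| ≤ 1`, `|b| ≤ π`:
`|e^a - 1| ≥ (1 - e^{-1})|a|` (or `≥ |a|/2`), `1 - cos b = 2 sin^2(b/2) ≥ 2 b^2/π^2` (`Real.mul_le_sin`).
-/

set_option autoImplicit false

noncomputable section

namespace Pool.Agent.EAC.Geo

open MeasureTheory Set Filter Topology Metric
open scoped ENNReal ComplexConjugate

private theorem norm_one_add_le {z : ℂ} (h : ‖z‖ ≤ 1) : ‖1 + z‖ ≤ 2 := by
  calc ‖1 + z‖ ≤ ‖(1 : ℂ)‖ + ‖z‖ := norm_add_le _ _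
    _ ≤ 2 := by rw [norm_one]; linarith

private theorem norm_one_sub_le {z : ℂ} (h : ‖z‖ ≤ 1) : ‖1 - z‖ ≤ 2 := by
  calc ‖1 - z‖ ≤ ‖(1 : ℂ)‖ + ‖z‖ := norm_sub_le _ _
    _ ≤ 2 := by rw [norm_one]; linarith

private theorem norm_qA_le8 {z : ℂ} (h : ‖z‖ ≤ 1) : ‖qA z‖ ≤ 8 := by
  unfold qA
  have h1 := norm_one_add_le h
  have h2 := norm_one_sub_le h
  calc ‖(1 + z) ^ 2 + Complex.I * (1 - z) ^ 2‖ ≤ ‖(1 + z) ^ 2‖ + ‖Complex.I * (1 - z) ^ 2‖ :=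
        norm_add_le _ _
    _ = ‖1 + z‖ ^ 2 + ‖1 - z‖ ^ 2 := by rw [norm_mul, norm_pow, norm_pow, Complex.norm_I, one_mul]
    _ ≤ 8 := by nlinarith [norm_nonneg (1 + z), norm_nonneg (1 - z)]

private theorem diff_sq_bounds {z z' : ℂ} (h : ‖z‖ ≤ 1) (h' : ‖z'‖ ≤ 1) :
    ‖(1 + z) ^ 2 - (1 + z') ^ 2‖ ≤ 4 * ‖z - z'‖ ∧ ‖(1 - z) ^ 2 - (1 - z') ^ 2‖ ≤ 4 * ‖z - z'‖ := by
  have h1 := norm_one_add_le h
  have h2 := norm_one_sub_le h
  have h3 := norm_one_add_le h'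
  have h4 := norm_one_sub_le h'
  constructor
  · have e : (1 + z) ^ 2 - (1 + z') ^ 2 = ((1 + z) + (1 + z')) * (z - z') := by ring
    rw [e, norm_mul]
    apply mul_le_mul_of_nonneg_right _ (norm_nonneg _)
    exact (norm_add_le _ _).trans (by linarith)
  · have e : (1 - z) ^ 2 - (1 - z') ^ 2 = -(((1 - z) + (1 - z')) * (z - z')) := by ring
    rw [e, norm_neg, norm_mul]
    apply mul_le_mul_of_nonneg_right _ (norm_nonneg _)
    exact (norm_add_le _ _).trans (by linarith)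

private theorem qA_sub_le {z z' : ℂ} (h : ‖z‖ ≤ 1) (h' : ‖z'‖ ≤ 1) :
    ‖qA z - qA z'‖ ≤ 8 * ‖z - z'‖ := by
  obtain ⟨h1, h2⟩ := diff_sq_bounds h h'
  have e : qA z - qA z' = ((1 + z) ^ 2 - (1 + z') ^ 2)
      + Complex.I * ((1 - z) ^ 2 - (1 - z') ^ 2) := by unfold qA; ring
  rw [e]
  calc _ ≤ ‖(1 + z) ^ 2 - (1 + z') ^ 2‖ + ‖Complex.I * ((1 - z) ^ 2 - (1 - z') ^ 2)‖ :=
        norm_add_le _ _
    _ ≤ 8 * ‖z - z'‖ := by
        rw [norm_mul, Complex.norm_I, one_mul]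
        linarith

private theorem qB_sub_le {z z' : ℂ} (h : ‖z‖ ≤ 1) (h' : ‖z'‖ ≤ 1) :
    ‖qB z - qB z'‖ ≤ 8 * ‖z - z'‖ := by
  obtain ⟨h1, h2⟩ := diff_sq_bounds h h'
  have e : qB z - qB z' = ((1 + z) ^ 2 - (1 + z') ^ 2)
      - Complex.I * ((1 - z) ^ 2 - (1 - z') ^ 2) := by unfold qB; ring
  rw [e]
  calc _ ≤ ‖(1 + z) ^ 2 - (1 + z') ^ 2‖ + ‖Complex.I * ((1 - z) ^ 2 - (1 - z') ^ 2)‖ :=
        norm_sub_le _ _
    _ ≤ 8 * ‖z - z'‖ := by
        rw [norm_mul, Complex.norm_I, one_mul]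
        linarith

private theorem kap_sub_le {z z' : ℂ} (h : ‖z‖ ≤ 1) (h' : ‖z'‖ ≤ 1) (hi : 0 ≤ z.im)
    (hi' : 0 ≤ z'.im) : ‖kap z - kap z'‖ ≤ 128 * ‖z - z'‖ := by
  have a1 := one_le_norm_qA h hi
  have a2 := one_le_norm_qA h' hi'
  have b2 := norm_qB_le_qA h' hi'
  have a8 := norm_qA_le8 h'
  have hA : qA z ≠ 0 := by
    intro h0
    rw [h0, norm_zero] at a1
    linarith
  have hA' : qA z' ≠ 0 := by
    intro h0
    rw [h0, norm_zero] at a2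
    linarith
  have e : kap z - kap z' = ((qB z - qB z') * qA z' + qB z' * (qA z' - qA z)) /
      (qA z * qA z') := by
    rw [kap_eq, kap_eq]
    field_simp
    ring
  rw [e, norm_div, norm_mul]
  have hd : 1 ≤ ‖qA z‖ * ‖qA z'‖ := by nlinarith
  rw [div_le_iff₀ (by linarith)]
  have hn : ‖(qB z - qB z') * qA z' + qB z' * (qA z' - qA z)‖ ≤ 128 * ‖z - z'‖ := by
    have q1 := qA_sub_le h' h
    have q2 := qB_sub_le h h'
    rw [norm_sub_rev z' z] at q1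
    calc _ ≤ ‖(qB z - qB z') * qA z'‖ + ‖qB z' * (qA z' - qA z)‖ := norm_add_le _ _
      _ = ‖qB z - qB z'‖ * ‖qA z'‖ + ‖qB z'‖ * ‖qA z' - qA z‖ := by rw [norm_mul, norm_mul]
      _ ≤ 8 * ‖z - z'‖ * 8 + 8 * (8 * ‖z - z'‖) := by
          apply add_le_add
          · exact mul_le_mul q2 a8 (norm_nonneg _) (by positivity)
          · exact mul_le_mul (b2.trans a8) q1 (norm_nonneg _) (by norm_num)
      _ = 128 * ‖z - z'‖ := by ring
  have h0 : 0 ≤ 128 * ‖z - z'‖ := by positivity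
  nlinarith

private theorem third_le_exp : (1 / 3 : ℝ) ≤ Real.exp (-1) := by
  rw [Real.exp_neg, one_div]
  apply inv_anti₀ (Real.exp_pos 1)
  have := Real.exp_one_lt_d9
  linarith

private theorem kap_bounds {h : ℝ} (hh1 : h ≤ 1) {z : ℂ} (hz : z ∈ dom h) (hi : 0 ≤ z.im) :
    Real.exp (-1) ≤ ‖kap z‖ ∧ ‖kap z‖ ≤ 1 := by
  obtain ⟨h1, h2, _⟩ := mem_dom_iff.1 hz
  have a1 := one_le_norm_qA h1 hi
  have b1 := norm_qB_le_qA h1 hi
  rw [kap_eq, norm_div]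
  constructor
  · rw [le_div_iff₀ (by linarith)]
    refine le_trans ?_ h2
    apply mul_le_mul_of_nonneg_right _ (norm_nonneg _)
    exact Real.exp_le_exp.2 (by linarith)
  · rw [div_le_one (by linarith)]
    exact b1

private theorem log_lip {u : ℂ} (h1 : Real.exp (-1) ≤ ‖u‖) (h2 : ‖u‖ ≤ Real.exp 1) :
    ‖Complex.log u‖ ≤ 10 * ‖u - 1‖ := by
  rcases le_or_gt ‖u - 1‖ (1 / 2) with h | h
  · have h3 := Complex.norm_log_one_add_half_le_self h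
    rw [add_sub_cancel] at h3
    linarith [norm_nonneg (u - 1)]
  · have hu : 0 < ‖u‖ := (Real.exp_pos _).trans_le h1
    have h3 : ‖Complex.log u‖ ≤ |(Complex.log u).re| + |(Complex.log u).im| :=
      Complex.norm_le_abs_re_add_abs_im _
    have h4 : |(Complex.log u).im| ≤ Real.pi := by
      rw [Complex.log_im]
      exact Complex.abs_arg_le_pi u
    have h5 : |(Complex.log u).re| ≤ 1 := by
      rw [Complex.log_re, abs_le]
      constructor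
      · rw [Real.le_log_iff_exp_le hu]
        exact h1
      · rw [Real.log_le_iff_le_exp hu]
        exact h2
    have := Real.pi_le_four
    linarith

theorem zet_lip : ∃ L : ℝ, 0 < L ∧ ∀ h : ℝ, 0 < h → h ≤ 1 → ∀ z ∈ dom h, ∀ z' ∈ dom h,
    0 ≤ z.im → 0 ≤ z'.im → ∃ n : ℤ, ‖zet z - zet z' - 2 * Real.pi * n‖ ≤ L * ‖z - z'‖ := by
  refine ⟨3840, by norm_num, ?_⟩
  intro h _ hh1 z hz z' hz' hi hi'
  obtain ⟨k1, k2⟩ := kap_bounds hh1 hz hi
  obtain ⟨l1, l2⟩ := kap_bounds hh1 hz' hi'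
  have hn : ‖z‖ ≤ 1 := (mem_dom_iff.1 hz).1
  have hn' : ‖z'‖ ≤ 1 := (mem_dom_iff.1 hz').1
  have hE := Real.exp_pos (-1)
  have hk : 0 < ‖kap z‖ := hE.trans_le k1
  have hk' : 0 < ‖kap z'‖ := hE.trans_le l1
  have hw : kap z ≠ 0 := norm_pos_iff.1 hk
  have hw' : kap z' ≠ 0 := norm_pos_iff.1 hk'
  have hd : kap z / kap z' ≠ 0 := div_ne_zero hw hw'
  have hexp : Complex.exp (Complex.log (kap z) - Complex.log (kap z')) =
      Complex.exp (Complex.log (kap z / kap z')) := by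
    rw [Complex.exp_sub, Complex.exp_log hw, Complex.exp_log hw', Complex.exp_log hd]
  obtain ⟨n, hn2⟩ := Complex.exp_eq_exp_iff_exists_int.1 hexp
  refine ⟨n, ?_⟩
  have e1 : zet z - zet z' - 2 * Real.pi * n = -Complex.I * Complex.log (kap z / kap z') := by
    have : zet z - zet z' = -Complex.I * (Complex.log (kap z) - Complex.log (kap z')) := by
      unfold zet; ring
    rw [this, hn2]
    linear_combination (-2 * (Real.pi : ℂ) * (n : ℂ)) * Complex.I_sq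
  rw [e1, norm_mul, norm_neg, Complex.norm_I, one_mul]
  have hEE : Real.exp (-1) * Real.exp 1 = 1 := by rw [← Real.exp_add]; simp
  have hE1 := Real.exp_pos 1
  have hu1 : Real.exp (-1) ≤ ‖kap z / kap z'‖ := by
    rw [norm_div, le_div_iff₀ hk']
    calc Real.exp (-1) * ‖kap z'‖ ≤ Real.exp (-1) * 1 := mul_le_mul_of_nonneg_left l2 hE.le
      _ ≤ ‖kap z‖ := by linarith
  have hu2 : ‖kap z / kap z'‖ ≤ Real.exp 1 := by
    rw [norm_div, div_le_iff₀ hk']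
    calc ‖kap z‖ ≤ 1 := k2
      _ = Real.exp 1 * Real.exp (-1) := by linarith
      _ ≤ Real.exp 1 * ‖kap z'‖ := mul_le_mul_of_nonneg_left l1 hE1.le
  have h3 := log_lip hu1 hu2
  have h4 : ‖kap z / kap z' - 1‖ ≤ 3 * ‖kap z - kap z'‖ := by
    have e : kap z / kap z' - 1 = (kap z - kap z') / kap z' := by
      field_simp
    rw [e, norm_div, div_le_iff₀ hk']
    have h5 := third_le_exp
    nlinarith [norm_nonneg (kap z - kap z')]
  have h6 := kap_sub_le hn hn' hi hi'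
  linarith

end Pool.Agent.EAC.Geo
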