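import Pool.Agent.EAC.Geo3b

/-!
# EAC Geo6a: interior of `dom h`

Proof plan.
* `mem_interior_dom`: `←` is `mem_interior_dom_of_lt`.  `→`: if `z` is interior then `‖z‖ < 1`
  (`interior (closedBall 0 1) = ball 0 1`).  If `e^{-h}‖qA z‖ = ‖qB z‖`, then `‖qA/qB‖ ≤ e^h` in a neighbourhood with
  equality at `z`: the holomorphic function `qA/qB` has a local maximum of the norm at `z`
  (`Complex.eventually_eq_of_isLocalMax_norm`), so `kap` is locally constant, contradiction with
  `hasDerivAt_kap`, `kap z ≠ 0`, `zp z ≠ 0` (`z^2 ≠ 1`).  Same for the other inequality with `qB/qA`.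
* `zet_mem_U`: `zet_im`, `zet_im_pos`, `mem_interior_dom`.
* `Zi_mem_interior`: `mem_interior_dom`, `kap_Zi`, `norm_Zi_eq_one_iff`, `Zi_im_eq_zero_iff`.
-/

set_option autoImplicit false

noncomputable section

namespace Pool.Agent.EAC.Geo

open MeasureTheory Set Filter Topology Metric
open scoped ENNReal ComplexConjugate

/-- `kap` is not locally constant at points of the domain in the open disc. -/
theorem kap_not_eventually_const {z : ℂ} (h1 : ‖z‖ < 1) (hA : qA z ≠ 0) (hB : qB z ≠ 0) :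
    ¬ ∀ᶠ w in 𝓝 z, kap w = kap z := by
  intro hev
  have hd0 : HasDerivAt kap 0 z := by
    have h2 : HasDerivAt (fun _ : ℂ => kap z) 0 z := hasDerivAt_const z (kap z)
    exact h2.congr_of_eventuallyEq hev
  have hd := hasDerivAt_kap hA hB
  have heq : Complex.I * kap z * zp z = 0 := hd.unique hd0
  have hk : kap z ≠ 0 := by rw [kap_eq]; exact div_ne_zero hB hA
  have hq : qq z ≠ 0 := qq_ne_zero hA hB
  have hz2 : (1 : ℂ) - z ^ 2 ≠ 0 := by
    intro h0
    have h3 : z ^ 2 = 1 := (sub_eq_zero.1 h0).symm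
    have h4 : ‖z‖ ^ 2 = 1 := by rw [← norm_pow, h3, norm_one]
    nlinarith [norm_nonneg z]
  have hzp : zp z ≠ 0 := by
    rw [zp_eq]
    exact div_ne_zero (mul_ne_zero (by norm_num) hz2) hq
  exact mul_ne_zero (mul_ne_zero Complex.I_ne_zero hk) hzp heq

theorem mem_interior_dom {h : ℝ} (hh : 0 < h) (hh1 : h ≤ 1) {z : ℂ} :
    z ∈ interior (dom h) ↔ ‖z‖ < 1 ∧ Real.exp (-h) * ‖qA z‖ < ‖qB z‖ ∧
      ‖qB z‖ < Real.exp h * ‖qA z‖ := by
  constructor
  · intro hz
    have hzd : z ∈ dom h := interior_subset hz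
    have hnhds : dom h ∈ 𝓝 z := mem_interior_iff_mem_nhds.1 hz
    have h1 : ‖z‖ < 1 := by
      have hsub : dom h ⊆ closedBall (0 : ℂ) 1 := fun w hw => by
        rw [mem_closedBall_zero_iff]; exact hw.1
      have h2 : z ∈ interior (closedBall (0 : ℂ) 1) := interior_mono hsub hz
      rw [interior_closedBall (0 : ℂ) one_ne_zero, mem_ball_zero_iff] at h2
      exact h2
    have hA := qA_ne_zero hh1 hzd
    have hB := qB_ne_zero hh1 hzd
    refine ⟨h1, ?_, ?_⟩
    · refine lt_of_le_of_ne (mem_dom_iff.1 hzd).2.1 fun heq => ?_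
      -- `qA / qB` has a local maximum
      have hd : ∀ᶠ w in 𝓝 z, DifferentiableAt ℂ (fun w => (kap w)⁻¹) w := by
        filter_upwards [hnhds] with w hw
        have hAw := qA_ne_zero hh1 hw
        have hBw := qB_ne_zero hh1 hw
        exact (hasDerivAt_kap hAw hBw).differentiableAt.inv
          (by rw [kap_eq]; exact div_ne_zero hBw hAw)
      have hmax : IsLocalMax (norm ∘ fun w => (kap w)⁻¹) z := by
        filter_upwards [hnhds] with w hw
        have hAw := norm_pos_iff.2 (qA_ne_zero hh1 hw)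
        have hBw := norm_pos_iff.2 (qB_ne_zero hh1 hw)
        have hA' := norm_pos_iff.2 hA
        have hB' := norm_pos_iff.2 hB
        have hle := (mem_dom_iff.1 hw).2.1
        simp only [Function.comp_apply, kap_eq, norm_inv, norm_div, inv_div]
        rw [div_le_div_iff₀ hBw hB', ← heq]
        have : Real.exp (-h) * ‖qA w‖ * ‖qA z‖ ≤ ‖qB w‖ * ‖qA z‖ := by gcongr
        nlinarith
      have hev := Complex.eventually_eq_of_isLocalMax_norm hd hmax
      refine kap_not_eventually_const h1 hA hB ?_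
      filter_upwards [hev] with w hw
      exact inv_injective hw
    · refine lt_of_le_of_ne (mem_dom_iff.1 hzd).2.2 fun heq => ?_
      have hd : ∀ᶠ w in 𝓝 z, DifferentiableAt ℂ kap w := by
        filter_upwards [hnhds] with w hw
        exact (hasDerivAt_kap (qA_ne_zero hh1 hw) (qB_ne_zero hh1 hw)).differentiableAt
      have hmax : IsLocalMax (norm ∘ kap) z := by
        filter_upwards [hnhds] with w hw
        have hAw := norm_pos_iff.2 (qA_ne_zero hh1 hw)
        have hA' := norm_pos_iff.2 hA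
        have hle := (mem_dom_iff.1 hw).2.2
        simp only [Function.comp_apply, kap_eq, norm_div]
        rw [div_le_div_iff₀ hAw hA', heq]
        have : ‖qB w‖ * ‖qA z‖ ≤ Real.exp h * ‖qA w‖ * ‖qA z‖ := by gcongr
        nlinarith
      exact kap_not_eventually_const h1 hA hB (Complex.eventually_eq_of_isLocalMax_norm hd hmax)
  · rintro ⟨h1, h2, h3⟩
    exact mem_interior_dom_of_lt h1 h2 h3

theorem conj_mem_interior_dom {h : ℝ} (hh : 0 < h) (hh1 : h ≤ 1) {z : ℂ}
    (hz : z ∈ interior (dom h)) : conj z ∈ interior (dom h) := by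
  rw [mem_interior_dom hh hh1] at hz ⊢
  obtain ⟨h1, h2, h3⟩ := hz
  rw [qA_conj, qB_conj, RCLike.norm_conj, RCLike.norm_conj, RCLike.norm_conj]
  have he : Real.exp (-h) * Real.exp h = 1 := by rw [← Real.exp_add]; simp
  refine ⟨h1, ?_, ?_⟩
  · calc Real.exp (-h) * ‖qB z‖ < Real.exp (-h) * (Real.exp h * ‖qA z‖) := by gcongr
      _ = ‖qA z‖ := by rw [← mul_assoc, he, one_mul]
  · calc ‖qA z‖ = Real.exp h * (Real.exp (-h) * ‖qA z‖) := by
          rw [← mul_assoc, mul_comm (Real.exp h), he, one_mul]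
      _ < Real.exp h * ‖qB z‖ := by gcongr

theorem neg_log_norm_kap_lt {h : ℝ} (hh : 0 < h) (hh1 : h ≤ 1) {z : ℂ}
    (hz : z ∈ interior (dom h)) : |(zet z).im| < h := by
  have hzd : z ∈ dom h := interior_subset hz
  obtain ⟨h1, h2, h3⟩ := (mem_interior_dom hh hh1).1 hz
  have hA := norm_pos_iff.2 (qA_ne_zero hh1 hzd)
  have hB := norm_pos_iff.2 (qB_ne_zero hh1 hzd)
  have hk : 0 < ‖kap z‖ := by rw [kap_eq, norm_div]; positivity
  rw [zet_im, abs_lt]
  constructor
  · have : Real.log ‖kap z‖ < h := by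
      rw [Real.log_lt_iff_lt_exp hk, kap_eq, norm_div, div_lt_iff₀ hA]
      exact h3
    linarith
  · have : -h < Real.log ‖kap z‖ := by
      rw [Real.lt_log_iff_exp_lt hk, kap_eq, norm_div, lt_div_iff₀ hA]
      exact h2
    linarith

theorem zet_mem_U {h : ℝ} (hh : 0 < h) (hh1 : h ≤ 1) {z : ℂ} (hz : z ∈ interior (dom h))
    (hi : 0 < z.im) : zet z ∈ U h := by
  have hzd : z ∈ dom h := interior_subset hz
  exact ⟨zet_im_pos ((mem_interior_dom hh hh1).1 hz).1 hi (qB_ne_zero hh1 hzd),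
    (abs_lt.1 (neg_log_norm_kap_lt hh hh1 hz)).2⟩

theorem abs_zet_im_lt {h : ℝ} (hh : 0 < h) (hh1 : h ≤ 1) {z : ℂ} (hz : z ∈ interior (dom h)) :
    |(zet z).im| < h := neg_log_norm_kap_lt hh hh1 hz

theorem Zi_mem_interior {h : ℝ} (hh : 0 < h) (hh1 : h ≤ 1) {ζ : ℂ} (hζ : ζ ∈ U h) :
    Zi ζ ∈ interior (dom h) ∧ 0 < (Zi ζ).im := by
  have h0 : 0 ≤ ζ.im := hζ.1.le
  refine ⟨?_, ?_⟩
  · rw [mem_interior_dom hh hh1]
    have hA := norm_pos_iff.2 (qA_Zi_ne_zero ζ)
    have hkn : ‖qB (Zi ζ)‖ = Real.exp (-ζ.im) * ‖qA (Zi ζ)‖ := by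
      have h2 : ‖kap (Zi ζ)‖ = Real.exp (-ζ.im) := by
        rw [kap_Zi, Complex.norm_exp]
        simp
      rw [kap_eq, norm_div, div_eq_iff hA.ne'] at h2
      exact h2
    refine ⟨lt_of_le_of_ne (norm_Zi_le h0) fun heq => ?_, ?_, ?_⟩
    · have := ((norm_Zi_eq_one_iff h0).1 heq).1
      exact hζ.1.ne' this
    · rw [hkn]
      have : Real.exp (-h) < Real.exp (-ζ.im) := Real.exp_lt_exp.2 (by linarith [hζ.2])
      gcongr
    · rw [hkn]
      have : Real.exp (-ζ.im) < Real.exp h := Real.exp_lt_exp.2 (by linarith [hζ.1])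
      gcongr
  · refine lt_of_le_of_ne (Zi_im_nonneg h0) fun heq => ?_
    have := ((Zi_im_eq_zero_iff h0).1 heq.symm).1
    exact hζ.1.ne' this

end Pool.Agent.EAC.Geo
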