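import Pool.Agent.EAC.Geo1b

/-!
# EAC Geo6b: area of `dom h`
-/

set_option autoImplicit false

noncomputable section

namespace Pool.Agent.EAC.Geo

open MeasureTheory Set Filter Topology Metric
open scoped ENNReal ComplexConjugate

/-- the real line is a null set. -/
theorem volume_real_line : volume {z : ℂ | z.im = 0} = 0 := by
  have hne : (LinearMap.ker Complex.imLm : Submodule ℝ ℂ) ≠ ⊤ := by
    intro htop
    have hmem : Complex.I ∈ (LinearMap.ker Complex.imLm : Submodule ℝ ℂ) := by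
      rw [htop]; exact Submodule.mem_top
    rw [LinearMap.mem_ker] at hmem
    simp at hmem
  have h := Measure.addHaar_submodule (volume : Measure ℂ) _ hne
  have heq : {z : ℂ | z.im = 0} = ((LinearMap.ker Complex.imLm : Submodule ℝ ℂ) : Set ℂ) := by
    ext z
    simp [LinearMap.mem_ker]
  rw [heq]
  exact h

theorem volume_unit_circle : volume {z : ℂ | ‖z‖ = 1} = 0 := by
  have heq : {z : ℂ | ‖z‖ = 1} = sphere (0 : ℂ) 1 := by
    ext z
    simp
  rw [heq]
  exact Measure.addHaar_sphere _ _ _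

theorem volume_dom_lt_top (h : ℝ) : volume (dom h) < ⊤ := (isCompact_dom h).measure_lt_top

theorem iInter_dom_subset : (⋂ h > (0 : ℝ), dom h) ⊆ {z : ℂ | ‖z‖ = 1} ∪ {z : ℂ | z.im = 0} := by
  intro z hz
  rw [mem_iInter₂] at hz
  have h1 : ‖z‖ ≤ 1 := (mem_dom_iff.mp (hz 1 one_pos)).1
  have hAB : ‖qA z‖ ≤ ‖qB z‖ := by
    have hlim : Tendsto (fun h : ℝ => Real.exp (-h) * ‖qA z‖) (𝓝[>] 0) (𝓝 (Real.exp (-0) * ‖qA z‖)) := by
      have hc : Continuous (fun h : ℝ => Real.exp (-h) * ‖qA z‖) := by fun_prop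
      exact (hc.tendsto 0).mono_left nhdsWithin_le_nhds
    have h2 := le_of_tendsto hlim (Filter.eventually_of_mem self_mem_nhdsWithin
      (fun h hh => (mem_dom_iff.mp (hz h hh)).2.1))
    simpa using h2
  have hBA : ‖qB z‖ ≤ ‖qA z‖ := by
    have hlim : Tendsto (fun h : ℝ => Real.exp h * ‖qA z‖) (𝓝[>] 0) (𝓝 (Real.exp 0 * ‖qA z‖)) := by
      have hc : Continuous (fun h : ℝ => Real.exp h * ‖qA z‖) := by fun_prop
      exact (hc.tendsto 0).mono_left nhdsWithin_le_nhds
    have h2 := ge_of_tendsto hlim (Filter.eventually_of_mem self_mem_nhdsWithin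
      (fun h hh => (mem_dom_iff.mp (hz h hh)).2.2))
    simpa using h2
  have hsq := normSq_qA_sub z
  rw [le_antisymm hAB hBA, sub_self] at hsq
  have hprod : (1 - ‖z‖ ^ 2) * z.im = 0 := by linarith
  rcases mul_eq_zero.mp hprod with h0 | h0
  · left
    have hn : 0 ≤ ‖z‖ := norm_nonneg z
    have : (1 - ‖z‖) * (1 + ‖z‖) = 0 := by linarith [sq ‖z‖]
    rcases mul_eq_zero.mp this with h3 | h3
    · show ‖z‖ = 1
      linarith
    · linarith
  · right
    exact h0

theorem tendsto_volume_dom : Tendsto (fun h : ℝ => volume (dom h)) (𝓝[>] 0) (𝓝 0) := by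
  have h := tendsto_measure_biInter_gt (μ := (volume : Measure ℂ)) (s := dom) (a := (0 : ℝ))
    (fun r _ => (isCompact_dom r).isClosed.measurableSet.nullMeasurableSet)
    (fun i j _ hij => dom_mono hij) ⟨1, one_pos, (volume_dom_lt_top 1).ne⟩
  have h0 : volume (⋂ r > (0 : ℝ), dom r) = 0 := by
    apply measure_mono_null iInter_dom_subset
    exact measure_union_null volume_unit_circle volume_real_line
  rw [h0] at h
  exact h

end Pool.Agent.EAC.Geo
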