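import Pool.Agent.EAC.Geo2b
import Pool.Agent.EAC.Geo4b
import Pool.Agent.EAC.Geo5
import Pool.Agent.EAC.Geo6a
import Pool.Agent.EAC.Geo6b

/-!
# EAC-Geo: all facts on the conformal map (details in the namespace `Pool.Agent.EAC.Geo`)
-/

set_option autoImplicit false

noncomputable section

namespace Pool.Agent.EAC

open MeasureTheory Set Filter Topology Metric
open scoped ENNReal ComplexConjugate

theorem isOpen_Oset : IsOpen Oset := Geo.isOpen_Oset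

theorem mem_Oset {ζ : ℂ} (h0 : 0 ≤ ζ.im) (hs : Complex.sin ζ ≠ 0) : ζ ∈ Oset := Geo.mem_Oset h0 hs

theorem Zi_hasDerivAt {ζ : ℂ} (hζ : ζ ∈ Oset) :
    HasDerivAt Zi (1 / zp (Zi ζ)) ζ ∧ zp (Zi ζ) ≠ 0 :=
  ⟨by rw [one_div]; exact Geo.hasDerivAt_Zi hζ, Geo.zp_Zi_ne_zero hζ⟩

theorem mm_smooth : ContDiffOn ℝ (⊤ : ℕ∞) mm Oset := Geo.contDiffOn_mm

theorem rho_smooth : ContDiffOn ℝ (⊤ : ℕ∞) rho Oset := Geo.contDiffOn_rho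

theorem Zi_per (ζ : ℂ) : Zi (ζ + 2 * Real.pi) = Zi ζ := Geo.Zi_add_two_pi ζ

theorem mm_per (ζ : ℂ) : mm (ζ + 2 * Real.pi) = mm ζ := Geo.mm_add_two_pi ζ

theorem rho_per (ζ : ℂ) : rho (ζ + 2 * Real.pi) = rho ζ := Geo.rho_add_two_pi ζ

theorem mm_corner {ζ : ℂ} (hs : Complex.sin ζ = 0) : mm ζ = 0 := Geo.mm_eq_zero hs

/-- `mm` and `rho` compared with `‖sin ζ‖`. -/
theorem mm_bounds : ∃ C > 0, ∀ ζ : ℂ, 0 ≤ ζ.im → ζ.im ≤ 1 →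
    0 ≤ mm ζ ∧ mm ζ ≤ C * ‖Complex.sin ζ‖ ∧
    (Complex.sin ζ ≠ 0 → 0 < mm ζ ∧ 0 < rho ζ ∧ rho ζ ≤ C / ‖Complex.sin ζ‖) := by
  refine ⟨128, by norm_num, fun ζ h0 h1 => ⟨Geo.mm_nonneg ζ, Geo.mm_le ⟨h0, h1⟩, fun hs => ?_⟩⟩
  have hm := Geo.mem_Oset h0 hs
  refine ⟨Geo.mm_pos hm, Geo.rho_pos hm, (Geo.rho_le h0).trans ?_⟩
  have hp : 0 < ‖Complex.sin ζ‖ := norm_pos_iff.mpr hs
  rw [div_le_div_iff₀ (by positivity) hp]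
  nlinarith

theorem mm_lip : ∃ L > 0, ∀ z ∈ S 1, ∀ w ∈ S 1, |mm z - mm w| ≤ L * ‖z - w‖ :=
  Geo.mm_lipschitz

/-- lower bound of `rho` near the corner `0`. -/
theorem rho_lower : ∃ c > 0, ∀ ζ : ℂ, 0 ≤ ζ.im → ζ ≠ 0 → ‖ζ‖ ≤ 1 / 2 → c / ‖ζ‖ ≤ rho ζ :=
  Geo.rho_lower

end Pool.Agent.EAC
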