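import Pool.Agent.EAC.GeoDefs

/-!
# EAC Geo1a: algebra of the conformal map

Proof plan.
* `qA_mul_qB`, `qA_conj`, `qB_conj`, `zp_conj`: `unfold`, `ring` / `simp [map_add, ...]`; `I ^ 2 = -1`.
* `normSq_qA_sub`: `‖w‖^2 = w.re^2 + w.im^2` (`Complex.sq_norm`, `Complex.normSq_apply`), expand in
  `z.re, z.im`, `ring`.  (`|A|^2 - |B|^2 = 4 Re((1+z)^2 conj(I (1-z)^2))`.)
* `two_le_norm_add`: `A + B = 2 (1+z)^2`, `A - B = 2 I (1-z)^2`, hence
  `‖A‖ + ‖B‖ ≥ 2 ‖1+z‖^2` and `≥ 2 ‖1-z‖^2`, and `‖1+z‖^2 + ‖1-z‖^2 = 2 + 2 ‖z‖^2`.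
* `hasDerivAt_kap`: quotient rule, then `field_simp; ring`.
-/

set_option autoImplicit false

noncomputable section

namespace Pool.Agent.EAC.Geo

open MeasureTheory Set Filter Topology Metric
open scoped ENNReal ComplexConjugate

theorem qA_mul_qB (z : ℂ) : qA z * qB z = 2 * qq z := by
  unfold qA qB qq
  linear_combination (-(1 - z) ^ 4) * Complex.I_sq

theorem qA_conj (z : ℂ) : qA (conj z) = conj (qB z) := by
  unfold qA qB
  simp only [map_sub, map_mul, map_pow, map_add, map_one, Complex.conj_I]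
  ring

theorem qB_conj (z : ℂ) : qB (conj z) = conj (qA z) := by
  unfold qA qB
  simp only [map_mul, map_pow, map_add, map_sub, map_one, Complex.conj_I]
  ring

theorem qq_conj (z : ℂ) : qq (conj z) = conj (qq z) := by
  unfold qq
  simp only [map_mul, map_pow, map_add, map_one, map_ofNat]

theorem zp_conj (z : ℂ) : zp (conj z) = conj (zp z) := by
  unfold zp
  simp only [map_mul, map_pow, map_add, map_sub, map_one, map_div₀, map_ofNat]

theorem normSq_qA_sub (z : ℂ) : ‖qA z‖ ^ 2 - ‖qB z‖ ^ 2 = 16 * (1 - ‖z‖ ^ 2) * z.im := by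
  rw [Complex.sq_norm, Complex.sq_norm, Complex.sq_norm, Complex.normSq_apply,
    Complex.normSq_apply, Complex.normSq_apply]
  unfold qA qB
  obtain ⟨x, y⟩ := z
  simp only [pow_two, Complex.add_re, Complex.add_im, Complex.mul_re, Complex.mul_im,
    Complex.sub_re, Complex.sub_im, Complex.one_re, Complex.one_im, Complex.I_re, Complex.I_im]
  ring

theorem two_le_norm_add (z : ℂ) : 2 ≤ ‖qA z‖ + ‖qB z‖ := by
  have h1 : 2 * ‖1 + z‖ ^ 2 ≤ ‖qA z‖ + ‖qB z‖ := by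
    have e : qA z + qB z = 2 * (1 + z) ^ 2 := by unfold qA qB; ring
    have := norm_add_le (qA z) (qB z)
    rw [e, norm_mul, norm_pow] at this
    simpa using this
  have h2 : 2 * ‖1 - z‖ ^ 2 ≤ ‖qA z‖ + ‖qB z‖ := by
    have e : qA z - qB z = 2 * Complex.I * (1 - z) ^ 2 := by unfold qA qB; ring
    have := norm_sub_le (qA z) (qB z)
    rw [e, norm_mul, norm_mul, norm_pow] at this
    simpa using this
  have h3 : ‖1 + z‖ ^ 2 + ‖1 - z‖ ^ 2 = 2 + 2 * ‖z‖ ^ 2 := by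
    rw [Complex.sq_norm, Complex.sq_norm, Complex.sq_norm, Complex.normSq_apply,
      Complex.normSq_apply, Complex.normSq_apply]
    simp only [Complex.add_re, Complex.add_im, Complex.sub_re, Complex.sub_im, Complex.one_re,
      Complex.one_im]
    ring
  have h4 : 0 ≤ ‖z‖ ^ 2 := by positivity
  linarith

theorem norm_qB_le_qA {z : ℂ} (h1 : ‖z‖ ≤ 1) (h2 : 0 ≤ z.im) : ‖qB z‖ ≤ ‖qA z‖ := by
  have h := normSq_qA_sub z
  have h3 : 0 ≤ 16 * (1 - ‖z‖ ^ 2) * z.im := by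
    have : ‖z‖ ^ 2 ≤ 1 := by
      have := norm_nonneg z
      nlinarith
    have : 0 ≤ 1 - ‖z‖ ^ 2 := by linarith
    positivity
  exact le_of_sq_le_sq (by linarith) (norm_nonneg _)

theorem norm_qB_lt_qA {z : ℂ} (h1 : ‖z‖ < 1) (h2 : 0 < z.im) : ‖qB z‖ < ‖qA z‖ := by
  have h := normSq_qA_sub z
  have h3 : 0 < 16 * (1 - ‖z‖ ^ 2) * z.im := by
    have : ‖z‖ ^ 2 < 1 := by
      have := norm_nonneg z
      nlinarith
    have : 0 < 1 - ‖z‖ ^ 2 := by linarith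
    positivity
  exact lt_of_pow_lt_pow_left₀ 2 (norm_nonneg _) (by linarith)

theorem norm_qB_eq_qA {z : ℂ} (h : ‖z‖ = 1 ∨ z.im = 0) : ‖qB z‖ = ‖qA z‖ := by
  have h0 := normSq_qA_sub z
  have h1 : ‖qA z‖ ^ 2 = ‖qB z‖ ^ 2 := by
    rcases h with h | h
    · rw [h] at h0; linarith
    · rw [h] at h0; linarith
  exact ((pow_left_inj₀ (norm_nonneg _) (norm_nonneg _) two_ne_zero).1 h1).symm

theorem one_le_norm_qA {z : ℂ} (h1 : ‖z‖ ≤ 1) (h2 : 0 ≤ z.im) : 1 ≤ ‖qA z‖ := by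
  have := two_le_norm_add z
  have := norm_qB_le_qA h1 h2
  linarith

theorem norm_qq_le {z : ℂ} (h1 : ‖z‖ ≤ 1) : ‖qq z‖ ≤ 8 := by
  unfold qq
  have h0 := norm_nonneg z
  have h4 : ‖z ^ 4‖ ≤ 1 := by
    rw [norm_pow]; exact pow_le_one₀ h0 h1
  have h2 : ‖6 * z ^ 2‖ ≤ 6 := by
    rw [norm_mul, norm_pow]
    have : ‖z‖ ^ 2 ≤ 1 := pow_le_one₀ h0 h1
    have h6 : ‖(6 : ℂ)‖ = 6 := by simp
    rw [h6]; linarith
  calc ‖z ^ 4 + 6 * z ^ 2 + 1‖ ≤ ‖z ^ 4 + 6 * z ^ 2‖ + ‖(1 : ℂ)‖ := norm_add_le _ _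
    _ ≤ ‖z ^ 4‖ + ‖6 * z ^ 2‖ + ‖(1 : ℂ)‖ := by gcongr; exact norm_add_le _ _
    _ ≤ 1 + 6 + 1 := by
        have : ‖(1 : ℂ)‖ = 1 := norm_one
        linarith
    _ = 8 := by norm_num

theorem qq_ne_zero {z : ℂ} (hA : qA z ≠ 0) (hB : qB z ≠ 0) : qq z ≠ 0 := by
  intro h
  have := qA_mul_qB z
  rw [h, mul_zero] at this
  exact (mul_ne_zero hA hB) this

theorem hasDerivAt_kap {z : ℂ} (hA : qA z ≠ 0) (hB : qB z ≠ 0) :
    HasDerivAt kap (Complex.I * kap z * zp z) z := by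
  have hq := qq_ne_zero hA hB
  have a : HasDerivAt (fun z : ℂ => (1 + z) ^ 2) (2 * (1 + z)) z := by
    simpa using ((hasDerivAt_id z).const_add 1).fun_pow 2
  have b : HasDerivAt (fun z : ℂ => (1 - z) ^ 2) (-(2 * (1 - z))) z := by
    simpa using ((hasDerivAt_id z).const_sub 1).fun_pow 2
  have h1 : HasDerivAt qB (2 * (1 + z) + 2 * Complex.I * (1 - z)) z :=
    (a.fun_sub (b.const_mul Complex.I)).congr_deriv (by ring)
  have h2 : HasDerivAt qA (2 * (1 + z) - 2 * Complex.I * (1 - z)) z :=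
    (a.fun_add (b.const_mul Complex.I)).congr_deriv (by ring)
  have h3 := h1.fun_div h2 hA
  have e : kap = fun z => qB z / qA z := by
    funext w; exact kap_eq w
  rw [e]
  refine h3.congr_deriv ?_
  rw [zp_eq]
  have hAB := qA_mul_qB z
  have key : Complex.I * (qB z * qA z) * (4 * (1 - z ^ 2)) =
      ((2 * (1 + z) + 2 * Complex.I * (1 - z)) * qA z -
        qB z * (2 * (1 + z) - 2 * Complex.I * (1 - z))) * qq z := by
    have e1 : (2 * (1 + z) + 2 * Complex.I * (1 - z)) * qA z -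
        qB z * (2 * (1 + z) - 2 * Complex.I * (1 - z)) = 8 * Complex.I * (1 - z ^ 2) := by
      unfold qA qB; ring
    rw [e1, mul_comm (qB z) (qA z), hAB]; ring
  field_simp
  linear_combination -key

end Pool.Agent.EAC.Geo
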