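import Pool.Agent.EAC.Geo1a

/-!
# EAC Geo1b: elementary facts about `dom h`

Proof plan.
* `half_le_qA`: `2 ≤ ‖A‖ + ‖B‖ ≤ (1 + e) ‖A‖`, `e < 2.7182818286` (`Real.exp_one_lt_d9`).
* `eighth_le_qq`: `qA_mul_qB`.
* `isCompact_dom`: closed (continuity) and contained in `closedBall 0 1`.
* `mem_interior_dom_of_lt`: `interior_maximal` with the open set of strict inequalities.
-/

set_option autoImplicit false

noncomputable section

namespace Pool.Agent.EAC.Geo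

open MeasureTheory Set Filter Topology Metric
open scoped ENNReal ComplexConjugate

theorem dom_mono {h h' : ℝ} (hh : h ≤ h') : dom h ⊆ dom h' := by
  intro z hz
  rw [mem_dom_iff] at hz ⊢
  obtain ⟨h1, h2, h3⟩ := hz
  refine ⟨h1, le_trans ?_ h2, le_trans h3 ?_⟩
  · exact mul_le_mul_of_nonneg_right (Real.exp_le_exp.2 (by linarith)) (norm_nonneg _)
  · exact mul_le_mul_of_nonneg_right (Real.exp_le_exp.2 hh) (norm_nonneg _)

theorem norm_qA_conj (z : ℂ) : ‖qA (conj z)‖ = ‖qB z‖ := by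
  rw [qA_conj, Complex.norm_conj]

theorem norm_qB_conj (z : ℂ) : ‖qB (conj z)‖ = ‖qA z‖ := by
  rw [qB_conj, Complex.norm_conj]

theorem exp_neg_mul_le_iff {h a b : ℝ} : Real.exp (-h) * a ≤ b ↔ a ≤ Real.exp h * b := by
  have hp := Real.exp_pos h
  have h1 : Real.exp (-h) = (Real.exp h)⁻¹ := Real.exp_neg h
  rw [h1, inv_mul_le_iff₀ hp]

theorem conj_mem_dom {h : ℝ} {z : ℂ} (hz : z ∈ dom h) : conj z ∈ dom h := by
  rw [mem_dom_iff] at hz ⊢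
  obtain ⟨h1, h2, h3⟩ := hz
  rw [norm_qA_conj, norm_qB_conj, Complex.norm_conj]
  refine ⟨h1, exp_neg_mul_le_iff.2 h3, exp_neg_mul_le_iff.1 h2⟩

theorem mem_dom_upper {h : ℝ} (hh : 0 ≤ h) {z : ℂ} (h1 : ‖z‖ ≤ 1) (h2 : 0 ≤ z.im) :
    z ∈ dom h ↔ Real.exp (-h) * ‖qA z‖ ≤ ‖qB z‖ := by
  rw [mem_dom_iff]
  constructor
  · exact fun hz => hz.2.1
  · intro hz
    refine ⟨h1, hz, le_trans (norm_qB_le_qA h1 h2) ?_⟩
    have he : 1 ≤ Real.exp h := Real.one_le_exp hh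
    nlinarith [norm_nonneg (qA z)]

theorem mem_dom_of_circle_or_real {h : ℝ} (hh : 0 ≤ h) {z : ℂ} (h1 : ‖z‖ ≤ 1)
    (h2 : ‖z‖ = 1 ∨ z.im = 0) : z ∈ dom h := by
  rw [mem_dom_iff]
  have h3 := norm_qB_eq_qA h2
  have he : 1 ≤ Real.exp h := Real.one_le_exp hh
  rw [h3, exp_neg_mul_le_iff]
  have h4 : ‖qA z‖ ≤ Real.exp h * ‖qA z‖ := by nlinarith [norm_nonneg (qA z)]
  exact ⟨h1, h4, h4⟩

theorem isCompact_dom (h : ℝ) : IsCompact (dom h) := by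
  refine IsCompact.of_isClosed_subset (isCompact_closedBall (0 : ℂ) 1) ?_ ?_
  · have e : dom h = {z : ℂ | ‖z‖ ≤ 1} ∩ ({z : ℂ | Real.exp (-h) * ‖qA z‖ ≤ ‖qB z‖} ∩
        {z : ℂ | ‖qB z‖ ≤ Real.exp h * ‖qA z‖}) := by
      ext z
      exact mem_dom_iff
    rw [e]
    refine IsClosed.inter (isClosed_le continuous_norm continuous_const) (IsClosed.inter ?_ ?_)
    · exact isClosed_le (continuous_const.mul continuous_qA.norm) continuous_qB.norm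
    · exact isClosed_le continuous_qB.norm (continuous_const.mul continuous_qA.norm)
  · intro z hz
    rw [mem_closedBall_zero_iff]
    exact (mem_dom_iff.1 hz).1

theorem half_le_of {a b h : ℝ} (hh1 : h ≤ 1) (ha : 0 ≤ a) (hb : b ≤ Real.exp h * a)
    (hs : 2 ≤ a + b) : 1 / 2 ≤ a := by
  have h1 : Real.exp h ≤ 3 :=
    le_trans (Real.exp_le_exp.2 hh1) (by have := Real.exp_one_lt_d9; linarith)
  nlinarith

theorem half_le_qA {h : ℝ} (hh1 : h ≤ 1) {z : ℂ} (hz : z ∈ dom h) : 1 / 2 ≤ ‖qA z‖ :=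
  half_le_of hh1 (norm_nonneg _) (mem_dom_iff.1 hz).2.2 (two_le_norm_add z)

theorem half_le_qB {h : ℝ} (hh1 : h ≤ 1) {z : ℂ} (hz : z ∈ dom h) : 1 / 2 ≤ ‖qB z‖ :=
  half_le_of hh1 (norm_nonneg _) (exp_neg_mul_le_iff.1 (mem_dom_iff.1 hz).2.1)
    (by have := two_le_norm_add z; linarith)

theorem eighth_le_qq {h : ℝ} (hh1 : h ≤ 1) {z : ℂ} (hz : z ∈ dom h) : 1 / 8 ≤ ‖qq z‖ := by
  have hA := half_le_qA hh1 hz
  have hB := half_le_qB hh1 hz
  have h1 : ‖qA z‖ * ‖qB z‖ = 2 * ‖qq z‖ := by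
    rw [← norm_mul, qA_mul_qB, norm_mul]
    simp
  nlinarith [mul_le_mul hA hB (by norm_num) (by linarith)]

theorem qA_ne_zero {h : ℝ} (hh1 : h ≤ 1) {z : ℂ} (hz : z ∈ dom h) : qA z ≠ 0 := by
  intro h0
  have := half_le_qA hh1 hz
  rw [h0] at this
  norm_num at this

theorem qB_ne_zero {h : ℝ} (hh1 : h ≤ 1) {z : ℂ} (hz : z ∈ dom h) : qB z ≠ 0 := by
  intro h0
  have := half_le_qB hh1 hz
  rw [h0] at this
  norm_num at this

theorem dom_qq_ne_zero {h : ℝ} (hh1 : h ≤ 1) {z : ℂ} (hz : z ∈ dom h) : qq z ≠ 0 :=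
  qq_ne_zero (qA_ne_zero hh1 hz) (qB_ne_zero hh1 hz)

/-- points with strict inequalities are interior points. -/
theorem mem_interior_dom_of_lt {h : ℝ} {z : ℂ} (h1 : ‖z‖ < 1)
    (h2 : Real.exp (-h) * ‖qA z‖ < ‖qB z‖) (h3 : ‖qB z‖ < Real.exp h * ‖qA z‖) :
    z ∈ interior (dom h) := by
  have hO : IsOpen ({z : ℂ | ‖z‖ < 1} ∩ ({z : ℂ | Real.exp (-h) * ‖qA z‖ < ‖qB z‖} ∩
        {z : ℂ | ‖qB z‖ < Real.exp h * ‖qA z‖})) := by
    refine IsOpen.inter (isOpen_lt continuous_norm continuous_const) (IsOpen.inter ?_ ?_)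
    · exact isOpen_lt (continuous_const.mul continuous_qA.norm) continuous_qB.norm
    · exact isOpen_lt continuous_qB.norm (continuous_const.mul continuous_qA.norm)
  refine interior_maximal ?_ hO ⟨h1, h2, h3⟩
  rintro w ⟨w1, w2, w3⟩
  exact mem_dom_iff.2 ⟨le_of_lt w1, le_of_lt w2, le_of_lt w3⟩

end Pool.Agent.EAC.Geo
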