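import Pool.Agent.EAC.Geo1b

/-!
# EAC Geo2a: the strip coordinate `zet`

Proof plan.
* `exp_zet`: `I * zet z = log (kap z)`, `kap z ≠ 0`, `Complex.exp_log`.
* `zet_im`, `zet_re`: `zet z = -I * log (kap z)`, `Complex.log_re`, `Complex.log_im`.
* `zet_conj`: `kap (conj z) = (conj (kap z))⁻¹` (`qA_conj`, `qB_conj`); compare real parts
  (`arg (conj x)⁻¹ = arg x`: `Complex.arg_inv`, `Complex.arg_conj`) and imaginary parts.  It is true for every `z`
  (also when `qA z = 0` or `qB z = 0`: then `kap z = 0 = kap (conj z)`).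
* `zet_mem_S`, `abs_zet_im_le`: `zet_im`, `e^{-h} ≤ ‖kap z‖ ≤ e^h`, `norm_qB_le_qA`.
* `sin_zet`: `sin ζ = (e^{iζ} - e^{-iζ})/(2i) = (kap^2 - 1)/(2 I kap)`, `kap^2 - 1 = -4 I (1-z^2)^2 / qA^2`,
  `qA * qB = 2 qq`.
* `sin_zet_neg_of_real`: `zet z` is real, so `Real.sin (zet z).re = (Complex.sin (zet z)).re`, and
  `-(1-x^2)^2/(x^4+6x^2+1) < 0`.
* `sin_zet_pos_of_circle`: `z = x + iy`, `x^2+y^2 = 1`: `(1 - z^2)^2/z^2 = (conj z - z)^2 = -4 y^2` and
  `qq z/z^2 = z^2 + 6 + conj z^2 = 4 + 4 x^2` (real, positive), so `sin ζ = y^2/(1+x^2) > 0`.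
-/

set_option autoImplicit false

noncomputable section

namespace Pool.Agent.EAC.Geo

open MeasureTheory Set Filter Topology Metric
open scoped ENNReal ComplexConjugate

theorem exp_zet {z : ℂ} (hA : qA z ≠ 0) (hB : qB z ≠ 0) :
    Complex.exp (Complex.I * zet z) = kap z := by
  have hk : kap z ≠ 0 := by rw [kap_eq]; exact div_ne_zero hB hA
  have e : Complex.I * zet z = Complex.log (kap z) := by
    unfold zet
    rw [← mul_assoc, mul_neg, Complex.I_mul_I, neg_neg, one_mul]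
  rw [e, Complex.exp_log hk]

theorem zet_im (z : ℂ) : (zet z).im = -Real.log ‖kap z‖ := by
  unfold zet
  simp [Complex.log_re]

theorem zet_re (z : ℂ) : (zet z).re = (kap z).arg := by
  unfold zet
  simp [Complex.log_im]

private theorem kap_conj (z : ℂ) : kap (conj z) = (conj (kap z))⁻¹ := by
  rw [kap_eq, kap_eq, qA_conj, qB_conj, map_div₀, inv_div]

theorem zet_conj (z : ℂ) : zet (conj z) = conj (zet z) := by
  apply Complex.ext
  · rw [Complex.conj_re, zet_re, zet_re, kap_conj, Complex.arg_inv, Complex.arg_conj]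
    by_cases h : (kap z).arg = Real.pi
    · simp [h]
    · have h1 := Complex.neg_pi_lt_arg (kap z)
      have h2 : -(kap z).arg ≠ Real.pi := fun e => by linarith
      simp only [h, if_false, h2, neg_neg]
  · rw [Complex.conj_im, zet_im, zet_im, kap_conj, norm_inv, RCLike.norm_conj, Real.log_inv]

private theorem norm_kap (z : ℂ) : ‖kap z‖ = ‖qB z‖ / ‖qA z‖ := by
  rw [kap_eq, norm_div]

theorem abs_zet_im_le {h : ℝ} (hh1 : h ≤ 1) {z : ℂ} (hz : z ∈ dom h) : |(zet z).im| ≤ h := by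
  have hA : 0 < ‖qA z‖ := norm_pos_iff.mpr (qA_ne_zero hh1 hz)
  have hB : 0 < ‖qB z‖ := norm_pos_iff.mpr (qB_ne_zero hh1 hz)
  obtain ⟨-, h1, h2⟩ := mem_dom_iff.mp hz
  rw [zet_im, norm_kap, abs_neg, abs_le]
  constructor
  · rw [Real.le_log_iff_exp_le (by positivity), le_div_iff₀ hA]
    exact h1
  · rw [Real.log_le_iff_le_exp (by positivity), div_le_iff₀ hA]
    exact h2

/-- `z` in `dom h`, upper half: `zet z` in the strip. -/
theorem zet_mem_S {h : ℝ} (hh1 : h ≤ 1) {z : ℂ} (hz : z ∈ dom h) (hi : 0 ≤ z.im) :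
    zet z ∈ S h := by
  have hA : 0 < ‖qA z‖ := norm_pos_iff.mpr (qA_ne_zero hh1 hz)
  have hle := norm_qB_le_qA (mem_dom_iff.mp hz).1 hi
  refine ⟨?_, (abs_le.mp (abs_zet_im_le hh1 hz)).2⟩
  rw [zet_im, norm_kap]
  have : ‖qB z‖ / ‖qA z‖ ≤ 1 := (div_le_one hA).mpr hle
  have := Real.log_nonpos (by positivity) this
  linarith

theorem zet_im_pos {z : ℂ} (h1 : ‖z‖ < 1) (h2 : 0 < z.im) (hB : qB z ≠ 0) : 0 < (zet z).im := by
  have hlt := norm_qB_lt_qA h1 h2
  have hB' : 0 < ‖qB z‖ := norm_pos_iff.mpr hB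
  have hA' : 0 < ‖qA z‖ := hB'.trans hlt
  rw [zet_im, norm_kap]
  have := Real.log_neg (div_pos hB' hA') ((div_lt_one hA').mpr hlt)
  linarith

theorem zet_im_eq_zero {z : ℂ} (h : ‖z‖ = 1 ∨ z.im = 0) : (zet z).im = 0 := by
  rw [zet_im, norm_kap, norm_qB_eq_qA h]
  by_cases h0 : ‖qA z‖ = 0
  · rw [h0]; simp
  · rw [div_self h0]; simp

theorem sin_zet {z : ℂ} (hA : qA z ≠ 0) (hB : qB z ≠ 0) :
    Complex.sin (zet z) = -(1 - z ^ 2) ^ 2 / qq z := by
  have he := exp_zet hA hB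
  have hq : qq z ≠ 0 := qq_ne_zero hA hB
  have e1 : Complex.exp (zet z * Complex.I) = kap z := by rw [mul_comm, he]
  have e2 : Complex.exp (-zet z * Complex.I) = (kap z)⁻¹ := by
    rw [neg_mul, Complex.exp_neg, e1]
  rw [Complex.sin, e1, e2, kap_eq, inv_div]
  have h1 := qA_mul_qB z
  have h2 : qA z ^ 2 - qB z ^ 2 = 4 * Complex.I * (1 - z ^ 2) ^ 2 := by
    unfold qA qB
    ring
  have h3 : (qA z / qB z - qB z / qA z) * Complex.I / 2
      = (qA z ^ 2 - qB z ^ 2) * Complex.I / (2 * (qA z * qB z)) := by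
    field_simp
  rw [h3, h1, h2]
  rw [div_eq_div_iff (by simpa using hq) hq]
  linear_combination (4 * (1 - z ^ 2) ^ 2 * qq z) * Complex.I_sq

theorem zp_sq {z : ℂ} (hA : qA z ≠ 0) (hB : qB z ≠ 0) :
    zp z ^ 2 = -16 * Complex.sin (zet z) / qq z := by
  have hq : qq z ≠ 0 := qq_ne_zero hA hB
  rw [sin_zet hA hB, zp_eq]
  field_simp
  ring

private theorem sin_re {z : ℂ} (h : (zet z).im = 0) :
    Real.sin (zet z).re = (Complex.sin (zet z)).re := by
  have e : zet z = ((zet z).re : ℂ) := by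
    apply Complex.ext
    · simp
    · simp [h]
  conv_rhs => rw [e]
  rw [← Complex.ofReal_sin, Complex.ofReal_re]

/-- points of the slit `J = (-1,1)`. -/
theorem sin_zet_neg_of_real {z : ℂ} (h1 : ‖z‖ < 1) (h2 : z.im = 0) :
    Real.sin (zet z).re < 0 := by
  have hd : z ∈ dom 1 := mem_dom_of_circle_or_real zero_le_one h1.le (Or.inr h2)
  rw [sin_re (zet_im_eq_zero (Or.inr h2)), sin_zet (qA_ne_zero le_rfl hd) (qB_ne_zero le_rfl hd)]
  have e : z = (z.re : ℂ) := by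
    apply Complex.ext
    · simp
    · simp [h2]
  set x := z.re with hx
  have hx1 : x ^ 2 < 1 := by
    have h3 : ‖z‖ ^ 2 = x ^ 2 := by
      rw [e, Complex.norm_real, Real.norm_eq_abs, sq_abs]
    have h4 : ‖z‖ ^ 2 < 1 := by
      have := norm_nonneg z
      nlinarith
    linarith
  have h5 : -(1 - z ^ 2) ^ 2 / qq z = ((-(1 - x ^ 2) ^ 2 / (x ^ 4 + 6 * x ^ 2 + 1) : ℝ) : ℂ) := by
    rw [e]
    unfold qq
    push_cast
    rfl
  rw [h5, Complex.ofReal_re]
  have h6 : 0 < (1 - x ^ 2) ^ 2 := by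
    have : 0 < 1 - x ^ 2 := by linarith
    positivity
  have h7 : 0 < x ^ 4 + 6 * x ^ 2 + 1 := by positivity
  rw [div_neg_iff]
  right
  exact ⟨by linarith, h7⟩

/-- points of the open upper half circle. -/
theorem sin_zet_pos_of_circle {z : ℂ} (h1 : ‖z‖ = 1) (h2 : 0 < z.im) :
    0 < Real.sin (zet z).re := by
  have hd : z ∈ dom 1 := mem_dom_of_circle_or_real zero_le_one h1.le (Or.inl h1)
  rw [sin_re (zet_im_eq_zero (Or.inl h1)), sin_zet (qA_ne_zero le_rfl hd) (qB_ne_zero le_rfl hd)]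
  set w : ℂ := conj z with hw
  set x := z.re with hx
  set y := z.im with hy
  have hz0 : z ≠ 0 := by
    intro h0
    rw [h0] at h1
    simp at h1
  have hzw : z * w = 1 := by
    rw [hw, Complex.mul_conj, Complex.normSq_eq_norm_sq, h1]
    norm_num
  have hx2 : z + w = 2 * (x : ℂ) := by
    rw [hw, Complex.add_conj]
    push_cast
    rfl
  have hy2 : z - w = 2 * (y : ℂ) * Complex.I := by
    rw [hw, Complex.sub_conj]
    push_cast
    rfl
  have e1 : 1 - z ^ 2 = z * (w - z) := by linear_combination (-1 : ℂ) * hzw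
  have e2 : qq z = z ^ 2 * ((z + w) ^ 2 + 4) := by
    unfold qq
    linear_combination (-(2 * z ^ 2 + z * w + 1)) * hzw
  have e3 : w - z = -(2 * (y : ℂ) * Complex.I) := by rw [← hy2]; ring
  have hne : (1 : ℂ) + (x : ℂ) ^ 2 ≠ 0 := by
    have : (1 : ℝ) + x ^ 2 ≠ 0 := by positivity
    exact_mod_cast this
  have h5 : -(1 - z ^ 2) ^ 2 / qq z = ((y ^ 2 / (1 + x ^ 2) : ℝ) : ℂ) := by
    rw [e2, e1, e3, hx2]
    push_cast
    have hne2 : ((2 * (x : ℂ)) ^ 2 + 4) ≠ 0 := by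
      have e4 : ((2 * (x : ℂ)) ^ 2 + 4) = 4 * (1 + (x : ℂ) ^ 2) := by ring
      rw [e4]
      exact mul_ne_zero (by norm_num) hne
    rw [div_eq_div_iff (mul_ne_zero (pow_ne_zero 2 hz0) hne2) hne]
    linear_combination (-(4 : ℂ) * z ^ 2 * (y : ℂ) ^ 2 * (1 + (x : ℂ) ^ 2)) * Complex.I_sq
  rw [h5, Complex.ofReal_re]
  positivity

end Pool.Agent.EAC.Geo
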