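import Pool.Agent.EAC.Geo2a

/-!
# EAC Geo2b: local branches of `zet`, chain rule for periodic functions of `zet z`

Proof plan.
* `zet_branch`: choose the ball inside the open set `{qA ≠ 0, qB ≠ 0}`.  If `kap z₀` is in the slit plane shrink the
  ball so that `kap` stays in the slit plane and take `ℓ = zet` (`Complex.hasDerivAt_log`, `hasDerivAt_kap`:
  derivative `-I * (I kap zp)/kap = zp`), `n = 0`.  Otherwise `kap z₀` is a negative real number,
  `-kap z₀` is in the slit plane and `ℓ z = π - I * log (-kap z)` on a small ball;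
  `ℓ z₀ = zet z₀` because `log (kap z₀) = log (-kap z₀) + π I`; `exp (I ℓ) = -(-kap) = kap = exp (I zet)` gives the
  integer `n` (`Complex.exp_eq_exp_iff_exists_int`).
* `hasFDerivAt_comp_zet`: near `z₀`, `P (zet z) = P (ℓ z + 2πn) = P (ℓ z)` (as `ℓ z → zet z₀`) and `HasFDerivAt.comp`
  (`(hasDerivAt).hasFDerivAt.restrictScalars ℝ`), `HasFDerivAt.congr_of_eventuallyEq`.
* `continuousWithinAt_comp_zet`: the same with `ContinuousWithinAt`: near `z₀` in `D`, `zet z ∈ S'`, choose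
  `ℓ z = zet z - 2πn ∈ S'` because `S'` is invariant.
-/

set_option autoImplicit false

noncomputable section

namespace Pool.Agent.EAC.Geo

open MeasureTheory Set Filter Topology Metric
open scoped ENNReal ComplexConjugate

private theorem isOpen_O : IsOpen {z : ℂ | qA z ≠ 0 ∧ qB z ≠ 0} :=
  (isOpen_ne.preimage continuous_qA).inter (isOpen_ne.preimage continuous_qB)

private theorem kap_ne {z : ℂ} (hA : qA z ≠ 0) (hB : qB z ≠ 0) : kap z ≠ 0 := by
  rw [kap_eq]; exact div_ne_zero hB hA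

/-- a holomorphic branch of `zet` near every point. -/
theorem zet_branch {z₀ : ℂ} (hA : qA z₀ ≠ 0) (hB : qB z₀ ≠ 0) :
    ∃ r > 0, ∃ ℓ : ℂ → ℂ, ℓ z₀ = zet z₀ ∧ ∀ z ∈ ball z₀ r, qA z ≠ 0 ∧ qB z ≠ 0 ∧
      HasDerivAt ℓ (zp z) z ∧ ∃ n : ℤ, zet z = ℓ z + 2 * Real.pi * n := by
  have hk0 := kap_ne hA hB
  have hcont : ContinuousAt kap z₀ := (hasDerivAt_kap hA hB).continuousAt
  have hO : ∀ᶠ z in 𝓝 z₀, qA z ≠ 0 ∧ qB z ≠ 0 := isOpen_O.mem_nhds ⟨hA, hB⟩
  by_cases hs : kap z₀ ∈ Complex.slitPlane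
  · have h1 : ∀ᶠ z in 𝓝 z₀, kap z ∈ Complex.slitPlane :=
      hcont.eventually (Complex.isOpen_slitPlane.mem_nhds hs)
    obtain ⟨r, hr, hball⟩ := Metric.eventually_nhds_iff_ball.1 (hO.and h1)
    refine ⟨r, hr, zet, rfl, fun z hz => ?_⟩
    obtain ⟨⟨hA', hB'⟩, hs'⟩ := hball z hz
    refine ⟨hA', hB', ?_, 0, by simp⟩
    have hk := kap_ne hA' hB'
    have h2 := ((hasDerivAt_kap hA' hB').clog hs').const_mul (-Complex.I)
    have e : -Complex.I * (Complex.I * kap z * zp z / kap z) = zp z := by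
      field_simp
      linear_combination (-zp z) * Complex.I_sq
    rw [e] at h2
    exact h2
  · have hre : (kap z₀).re < 0 ∧ (kap z₀).im = 0 := by
      rw [Complex.mem_slitPlane_iff] at hs
      push Not at hs
      refine ⟨lt_of_le_of_ne hs.1 (fun h => hk0 ?_), hs.2⟩
      exact Complex.ext h hs.2
    have hs2 : -kap z₀ ∈ Complex.slitPlane := by
      rw [Complex.mem_slitPlane_iff]
      left
      rw [Complex.neg_re]; linarith [hre.1]
    have h1 : ∀ᶠ z in 𝓝 z₀, -kap z ∈ Complex.slitPlane :=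
      hcont.neg.eventually (Complex.isOpen_slitPlane.mem_nhds hs2)
    obtain ⟨r, hr, hball⟩ := Metric.eventually_nhds_iff_ball.1 (hO.and h1)
    refine ⟨r, hr, fun z => (Real.pi : ℂ) - Complex.I * Complex.log (-kap z), ?_, fun z hz => ?_⟩
    · have hx : kap z₀ = (((kap z₀).re : ℝ) : ℂ) := Complex.ext (by simp) (by simp [hre.2])
      have ha : (kap z₀).arg = Real.pi := by
        rw [hx]; exact Complex.arg_ofReal_of_neg hre.1
      have hb : (-kap z₀).arg = 0 := by
        rw [hx, ← Complex.ofReal_neg]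
        exact Complex.arg_ofReal_of_nonneg (by linarith [hre.1])
      unfold zet
      dsimp only
      rw [Complex.log, Complex.log, ha, hb, norm_neg]
      push_cast
      linear_combination (Real.pi : ℂ) * Complex.I_sq
    · obtain ⟨⟨hA', hB'⟩, hs'⟩ := hball z hz
      have hk := kap_ne hA' hB'
      refine ⟨hA', hB', ?_, ?_⟩
      · have h2 : HasDerivAt (fun z => (Real.pi : ℂ) - Complex.I * Complex.log (-kap z))
            (-(Complex.I * (-(Complex.I * kap z * zp z) / (-kap z)))) z :=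
          (((hasDerivAt_kap hA' hB').neg.clog hs').const_mul Complex.I).const_sub (Real.pi : ℂ)
        have e : -(Complex.I * (-(Complex.I * kap z * zp z) / (-kap z))) = zp z := by
          rw [neg_div_neg_eq]
          field_simp
          linear_combination (-zp z) * Complex.I_sq
        rw [e] at h2
        exact h2
      · have e1 : Complex.exp (Complex.I * ((Real.pi : ℂ) - Complex.I * Complex.log (-kap z)))
            = kap z := by
          have e2 : Complex.I * ((Real.pi : ℂ) - Complex.I * Complex.log (-kap z))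
              = (Real.pi : ℂ) * Complex.I + Complex.log (-kap z) := by
            linear_combination (-Complex.log (-kap z)) * Complex.I_sq
          rw [e2, Complex.exp_add, Complex.exp_pi_mul_I, Complex.exp_log (neg_ne_zero.2 hk)]
          ring
        have e3 : Complex.exp (Complex.I * zet z) =
            Complex.exp (Complex.I * ((Real.pi : ℂ) - Complex.I * Complex.log (-kap z))) := by
          rw [e1, exp_zet hA' hB']
        obtain ⟨n, hn⟩ := Complex.exp_eq_exp_iff_exists_int.1 e3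
        refine ⟨n, ?_⟩
        have e4 : Complex.I * zet z = Complex.I *
            (((Real.pi : ℂ) - Complex.I * Complex.log (-kap z)) + 2 * Real.pi * n) := by
          rw [hn]; ring
        exact mul_left_cancel₀ Complex.I_ne_zero e4

/-- chain rule for a periodic function of `zet z`. -/
theorem hasFDerivAt_comp_zet {F : Type*} [NormedAddCommGroup F] [NormedSpace ℝ F] {P : ℂ → F}
    {P' : ℂ →L[ℝ] F} {z₀ : ℂ} (hA : qA z₀ ≠ 0) (hB : qB z₀ ≠ 0)
    (hP : HasFDerivAt P P' (zet z₀))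
    (hper : ∀ᶠ ζ in 𝓝 (zet z₀), ∀ n : ℤ, P (ζ + 2 * Real.pi * n) = P ζ) :
    HasFDerivAt (fun z => P (zet z)) (P'.comp (ContinuousLinearMap.mul ℝ ℂ (zp z₀))) z₀ := by
  obtain ⟨r, hr, ℓ, hℓ0, hℓ⟩ := zet_branch hA hB
  have hz : z₀ ∈ ball z₀ r := mem_ball_self hr
  have hd := (hℓ z₀ hz).2.2.1
  have h1 : (fun z => P (zet z)) =ᶠ[𝓝 z₀] fun z => P (ℓ z) := by
    have h2 : ∀ᶠ z in 𝓝 z₀, ∀ n : ℤ, P (ℓ z + 2 * Real.pi * n) = P (ℓ z) := by
      have : Tendsto ℓ (𝓝 z₀) (𝓝 (zet z₀)) := by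
        rw [← hℓ0]; exact hd.continuousAt
      exact this.eventually hper
    filter_upwards [h2, isOpen_ball.mem_nhds hz] with z hz1 hz2
    obtain ⟨-, -, -, n, hn⟩ := hℓ z hz2
    rw [hn]; exact hz1 n
  have hP' : HasFDerivAt P P' (ℓ z₀) := by rw [hℓ0]; exact hP
  have hdR : HasFDerivAt ℓ (ContinuousLinearMap.mul ℝ ℂ (zp z₀)) z₀ := by
    have h4 := hd.hasFDerivAt.restrictScalars ℝ
    have e : (ContinuousLinearMap.mul ℝ ℂ (zp z₀)) =
        (ContinuousLinearMap.toSpanSingleton ℂ (zp z₀)).restrictScalars ℝ := by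
      refine ContinuousLinearMap.ext fun x => ?_
      simp [mul_comm]
    rw [e]; exact h4
  exact HasFDerivAt.congr_of_eventuallyEq (hP'.comp z₀ hdR) h1

/-- continuity of a periodic function of `zet z`. -/
theorem continuousWithinAt_comp_zet {F : Type*} [TopologicalSpace F] {P : ℂ → F} {S' D : Set ℂ}
    {z₀ : ℂ} (hA : qA z₀ ≠ 0) (hB : qB z₀ ≠ 0) (hP : ContinuousWithinAt P S' (zet z₀))
    (hS : ∀ ζ ∈ S', ∀ n : ℤ, ζ + 2 * Real.pi * n ∈ S')
    (hper : ∀ ζ ∈ S', ∀ n : ℤ, P (ζ + 2 * Real.pi * n) = P ζ)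
    (hz₀ : z₀ ∈ D) (hD : ∀ z ∈ D, zet z ∈ S') :
    ContinuousWithinAt (fun z => P (zet z)) D z₀ := by
  obtain ⟨r, hr, ℓ, hℓ0, hℓ⟩ := zet_branch hA hB
  have hz : z₀ ∈ ball z₀ r := mem_ball_self hr
  have hd := (hℓ z₀ hz).2.2.1
  have hmem : ∀ z ∈ D ∩ ball z₀ r, ℓ z ∈ S' ∧ P (zet z) = P (ℓ z) := by
    intro z hz
    obtain ⟨-, -, -, n, hn⟩ := hℓ z hz.2
    have h1 : ℓ z = zet z + 2 * Real.pi * ((-n : ℤ) : ℂ) := by
      rw [hn]; push_cast; ring
    have h2 : ℓ z ∈ S' := by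
      rw [h1]; exact hS _ (hD z hz.1) (-n)
    exact ⟨h2, by rw [hn]; exact hper _ h2 n⟩
  rw [← continuousWithinAt_inter (isOpen_ball.mem_nhds hz)]
  have hP' : ContinuousWithinAt P S' (ℓ z₀) := by rw [hℓ0]; exact hP
  have h3 : ContinuousWithinAt (fun z => P (ℓ z)) (D ∩ ball z₀ r) z₀ :=
    ContinuousWithinAt.comp (t := S') hP' hd.continuousAt.continuousWithinAt
      (fun z hz => (hmem z hz).1)
  exact h3.congr (fun z hz => (hmem z hz).2) (hmem z₀ ⟨hz₀, hz⟩).2

end Pool.Agent.EAC.Geo
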