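import Pool.Agent.EAC.Geo2a

/-!
# EAC Geo3a: the inverse map `Zi`

Notation: `E = exp (I ζ)`, `P = (1 + E)/(1 - E)`, `p = e^{iπ/4} P^{1/2}`, `Zi ζ = (p-1)/(p+1)` if `E ≠ 1`.

Proof plan.
* `kap_Zi` etc. (all `ζ`): `E = 1`: `Zi = 1`, `kap 1 = 1`, `qA 1 = qB 1 = 4`.  Otherwise `p ^ 2 = I * P`
  (`(P^{1/2})^2 = P`: `Complex.cpow_nat_inv_pow`; `e^{iπ/2} = I`; note `P = 0` is allowed, then `p = 0`), `p ≠ -1`
  (`0 ≤ (P^{1/2}).re` because `arg (P^{1/2}) ∈ (-π/2, π/2]`, while `-e^{-iπ/4}` has negative real part).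
  With `z = (p-1)/(p+1)`: `1 + z = 2p/(p+1)`, `1 - z = 2/(p+1)`,
  `qA z = 4 (p^2 + I)/(p+1)^2`, `qB z = 4 (p^2 - I)/(p+1)^2`, `p^2 + I = 2 I/(1-E)`, `p^2 - I = 2 I E/(1-E)`.
* `0 ≤ Im ζ`: `‖E‖ ≤ 1`, so `0 ≤ Re P` (`Re((1+E) conj(1-E)) = 1 - |E|^2`); with `r = P^{1/2}`, `0 ≤ Re r` and
  `0 ≤ Re (r^2) = (Re r)^2 - (Im r)^2`, so `|Im r| ≤ Re r`, so `0 ≤ Re p` and `0 ≤ Im p` (`p = (1+i) r/√2`);
  `|p-1| ≤ |p+1|`, `Im((p-1)/(p+1)) = 2 Im p/|p+1|^2`.
* `Zi_mem_dom`: `mem_dom_upper`, `‖kap (Zi ζ)‖ = e^{-Im ζ}`.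
* `sin_eq_Zi`: as in `sin_zet`, from `kap_Zi`.
-/

set_option autoImplicit false

noncomputable section

namespace Pool.Agent.EAC.Geo

open MeasureTheory Set Filter Topology Metric
open scoped ENNReal ComplexConjugate

/-- the number `p = e^{iπ/4} P^{1/2}` -/
def pc (ζ : ℂ) : ℂ :=
  Complex.exp (Complex.I * (Real.pi / 4)) *
    ((1 + Complex.exp (Complex.I * ζ)) / (1 - Complex.exp (Complex.I * ζ))) ^ (1 / 2 : ℂ)

theorem Zi_of_ne {ζ : ℂ} (h : Complex.exp (Complex.I * ζ) ≠ 1) :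
    Zi ζ = (pc ζ - 1) / (pc ζ + 1) := by
  unfold Zi pc
  rw [if_neg h]

theorem Zi_of_eq {ζ : ℂ} (h : Complex.exp (Complex.I * ζ) = 1) : Zi ζ = 1 := by
  unfold Zi
  rw [if_pos h]

theorem half_sq (P : ℂ) : (P ^ (1 / 2 : ℂ)) ^ 2 = P := by
  have h := Complex.cpow_nat_inv_pow P (n := 2) (by norm_num)
  have e : ((2 : ℕ) : ℂ)⁻¹ = 1 / 2 := by norm_num
  rwa [e] at h

theorem half_re (P : ℂ) : 0 ≤ (P ^ (1 / 2 : ℂ)).re := by
  by_cases hP : P = 0
  · rw [hP, Complex.zero_cpow (by norm_num)]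
    simp
  · rw [Complex.cpow_def_of_ne_zero hP, Complex.exp_re]
    apply mul_nonneg (Real.exp_pos _).le
    have e : (Complex.log P * (1 / 2)).im = P.arg / 2 := by
      rw [Complex.mul_im, Complex.log_im]
      norm_num
      ring
    rw [e]
    apply Real.cos_nonneg_of_mem_Icc
    constructor
    · have := Complex.neg_pi_lt_arg P
      linarith
    · have := Complex.arg_le_pi P
      linarith

theorem e8 : Complex.exp (Complex.I * (Real.pi / 4)) =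
    ((Real.sqrt 2 / 2 : ℝ) : ℂ) * (1 + Complex.I) := by
  have e : Complex.I * (Real.pi / 4) = ((Real.pi / 4 : ℝ) : ℂ) * Complex.I := by
    push_cast
    ring
  rw [e, Complex.exp_mul_I, ← Complex.ofReal_cos, ← Complex.ofReal_sin, Real.cos_pi_div_four,
    Real.sin_pi_div_four]
  ring

theorem sqrt_sq' : ((Real.sqrt 2 / 2 : ℝ) : ℂ) ^ 2 = 1 / 2 := by
  rw [← Complex.ofReal_pow, div_pow, Real.sq_sqrt (by norm_num)]
  norm_num

theorem pc_sq (ζ : ℂ) : pc ζ ^ 2 = Complex.I *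
    ((1 + Complex.exp (Complex.I * ζ)) / (1 - Complex.exp (Complex.I * ζ))) := by
  unfold pc
  rw [mul_pow, half_sq, e8, mul_pow, sqrt_sq']
  have : (1 + Complex.I) ^ 2 = 2 * Complex.I := by
    rw [add_sq, Complex.I_sq]
    ring
  rw [this]
  ring

theorem pc_re (ζ : ℂ) : (pc ζ).re = Real.sqrt 2 / 2 *
    ((((1 + Complex.exp (Complex.I * ζ)) / (1 - Complex.exp (Complex.I * ζ))) ^ (1 / 2 : ℂ)).re -
      (((1 + Complex.exp (Complex.I * ζ)) / (1 - Complex.exp (Complex.I * ζ))) ^ (1 / 2 : ℂ)).im)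
    := by
  unfold pc
  rw [e8, mul_assoc, Complex.re_ofReal_mul]
  simp only [Complex.mul_re, Complex.add_re, Complex.one_re, Complex.I_re, Complex.add_im,
    Complex.one_im, Complex.I_im]
  ring

theorem pc_im (ζ : ℂ) : (pc ζ).im = Real.sqrt 2 / 2 *
    ((((1 + Complex.exp (Complex.I * ζ)) / (1 - Complex.exp (Complex.I * ζ))) ^ (1 / 2 : ℂ)).re +
      (((1 + Complex.exp (Complex.I * ζ)) / (1 - Complex.exp (Complex.I * ζ))) ^ (1 / 2 : ℂ)).im)
    := by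
  unfold pc
  rw [e8, mul_assoc, Complex.im_ofReal_mul]
  simp only [Complex.mul_im, Complex.add_re, Complex.one_re, Complex.I_re, Complex.add_im,
    Complex.one_im, Complex.I_im]
  ring

theorem pc_add_one_ne (ζ : ℂ) : pc ζ + 1 ≠ 0 := by
  intro h
  have h1 : (pc ζ).re = -1 := by
    have := congrArg Complex.re h
    simp only [Complex.add_re, Complex.one_re, Complex.zero_re] at this
    linarith
  have h2 : (pc ζ).im = 0 := by
    have := congrArg Complex.im h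
    simp only [Complex.add_im, Complex.one_im, Complex.zero_im] at this
    linarith
  rw [pc_re] at h1
  rw [pc_im] at h2
  have h3 := half_re ((1 + Complex.exp (Complex.I * ζ)) / (1 - Complex.exp (Complex.I * ζ)))
  set r := ((1 + Complex.exp (Complex.I * ζ)) / (1 - Complex.exp (Complex.I * ζ))) ^ (1 / 2 : ℂ)
  have hs : 0 < Real.sqrt 2 / 2 := by positivity
  nlinarith [mul_nonneg hs.le h3]

theorem one_sub_ne {ζ : ℂ} (h : Complex.exp (Complex.I * ζ) ≠ 1) :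
    1 - Complex.exp (Complex.I * ζ) ≠ 0 := sub_ne_zero.2 (Ne.symm h)

theorem qA_Zi {ζ : ℂ} (h : Complex.exp (Complex.I * ζ) ≠ 1) :
    qA (Zi ζ) = 8 * Complex.I / ((1 - Complex.exp (Complex.I * ζ)) * (pc ζ + 1) ^ 2) := by
  have h1 := one_sub_ne h
  have h2 := pc_add_one_ne ζ
  have h3 := pc_sq ζ
  rw [Zi_of_ne h]
  unfold qA
  have e1 : 1 + (pc ζ - 1) / (pc ζ + 1) = 2 * pc ζ / (pc ζ + 1) := by
    field_simp
    ring
  have e2 : 1 - (pc ζ - 1) / (pc ζ + 1) = 2 / (pc ζ + 1) := by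
    field_simp
    ring
  rw [e1, e2, div_pow, div_pow, mul_pow, h3]
  field_simp
  ring

theorem qB_Zi {ζ : ℂ} (h : Complex.exp (Complex.I * ζ) ≠ 1) :
    qB (Zi ζ) = 8 * Complex.I * Complex.exp (Complex.I * ζ) /
      ((1 - Complex.exp (Complex.I * ζ)) * (pc ζ + 1) ^ 2) := by
  have h1 := one_sub_ne h
  have h2 := pc_add_one_ne ζ
  have h3 := pc_sq ζ
  rw [Zi_of_ne h]
  unfold qB
  have e1 : 1 + (pc ζ - 1) / (pc ζ + 1) = 2 * pc ζ / (pc ζ + 1) := by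
    field_simp
    ring
  have e2 : 1 - (pc ζ - 1) / (pc ζ + 1) = 2 / (pc ζ + 1) := by
    field_simp
    ring
  rw [e1, e2, div_pow, div_pow, mul_pow, h3]
  field_simp
  ring

theorem exp_add_int (ζ : ℂ) (n : ℤ) : Complex.exp (Complex.I * (ζ + 2 * Real.pi * n)) =
    Complex.exp (Complex.I * ζ) := by
  have e : Complex.I * (ζ + 2 * Real.pi * n) = Complex.I * ζ + n * (2 * Real.pi * Complex.I) := by
    ring
  rw [e, Complex.exp_add, Complex.exp_int_mul_two_pi_mul_I, mul_one]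

theorem Zi_add_int (ζ : ℂ) (n : ℤ) : Zi (ζ + 2 * Real.pi * n) = Zi ζ := by
  unfold Zi
  rw [exp_add_int]

theorem Zi_add_two_pi (ζ : ℂ) : Zi (ζ + 2 * Real.pi) = Zi ζ := by
  have h := Zi_add_int ζ 1
  simpa using h

theorem qA_Zi_ne_zero (ζ : ℂ) : qA (Zi ζ) ≠ 0 := by
  by_cases h : Complex.exp (Complex.I * ζ) = 1
  · rw [Zi_of_eq h]
    unfold qA
    norm_num
  · rw [qA_Zi h]
    have h1 := one_sub_ne h
    have h2 := pc_add_one_ne ζ
    exact div_ne_zero (mul_ne_zero (by norm_num) Complex.I_ne_zero)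
      (mul_ne_zero h1 (pow_ne_zero _ h2))

theorem qB_Zi_ne_zero (ζ : ℂ) : qB (Zi ζ) ≠ 0 := by
  by_cases h : Complex.exp (Complex.I * ζ) = 1
  · rw [Zi_of_eq h]
    unfold qB
    norm_num
  · rw [qB_Zi h]
    have h1 := one_sub_ne h
    have h2 := pc_add_one_ne ζ
    exact div_ne_zero (mul_ne_zero (mul_ne_zero (by norm_num) Complex.I_ne_zero)
      (Complex.exp_ne_zero _)) (mul_ne_zero h1 (pow_ne_zero _ h2))

theorem kap_Zi (ζ : ℂ) : kap (Zi ζ) = Complex.exp (Complex.I * ζ) := by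
  rw [kap_eq]
  by_cases h : Complex.exp (Complex.I * ζ) = 1
  · rw [Zi_of_eq h, h]
    unfold qA qB
    norm_num
  · rw [div_eq_iff (qA_Zi_ne_zero ζ), qA_Zi h, qB_Zi h]
    ring

theorem half_im_le {ζ : ℂ} (h : 0 ≤ ζ.im) :
    |(((1 + Complex.exp (Complex.I * ζ)) / (1 - Complex.exp (Complex.I * ζ))) ^ (1 / 2 : ℂ)).im| ≤
      (((1 + Complex.exp (Complex.I * ζ)) / (1 - Complex.exp (Complex.I * ζ))) ^ (1 / 2 : ℂ)).re := by
  have h3 := half_re ((1 + Complex.exp (Complex.I * ζ)) / (1 - Complex.exp (Complex.I * ζ)))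
  have h4 := half_sq ((1 + Complex.exp (Complex.I * ζ)) / (1 - Complex.exp (Complex.I * ζ)))
  have h5 : 0 ≤ ((1 + Complex.exp (Complex.I * ζ)) / (1 - Complex.exp (Complex.I * ζ))).re := by
    have hE : ‖Complex.exp (Complex.I * ζ)‖ ≤ 1 := by
      rw [Complex.norm_exp]
      apply Real.exp_le_one_iff.2
      simp only [Complex.mul_re, Complex.I_re, Complex.I_im]
      linarith
    set E := Complex.exp (Complex.I * ζ)
    have hE2 : E.re ^ 2 + E.im ^ 2 ≤ 1 := by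
      have e : E.re ^ 2 + E.im ^ 2 = ‖E‖ ^ 2 := by
        rw [Complex.sq_norm, Complex.normSq_apply]
        ring
      rw [e]
      nlinarith [norm_nonneg E]
    rw [Complex.div_re]
    have e : (1 + E).re * (1 - E).re / Complex.normSq (1 - E) +
        (1 + E).im * (1 - E).im / Complex.normSq (1 - E) =
        (1 - (E.re ^ 2 + E.im ^ 2)) / Complex.normSq (1 - E) := by
      rw [← add_div]
      congr 1
      simp only [Complex.add_re, Complex.one_re, Complex.sub_re, Complex.add_im, Complex.one_im,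
        Complex.sub_im]
      ring
    rw [e]
    exact div_nonneg (by linarith) (Complex.normSq_nonneg _)
  set r := ((1 + Complex.exp (Complex.I * ζ)) / (1 - Complex.exp (Complex.I * ζ))) ^ (1 / 2 : ℂ)
  rw [← h4] at h5
  have h6 : (r ^ 2).re = r.re ^ 2 - r.im ^ 2 := by
    rw [sq, Complex.mul_re]
    ring
  rw [h6] at h5
  apply abs_le_of_sq_le_sq _ h3
  linarith

theorem pc_re_nonneg {ζ : ℂ} (h : 0 ≤ ζ.im) : 0 ≤ (pc ζ).re := by
  rw [pc_re]
  have h1 := (abs_le.1 (half_im_le h)).2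
  apply mul_nonneg (by positivity)
  linarith

theorem pc_im_nonneg {ζ : ℂ} (h : 0 ≤ ζ.im) : 0 ≤ (pc ζ).im := by
  rw [pc_im]
  have h1 := (abs_le.1 (half_im_le h)).1
  apply mul_nonneg (by positivity)
  linarith

theorem norm_Zi_le {ζ : ℂ} (h : 0 ≤ ζ.im) : ‖Zi ζ‖ ≤ 1 := by
  by_cases hE : Complex.exp (Complex.I * ζ) = 1
  · rw [Zi_of_eq hE]
    simp
  · rw [Zi_of_ne hE, norm_div]
    have h1 := pc_add_one_ne ζ
    have h2 : 0 < ‖pc ζ + 1‖ := norm_pos_iff.2 h1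
    rw [div_le_one h2]
    have h3 := pc_re_nonneg h
    apply le_of_sq_le_sq _ h2.le
    rw [Complex.sq_norm, Complex.sq_norm, Complex.normSq_apply, Complex.normSq_apply]
    simp only [Complex.add_re, Complex.one_re, Complex.sub_re, Complex.add_im, Complex.one_im,
        Complex.sub_im]
    nlinarith

theorem Zi_im_nonneg {ζ : ℂ} (h : 0 ≤ ζ.im) : 0 ≤ (Zi ζ).im := by
  by_cases hE : Complex.exp (Complex.I * ζ) = 1
  · rw [Zi_of_eq hE]
    simp
  · rw [Zi_of_ne hE, Complex.div_im]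
    have h3 := pc_im_nonneg h
    have e : (pc ζ - 1).im * (pc ζ + 1).re / Complex.normSq (pc ζ + 1) -
        (pc ζ - 1).re * (pc ζ + 1).im / Complex.normSq (pc ζ + 1) =
        2 * (pc ζ).im / Complex.normSq (pc ζ + 1) := by
      rw [← sub_div]
      congr 1
      simp only [Complex.add_re, Complex.one_re, Complex.sub_re, Complex.add_im, Complex.one_im,
        Complex.sub_im]
      ring
    rw [e]
    exact div_nonneg (by linarith) (Complex.normSq_nonneg _)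

theorem Zi_mem_dom {h : ℝ} {ζ : ℂ} (hζ : ζ ∈ S h) : Zi ζ ∈ dom h := by
  have h0 : 0 ≤ ζ.im := hζ.1
  have h1 : ζ.im ≤ h := hζ.2
  rw [mem_dom_upper (h0.trans h1) (norm_Zi_le h0) (Zi_im_nonneg h0)]
  have h2 : ‖qB (Zi ζ)‖ = Real.exp (-ζ.im) * ‖qA (Zi ζ)‖ := by
    have h3 := kap_Zi ζ
    rw [kap_eq, div_eq_iff (qA_Zi_ne_zero ζ)] at h3
    rw [h3, norm_mul, Complex.norm_exp]
    simp [Complex.mul_re]
  rw [h2]
  apply mul_le_mul_of_nonneg_right _ (norm_nonneg _)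
  exact Real.exp_le_exp.2 (by linarith)

theorem sin_eq_Zi (ζ : ℂ) : Complex.sin ζ = -(1 - Zi ζ ^ 2) ^ 2 / qq (Zi ζ) := by
  have hA := qA_Zi_ne_zero ζ
  have hB := qB_Zi_ne_zero ζ
  have hq := qq_ne_zero hA hB
  have h1 := kap_Zi ζ
  rw [kap_eq] at h1
  have e1 : Complex.exp (ζ * Complex.I) = qB (Zi ζ) / qA (Zi ζ) := by
    rw [h1, mul_comm]
  have e2 : Complex.exp (-ζ * Complex.I) = qA (Zi ζ) / qB (Zi ζ) := by
    rw [neg_mul, Complex.exp_neg, e1, inv_div]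
  have e3 := qA_mul_qB (Zi ζ)
  unfold Complex.sin
  rw [e1, e2, div_sub_div _ _ hB hA, mul_comm (qB (Zi ζ)) (qA (Zi ζ)), e3]
  have e4 : qA (Zi ζ) * qA (Zi ζ) - qB (Zi ζ) * qB (Zi ζ) =
      4 * Complex.I * (1 - Zi ζ ^ 2) ^ 2 := by
    unfold qA qB
    ring
  rw [e4]
  field_simp
  rw [Complex.I_sq]
  ring

theorem zp_Zi_sq (ζ : ℂ) : zp (Zi ζ) ^ 2 = -16 * Complex.sin ζ / qq (Zi ζ) := by
  have hq := qq_ne_zero (qA_Zi_ne_zero ζ) (qB_Zi_ne_zero ζ)
  rw [sin_eq_Zi, zp_eq]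
  field_simp
  ring

end Pool.Agent.EAC.Geo
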