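import Pool.Agent.EAC.Geo3a

/-!
# EAC Geo3b: `Zi` and `zet` are inverse to each other modulo `2π`

Proof plan.
* `kap_inj_upper`: `kap z = kap z'` cross-multiplied (`qA ≠ 0` by `one_le_norm_qA`):
  `(1+z)^2 (1-z')^2 = (1+z')^2 (1-z)^2`, so `z = z'` or `z z' = 1`; in the second case `‖z‖ = ‖z'‖ = 1`, `z' = conj z`,
  so `Im z = Im z' = 0` and `z = z'`.
* `Zi_zet`: `z` and `Zi (zet z)` are points of the closed upper half disc (`zet_im`, `norm_qB_le_qA`) with the same `kap`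
  (`exp_zet`, `kap_Zi`).
* `zet_Zi`, `Zi_inj`: `Complex.exp_eq_exp_iff_exists_int`.
* `Zi_im_eq_zero_iff`, `norm_Zi_eq_one_iff`: `‖kap (Zi ζ)‖ = e^{-Im ζ}` is `1` iff `Im ζ = 0`; by `normSq_qA_sub`
  this is `‖Zi ζ‖ = 1 ∨ Im (Zi ζ) = 0`; decide with `sin_eq_Zi` as in `sin_zet_neg_of_real`,
  `sin_zet_pos_of_circle` (`sin ζ = -(1-x^2)^2/(x^4+6x^2+1) ≤ 0` if `Zi ζ = x` is real, `sin ζ = y^2/(1+x^2) ≥ 0` if
  `Zi ζ = x + iy` is on the circle; both are `0` only at `x = ±1`).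
* `mem_dom_iff_Zi`: `→` with `ζ = zet z` or `zet (conj z)`.
-/

set_option autoImplicit false

noncomputable section

namespace Pool.Agent.EAC.Geo

open MeasureTheory Set Filter Topology Metric
open scoped ENNReal ComplexConjugate

theorem kap_inj_upper {z z' : ℂ} (h1 : ‖z‖ ≤ 1) (h2 : 0 ≤ z.im) (h1' : ‖z'‖ ≤ 1)
    (h2' : 0 ≤ z'.im) (h : kap z = kap z') : z = z' := by
  have hA : qA z ≠ 0 := by
    intro h0
    have := one_le_norm_qA h1 h2
    rw [h0, norm_zero] at this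
    norm_num at this
  have hA' : qA z' ≠ 0 := by
    intro h0
    have := one_le_norm_qA h1' h2'
    rw [h0, norm_zero] at this
    norm_num at this
  rw [kap_eq, kap_eq, div_eq_div_iff hA hA'] at h
  have hfac : (z - z') * (1 - z * z') = 0 := by
    have h3 : qB z * qA z' - qB z' * qA z = 8 * Complex.I * ((z - z') * (1 - z * z')) := by
      unfold qA qB
      ring
    rw [h, sub_self] at h3
    have h4 : (8 * Complex.I : ℂ) ≠ 0 := mul_ne_zero (by norm_num) Complex.I_ne_zero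
    exact (mul_eq_zero.1 h3.symm).resolve_left h4
  rcases mul_eq_zero.1 hfac with h3 | h3
  · exact sub_eq_zero.1 h3
  · have h4 : z * z' = 1 := (sub_eq_zero.1 h3).symm
    have hre : z.re * z'.re - z.im * z'.im = 1 := by
      have := congrArg Complex.re h4
      simpa using this
    have hn : z.re ^ 2 + z.im ^ 2 ≤ 1 := by
      have := Complex.sq_norm z
      rw [Complex.normSq_apply] at this
      nlinarith [norm_nonneg z]
    have hn' : z'.re ^ 2 + z'.im ^ 2 ≤ 1 := by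
      have := Complex.sq_norm z'
      rw [Complex.normSq_apply] at this
      nlinarith [norm_nonneg z']
    have h5 : (z.re - z'.re) ^ 2 + (z.im + z'.im) ^ 2 ≤ 0 := by nlinarith
    have h6 : (z.re - z'.re) ^ 2 = 0 := by nlinarith [sq_nonneg (z.re - z'.re), sq_nonneg (z.im + z'.im)]
    have h7 : (z.im + z'.im) ^ 2 = 0 := by nlinarith [sq_nonneg (z.re - z'.re), sq_nonneg (z.im + z'.im)]
    have h8 : z.re = z'.re := sub_eq_zero.1 (pow_eq_zero_iff (two_ne_zero)|>.1 h6)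
    have h9 : z.im + z'.im = 0 := pow_eq_zero_iff (two_ne_zero)|>.1 h7
    exact Complex.ext h8 (by linarith)

theorem zet_im_nonneg {z : ℂ} (h1 : ‖z‖ ≤ 1) (h2 : 0 ≤ z.im) : 0 ≤ (zet z).im := by
  rw [zet_im]
  have h3 : ‖kap z‖ ≤ 1 := by
    rw [kap_eq, norm_div]
    exact div_le_one_of_le₀ (norm_qB_le_qA h1 h2) (norm_nonneg _)
  have := Real.log_nonpos (norm_nonneg _) h3
  linarith

theorem Zi_zet {z : ℂ} (h1 : ‖z‖ ≤ 1) (h2 : 0 ≤ z.im) (hB : qB z ≠ 0) : Zi (zet z) = z := by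
  have hA : qA z ≠ 0 := by
    intro h0
    have := one_le_norm_qA h1 h2
    rw [h0, norm_zero] at this
    norm_num at this
  have h3 := zet_im_nonneg h1 h2
  exact kap_inj_upper (norm_Zi_le h3) (Zi_im_nonneg h3) h1 h2 (by rw [kap_Zi, exp_zet hA hB])

theorem exp_I_eq {ζ ζ' : ℂ} (h : Complex.exp (Complex.I * ζ') = Complex.exp (Complex.I * ζ)) :
    ∃ n : ℤ, ζ' = ζ + 2 * Real.pi * n := by
  obtain ⟨n, hn⟩ := Complex.exp_eq_exp_iff_exists_int.1 h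
  refine ⟨n, ?_⟩
  apply mul_left_cancel₀ Complex.I_ne_zero
  rw [hn]
  ring

theorem zet_Zi (ζ : ℂ) : ∃ n : ℤ, zet (Zi ζ) = ζ + 2 * Real.pi * n := by
  apply exp_I_eq
  rw [exp_zet (qA_Zi_ne_zero ζ) (qB_Zi_ne_zero ζ), kap_Zi]

theorem Zi_inj {ζ ζ' : ℂ} (h : Zi ζ = Zi ζ') : ∃ n : ℤ, ζ' = ζ + 2 * Real.pi * n := by
  apply exp_I_eq
  rw [← kap_Zi, ← kap_Zi, h]

theorem Zi_eq_one_iff {ζ : ℂ} : Zi ζ = 1 ↔ Complex.exp (Complex.I * ζ) = 1 := by
  constructor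
  · intro h
    rw [← kap_Zi, h]
    unfold kap
    norm_num
  · intro h
    unfold Zi
    rw [if_pos h]

theorem Zi_eq_neg_one_iff {ζ : ℂ} : Zi ζ = -1 ↔ Complex.exp (Complex.I * ζ) = -1 := by
  constructor
  · intro h
    rw [← kap_Zi, h]
    unfold kap
    have : (Complex.I * (1 - -1) ^ 2 : ℂ) ≠ 0 := mul_ne_zero Complex.I_ne_zero (by norm_num)
    rw [show ((1 : ℂ) + -1) ^ 2 = 0 by norm_num, zero_sub, zero_add, neg_div, div_self this]
  · intro h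
    unfold Zi
    rw [h, if_neg (by norm_num)]
    simp

theorem norm_exp_I (ζ : ℂ) : ‖Complex.exp (Complex.I * ζ)‖ = Real.exp (-ζ.im) := by
  rw [Complex.norm_exp]
  simp

theorem norm_qA_pos_Zi (ζ : ℂ) : 0 < ‖qA (Zi ζ)‖ := norm_pos_iff.2 (qA_Zi_ne_zero ζ)

theorem norm_eq_iff_im (ζ : ℂ) : ‖qB (Zi ζ)‖ = ‖qA (Zi ζ)‖ ↔ ζ.im = 0 := by
  have h1 : ‖qB (Zi ζ)‖ / ‖qA (Zi ζ)‖ = Real.exp (-ζ.im) := by
    rw [← norm_div, ← kap_eq, kap_Zi, norm_exp_I]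
  constructor
  · intro h
    rw [h, div_self (norm_qA_pos_Zi ζ).ne'] at h1
    have := (Real.exp_eq_one_iff _).1 h1.symm
    linarith
  · intro h
    rw [h, neg_zero, Real.exp_zero] at h1
    exact (div_eq_one_iff_eq (norm_qA_pos_Zi ζ).ne').1 h1

theorem im_eq_zero_of_bdry {ζ : ℂ} (h : ‖Zi ζ‖ = 1 ∨ (Zi ζ).im = 0) : ζ.im = 0 :=
  (norm_eq_iff_im ζ).1 (norm_qB_eq_qA h)

theorem bdry_of_im_eq_zero {ζ : ℂ} (h : ζ.im = 0) : ‖Zi ζ‖ = 1 ∨ (Zi ζ).im = 0 := by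
  have h1 := (norm_eq_iff_im ζ).2 h
  have h2 := normSq_qA_sub (Zi ζ)
  rw [h1, sub_self] at h2
  have h3 : (1 - ‖Zi ζ‖ ^ 2) * (Zi ζ).im = 0 := by linarith
  rcases mul_eq_zero.1 h3 with h4 | h4
  · left
    have h5 : (‖Zi ζ‖ - 1) * (‖Zi ζ‖ + 1) = 0 := by linarith
    rcases mul_eq_zero.1 h5 with h6 | h6
    · linarith
    · linarith [norm_nonneg (Zi ζ)]
  · exact Or.inr h4

theorem ofReal_sin_re {ζ : ℂ} (h : ζ.im = 0) : ((Real.sin ζ.re : ℝ) : ℂ) = Complex.sin ζ := by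
  rw [Complex.ofReal_sin]
  congr 1
  exact Complex.ext (by simp) (by simp [h])

theorem sin_of_real_Zi {ζ : ℂ} (h : (Zi ζ).im = 0) :
    Real.sin ζ.re = -(1 - (Zi ζ).re ^ 2) ^ 2 / ((Zi ζ).re ^ 4 + 6 * (Zi ζ).re ^ 2 + 1) := by
  have h0 := im_eq_zero_of_bdry (Or.inr h)
  have h1 : Zi ζ = ((Zi ζ).re : ℂ) := Complex.ext (by simp) (by simp [h])
  have h2 := ofReal_sin_re h0
  rw [sin_eq_Zi, h1] at h2
  unfold qq at h2
  have h3 : ((Real.sin ζ.re : ℝ) : ℂ) =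
      ((-(1 - (Zi ζ).re ^ 2) ^ 2 / ((Zi ζ).re ^ 4 + 6 * (Zi ζ).re ^ 2 + 1) : ℝ) : ℂ) := by
    rw [h2]
    push_cast
    simp
  exact_mod_cast h3

theorem sin_of_circle_Zi {ζ : ℂ} (h : ‖Zi ζ‖ = 1) :
    Real.sin ζ.re = (Zi ζ).im ^ 2 / (1 + (Zi ζ).re ^ 2) := by
  have h0 := im_eq_zero_of_bdry (Or.inl h)
  have h2 := ofReal_sin_re h0
  have hqq : qq (Zi ζ) ≠ 0 := qq_ne_zero (qA_Zi_ne_zero ζ) (qB_Zi_ne_zero ζ)
  rw [sin_eq_Zi, eq_div_iff hqq] at h2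
  have hn : (Zi ζ).re ^ 2 + (Zi ζ).im ^ 2 = 1 := by
    have := Complex.sq_norm (Zi ζ)
    rw [Complex.normSq_apply, h] at this
    nlinarith
  set z := Zi ζ with hz
  have hc : z * conj z = 1 := by
    rw [Complex.mul_conj, Complex.normSq_apply]
    have : z.re * z.re + z.im * z.im = 1 := by nlinarith
    rw [this]
    simp
  have hz0 : z ≠ 0 := by
    intro h0
    rw [h0, norm_zero] at h
    norm_num at h
  have e1 : -(1 - z ^ 2) ^ 2 = z ^ 2 * ((4 * z.im ^ 2 : ℝ) : ℂ) := by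
    have h3 : (1 - z ^ 2) = z * (conj z - z) := by rw [mul_sub, hc]; ring
    have h4 : conj z - z = -(2 * z.im * Complex.I) := by
      apply Complex.ext
      · simp
      · simp
        ring
    rw [h3, h4]
    push_cast
    have := Complex.I_sq
    linear_combination (-z ^ 2 * 4 * (z.im : ℂ) ^ 2) * this
  have e2 : qq z = z ^ 2 * ((4 * (1 + z.re ^ 2) : ℝ) : ℂ) := by
    have h3 : z ^ 2 + (conj z) ^ 2 = ((4 * z.re ^ 2 - 2 : ℝ) : ℂ) := by
      apply Complex.ext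
      · simp [pow_two]
        nlinarith
      · simp [pow_two]
        ring
    have h4 : qq z = z ^ 2 * (z ^ 2 + (conj z) ^ 2 + 6) := by
      unfold qq
      have : z ^ 2 * (conj z) ^ 2 = 1 := by rw [← mul_pow, hc, one_pow]
      linear_combination -this
    rw [h4, h3]
    push_cast
    ring
  rw [e1, e2] at h2
  have h5 : z ^ 2 ≠ 0 := pow_ne_zero _ hz0
  have h6 : ((Real.sin ζ.re : ℝ) : ℂ) * ((4 * (1 + z.re ^ 2) : ℝ) : ℂ) =
      ((4 * z.im ^ 2 : ℝ) : ℂ) := by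
    apply mul_left_cancel₀ h5
    rw [← h2]
    ring
  have h7 : Real.sin ζ.re * (4 * (1 + z.re ^ 2)) = 4 * z.im ^ 2 := by exact_mod_cast h6
  rw [eq_div_iff (by positivity)]
  linarith

/-- `J` and the corners. -/
theorem Zi_im_eq_zero_iff {ζ : ℂ} (h : 0 ≤ ζ.im) :
    (Zi ζ).im = 0 ↔ (ζ.im = 0 ∧ Real.sin ζ.re ≤ 0) := by
  constructor
  · intro hz
    refine ⟨im_eq_zero_of_bdry (Or.inr hz), ?_⟩
    rw [sin_of_real_Zi hz]
    apply div_nonpos_of_nonpos_of_nonneg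
    · exact neg_nonpos.2 (sq_nonneg _)
    · positivity
  · rintro ⟨h0, hs⟩
    rcases bdry_of_im_eq_zero h0 with h1 | h1
    · rw [sin_of_circle_Zi h1] at hs
      have h2 : (0 : ℝ) < 1 + (Zi ζ).re ^ 2 := by positivity
      have h3 : (Zi ζ).im ^ 2 ≤ 0 := by
        have := (div_le_iff₀ h2).1 hs
        linarith
      exact pow_eq_zero_iff two_ne_zero |>.1 (le_antisymm h3 (sq_nonneg _))
    · exact h1

/-- the closed upper half circle. -/
theorem norm_Zi_eq_one_iff {ζ : ℂ} (h : 0 ≤ ζ.im) :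
    ‖Zi ζ‖ = 1 ↔ (ζ.im = 0 ∧ 0 ≤ Real.sin ζ.re) := by
  constructor
  · intro hz
    refine ⟨im_eq_zero_of_bdry (Or.inl hz), ?_⟩
    rw [sin_of_circle_Zi hz]
    positivity
  · rintro ⟨h0, hs⟩
    rcases bdry_of_im_eq_zero h0 with h1 | h1
    · exact h1
    · rw [sin_of_real_Zi h1] at hs
      have h2 : (0 : ℝ) < (Zi ζ).re ^ 4 + 6 * (Zi ζ).re ^ 2 + 1 := by positivity
      have h3 := (le_div_iff₀ h2).1 hs
      have h4 : (1 - (Zi ζ).re ^ 2) ^ 2 = 0 := by nlinarith [sq_nonneg (1 - (Zi ζ).re ^ 2)]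
      have h5 : (Zi ζ).re ^ 2 = 1 := by
        have := pow_eq_zero_iff two_ne_zero |>.1 h4
        linarith
      have h6 : ‖Zi ζ‖ ^ 2 = 1 := by
        rw [Complex.sq_norm, Complex.normSq_apply, h1]
        nlinarith
      have h7 : (‖Zi ζ‖ - 1) * (‖Zi ζ‖ + 1) = 0 := by linarith
      rcases mul_eq_zero.1 h7 with h8 | h8
      · linarith
      · linarith [norm_nonneg (Zi ζ)]

/-- points of `dom h`: upper half `Zi '' S h` and its complex conjugate. -/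
theorem mem_dom_iff_Zi {h : ℝ} (hh : 0 ≤ h) (hh1 : h ≤ 1) {z : ℂ} :
    z ∈ dom h ↔ ∃ ζ ∈ S h, z = Zi ζ ∨ z = conj (Zi ζ) := by
  constructor
  · intro hz
    rcases le_or_gt 0 z.im with hi | hi
    · exact ⟨zet z, zet_mem_S hh1 hz hi, Or.inl (Zi_zet hz.1 hi (qB_ne_zero hh1 hz)).symm⟩
    · have hz' := conj_mem_dom hz
      have hi' : 0 ≤ (conj z).im := by
        rw [Complex.conj_im]
        linarith
      refine ⟨zet (conj z), zet_mem_S hh1 hz' hi', Or.inr ?_⟩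
      rw [Zi_zet hz'.1 hi' (qB_ne_zero hh1 hz'), Complex.conj_conj]
  · rintro ⟨ζ, hζ, rfl | rfl⟩
    · exact Zi_mem_dom hζ
    · exact conj_mem_dom (Zi_mem_dom hζ)

end Pool.Agent.EAC.Geo
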