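import Pool.Agent.EAC.Geo3a

/-!
# EAC Geo3c: continuity and derivative of `Zi`

Notation: `E = exp (I ζ)`, `P = (1 + E)/(1 - E)`, `p = e^{iπ/4} P^{1/2}`, `Zi ζ = (p-1)/(p+1)` if `E ≠ 1`.
-/

set_option autoImplicit false

noncomputable section

namespace Pool.Agent.EAC.Geo

open MeasureTheory Set Filter Topology Metric
open scoped ENNReal ComplexConjugate

theorem isOpen_Oset : IsOpen Oset := by
  have h1 : IsOpen {ζ : ℂ | 0 < ζ.im} := isOpen_lt continuous_const Complex.continuous_im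
  have h2 : IsOpen {ζ : ℂ | Real.sin ζ.re ≠ 0} :=
    isOpen_ne_fun (Real.continuous_sin.comp Complex.continuous_re) continuous_const
  exact h1.union h2

theorem mem_Oset {ζ : ℂ} (h : 0 ≤ ζ.im) (hs : Complex.sin ζ ≠ 0) : ζ ∈ Oset := by
  rcases h.lt_or_eq with h1 | h1
  · exact Or.inl h1
  · refine Or.inr fun h2 => hs ?_
    have h3 : ζ = (ζ.re : ℂ) := by
      apply Complex.ext
      · simp
      · simp [← h1]
    rw [h3, ← Complex.ofReal_sin, h2]
    simp

theorem sin_ne_zero_of_mem_Oset {ζ : ℂ} (h : ζ ∈ Oset) : Complex.sin ζ ≠ 0 := by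
  intro h0
  rw [Complex.sin_eq_zero_iff] at h0
  obtain ⟨k, hk⟩ := h0
  have him : ζ.im = 0 := by
    rw [hk]; simp
  have hre : ζ.re = k * Real.pi := by
    rw [hk]; simp
  rcases h with h | h
  · rw [him] at h; exact lt_irrefl _ h
  · apply h
    rw [hre]
    exact Real.sin_int_mul_pi k

theorem zp_Zi_ne_zero {ζ : ℂ} (h : ζ ∈ Oset) : zp (Zi ζ) ≠ 0 := by
  intro h0
  have h1 := zp_Zi_sq ζ
  rw [h0] at h1
  have h2 : qq (Zi ζ) ≠ 0 := qq_ne_zero (qA_Zi_ne_zero ζ) (qB_Zi_ne_zero ζ)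
  have h3 : Complex.sin ζ ≠ 0 := sin_ne_zero_of_mem_Oset h
  have h4 : -16 * Complex.sin ζ / qq (Zi ζ) ≠ 0 := by
    apply div_ne_zero _ h2
    exact mul_ne_zero (by norm_num) h3
  apply h4
  rw [← h1]
  norm_num

private theorem g3c_cpow_re (P : ℂ) : 0 ≤ (P ^ (1 / 2 : ℂ)).re := by
  by_cases hP : P = 0
  · rw [hP, Complex.zero_cpow (by norm_num)]
    simp
  · rw [Complex.cpow_def_of_ne_zero hP, Complex.exp_re]
    apply mul_nonneg (Real.exp_pos _).le
    have h1 : (Complex.log P * (1 / 2 : ℂ)).im = P.arg / 2 := by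
      have : (1 / 2 : ℂ) = ((1 / 2 : ℝ) : ℂ) := by push_cast; rfl
      rw [this, Complex.im_mul_ofReal, Complex.log_im]
      ring
    rw [h1]
    apply Real.cos_nonneg_of_mem_Icc
    constructor
    · linarith [Complex.neg_pi_lt_arg P]
    · linarith [Complex.arg_le_pi P]

private theorem g3c_p_ne (P : ℂ) :
    Complex.exp (Complex.I * (Real.pi / 4)) * P ^ (1 / 2 : ℂ) + 1 ≠ 0 := by
  intro h0
  have h1 : P ^ (1 / 2 : ℂ) = - Complex.exp (-(Complex.I * (Real.pi / 4))) := by
    have h2 : Complex.exp (-(Complex.I * (Real.pi / 4))) *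
        (Complex.exp (Complex.I * (Real.pi / 4)) * P ^ (1 / 2 : ℂ) + 1) = 0 := by
      rw [h0, mul_zero]
    rw [mul_add, ← mul_assoc, ← Complex.exp_add, neg_add_cancel, Complex.exp_zero, one_mul,
      mul_one] at h2
    exact eq_neg_of_add_eq_zero_left h2
  have h3 := g3c_cpow_re P
  rw [h1] at h3
  have h4 : (-(Complex.I * ((Real.pi : ℂ) / 4))) = ((-(Real.pi / 4) : ℝ) : ℂ) * Complex.I := by
    push_cast; ring
  rw [h4, Complex.neg_re, Complex.exp_ofReal_mul_I_re, Real.cos_neg, Real.cos_pi_div_four] at h3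
  have : 0 < √2 / 2 := by positivity
  linarith

private theorem g3c_slit {ζ : ℂ} (h : ζ ∈ Oset) : Complex.exp (Complex.I * ζ) ≠ 1 ∧
    (1 + Complex.exp (Complex.I * ζ)) / (1 - Complex.exp (Complex.I * ζ)) ∈ Complex.slitPlane := by
  set E := Complex.exp (Complex.I * ζ) with hE
  have hre : E.re = Real.exp (-ζ.im) * Real.cos ζ.re := by
    rw [hE, Complex.exp_re]; simp
  have him : E.im = Real.exp (-ζ.im) * Real.sin ζ.re := by
    rw [hE, Complex.exp_im]; simp
  have hns : E.re ^ 2 + E.im ^ 2 = Real.exp (-ζ.im) ^ 2 := by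
    rw [hre, him]
    have := Real.sin_sq_add_cos_sq ζ.re
    nlinarith [this]
  have hE1 : E ≠ 1 := by
    intro h1
    rcases h with h | h
    · have h2 : Real.exp (-ζ.im) < 1 := by
        rw [Real.exp_lt_one_iff]; linarith
      rw [h1] at hns
      simp at hns
      have h3 := Real.exp_pos (-ζ.im)
      nlinarith
    · rw [h1] at him
      simp at him
      exact h him
  refine ⟨hE1, ?_⟩
  have hd : 1 - E ≠ 0 := sub_ne_zero.mpr (Ne.symm hE1)
  have hn : 0 < Complex.normSq (1 - E) := Complex.normSq_pos.mpr hd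
  rw [Complex.mem_slitPlane_iff]
  rcases h with h | h
  · left
    rw [Complex.div_re]
    simp only [Complex.add_re, Complex.one_re, Complex.sub_re, Complex.add_im, Complex.one_im,
      Complex.sub_im]
    rw [← add_div]
    apply div_pos _ hn
    have h2 : Real.exp (-ζ.im) < 1 := by
      rw [Real.exp_lt_one_iff]; linarith
    have h3 := Real.exp_pos (-ζ.im)
    nlinarith
  · right
    rw [Complex.div_im]
    simp only [Complex.add_re, Complex.one_re, Complex.sub_re, Complex.add_im, Complex.one_im,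
      Complex.sub_im]
    rw [← sub_div]
    apply div_ne_zero _ hn.ne'
    have h2 : E.im ≠ 0 := by
      rw [him]
      exact mul_ne_zero (Real.exp_pos _).ne' h
    intro h3
    apply h2
    linarith

private theorem g3c_diff {ζ : ℂ} (h : ζ ∈ Oset) : DifferentiableAt ℂ Zi ζ := by
  obtain ⟨h1, h2⟩ := g3c_slit h
  have hev : Zi =ᶠ[𝓝 ζ] fun ζ =>
      (Complex.exp (Complex.I * (Real.pi / 4)) *
        ((1 + Complex.exp (Complex.I * ζ)) / (1 - Complex.exp (Complex.I * ζ))) ^ (1 / 2 : ℂ) - 1) /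
      (Complex.exp (Complex.I * (Real.pi / 4)) *
        ((1 + Complex.exp (Complex.I * ζ)) / (1 - Complex.exp (Complex.I * ζ))) ^ (1 / 2 : ℂ) + 1)
      := by
    filter_upwards [isOpen_Oset.mem_nhds h] with x hx
    have := (g3c_slit hx).1
    simp only [Zi, if_neg this]
  refine DifferentiableAt.congr_of_eventuallyEq ?_ hev
  have hP : DifferentiableAt ℂ (fun ζ : ℂ => (1 + Complex.exp (Complex.I * ζ)) /
      (1 - Complex.exp (Complex.I * ζ))) ζ := by
    apply DifferentiableAt.div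
    · fun_prop
    · fun_prop
    · exact sub_ne_zero.mpr (Ne.symm h1)
  have hR : DifferentiableAt ℂ (fun ζ : ℂ => ((1 + Complex.exp (Complex.I * ζ)) /
      (1 - Complex.exp (Complex.I * ζ))) ^ (1 / 2 : ℂ)) ζ :=
    hP.cpow (differentiableAt_const _) h2
  apply DifferentiableAt.div
  · exact ((differentiableAt_const _).mul hR).sub_const _
  · exact ((differentiableAt_const _).mul hR).add_const _
  · exact g3c_p_ne _

theorem hasDerivAt_Zi {ζ : ℂ} (h : ζ ∈ Oset) : HasDerivAt Zi (zp (Zi ζ))⁻¹ ζ := by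
  have h1 := (g3c_diff h).hasDerivAt
  have h2 := hasDerivAt_kap (qA_Zi_ne_zero ζ) (qB_Zi_ne_zero ζ)
  have h3 := h2.comp ζ h1
  have h4 : HasDerivAt (kap ∘ Zi) (Complex.exp (Complex.I * ζ) * Complex.I) ζ := by
    have h5 : kap ∘ Zi = fun ζ => Complex.exp (Complex.I * ζ) := by
      funext x
      exact kap_Zi x
    rw [h5]
    have h6 : HasDerivAt (fun ζ : ℂ => Complex.I * ζ) Complex.I ζ := by
      simpa using (hasDerivAt_id ζ).const_mul Complex.I
    exact h6.cexp
  have h7 := h3.unique h4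
  rw [kap_Zi] at h7
  have h8 : Complex.exp (Complex.I * ζ) ≠ 0 := Complex.exp_ne_zero _
  have h9 : zp (Zi ζ) * deriv Zi ζ = 1 := by
    have h10 : (Complex.exp (Complex.I * ζ) * Complex.I) * (zp (Zi ζ) * deriv Zi ζ) =
        (Complex.exp (Complex.I * ζ) * Complex.I) * 1 := by
      rw [mul_one]
      calc (Complex.exp (Complex.I * ζ) * Complex.I) * (zp (Zi ζ) * deriv Zi ζ)
          = Complex.I * Complex.exp (Complex.I * ζ) * zp (Zi ζ) * deriv Zi ζ := by ring
        _ = _ := h7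
    exact mul_left_cancel₀ (mul_ne_zero h8 Complex.I_ne_zero) h10
  have h11 : deriv Zi ζ = (zp (Zi ζ))⁻¹ := eq_inv_of_mul_eq_one_right h9
  rw [← h11]
  exact h1

private theorem g3c_bound {ζ : ℂ} (h : 0 ≤ ζ.im) :
    ‖Zi ζ - 1‖ ^ 2 ≤ 2 * ‖1 - Complex.exp (Complex.I * ζ)‖ ∧
    ‖Zi ζ + 1‖ ^ 2 ≤ 2 * ‖1 + Complex.exp (Complex.I * ζ)‖ := by
  set z := Zi ζ with hz
  set E := Complex.exp (Complex.I * ζ) with hE
  have hk : kap z = E := kap_Zi ζ
  have hA : qA z ≠ 0 := qA_Zi_ne_zero ζ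
  have hB : qB z = E * qA z := by
    rw [kap_eq, div_eq_iff hA] at hk
    exact hk
  have hz1 : ‖z‖ ≤ 1 := norm_Zi_le h
  have hqA : ‖qA z‖ ≤ 4 := by
    have h1 : ‖qA z‖ ≤ ‖1 + z‖ ^ 2 + ‖1 - z‖ ^ 2 := by
      unfold qA
      refine (norm_add_le _ _).trans ?_
      rw [norm_mul, Complex.norm_I, one_mul, norm_pow, norm_pow]
    have h2 : ‖1 + z‖ ^ 2 + ‖1 - z‖ ^ 2 = 2 + 2 * ‖z‖ ^ 2 := by
      rw [Complex.sq_norm, Complex.sq_norm, Complex.sq_norm, Complex.normSq_apply,
        Complex.normSq_apply, Complex.normSq_apply]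
      simp only [Complex.add_re, Complex.one_re, Complex.sub_re, Complex.add_im, Complex.one_im,
        Complex.sub_im]
      ring
    nlinarith [norm_nonneg z]
  have h1 : (1 - E) * qA z = 2 * Complex.I * (z - 1) ^ 2 := by
    have : (1 - E) * qA z = qA z - qB z := by rw [hB]; ring
    rw [this]
    unfold qA qB
    ring
  have h2 : (1 + E) * qA z = 2 * (z + 1) ^ 2 := by
    have : (1 + E) * qA z = qA z + qB z := by rw [hB]; ring
    rw [this]
    unfold qA qB
    ring
  have h3 := congrArg norm h1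
  have h4 := congrArg norm h2
  rw [norm_mul, norm_mul, norm_mul, norm_pow, Complex.norm_I] at h3
  rw [norm_mul, norm_mul, norm_pow] at h4
  simp only [Complex.norm_ofNat, mul_one] at h3 h4
  constructor
  · nlinarith [norm_nonneg (1 - E)]
  · nlinarith [norm_nonneg (1 + E)]

private theorem g3c_tendsto {f : ℂ → ℂ} {g : ℂ → ℂ} {s : Set ℂ} {x₀ : ℂ} (hx : x₀ ∈ s)
    (hg : Continuous g) (hg0 : g x₀ = 0) (hb : ∀ x ∈ s, ‖f x‖ ^ 2 ≤ 2 * ‖g x‖) :
    f x₀ = 0 ∧ Tendsto f (𝓝[s] x₀) (𝓝 0) := by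
  constructor
  · have h1 := hb x₀ hx
    rw [hg0, norm_zero, mul_zero] at h1
    have h2 : ‖f x₀‖ ^ 2 = 0 := le_antisymm h1 (by positivity)
    exact norm_eq_zero.mp (pow_eq_zero_iff (two_ne_zero) |>.mp h2)
  · have h3 : Tendsto (fun x => √(2 * ‖g x‖)) (𝓝[s] x₀) (𝓝 0) := by
      have h4 : Continuous fun x => √(2 * ‖g x‖) := by fun_prop
      have h5 := h4.continuousWithinAt (s := s) (x := x₀)
      unfold ContinuousWithinAt at h5
      simpa [hg0] using h5
    refine squeeze_zero_norm' ?_ h3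
    filter_upwards [self_mem_nhdsWithin] with x hx
    exact Real.le_sqrt_of_sq_le (hb x hx)

theorem continuousOn_Zi : ContinuousOn Zi {ζ | 0 ≤ ζ.im} := by
  intro ζ hζ
  by_cases hs : Complex.sin ζ = 0
  · have hEE : Complex.exp (Complex.I * ζ) ^ 2 = 1 := by
      have h1 : Complex.exp (-ζ * Complex.I) - Complex.exp (ζ * Complex.I) = 0 := by
        have h2 : (Complex.exp (-ζ * Complex.I) - Complex.exp (ζ * Complex.I)) *
            Complex.I / 2 = 0 := hs
        simpa [Complex.I_ne_zero] using h2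
      have h3 : Complex.exp (-ζ * Complex.I) = Complex.exp (ζ * Complex.I) := sub_eq_zero.mp h1
      rw [mul_comm Complex.I ζ, sq]
      nth_rewrite 1 [← h3]
      rw [← Complex.exp_add]
      simp
    have hEE' : Complex.exp (Complex.I * ζ) = 1 ∨ Complex.exp (Complex.I * ζ) = -1 := by
      have h5 : (Complex.exp (Complex.I * ζ) - 1) * (Complex.exp (Complex.I * ζ) + 1) = 0 := by
        linear_combination hEE
      rcases mul_eq_zero.mp h5 with h6 | h6
      · exact Or.inl (sub_eq_zero.mp h6)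
      · exact Or.inr (eq_neg_of_add_eq_zero_left h6)
    rcases hEE' with hE | hE
    · obtain ⟨h1, h2⟩ := g3c_tendsto (f := fun x => Zi x - 1)
        (g := fun x => 1 - Complex.exp (Complex.I * x)) (s := {ζ : ℂ | 0 ≤ ζ.im}) hζ
        (by fun_prop) (by simp [hE]) (fun x hx => (g3c_bound hx).1)
      have h3 : Zi ζ = 1 := sub_eq_zero.mp h1
      unfold ContinuousWithinAt
      rw [h3]
      have h4 := h2.add_const 1
      simpa using h4
    · obtain ⟨h1, h2⟩ := g3c_tendsto (f := fun x => Zi x + 1)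
        (g := fun x => 1 + Complex.exp (Complex.I * x)) (s := {ζ : ℂ | 0 ≤ ζ.im}) hζ
        (by fun_prop) (by simp [hE]) (fun x hx => (g3c_bound hx).2)
      have h3 : Zi ζ = -1 := eq_neg_of_add_eq_zero_left h1
      unfold ContinuousWithinAt
      rw [h3]
      have h4 := h2.sub_const 1
      simpa using h4
  · exact (hasDerivAt_Zi (mem_Oset hζ hs)).continuousAt.continuousWithinAt

end Pool.Agent.EAC.Geo
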