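import Pool.Agent.EAC.Geo3b
import Pool.Agent.EAC.Geo3c

/-!
# EAC Geo4a: the densities `mm = |dζ/dz|²`, `rho = 1/mm`

Proof plan.
* `mm_eq`: norm of `zp_Zi_sq`.
* `mm_le` uses `eighth_le_qq` (`Zi ζ ∈ dom 1`), `le_mm` uses `norm_qq_le`, `norm_Zi_le`.
* `rho_eq`: `rho = mm⁻¹` (if `sin ζ = 0` both sides are `0`).
-/

set_option autoImplicit false

noncomputable section

namespace Pool.Agent.EAC.Geo

open MeasureTheory Set Filter Topology Metric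
open scoped ENNReal ComplexConjugate

theorem mm_nonneg (ζ : ℂ) : 0 ≤ mm ζ := by unfold mm; positivity

theorem rho_nonneg (ζ : ℂ) : 0 ≤ rho ζ := by unfold rho; exact inv_nonneg.mpr (mm_nonneg ζ)

theorem mm_add_two_pi (ζ : ℂ) : mm (ζ + 2 * Real.pi) = mm ζ := by unfold mm; rw [Zi_add_two_pi]

theorem rho_add_two_pi (ζ : ℂ) : rho (ζ + 2 * Real.pi) = rho ζ := by
  unfold rho; rw [mm_add_two_pi]

theorem qq_Zi_ne_zero (ζ : ℂ) : qq (Zi ζ) ≠ 0 := qq_ne_zero (qA_Zi_ne_zero ζ) (qB_Zi_ne_zero ζ)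

theorem mm_eq (ζ : ℂ) : mm ζ = 16 * ‖Complex.sin ζ‖ / ‖qq (Zi ζ)‖ := by
  unfold mm
  rw [← norm_pow, zp_Zi_sq, norm_div, norm_mul]
  norm_num

theorem mm_le {ζ : ℂ} (h : ζ ∈ S 1) : mm ζ ≤ 128 * ‖Complex.sin ζ‖ := by
  have h1 : 1 / 8 ≤ ‖qq (Zi ζ)‖ := eighth_le_qq le_rfl (Zi_mem_dom h)
  have h2 : 0 < ‖qq (Zi ζ)‖ := by linarith
  rw [mm_eq, div_le_iff₀ h2]
  nlinarith [norm_nonneg (Complex.sin ζ)]

theorem le_mm {ζ : ℂ} (h : 0 ≤ ζ.im) : 2 * ‖Complex.sin ζ‖ ≤ mm ζ := by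
  have h1 : ‖qq (Zi ζ)‖ ≤ 8 := norm_qq_le (norm_Zi_le h)
  have h2 : 0 < ‖qq (Zi ζ)‖ := norm_pos_iff.mpr (qq_Zi_ne_zero ζ)
  rw [mm_eq, le_div_iff₀ h2]
  nlinarith [norm_nonneg (Complex.sin ζ)]

theorem mm_pos {ζ : ℂ} (h : ζ ∈ Oset) : 0 < mm ζ := by
  unfold mm
  exact pow_pos (norm_pos_iff.mpr (zp_Zi_ne_zero h)) 2

theorem rho_pos {ζ : ℂ} (h : ζ ∈ Oset) : 0 < rho ζ := by
  unfold rho
  exact inv_pos.mpr (mm_pos h)

theorem mm_eq_zero {ζ : ℂ} (h : Complex.sin ζ = 0) : mm ζ = 0 := by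
  rw [mm_eq, h]; simp

theorem rho_mul_mm {ζ : ℂ} (h : ζ ∈ Oset) : rho ζ * mm ζ = 1 := by
  unfold rho
  exact inv_mul_cancel₀ (mm_pos h).ne'

theorem rho_eq (ζ : ℂ) : rho ζ = ‖qq (Zi ζ)‖ / (16 * ‖Complex.sin ζ‖) := by
  unfold rho
  rw [mm_eq, inv_div]

theorem rho_le {ζ : ℂ} (h : 0 ≤ ζ.im) : rho ζ ≤ 1 / (2 * ‖Complex.sin ζ‖) := by
  have h1 : ‖qq (Zi ζ)‖ ≤ 8 := norm_qq_le (norm_Zi_le h)
  have h2 : (1 : ℝ) / (2 * ‖Complex.sin ζ‖) = 8 / (16 * ‖Complex.sin ζ‖) := by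
    rw [show (8 : ℝ) / (16 * ‖Complex.sin ζ‖) = 8 / 16 / ‖Complex.sin ζ‖ from
      div_mul_eq_div_div _ _ _, show (1 : ℝ) / (2 * ‖Complex.sin ζ‖) = 1 / 2 / ‖Complex.sin ζ‖ from
      div_mul_eq_div_div _ _ _]
    norm_num
  rw [rho_eq, h2]
  exact div_le_div_of_nonneg_right h1 (by positivity)

theorem le_rho {ζ : ℂ} (h : ζ ∈ S 1) : 1 / (128 * ‖Complex.sin ζ‖) ≤ rho ζ := by
  have h1 : 1 / 8 ≤ ‖qq (Zi ζ)‖ := eighth_le_qq le_rfl (Zi_mem_dom h)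
  have h2 : (1 : ℝ) / (128 * ‖Complex.sin ζ‖) = 1 / 8 / (16 * ‖Complex.sin ζ‖) := by
    rw [← div_mul_eq_div_div]; congr 1; ring
  rw [rho_eq, h2]
  exact div_le_div_of_nonneg_right h1 (by positivity)

theorem continuousOn_mm : ContinuousOn mm {ζ | 0 ≤ ζ.im} := by
  have e : mm = fun ζ => 16 * ‖Complex.sin ζ‖ / ‖qq (Zi ζ)‖ := funext mm_eq
  rw [e]
  refine ContinuousOn.div ?_ ?_ ?_
  · exact (continuous_const.mul Complex.continuous_sin.norm).continuousOn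
  · exact (continuous_qq.comp_continuousOn continuousOn_Zi).norm
  · intro ζ _
    exact norm_ne_zero_iff.mpr (qq_Zi_ne_zero ζ)

/-- lower bound of `rho` near the corner `0`. -/
theorem rho_lower : ∃ c > 0, ∀ ζ : ℂ, 0 ≤ ζ.im → ζ ≠ 0 → ‖ζ‖ ≤ 1 / 2 → c / ‖ζ‖ ≤ rho ζ := by
  refine ⟨1 / 256, by norm_num, fun ζ h0 hne h2 => ?_⟩
  have him : ζ.im ≤ 1 := by
    have := (Complex.abs_im_le_norm ζ)
    have := le_abs_self ζ.im
    linarith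
  have hS : ζ ∈ S 1 := ⟨h0, him⟩
  have hpos : 0 < ‖ζ‖ := norm_pos_iff.mpr hne
  have hsin_ne : Complex.sin ζ ≠ 0 := by
    intro hs
    obtain ⟨k, hk⟩ := Complex.sin_eq_zero_iff.mp hs
    have hk0 : k ≠ 0 := by
      rintro rfl
      exact hne (by simpa using hk)
    have h1 : (1 : ℝ) ≤ |(k : ℝ)| := by exact_mod_cast Int.one_le_abs hk0
    have h3 : ‖ζ‖ = |(k : ℝ)| * Real.pi := by
      rw [hk, norm_mul]
      simp [Complex.norm_real, abs_of_pos Real.pi_pos]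
    have h4 := Real.pi_gt_three
    nlinarith
  have hle : ‖Complex.sin ζ‖ ≤ 2 * ‖ζ‖ := by
    have e : Complex.sin ζ = ((Complex.exp (-ζ * Complex.I) - 1) - (Complex.exp (ζ * Complex.I) - 1))
        * Complex.I / 2 := by
      unfold Complex.sin
      ring
    have n1 : ‖Complex.exp (-ζ * Complex.I) - 1‖ ≤ 2 * ‖ζ‖ := by
      have := Complex.norm_exp_sub_one_le (x := -ζ * Complex.I) (by simp; linarith)
      simpa using this
    have n2 : ‖Complex.exp (ζ * Complex.I) - 1‖ ≤ 2 * ‖ζ‖ := by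
      have := Complex.norm_exp_sub_one_le (x := ζ * Complex.I) (by simp; linarith)
      simpa using this
    rw [e, norm_div, norm_mul, Complex.norm_I, mul_one]
    have n3 := norm_sub_le (Complex.exp (-ζ * Complex.I) - 1) (Complex.exp (ζ * Complex.I) - 1)
    simp only [Complex.norm_ofNat]
    linarith
  refine le_trans ?_ (le_rho hS)
  rw [div_div, div_le_div_iff₀ (by positivity) (by positivity)]
  nlinarith [norm_pos_iff.mpr hsin_ne]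

end Pool.Agent.EAC.Geo
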