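import Pool.Agent.EAC.Strip

/-!
# EAC GeoDefs: `kap = qB / qA`, `zp = 4 (1 - z^2) / qq`
-/

set_option autoImplicit false

noncomputable section

namespace Pool.Agent.EAC

open MeasureTheory Set Filter Topology Metric
open scoped ENNReal ComplexConjugate

/-- denominator of `kap` -/
def qA (z : ℂ) : ℂ := (1 + z) ^ 2 + Complex.I * (1 - z) ^ 2

/-- numerator of `kap` -/
def qB (z : ℂ) : ℂ := (1 + z) ^ 2 - Complex.I * (1 - z) ^ 2

/-- denominator of `zp` -/
def qq (z : ℂ) : ℂ := z ^ 4 + 6 * z ^ 2 + 1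

theorem kap_eq (z : ℂ) : kap z = qB z / qA z := rfl

theorem zp_eq (z : ℂ) : zp z = 4 * (1 - z ^ 2) / qq z := rfl

theorem mem_dom_iff {h : ℝ} {z : ℂ} : z ∈ dom h ↔ ‖z‖ ≤ 1 ∧ Real.exp (-h) * ‖qA z‖ ≤ ‖qB z‖ ∧
    ‖qB z‖ ≤ Real.exp h * ‖qA z‖ := Iff.rfl

theorem continuous_qA : Continuous qA := by unfold qA; fun_prop

theorem continuous_qB : Continuous qB := by unfold qB; fun_prop

theorem continuous_qq : Continuous qq := by unfold qq; fun_prop

/-- open set on which `Zi`, `mm`, `rho` are real analytic; it contains `S h` minus the corners. -/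
def Oset : Set ℂ := {ζ | 0 < ζ.im ∨ Real.sin ζ.re ≠ 0}

theorem U_subset_Oset (h : ℝ) : U h ⊆ Oset := fun _ hζ => Or.inl hζ.1

end Pool.Agent.EAC
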