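import Pool.Agent.EAC.KDefs

/-!
# EAC-K20: the error function `En`

`u = h e^{2x} ≥ 0`: `2u/(1+u) ∈ [0,2]`, derivative in `x`: `4u/(1+u)² ∈ [0,1]`; `e^{-x/2} ∈ (0,1]` for `x ≥ 0` with derivative in
`[-1/2, 0]`: `En_lip` by the mean value inequality. `En_eq`: `s = e^{-x}`, `h/(h+s²) = h e^{2x}/(h e^{2x}+1)`, `√s = e^{-x/2}`.
-/

set_option autoImplicit false

noncomputable section

namespace Pool.Agent.EAC.PartK

open Set Filter Topology Metric

theorem En_pos {C h : ℝ} (hC : 0 < C) (hh : 0 < h) (x : ℝ) : 0 < En C h x := by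
  unfold En
  have h1 : 0 < h * Real.exp (2 * x) := mul_pos hh (Real.exp_pos _)
  have h2 : 0 < Real.exp (-x / 2) := Real.exp_pos _
  positivity

theorem En_le {C h : ℝ} (hC : 0 < C) (hh : 0 < h) {x : ℝ} (hx : 0 ≤ x) : En C h x ≤ 3 * C := by
  unfold En
  have h1 : 0 < h * Real.exp (2 * x) := mul_pos hh (Real.exp_pos _)
  have h2 : Real.exp (-x / 2) ≤ 1 := Real.exp_le_one_iff.2 (by linarith)
  have h3 : 2 * (h * Real.exp (2 * x)) / (1 + h * Real.exp (2 * x)) ≤ 2 := by
    rw [div_le_iff₀ (by positivity)]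
    linarith
  nlinarith

/-- the derivative of `En`. -/
theorem hasDerivAt_En {C h : ℝ} (hh : 0 < h) (x : ℝ) :
    HasDerivAt (En C h)
      (C * (4 * (h * Real.exp (2 * x)) / (1 + h * Real.exp (2 * x)) ^ 2
        - 1 / 2 * Real.exp (-x / 2))) x := by
  have h1 : 0 < h * Real.exp (2 * x) := mul_pos hh (Real.exp_pos _)
  have e1 : HasDerivAt (fun x : ℝ => Real.exp (2 * x)) (Real.exp (2 * x) * (2 * 1)) x :=
    ((hasDerivAt_id x).const_mul 2).exp
  have e2 : HasDerivAt (fun x : ℝ => Real.exp (-x / 2)) (Real.exp (-x / 2) * (-1 / 2)) x :=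
    ((hasDerivAt_id x).neg.div_const 2).exp
  have e3 : HasDerivAt (fun x : ℝ => h * Real.exp (2 * x)) (h * (Real.exp (2 * x) * (2 * 1))) x :=
    e1.const_mul h
  have e4 : HasDerivAt (fun x : ℝ => 1 + h * Real.exp (2 * x)) (h * (Real.exp (2 * x) * (2 * 1))) x :=
    e3.const_add 1
  have e5 : HasDerivAt (fun x : ℝ => 2 * (h * Real.exp (2 * x))) (2 * (h * (Real.exp (2 * x) * (2 * 1)))) x :=
    e3.const_mul 2
  have e6 := e5.div e4 (by positivity)
  have e7 := (e6.add e2).const_mul C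
  have hfun : En C h = fun y => C * (((fun x : ℝ => 2 * (h * Real.exp (2 * x))) / (fun x : ℝ => 1 + h * Real.exp (2 * x))
      + (fun x : ℝ => Real.exp (-x / 2))) y) := by
    funext y
    simp only [En, Pi.add_apply, Pi.div_apply]
  rw [hfun]
  refine e7.congr_deriv ?_
  have h0 : (1 + h * Real.exp (2 * x)) ≠ 0 := by positivity
  field_simp
  ring

theorem En_lip {C h : ℝ} (hC : 0 < C) (hh : 0 < h) {x y : ℝ} (hx : 0 ≤ x) (hy : 0 ≤ y) :
    |En C h x - En C h y| ≤ 2 * C * |x - y| := by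
  have key := Convex.norm_image_sub_le_of_norm_hasDerivWithin_le (f := En C h)
    (f' := fun x => C * (4 * (h * Real.exp (2 * x)) / (1 + h * Real.exp (2 * x)) ^ 2
        - 1 / 2 * Real.exp (-x / 2))) (s := Ici (0 : ℝ)) (x := y) (y := x) (C := 2 * C)
    (fun t _ => (hasDerivAt_En hh t).hasDerivWithinAt) ?_ (convex_Ici 0) hy hx
  · simpa [Real.norm_eq_abs] using key
  · intro t ht
    have h1 : 0 < h * Real.exp (2 * t) := mul_pos hh (Real.exp_pos _)
    have h2 : Real.exp (-t / 2) ≤ 1 := Real.exp_le_one_iff.2 (by linarith [mem_Ici.1 ht])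
    have h2' : 0 < Real.exp (-t / 2) := Real.exp_pos _
    have h3 : 4 * (h * Real.exp (2 * t)) / (1 + h * Real.exp (2 * t)) ^ 2 ≤ 1 := by
      rw [div_le_iff₀ (by positivity)]
      nlinarith [sq_nonneg (1 - h * Real.exp (2 * t))]
    have h4 : 0 ≤ 4 * (h * Real.exp (2 * t)) / (1 + h * Real.exp (2 * t)) ^ 2 := by positivity
    rw [Real.norm_eq_abs, abs_mul, abs_of_pos hC]
    have h5 : |4 * (h * Real.exp (2 * t)) / (1 + h * Real.exp (2 * t)) ^ 2
        - 1 / 2 * Real.exp (-t / 2)| ≤ 2 := by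
      rw [abs_le]
      constructor <;> linarith
    nlinarith

theorem En_eq {C h : ℝ} (hh : 0 < h) (x : ℝ) :
    C * (2 * h / (h + Real.exp (-x) ^ 2) + √(Real.exp (-x))) = En C h x := by
  have hs : √(Real.exp (-x)) = Real.exp (-x / 2) := by
    rw [← Real.exp_half]
  have he : Real.exp (-x) ^ 2 * Real.exp (2 * x) = 1 := by
    rw [← Real.exp_nat_mul, ← Real.exp_add]
    norm_num
  unfold En
  rw [hs]
  congr 2
  have h1 : 0 < Real.exp (2 * x) := Real.exp_pos _
  have h2 : 0 < Real.exp (-x) := Real.exp_pos _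
  rw [div_eq_div_iff (by positivity) (by positivity)]
  linear_combination (-2 * h) * he

/-- the potential of `En`. -/
theorem hasDerivAt_pot {h : ℝ} (hh : 0 < h) (x : ℝ) :
    HasDerivAt (fun x => Real.log (1 + h * Real.exp (2 * x)) - 2 * Real.exp (-x / 2)) (En 1 h x) x := by
  have h1 : 0 < h * Real.exp (2 * x) := mul_pos hh (Real.exp_pos _)
  have e1 : HasDerivAt (fun x : ℝ => Real.exp (2 * x)) (Real.exp (2 * x) * (2 * 1)) x :=
    ((hasDerivAt_id x).const_mul 2).exp
  have e2 : HasDerivAt (fun x : ℝ => Real.exp (-x / 2)) (Real.exp (-x / 2) * (-1 / 2)) x :=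
    ((hasDerivAt_id x).neg.div_const 2).exp
  have e3 : HasDerivAt (fun x : ℝ => h * Real.exp (2 * x)) (h * (Real.exp (2 * x) * (2 * 1))) x :=
    e1.const_mul h
  have e4 : HasDerivAt (fun x : ℝ => 1 + h * Real.exp (2 * x)) (h * (Real.exp (2 * x) * (2 * 1))) x :=
    e3.const_add 1
  have e5 := e4.log (by positivity)
  have e6 := e5.sub (e2.const_mul 2)
  refine e6.congr_deriv ?_
  unfold En
  have h0 : (1 + h * Real.exp (2 * x)) ≠ 0 := by positivity
  field_simp
  ring

end Pool.Agent.EAC.PartK
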