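import Pool.Agent.EAC.KInt

/-!
# EAC-K13: `|W[f](ζ)| ≤ C h/|ζ|` for `h ≤ |ζ| ≤ 1` and `I(r) ≤ C h/r` for `h ≤ r ≤ 1`

`q(u) = h²/(‖u‖(h+‖u‖)²)`, `‖ker(ζ,w)‖ ≤ 25 q(ζ-w)` (`norm_ker_le_q`). On `|re w| ≤ π/2`: `f ≤ π/‖w‖`.
`‖w‖ ≤ ‖ζ‖/2`: `‖ζ-w‖ ≥ ‖ζ‖/2`, `q ≤ 8 h²/‖ζ‖³`, `∫_{ball 0 ‖ζ‖} 1/‖w‖ = 2π‖ζ‖`: total `≤ C h²/‖ζ‖² ≤ C h/‖ζ‖`.
`‖w‖ ≥ ‖ζ‖/2`: `π/‖w‖ ≤ 2π/‖ζ‖`, `∫_ℂ q(ζ-w) dw = 2πh` (`plane_q`). `|re w| ≥ π/2`: `norm_ker_far` and `far_const` give `≤ C h ≤ C h/‖ζ‖`.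
`II_outer`: `K0 ≤ 25 q(w) ≤ 25 h²/‖w‖³`, `f ≤ π/‖w‖ ≤ π/(2r)` on `‖w‖ ≥ 2r`, `|re w| ≤ π/2`, `plane_out`: `≤ C h²/r² ≤ C h/r`;
far: `K0_far`, `far_const`: `≤ C h ≤ C h/r`.
-/

set_option autoImplicit false

noncomputable section

namespace Pool.Agent.EAC.PartK

open MeasureTheory Set Filter Topology Metric

private theorem measurableSet_S_outer (h : ℝ) : MeasurableSet (S h) :=
  (measurableSet_le measurable_const Complex.measurable_im).inter
    (measurableSet_le Complex.measurable_im measurable_const)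

/-- `q ≤ h² / ‖u‖³` -/
private theorem q_le_cube {h u : ℝ} (hh : 0 < h) (hu : 0 < u) :
    h ^ 2 / (u * (h + u) ^ 2) ≤ h ^ 2 / u ^ 3 := by
  apply div_le_div_of_nonneg_left (by positivity) (by positivity)
  have : u ^ 2 ≤ (h + u) ^ 2 := by
    apply pow_le_pow_left₀ hu.le
    linarith
  calc u ^ 3 = u * u ^ 2 := by ring
    _ ≤ u * (h + u) ^ 2 := mul_le_mul_of_nonneg_left this hu.le

theorem outer_est : ∃ C > 0, ∀ h, 0 < h → h ≤ 1 / 4 → ∀ f, Dens h f → ∀ ζ ∈ S h, h ≤ ‖ζ‖ →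
    ‖ζ‖ ≤ 1 → ‖W h f ζ‖ ≤ C * (h / ‖ζ‖) := by
  obtain ⟨A0, hA0, hfar⟩ := far_const
  refine ⟨500 * Real.pi ^ 2 + 25 * A0, by positivity, ?_⟩
  intro h hh h4 f hf ζ hζ hζh hζ1
  have hr0 : 0 < ‖ζ‖ := by linarith
  have hpi : 3 < Real.pi := Real.pi_gt_three
  obtain ⟨r, hr⟩ : ∃ r, r = ‖ζ‖ := ⟨_, rfl⟩
  rw [← hr] at hr0 hζh hζ1 ⊢
  have hmeasS := measurableSet_S_outer h
  have hae0 : ∀ᵐ w : ℂ, w ≠ 0 := by simp [ae_iff]
  have haeζ : ∀ᵐ w : ℂ, w ≠ ζ := by simp [ae_iff]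
  have hb := plane_ball 0 (R := r) hr0.le
  have hq := plane_q ζ hh
  have hf1 := hfar h hh (by linarith) f hf
  have hI1 : Integrable (fun w : ℂ => 200 * Real.pi * h ^ 2 / r ^ 3 *
      (ball (0 : ℂ) r).indicator (fun w => 1 / ‖w - 0‖) w) :=
    ((integrable_indicator_iff measurableSet_ball).2 hb.1).const_mul _
  have hI2 : Integrable (fun w : ℂ => 50 * Real.pi / r *
      (h ^ 2 / (‖w - ζ‖ * (h + ‖w - ζ‖) ^ 2))) := hq.1.const_mul _
  have hI3 : IntegrableOn (fun w : ℂ => 25 * h * (Real.exp (-|w.re|) * f w)) (S h) :=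
    hf1.1.const_mul _
  have hn1 : ∀ w : ℂ, 0 ≤ 200 * Real.pi * h ^ 2 / r ^ 3 *
      (ball (0 : ℂ) r).indicator (fun w => 1 / ‖w - 0‖) w := by
    intro w
    apply mul_nonneg (by positivity)
    exact indicator_nonneg (fun w _ => by positivity) w
  have hn2 : ∀ w : ℂ, 0 ≤ 50 * Real.pi / r * (h ^ 2 / (‖w - ζ‖ * (h + ‖w - ζ‖) ^ 2)) := by
    intro w
    positivity
  have hG12 : IntegrableOn (fun w : ℂ => 200 * Real.pi * h ^ 2 / r ^ 3 *
      (ball (0 : ℂ) r).indicator (fun w => 1 / ‖w - 0‖) w + 50 * Real.pi / r *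
      (h ^ 2 / (‖w - ζ‖ * (h + ‖w - ζ‖) ^ 2))) (S h) := hI1.integrableOn.add hI2.integrableOn
  have hG : IntegrableOn (fun w : ℂ => 200 * Real.pi * h ^ 2 / r ^ 3 *
      (ball (0 : ℂ) r).indicator (fun w => 1 / ‖w - 0‖) w + 50 * Real.pi / r *
      (h ^ 2 / (‖w - ζ‖ * (h + ‖w - ζ‖) ^ 2)) + 25 * h * (Real.exp (-|w.re|) * f w)) (S h) :=
    hG12.add hI3
  have hbound : ‖W h f ζ‖ ≤ ∫ w in S h, (200 * Real.pi * h ^ 2 / r ^ 3 *
      (ball (0 : ℂ) r).indicator (fun w => 1 / ‖w - 0‖) w + 50 * Real.pi / r *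
      (h ^ 2 / (‖w - ζ‖ * (h + ‖w - ζ‖) ^ 2)) + 25 * h * (Real.exp (-|w.re|) * f w)) := by
    unfold W
    apply norm_integral_le_of_norm_le hG
    rw [ae_restrict_iff' hmeasS]
    filter_upwards [hae0, haeζ] with w hw0 hwζ hw
    have hfw0 := hf.nonneg w hw
    have hwp : 0 < ‖w‖ := norm_pos_iff.2 hw0
    have hwζp : 0 < ‖w - ζ‖ := norm_pos_iff.2 (sub_ne_zero.2 hwζ)
    have hsym : ‖ζ - w‖ = ‖w - ζ‖ := norm_sub_rev _ _
    have hn3 : 0 ≤ 25 * h * (Real.exp (-|w.re|) * f w) := by positivity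
    have hn1' := hn1 w
    have hn2' := hn2 w
    rw [norm_mul, Complex.norm_real, Real.norm_of_nonneg hfw0]
    rcases le_total |w.re| (Real.pi / 2) with hre | hre
    · have hfw := hf.near hw hw0 hre
      have hk := norm_ker_le_q hh hζ hw (Ne.symm hwζ)
      rw [hsym] at hk
      rcases lt_or_ge ‖w‖ (r / 2) with hwr | hwr
      · -- close to the corner
        have hdist : r / 2 ≤ ‖w - ζ‖ := by
          have h1 : ‖ζ‖ ≤ ‖w - ζ‖ + ‖w‖ := by
            calc ‖ζ‖ = ‖w - (w - ζ)‖ := by ring_nf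
              _ ≤ ‖w‖ + ‖w - ζ‖ := norm_sub_le _ _
              _ = ‖w - ζ‖ + ‖w‖ := add_comm _ _
          rw [← hr] at h1
          linarith
        have hq1 : h ^ 2 / (‖w - ζ‖ * (h + ‖w - ζ‖) ^ 2) ≤ 8 * h ^ 2 / r ^ 3 := by
          refine (q_le_cube hh hwζp).trans ?_
          calc h ^ 2 / ‖w - ζ‖ ^ 3 ≤ h ^ 2 / (r / 2) ^ 3 := by
                apply div_le_div_of_nonneg_left (by positivity) (by positivity)
                exact pow_le_pow_left₀ (by positivity) hdist 3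
            _ = 8 * h ^ 2 / r ^ 3 := by field_simp; ring
        have hmem : w ∈ ball (0 : ℂ) r := by
          rw [mem_ball, dist_eq_norm, sub_zero]
          linarith
        rw [indicator_of_mem hmem, sub_zero]
        calc f w * ‖ker h ζ w‖
            ≤ (Real.pi / ‖w‖) * (25 * (8 * h ^ 2 / r ^ 3)) := by
              apply mul_le_mul hfw _ (norm_nonneg _) (by positivity)
              linarith
          _ = 200 * Real.pi * h ^ 2 / r ^ 3 * (1 / ‖w‖) := by field_simp; ring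
          _ ≤ 200 * Real.pi * h ^ 2 / r ^ 3 * (1 / ‖w‖) + 50 * Real.pi / r *
              (h ^ 2 / (‖w - ζ‖ * (h + ‖w - ζ‖) ^ 2)) +
              25 * h * (Real.exp (-|w.re|) * f w) := by linarith
      · have hfw2 : f w ≤ 2 * Real.pi / r := by
          refine hfw.trans ?_
          calc Real.pi / ‖w‖ ≤ Real.pi / (r / 2) :=
                div_le_div_of_nonneg_left (by positivity) (by positivity) hwr
            _ = 2 * Real.pi / r := by field_simp
        calc f w * ‖ker h ζ w‖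
            ≤ (2 * Real.pi / r) * (25 * (h ^ 2 / (‖w - ζ‖ * (h + ‖w - ζ‖) ^ 2))) :=
              mul_le_mul hfw2 hk (norm_nonneg _) (by positivity)
          _ = 50 * Real.pi / r * (h ^ 2 / (‖w - ζ‖ * (h + ‖w - ζ‖) ^ 2)) := by ring
          _ ≤ 200 * Real.pi * h ^ 2 / r ^ 3 *
              (ball (0 : ℂ) r).indicator (fun w => 1 / ‖w - 0‖) w + 50 * Real.pi / r *
              (h ^ 2 / (‖w - ζ‖ * (h + ‖w - ζ‖) ^ 2)) +
              25 * h * (Real.exp (-|w.re|) * f w) := by linarith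
    · have hk := norm_ker_far hh h4 hζ hw (by
        have := Complex.abs_re_le_norm ζ
        rw [← hr] at this
        linarith) hre
      calc f w * ‖ker h ζ w‖ ≤ f w * (25 * h * Real.exp (-|w.re|)) :=
            mul_le_mul_of_nonneg_left hk hfw0
        _ = 25 * h * (Real.exp (-|w.re|) * f w) := by ring
        _ ≤ 200 * Real.pi * h ^ 2 / r ^ 3 *
              (ball (0 : ℂ) r).indicator (fun w => 1 / ‖w - 0‖) w + 50 * Real.pi / r *
              (h ^ 2 / (‖w - ζ‖ * (h + ‖w - ζ‖) ^ 2)) +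
              25 * h * (Real.exp (-|w.re|) * f w) := by linarith
  refine hbound.trans ?_
  rw [integral_add hG12 hI3, integral_add hI1.integrableOn hI2.integrableOn]
  have e1 : ∫ w in S h, 200 * Real.pi * h ^ 2 / r ^ 3 *
      (ball (0 : ℂ) r).indicator (fun w => 1 / ‖w - 0‖) w ≤ 400 * Real.pi ^ 2 * (h / r) := by
    refine (setIntegral_le_integral hI1 (Eventually.of_forall hn1)).trans ?_
    rw [integral_const_mul, integral_indicator measurableSet_ball, hb.2]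
    calc 200 * Real.pi * h ^ 2 / r ^ 3 * (2 * Real.pi * r)
        = 400 * Real.pi ^ 2 * ((h / r) * (h / r)) := by field_simp; ring
      _ ≤ 400 * Real.pi ^ 2 * ((h / r) * 1) := by
          have h1 : h / r ≤ 1 := (div_le_one hr0).2 hζh
          have h2 : 0 ≤ h / r := by positivity
          gcongr
      _ = 400 * Real.pi ^ 2 * (h / r) := by ring
  have e2 : ∫ w in S h, 50 * Real.pi / r * (h ^ 2 / (‖w - ζ‖ * (h + ‖w - ζ‖) ^ 2)) ≤
      100 * Real.pi ^ 2 * (h / r) := by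
    refine (setIntegral_le_integral hI2 (Eventually.of_forall hn2)).trans ?_
    rw [integral_const_mul, hq.2]
    apply le_of_eq
    field_simp
    ring
  have hhr : h ≤ h / r := by
    rw [le_div_iff₀ hr0]
    nlinarith
  have e3 : ∫ w in S h, 25 * h * (Real.exp (-|w.re|) * f w) ≤ 25 * A0 * (h / r) := by
    rw [integral_const_mul]
    calc 25 * h * ∫ w in S h, Real.exp (-|w.re|) * f w ≤ 25 * h * A0 :=
          mul_le_mul_of_nonneg_left hf1.2 (by positivity)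
      _ = 25 * A0 * h := by ring
      _ ≤ 25 * A0 * (h / r) := mul_le_mul_of_nonneg_left hhr (by positivity)
  linarith

theorem II_outer : ∃ C > 0, ∀ h, 0 < h → h ≤ 1 / 4 → ∀ f, Dens h f → ∀ r, h ≤ r → r ≤ 1 →
    II h f r ≤ C * (h / r) := by
  obtain ⟨A0, hA0, hfar⟩ := far_const
  refine ⟨25 * Real.pi ^ 2 + 25 * A0, by positivity, ?_⟩
  intro h hh h4 f hf r hhr' hr1
  have hr0 : 0 < r := by linarith
  have hpi : 3 < Real.pi := Real.pi_gt_three
  have hmeasS := measurableSet_S_outer h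
  have hmeasT : MeasurableSet {w : ℂ | 2 * r ≤ ‖w‖} :=
    measurableSet_le measurable_const measurable_norm
  have ho := plane_out (R := 2 * r) (by positivity)
  have hf1 := hfar h hh (by linarith) f hf
  have hK := integrableOn_K0 hh h4 hf hr0
  have hi1 : IntegrableOn (fun w : ℂ => 25 * Real.pi * h ^ 2 / (2 * r) * (1 / ‖w‖ ^ 3))
      (S h ∩ {w : ℂ | 2 * r ≤ ‖w‖}) := (ho.1.mono_set inter_subset_right).const_mul _
  have hi2 : IntegrableOn (fun w : ℂ => 25 * h * (Real.exp (-|w.re|) * f w))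
      (S h ∩ {w : ℂ | 2 * r ≤ ‖w‖}) := (hf1.1.mono_set inter_subset_left).const_mul _
  have hbound : II h f r ≤ ∫ w in S h ∩ {w : ℂ | 2 * r ≤ ‖w‖},
      (25 * Real.pi * h ^ 2 / (2 * r) * (1 / ‖w‖ ^ 3) +
        25 * h * (Real.exp (-|w.re|) * f w)) := by
    unfold II
    apply setIntegral_mono_on hK (hi1.add hi2) (hmeasS.inter hmeasT)
    intro w hw
    have h2 : 2 * r ≤ ‖w‖ := hw.2
    have hwp : 0 < ‖w‖ := by linarith
    have hw0 : w ≠ 0 := norm_pos_iff.1 hwp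
    have hfw0 := hf.nonneg w hw.1
    have hn2 : 0 ≤ 25 * h * (Real.exp (-|w.re|) * f w) := by positivity
    have hn1 : 0 ≤ 25 * Real.pi * h ^ 2 / (2 * r) * (1 / ‖w‖ ^ 3) := by positivity
    rcases le_total |w.re| (Real.pi / 2) with hre | hre
    · have hfw := hf.near hw.1 hw0 hre
      have hfw2 : f w ≤ Real.pi / (2 * r) :=
        hfw.trans (div_le_div_of_nonneg_left (by positivity) (by positivity) h2)
      have hk := (K0_le_q hh hw.1 hw0).trans
        (mul_le_mul_of_nonneg_left (q_le_cube hh hwp) (by norm_num : (0 : ℝ) ≤ 25))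
      calc K0 h w * f w ≤ (25 * (h ^ 2 / ‖w‖ ^ 3)) * (Real.pi / (2 * r)) :=
            mul_le_mul hk hfw2 hfw0 (by positivity)
        _ = 25 * Real.pi * h ^ 2 / (2 * r) * (1 / ‖w‖ ^ 3) := by field_simp
        _ ≤ 25 * Real.pi * h ^ 2 / (2 * r) * (1 / ‖w‖ ^ 3) +
            25 * h * (Real.exp (-|w.re|) * f w) := by linarith
    · have hk := K0_far hh h4 hw.1 hre
      calc K0 h w * f w ≤ (25 * h * Real.exp (-|w.re|)) * f w :=
            mul_le_mul_of_nonneg_right hk hfw0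
        _ = 25 * h * (Real.exp (-|w.re|) * f w) := by ring
        _ ≤ 25 * Real.pi * h ^ 2 / (2 * r) * (1 / ‖w‖ ^ 3) +
            25 * h * (Real.exp (-|w.re|) * f w) := by linarith
  refine hbound.trans ?_
  rw [integral_add hi1 hi2, integral_const_mul, integral_const_mul]
  have hm1 : ∫ w in S h ∩ {w : ℂ | 2 * r ≤ ‖w‖}, 1 / ‖w‖ ^ 3 ≤
      ∫ w in {w : ℂ | 2 * r ≤ ‖w‖}, 1 / ‖w‖ ^ 3 :=
    setIntegral_mono_set ho.1 (Eventually.of_forall fun w => by positivity)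
      (LE.le.eventuallyLE inter_subset_right)
  have hm2 : ∫ w in S h ∩ {w : ℂ | 2 * r ≤ ‖w‖}, Real.exp (-|w.re|) * f w ≤
      ∫ w in S h, Real.exp (-|w.re|) * f w := by
    apply setIntegral_mono_set hf1.1 _ (LE.le.eventuallyLE inter_subset_left)
    rw [EventuallyLE, ae_restrict_iff' hmeasS]
    refine Eventually.of_forall fun w hw => ?_
    have := hf.nonneg w hw
    simp only [Pi.zero_apply]
    positivity
  rw [ho.2] at hm1
  have hhr : h ≤ h / r := by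
    rw [le_div_iff₀ hr0]
    nlinarith
  have e1 : 25 * Real.pi * h ^ 2 / (2 * r) *
      (∫ w in S h ∩ {w : ℂ | 2 * r ≤ ‖w‖}, 1 / ‖w‖ ^ 3) ≤ 25 * Real.pi ^ 2 * (h / r) := by
    calc _ ≤ 25 * Real.pi * h ^ 2 / (2 * r) * (2 * Real.pi / (2 * r)) :=
          mul_le_mul_of_nonneg_left hm1 (by positivity)
      _ = 25 / 2 * Real.pi ^ 2 * ((h / r) * (h / r)) := by field_simp
      _ ≤ 25 / 2 * Real.pi ^ 2 * ((h / r) * 1) := by
          have h1 : h / r ≤ 1 := (div_le_one hr0).2 hhr'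
          have h2 : 0 ≤ h / r := by positivity
          gcongr
      _ ≤ 25 * Real.pi ^ 2 * (h / r) := by
          have h2 : 0 ≤ Real.pi ^ 2 * (h / r) := by positivity
          nlinarith
  have e2 : 25 * h * (∫ w in S h ∩ {w : ℂ | 2 * r ≤ ‖w‖}, Real.exp (-|w.re|) * f w) ≤
      25 * A0 * (h / r) := by
    have h5 : (∫ w in S h ∩ {w : ℂ | 2 * r ≤ ‖w‖}, Real.exp (-|w.re|) * f w) ≤ A0 :=
      hm2.trans hf1.2
    calc _ ≤ 25 * h * A0 := mul_le_mul_of_nonneg_left h5 (by positivity)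
      _ = 25 * A0 * h := by ring
      _ ≤ 25 * A0 * (h / r) := mul_le_mul_of_nonneg_left hhr (by positivity)
  linarith

end Pool.Agent.EAC.PartK
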