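import Pool.Agent.EAC.KInt
import Pool.Agent.EAC.KOuter

/-!
# EAC-K14: elementary properties of `I(r)`

Integrand `K0 f ≥ 0` on `S h`, integrable on `‖w‖ ≥ 2r` (`integrableOn_K0`): `II_nonneg`, `II_antitone` (`setIntegral_mono_set`).
`II_lip`: the difference is the integral over `S h ∩ {2r₁ ≤ ‖w‖ < 2r₂}` (`‖w‖ ≤ 1`, so `|re w| ≤ π/2`), integrand
`≤ (1/(2‖w‖)) (π/‖w‖)`, `plane_ann`: `≤ π² log (r₂/r₁)`.
`II_log`: `I(r) ≤ I(h) + C log (h/r)`, `I(h) ≤ C` by `II_outer`.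
-/

set_option autoImplicit false

noncomputable section

namespace Pool.Agent.EAC.PartK

open MeasureTheory Set Filter Topology Metric

theorem measurableSet_S' (h : ℝ) : MeasurableSet (S h) :=
  (measurableSet_le measurable_const Complex.measurable_im).inter
    (measurableSet_le Complex.measurable_im measurable_const)

theorem measurableSet_far' (r : ℝ) : MeasurableSet {w : ℂ | r ≤ ‖w‖} :=
  measurableSet_le measurable_const measurable_norm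

theorem II_nonneg {h : ℝ} (hh : 0 < h) {f : ℂ → ℝ} (hf : Dens h f) (r : ℝ) : 0 ≤ II h f r := by
  refine setIntegral_nonneg ((measurableSet_S' h).inter (measurableSet_far' _)) ?_
  intro w hw
  exact mul_nonneg (K0_nonneg hh hw.1) (hf.nonneg w hw.1)

theorem II_antitone {h : ℝ} (hh : 0 < h) (h4 : h ≤ 1 / 4) {f : ℂ → ℝ} (hf : Dens h f) {r1 r2 : ℝ}
    (h1 : 0 < r1) (h2 : r1 ≤ r2) : II h f r2 ≤ II h f r1 := by
  refine setIntegral_mono_set (integrableOn_K0 hh h4 hf h1) ?_ ?_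
  · refine (ae_restrict_iff' ((measurableSet_S' h).inter (measurableSet_far' _))).2
      (Eventually.of_forall fun w hw => ?_)
    exact mul_nonneg (K0_nonneg hh hw.1) (hf.nonneg w hw.1)
  · refine LE.le.eventuallyLE ?_
    intro w hw
    refine ⟨hw.1, ?_⟩
    have : 2 * r2 ≤ ‖w‖ := hw.2
    show 2 * r1 ≤ ‖w‖
    linarith

theorem II_lip : ∃ C > 0, ∀ h, 0 < h → h ≤ 1 / 4 → ∀ f, Dens h f → ∀ r1 r2, 0 < r1 → r1 ≤ r2 →
    r2 ≤ 1 / 2 → II h f r1 - II h f r2 ≤ C * Real.log (r2 / r1) := by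
  refine ⟨Real.pi ^ 2, by positivity, ?_⟩
  intro h hh h4 f hf r1 r2 hr1 hr12 hr2
  set D : Set ℂ := S h ∩ {w : ℂ | 2 * r1 ≤ ‖w‖ ∧ ‖w‖ < 2 * r2} with hD
  have hAm : MeasurableSet {w : ℂ | 2 * r1 ≤ ‖w‖ ∧ ‖w‖ < 2 * r2} :=
    (measurableSet_far' _).inter (measurableSet_lt measurable_norm measurable_const)
  have hDm : MeasurableSet D := (measurableSet_S' h).inter hAm
  have hset : S h ∩ {w : ℂ | 2 * r1 ≤ ‖w‖} = (S h ∩ {w : ℂ | 2 * r2 ≤ ‖w‖}) ∪ D := by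
    ext w
    simp only [hD, mem_inter_iff, mem_union, Set.mem_ofPred_eq]
    constructor
    · rintro ⟨hw1, hw2⟩
      rcases le_or_gt (2 * r2) ‖w‖ with h3 | h3
      · exact Or.inl ⟨hw1, h3⟩
      · exact Or.inr ⟨hw1, hw2, h3⟩
    · rintro (⟨hw1, hw2⟩ | ⟨hw1, hw2, _⟩)
      · exact ⟨hw1, by linarith⟩
      · exact ⟨hw1, hw2⟩
  have hdisj : Disjoint (S h ∩ {w : ℂ | 2 * r2 ≤ ‖w‖}) D := by
    rw [Set.disjoint_left]
    rintro w ⟨_, hw2⟩ ⟨_, _, hw3⟩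
    have : 2 * r2 ≤ ‖w‖ := hw2
    linarith
  have hint := integrableOn_K0 hh h4 hf hr1
  rw [hset] at hint
  have hsplit : II h f r1 = II h f r2 + ∫ w in D, K0 h w * f w := by
    unfold II
    rw [hset, setIntegral_union hdisj hDm hint.left_of_union hint.right_of_union]
  obtain ⟨a1, a2⟩ := plane_ann (R1 := 2 * r1) (R2 := 2 * r2) (by linarith) (by linarith)
  have hsub : D ⊆ {w : ℂ | 2 * r1 ≤ ‖w‖ ∧ ‖w‖ ≤ 2 * r2} := fun w hw => ⟨hw.2.1, hw.2.2.le⟩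
  have hb : ∫ w in D, K0 h w * f w ≤ ∫ w in D, Real.pi / 2 * (1 / ‖w‖ ^ 2) := by
    refine setIntegral_mono_on hint.right_of_union ((a1.mono_set hsub).const_mul _) hDm ?_
    intro w hw
    have hw0 : 0 < ‖w‖ := lt_of_lt_of_le (by linarith) hw.2.1
    have hwne : w ≠ 0 := norm_pos_iff.1 hw0
    have hwre : |w.re| ≤ Real.pi / 2 := by
      have h5 : |w.re| ≤ ‖w‖ := Complex.abs_re_le_norm w
      have h6 : ‖w‖ < 2 * r2 := hw.2.2
      linarith [Real.pi_gt_three]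
    have h7 := K0_le_near hh hw.1 hwne
    have h8 := hf.near hw.1 hwne hwre
    calc K0 h w * f w ≤ 1 / (2 * ‖w‖) * (Real.pi / ‖w‖) :=
          mul_le_mul h7 h8 (hf.nonneg w hw.1) (by positivity)
      _ = Real.pi / 2 * (1 / ‖w‖ ^ 2) := by field_simp
  have hb2 : ∫ w in D, Real.pi / 2 * (1 / ‖w‖ ^ 2)
      ≤ ∫ w in {w : ℂ | 2 * r1 ≤ ‖w‖ ∧ ‖w‖ ≤ 2 * r2}, Real.pi / 2 * (1 / ‖w‖ ^ 2) := by
    refine setIntegral_mono_set (a1.const_mul _) ?_ (LE.le.eventuallyLE hsub)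
    exact Eventually.of_forall fun w => by
      show 0 ≤ Real.pi / 2 * (1 / ‖w‖ ^ 2)
      positivity
  have e : 2 * r2 / (2 * r1) = r2 / r1 := by field_simp
  have hb3 : ∫ w in {w : ℂ | 2 * r1 ≤ ‖w‖ ∧ ‖w‖ ≤ 2 * r2}, Real.pi / 2 * (1 / ‖w‖ ^ 2)
      = Real.pi / 2 * (2 * Real.pi * Real.log (r2 / r1)) := by
    rw [integral_const_mul, a2, e]
  rw [hb3] at hb2
  calc II h f r1 - II h f r2 = ∫ w in D, K0 h w * f w := by rw [hsplit]; ring
    _ ≤ Real.pi / 2 * (2 * Real.pi * Real.log (r2 / r1)) := hb.trans hb2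
    _ = Real.pi ^ 2 * Real.log (r2 / r1) := by ring

theorem II_log : ∃ C > 0, ∀ h, 0 < h → h ≤ 1 / 4 → ∀ f, Dens h f → ∀ r, 0 < r → r ≤ h →
    II h f r ≤ C * (1 + Real.log (h / r)) := by
  obtain ⟨C1, hC1, h1⟩ := II_lip
  obtain ⟨C2, hC2, h2⟩ := II_outer
  refine ⟨C1 + C2, by positivity, ?_⟩
  intro h hh h4 f hf r hr hrh
  have a := h1 h hh h4 f hf r h hr hrh (by linarith)
  have b := h2 h hh h4 f hf h le_rfl (by linarith)
  rw [div_self hh.ne', mul_one] at b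
  have hl : 0 ≤ Real.log (h / r) := Real.log_nonneg ((one_le_div hr).2 hrh)
  nlinarith [mul_nonneg hC2.le hl]

end Pool.Agent.EAC.PartK
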