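import Pool.Agent.EAC.KTime
import Pool.Agent.EAC.KII
import Pool.Agent.EAC.KODE
import Pool.Agent.EAC.KEn

/-!
# EAC-K21: the edges of the wedge

`G t x = Lam(t) + II(2 e^{-2 m}, t) - 2 σ En C1 h m`, `m = max x xm`. `2 e^{-2m} ≤ 2/16 ≤ 1/2` and `II_lip` (both directions, with
`II_antitone`) gives `|II(2e^{-2m}) - II(2e^{-2m'})| ≤ 2C|m-m'|`; `En_lip`. Continuity in `t`: `II_cont`, `Lam_cont`. Apply `kode_global`.
`G ≥ lam - 6 C1 > 0` (`Lam_bounds`, `II_nonneg`, `En_le`, `En_pos`, `|σ| ≤ 1`), so `x` is nondecreasing, `x ≥ x0 ≥ xm` and `m = x t`.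
-/

set_option autoImplicit false

noncomputable section

namespace Pool.Agent.EAC.PartK

open MeasureTheory Set Filter Topology Metric

theorem ab_exp_le {m : ℝ} (hm : Real.log 4 ≤ m) : 2 * Real.exp (-m) ^ 2 ≤ 1 / 2 := by
  have h1 : Real.exp (-m) ≤ 1 / 4 := by
    have h2 : Real.exp (-m) ≤ Real.exp (-Real.log 4) := Real.exp_le_exp.mpr (by linarith)
    rw [Real.exp_neg (Real.log 4), Real.exp_log (by norm_num)] at h2
    linarith
  have h3 : 0 < Real.exp (-m) := Real.exp_pos _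
  nlinarith

theorem ab_II_lip_aux {h C : ℝ} (hh : 0 < h) (h4 : h ≤ 1 / 4) {f : ℂ → ℝ} (hf : Dens h f)
    (hC : ∀ r1 r2, 0 < r1 → r1 ≤ r2 → r2 ≤ 1 / 2 → II h f r1 - II h f r2 ≤ C * Real.log (r2 / r1))
    {m m' : ℝ} (hm : Real.log 4 ≤ m) (hmm : m ≤ m') :
    |II h f (2 * Real.exp (-m) ^ 2) - II h f (2 * Real.exp (-m') ^ 2)| ≤ 2 * C * |m - m'| := by
  have hp : 0 < 2 * Real.exp (-m) ^ 2 := by positivity
  have hp' : 0 < 2 * Real.exp (-m') ^ 2 := by positivity
  have hle : 2 * Real.exp (-m') ^ 2 ≤ 2 * Real.exp (-m) ^ 2 := by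
    have h1 : Real.exp (-m') ≤ Real.exp (-m) := Real.exp_le_exp.mpr (by linarith)
    have h2 : 0 < Real.exp (-m') := Real.exp_pos _
    nlinarith
  have h1 := II_antitone hh h4 hf hp' hle
  have h2 := hC _ _ hp' hle (ab_exp_le hm)
  have h3 : Real.log (2 * Real.exp (-m) ^ 2 / (2 * Real.exp (-m') ^ 2)) = 2 * (m' - m) := by
    have h5 : 2 * Real.exp (-m) ^ 2 / (2 * Real.exp (-m') ^ 2) = Real.exp (2 * (m' - m)) := by
      rw [div_eq_iff (ne_of_gt hp'), ← Real.exp_nat_mul, ← Real.exp_nat_mul]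
      have : Real.exp (((2 : ℕ) : ℝ) * -m) =
          Real.exp (2 * (m' - m)) * Real.exp (((2 : ℕ) : ℝ) * -m') := by
        rw [← Real.exp_add]
        congr 1
        push_cast
        ring
      rw [this]
      ring
    rw [h5, Real.log_exp]
  rw [h3] at h2
  rw [abs_sub_comm, abs_of_nonneg (by linarith), abs_sub_comm m m', abs_of_nonneg (by linarith)]
  linarith

theorem ab_II_lip {h C : ℝ} (hh : 0 < h) (h4 : h ≤ 1 / 4) {f : ℂ → ℝ} (hf : Dens h f)
    (hC : ∀ r1 r2, 0 < r1 → r1 ≤ r2 → r2 ≤ 1 / 2 → II h f r1 - II h f r2 ≤ C * Real.log (r2 / r1))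
    {m m' : ℝ} (hm : Real.log 4 ≤ m) (hm' : Real.log 4 ≤ m') :
    |II h f (2 * Real.exp (-m) ^ 2) - II h f (2 * Real.exp (-m') ^ 2)| ≤ 2 * C * |m - m'| := by
  rcases le_total m m' with h1 | h1
  · exact ab_II_lip_aux hh h4 hf hC hm h1
  · rw [abs_sub_comm, abs_sub_comm m m']
    exact ab_II_lip_aux hh h4 hf hC hm' h1

theorem ab_exists {h lam : ℝ} (hh : 0 < h) (h4 : h ≤ 1 / 4) {w : ℝ → ℂ → ℝ} {Φ : ℝ → ℂ → ℂ}
    (hS : StripSol h lam w Φ) {C1 : ℝ} (hC1 : 0 < C1) (hlam : 12 * C1 ≤ lam) {xm : ℝ}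
    (hxm : Real.log 4 ≤ xm) {x0 : ℝ} (hx0 : xm ≤ x0) {σ : ℝ} (hσ : |σ| ≤ 1) :
    ∃ x : ℝ → ℝ, x 0 = x0 ∧ (∀ t, 0 ≤ t → x0 ≤ x t) ∧ ∀ t, 0 ≤ t →
      HasDerivWithinAt x (Lam h lam (fun y => rho y * w t y) +
        II h (fun y => rho y * w t y) (2 * Real.exp (-x t) ^ 2) - 2 * σ * En C1 h (x t)) (Ici 0) t := by
  obtain ⟨C, hC, hCl⟩ := II_lip
  have hlog4 : (0 : ℝ) < Real.log 4 := Real.log_pos (by norm_num)
  set G : ℝ → ℝ → ℝ := fun t x => Lam h lam (fun y => rho y * w t y) +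
        II h (fun y => rho y * w t y) (2 * Real.exp (-(max x xm)) ^ 2) -
        2 * σ * En C1 h (max x xm) with hG
  have hL : ∀ t, 0 ≤ t → ∀ x y, |G t x - G t y| ≤ (2 * C + 4 * C1) * |x - y| := by
    intro t ht x y
    have hf := dens_of_sol hS ht
    have hm : Real.log 4 ≤ max x xm := le_trans hxm (le_max_right _ _)
    have hm' : Real.log 4 ≤ max y xm := le_trans hxm (le_max_right _ _)
    have h1 := ab_II_lip hh h4 hf (fun r1 r2 => hCl h hh h4 _ hf r1 r2) hm hm'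
    have h2 := En_lip hC1 hh (hlog4.le.trans hm) (hlog4.le.trans hm')
    have h3 : |max x xm - max y xm| ≤ |x - y| := abs_max_sub_max_le_abs _ _ _
    have h5 : G t x - G t y =
        (II h (fun y => rho y * w t y) (2 * Real.exp (-(max x xm)) ^ 2) -
          II h (fun y => rho y * w t y) (2 * Real.exp (-(max y xm)) ^ 2)) -
        2 * σ * (En C1 h (max x xm) - En C1 h (max y xm)) := by
      simp only [hG]
      ring
    rw [h5]
    refine (abs_sub _ _).trans ?_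
    rw [abs_mul, abs_mul, abs_two]
    have h6 : 2 * |σ| * |En C1 h (max x xm) - En C1 h (max y xm)| ≤
        2 * 1 * (2 * C1 * |max x xm - max y xm|) := by
      gcongr
    have h7 : 0 ≤ |max x xm - max y xm| := abs_nonneg _
    have h8 : (2 * C + 4 * C1) * |max x xm - max y xm| ≤ (2 * C + 4 * C1) * |x - y| := by
      gcongr
    linarith
  have hc : ∀ x, ContinuousOn (fun t => G t x) (Ici 0) := by
    intro x
    simp only [hG]
    exact ((Lam_cont hh hS).add (II_cont hh h4 hS (by positivity))).sub continuousOn_const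
  obtain ⟨x, hx00, hx⟩ := kode_global (by positivity : (0 : ℝ) ≤ 2 * C + 4 * C1) hL hc x0
  have hpos : ∀ t, 0 ≤ t → ∀ y, 0 ≤ G t y := by
    intro t ht y
    have hf := dens_of_sol hS ht
    have hm : Real.log 4 ≤ max y xm := le_trans hxm (le_max_right _ _)
    have h1 := (Lam_bounds (lam := lam) hh hf).1
    have h2 := II_nonneg hh hf (2 * Real.exp (-(max y xm)) ^ 2)
    have h3 := En_le hC1 hh (hlog4.le.trans hm)
    have h5 := En_pos hC1 hh (max y xm)
    have h6 : σ * En C1 h (max y xm) ≤ 1 * (3 * C1) := by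
      have h7 : σ ≤ 1 := (abs_le.mp hσ).2
      calc σ * En C1 h (max y xm) ≤ 1 * En C1 h (max y xm) := by gcongr
        _ ≤ 1 * (3 * C1) := by gcongr
    simp only [hG]
    linarith
  have hmono : MonotoneOn x (Ici 0) := by
    have hd : ∀ t, 0 < t → HasDerivAt x (G t (x t)) t := fun t ht =>
      (hx t ht.le).hasDerivAt (Ici_mem_nhds ht)
    refine monotoneOn_of_deriv_nonneg (convex_Ici 0) (fun t ht => (hx t ht).continuousWithinAt)
      ?_ ?_
    · intro t ht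
      rw [interior_Ici] at ht
      exact (hd t ht).differentiableAt.differentiableWithinAt
    · intro t ht
      rw [interior_Ici] at ht
      rw [(hd t ht).deriv]
      exact hpos t (le_of_lt ht) _
  have hge : ∀ t, 0 ≤ t → x0 ≤ x t := by
    intro t ht
    have := hmono (mem_Ici.mpr le_rfl) (mem_Ici.mpr ht) ht
    rwa [hx00] at this
  refine ⟨x, hx00, hge, fun t ht => ?_⟩
  have h1 := hx t ht
  simp only [hG] at h1
  rwa [max_eq_left (hx0.trans (hge t ht))] at h1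

end Pool.Agent.EAC.PartK
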