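import Pool.Agent.EAC.KDefs

/-!
# EAC-K22: continuous induction (backwards and forwards) and sign of one sided derivatives

`back_induction`: let `A = {t ∈ [0,T] | ∀ τ ∈ [t,T], P τ}`, `t* = sInf A`; by `hclosed` (or because `t* ∈ A` already) `P t*`, so `t* ∈ A`; if
`t* > 0` then `hopen` gives a smaller element. `fwd_induction` is the mirror image.
`deriv_nonneg_of_pos`: the right difference quotients are positive.
-/

set_option autoImplicit false

noncomputable section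

namespace Pool.Agent.EAC.PartK

open Set Filter Topology Metric

theorem back_induction {P : ℝ → Prop} {T : ℝ} (hT : 0 ≤ T) (h1 : P T)
    (hopen : ∀ t, 0 < t → t ≤ T → P t → ∃ ε > 0, ∀ τ, 0 ≤ τ → t - ε < τ → τ ≤ t → P τ)
    (hclosed : ∀ t, 0 ≤ t → t < T → (∀ τ, t < τ → τ ≤ T → P τ) → P t) :
    ∀ t, 0 ≤ t → t ≤ T → P t := by
  set A : Set ℝ := {t | 0 ≤ t ∧ t ≤ T ∧ ∀ τ, t ≤ τ → τ ≤ T → P τ} with hA
  have hTA : T ∈ A := ⟨hT, le_rfl, fun τ h h' => by rw [le_antisymm h' h]; exact h1⟩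
  have hbdd : BddBelow A := ⟨0, fun t ht => ht.1⟩
  have hne : A.Nonempty := ⟨T, hTA⟩
  set s := sInf A with hs
  have hs0 : 0 ≤ s := le_csInf hne fun t ht => ht.1
  have hsT : s ≤ T := csInf_le hbdd hTA
  have hgt : ∀ τ, s < τ → τ ≤ T → P τ := by
    intro τ h1 h2
    obtain ⟨a, ha, haτ⟩ := exists_lt_of_csInf_lt hne h1
    exact ha.2.2 τ haτ.le h2
  have hPs : P s := by
    rcases hsT.lt_or_eq with h | h
    · exact hclosed s hs0 h hgt
    · rw [h]; exact h1
  have hsz : s = 0 := by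
    by_contra hne0
    have hspos : 0 < s := lt_of_le_of_ne hs0 (Ne.symm hne0)
    obtain ⟨ε, hε, hP⟩ := hopen s hspos hsT hPs
    have hlt : max 0 (s - ε / 2) < s := max_lt hspos (by linarith)
    have hmem : max 0 (s - ε / 2) ∈ A := by
      refine ⟨le_max_left _ _, hlt.le.trans hsT, fun τ h1 h2 => ?_⟩
      rcases le_or_gt τ s with h | h
      · refine hP τ ((le_max_left _ _).trans h1) ?_ h
        have := (le_max_right 0 (s - ε / 2)).trans h1
        linarith
      · exact hgt τ h h2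
    exact absurd (csInf_le hbdd hmem) (not_le.2 hlt)
  intro t ht0 htT
  rcases ht0.lt_or_eq with h | h
  · exact hgt t (by rw [hsz]; exact h) htT
  · rw [← h, ← hsz]; exact hPs

theorem fwd_induction {P : ℝ → Prop} (h1 : P 0)
    (hopen : ∀ t, 0 ≤ t → P t → ∃ ε > 0, ∀ τ, t ≤ τ → τ < t + ε → P τ)
    (hclosed : ∀ t, 0 < t → (∀ τ, 0 ≤ τ → τ < t → P τ) → P t) :
    ∀ t, 0 ≤ t → P t := by
  intro t0 ht0
  by_contra hcon
  set B : Set ℝ := {t | 0 ≤ t ∧ ¬ P t} with hB
  have hne : B.Nonempty := ⟨t0, ht0, hcon⟩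
  have hbdd : BddBelow B := ⟨0, fun t ht => ht.1⟩
  set s := sInf B with hs
  have hs0 : 0 ≤ s := le_csInf hne fun t ht => ht.1
  have hlt : ∀ τ, 0 ≤ τ → τ < s → P τ := by
    intro τ h1 h2
    by_contra h3
    exact absurd (csInf_le hbdd (show τ ∈ B from ⟨h1, h3⟩)) (not_le.2 h2)
  have hPs : P s := by
    rcases hs0.lt_or_eq with h | h
    · exact hclosed s h hlt
    · rw [← h]; exact h1
  obtain ⟨ε, hε, hP⟩ := hopen s hs0 hPs
  obtain ⟨b, hb, hbs⟩ := exists_lt_of_csInf_lt hne (show sInf B < s + ε by rw [← hs]; linarith)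
  exact hb.2 (hP b (csInf_le hbdd hb) hbs)

/-- if `g > 0` on `(t,T]` and `g t = 0` then the right derivative of `g` at `t` is `≥ 0`. -/
theorem deriv_nonneg_of_pos {g : ℝ → ℝ} {t T g' : ℝ} (ht0 : 0 ≤ t) (htT : t < T) (h0 : g t = 0)
    (hd : HasDerivWithinAt g g' (Ici 0) t) (hpos : ∀ τ, t < τ → τ ≤ T → 0 < g τ) : 0 ≤ g' := by
  have hd' : HasDerivWithinAt g g' (Ioi t) t :=
    hd.mono fun x hx => ht0.trans (le_of_lt hx)
  have htend := (hasDerivWithinAt_iff_tendsto_slope' (by simp)).1 hd'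
  refine ge_of_tendsto htend ?_
  have hmem : Ioc t T ∈ 𝓝[>] t := Ioc_mem_nhdsGT htT
  filter_upwards [hmem] with τ hτ
  rw [slope_def_field, h0, sub_zero]
  have := hpos τ hτ.1 hτ.2
  have h2 : 0 < τ - t := sub_pos.2 hτ.1
  positivity

end Pool.Agent.EAC.PartK
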