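import Pool.Agent.EAC.KSinh

/-!
# EAC-K16: `lam ≤ Lam ≤ lam + 2`

`0 ≤ im w * f w ≤ 2 im w/‖sin w‖ ≤ 2` (`norm_sin_ge_im`), `Sper h ⊆ S h`, `volume (Sper h) = 2πh`.
-/

set_option autoImplicit false

noncomputable section

namespace Pool.Agent.EAC.PartK

open MeasureTheory Set Filter Topology Metric

theorem measurableSet_Sper (h : ℝ) : MeasurableSet (Sper h) := by
  unfold Sper
  apply MeasurableSet.inter (measurableSet_le measurable_const Complex.measurable_re)
  apply MeasurableSet.inter (measurableSet_lt Complex.measurable_re measurable_const)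
  apply MeasurableSet.inter (measurableSet_le measurable_const Complex.measurable_im)
  exact measurableSet_le Complex.measurable_im measurable_const

theorem measurableSet_S (h : ℝ) : MeasurableSet (S h) := by
  unfold S
  apply MeasurableSet.inter (measurableSet_le measurable_const Complex.measurable_im)
  exact measurableSet_le Complex.measurable_im measurable_const

theorem Sper_subset_S (h : ℝ) : Sper h ⊆ S h := fun _ hz => ⟨hz.2.2.1, hz.2.2.2⟩

theorem volume_Sper {h : ℝ} (_hh : 0 < h) : volume (Sper h) = ENNReal.ofReal (2 * Real.pi * h) := by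
  have e : Sper h = Complex.measurableEquivRealProd ⁻¹' (Ico 0 (2 * Real.pi) ×ˢ Icc 0 h) := by
    ext z
    simp only [Sper, mem_ofPred_eq, mem_preimage, mem_prod, mem_Ico, mem_Icc,
      Complex.measurableEquivRealProd_apply]
    tauto
  rw [e, Complex.volume_preserving_equiv_real_prod.measure_preimage
    (measurableSet_Ico.prod measurableSet_Icc).nullMeasurableSet, Measure.volume_eq_prod,
    Measure.prod_prod, Real.volume_Ico, Real.volume_Icc, ← ENNReal.ofReal_mul (by linarith [Real.pi_pos])]
  congr 1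
  ring

/-- the integrand of `Lam` is between `0` and `2`. -/
theorem Dens.im_mul {h : ℝ} {f : ℂ → ℝ} (hf : Dens h f) {w : ℂ} (hw : w ∈ S h) :
    0 ≤ w.im * f w ∧ w.im * f w ≤ 2 := by
  have h0 : 0 ≤ w.im := hw.1
  refine ⟨mul_nonneg h0 (hf.nonneg w hw), ?_⟩
  have h1 := hf.le w hw
  have h2 := norm_sin_ge_im w
  rw [abs_of_nonneg h0] at h2
  rcases h0.eq_or_lt with h3 | h3
  · rw [← h3]; norm_num
  · have h4 : 0 < ‖Complex.sin w‖ := lt_of_lt_of_le h3 h2
    calc w.im * f w ≤ w.im * (2 / ‖Complex.sin w‖) := mul_le_mul_of_nonneg_left h1 h0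
      _ ≤ ‖Complex.sin w‖ * (2 / ‖Complex.sin w‖) := mul_le_mul_of_nonneg_right h2 (by positivity)
      _ = 2 := by field_simp

theorem Lam_bounds {h lam : ℝ} (hh : 0 < h) {f : ℂ → ℝ} (hf : Dens h f) :
    lam ≤ Lam h lam f ∧ Lam h lam f ≤ lam + 2 := by
  have h0 : 0 ≤ ∫ w in Sper h, w.im * f w :=
    setIntegral_nonneg (measurableSet_Sper h) fun w hw => (hf.im_mul (Sper_subset_S h hw)).1
  have hv : volume.real (Sper h) = 2 * Real.pi * h := by
    rw [measureReal_def, volume_Sper hh, ENNReal.toReal_ofReal (by positivity)]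
  have h1 : ‖∫ w in Sper h, w.im * f w‖ ≤ 2 * (2 * Real.pi * h) := by
    rw [← hv]
    apply norm_setIntegral_le_of_norm_le_const
    · rw [volume_Sper hh]; exact ENNReal.ofReal_lt_top
    · intro w hw
      have := hf.im_mul (Sper_subset_S h hw)
      rw [Real.norm_of_nonneg this.1]
      exact this.2
  rw [Real.norm_of_nonneg h0] at h1
  have hp : 0 < 2 * Real.pi * h := by positivity
  unfold Lam
  constructor
  · have : 0 ≤ 1 / (2 * Real.pi * h) * ∫ w in Sper h, w.im * f w := by positivity
    linarith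
  · have : 1 / (2 * Real.pi * h) * (∫ w in Sper h, w.im * f w) ≤
        1 / (2 * Real.pi * h) * (2 * (2 * Real.pi * h)) :=
      mul_le_mul_of_nonneg_left h1 (by positivity)
    have e : 1 / (2 * Real.pi * h) * (2 * (2 * Real.pi * h)) = 2 := by field_simp
    linarith

end Pool.Agent.EAC.PartK
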