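import Pool.Agent.EAC.KSinh

/-!
# EAC-K05: bounds for the area density `rho`

`κ = exp(iζ)`, `|κ| ≤ 1`, `P = (1+κ)/(1-κ)`, `p = e^{iπ/4} P^{1/2}`, so `p² = iP`, `re P ≥ 0`, `p` is in the closed first
quadrant; `Zi ζ = (p-1)/(p+1)`, `1 - Zi² = 4p/(p+1)²`, `Zi⁴ + 6 Zi² + 1 = 8(p⁴+1)/(p+1)⁴`, so
`zp(Zi) = 2p(p+1)²/(p⁴+1)`, `p⁴ + 1 = 1 - P² = -4κ/(1-κ)²`, `|p|² = |P|`. Hence
`mm ζ = |zp|² = |1+κ||1-κ| |1-κ|² |p+1|⁴/(4|κ|²) = |sin ζ| (|1-κ|²|p+1|⁴)/(2|κ|)` (`|sin ζ| = |κ²-1|/(2|κ|)`).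
`re p ≥ 0`: `|p+1| ≥ 1`, `|p+1| ≥ |p|`, `|p|⁴ = |1+κ|²/|1-κ|²`: `|1-κ|²|p+1|⁴ ≥ max(|1-κ|²,|1+κ|²) ≥ 1`, so `mm ≥ |sin ζ|/2`:
`rho_le`. `|p+1| ≤ 2 max(1,|p|)`: `|1-κ|²|p+1|⁴ ≤ 16 max(|1-κ|²,|1+κ|²) ≤ 64`, `mm ≤ 32 |sin ζ|/|κ| ≤ 32 e |sin ζ| ≤ 100 |sin ζ|`:
`rho_ge`. If `κ = 1`: `Zi = 1`, `zp = 0`, `mm = 0`, `rho = 0`, `sin ζ = 0`. `κ = -1`: `p = 0`, `Zi = -1`, the same.
`measurable_rho`: `Measurable.ite` for `Zi`, `cpow` with constant exponent is measurable.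
-/

set_option autoImplicit false

noncomputable section

namespace Pool.Agent.EAC.PartK

open MeasureTheory Set Filter Topology Metric

theorem rho_nonneg (ζ : ℂ) : 0 ≤ rho ζ := by
  unfold rho mm
  positivity

/-- `|sin ζ| = |1 - κ²| / (2|κ|)`. -/
theorem krho_sin (ζ : ℂ) : ‖Complex.sin ζ‖ * (2 * ‖Complex.exp (Complex.I * ζ)‖) =
    ‖1 - Complex.exp (Complex.I * ζ)‖ * ‖1 + Complex.exp (Complex.I * ζ)‖ := by
  have h1 : Complex.exp (-ζ * Complex.I) * Complex.exp (Complex.I * ζ) = 1 := by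
    rw [← Complex.exp_add]
    have : -ζ * Complex.I + Complex.I * ζ = 0 := by ring
    rw [this, Complex.exp_zero]
  have h2 : Complex.exp (ζ * Complex.I) = Complex.exp (Complex.I * ζ) := by
    rw [mul_comm]
  have h3 : Complex.sin ζ * (2 * Complex.exp (Complex.I * ζ)) =
      Complex.I * ((1 - Complex.exp (Complex.I * ζ)) * (1 + Complex.exp (Complex.I * ζ))) := by
    unfold Complex.sin
    rw [h2]
    have h4 : (Complex.exp (-ζ * Complex.I) - Complex.exp (Complex.I * ζ)) * Complex.I / 2 *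
        (2 * Complex.exp (Complex.I * ζ)) =
        Complex.I * (Complex.exp (-ζ * Complex.I) * Complex.exp (Complex.I * ζ) -
          Complex.exp (Complex.I * ζ) ^ 2) := by ring
    rw [h4, h1]
    ring
  have h5 := congrArg norm h3
  rw [norm_mul, norm_mul, norm_mul, norm_mul] at h5
  simpa using h5

theorem krho_norm_exp (ζ : ℂ) : ‖Complex.exp (Complex.I * ζ)‖ = Real.exp (-ζ.im) := by
  rw [Complex.norm_exp]
  congr 1
  simp

/-- the real part of `p` is nonnegative -/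
theorem krho_re_p {P : ℂ} (hP : 0 ≤ P.re) :
    0 ≤ (Complex.exp (Complex.I * (Real.pi / 4)) * P ^ (1 / 2 : ℂ)).re := by
  by_cases h0 : P = 0
  · subst h0
    rw [Complex.zero_cpow (by norm_num)]
    simp
  · have harg := (Complex.abs_arg_le_pi_div_two_iff).2 hP
    rw [abs_le] at harg
    rw [Complex.cpow_def_of_ne_zero h0, ← Complex.exp_add, Complex.exp_re]
    apply mul_nonneg (Real.exp_pos _).le
    apply Real.cos_nonneg_of_neg_pi_div_two_le_of_le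
    · have : (Complex.I * (Real.pi / 4) + Complex.log P * (1 / 2)).im =
          Real.pi / 4 + Complex.arg P / 2 := by
        simp [Complex.add_im, Complex.mul_im, Complex.log_im]
        ring
      rw [this]
      linarith [Real.pi_pos, harg.1]
    · have : (Complex.I * (Real.pi / 4) + Complex.log P * (1 / 2)).im =
          Real.pi / 4 + Complex.arg P / 2 := by
        simp [Complex.add_im, Complex.mul_im, Complex.log_im]
        ring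
      rw [this]
      linarith [Real.pi_pos, harg.2]

theorem krho_p_sq (P : ℂ) :
    (Complex.exp (Complex.I * (Real.pi / 4)) * P ^ (1 / 2 : ℂ)) ^ 2 = Complex.I * P := by
  rw [mul_pow]
  have h1 : (P ^ (1 / 2 : ℂ)) ^ 2 = P := by
    have := Complex.cpow_nat_inv_pow P (n := 2) (by norm_num)
    simpa using this
  have h2 : (Complex.exp (Complex.I * (Real.pi / 4))) ^ 2 = Complex.I := by
    rw [← Complex.exp_nat_mul]
    have : ((2 : ℕ) : ℂ) * (Complex.I * (Real.pi / 4)) = (Real.pi / 2 : ℂ) * Complex.I := by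
      push_cast; ring
    rw [this, Complex.exp_pi_div_two_mul_I]
  rw [h1, h2]

/-- main formula: `mm ζ = |sin ζ| Q / (2|κ|)`, `1 ≤ Q ≤ 32`. -/
theorem krho_mm {ζ : ℂ} (h0 : 0 ≤ ζ.im) (h1 : Complex.exp (Complex.I * ζ) ≠ 1) :
    ∃ Q : ℝ, 1 ≤ Q ∧ Q ≤ 32 ∧
      mm ζ * (2 * ‖Complex.exp (Complex.I * ζ)‖) = ‖Complex.sin ζ‖ * Q := by
  have hκ1 : ‖Complex.exp (Complex.I * ζ)‖ ≤ 1 := by
    rw [krho_norm_exp]
    exact Real.exp_le_one_iff.2 (by linarith)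
  have hκ0 : Complex.exp (Complex.I * ζ) ≠ 0 := Complex.exp_ne_zero _
  have hsin := krho_sin ζ
  have hmm : mm ζ = ‖zp ((Complex.exp (Complex.I * (Real.pi / 4)) *
      ((1 + Complex.exp (Complex.I * ζ)) / (1 - Complex.exp (Complex.I * ζ))) ^ (1 / 2 : ℂ) - 1) /
      (Complex.exp (Complex.I * (Real.pi / 4)) *
      ((1 + Complex.exp (Complex.I * ζ)) / (1 - Complex.exp (Complex.I * ζ))) ^ (1 / 2 : ℂ) + 1))‖
      ^ 2 := by
    unfold mm Zi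
    rw [if_neg h1]
  rw [hmm]
  generalize Complex.exp (Complex.I * ζ) = κ at *
  have hk : 1 - κ ≠ 0 := by
    intro h
    apply h1
    rw [← sub_eq_zero]
    linear_combination -h
  have hre : 0 ≤ ((1 + κ) / (1 - κ)).re := by
    rw [Complex.div_re, ← add_div]
    apply div_nonneg _ (Complex.normSq_nonneg _)
    have h2 : κ.re ^ 2 + κ.im ^ 2 ≤ 1 := by
      have h3 : ‖κ‖ ^ 2 ≤ 1 := by
        have := pow_le_pow_left₀ (norm_nonneg κ) hκ1 2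
        simpa using this
      rw [Complex.sq_norm, Complex.normSq_apply] at h3
      nlinarith
    simp only [Complex.add_re, Complex.one_re, Complex.sub_re, Complex.add_im, Complex.one_im,
      Complex.sub_im]
    nlinarith
  have hpre := krho_re_p hre
  have hp2 := krho_p_sq ((1 + κ) / (1 - κ))
  generalize Complex.exp (Complex.I * (Real.pi / 4)) *
    ((1 + κ) / (1 - κ)) ^ (1 / 2 : ℂ) = p at *
  have hp1 : p + 1 ≠ 0 := by
    intro h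
    have := congrArg Complex.re h
    simp at this
    linarith
  have hp4 : p ^ 4 + 1 = -4 * κ / (1 - κ) ^ 2 := by
    have : p ^ 4 = (p ^ 2) ^ 2 := by ring
    rw [this, hp2, mul_pow, Complex.I_sq]
    field_simp
    ring
  have hp4' : p ^ 4 + 1 ≠ 0 := by
    rw [hp4]
    apply div_ne_zero
    · exact mul_ne_zero (by norm_num) hκ0
    · exact pow_ne_zero _ hk
  have hzp : zp ((p - 1) / (p + 1)) = 2 * p * (p + 1) ^ 2 / (p ^ 4 + 1) := by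
    unfold zp
    have e1 : 1 - ((p - 1) / (p + 1)) ^ 2 = 4 * p / (p + 1) ^ 2 := by
      field_simp
      ring
    have e2 : ((p - 1) / (p + 1)) ^ 4 + 6 * ((p - 1) / (p + 1)) ^ 2 + 1 =
        8 * (p ^ 4 + 1) / (p + 1) ^ 4 := by
      field_simp
      ring
    rw [e1, e2]
    field_simp
    ring
  have hnp : ‖p‖ ^ 2 * ‖1 - κ‖ = ‖1 + κ‖ := by
    rw [← norm_pow, hp2, norm_mul, Complex.norm_I, one_mul, norm_div]
    have : ‖1 - κ‖ ≠ 0 := norm_ne_zero_iff.2 hk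
    field_simp
  have hn4 : ‖p ^ 4 + 1‖ * ‖1 - κ‖ ^ 2 = 4 * ‖κ‖ := by
    rw [hp4, norm_div, norm_mul, norm_pow]
    have : ‖1 - κ‖ ≠ 0 := norm_ne_zero_iff.2 hk
    simp only [norm_neg, Complex.norm_ofNat]
    field_simp
  have hq1 : 1 ≤ ‖p + 1‖ := by
    have := Complex.re_le_norm (p + 1)
    simp at this
    linarith
  have hq2 : ‖p‖ ^ 2 ≤ ‖p + 1‖ ^ 2 := by
    rw [Complex.sq_norm, Complex.sq_norm, Complex.normSq_apply, Complex.normSq_apply]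
    simp
    nlinarith
  have hq3 : ‖p + 1‖ ≤ ‖p‖ + 1 := by
    have := norm_add_le p 1
    simpa using this
  have hpar : ‖1 - κ‖ ^ 2 + ‖1 + κ‖ ^ 2 = 2 + 2 * ‖κ‖ ^ 2 := by
    rw [Complex.sq_norm, Complex.sq_norm, Complex.sq_norm, Complex.normSq_apply,
      Complex.normSq_apply, Complex.normSq_apply]
    simp
    ring
  have hkn : 0 < ‖1 - κ‖ := norm_pos_iff.2 hk
  have hκn : 0 < ‖κ‖ := norm_pos_iff.2 hκ0
  refine ⟨‖1 - κ‖ ^ 2 * ‖p + 1‖ ^ 4, ?_, ?_, ?_⟩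
  · have a1 : ‖1 - κ‖ ^ 2 ≤ ‖1 - κ‖ ^ 2 * ‖p + 1‖ ^ 4 := by
      have : 1 ≤ ‖p + 1‖ ^ 4 := one_le_pow₀ hq1
      nlinarith [sq_nonneg ‖1 - κ‖]
    have a2 : ‖1 + κ‖ ^ 2 ≤ ‖1 - κ‖ ^ 2 * ‖p + 1‖ ^ 4 := by
      rw [← hnp]
      have : (‖p‖ ^ 2) ^ 2 ≤ (‖p + 1‖ ^ 2) ^ 2 := pow_le_pow_left₀ (sq_nonneg _) hq2 2
      have e : ‖p + 1‖ ^ 4 = (‖p + 1‖ ^ 2) ^ 2 := by ring
      rw [e, mul_pow, mul_comm]
      exact mul_le_mul_of_nonneg_left this (sq_nonneg _)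
    nlinarith [sq_nonneg ‖κ‖]
  · have a1 : ‖p + 1‖ ^ 4 ≤ 8 * (‖p‖ ^ 4 + 1) := by
      have b1 : ‖p + 1‖ ^ 4 ≤ (‖p‖ + 1) ^ 4 := pow_le_pow_left₀ (norm_nonneg _) hq3 4
      have b2 : (‖p‖ + 1) ^ 4 ≤ 8 * (‖p‖ ^ 4 + 1) := by
        nlinarith [sq_nonneg (‖p‖ - 1), sq_nonneg (‖p‖ ^ 2 - 1), norm_nonneg p,
          mul_nonneg (norm_nonneg p) (sq_nonneg (‖p‖ - 1)),
          mul_nonneg (mul_nonneg (norm_nonneg p) (norm_nonneg p)) (sq_nonneg (‖p‖ - 1))]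
      linarith
    have a2 : ‖1 - κ‖ ^ 2 * ‖p + 1‖ ^ 4 ≤ ‖1 - κ‖ ^ 2 * (8 * (‖p‖ ^ 4 + 1)) :=
      mul_le_mul_of_nonneg_left a1 (sq_nonneg _)
    have a3 : ‖1 - κ‖ ^ 2 * (8 * (‖p‖ ^ 4 + 1)) = 8 * (‖1 + κ‖ ^ 2 + ‖1 - κ‖ ^ 2) := by
      rw [← hnp]; ring
    have a4 : ‖κ‖ ^ 2 ≤ 1 := by
      have := pow_le_pow_left₀ (norm_nonneg κ) hκ1 2
      simpa using this
    nlinarith
  · rw [hzp, norm_div, norm_mul, norm_mul, norm_pow, div_pow]
    simp only [Complex.norm_ofNat]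
    have hD : ‖p ^ 4 + 1‖ ≠ 0 := norm_ne_zero_iff.2 hp4'
    have e1 : (2 * ‖p‖ * ‖p + 1‖ ^ 2) ^ 2 / ‖p ^ 4 + 1‖ ^ 2 =
        ‖1 - κ‖ ^ 3 * ‖1 + κ‖ * ‖p + 1‖ ^ 4 / (4 * ‖κ‖ ^ 2) := by
      rw [div_eq_div_iff (pow_ne_zero _ hD) (by positivity)]
      have : (4 * ‖κ‖) ^ 2 = (‖p ^ 4 + 1‖ * ‖1 - κ‖ ^ 2) ^ 2 := by rw [hn4]
      have h6 : (2 * ‖p‖ * ‖p + 1‖ ^ 2) ^ 2 * (4 * ‖κ‖ ^ 2) =
          ‖p‖ ^ 2 * ‖p + 1‖ ^ 4 * (4 * ‖κ‖) ^ 2 := by ring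
      rw [h6, this, ← hnp]
      ring
    rw [e1]
    have e2 : ‖1 - κ‖ ^ 3 * ‖1 + κ‖ * ‖p + 1‖ ^ 4 / (4 * ‖κ‖ ^ 2) * (2 * ‖κ‖) =
        (‖1 - κ‖ * ‖1 + κ‖) * (‖1 - κ‖ ^ 2 * ‖p + 1‖ ^ 4) / (2 * ‖κ‖) := by
      field_simp
      ring
    rw [e2, ← hsin]
    field_simp

theorem rho_le {ζ : ℂ} (h0 : 0 ≤ ζ.im) : rho ζ ≤ 2 / ‖Complex.sin ζ‖ := by
  by_cases h1 : Complex.exp (Complex.I * ζ) = 1
  · have : mm ζ = 0 := by
      unfold mm Zi zp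
      rw [if_pos h1]
      norm_num
    unfold rho
    rw [this, inv_zero]
    positivity
  · obtain ⟨Q, hQ1, hQ2, hQ⟩ := krho_mm h0 h1
    have hκ1 : ‖Complex.exp (Complex.I * ζ)‖ ≤ 1 := by
      rw [krho_norm_exp]
      exact Real.exp_le_one_iff.2 (by linarith)
    have hκ0 : 0 < ‖Complex.exp (Complex.I * ζ)‖ := norm_pos_iff.2 (Complex.exp_ne_zero _)
    have hmm0 : 0 ≤ mm ζ := by unfold mm; positivity
    by_cases hs : ‖Complex.sin ζ‖ = 0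
    · rw [hs, zero_mul] at hQ
      have : mm ζ = 0 := by
        rcases mul_eq_zero.1 hQ with h | h
        · exact h
        · exfalso; linarith
      unfold rho
      rw [this, hs]
      simp
    · have hs0 : 0 < ‖Complex.sin ζ‖ := lt_of_le_of_ne (norm_nonneg _) (Ne.symm hs)
      have h2 : ‖Complex.sin ζ‖ / 2 ≤ mm ζ := by
        have a1 : ‖Complex.sin ζ‖ ≤ ‖Complex.sin ζ‖ * Q := by nlinarith
        have a2 : mm ζ * (2 * ‖Complex.exp (Complex.I * ζ)‖) ≤ mm ζ * 2 := by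
          apply mul_le_mul_of_nonneg_left _ hmm0
          linarith
        linarith
      unfold rho
      have h3 : 0 < ‖Complex.sin ζ‖ / 2 := by positivity
      calc (mm ζ)⁻¹ ≤ (‖Complex.sin ζ‖ / 2)⁻¹ := inv_anti₀ h3 h2
        _ = 2 / ‖Complex.sin ζ‖ := by rw [inv_div]

theorem rho_ge {ζ : ℂ} (h0 : 0 ≤ ζ.im) (h1 : ζ.im ≤ 1) (hs : Complex.sin ζ ≠ 0) :
    1 / (100 * ‖Complex.sin ζ‖) ≤ rho ζ := by
  have hs0 : 0 < ‖Complex.sin ζ‖ := norm_pos_iff.2 hs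
  have hne : Complex.exp (Complex.I * ζ) ≠ 1 := by
    intro h
    have h2 := krho_sin ζ
    rw [h] at h2
    simp at h2
    exact hs h2
  obtain ⟨Q, hQ1, hQ2, hQ⟩ := krho_mm h0 hne
  have hκ : Real.exp (-1) ≤ ‖Complex.exp (Complex.I * ζ)‖ := by
    rw [krho_norm_exp]
    exact Real.exp_le_exp.2 (by linarith)
  have hmm0 : 0 ≤ mm ζ := by unfold mm; positivity
  have he : (1 : ℝ) / 3 ≤ Real.exp (-1) := by
    rw [Real.exp_neg, one_div]
    apply inv_anti₀ (Real.exp_pos _)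
    exact (Real.exp_one_lt_d9.trans (by norm_num)).le
  have hpos : 0 < mm ζ := by
    rcases hmm0.lt_or_eq with h | h
    · exact h
    · exfalso
      rw [← h, zero_mul] at hQ
      nlinarith
  have hup : mm ζ ≤ 100 * ‖Complex.sin ζ‖ := by
    have a1 : mm ζ * (2 * (1 / 3)) ≤ mm ζ * (2 * ‖Complex.exp (Complex.I * ζ)‖) := by
      apply mul_le_mul_of_nonneg_left _ hmm0
      linarith
    have a2 : ‖Complex.sin ζ‖ * Q ≤ ‖Complex.sin ζ‖ * 32 :=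
      mul_le_mul_of_nonneg_left hQ2 hs0.le
    linarith
  unfold rho
  rw [one_div]
  exact inv_anti₀ hpos hup

theorem measurable_Zi : Measurable Zi := by
  unfold Zi
  refine Measurable.ite ?_ measurable_const ?_
  · exact (isClosed_singleton.preimage
      (by fun_prop : Continuous fun ζ : ℂ => Complex.exp (Complex.I * ζ))).measurableSet
  · have h1 : Measurable fun ζ : ℂ => (1 + Complex.exp (Complex.I * ζ)) /
        (1 - Complex.exp (Complex.I * ζ)) := by fun_prop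
    have h2 : Measurable fun ζ : ℂ => ((1 + Complex.exp (Complex.I * ζ)) /
        (1 - Complex.exp (Complex.I * ζ))) ^ (1 / 2 : ℂ) := h1.pow_const _
    exact ((h2.const_mul _).sub_const _).div ((h2.const_mul _).add_const _)

theorem measurable_rho : Measurable rho := by
  have h := measurable_Zi
  unfold rho mm zp
  fun_prop

end Pool.Agent.EAC.PartK
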