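import Pool.Agent.EAC.KInt
import Pool.Agent.EAC.KRho
import Pool.Agent.EAC.KLam

/-!
# EAC-K18: time dependence along a strip solution

`dens_of_sol`: `rho` is measurable, `w t` is continuous on `S h` (`hS.cont`), `0 ≤ w ≤ 1`, `rho_le`.
`II_cont`, `Lam_cont`: dominated convergence: pointwise `t ↦ w t ζ` is continuous on `Ici 0`; majorants
`K0 h w * (rho w)` and `2` on `Sper h`.
-/

set_option autoImplicit false

noncomputable section

namespace Pool.Agent.EAC.PartK

open MeasureTheory Set Filter Topology Metric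

theorem dens_rho {h : ℝ} : Dens h rho where
  meas := measurable_rho.aestronglyMeasurable
  nonneg := fun w _ => rho_nonneg w
  le := fun _ hw => rho_le hw.1

theorem sol_cont_space {h lam : ℝ} {w : ℝ → ℂ → ℝ} {Φ : ℝ → ℂ → ℂ} (hS : StripSol h lam w Φ) {t : ℝ}
    (ht : 0 ≤ t) : ContinuousOn (w t) (S h) :=
  hS.cont.comp (f := fun z : ℂ => (t, z)) (by fun_prop) fun _ hz => ⟨ht, hz⟩

theorem sol_cont_time {h lam : ℝ} {w : ℝ → ℂ → ℝ} {Φ : ℝ → ℂ → ℂ} (hS : StripSol h lam w Φ) {z : ℂ}
    (hz : z ∈ S h) : ContinuousOn (fun t => w t z) (Ici 0) :=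
  hS.cont.comp (f := fun t : ℝ => (t, z)) (by fun_prop) fun _ ht => ⟨ht, hz⟩

theorem dens_of_sol {h lam : ℝ} {w : ℝ → ℂ → ℝ} {Φ : ℝ → ℂ → ℂ} (hS : StripSol h lam w Φ) {t : ℝ}
    (ht : 0 ≤ t) : Dens h (fun x => rho x * w t x) where
  meas := measurable_rho.aestronglyMeasurable.mul
    ((sol_cont_space hS ht).aestronglyMeasurable (measurableSet_S h))
  nonneg := fun z hz => mul_nonneg (rho_nonneg z) (hS.range t ht z hz).1
  le := fun z hz => by
    have h1 := hS.range t ht z hz
    have h2 := rho_nonneg z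
    have h3 := rho_le hz.1
    nlinarith

theorem II_cont {h lam : ℝ} (hh : 0 < h) (h4 : h ≤ 1 / 4) {w : ℝ → ℂ → ℝ} {Φ : ℝ → ℂ → ℂ}
    (hS : StripSol h lam w Φ) {r : ℝ} (hr : 0 < r) :
    ContinuousOn (fun t => II h (fun x => rho x * w t x) r) (Ici 0) := by
  unfold II
  have hsub : S h ∩ {w : ℂ | 2 * r ≤ ‖w‖} ⊆ S h := inter_subset_left
  have hms : MeasurableSet (S h ∩ {w : ℂ | 2 * r ≤ ‖w‖}) :=
    (measurableSet_S h).inter (measurableSet_le measurable_const measurable_norm)
  apply continuousOn_of_dominated (bound := fun z => K0 h z * rho z)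
  · intro t ht
    exact (measurable_K0 h).aestronglyMeasurable.mul
      ((dens_of_sol hS ht).meas.mono_measure (Measure.restrict_mono hsub le_rfl))
  · intro t ht
    filter_upwards [ae_restrict_mem hms] with z hz
    have h1 := hS.range t ht z hz.1
    have h2 := rho_nonneg z
    have h3 := K0_nonneg hh hz.1
    rw [Real.norm_of_nonneg (mul_nonneg h3 (mul_nonneg h2 h1.1))]
    apply mul_le_mul_of_nonneg_left _ h3
    nlinarith
  · exact integrableOn_K0 hh h4 dens_rho hr
  · filter_upwards [ae_restrict_mem hms] with z hz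
    exact continuousOn_const.mul (continuousOn_const.mul (sol_cont_time hS hz.1))

theorem Lam_cont {h lam : ℝ} (hh : 0 < h) {w : ℝ → ℂ → ℝ} {Φ : ℝ → ℂ → ℂ}
    (hS : StripSol h lam w Φ) :
    ContinuousOn (fun t => Lam h lam (fun x => rho x * w t x)) (Ici 0) := by
  unfold Lam
  apply continuousOn_const.add (continuousOn_const.mul _)
  apply continuousOn_of_dominated (bound := fun _ => (2 : ℝ))
  · intro t ht
    exact (Complex.measurable_im.aestronglyMeasurable).mul
      ((dens_of_sol hS ht).meas.mono_measure (Measure.restrict_mono (Sper_subset_S h) le_rfl))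
  · intro t ht
    filter_upwards [ae_restrict_mem (measurableSet_Sper h)] with z hz
    have h1 := (dens_of_sol hS ht).im_mul (Sper_subset_S h hz)
    rw [Real.norm_of_nonneg h1.1]
    exact h1.2
  · have : IsFiniteMeasure (volume.restrict (Sper h)) := by
      constructor
      rw [Measure.restrict_apply_univ, volume_Sper hh]
      exact ENNReal.ofReal_lt_top
    exact integrable_const _
  · filter_upwards [ae_restrict_mem (measurableSet_Sper h)] with z hz
    exact continuousOn_const.mul (continuousOn_const.mul (sol_cont_time hS (Sper_subset_S h hz)))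

end Pool.Agent.EAC.PartK
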