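import Pool.Agent.EAC.KEst
import Pool.Agent.EAC.KTime
import Pool.Agent.EAC.KEn
import Pool.Agent.EAC.KInd

/-!
# EAC-K23: particles in the wedge at time `T` were in the wedge at time `0`

`Z τ = Φ τ ζ0`, `P τ : Z τ ∈ Om h (exp (-xa τ)) (exp (-xb τ))`, `back_induction`.
`Z` is continuous on `Ici 0`, with values in `S h`, derivative `Vel h lam mm (rho w_t) (Z t)`; `f_t` is a density (`dens_of_sol`).

`hopen`: at `Z t ∈ Om`: `Z t ≠ 0`, `sq` is continuous at `Z t` (`hasDerivAt_sq`), the four strict inequalities persist.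

`hclosed`: `Z t ∈ S h`, `re Z t ≥ 0`, `‖Z t‖ ≤ 1/2` by continuity. `Z t ≠ 0`: otherwise `(re sq (Z τ))² ≤ ‖sq (Z τ)‖² ≤ (3/5)‖Z τ‖ → 0` as
`τ ↓ t`, but `re sq (Z τ) > exp (-xa τ) → exp (-xa t) > 0`. So `sq` is continuous at `Z t`, `a ≤ s1 ≤ b` with `s1 = re sq (Z t)`,
`a = exp (-xa t)`, `b = exp(-xb t)`. `‖Z t‖ < 1/2`: `‖Z t‖ ≤ (5/2)‖sq (Z t)‖² ≤ 5 s1² ≤ 5 b² ≤ 5 s0² ≤ 5/16`.
`re Z t > 0`: otherwise `deriv_nonneg_of_pos` for `re Z` contradicts `E2` (`mm > 0` by `mm_pos`, `C2 < lam`).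
`s1 > a`: otherwise `g = re sq (Z ·) - exp (-xa ·)` has `g t = 0`, `g > 0` after `t`, and derivative
`re (((1+s⁴)/(4s)) Vel) + a xa' ≤ -a (Lam + I(2a²) - En) + a (Lam + I(2a²) - 2 En) = -a En < 0` (`E1`, `En_eq`, `En_pos`).
`s1 < b`: the same with `g = exp (-xb ·) - re sq (Z ·)`, derivative `≤ -b (Lam+I+2En) + b (Lam + I + En) < 0`.
-/

set_option autoImplicit false

noncomputable section

namespace Pool.Agent.EAC.PartK

open MeasureTheory Set Filter Topology Metric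

theorem wedge_barrier {h lam : ℝ} (hh : 0 < h) (h4 : h ≤ 1 / 4) {w : ℝ → ℂ → ℝ} {Φ : ℝ → ℂ → ℂ}
    (hS : StripSol h lam w Φ) {C1 C2 s0 : ℝ} (hC1 : 0 < C1) (hs0 : 0 < s0) (hs1 : s0 ≤ 1 / 4)
    (hlam : C2 < lam)
    (E2 : ∀ f, Dens h f → ∀ ζ ∈ S h, ζ ≠ 0 → ‖ζ‖ ≤ 1 → (Vel h lam mm f ζ).re ≤ mm ζ * (C2 - lam))
    (E1 : ∀ f, Dens h f → ∀ ζ ∈ S h, ζ ≠ 0 → 0 ≤ ζ.re → ‖ζ‖ ≤ 1 / 2 → (sq ζ).re ≤ s0 →
      |-(((1 + sq ζ ^ 4) / (4 * sq ζ)) * Vel h lam mm f ζ).re / (sq ζ).re -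
          (Lam h lam f + II h f (2 * (sq ζ).re ^ 2))| ≤
        C1 * (2 * h / (h + (sq ζ).re ^ 2) + √((sq ζ).re)))
    {xa xb : ℝ → ℝ} (hxa0 : ∀ t, 0 ≤ t → Real.exp (-xa t) ≤ s0)
    (hxb0 : ∀ t, 0 ≤ t → Real.exp (-xb t) ≤ s0)
    (hxa : ∀ t, 0 ≤ t → HasDerivWithinAt xa (Lam h lam (fun y => rho y * w t y) +
        II h (fun y => rho y * w t y) (2 * Real.exp (-xa t) ^ 2) - 2 * En C1 h (xa t)) (Ici 0) t)
    (hxb : ∀ t, 0 ≤ t → HasDerivWithinAt xb (Lam h lam (fun y => rho y * w t y) +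
        II h (fun y => rho y * w t y) (2 * Real.exp (-xb t) ^ 2) + 2 * En C1 h (xb t)) (Ici 0) t)
    {T : ℝ} (hT : 0 ≤ T) {ζ0 : ℂ} (hζ0 : ζ0 ∈ S h)
    (hin : Φ T ζ0 ∈ Om h (Real.exp (-xa T)) (Real.exp (-xb T))) :
    ζ0 ∈ Om h (Real.exp (-xa 0)) (Real.exp (-xb 0)) := by
  -- the trajectory
  have hZS : ∀ t, 0 ≤ t → Φ t ζ0 ∈ S h := fun t ht => (hS.bij t ht).mapsTo hζ0
  have hZd : ∀ t, 0 ≤ t → HasDerivWithinAt (fun τ => Φ τ ζ0)
      (Vel h lam mm (fun x => rho x * w t x) (Φ t ζ0)) (Ici 0) t := fun t ht => hS.flow t ht ζ0 hζ0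
  have hZc : ∀ t, 0 ≤ t → ContinuousWithinAt (fun τ => Φ τ ζ0) (Ici 0) t := fun t ht =>
    (hZd t ht).continuousWithinAt
  have hea : ∀ t, 0 ≤ t → ContinuousWithinAt (fun τ => Real.exp (-xa τ)) (Ici 0) t := fun t ht =>
    ((hxa t ht).continuousWithinAt.neg).rexp
  have heb : ∀ t, 0 ≤ t → ContinuousWithinAt (fun τ => Real.exp (-xb τ)) (Ici 0) t := fun t ht =>
    ((hxb t ht).continuousWithinAt.neg).rexp
  have hre : ∀ t, 0 ≤ t → ContinuousWithinAt (fun τ => (Φ τ ζ0).re) (Ici 0) t := fun t ht =>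
    (Complex.continuous_re.continuousAt.comp_continuousWithinAt (hZc t ht))
  have hno : ∀ t, 0 ≤ t → ContinuousWithinAt (fun τ => ‖Φ τ ζ0‖) (Ici 0) t := fun t ht =>
    (hZc t ht).norm
  have hsqc : ∀ t, 0 ≤ t → 0 ≤ (Φ t ζ0).re → Φ t ζ0 ≠ 0 → ‖Φ t ζ0‖ ≤ 1 / 2 →
      ContinuousWithinAt (fun τ => (sq (Φ τ ζ0)).re) (Ici 0) t := by
    intro t ht h1 h2 h3
    have hc : ContinuousAt sq (Φ t ζ0) :=
      (hasDerivAt_sq h1 (hZS t ht).1 h2 h3).continuousAt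
    have h4 : ContinuousWithinAt (fun τ => sq (Φ τ ζ0)) (Ici 0) t :=
      ContinuousAt.comp_continuousWithinAt (g := sq) (f := fun τ => Φ τ ζ0) hc (hZc t ht)
    exact Complex.continuous_re.continuousAt.comp_continuousWithinAt h4
  have hsqd : ∀ t, 0 ≤ t → 0 ≤ (Φ t ζ0).re → Φ t ζ0 ≠ 0 → ‖Φ t ζ0‖ ≤ 1 / 2 →
      HasDerivWithinAt (fun τ => (sq (Φ τ ζ0)).re)
        ((((1 + sq (Φ t ζ0) ^ 4) / (4 * sq (Φ t ζ0))) *
          Vel h lam mm (fun x => rho x * w t x) (Φ t ζ0)).re) (Ici 0) t := by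
    intro t ht h1 h2 h3
    have hd := hasDerivAt_sq h1 (hZS t ht).1 h2 h3
    have hd2 : HasDerivWithinAt (fun τ => sq (Φ τ ζ0))
        (((1 + sq (Φ t ζ0) ^ 4) / (4 * sq (Φ t ζ0))) *
          Vel h lam mm (fun x => rho x * w t x) (Φ t ζ0)) (Ici 0) t := by
      exact HasDerivAt.comp_hasDerivWithinAt (h := fun τ => Φ τ ζ0) (h₂ := sq) t hd (hZd t ht)
    exact (Complex.reCLM.hasFDerivAt.comp_hasDerivWithinAt t hd2)
  have key := back_induction (P := fun τ => Φ τ ζ0 ∈ Om h (Real.exp (-xa τ)) (Real.exp (-xb τ)))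
    hT hin ?_ ?_ 0 le_rfl hT
  · simpa only [hS.init ζ0 hζ0] using key
  · -- open
    intro t ht0 htT hP
    obtain ⟨hPS, h1, h2, h3, h4'⟩ := hP
    have ht : 0 ≤ t := ht0.le
    have hne : Φ t ζ0 ≠ 0 := by
      intro e
      rw [e] at h1
      simp at h1
    have hs := hsqc t ht h1.le hne h2.le
    have e1 : ∀ᶠ τ in 𝓝[Ici 0] t, 0 < (Φ τ ζ0).re := (hre t ht).eventually (lt_mem_nhds h1)
    have e2 : ∀ᶠ τ in 𝓝[Ici 0] t, ‖Φ τ ζ0‖ < 1 / 2 := (hno t ht).eventually (gt_mem_nhds h2)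
    have e3 : ∀ᶠ τ in 𝓝[Ici 0] t, Real.exp (-xa τ) < (sq (Φ τ ζ0)).re :=
      Filter.Tendsto.eventually_lt (hea t ht) hs h3
    have e4 : ∀ᶠ τ in 𝓝[Ici 0] t, (sq (Φ τ ζ0)).re < Real.exp (-xb τ) :=
      Filter.Tendsto.eventually_lt hs (heb t ht) h4'
    obtain ⟨ε, hε, hball⟩ := Metric.mem_nhdsWithin_iff.mp (e1.and (e2.and (e3.and e4)))
    refine ⟨ε, hε, fun τ hτ0 hτ1 hτ2 => ?_⟩
    have hmem : τ ∈ ball t ε ∩ Ici 0 := by
      refine ⟨?_, hτ0⟩
      rw [mem_ball, Real.dist_eq, abs_lt]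
      constructor <;> linarith
    obtain ⟨q1, q2, q3, q4⟩ := hball hmem
    exact ⟨hZS τ hτ0, q1, q2, q3, q4⟩
  · -- closed
    intro t ht htT hP
    have hne0 : (𝓝[>] t).NeBot := inferInstance
    have hsub : 𝓝[>] t ≤ 𝓝[Ici 0] t := nhdsWithin_mono t (fun τ hτ => le_trans ht (le_of_lt hτ))
    have hev : ∀ᶠ τ in 𝓝[>] t, t < τ ∧ τ ≤ T := by
      have : Ioc t T ∈ 𝓝[>] t := Ioc_mem_nhdsGT htT
      exact this
    have hevP : ∀ᶠ τ in 𝓝[>] t, Φ τ ζ0 ∈ Om h (Real.exp (-xa τ)) (Real.exp (-xb τ)) :=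
      hev.mono fun τ hτ => hP τ hτ.1 hτ.2
    have tre : Tendsto (fun τ => (Φ τ ζ0).re) (𝓝[>] t) (𝓝 (Φ t ζ0).re) := (hre t ht).mono_left hsub
    have tno : Tendsto (fun τ => ‖Φ τ ζ0‖) (𝓝[>] t) (𝓝 ‖Φ t ζ0‖) := (hno t ht).mono_left hsub
    have ta : Tendsto (fun τ => Real.exp (-xa τ)) (𝓝[>] t) (𝓝 (Real.exp (-xa t))) :=
      (hea t ht).mono_left hsub
    have tb : Tendsto (fun τ => Real.exp (-xb τ)) (𝓝[>] t) (𝓝 (Real.exp (-xb t))) :=
      (heb t ht).mono_left hsub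
    have hre0 : 0 ≤ (Φ t ζ0).re := ge_of_tendsto tre (hevP.mono fun τ hτ => hτ.2.1.le)
    have hno0 : ‖Φ t ζ0‖ ≤ 1 / 2 := le_of_tendsto tno (hevP.mono fun τ hτ => hτ.2.2.1.le)
    have hea0 : 0 < Real.exp (-xa t) := Real.exp_pos _
    have hne : Φ t ζ0 ≠ 0 := by
      intro e
      have hlim : Real.exp (-xa t) ^ 2 ≤ 3 / 5 * ‖Φ t ζ0‖ := by
        refine le_of_tendsto_of_tendsto (ta.pow 2) (tno.const_mul (3 / 5)) ?_
        filter_upwards [hevP] with τ hτ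
        obtain ⟨hτS, q1, q2, q3, q4⟩ := hτ
        have hτne : Φ τ ζ0 ≠ 0 := by
          intro e'
          rw [e'] at q1
          simp at q1
        have hf := sq_facts q1.le hτS.1 hτne q2.le
        have h5 : (sq (Φ τ ζ0)).re ^ 2 ≤ ‖sq (Φ τ ζ0)‖ ^ 2 := by
          rw [← Complex.normSq_eq_norm_sq, Complex.normSq_apply]
          nlinarith [sq_nonneg (sq (Φ τ ζ0)).im]
        have h6 : Real.exp (-xa τ) ^ 2 ≤ (sq (Φ τ ζ0)).re ^ 2 :=
          pow_le_pow_left₀ (Real.exp_pos _).le q3.le 2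
        linarith [hf.2.2.2.2.2]
      rw [e, norm_zero, mul_zero] at hlim
      have := pow_pos hea0 2
      linarith
    have tsq : Tendsto (fun τ => (sq (Φ τ ζ0)).re) (𝓝[>] t) (𝓝 (sq (Φ t ζ0)).re) :=
      (hsqc t ht hre0 hne hno0).mono_left hsub
    have hale : Real.exp (-xa t) ≤ (sq (Φ t ζ0)).re :=
      le_of_tendsto_of_tendsto ta tsq (hevP.mono fun τ hτ => hτ.2.2.2.1.le)
    have hble : (sq (Φ t ζ0)).re ≤ Real.exp (-xb t) :=
      le_of_tendsto_of_tendsto tsq tb (hevP.mono fun τ hτ => hτ.2.2.2.2.le)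
    have hs1s0 : (sq (Φ t ζ0)).re ≤ s0 := hble.trans (hxb0 t ht)
    have hs1pos : 0 < (sq (Φ t ζ0)).re := hea0.trans_le hale
    have hf := sq_facts hre0 (hZS t ht).1 hne hno0
    have hnorm : ‖Φ t ζ0‖ < 1 / 2 := by
      have h5 : ‖sq (Φ t ζ0)‖ ^ 2 = (sq (Φ t ζ0)).re ^ 2 + (sq (Φ t ζ0)).im ^ 2 := by
        rw [← Complex.normSq_eq_norm_sq, Complex.normSq_apply]; ring
      have h6 : (sq (Φ t ζ0)).im ^ 2 ≤ (sq (Φ t ζ0)).re ^ 2 :=
        pow_le_pow_left₀ hf.2.1 hf.2.2.1 2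
      have h7 : (sq (Φ t ζ0)).re ^ 2 ≤ (1 / 4) ^ 2 :=
        pow_le_pow_left₀ hs1pos.le (hs1s0.trans hs1) 2
      have h8 := hf.2.2.2.2.1
      linarith
    have hdens : Dens h (fun x => rho x * w t x) := dens_of_sol hS ht
    have hE1 := E1 _ hdens (Φ t ζ0) (hZS t ht) hne hre0 hno0 hs1s0
    have hrepos : 0 < (Φ t ζ0).re := by
      rcases lt_or_eq_of_le hre0 with h5 | h5
      · exact h5
      · exfalso
        have hd : HasDerivWithinAt (fun τ => (Φ τ ζ0).re)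
            (Vel h lam mm (fun x => rho x * w t x) (Φ t ζ0)).re (Ici 0) t :=
          Complex.reCLM.hasFDerivAt.comp_hasDerivWithinAt t (hZd t ht)
        have h6 := deriv_nonneg_of_pos ht htT h5.symm hd (fun τ h1 h2 => (hP τ h1 h2).2.1)
        have h7 := E2 _ hdens (Φ t ζ0) (hZS t ht) hne (hno0.trans (by norm_num))
        have h8 := mm_pos hre0 (hZS t ht).1 hne hno0
        have h9 : mm (Φ t ζ0) * (C2 - lam) < 0 := mul_neg_of_pos_of_neg h8 (by linarith)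
        linarith
    have hapos : Real.exp (-xa t) < (sq (Φ t ζ0)).re := by
      rcases lt_or_eq_of_le hale with h5 | h5
      · exact h5
      · exfalso
        have hd1 := hsqd t ht hre0 hne hno0
        have hd2 : HasDerivWithinAt (fun τ => Real.exp (-xa τ)) (Real.exp (-xa t) *
            -(Lam h lam (fun y => rho y * w t y) +
              II h (fun y => rho y * w t y) (2 * Real.exp (-xa t) ^ 2) - 2 * En C1 h (xa t)))
            (Ici 0) t := (hxa t ht).neg.exp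
        have h6 := deriv_nonneg_of_pos ht htT (g := fun τ => (sq (Φ τ ζ0)).re - Real.exp (-xa τ))
          (by simp only [h5, sub_self]) (hd1.sub hd2)
          (fun τ h1 h2 => sub_pos.mpr (hP τ h1 h2).2.2.2.1)
        rw [← h5] at hE1
        rw [En_eq hh] at hE1
        have h7 := (abs_le.mp hE1).1
        have h8 := En_pos (h := h) hC1 hh (xa t)
        set R := ((1 + sq (Φ t ζ0) ^ 4) / (4 * sq (Φ t ζ0)) *
          Vel h lam mm (fun x => rho x * w t x) (Φ t ζ0)).re with hR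
        set A := Real.exp (-xa t) with hA
        have h9 : R ≤ -A * (Lam h lam (fun x => rho x * w t x) +
            II h (fun x => rho x * w t x) (2 * A ^ 2) - En C1 h (xa t)) := by
          have h10 : Lam h lam (fun x => rho x * w t x) +
            II h (fun x => rho x * w t x) (2 * A ^ 2) - En C1 h (xa t) ≤ -R / A := by linarith
          rw [le_div_iff₀ hea0] at h10
          linarith
        nlinarith [mul_pos hea0 h8]
    have hbpos : (sq (Φ t ζ0)).re < Real.exp (-xb t) := by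
      rcases lt_or_eq_of_le hble with h5 | h5
      · exact h5
      · exfalso
        have hd1 := hsqd t ht hre0 hne hno0
        have hd2 : HasDerivWithinAt (fun τ => Real.exp (-xb τ)) (Real.exp (-xb t) *
            -(Lam h lam (fun y => rho y * w t y) +
              II h (fun y => rho y * w t y) (2 * Real.exp (-xb t) ^ 2) + 2 * En C1 h (xb t)))
            (Ici 0) t := (hxb t ht).neg.exp
        have h6 := deriv_nonneg_of_pos ht htT (g := fun τ => Real.exp (-xb τ) - (sq (Φ τ ζ0)).re)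
          (by simp only [h5, sub_self]) (hd2.sub hd1)
          (fun τ h1 h2 => sub_pos.mpr (hP τ h1 h2).2.2.2.2)
        rw [h5] at hE1
        rw [En_eq hh] at hE1
        have h7 := (abs_le.mp hE1).2
        have h8 := En_pos (h := h) hC1 hh (xb t)
        have heb0 : 0 < Real.exp (-xb t) := Real.exp_pos _
        set R := ((1 + sq (Φ t ζ0) ^ 4) / (4 * sq (Φ t ζ0)) *
          Vel h lam mm (fun x => rho x * w t x) (Φ t ζ0)).re with hR
        set A := Real.exp (-xb t) with hA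
        have h9 : -R ≤ A * (Lam h lam (fun x => rho x * w t x) +
            II h (fun x => rho x * w t x) (2 * A ^ 2) + En C1 h (xb t)) := by
          have h10 : -R / A ≤ Lam h lam (fun x => rho x * w t x) +
            II h (fun x => rho x * w t x) (2 * A ^ 2) + En C1 h (xb t) := by linarith
          rw [div_le_iff₀ heb0] at h10
          linarith
        nlinarith [mul_pos heb0 h8]
    exact ⟨hZS t ht, hrepos, hnorm, hapos, hbpos⟩

end Pool.Agent.EAC.PartK
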