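import Pool.Agent.EAC.KEn
import Pool.Agent.EAC.KInd

/-!
# EAC-K24: the growth lemma

`F = xa - xb`, `pot x = log (1 + h e^{2x}) - 2 e^{-x/2}`, `pot' = En 1 h` (`hasDerivAt_pot`), `En C1 h = C1 * En 1 h`.
`ψ = F + (4 C1/lam) (pot xa + pot xb)`: while `F ≥ 0`, `ψ' ≥ -2En(xa) - 2En(xb) + (4/lam) (En(xa) ya + En(xb) yb) ≥ 0` (`ya, yb ≥ lam/2`).

(Phase 1) if `F ≥ 0` on `[0,t]` and `h e^{2 xb t} ≤ 1` then `F t > F0/2`: `ψ t ≥ ψ 0`, `pot (xa 0), pot (xb 0) ≥ -2` (as `xb 0 ≥ 0`,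
`xa 0 ≥ 0`), `pot (xb t) ≤ log 2`, `pot (xa t) ≤ log (1 + h e^{2 xb t} e^{2F}) ≤ log (1 + e^{2F}) ≤ 2F + log 2`, `4 C1/lam ≤ 1/4`:
`F (1 + 1/2) + (1/2) log 2 ≥ F0 - 1`, so `F ≥ (F0 - 1.35)/1.5 > F0/2` for `F0 ≥ 6`.

(Phase 2) `M = log 16/2 + 6 C1/c` : while `F > 0` and `h e^{2 xb} ≥ 1`: `F' ≥ c (2F - log 16) - 12 C1 = 2c (F - M)` (`En_le`), `F0/2 ≥ M + 1`.

`F > F0/2` for all `t ≥ 0` by `fwd_induction` (closedness: if `h e^{2 xb t} ≤ 1` use phase 1; otherwise let `t1 ≤ t` with `h e^{2 xb t1} = 1`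
(intermediate value theorem), `F t1 > F0/2` by phase 1 and `F` is nondecreasing on `[t1,t]` by phase 2).
`xb → ∞` (`xb' ≥ lam/2`), so there is `t1 ≥ 0` with `h e^{2 xb t1} = 1` (or `≥ 1`); `xb` is increasing; for `t ≥ t1`
`(F - M) e^{-2ct}` is nondecreasing: `F t - M ≥ e^{2c(t-t1)}`; for `t ≤ t1`: `F ≥ F0/2 ≥ 1 ≥ e^{2c(t-t1)}`.
-/

set_option autoImplicit false

noncomputable section

namespace Pool.Agent.EAC.PartK

open Set Filter Topology Metric

private theorem mono_aux {f f' : ℝ → ℝ} {a b : ℝ} (ha : 0 ≤ a) (hab : a ≤ b)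
    (hf : ∀ t, 0 ≤ t → HasDerivWithinAt f (f' t) (Ici 0) t)
    (h : ∀ t, a ≤ t → t ≤ b → 0 ≤ f' t) : f a ≤ f b := by
  have hd : ∀ t, 0 < t → HasDerivAt f (f' t) t := fun t ht =>
    (hf t ht.le).hasDerivAt (Ici_mem_nhds ht)
  have hm : MonotoneOn f (Icc a b) := by
    apply monotoneOn_of_deriv_nonneg (convex_Icc a b)
    · intro t ht
      exact (hf t (ha.trans ht.1)).continuousWithinAt.mono (fun x hx => ha.trans hx.1)
    · intro t ht
      rw [interior_Icc] at ht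
      exact (hd t (ha.trans_lt ht.1)).differentiableAt.differentiableWithinAt
    · intro t ht
      rw [interior_Icc] at ht
      rw [(hd t (ha.trans_lt ht.1)).deriv]
      exact h t ht.1.le ht.2.le
  exact hm ⟨le_rfl, hab⟩ ⟨hab, le_rfl⟩ hab

private theorem En_scale (C h x : ℝ) : En C h x = C * En 1 h x := by
  unfold En; ring

private def pot (h x : ℝ) : ℝ := Real.log (1 + h * Real.exp (2 * x)) - 2 * Real.exp (-x / 2)

private theorem pot_ge {h x : ℝ} (hh : 0 < h) (hx : 0 ≤ x) : -2 ≤ pot h x := by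
  unfold pot
  have h1 : 0 ≤ Real.log (1 + h * Real.exp (2 * x)) := by
    apply Real.log_nonneg
    have := mul_pos hh (Real.exp_pos (2 * x))
    linarith
  have h2 : Real.exp (-x / 2) ≤ 1 := by
    rw [Real.exp_le_one_iff]; linarith
  linarith

private theorem pot_le_one {h x : ℝ} (hh : 0 < h) (hx : h * Real.exp (2 * x) ≤ 1) :
    pot h x ≤ Real.log 2 := by
  unfold pot
  have h1 : Real.log (1 + h * Real.exp (2 * x)) ≤ Real.log 2 := by
    apply Real.log_le_log
    · have := mul_pos hh (Real.exp_pos (2 * x))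
      linarith
    · linarith
  have h2 : 0 < Real.exp (-x / 2) := Real.exp_pos _
  linarith

private theorem pot_le_two {h x y : ℝ} (hh : 0 < h) (hy : h * Real.exp (2 * y) ≤ 1)
    (hF : 0 ≤ x - y) : pot h x ≤ 2 * (x - y) + Real.log 2 := by
  unfold pot
  have e : h * Real.exp (2 * x) = h * Real.exp (2 * y) * Real.exp (2 * (x - y)) := by
    rw [mul_assoc, ← Real.exp_add]; congr 2; ring
  have h0 : 1 ≤ Real.exp (2 * (x - y)) := Real.one_le_exp (by linarith)
  have h3 : h * Real.exp (2 * x) ≤ Real.exp (2 * (x - y)) := by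
    rw [e]
    calc _ ≤ 1 * Real.exp (2 * (x - y)) := mul_le_mul_of_nonneg_right hy (Real.exp_pos _).le
      _ = _ := one_mul _
  have h1 : Real.log (1 + h * Real.exp (2 * x)) ≤ Real.log (2 * Real.exp (2 * (x - y))) := by
    apply Real.log_le_log
    · have := mul_pos hh (Real.exp_pos (2 * x))
      linarith
    · linarith
  rw [Real.log_mul (by norm_num) (Real.exp_pos _).ne', Real.log_exp] at h1
  have h2 : 0 < Real.exp (-x / 2) := Real.exp_pos _
  linarith

/-- phase 1 -/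
private theorem phase1 {C1 lam h F0 : ℝ} (hC1 : 0 < C1) (hlam : 16 * C1 ≤ lam) (hh : 0 < h)
    (hF6 : 6 ≤ F0)
    {xa xb ya yb : ℝ → ℝ} (hxa : ∀ t, 0 ≤ t → HasDerivWithinAt xa (ya t) (Ici 0) t)
    (hxb : ∀ t, 0 ≤ t → HasDerivWithinAt xb (yb t) (Ici 0) t)
    (hya : ∀ t, 0 ≤ t → lam / 2 ≤ ya t) (hyb : ∀ t, 0 ≤ t → lam / 2 ≤ yb t)
    (h0 : xa 0 - xb 0 = F0) (hb0 : 0 ≤ xb 0)
    (H1 : ∀ t, 0 ≤ t → 0 ≤ xa t - xb t →
      -2 * En C1 h (xa t) - 2 * En C1 h (xb t) ≤ ya t - yb t)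
    {t : ℝ} (ht : 0 ≤ t) (hF : ∀ τ, 0 ≤ τ → τ ≤ t → 0 ≤ xa τ - xb τ)
    (hb : h * Real.exp (2 * xb t) ≤ 1) : F0 / 2 < xa t - xb t := by
  have hlam0 : 0 < lam := by linarith
  set k := 4 * C1 / lam with hk
  have hk0 : 0 < k := by positivity
  have hk1 : k ≤ 1 / 4 := by
    rw [hk, div_le_iff₀ hlam0]; linarith
  have hklam : k * lam = 4 * C1 := by rw [hk]; field_simp
  have hpsi : ∀ τ, 0 ≤ τ → HasDerivWithinAt
      (fun τ => (xa τ - xb τ) + k * (pot h (xa τ) + pot h (xb τ)))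
      ((ya τ - yb τ) + k * (En 1 h (xa τ) * ya τ + En 1 h (xb τ) * yb τ)) (Ici 0) τ := by
    intro τ hτ
    have p1 : HasDerivWithinAt (fun τ => pot h (xa τ)) (En 1 h (xa τ) * ya τ) (Ici 0) τ :=
      (hasDerivAt_pot hh (xa τ)).comp_hasDerivWithinAt τ (hxa τ hτ)
    have p2 : HasDerivWithinAt (fun τ => pot h (xb τ)) (En 1 h (xb τ) * yb τ) (Ici 0) τ :=
      (hasDerivAt_pot hh (xb τ)).comp_hasDerivWithinAt τ (hxb τ hτ)
    exact ((hxa τ hτ).sub (hxb τ hτ)).add ((p1.add p2).const_mul k)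
  have hmono := mono_aux le_rfl ht hpsi (by
    intro τ hτ0 hτ
    have e1 := H1 τ hτ0 (hF τ hτ0 hτ)
    rw [En_scale C1 h (xa τ), En_scale C1 h (xb τ)] at e1
    have a1 := En_pos one_pos hh (xa τ)
    have a2 := En_pos one_pos hh (xb τ)
    have b1 : k * (En 1 h (xa τ) * (lam / 2)) ≤ k * (En 1 h (xa τ) * ya τ) :=
      mul_le_mul_of_nonneg_left (mul_le_mul_of_nonneg_left (hya τ hτ0) a1.le) hk0.le
    have b2 : k * (En 1 h (xb τ) * (lam / 2)) ≤ k * (En 1 h (xb τ) * yb τ) :=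
      mul_le_mul_of_nonneg_left (mul_le_mul_of_nonneg_left (hyb τ hτ0) a2.le) hk0.le
    have c1 : k * (En 1 h (xa τ) * (lam / 2)) = 2 * (C1 * En 1 h (xa τ)) := by
      calc _ = (k * lam) / 2 * En 1 h (xa τ) := by ring
        _ = _ := by rw [hklam]; ring
    have c2 : k * (En 1 h (xb τ) * (lam / 2)) = 2 * (C1 * En 1 h (xb τ)) := by
      calc _ = (k * lam) / 2 * En 1 h (xb τ) := by ring
        _ = _ := by rw [hklam]; ring
    linarith)
  rw [h0] at hmono
  have hxa0 : 0 ≤ xa 0 := by linarith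
  have q1 := pot_ge hh hxa0
  have q2 := pot_ge hh hb0
  have q3 := pot_le_one hh hb
  have hFt := hF t ht le_rfl
  have q4 := pot_le_two hh hb hFt
  have hlog : Real.log 2 < 7 / 10 := by
    have := Real.log_two_lt_d9; linarith
  have hlog0 : 0 < Real.log 2 := Real.log_pos (by norm_num)
  have r1 : k * (pot h (xa 0) + pot h (xb 0)) ≥ -1 := by nlinarith
  have r2 : k * (pot h (xa t) + pot h (xb t)) ≤ 1 / 4 * (2 * (xa t - xb t) + 2 * Real.log 2) := by
    calc _ ≤ k * (2 * (xa t - xb t) + 2 * Real.log 2) := by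
          apply mul_le_mul_of_nonneg_left _ hk0.le
          linarith
      _ ≤ _ := by
          apply mul_le_mul_of_nonneg_right hk1
          linarith
  linarith

theorem growth {C1 lam c h F0 : ℝ} (hC1 : 0 < C1) (hlam : 16 * C1 ≤ lam) (hc : 0 < c) (hh : 0 < h)
    (hF6 : 6 ≤ F0) (hF0 : 2 * (Real.log 16 / 2 + 6 * C1 / c + 1) ≤ F0)
    {xa xb ya yb : ℝ → ℝ} (hxa : ∀ t, 0 ≤ t → HasDerivWithinAt xa (ya t) (Ici 0) t)
    (hxb : ∀ t, 0 ≤ t → HasDerivWithinAt xb (yb t) (Ici 0) t)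
    (hya : ∀ t, 0 ≤ t → lam / 2 ≤ ya t) (hyb : ∀ t, 0 ≤ t → lam / 2 ≤ yb t)
    (h0 : xa 0 - xb 0 = F0) (hb0 : 0 ≤ xb 0) (hb1 : h * Real.exp (2 * xb 0) ≤ 1)
    (H1 : ∀ t, 0 ≤ t → 0 ≤ xa t - xb t →
      -2 * En C1 h (xa t) - 2 * En C1 h (xb t) ≤ ya t - yb t)
    (H2 : ∀ t, 0 ≤ t → 0 < xa t - xb t → 1 ≤ h * Real.exp (2 * xb t) →
      c * (2 * (xa t - xb t) - Real.log 16) - 2 * En C1 h (xa t) - 2 * En C1 h (xb t) ≤ ya t - yb t) :
    ∃ t1 ≥ 0, ∀ t, 0 ≤ t → Real.exp (2 * c * (t - t1)) ≤ xa t - xb t ∧ 1 ≤ xa t - xb t := by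
  have hlam0 : 0 < lam := by linarith
  set M := Real.log 16 / 2 + 6 * C1 / c with hM
  have hM0 : 0 < M := by
    have : 0 < Real.log 16 := Real.log_pos (by norm_num)
    positivity
  have hFM : M + 1 ≤ F0 / 2 := by linarith
  have hFd : ∀ t, 0 ≤ t → HasDerivWithinAt (fun t => xa t - xb t) (ya t - yb t) (Ici 0) t :=
    fun t ht => (hxa t ht).sub (hxb t ht)
  have hxbm : ∀ a b, 0 ≤ a → a ≤ b → xb a ≤ xb b := fun a b ha hab =>
    mono_aux ha hab hxb (fun t h1 _ => by linarith [hyb t (ha.trans h1)])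
  have hxam : ∀ a b, 0 ≤ a → a ≤ b → xa a ≤ xa b := fun a b ha hab =>
    mono_aux ha hab hxa (fun t h1 _ => by linarith [hya t (ha.trans h1)])
  have hxb0 : ∀ t, 0 ≤ t → 0 ≤ xb t := fun t ht => hb0.trans (hxbm 0 t le_rfl ht)
  have hxa0 : ∀ t, 0 ≤ t → 0 ≤ xa t := fun t ht => by
    have := hxam 0 t le_rfl ht
    linarith
  -- phase 2
  have hph2 : ∀ t, 0 ≤ t → 0 < xa t - xb t → 1 ≤ h * Real.exp (2 * xb t) →
      2 * c * ((xa t - xb t) - M) ≤ ya t - yb t := by
    intro t ht hF hb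
    have e1 := H2 t ht hF hb
    have e2 := En_le hC1 hh (hxa0 t ht)
    have e3 := En_le hC1 hh (hxb0 t ht)
    have e4 : 2 * c * ((xa t - xb t) - M)
        = c * (2 * (xa t - xb t) - Real.log 16) - 12 * C1 := by
      rw [hM]; field_simp; ring
    linarith
  have hcont : ∀ t, 0 ≤ t → ContinuousWithinAt (fun t => xa t - xb t) (Ici 0) t :=
    fun t ht => (hFd t ht).continuousWithinAt
  have hmain : ∀ t, 0 ≤ t → F0 / 2 < xa t - xb t := by
    apply fwd_induction
    · rw [h0]; linarith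
    · intro t ht hP
      have h1 := (hcont t ht).eventually (lt_mem_nhds hP)
      rw [eventually_nhdsWithin_iff, Metric.eventually_nhds_iff] at h1
      obtain ⟨ε, hε, h2⟩ := h1
      refine ⟨ε, hε, fun τ hτ1 hτ2 => h2 ?_ (ht.trans hτ1)⟩
      rw [Real.dist_eq, abs_of_nonneg (by linarith)]
      linarith
    · intro t ht hP
      have hge : F0 / 2 ≤ xa t - xb t := by
        have h1 : Tendsto (fun t => xa t - xb t) (𝓝[<] t) (𝓝 (xa t - xb t)) :=
          ((hFd t ht.le).hasDerivAt (Ici_mem_nhds ht)).continuousAt.tendsto.mono_left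
            nhdsWithin_le_nhds
        apply ge_of_tendsto h1
        filter_upwards [Ioo_mem_nhdsLT ht] with τ hτ
        exact (hP τ hτ.1.le hτ.2).le
      have hall : ∀ τ, 0 ≤ τ → τ ≤ t → F0 / 2 ≤ xa τ - xb τ := by
        intro τ h1 h2
        rcases h2.eq_or_lt with h3 | h3
        · rw [h3]; exact hge
        · exact (hP τ h1 h3).le
      rcases le_total (h * Real.exp (2 * xb t)) 1 with hb | hb
      · exact phase1 hC1 hlam hh hF6 hxa hxb hya hyb h0 hb0 H1 ht.le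
          (fun τ h1 h2 => by linarith [hall τ h1 h2]) hb
      · have hxc : ContinuousOn (fun τ => h * Real.exp (2 * xb τ)) (Icc 0 t) := by
          intro τ hτ
          have h1 : ContinuousWithinAt xb (Icc 0 t) τ :=
            (hxb τ hτ.1).continuousWithinAt.mono (fun x hx => hx.1)
          exact ((h1.const_mul 2).rexp).const_mul h
        obtain ⟨t1, ht1, ht1e⟩ := intermediate_value_Icc ht.le hxc ⟨hb1, hb⟩
        have ht1e' : h * Real.exp (2 * xb t1) = 1 := ht1e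
        have hF1 := phase1 hC1 hlam hh hF6 hxa hxb hya hyb h0 hb0 H1 ht1.1
          (fun τ h1 h2 => by linarith [hall τ h1 (h2.trans ht1.2)]) ht1e'.le
        have hm := mono_aux ht1.1 ht1.2 hFd (by
          intro τ h1 h2
          have hτ0 : 0 ≤ τ := ht1.1.trans h1
          have h3 := hall τ hτ0 h2
          have h4 : 1 ≤ h * Real.exp (2 * xb τ) := by
            rw [← ht1e']
            apply mul_le_mul_of_nonneg_left _ hh.le
            apply Real.exp_le_exp.2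
            linarith [hxbm t1 τ ht1.1 h1]
          have h5 := hph2 τ hτ0 (by linarith) h4
          have h6 : 0 ≤ 2 * c * ((xa τ - xb τ) - M) := by
            apply mul_nonneg (by positivity); linarith
          linarith)
        linarith
  -- the time `t1`
  have hgrow : ∀ t, 0 ≤ t → lam / 2 * t ≤ xb t := by
    intro t ht
    have hd : ∀ τ, 0 ≤ τ → HasDerivWithinAt (fun τ => xb τ - lam / 2 * τ) (yb τ - lam / 2)
        (Ici 0) τ := by
      intro τ hτ
      have h1 : HasDerivWithinAt (fun τ : ℝ => lam / 2 * τ) (lam / 2) (Ici 0) τ := by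
        simpa using ((hasDerivAt_id τ).const_mul (lam / 2)).hasDerivWithinAt
      exact (hxb τ hτ).sub h1
    have hm := mono_aux le_rfl ht hd (fun τ h1 _ => by linarith [hyb τ h1])
    linarith
  set t1 := max 0 (-Real.log h / lam) with ht1
  have ht10 : 0 ≤ t1 := le_max_left _ _
  have hbig : ∀ t, t1 ≤ t → 1 ≤ h * Real.exp (2 * xb t) := by
    intro t ht
    have h1 : -Real.log h / lam ≤ t := (le_max_right _ _).trans ht
    rw [div_le_iff₀ hlam0] at h1
    have h2 := hgrow t (ht10.trans ht)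
    have h3 : -Real.log h ≤ 2 * xb t := by linarith
    calc (1 : ℝ) = h * Real.exp (-Real.log h) := by
          rw [Real.exp_neg, Real.exp_log hh, mul_inv_cancel₀ hh.ne']
      _ ≤ h * Real.exp (2 * xb t) := mul_le_mul_of_nonneg_left (Real.exp_le_exp.2 h3) hh.le
  refine ⟨t1, ht10, fun t ht => ⟨?_, by linarith [hmain t ht]⟩⟩
  rcases le_total t t1 with hle | hle
  · have h1 : Real.exp (2 * c * (t - t1)) ≤ 1 := by
      rw [Real.exp_le_one_iff]
      have : 0 ≤ 2 * c * (t1 - t) := mul_nonneg (by positivity) (by linarith)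
      linarith
    linarith [hmain t ht]
  · have hd : ∀ τ, 0 ≤ τ → HasDerivWithinAt
        (fun τ => ((xa τ - xb τ) - M) * Real.exp (-(2 * c) * τ))
        ((ya τ - yb τ) * Real.exp (-(2 * c) * τ)
          + ((xa τ - xb τ) - M) * (Real.exp (-(2 * c) * τ) * (-(2 * c)))) (Ici 0) τ := by
      intro τ hτ
      have h1 : HasDerivWithinAt (fun τ : ℝ => Real.exp (-(2 * c) * τ))
          (Real.exp (-(2 * c) * τ) * (-(2 * c))) (Ici 0) τ := by
        have := (((hasDerivAt_id τ).const_mul (-(2 * c))).exp).hasDerivWithinAt (s := Ici 0)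
        simpa using this
      exact ((hFd τ hτ).sub_const M).mul h1
    have hm := mono_aux ht10 hle hd (by
      intro τ h1 h2
      have hτ0 : 0 ≤ τ := ht10.trans h1
      have h3 := hmain τ hτ0
      have h4 := hph2 τ hτ0 (by linarith) (hbig τ h1)
      have h5 := Real.exp_pos (-(2 * c) * τ)
      have e : (ya τ - yb τ) * Real.exp (-(2 * c) * τ)
          + ((xa τ - xb τ) - M) * (Real.exp (-(2 * c) * τ) * (-(2 * c)))
          = ((ya τ - yb τ) - 2 * c * ((xa τ - xb τ) - M)) * Real.exp (-(2 * c) * τ) := by ring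
      rw [e]
      exact mul_nonneg (by linarith) h5.le)
    have h6 : 1 ≤ (xa t1 - xb t1) - M := by linarith [hmain t1 ht10]
    have h7 : Real.exp (-(2 * c) * t1) ≤ ((xa t - xb t) - M) * Real.exp (-(2 * c) * t) := by
      have := mul_le_mul_of_nonneg_right h6 (Real.exp_pos (-(2 * c) * t1)).le
      linarith
    have h8 : Real.exp (2 * c * (t - t1)) ≤ (xa t - xb t) - M := by
      have e1 : Real.exp (2 * c * (t - t1))
          = Real.exp (-(2 * c) * t1) * Real.exp (2 * c * t) := by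
        rw [← Real.exp_add]; congr 1; ring
      have e2 : ((xa t - xb t) - M) = ((xa t - xb t) - M) * Real.exp (-(2 * c) * t)
          * Real.exp (2 * c * t) := by
        rw [mul_assoc, ← Real.exp_add]
        have : -(2 * c) * t + 2 * c * t = 0 := by ring
        rw [this, Real.exp_zero, mul_one]
      rw [e1, e2]
      exact mul_le_mul_of_nonneg_right h7 (Real.exp_pos _).le
    linarith

end Pool.Agent.EAC.PartK
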