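import Pool.Agent.EAC.KDefs

/-!
# EAC-K25: the initial vorticity

`w0 ζ = Real.smoothTransition (sin (re ζ)/d - 1)`.
-/

set_option autoImplicit false

noncomputable section

namespace Pool.Agent.EAC.PartK

open Set Filter Topology Metric

theorem w0_exists {d : ℝ} (hd : 0 < d) :
    ∃ w0, NiceInit w0 ∧ ∀ ζ : ℂ, 2 * d ≤ Real.sin ζ.re → w0 ζ = 1 := by
  refine ⟨fun ζ => Real.smoothTransition (Real.sin ζ.re / d - 1), ⟨?_, ?_, ?_, ?_, ?_⟩, ?_⟩
  · have h1 : ContDiff ℝ (⊤ : ℕ∞) (fun ζ : ℂ => ζ.re) := Complex.reCLM.contDiff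
    have h2 : ContDiff ℝ (⊤ : ℕ∞) (fun ζ : ℂ => Real.sin ζ.re / d - 1) :=
      ((Real.contDiff_sin.comp h1).div_const d).sub contDiff_const
    exact Real.smoothTransition.contDiff.comp h2
  · intro ζ
    have : (ζ + 2 * Real.pi).re = ζ.re + 2 * Real.pi := by simp
    simp only [this, Real.sin_add_two_pi]
  · intro ζ
    simp
  · intro ζ
    exact ⟨Real.smoothTransition.nonneg _, Real.smoothTransition.le_one _⟩
  · refine ⟨d, hd, fun ζ h => ?_⟩
    by_contra hn
    push Not at hn
    apply h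
    apply Real.smoothTransition.zero_of_nonpos
    have : Real.sin ζ.re / d ≤ 1 := (div_le_one hd).mpr hn.le
    linarith
  · intro ζ h
    apply Real.smoothTransition.one_of_one_le
    have : 2 ≤ Real.sin ζ.re / d := by
      rw [le_div_iff₀ hd]
      exact h
    linarith

end Pool.Agent.EAC.PartK
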