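import Pool.Agent.EAC.KWedge
import Pool.Agent.EAC.KBarrier
import Pool.Agent.EAC.KAB
import Pool.Agent.EAC.KGrowth
import Pool.Agent.EAC.KW0

/-!
# EAC-K26: assembly of PART K (helper10)
-/

set_option autoImplicit false

noncomputable section

namespace Pool.Agent.EAC.PartK

open MeasureTheory Set Filter Topology Metric

/-- In the wedge `Om h a b` the coordinate `X = re ζ` is `≥ (2/3) a²` when `h ≤ a²`. -/
theorem Om_re_ge {h a b : ℝ} (ha : 0 < a) (hh : h ≤ a ^ 2) {ζ : ℂ} (hζ : ζ ∈ Om h a b) :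
    2 / 3 * a ^ 2 ≤ ζ.re ∧ a ≤ ‖sq ζ‖ := by
  obtain ⟨hS, hre, hn, h1, h2⟩ := hζ
  have h0 : ζ ≠ 0 := by
    rintro rfl
    simp at hre
  obtain ⟨e1, e2, e3, e4, e5, e6⟩ := sq_facts hre.le hS.1 h0 hn.le
  have h3 : a ≤ ‖sq ζ‖ := h1.le.trans (Complex.re_le_norm _)
  have h4 : a ^ 2 ≤ ‖sq ζ‖ ^ 2 := by
    apply pow_le_pow_left₀ ha.le h3
  have h5 : ‖ζ‖ ≤ ζ.re + ζ.im := by
    have := Complex.norm_le_abs_re_add_abs_im ζ
    rwa [abs_of_pos hre, abs_of_nonneg hS.1] at this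
  have h6 : ζ.im ≤ h := hS.2
  refine ⟨by linarith, h3⟩

theorem w_one {h a : ℝ} (ha : 0 < a) (hh : h ≤ a ^ 2) {b : ℝ} {w0 : ℂ → ℝ}
    (hw : ∀ ζ : ℂ, 2 * (a ^ 2 / 8) ≤ Real.sin ζ.re → w0 ζ = 1) {ζ : ℂ} (hζ : ζ ∈ Om h a b) :
    w0 ζ = 1 := by
  apply hw
  have h1 := (Om_re_ge ha hh hζ).1
  obtain ⟨hS, hre, hn, -, -⟩ := hζ
  have h2 : ζ.re ≤ 1 / 2 := (Complex.re_le_norm _).trans hn.le
  have h3 : 2 / Real.pi * ζ.re ≤ Real.sin ζ.re := by
    apply Real.mul_le_sin hre.le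
    have := Real.pi_gt_three
    linarith
  have h4 : (1 : ℝ) / 2 ≤ 2 / Real.pi := by
    rw [div_le_div_iff₀ (by norm_num) Real.pi_pos]
    have := Real.pi_le_four
    linarith
  have h5 : 1 / 2 * ζ.re ≤ 2 / Real.pi * ζ.re := mul_le_mul_of_nonneg_right h4 hre.le
  nlinarith [sq_nonneg a]

theorem K_final' :
    ∃ lam > 0, ∃ w0, NiceInit w0 ∧ ∃ c > 0, ∃ h0 > 0, ∃ δ > 0, ∀ h, 0 < h → h ≤ h0 →
      ∀ w Φ, StripSol h lam w Φ → (∀ ζ ∈ S h, w 0 ζ = w0 ζ) →
        ∃ C > 0, ∀ t, 0 ≤ t → ∃ ζ ∈ S h, δ ≤ ‖Zi ζ - 1‖ ∧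
          ‖Zi (Φ t ζ) - 1‖ ≤ Real.exp (C - Real.exp (c * t) / C) := by
  obtain ⟨C1, hC1, hE1⟩ := s_est
  obtain ⟨C2, hC2, hE2⟩ := Vel_re_diag
  obtain ⟨c, hc, hW⟩ := II_wedge
  obtain ⟨lam, hlam⟩ : ∃ lam : ℝ, lam = 16 * C1 + C2 + 1 := ⟨_, rfl⟩
  have hlam0 : 0 < lam := by rw [hlam]; positivity
  obtain ⟨s0, hs0, hs1, hE1'⟩ := hE1 lam hlam0
  obtain ⟨F0, hF0⟩ : ∃ F0 : ℝ, F0 = max 6 (2 * (Real.log 16 / 2 + 6 * C1 / c + 1)) := ⟨_, rfl⟩
  have hF6 : 6 ≤ F0 := hF0 ▸ le_max_left _ _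
  have hF7 : 2 * (Real.log 16 / 2 + 6 * C1 / c + 1) ≤ F0 := hF0 ▸ le_max_right _ _
  obtain ⟨a0, ha0⟩ : ∃ a0 : ℝ, a0 = s0 * Real.exp (-F0) := ⟨_, rfl⟩
  have ha0p : 0 < a0 := by rw [ha0]; positivity
  have ha0s : a0 ≤ s0 := by
    rw [ha0]
    have : Real.exp (-F0) ≤ 1 := Real.exp_le_one_iff.mpr (by linarith)
    nlinarith
  obtain ⟨w0, hw0, hw1⟩ := w0_exists (d := a0 ^ 2 / 8) (by positivity)
  refine ⟨lam, hlam0, w0, hw0, 2 * c, by positivity, min (1 / 4) (a0 ^ 2), by positivity, a0, ha0p, ?_⟩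
  intro h hh hle w Φ hS hw
  have h4 : h ≤ 1 / 4 := hle.trans (min_le_left _ _)
  have ha : h ≤ a0 ^ 2 := hle.trans (min_le_right _ _)
  have hlog : Real.log 4 ≤ -Real.log s0 := by
    rw [← Real.log_inv]
    apply Real.log_le_log (by norm_num)
    rw [le_inv_comm₀ (by norm_num) hs0]
    linarith
  have hl4 : (0 : ℝ) < Real.log 4 := Real.log_pos (by norm_num)
  obtain ⟨xa, hxa0, hxam, hxa⟩ := ab_exists hh h4 hS hC1 (by linarith) hlog
    (x0 := -Real.log s0 + F0) (by linarith) (σ := 1) (by simp)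
  obtain ⟨xb, hxb0, hxbm, hxb⟩ := ab_exists hh h4 hS hC1 (by linarith) hlog
    (x0 := -Real.log s0) le_rfl (σ := -1) (by simp)
  have es0 : Real.exp (- -Real.log s0) = s0 := by rw [neg_neg, Real.exp_log hs0]
  have ea0 : Real.exp (-(-Real.log s0 + F0)) = a0 := by
    rw [neg_add, neg_neg, Real.exp_add, Real.exp_log hs0, ha0]
  have hexa : ∀ t, 0 ≤ t → Real.exp (-xa t) ≤ a0 := fun t ht => by
    rw [← ea0]; exact Real.exp_le_exp.mpr (by linarith [hxam t ht])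
  have hexb : ∀ t, 0 ≤ t → Real.exp (-xb t) ≤ s0 := fun t ht => by
    rw [← es0]; exact Real.exp_le_exp.mpr (by linarith [hxbm t ht])
  have hbar := fun {T : ℝ} (hT : 0 ≤ T) {ζ0 : ℂ} (hζ0 : ζ0 ∈ S h)
      (hin : Φ T ζ0 ∈ Om h (Real.exp (-xa T)) (Real.exp (-xb T))) =>
    wedge_barrier hh h4 hS hC1 hs0 hs1 (C2 := C2) (by rw [hlam]; linarith)
      (fun f hf ζ hζ h0 h1 => hE2 h hh h4 f hf lam hlam0 ζ hζ h0 h1)
      (fun f hf ζ hζ h0 h1 h2 h3 => hE1' h hh h4 f hf ζ hζ h0 h1 h2 h3)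
      (fun t ht => (hexa t ht).trans ha0s) hexb
      (fun t ht => by simpa using hxa t ht)
      (fun t ht => by
        have := hxb t ht
        have e : (2 : ℝ) * (-1) * En C1 h (xb t) = -(2 * En C1 h (xb t)) := by ring
        rwa [e, sub_neg_eq_add] at this) hT hζ0 hin
  rw [hxa0, hxb0, ea0, es0] at hbar
  -- the vorticity is `1` on the wedge
  have hone : ∀ t, 0 ≤ t → ∀ ζ ∈ Om h (Real.exp (-xa t)) (Real.exp (-xb t)),
      ∃ ζ0 ∈ S h, ζ0 ∈ Om h a0 s0 ∧ Φ t ζ0 = ζ ∧ w t ζ = 1 := by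
    intro t ht ζ hζ
    obtain ⟨ζ0, hζ0, he⟩ := (hS.bij t ht).surjOn hζ.1
    have h1 := hbar ht hζ0 (by rw [he]; exact hζ)
    refine ⟨ζ0, hζ0, h1, he, ?_⟩
    rw [← he, hS.cons t ht ζ0 hζ0, hw ζ0 hζ0]
    exact w_one ha0p ha hw1 h1
  set f : ℝ → ℂ → ℝ := fun t y => rho y * w t y with hf
  have hD : ∀ t, 0 ≤ t → Dens h (f t) := fun t ht => dens_of_sol hS ht
  have hgr := growth (C1 := C1) (lam := lam) (c := c) (h := h) (F0 := F0) hC1 (by linarith) hc hh
    hF6 hF7 (xa := xa) (xb := xb) hxa hxb ?_ ?_ (by rw [hxa0, hxb0]; ring)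
    (by rw [hxb0]; linarith) ?_ ?_ ?_
  · obtain ⟨t1, ht1, hg⟩ := hgr
    refine ⟨max (Real.log 4) (Real.exp (2 * c * t1)), lt_max_of_lt_left hl4, fun t ht => ?_⟩
    obtain ⟨hg1, hg2⟩ := hg t ht
    set A := Real.exp (-xa t) with hA
    have hApos : 0 < A := Real.exp_pos _
    have hAa : A ≤ a0 := hexa t ht
    have hAB : 2 * A < Real.exp (-xb t) := by
      have e1 : Real.exp (-xb t) = A * Real.exp (xa t - xb t) := by
        rw [hA, ← Real.exp_add]; congr 1; ring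
      have e2 : 1 + (xa t - xb t) < Real.exp (xa t - xb t) := by
        have := Real.add_one_lt_exp (x := xa t - xb t) (by linarith)
        linarith
      rw [e1]
      nlinarith
    have hA8 : 2 * A ≤ 1 / 4 := by linarith [hexb t ht]
    obtain ⟨q1, q2, q3⟩ := sq_arctan (σ := 2 * A) (by positivity) hA8
    set ζ : ℂ := ((2 * Real.arctan ((2 * A) ^ 2) : ℝ) : ℂ) with hζ
    have hζS : ζ ∈ S h := by
      refine ⟨?_, ?_⟩
      · rw [hζ, Complex.ofReal_im]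
      · rw [hζ, Complex.ofReal_im]; exact hh.le
    have hζre : ζ.re = 2 * Real.arctan ((2 * A) ^ 2) := Complex.ofReal_re _
    have hζn : ‖ζ‖ = 2 * Real.arctan ((2 * A) ^ 2) := by
      rw [hζ, Complex.norm_real, Real.norm_of_nonneg q2.le]
    have hζO : ζ ∈ Om h A (Real.exp (-xb t)) := by
      refine ⟨hζS, by rw [hζre]; exact q2, by rw [hζn]; exact q3, ?_, ?_⟩
      · rw [q1, Complex.ofReal_re]; linarith
      · rw [q1, Complex.ofReal_re]; exact hAB
    obtain ⟨ζ0, hζ0, hO, he, -⟩ := hone t ht ζ hζO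
    refine ⟨ζ0, hζ0, ?_, ?_⟩
    · have h1 := (Om_re_ge ha0p ha hO).2
      obtain ⟨g1, g2, g3, -, -⟩ := hO
      have g0 : ζ0 ≠ 0 := by rintro rfl; simp at g2
      exact h1.trans (Zi_sub_one g2.le g1.1 g0 g3.le).1
    · rw [he]
      have g0 : ζ ≠ 0 := by
        intro h0
        rw [h0] at hζre
        simp at hζre
        have : 0 < Real.arctan ((2 * A) ^ 2) := by linarith
        simp [hζre] at this
      have h1 := (Zi_sub_one (ζ := ζ) (by rw [hζre]; exact q2.le) hζS.1 g0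
        (by rw [hζn]; exact q3.le)).2
      rw [q1, Complex.norm_real, Real.norm_of_nonneg (by positivity)] at h1
      refine h1.trans ?_
      have e1 : 2 * (2 * A) = Real.exp (Real.log 4 - xa t) := by
        rw [sub_eq_add_neg, Real.exp_add, Real.exp_log (by norm_num), ← hA]; ring
      rw [e1]
      apply Real.exp_le_exp.mpr
      have h2 : Real.exp (2 * c * (t - t1)) ≤ xa t := by
        have := hxbm t ht
        linarith
      have e3 : Real.exp (2 * c * (t - t1)) = Real.exp (2 * c * t) / Real.exp (2 * c * t1) := by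
        rw [← Real.exp_sub]; congr 1; ring
      have h5 : Real.exp (2 * c * t) / max (Real.log 4) (Real.exp (2 * c * t1)) ≤
          Real.exp (2 * c * t) / Real.exp (2 * c * t1) :=
        div_le_div_of_nonneg_left (Real.exp_pos _).le (Real.exp_pos _) (le_max_right _ _)
      have h6 : Real.log 4 ≤ max (Real.log 4) (Real.exp (2 * c * t1)) := le_max_left _ _
      linarith
  · intro t ht
    have h1 := (Lam_bounds (lam := lam) hh (hD t ht)).1
    have h2 := II_nonneg hh (hD t ht) (2 * Real.exp (-xa t) ^ 2)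
    have h3 := En_le hC1 hh (x := xa t) (by linarith [hxam t ht])
    simp only [hf] at h1 h2 h3
    linarith
  · intro t ht
    have h1 := (Lam_bounds (lam := lam) hh (hD t ht)).1
    have h2 := II_nonneg hh (hD t ht) (2 * Real.exp (-xb t) ^ 2)
    have h3 := En_pos hC1 hh (xb t)
    simp only [hf] at h1 h2 h3
    linarith
  · rw [hxb0]
    have e : Real.exp (2 * -Real.log s0) = 1 / s0 ^ 2 := by
      rw [show 2 * -Real.log s0 = -Real.log s0 + -Real.log s0 by ring, Real.exp_add, Real.exp_neg,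
        Real.exp_log hs0]
      field_simp
    rw [e, mul_one_div, div_le_one (by positivity)]
    exact ha.trans (pow_le_pow_left₀ ha0p.le ha0s 2)
  · intro t ht h0
    have hle' : Real.exp (-xa t) ≤ Real.exp (-xb t) := Real.exp_le_exp.mpr (by linarith)
    have h1 := II_antitone hh h4 (hD t ht) (r1 := 2 * Real.exp (-xa t) ^ 2)
      (r2 := 2 * Real.exp (-xb t) ^ 2) (by positivity)
      (by have := pow_le_pow_left₀ (Real.exp_pos (-xa t)).le hle' 2; linarith)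
    simp only [hf] at h1
    linarith
  · intro t ht h0 hb
    have hlt : Real.exp (-xa t) < Real.exp (-xb t) := Real.exp_lt_exp.mpr (by linarith)
    have hb2 : Real.exp (-xb t) ^ 2 ≤ h := by
      have e : Real.exp (2 * xb t) * Real.exp (-xb t) ^ 2 = 1 := by
        rw [pow_two, ← Real.exp_add, ← Real.exp_add]
        simp only [Real.exp_eq_one_iff]; ring
      have hpos : 0 < Real.exp (-xb t) ^ 2 := by positivity
      calc Real.exp (-xb t) ^ 2 = 1 * Real.exp (-xb t) ^ 2 := (one_mul _).symm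
        _ ≤ h * Real.exp (2 * xb t) * Real.exp (-xb t) ^ 2 :=
            mul_le_mul_of_nonneg_right hb hpos.le
        _ = h * (Real.exp (2 * xb t) * Real.exp (-xb t) ^ 2) := by ring
        _ = h := by rw [e, mul_one]
    have h1 := hW h hh h4 (f t) (hD t ht) (Real.exp (-xa t)) (Real.exp (-xb t)) (Real.exp_pos _) hlt hb2
      (fun ζ hζ => by
        obtain ⟨ζ0, -, -, -, h1⟩ := hone t ht ζ hζ
        simp only [hf, h1, mul_one, le_refl])
    have e2 : Real.log (Real.exp (-xb t) / Real.exp (-xa t)) = xa t - xb t := by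
      rw [← Real.exp_sub, Real.log_exp]; ring
    rw [e2] at h1
    simp only [hf] at h1
    linarith

end Pool.Agent.EAC.PartK
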