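import Pool.Agent.EAC.Defs

/-!
# EAC: the strip, the velocity operator, the class `CC`, the domain `dom h`, the strip solution

The upper half of the domain `dom h` is conformally the annulus `S h / 2π`, `S h` the closed strip of
height `h`; `dom h` itself is (the closed unit disc with two holes) the set `|log |κ|| ≤ h` of the
closed unit disc, `ζ = -i log κ(z)` is the strip coordinate, `dζ/dz = zp z`.
The corners of the upper half are `z = 1` (`ζ = 0`) and `z = -1` (`ζ = π`).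
-/

set_option autoImplicit false

noncomputable section

namespace Pool.Agent.EAC

open MeasureTheory Set Filter Topology Metric
open scoped ENNReal ComplexConjugate

/-- closed strip -/
def S (h : ℝ) : Set ℂ := {z | 0 ≤ z.im ∧ z.im ≤ h}

/-- open strip -/
def U (h : ℝ) : Set ℂ := {z | 0 < z.im ∧ z.im < h}

/-- one period of the strip -/
def Sper (h : ℝ) : Set ℂ := {z | 0 ≤ z.re ∧ z.re < 2 * Real.pi ∧ 0 ≤ z.im ∧ z.im ≤ h}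

def cth (w : ℂ) : ℂ := Complex.cosh w / Complex.sinh w

/-- `2 ∂_ζ G(ζ, ζ')` for the Green function `G` of `-Δ` on the strip of height `h`. -/
def ker (h : ℝ) (z w : ℂ) : ℂ :=
  (1 / (4 * h) : ℝ) * (cth (Real.pi * (z - conj w) / (2 * h)) - cth (Real.pi * (z - w) / (2 * h)))

/-- `W h f = Ψ_X - i Ψ_Y` for the solution of `-ΔΨ = f` in the strip, `Ψ = 0` on the boundary. -/
def W (h : ℝ) (f : ℂ → ℝ) (z : ℂ) : ℂ := ∫ w in S h, (f w : ℂ) * ker h z w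

/-- The strength of the shear: conservation of the circulation around the hole. -/
def Lam (h lam : ℝ) (f : ℂ → ℝ) : ℝ :=
  lam + (1 / (2 * Real.pi * h)) * ∫ w in Sper h, w.im * f w

/-- velocity in the strip, coefficient `a`, density `f` of vorticity: `a (-Λ + i conj W)`. -/
def Vel (h lam : ℝ) (a f : ℂ → ℝ) (z : ℂ) : ℂ :=
  (a z : ℂ) * (-(Lam h lam f : ℂ) + Complex.I * conj (W h f z))

/-- `n` times differentiable in the strip, with all derivatives up to order `n` bounded and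
continuous in `(t, z)`, the derivatives of order `n` uniformly Hölder continuous in `z`. -/
def CC (T h : ℝ) : (n : ℕ) → {F : Type} → [NormedAddCommGroup F] → [NormedSpace ℝ F] →
    (ℝ → ℂ → F) → Prop
  | 0, _, _, _, G => ContinuousOn (fun p : ℝ × ℂ => G p.1 p.2) (Icc 0 T ×ˢ U h) ∧
      (∃ B : ℝ, ∀ t ∈ Icc 0 T, ∀ z ∈ U h, ‖G t z‖ ≤ B) ∧
      ∃ β : ℝ, 0 < β ∧ β ≤ 1 ∧ ∃ K : ℝ, ∀ t ∈ Icc 0 T, ∀ z ∈ U h, ∀ w ∈ U h,
        ‖G t z - G t w‖ ≤ K * ‖z - w‖ ^ β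
  | n + 1, F, _, _, G => ContinuousOn (fun p : ℝ × ℂ => G p.1 p.2) (Icc 0 T ×ˢ U h) ∧
      (∃ B : ℝ, ∀ t ∈ Icc 0 T, ∀ z ∈ U h, ‖G t z‖ ≤ B) ∧
      ∃ G' : ℝ → ℂ → (ℂ →L[ℝ] F), (∀ t ∈ Icc 0 T, ∀ z ∈ U h, HasFDerivAt (G t) (G' t z) z) ∧
        CC T h n G'

/-! ### the domain -/

/-- `κ(z)`, `p = (1+z)/(1-z)`, `κ = (p² - i)/(p² + i)`. -/
def kap (z : ℂ) : ℂ := ((1 + z) ^ 2 - Complex.I * (1 - z) ^ 2) / ((1 + z) ^ 2 + Complex.I * (1 - z) ^ 2)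

/-- `dζ/dz`. -/
def zp (z : ℂ) : ℂ := 4 * (1 - z ^ 2) / (z ^ 4 + 6 * z ^ 2 + 1)

/-- `ζ(z) = -i log κ(z)`. -/
def zet (z : ℂ) : ℂ := -Complex.I * Complex.log (kap z)

/-- the domain: closed unit disc minus two holes. -/
def dom (h : ℝ) : Set ℂ :=
  {z | ‖z‖ ≤ 1 ∧ Real.exp (-h) * ‖(1 + z) ^ 2 + Complex.I * (1 - z) ^ 2‖ ≤
      ‖(1 + z) ^ 2 - Complex.I * (1 - z) ^ 2‖ ∧
    ‖(1 + z) ^ 2 - Complex.I * (1 - z) ^ 2‖ ≤
      Real.exp h * ‖(1 + z) ^ 2 + Complex.I * (1 - z) ^ 2‖}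

/-- the inverse map strip `→` upper half of `dom`. -/
def Zi (ζ : ℂ) : ℂ :=
  if Complex.exp (Complex.I * ζ) = 1 then 1 else
    let P := (1 + Complex.exp (Complex.I * ζ)) / (1 - Complex.exp (Complex.I * ζ))
    let p := Complex.exp (Complex.I * (Real.pi / 4)) * P ^ (1 / 2 : ℂ)
    (p - 1) / (p + 1)

/-- `|dζ/dz|²` as a function on the strip. -/
def mm (ζ : ℂ) : ℝ := ‖zp (Zi ζ)‖ ^ 2

/-- `|dz/dζ|²` as a function on the strip (area density of `dom`). -/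
def rho (ζ : ℂ) : ℝ := (mm ζ)⁻¹

/-- Smooth solution of the Euler equations in strip coordinates: `w` vorticity, `Φ` flow. -/
structure StripSol (h lam : ℝ) (w : ℝ → ℂ → ℝ) (Φ : ℝ → ℂ → ℂ) : Prop where
  per : ∀ t, 0 ≤ t → ∀ ζ ∈ S h, w t (ζ + 2 * Real.pi) = w t ζ
  range : ∀ t, 0 ≤ t → ∀ ζ ∈ S h, 0 ≤ w t ζ ∧ w t ζ ≤ 1
  supp : ∀ T > 0, ∃ d > 0, ∀ t ∈ Icc 0 T, ∀ ζ ∈ S h, w t ζ ≠ 0 →
    d ≤ ‖Complex.sin ζ‖ ∧ (Real.sin ζ.re ≤ 0 → d ≤ ζ.im)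
  cont : ContinuousOn (fun p : ℝ × ℂ => w p.1 p.2) (Ici 0 ×ˢ S h)
  smooth : ∀ T > 0, ∀ n, CC T h n w ∧ CC T h n (fun t ζ => rho ζ * w t ζ)
  init : ∀ ζ ∈ S h, Φ 0 ζ = ζ
  bij : ∀ t, 0 ≤ t → BijOn (Φ t) (S h) (S h)
  shift : ∀ t, 0 ≤ t → ∀ ζ ∈ S h, Φ t (ζ + 2 * Real.pi) = Φ t ζ + 2 * Real.pi
  flow : ∀ t, 0 ≤ t → ∀ ζ ∈ S h, HasDerivWithinAt (fun τ => Φ τ ζ)
    (Vel h lam mm (fun x => rho x * w t x) (Φ t ζ)) (Ici 0) t
  cons : ∀ t, 0 ≤ t → ∀ ζ ∈ S h, w t (Φ t ζ) = w 0 ζ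

/-- Initial vorticities: smooth, periodic, values in `[0,1]`, supported in `x₁ ≤ X ≤ x₂` modulo
`2π`, `0 < x₁ < x₂ < π`. -/
structure NiceInit (w0 : ℂ → ℝ) : Prop where
  smooth : ContDiff ℝ (⊤ : ℕ∞) w0
  per : ∀ ζ, w0 (ζ + 2 * Real.pi) = w0 ζ
  indep : ∀ ζ, w0 ζ = w0 (ζ.re : ℂ)
  range : ∀ ζ, 0 ≤ w0 ζ ∧ w0 ζ ≤ 1
  supp : ∃ d > 0, ∀ ζ, w0 ζ ≠ 0 → d ≤ Real.sin ζ.re

/-- the velocity field on `dom h` of the vorticity `w` (strip coordinates). -/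
def velZ (h lam : ℝ) (w : ℂ → ℝ) (z : ℂ) : ℂ :=
  conj (-Complex.I * (-Complex.I * (Lam h lam (fun x => rho x * w x) : ℂ) +
    W h (fun x => rho x * w x) (zet z)) * zp z)

end Pool.Agent.EAC
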