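import Pool.Agent.EAC.G1
import Pool.Agent.EAC.G2
import Pool.Agent.EAC.Strip

/-!
# EAC-S3: the equation `∂̄ W = -f/2`

`f` differentiable in the open strip with bounded continuous derivative `f'`.
`W_deriv_x`: `W h f (z+x) = ∫ f(w+x) ker h z w` (`W_shift`), differentiate under the integral sign
(`hasDerivAt_integral_of_dominated_loc_of_deriv_le`).
`ct_fderiv`: `w` continuously differentiable on `ℂ` with compact support: `CT w` is differentiable, `D(CT w)(ζ) e = CT (fun z => Dw z e) ζ`
(differentiate `∫ w(ζ+s)/s ds`), and `dbar (D (CT w)(ζ)) = CT (dbar Dw) ζ = -π w ζ` (`ct_rep`).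
`W_fderiv`: near `z₀ ∈ U h` take a smooth bump `χ` at `z₀` supported in `U h`; `W[(1-χ)f]` is holomorphic near `z₀`
(kernel holomorphic in `z` for `w` away from `z₀`; `conj w` is never near `z₀` nor the other lattice points); `W[χ f] =
(1/2π) CT(χ f) + holomorphic` because `cth(πu/2h)·(π/2h)... = 1/u + entire near` : `ker h z w = -(1/2π)/(z-w) + (holomorphic in z, bounded)`.
So `W` is real differentiable at `z₀` with `dbar = -f/2`; `D 1 = W[f_x]` by `W_deriv_x`; `D i = i (D 1 - 2 dbar)`.

THIS FILE: ct_fderiv.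
-/

set_option autoImplicit false

noncomputable section

namespace Pool.Agent.EAC


open MeasureTheory Set Filter Topology Metric
open scoped ENNReal ComplexConjugate

private def kk (t : ℂ) : ℂ := -t⁻¹

private theorem kk_loc : LocallyIntegrable kk volume := by
  intro x
  refine ⟨closedBall x 1, closedBall_mem_nhds x one_pos, ?_⟩
  have h := (int_inv_norm one_pos x 0).1
  simp only [sub_zero] at h
  refine Integrable.mono h ?_ ?_
  · have : Measurable kk := by
      unfold kk
      fun_prop
    exact this.aestronglyMeasurable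
  · refine Filter.Eventually.of_forall fun z => ?_
    unfold kk
    rw [norm_neg, norm_inv, norm_inv, norm_norm]

private theorem ct_conv (w : ℂ → ℂ) (ζ : ℂ) :
    convolution kk w (ContinuousLinearMap.mul ℝ ℂ) volume ζ = CT w ζ := by
  rw [convolution_def]
  unfold CT
  rw [← integral_sub_left_eq_self (fun z => w z / (z - ζ)) volume ζ]
  congr 1
  funext t
  simp only [ContinuousLinearMap.mul_apply', kk]
  have e : ζ - t - ζ = -t := by ring
  rw [e, div_eq_mul_inv, inv_neg]
  ring

private theorem line_null : volume {z : ℂ | z.im = 0} = 0 := by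
  have h1 : (LinearMap.ker Complex.imLm : Submodule ℝ ℂ) ≠ ⊤ := by
    intro h
    have h2 : Complex.I ∈ (LinearMap.ker Complex.imLm : Submodule ℝ ℂ) := by
      rw [h]; exact Submodule.mem_top
    rw [LinearMap.mem_ker] at h2
    simp at h2
  have h2 := Measure.addHaar_submodule volume _ h1
  have e : ((LinearMap.ker Complex.imLm : Submodule ℝ ℂ) : Set ℂ) = {z : ℂ | z.im = 0} := by
    ext z
    simp
  rwa [e] at h2

theorem ct_fderiv {w : ℂ → ℂ} (hw : ContDiff ℝ 1 w) (hs : HasCompactSupport w) (ζ : ℂ) :
    ∃ D : ℂ →L[ℝ] ℂ, HasFDerivAt (CT w) D ζ ∧ dbar D = -(Real.pi : ℂ) * w ζ := by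
  have hcd : Continuous (fderiv ℝ w) := hw.continuous_fderiv one_ne_zero
  have hsd : HasCompactSupport (fderiv ℝ w) := hs.fderiv ℝ
  have hmain := hs.hasFDerivAt_convolution_right (ContinuousLinearMap.mul ℝ ℂ) kk_loc hw ζ
  have e0 : convolution kk w (ContinuousLinearMap.mul ℝ ℂ) volume = CT w :=
    funext (ct_conv w)
  rw [e0] at hmain
  refine ⟨_, hmain, ?_⟩
  -- support and bounds
  obtain ⟨R, hR⟩ := hs.isCompact.isBounded.subset_closedBall (0 : ℂ)
  have hs0 : ∀ z, z ∉ closedBall (0 : ℂ) R → w z = 0 := by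
    intro z hz
    by_contra h
    exact hz (hR (subset_tsupport _ h))
  have hs1 : ∀ z, z ∉ closedBall (0 : ℂ) R → fderiv ℝ w z = 0 := by
    intro z hz
    have : z ∉ tsupport w := fun h => hz (hR h)
    by_contra h
    exact this (support_fderiv_subset ℝ h)
  obtain ⟨B, hB⟩ := hcd.bounded_above_of_compact_support hsd
  have hev : ∀ e : ℂ, (convolution kk (fderiv ℝ w)
      ((ContinuousLinearMap.mul ℝ ℂ).precompR ℂ) volume ζ) e =
      CT (fun a => fderiv ℝ w a e) ζ := by
    intro e
    rw [convolution_precompR_apply (ContinuousLinearMap.mul ℝ ℂ) kk_loc hsd hcd ζ e, ct_conv]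
  have hint : ∀ e : ℂ, Integrable (fun z => (fderiv ℝ w z e) / (z - ζ)) := by
    intro e
    refine ct_integrable (B := B * ‖e‖) (R := R) (c := 0) ?_ ?_ ?_ ζ
    · exact (hcd.clm_apply continuous_const).aestronglyMeasurable
    · intro z
      exact (ContinuousLinearMap.le_opNorm _ _).trans
        (mul_le_mul_of_nonneg_right (hB z) (norm_nonneg _))
    · intro z hz
      rw [hs1 z hz]
      rfl
  have h1 : dbar (convolution kk (fderiv ℝ w)
      ((ContinuousLinearMap.mul ℝ ℂ).precompR ℂ) volume ζ) =
      CT (fun z => dbar (fderiv ℝ w z)) ζ := by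
    unfold dbar
    rw [hev, hev, ct_smul, ct_add (hint 1), ct_smul]
    have := (hint Complex.I).const_mul Complex.I
    refine this.congr (Filter.Eventually.of_forall fun z => ?_)
    simp only
    ring
  have h2 : CT (fun z => dbar (fderiv ℝ w z)) ζ =
      CT (fun z => if z.im = 0 then 0 else dbar (fderiv ℝ w z)) ζ := by
    unfold CT
    apply integral_congr_ae
    have hne : ∀ᵐ z : ℂ, z.im ≠ 0 := by
      rw [ae_iff]
      simpa using line_null
    filter_upwards [hne] with z hz
    rw [if_neg hz]
  rw [h1, h2]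
  exact ct_rep hw.continuous hs0 (fun z _ => (hw.differentiable one_ne_zero z).hasFDerivAt)
    (fun z _ => hB z) ζ

end Pool.Agent.EAC
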