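import Pool.Agent.EAC.S2
import Pool.Agent.EAC.S3b

/-!
# EAC-S3: the equation `∂̄ W = -f/2`

`f` differentiable in the open strip with bounded continuous derivative `f'`.
`W_deriv_x`: `W h f (z+x) = ∫ f(w+x) ker h z w` (`W_shift`), differentiate under the integral sign
(`hasDerivAt_integral_of_dominated_loc_of_deriv_le`).
`ct_fderiv`: `w` continuously differentiable on `ℂ` with compact support: `CT w` is differentiable, `D(CT w)(ζ) e = CT (fun z => Dw z e) ζ`
(differentiate `∫ w(ζ+s)/s ds`), and `dbar (D (CT w)(ζ)) = CT (dbar Dw) ζ = -π w ζ` (`ct_rep`).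
`W_fderiv`: near `z₀ ∈ U h` take a smooth bump `χ` at `z₀` supported in `U h`; `W[(1-χ)f]` is holomorphic near `z₀`
(kernel holomorphic in `z` for `w` away from `z₀`; `conj w` is never near `z₀` nor the other lattice points); `W[χ f] =
(1/2π) CT(χ f) + holomorphic` because `cth(πu/2h)·(π/2h)... = 1/u + entire near` : `ker h z w = -(1/2π)/(z-w) + (holomorphic in z, bounded)`.
So `W` is real differentiable at `z₀` with `dbar = -f/2`; `D 1 = W[f_x]` by `W_deriv_x`; `D i = i (D 1 - 2 dbar)`.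

THIS FILE: W_dbar.
-/

set_option autoImplicit false

noncomputable section

namespace Pool.Agent.EAC


open MeasureTheory Set Filter Topology Metric
open scoped ENNReal ComplexConjugate

theorem s3c_dbar_add (D E : ℂ →L[ℝ] ℂ) : dbar (D + E) = dbar D + dbar E := by
  unfold dbar
  simp only [add_apply]
  ring

theorem s3c_dbar_smul (c : ℂ) (D : ℂ →L[ℝ] ℂ) : dbar (c • D) = c * dbar D := by
  unfold dbar
  simp only [smul_apply, smul_eq_mul]
  ring

/-- complex differentiable implies real differentiable with `dbar = 0`. -/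
theorem s3c_holo_dbar {F : ℂ → ℂ} {z : ℂ} (hF : DifferentiableAt ℂ F z) :
    ∃ D : ℂ →L[ℝ] ℂ, HasFDerivAt F D z ∧ dbar D = 0 := by
  refine ⟨(fderiv ℂ F z).restrictScalars ℝ, hF.hasFDerivAt.restrictScalars ℝ, ?_⟩
  unfold dbar
  have h1 : ((fderiv ℂ F z).restrictScalars ℝ) Complex.I = Complex.I * (fderiv ℂ F z) 1 := by
    rw [ContinuousLinearMap.coe_restrictScalars']
    have := (fderiv ℂ F z).map_smul Complex.I 1
    rw [smul_eq_mul, smul_eq_mul, mul_one] at this
    exact this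
  rw [h1, ContinuousLinearMap.coe_restrictScalars', ← mul_assoc, Complex.I_mul_I]
  ring

/-- holomorphy of parameter integrals. -/
theorem s3c_holo_param {μ : Measure ℂ} {G : ℂ → ℂ → ℂ} {z₀ : ℂ} {ρ : ℝ} (hρ : 0 < ρ) {b : ℂ → ℝ}
    (hb : Integrable b μ) (hm : ∀ z ∈ ball z₀ (2 * ρ), AEStronglyMeasurable (G z) μ)
    (hd : ∀ᵐ w ∂μ, DifferentiableOn ℂ (fun z => G z w) (ball z₀ (2 * ρ)))
    (hB : ∀ᵐ w ∂μ, ∀ z ∈ ball z₀ (2 * ρ), ‖G z w‖ ≤ b w) :
    DifferentiableAt ℂ (fun z => ∫ w, G z w ∂μ) z₀ := by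
  have hz0 : z₀ ∈ ball z₀ (2 * ρ) := mem_ball_self (by linarith)
  have hsub : ball z₀ ρ ⊆ ball z₀ (2 * ρ) := ball_subset_ball (by linarith)
  have hder : ∀ᵐ w ∂μ, ∀ z ∈ ball z₀ (2 * ρ), HasDerivAt (fun z => G z w)
      (deriv (fun z => G z w) z) z := by
    filter_upwards [hd] with w hw z hz
    exact ((hw z hz).differentiableAt (isOpen_ball.mem_nhds hz)).hasDerivAt
  have hmd : AEStronglyMeasurable (fun w => deriv (fun z => G z w) z₀) μ := by
    have hseq : ∀ n : ℕ, z₀ + ((ρ / (n + 1) : ℝ) : ℂ) ∈ ball z₀ (2 * ρ) := by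
      intro n
      rw [mem_ball, dist_eq_norm, add_sub_cancel_left, Complex.norm_real, Real.norm_eq_abs,
        abs_of_pos (by positivity)]
      have : ρ / (n + 1) ≤ ρ := div_le_self hρ.le (by linarith [(Nat.cast_nonneg n : (0:ℝ) ≤ n)])
      linarith
    refine aestronglyMeasurable_of_tendsto_ae (u := (atTop : Filter ℕ))
      (f := fun n w => ((ρ / (n + 1) : ℝ) : ℂ)⁻¹ * (G (z₀ + ((ρ / (n + 1) : ℝ) : ℂ)) w - G z₀ w))
      (fun n => ?_) ?_
    · exact ((hm _ (hseq n)).sub (hm _ hz0)).const_mul _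
    · filter_upwards [hder] with w hw
      have h1 := (hw z₀ hz0).tendsto_slope_zero
      have h2 : Tendsto (fun n : ℕ => ((ρ / (n + 1) : ℝ) : ℂ)) atTop (𝓝[≠] 0) := by
        refine tendsto_nhdsWithin_iff.2 ⟨?_, Eventually.of_forall fun n => ?_⟩
        · have h3 : Tendsto (fun n : ℕ => ρ / ((n : ℝ) + 1)) atTop (𝓝 0) :=
            tendsto_const_div_atTop_nhds_zero_nat ρ |>.comp (tendsto_add_atTop_nat 1) |>.congr
              (fun n => by simp)
          have h4 : Tendsto (fun n : ℕ => ((ρ / ((n : ℝ) + 1) : ℝ) : ℂ)) atTop (𝓝 ((0 : ℝ) : ℂ)) :=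
            (Complex.continuous_ofReal.tendsto 0).comp h3
          rw [Complex.ofReal_zero] at h4
          exact h4
        · rw [mem_compl_iff, mem_singleton_iff]
          exact_mod_cast (by positivity : ρ / ((n : ℝ) + 1) ≠ 0)
      have h5 := h1.comp h2
      refine h5.congr fun n => ?_
      simp [smul_eq_mul]
  refine (hasDerivAt_integral_of_dominated_loc_of_deriv_le (F := G)
    (F' := fun z w => deriv (fun z => G z w) z) (bound := fun w => b w / (ρ / 2))
    (s := ball z₀ ρ) (ball_mem_nhds z₀ hρ) ?_ ?_ hmd ?_ ?_ ?_).2.differentiableAt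
  · filter_upwards [ball_mem_nhds z₀ hρ] with z hz
    exact hm z (hsub hz)
  · exact Integrable.mono' hb (hm z₀ hz0) (by filter_upwards [hB] with w hw using hw z₀ hz0)
  · filter_upwards [hd, hB] with w hw1 hw2 z hz
    have hcl : closedBall z (ρ / 2) ⊆ ball z₀ (2 * ρ) := by
      intro x hx
      rw [mem_closedBall] at hx
      rw [mem_ball] at hz ⊢
      have := dist_triangle x z z₀
      linarith
    refine Complex.norm_deriv_le_of_forall_mem_sphere_norm_le (by linarith) ?_ ?_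
    · refine (hw1.mono (subset_trans ?_ hcl)).diffContOnCl
      exact closure_ball_subset_closedBall
    · intro x hx
      exact hw2 x (hcl (sphere_subset_closedBall hx))
  · exact hb.div_const _
  · filter_upwards [hder] with w hw z hz
    exact hw z (hsub hz)

/-- `coth u - 1/u` extended to `u = 0`. -/
theorem s3c_eta : ∃ η : ℂ → ℂ, (∀ u, Complex.sinh u ≠ 0 → η u = cth u - 1 / u) ∧
    ∀ u, (Complex.sinh u ≠ 0 ∨ u = 0) → DifferentiableAt ℂ η u := by
  obtain ⟨σ, hσ⟩ : ∃ σ : ℂ → ℂ, σ = dslope Complex.sinh 0 := ⟨_, rfl⟩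
  have hσd : Differentiable ℂ σ := by
    rw [← differentiableOn_univ, hσ, Complex.differentiableOn_dslope univ_mem]
    exact Complex.differentiable_sinh.differentiableOn
  have hσ1 : ∀ u : ℂ, u ≠ 0 → σ u = Complex.sinh u / u := by
    intro u hu
    rw [hσ, dslope_of_ne _ hu, slope_def_field]
    simp
  have hσ0 : σ 0 = 1 := by
    rw [hσ, dslope_same, Complex.deriv_sinh, Complex.cosh_zero]
  obtain ⟨τ, hτ⟩ : ∃ τ : ℂ → ℂ, τ = dslope (fun u => Complex.cosh u - σ u) 0 := ⟨_, rfl⟩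
  have hτd : Differentiable ℂ τ := by
    rw [← differentiableOn_univ, hτ, Complex.differentiableOn_dslope univ_mem]
    exact (Complex.differentiable_cosh.sub hσd).differentiableOn
  have hτ1 : ∀ u : ℂ, u ≠ 0 → τ u = (Complex.cosh u - σ u) / u := by
    intro u hu
    rw [hτ, dslope_of_ne _ hu, slope_def_field, hσ0]
    simp
  refine ⟨fun u => τ u / σ u, fun u hu => ?_, fun u hu => ?_⟩
  · have h0 : u ≠ 0 := by
      rintro rfl
      exact hu Complex.sinh_zero
    show τ u / σ u = cth u - 1 / u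
    rw [hτ1 u h0, hσ1 u h0]
    unfold cth
    field_simp
  · have h1 : σ u ≠ 0 := by
      rcases eq_or_ne u 0 with h0 | h0
      · rw [h0, hσ0]; exact one_ne_zero
      · rw [hσ1 u h0]
        rcases hu with hu | hu
        · exact div_ne_zero hu h0
        · exact absurd hu h0
    exact (hτd u).div (hσd u) h1

theorem s3c_isOpen_U (h : ℝ) : IsOpen (U h) :=
  (isOpen_lt continuous_const Complex.continuous_im).inter
    (isOpen_lt Complex.continuous_im continuous_const)

theorem s3c_isClosed_S (h : ℝ) : IsClosed (S h) :=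
  (isClosed_le continuous_const Complex.continuous_im).inter
    (isClosed_le Complex.continuous_im continuous_const)

theorem s3c_U_subset_S (h : ℝ) : U h ⊆ S h := fun _ hz => ⟨hz.1.le, hz.2.le⟩

theorem s3c_ae_U (h : ℝ) : ∀ᵐ w ∂(volume.restrict (S h)), w ∈ U h := by
  rw [ae_restrict_iff' (s3c_isClosed_S h).measurableSet]
  have := measure_eq_zero_iff_ae_notMem.1 (vol_S_diff_U h)
  filter_upwards [this] with w hw hS
  by_contra hU
  exact hw ⟨hS, hU⟩

theorem s3c_sinh_ka {h : ℝ} (hh : 0 < h) {z w : ℂ} (hz : z ∈ U h) (hw : w ∈ U h) :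
    Complex.sinh (ka h z w) ≠ 0 := by
  intro h0
  have h1 : Complex.sin (ka h z w * Complex.I) = 0 := by
    rw [Complex.sin_mul_I, h0, zero_mul]
  rw [Complex.sin_eq_zero_iff] at h1
  obtain ⟨k, hk⟩ := h1
  have h2 : (ka h z w).im = -(k * Real.pi) := by
    have h3 := congrArg Complex.re hk
    simp at h3
    linarith
  have h4 : (ka h z w).im = Real.pi * ((z.im + w.im) / (2 * h)) := by
    have h5 : ka h z w = ((Real.pi / (2 * h) : ℝ) : ℂ) * (z - conj w) := by
      unfold ka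
      push_cast
      ring
    rw [h5, Complex.im_ofReal_mul, Complex.sub_im, Complex.conj_im]
    ring
  have h6 : 0 < (z.im + w.im) / (2 * h) := div_pos (by linarith [hz.1, hw.1]) (by linarith)
  have h7 : (z.im + w.im) / (2 * h) < 1 := by
    rw [div_lt_one (by linarith)]
    linarith [hz.2, hw.2]
  rw [h4] at h2
  have h8 : (z.im + w.im) / (2 * h) = -(k : ℝ) := by
    have h9 : Real.pi * ((z.im + w.im) / (2 * h)) = Real.pi * (-(k : ℝ)) := by
      rw [h2]; ring
    exact mul_left_cancel₀ Real.pi_ne_zero h9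
  rw [h8] at h6 h7
  have h10 : (0 : ℤ) < -k := by exact_mod_cast h6
  have h11 : -k < (1 : ℤ) := by exact_mod_cast h7
  omega

theorem s3c_int (h a : ℝ) : IntegrableOn (fun w : ℂ => (1 + (w.re - a) ^ 2)⁻¹) (S h) := by
  have h1 : Integrable (fun x : ℝ => (1 + (x - a) ^ 2)⁻¹) :=
    integrable_inv_one_add_sq.comp_sub_right a
  have h2 : Integrable ((Icc 0 h).indicator (fun _ : ℝ => (1 : ℝ))) := by
    rw [integrable_indicator_iff measurableSet_Icc]
    exact integrableOn_const (by simp)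
  have h3 : Integrable (fun p : ℝ × ℝ => (1 + (p.1 - a) ^ 2)⁻¹ *
      (Icc 0 h).indicator (fun _ : ℝ => (1 : ℝ)) p.2) := h1.mul_prod h2
  have h4 := (Complex.volume_preserving_equiv_real_prod.integrable_comp_emb
    Complex.measurableEquivRealProd.measurableEmbedding).2 h3
  rw [← integrable_indicator_iff (s3c_isClosed_S h).measurableSet]
  refine h4.congr (ae_of_all _ fun w => ?_)
  by_cases hw : w ∈ S h
  · have h5 : w.im ∈ Icc 0 h := hw
    rw [Set.indicator_of_mem hw]
    simp [Complex.measurableEquivRealProd_apply, Set.indicator_of_mem h5]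
  · have h5 : w.im ∉ Icc 0 h := hw
    rw [Set.indicator_of_notMem hw]
    simp [Complex.measurableEquivRealProd_apply, Set.indicator_of_notMem h5]

/-- uniform decay of the kernel off the diagonal. -/
theorem s3c_ker_far {h : ℝ} (hh : 0 < h) {z₀ : ℂ} {r : ℝ} (hr : 0 < r) (hz0 : ball z₀ r ⊆ U h) :
    ∃ C ≥ 0, ∀ z ∈ ball z₀ (r / 2), ∀ w ∈ S h, w ∉ ball z₀ r →
      ‖ker h z w‖ ≤ C * (1 + (w.re - z₀.re) ^ 2)⁻¹ := by
  obtain ⟨α, hα⟩ : ∃ α : ℝ, α = r / (2 * h) := ⟨_, rfl⟩
  have hα0 : 0 < α := by rw [hα]; positivity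
  obtain ⟨C₁, hC₁⟩ : ∃ C₁ : ℝ, C₁ = 16 * h ^ 2 / Real.pi ^ 2 + (1 + r ^ 2 / 2) / α := ⟨_, rfl⟩
  have hC₁0 : 0 < C₁ := by rw [hC₁]; positivity
  refine ⟨1 / (2 * h) * C₁, by positivity, fun z hz w hw hwr => ?_⟩
  have hzS : z ∈ S h := s3c_U_subset_S h (hz0 (ball_subset_ball (by linarith) hz))
  have hzw : r / 2 ≤ ‖z - w‖ := by
    rw [mem_ball, dist_eq_norm] at hz hwr
    rw [not_lt] at hwr
    have h1 : ‖w - z₀‖ ≤ ‖z - w‖ + ‖z - z₀‖ := by
      calc ‖w - z₀‖ = ‖(z - z₀) - (z - w)‖ := by congr 1; ring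
        _ ≤ ‖z - z₀‖ + ‖z - w‖ := norm_sub_le _ _
        _ = _ := add_comm _ _
    linarith
  have hne : z ≠ w := by
    intro h0
    rw [h0, sub_self, norm_zero] at hzw
    linarith
  obtain ⟨ha1, ha2⟩ := le_sinh_kb hh hzS hw
  have hk := ker_le_sinh hh hzS hw hne
  obtain ⟨a, ha⟩ : ∃ a : ℝ, a = ‖Complex.sinh (kb h z w)‖ := ⟨_, rfl⟩
  rw [← ha] at ha1 ha2 hk
  have haα : α ≤ a := by
    refine le_trans ?_ ha1
    rw [hα, div_le_div_iff₀ (by positivity) hh]
    nlinarith
  have ha0 : 0 < a := lt_of_lt_of_le hα0 haα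
  obtain ⟨x, hx⟩ : ∃ x : ℝ, x = Real.pi * |z.re - w.re| / (2 * h) := ⟨_, rfl⟩
  have hx0 : 0 ≤ x := by rw [hx]; positivity
  rw [← hx] at ha2
  have hx2 : x ^ 2 / 2 ≤ a := by
    refine le_trans ?_ ha2
    have h1 : Real.sinh x = 2 * Real.sinh (x / 2) * Real.cosh (x / 2) := by
      rw [← Real.sinh_two_mul]
      congr 1
      ring
    have h2 : x / 2 ≤ Real.sinh (x / 2) := Real.self_le_sinh_iff.2 (by linarith)
    have h3 : Real.sinh (x / 2) < Real.cosh (x / 2) := Real.sinh_lt_cosh _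
    rw [h1]
    nlinarith
  have hX : (w.re - z₀.re) ^ 2 ≤ 2 * (z.re - w.re) ^ 2 + r ^ 2 / 2 := by
    have h1 : |z.re - z₀.re| ≤ r / 2 := by
      have h2 := Complex.abs_re_le_norm (z - z₀)
      rw [Complex.sub_re] at h2
      rw [mem_ball, dist_eq_norm] at hz
      linarith
    have h3 : (z.re - z₀.re) ^ 2 ≤ (r / 2) ^ 2 := by
      rw [← sq_abs]
      exact pow_le_pow_left₀ (abs_nonneg _) h1 2
    nlinarith [sq_nonneg ((z.re - w.re) + (z.re - z₀.re)), sq_nonneg (w.re - z₀.re)]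
  have hxX : (z.re - w.re) ^ 2 = 4 * h ^ 2 / Real.pi ^ 2 * x ^ 2 := by
    rw [hx, ← sq_abs (z.re - w.re)]
    field_simp
    ring
  have hmain : 1 + (w.re - z₀.re) ^ 2 ≤ C₁ * a := by
    have h1 : 1 + r ^ 2 / 2 ≤ (1 + r ^ 2 / 2) / α * a := by
      rw [div_mul_eq_mul_div, le_div_iff₀ hα0]
      exact mul_le_mul_of_nonneg_left haα (by positivity)
    have h2 : 2 * (z.re - w.re) ^ 2 ≤ 16 * h ^ 2 / Real.pi ^ 2 * a := by
      rw [hxX]
      have h3 : 0 ≤ h ^ 2 / Real.pi ^ 2 := by positivity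
      have h4 := mul_le_mul_of_nonneg_left hx2 (mul_nonneg (by norm_num : (0:ℝ) ≤ 16) h3)
      calc 2 * (4 * h ^ 2 / Real.pi ^ 2 * x ^ 2) = 16 * (h ^ 2 / Real.pi ^ 2) * (x ^ 2 / 2) := by ring
        _ ≤ 16 * (h ^ 2 / Real.pi ^ 2) * a := h4
        _ = _ := by ring
    rw [hC₁, add_mul]
    linarith
  have hq : 0 < 1 + (w.re - z₀.re) ^ 2 := by positivity
  refine le_trans hk ?_
  rw [mul_assoc, div_eq_mul_inv (1 / (2 * h)) a]
  refine mul_le_mul_of_nonneg_left ?_ (by positivity)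
  rw [← div_eq_mul_inv, inv_le_comm₀ ha0 (by positivity), inv_div, div_le_iff₀ hC₁0, mul_comm]
  exact hmain

/-- the far part is holomorphic. -/
theorem s3c_far {h : ℝ} (hh : 0 < h) {g : ℂ → ℝ} {B : ℝ} (hg : BM h g B) {z₀ : ℂ} {r : ℝ}
    (hr : 0 < r) (hz0 : ball z₀ r ⊆ U h) (hg0 : ∀ w ∈ ball z₀ r, g w = 0) :
    DifferentiableAt ℂ (W h g) z₀ := by
  obtain ⟨C, hC0, hC⟩ := s3c_ker_far hh hr hz0
  have h2r : 2 * (r / 4) = r / 2 := by ring
  refine s3c_holo_param (μ := volume.restrict (S h)) (G := fun z w => (g w : ℂ) * ker h z w)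
    (ρ := r / 4) (b := fun w => |B| * (C * (1 + (w.re - z₀.re) ^ 2)⁻¹)) (by linarith) ?_ ?_ ?_ ?_
  · exact ((s3c_int h z₀.re).const_mul C).const_mul _
  · intro z hz
    rw [h2r] at hz
    exact (W_integrable hh hg
      (s3c_U_subset_S h (hz0 (ball_subset_ball (by linarith) hz)))).aestronglyMeasurable
  · filter_upwards [s3c_ae_U h] with w hw z hz
    rw [h2r] at hz
    by_cases hwr : w ∈ ball z₀ r
    · simp only [hg0 w hwr, Complex.ofReal_zero, zero_mul]
      exact (differentiable_const _).differentiableAt.differentiableWithinAt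
    · have hzS : z ∈ S h := s3c_U_subset_S h (hz0 (ball_subset_ball (by linarith) hz))
      have hne : z ≠ w := by
        rintro rfl
        exact hwr (ball_subset_ball (by linarith) hz)
      obtain ⟨hb1, hb2⟩ := sinh_kb_ne hh hzS (s3c_U_subset_S h hw) hne
      obtain ⟨d, hd, _⟩ := ker_hasDerivAt hh hb1 hb2
      exact (hd.differentiableAt.const_mul _).differentiableWithinAt
  · filter_upwards [s3c_ae_U h] with w hw z hz
    rw [h2r] at hz
    by_cases hwr : w ∈ ball z₀ r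
    · rw [hg0 w hwr, Complex.ofReal_zero, zero_mul, norm_zero]
      positivity
    · rw [norm_mul, Complex.norm_real, Real.norm_eq_abs]
      exact mul_le_mul (le_trans (hg.2 w hw) (le_abs_self B)) (hC z hz w (s3c_U_subset_S h hw) hwr)
        (norm_nonneg _) (abs_nonneg _)

theorem s3c_near {h : ℝ} (hh : 0 < h) {z₀ : ℂ} {r : ℝ} (hr : 0 < r) (hK : closedBall z₀ r ⊆ U h)
    {g : ℂ → ℝ} (hg : ContDiff ℝ 1 g) (hs : ∀ w, w ∉ closedBall z₀ r → g w = 0) :
    ∃ D : ℂ →L[ℝ] ℂ, HasFDerivAt (W h g) D z₀ ∧ dbar D = -(g z₀ : ℂ) / 2 := by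
  obtain ⟨η, hη1, hη2⟩ := s3c_eta
  obtain ⟨K, hKd⟩ : ∃ K : Set ℂ, K = closedBall z₀ r := ⟨_, rfl⟩
  rw [← hKd] at hK hs
  have hKc : IsCompact K := by rw [hKd]; exact isCompact_closedBall _ _
  have hKm : MeasurableSet K := hKc.isClosed.measurableSet
  have hSU := s3c_U_subset_S h
  obtain ⟨ψ, hψ⟩ : ∃ ψ : ℂ → ℂ → ℂ, ∀ z w, ψ z w =
      (1 / (4 * h) : ℂ) * (cth (ka h z w) - η (kb h z w)) := ⟨_, fun _ _ => rfl⟩
  have hkb : ∀ z ∈ U h, ∀ w ∈ U h, Complex.sinh (kb h z w) ≠ 0 ∨ kb h z w = 0 := by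
    intro z hz w hw
    rcases eq_or_ne z w with h0 | h0
    · right
      rw [h0]
      unfold kb
      simp
    · left
      exact (sinh_kb_ne hh (hSU hz) (hSU hw) h0).1
  have hkac : Continuous (fun p : ℂ × ℂ => ka h p.1 p.2) := by
    unfold ka
    refine Continuous.div_const (continuous_const.mul (continuous_fst.sub ?_)) _
    exact Complex.continuous_conj.comp continuous_snd
  have hkbc : Continuous (fun p : ℂ × ℂ => kb h p.1 p.2) := by
    unfold kb
    exact Continuous.div_const (continuous_const.mul (continuous_fst.sub continuous_snd)) _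
  have hcthd : ∀ u : ℂ, Complex.sinh u ≠ 0 → DifferentiableAt ℂ cth u := by
    intro u hu
    unfold cth
    exact Complex.differentiable_cosh.differentiableAt.div
      Complex.differentiable_sinh.differentiableAt hu
  have hψc : ContinuousOn (fun p : ℂ × ℂ => ψ p.1 p.2) (U h ×ˢ U h) := by
    intro p hp
    have hp1 : p.1 ∈ U h := hp.1
    have hp2 : p.2 ∈ U h := hp.2
    have e1 : ContinuousAt (fun p : ℂ × ℂ => cth (ka h p.1 p.2)) p :=
      ContinuousAt.comp (f := fun p : ℂ × ℂ => ka h p.1 p.2)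
        (hcthd _ (s3c_sinh_ka hh hp1 hp2)).continuousAt hkac.continuousAt
    have e2 : ContinuousAt (fun p : ℂ × ℂ => η (kb h p.1 p.2)) p :=
      ContinuousAt.comp (f := fun p : ℂ × ℂ => kb h p.1 p.2)
        (hη2 _ (hkb _ hp1 _ hp2)).continuousAt hkbc.continuousAt
    have e3 : (fun p : ℂ × ℂ => ψ p.1 p.2) =
        fun p => (1 / (4 * h) : ℂ) * (cth (ka h p.1 p.2) - η (kb h p.1 p.2)) := by
      funext p
      exact hψ _ _
    rw [e3]
    exact (continuousAt_const.mul (e1.sub e2)).continuousWithinAt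
  have hψd : ∀ z ∈ U h, ∀ w ∈ U h, DifferentiableAt ℂ (fun z => ψ z w) z := by
    intro z hz w hw
    have e3 : (fun z => ψ z w) =
        fun z => (1 / (4 * h) : ℂ) * (cth (ka h z w) - η (kb h z w)) := by
      funext z
      exact hψ _ _
    rw [e3]
    have d1 : DifferentiableAt ℂ (fun z => ka h z w) z := by
      unfold ka
      exact ((differentiableAt_id.sub_const _).const_mul _).div_const _
    have d2 : DifferentiableAt ℂ (fun z => kb h z w) z := by
      unfold kb
      exact ((differentiableAt_id.sub_const _).const_mul _).div_const _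
    have e1 : DifferentiableAt ℂ (fun z => cth (ka h z w)) z :=
      DifferentiableAt.comp (f := fun z => ka h z w) z (hcthd _ (s3c_sinh_ka hh hz hw)) d1
    have e2 : DifferentiableAt ℂ (fun z => η (kb h z w)) z :=
      DifferentiableAt.comp (f := fun z => kb h z w) z (hη2 _ (hkb _ hz _ hw)) d2
    exact (e1.sub e2).const_mul _
  have hGc : ContinuousOn (fun p : ℂ × ℂ => (g p.2 : ℂ) * ψ p.1 p.2) (K ×ˢ K) := by
    refine ContinuousOn.mul ?_ (hψc.mono (Set.prod_mono hK hK))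
    exact (Complex.continuous_ofReal.comp (hg.continuous.comp continuous_snd)).continuousOn
  obtain ⟨M, hM⟩ := (hKc.prod hKc).exists_bound_of_continuousOn hGc
  have hGz : ∀ z ∈ K, ContinuousOn (fun w => (g w : ℂ) * ψ z w) K := by
    intro z hz
    have : ContinuousOn (fun w : ℂ => (z, w)) K := by fun_prop
    exact hGc.comp this (fun w hw => ⟨hz, hw⟩)
  have hz0K : z₀ ∈ K := by rw [hKd]; exact mem_closedBall_self hr.le
  have hballK : ball z₀ r ⊆ K := by rw [hKd]; exact ball_subset_closedBall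
  have h2r : 2 * (r / 2) = r := by ring
  have hR : DifferentiableAt ℂ (fun z => ∫ w in K, (g w : ℂ) * ψ z w) z₀ := by
    refine s3c_holo_param (μ := volume.restrict K) (G := fun z w => (g w : ℂ) * ψ z w)
      (ρ := r / 2) (b := fun _ => M) (by linarith) ?_ ?_ ?_ ?_
    · exact integrableOn_const hKc.measure_lt_top.ne
    · intro z hz
      rw [h2r] at hz
      exact (hGz z (hballK hz)).aestronglyMeasurable hKm
    · filter_upwards [ae_restrict_mem hKm] with w hw z hz
      rw [h2r] at hz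
      exact ((hψd z (hK (hballK hz)) w (hK hw)).const_mul _).differentiableWithinAt
    · filter_upwards [ae_restrict_mem hKm] with w hw z hz
      rw [h2r] at hz
      exact hM (z, w) ⟨hballK hz, hw⟩
  have hgs : HasCompactSupport (fun w => (g w : ℂ)) := by
    refine HasCompactSupport.intro hKc fun w hw => ?_
    rw [hs w hw, Complex.ofReal_zero]
  have hgC : ContDiff ℝ 1 (fun w => (g w : ℂ)) := Complex.ofRealCLM.contDiff.comp hg
  have hint : ∀ z, Integrable (fun w => (g w : ℂ) / (w - z)) := by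
    intro z
    obtain ⟨B, hB⟩ := hgs.exists_bound_of_continuous hgC.continuous
    refine ct_integrable (w := fun w => (g w : ℂ)) (c := z₀) (R := r) (B := B)
      hgC.continuous.aestronglyMeasurable hB ?_ z
    intro w hw
    rw [← hKd] at hw
    rw [hs w hw, Complex.ofReal_zero]
  have hrep : ∀ z ∈ ball z₀ r, W h g z = (∫ w in K, (g w : ℂ) * ψ z w) +
      (1 / (2 * Real.pi) : ℂ) * CT (fun w => (g w : ℂ)) z := by
    intro z hz
    have hzK := hballK hz
    have e1 : W h g z = ∫ w in K, (g w : ℂ) * ker h z w := by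
      unfold W
      refine setIntegral_eq_of_subset_of_forall_sdiff_eq_zero (s3c_isClosed_S h).measurableSet
        (hK.trans hSU) ?_
      intro w hw
      rw [hs w hw.2, Complex.ofReal_zero, zero_mul]
    have e2 : CT (fun w => (g w : ℂ)) z = ∫ w in K, (g w : ℂ) / (w - z) := by
      unfold CT
      rw [setIntegral_eq_integral_of_forall_compl_eq_zero]
      intro w hw
      rw [hs w hw, Complex.ofReal_zero, zero_div]
    rw [e1, e2, ← integral_const_mul, ← integral_add ((hGz z hzK).integrableOn_compact hKc)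
      ((hint z).integrableOn.const_mul _)]
    refine integral_congr_ae ?_
    have hne : ∀ᵐ w ∂(volume.restrict K), w ≠ z := by
      refine ae_restrict_of_ae ?_
      have := measure_eq_zero_iff_ae_notMem.1 (measure_singleton z (μ := (volume : Measure ℂ)))
      filter_upwards [this] with w hw
      simpa using hw
    filter_upwards [ae_restrict_mem hKm, hne] with w hw hwz
    have hs1 := (sinh_kb_ne hh (hSU (hK hzK)) (hSU (hK hw)) (Ne.symm hwz)).1
    have hkb0 : kb h z w ≠ 0 := by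
      intro h0
      rw [h0, Complex.sinh_zero] at hs1
      exact hs1 rfl
    have e3 : ker h z w = ψ z w + (1 / (2 * Real.pi) : ℂ) * (1 / (w - z)) := by
      have hzw : z - w ≠ 0 := sub_ne_zero.2 (Ne.symm hwz)
      have hwz' : w - z ≠ 0 := sub_ne_zero.2 hwz
      have hhc : (h : ℂ) ≠ 0 := by exact_mod_cast hh.ne'
      have hpi : (Real.pi : ℂ) ≠ 0 := by exact_mod_cast Real.pi_ne_zero
      have e4 : (1 / (4 * h) : ℂ) * (1 / kb h z w) = (1 / (2 * Real.pi) : ℂ) * (1 / (z - w)) := by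
        unfold kb
        field_simp
        ring
      have e5 : (1 / (w - z) : ℂ) = -(1 / (z - w)) := by
        rw [← neg_sub z w, div_neg]
      rw [hψ, hη1 _ hs1, e5]
      have e6 : ker h z w = (1 / (4 * h) : ℂ) * (cth (ka h z w) - cth (kb h z w)) := by
        unfold ker ka kb
        push_cast
        ring
      rw [e6]
      linear_combination -e4
    show (g w : ℂ) * ker h z w = (g w : ℂ) * ψ z w + (1 / (2 * Real.pi) : ℂ) * ((g w : ℂ) / (w - z))
    rw [e3]
    ring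
  obtain ⟨D₁, hD₁, hd₁⟩ := s3c_holo_dbar hR
  obtain ⟨D₂, hD₂, hd₂⟩ := ct_fderiv hgC hgs z₀
  refine ⟨D₁ + (1 / (2 * Real.pi) : ℂ) • D₂, ?_, ?_⟩
  · have h1 : HasFDerivAt (fun z => (∫ w in K, (g w : ℂ) * ψ z w) +
        (1 / (2 * Real.pi) : ℂ) * CT (fun w => (g w : ℂ)) z)
        (D₁ + (1 / (2 * Real.pi) : ℂ) • D₂) z₀ := by
      refine hD₁.add ?_
      have h2 := hD₂.const_smul (1 / (2 * Real.pi) : ℂ)
      exact h2
    refine h1.congr_of_eventuallyEq ?_
    filter_upwards [ball_mem_nhds z₀ hr] with z hz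
    exact hrep z hz
  · rw [s3c_dbar_add, s3c_dbar_smul, hd₁, hd₂]
    have hpi : (Real.pi : ℂ) ≠ 0 := by exact_mod_cast Real.pi_ne_zero
    field_simp
    ring

theorem W_dbar {h : ℝ} (hh : 0 < h) {f : ℂ → ℝ} {f' : ℂ → (ℂ →L[ℝ] ℝ)} {B B' : ℝ}
    (hd : ∀ z ∈ U h, HasFDerivAt f (f' z) z) (hc : ContinuousOn f' (U h)) (hB : ∀ z ∈ U h, |f z| ≤ B)
    (hB' : ∀ z ∈ U h, ‖f' z‖ ≤ B') {z : ℂ} (hz : z ∈ U h) :
    ∃ D : ℂ →L[ℝ] ℂ, HasFDerivAt (W h f) D z ∧ dbar D = -(f z : ℂ) / 2 := by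
  have hUo := s3c_isOpen_U h
  obtain ⟨ε, hε, hεU⟩ := Metric.isOpen_iff.1 hUo z hz
  obtain ⟨r, hr⟩ : ∃ r : ℝ, r = ε / 4 := ⟨_, rfl⟩
  have hr0 : 0 < r := by rw [hr]; linarith
  have hK : closedBall z (2 * r) ⊆ U h := by
    refine subset_trans ?_ hεU
    exact closedBall_subset_ball (by rw [hr]; linarith)
  obtain ⟨χ, hχ1, hχ2⟩ : ∃ χ : ContDiffBump z, χ.rIn = r ∧ χ.rOut = 2 * r :=
    ⟨⟨r, 2 * r, hr0, by linarith⟩, rfl, rfl⟩
  have hχ0 : ∀ w, w ∉ closedBall z (2 * r) → χ w = 0 := by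
    intro w hw
    by_contra hne
    have h1 : w ∈ Function.support χ := hne
    rw [χ.support_eq, hχ2] at h1
    exact hw (ball_subset_closedBall h1)
  have hχe : ∀ w ∈ ball z r, χ w = 1 := by
    intro w hw
    refine χ.one_of_mem_closedBall ?_
    rw [hχ1]
    exact ball_subset_closedBall hw
  have hfc : ContinuousOn f (U h) := fun w hw => (hd w hw).continuousAt.continuousWithinAt
  obtain ⟨g₁, hg₁⟩ : ∃ g : ℂ → ℝ, ∀ w, g w = χ w * f w := ⟨_, fun _ => rfl⟩
  obtain ⟨g₂, hg₂⟩ : ∃ g : ℂ → ℝ, ∀ w, g w = (1 - χ w) * f w := ⟨_, fun _ => rfl⟩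
  have hχc : Continuous χ := χ.continuous
  have hχm : ∀ w, 0 ≤ χ w ∧ χ w ≤ 1 := fun w => ⟨χ.nonneg, χ.le_one⟩
  have hBM1 : BM h g₁ B := by
    refine BM_of_continuousOn ?_ ?_
    · have : g₁ = fun w => χ w * f w := funext hg₁
      rw [this]
      exact hχc.continuousOn.mul hfc
    · intro w hw
      rw [hg₁, abs_mul, abs_of_nonneg (hχm w).1]
      have := hB w hw
      have := abs_nonneg (f w)
      nlinarith [hχm w]
  have hBM2 : BM h g₂ B := by
    refine BM_of_continuousOn ?_ ?_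
    · have : g₂ = fun w => (1 - χ w) * f w := funext hg₂
      rw [this]
      exact (continuous_const.sub hχc).continuousOn.mul hfc
    · intro w hw
      rw [hg₂, abs_mul, abs_of_nonneg (by linarith [(hχm w).2])]
      have := hB w hw
      have := abs_nonneg (f w)
      nlinarith [hχm w]
  have hg₁d : ContDiff ℝ 1 g₁ := by
    rw [contDiff_iff_contDiffAt]
    intro x
    by_cases hx : x ∈ U h
    · have h1 : ContDiffAt ℝ 1 f x := by
        rw [contDiffAt_one_iff]
        exact ⟨f', U h, hUo.mem_nhds hx, hc, hd⟩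
      have : g₁ = fun w => χ w * f w := funext hg₁
      rw [this]
      exact χ.contDiffAt.mul h1
    · have h1 : x ∈ (closedBall z (2 * r))ᶜ := fun hx' => hx (hK hx')
      have h2 : g₁ =ᶠ[𝓝 x] fun _ => 0 := by
        filter_upwards [isClosed_closedBall.isOpen_compl.mem_nhds h1] with w hw
        rw [hg₁, hχ0 w hw, zero_mul]
      exact contDiffAt_const.congr_of_eventuallyEq h2
  obtain ⟨D₁, hD₁, hd₁⟩ := s3c_near hh (by linarith : 0 < 2 * r) hK hg₁d (by
    intro w hw
    rw [hg₁, hχ0 w hw, zero_mul])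
  have hfar : DifferentiableAt ℂ (W h g₂) z := by
    refine s3c_far hh hBM2 hr0 ?_ ?_
    · exact subset_trans (ball_subset_closedBall.trans (closedBall_subset_closedBall (by linarith))) hK
    · intro w hw
      rw [hg₂, hχe w hw, sub_self, zero_mul]
  obtain ⟨D₂, hD₂, hd₂⟩ := s3c_holo_dbar hfar
  refine ⟨D₁ + D₂, ?_, ?_⟩
  · refine (hD₁.add hD₂).congr_of_eventuallyEq ?_
    filter_upwards [hUo.mem_nhds hz] with w hw
    have h1 : f = fun w => g₁ w + g₂ w := by
      funext w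
      rw [hg₁, hg₂]
      ring
    have h2 := W_add hh hBM1 hBM2 (s3c_U_subset_S h hw)
    rw [← h1] at h2
    rw [h2]
    rfl
  · rw [s3c_dbar_add, hd₁, hd₂, add_zero, hg₁, hχe z (mem_ball_self hr0), one_mul]

end Pool.Agent.EAC
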