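import Pool.Agent.EAC.S3a
import Pool.Agent.EAC.S3c

/-!
# EAC-S3: the equation `∂̄ W = -f/2`

`f` differentiable in the open strip with bounded continuous derivative `f'`.
`W_deriv_x`: `W h f (z+x) = ∫ f(w+x) ker h z w` (`W_shift`), differentiate under the integral sign
(`hasDerivAt_integral_of_dominated_loc_of_deriv_le`).
`ct_fderiv`: `w` continuously differentiable on `ℂ` with compact support: `CT w` is differentiable, `D(CT w)(ζ) e = CT (fun z => Dw z e) ζ`
(differentiate `∫ w(ζ+s)/s ds`), and `dbar (D (CT w)(ζ)) = CT (dbar Dw) ζ = -π w ζ` (`ct_rep`).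
`W_fderiv`: near `z₀ ∈ U h` take a smooth bump `χ` at `z₀` supported in `U h`; `W[(1-χ)f]` is holomorphic near `z₀`
(kernel holomorphic in `z` for `w` away from `z₀`; `conj w` is never near `z₀` nor the other lattice points); `W[χ f] =
(1/2π) CT(χ f) + holomorphic` because `cth(πu/2h)·(π/2h)... = 1/u + entire near` : `ker h z w = -(1/2π)/(z-w) + (holomorphic in z, bounded)`.
So `W` is real differentiable at `z₀` with `dbar = -f/2`; `D 1 = W[f_x]` by `W_deriv_x`; `D i = i (D 1 - 2 dbar)`.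

THIS FILE: DW, W_fderiv.
-/

set_option autoImplicit false

noncomputable section

namespace Pool.Agent.EAC


open MeasureTheory Set Filter Topology Metric
open scoped ENNReal ComplexConjugate

/-- the derivative of `W h f`: `D 1 = W[f_x]`, `D i = i (W[f_x] + f)`. -/
def DW (h : ℝ) (f : ℂ → ℝ) (f' : ℂ → (ℂ →L[ℝ] ℝ)) (z : ℂ) : ℂ →L[ℝ] ℂ :=
  Complex.reCLM.smulRight (W h (fun w => f' w 1) z) +
    Complex.imCLM.smulRight (Complex.I * (W h (fun w => f' w 1) z + f z))

theorem W_fderiv {h : ℝ} (hh : 0 < h) {f : ℂ → ℝ} {f' : ℂ → (ℂ →L[ℝ] ℝ)} {B B' : ℝ}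
    (hd : ∀ z ∈ U h, HasFDerivAt f (f' z) z) (hc : ContinuousOn f' (U h)) (hB : ∀ z ∈ U h, |f z| ≤ B)
    (hB' : ∀ z ∈ U h, ‖f' z‖ ≤ B') {z : ℂ} (hz : z ∈ U h) :
    HasFDerivAt (W h f) (DW h f f' z) z := by
  obtain ⟨D, hD, hbar⟩ := W_dbar hh hd hc hB hB' hz
  have h1 := W_deriv_x hh hd hc hB hB' (z := z) ⟨hz.1.le, hz.2.le⟩
  have h2 : HasDerivAt (fun x : ℝ => W h f (z + x)) (D 1) 0 := by
    have h3 : HasDerivAt (fun x : ℝ => z + (x : ℂ)) 1 0 := by
      simpa using (Complex.ofRealCLM.hasDerivAt (x := (0:ℝ))).const_add z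
    have h4 : HasFDerivAt (W h f) D (z + ((0:ℝ) : ℂ)) := by simpa using hD
    exact h4.comp_hasDerivAt (0:ℝ) h3
  have h3 : D 1 = W h (fun w => f' w 1) z := h2.unique h1
  have h4 : D Complex.I = Complex.I * (W h (fun w => f' w 1) z + f z) := by
    unfold dbar at hbar
    rw [h3] at hbar
    have hI := Complex.I_mul_I
    linear_combination (-2 * Complex.I) * hbar + (D Complex.I) * hI
  have h5 : D = DW h f f' z := by
    ext w
    have h6 : w = w.re • (1 : ℂ) + w.im • Complex.I := by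
      simp [Complex.re_add_im]
    conv_lhs => rw [h6]
    rw [map_add, map_smul, map_smul, h3, h4]
    simp [DW]
  rw [← h5]
  exact hD

end Pool.Agent.EAC
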