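import Pool.Agent.EAC.S2

/-!
# EAC-S3e: `W h f` is holomorphic near a real point near which `f` vanishes

The kernel `ker h z w` is holomorphic in `z`; for `z` close to `z₀` and `w` away from `z₀` and `conj z₀` it is, together with its
derivative, bounded by `C / (1 + (Re w - Re z₀)²)`, an integrable function on the strip. Differentiate under the
integral sign.
-/

set_option autoImplicit false

noncomputable section

namespace Pool.Agent.EAC


open MeasureTheory Set Filter Topology Metric
open scoped ENNReal ComplexConjugate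

namespace S3e

/-- the derivative of the kernel. -/
def kd (h : ℝ) (z w : ℂ) : ℂ :=
  (1 / (4 * h) : ℝ) * ((Real.pi / (2 * h) : ℝ) * (-1 / Complex.sinh (ka h z w) ^ 2) -
    (Real.pi / (2 * h) : ℝ) * (-1 / Complex.sinh (kb h z w) ^ 2))

theorem cth_deriv {w : ℂ} (hw : Complex.sinh w ≠ 0) :
    HasDerivAt cth (-1 / Complex.sinh w ^ 2) w := by
  have h1 := (Complex.hasDerivAt_cosh w).div (Complex.hasDerivAt_sinh w) hw
  have e : (Complex.sinh w * Complex.sinh w - Complex.cosh w * Complex.cosh w) / Complex.sinh w ^ 2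
      = -1 / Complex.sinh w ^ 2 := by
    congr 1
    have := Complex.cosh_sq w
    linear_combination (-1 : ℂ) * this
  rw [e] at h1
  exact h1

theorem ker_deriv {h : ℝ} {z w : ℂ} (hb : Complex.sinh (kb h z w) ≠ 0)
    (ha : Complex.sinh (ka h z w) ≠ 0) :
    HasDerivAt (fun z => ker h z w) (kd h z w) z := by
  have h1 : HasDerivAt (fun z : ℂ => kb h z w) ((Real.pi / (2 * h) : ℝ) : ℂ) z := by
    have := ((hasDerivAt_id z).sub_const w).const_mul ((Real.pi / (2 * h) : ℝ) : ℂ)
    rw [mul_one] at this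
    refine this.congr_of_eventuallyEq (Filter.Eventually.of_forall fun y => ?_)
    simp only [kb, id]
    push_cast
    ring
  have h2 : HasDerivAt (fun z : ℂ => ka h z w) ((Real.pi / (2 * h) : ℝ) : ℂ) z := by
    have := ((hasDerivAt_id z).sub_const (conj w)).const_mul ((Real.pi / (2 * h) : ℝ) : ℂ)
    rw [mul_one] at this
    refine this.congr_of_eventuallyEq (Filter.Eventually.of_forall fun y => ?_)
    simp only [ka, id]
    push_cast
    ring
  have h3 := (HasDerivAt.comp z (cth_deriv hb) h1)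
  have h4 := (HasDerivAt.comp z (cth_deriv ha) h2)
  have h5 := (h4.sub h3).const_mul ((1 / (4 * h) : ℝ) : ℂ)
  refine (h5.congr_of_eventuallyEq (Filter.Eventually.of_forall fun y => ?_)).congr_deriv ?_
  · simp only [ker, ka, kb, Function.comp, Pi.sub_apply]
  · simp only [kd]
    ring

theorem kd_norm (h : ℝ) (hh : 0 < h) (z w : ℂ) :
    ‖kd h z w‖ ≤ Real.pi / (8 * h ^ 2) *
      (1 / ‖Complex.sinh (ka h z w)‖ ^ 2 + 1 / ‖Complex.sinh (kb h z w)‖ ^ 2) := by
  have h1 : ‖kd h z w‖ = 1 / (4 * h) * (‖((Real.pi / (2 * h) : ℝ) : ℂ) * (-1 / Complex.sinh (ka h z w) ^ 2) -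
    ((Real.pi / (2 * h) : ℝ) : ℂ) * (-1 / Complex.sinh (kb h z w) ^ 2)‖) := by
    rw [kd, norm_mul, Complex.norm_of_nonneg (by positivity)]
  rw [h1]
  have h2 := norm_sub_le (((Real.pi / (2 * h) : ℝ) : ℂ) * (-1 / Complex.sinh (ka h z w) ^ 2))
    (((Real.pi / (2 * h) : ℝ) : ℂ) * (-1 / Complex.sinh (kb h z w) ^ 2))
  have h3 : ∀ s : ℂ, ‖((Real.pi / (2 * h) : ℝ) : ℂ) * (-1 / s ^ 2)‖ =
      Real.pi / (2 * h) * (1 / ‖s‖ ^ 2) := by
    intro s
    rw [norm_mul, Complex.norm_of_nonneg (by positivity), norm_div, norm_neg, norm_one, norm_pow]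
  rw [h3, h3] at h2
  have h4 : Real.pi / (8 * h ^ 2) *
      (1 / ‖Complex.sinh (ka h z w)‖ ^ 2 + 1 / ‖Complex.sinh (kb h z w)‖ ^ 2) =
      1 / (4 * h) * (Real.pi / (2 * h) * (1 / ‖Complex.sinh (ka h z w)‖ ^ 2) +
        Real.pi / (2 * h) * (1 / ‖Complex.sinh (kb h z w)‖ ^ 2)) := by
    field_simp
    ring
  rw [h4]
  gcongr

theorem kd_meas (h : ℝ) (z : ℂ) : Measurable (fun w => kd h z w) := by
  unfold kd ka kb
  have h1 : Measurable (fun w : ℂ => conj w) := Complex.continuous_conj.measurable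
  have h2 : Measurable Complex.sinh := Complex.continuous_sinh.measurable
  fun_prop

theorem sinh_ge {t : ℝ} (ht : 0 ≤ t) : t ^ 2 / 4 ≤ Real.sinh t := by
  have h1 := Real.quadratic_le_exp_of_nonneg ht
  have h2 : Real.exp (-t) ≤ 1 := by
    rw [Real.exp_le_one_iff]
    linarith
  rw [Real.sinh_eq]
  nlinarith

/-- lower bound of `sinh b`. -/
theorem kb_ge {h ε : ℝ} (hh : 0 < h) {z w : ℂ} (hz : z ∈ S h) (hw : w ∈ S h)
    (hzw : ε ≤ ‖z - w‖) :
    min (ε / h) (1 / (4 * h ^ 2)) / 2 * (1 + (z.re - w.re) ^ 2) ≤ ‖Complex.sinh (kb h z w)‖ := by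
  obtain ⟨h1, h2⟩ := le_sinh_kb hh hz hw
  have h3 : ε / h ≤ ‖Complex.sinh (kb h z w)‖ := le_trans (by gcongr) h1
  have h4 := sinh_ge (t := Real.pi * |z.re - w.re| / (2 * h)) (by positivity)
  have h5 : 1 / (4 * h ^ 2) * (z.re - w.re) ^ 2 ≤ (Real.pi * |z.re - w.re| / (2 * h)) ^ 2 / 4 := by
    rw [div_pow, mul_pow, sq_abs, mul_pow]
    have hp : 4 ≤ Real.pi ^ 2 := by
      have := Real.pi_gt_three
      nlinarith
    have e : 1 / (4 * h ^ 2) * (z.re - w.re) ^ 2 = 4 * (z.re - w.re) ^ 2 / (2 ^ 2 * h ^ 2) / 4 := by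
      field_simp
      ring
    rw [e]
    gcongr
  have h6 : min (ε / h) (1 / (4 * h ^ 2)) * 1 ≤ ‖Complex.sinh (kb h z w)‖ := by
    rw [mul_one]
    exact (min_le_left _ _).trans h3
  have h7 : min (ε / h) (1 / (4 * h ^ 2)) * (z.re - w.re) ^ 2 ≤ ‖Complex.sinh (kb h z w)‖ := by
    refine le_trans ?_ (h5.trans (h4.trans h2))
    exact mul_le_mul_of_nonneg_right (min_le_right _ _) (sq_nonneg _)
  nlinarith

/-- both `sinh a` and `sinh b` are bounded below, for `z` or `conj z` in the strip. -/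
theorem kab_ge {h ε : ℝ} (hh : 0 < h) {z w : ℂ} (hz : |z.im| ≤ h) (hw : w ∈ S h)
    (hzw : ε ≤ ‖z - w‖) (hzw' : ε ≤ ‖z - conj w‖) :
    min (ε / h) (1 / (4 * h ^ 2)) / 2 * (1 + (z.re - w.re) ^ 2) ≤ ‖Complex.sinh (kb h z w)‖ ∧
    min (ε / h) (1 / (4 * h ^ 2)) / 2 * (1 + (z.re - w.re) ^ 2) ≤ ‖Complex.sinh (ka h z w)‖ := by
  rw [abs_le] at hz
  rcases le_total 0 z.im with h0 | h0
  · have hz' : z ∈ S h := ⟨h0, hz.2⟩
    have h1 := kb_ge hh hz' hw hzw
    exact ⟨h1, h1.trans (sinh_kb_le hh hz' hw)⟩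
  · have hz' : conj z ∈ S h := by
      constructor
      · rw [Complex.conj_im]; linarith
      · rw [Complex.conj_im]; linarith
    have h2 : ε ≤ ‖conj z - w‖ := by
      have : conj z - w = conj (z - conj w) := by simp
      rw [this, RCLike.norm_conj]
      exact hzw'
    have h1 := kb_ge hh hz' hw h2
    rw [Complex.conj_re] at h1
    have ea : ka h z w = conj (kb h (conj z) w) := by
      simp only [ka, kb, map_div₀, map_mul, map_sub, Complex.conj_conj, Complex.conj_ofReal, map_ofNat]
    have eb : kb h z w = conj (ka h (conj z) w) := by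
      simp only [ka, kb, map_div₀, map_mul, map_sub, Complex.conj_conj, Complex.conj_ofReal, map_ofNat]
    rw [ea, eb, Complex.sinh_conj, Complex.sinh_conj, RCLike.norm_conj, RCLike.norm_conj]
    exact ⟨h1.trans (sinh_kb_le hh hz' hw), h1⟩

/-- the dominating function is integrable on the strip. -/
theorem dom_int (h a : ℝ) : IntegrableOn (fun w : ℂ => 1 / (1 + (w.re - a) ^ 2)) (S h) := by
  have hS : MeasurableSet (S h) := by
    have : S h = Complex.im ⁻¹' (Icc 0 h) := by
      ext z
      simp [S]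
    rw [this]
    exact measurableSet_Icc.preimage Complex.measurable_im
  rw [← integrable_indicator_iff hS]
  have h1 : Integrable (fun x : ℝ => 1 / (1 + (x - a) ^ 2)) := by
    have := integrable_inv_one_add_sq.comp_sub_right a
    simpa [one_div] using this
  have h2 : Integrable (fun y : ℝ => (Icc (0 : ℝ) h).indicator (fun _ => (1 : ℝ)) y) := by
    rw [integrable_indicator_iff measurableSet_Icc]
    exact integrableOn_const (by simp)
  have h3 := h1.mul_prod h2
  have h4 := (Complex.volume_preserving_equiv_real_prod).integrable_comp_of_integrable h3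
  refine h4.congr (Filter.Eventually.of_forall fun w => ?_)
  simp only [Function.comp, Complex.measurableEquivRealProd_apply]
  by_cases hw : w ∈ S h
  · rw [indicator_of_mem hw, indicator_of_mem (show w.im ∈ Icc (0 : ℝ) h from hw), mul_one]
  · rw [indicator_of_notMem hw, indicator_of_notMem (show w.im ∉ Icc (0 : ℝ) h from hw), mul_zero]

end S3e

open S3e in
/-- `W h f` is holomorphic near a real point near which `f` vanishes. -/
theorem W_holo {h d : ℝ} (hh : 0 < h) (hd : 0 < d) {f : ℂ → ℝ} {B : ℝ} (hf : BM h f B) {x : ℝ}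
    (h0 : ∀ w ∈ U h, ‖w - x‖ < d → f w = 0) : DifferentiableOn ℂ (W h f) (ball (x : ℂ) (min d h)) := by
  intro z₀ hz₀
  rw [mem_ball, dist_eq_norm] at hz₀
  set ε : ℝ := (min d h - ‖z₀ - x‖) / 2 with hεdef
  have hε : 0 < ε := by
    rw [hεdef]
    linarith
  have hr : 0 < min 1 ε := lt_min one_pos hε
  set c : ℝ := min (ε / h) (1 / (4 * h ^ 2)) / 2 with hc
  have hcpos : 0 < c := by
    rw [hc]
    positivity
  -- geometry
  have hgeo : ∀ z ∈ ball z₀ (min 1 ε), ∀ w ∈ U h, f w ≠ 0 →
      c / 3 * (1 + (w.re - z₀.re) ^ 2) ≤ ‖Complex.sinh (kb h z w)‖ ∧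
      c / 3 * (1 + (w.re - z₀.re) ^ 2) ≤ ‖Complex.sinh (ka h z w)‖ := by
    intro z hz w hw hfw
    rw [mem_ball, dist_eq_norm] at hz
    have hz1 : ‖z - z₀‖ < 1 := lt_of_lt_of_le hz (min_le_left _ _)
    have hz2 : ‖z - z₀‖ < ε := lt_of_lt_of_le hz (min_le_right _ _)
    have hzx : ‖z - x‖ ≤ min d h - ε := by
      have : z - x = (z - z₀) + (z₀ - x) := by ring
      rw [this]
      refine (norm_add_le _ _).trans ?_
      rw [hεdef] at hz2 ⊢
      linarith
    have hwx : d ≤ ‖w - x‖ := by
      by_contra hcon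
      exact hfw (h0 w hw (not_le.mp hcon))
    have h1 : ε ≤ ‖z - w‖ := by
      have h2 : ‖w - x‖ ≤ ‖z - w‖ + ‖z - x‖ := by
        have : w - x = -(z - w) + (z - x) := by ring
        rw [this]
        refine (norm_add_le _ _).trans ?_
        rw [norm_neg]
      have := min_le_left d h
      linarith
    have h2 : ε ≤ ‖z - conj w‖ := by
      have h3 : ‖conj w - x‖ = ‖w - x‖ := by
        have : conj w - x = conj (w - x) := by simp
        rw [this, RCLike.norm_conj]
      have h2 : ‖conj w - x‖ ≤ ‖z - conj w‖ + ‖z - x‖ := by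
        have : conj w - x = -(z - conj w) + (z - x) := by ring
        rw [this]
        refine (norm_add_le _ _).trans ?_
        rw [norm_neg]
      have := min_le_left d h
      linarith
    have h3 : |z.im| ≤ h := by
      have h4 : |(z - x).im| ≤ ‖z - x‖ := Complex.abs_im_le_norm _
      rw [Complex.sub_im, Complex.ofReal_im, sub_zero] at h4
      have := min_le_right d h
      linarith
    obtain ⟨h4, h5⟩ := kab_ge hh h3 ⟨hw.1.le, hw.2.le⟩ h1 h2
    have h6 : 1 + (w.re - z₀.re) ^ 2 ≤ 3 * (1 + (z.re - w.re) ^ 2) := by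
      have h7 : |(z - z₀).re| ≤ ‖z - z₀‖ := Complex.abs_re_le_norm _
      rw [Complex.sub_re] at h7
      have h8 : (z.re - z₀.re) ^ 2 ≤ 1 := by
        rw [← sq_abs]
        have := abs_nonneg (z.re - z₀.re)
        nlinarith
      nlinarith [sq_nonneg ((w.re - z.re) - (z.re - z₀.re))]
    have h9 : c / 3 * (1 + (w.re - z₀.re) ^ 2) ≤ c * (1 + (z.re - w.re) ^ 2) := by
      have : c / 3 * (1 + (w.re - z₀.re) ^ 2) ≤ c / 3 * (3 * (1 + (z.re - w.re) ^ 2)) := by
        gcongr
      linarith
    exact ⟨h9.trans h4, h9.trans h5⟩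
  have hB0 : 0 ≤ B := (abs_nonneg _).trans (hf.2 ((h / 2 : ℝ) * Complex.I) (by
    constructor
    · simp; exact hh
    · simp; linarith))
  have haeU : ∀ᵐ w ∂(volume.restrict (S h)), w ∈ U h := by
    rw [ae_restrict_iff' (by
      have : S h = Complex.im ⁻¹' (Icc 0 h) := by
        ext z
        simp [S]
      rw [this]
      exact measurableSet_Icc.preimage Complex.measurable_im)]
    have := vol_S_diff_U h
    rw [measure_eq_zero_iff_ae_notMem] at this
    filter_upwards [this] with w hw hwS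
    by_contra hcon
    exact hw ⟨hwS, hcon⟩
  -- pointwise bounds
  have hne : ∀ z ∈ ball z₀ (min 1 ε), ∀ w ∈ U h, f w ≠ 0 →
      Complex.sinh (kb h z w) ≠ 0 ∧ Complex.sinh (ka h z w) ≠ 0 := by
    intro z hz w hw hfw
    obtain ⟨h1, h2⟩ := hgeo z hz w hw hfw
    have h3 : 0 < c / 3 * (1 + (w.re - z₀.re) ^ 2) := by positivity
    exact ⟨norm_pos_iff.mp (h3.trans_le h1), norm_pos_iff.mp (h3.trans_le h2)⟩
  have hq : ∀ z ∈ ball z₀ (min 1 ε), ∀ w ∈ U h, f w ≠ 0 →
      1 / ‖Complex.sinh (kb h z w)‖ ≤ 3 / c * (1 / (1 + (w.re - z₀.re) ^ 2)) ∧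
      1 / ‖Complex.sinh (ka h z w)‖ ≤ 3 / c * (1 / (1 + (w.re - z₀.re) ^ 2)) := by
    intro z hz w hw hfw
    obtain ⟨h1, h2⟩ := hgeo z hz w hw hfw
    have h3 : 0 < c / 3 * (1 + (w.re - z₀.re) ^ 2) := by positivity
    have e : 3 / c * (1 / (1 + (w.re - z₀.re) ^ 2)) = 1 / (c / 3 * (1 + (w.re - z₀.re) ^ 2)) := by
      field_simp
    rw [e]
    exact ⟨one_div_le_one_div_of_le h3 h1, one_div_le_one_div_of_le h3 h2⟩
  have hbase : z₀ ∈ ball z₀ (min 1 ε) := mem_ball_self hr
  -- integrable at `z₀`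
  have hm : ∀ z : ℂ, AEStronglyMeasurable (fun w => (f w : ℂ) * ker h z w) (volume.restrict (S h)) := by
    intro z
    refine AEStronglyMeasurable.mul (Complex.continuous_ofReal.comp_aestronglyMeasurable hf.1) ?_
    exact ((ker_measurable h).comp measurable_prodMk_left).aestronglyMeasurable
  have hint : Integrable (fun w => (f w : ℂ) * ker h z₀ w) (volume.restrict (S h)) := by
    have hg : Integrable (fun w : ℂ => B * ((1 / (2 * h)) * (3 / c * (1 / (1 + (w.re - z₀.re) ^ 2)))))
        (volume.restrict (S h)) :=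
      (((dom_int h z₀.re).const_mul _).const_mul _).const_mul _
    refine hg.mono' (hm z₀) ?_
    filter_upwards [haeU] with w hw
    rw [norm_mul, Complex.norm_real, Real.norm_eq_abs]
    by_cases hfw : f w = 0
    · rw [hfw, abs_zero, zero_mul]
      positivity
    · have h1 := hq z₀ hbase w hw hfw
      have hk : ‖ker h z₀ w‖ ≤ (1 / (2 * h)) * (3 / c * (1 / (1 + (w.re - z₀.re) ^ 2))) := by
        have hwS : w ∈ S h := ⟨hw.1.le, hw.2.le⟩
        have hz0im : |z₀.im| < h := by
          have h4 : |(z₀ - x).im| ≤ ‖z₀ - x‖ := Complex.abs_im_le_norm _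
          rw [Complex.sub_im, Complex.ofReal_im, sub_zero] at h4
          have := min_le_right d h
          linarith
        rw [abs_lt] at hz0im
        have hwx : d ≤ ‖w - x‖ := by
          by_contra hcon
          exact hfw (h0 w hw (not_le.mp hcon))
        rcases le_total 0 z₀.im with hz0 | hz0
        · have hzw : z₀ ≠ w := by
            intro hzw
            rw [hzw] at hz₀
            have := min_le_left d h
            linarith
          refine (ker_le_sinh hh ⟨hz0, hz0im.2.le⟩ hwS hzw).trans ?_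
          rw [div_eq_mul_one_div (1 / (2 * h))]
          exact mul_le_mul_of_nonneg_left h1.1 (by positivity)
        · have hzS : conj z₀ ∈ S h := by
            constructor
            · rw [Complex.conj_im]; linarith
            · rw [Complex.conj_im]; linarith
          have hzw : conj z₀ ≠ w := by
            intro hzw
            have h5 : ‖w - x‖ = ‖z₀ - x‖ := by
              rw [← hzw]
              have : conj z₀ - x = conj (z₀ - x) := by simp
              rw [this, RCLike.norm_conj]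
            have := min_le_left d h
            linarith
          have h6 : ‖ker h z₀ w‖ = ‖ker h (conj z₀) w‖ := by
            rw [ker_conj, norm_neg, RCLike.norm_conj]
          rw [h6]
          refine (ker_le_sinh hh hzS hwS hzw).trans ?_
          rw [div_eq_mul_one_div (1 / (2 * h))]
          have eb : kb h (conj z₀) w = conj (ka h z₀ w) := by
            simp only [ka, kb, map_div₀, map_mul, map_sub, Complex.conj_conj, Complex.conj_ofReal,
              map_ofNat]
          rw [eb, Complex.sinh_conj, RCLike.norm_conj]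
          exact mul_le_mul_of_nonneg_left h1.2 (by positivity)
      exact mul_le_mul (hf.2 w hw) hk (norm_nonneg _) hB0
  have hkey := hasDerivAt_integral_of_dominated_loc_of_deriv_le
    (μ := volume.restrict (S h)) (F := fun z w => (f w : ℂ) * ker h z w)
    (F' := fun z w => (f w : ℂ) * kd h z w) (x₀ := z₀) (s := ball z₀ (min 1 ε))
    (bound := fun w : ℂ => B * (Real.pi / (8 * h ^ 2) *
      (2 * ((3 / c) ^ 2 * (1 / (1 + (w.re - z₀.re) ^ 2))))))
    (ball_mem_nhds z₀ hr) (Filter.Eventually.of_forall fun z => hm z) hint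
    (AEStronglyMeasurable.mul (Complex.continuous_ofReal.comp_aestronglyMeasurable hf.1)
      (kd_meas h z₀).aestronglyMeasurable) ?_
    ((((dom_int h z₀.re).const_mul _).const_mul _).const_mul _ |>.const_mul _) ?_
  · exact hkey.2.differentiableAt.differentiableWithinAt
  · filter_upwards [haeU] with w hw z hz
    rw [norm_mul, Complex.norm_real, Real.norm_eq_abs]
    by_cases hfw : f w = 0
    · rw [hfw, abs_zero, zero_mul]
      positivity
    · refine mul_le_mul (hf.2 w hw) ((kd_norm h hh z w).trans ?_) (norm_nonneg _) hB0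
      have h1 := hq z hz w hw hfw
      have hsq : ∀ s : ℝ, 0 ≤ s → 1 / s ≤ 3 / c * (1 / (1 + (w.re - z₀.re) ^ 2)) →
          1 / s ^ 2 ≤ (3 / c) ^ 2 * (1 / (1 + (w.re - z₀.re) ^ 2)) := by
        intro s hs hs1
        have h2 : 1 / s ^ 2 = (1 / s) ^ 2 := by rw [div_pow, one_pow]
        rw [h2]
        have h3 : (1 / s) ^ 2 ≤ (3 / c * (1 / (1 + (w.re - z₀.re) ^ 2))) ^ 2 :=
          pow_le_pow_left₀ (by positivity) hs1 2
        refine h3.trans ?_
        rw [mul_pow]
        refine mul_le_mul_of_nonneg_left ?_ (by positivity)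
        have h4 : 1 / (1 + (w.re - z₀.re) ^ 2) ≤ 1 := by
          rw [div_le_one (by positivity)]
          nlinarith [sq_nonneg (w.re - z₀.re)]
        have h5 : 0 ≤ 1 / (1 + (w.re - z₀.re) ^ 2) := by positivity
        nlinarith
      have h2 := hsq _ (norm_nonneg _) h1.1
      have h3 := hsq _ (norm_nonneg _) h1.2
      refine mul_le_mul_of_nonneg_left ?_ (by positivity)
      linarith
  · filter_upwards [haeU] with w hw z hz
    by_cases hfw : f w = 0
    · simp only [hfw, Complex.ofReal_zero, zero_mul]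
      exact hasDerivAt_const z 0
    · obtain ⟨h1, h2⟩ := hne z hz w hw hfw
      exact (ker_deriv h1 h2).const_mul _

end Pool.Agent.EAC
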