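import Pool.Agent.EAC.S2

/-!
# EAC-S3: the equation `∂̄ W = -f/2`

`f` differentiable in the open strip with bounded continuous derivative `f'`.
`W_deriv_x`: `W h f (z+x) = ∫ f(w+x) ker h z w` (`W_shift`), differentiate under the integral sign
(`hasDerivAt_integral_of_dominated_loc_of_deriv_le`).
`ct_fderiv`: `w` continuously differentiable on `ℂ` with compact support: `CT w` is differentiable, `D(CT w)(ζ) e = CT (fun z => Dw z e) ζ`
(differentiate `∫ w(ζ+s)/s ds`), and `dbar (D (CT w)(ζ)) = CT (dbar Dw) ζ = -π w ζ` (`ct_rep`).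
`W_fderiv`: near `z₀ ∈ U h` take a smooth bump `χ` at `z₀` supported in `U h`; `W[(1-χ)f]` is holomorphic near `z₀`
(kernel holomorphic in `z` for `w` away from `z₀`; `conj w` is never near `z₀` nor the other lattice points); `W[χ f] =
(1/2π) CT(χ f) + holomorphic` because `cth(πu/2h)·(π/2h)... = 1/u + entire near` : `ker h z w = -(1/2π)/(z-w) + (holomorphic in z, bounded)`.
So `W` is real differentiable at `z₀` with `dbar = -f/2`; `D 1 = W[f_x]` by `W_deriv_x`; `D i = i (D 1 - 2 dbar)`.

THIS FILE: W_mean.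
-/

set_option autoImplicit false

noncomputable section

namespace Pool.Agent.EAC


open MeasureTheory Set Filter Topology Metric
open scoped ENNReal ComplexConjugate

/-- imaginary part of `coth (X + i Y)`. -/
theorem cth_im (X Y : ℝ) : (cth (X + Y * Complex.I)).im =
    -(Real.sin Y * Real.cos Y) / (Real.sinh X ^ 2 + Real.sin Y ^ 2) := by
  have hs : Complex.sinh (X + Y * Complex.I) =
      ((Real.sinh X * Real.cos Y : ℝ) : ℂ) + ((Real.cosh X * Real.sin Y : ℝ) : ℂ) * Complex.I := by
    rw [Complex.sinh_add, Complex.sinh_mul_I, Complex.cosh_mul_I]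
    push_cast
    ring
  have hc : Complex.cosh (X + Y * Complex.I) =
      ((Real.cosh X * Real.cos Y : ℝ) : ℂ) + ((Real.sinh X * Real.sin Y : ℝ) : ℂ) * Complex.I := by
    rw [Complex.cosh_add, Complex.sinh_mul_I, Complex.cosh_mul_I]
    push_cast
    ring
  have hn : Complex.normSq (((Real.sinh X * Real.cos Y : ℝ) : ℂ) +
      ((Real.cosh X * Real.sin Y : ℝ) : ℂ) * Complex.I) = Real.sinh X ^ 2 + Real.sin Y ^ 2 := by
    rw [Complex.normSq_add_mul_I]
    have h1 := Real.cosh_sq X
    have h2 := Real.sin_sq_add_cos_sq Y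
    have h3 : Real.cos Y ^ 2 = 1 - Real.sin Y ^ 2 := by linarith
    rw [mul_pow, mul_pow, h1, h3]
    ring
  unfold cth
  rw [Complex.div_im, hs, hc, hn]
  simp only [Complex.add_re, Complex.add_im, Complex.mul_re, Complex.mul_im, Complex.ofReal_re,
    Complex.ofReal_im, Complex.I_re, Complex.I_im, mul_zero, mul_one, zero_mul, sub_zero, add_zero,
    zero_add, sub_self]
  have h1 := Real.cosh_sq X
  rw [div_sub_div_same]
  congr 1
  linear_combination (-(Real.sin Y * Real.cos Y)) * h1

theorem volume_re_eq (x : ℝ) : volume {w : ℂ | w.re = x} = 0 := by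
  have h1 : {w : ℂ | w.re = x} =
      Complex.measurableEquivRealProd ⁻¹' (({x} : Set ℝ) ×ˢ (univ : Set ℝ)) := by
    ext w
    simp [Complex.measurableEquivRealProd_apply]
  rw [h1, Complex.volume_preserving_equiv_real_prod.measure_preimage_equiv, Measure.volume_eq_prod,
    Measure.prod_prod]
  simp

/-- the integral of `Im ker` over a vertical segment. -/
theorem ker_im_integral {h : ℝ} (hh : 0 < h) (x : ℝ) (w : ℂ) (hw : w.re ≠ x) :
    ∫ y in (0 : ℝ)..h, (ker h (x + y * Complex.I) w).im = 0 := by
  set X : ℝ := Real.pi * (x - w.re) / (2 * h) with hX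
  have hX0 : X ≠ 0 := by
    rw [hX]
    have : x - w.re ≠ 0 := sub_ne_zero.2 (Ne.symm hw)
    have := Real.pi_ne_zero
    positivity
  have hA : 0 < Real.sinh X ^ 2 := by
    have : Real.sinh X ≠ 0 := by rwa [Ne, Real.sinh_eq_zero]
    positivity
  set Ya : ℝ → ℝ := fun y => Real.pi * (y + w.im) / (2 * h) with hYa
  set Yb : ℝ → ℝ := fun y => Real.pi * (y - w.im) / (2 * h) with hYb
  have hker : ∀ y : ℝ, (ker h (x + y * Complex.I) w).im = (1 / (4 * h)) *
      (-(Real.sin (Ya y) * Real.cos (Ya y)) / (Real.sinh X ^ 2 + Real.sin (Ya y) ^ 2) -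
        -(Real.sin (Yb y) * Real.cos (Yb y)) / (Real.sinh X ^ 2 + Real.sin (Yb y) ^ 2)) := by
    intro y
    have ha : (Real.pi * ((x + y * Complex.I : ℂ) - conj w) / (2 * h) : ℂ) =
        (X : ℂ) + (Ya y : ℂ) * Complex.I := by
      have : conj w = (w.re : ℂ) - (w.im : ℂ) * Complex.I := by
        apply Complex.ext <;> simp
      rw [this, hX, hYa]
      push_cast
      ring
    have hb : (Real.pi * ((x + y * Complex.I : ℂ) - w) / (2 * h) : ℂ) =
        (X : ℂ) + (Yb y : ℂ) * Complex.I := by
      conv_lhs => rw [← Complex.re_add_im w]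
      rw [hX, hYb]
      push_cast
      ring
    unfold ker
    rw [ha, hb, Complex.im_ofReal_mul, Complex.sub_im, cth_im, cth_im]
  -- the primitive
  set G : ℝ → ℝ := fun y => (1 / (4 * Real.pi)) *
    (Real.log (Real.sinh X ^ 2 + Real.sin (Yb y) ^ 2) -
      Real.log (Real.sinh X ^ 2 + Real.sin (Ya y) ^ 2)) with hG
  have hpos : ∀ t : ℝ, 0 < Real.sinh X ^ 2 + Real.sin t ^ 2 := fun t => by positivity
  have hlin : ∀ (c y : ℝ), HasDerivAt (fun y => Real.pi * (y + c) / (2 * h)) (Real.pi / (2 * h)) y := by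
    intro c y
    have := (((hasDerivAt_id y).add_const c).const_mul Real.pi).div_const (2 * h)
    simpa using this
  have hlog : ∀ (c y : ℝ), HasDerivAt
      (fun y => Real.log (Real.sinh X ^ 2 + Real.sin (Real.pi * (y + c) / (2 * h)) ^ 2))
      (2 * Real.sin (Real.pi * (y + c) / (2 * h)) * Real.cos (Real.pi * (y + c) / (2 * h)) *
        (Real.pi / (2 * h)) /
        (Real.sinh X ^ 2 + Real.sin (Real.pi * (y + c) / (2 * h)) ^ 2)) y := by
    intro c y
    have h0 := (hlin c y).sin
    have h1 : HasDerivAt (fun y => Real.sinh X ^ 2 + Real.sin (Real.pi * (y + c) / (2 * h)) ^ 2)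
        (2 * Real.sin (Real.pi * (y + c) / (2 * h)) * Real.cos (Real.pi * (y + c) / (2 * h)) *
        (Real.pi / (2 * h))) y := by
      have h2 := ((h0.mul h0).const_add (Real.sinh X ^ 2)).congr_deriv
        (show _ = 2 * Real.sin (Real.pi * (y + c) / (2 * h)) *
          Real.cos (Real.pi * (y + c) / (2 * h)) * (Real.pi / (2 * h)) by ring)
      refine h2.congr_of_eventuallyEq (Eventually.of_forall fun y => ?_)
      simp only [Pi.mul_apply, sq]
    exact h1.log (hpos _).ne'
  have hYb' : ∀ y, Yb y = Real.pi * (y + -w.im) / (2 * h) := fun y => by rw [hYb]; ring_nf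
  have hderiv : ∀ y : ℝ, HasDerivAt G ((ker h (x + y * Complex.I) w).im) y := by
    intro y
    have h1 := ((hlog (-w.im) y).sub (hlog w.im y)).const_mul (1 / (4 * Real.pi))
    have h2 : G = fun y => (1 / (4 * Real.pi)) *
        (Real.log (Real.sinh X ^ 2 + Real.sin (Real.pi * (y + -w.im) / (2 * h)) ^ 2) -
          Real.log (Real.sinh X ^ 2 + Real.sin (Real.pi * (y + w.im) / (2 * h)) ^ 2)) := by
      funext y
      simp only [hG, hYb']
      rfl
    rw [h2]
    refine h1.congr_deriv ?_
    rw [hker y, hYb' y]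
    simp only [hYa]
    have hπ := Real.pi_ne_zero
    have e1 := (hpos (Real.pi * (y + -w.im) / (2 * h))).ne'
    have e2 := (hpos (Real.pi * (y + w.im) / (2 * h))).ne'
    field_simp
    ring
  have hcont : Continuous fun y : ℝ => (ker h (x + y * Complex.I) w).im := by
    have : (fun y : ℝ => (ker h (x + y * Complex.I) w).im) = fun y => (1 / (4 * h)) *
      (-(Real.sin (Ya y) * Real.cos (Ya y)) / (Real.sinh X ^ 2 + Real.sin (Ya y) ^ 2) -
        -(Real.sin (Yb y) * Real.cos (Yb y)) / (Real.sinh X ^ 2 + Real.sin (Yb y) ^ 2)) :=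
      funext hker
    rw [this]
    have hYac : Continuous Ya := by rw [hYa]; fun_prop
    have hYbc : Continuous Yb := by rw [hYb]; fun_prop
    refine continuous_const.mul (Continuous.sub ?_ ?_)
    · exact Continuous.div (by fun_prop) (by fun_prop) fun y => (hpos _).ne'
    · exact Continuous.div (by fun_prop) (by fun_prop) fun y => (hpos _).ne'
  rw [intervalIntegral.integral_eq_sub_of_hasDerivAt (fun y _ => hderiv y)
    (hcont.intervalIntegrable 0 h)]
  have hGh : G h = 0 := by
    have e1 : Ya h = Real.pi * w.im / (2 * h) + Real.pi / 2 := by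
      simp only [hYa]; field_simp; ring
    have e2 : Yb h = Real.pi / 2 - Real.pi * w.im / (2 * h) := by
      simp only [hYb]; field_simp
    simp only [hG]
    rw [e1, e2, Real.sin_pi_div_two_sub, Real.sin_add_pi_div_two]
    ring
  have hG0 : G 0 = 0 := by
    have e1 : Yb 0 = -(Ya 0) := by
      simp only [hYa, hYb]; ring
    simp only [hG]
    rw [e1, Real.sin_neg]
    ring
  rw [hGh, hG0, sub_zero]

/-- the mean of `Ψ_Y` over the height vanishes. -/
theorem W_mean {h : ℝ} (hh : 0 < h) {f : ℂ → ℝ} {B : ℝ} (hf : BM h f B) (x : ℝ) :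
    ∫ y in (0 : ℝ)..h, (W h f (x + y * Complex.I)).im = 0 := by
  obtain ⟨C, hC, hCi⟩ := ker_int
  have hzS : ∀ y ∈ Ioc (0 : ℝ) h, ((x : ℂ) + y * Complex.I) ∈ S h := by
    intro y hy
    simp only [S, mem_setOf_eq, Complex.add_im, Complex.ofReal_im, Complex.mul_im,
      Complex.ofReal_re, Complex.I_im, Complex.I_re, mul_one, mul_zero, add_zero, zero_add]
    exact ⟨hy.1.le, hy.2⟩
  -- the integrand
  set g : ℝ → ℂ → ℝ := fun y w => f w * (ker h (x + y * Complex.I) w).im with hg
  have hgim : ∀ (y : ℝ) (w : ℂ), ((f w : ℂ) * ker h (x + y * Complex.I) w).im = g y w := by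
    intro y w
    rw [Complex.im_ofReal_mul]
  have hW : ∀ y ∈ Ioc (0 : ℝ) h, (W h f (x + y * Complex.I)).im = ∫ w in S h, g y w := by
    intro y hy
    have hint := W_integrable hh hf (hzS y hy)
    unfold W
    have := integral_im hint
    simp only [RCLike.im_eq_complex_im] at this
    rw [← this]
    simp only [hgim]
  have hae : ∀ᵐ w ∂(volume.restrict (S h)), w ∈ U h := by
    rw [ae_restrict_iff' (by
      have : S h = Complex.im ⁻¹' Icc 0 h := by ext z; simp [S]
      rw [this]; exact Complex.measurable_im measurableSet_Icc)]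
    rw [ae_iff]
    refine measure_mono_null ?_ (vol_S_diff_U h)
    intro w hw
    simp only [mem_setOf_eq, Classical.not_imp] at hw
    exact ⟨hw.1, hw.2⟩
  have hmeas : AEStronglyMeasurable (Function.uncurry g)
      ((volume.restrict (Ioc 0 h)).prod (volume.restrict (S h))) := by
    have h1 : AEStronglyMeasurable (fun p : ℝ × ℂ => f p.2)
        ((volume.restrict (Ioc 0 h)).prod (volume.restrict (S h))) := hf.1.comp_snd
    have h3 : Measurable (fun p : ℝ × ℂ => (((x : ℂ) + (p.1 : ℂ) * Complex.I, p.2) : ℂ × ℂ)) := by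
      fun_prop
    have h4 : Measurable ((fun q : ℂ × ℂ => (ker h q.1 q.2).im) ∘
        (fun p : ℝ × ℂ => (((x : ℂ) + (p.1 : ℂ) * Complex.I, p.2) : ℂ × ℂ))) :=
      (Complex.measurable_im.comp (ker_measurable h)).comp h3
    have h5 : Function.uncurry g = (fun p : ℝ × ℂ => f p.2) * ((fun q : ℂ × ℂ => (ker h q.1 q.2).im) ∘
        (fun p : ℝ × ℂ => (((x : ℂ) + (p.1 : ℂ) * Complex.I, p.2) : ℂ × ℂ))) := by
      funext p
      simp only [Function.uncurry, hg, Pi.mul_apply, Function.comp_apply]
    rw [h5]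
    exact AEStronglyMeasurable.mul h1 h4.aestronglyMeasurable
  have hint : Integrable (Function.uncurry g)
      ((volume.restrict (Ioc 0 h)).prod (volume.restrict (S h))) := by
    rw [integrable_prod_iff hmeas]
    constructor
    · refine (ae_restrict_iff' measurableSet_Ioc).2 (ae_of_all _ fun y hy => ?_)
      have h1 := (W_integrable hh hf (hzS y hy)).im
      simp only [RCLike.im_eq_complex_im, hgim] at h1
      exact h1
    · have h2 : ∀ᵐ y ∂(volume.restrict (Ioc 0 h)),
          ‖∫ w in S h, ‖Function.uncurry g (y, w)‖‖ ≤ |B| * (C * h) := by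
        refine (ae_restrict_iff' measurableSet_Ioc).2 (ae_of_all _ fun y hy => ?_)
        obtain ⟨hk1, hk2⟩ := hCi h hh _ (hzS y hy)
        rw [Real.norm_of_nonneg (integral_nonneg fun w => norm_nonneg _)]
        calc ∫ w in S h, ‖Function.uncurry g (y, w)‖
            ≤ ∫ w in S h, |B| * ‖ker h (x + y * Complex.I) w‖ := by
              refine integral_mono_of_nonneg (ae_of_all _ fun w => norm_nonneg _)
                (hk1.norm.const_mul _) ?_
              filter_upwards [hae] with w hw
              simp only [Function.uncurry, hg, norm_mul]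
              have h4 : ‖f w‖ ≤ |B| := (hf.2 w hw).trans (le_abs_self B)
              have h5 : ‖(ker h (x + y * Complex.I) w).im‖ ≤ ‖ker h (x + y * Complex.I) w‖ := by
                rw [Real.norm_eq_abs]; exact Complex.abs_im_le_norm _
              gcongr
          _ = |B| * ∫ w in S h, ‖ker h (x + y * Complex.I) w‖ := by
              rw [integral_const_mul]
          _ ≤ |B| * (C * h) := by gcongr
      refine Integrable.of_bound ?_ (|B| * (C * h)) h2
      exact hmeas.norm.integral_prod_right'
  rw [intervalIntegral.integral_of_le hh.le]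
  have e1 : ∫ y in Ioc 0 h, (W h f (x + y * Complex.I)).im =
      ∫ y in Ioc 0 h, ∫ w in S h, g y w :=
    setIntegral_congr_fun measurableSet_Ioc hW
  rw [e1, integral_integral_swap hint]
  have e2 : ∀ᵐ w ∂(volume.restrict (S h)), ∫ y in Ioc 0 h, g y w = 0 := by
    refine ae_restrict_of_ae ?_
    have h6 : ∀ᵐ w : ℂ, w.re ≠ x := by
      rw [ae_iff]
      simpa using volume_re_eq x
    filter_upwards [h6] with w hw
    have h7 := ker_im_integral hh x w hw
    rw [intervalIntegral.integral_of_le hh.le] at h7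
    simp only [hg]
    rw [integral_const_mul, h7, mul_zero]
  rw [integral_congr_ae e2]
  simp

end Pool.Agent.EAC
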