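import Pool.Agent.EAC.S3a
import Pool.Agent.EAC.S3b
import Pool.Agent.EAC.S3c
import Pool.Agent.EAC.S3d
import Pool.Agent.EAC.S3e
import Pool.Agent.EAC.S3f
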