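import Pool.Agent.EAC.NB2
import Pool.Agent.EAC.S3

/-!
# EAC N2: derivatives of `W h f` are bounded by those of `f`, uniformly in `h ≤ 1`

Proof plan. Induction on `n`, generalizing `f`. Order `0`: `W_bound` (constant `C * h * B ≤ C * B`), `BM` from continuity and the bound.
Step: by `W_fderiv` (with `f' = fderiv ℝ f`, continuous and bounded on `U h`), on `U h`
`fderiv ℝ (W h f) z = DW h f (fderiv ℝ f) z = L₁ (W h (dx f) z) + L₂ (f z)` with fixed continuous linear maps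
`L₁ v = reCLM.smulRight v + imCLM.smulRight (I * v)`, `L₂ x = imCLM.smulRight (I * x)`; `dx f = fun w => fderiv ℝ f w 1` is smooth and in `BC`
of order `n` with the same constant (`BC.dx`); induction hypothesis for `dx f`, `BC.clm`, `BC.add`, `BC.congr`, `BC.mono`.
-/

set_option autoImplicit false

noncomputable section

namespace Pool.Agent.EAC.ZN

open MeasureTheory Set Filter Topology Metric
open scoped ENNReal ComplexConjugate

namespace N2

/-- `L₁ v = reCLM.smulRight v + imCLM.smulRight (I * v)`. -/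
def L1 : ℂ →L[ℝ] (ℂ →L[ℝ] ℂ) :=
  ContinuousLinearMap.smulRightL ℝ ℂ ℂ Complex.reCLM +
    (ContinuousLinearMap.smulRightL ℝ ℂ ℂ Complex.imCLM).comp (ContinuousLinearMap.mul ℝ ℂ Complex.I)

/-- `L₂ x = imCLM.smulRight (I * x)`. -/
def L2 : ℝ →L[ℝ] (ℂ →L[ℝ] ℂ) :=
  (ContinuousLinearMap.smulRightL ℝ ℂ ℂ Complex.imCLM).comp
    ((ContinuousLinearMap.mul ℝ ℂ Complex.I).comp Complex.ofRealCLM)

theorem DW_eq (h : ℝ) (f : ℂ → ℝ) (z : ℂ) :
    DW h f (fderiv ℝ f) z = L1 (W h (EAC.dx f) z) + L2 (f z) := by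
  ext w
  have h1 : (fun w => fderiv ℝ f w 1) = EAC.dx f := rfl
  simp only [DW, L1, L2, h1, add_apply, ContinuousLinearMap.comp_apply,
    ContinuousLinearMap.smulRightL_apply_apply, ContinuousLinearMap.mul_apply',
    ContinuousLinearMap.smulRight_apply, Complex.ofRealCLM_apply, mul_add, smul_add, add_assoc]

theorem aux (n : ℕ) : ∃ c : ℝ, 0 ≤ c ∧ ∀ h : ℝ, 0 < h → h ≤ 1 → ∀ (f : ℂ → ℝ) (C : ℝ), 0 ≤ C →
    ContDiff ℝ (⊤ : ℕ∞) f → BC (univ : Set ℝ) (U h) C n (fun _ => f) →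
    BC (univ : Set ℝ) (U h) (c * C) n (fun _ => W h f) := by
  obtain ⟨K, hK, hW⟩ := W_bound
  have h0 : ∀ h : ℝ, 0 < h → h ≤ 1 → ∀ (f : ℂ → ℝ) (C : ℝ), 0 ≤ C → ContDiff ℝ (⊤ : ℕ∞) f →
      BC (univ : Set ℝ) (U h) C 0 (fun _ => f) →
      BC (univ : Set ℝ) (U h) (K * C) 0 (fun _ => W h f) := by
    intro h hh hh1 f C hC hf hb
    refine ⟨fun z hz => continuousOn_const, fun t ht z hz => ?_⟩
    have hBM : BM h f C :=
      BM_of_continuousOn hf.continuous.continuousOn (fun w hw => hb.2 0 (mem_univ _) w hw)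
    refine (hW h hh f C hBM z ⟨hz.1.le, hz.2.le⟩).trans ?_
    have h1 : K * h ≤ K := by nlinarith
    exact mul_le_mul_of_nonneg_right h1 hC
  induction n with
  | zero => exact ⟨K, hK.le, h0⟩
  | succ n ih =>
    obtain ⟨c, hc, ih⟩ := ih
    refine ⟨K + (‖L1‖ * c + ‖L2‖), by positivity, fun h hh hh1 f C hC hf hb => ?_⟩
    have hO : IsOpen (U h) := isOpen_U h
    have hfd : ∀ z, DifferentiableAt ℝ f z := fun z =>
      (hf.differentiable (by simp)).differentiableAt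
    have hfc : Continuous (fderiv ℝ f) := hf.continuous_fderiv (by simp)
    have hB0 : ∀ z ∈ U h, |f z| ≤ C := fun z hz => hb.1.2 0 (mem_univ _) z hz
    have hB1 : ∀ z ∈ U h, ‖fderiv ℝ f z‖ ≤ C := fun z hz =>
      (hb.2.2.zero).2 0 (mem_univ _) z hz
    have hder : ∀ z ∈ U h, HasFDerivAt (W h f) (DW h f (fderiv ℝ f) z) z := fun z hz =>
      W_fderiv hh (fun z _ => (hfd z).hasFDerivAt) hfc.continuousOn hB0 hB1 hz
    have hdx : BC (univ : Set ℝ) (U h) C n (fun _ => EAC.dx f) := BC.dx hO hC hb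
    have hdxs : ContDiff ℝ (⊤ : ℕ∞) (EAC.dx f) := by
      unfold EAC.dx
      exact (hf.fderiv_right (m := (⊤ : ℕ∞)) (by simp)).clm_apply contDiff_const
    have h1 := ih h hh hh1 (EAC.dx f) C hC hdxs hdx
    have h2 := BC.clm hO (by positivity) h1 L1
    have h3 : BC (univ : Set ℝ) (U h) C n (fun _ => f) :=
      hb.mono subset_rfl subset_rfl le_rfl (Nat.le_succ n)
    have h4 := BC.clm hO hC h3 L2
    have h5 := BC.add hO h2 h4
    have hCC : ‖L1‖ * (c * C) + ‖L2‖ * C ≤ (K + (‖L1‖ * c + ‖L2‖)) * C := by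
      have : 0 ≤ K * C := by positivity
      nlinarith
    have hKC : K * C ≤ (K + (‖L1‖ * c + ‖L2‖)) * C := by
      have : 0 ≤ (‖L1‖ * c + ‖L2‖) * C := by positivity
      nlinarith
    refine ⟨(h0 h hh hh1 f C hC hf hb.1).mono subset_rfl subset_rfl hKC le_rfl,
      fun t _ z hz => (hder z hz).differentiableAt, ?_⟩
    refine (h5.mono subset_rfl subset_rfl hCC le_rfl).congr hO fun t _ z hz => ?_
    simp only
    rw [(hder z hz).fderiv, DW_eq]

end N2

theorem W_BC (n : ℕ) : ∃ c : ℝ, 0 ≤ c ∧ ∀ h : ℝ, 0 < h → h ≤ 1 → ∀ (f : ℂ → ℝ) (C : ℝ), 0 ≤ C →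
    ContDiff ℝ (⊤ : ℕ∞) f → (∃ C', BC (univ : Set ℝ) (U h) C' 1 (fun _ => f)) →
    BC (univ : Set ℝ) (U h) C n (fun _ => f) →
    BC (univ : Set ℝ) (U h) (c * C) n (fun _ => W h f) := by
  obtain ⟨c, hc, hm⟩ := N2.aux n
  exact ⟨c, hc, fun h hh hh1 f C hC hf _ hb => hm h hh hh1 f C hC hf hb⟩

end Pool.Agent.EAC.ZN
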