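import Pool.Agent.EAC.NW1

/-!
# EAC NW2: bounds and continuity of the Sobolev norm for smooth functions with bounded derivatives

Proof plan.
* `hsNorm_le_of_bound`: `iInf₂_le` with `isWeak_of_contDiffOn`; `hsSq ≤ Σ_{k ≤ s} Σ_i (k choose i) C² vol ≤ 2^(s+1) C² vol`
  (`Nat.sum_range_choose`, `lintegral_mono_ae`, `setLIntegral_const`), `ENNReal.rpow` monotone, `ENNReal.mul_rpow_of_nonneg`.
* `iter_sub`: on the open set the iterated `dx, dy` of a difference of smooth functions is the difference.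
* `hs_cont_of_dom`: `hsNorm ≤ (hsSq of dy^[j] (dx^[i] (v τ - v t)))^(1/2)`, and each
  `∫⁻ ‖dy^[j] (dx^[i] (v τ)) - dy^[j] (dx^[i] (v t))‖ₑ^2 → 0` as `τ → t` within `I` by dominated convergence
  (`tendsto_lintegral_filter_of_dominated_convergence`, bound `(2C)^2`, finite measure); a finite sum; then `rpow (1/2)` is
  continuous at `0`.
-/

set_option autoImplicit false

noncomputable section

namespace Pool.Agent.EAC.ZN

open MeasureTheory Set Filter Topology Metric
open scoped ENNReal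

theorem hsNorm_le_hsSq {M : Set ℂ} {v : ℂ → ℂ} (hv : ContDiffOn ℝ (⊤ : ℕ∞) v (interior M))
    (s : ℕ) : hsNorm M s v ≤ (hsSq M s (fun i j => dy^[j] (dx^[i] v))) ^ (1 / 2 : ℝ) := by
  unfold hsNorm
  refine ENNReal.rpow_le_rpow ?_ (by norm_num)
  exact iInf₂_le (fun i j => dy^[j] (dx^[i] v)) (isWeak_of_contDiffOn hv s)

theorem hsNorm_le_of_bound {M : Set ℂ} {v : ℂ → ℂ} (hv : ContDiffOn ℝ (⊤ : ℕ∞) v (interior M))
    (s : ℕ) {C : ℝ} (hC : 0 ≤ C)
    (hb : ∀ i j, i + j ≤ s → ∀ᵐ z ∂(volume.restrict (interior M)),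
      ‖(dy^[j] (dx^[i] v)) z‖ ≤ C) :
    hsNorm M s v ≤ ENNReal.ofReal C * (2 ^ (s + 1) * volume (interior M)) ^ (1 / 2 : ℝ) := by
  refine (hsNorm_le_hsSq hv s).trans ?_
  have h1 : hsSq M s (fun i j => dy^[j] (dx^[i] v)) ≤
      ENNReal.ofReal C ^ 2 * (2 ^ (s + 1) * volume (interior M)) := by
    unfold hsSq
    have hint : ∀ k ∈ Finset.range (s + 1), ∀ i ∈ Finset.range (k + 1),
        ∫⁻ z in interior M, ‖(dy^[k - i] (dx^[i] v)) z‖ₑ ^ 2 ≤
          ENNReal.ofReal C ^ 2 * volume (interior M) := by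
      intro k hk i hi
      rw [Finset.mem_range] at hk hi
      have hh := hb i (k - i) (by omega)
      calc ∫⁻ z in interior M, ‖(dy^[k - i] (dx^[i] v)) z‖ₑ ^ 2
          ≤ ∫⁻ z in interior M, ENNReal.ofReal C ^ 2 := by
            refine lintegral_mono_ae ?_
            filter_upwards [hh] with z hz
            gcongr
            rw [← ofReal_norm]
            exact ENNReal.ofReal_le_ofReal hz
        _ = ENNReal.ofReal C ^ 2 * volume (interior M) := by
            rw [setLIntegral_const]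
    calc ∑ k ∈ Finset.range (s + 1), ∑ i ∈ Finset.range (k + 1),
          (k.choose i : ℝ≥0∞) * ∫⁻ z in interior M, ‖(dy^[k - i] (dx^[i] v)) z‖ₑ ^ 2
        ≤ ∑ k ∈ Finset.range (s + 1), ∑ i ∈ Finset.range (k + 1),
          (k.choose i : ℝ≥0∞) * (ENNReal.ofReal C ^ 2 * volume (interior M)) := by
          refine Finset.sum_le_sum fun k hk => Finset.sum_le_sum fun i hi => ?_
          gcongr
          exact hint k hk i hi
      _ = ∑ k ∈ Finset.range (s + 1), (2 : ℝ≥0∞) ^ k * (ENNReal.ofReal C ^ 2 * volume (interior M)) := by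
          refine Finset.sum_congr rfl fun k _ => ?_
          rw [← Finset.sum_mul]
          congr 1
          have := Nat.sum_range_choose k
          exact_mod_cast this
      _ = (∑ k ∈ Finset.range (s + 1), (2 : ℝ≥0∞) ^ k) * (ENNReal.ofReal C ^ 2 * volume (interior M)) := by
          rw [Finset.sum_mul]
      _ ≤ 2 ^ (s + 1) * (ENNReal.ofReal C ^ 2 * volume (interior M)) := by
          gcongr
          have h2 : ∑ k ∈ Finset.range (s + 1), 2 ^ k ≤ 2 ^ (s + 1) := by
            have := Nat.geomSum_lt (m := 2) (n := s + 1) (s := Finset.range (s + 1)) (by norm_num)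
              (by intro k hk; exact Finset.mem_range.1 hk)
            exact this.le
          exact_mod_cast h2
      _ = ENNReal.ofReal C ^ 2 * (2 ^ (s + 1) * volume (interior M)) := by ring
  calc (hsSq M s (fun i j => dy^[j] (dx^[i] v))) ^ (1 / 2 : ℝ)
      ≤ (ENNReal.ofReal C ^ 2 * (2 ^ (s + 1) * volume (interior M))) ^ (1 / 2 : ℝ) :=
        ENNReal.rpow_le_rpow h1 (by norm_num)
    _ = (ENNReal.ofReal C ^ 2) ^ (1 / 2 : ℝ) * (2 ^ (s + 1) * volume (interior M)) ^ (1 / 2 : ℝ) := by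
        rw [ENNReal.mul_rpow_of_nonneg _ _ (by norm_num)]
    _ = ENNReal.ofReal C * (2 ^ (s + 1) * volume (interior M)) ^ (1 / 2 : ℝ) := by
        congr 1
        rw [← ENNReal.rpow_natCast, ← ENNReal.rpow_mul]
        norm_num

theorem fderiv_eqOn_sub {O : Set ℂ} (hO : IsOpen O) {f g h : ℂ → ℂ}
    (hg : ContDiffOn ℝ (⊤ : ℕ∞) g O) (hh : ContDiffOn ℝ (⊤ : ℕ∞) h O)
    (he : ∀ z ∈ O, f z = g z - h z) (e : ℂ) {z : ℂ} (hz : z ∈ O) :
    fderiv ℝ f z e = fderiv ℝ g z e - fderiv ℝ h z e := by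
  have h1 : f =ᶠ[𝓝 z] fun z => g z - h z := by
    filter_upwards [hO.mem_nhds hz] with w hw using he w hw
  rw [h1.fderiv_eq]
  have hgd : DifferentiableAt ℝ g z :=
    (hg.differentiableOn (by simp)).differentiableAt (hO.mem_nhds hz)
  have hhd : DifferentiableAt ℝ h z :=
    (hh.differentiableOn (by simp)).differentiableAt (hO.mem_nhds hz)
  rw [fderiv_fun_sub hgd hhd]
  rfl

theorem iter_sub {O : Set ℂ} (hO : IsOpen O) {u v : ℂ → ℂ} (hu : ContDiffOn ℝ (⊤ : ℕ∞) u O)
    (hv : ContDiffOn ℝ (⊤ : ℕ∞) v O) (i j : ℕ) {z : ℂ} (hz : z ∈ O) :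
    (dy^[j] (dx^[i] (fun z => u z - v z))) z = (dy^[j] (dx^[i] u)) z - (dy^[j] (dx^[i] v)) z := by
  have hx : ∀ i : ℕ, ∀ z ∈ O, (dx^[i] (fun z => u z - v z)) z = (dx^[i] u) z - (dx^[i] v) z := by
    intro i
    induction i with
    | zero => intro z _; rfl
    | succ i ih =>
      intro z hz
      simp only [Function.iterate_succ', Function.comp_apply]
      exact fderiv_eqOn_sub hO (contDiffOn_iter hO hu i 0) (contDiffOn_iter hO hv i 0) ih 1 hz
  have hy : ∀ j : ℕ, ∀ z ∈ O, (dy^[j] (dx^[i] (fun z => u z - v z))) z =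
      (dy^[j] (dx^[i] u)) z - (dy^[j] (dx^[i] v)) z := by
    intro j
    induction j with
    | zero => intro z hz; exact hx i z hz
    | succ j ih =>
      intro z hz
      simp only [Function.iterate_succ', Function.comp_apply]
      exact fderiv_eqOn_sub hO (contDiffOn_iter hO hu i j) (contDiffOn_iter hO hv i j) ih
        Complex.I hz
  exact hy j z hz

theorem hs_cont_of_dom {M : Set ℂ} (hM : volume (interior M) < ⊤) {v : ℝ → ℂ → ℂ} {I : Set ℝ}
    {t : ℝ} (ht : t ∈ I) (hv : ∀ τ ∈ I, ContDiffOn ℝ (⊤ : ℕ∞) (v τ) (interior M)) (s : ℕ) {C : ℝ}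
    (hb : ∀ i j, i + j ≤ s → ∀ τ ∈ I, ∀ᵐ z ∂(volume.restrict (interior M)),
      ‖(dy^[j] (dx^[i] (v τ))) z‖ ≤ C)
    (hc : ∀ i j, i + j ≤ s → ∀ᵐ z ∂(volume.restrict (interior M)),
      ContinuousOn (fun τ => (dy^[j] (dx^[i] (v τ))) z) I) :
    Tendsto (fun τ => hsNorm M s (fun z => v τ z - v t z)) (𝓝[I] t) (𝓝 0) := by
  -- the individual integrals tend to zero
  have key : ∀ i j, i + j ≤ s → Tendsto (fun τ => ∫⁻ z in interior M,
      ‖(dy^[j] (dx^[i] (v τ))) z - (dy^[j] (dx^[i] (v t))) z‖ₑ ^ 2) (𝓝[I] t) (𝓝 0) := by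
    intro i j hij
    have h0 : (0 : ℝ≥0∞) = ∫⁻ z in interior M, (fun _ : ℂ => (0 : ℝ≥0∞)) z := by simp
    rw [h0]
    have hmem : ∀ᶠ τ in 𝓝[I] t, τ ∈ I := self_mem_nhdsWithin
    refine tendsto_lintegral_filter_of_dominated_convergence'
      (fun _ => (ENNReal.ofReal C + ENNReal.ofReal C) ^ 2) ?_ ?_ ?_ ?_
    · filter_upwards [hmem] with τ hτ
      have h1 : AEStronglyMeasurable (fun z => (dy^[j] (dx^[i] (v τ))) z - (dy^[j] (dx^[i] (v t))) z)
          (volume.restrict (interior M)) :=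
        ((contDiffOn_iter isOpen_interior (hv τ hτ) i j).continuousOn.sub
          (contDiffOn_iter isOpen_interior (hv t ht) i j).continuousOn).aestronglyMeasurable
          isOpen_interior.measurableSet
      exact h1.enorm.pow_const 2
    · filter_upwards [hmem] with τ hτ
      filter_upwards [hb i j hij τ hτ, hb i j hij t ht] with z hz1 hz2
      gcongr
      refine (enorm_sub_le).trans ?_
      gcongr
      · rw [← ofReal_norm]
        exact ENNReal.ofReal_le_ofReal hz1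
      · rw [← ofReal_norm]
        exact ENNReal.ofReal_le_ofReal hz2
    · rw [setLIntegral_const]
      exact (ENNReal.mul_lt_top (by simp [ENNReal.pow_lt_top_iff]) hM).ne
    · filter_upwards [hc i j hij] with z hz
      have h1 : Tendsto (fun τ => (dy^[j] (dx^[i] (v τ))) z - (dy^[j] (dx^[i] (v t))) z)
          (𝓝[I] t) (𝓝 0) := by
        have := (hz t ht).tendsto.sub_const ((dy^[j] (dx^[i] (v t))) z)
        simpa using this
      have h2 := ((ENNReal.continuous_pow 2).tendsto ‖(0 : ℂ)‖ₑ).comp h1.enorm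
      simpa [Function.comp_def] using h2
  have hsum : Tendsto (fun τ => ∑ k ∈ Finset.range (s + 1), ∑ i ∈ Finset.range (k + 1),
      (k.choose i : ℝ≥0∞) * ∫⁻ z in interior M,
        ‖(dy^[k - i] (dx^[i] (v τ))) z - (dy^[k - i] (dx^[i] (v t))) z‖ₑ ^ 2) (𝓝[I] t) (𝓝 0) := by
    have h0 : (0 : ℝ≥0∞) = ∑ k ∈ Finset.range (s + 1), ∑ i ∈ Finset.range (k + 1),
      (k.choose i : ℝ≥0∞) * 0 := by simp
    rw [h0]
    refine tendsto_finsetSum _ fun k hk => tendsto_finsetSum _ fun i hi => ?_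
    rw [Finset.mem_range] at hk hi
    exact ENNReal.Tendsto.const_mul (key i (k - i) (by omega)) (Or.inr (by simp))
  have hrp : Tendsto (fun τ => (∑ k ∈ Finset.range (s + 1), ∑ i ∈ Finset.range (k + 1),
      (k.choose i : ℝ≥0∞) * ∫⁻ z in interior M,
        ‖(dy^[k - i] (dx^[i] (v τ))) z - (dy^[k - i] (dx^[i] (v t))) z‖ₑ ^ 2) ^ (1 / 2 : ℝ))
        (𝓝[I] t) (𝓝 0) := by
    have h1 := (ENNReal.continuous_rpow_const (y := (1 / 2 : ℝ))).continuousAt (x := 0) |>.tendsto
    have h2 := h1.comp hsum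
    simpa [Function.comp_def] using h2
  refine tendsto_of_tendsto_of_tendsto_of_le_of_le' tendsto_const_nhds hrp
    (Eventually.of_forall fun _ => bot_le) ?_
  filter_upwards [self_mem_nhdsWithin] with τ hτ
  refine (hsNorm_le_hsSq ((hv τ hτ).sub (hv t ht)) s).trans ?_
  refine ENNReal.rpow_le_rpow ?_ (by norm_num)
  unfold hsSq
  refine le_of_eq ?_
  refine Finset.sum_congr rfl fun k hk => Finset.sum_congr rfl fun i hi => ?_
  congr 1
  refine setLIntegral_congr_fun isOpen_interior.measurableSet ?_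
  intro z hz
  simp only
  rw [iter_sub isOpen_interior (hv τ hτ) (hv t ht) i (k - i) hz]

end Pool.Agent.EAC.ZN
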