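import Pool.Agent.EAC.NV3
import Pool.Agent.EAC.NW2
import Pool.Agent.EAC.Geo6b

/-!
# EAC NV4: Sobolev norm of the velocity field; continuity in time

Proof plan. `vel_smooth` (the constant family version of `BC` at one time `t`: lemma `BC.at_time`), `vel_BC`, `BC.dxdy` (the set
`interior (dom h) ∩ {z.im ≠ 0}` is open and its complement in `interior (dom h)` is null, `Geo.volume_real_line`),
`hsNorm_le_of_bound`, `hs_cont_of_dom`, `volume (interior (dom h)) ≤ volume (dom h) < ⊤`.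
-/

set_option autoImplicit false

noncomputable section

namespace Pool.Agent.EAC.ZN

open MeasureTheory Set Filter Topology Metric
open scoped ENNReal ComplexConjugate
open Pool.Agent.EAC.Geo

theorem BC.at_time {F : Type} [NormedAddCommGroup F] [NormedSpace ℝ F] {I : Set ℝ} {O : Set ℂ}
    {C : ℝ} {n : ℕ} {G : ℝ → ℂ → F} (h : BC I O C n G) {t : ℝ} (ht : t ∈ I) :
    BC (univ : Set ℝ) O C n (fun _ => G t) := by
  induction n generalizing F with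
  | zero => exact ⟨fun z _ => continuousOn_const, fun _ _ z hz => h.2 t ht z hz⟩
  | succ n ih =>
    exact ⟨⟨fun z _ => continuousOn_const, fun _ _ z hz => h.1.2 t ht z hz⟩,
      fun _ _ z hz => h.2.1 t ht z hz, ih h.2.2⟩

private theorem isOpen_off (h : ℝ) : IsOpen (interior (dom h) ∩ {z : ℂ | z.im ≠ 0}) :=
  isOpen_interior.inter (isOpen_ne_fun Complex.continuous_im continuous_const)

private theorem ae_off {h : ℝ} {P : ℂ → Prop}
    (hP : ∀ z ∈ interior (dom h) ∩ {z : ℂ | z.im ≠ 0}, P z) :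
    ∀ᵐ z ∂(volume.restrict (interior (dom h))), P z := by
  rw [ae_restrict_iff' isOpen_interior.measurableSet]
  have h0 : ∀ᵐ z : ℂ, z ∉ {z : ℂ | z.im = 0} := measure_eq_zero_iff_ae_notMem.1 volume_real_line
  filter_upwards [h0] with z hz hi
  exact hP z ⟨hi, hz⟩

/-- Sobolev norm: the constant depends only on `s`. -/
theorem vel_hsNorm_le (s : ℕ) : ∃ c : ℝ, 0 ≤ c ∧ ∀ h : ℝ, 0 < h → h ≤ 1 →
    ∀ (C : ℝ) (Λ : ℝ) (G : ℂ → ℂ), 0 ≤ C → |Λ| ≤ C → (∀ ζ, G (conj ζ) = -conj (G ζ)) →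
    (∀ ζ ∈ U h, G (ζ + 2 * Real.pi) = G ζ) → BC (univ : Set ℝ) (U h) C s (fun _ => G) →
    (∀ n, ∃ C, BC (univ : Set ℝ) (U h) C n (fun _ => G)) →
    (∀ x : ℝ, Real.sin x < 0 → ∃ r > 0, DifferentiableOn ℂ G (ball (x : ℂ) r)) →
    hsNorm (dom h) s (velG Λ G) ≤
      ENNReal.ofReal (c * C) * (2 ^ (s + 1) * volume (dom h)) ^ (1 / 2 : ℝ) := by
  obtain ⟨c, hc0, hc⟩ := vel_BC s
  refine ⟨c, hc0, fun h hh hh1 C Λ G hC hΛ hcj hp hB hBn hs => ?_⟩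
  have hBC := hc h hh hh1 univ C (fun _ => Λ) (fun _ => G) hC continuousOn_const
    (fun _ _ => hΛ) (fun _ _ => hcj) (fun _ _ => hp) hB
  have hcC : 0 ≤ c * C := mul_nonneg hc0 hC
  have h1 := hsNorm_le_of_bound (M := dom h) (v := velG Λ G) (vel_smooth hh hh1 hcj hp hBn hs) s hcC
    (fun i j hij => ae_off (fun z hz =>
      (BC.dxdy (isOpen_off h) hcC hBC hij).1 0 (mem_univ _) z hz))
  refine h1.trans ?_
  gcongr
  exact interior_subset

/-- finiteness and continuity in time of the Sobolev norm. -/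
theorem vel_hs_cont {h : ℝ} (hh : 0 < h) (hh1 : h ≤ 1) {I : Set ℝ} {Λ : ℝ → ℝ} {G : ℝ → ℂ → ℂ}
    (hΛ : ContinuousOn Λ I) (hΛB : ∃ C, ∀ t ∈ I, |Λ t| ≤ C)
    (hc : ∀ t ∈ I, ∀ ζ, G t (conj ζ) = -conj (G t ζ))
    (hp : ∀ t ∈ I, ∀ ζ ∈ U h, G t (ζ + 2 * Real.pi) = G t ζ)
    (hB : ∀ n, ∃ C, BC I (U h) C n G)
    (hs : ∀ t ∈ I, ∀ x : ℝ, Real.sin x < 0 → ∃ r > 0, DifferentiableOn ℂ (G t) (ball (x : ℂ) r))
    (s : ℕ) {t : ℝ} (ht : t ∈ I) :
    ContDiffOn ℝ (⊤ : ℕ∞) (velG (Λ t) (G t)) (interior (dom h)) ∧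
    hsNorm (dom h) s (velG (Λ t) (G t)) < ⊤ ∧
    Tendsto (fun τ => hsNorm (dom h) s (fun z => velG (Λ τ) (G τ) z - velG (Λ t) (G t) z))
      (𝓝[I] t) (𝓝 0) := by
  have hBt : ∀ τ ∈ I, ∀ n, ∃ C, BC (univ : Set ℝ) (U h) C n (fun _ => G τ) := fun τ hτ n => by
    obtain ⟨C, hC⟩ := hB n
    exact ⟨C, hC.at_time hτ⟩
  have hsm : ∀ τ ∈ I, ContDiffOn ℝ (⊤ : ℕ∞) (velG (Λ τ) (G τ)) (interior (dom h)) :=
    fun τ hτ => vel_smooth hh hh1 (hc τ hτ) (hp τ hτ) (hBt τ hτ) (hs τ hτ)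
  obtain ⟨C₁, hC₁⟩ := hΛB
  obtain ⟨C₂, hC₂⟩ := hB s
  set C : ℝ := max 0 (max C₁ C₂) with hCdef
  have hC0 : 0 ≤ C := le_max_left _ _
  have hC1 : C₁ ≤ C := (le_max_left _ _).trans (le_max_right _ _)
  have hC2 : C₂ ≤ C := (le_max_right _ _).trans (le_max_right _ _)
  have hBC : BC I (U h) C s G := hC₂.mono Subset.rfl Subset.rfl hC2 le_rfl
  refine ⟨hsm t ht, ?_, ?_⟩
  · obtain ⟨c, hc0, hcc⟩ := vel_hsNorm_le s
    refine (hcc h hh hh1 C (Λ t) (G t) hC0 ((hC₁ t ht).trans hC1) (hc t ht) (hp t ht)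
      (hBC.at_time ht) (hBt t ht) (hs t ht)).trans_lt ?_
    refine ENNReal.mul_lt_top ENNReal.ofReal_lt_top ?_
    refine ENNReal.rpow_lt_top_of_nonneg (by norm_num) ?_
    refine (ENNReal.mul_lt_top (ENNReal.pow_lt_top (by norm_num)) (volume_dom_lt_top h)).ne
  · obtain ⟨c, hc0, hcc⟩ := vel_BC s
    have hcC : 0 ≤ c * C := mul_nonneg hc0 hC0
    have hV := hcc h hh hh1 I C Λ G hC0 hΛ (fun τ hτ => (hC₁ τ hτ).trans hC1) hc hp hBC
    exact hs_cont_of_dom ((measure_mono interior_subset).trans_lt (volume_dom_lt_top h)) ht hsm s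
      (C := c * C)
      (fun i j hij τ hτ => ae_off (fun z hz => (BC.dxdy (isOpen_off h) hcC hV hij).1 τ hτ z hz))
      (fun i j hij => ae_off (fun z hz => (BC.dxdy (isOpen_off h) hcC hV hij).2 z hz))

end Pool.Agent.EAC.ZN
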