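import Pool.Agent.EAC.N1
import Pool.Agent.EAC.N2
import Pool.Agent.EAC.NV4

/-!
# EAC NFinal: PART N, the norm of the initial velocity tends to zero with the width of the domain
-/

set_option autoImplicit false

noncomputable section

namespace Pool.Agent.EAC.ZN

open MeasureTheory Set Filter Topology Metric
open scoped ENNReal ComplexConjugate
open Pool.Agent.EAC.Geo

private theorem measurableSet_Sper' (h : ℝ) : MeasurableSet (Sper h) := by
  unfold Sper
  apply MeasurableSet.inter (measurableSet_le measurable_const Complex.measurable_re)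
  apply MeasurableSet.inter (measurableSet_lt Complex.measurable_re measurable_const)
  apply MeasurableSet.inter (measurableSet_le measurable_const Complex.measurable_im)
  exact measurableSet_le Complex.measurable_im measurable_const

private theorem volume_Sper' {h : ℝ} : volume (Sper h) = ENNReal.ofReal (2 * Real.pi * h) := by
  have e : Sper h = Complex.measurableEquivRealProd ⁻¹' (Ico 0 (2 * Real.pi) ×ˢ Icc 0 h) := by
    ext z
    simp only [Sper, mem_ofPred_eq, mem_preimage, mem_prod, mem_Ico, mem_Icc,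
      Complex.measurableEquivRealProd_apply]
    tauto
  rw [e, Complex.volume_preserving_equiv_real_prod.measure_preimage
    (measurableSet_Ico.prod measurableSet_Icc).nullMeasurableSet, Measure.volume_eq_prod,
    Measure.prod_prod, Real.volume_Ico, Real.volume_Icc, ← ENNReal.ofReal_mul (by linarith [Real.pi_pos])]
  congr 1
  ring

/-- `|Λ| ≤ |lam| + C h`. -/
theorem abs_Lam_le {h lam C : ℝ} (hh : 0 < h) (_hC : 0 ≤ C) {f : ℂ → ℝ}
    (hf : ∀ z ∈ U h, |f z| ≤ C) : |Lam h lam f| ≤ |lam| + C * h := by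
  have hv : volume.real (Sper h) = 2 * Real.pi * h := by
    rw [measureReal_def, volume_Sper', ENNReal.toReal_ofReal (by positivity)]
  have h1 : ‖∫ w in Sper h, w.im * f w‖ ≤ (h * C) * (2 * Real.pi * h) := by
    rw [← hv]
    apply norm_setIntegral_le_of_norm_le_const_ae'
    · rw [volume_Sper']; exact ENNReal.ofReal_lt_top
    · have hnull : ∀ᵐ w ∂(volume : Measure ℂ), w ∉ S h \ U h :=
        measure_eq_zero_iff_ae_notMem.mp (vol_S_diff_U h)
      filter_upwards [hnull] with w hw hwS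
      have hwSh : w ∈ S h := ⟨hwS.2.2.1, hwS.2.2.2⟩
      have hwU : w ∈ U h := by
        by_contra hcon
        exact hw ⟨hwSh, hcon⟩
      rw [norm_mul]
      apply mul_le_mul _ _ (norm_nonneg _) hh.le
      · rw [Real.norm_of_nonneg hwSh.1]; exact hwSh.2
      · exact hf w hwU
  have hp : 0 < 2 * Real.pi * h := by positivity
  unfold Lam
  refine (abs_add_le _ _).trans ?_
  gcongr
  rw [abs_mul, abs_of_pos (by positivity : 0 < 1 / (2 * Real.pi * h))]
  rw [Real.norm_eq_abs] at h1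
  calc 1 / (2 * Real.pi * h) * |∫ w in Sper h, w.im * f w|
      ≤ 1 / (2 * Real.pi * h) * ((h * C) * (2 * Real.pi * h)) :=
        mul_le_mul_of_nonneg_left h1 (by positivity)
    _ = C * h := by field_simp

/-- PART N (smallness of the norm). -/
theorem N_final' (lam : ℝ) {w0 : ℂ → ℝ} (hw : NiceInit w0) (s : ℕ) {ε : ℝ} (hε : 0 < ε) :
    ∃ h1 > 0, ∀ h, 0 < h → h < h1 → hsNorm (dom h) s (velZ h lam w0) ≤ ENNReal.ofReal ε := by
  obtain ⟨c, hc0, hc⟩ := vel_hsNorm_le s
  obtain ⟨C0, hC0, hf0⟩ := f0_BC hw s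
  obtain ⟨cW, hcW0, hcW⟩ := W_BC s
  set C : ℝ := max (|lam| + C0) (cW * C0) with hCdef
  have hCn : 0 ≤ C := le_trans (by positivity) (le_max_left _ _)
  have hsm := f0_smooth hw
  -- the bound for every small width
  have key : ∀ h : ℝ, 0 < h → h ≤ 1 → hsNorm (dom h) s (velZ h lam w0) ≤
      ENNReal.ofReal (c * C) * (2 ^ (s + 1) * volume (dom h)) ^ (1 / 2 : ℝ) := by
    intro h hh hh1
    have hb1 : ∀ n, ∃ C', BC (univ : Set ℝ) (U h) C' n (fun _ ζ => rho ζ * w0 ζ) := fun n => by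
      obtain ⟨C', _, hC'⟩ := f0_BC hw n
      exact ⟨C', hC' h hh1⟩
    have e : velZ h lam w0 = velG (Lam h lam (fun x => rho x * w0 x))
        (W h (fun x => rho x * w0 x)) := rfl
    rw [e]
    refine hc h hh hh1 C _ _ hCn ?_ (fun ζ => W_conj _ ζ) (fun ζ _ => ?_) ?_ ?_ ?_
    · have hbd : ∀ z ∈ U h, |rho z * w0 z| ≤ C0 := fun z hz => by
        have := (hf0 h hh1).zero.2 0 (mem_univ _) z hz
        simpa using this
      refine (abs_Lam_le hh hC0 hbd).trans (le_trans ?_ (le_max_left _ _))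
      nlinarith
    · exact W_per (fun w _ => f0_per hw w) ζ
    · exact (hcW h hh hh1 _ C0 hC0 hsm (hb1 1) (hf0 h hh1)).mono (subset_refl _) (subset_refl _)
        (le_max_right _ _) le_rfl
    · intro n
      obtain ⟨Cn, hCn0, hCn⟩ := f0_BC hw n
      obtain ⟨cn, hcn0, hcn⟩ := W_BC n
      exact ⟨_, hcn h hh hh1 _ Cn hCn0 hsm (hb1 1) (hCn h hh1)⟩
    · intro x hx
      obtain ⟨d, hd, hd0⟩ := f0_slit hw hx
      have hBM : BM h (fun x => rho x * w0 x) C0 := BM_of_continuousOn hsm.continuous.continuousOn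
        (fun w hwU => by
          have := (hf0 h hh1).zero.2 0 (mem_univ _) w hwU
          simpa using this)
      exact ⟨min d h, lt_min hd hh, W_holo hh hd hBM (fun w _ hwd => hd0 w hwd)⟩
  -- the right hand side tends to zero
  have hlim : Tendsto (fun h : ℝ => ENNReal.ofReal (c * C) *
      (2 ^ (s + 1) * volume (dom h)) ^ (1 / 2 : ℝ)) (𝓝[>] 0) (𝓝 0) := by
    have h2 : Tendsto (fun h : ℝ => (2 : ℝ≥0∞) ^ (s + 1) * volume (dom h)) (𝓝[>] 0)
        (𝓝 ((2 : ℝ≥0∞) ^ (s + 1) * 0)) :=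
      ENNReal.Tendsto.const_mul tendsto_volume_dom (Or.inr (by finiteness))
    have h3 := (ENNReal.continuous_rpow_const (y := (1 / 2 : ℝ))).tendsto ((2 : ℝ≥0∞) ^ (s + 1) * 0)
    have h4 := h3.comp h2
    have h5 : Tendsto (fun h : ℝ => ENNReal.ofReal (c * C) *
      (2 ^ (s + 1) * volume (dom h)) ^ (1 / 2 : ℝ)) (𝓝[>] 0)
        (𝓝 (ENNReal.ofReal (c * C) * ((2 : ℝ≥0∞) ^ (s + 1) * 0) ^ (1 / 2 : ℝ))) :=
      ENNReal.Tendsto.const_mul h4 (Or.inr ENNReal.ofReal_ne_top)
    simpa using h5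
  have hev : ∀ᶠ h : ℝ in 𝓝[>] 0, ENNReal.ofReal (c * C) *
      (2 ^ (s + 1) * volume (dom h)) ^ (1 / 2 : ℝ) < ENNReal.ofReal ε :=
    hlim.eventually_lt_const (by simpa using hε)
  obtain ⟨u, hu, hu'⟩ := (mem_nhdsGT_iff_exists_Ioo_subset).mp hev
  refine ⟨min u 1, lt_min hu one_pos, fun h hh hh1 => ?_⟩
  have h1 : h < u := lt_of_lt_of_le hh1 (min_le_left _ _)
  have h2 : h ≤ 1 := (lt_of_lt_of_le hh1 (min_le_right _ _)).le
  exact (key h hh h2).trans (hu' ⟨hh, h1⟩).le

end Pool.Agent.EAC.ZN
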