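import Pool.Agent.EAC.X4

/-!
# EAC-X6: support of the vorticity: distance from the corners, distance from `J`

`supp_corner`: `u(t) = ‖sin(Φ t x)‖`, `w0 x ≠ 0`, so `u(0) ≥ |sin Re x| ≥ d₀`. `|u'| ≤ ‖cos‖ ‖VV‖ ≤ C₁ u (1 + max 0 (-log u))` (`vel_speed`, `‖cos‖ ≤ cosh 1`), `C₁` independent of `D`.
So `y = 1 + max 0 (-log u)` satisfies `y(t) ≤ y(0) e^{C₁ t}` (supersolution argument), `u(t) ≥ exp(-y₀ e^{C₁ t})`, `y₀ = 1 + max 0 (-log d₀)`; take `D = C₁ + y₀ + 1`: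
`2 (dd D t)² ≤ u(t)²` for all `t ≥ 0`.
`supp_J`: the set `K₀ = {ζ ∈ S h, 0 ≤ Re ζ ≤ 2π, d₀ ≤ sin Re ζ}` is compact and contains the support of `w0` modulo `2π`; `(t,x) ↦ Φ t x` is continuous on `[0,T] × K₀`;
its image is compact and does not meet the closed set `{Im ζ = 0, sin Re ζ ≤ 0}`: if `Im (Φ t x) = 0` then `Im x = 0`, and on the line `Im = 0` the corners (`sin = 0`) are fixed
(`VV = 0` there), so `sin Re` keeps its sign along the trajectory (intermediate value theorem + uniqueness). A compact set and a closed set which is disjoint have positive distance; if `sin Re ζ ≤ 0` then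
`Re ζ` belongs to the closed set, and `Im ζ = ‖ζ - Re ζ‖`.

THIS FILE: supp_J.
-/

set_option autoImplicit false

noncomputable section

namespace Pool.Agent.EAC


open MeasureTheory Set Filter Topology Metric
open scoped ENNReal ComplexConjugate

private theorem x6b_int {T h : ℝ} {V Φ A : ℝ → ℂ → ℂ} (hF : SFlow T h V Φ A) {t : ℝ}
    (ht : t ∈ Icc 0 T) (n : ℤ) :
    ∀ x ∈ S h, Φ t (x + (n : ℂ) * (2 * Real.pi)) = Φ t x + (n : ℂ) * (2 * Real.pi) := by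
  have hmem : ∀ x ∈ S h, ∀ m : ℤ, x + (m : ℂ) * (2 * Real.pi) ∈ S h := by
    intro x hx m
    simpa [S] using hx
  induction n using Int.induction_on with
  | zero => intro x hx; simp
  | succ n ih =>
    intro x hx
    have h2 := hF.shift t ht _ (hmem x hx n)
    rw [ih x hx] at h2
    have h3 : x + (((n : ℤ) + 1 : ℤ) : ℂ) * (2 * Real.pi) =
        x + ((n : ℤ) : ℂ) * (2 * Real.pi) + 2 * Real.pi := by push_cast; ring
    rw [h3, h2]
    push_cast
    ring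
  | pred n ih =>
    intro x hx
    have h2 := hF.shift t ht _ (hmem x hx (-(n : ℤ) - 1))
    have h3 : x + ((-(n : ℤ) - 1 : ℤ) : ℂ) * (2 * Real.pi) + 2 * Real.pi =
        x + ((-(n : ℤ) : ℤ) : ℂ) * (2 * Real.pi) := by push_cast; ring
    rw [h3, ih x hx] at h2
    have h4 : Φ t (x + ((-(n : ℤ) - 1 : ℤ) : ℂ) * (2 * Real.pi)) =
        Φ t x + ((-(n : ℤ) : ℤ) : ℂ) * (2 * Real.pi) - 2 * Real.pi := by
      rw [h2]; ring
    rw [h4]
    push_cast
    ring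

private theorem x6b_pos {D h lam T : ℝ} (hh : 0 < h) (hh1 : h ≤ 1) (hT : 0 < T)
    {w : ℝ → ℂ → ℝ} {Φ A : ℝ → ℂ → ℂ} {β K : ℝ} (hβ : 0 < β) (hβ1 : β ≤ 1) (hw : St T h β K w)
    (hF : SFlow T h (VV D h lam w) Φ A) {t : ℝ} (ht : t ∈ Icc 0 T) {x : ℂ} (hx : x ∈ S h)
    (hs : 0 < Real.sin x.re) (hn : Real.sin (Φ t x).re ≤ 0) : 0 < (Φ t x).im := by
  by_contra hcon
  have him : (Φ t x).im = 0 := le_antisymm (not_lt.1 hcon) (hF.mem t ht x hx).1
  have hxim : x.im = 0 := (hF.bot t ht x hx).1 him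
  obtain ⟨M, hM, hMM⟩ := vel_field (D := D) (lam := lam) hh hh1 hT.le
  obtain ⟨hV, -⟩ := hMM β K w hβ hβ1 hw
  have hc : ContinuousOn (fun τ => Real.sin (Φ τ x).re) (Icc 0 t) := by
    have h1 : ContinuousOn (fun τ => Φ τ x) (Icc 0 t) := by
      intro τ hτ
      have hτ' : τ ∈ Icc 0 T := ⟨hτ.1, hτ.2.trans ht.2⟩
      exact ((hF.deriv τ hτ' x hx).continuousWithinAt).mono (Icc_subset_Icc le_rfl ht.2)
    exact Real.continuous_sin.comp_continuousOn (Complex.continuous_re.comp_continuousOn h1)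
  have h0 : (fun τ => Real.sin (Φ τ x).re) 0 = Real.sin x.re := by
    simp only [hF.init x hx]
  have hiv := intermediate_value_Icc' ht.1 hc
  have h0m : (0 : ℝ) ∈ Icc ((fun τ => Real.sin (Φ τ x).re) t) ((fun τ => Real.sin (Φ τ x).re) 0) := by
    rw [h0]
    exact ⟨hn, hs.le⟩
  obtain ⟨τ, hτ, hτ0⟩ := hiv h0m
  have hτ' : τ ∈ Icc 0 T := ⟨hτ.1, hτ.2.trans ht.2⟩
  have hpim : (Φ τ x).im = 0 := (hF.bot τ hτ' x hx).2 hxim
  have hpS : Φ τ x ∈ S h := hF.mem τ hτ' x hx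
  have hpsin : Complex.sin (Φ τ x) = 0 := by
    have h1 : Φ τ x = ((Φ τ x).re : ℂ) := Complex.ext (by simp) (by simp [hpim])
    have h2 : Real.sin (Φ τ x).re = 0 := hτ0
    rw [h1, ← Complex.ofReal_sin, h2, Complex.ofReal_zero]
  have hVp : ∀ s, VV D h lam w s (Φ τ x) = 0 := by
    intro s
    have h1 : cut D s (Φ τ x) = 0 := cut_zero (by rw [hpsin, norm_zero]; exact (dd_pos D s).le)
    unfold VV Vel aa
    rw [h1]
    simp
  have huniq := strip_unique hV (γ₁ := fun s => Φ s x) (γ₂ := fun _ => Φ τ x) hτ'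
    (fun s hs => hF.mem s hs x hx) (fun s _ => hpS) (fun s hs => hF.deriv s hs x hx)
    (fun s hs => by
      have h1 := hasDerivWithinAt_const s (Icc 0 T) (Φ τ x)
      rw [hVp s]
      exact h1) rfl
  have h00 := huniq 0 ⟨le_rfl, hT.le⟩
  simp only [hF.init x hx] at h00
  have h01 : Real.sin (Φ τ x).re = 0 := hτ0
  rw [← h00] at h01
  exact hs.ne' h01

theorem supp_J {D h lam T : ℝ} (hh : 0 < h) (hh1 : h ≤ 1) (hT : 0 < T) {w0 : ℂ → ℝ} (hw0 : NiceInit w0)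
    {w : ℝ → ℂ → ℝ} {Φ A : ℝ → ℂ → ℂ} {β K : ℝ} (hβ : 0 < β) (hβ1 : β ≤ 1) (hw : St T h β K w)
    (hF : SFlow T h (VV D h lam w) Φ A) :
    ∃ d > 0, ∀ t ∈ Icc 0 T, ∀ x ∈ S h, w0 x ≠ 0 → Real.sin (Φ t x).re ≤ 0 → d ≤ (Φ t x).im := by
  obtain ⟨d0, hd0, hsupp⟩ := hw0.supp
  obtain ⟨M, hM, hMM⟩ := vel_field (D := D) (lam := lam) hh hh1 hT.le
  obtain ⟨hV, -⟩ := hMM β K w hβ hβ1 hw
  obtain ⟨hcont, -⟩ := sflow_cont hT.le hV hF
  set K0 : Set ℂ := (Icc 0 (2 * Real.pi) ×ℂ Icc 0 h) ∩ {ζ | d0 ≤ Real.sin ζ.re} with hK0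
  have hK0S : K0 ⊆ S h := by
    intro ζ hζ
    exact (Complex.mem_reProdIm.1 hζ.1).2
  have hcK0 : IsCompact K0 := by
    refine (isCompact_Icc.reProdIm isCompact_Icc).inter_right ?_
    exact isClosed_le continuous_const (Real.continuous_sin.comp Complex.continuous_re)
  have hcP : IsCompact (Icc (0 : ℝ) T ×ˢ K0) := isCompact_Icc.prod hcK0
  have hcont' : ContinuousOn (fun p : ℝ × ℂ => Φ p.1 p.2) (Icc 0 T ×ˢ K0) :=
    hcont.mono (prod_mono le_rfl hK0S)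
  set E : Set (ℝ × ℂ) := (Icc (0 : ℝ) T ×ˢ K0) ∩
    (fun p : ℝ × ℂ => Φ p.1 p.2) ⁻¹' {z | Real.sin z.re ≤ 0} with hE
  have hEc : IsCompact E := by
    refine hcP.of_isClosed_subset ?_ inter_subset_left
    exact hcont'.preimage_isClosed_of_isClosed hcP.isClosed
      (isClosed_le (Real.continuous_sin.comp Complex.continuous_re) continuous_const)
  have hfc : ContinuousOn (fun p : ℝ × ℂ => (Φ p.1 p.2).im) E :=
    Complex.continuous_im.comp_continuousOn (hcont'.mono inter_subset_left)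
  have hpos : ∀ p ∈ E, 0 < (Φ p.1 p.2).im := by
    intro p hp
    refine x6b_pos hh hh1 hT hβ hβ1 hw hF hp.1.1 (hK0S hp.1.2) ?_ hp.2
    exact lt_of_lt_of_le hd0 hp.1.2.2
  have hmin : ∃ d > 0, ∀ p ∈ E, d ≤ (Φ p.1 p.2).im := by
    rcases E.eq_empty_or_nonempty with he | hne
    · refine ⟨1, one_pos, ?_⟩
      intro p hp
      rw [he] at hp
      exact absurd hp (notMem_empty p)
    · obtain ⟨p, hp, hpm⟩ := hEc.exists_isMinOn hne hfc
      exact ⟨_, hpos p hp, fun q hq => hpm hq⟩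
  obtain ⟨d, hd, hdE⟩ := hmin
  refine ⟨d, hd, ?_⟩
  intro t ht x hx hwx hs
  -- reduce modulo the period
  set n : ℤ := ⌊x.re / (2 * Real.pi)⌋ with hn
  have h2pi : 0 < 2 * Real.pi := by positivity
  have hfl1 : (n : ℝ) * (2 * Real.pi) ≤ x.re := by
    have := Int.floor_le (x.re / (2 * Real.pi))
    rwa [le_div_iff₀ h2pi] at this
  have hfl2 : x.re < ((n : ℝ) + 1) * (2 * Real.pi) := by
    have := Int.lt_floor_add_one (x.re / (2 * Real.pi))
    rwa [div_lt_iff₀ h2pi] at this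
  set y : ℂ := x + (((-n : ℤ)) : ℂ) * (2 * Real.pi) with hy
  have hyre : y.re = x.re - (n : ℝ) * (2 * Real.pi) := by
    rw [hy]; simp; ring
  have hyim : y.im = x.im := by
    rw [hy]; simp
  have hyS : y ∈ S h := by
    simp only [S, mem_setOf_eq, hyim]
    exact hx
  have hysin : d0 ≤ Real.sin y.re := by
    rw [hyre, Real.sin_sub_int_mul_two_pi]
    exact hsupp x hwx
  have hyK : y ∈ K0 := by
    refine ⟨Complex.mem_reProdIm.2 ⟨⟨?_, ?_⟩, hyS⟩, hysin⟩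
    · rw [hyre]; linarith
    · rw [hyre]; nlinarith
  have hΦ := x6b_int hF ht (-n) x hx
  rw [← hy] at hΦ
  have hΦre : (Φ t y).re = (Φ t x).re - (n : ℝ) * (2 * Real.pi) := by
    rw [hΦ]; simp; ring
  have hΦim : (Φ t y).im = (Φ t x).im := by
    rw [hΦ]; simp
  rw [← hΦim]
  refine hdE (t, y) ⟨⟨ht, hyK⟩, ?_⟩
  show Real.sin (Φ t y).re ≤ 0
  rw [hΦre, Real.sin_sub_int_mul_two_pi]
  exact hs

end Pool.Agent.EAC
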