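import Pool.Agent.EAC.X8a

/-!
# EAC-X8: bootstrap: the vorticity is of class `CC n` for all `n`

`boot`: `w ∈ CC n` ⇒ `f = rr w ∈ CC n` (`aa_CC`, `CC_mul`) ⇒ `W[f] ∈ CC (n+1)` (`W_CC`), `Lam` continuous in `t` (`CC_of_time`) ⇒ `VV ∈ CC (n+1)`
(conjugation is a real linear map) ⇒ `A - id ∈ CC (n+1)` (`CC_flow_inv` with the `StripFlow` obtained from `SFlow`: the open strip is invariant by `bot`, `top`) ⇒
`w = w0 (z + (A - id)) ∈ CC (n+1)` (`CC_comp`, `nice_CC`). Base case `n = 0`: `St`.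

THIS FILE: boot.
-/

set_option autoImplicit false

noncomputable section

namespace Pool.Agent.EAC


open MeasureTheory Set Filter Topology Metric
open scoped ENNReal ComplexConjugate

theorem boot {D h lam T β K : ℝ} (hh : 0 < h) (hh1 : h ≤ 1) (hT : 0 ≤ T) (hβ : 0 < β) (hβ1 : β ≤ 1)
    {w0 : ℂ → ℝ} (hw0 : NiceInit w0) {w : ℝ → ℂ → ℝ} {Φ A : ℝ → ℂ → ℂ} (hw : St T h β K w)
    (hF : SFlow T h (VV D h lam w) Φ A) (hA : ∀ t ∈ Icc 0 T, ∀ z ∈ S h, w t z = w0 (A t z)) (n : ℕ) :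
    CC T h n w := by
  induction n with
  | zero =>
    have hUS : U h ⊆ S h := fun z hz => ⟨hz.1.le, hz.2.le⟩
    refine ⟨hw.cont.mono (prod_mono le_rfl hUS), ⟨1, fun t ht z hz => ?_⟩, β, hβ, hβ1, K,
      fun t ht z hz y hy => ?_⟩
    · have := hw.range t ht z (hUS hz)
      rw [Real.norm_eq_abs, abs_of_nonneg this.1]
      exact this.2
    · exact hw.holder t ht z (hUS hz) y (hUS hy)
  | succ n ih =>
    have hVV : CC T h (n + 1) (VV D h lam w) := VV_CC hh n ih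
    have hSF := hF.toStripFlow
    have hA1 : CC T h (n + 1) (fun t z => A t z - z) := CC_flow_inv n hT hSF hVV
    have hm : ∀ t ∈ Icc 0 T, ∀ z ∈ U h, z + (A t z - z) ∈ U h := by
      intro t ht z hz
      rw [add_sub_cancel]
      exact hSF.memA t ht z hz
    have hc := CC_comp (nice_CC hw0 T h (n + 1)) hA1 hm
    refine CC_congr hc fun t ht z hz => ?_
    rw [add_sub_cancel]
    exact (hA t ht z ⟨hz.1.le, hz.2.le⟩).symm

end Pool.Agent.EAC
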