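import Pool.Agent.EAC.X4

/-!
# EAC-X9: assembly of PART X

THIS FILE: true_field (helper10). On the support of `w t` we have `cut D t = 1`, so `rho * w t = rr D t * w t` on `S h`: bounded,
Hölder, continuous; `W` is Lipschitz, bounded, tangent, periodic; `mm` is Lipschitz and bounded.
-/

set_option autoImplicit false

noncomputable section

namespace Pool.Agent.EAC


open MeasureTheory Set Filter Topology Metric
open scoped ENNReal ComplexConjugate

/-- lower bound of the radius of the cutoff. -/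
theorem tf_dd_ge (D T : ℝ) {t : ℝ} (ht : t ∈ Icc 0 T) :
    Real.exp (-(|D| * Real.exp (|D| * T))) ≤ dd D t := by
  unfold dd
  apply Real.exp_le_exp.mpr
  have h1 : D * Real.exp (D * t) ≤ |D| * Real.exp (|D| * T) := by
    have h2 : D * t ≤ |D| * T :=
      (mul_le_mul_of_nonneg_right (le_abs_self D) ht.1).trans
        (mul_le_mul_of_nonneg_left ht.2 (abs_nonneg D))
    exact (mul_le_mul_of_nonneg_right (le_abs_self D) (Real.exp_pos _).le).trans
      (mul_le_mul_of_nonneg_left (Real.exp_le_exp.mpr h2) (abs_nonneg D))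
  linarith

theorem tf_convex_U (h : ℝ) : Convex ℝ (U h) := by
  have e : U h = {z : ℂ | 0 < z.im} ∩ {z : ℂ | z.im < h} := rfl
  rw [e]
  exact (convex_halfSpace_im_gt 0).inter (convex_halfSpace_im_lt h)

/-- `rr D t` is bounded and Lipschitz on `U h`. -/
theorem tf_rr (D T : ℝ) {h : ℝ} (hh : 0 < h) :
    ∃ L ≥ 0, ∀ t ∈ Icc 0 T, ∀ z ∈ U h, |rr D t z| ≤ L ∧
      ∀ y ∈ U h, |rr D t z - rr D t y| ≤ L * ‖z - y‖ := by
  obtain ⟨-, hc⟩ := aa_CC D T hh 1
  obtain ⟨-, ⟨B, hB⟩, G', hd, -, ⟨B', hB'⟩, -⟩ := hc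
  refine ⟨max 0 (max B B'), le_max_left _ _, fun t ht z hz => ⟨?_, fun y hy => ?_⟩⟩
  · have := hB t ht z hz
    rw [Real.norm_eq_abs] at this
    exact this.trans ((le_max_left _ _).trans (le_max_right _ _))
  · have h1 := (tf_convex_U h).norm_image_sub_le_of_norm_hasFDerivWithin_le
      (f := rr D t) (f' := G' t) (C := B') (fun x hx => (hd t ht x hx).hasFDerivWithinAt)
      (fun x hx => hB' t ht x hx) hy hz
    rw [Real.norm_eq_abs] at h1
    exact h1.trans (mul_le_mul_of_nonneg_right ((le_max_right _ _).trans (le_max_right _ _))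
      (norm_nonneg _))

/-- the density is bounded and Hölder. -/
theorem tf_dens {D T h β K : ℝ} (hh : 0 < h) (hβ : 0 < β) (hβ1 : β ≤ 1) {w : ℝ → ℂ → ℝ}
    (hw : St T h β K w) :
    ∃ B ≥ 0, ∃ K' ≥ 0, ∀ t ∈ Icc 0 T, (∀ z ∈ U h, |rr D t z * w t z| ≤ B) ∧
      ∀ z ∈ U h, ∀ y ∈ U h, |rr D t z * w t z - rr D t y * w t y| ≤ K' * ‖z - y‖ ^ β := by
  obtain ⟨L, hL, hr⟩ := tf_rr D T hh
  have hUS : ∀ z ∈ U h, z ∈ S h := fun z hz => ⟨hz.1.le, hz.2.le⟩
  refine ⟨L, hL, 2 * L + L * |K|, by positivity, fun t ht => ⟨fun z hz => ?_, fun z hz y hy => ?_⟩⟩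
  · obtain ⟨h1, -⟩ := hr t ht z hz
    obtain ⟨h2, h3⟩ := hw.range t ht z (hUS z hz)
    rw [abs_mul, abs_of_nonneg h2]
    nlinarith [abs_nonneg (rr D t z)]
  · obtain ⟨h1, h1'⟩ := hr t ht z hz
    obtain ⟨h2, h3⟩ := hw.range t ht z (hUS z hz)
    obtain ⟨g1, -⟩ := hr t ht y hy
    have h4 := hw.holder t ht z (hUS z hz) y (hUS y hy)
    have hp : 0 ≤ ‖z - y‖ ^ β := Real.rpow_nonneg (norm_nonneg _) _
    have h5 : |rr D t z - rr D t y| ≤ 2 * L * ‖z - y‖ ^ β := by
      rcases le_total ‖z - y‖ 1 with hle | hle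
      · have h6 : ‖z - y‖ ≤ ‖z - y‖ ^ β := by
          rcases (norm_nonneg (z - y)).eq_or_lt with h0 | h0
          · rw [← h0, Real.zero_rpow hβ.ne']
          · calc ‖z - y‖ = ‖z - y‖ ^ (1 : ℝ) := (Real.rpow_one _).symm
              _ ≤ ‖z - y‖ ^ β := Real.rpow_le_rpow_of_exponent_ge h0 hle hβ1
        have := h1' y hy
        nlinarith
      · have h6 : 1 ≤ ‖z - y‖ ^ β := Real.one_le_rpow hle hβ.le
        have h7 : |rr D t z - rr D t y| ≤ |rr D t z| + |rr D t y| := abs_sub _ _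
        nlinarith
    have e : rr D t z * w t z - rr D t y * w t y =
        (rr D t z - rr D t y) * w t z + rr D t y * (w t z - w t y) := by ring
    rw [e]
    refine (abs_add_le _ _).trans ?_
    rw [abs_mul, abs_mul, abs_of_nonneg h2]
    have h8 : |rr D t z - rr D t y| * w t z ≤ 2 * L * ‖z - y‖ ^ β := by
      have := abs_nonneg (rr D t z - rr D t y)
      nlinarith
    have h9 : |rr D t y| * |w t z - w t y| ≤ L * (|K| * ‖z - y‖ ^ β) := by
      apply mul_le_mul g1 (h4.trans (mul_le_mul_of_nonneg_right (le_abs_self K) hp)) (abs_nonneg _) hL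
    nlinarith

theorem tf_meas_Sper (h : ℝ) : MeasurableSet (Sper h) := by
  unfold Sper
  apply MeasurableSet.inter (measurableSet_le measurable_const Complex.measurable_re)
  apply MeasurableSet.inter (measurableSet_lt Complex.measurable_re measurable_const)
  apply MeasurableSet.inter (measurableSet_le measurable_const Complex.measurable_im)
  exact measurableSet_le Complex.measurable_im measurable_const

theorem tf_vol_Sper (h : ℝ) : volume (Sper h) < ⊤ := by
  have hb : Bornology.IsBounded (Sper h) := by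
    rw [isBounded_iff_forall_norm_le]
    refine ⟨2 * Real.pi + |h|, fun z hz => ?_⟩
    have h1 := Complex.norm_le_abs_re_add_abs_im z
    have h2 : |z.re| ≤ 2 * Real.pi := by rw [abs_of_nonneg hz.1]; exact hz.2.1.le
    have h3 : |z.im| ≤ |h| := by
      rw [abs_of_nonneg hz.2.2.1]; exact hz.2.2.2.trans (le_abs_self h)
    linarith
  exact hb.measure_lt_top

theorem true_field {D T h lam β K : ℝ} (hh : 0 < h) (hh1 : h ≤ 1) (hT : 0 ≤ T) (hβ : 0 < β)
    (hβ1 : β ≤ 1) {w : ℝ → ℂ → ℝ} (hw : St T h β K w)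
    (hc : ∀ t ∈ Icc 0 T, ∀ z ∈ S h, w t z ≠ 0 → cut D t z = 1) :
    FieldOK T h (fun t z => Vel h lam mm (fun x => rho x * w t x) z) := by
  have hUS : ∀ z ∈ U h, z ∈ S h := fun z hz => ⟨hz.1.le, hz.2.le⟩
  have hS1 : ∀ z ∈ S h, z ∈ S 1 := fun z hz => ⟨hz.1, hz.2.trans hh1⟩
  have hper : Sper h ⊆ S h := fun z hz => ⟨hz.2.2.1, hz.2.2.2⟩
  -- the density is `rr * w`
  have hfe : ∀ t ∈ Icc 0 T, ∀ z ∈ S h, rho z * w t z = rr D t z * w t z := by
    intro t ht z hz
    by_cases h0 : w t z = 0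
    · rw [h0, mul_zero, mul_zero]
    · unfold rr
      rw [hc t ht z hz h0, mul_one]
  obtain ⟨B, hB, K', hK', hf⟩ := tf_dens (D := D) hh hβ hβ1 hw
  have hWe : ∀ t ∈ Icc 0 T, ∀ z, W h (fun x => rho x * w t x) z = W h (fun x => rr D t x * w t x) z :=
    fun t ht z => W_congr (fun x hx => hfe t ht x (hUS x hx)) z
  have hfc : ContinuousOn (fun p : ℝ × ℂ => rr D p.1 p.2 * w p.1 p.2) (Icc 0 T ×ˢ S h) :=
    ((aa_cont D hh).2.mono (prod_mono (subset_univ _) subset_rfl)).mul hw.cont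
  have hfcU : ContinuousOn (fun p : ℝ × ℂ => rr D p.1 p.2 * w p.1 p.2) (Icc 0 T ×ˢ U h) :=
    hfc.mono (prod_mono subset_rfl hUS)
  -- continuity of `W`
  have hWc : ContinuousOn (fun p : ℝ × ℂ => W h (fun x => rho x * w p.1 x) p.2) (Icc 0 T ×ˢ S h) := by
    have h1 := W_time (T := T) hh (f := fun t x => rr D t x * w t x) hfcU
      (fun t ht x hx => (hf t ht).1 x hx)
    exact h1.congr fun p hp => hWe p.1 hp.1 p.2
  -- bound of `W`
  obtain ⟨CW, hCW, hWb⟩ := W_bound
  have hBM : ∀ t ∈ Icc 0 T, BM h (fun x => rr D t x * w t x) B := by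
    intro t ht
    apply BM_of_continuousOn _ (hf t ht).1
    exact hfcU.comp (f := fun z : ℂ => (t, z)) (by fun_prop) fun z hz => ⟨ht, hz⟩
  have hWb' : ∀ t ∈ Icc 0 T, ∀ z ∈ S h, ‖W h (fun x => rho x * w t x) z‖ ≤ CW * h * B :=
    fun t ht z hz => by rw [hWe t ht z]; exact hWb h hh _ B (hBM t ht) z hz
  -- Lipschitz bound of `W`
  obtain ⟨CL, hCL, hWl⟩ := W_lip hh hβ hβ1
  have hWl' : ∀ t ∈ Icc 0 T, ∀ z ∈ S h, ∀ y ∈ S h,
      ‖W h (fun x => rho x * w t x) z - W h (fun x => rho x * w t x) y‖ ≤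
        CL * (B + K') * ‖z - y‖ := by
    intro t ht z hz y hy
    rw [hWe t ht z, hWe t ht y]
    exact hWl _ B K' hB hK' (hf t ht).1 (hf t ht).2 z hz y hy
  -- `Lam`
  have hLe : ∀ t ∈ Icc 0 T, Lam h lam (fun x => rho x * w t x) =
      Lam h lam (fun x => rr D t x * w t x) := by
    intro t ht
    unfold Lam
    congr 2
    apply setIntegral_congr_fun (tf_meas_Sper h)
    intro z hz
    simp only [hfe t ht z (hper hz)]
  obtain ⟨CA, hCA, hab⟩ := aa_bound
  obtain ⟨m, hm⟩ : ∃ m : ℝ, m = Real.exp (-(|D| * Real.exp (|D| * T))) := ⟨_, rfl⟩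
  have hmp : 0 < m := by rw [hm]; exact Real.exp_pos _
  have hfb : ∀ t ∈ Icc 0 T, ∀ z ∈ Sper h, ‖z.im * (rr D t z * w t z)‖ ≤ h * (CA / m) := by
    intro t ht z hz
    obtain ⟨-, -, h3, -, h5⟩ := hab D t z (hper hz).1 ((hper hz).2.trans hh1)
    obtain ⟨h6, h7⟩ := hw.range t ht z (hper hz)
    have h8 : rr D t z ≤ CA / m := h5.trans (div_le_div_of_nonneg_left hCA.le hmp
      (by rw [hm]; exact tf_dd_ge D T ht))
    have h9 : rr D t z * w t z ≤ CA / m := by nlinarith
    have h10 : 0 ≤ rr D t z * w t z := mul_nonneg h3 h6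
    rw [norm_mul, Real.norm_of_nonneg (hper hz).1, Real.norm_of_nonneg h10]
    exact mul_le_mul (hper hz).2 h9 h10 hh.le
  have hfin : IsFiniteMeasure (volume.restrict (Sper h)) := by
    constructor
    rw [Measure.restrict_apply_univ]
    exact tf_vol_Sper h
  have hLc : ContinuousOn (fun t => Lam h lam (fun x => rho x * w t x)) (Icc 0 T) := by
    have h1 : ContinuousOn (fun t => Lam h lam (fun x => rr D t x * w t x)) (Icc 0 T) := by
      unfold Lam
      apply continuousOn_const.add (continuousOn_const.mul _)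
      apply continuousOn_of_dominated (bound := fun _ => h * (CA / m))
      · intro t ht
        apply ContinuousOn.aestronglyMeasurable _ (tf_meas_Sper h)
        apply Complex.continuous_im.continuousOn.mul
        exact (hfc.comp (f := fun z : ℂ => (t, z)) (by fun_prop) fun z hz => ⟨ht, hper hz⟩)
      · intro t ht
        filter_upwards [ae_restrict_mem (tf_meas_Sper h)] with z hz
        exact hfb t ht z hz
      · exact integrable_const _
      · filter_upwards [ae_restrict_mem (tf_meas_Sper h)] with z hz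
        apply continuousOn_const.mul
        exact (hfc.comp (f := fun t : ℝ => (t, z)) (by fun_prop) fun t ht => ⟨ht, hper hz⟩)
    exact h1.congr fun t ht => hLe t ht
  obtain ⟨CL', hCL'⟩ : ∃ CL' : ℝ, ∀ t ∈ Icc 0 T, ‖Lam h lam (fun x => rho x * w t x)‖ ≤ CL' :=
    isCompact_Icc.exists_bound_of_continuousOn hLc
  -- `mm`
  obtain ⟨CM, hCM, hmb⟩ := mm_bounds
  obtain ⟨LM, hLM, hml⟩ := mm_lip
  have hsin : ∀ z ∈ S h, ‖Complex.sin z‖ ≤ Real.cosh 1 := by
    intro z hz
    apply le_of_sq_le_sq _ (Real.cosh_pos 1).le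
    have e : ‖Complex.sin z‖ ^ 2 = Real.sin z.re ^ 2 + Real.sinh z.im ^ 2 := by
      rw [Complex.sq_norm, Complex.normSq_apply, Complex.sin_eq]
      simp only [← Complex.ofReal_sin, ← Complex.ofReal_cos, ← Complex.ofReal_sinh,
        ← Complex.ofReal_cosh]
      simp only [Complex.add_re, Complex.add_im, Complex.mul_re, Complex.mul_im,
        Complex.ofReal_re, Complex.ofReal_im, Complex.I_re, Complex.I_im]
      have h1 := Real.sin_sq_add_cos_sq z.re
      have h2 := Real.cosh_sq z.im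
      nlinarith
    have h1 : Real.sin z.re ^ 2 ≤ 1 := Real.sin_sq_le_one _
    have h2 : Real.sinh z.im ^ 2 ≤ Real.sinh 1 ^ 2 :=
      pow_le_pow_left₀ (Real.sinh_nonneg_iff.mpr hz.1)
        (Real.sinh_le_sinh.mpr (hz.2.trans hh1)) 2
    have h3 := Real.cosh_sq 1
    rw [e]
    linarith
  have hmB : ∀ z ∈ S h, 0 ≤ mm z ∧ mm z ≤ CM * Real.cosh 1 := fun z hz => by
    obtain ⟨h1, h2, -⟩ := hmb z hz.1 (hz.2.trans hh1)
    exact ⟨h1, h2.trans (mul_le_mul_of_nonneg_left (hsin z hz) hCM.le)⟩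
  have hmc : ContinuousOn mm (S h) := by
    have : LipschitzOnWith (Real.toNNReal LM) mm (S h) := by
      apply LipschitzOnWith.of_dist_le_mul
      intro x hx y hy
      rw [Real.dist_eq, Complex.dist_eq, Real.coe_toNNReal _ hLM.le]
      exact hml x (hS1 x hx) y (hS1 y hy)
    exact this.continuousOn
  -- the bracket
  set g : ℝ → ℂ → ℂ := fun t z => -(Lam h lam (fun x => rho x * w t x) : ℂ) +
    Complex.I * conj (W h (fun x => rho x * w t x) z) with hg
  have hV : (fun (t : ℝ) (z : ℂ) => Vel h lam mm (fun x => rho x * w t x) z) =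
      fun t z => (mm z : ℂ) * g t z := rfl
  have hgc : ContinuousOn (fun p : ℝ × ℂ => g p.1 p.2) (Icc 0 T ×ˢ S h) := by
    rw [hg]
    apply ContinuousOn.add
    · apply ContinuousOn.neg
      exact Complex.continuous_ofReal.comp_continuousOn
        (hLc.comp continuousOn_fst fun p hp => hp.1)
    · exact continuousOn_const.mul (Complex.continuous_conj.comp_continuousOn hWc)
  have hgb : ∀ t ∈ Icc 0 T, ∀ z ∈ S h, ‖g t z‖ ≤ |CL'| + CW * h * B := by
    intro t ht z hz
    rw [hg]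
    refine (norm_add_le _ _).trans ?_
    rw [norm_neg, norm_mul, Complex.norm_I, one_mul, Complex.norm_real, RCLike.norm_conj]
    exact add_le_add ((hCL' t ht).trans (le_abs_self _)) (hWb' t ht z hz)
  have hgl : ∀ t ∈ Icc 0 T, ∀ z ∈ S h, ∀ y ∈ S h, ‖g t z - g t y‖ ≤ CL * (B + K') * ‖z - y‖ := by
    intro t ht z hz y hy
    have e : g t z - g t y = Complex.I * conj (W h (fun x => rho x * w t x) z -
        W h (fun x => rho x * w t x) y) := by
      rw [hg]; simp only [map_sub]; ring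
    rw [e, norm_mul, Complex.norm_I, one_mul, RCLike.norm_conj]
    exact hWl' t ht z hz y hy
  have hG0 : 0 ≤ |CL'| + CW * h * B := by positivity
  have hc0 : 0 < Real.cosh 1 := Real.cosh_pos 1
  rw [hV]
  refine ⟨?_, ⟨CM * Real.cosh 1 * (|CL'| + CW * h * B), fun t ht z hz => ?_⟩,
    ⟨LM * (|CL'| + CW * h * B) + CM * Real.cosh 1 * (CL * (B + K')), by positivity,
      fun t ht z hz y hy => ?_⟩, fun t ht z hz h0 => ?_, fun t ht z hz => ?_⟩
  · apply ContinuousOn.mul _ hgc
    exact Complex.continuous_ofReal.comp_continuousOn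
      (hmc.comp continuousOn_snd fun p hp => hp.2)
  · rw [norm_mul, Complex.norm_real, Real.norm_of_nonneg (hmB z hz).1]
    exact mul_le_mul (hmB z hz).2 (hgb t ht z hz) (norm_nonneg _) (by positivity)
  · have e : (mm z : ℂ) * g t z - (mm y : ℂ) * g t y =
        ((mm z - mm y : ℝ) : ℂ) * g t z + (mm y : ℂ) * (g t z - g t y) := by
      push_cast; ring
    rw [e]
    refine (norm_add_le _ _).trans ?_
    rw [norm_mul, norm_mul, Complex.norm_real, Complex.norm_real, Real.norm_eq_abs,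
      Real.norm_of_nonneg (hmB y hy).1]
    have h1 : |mm z - mm y| * ‖g t z‖ ≤ LM * ‖z - y‖ * (|CL'| + CW * h * B) :=
      mul_le_mul (hml z (hS1 z hz) y (hS1 y hy)) (hgb t ht z hz) (norm_nonneg _) (by positivity)
    have h2 : mm y * ‖g t z - g t y‖ ≤ CM * Real.cosh 1 * (CL * (B + K') * ‖z - y‖) :=
      mul_le_mul (hmB y hy).2 (hgl t ht z hz y hy) (norm_nonneg _) (by positivity)
    nlinarith
  · have h1 := W_re hh (fun x => rho x * w t x) h0
    rw [hg]
    simp [Complex.mul_im, Complex.mul_re, h1]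
  · have h1 : W h (fun x => rho x * w t x) (z + 2 * Real.pi) = W h (fun x => rho x * w t x) z :=
      W_per (fun x hx => by
        simp only [rho_per, hw.per t ht x hx]) z
    rw [hg]
    simp only [h1, mm_per]

end Pool.Agent.EAC
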