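import Pool.Agent.EAC.X5
import Pool.Agent.EAC.X6
import Pool.Agent.EAC.X8
import Pool.Agent.EAC.X9a

/-!
# EAC-X9: assembly of PART X

`D` from `supp_corner`, `w, Φ, A` from `X_fix`. On the support of `w t` we have `cut D t = 1`, so `rr D t * w t = rho * w t` everywhere on `S h`. The true field
`V' t z = Vel h lam mm (rho * w t) z` satisfies `FieldOK` (`mm` Lipschitz `mm_lip`, bounded, continuous; `W` Lipschitz bounded, tangent, periodic), let `Φ'` be its flow (`sflow_exists`).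
For `w0 x ≠ 0` the trajectory `Φ t x` stays where `cut = 1`, so it is a trajectory of `V'`, and `Φ' t x = Φ t x` (`strip_unique`). `cons`: `w0 x ≠ 0`: `w t (Φ' t x) = w0 (A t (Φ t x)) = w0 x`.
`w0 x = 0`: if `w t y ≠ 0`, `y = Φ' t x`, then `x₁ = A t y` has `w0 x₁ ≠ 0`, `Φ' t x₁ = y = Φ' t x`, so `x₁ = x`, contradiction; so `w t y = 0 = w 0 x`.
`w 0 ζ = w0 (A 0 ζ) = w0 ζ`. `supp`: `supp_corner` (with `d = dd D T`), `supp_J`, applied to `ζ = Φ t (A t ζ)`.
`smooth`: `boot`, `CC_mul` with `aa_CC`, `CC_congr`.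

THIS FILE: X_final'.
-/

set_option autoImplicit false

noncomputable section

namespace Pool.Agent.EAC


open MeasureTheory Set Filter Topology Metric
open scoped ENNReal ComplexConjugate

/-- `Vel` depends only on the coefficient at the point and on the density in the strip. -/
theorem Vel_congr_X9 {h lam : ℝ} {a a' f f' : ℂ → ℝ} {z : ℂ} (ha : a z = a' z)
    (hf : ∀ y ∈ S h, f y = f' y) : Vel h lam a f z = Vel h lam a' f' z := by
  have h1 : MeasurableSet (S h) := by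
    have : IsClosed (S h) := by
      have e : S h = {z : ℂ | 0 ≤ z.im} ∩ {z : ℂ | z.im ≤ h} := rfl
      rw [e]
      exact (isClosed_le continuous_const Complex.continuous_im).inter
        (isClosed_le Complex.continuous_im continuous_const)
    exact this.measurableSet
  have h2 : MeasurableSet (Sper h) := by
    have e : Sper h = ({z : ℂ | 0 ≤ z.re} ∩ {z : ℂ | z.re < 2 * Real.pi}) ∩ S h := by
      ext z
      constructor
      · rintro ⟨q1, q2, q3, q4⟩; exact ⟨⟨q1, q2⟩, q3, q4⟩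
      · rintro ⟨⟨q1, q2⟩, q3, q4⟩; exact ⟨q1, q2, q3, q4⟩
    rw [e]
    exact ((measurableSet_le measurable_const Complex.measurable_re).inter
      (measurableSet_lt Complex.measurable_re measurable_const)).inter h1
  have hL : Lam h lam f = Lam h lam f' := by
    unfold Lam
    congr 2
    refine setIntegral_congr_fun h2 fun y hy => ?_
    rw [hf y ⟨hy.2.2.1, hy.2.2.2⟩]
  have hW : W h f z = W h f' z := by
    unfold W
    refine setIntegral_congr_fun h1 fun y hy => ?_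
    rw [hf y hy]
  unfold Vel
  rw [ha, hL, hW]

theorem X_final' {h lam : ℝ} (hh : 0 < h) (hh1 : h ≤ 1) {w0 : ℂ → ℝ}
    (hw : NiceInit w0) :
    ∃ w Φ, StripSol h lam w Φ ∧ ∀ ζ ∈ S h, w 0 ζ = w0 ζ := by
  obtain ⟨D, hD, hcorner⟩ := supp_corner (lam := lam) hh hh1 hw
  obtain ⟨w, Φ, A, hst, hflow, hwA⟩ := X_fix (D := D) (lam := lam) hh hh1 hw
  have hcorner' := hcorner w Φ A hst hflow
  -- facts on `A`
  have hA : ∀ t, 0 ≤ t → ∀ z ∈ S h, A t z ∈ S h ∧ Φ t (A t z) = z := by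
    intro t ht z hz
    have hF := hflow t ht
    exact ⟨hF.memA t ⟨ht, le_rfl⟩ z hz, hF.right t ⟨ht, le_rfl⟩ z hz⟩
  have hsin : ∀ t, 0 ≤ t → ∀ z ∈ S h, w t z ≠ 0 → 2 * dd D t ^ 2 ≤ ‖Complex.sin z‖ ^ 2 := by
    intro t ht z hz hne
    have h1 := hA t ht z hz
    rw [hwA t ht z hz] at hne
    have h2 := hcorner' t ht (A t z) h1.1 hne
    rwa [h1.2] at h2
  have hc : ∀ t, 0 ≤ t → ∀ z ∈ S h, w t z ≠ 0 → cut D t z = 1 := fun t ht z hz hne =>
    cut_one (hsin t ht z hz hne)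
  have hw00 : ∀ ζ ∈ S h, w 0 ζ = w0 ζ := by
    intro ζ hζ
    have hF := hflow 0 le_rfl
    have h1 := hF.left 0 ⟨le_rfl, le_rfl⟩ ζ hζ
    rw [hF.init ζ hζ] at h1
    rw [hwA 0 le_rfl ζ hζ, h1]
  -- the true field
  set V' : ℝ → ℂ → ℂ := fun t z => Vel h lam mm (fun x => rho x * w t x) z with hV'def
  have hV' : ∀ T, 0 ≤ T → FieldOK T h V' := by
    intro T hT
    obtain ⟨β, K, hβ, hβ1, hK, hS⟩ := hst T hT
    exact true_field hh hh1 hT hβ hβ1 hS (fun t ht z hz hne => hc t ht.1 z hz hne)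
  obtain ⟨Φ', A', hflow'⟩ := sflow_exists hh hV'
  have hVV : ∀ t, 0 ≤ t → ∀ z ∈ S h, cut D t z = 1 → VV D h lam w t z = V' t z := by
    intro t ht z hz hcz
    refine Vel_congr_X9 ?_ ?_
    · unfold aa; rw [hcz, mul_one]
    · intro y hy
      by_cases hne : w t y = 0
      · simp only [hne, mul_zero]
      · unfold rr
        rw [hc t ht y hy hne, mul_one]
  -- trajectories starting in the support
  have htraj : ∀ t, 0 ≤ t → ∀ x ∈ S h, w0 x ≠ 0 → Φ t x = Φ' t x := by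
    intro t ht x hx hne
    have hF := hflow t ht
    have hF' := hflow' t ht
    refine strip_unique (hV' t ht) (γ₁ := fun τ => Φ τ x) (γ₂ := fun τ => Φ' τ x) (t₀ := 0)
      ⟨le_rfl, ht⟩ (fun τ hτ => hF.mem τ hτ x hx) (fun τ hτ => hF'.mem τ hτ x hx) ?_
      (fun τ hτ => hF'.deriv τ hτ x hx) ?_ t ⟨ht, le_rfl⟩
    · intro τ hτ
      have h1 := hF.deriv τ hτ x hx
      have h2 : cut D τ (Φ τ x) = 1 := cut_one (hcorner' τ hτ.1 x hx hne)
      rwa [hVV τ hτ.1 (Φ τ x) (hF.mem τ hτ x hx) h2] at h1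
    · simp only [hF.init x hx, hF'.init x hx]
  refine ⟨w, Φ', ?_, hw00⟩
  constructor
  · -- per
    intro t ht ζ hζ
    obtain ⟨β, K, hβ, hβ1, hK, hS⟩ := hst t ht
    exact hS.per t ⟨ht, le_rfl⟩ ζ hζ
  · -- range
    intro t ht ζ hζ
    obtain ⟨β, K, hβ, hβ1, hK, hS⟩ := hst t ht
    exact hS.range t ⟨ht, le_rfl⟩ ζ hζ
  · -- supp
    intro T hT
    obtain ⟨β, K, hβ, hβ1, hK, hS⟩ := hst T hT.le
    obtain ⟨d, hd, hdJ⟩ := supp_J hh hh1 hT hw hβ hβ1 hS (hflow T hT.le)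
    refine ⟨min (dd D T) d, lt_min (dd_pos D T) hd, fun t ht ζ hζ hne => ?_⟩
    have h1 := hA t ht.1 ζ hζ
    have h2 := hsin t ht.1 ζ hζ hne
    have hne0 : w0 (A t ζ) ≠ 0 := by rwa [hwA t ht.1 ζ hζ] at hne
    constructor
    · have h3 : dd D T ≤ dd D t := dd_anti hD.le ht.2
      have h4 : dd D t ≤ ‖Complex.sin ζ‖ := by
        have h5 : dd D t ^ 2 ≤ ‖Complex.sin ζ‖ ^ 2 := by nlinarith [sq_nonneg (dd D t)]
        exact (pow_le_pow_iff_left₀ (dd_pos D t).le (norm_nonneg _) (by norm_num)).mp h5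
      exact (min_le_left _ _).trans (h3.trans h4)
    · intro h3
      have h4 := hdJ t ht (A t ζ) h1.1 hne0
      rw [h1.2] at h4
      exact (min_le_right _ _).trans (h4 h3)
  · -- cont
    rintro ⟨t, z⟩ ⟨ht, hz⟩
    have ht' : (0 : ℝ) ≤ t := ht
    obtain ⟨β, K, hβ, hβ1, hK, hS⟩ := hst (t + 1) (by linarith)
    have h1 : ContinuousWithinAt (fun p : ℝ × ℂ => w p.1 p.2) (Icc 0 (t + 1) ×ˢ S h) (t, z) :=
      hS.cont (t, z) ⟨⟨ht', by simp only; linarith⟩, hz⟩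
    refine h1.mono_of_mem_nhdsWithin ?_
    have h2 : {p : ℝ × ℂ | p.1 < t + 1} ∈ 𝓝 ((t, z) : ℝ × ℂ) :=
      (isOpen_lt continuous_fst continuous_const).mem_nhds (by simp)
    filter_upwards [mem_nhdsWithin_of_mem_nhds h2, self_mem_nhdsWithin] with p hp1 hp2
    exact ⟨⟨hp2.1, le_of_lt hp1⟩, hp2.2⟩
  · -- smooth
    intro T hT n
    obtain ⟨β, K, hβ, hβ1, hK, hS⟩ := hst T hT.le
    have h1 : CC T h n w := boot hh hh1 hT.le hβ hβ1 hw hS (hflow T hT.le)
      (fun t ht z hz => hwA t ht.1 z hz) n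
    refine ⟨h1, CC_congr (CC_mul (aa_CC D T hh n).2 h1) fun t ht z hz => ?_⟩
    have hzS : z ∈ S h := ⟨hz.1.le, hz.2.le⟩
    by_cases hne : w t z = 0
    · simp only [hne, mul_zero]
    · unfold rr
      rw [hc t ht.1 z hzS hne, mul_one]
  · -- init
    exact (hflow' 0 le_rfl).init
  · -- bij
    intro t ht
    have hF := hflow' t ht
    have htI : t ∈ Icc 0 t := ⟨ht, le_rfl⟩
    refine ⟨fun z hz => hF.mem t htI z hz, fun z hz y hy hzy => ?_, fun z hz => ?_⟩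
    · rw [← hF.left t htI z hz, ← hF.left t htI y hy, hzy]
    · exact ⟨A' t z, hF.memA t htI z hz, hF.right t htI z hz⟩
  · -- shift
    intro t ht ζ hζ
    exact (hflow' t ht).shift t ⟨ht, le_rfl⟩ ζ hζ
  · -- flow
    intro t ht ζ hζ
    have h1 := (hflow' (t + 1) (by linarith)).deriv t ⟨ht, by linarith⟩ ζ hζ
    refine h1.mono_of_mem_nhdsWithin ?_
    have h2 : Iio (t + 1) ∈ 𝓝 t := Iio_mem_nhds (by linarith)
    filter_upwards [mem_nhdsWithin_of_mem_nhds h2, self_mem_nhdsWithin] with p hp1 hp2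
    exact ⟨hp2, le_of_lt hp1⟩
  · -- cons
    intro t ht ζ hζ
    have hF := hflow t ht
    have hF' := hflow' t ht
    have htI : t ∈ Icc 0 t := ⟨ht, le_rfl⟩
    rw [hw00 ζ hζ]
    by_cases hne : w0 ζ = 0
    · rw [hne]
      by_contra hne2
      have hy : Φ' t ζ ∈ S h := hF'.mem t htI ζ hζ
      have h1 := hA t ht (Φ' t ζ) hy
      have hne3 : w0 (A t (Φ' t ζ)) ≠ 0 := by rwa [hwA t ht _ hy] at hne2
      have h2 := htraj t ht (A t (Φ' t ζ)) h1.1 hne3
      rw [h1.2] at h2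
      have h3 : A t (Φ' t ζ) = ζ := by
        rw [← hF'.left t htI (A t (Φ' t ζ)) h1.1, ← h2, hF'.left t htI ζ hζ]
      rw [h3] at hne3
      exact hne3 hne
    · rw [← htraj t ht ζ hζ hne, hwA t ht _ (hF.mem t htI ζ hζ), hF.left t htI ζ hζ]

end Pool.Agent.EAC
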