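import Pool.Agent.EAC.Geo

/-!
# EAC ZDom: `dom h` is an analytic domain (interface theorem `Z_domain`)
-/

set_option autoImplicit false

noncomputable section

namespace Pool.Agent.EAC.ZD

open MeasureTheory Set Filter Topology Metric
open scoped ENNReal ComplexConjugate
open Pool.Agent.EAC.Geo

theorem convex_S (h : ℝ) : Convex ℝ (S h) := by
  have : S h = Complex.imCLM ⁻¹' (Icc 0 h) := by
    ext z
    simp [S]
  rw [this]
  exact (convex_Icc (0 : ℝ) h).linear_preimage Complex.imCLM.toLinearMap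

theorem dom_connected {h : ℝ} (hh : 0 < h) (hh1 : h ≤ 1) : IsConnected (dom h) := by
  have h0 : (0 : ℂ) ∈ S h := ⟨by simp, by simpa using hh.le⟩
  have hS : IsConnected (S h) := ⟨⟨0, h0⟩, (convex_S h).isPreconnected⟩
  have hc : ContinuousOn Zi (S h) := continuousOn_Zi.mono (fun z hz => hz.1)
  have h1 : IsConnected (Zi '' S h) := hS.image _ hc
  have h2 : IsConnected ((fun z : ℂ => conj z) '' (Zi '' S h)) :=
    h1.image _ Complex.continuous_conj.continuousOn
  have e : dom h = (Zi '' S h) ∪ ((fun z : ℂ => conj z) '' (Zi '' S h)) := by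
    ext z
    rw [mem_dom_iff_Zi hh.le hh1]
    constructor
    · rintro ⟨ζ, hζ, rfl | rfl⟩
      · exact Or.inl ⟨ζ, hζ, rfl⟩
      · exact Or.inr ⟨Zi ζ, ⟨ζ, hζ, rfl⟩, rfl⟩
    · rintro (⟨ζ, hζ, rfl⟩ | ⟨_, ⟨ζ, hζ, rfl⟩, rfl⟩)
      · exact ⟨ζ, hζ, Or.inl rfl⟩
      · exact ⟨ζ, hζ, Or.inr rfl⟩
  rw [e]
  have hZ0 : Zi 0 = 1 := Zi_eq_one_iff.mpr (by simp)
  exact IsConnected.union ⟨1, ⟨0, h0, hZ0⟩, ⟨1, ⟨0, h0, hZ0⟩, by simp⟩⟩ h1 h2

theorem im_mobius {a w : ℂ} (h : a + w ≠ 0) :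
    (Complex.I * ((a - w) / (a + w))).im = (‖a‖ ^ 2 - ‖w‖ ^ 2) / ‖a + w‖ ^ 2 := by
  have e : Complex.I * ((a - w) / (a + w)) =
      Complex.I * ((a - w) * conj (a + w)) / ((‖a + w‖ ^ 2 : ℝ) : ℂ) := by
    have hc : conj (a + w) ≠ 0 := (map_ne_zero _).mpr h
    rw [Complex.ofReal_pow, ← Complex.mul_conj']
    field_simp
  rw [e, Complex.div_ofReal_im]
  congr 1
  simp only [Complex.sq_norm, Complex.normSq_apply, Complex.mul_im, Complex.mul_re, Complex.I_re,
    Complex.I_im, map_add, Complex.add_re, Complex.add_im, Complex.sub_re, Complex.sub_im,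
    Complex.conj_re, Complex.conj_im]
  ring

theorem mobius_inj {x z z' : ℂ} (hx : x ≠ 0) (hne : x + z ≠ 0) (hne' : x + z' ≠ 0)
    (he : Complex.I * ((x - z) / (x + z)) = Complex.I * ((x - z') / (x + z'))) : z = z' := by
  have he1 := mul_left_cancel₀ Complex.I_ne_zero he
  rw [div_eq_div_iff hne hne'] at he1
  have : x * (2 * (z' - z)) = 0 := by linear_combination he1
  rcases mul_eq_zero.mp this with h1 | h1
  · exact absurd h1 hx
  · have : z' - z = 0 := by simpa using h1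
    exact (sub_eq_zero.mp this).symm

/-- chart at the points of the unit circle. -/
theorem chart_circle {h : ℝ} (hh : 0 < h) (hh1 : h ≤ 1) {x : ℂ} (hx : ‖x‖ = 1) :
    ∃ r > 0, ∃ φ : ℂ → ℂ, DifferentiableOn ℂ φ (ball x r) ∧
    InjOn φ (ball x r) ∧ φ x = 0 ∧ ∀ z ∈ ball x r, (z ∈ dom h ↔ 0 ≤ (φ z).im) := by
  have hxd : x ∈ dom h := mem_dom_of_circle_or_real hh.le hx.le (Or.inl hx)
  have hA : 0 < ‖qA x‖ := norm_pos_iff.mpr (qA_ne_zero hh1 hxd)
  have hAB := norm_qB_eq_qA (Or.inl hx : ‖x‖ = 1 ∨ x.im = 0)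
  have e1 : Real.exp (-h) < 1 := Real.exp_lt_one_iff.mpr (by linarith)
  have e2 : 1 < Real.exp h := Real.one_lt_exp_iff.mpr hh
  have hx0 : x ≠ 0 := by
    rintro rfl
    simp at hx
  -- strict inequalities near x
  have hev : ∀ᶠ z in 𝓝 x, (Real.exp (-h) * ‖qA z‖ < ‖qB z‖ ∧ ‖qB z‖ < Real.exp h * ‖qA z‖) ∧
      x + z ≠ 0 := by
    refine Filter.Eventually.and (Filter.Eventually.and ?_ ?_) ?_
    · refine (continuous_const.mul continuous_qA.norm).continuousAt.eventually_lt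
        continuous_qB.norm.continuousAt ?_
      show Real.exp (-h) * ‖qA x‖ < ‖qB x‖
      rw [hAB]; nlinarith
    · refine continuous_qB.norm.continuousAt.eventually_lt
        (continuous_const.mul continuous_qA.norm).continuousAt ?_
      show ‖qB x‖ < Real.exp h * ‖qA x‖
      rw [hAB]; nlinarith
    · refine (continuous_const.add continuous_id).continuousAt.eventually_ne ?_
      simpa [← two_mul] using hx0
  obtain ⟨r, hr, hr'⟩ := Metric.eventually_nhds_iff_ball.mp hev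
  refine ⟨r, hr, fun z => Complex.I * ((x - z) / (x + z)), ?_, ?_, by simp, ?_⟩
  · intro z hz
    have hne := (hr' z hz).2
    fun_prop (disch := exact hne)
  · intro z hz z' hz' he
    exact mobius_inj hx0 (hr' z hz).2 (hr' z' hz').2 he
  · intro z hz
    obtain ⟨hz0, hne⟩ := hr' z hz
    rw [im_mobius hne]
    have hp : 0 < ‖x + z‖ ^ 2 := by positivity
    rw [le_div_iff₀ hp, zero_mul, sub_nonneg, hx]
    constructor
    · intro hd
      have := hd.1
      nlinarith [norm_nonneg z]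
    · intro hd
      exact ⟨by nlinarith [norm_nonneg z], hz0.1.le, hz0.2.le⟩

/-- chart at the inner boundary, upper half. -/
theorem chart_upper {h : ℝ} (hh : 0 < h) (hh1 : h ≤ 1) {x : ℂ} (hx : ‖x‖ < 1) (hxd : x ∈ dom h)
    (he : ‖qB x‖ = Real.exp (-h) * ‖qA x‖) :
    ∃ r > 0, ∃ φ : ℂ → ℂ, DifferentiableOn ℂ φ (ball x r) ∧
    InjOn φ (ball x r) ∧ φ x = 0 ∧ ∀ z ∈ ball x r, (z ∈ dom h ↔ 0 ≤ (φ z).im) := by
  have hA := qA_ne_zero hh1 hxd
  have hB := qB_ne_zero hh1 hxd
  have hA' : 0 < ‖qA x‖ := norm_pos_iff.mpr hA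
  have e1 : Real.exp (-h) < 1 := Real.exp_lt_one_iff.mpr (by linarith)
  have e2 : 1 < Real.exp h := Real.one_lt_exp_iff.mpr hh
  have him : 0 < x.im := by
    have h1 := normSq_qA_sub x
    have h2 : ‖qB x‖ < ‖qA x‖ := by rw [he]; nlinarith
    have h3 : 0 < ‖qA x‖ ^ 2 - ‖qB x‖ ^ 2 := by nlinarith [norm_nonneg (qB x)]
    rw [h1] at h3
    have h4 : 0 < 16 * (1 - ‖x‖ ^ 2) := by nlinarith [norm_nonneg x]
    exact (pos_iff_pos_of_mul_pos h3).mp h4
  have hk0 : kap x ≠ 0 := div_ne_zero hB hA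
  have hkc : ContinuousAt kap x := (hasDerivAt_kap hA hB).continuousAt
  have hev : ∀ᶠ z in 𝓝 x, (‖z‖ < 1 ∧ 0 < z.im ∧ ‖qB z‖ < Real.exp h * ‖qA z‖) ∧
      (qA z ≠ 0 ∧ qB z ≠ 0 ∧ kap z + kap x ≠ 0) := by
    refine Filter.Eventually.and (Filter.Eventually.and ?_ (Filter.Eventually.and ?_ ?_))
      (Filter.Eventually.and ?_ (Filter.Eventually.and ?_ ?_))
    · exact continuous_norm.continuousAt.eventually_lt continuous_const.continuousAt hx
    · exact continuous_const.continuousAt.eventually_lt Complex.continuous_im.continuousAt him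
    · refine continuous_qB.norm.continuousAt.eventually_lt
        (continuous_const.mul continuous_qA.norm).continuousAt ?_
      show ‖qB x‖ < Real.exp h * ‖qA x‖
      rw [he]; nlinarith
    · exact continuous_qA.continuousAt.eventually_ne hA
    · exact continuous_qB.continuousAt.eventually_ne hB
    · refine (hkc.add continuousAt_const).eventually_ne ?_
      simpa [← two_mul] using hk0
  obtain ⟨r, hr, hr'⟩ := Metric.eventually_nhds_iff_ball.mp hev
  refine ⟨r, hr, fun z => Complex.I * ((kap z - kap x) / (kap z + kap x)), ?_, ?_, by simp, ?_⟩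
  · intro z hz
    obtain ⟨_, hAz, hBz, hne⟩ := hr' z hz
    have hd := (hasDerivAt_kap hAz hBz).differentiableAt
    exact (((hd.sub_const _).div (hd.add_const _) hne).const_mul _).differentiableWithinAt
  · intro z hz z' hz' he'
    obtain ⟨⟨hz1, hz2, _⟩, hAz, hBz, hne⟩ := hr' z hz
    obtain ⟨⟨hz1', hz2', _⟩, hAz', hBz', hne'⟩ := hr' z' hz'
    apply kap_inj_upper hz1.le hz2.le hz1'.le hz2'.le
    have h1 : Complex.I * ((kap x - kap z) / (kap x + kap z)) =
        Complex.I * ((kap x - kap z') / (kap x + kap z')) := by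
      have e3 : ∀ w : ℂ, (kap x - w) / (kap x + w) = -((w - kap x) / (w + kap x)) := fun w => by
        rw [← neg_sub w (kap x), neg_div, add_comm]
      rw [e3, e3]
      have := mul_left_cancel₀ Complex.I_ne_zero he'
      rw [this]
    exact mobius_inj hk0 (by rwa [add_comm]) (by rwa [add_comm]) h1
  · intro z hz
    obtain ⟨⟨hz1, hz2, hz3⟩, hAz, hBz, hne⟩ := hr' z hz
    rw [im_mobius hne]
    have hp : 0 < ‖kap z + kap x‖ ^ 2 := by positivity
    rw [le_div_iff₀ hp, zero_mul, sub_nonneg, mem_dom_upper hh.le hz1.le hz2.le]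
    have hk : ‖kap x‖ = Real.exp (-h) := by
      rw [kap_eq, norm_div, he, mul_div_assoc, div_self hA'.ne', mul_one]
    have hkz : ‖kap z‖ = ‖qB z‖ / ‖qA z‖ := by rw [kap_eq, norm_div]
    have hAz' : 0 < ‖qA z‖ := norm_pos_iff.mpr hAz
    rw [← le_div_iff₀ hAz', ← hkz, hk]
    constructor
    · intro hd
      have := Real.exp_pos (-h)
      nlinarith
    · intro hd
      have := Real.exp_pos (-h)
      have := norm_nonneg (kap z)
      nlinarith

/-- chart at the inner boundary, lower half (by reflection). -/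
theorem chart_lower {h : ℝ} (hh : 0 < h) (hh1 : h ≤ 1) {x : ℂ} (hx : ‖x‖ < 1) (hxd : x ∈ dom h)
    (he : ‖qB x‖ = Real.exp h * ‖qA x‖) :
    ∃ r > 0, ∃ φ : ℂ → ℂ, DifferentiableOn ℂ φ (ball x r) ∧
    InjOn φ (ball x r) ∧ φ x = 0 ∧ ∀ z ∈ ball x r, (z ∈ dom h ↔ 0 ≤ (φ z).im) := by
  have he' : ‖qB (conj x)‖ = Real.exp (-h) * ‖qA (conj x)‖ := by
    rw [qB_conj, qA_conj, RCLike.norm_conj, RCLike.norm_conj, he, ← mul_assoc, ← Real.exp_add]
    simp
  obtain ⟨r, hr, φ, h1, h2, h3, h4⟩ := chart_upper hh hh1 (x := conj x)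
    (by rwa [RCLike.norm_conj]) (conj_mem_dom hxd) he'
  have hmem : ∀ z ∈ ball x r, conj z ∈ ball (conj x) r := fun z hz => by
    rw [mem_ball, dist_eq_norm, ← map_sub, RCLike.norm_conj, ← dist_eq_norm]
    exact hz
  refine ⟨r, hr, fun z => -conj (φ (conj z)), ?_, ?_, ?_, ?_⟩
  · intro z hz
    have hd : DifferentiableAt ℂ φ (conj z) :=
      (h1 _ (hmem z hz)).differentiableAt (isOpen_ball.mem_nhds (hmem z hz))
    have := (differentiableAt_conj_conj_iff (f := φ) (x := z)).mpr hd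
    exact this.neg.differentiableWithinAt
  · intro z hz z' hz' hee
    have h5 : φ (conj z) = φ (conj z') := by
      have := neg_injective hee
      exact (starRingEnd ℂ).injective this
    exact (starRingEnd ℂ).injective (h2 (hmem z hz) (hmem z' hz') h5)
  · simp [h3]
  · intro z hz
    have h6 : z ∈ dom h ↔ conj z ∈ dom h :=
      ⟨fun hd => conj_mem_dom hd, fun hd => by simpa using conj_mem_dom hd⟩
    rw [h6, h4 _ (hmem z hz)]
    simp

/-- PART Z (geometry). -/
theorem Z_domain' {h : ℝ} (hh : 0 < h) (hh1 : h ≤ 1) : AnalyticDomain (dom h) := by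
  refine ⟨isCompact_dom h, dom_connected hh hh1, fun x hx hi => ?_⟩
  rcases hx.1.lt_or_eq with h1 | h1
  · by_cases h2 : ‖qB x‖ = Real.exp (-h) * ‖qA x‖
    · exact chart_upper hh hh1 h1 hx h2
    · by_cases h3 : ‖qB x‖ = Real.exp h * ‖qA x‖
      · exact chart_lower hh hh1 h1 hx h3
      · exact absurd (mem_interior_dom_of_lt h1 (lt_of_le_of_ne hx.2.1 (Ne.symm h2))
          (lt_of_le_of_ne hx.2.2 h3)) hi
  · exact chart_circle hh hh1 h1

end Pool.Agent.EAC.ZD
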