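import Pool.Agent.EAC.ZDefs

/-!
# EAC-ZG3: generic lemma: potential of a closed form in the strip
-/

set_option autoImplicit false

noncomputable section

namespace Pool.Agent.EAC

open MeasureTheory Set Filter Topology Metric
open scoped ENNReal ComplexConjugate

private theorem zg3_convex (h : ℝ) : Convex ℝ (U h) := by
  have : U h = (Complex.imCLM : ℂ → ℝ) ⁻¹' Ioo 0 h := by
    ext z; simp [U]
  rw [this]
  exact (convex_Ioo 0 h).is_linear_preimage (Complex.imCLM.isLinear)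

private theorem zg3_open (h : ℝ) : IsOpen (U h) := by
  have : U h = Complex.im ⁻¹' Ioo 0 h := by
    ext z; simp [U]
  rw [this]
  exact isOpen_Ioo.preimage Complex.continuous_im

private theorem zg3_norm_reL (c : ℂ) : ‖reL c‖ ≤ ‖c‖ := by
  refine ContinuousLinearMap.opNorm_le_bound _ (norm_nonneg _) (fun ξ => ?_)
  rw [reL_apply]
  calc ‖(c * ξ).re‖ ≤ ‖c * ξ‖ := Complex.abs_re_le_norm _
    _ = ‖c‖ * ‖ξ‖ := norm_mul _ _

/-- `c ↦ reL c` as a continuous linear map. -/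
private def zg3_L : ℂ →L[ℝ] (ℂ →L[ℝ] ℝ) :=
  (ContinuousLinearMap.compL ℝ ℂ ℂ ℝ Complex.reCLM).comp (ContinuousLinearMap.mul ℝ ℂ)

private theorem zg3_L_apply (c : ℂ) : zg3_L c = reL c := rfl

theorem potential {h C : ℝ} (hC : 0 ≤ C) {g : ℂ → ℂ} {g' : ℂ → ℂ →L[ℝ] ℂ}
    (hg : ∀ ζ ∈ U h, HasFDerivAt g (g' ζ) ζ)
    (hs : ∀ ζ ∈ U h, (g' ζ Complex.I).re = -(g' ζ 1).im)
    (hb : ∀ ζ ∈ U h, ‖g ζ‖ ≤ C) :
    ∃ ψ : ℂ → ℝ, (∀ x y, |ψ x - ψ y| ≤ C * ‖x - y‖) ∧
      ∀ ζ ∈ U h, HasFDerivAt ψ (reL (g ζ)) ζ := by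
  have hω : ∀ ζ ∈ U h, HasFDerivAt (fun x => reL (g x)) (zg3_L.comp (g' ζ)) ζ := by
    intro ζ hζ
    exact zg3_L.hasFDerivAt.comp ζ (hg ζ hζ)
  obtain ⟨f, hf⟩ := (zg3_convex h).exists_forall_hasFDerivAt_of_fderiv_symmetric (zg3_open h)
    (ω := fun x => reL (g x)) (fun ζ hζ => (hω ζ hζ).differentiableAt.differentiableWithinAt) (by
      intro ζ hζ x y
      rw [(hω ζ hζ).fderiv]
      have key : ∀ u v : ℂ, (zg3_L.comp (g' ζ)) u v = (g' ζ u * v).re := by
        intro u v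
        rw [ContinuousLinearMap.comp_apply, zg3_L_apply, reL_apply]
      rw [key, key]
      have hx : g' ζ x = (x.re : ℝ) • g' ζ 1 + (x.im : ℝ) • g' ζ Complex.I := by
        rw [← map_smul, ← map_smul, ← map_add]
        congr 1
        apply Complex.ext <;> simp
      have hy : g' ζ y = (y.re : ℝ) • g' ζ 1 + (y.im : ℝ) • g' ζ Complex.I := by
        rw [← map_smul, ← map_smul, ← map_add]
        congr 1
        apply Complex.ext <;> simp
      rw [hx, hy]
      have := hs ζ hζ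
      simp only [Complex.real_smul, Complex.mul_re, Complex.add_re, Complex.add_im, Complex.mul_im,
        Complex.ofReal_re, Complex.ofReal_im, zero_mul, sub_zero, add_zero, this]
      ring)
  have hlip : LipschitzOnWith (Real.toNNReal C) f (U h) := by
    refine (zg3_convex h).lipschitzOnWith_of_nnnorm_hasFDerivWithin_le
      (f' := fun ζ => reL (g ζ)) (fun ζ hζ => (hf ζ hζ).hasFDerivWithinAt) (fun ζ hζ => ?_)
    rw [← NNReal.coe_le_coe, coe_nnnorm, Real.coe_toNNReal C hC]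
    exact (zg3_norm_reL _).trans (hb ζ hζ)
  obtain ⟨ψ, hψ, hE⟩ := hlip.extend_real
  refine ⟨ψ, fun x y => ?_, fun ζ hζ => ?_⟩
  · have := hψ.dist_le_mul x y
    rw [Real.dist_eq, dist_eq_norm, Real.coe_toNNReal C hC] at this
    exact this
  · refine (hf ζ hζ).congr_of_eventuallyEq ?_
    filter_upwards [(zg3_open h).mem_nhds hζ] with x hx
    exact (hE hx).symm

end Pool.Agent.EAC
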