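import Pool.Agent.EAC.ZB1
import Pool.Agent.EAC.ZG3

/-!
# EAC-ZD1: the stream function in the strip

`potential` (ZG3) with `g = G` (`lin a b`: `(g' i).re = -(g' 1).im`): `ψ₀` `C`-Lipschitz on the plane. On the line `Im = 0`:
`ψ₀(x) - ψ₀(x') = lim_{ε → 0} ∫_{x'}^{x} Re G(s + iε) ds = 0` (FTC along the horizontal segment at height `ε` inside `U h`; `G` is bounded and continuous on `S h`, `Re G = 0` on the line:
dominated convergence, or uniform continuity on the compact `[x',x] × [0,h/2]`). The same on `Im = h`. Put `ψ = ψ₀ - ψ₀(0)`, `c = ψ(ih)`.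
Periodicity: `ψ(ζ + 2π) - ψ(ζ)` has derivative `0` in the connected (convex) `U h` (`G` periodic), it is continuous on the plane, and vanishes at `ζ = 0`; so it vanishes on
`closure (U h) ⊇ S h`.
-/

set_option autoImplicit false

noncomputable section

namespace Pool.Agent.EAC

open MeasureTheory Set Filter Topology Metric
open scoped ENNReal ComplexConjugate
open Geo hiding isOpen_Oset mem_Oset

/-- horizontal boundary lines are level lines -/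
private theorem zd1_line {h C : ℝ} (hh : 0 < h) (hC : 0 ≤ C) {G : ℂ → ℂ} {ψ : ℂ → ℝ}
    (hc : ContinuousOn G (S h)) (hL : ∀ x y, |ψ x - ψ y| ≤ C * ‖x - y‖)
    (hψ : ∀ ζ ∈ U h, HasFDerivAt ψ (reL (G ζ)) ζ) {y₀ : ℝ} (hy₀ : y₀ ∈ Icc 0 h)
    (hre : ∀ ζ : ℂ, ζ.im = y₀ → (G ζ).re = 0) (x x' : ℝ) : ψ ⟨x, y₀⟩ = ψ ⟨x', y₀⟩ := by
  have hK : IsCompact (uIcc x' x ×ℂ Icc 0 h) := isCompact_uIcc.reProdIm isCompact_Icc
  have hKS : (uIcc x' x ×ℂ Icc 0 h) ⊆ S h := fun z hz => by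
    rw [Complex.mem_reProdIm] at hz
    exact ⟨hz.2.1, hz.2.2⟩
  have hU := hK.uniformContinuousOn_of_continuous (hc.mono hKS)
  rw [Metric.uniformContinuousOn_iff] at hU
  have key : ∀ κ > 0, |ψ ⟨x, y₀⟩ - ψ ⟨x', y₀⟩| ≤ κ := by
    intro κ hκ
    have hx0 : 0 ≤ |x - x'| := abs_nonneg _
    set δ : ℝ := κ / (2 * (|x - x'| + 1)) with hδ
    have hδ0 : 0 < δ := by positivity
    obtain ⟨η, hη, hηδ⟩ := hU δ hδ0
    set η' : ℝ := min η (κ / (4 * (C + 1))) with hη'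
    have hη'0 : 0 < η' := lt_min hη (by positivity)
    have hcl : y₀ ∈ closure (Ioo 0 h) := by rw [closure_Ioo hh.ne]; exact hy₀
    obtain ⟨y, hy, hyd⟩ := Metric.mem_closure_iff.1 hcl η' hη'0
    have hyn : ∀ s : ℝ, ‖(⟨s, y₀⟩ : ℂ) - ⟨s, y⟩‖ = |y₀ - y| := by
      intro s
      have : (⟨s, y₀⟩ : ℂ) - ⟨s, y⟩ = ((y₀ - y : ℝ) : ℂ) * Complex.I := by
        apply Complex.ext <;> simp
      rw [this, norm_mul, Complex.norm_I, mul_one, Complex.norm_real, Real.norm_eq_abs]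
    rw [Real.dist_eq] at hyd
    -- the derivative along the line
    have hder : ∀ s ∈ uIcc x' x, HasDerivWithinAt (fun s : ℝ => ψ ⟨s, y⟩) (G ⟨s, y⟩).re
        (uIcc x' x) s := by
      intro s _
      have h1 : HasDerivAt (fun s : ℝ => (⟨s, y⟩ : ℂ)) 1 s := by
        have h2 : (fun s : ℝ => (⟨s, y⟩ : ℂ)) = fun s : ℝ => (s : ℂ) + (y : ℂ) * Complex.I := by
          funext s
          apply Complex.ext <;> simp
        rw [h2]
        exact (Complex.ofRealCLM.hasDerivAt (x := s)).add_const _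
      have h3 := (hψ ⟨s, y⟩ ⟨hy.1, hy.2⟩).comp_hasDerivAt s h1
      rw [reL_apply, mul_one] at h3
      exact h3.hasDerivWithinAt
    have hbd : ∀ s ∈ uIcc x' x, ‖(G ⟨s, y⟩).re‖ ≤ δ := by
      intro s hs
      have h1 : dist (⟨s, y⟩ : ℂ) ⟨s, y₀⟩ < η := by
        rw [dist_comm, dist_eq_norm, hyn]
        exact hyd.trans_le (min_le_left _ _)
      have h2 := hηδ ⟨s, y⟩ (by rw [Complex.mem_reProdIm]; exact ⟨hs, Ioo_subset_Icc_self hy⟩)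
        ⟨s, y₀⟩ (by rw [Complex.mem_reProdIm]; exact ⟨hs, hy₀⟩) h1
      have h3 : (G ⟨s, y⟩).re = (G ⟨s, y⟩ - G ⟨s, y₀⟩).re := by
        rw [Complex.sub_re, hre ⟨s, y₀⟩ rfl, sub_zero]
      rw [h3, Real.norm_eq_abs]
      rw [dist_eq_norm] at h2
      exact (Complex.abs_re_le_norm _).trans h2.le
    have hmv := (convex_uIcc x' x).norm_image_sub_le_of_norm_hasDerivWithin_le hder hbd
      left_mem_uIcc right_mem_uIcc
    rw [Real.norm_eq_abs, Real.norm_eq_abs] at hmv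
    have e1 := hL ⟨x, y₀⟩ ⟨x, y⟩
    have e2 := hL ⟨x', y₀⟩ ⟨x', y⟩
    rw [hyn] at e1 e2
    have e3 : C * |y₀ - y| ≤ κ / 4 := by
      have h1 : |y₀ - y| ≤ κ / (4 * (C + 1)) := hyd.le.trans (min_le_right _ _)
      calc C * |y₀ - y| ≤ C * (κ / (4 * (C + 1))) := mul_le_mul_of_nonneg_left h1 hC
        _ = (κ / 4) * (C / (C + 1)) := by field_simp
        _ ≤ (κ / 4) * 1 := by
          apply mul_le_mul_of_nonneg_left _ (by positivity)
          rw [div_le_one (by positivity)]; linarith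
        _ = κ / 4 := mul_one _
    have e4 : δ * |x - x'| ≤ κ / 2 := by
      calc δ * |x - x'| = (κ / 2) * (|x - x'| / (|x - x'| + 1)) := by rw [hδ]; field_simp
        _ ≤ (κ / 2) * 1 := by
          apply mul_le_mul_of_nonneg_left _ (by positivity)
          rw [div_le_one (by positivity)]; linarith
        _ = κ / 2 := mul_one _
    rw [abs_le] at e1 e2 hmv ⊢
    constructor <;> linarith [e1.1, e1.2, e2.1, e2.2, hmv.1, hmv.2]
  have h0 : |ψ ⟨x, y₀⟩ - ψ ⟨x', y₀⟩| ≤ 0 := le_of_forall_pos_le_add (by simpa using key)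
  have h1 := abs_nonpos_iff.1 h0
  linarith

private theorem zd1_near {h : ℝ} (hh : 0 < h) {ζ : ℂ} (hζ : ζ ∈ S h) {η : ℝ} (hη : 0 < η) :
    ∃ ζ' ∈ U h, ‖ζ - ζ'‖ < η := by
  have hcl : ζ.im ∈ closure (Ioo 0 h) := by rw [closure_Ioo hh.ne]; exact hζ
  obtain ⟨y, hy, hyd⟩ := Metric.mem_closure_iff.1 hcl η hη
  refine ⟨⟨ζ.re, y⟩, hy, ?_⟩
  have : ζ - ⟨ζ.re, y⟩ = ((ζ.im - y : ℝ) : ℂ) * Complex.I := by
    apply Complex.ext <;> simp
  rw [this, norm_mul, Complex.norm_I, mul_one, Complex.norm_real, Real.norm_eq_abs]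
  rwa [Real.dist_eq] at hyd

theorem stream {h C : ℝ} (hh : 0 < h) (hC : 0 ≤ C) {G : ℂ → ℂ} {f : ℂ → ℝ} (hc : ContinuousOn G (S h))
    (hper : ∀ ζ, G (ζ + 2 * Real.pi) = G ζ)
    (hre : ∀ ζ : ℂ, ζ.im = 0 ∨ ζ.im = h → (G ζ).re = 0)
    (hd : ∀ ζ ∈ U h, ∃ a, HasFDerivAt G (lin a (f ζ)) ζ) (hb : ∀ ζ ∈ S h, ‖G ζ‖ ≤ C) :
    ∃ (ψ : ℂ → ℝ) (c : ℝ), (∀ x y, |ψ x - ψ y| ≤ C * ‖x - y‖) ∧
      (∀ ζ ∈ U h, HasFDerivAt ψ (reL (G ζ)) ζ) ∧ (∀ ζ : ℂ, ζ.im = 0 → ψ ζ = 0) ∧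
      (∀ ζ : ℂ, ζ.im = h → ψ ζ = c) ∧ ∀ ζ ∈ S h, ψ (ζ + 2 * Real.pi) = ψ ζ := by
  have hUS : U h ⊆ S h := fun ζ hζ => ⟨hζ.1.le, hζ.2.le⟩
  obtain ⟨ψ₀, hL, hψ⟩ := potential (h := h) (C := C) hC (g := G) (g' := fun ζ => fderiv ℝ G ζ)
    (fun ζ hζ => by
      obtain ⟨a, ha⟩ := hd ζ hζ
      exact ha.differentiableAt.hasFDerivAt)
    (fun ζ hζ => by
      obtain ⟨a, ha⟩ := hd ζ hζ
      rw [ha.fderiv, lin_apply, lin_apply]
      simp)
    (fun ζ hζ => hb ζ (hUS hζ))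
  have h0 := zd1_line hh hC hc hL hψ (y₀ := 0) ⟨le_rfl, hh.le⟩ (fun ζ hζ => hre ζ (Or.inl hζ))
  have h1 := zd1_line hh hC hc hL hψ (y₀ := h) ⟨hh.le, le_rfl⟩ (fun ζ hζ => hre ζ (Or.inr hζ))
  have hz : ∀ ζ : ℂ, ζ.im = 0 → ψ₀ ζ = ψ₀ 0 := by
    intro ζ hζ
    have e1 : ζ = ⟨ζ.re, 0⟩ := Complex.ext rfl hζ
    have e2 : (0 : ℂ) = ⟨0, 0⟩ := rfl
    rw [e1, e2]
    exact h0 _ _
  -- periodicity
  have hper' : ∀ ζ ∈ S h, ψ₀ (ζ + 2 * Real.pi) = ψ₀ ζ := by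
    have hUp : ∀ ζ ∈ U h, ζ + 2 * Real.pi ∈ U h := by
      intro ζ hζ
      have : (ζ + 2 * Real.pi).im = ζ.im := by
        rw [Complex.add_im]
        have : (2 * (Real.pi : ℂ)).im = 0 := by simp
        rw [this, add_zero]
      exact ⟨by rw [this]; exact hζ.1, by rw [this]; exact hζ.2⟩
    have hD : ∀ ζ ∈ U h, HasFDerivWithinAt (fun ζ => ψ₀ (ζ + 2 * Real.pi) - ψ₀ ζ)
        (0 : ℂ →L[ℝ] ℝ) (U h) ζ := by
      intro ζ hζ
      have e1 : HasFDerivAt (fun ζ : ℂ => ζ + 2 * Real.pi) (ContinuousLinearMap.id ℝ ℂ) ζ :=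
        (hasFDerivAt_id ζ).add_const _
      have e2 := (hψ _ (hUp ζ hζ)).comp ζ e1
      rw [hper ζ, ContinuousLinearMap.comp_id] at e2
      have e3 := e2.sub (hψ ζ hζ)
      rw [sub_self] at e3
      exact e3.hasFDerivWithinAt
    have hconst : ∀ ζ ∈ U h, ∀ ζ' ∈ U h,
        ψ₀ (ζ + 2 * Real.pi) - ψ₀ ζ = ψ₀ (ζ' + 2 * Real.pi) - ψ₀ ζ' := by
      intro ζ hζ ζ' hζ'
      have := (convex_U h).norm_image_sub_le_of_norm_hasFDerivWithin_le (C := 0) hD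
        (fun _ _ => by simp) hζ' hζ
      rw [zero_mul] at this
      exact sub_eq_zero.1 (norm_le_zero_iff.1 this)
    have hLD : ∀ x y, |(ψ₀ (x + 2 * Real.pi) - ψ₀ x) - (ψ₀ (y + 2 * Real.pi) - ψ₀ y)| ≤
        2 * C * ‖x - y‖ := by
      intro x y
      have e1 := hL (x + 2 * Real.pi) (y + 2 * Real.pi)
      have e2 := hL x y
      rw [add_sub_add_right_eq_sub] at e1
      rw [abs_le] at e1 e2 ⊢
      constructor <;> linarith [e1.1, e1.2, e2.1, e2.2]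
    have hD0 : ψ₀ (0 + 2 * Real.pi) - ψ₀ 0 = 0 := by
      rw [hz (0 + 2 * Real.pi) (by simp), sub_self]
    intro ζ hζ
    have h0S : (0 : ℂ) ∈ S h := ⟨by simp, by simpa using hh.le⟩
    have key : ∀ κ > 0, |ψ₀ (ζ + 2 * Real.pi) - ψ₀ ζ| ≤ κ := by
      intro κ hκ
      obtain ⟨ζ₁, hζ₁, hn₁⟩ := zd1_near hh hζ (show 0 < κ / (4 * (C + 1)) by positivity)
      obtain ⟨ζ₂, hζ₂, hn₂⟩ := zd1_near hh h0S (show 0 < κ / (4 * (C + 1)) by positivity)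
      have e1 := hLD ζ ζ₁
      have e2 := hLD 0 ζ₂
      have e3 := hconst ζ₁ hζ₁ ζ₂ hζ₂
      have e4 : ∀ r : ℝ, r < κ / (4 * (C + 1)) → 2 * C * r ≤ κ / 2 := by
        intro r hr
        calc 2 * C * r ≤ 2 * C * (κ / (4 * (C + 1))) :=
              mul_le_mul_of_nonneg_left hr.le (by positivity)
          _ = (κ / 2) * (C / (C + 1)) := by field_simp; ring
          _ ≤ (κ / 2) * 1 := by
            apply mul_le_mul_of_nonneg_left _ (by positivity)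
            rw [div_le_one (by positivity)]; linarith
          _ = κ / 2 := mul_one _
      have e5 := e4 _ hn₁
      have e6 := e4 _ hn₂
      rw [abs_le] at e1 e2 ⊢
      constructor <;> linarith [e1.1, e1.2, e2.1, e2.2]
    have h2 : |ψ₀ (ζ + 2 * Real.pi) - ψ₀ ζ| ≤ 0 := le_of_forall_pos_le_add (by simpa using key)
    have h3 := abs_nonpos_iff.1 h2
    linarith
  refine ⟨fun ζ => ψ₀ ζ - ψ₀ 0, ψ₀ ⟨0, h⟩ - ψ₀ 0, ?_, ?_, ?_, ?_, ?_⟩
  · intro x y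
    rw [sub_sub_sub_cancel_right]
    exact hL x y
  · intro ζ hζ
    exact (hψ ζ hζ).sub_const _
  · intro ζ hζ
    simp only
    rw [hz ζ hζ, sub_self]
  · intro ζ hζ
    have e1 : ζ = ⟨ζ.re, h⟩ := Complex.ext rfl hζ
    simp only
    rw [e1, h1 ζ.re 0]
  · intro ζ hζ
    simp only
    rw [hper' ζ hζ]

end Pool.Agent.EAC
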