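import Pool.Agent.EAC.Geo

/-!
# EAC-ZD3: the boundary of `dom h` is a null set

`z ∈ dom h \ interior (dom h)`: by `mem_interior_dom`, `mem_dom_iff`: `‖z‖ = 1` (`volume_unit_circle`), or `‖qB z‖ = e^{-h}‖qA z‖` or `‖qB z‖ = e^h ‖qA z‖`. In the second case `Im z ≥ 0`
(else `normSq_qA_sub` gives `‖qA‖ ≤ ‖qB‖`, and `qA ≠ 0`), `Im (zet z) = h`, and `z = Zi (zet z)`: so `z ∈ Zi '' {ζ | ζ.im = h}`; the line is a null set, it is contained in `Oset`, and
`Zi` is differentiable on it: `MeasureTheory.addHaar_image_eq_zero_of_differentiableOn_of_addHaar_eq_zero`. The third case is the complex conjugate (`conj '' ` of a null set: linear isometry).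
-/

set_option autoImplicit false

noncomputable section

namespace Pool.Agent.EAC

open MeasureTheory Set Filter Topology Metric
open scoped ENNReal ComplexConjugate
open Geo hiding isOpen_Oset mem_Oset

private theorem zd3_line (b : ℝ) : volume {z : ℂ | z.im = b} = 0 := by
  have h1 : {z : ℂ | z.im = b} = Complex.measurableEquivRealProd ⁻¹' (univ ×ˢ ({b} : Set ℝ)) := by
    ext z
    simp [Complex.measurableEquivRealProd]
  rw [h1, Complex.volume_preserving_equiv_real_prod.measure_preimage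
    (MeasurableSet.univ.prod (measurableSet_singleton b)).nullMeasurableSet]
  rw [Measure.volume_eq_prod, Measure.prod_prod]
  simp

private theorem zd3_mem {h : ℝ} (hh : 0 < h) (hh1 : h ≤ 1) {z : ℂ} (hz : z ∈ dom h)
    (he : Real.exp (-h) * ‖qA z‖ = ‖qB z‖) : z ∈ Zi '' {ζ : ℂ | ζ.im = h} := by
  obtain ⟨a1, a2, a3⟩ := mem_dom_iff.1 hz
  have hA := norm_pos_iff.2 (qA_ne_zero hh1 hz)
  have hi : 0 ≤ z.im := by
    by_contra hneg
    have hneg' : z.im < 0 := not_le.1 hneg
    have h1 := normSq_qA_sub z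
    have h2 : 0 ≤ 1 - ‖z‖ ^ 2 := by nlinarith [norm_nonneg z]
    have h3 : 16 * (1 - ‖z‖ ^ 2) * z.im ≤ 0 := by nlinarith
    have h4 : Real.exp (-h) < 1 := by rw [Real.exp_lt_one_iff]; linarith
    have h5 := Real.exp_pos (-h)
    have h6 : ‖qB z‖ < ‖qA z‖ := by rw [← he]; nlinarith
    nlinarith [norm_nonneg (qB z)]
  refine ⟨zet z, ?_, Zi_zet a1 hi (qB_ne_zero hh1 hz)⟩
  change (zet z).im = h
  rw [zet_im, kap_eq, norm_div, ← he, mul_div_assoc, div_self hA.ne', mul_one, Real.log_exp]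
  ring

theorem volume_dom_diff_interior {h : ℝ} (hh : 0 < h) (hh1 : h ≤ 1) :
    volume (dom h \ interior (dom h)) = 0 := by
  have hB : volume (Zi '' {ζ : ℂ | ζ.im = h}) = 0 := by
    refine addHaar_image_eq_zero_of_differentiableOn_of_addHaar_eq_zero volume ?_ (zd3_line h)
    intro ζ hζ
    have hζ' : ζ ∈ Oset := Or.inl (by rw [show ζ.im = h from hζ]; exact hh)
    exact ((hasDerivAt_Zi hζ').differentiableAt.restrictScalars ℝ).differentiableWithinAt
  have hC : volume ((fun z : ℂ => conj z) '' (Zi '' {ζ : ℂ | ζ.im = h})) = 0 := by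
    refine addHaar_image_eq_zero_of_differentiableOn_of_addHaar_eq_zero volume ?_ hB
    intro z _
    exact ((Complex.conjCLE : ℂ →L[ℝ] ℂ).differentiableAt (x := z)).differentiableWithinAt
  refine measure_mono_null (t := {z : ℂ | ‖z‖ = 1} ∪ (Zi '' {ζ : ℂ | ζ.im = h} ∪
    (fun z : ℂ => conj z) '' (Zi '' {ζ : ℂ | ζ.im = h}))) ?_
    (measure_union_null volume_unit_circle (measure_union_null hB hC))
  rintro z ⟨hz, hzi⟩
  obtain ⟨a1, a2, a3⟩ := mem_dom_iff.1 hz
  rw [mem_interior_dom hh hh1] at hzi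
  by_cases b1 : ‖z‖ = 1
  · exact Or.inl b1
  · refine Or.inr ?_
    by_cases b2 : Real.exp (-h) * ‖qA z‖ = ‖qB z‖
    · exact Or.inl (zd3_mem hh hh1 hz b2)
    · refine Or.inr ⟨conj z, ?_, Complex.conj_conj z⟩
      refine zd3_mem hh hh1 (conj_mem_dom hz) ?_
      have b3 : ‖qB z‖ = Real.exp h * ‖qA z‖ := by
        by_contra hne
        exact hzi ⟨lt_of_le_of_ne a1 b1, lt_of_le_of_ne a2 b2, lt_of_le_of_ne a3 hne⟩
      rw [norm_qA_conj, norm_qB_conj, b3, ← mul_assoc, ← Real.exp_add]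
      simp

end Pool.Agent.EAC
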