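import Pool.Agent.EAC.ZD2
import Pool.Agent.EAC.ZD3

/-!
# EAC-ZD4: divergence free, from a Lipschitz stream function in the plane

`LipschitzWith.integral_lineDeriv_mul_eq` with `g = fun z => fderiv ℝ φ z i`, `v = 1` and with `g = fun z => fderiv ℝ φ z 1`, `v = i`; the right-hand sides are
`-∫ Q φ_{xy}` and `-∫ Q φ_{yx}` (`second derivatives symmetric`: `second_derivative_symmetric` / `ContDiffAt.isSymmSndFDerivAt`), so
`∫ (lineDeriv Q z 1 * φ_y - lineDeriv Q z i * φ_x) = 0`. The integrand is almost everywhere equal to the indicator of `interior (dom h)` of `fderiv ℝ φ z (v z)`: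
on `interior (dom h)` off the real line (`volume_real_line`) `lineDeriv Q z 1 = Re g`, `lineDeriv Q z i = Re (g i) = -Im g`, `g = G(zet z) zp z`, and
`v = conj (-i g) = i conj g = Im g + i Re g`, `fderiv φ z v = φ_x Im g + φ_y Re g`; off `dom h` it is `0`; the rest is a null set (`volume_dom_diff_interior`).
`integral_indicator`.
-/

set_option autoImplicit false

noncomputable section

namespace Pool.Agent.EAC

open MeasureTheory Set Filter Topology Metric
open scoped ENNReal ComplexConjugate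
open Geo hiding isOpen_Oset mem_Oset

theorem zd4_symm {φ : ℂ → ℝ} (hφ : ContDiff ℝ (⊤ : ℕ∞) φ) (z : ℂ) :
    fderiv ℝ (fun z => fderiv ℝ φ z Complex.I) z 1 = fderiv ℝ (fun z => fderiv ℝ φ z 1) z Complex.I := by
  have h1 : ∀ y, HasFDerivAt φ (fderiv ℝ φ y) y := fun y =>
    ((hφ.differentiable (by simp)) y).hasFDerivAt
  have hd : ContDiff ℝ (⊤ : ℕ∞) (fderiv ℝ φ) := hφ.fderiv_right (by simp)
  have h2 : HasFDerivAt (fderiv ℝ φ) (fderiv ℝ (fderiv ℝ φ) z) z :=
    ((hd.differentiable (by simp)) z).hasFDerivAt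
  have h3 := second_derivative_symmetric (f := φ) h1 h2 1 Complex.I
  have hA : HasFDerivAt (fun z => fderiv ℝ φ z Complex.I)
      ((ContinuousLinearMap.apply ℝ ℝ Complex.I).comp (fderiv ℝ (fderiv ℝ φ) z)) z :=
    (ContinuousLinearMap.apply ℝ ℝ Complex.I).hasFDerivAt.comp z h2
  have hB : HasFDerivAt (fun z => fderiv ℝ φ z 1)
      ((ContinuousLinearMap.apply ℝ ℝ (1 : ℂ)).comp (fderiv ℝ (fderiv ℝ φ) z)) z :=
    (ContinuousLinearMap.apply ℝ ℝ (1 : ℂ)).hasFDerivAt.comp z h2
  rw [hA.fderiv, hB.fderiv]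
  simpa using h3

theorem divfree_of_stream {h : ℝ} (hh : 0 < h) (hh1 : h ≤ 1) {g v : ℂ → ℂ} {Q : ℂ → ℝ} {K : NNReal}
    (hQ : LipschitzWith K Q)
    (h1 : ∀ z ∈ interior (dom h), z.im ≠ 0 → HasFDerivAt Q (reL (g z)) z)
    (h2 : ∀ z, z ∉ dom h → HasFDerivAt Q (0 : ℂ →L[ℝ] ℝ) z)
    (hv : ∀ z ∈ interior (dom h), v z = conj (-Complex.I * g z)) : DivFree (dom h) v := by
  intro φ hφ hs
  have hd : ContDiff ℝ (⊤ : ℕ∞) (fderiv ℝ φ) := hφ.fderiv_right (by simp)
  have hsd : HasCompactSupport (fderiv ℝ φ) := hs.fderiv ℝ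
  have hc : ∀ e : ℂ, ContDiff ℝ (⊤ : ℕ∞) (fun z => fderiv ℝ φ z e) := fun e =>
    hd.clm_apply contDiff_const
  have hcs : ∀ e : ℂ, HasCompactSupport (fun z => fderiv ℝ φ z e) := fun e => hs.fderiv_apply ℝ e
  have key : ∀ e u : ℂ, ∫ z, lineDeriv ℝ Q z u * fderiv ℝ φ z e =
      -∫ z, fderiv ℝ (fun z => fderiv ℝ φ z e) z u * Q z := by
    intro e u
    obtain ⟨D, hD⟩ := ContDiff.lipschitzWith_of_hasCompactSupport (hcs e) (hc e) (by simp)
    rw [LipschitzWith.integral_lineDeriv_mul_eq hQ hD (hcs e) u, ← integral_neg]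
    refine integral_congr_ae (ae_of_all _ fun z => ?_)
    simp only
    rw [(((hc e).differentiable (by simp)) z).lineDeriv_eq_fderiv, map_neg, neg_mul]
  have hint : ∀ e u : ℂ, Integrable (fun z => lineDeriv ℝ Q z u * fderiv ℝ φ z e) := by
    intro e u
    have := ((hc e).continuous.integrable_of_hasCompactSupport (μ := (volume : Measure ℂ)) (hcs e)).bdd_mul
      (c := K * ‖u‖) (f := fun z => lineDeriv ℝ Q z u)
      (measurable_lineDeriv hQ.continuous).aestronglyMeasurable
      (ae_of_all _ fun z => norm_lineDeriv_le_of_lipschitz ℝ hQ)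
    exact this
  have hzero : ∫ z, (lineDeriv ℝ Q z 1 * fderiv ℝ φ z Complex.I -
      lineDeriv ℝ Q z Complex.I * fderiv ℝ φ z 1) = 0 := by
    rw [integral_sub (hint _ _) (hint _ _), key, key]
    have : ∀ z, fderiv ℝ (fun z => fderiv ℝ φ z Complex.I) z 1 * Q z =
        fderiv ℝ (fun z => fderiv ℝ φ z 1) z Complex.I * Q z := fun z => by rw [zd4_symm hφ z]
    simp_rw [this]
    ring
  rw [← integral_indicator isOpen_interior.measurableSet, ← hzero]
  refine integral_congr_ae ?_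
  have n1 : ∀ᵐ z : ℂ, z.im ≠ 0 := by
    have := Geo.volume_real_line
    rw [← compl_compl {z : ℂ | z.im = 0}] at this
    exact this
  have n2 : ∀ᵐ z : ℂ, z ∉ dom h \ interior (dom h) := by
    have := volume_dom_diff_interior hh hh1
    exact measure_eq_zero_iff_ae_notMem.mp this
  filter_upwards [n1, n2] with z hz1 hz2
  by_cases hz : z ∈ interior (dom h)
  · rw [indicator_of_mem hz]
    have hq := h1 z hz hz1
    rw [hq.differentiableAt.lineDeriv_eq_fderiv, hq.differentiableAt.lineDeriv_eq_fderiv,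
      hq.fderiv, reL_apply, reL_apply, hv z hz]
    have e : conj (-Complex.I * g z) = (g z).im • (1 : ℂ) + (g z).re • Complex.I := by
      apply Complex.ext <;> simp
    rw [e, map_add, map_smul, map_smul]
    simp only [smul_eq_mul, mul_one, Complex.mul_re, Complex.I_re, Complex.I_im, mul_zero,
      zero_sub]
    ring
  · rw [indicator_of_notMem hz]
    have hz3 : z ∉ dom h := fun h3 => hz2 ⟨h3, hz⟩
    have hq := h2 z hz3
    rw [hq.differentiableAt.lineDeriv_eq_fderiv, hq.differentiableAt.lineDeriv_eq_fderiv,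
      hq.fderiv]
    simp

end Pool.Agent.EAC
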