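import Pool.Agent.EAC.ZF3a

/-!
# EAC-ZF3c: the flow in the plane: time derivative

`0 ≤ Im z`: `ζ = zet z ∈ S h`. If `sin ζ = 0`: `Φ τ ζ = ζ` for all `τ` (`Phi_sin_zero`), `gam` is constant in `τ`, `gam Φ t z = z`, and `velZ z = 0` because `zp z = 0` (`zp_sq`).
Otherwise `Φ t ζ ∈ Oset` (`mem_Oset`, `Phi_sin_zero`) and `hasDerivAt_Zi`, `hw.flow` (restricted to `Icc 0 T`): derivative `(zp (Zi Φ))⁻¹ Vel (Φ)`, `Vel = ‖zp (Zi Φ)‖² i conj (Tot Φ)` (`Vel_eq`, `mm`),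
and `velZ (Zi Φ) = conj (-i Tot (zet (Zi Φ)) zp (Zi Φ)) = i conj (Tot Φ) conj (zp)` (`zet_Zi`, `FieldZ.per_int` for `Tot_field`). `Im z < 0`: conjugate; `velZ (conj x) = conj (velZ x)` (`velZ_conj`).
-/

set_option autoImplicit false

noncomputable section

namespace Pool.Agent.EAC

open MeasureTheory Set Filter Topology Metric
open scoped ENNReal ComplexConjugate
open Geo hiding isOpen_Oset mem_Oset

/-- the field at `Zi ζ`. -/
theorem velZ_at_Zi {h lam : ℝ} (hh : 0 < h) {w : ℝ → ℂ → ℝ} {Φ : ℝ → ℂ → ℂ}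
    (hw : StripSol h lam w Φ) {T : ℝ} (hT : 0 < T) {t : ℝ} (ht : t ∈ Icc 0 T) (ζ : ℂ) :
    velZ h lam (w t) (Zi ζ) = Complex.I * conj (Tot h lam w t ζ) * conj (zp (Zi ζ)) := by
  obtain ⟨n, hn⟩ := zet_Zi ζ
  have h1 : Tot h lam w t (zet (Zi ζ)) = Tot h lam w t ζ := by
    rw [hn]
    exact (Tot_field hh hw hT).per_int ht ζ n
  rw [velZ_eq, h1]
  simp only [map_mul, map_neg, Complex.conj_I, neg_neg]

theorem Zi_flow_deriv {h lam : ℝ} (hh : 0 < h) (hh1 : h ≤ 1) {w : ℝ → ℂ → ℝ} {Φ : ℝ → ℂ → ℂ}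
    (hw : StripSol h lam w Φ) {T : ℝ} (hT : 0 < T) {t : ℝ} (ht : t ∈ Icc 0 T) {ζ : ℂ}
    (hζ : ζ ∈ S h) :
    HasDerivWithinAt (fun τ => Zi (Φ τ ζ)) (velZ h lam (w t) (Zi (Φ t ζ))) (Icc 0 T) t := by
  by_cases hs : Complex.sin ζ = 0
  · have hfix : ∀ τ ∈ Icc 0 T, Φ τ ζ = ζ := fun τ hτ => (Phi_sin_zero hh hh1 hw hτ.1 hζ).2 hs
    have hzp : zp (Zi ζ) = 0 := by
      have := zp_Zi_sq ζ
      rw [hs, mul_zero, zero_div] at this
      exact pow_eq_zero_iff (two_ne_zero) |>.mp this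
    have hv : velZ h lam (w t) (Zi (Φ t ζ)) = 0 := by
      rw [hfix t ht, velZ_at_Zi hh hw hT ht, hzp]
      simp
    rw [hv]
    refine (hasDerivWithinAt_const t (Icc 0 T) (Zi ζ)).congr (fun τ hτ => ?_) ?_
    · rw [hfix τ hτ]
    · rw [hfix t ht]
  · have hΦS : Φ t ζ ∈ S h := (hw.bij t ht.1).mapsTo hζ
    have hs' : Complex.sin (Φ t ζ) ≠ 0 := fun hc => hs ((Phi_sin_zero hh hh1 hw ht.1 hζ).1.mp hc)
    have hO : Φ t ζ ∈ Oset := mem_Oset hΦS.1 hs'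
    have hZ := hasDerivAt_Zi hO
    have hne := zp_Zi_ne_zero hO
    have hfl := (hw.flow t ht.1 ζ hζ).mono (Icc_subset_Ici_self : Icc 0 T ⊆ Ici 0)
    have hc := (hZ.hasFDerivAt.restrictScalars ℝ).comp_hasDerivWithinAt t hfl
    refine hc.congr_deriv ?_
    rw [velZ_at_Zi hh hw hT ht, Vel_eq]
    have hmm : (mm (Φ t ζ) : ℂ) = zp (Zi (Φ t ζ)) * conj (zp (Zi (Φ t ζ))) := by
      rw [Complex.mul_conj', mm]
      push_cast
      rfl
    rw [hmm]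
    simp only [ContinuousLinearMap.coe_restrictScalars', ContinuousLinearMap.toSpanSingleton_apply,
      smul_eq_mul]
    field_simp

theorem gam_deriv {h lam : ℝ} (hh : 0 < h) (hh1 : h ≤ 1) {w : ℝ → ℂ → ℝ} {Φ : ℝ → ℂ → ℂ}
    (hw : StripSol h lam w Φ) {T : ℝ} (hT : 0 < T) {t : ℝ} (ht : t ∈ Icc 0 T) {z : ℂ}
    (hz : z ∈ dom h) :
    HasDerivWithinAt (fun τ => gam Φ τ z) (velZ h lam (w t) (gam Φ t z)) (Icc 0 T) t := by
  by_cases hi : 0 ≤ z.im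
  · have e : ∀ τ, gam Φ τ z = Zi (Φ τ (zet z)) := fun τ => if_pos hi
    simp only [e]
    exact Zi_flow_deriv hh hh1 hw hT ht (zet_mem_S hh1 hz hi)
  · have e : ∀ τ, gam Φ τ z = conj (Zi (Φ τ (zet (conj z)))) := fun τ => if_neg hi
    simp only [e]
    have hi' : 0 ≤ (conj z).im := by
      rw [Complex.conj_im]
      linarith [not_le.mp hi]
    have h1 := Zi_flow_deriv hh hh1 hw hT ht (zet_mem_S hh1 (conj_mem_dom hz) hi')
    have h2 := (Complex.conjCLE.hasFDerivAt (x := Zi (Φ t (zet (conj z))))).comp_hasDerivWithinAt t h1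
    rw [velZ_conj]
    exact h2

end Pool.Agent.EAC
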