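import Pool.Agent.EAC.ZE6
import Pool.Agent.EAC.ZF3
import Pool.Agent.EAC.ZD4
import Pool.Agent.EAC.ZD1
import Pool.Agent.EAC.NV4

/-!
# EAC-ZZ: assembly of PART Z
-/

set_option autoImplicit false

noncomputable section

namespace Pool.Agent.EAC

open MeasureTheory Set Filter Topology Metric
open scoped ENNReal ComplexConjugate
open Geo hiding isOpen_Oset mem_Oset

theorem BM_fr {h lam : ℝ} {w : ℝ → ℂ → ℝ} {Φ : ℝ → ℂ → ℂ} (hw : StripSol h lam w Φ) {T : ℝ}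
    (hT : 0 < T) : ∃ B, ∀ t ∈ Icc 0 T, BM h (fr w t) B := by
  obtain ⟨B, _, hB⟩ := CC_bdd (fr_CC hw hT 0)
  refine ⟨B, fun t ht => BM_of_continuousOn ?_ (fun z hz => hB t ht z hz)⟩
  exact (CC_cont (fr_CC hw hT 0)).comp (f := fun z : ℂ => ((t, z) : ℝ × ℂ))
    (by fun_prop) (fun z hz => ⟨ht, hz⟩)

theorem holo_slit {h lam : ℝ} (hh : 0 < h) {w : ℝ → ℂ → ℝ} {Φ : ℝ → ℂ → ℂ}
    (hw : StripSol h lam w Φ) {T : ℝ} (hT : 0 < T) {t : ℝ} (ht : t ∈ Icc 0 T) {x : ℝ}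
    (hx : Real.sin x < 0) : ∃ r > 0, DifferentiableOn ℂ (W h (fr w t)) (ball (x : ℂ) r) := by
  obtain ⟨B, hB⟩ := BM_fr hw hT
  obtain ⟨d, hd, hs⟩ := hw.supp T hT
  obtain ⟨e, he, hse⟩ : ∃ e > 0, ∀ y : ℝ, |y - x| < e → Real.sin y < 0 := by
    have := (Real.continuous_sin.continuousAt (x := x)).eventually (gt_mem_nhds hx)
    obtain ⟨e, he, hE⟩ := Metric.eventually_nhds_iff.mp this
    exact ⟨e, he, fun y hy => hE (by rwa [Real.dist_eq])⟩
  refine ⟨min (min d e) h, by positivity, W_holo hh (by positivity) (hB t ht) (fun z hz hzx => ?_)⟩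
  have h1 : |z.re - x| < e := by
    have := Complex.abs_re_le_norm (z - x)
    simp at this
    exact this.trans_lt (hzx.trans_le (min_le_right _ _))
  have h2 : z.im < d := by
    have := Complex.abs_im_le_norm (z - x)
    simp at this
    exact (le_abs_self _).trans_lt (this.trans_lt (hzx.trans_le (min_le_left _ _)))
  have h3 : w t z = 0 := by
    by_contra hne
    have := (hs t ht z ⟨hz.1.le, hz.2.le⟩ hne).2 (hse _ h1).le
    linarith
  simp [fr, h3]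

theorem vel_sobolev {h lam : ℝ} (hh : 0 < h) (hh1 : h ≤ 1) {w : ℝ → ℂ → ℝ} {Φ : ℝ → ℂ → ℂ}
    (hw : StripSol h lam w Φ) {T : ℝ} (hT : 0 < T) (s : ℕ) {t : ℝ} (ht : t ∈ Icc 0 T) :
    ContDiffOn ℝ (⊤ : ℕ∞) (velZ h lam (w t)) (interior (dom h)) ∧
    hsNorm (dom h) s (velZ h lam (w t)) < ⊤ ∧
    Tendsto (fun τ => hsNorm (dom h) s (fun z => velZ h lam (w τ) z - velZ h lam (w t) z))
      (𝓝[Icc 0 T] t) (𝓝 0) := by
  have hΛ := Lam_cont' (lam := lam) hh (fr_CC hw hT 0)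
  refine ZN.vel_hs_cont (I := Icc 0 T) (Λ := fun t => Lam h lam (fr w t))
    (G := fun t => W h (fr w t)) hh hh1 hΛ ?_ ?_ ?_ ?_ ?_ s ht
  · obtain ⟨C, hC⟩ := isCompact_Icc.exists_bound_of_continuousOn hΛ
    exact ⟨C, fun t ht => by simpa using hC t ht⟩
  · intro t _ ζ
    exact W_conj _ _
  · intro t ht ζ _
    exact W_per (fun x hx => fr_per hw ht.1 hx) ζ
  · intro n
    obtain ⟨C, _, hC⟩ := ZN.BC_of_CC (CC_succ (W_CC hh n (fr_CC hw hT n)))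
    exact ⟨C, hC⟩
  · intro t ht x hx
    exact holo_slit hh hw hT ht hx

theorem continuousOn_zp {h : ℝ} (hh1 : h ≤ 1) : ContinuousOn zp (dom h) := by
  unfold zp
  refine ContinuousOn.div (by fun_prop) (by fun_prop) (fun z hz => ?_)
  exact dom_qq_ne_zero hh1 hz

theorem velZ_cont {h lam : ℝ} (hh : 0 < h) (hh1 : h ≤ 1) {w : ℝ → ℂ → ℝ} {Φ : ℝ → ℂ → ℂ}
    (hw : StripSol h lam w Φ) {T : ℝ} (hT : 0 < T) {t : ℝ} (ht : t ∈ Icc 0 T) :
    ContinuousOn (velZ h lam (w t)) (dom h) := by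
  have h1 := (Tot_field hh hw hT).cont_zet hh hh1 ht
  have h2 : ContinuousOn (fun z => conj (-Complex.I * Tot h lam w t (zet z) * zp z)) (dom h) :=
    Complex.continuous_conj.comp_continuousOn ((continuousOn_const.mul h1).mul (continuousOn_zp hh1))
  exact h2

theorem velZ_divfree {h lam : ℝ} (hh : 0 < h) (hh1 : h ≤ 1) {w : ℝ → ℂ → ℝ} {Φ : ℝ → ℂ → ℂ}
    (hw : StripSol h lam w Φ) {T : ℝ} (hT : 0 < T) {t : ℝ} (ht : t ∈ Icc 0 T) :
    DivFree (dom h) (velZ h lam (w t)) := by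
  have hF := Tot_field hh hw hT
  obtain ⟨C, hC, hb⟩ := hF.lip
  obtain ⟨ψ, c, h1, h2, h3, h4, h5⟩ := stream (G := Tot h lam w t) hh hC (hF.cont t ht) (hF.per t ht)
    (hF.re0 t ht) (hF.deriv t ht) (hb t ht).1
  obtain ⟨Q, K, hQ, hd, h0⟩ := stream_plane hh hh1 hC (hF.per t ht) (hF.cj t ht) h1 h2 h3 h4 h5
  exact divfree_of_stream hh hh1 (g := fun z => Tot h lam w t (zet z) * zp z) hQ hd h0
    (fun z _ => by rw [velZ_eq, mul_assoc])

theorem Z_final' {h lam : ℝ} (hh : 0 < h) (hh1 : h ≤ 1) {w : ℝ → ℂ → ℝ} {Φ : ℝ → ℂ → ℂ}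
    (hw : StripSol h lam w Φ) :
    ∃ γ, (∀ s, IsGeodesic (dom h) s (fun t => velZ h lam (w t)) γ) ∧
      ∀ t, 0 ≤ t → ∀ ζ ∈ S h, Zi ζ ∈ dom h ∧ γ t (Zi ζ) = Zi (Φ t ζ) := by
  refine ⟨gam Φ, fun s T hT => ⟨?_, ?_⟩, fun t ht ζ hζ => ⟨Zi_mem_dom hζ, gam_Zi hw ht hζ⟩⟩
  · exact
      { cont := fun t ht => velZ_cont hh hh1 hw hT ht
        divfree := fun t ht => velZ_divfree hh hh1 hw hT ht
        hs := fun t ht => (vel_sobolev hh hh1 hw hT s ht).2.1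
        hs_cont := fun t ht => (vel_sobolev hh hh1 hw hT s ht).2.2
        momentum := momentum_all hh hh1 hw hT (fun t ht => (vel_sobolev hh hh1 hw hT s ht).1) }
  · exact
      { init := fun z hz => gam_init hh hh1 hw hz
        bij := fun t ht => gam_bij hh hh1 hw ht.1
        deriv := fun t ht z hz => gam_deriv hh hh1 hw hT ht hz }

end Pool.Agent.EAC
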