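import Pool.Agent.EAC.Strip
import Pool.Agent.EAC.PA.AMain
import Pool.Agent.EAC.X9b
import Pool.Agent.EAC.ZDom
import Pool.Agent.EAC.ZZ
import Pool.Agent.EAC.NFinal
import Pool.Agent.EAC.KFinal

/-!
# EAC: the interface theorems of the parts A, X, Z, N, K

The theorem of each part under the name used by `Final.lean`.
-/

set_option autoImplicit false

noncomputable section

namespace Pool.Agent.EAC

open MeasureTheory Set Filter Topology Metric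
open scoped ENNReal ComplexConjugate

/-- PART A (a priori estimate). -/
theorem A_main {M : Set ℂ} (hM : AnalyticDomain M) {s : ℕ} (hs : 3 ≤ s) :
    ∃ K > 0, ∃ ε₀ > 0, ∀ ε : ℝ, 0 < ε → ε ≤ ε₀ → ∀ ξ ∈ expBall M s (ENNReal.ofReal ε),
      ∀ x ∈ M, ∀ y ∈ M, ‖x - y‖ ≤ Real.exp (K * ε) * ‖ξ x - ξ y‖ :=
  PA.A_main hM hs

/-- PART X (existence). -/
theorem X_final {h lam : ℝ} (hh : 0 < h) (hh1 : h ≤ 1) {w0 : ℂ → ℝ} (hw : NiceInit w0) :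
    ∃ w Φ, StripSol h lam w Φ ∧ ∀ ζ ∈ S h, w 0 ζ = w0 ζ :=
  X_final' hh hh1 hw

/-- PART Z (geometry). -/
theorem Z_domain {h : ℝ} (hh : 0 < h) (hh1 : h ≤ 1) : AnalyticDomain (dom h) :=
  ZD.Z_domain' hh hh1

theorem Z_final {h lam : ℝ} (hh : 0 < h) (hh1 : h ≤ 1) {w : ℝ → ℂ → ℝ} {Φ : ℝ → ℂ → ℂ}
    (hw : StripSol h lam w Φ) :
    ∃ γ, (∀ s, IsGeodesic (dom h) s (fun t => velZ h lam (w t)) γ) ∧
      ∀ t, 0 ≤ t → ∀ ζ ∈ S h, Zi ζ ∈ dom h ∧ γ t (Zi ζ) = Zi (Φ t ζ) :=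
  Z_final' hh hh1 hw

/-- PART N (smallness of the norm). -/
theorem N_final (lam : ℝ) {w0 : ℂ → ℝ} (hw : NiceInit w0) (s : ℕ) {ε : ℝ} (hε : 0 < ε) :
    ∃ h1 > 0, ∀ h, 0 < h → h < h1 → hsNorm (dom h) s (velZ h lam w0) ≤ ENNReal.ofReal ε :=
  ZN.N_final' lam hw s hε

/-- PART K (double exponential growth, with a rate independent of `h`). -/
theorem K_final :
    ∃ lam > 0, ∃ w0, NiceInit w0 ∧ ∃ c > 0, ∃ h0 > 0, ∃ δ > 0, ∀ h, 0 < h → h ≤ h0 →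
      ∀ w Φ, StripSol h lam w Φ → (∀ ζ ∈ S h, w 0 ζ = w0 ζ) →
        ∃ C > 0, ∀ t, 0 ≤ t → ∃ ζ ∈ S h, δ ≤ ‖Zi ζ - 1‖ ∧
          ‖Zi (Φ t ζ) - 1‖ ≤ Real.exp (C - Real.exp (c * t) / C) :=
  PartK.K_final'

end Pool.Agent.EAC
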