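import Pool.Agent.EAC.Strip

/-!
# EAC, PART K: definitions (Kiselev-Sverak mechanism at the corner `ζ = 0` of the strip)
-/

set_option autoImplicit false

noncomputable section

namespace Pool.Agent.EAC.PartK

open MeasureTheory Set Filter Topology Metric
open scoped ENNReal ComplexConjugate

/-- `K0(w) = -Im ker(0,w)`, the kernel of the strain at the corner. -/
def K0 (h : ℝ) (w : ℂ) : ℝ :=
  Real.sin (Real.pi * w.im / h) / (4 * h * ‖Complex.sinh (Real.pi * w / (2 * h))‖ ^ 2)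

/-- The strain at the corner produced by the vorticity outside the ball of radius `2r`. -/
def II (h : ℝ) (f : ℂ → ℝ) (r : ℝ) : ℝ := ∫ w in S h ∩ {w : ℂ | 2 * r ≤ ‖w‖}, K0 h w * f w

/-- Densities of vorticity in the strip: `0 ≤ f ≤ 2 / |sin|`. -/
structure Dens (h : ℝ) (f : ℂ → ℝ) : Prop where
  meas : AEStronglyMeasurable f (volume.restrict (S h))
  nonneg : ∀ w ∈ S h, 0 ≤ f w
  le : ∀ w ∈ S h, f w ≤ 2 / ‖Complex.sin w‖

/-- The coordinate `s = i(1-z)/(1+z)` at the corner, `s² = tan(ζ/2)`. -/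
def sq (ζ : ℂ) : ℂ := Complex.tan (ζ / 2) ^ (1 / 2 : ℂ)

/-- The wedge `{a < s₁ < b, s₂ < s₁}` (in the strip coordinate). -/
def Om (h a b : ℝ) : Set ℂ :=
  {ζ | ζ ∈ S h ∧ 0 < ζ.re ∧ ‖ζ‖ < 1 / 2 ∧ a < (sq ζ).re ∧ (sq ζ).re < b}

/-- The error term `C (2h/(h+s²) + √s)`, `s = e^{-x}`. -/
def En (C h x : ℝ) : ℝ :=
  C * (2 * (h * Real.exp (2 * x)) / (1 + h * Real.exp (2 * x)) + Real.exp (-x / 2))

end Pool.Agent.EAC.PartK
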