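import Pool.Agent.EAC.KKer

/-!
# EAC-K04: `|ker(ζ,w) - ker(0,w)| ≤ 3 |ζ|/|w|²`

`cth u - cth v = sinh (v-u)/(sinh u sinh v)`. With `a(ζ) = π(ζ - conj w)/(2h)`, `b(ζ) = π(ζ - w)/(2h)`:
`ker(ζ,w) - ker(0,w) = (1/4h) [(cth a(ζ) - cth a(0)) - (cth b(ζ) - cth b(0))]`, both numerators are `sinh(-πζ/2h)`,
`‖sinh a(ζ)‖ ≥ ‖sinh b(ζ)‖ ≥ ‖ζ-w‖/h ≥ ‖w‖/(2h)`, `‖sinh a(0)‖ ≥ ‖sinh b(0)‖ ≥ ‖w‖/h` (`norm_sinh_ab`, `sinh_b_ge`).
`‖sinh (πζ/2h)‖ ≤ sinh (π‖ζ‖/2h) ≤ sinh(π/2) ‖ζ‖/h ≤ 2.4 ‖ζ‖/h` (convexity of `sinh` on `[0,π/2]`, or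
`sinh u ≤ u cosh u` and `cosh (π/2) ≤ 2.6` ... any way giving a constant `≤ 3`).
Total: `(1/2h) (3‖ζ‖/h) (2h²/‖w‖²) = 3 ‖ζ‖/‖w‖²`.
-/

set_option autoImplicit false

noncomputable section

namespace Pool.Agent.EAC.PartK

open MeasureTheory Set Filter Topology Metric
open scoped ComplexConjugate

theorem kdiff_exp_le : Real.exp (Real.pi / 2) ≤ 5.4 := by
  have h1 : Real.pi / 2 ≤ 8 / 5 := by linarith [Real.pi_lt_d2]
  have h2 : Real.exp (Real.pi / 2) ≤ Real.exp (8 / 5) := Real.exp_le_exp.2 h1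
  refine h2.trans ?_
  have h3 : Real.exp (8 / 5) ^ 5 ≤ (5.4 : ℝ) ^ 5 := by
    rw [← Real.exp_nat_mul]
    have e : ((5 : ℕ) : ℝ) * (8 / 5) = ((8 : ℕ) : ℝ) * 1 := by norm_num
    rw [e, Real.exp_nat_mul]
    have h4 := Real.exp_one_lt_d9
    have h5 : Real.exp 1 ^ 8 ≤ (2.7182818286 : ℝ) ^ 8 :=
      pow_le_pow_left₀ (Real.exp_pos _).le h4.le 8
    refine h5.trans ?_
    norm_num
  exact le_of_pow_le_pow_left₀ (by norm_num) (by norm_num) h3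

theorem kdiff_sinh_le {t : ℝ} (h0 : 0 ≤ t) (h1 : t ≤ Real.pi / 2) :
    Real.sinh t ≤ 6 / Real.pi * t := by
  have hp := Real.pi_pos
  have hE := kdiff_exp_le
  set c : ℝ := t / (Real.pi / 2) with hc
  have hc0 : 0 ≤ c := by positivity
  have hc1 : c ≤ 1 := by
    rw [hc, div_le_one (by positivity)]
    exact h1
  have hcv := convexOn_exp.2 (mem_univ (0 : ℝ)) (mem_univ (Real.pi / 2))
    (sub_nonneg.2 hc1) hc0 (by ring)
  have e1 : (1 - c) • (0 : ℝ) + c • (Real.pi / 2) = t := by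
    rw [smul_eq_mul, smul_eq_mul, hc]
    field_simp
    ring
  rw [e1, smul_eq_mul, smul_eq_mul, Real.exp_zero] at hcv
  have hm : 1 - t ≤ Real.exp (-t) := by linarith [Real.add_one_le_exp (-t)]
  have hct : c * (Real.pi / 2) = t := by
    rw [hc]; field_simp
  have h6 : 6 / Real.pi * t = 3 * c := by
    rw [hc]; field_simp; ring
  rw [Real.sinh_eq, h6]
  have h7 : c * Real.exp (Real.pi / 2) ≤ c * 5.4 := mul_le_mul_of_nonneg_left hE hc0
  have h8 : t ≤ c * 1.6 := by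
    rw [← hct]
    apply mul_le_mul_of_nonneg_left _ hc0
    linarith [Real.pi_lt_d2]
  linarith

theorem ker_diff {h : ℝ} (hh : 0 < h) {z w : ℂ} (hz : z ∈ S h) (hw : w ∈ S h) (hz1 : ‖z‖ ≤ h)
    (hw0 : w ≠ 0) (hw1 : 2 * ‖z‖ ≤ ‖w‖) : ‖ker h z w - ker h 0 w‖ ≤ 3 * ‖z‖ / ‖w‖ ^ 2 := by
  have hp := Real.pi_pos
  have hwn : 0 < ‖w‖ := norm_pos_iff.2 hw0
  have h0S : (0 : ℂ) ∈ S h := ⟨by simp, by simpa using hh.le⟩
  have hne : z ≠ w := by
    intro h0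
    rw [h0] at hw1
    linarith
  have hzw : ‖w‖ / 2 ≤ ‖z - w‖ := by
    have := norm_sub_norm_le w z
    rw [norm_sub_rev] at this
    linarith
  have hb1 := sinh_b_ne hh hz hw hne
  have hb0 := sinh_b_ne hh h0S hw (Ne.symm hw0)
  have hB1 : ‖w‖ / (2 * h) ≤ ‖Complex.sinh (Real.pi * (z - w) / (2 * h))‖ := by
    refine le_trans ?_ (sinh_b_ge hh hz hw)
    rw [div_le_div_iff₀ (by positivity) hh]
    nlinarith
  have hB0 : ‖w‖ / h ≤ ‖Complex.sinh (Real.pi * (0 - w) / (2 * h))‖ := by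
    have h2 := sinh_b_ge hh h0S hw
    rwa [zero_sub, norm_neg, ← zero_sub] at h2
  have hA1 := norm_sinh_ab hh hz hw
  have hA0 := norm_sinh_ab hh h0S hw
  have ha1 : Complex.sinh (Real.pi * (z - conj w) / (2 * h)) ≠ 0 := by
    intro h2
    rw [h2, norm_zero] at hA1
    exact hb1 (norm_le_zero_iff.1 hA1)
  have ha0 : Complex.sinh (Real.pi * (0 - conj w) / (2 * h)) ≠ 0 := by
    intro h2
    rw [h2, norm_zero] at hA0
    exact hb0 (norm_le_zero_iff.1 hA0)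
  have hhc : (h : ℂ) ≠ 0 := by exact_mod_cast hh.ne'
  have ea : (Real.pi * (0 - conj w) / (2 * h) : ℂ) - Real.pi * (z - conj w) / (2 * h) =
      -(Real.pi * z / (2 * h)) := by
    field_simp; ring
  have eb : (Real.pi * (0 - w) / (2 * h) : ℂ) - Real.pi * (z - w) / (2 * h) =
      -(Real.pi * z / (2 * h)) := by
    field_simp; ring
  have ha := kker_cth_sub ha1 ha0
  have hb := kker_cth_sub hb1 hb0
  rw [ea] at ha
  rw [eb] at hb
  set s : ℝ := ‖Complex.sinh (-(Real.pi * z / (2 * h)))‖ with hs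
  have hs1 : s ≤ 3 * ‖z‖ / h := by
    have h2 := norm_sinh_le (-(Real.pi * z / (2 * h)) : ℂ)
    have e2 : ‖(-(Real.pi * z / (2 * h)) : ℂ)‖ = Real.pi * ‖z‖ / (2 * h) := by
      rw [norm_neg, norm_div, norm_mul, norm_mul, Complex.norm_real, Complex.norm_real,
        Real.norm_eq_abs, Real.norm_eq_abs, abs_of_pos hp, abs_of_pos hh]
      norm_num
    rw [e2] at h2
    have h3 : Real.pi * ‖z‖ / (2 * h) ≤ Real.pi / 2 := by
      rw [div_le_div_iff₀ (by positivity) (by norm_num)]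
      nlinarith
    have h4 := kdiff_sinh_le (by positivity) h3
    have e3 : 6 / Real.pi * (Real.pi * ‖z‖ / (2 * h)) = 3 * ‖z‖ / h := by
      field_simp; ring
    rw [e3] at h4
    exact h2.trans h4
  have hs0 : 0 ≤ s := norm_nonneg _
  have hden : ‖w‖ / (2 * h) * (‖w‖ / h) ≤ ‖Complex.sinh (Real.pi * (z - w) / (2 * h))‖ *
      ‖Complex.sinh (Real.pi * (0 - w) / (2 * h))‖ :=
    mul_le_mul hB1 hB0 (by positivity) (norm_nonneg _)
  have hdenp : 0 < ‖w‖ / (2 * h) * (‖w‖ / h) := by positivity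
  have nb : ‖cth (Real.pi * (z - w) / (2 * h)) - cth (Real.pi * (0 - w) / (2 * h))‖ ≤
      s / (‖w‖ / (2 * h) * (‖w‖ / h)) := by
    rw [hb, norm_div, norm_mul]
    exact div_le_div_of_nonneg_left hs0 hdenp hden
  have na : ‖cth (Real.pi * (z - conj w) / (2 * h)) - cth (Real.pi * (0 - conj w) / (2 * h))‖ ≤
      s / (‖w‖ / (2 * h) * (‖w‖ / h)) := by
    rw [ha, norm_div, norm_mul]
    refine div_le_div_of_nonneg_left hs0 hdenp (hden.trans ?_)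
    exact mul_le_mul hA1 hA0 (norm_nonneg _) (norm_nonneg _)
  have e : ker h z w - ker h 0 w = (1 / (4 * h) : ℝ) *
      ((cth (Real.pi * (z - conj w) / (2 * h)) - cth (Real.pi * (0 - conj w) / (2 * h))) -
        (cth (Real.pi * (z - w) / (2 * h)) - cth (Real.pi * (0 - w) / (2 * h)))) := by
    unfold ker
    ring
  rw [e, norm_mul, Complex.norm_real, Real.norm_eq_abs, abs_of_pos (by positivity)]
  have h5 := norm_sub_le (cth (Real.pi * (z - conj w) / (2 * h)) - cth (Real.pi * (0 - conj w) / (2 * h)))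
    (cth (Real.pi * (z - w) / (2 * h)) - cth (Real.pi * (0 - w) / (2 * h)))
  have h6 : s / (‖w‖ / (2 * h) * (‖w‖ / h)) ≤ 3 * ‖z‖ / h / (‖w‖ / (2 * h) * (‖w‖ / h)) :=
    div_le_div_of_nonneg_right hs1 hdenp.le
  have h7 : 1 / (4 * h) * (2 * (3 * ‖z‖ / h / (‖w‖ / (2 * h) * (‖w‖ / h)))) =
      3 * ‖z‖ / ‖w‖ ^ 2 := by
    field_simp; ring
  rw [← h7]
  apply mul_le_mul_of_nonneg_left _ (by positivity)
  linarith

end Pool.Agent.EAC.PartK
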