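import Pool.Agent.EAC.KSq

/-!
# EAC-K07: `Zi` and `mm` in the coordinate `s = sq ζ`

`κ = exp(iζ) ≠ 1`; `P = (1+κ)/(1-κ)`, `tan (ζ/2) = i(1-κ)/(1+κ) = i/P`, `s² = i/P`, `p = e^{iπ/4} P^{1/2}`, `p² = iP = (i/s)²`,
both `p` and `i/s` have positive real part or are in the closed first quadrant (`arg P ∈ [-π/2, π/2]`), hence `p = i/s` and
`Zi ζ = (p-1)/(p+1) = (i-s)/(i+s)`. `Zi - 1 = -2s/(i+s)`, `1 ≤ ‖s+i‖ ≤ 2` (`s` is in the first quadrant, `‖s‖ ≤ 1`).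
`mm_eq`: `zp(Zi) = 2p(p+1)²/(p⁴+1) = 2i s^{-1} (s+i)² s^{-2} s⁴/(1+s⁴) = 2 i s (s+i)²/(1+s⁴)`, so
`mm = 4|s|²|s+i|⁴/|1+s⁴|²` and `mm (1+s⁴)/(4s) = conj s |s+i|⁴/conj (1+s⁴)`.
-/

set_option autoImplicit false

noncomputable section

namespace Pool.Agent.EAC.PartK

open Set Filter Topology Metric
open scoped ComplexConjugate

theorem kzi_exp_ne {ζ : ℂ} (h2 : ζ ≠ 0) (h3 : ‖ζ‖ ≤ 1 / 2) : Complex.exp (Complex.I * ζ) ≠ 1 := by
  intro h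
  rw [Complex.exp_eq_one_iff] at h
  obtain ⟨n, hn⟩ := h
  have e : ζ = (n : ℂ) * (2 * Real.pi) := by
    have e1 : Complex.I * ζ = Complex.I * ((n : ℂ) * (2 * Real.pi)) := by
      rw [hn]; ring
    exact mul_left_cancel₀ Complex.I_ne_zero e1
  have hn0 : n ≠ 0 := by
    rintro rfl
    apply h2
    rw [e]
    simp
  have h4 : ‖ζ‖ = |(n : ℝ)| * (2 * Real.pi) := by
    rw [e, norm_mul, norm_mul, Complex.norm_real, Real.norm_eq_abs, abs_of_pos Real.pi_pos]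
    have : ‖(n : ℂ)‖ = |(n : ℝ)| := by
      rw [← Complex.ofReal_intCast, Complex.norm_real, Real.norm_eq_abs]
    rw [this]
    norm_num
  have h5 : (1 : ℝ) ≤ |(n : ℝ)| := by
    rw [← Int.cast_abs]
    exact_mod_cast Int.one_le_abs hn0
  have h6 := Real.pi_gt_three
  rw [h4] at h3
  nlinarith

theorem kzi_facts {ζ : ℂ} (h0 : 0 ≤ ζ.re) (h1 : 0 ≤ ζ.im) (h2 : ζ ≠ 0) (h3 : ‖ζ‖ ≤ 1 / 2) :
    sq ζ ≠ 0 ∧ Complex.I + sq ζ ≠ 0 ∧ 1 + sq ζ ^ 4 ≠ 0 ∧ 1 ≤ ‖Complex.I + sq ζ‖ ∧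
      ‖Complex.I + sq ζ‖ ≤ 2 := by
  obtain ⟨f1, f2, f3, f4, f5, f6⟩ := sq_facts h0 h1 h2 h3
  have hs1 : ‖sq ζ‖ ^ 2 ≤ 3 / 10 := by linarith
  have hs2 : ‖sq ζ‖ ≤ 1 := by
    by_contra h
    rw [not_le] at h
    nlinarith
  have hs0 : sq ζ ≠ 0 := by
    intro h
    rw [h] at f1
    simp at f1
  have h4 : 1 ≤ ‖Complex.I + sq ζ‖ := by
    have h5 : (Complex.I + sq ζ).im ≤ ‖Complex.I + sq ζ‖ := Complex.im_le_norm _
    rw [Complex.add_im, Complex.I_im] at h5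
    linarith
  refine ⟨hs0, ?_, ?_, h4, ?_⟩
  · intro h
    rw [h, norm_zero] at h4
    linarith
  · intro h
    have h5 : sq ζ ^ 4 = -1 := by linear_combination h
    have h6 : ‖sq ζ‖ ^ 4 = 1 := by
      rw [← norm_pow, h5, norm_neg, norm_one]
    have h7 : ‖sq ζ‖ ^ 4 = (‖sq ζ‖ ^ 2) ^ 2 := by ring
    nlinarith [sq_nonneg ‖sq ζ‖]
  · have h5 := norm_add_le Complex.I (sq ζ)
    rw [Complex.norm_I] at h5
    linarith

theorem kzi_P {ζ : ℂ} (h0 : 0 ≤ ζ.re) (h1 : 0 ≤ ζ.im) (h2 : ζ ≠ 0) (h3 : ‖ζ‖ ≤ 1 / 2) :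
    (1 + Complex.exp (Complex.I * ζ)) / (1 - Complex.exp (Complex.I * ζ)) * sq ζ ^ 2 =
      Complex.I := by
  obtain ⟨f1, f2, f3, f4, f5, f6⟩ := sq_facts h0 h1 h2 h3
  have hne := kzi_exp_ne h2 h3
  have hre : (ζ / 2).re = ζ.re / 2 := by
    rw [show ζ / 2 = ((1 / 2 : ℝ) : ℂ) * ζ by push_cast; ring, Complex.re_ofReal_mul]; ring
  have hn : ‖ζ / 2‖ ≤ 1 / 4 := by
    rw [norm_div]
    have : ‖(2 : ℂ)‖ = 2 := by norm_num
    rw [this]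
    linarith
  have hc : Complex.cos (ζ / 2) ≠ 0 := by
    have := KSqAux.cos_pos_nq (u := ζ / 2) (by rw [hre]; linarith) hn
    intro h
    rw [h, map_zero] at this
    exact lt_irrefl _ this
  set v : ℂ := Complex.exp (ζ / 2 * Complex.I) with hv
  have hv0 : v ≠ 0 := Complex.exp_ne_zero _
  have hk : Complex.exp (Complex.I * ζ) = v ^ 2 := by
    rw [hv, ← Complex.exp_nat_mul]
    congr 1
    push_cast
    ring
  have hvi : Complex.exp (-(ζ / 2) * Complex.I) = v⁻¹ := by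
    rw [hv, ← Complex.exp_neg]
    congr 1
    ring
  have hcos : Complex.cos (ζ / 2) = (v + v⁻¹) / 2 := by
    rw [Complex.cos, hvi, hv]
  have hsin : Complex.sin (ζ / 2) = (v⁻¹ - v) * Complex.I / 2 := by
    rw [Complex.sin, hvi, hv]
  have h1v : 1 + v ^ 2 ≠ 0 := by
    intro h
    apply hc
    rw [hcos]
    have : v + v⁻¹ = (1 + v ^ 2) / v := by field_simp; ring
    rw [this, h]
    simp
  have h2v : 1 - v ^ 2 ≠ 0 := by
    intro h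
    apply hne
    rw [hk]
    linear_combination -h
  have h3v : v + v⁻¹ ≠ 0 := by
    have : v + v⁻¹ = (1 + v ^ 2) / v := by field_simp; ring
    rw [this]
    exact div_ne_zero h1v hv0
  rw [f4, Complex.tan_eq_sin_div_cos, hk, hcos, hsin]
  have e1 : v + v⁻¹ = (1 + v ^ 2) / v := by field_simp; ring
  have e2 : v⁻¹ - v = (1 - v ^ 2) / v := by field_simp
  rw [e1, e2]
  field_simp

theorem Zi_eq {ζ : ℂ} (h0 : 0 ≤ ζ.re) (h1 : 0 ≤ ζ.im) (h2 : ζ ≠ 0) (h3 : ‖ζ‖ ≤ 1 / 2) :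
    Zi ζ = (Complex.I - sq ζ) / (Complex.I + sq ζ) := by
  obtain ⟨f1, f2, f3, f4, f5, f6⟩ := sq_facts h0 h1 h2 h3
  obtain ⟨g1, g2, g3, g4, g5⟩ := kzi_facts h0 h1 h2 h3
  have hP := kzi_P h0 h1 h2 h3
  have hne := kzi_exp_ne h2 h3
  rw [Zi, if_neg hne]
  set P : ℂ := (1 + Complex.exp (Complex.I * ζ)) / (1 - Complex.exp (Complex.I * ζ)) with hPd
  set s : ℂ := sq ζ with hs
  have hPs : P = Complex.I * conj s ^ 2 / ((Complex.normSq s : ℝ) : ℂ) ^ 2 := by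
    have h4 : s * conj s = ((Complex.normSq s : ℝ) : ℂ) := Complex.mul_conj s
    have h5 : conj s ≠ 0 := by simpa using g1
    rw [← h4, ← hP]
    field_simp
  have hns : 0 < Complex.normSq s := Complex.normSq_pos.2 g1
  have hPe : P = (((Complex.normSq s ^ 2)⁻¹ : ℝ) : ℂ) * (Complex.I * conj s ^ 2) := by
    rw [hPs]
    push_cast
    rw [div_eq_mul_inv]
    ring
  have hIre : (Complex.I * conj s ^ 2).re = 2 * s.re * s.im := by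
    simp [pow_two, Complex.mul_re, Complex.mul_im]
    ring
  have hIim : (Complex.I * conj s ^ 2).im = s.re ^ 2 - s.im ^ 2 := by
    simp [pow_two, Complex.mul_re, Complex.mul_im]
  have hPre : 0 ≤ P.re := by
    rw [hPe, Complex.re_ofReal_mul, hIre]
    positivity
  have hPim : 0 ≤ P.im := by
    rw [hPe, Complex.im_ofReal_mul, hIim]
    apply mul_nonneg (by positivity)
    nlinarith
  have hP0 : P ≠ 0 := by
    intro h
    rw [h, zero_mul] at hP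
    exact Complex.I_ne_zero hP.symm
  obtain ⟨r1, r2, r3, r4⟩ := KSqAux.root_facts hPre hPim hP0
  set q : ℂ := P ^ (1 / 2 : ℂ) with hq
  set e : ℂ := Complex.exp (Complex.I * (Real.pi / 4)) with he
  have he2 : e ^ 2 = Complex.I := by
    rw [he, ← Complex.exp_nat_mul]
    have : ((2 : ℕ) : ℂ) * (Complex.I * (Real.pi / 4)) = Real.pi / 2 * Complex.I := by
      push_cast; ring
    rw [this, Complex.exp_pi_div_two_mul_I]
  have hee : e = ((Real.sqrt 2 / 2 : ℝ) : ℂ) * (1 + Complex.I) := by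
    rw [he, mul_comm, Complex.exp_mul_I]
    have e1 : (Real.pi / 4 : ℂ) = ((Real.pi / 4 : ℝ) : ℂ) := by push_cast; ring
    rw [e1, ← Complex.ofReal_cos, ← Complex.ofReal_sin, Real.cos_pi_div_four, Real.sin_pi_div_four]
    ring
  have hx2 : (s * e * q) ^ 2 = -1 := by
    have : (s * e * q) ^ 2 = s ^ 2 * e ^ 2 * q ^ 2 := by ring
    rw [this, he2, r4]
    have h6 : s ^ 2 * Complex.I * P = Complex.I * (P * s ^ 2) := by ring
    rw [h6, hP, Complex.I_mul_I]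
  have hxI : (s * e * q - Complex.I) * (s * e * q + Complex.I) = 0 := by
    have : (s * e * q - Complex.I) * (s * e * q + Complex.I) =
        (s * e * q) ^ 2 - Complex.I ^ 2 := by ring
    rw [this, hx2, Complex.I_sq]
    ring
  have him : 0 < (s * e * q).im := by
    have h7 : s * e * q = ((Real.sqrt 2 / 2 : ℝ) : ℂ) * ((1 + Complex.I) * (s * q)) := by
      rw [hee]; ring
    rw [h7, Complex.im_ofReal_mul]
    have h8 : ((1 + Complex.I) * (s * q)).im =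
        q.re * (s.re + s.im) + q.im * (s.re - s.im) := by
      simp [Complex.mul_re, Complex.mul_im]
      ring
    rw [h8]
    have h9 : 0 < Real.sqrt 2 / 2 := by positivity
    apply mul_pos h9
    have h10 : 0 < q.re * (s.re + s.im) := mul_pos r1 (by linarith)
    have h11 : 0 ≤ q.im * (s.re - s.im) := mul_nonneg r2 (by linarith)
    linarith
  have hsI : s * e * q = Complex.I := by
    rcases mul_eq_zero.1 hxI with h | h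
    · exact sub_eq_zero.1 h
    · exfalso
      have h12 : s * e * q = -Complex.I := eq_neg_of_add_eq_zero_left h
      rw [h12, Complex.neg_im, Complex.I_im] at him
      linarith
  have hp : e * q = Complex.I / s := by
    rw [eq_div_iff g1, ← hsI]
    ring
  show (e * q - 1) / (e * q + 1) = (Complex.I - s) / (Complex.I + s)
  rw [hp]
  have h13 : Complex.I / s + 1 = (Complex.I + s) / s := by field_simp
  have h14 : Complex.I / s - 1 = (Complex.I - s) / s := by field_simp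
  rw [h13, h14, div_div_div_cancel_right₀ g1]

theorem Zi_sub_one {ζ : ℂ} (h0 : 0 ≤ ζ.re) (h1 : 0 ≤ ζ.im) (h2 : ζ ≠ 0) (h3 : ‖ζ‖ ≤ 1 / 2) :
    ‖sq ζ‖ ≤ ‖Zi ζ - 1‖ ∧ ‖Zi ζ - 1‖ ≤ 2 * ‖sq ζ‖ := by
  obtain ⟨g1, g2, g3, g4, g5⟩ := kzi_facts h0 h1 h2 h3
  have e : Zi ζ - 1 = -(2 * sq ζ) / (Complex.I + sq ζ) := by
    rw [Zi_eq h0 h1 h2 h3]
    field_simp
    ring
  have e2 : ‖Zi ζ - 1‖ = 2 * ‖sq ζ‖ / ‖Complex.I + sq ζ‖ := by
    rw [e, norm_div, norm_neg, norm_mul]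
    norm_num
  have hp : 0 < ‖Complex.I + sq ζ‖ := by linarith
  have hn : 0 ≤ ‖sq ζ‖ := norm_nonneg _
  rw [e2]
  constructor
  · rw [le_div_iff₀ hp]
    nlinarith
  · rw [div_le_iff₀ hp]
    nlinarith

theorem kzi_zp {ζ : ℂ} (h0 : 0 ≤ ζ.re) (h1 : 0 ≤ ζ.im) (h2 : ζ ≠ 0) (h3 : ‖ζ‖ ≤ 1 / 2) :
    zp (Zi ζ) = 2 * Complex.I * sq ζ * (sq ζ + Complex.I) ^ 2 / (1 + sq ζ ^ 4) := by
  obtain ⟨g1, g2, g3, g4, g5⟩ := kzi_facts h0 h1 h2 h3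
  rw [Zi_eq h0 h1 h2 h3, zp]
  set s : ℂ := sq ζ with hs
  have hI : Complex.I ^ 2 = -1 := Complex.I_sq
  have hI4 : Complex.I ^ 4 = 1 := Complex.I_pow_four
  have e1 : 1 - ((Complex.I - s) / (Complex.I + s)) ^ 2 =
      4 * Complex.I * s / (Complex.I + s) ^ 2 := by
    field_simp
    ring
  have e2 : ((Complex.I - s) / (Complex.I + s)) ^ 4 + 6 * ((Complex.I - s) / (Complex.I + s)) ^ 2 + 1
      = 8 * (1 + s ^ 4) / (Complex.I + s) ^ 4 := by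
    field_simp
    linear_combination (8 * Complex.I ^ 2 + 0 * s ^ 2 - 8) * hI
  rw [e1, e2]
  have e3 : s + Complex.I = Complex.I + s := add_comm _ _
  rw [e3]
  field_simp
  ring

theorem kzi_mm {ζ : ℂ} (h0 : 0 ≤ ζ.re) (h1 : 0 ≤ ζ.im) (h2 : ζ ≠ 0) (h3 : ‖ζ‖ ≤ 1 / 2) :
    mm ζ = 4 * ‖sq ζ‖ ^ 2 * ‖sq ζ + Complex.I‖ ^ 4 / ‖1 + sq ζ ^ 4‖ ^ 2 := by
  rw [mm, kzi_zp h0 h1 h2 h3, norm_div, norm_mul, norm_mul, norm_mul, norm_pow, Complex.norm_I]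
  have : ‖(2 : ℂ)‖ = 2 := by norm_num
  rw [this, div_pow]
  congr 1
  ring

theorem mm_eq {ζ : ℂ} (h0 : 0 ≤ ζ.re) (h1 : 0 ≤ ζ.im) (h2 : ζ ≠ 0) (h3 : ‖ζ‖ ≤ 1 / 2) :
    (mm ζ : ℂ) * ((1 + sq ζ ^ 4) / (4 * sq ζ)) =
      conj (sq ζ) * ((‖sq ζ + Complex.I‖ ^ 4 : ℝ) : ℂ) / conj (1 + sq ζ ^ 4) := by
  obtain ⟨g1, g2, g3, g4, g5⟩ := kzi_facts h0 h1 h2 h3
  rw [kzi_mm h0 h1 h2 h3]
  have h5 : conj (1 + sq ζ ^ 4) ≠ 0 := by
    intro h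
    exact g3 ((map_eq_zero _).1 h)
  have e1 : ((‖sq ζ‖ ^ 2 : ℝ) : ℂ) = sq ζ * conj (sq ζ) := by
    rw [Complex.mul_conj, Complex.normSq_eq_norm_sq]
  have e2 : ((‖1 + sq ζ ^ 4‖ ^ 2 : ℝ) : ℂ) = (1 + sq ζ ^ 4) * conj (1 + sq ζ ^ 4) := by
    rw [Complex.mul_conj, Complex.normSq_eq_norm_sq]
  have e3 : ((4 * ‖sq ζ‖ ^ 2 * ‖sq ζ + Complex.I‖ ^ 4 / ‖1 + sq ζ ^ 4‖ ^ 2 : ℝ) : ℂ) =
      4 * ((‖sq ζ‖ ^ 2 : ℝ) : ℂ) * ((‖sq ζ + Complex.I‖ ^ 4 : ℝ) : ℂ) /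
        ((‖1 + sq ζ ^ 4‖ ^ 2 : ℝ) : ℂ) := by
    push_cast
    ring
  rw [e3, e1, e2]
  field_simp

theorem mm_pos {ζ : ℂ} (h0 : 0 ≤ ζ.re) (h1 : 0 ≤ ζ.im) (h2 : ζ ≠ 0) (h3 : ‖ζ‖ ≤ 1 / 2) :
    0 < mm ζ := by
  obtain ⟨g1, g2, g3, g4, g5⟩ := kzi_facts h0 h1 h2 h3
  rw [kzi_mm h0 h1 h2 h3]
  have h4 : 0 < ‖sq ζ‖ := norm_pos_iff.2 g1
  have h5 : 0 < ‖sq ζ + Complex.I‖ := norm_pos_iff.2 (by rwa [add_comm])
  have h6 : 0 < ‖1 + sq ζ ^ 4‖ := norm_pos_iff.2 g3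
  positivity

end Pool.Agent.EAC.PartK
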