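import Pool.Agent.EAC.KNear
import Pool.Agent.EAC.KII
import Pool.Agent.EAC.KZi
import Pool.Agent.EAC.KLam

/-!
# EAC-K17: the equation of the trajectories in the coordinate `s`

`W_error`: from `near_est`, `outer_est`, `II_outer`: `e = W + i I(‖ζ‖)` satisfies `‖e‖ ≤ C 2h/(h+‖ζ‖)` for `0 < ‖ζ‖ ≤ 1`.

`Vel_re_diag`: `Vel = mm (-Lam + i conj W)`, `re = mm (-Lam + im W)`, `W = -iI + e`: `im W ≤ ‖e‖ ≤ 2C`, `Lam ≥ lam`, `mm ≥ 0`
(`mm` is a square).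

`s_est`: `s = sq ζ`, `q = ‖s+i‖⁴/conj (1+s⁴)`, by `mm_eq` `((1+s⁴)/(4s)) Vel = conj s q (-Lam + i conj W) =
- conj s q (Lam + I(‖ζ‖) - i conj e)`. Hence `-re(..)/s1 = Lam + I(‖ζ‖) + (1/s1) re(conj s (q-1)(Lam+I(‖ζ‖))) - (1/s1) re (conj s q i conj e)`,
`‖s‖ ≤ √2 s1`, `‖q-1‖ ≤ 20‖s‖` for `‖s‖ ≤ 1/2`, so
`|-re(..)/s1 - (Lam + I(‖ζ‖))| ≤ √2 (20‖s‖ (Lam + I(‖ζ‖)) + 11 ‖e‖)`.
* `‖ζ‖ ≥ (5/3)‖s‖² ≥ s1²`: `‖e‖ ≤ C 2h/(h+s1²)`.
* `|I(‖ζ‖) - I(2s1²)| ≤ C 2h/(h+s1²)`: `(5/3) s1² ≤ ‖ζ‖ ≤ 5 s1²`. If `min(‖ζ‖, 2s1²) ≤ h` use `II_lip` (difference `≤ C log 3`,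
  both arguments `≤ 1/2`) and `2h/(h+s1²) ≥ 1`; otherwise `II_outer` for both (`≤ C h/s1²`, and `s1² ≥ h/2` gives
  `2h/(h+s1²) ≥ (2/3) h/s1²`).
* `20‖s‖(Lam + I(‖ζ‖)) ≤ 30 s1 (lam + 2 + C (1 + log (1/s1²)))` (`Lam_bounds`, `II_log` if `‖ζ‖ ≤ h`, `II_outer` otherwise) `≤ C' √s1` for
  `s1 ≤ s0(lam) = min(1/4, 1/(30 (lam+2+C))²)`, since `s1 log (1/s1) ≤ √s1` (`Real.log x ≤ √x`-type bound).
-/

set_option autoImplicit false

noncomputable section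

namespace Pool.Agent.EAC.PartK

open MeasureTheory Set Filter Topology Metric
open scoped ComplexConjugate

theorem W_error : ∃ C > 0, ∀ h, 0 < h → h ≤ 1 / 4 → ∀ f, Dens h f → ∀ ζ ∈ S h, ζ ≠ 0 →
    ‖ζ‖ ≤ 1 → ‖W h f ζ + Complex.I * (II h f ‖ζ‖ : ℂ)‖ ≤ C * (2 * h / (h + ‖ζ‖)) := by
  obtain ⟨C1, hC1, H1⟩ := near_est
  obtain ⟨C2, hC2, H2⟩ := outer_est
  obtain ⟨C3, hC3, H3⟩ := II_outer
  refine ⟨C1 + C2 + C3, by positivity, ?_⟩
  intro h hh h4 f hf ζ hζ h0 h1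
  have hz : 0 < ‖ζ‖ := norm_pos_iff.2 h0
  by_cases hc : ‖ζ‖ ≤ h
  · have key : 1 ≤ 2 * h / (h + ‖ζ‖) := by
      rw [le_div_iff₀ (by positivity)]
      linarith
    calc ‖W h f ζ + Complex.I * (II h f ‖ζ‖ : ℂ)‖ ≤ C1 := H1 h hh h4 f hf ζ hζ h0 hc
      _ ≤ (C1 + C2 + C3) * 1 := by linarith
      _ ≤ (C1 + C2 + C3) * (2 * h / (h + ‖ζ‖)) :=
          mul_le_mul_of_nonneg_left key (by positivity)
  · have hc' : h ≤ ‖ζ‖ := (not_le.1 hc).le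
    have e1 := H2 h hh h4 f hf ζ hζ hc' h1
    have e2 := H3 h hh h4 f hf ‖ζ‖ hc' h1
    have e3 := II_nonneg hh hf ‖ζ‖
    have key : h / ‖ζ‖ ≤ 2 * h / (h + ‖ζ‖) := by
      rw [div_le_div_iff₀ hz (by positivity)]
      nlinarith
    have e4 : ‖Complex.I * (II h f ‖ζ‖ : ℂ)‖ = II h f ‖ζ‖ := by
      rw [norm_mul, Complex.norm_I, one_mul, Complex.norm_real, Real.norm_of_nonneg e3]
    calc ‖W h f ζ + Complex.I * (II h f ‖ζ‖ : ℂ)‖
        ≤ ‖W h f ζ‖ + ‖Complex.I * (II h f ‖ζ‖ : ℂ)‖ := norm_add_le _ _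
      _ ≤ C2 * (h / ‖ζ‖) + C3 * (h / ‖ζ‖) := by rw [e4]; linarith
      _ = (C2 + C3) * (h / ‖ζ‖) := by ring
      _ ≤ (C2 + C3) * (2 * h / (h + ‖ζ‖)) := mul_le_mul_of_nonneg_left key (by positivity)
      _ ≤ (C1 + C2 + C3) * (2 * h / (h + ‖ζ‖)) :=
          mul_le_mul_of_nonneg_right (by linarith) (by positivity)

theorem Vel_re_diag : ∃ C2 > 0, ∀ h, 0 < h → h ≤ 1 / 4 → ∀ f, Dens h f → ∀ lam > 0, ∀ ζ ∈ S h,
    ζ ≠ 0 → ‖ζ‖ ≤ 1 → (Vel h lam mm f ζ).re ≤ mm ζ * (C2 - lam) := by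
  obtain ⟨C, hC, H⟩ := W_error
  refine ⟨2 * C, by positivity, ?_⟩
  intro h hh h4 f hf lam hl ζ hζ h0 h1
  have he := H h hh h4 f hf ζ hζ h0 h1
  have hz : 0 < ‖ζ‖ := norm_pos_iff.2 h0
  have h2 : 2 * h / (h + ‖ζ‖) ≤ 2 := by
    rw [div_le_iff₀ (by positivity)]
    nlinarith
  have h3 : ‖W h f ζ + Complex.I * (II h f ‖ζ‖ : ℂ)‖ ≤ 2 * C := by
    refine he.trans ?_
    nlinarith
  have h5 : (W h f ζ).im + II h f ‖ζ‖ ≤ 2 * C := by
    have h6 : (W h f ζ + Complex.I * (II h f ‖ζ‖ : ℂ)).im = (W h f ζ).im + II h f ‖ζ‖ := by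
      simp
    rw [← h6]
    exact ((le_abs_self _).trans (Complex.abs_im_le_norm _)).trans h3
  have h7 := II_nonneg hh hf ‖ζ‖
  have h8 := (Lam_bounds (lam := lam) hh hf).1
  have h9 : (Vel h lam mm f ζ).re = mm ζ * (-(Lam h lam f) + (W h f ζ).im) := by
    unfold Vel
    rw [Complex.re_ofReal_mul]
    congr 1
    simp
  have h10 : 0 ≤ mm ζ := by unfold mm; positivity
  rw [h9]
  exact mul_le_mul_of_nonneg_left (by linarith) h10

theorem q_bound {s : ℂ} (hs : ‖s‖ ≤ 9 / 25) :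
    ‖((‖s + Complex.I‖ ^ 4 : ℝ) : ℂ) / conj (1 + s ^ 4) - 1‖ ≤ 8 * ‖s‖ := by
  set x := ‖s‖ with hx
  set n := ‖s + Complex.I‖ with hn
  have hx0 : 0 ≤ x := norm_nonneg _
  have hn1 : n ≤ 1 + x := by
    have := norm_add_le s Complex.I
    rw [Complex.norm_I] at this
    linarith
  have hn2 : 1 - x ≤ n := by
    have := norm_sub_le (s + Complex.I) s
    rw [add_sub_cancel_left, Complex.norm_I] at this
    linarith
  have hn0 : 0 ≤ n := norm_nonneg _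
  have hx1 : 0 ≤ 1 - x := by linarith
  have hup : n ^ 4 ≤ (1 + x) ^ 4 := pow_le_pow_left₀ hn0 hn1 4
  have hlo : (1 - x) ^ 4 ≤ n ^ 4 := pow_le_pow_left₀ hx1 hn2 4
  have hx2 : x ^ 2 ≤ 9 / 25 * x := by nlinarith
  have hx3 : x ^ 3 ≤ 81 / 625 * x := by nlinarith
  have hx4 : x ^ 4 ≤ 729 / 15625 * x := by nlinarith
  have hx3' : 0 ≤ x ^ 3 := by positivity
  have hx4' : 0 ≤ x ^ 4 := by positivity
  have habs : |n ^ 4 - 1| ≤ 34 / 5 * x := by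
    rw [abs_le]
    constructor
    · nlinarith
    · nlinarith
  have hd1 : ‖conj (1 + s ^ 4) - 1‖ = x ^ 4 := by
    have : conj (1 + s ^ 4) - 1 = conj (s ^ 4) := by simp
    rw [this, Complex.norm_conj, norm_pow]
  have hd2 : 24 / 25 ≤ ‖conj (1 + s ^ 4)‖ := by
    have h1 : ‖(1 : ℂ)‖ ≤ ‖conj (1 + s ^ 4)‖ + ‖conj (1 + s ^ 4) - 1‖ := by
      have := norm_sub_le (conj (1 + s ^ 4)) (conj (1 + s ^ 4) - 1)
      rwa [sub_sub_cancel] at this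
    rw [norm_one, hd1] at h1
    nlinarith
  have hdne : conj (1 + s ^ 4) ≠ 0 := by
    intro h
    rw [h, norm_zero] at hd2
    linarith
  have e1 : ((n ^ 4 : ℝ) : ℂ) / conj (1 + s ^ 4) - 1
      = (((n ^ 4 - 1 : ℝ) : ℂ) - (conj (1 + s ^ 4) - 1)) / conj (1 + s ^ 4) := by
    field_simp
    push_cast
    ring
  rw [e1, norm_div, div_le_iff₀ (by linarith)]
  have h2 : ‖((n ^ 4 - 1 : ℝ) : ℂ) - (conj (1 + s ^ 4) - 1)‖ ≤ |n ^ 4 - 1| + x ^ 4 := by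
    refine (norm_sub_le _ _).trans ?_
    rw [hd1, Complex.norm_real, Real.norm_eq_abs]
  nlinarith

theorem s_log {σ : ℝ} (h0 : 0 < σ) : σ * Real.log (1 / σ) ≤ 2 * √σ := by
  have h1 : 0 < √σ := Real.sqrt_pos.2 h0
  have h2 : √σ * √σ = σ := Real.mul_self_sqrt h0.le
  have h3 : Real.log (1 / σ) = 2 * Real.log (1 / √σ) := by
    rw [one_div, one_div, Real.log_inv, Real.log_inv]
    have : Real.log σ = Real.log (√σ) + Real.log (√σ) := by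
      rw [← Real.log_mul h1.ne' h1.ne', h2]
    rw [this]
    ring
  have h4 : Real.log (1 / √σ) ≤ 1 / √σ := by
    have := Real.log_le_sub_one_of_pos (show 0 < 1 / √σ by positivity)
    linarith
  rw [h3]
  calc σ * (2 * Real.log (1 / √σ)) ≤ σ * (2 * (1 / √σ)) := by
        apply mul_le_mul_of_nonneg_left _ h0.le
        linarith
    _ = 2 * (σ / √σ) := by ring
    _ = 2 * √σ := by rw [Real.div_sqrt]

/-- comparison of the strain at two comparable radii -/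
theorem II_comp : ∃ C > 0, ∀ h, 0 < h → h ≤ 1 / 4 → ∀ f, Dens h f → ∀ σ r r', 0 < σ → σ ≤ r →
    σ ≤ r' → r ≤ r' → r' ≤ 3 * r → r' ≤ 1 / 2 →
    |II h f r - II h f r'| ≤ C * (2 * h / (h + σ)) := by
  obtain ⟨Cl, hCl, Hl⟩ := II_lip
  obtain ⟨Co, hCo, Ho⟩ := II_outer
  refine ⟨2 * Cl + Co, by positivity, ?_⟩
  intro h hh h4 f hf σ r r' hσ hr hr' hrr h3 h12
  have hr0 : 0 < r := hσ.trans_le hr
  have hr0' : 0 < r' := hσ.trans_le hr'
  have ha := II_antitone hh h4 hf hr0 hrr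
  have hn := II_nonneg hh hf r'
  rw [abs_of_nonneg (by linarith)]
  by_cases hc : r ≤ h
  · have key : 1 ≤ 2 * h / (h + σ) := by
      rw [le_div_iff₀ (by positivity)]
      linarith
    have hl := Hl h hh h4 f hf r r' hr0 hrr h12
    have hlog : Real.log (r' / r) ≤ 2 := by
      have h5 : r' / r ≤ 3 := by rw [div_le_iff₀ hr0]; exact h3
      have h6 := Real.log_le_sub_one_of_pos (show 0 < r' / r by positivity)
      linarith
    calc II h f r - II h f r' ≤ Cl * Real.log (r' / r) := hl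
      _ ≤ Cl * 2 := mul_le_mul_of_nonneg_left hlog hCl.le
      _ ≤ (2 * Cl + Co) * 1 := by linarith
      _ ≤ (2 * Cl + Co) * (2 * h / (h + σ)) := mul_le_mul_of_nonneg_left key (by positivity)
  · have hc' : h ≤ r := (not_le.1 hc).le
    have ho := Ho h hh h4 f hf r hc' (by linarith)
    have key : h / r ≤ 2 * h / (h + σ) := by
      rw [div_le_div_iff₀ hr0 (by positivity)]
      nlinarith
    calc II h f r - II h f r' ≤ Co * (h / r) := by linarith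
      _ ≤ Co * (2 * h / (h + σ)) := mul_le_mul_of_nonneg_left key hCo.le
      _ ≤ (2 * Cl + Co) * (2 * h / (h + σ)) :=
          mul_le_mul_of_nonneg_right (by linarith) (by positivity)

/-- logarithmic bound of the strain -/
theorem II_bound : ∃ C > 0, ∀ h, 0 < h → h ≤ 1 / 4 → ∀ f, Dens h f → ∀ s1 r, 0 < s1 → s1 ≤ 1 →
    s1 ^ 2 ≤ r → r ≤ 1 → II h f r ≤ C * (1 + 2 * Real.log (1 / s1)) := by
  obtain ⟨Cg, hCg, Hg⟩ := II_log
  obtain ⟨Co, hCo, Ho⟩ := II_outer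
  refine ⟨Cg + Co, by positivity, ?_⟩
  intro h hh h4 f hf s1 r hs hs1 hr hr1
  have hr0 : 0 < r := (by positivity : 0 < s1 ^ 2).trans_le hr
  have hL : 0 ≤ Real.log (1 / s1) := by
    apply Real.log_nonneg
    rw [le_div_iff₀ hs]
    linarith
  by_cases hc : r ≤ h
  · have h5 := Hg h hh h4 f hf r hr0 hc
    have h6 : Real.log (h / r) ≤ 2 * Real.log (1 / s1) := by
      have h7 : 2 * Real.log (1 / s1) = Real.log ((1 / s1) ^ 2) := by
        rw [Real.log_pow]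
        norm_num
      rw [h7]
      apply Real.log_le_log (by positivity)
      rw [div_le_iff₀ hr0]
      have h8 : (1 / s1) ^ 2 * s1 ^ 2 = 1 := by field_simp
      have h9 : (1 / s1) ^ 2 * s1 ^ 2 ≤ (1 / s1) ^ 2 * r :=
        mul_le_mul_of_nonneg_left hr (by positivity)
      linarith
    calc II h f r ≤ Cg * (1 + Real.log (h / r)) := h5
      _ ≤ Cg * (1 + 2 * Real.log (1 / s1)) := mul_le_mul_of_nonneg_left (by linarith) hCg.le
      _ ≤ (Cg + Co) * (1 + 2 * Real.log (1 / s1)) :=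
          mul_le_mul_of_nonneg_right (by linarith) (by positivity)
  · have hc' : h ≤ r := (not_le.1 hc).le
    have ho := Ho h hh h4 f hf r hc' hr1
    have h5 : h / r ≤ 1 := by rw [div_le_one hr0]; exact hc'
    calc II h f r ≤ Co * (h / r) := ho
      _ ≤ Co * 1 := mul_le_mul_of_nonneg_left h5 hCo.le
      _ ≤ (Cg + Co) * (1 + 2 * Real.log (1 / s1)) := by nlinarith

theorem aux_mul {a b c x F C : ℝ} (_ha : 0 ≤ a) (hb : 0 ≤ b) (hc : 0 ≤ c) (hx : 0 ≤ x)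
    (h1 : a ≤ 36 / 25 * x) (h2 : b ≤ 4) (h3 : c ≤ C * F) : a * b * c ≤ 6 * C * F * x := by
  have h4 : a * b ≤ (36 / 25 * x) * 4 := mul_le_mul h1 h2 hb (by positivity)
  have h5 : a * b * c ≤ ((36 / 25 * x) * 4) * (C * F) :=
    mul_le_mul h4 h3 hc (by positivity)
  have h6 : 0 ≤ x * (C * F) := mul_nonneg hx (hc.trans h3)
  nlinarith

theorem aux_sum {A B D F G X Y Z : ℝ} (hA : 0 ≤ A) (hB : 0 ≤ B) (hD : 0 ≤ D) (hF : 0 ≤ F)
    (hG : 0 ≤ G) (h1 : |X| ≤ D * G) (h2 : |Y| ≤ A * F) (h3 : |Z| ≤ B * F) :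
    |X - Y + Z| ≤ (A + B + D) * (F + G) := by
  have a1 : 0 ≤ (A + B) * G := mul_nonneg (add_nonneg hA hB) hG
  have a2 : 0 ≤ D * F := mul_nonneg hD hF
  have a3 := abs_le.1 h1
  have a4 := abs_le.1 h2
  have a5 := abs_le.1 h3
  rw [abs_le]
  constructor
  · nlinarith
  · nlinarith

set_option maxHeartbeats 1000000 in
theorem s_est : ∃ C1 > 0, ∀ lam > 0, ∃ s0 > 0, s0 ≤ 1 / 4 ∧ ∀ h, 0 < h → h ≤ 1 / 4 → ∀ f, Dens h f →
    ∀ ζ ∈ S h, ζ ≠ 0 → 0 ≤ ζ.re → ‖ζ‖ ≤ 1 / 2 → (sq ζ).re ≤ s0 →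
      |-(((1 + sq ζ ^ 4) / (4 * sq ζ)) * Vel h lam mm f ζ).re / (sq ζ).re -
          (Lam h lam f + II h f (2 * (sq ζ).re ^ 2))| ≤
        C1 * (2 * h / (h + (sq ζ).re ^ 2) + √((sq ζ).re)) := by
  obtain ⟨Ce, hCe, He⟩ := W_error
  obtain ⟨Cc, hCc, Hc⟩ := II_comp
  obtain ⟨Cb, hCb, Hb⟩ := II_bound
  refine ⟨6 * Ce + Cc + 18 * (1 + 4 * Cb), by positivity, ?_⟩
  intro lam hlam
  refine ⟨min (1 / 4) (1 / (lam + 2 + Cb) ^ 2), by positivity, min_le_left _ _, ?_⟩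
  intro h hh h4 f hf ζ hζ h0 hre hz hs0
  obtain ⟨p1, p2, p3, p4, p5, p6⟩ := sq_facts hre hζ.1 h0 hz
  have hz0 : 0 < ‖ζ‖ := norm_pos_iff.2 h0
  have hmm := mm_eq hre hζ.1 h0 hz
  set s := sq ζ with hs
  set s1 := s.re with hs1
  have hs14 : s1 ≤ 1 / 4 := hs0.trans (min_le_left _ _)
  have hs1l : s1 ≤ 1 / (lam + 2 + Cb) ^ 2 := hs0.trans (min_le_right _ _)
  have hnorm : ‖s‖ ^ 2 = s1 ^ 2 + s.im ^ 2 := by
    rw [← Complex.normSq_eq_norm_sq, Complex.normSq_apply]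
    ring
  have hn2 : ‖s‖ ^ 2 ≤ 2 * s1 ^ 2 := by rw [hnorm]; nlinarith
  have hn1 : ‖s‖ ≤ 36 / 25 * s1 := by
    apply le_of_sq_le_sq _ (by positivity)
    nlinarith [sq_nonneg s1]
  have hn3 : ‖s‖ ≤ 9 / 25 := by linarith
  have hn4 : s1 ^ 2 ≤ ‖s‖ ^ 2 := by rw [hnorm]; nlinarith [sq_nonneg s.im]
  -- the quotient
  have hq := q_bound hn3
  set q : ℂ := ((‖s + Complex.I‖ ^ 4 : ℝ) : ℂ) / conj (1 + s ^ 4) with hqd
  have hqn : ‖q‖ ≤ 4 := by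
    have h1 := norm_add_le (q - 1) 1
    rw [sub_add_cancel, norm_one] at h1
    linarith
  set e : ℂ := W h f ζ + Complex.I * (II h f ‖ζ‖ : ℂ) with hed
  have he : ‖e‖ ≤ Ce * (2 * h / (h + ‖ζ‖)) := He h hh h4 f hf ζ hζ h0 (by linarith)
  set Λ := Lam h lam f with hΛ
  obtain ⟨hΛ1, hΛ2⟩ := Lam_bounds (lam := lam) hh hf
  set J := II h f ‖ζ‖ with hJ
  have hJ0 : 0 ≤ J := II_nonneg hh hf _
  have hX : ((1 + s ^ 4) / (4 * s)) * Vel h lam mm f ζ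
      = -(conj s * ((Λ + J : ℝ) : ℂ)) - conj s * (q - 1) * ((Λ + J : ℝ) : ℂ)
        + conj s * q * (Complex.I * conj e) := by
    have hV : Vel h lam mm f ζ = (mm ζ : ℂ) * (-((Λ + J : ℝ) : ℂ) + Complex.I * conj e) := by
      unfold Vel
      rw [hed, map_add, map_mul, Complex.conj_I, Complex.conj_ofReal]
      have : Complex.I * (conj (W h f ζ) + -Complex.I * (J : ℂ))
          = Complex.I * conj (W h f ζ) + (J : ℂ) := by
        have hI := Complex.I_mul_I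
        linear_combination (-(J : ℂ)) * hI
      rw [this, ← hΛ]
      push_cast
      ring
    rw [hV]
    have h5 : ((1 + s ^ 4) / (4 * s)) * ((mm ζ : ℂ) * (-((Λ + J : ℝ) : ℂ) + Complex.I * conj e))
        = ((mm ζ : ℂ) * ((1 + s ^ 4) / (4 * s))) * (-((Λ + J : ℝ) : ℂ) + Complex.I * conj e) := by
      ring
    rw [h5, hmm, mul_div_assoc, ← hqd]
    ring
  have hXre : (((1 + s ^ 4) / (4 * s)) * Vel h lam mm f ζ).re
      = -(s1 * (Λ + J)) - (conj s * (q - 1)).re * (Λ + J)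
        + (conj s * q * (Complex.I * conj e)).re := by
    rw [hX, Complex.add_re, Complex.sub_re, Complex.neg_re, Complex.re_mul_ofReal,
      Complex.re_mul_ofReal, Complex.conj_re]
  have hdec : -(((1 + s ^ 4) / (4 * s)) * Vel h lam mm f ζ).re / s1 -
          (Λ + II h f (2 * s1 ^ 2))
      = (conj s * (q - 1)).re * (Λ + J) / s1 - (conj s * q * (Complex.I * conj e)).re / s1
        + (J - II h f (2 * s1 ^ 2)) := by
    rw [hXre]
    field_simp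
    ring
  have hcs : ‖conj s‖ = ‖s‖ := Complex.norm_conj s
  -- first term
  have hΛJ : 0 ≤ Λ + J := by linarith
  have hz1 : s1 ^ 2 ≤ ‖ζ‖ := by nlinarith
  have hJb : J ≤ Cb * (1 + 2 * Real.log (1 / s1)) :=
    Hb h hh h4 f hf s1 ‖ζ‖ p1 (by linarith) hz1 (by linarith)
  have hsq : √s1 * √s1 = s1 := Real.mul_self_sqrt p1.le
  have hsq0 : 0 < √s1 := Real.sqrt_pos.2 p1
  have hlogs := s_log p1
  have hlin : s1 * (lam + 2 + Cb) ≤ √s1 := by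
    have hK : 0 < lam + 2 + Cb := by positivity
    have h1 : √s1 * (lam + 2 + Cb) ≤ 1 := by
      have h2 : √s1 ≤ 1 / (lam + 2 + Cb) := by
        rw [Real.sqrt_le_left (by positivity)]
        calc s1 ≤ 1 / (lam + 2 + Cb) ^ 2 := hs1l
          _ = (1 / (lam + 2 + Cb)) ^ 2 := by rw [div_pow, one_pow]
      rwa [le_div_iff₀ hK] at h2
    calc s1 * (lam + 2 + Cb) = √s1 * (√s1 * (lam + 2 + Cb)) := by rw [← mul_assoc, hsq]
      _ ≤ √s1 * 1 := mul_le_mul_of_nonneg_left h1 hsq0.le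
      _ = √s1 := mul_one _
  have hfirst : s1 * (Λ + J) ≤ (1 + 4 * Cb) * √s1 := by
    have h1 : Λ + J ≤ (lam + 2 + Cb) + 2 * Cb * Real.log (1 / s1) := by linarith
    calc s1 * (Λ + J) ≤ s1 * ((lam + 2 + Cb) + 2 * Cb * Real.log (1 / s1)) :=
          mul_le_mul_of_nonneg_left h1 p1.le
      _ = s1 * (lam + 2 + Cb) + 2 * Cb * (s1 * Real.log (1 / s1)) := by ring
      _ ≤ √s1 + 2 * Cb * (2 * √s1) :=
          add_le_add hlin (mul_le_mul_of_nonneg_left hlogs (by positivity))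
      _ = (1 + 4 * Cb) * √s1 := by ring
  have t1 : |(conj s * (q - 1)).re * (Λ + J) / s1| ≤ 18 * (1 + 4 * Cb) * √s1 := by
    rw [abs_div, abs_mul, abs_of_nonneg hΛJ, abs_of_pos p1, div_le_iff₀ p1]
    have h1 : |(conj s * (q - 1)).re| ≤ 18 * s1 * s1 := by
      refine (Complex.abs_re_le_norm _).trans ?_
      rw [norm_mul, hcs]
      calc ‖s‖ * ‖q - 1‖ ≤ ‖s‖ * (8 * ‖s‖) := mul_le_mul_of_nonneg_left hq (norm_nonneg _)
        _ = 8 * ‖s‖ ^ 2 := by ring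
        _ ≤ 8 * (2 * s1 ^ 2) := by linarith
        _ ≤ 18 * s1 * s1 := by nlinarith
    calc |(conj s * (q - 1)).re| * (Λ + J) ≤ (18 * s1 * s1) * (Λ + J) :=
          mul_le_mul_of_nonneg_right h1 hΛJ
      _ = 18 * s1 * (s1 * (Λ + J)) := by ring
      _ ≤ 18 * s1 * ((1 + 4 * Cb) * √s1) := mul_le_mul_of_nonneg_left hfirst (by positivity)
      _ = 18 * (1 + 4 * Cb) * √s1 * s1 := by ring
  -- second term
  have hfr : 2 * h / (h + ‖ζ‖) ≤ 2 * h / (h + s1 ^ 2) :=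
    div_le_div_of_nonneg_left (by positivity) (by positivity) (by linarith)
  have t2 : |(conj s * q * (Complex.I * conj e)).re / s1| ≤ 6 * Ce * (2 * h / (h + s1 ^ 2)) := by
    rw [abs_div, abs_of_pos p1, div_le_iff₀ p1]
    refine (Complex.abs_re_le_norm _).trans ?_
    rw [norm_mul, norm_mul, norm_mul, hcs, Complex.norm_I, one_mul, Complex.norm_conj]
    have h1 : ‖e‖ ≤ Ce * (2 * h / (h + s1 ^ 2)) :=
      he.trans (mul_le_mul_of_nonneg_left hfr hCe.le)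
    exact aux_mul (norm_nonneg _) (norm_nonneg _) (norm_nonneg _) p1.le hn1 hqn h1
  -- third term
  have t3 : |J - II h f (2 * s1 ^ 2)| ≤ Cc * (2 * h / (h + s1 ^ 2)) := by
    have hs12 : 0 < s1 ^ 2 := by positivity
    have hlow : 5 / 3 * s1 ^ 2 ≤ ‖ζ‖ := by nlinarith
    have hupp : ‖ζ‖ ≤ 5 * s1 ^ 2 := by nlinarith
    have hsm : 2 * s1 ^ 2 ≤ 1 / 2 := by nlinarith
    rcases le_total ‖ζ‖ (2 * s1 ^ 2) with hle | hle
    · exact Hc h hh h4 f hf (s1 ^ 2) ‖ζ‖ (2 * s1 ^ 2) hs12 hz1 (by linarith) hle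
        (by linarith) hsm
    · rw [abs_sub_comm]
      exact Hc h hh h4 f hf (s1 ^ 2) (2 * s1 ^ 2) ‖ζ‖ hs12 (by linarith) hz1 hle
        (by linarith) hz
  rw [hdec]
  have hF : 0 ≤ 2 * h / (h + s1 ^ 2) := by positivity
  exact aux_sum (by positivity) hCc.le (by positivity) hF hsq0.le t1 t2 t3

end Pool.Agent.EAC.PartK
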