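import Pool.Agent.EAC.KSinh

/-!
# EAC-K10: `e^{-|X|}/|sin|` is integrable on the strip `S 1`

`‖sin w‖² = sin² X + sinh² Y ≥ 2 |sin X| |Y|`, so `1/‖sin w‖ ≤ |sin X|^{-1/2} |Y|^{-1/2}` (`norm_sin_sq`). The majorant
`e^{-|X|} |sin X|^{-1/2} Y^{-1/2}` on `ℝ × [0,1]` is a product (`Integrable.mul_prod`, `Complex.measurableEquivRealProd`,
`Complex.volume_preserving_equiv_real_prod`). One dimensional integrability of `e^{-|X|} |sin X|^{-1/2}`: on
`[kπ, (k+1)π]` the integral is `≤ e^{-kπ} ∫_0^π |sin|^{-1/2}` (`|sin X| ≥ (2/π) min(X, π-X)`), sum over `k`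
(e.g. `integrableOn_Ioi_of_intervalIntegral_norm_bounded`, or `integrable_of_summable_norm...`), even function.
-/

set_option autoImplicit false

noncomputable section

namespace Pool.Agent.EAC.PartK

open MeasureTheory Set Filter Topology Metric

/-- `|sin|^{-1/2}` is integrable on `(0, π]` -/
theorem far_int0 :
    IntegrableOn (fun x : ℝ => |Real.sin x| ^ (-(1 / 2) : ℝ)) (Ioc 0 Real.pi) := by
  have hpi := Real.pi_pos
  have h1 : IntervalIntegrable (fun x : ℝ => x ^ (-(1 / 2) : ℝ)) volume 0 Real.pi :=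
    intervalIntegral.intervalIntegrable_rpow' (by norm_num)
  have h2 : IntervalIntegrable (fun x : ℝ => (Real.pi - x) ^ (-(1 / 2) : ℝ)) volume 0 Real.pi := by
    have := (h1.comp_sub_left Real.pi).symm
    simpa using this
  have h3 := ((h1.add h2).const_mul ((2 / Real.pi) ^ (-(1 / 2) : ℝ)))
  rw [intervalIntegrable_iff_integrableOn_Ioc_of_le hpi.le] at h3
  refine Integrable.mono' h3 ?_ ?_
  · exact (Real.measurable_sin.abs.pow_const _).aestronglyMeasurable
  · refine (ae_restrict_iff' measurableSet_Ioc).2 (Eventually.of_forall ?_)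
    rintro x ⟨hx0, hx1⟩
    have hc : 0 < 2 / Real.pi := by positivity
    have hnn : 0 ≤ |Real.sin x| ^ (-(1 / 2) : ℝ) := Real.rpow_nonneg (abs_nonneg _) _
    rw [Real.norm_of_nonneg hnn]
    have a1 : 0 ≤ x ^ (-(1 / 2) : ℝ) := Real.rpow_nonneg hx0.le _
    have a2 : 0 ≤ (Real.pi - x) ^ (-(1 / 2) : ℝ) := Real.rpow_nonneg (by linarith) _
    have a3 : 0 ≤ (2 / Real.pi) ^ (-(1 / 2) : ℝ) := Real.rpow_nonneg hc.le _
    change |Real.sin x| ^ (-(1 / 2) : ℝ) ≤
      (2 / Real.pi) ^ (-(1 / 2) : ℝ) * (x ^ (-(1 / 2) : ℝ) + (Real.pi - x) ^ (-(1 / 2) : ℝ))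
    have hsn : 0 ≤ Real.sin x := Real.sin_nonneg_of_nonneg_of_le_pi hx0.le hx1
    rw [abs_of_nonneg hsn, mul_add]
    rcases le_total x (Real.pi / 2) with h | h
    · have hb : 2 / Real.pi * x ≤ Real.sin x := Real.mul_le_sin hx0.le h
      have hb0 : 0 < 2 / Real.pi * x := by positivity
      have := Real.rpow_le_rpow_of_nonpos hb0 hb (z := -(1 / 2)) (by norm_num)
      rw [Real.mul_rpow hc.le hx0.le] at this
      have := mul_nonneg a3 a2
      linarith
    · rcases hx1.lt_or_eq with hx1 | hx1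
      · have hb : 2 / Real.pi * (Real.pi - x) ≤ Real.sin (Real.pi - x) :=
          Real.mul_le_sin (by linarith) (by linarith)
        rw [Real.sin_pi_sub] at hb
        have hp : 0 < Real.pi - x := by linarith
        have hb0 : 0 < 2 / Real.pi * (Real.pi - x) := by positivity
        have := Real.rpow_le_rpow_of_nonpos hb0 hb (z := -(1 / 2)) (by norm_num)
        rw [Real.mul_rpow hc.le hp.le] at this
        have := mul_nonneg a3 a1
        linarith
      · rw [hx1, Real.sin_pi, Real.zero_rpow (by norm_num)]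
        rw [hx1] at a1 a2
        have := mul_nonneg a3 a1
        have := mul_nonneg a3 a2
        linarith

/-- `|sin|^{-1/2}` on every interval `(kπ, (k+1)π]` -/
theorem far_int1 (k : ℤ) :
    IntegrableOn (fun x : ℝ => |Real.sin x| ^ (-(1 / 2) : ℝ))
      (Ioc (k • Real.pi) ((k + 1) • Real.pi)) ∧
    ∫ x in Ioc (k • Real.pi) ((k + 1) • Real.pi), |Real.sin x| ^ (-(1 / 2) : ℝ) =
      ∫ x in Ioc 0 Real.pi, |Real.sin x| ^ (-(1 / 2) : ℝ) := by
  have hpi := Real.pi_pos
  have hper : Function.Periodic (fun x : ℝ => |Real.sin x| ^ (-(1 / 2) : ℝ)) Real.pi := by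
    intro x
    change |Real.sin (x + Real.pi)| ^ (-(1 / 2) : ℝ) = |Real.sin x| ^ (-(1 / 2) : ℝ)
    rw [Real.sin_add_pi, abs_neg]
  have hle : (k • Real.pi) ≤ ((k + 1) • Real.pi) := by
    rw [add_smul, one_smul]; linarith
  have h0 : IntervalIntegrable (fun x : ℝ => |Real.sin x| ^ (-(1 / 2) : ℝ)) volume 0
      (0 + Real.pi) := by
    rw [zero_add, intervalIntegrable_iff_integrableOn_Ioc_of_le hpi.le]
    exact far_int0
  constructor
  · have := hper.intervalIntegrable₀ hpi.ne' (by simpa using h0) (k • Real.pi)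
      ((k + 1) • Real.pi)
    rwa [intervalIntegrable_iff_integrableOn_Ioc_of_le hle] at this
  · have := hper.intervalIntegral_add_eq (k • Real.pi) 0
    rw [zero_add] at this
    rw [intervalIntegral.integral_of_le (by linarith),
      intervalIntegral.integral_of_le hpi.le] at this
    rw [add_smul, one_smul]
    exact this

theorem far_int2 :
    Integrable (fun x : ℝ => Real.exp (-|x|) * |Real.sin x| ^ (-(1 / 2) : ℝ)) := by
  have hpi := Real.pi_pos
  set J : ℝ := ∫ x in Ioc 0 Real.pi, |Real.sin x| ^ (-(1 / 2) : ℝ) with hJ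
  have hmeas : Measurable (fun x : ℝ => Real.exp (-|x|) * |Real.sin x| ^ (-(1 / 2) : ℝ)) :=
    (Real.measurable_exp.comp measurable_id.abs.neg).mul (Real.measurable_sin.abs.pow_const _)
  have hexp : ∀ k : ℤ, ∀ x ∈ Ioc (k • Real.pi) ((k + 1) • Real.pi),
      Real.exp (-|x|) ≤ Real.exp Real.pi * Real.exp (-Real.pi) ^ k.natAbs := by
    intro k x hx
    rw [← Real.exp_nat_mul, ← Real.exp_add]
    apply Real.exp_le_exp.2
    have h1 : ((k.natAbs : ℕ) : ℝ) = |(k : ℝ)| := by
      rw [← Int.cast_abs, Int.abs_eq_natAbs]; simp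
    rw [h1]
    obtain ⟨hx1, hx2⟩ := hx
    rw [zsmul_eq_mul] at hx1 hx2
    push_cast at hx2
    have hk : |(k : ℝ)| * Real.pi ≤ |x| + Real.pi := by
      have : |(k : ℝ) * Real.pi| ≤ |x| + |x - k * Real.pi| := by
        have := abs_sub_abs_le_abs_sub ((k : ℝ) * Real.pi) x
        rw [abs_sub_comm] at this
        linarith
      rw [abs_mul, abs_of_pos hpi] at this
      have h4 : |x - k * Real.pi| ≤ Real.pi := by
        rw [abs_of_pos (by linarith)]
        linarith
      linarith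
    linarith
  have hnn : ∀ x : ℝ, 0 ≤ Real.exp (-|x|) * |Real.sin x| ^ (-(1 / 2) : ℝ) := fun x =>
    mul_nonneg (Real.exp_pos _).le (Real.rpow_nonneg (abs_nonneg _) _)
  have hbd : ∀ k : ℤ, ∀ x ∈ Ioc (k • Real.pi) ((k + 1) • Real.pi),
      ‖Real.exp (-|x|) * |Real.sin x| ^ (-(1 / 2) : ℝ)‖ ≤
      (Real.exp Real.pi * Real.exp (-Real.pi) ^ k.natAbs) * |Real.sin x| ^ (-(1 / 2) : ℝ) := by
    intro k x hx
    rw [Real.norm_of_nonneg (hnn x)]
    exact mul_le_mul_of_nonneg_right (hexp k x hx) (Real.rpow_nonneg (abs_nonneg _) _)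
  have hi : ∀ k : ℤ, IntegrableOn
      (fun x : ℝ => Real.exp (-|x|) * |Real.sin x| ^ (-(1 / 2) : ℝ))
      (Ioc (k • Real.pi) ((k + 1) • Real.pi)) := by
    intro k
    refine Integrable.mono' ((far_int1 k).1.const_mul
      (Real.exp Real.pi * Real.exp (-Real.pi) ^ k.natAbs)) hmeas.aestronglyMeasurable ?_
    exact (ae_restrict_iff' measurableSet_Ioc).2 (Eventually.of_forall (hbd k))
  have hsum : Summable fun k : ℤ => Real.exp Real.pi * Real.exp (-Real.pi) ^ k.natAbs * J := by
    apply Summable.mul_right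
    apply Summable.mul_left
    have hr : Real.exp (-Real.pi) < 1 := by
      rw [Real.exp_lt_one_iff]; linarith
    have hg := summable_geometric_of_lt_one (Real.exp_pos (-Real.pi)).le hr
    refine Summable.of_nat_of_neg ?_ ?_
    · simpa using hg
    · simpa using hg
  have hs : Summable fun k : ℤ => ∫ x in Ioc (k • Real.pi) ((k + 1) • Real.pi),
      ‖Real.exp (-|x|) * |Real.sin x| ^ (-(1 / 2) : ℝ)‖ := by
    refine Summable.of_nonneg_of_le (fun k => ?_) (fun k => ?_) hsum
    · exact integral_nonneg fun x => norm_nonneg _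
    · calc ∫ x in Ioc (k • Real.pi) ((k + 1) • Real.pi),
            ‖Real.exp (-|x|) * |Real.sin x| ^ (-(1 / 2) : ℝ)‖
          ≤ ∫ x in Ioc (k • Real.pi) ((k + 1) • Real.pi),
            (Real.exp Real.pi * Real.exp (-Real.pi) ^ k.natAbs) *
              |Real.sin x| ^ (-(1 / 2) : ℝ) :=
            setIntegral_mono_on (hi k).norm ((far_int1 k).1.const_mul _) measurableSet_Ioc
              (hbd k)
        _ = Real.exp Real.pi * Real.exp (-Real.pi) ^ k.natAbs * J := by
            rw [integral_const_mul, (far_int1 k).2]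
  have := integrableOn_iUnion_of_summable_integral_norm hi hs
  rw [iUnion_Ioc_zsmul hpi] at this
  exact integrableOn_univ.1 this

/-- product majorant -/
theorem far_major : IntegrableOn (fun w : ℂ => Real.exp (-|w.re|) *
    |Real.sin w.re| ^ (-(1 / 2) : ℝ) * w.im ^ (-(1 / 2) : ℝ)) (S 1) := by
  have h1 : IntegrableOn (fun y : ℝ => y ^ (-(1 / 2) : ℝ)) (Icc 0 1) := by
    rw [integrableOn_Icc_iff_integrableOn_Ioc,
      ← intervalIntegrable_iff_integrableOn_Ioc_of_le zero_le_one]
    exact intervalIntegral.intervalIntegrable_rpow' (by norm_num)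
  have h2 : IntegrableOn (fun x : ℝ => Real.exp (-|x|) * |Real.sin x| ^ (-(1 / 2) : ℝ)) univ :=
    integrableOn_univ.2 far_int2
  have h3 := Integrable.mul_prod h2 h1
  rw [Measure.prod_restrict] at h3
  have h4 := (Complex.volume_preserving_equiv_real_prod.integrableOn_comp_preimage
    Complex.measurableEquivRealProd.measurableEmbedding).2 h3
  have hS : Complex.measurableEquivRealProd ⁻¹' (univ ×ˢ Icc (0 : ℝ) 1) = S 1 := by
    ext w
    simp [S, Complex.measurableEquivRealProd]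
  rw [hS] at h4
  exact h4

theorem far_ae : ∀ᵐ w : ℂ, Real.sin w.re ≠ 0 ∧ w.im ≠ 0 := by
  have h1 : ∀ᵐ x : ℝ, Real.sin x ≠ 0 := by
    have hc : {x : ℝ | Real.sin x = 0}.Countable := by
      refine (Set.countable_range (fun n : ℤ => (n : ℝ) * Real.pi)).mono ?_
      intro x hx
      obtain ⟨n, hn⟩ := Real.sin_eq_zero_iff.1 hx
      exact ⟨n, hn⟩
    exact hc.ae_notMem volume
  have h2 : ∀ᵐ x : ℝ, x ≠ 0 := by
    have := (Set.countable_singleton (0 : ℝ)).ae_notMem volume
    filter_upwards [this] with x hx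
    simpa using hx
  have h3 : ∀ᵐ p : ℝ × ℝ, Real.sin p.1 ≠ 0 :=
    Measure.quasiMeasurePreserving_fst.ae h1
  have h4 : ∀ᵐ p : ℝ × ℝ, p.2 ≠ 0 :=
    Measure.quasiMeasurePreserving_snd.ae h2
  exact Complex.volume_preserving_equiv_real_prod.quasiMeasurePreserving.ae (h3.and h4)

theorem far_integrable :
    IntegrableOn (fun w : ℂ => Real.exp (-|w.re|) / ‖Complex.sin w‖) (S 1) := by
  have hSm : MeasurableSet (S 1) := by
    have : S 1 = Complex.im ⁻¹' (Icc 0 1) := by
      ext w; simp [S]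
    rw [this]
    exact Complex.measurable_im measurableSet_Icc
  refine Integrable.mono' far_major ?_ ?_
  · refine Measurable.aestronglyMeasurable ?_
    refine Measurable.div ?_ ?_
    · exact Real.measurable_exp.comp (Complex.measurable_re.abs.neg)
    · exact Complex.continuous_sin.norm.measurable
  · refine (ae_restrict_iff' hSm).2 ?_
    filter_upwards [far_ae] with w hw hwS
    obtain ⟨hw1, hw2⟩ := hw
    obtain ⟨hw3, -⟩ := hwS
    have hy : 0 < w.im := lt_of_le_of_ne hw3 (Ne.symm hw2)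
    have hs : 0 < |Real.sin w.re| := abs_pos.2 hw1
    have e1 : |Real.sin w.re| ^ (-(1 / 2) : ℝ) = (Real.sqrt |Real.sin w.re|)⁻¹ := by
      rw [Real.rpow_neg hs.le, Real.sqrt_eq_rpow]
    have e2 : w.im ^ (-(1 / 2) : ℝ) = (Real.sqrt w.im)⁻¹ := by
      rw [Real.rpow_neg hy.le, Real.sqrt_eq_rpow]
    rw [e1, e2]
    have hp : 0 < Real.sqrt |Real.sin w.re| * Real.sqrt w.im := by positivity
    have hkey : Real.sqrt |Real.sin w.re| * Real.sqrt w.im ≤ ‖Complex.sin w‖ := by
      apply le_of_sq_le_sq _ (norm_nonneg _)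
      rw [norm_sin_sq, mul_pow, Real.sq_sqrt hs.le, Real.sq_sqrt hy.le]
      have h1 : w.im ≤ Real.sinh w.im := Real.self_le_sinh_iff.2 hy.le
      have h2 : w.im ^ 2 ≤ Real.sinh w.im ^ 2 := by gcongr
      have h3 : |Real.sin w.re| ^ 2 = Real.sin w.re ^ 2 := sq_abs _
      nlinarith [sq_nonneg (|Real.sin w.re| - w.im), mul_pos hs hy]
    have hn : 0 < ‖Complex.sin w‖ := lt_of_lt_of_le hp hkey
    rw [Real.norm_of_nonneg (by positivity), div_eq_mul_inv, mul_assoc, ← mul_inv]
    exact mul_le_mul_of_nonneg_left (inv_anti₀ hp hkey) (Real.exp_pos _).le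

end Pool.Agent.EAC.PartK
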