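import Pool.Agent.EAC.KKer0
import Pool.Agent.EAC.KPlane
import Pool.Agent.EAC.KFar

/-!
# EAC-K11: integrability

`Dens.near`: `‖sin w‖ ≥ (2/π)‖w‖` (`norm_sin_ge`).
`far_const`: `A0 = 2 ∫_{S 1} e^{-|X|}/‖sin w‖` (`far_integrable`), `S h ⊆ S 1`, `f ≤ 2/‖sin w‖`.
`integrableOn_ker`: on `S h ∩ {|re w| ≤ π/2}` the integrand is bounded (a.e., `w ≠ ζ, 0`) by `(1/(2‖ζ-w‖)) (π/‖w‖)
≤ (π/‖ζ‖) (1/‖ζ-w‖ + 1/‖w‖)` (as `‖ζ-w‖ + ‖w‖ ≥ ‖ζ‖`: `1/(ab) ≤ (2/(a+b)) ... ` precisely `1/(ab) = (1/a+1/b)/(a+b)`), which is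
integrable on the bounded set (contained in `ball 0 3`, `ball ζ 4`: `plane_ball`); on `|re w| ≥ π/2`: `norm_ker_far` and
`far_const`. Measurability: `Dens.meas`, `measurable_ker`.
`integrableOn_K0`: on `|re w| ≤ π/2` bounded by `(1/(2‖w‖)) (π/‖w‖) ≤ C(r)` on a bounded set; far: `K0_far`.
-/

set_option autoImplicit false

noncomputable section

namespace Pool.Agent.EAC.PartK

open MeasureTheory Set Filter Topology Metric

theorem KInt.measS (h : ℝ) : MeasurableSet (S h) := by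
  have h1 : S h = {z : ℂ | 0 ≤ z.im} ∩ {z : ℂ | z.im ≤ h} := rfl
  rw [h1]
  exact (measurableSet_le measurable_const Complex.measurable_im).inter
    (measurableSet_le Complex.measurable_im measurable_const)

theorem KInt.measN : MeasurableSet {w : ℂ | |w.re| ≤ Real.pi / 2} :=
  measurableSet_le (Complex.measurable_re.norm) measurable_const

theorem KInt.measF : MeasurableSet {w : ℂ | Real.pi / 2 ≤ |w.re|} :=
  measurableSet_le measurable_const (Complex.measurable_re.norm)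

theorem KInt.small {h : ℝ} (h4 : h ≤ 1 / 4) {w : ℂ} (hw : w ∈ S h)
    (hw1 : |w.re| ≤ Real.pi / 2) : ‖w‖ < 3 := by
  have h1 := Complex.norm_le_abs_re_add_abs_im w
  have h2 : |w.im| ≤ 1 / 4 := by
    rw [abs_of_nonneg hw.1]
    exact hw.2.trans h4
  have h3 := Real.pi_lt_d2
  linarith

theorem Dens.near {h : ℝ} {f : ℂ → ℝ} (hf : Dens h f) {w : ℂ} (hw : w ∈ S h) (hw0 : w ≠ 0)
    (hw1 : |w.re| ≤ Real.pi / 2) : f w ≤ Real.pi / ‖w‖ := by
  have h1 := norm_sin_ge hw1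
  have h2 : 0 < ‖w‖ := norm_pos_iff.2 hw0
  have h3 := Real.pi_pos
  have h4 : 0 < 2 / Real.pi * ‖w‖ := by positivity
  calc f w ≤ 2 / ‖Complex.sin w‖ := hf.le w hw
    _ ≤ 2 / (2 / Real.pi * ‖w‖) := by
        apply div_le_div_of_nonneg_left (by norm_num) h4 h1
    _ = Real.pi / ‖w‖ := by
        field_simp

/-- the part of the integrals far from the corner. -/
theorem far_const : ∃ A0 > 0, ∀ h, 0 < h → h ≤ 1 → ∀ f, Dens h f →
    IntegrableOn (fun w => Real.exp (-|w.re|) * f w) (S h) ∧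
      ∫ w in S h, Real.exp (-|w.re|) * f w ≤ A0 := by
  have hI := far_integrable
  refine ⟨2 * (∫ w in S 1, Real.exp (-|w.re|) / ‖Complex.sin w‖) + 1, ?_, ?_⟩
  · have : 0 ≤ ∫ w in S 1, Real.exp (-|w.re|) / ‖Complex.sin w‖ :=
      integral_nonneg fun w => by positivity
    linarith
  intro h hh h1 f hf
  have hsub : S h ⊆ S 1 := fun w hw => ⟨hw.1, hw.2.trans h1⟩
  have hI2 : IntegrableOn (fun w : ℂ => 2 * (Real.exp (-|w.re|) / ‖Complex.sin w‖)) (S 1) :=
    hI.const_mul 2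
  have hb : ∀ w ∈ S h, Real.exp (-|w.re|) * f w ≤ 2 * (Real.exp (-|w.re|) / ‖Complex.sin w‖) := by
    intro w hw
    have := mul_le_mul_of_nonneg_left (hf.le w hw) (Real.exp_pos (-|w.re|)).le
    calc Real.exp (-|w.re|) * f w ≤ Real.exp (-|w.re|) * (2 / ‖Complex.sin w‖) := this
      _ = _ := by ring
  have hm : AEStronglyMeasurable (fun w : ℂ => Real.exp (-|w.re|) * f w)
      (volume.restrict (S h)) := by
    apply AEStronglyMeasurable.mul _ hf.meas
    exact (by fun_prop : Continuous fun w : ℂ => Real.exp (-|w.re|)).aestronglyMeasurable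
  have hint : IntegrableOn (fun w => Real.exp (-|w.re|) * f w) (S h) := by
    refine Integrable.mono' (hI2.mono_set hsub) hm ?_
    filter_upwards [ae_restrict_mem (KInt.measS h)] with w hw
    rw [Real.norm_of_nonneg (mul_nonneg (Real.exp_pos _).le (hf.nonneg w hw))]
    exact hb w hw
  refine ⟨hint, ?_⟩
  calc ∫ w in S h, Real.exp (-|w.re|) * f w
      ≤ ∫ w in S h, 2 * (Real.exp (-|w.re|) / ‖Complex.sin w‖) :=
        setIntegral_mono_on hint (hI2.mono_set hsub) (KInt.measS h) hb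
    _ ≤ ∫ w in S 1, 2 * (Real.exp (-|w.re|) / ‖Complex.sin w‖) :=
        setIntegral_mono_set hI2 (Eventually.of_forall fun w => by positivity)
          (Eventually.of_forall hsub)
    _ = 2 * (∫ w in S 1, Real.exp (-|w.re|) / ‖Complex.sin w‖) := integral_const_mul _ _
    _ ≤ _ := by linarith

theorem integrableOn_ker {h : ℝ} (hh : 0 < h) (h4 : h ≤ 1 / 4) {f : ℂ → ℝ} (hf : Dens h f) {ζ : ℂ}
    (hζ : ζ ∈ S h) (h0 : ζ ≠ 0) (h1 : ‖ζ‖ ≤ 1) :
    IntegrableOn (fun w => (f w : ℂ) * ker h ζ w) (S h) := by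
  have hpi := Real.pi_pos
  have hζ0 : 0 < ‖ζ‖ := norm_pos_iff.2 h0
  have hm : AEStronglyMeasurable (fun w : ℂ => (f w : ℂ) * ker h ζ w)
      (volume.restrict (S h)) := by
    apply AEStronglyMeasurable.mul
    · exact Complex.continuous_ofReal.comp_aestronglyMeasurable hf.meas
    · exact (measurable_ker h ζ).aestronglyMeasurable
  have hnear : IntegrableOn (fun w => (f w : ℂ) * ker h ζ w)
      (S h ∩ {w : ℂ | |w.re| ≤ Real.pi / 2}) := by
    have hb1 : IntegrableOn (fun w : ℂ => 1 / ‖w - ζ‖) (S h ∩ {w : ℂ | |w.re| ≤ Real.pi / 2}) := by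
      refine (plane_ball ζ (R := 4) (by norm_num)).1.mono_set ?_
      rintro w ⟨hw, hw1⟩
      have h3 := KInt.small h4 hw hw1
      rw [mem_ball, dist_eq_norm]
      calc ‖w - ζ‖ ≤ ‖w‖ + ‖ζ‖ := norm_sub_le _ _
        _ < 4 := by linarith
    have hb2 : IntegrableOn (fun w : ℂ => 1 / ‖w - 0‖) (S h ∩ {w : ℂ | |w.re| ≤ Real.pi / 2}) := by
      refine (plane_ball 0 (R := 3) (by norm_num)).1.mono_set ?_
      rintro w ⟨hw, hw1⟩
      have h3 := KInt.small h4 hw hw1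
      rw [mem_ball, dist_eq_norm, sub_zero]
      exact h3
    have hb : IntegrableOn (fun w : ℂ => Real.pi / (2 * ‖ζ‖) * (1 / ‖w - ζ‖ + 1 / ‖w - 0‖))
        (S h ∩ {w : ℂ | |w.re| ≤ Real.pi / 2}) := (hb1.add hb2).const_mul _
    refine Integrable.mono' hb (hm.mono_measure (Measure.restrict_mono inter_subset_left le_rfl)) ?_
    have hne : ∀ c : ℂ, ∀ᵐ w ∂(volume.restrict (S h ∩ {w : ℂ | |w.re| ≤ Real.pi / 2})), w ≠ c := by
      intro c
      apply ae_restrict_of_ae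
      exact Measure.ae_ne volume c
    filter_upwards [ae_restrict_mem ((KInt.measS h).inter KInt.measN), hne ζ, hne 0]
      with w hw hwζ hw0
    have hn1 : 0 < ‖w - ζ‖ := norm_pos_iff.2 (sub_ne_zero.2 hwζ)
    have hn0 : 0 < ‖w‖ := norm_pos_iff.2 hw0
    have hk := norm_ker_le_near hh hζ hw.1 (Ne.symm hwζ)
    rw [norm_sub_rev] at hk
    have hfw := hf.near hw.1 hw0 hw.2
    have hfw0 := hf.nonneg w hw.1
    have htri : ‖ζ‖ ≤ ‖w - ζ‖ + ‖w‖ := by
      calc ‖ζ‖ = ‖w - (w - ζ)‖ := by congr 1; ring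
        _ ≤ ‖w‖ + ‖w - ζ‖ := norm_sub_le _ _
        _ = _ := add_comm _ _
    rw [norm_mul, Complex.norm_real, Real.norm_of_nonneg hfw0, sub_zero]
    calc f w * ‖ker h ζ w‖ ≤ Real.pi / ‖w‖ * (1 / (2 * ‖w - ζ‖)) :=
          mul_le_mul hfw hk (norm_nonneg _) (by positivity)
      _ = Real.pi / 2 * (1 / (‖w‖ * ‖w - ζ‖)) := by field_simp
      _ ≤ Real.pi / 2 * ((1 / ‖w - ζ‖ + 1 / ‖w‖) / ‖ζ‖) := by
          apply mul_le_mul_of_nonneg_left _ (by positivity)
          rw [le_div_iff₀ hζ0, div_add_div _ _ hn1.ne' hn0.ne', div_mul_eq_mul_div, one_mul,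
            mul_comm ‖w‖ ‖w - ζ‖]
          apply div_le_div_of_nonneg_right _ (by positivity)
          linarith
      _ = Real.pi / (2 * ‖ζ‖) * (1 / ‖w - ζ‖ + 1 / ‖w‖) := by field_simp
  have hfar : IntegrableOn (fun w => (f w : ℂ) * ker h ζ w)
      (S h ∩ {w : ℂ | Real.pi / 2 ≤ |w.re|}) := by
    obtain ⟨A0, -, hA0⟩ := far_const
    have hI := (hA0 h hh (by linarith) f hf).1
    have hb : IntegrableOn (fun w : ℂ => 25 * h * (Real.exp (-|w.re|) * f w))
        (S h ∩ {w : ℂ | Real.pi / 2 ≤ |w.re|}) :=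
      (IntegrableOn.mono_set hI inter_subset_left).const_mul _
    refine Integrable.mono' hb (hm.mono_measure (Measure.restrict_mono inter_subset_left le_rfl)) ?_
    filter_upwards [ae_restrict_mem ((KInt.measS h).inter KInt.measF)] with w hw
    have hk := norm_ker_far hh h4 hζ hw.1 ((Complex.abs_re_le_norm ζ).trans h1) hw.2
    have hfw0 := hf.nonneg w hw.1
    rw [norm_mul, Complex.norm_real, Real.norm_of_nonneg hfw0]
    calc f w * ‖ker h ζ w‖ ≤ f w * (25 * h * Real.exp (-|w.re|)) :=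
          mul_le_mul_of_nonneg_left hk hfw0
      _ = _ := by ring
  refine (hnear.union hfar).mono_set ?_
  intro w hw
  rcases le_total |w.re| (Real.pi / 2) with h5 | h5
  · exact Or.inl ⟨hw, h5⟩
  · exact Or.inr ⟨hw, h5⟩

theorem integrableOn_K0 {h : ℝ} (hh : 0 < h) (h4 : h ≤ 1 / 4) {f : ℂ → ℝ} (hf : Dens h f) {r : ℝ}
    (hr : 0 < r) : IntegrableOn (fun w => K0 h w * f w) (S h ∩ {w : ℂ | 2 * r ≤ ‖w‖}) := by
  have hpi := Real.pi_pos
  have hm : AEStronglyMeasurable (fun w : ℂ => K0 h w * f w) (volume.restrict (S h)) :=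
    (measurable_K0 h).aestronglyMeasurable.mul hf.meas
  have hR : MeasurableSet {w : ℂ | 2 * r ≤ ‖w‖} := measurableSet_le measurable_const measurable_norm
  have hnear : IntegrableOn (fun w => K0 h w * f w)
      ((S h ∩ {w : ℂ | 2 * r ≤ ‖w‖}) ∩ {w : ℂ | |w.re| ≤ Real.pi / 2}) := by
    have hb : IntegrableOn (fun _ : ℂ => 1 / (4 * r) * (Real.pi / (2 * r)))
        ((S h ∩ {w : ℂ | 2 * r ≤ ‖w‖}) ∩ {w : ℂ | |w.re| ≤ Real.pi / 2}) := by
      refine integrableOn_const ?_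
      refine ne_of_lt (lt_of_le_of_lt (measure_mono (t := ball (0 : ℂ) 3) ?_) measure_ball_lt_top)
      rintro w ⟨⟨hw, -⟩, hw1⟩
      have h3 := KInt.small h4 hw hw1
      rw [mem_ball, dist_eq_norm, sub_zero]
      exact h3
    refine Integrable.mono' hb (hm.mono_measure (Measure.restrict_mono
      (inter_subset_left.trans inter_subset_left) le_rfl)) ?_
    filter_upwards [ae_restrict_mem (((KInt.measS h).inter hR).inter KInt.measN)] with w hw
    obtain ⟨⟨hw1, hw2⟩, hw3⟩ := hw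
    have hw2' : 2 * r ≤ ‖w‖ := hw2
    have hn0 : 0 < ‖w‖ := by linarith
    have hw0 : w ≠ 0 := norm_pos_iff.1 hn0
    have hk := K0_le_near hh hw1 hw0
    have hk0 := K0_nonneg hh hw1
    have hfw := hf.near hw1 hw0 hw3
    have hfw0 := hf.nonneg w hw1
    rw [Real.norm_of_nonneg (mul_nonneg hk0 hfw0)]
    refine mul_le_mul (hk.trans ?_) (hfw.trans ?_) hfw0 (by positivity)
    · exact one_div_le_one_div_of_le (by positivity) (by linarith)
    · exact div_le_div_of_nonneg_left hpi.le (by positivity) hw2'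
  have hfar : IntegrableOn (fun w => K0 h w * f w)
      ((S h ∩ {w : ℂ | 2 * r ≤ ‖w‖}) ∩ {w : ℂ | Real.pi / 2 ≤ |w.re|}) := by
    obtain ⟨A0, -, hA0⟩ := far_const
    have hI := (hA0 h hh (by linarith) f hf).1
    have hb : IntegrableOn (fun w : ℂ => 25 * h * (Real.exp (-|w.re|) * f w))
        ((S h ∩ {w : ℂ | 2 * r ≤ ‖w‖}) ∩ {w : ℂ | Real.pi / 2 ≤ |w.re|}) :=
      (IntegrableOn.mono_set hI (inter_subset_left.trans inter_subset_left)).const_mul _
    refine Integrable.mono' hb (hm.mono_measure (Measure.restrict_mono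
      (inter_subset_left.trans inter_subset_left) le_rfl)) ?_
    filter_upwards [ae_restrict_mem (((KInt.measS h).inter hR).inter KInt.measF)] with w hw
    obtain ⟨⟨hw1, -⟩, hw3⟩ := hw
    have hk := K0_far hh h4 hw1 hw3
    have hk0 := K0_nonneg hh hw1
    have hfw0 := hf.nonneg w hw1
    rw [Real.norm_of_nonneg (mul_nonneg hk0 hfw0)]
    calc K0 h w * f w ≤ 25 * h * Real.exp (-|w.re|) * f w :=
          mul_le_mul_of_nonneg_right hk hfw0
      _ = _ := by ring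
  refine (hnear.union hfar).mono_set ?_
  intro w hw
  rcases le_total |w.re| (Real.pi / 2) with h5 | h5
  · exact Or.inl ⟨hw, h5⟩
  · exact Or.inr ⟨hw, h5⟩

end Pool.Agent.EAC.PartK
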