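import Pool.Agent.EAC.KKer

/-!
# EAC-K03: the kernel `K0`

`ker_zero_left`: for `z = 0`, `a = -π conj w/(2h)`, `b = -π w/(2h)`, `sinh a sinh b = conj (sinh (πw/2h)) sinh (πw/2h) =
‖sinh (πw/2h)‖²`, `cth a - cth b = sinh (b-a)/(sinh a sinh b)`, `b - a = -iπY/h`, `sinh(-iθ) = -i sin θ`
(`w = 0`: both sides are `0`).
`K0_le_near`, `K0_le_q`, `K0_far`: `K0 h w = ‖ker h 0 w‖` (as `K0 ≥ 0`).
`K0_ge`: `Y ≤ ‖w‖ ≤ h/2`: `sin (πY/h) ≥ 2Y/h` (`Real.mul_le_sin`), `‖sinh (πw/2h)‖ ≤ sinh(π‖w‖/2h)` and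
`sinh u ≤ 1.12 u` on `[0, π/4]`; hence `K0 ≥ 0.16 Y/‖w‖² ≥ 0.08/‖w‖`.
-/

set_option autoImplicit false

noncomputable section

namespace Pool.Agent.EAC.PartK

open MeasureTheory Set Filter Topology Metric
open scoped ComplexConjugate

theorem zero_mem_S {h : ℝ} (hh : 0 < h) : (0 : ℂ) ∈ S h := by
  constructor <;> simp [hh.le]

theorem ker_zero_left {h : ℝ} (hh : 0 < h) {w : ℂ} (hw : w ∈ S h) :
    ker h 0 w = -Complex.I * (K0 h w : ℂ) := by
  by_cases hw0 : w = 0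
  · subst hw0
    simp [ker, K0]
  · have hb := sinh_b_ne hh (zero_mem_S hh) hw (Ne.symm hw0)
    set c : ℂ := Real.pi * w / (2 * h) with hc
    have eb : (Real.pi * (0 - w) / (2 * h) : ℂ) = -c := by rw [hc]; ring
    have ea : (Real.pi * (0 - conj w) / (2 * h) : ℂ) = -conj c := by
      rw [hc]
      simp only [map_div₀, map_mul, Complex.conj_ofReal, map_ofNat]
      ring
    rw [eb] at hb
    have hc0 : Complex.sinh c ≠ 0 := by
      intro h0
      apply hb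
      rw [Complex.sinh_neg, h0, neg_zero]
    have ha : Complex.sinh (-conj c) ≠ 0 := by
      rw [Complex.sinh_neg, Complex.sinh_conj]
      simpa using hc0
    have e1 : (-c) - (-conj c) = -(((Real.pi * w.im / h : ℝ) : ℂ) * Complex.I) := by
      apply Complex.ext
      · simp
      · have : c.im = Real.pi * w.im / (2 * h) := by
          have := kker_kb_im (h := h) w 0
          simpa [hc] using this
        simp only [Complex.sub_im, Complex.neg_im, Complex.conj_im, Complex.mul_im,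
          Complex.ofReal_re, Complex.I_im, mul_one, Complex.ofReal_im, Complex.I_re, mul_zero,
          add_zero, this]
        field_simp
        ring
    rw [ker, eb, ea, kker_cth_sub ha hb, e1, Complex.sinh_neg, Complex.sinh_mul_I, Complex.sinh_neg,
      Complex.sinh_neg, Complex.sinh_conj, K0]
    have e2 : -conj (Complex.sinh c) * -Complex.sinh c = ((‖Complex.sinh c‖ ^ 2 : ℝ) : ℂ) := by
      rw [neg_mul_neg, mul_comm, Complex.mul_conj, Complex.normSq_eq_norm_sq]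
    rw [e2, ← Complex.ofReal_sin, ← hc]
    have hn : (‖Complex.sinh c‖ : ℂ) ≠ 0 := by
      simpa using hc0
    clear_value c
    have hhC : (h : ℂ) ≠ 0 := by exact_mod_cast hh.ne'
    push_cast
    field_simp

theorem K0_nonneg {h : ℝ} (hh : 0 < h) {w : ℂ} (hw : w ∈ S h) : 0 ≤ K0 h w := by
  obtain ⟨h0, h1⟩ := hw
  have hp := Real.pi_pos
  have hs : 0 ≤ Real.sin (Real.pi * w.im / h) := by
    apply Real.sin_nonneg_of_nonneg_of_le_pi
    · positivity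
    · rw [div_le_iff₀ hh]
      nlinarith
  unfold K0
  positivity

theorem K0_eq_norm {h : ℝ} (hh : 0 < h) {w : ℂ} (hw : w ∈ S h) : K0 h w = ‖ker h 0 w‖ := by
  rw [ker_zero_left hh hw, norm_mul, norm_neg, Complex.norm_I, one_mul, Complex.norm_real,
    Real.norm_eq_abs, abs_of_nonneg (K0_nonneg hh hw)]

theorem K0_le_near {h : ℝ} (hh : 0 < h) {w : ℂ} (hw : w ∈ S h) (hw0 : w ≠ 0) :
    K0 h w ≤ 1 / (2 * ‖w‖) := by
  rw [K0_eq_norm hh hw]
  have := norm_ker_le_near hh (zero_mem_S hh) hw (Ne.symm hw0)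
  simpa using this

theorem K0_le_q {h : ℝ} (hh : 0 < h) {w : ℂ} (hw : w ∈ S h) (hw0 : w ≠ 0) :
    K0 h w ≤ 25 * (h ^ 2 / (‖w‖ * (h + ‖w‖) ^ 2)) := by
  rw [K0_eq_norm hh hw]
  have := norm_ker_le_q hh (zero_mem_S hh) hw (Ne.symm hw0)
  rwa [zero_sub, norm_neg] at this

theorem K0_far {h : ℝ} (hh : 0 < h) (h4 : h ≤ 1 / 4) {w : ℂ} (hw : w ∈ S h)
    (hw1 : Real.pi / 2 ≤ |w.re|) : K0 h w ≤ 25 * h * Real.exp (-|w.re|) := by
  rw [K0_eq_norm hh hw]
  exact norm_ker_far hh h4 (zero_mem_S hh) hw (by simp) hw1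

theorem sinh_le_of_le {u : ℝ} (h0 : 0 ≤ u) (h1 : u ≤ 1) : Real.sinh u ≤ u + 2 / 9 * u ^ 3 := by
  have e1 := Real.exp_bound (x := u) (by rw [abs_of_nonneg h0]; exact h1) (n := 3) (by norm_num)
  have e2 := Real.exp_bound (x := -u) (by rw [abs_neg, abs_of_nonneg h0]; exact h1) (n := 3)
    (by norm_num)
  rw [abs_neg] at e2
  rw [abs_of_nonneg h0] at e1 e2
  have c : ((Nat.succ 3 : ℕ) : ℝ) / ((Nat.factorial 3 : ℕ) * (3 : ℕ)) = 2 / 9 := by
    norm_num [Nat.factorial]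
  rw [c] at e1 e2
  simp only [Finset.sum_range_succ, Finset.sum_range_zero, Nat.factorial] at e1 e2
  rw [abs_le] at e1 e2
  rw [Real.sinh_eq]
  norm_num at e1 e2
  obtain ⟨-, e1⟩ := e1
  obtain ⟨e2, -⟩ := e2
  linarith

theorem K0_ge {h : ℝ} (hh : 0 < h) {w : ℂ} (hw : w ∈ S h) (hw0 : w ≠ 0) (h1 : ‖w‖ ≤ h / 2)
    (h2 : ‖w‖ ≤ 2 * w.im) : 1 / (16 * ‖w‖) ≤ K0 h w := by
  obtain ⟨hY0, hYh⟩ := id hw
  have hp := Real.pi_pos
  have hp1 := Real.pi_gt_three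
  have hp2 := Real.pi_lt_d2
  have hn : 0 < ‖w‖ := norm_pos_iff.mpr hw0
  have hYn : w.im ≤ ‖w‖ := le_trans (le_abs_self _) (Complex.abs_im_le_norm w)
  have hs : 2 * w.im / h ≤ Real.sin (Real.pi * w.im / h) := by
    have := Real.mul_le_sin (x := Real.pi * w.im / h) (by positivity)
      (by rw [div_le_div_iff₀ hh (by norm_num)]; nlinarith)
    refine le_trans (le_of_eq ?_) this
    field_simp
  set c : ℂ := Real.pi * w / (2 * h) with hc
  have hcn : ‖c‖ = Real.pi / 2 * (‖w‖ / h) := by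
    have := kker_kb_norm hh w 0
    simpa [hc] using this
  have hu0 : 0 ≤ ‖c‖ := norm_nonneg _
  have hwh : ‖w‖ / h ≤ 1 / 2 := by
    rw [div_le_div_iff₀ hh (by norm_num)]; linarith
  have hu1 : ‖c‖ ≤ Real.pi / 4 := by
    rw [hcn]; nlinarith
  have hu2 : ‖c‖ ≤ 0.7875 := by linarith
  have hsh : ‖Complex.sinh c‖ ≤ 1.14 * ‖c‖ := by
    refine le_trans (norm_sinh_le c) (le_trans (sinh_le_of_le hu0 (by linarith)) ?_)
    have : ‖c‖ ^ 2 ≤ 0.7875 ^ 2 := pow_le_pow_left₀ hu0 hu2 2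
    nlinarith
  have hb := sinh_b_ne hh (zero_mem_S hh) hw (Ne.symm hw0)
  have eb : (Real.pi * (0 - w) / (2 * h) : ℂ) = -c := by rw [hc]; ring
  rw [eb, Complex.sinh_neg] at hb
  have hc0 : 0 < ‖Complex.sinh c‖ := norm_pos_iff.mpr (fun h0 => hb (by rw [h0, neg_zero]))
  have hsq : ‖Complex.sinh c‖ ^ 2 ≤ (1.14 * ‖c‖) ^ 2 := pow_le_pow_left₀ hc0.le hsh 2
  unfold K0
  rw [← hc]
  rw [div_le_div_iff₀ (by positivity) (by positivity)]
  have k1 : 1 * (4 * h * ‖Complex.sinh c‖ ^ 2) ≤ 4 * h * (1.14 * ‖c‖) ^ 2 := by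
    rw [one_mul]; gcongr
  refine le_trans k1 ?_
  have k2 : 2 * w.im / h * (16 * ‖w‖) ≤ Real.sin (Real.pi * w.im / h) * (16 * ‖w‖) := by
    gcongr
  refine le_trans ?_ k2
  rw [hcn]
  have k3 : 4 * h * (1.14 * (Real.pi / 2 * (‖w‖ / h))) ^ 2 = 1.14 ^ 2 * Real.pi ^ 2 * ‖w‖ * ‖w‖ / h := by
    field_simp
    ring
  rw [k3]
  have k4 : 2 * w.im / h * (16 * ‖w‖) = 32 * w.im * ‖w‖ / h := by ring
  rw [k4]
  apply div_le_div_of_nonneg_right _ hh.le
  have k5 : (1.14 : ℝ) ^ 2 * Real.pi ^ 2 ≤ 16 := by nlinarith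
  have k6 : (1.14 : ℝ) ^ 2 * Real.pi ^ 2 * ‖w‖ ≤ 32 * w.im := by nlinarith
  exact mul_le_mul_of_nonneg_right k6 hn.le

theorem measurable_K0 (h : ℝ) : Measurable (K0 h) := by
  unfold K0
  apply Measurable.div
  · exact (Real.continuous_sin.comp (by fun_prop)).measurable
  · refine Measurable.const_mul ?_ _
    refine Measurable.pow_const ?_ _
    have : Continuous (fun w : ℂ => Complex.sinh (Real.pi * w / (2 * h))) :=
      Complex.continuous_sinh.comp (by fun_prop)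
    exact this.norm.measurable

end Pool.Agent.EAC.PartK
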