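import Pool.Agent.EAC.KInt
import Pool.Agent.EAC.KDiff

/-!
# EAC-K12: `|W[f](ζ) + i I(|ζ|)| ≤ C` for `0 < |ζ| ≤ h`

`W h f ζ = ∫_{S h} f ker(ζ,·)`, `i I(|ζ|) = - ∫_{S h, ‖w‖ ≥ 2‖ζ‖} f ker(0,·)` (`ker_zero_left`), so the sum is
`∫_{S h, ‖w‖ < 2‖ζ‖} f ker(ζ,·) + ∫_{S h, ‖w‖ ≥ 2‖ζ‖} f (ker(ζ,·) - ker(0,·))` (integrability: `integrableOn_ker`,
`integrableOn_K0`). First integral: `f ≤ π/‖w‖` (`Dens.near`, `2‖ζ‖ ≤ 1/2`), `‖ker‖ ≤ 1/(2‖ζ-w‖)`,
`1/(‖ζ-w‖‖w‖) ≤ (1/‖ζ‖)(1/‖ζ-w‖ + 1/‖w‖)`, `∫_{ball ζ 3‖ζ‖} 1/‖w-ζ‖ = 6π‖ζ‖`, `∫_{ball 0 2‖ζ‖} 1/‖w‖ = 4π‖ζ‖`.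
Second integral: on `|re w| ≤ π/2`: `ker_diff`, integrand `≤ (π/‖w‖) 3‖ζ‖/‖w‖²`, `∫_{‖w‖ ≥ 2‖ζ‖} ‖w‖^{-3} = π/‖ζ‖` (`plane_out`);
on `|re w| ≥ π/2`: `‖ker(ζ,w)‖ + ‖ker(0,w)‖ ≤ 50 h e^{-|re w|}`, `far_const`.
-/

set_option autoImplicit false

noncomputable section

namespace Pool.Agent.EAC.PartK

open MeasureTheory Set Filter Topology Metric

private theorem measurableSet_S (h : ℝ) : MeasurableSet (S h) :=
  (measurableSet_le measurable_const Complex.measurable_im).inter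
    (measurableSet_le Complex.measurable_im measurable_const)

private theorem inv_mul_inv_le {a b r : ℝ} (ha : 0 < a) (hb : 0 < b) (hr : 0 < r) (hab : r ≤ a + b) :
    (1 / a) * (1 / b) ≤ (1 / r) * (1 / a + 1 / b) := by
  have h1 : (1 / a) * (1 / b) = (1 / (a + b)) * (1 / a + 1 / b) := by
    field_simp
    ring
  rw [h1]
  apply mul_le_mul_of_nonneg_right _ (by positivity)
  exact one_div_le_one_div_of_le hr hab

theorem near_est : ∃ C > 0, ∀ h, 0 < h → h ≤ 1 / 4 → ∀ f, Dens h f → ∀ ζ ∈ S h, ζ ≠ 0 →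
    ‖ζ‖ ≤ h → ‖W h f ζ + Complex.I * (II h f ‖ζ‖ : ℂ)‖ ≤ C := by
  obtain ⟨A0, hA0, hfar⟩ := far_const
  refine ⟨5 * Real.pi ^ 2 + (3 * Real.pi ^ 2 + 50 * A0), by positivity, ?_⟩
  intro h hh h4 f hf ζ hζ h0 hζh
  set r := ‖ζ‖ with hr
  have hr0 : 0 < r := norm_pos_iff.2 h0
  have hr4 : r ≤ 1 / 4 := le_trans hζh h4
  have hpi : 3 < Real.pi := Real.pi_gt_three
  have hint := integrableOn_ker hh h4 hf hζ h0 (by linarith)
  have hintK := integrableOn_K0 hh h4 hf hr0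
  have hmeasT : MeasurableSet {w : ℂ | 2 * r ≤ ‖w‖} :=
    measurableSet_le measurable_const measurable_norm
  have hmeasS := measurableSet_S h
  have h0S : (0 : ℂ) ∈ S h := ⟨by simp, by simpa using hh.le⟩
  have hae0 : ∀ᵐ w : ℂ, w ≠ 0 := by
    simp [ae_iff]
  have haeζ : ∀ᵐ w : ℂ, w ≠ ζ := by
    simp [ae_iff]
  -- decomposition
  have hW : W h f ζ = (∫ w in S h ∩ {w : ℂ | 2 * r ≤ ‖w‖}, (f w : ℂ) * ker h ζ w) +
      ∫ w in S h \ {w : ℂ | 2 * r ≤ ‖w‖}, (f w : ℂ) * ker h ζ w := by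
    unfold W
    exact (integral_inter_add_sdiff hmeasT hint).symm
  have hII : Complex.I * (II h f r : ℂ) =
      ∫ w in S h ∩ {w : ℂ | 2 * r ≤ ‖w‖}, Complex.I * ((K0 h w * f w : ℝ) : ℂ) := by
    unfold II
    rw [integral_const_mul]
    congr 1
    exact integral_ofReal.symm
  have hK2 : IntegrableOn (fun w => Complex.I * ((K0 h w * f w : ℝ) : ℂ))
      (S h ∩ {w : ℂ | 2 * r ≤ ‖w‖}) := (hintK.ofReal (𝕜 := ℂ)).const_mul Complex.I
  have hsum : W h f ζ + Complex.I * (II h f r : ℂ) =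
      (∫ w in S h \ {w : ℂ | 2 * r ≤ ‖w‖}, (f w : ℂ) * ker h ζ w) +
      ∫ w in S h ∩ {w : ℂ | 2 * r ≤ ‖w‖},
        ((f w : ℂ) * ker h ζ w + Complex.I * ((K0 h w * f w : ℝ) : ℂ)) := by
    rw [integral_add (hint.mono_set inter_subset_left) hK2, hW, hII]
    ring
  rw [hsum]
  refine (norm_add_le _ _).trans (add_le_add ?_ ?_)
  · -- the near part
    have hb1 := plane_ball ζ (R := 3 * r) (by positivity)
    have hb2 := plane_ball 0 (R := 2 * r) (by positivity)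
    have hsub1 : S h \ {w : ℂ | 2 * r ≤ ‖w‖} ⊆ ball ζ (3 * r) := by
      intro w hw
      have h2 : ‖w‖ < 2 * r := not_le.1 hw.2
      rw [mem_ball, dist_eq_norm]
      calc ‖w - ζ‖ ≤ ‖w‖ + ‖ζ‖ := norm_sub_le _ _
        _ < 3 * r := by rw [← hr]; linarith
    have hsub2 : S h \ {w : ℂ | 2 * r ≤ ‖w‖} ⊆ ball 0 (2 * r) := by
      intro w hw
      have h2 : ‖w‖ < 2 * r := not_le.1 hw.2
      simpa [mem_ball, dist_eq_norm] using h2
    have hi1 := hb1.1.mono_set hsub1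
    have hi2 := hb2.1.mono_set hsub2
    have hg : IntegrableOn (fun w : ℂ => (Real.pi / (2 * r)) * (1 / ‖w - ζ‖ + 1 / ‖w - 0‖))
        (S h \ {w : ℂ | 2 * r ≤ ‖w‖}) := (hi1.add hi2).const_mul _
    have hbound : ‖∫ w in S h \ {w : ℂ | 2 * r ≤ ‖w‖}, (f w : ℂ) * ker h ζ w‖ ≤
        ∫ w in S h \ {w : ℂ | 2 * r ≤ ‖w‖},
          (Real.pi / (2 * r)) * (1 / ‖w - ζ‖ + 1 / ‖w - 0‖) := by
      apply norm_integral_le_of_norm_le hg
      rw [ae_restrict_iff' (hmeasS.diff hmeasT)]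
      filter_upwards [hae0, haeζ] with w hw0 hwζ hw
      have h2 : ‖w‖ < 2 * r := not_le.1 hw.2
      have hre : |w.re| ≤ Real.pi / 2 := by
        have := Complex.abs_re_le_norm w
        linarith
      have hfw := hf.near hw.1 hw0 hre
      have hfw0 := hf.nonneg w hw.1
      have hk := norm_ker_le_near hh hζ hw.1 (Ne.symm hwζ)
      have hwp : 0 < ‖w‖ := norm_pos_iff.2 hw0
      have hwζp : 0 < ‖w - ζ‖ := norm_pos_iff.2 (sub_ne_zero.2 hwζ)
      have hsym : ‖ζ - w‖ = ‖w - ζ‖ := norm_sub_rev _ _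
      rw [norm_mul, Complex.norm_real, Real.norm_of_nonneg hfw0, sub_zero]
      have htri : r ≤ ‖w - ζ‖ + ‖w‖ := by
        rw [hr]
        calc ‖ζ‖ = ‖w - (w - ζ)‖ := by ring_nf
          _ ≤ ‖w‖ + ‖w - ζ‖ := norm_sub_le _ _
          _ = ‖w - ζ‖ + ‖w‖ := add_comm _ _
      have hkey := inv_mul_inv_le hwζp hwp hr0 htri
      calc f w * ‖ker h ζ w‖ ≤ (Real.pi / ‖w‖) * (1 / (2 * ‖ζ - w‖)) := by
            apply mul_le_mul hfw hk (norm_nonneg _) (by positivity)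
        _ = (Real.pi / 2) * ((1 / ‖w - ζ‖) * (1 / ‖w‖)) := by
            rw [hsym]; field_simp
        _ ≤ (Real.pi / 2) * ((1 / r) * (1 / ‖w - ζ‖ + 1 / ‖w‖)) :=
            mul_le_mul_of_nonneg_left hkey (by positivity)
        _ = (Real.pi / (2 * r)) * (1 / ‖w - ζ‖ + 1 / ‖w‖) := by
            field_simp
    refine hbound.trans ?_
    rw [integral_const_mul, integral_add hi1 hi2]
    have hm1 : ∫ w in S h \ {w : ℂ | 2 * r ≤ ‖w‖}, 1 / ‖w - ζ‖ ≤
        ∫ w in ball ζ (3 * r), 1 / ‖w - ζ‖ :=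
      setIntegral_mono_set hb1.1 (Eventually.of_forall fun w => by positivity)
        (LE.le.eventuallyLE hsub1)
    have hm2 : ∫ w in S h \ {w : ℂ | 2 * r ≤ ‖w‖}, 1 / ‖w - 0‖ ≤
        ∫ w in ball (0 : ℂ) (2 * r), 1 / ‖w - 0‖ :=
      setIntegral_mono_set hb2.1 (Eventually.of_forall fun w => by positivity)
        (LE.le.eventuallyLE hsub2)
    rw [hb1.2] at hm1
    rw [hb2.2] at hm2
    calc (Real.pi / (2 * r)) * ((∫ w in S h \ {w : ℂ | 2 * r ≤ ‖w‖}, 1 / ‖w - ζ‖) +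
          ∫ w in S h \ {w : ℂ | 2 * r ≤ ‖w‖}, 1 / ‖w - 0‖)
        ≤ (Real.pi / (2 * r)) * (2 * Real.pi * (3 * r) + 2 * Real.pi * (2 * r)) :=
          mul_le_mul_of_nonneg_left (add_le_add hm1 hm2) (by positivity)
      _ = 5 * Real.pi ^ 2 := by field_simp; ring
  · -- the far part
    have ho := plane_out (R := 2 * r) (by positivity)
    have hf1 := hfar h hh (by linarith) f hf
    have hi1 : IntegrableOn (fun w : ℂ => 3 * Real.pi * r * (1 / ‖w‖ ^ 3))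
        (S h ∩ {w : ℂ | 2 * r ≤ ‖w‖}) := (ho.1.mono_set inter_subset_right).const_mul _
    have hi2 : IntegrableOn (fun w : ℂ => 50 * h * (Real.exp (-|w.re|) * f w))
        (S h ∩ {w : ℂ | 2 * r ≤ ‖w‖}) := (hf1.1.mono_set inter_subset_left).const_mul _
    have hbound : ‖∫ w in S h ∩ {w : ℂ | 2 * r ≤ ‖w‖},
        ((f w : ℂ) * ker h ζ w + Complex.I * ((K0 h w * f w : ℝ) : ℂ))‖ ≤
        ∫ w in S h ∩ {w : ℂ | 2 * r ≤ ‖w‖}, (3 * Real.pi * r * (1 / ‖w‖ ^ 3) +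
          50 * h * (Real.exp (-|w.re|) * f w)) := by
      apply norm_integral_le_of_norm_le (hi1.add hi2)
      rw [ae_restrict_iff' (hmeasS.inter hmeasT)]
      refine Eventually.of_forall ?_
      intro w hw
      have h2 : 2 * r ≤ ‖w‖ := hw.2
      have hwp : 0 < ‖w‖ := by linarith
      have hw0 : w ≠ 0 := norm_pos_iff.1 hwp
      have hfw0 := hf.nonneg w hw.1
      have heq : (f w : ℂ) * ker h ζ w + Complex.I * ((K0 h w * f w : ℝ) : ℂ) =
          (f w : ℂ) * (ker h ζ w - ker h 0 w) := by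
        rw [ker_zero_left hh hw.1]
        push_cast
        ring
      rw [heq, norm_mul, Complex.norm_real, Real.norm_of_nonneg hfw0]
      rcases le_total |w.re| (Real.pi / 2) with hre | hre
      · have hfw := hf.near hw.1 hw0 hre
        have hk := ker_diff hh hζ hw.1 hζh hw0 h2
        calc f w * ‖ker h ζ w - ker h 0 w‖ ≤ (Real.pi / ‖w‖) * (3 * ‖ζ‖ / ‖w‖ ^ 2) :=
              mul_le_mul hfw hk (norm_nonneg _) (by positivity)
          _ = 3 * Real.pi * r * (1 / ‖w‖ ^ 3) := by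
              rw [← hr]; field_simp
          _ ≤ 3 * Real.pi * r * (1 / ‖w‖ ^ 3) + 50 * h * (Real.exp (-|w.re|) * f w) := by
              have : 0 ≤ 50 * h * (Real.exp (-|w.re|) * f w) := by positivity
              linarith
      · have hk1 := norm_ker_far hh h4 hζ hw.1 (by
          have := Complex.abs_re_le_norm ζ
          rw [← hr] at this
          linarith) hre
        have hk2 := norm_ker_far hh h4 h0S hw.1 (by simp) hre
        have hk3 : ‖ker h ζ w - ker h 0 w‖ ≤ 50 * h * Real.exp (-|w.re|) := by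
          refine (norm_sub_le _ _).trans ?_
          linarith
        calc f w * ‖ker h ζ w - ker h 0 w‖ ≤ f w * (50 * h * Real.exp (-|w.re|)) :=
              mul_le_mul_of_nonneg_left hk3 hfw0
          _ = 50 * h * (Real.exp (-|w.re|) * f w) := by ring
          _ ≤ 3 * Real.pi * r * (1 / ‖w‖ ^ 3) + 50 * h * (Real.exp (-|w.re|) * f w) := by
              have : 0 ≤ 3 * Real.pi * r * (1 / ‖w‖ ^ 3) := by positivity
              linarith
    refine hbound.trans ?_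
    rw [integral_add hi1 hi2, integral_const_mul, integral_const_mul]
    have hm1 : ∫ w in S h ∩ {w : ℂ | 2 * r ≤ ‖w‖}, 1 / ‖w‖ ^ 3 ≤
        ∫ w in {w : ℂ | 2 * r ≤ ‖w‖}, 1 / ‖w‖ ^ 3 :=
      setIntegral_mono_set ho.1 (Eventually.of_forall fun w => by positivity)
        (LE.le.eventuallyLE inter_subset_right)
    have hm2 : ∫ w in S h ∩ {w : ℂ | 2 * r ≤ ‖w‖}, Real.exp (-|w.re|) * f w ≤
        ∫ w in S h, Real.exp (-|w.re|) * f w := by
      apply setIntegral_mono_set hf1.1 _ (LE.le.eventuallyLE inter_subset_left)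
      rw [EventuallyLE, ae_restrict_iff' hmeasS]
      refine Eventually.of_forall fun w hw => ?_
      have := hf.nonneg w hw
      simp only [Pi.zero_apply]
      positivity
    rw [ho.2] at hm1
    have e1 : 3 * Real.pi * r * (∫ w in S h ∩ {w : ℂ | 2 * r ≤ ‖w‖}, 1 / ‖w‖ ^ 3) ≤
        3 * Real.pi ^ 2 := by
      calc _ ≤ 3 * Real.pi * r * (2 * Real.pi / (2 * r)) :=
            mul_le_mul_of_nonneg_left hm1 (by positivity)
        _ = 3 * Real.pi ^ 2 := by field_simp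
    have e2 : 50 * h * (∫ w in S h ∩ {w : ℂ | 2 * r ≤ ‖w‖}, Real.exp (-|w.re|) * f w) ≤
        50 * A0 := by
      have h3 : 0 ≤ ∫ w in S h ∩ {w : ℂ | 2 * r ≤ ‖w‖}, Real.exp (-|w.re|) * f w := by
        apply setIntegral_nonneg (hmeasS.inter hmeasT)
        intro w hw
        have := hf.nonneg w hw.1
        positivity
      have h5 : (∫ w in S h ∩ {w : ℂ | 2 * r ≤ ‖w‖}, Real.exp (-|w.re|) * f w) ≤ A0 :=
        hm2.trans hf1.2
      nlinarith
    linarith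

end Pool.Agent.EAC.PartK
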