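import Pool.Agent.EAC.KDefs

/-!
# EAC-K09: lower bound for the integral of `1/‖w‖²` over a sector

Polar coordinates `Complex.integral_comp_polarCoord_symm`: the set contains `{R1 ≤ r ≤ R2, π/6 ≤ θ < π/2}`
(`2 r sin θ ≥ r`, `cos θ > 0`), so the integral is `≥ (π/3) log (R2/R1) ≥ log (R2/R1)`.
-/

set_option autoImplicit false

noncomputable section

namespace Pool.Agent.EAC.PartK

open MeasureTheory Set Filter Topology Metric

private theorem angle_iff {θ : ℝ} (h1 : -Real.pi < θ) (h2 : θ < Real.pi) :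
    (0 < Real.cos θ ∧ 1 ≤ 2 * Real.sin θ) ↔ Real.pi / 6 ≤ θ ∧ θ < Real.pi / 2 := by
  have hpi := Real.pi_pos
  constructor
  · rintro ⟨hc, hs⟩
    have hlt : θ < Real.pi / 2 := by
      by_contra hge
      push Not at hge
      have := Real.cos_nonpos_of_pi_div_two_le_of_le hge (by linarith)
      linarith
    have hgt : -(Real.pi / 2) < θ := by
      by_contra hge
      push Not at hge
      have := Real.cos_nonpos_of_pi_div_two_le_of_le (x := -θ) (by linarith) (by linarith)
      rw [Real.cos_neg] at this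
      linarith
    refine ⟨?_, hlt⟩
    by_contra hge
    push Not at hge
    have := Real.strictMonoOn_sin (a := θ) (b := Real.pi / 6)
      ⟨hgt.le, hlt.le⟩ ⟨by linarith, by linarith⟩ hge
    rw [Real.sin_pi_div_six] at this
    linarith
  · rintro ⟨h3, h4⟩
    refine ⟨Real.cos_pos_of_mem_Ioo ⟨by linarith, h4⟩, ?_⟩
    have := Real.strictMonoOn_sin.monotoneOn (a := Real.pi / 6) (b := θ)
      ⟨by linarith, by linarith⟩ ⟨by linarith, h4.le⟩ h3
    rw [Real.sin_pi_div_six] at this
    linarith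

theorem sector_ge {R1 R2 : ℝ} (h1 : 0 < R1) (h2 : R1 ≤ R2) :
    Real.log (R2 / R1) ≤
      ∫ w in {w : ℂ | 0 < w.re ∧ ‖w‖ ≤ 2 * w.im ∧ R1 ≤ ‖w‖ ∧ ‖w‖ ≤ R2}, 1 / ‖w‖ ^ 2 := by
  have hpi := Real.pi_pos
  set A : Set ℂ := {w : ℂ | 0 < w.re ∧ ‖w‖ ≤ 2 * w.im ∧ R1 ≤ ‖w‖ ∧ ‖w‖ ≤ R2} with hAdef
  have hA : MeasurableSet A := by
    refine (measurableSet_lt measurable_const Complex.measurable_re).inter ?_
    refine (measurableSet_le measurable_norm (Complex.measurable_im.const_mul 2)).inter ?_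
    exact (measurableSet_le measurable_const measurable_norm).inter
      (measurableSet_le measurable_norm measurable_const)
  have hT : MeasurableSet polarCoord.target := polarCoord.open_target.measurableSet
  set Q : Set (ℝ × ℝ) := Icc R1 R2 ×ˢ Ico (Real.pi / 6) (Real.pi / 2) with hQ
  have hQm : MeasurableSet Q := measurableSet_Icc.prod measurableSet_Ico
  have key : ∀ p ∈ polarCoord.target,
      p.1 • A.indicator (fun w => 1 / ‖w‖ ^ 2) (Complex.polarCoord.symm p) =
        Q.indicator (fun p : ℝ × ℝ => p.1⁻¹ * 1) p := by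
    rintro ⟨r, θ⟩ hp
    rw [polarCoord_target] at hp
    obtain ⟨hr, hθ⟩ := hp
    simp only [mem_Ioi, mem_Ioo] at hr hθ
    have hw : Complex.polarCoord.symm (r, θ) = r * (Real.cos θ + Real.sin θ * Complex.I) :=
      Complex.polarCoord_symm_apply _
    have hre : (Complex.polarCoord.symm (r, θ)).re = r * Real.cos θ := by
      rw [hw]
      simp [Complex.cos_ofReal_re, Complex.sin_ofReal_im]
    have him : (Complex.polarCoord.symm (r, θ)).im = r * Real.sin θ := by
      rw [hw]
      simp [Complex.sin_ofReal_re, Complex.cos_ofReal_im]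
    have hn : ‖Complex.polarCoord.symm (r, θ)‖ = r := by
      rw [Complex.norm_polarCoord_symm]
      exact abs_of_pos hr
    have hiff : Complex.polarCoord.symm (r, θ) ∈ A ↔ (r, θ) ∈ Q := by
      rw [hAdef, mem_setOf_eq, hre, him, hn, hQ, mem_prod, mem_Icc, mem_Ico,
        ← angle_iff hθ.1 hθ.2]
      constructor
      · rintro ⟨a1, a2, a3, a4⟩
        refine ⟨⟨a3, a4⟩, (mul_pos_iff_of_pos_left hr).mp a1, ?_⟩
        by_contra hlt
        push Not at hlt
        nlinarith
      · rintro ⟨⟨a3, a4⟩, a1, a2⟩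
        refine ⟨mul_pos hr a1, ?_, a3, a4⟩
        have := mul_le_mul_of_nonneg_left a2 hr.le
        linarith
    by_cases hm : (r, θ) ∈ Q
    · rw [indicator_of_mem (hiff.mpr hm), indicator_of_mem hm, hn]
      simp only [smul_eq_mul]
      field_simp
    · rw [indicator_of_notMem (fun h => hm (hiff.mp h)), indicator_of_notMem hm, smul_zero]
  have hsub : Q ⊆ polarCoord.target := by
    rintro ⟨r, θ⟩ hp
    rw [hQ, mem_prod, mem_Icc, mem_Ico] at hp
    rw [polarCoord_target, mem_prod, mem_Ioi, mem_Ioo]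
    obtain ⟨⟨a, b⟩, c, d⟩ := hp
    simp only at a b c d ⊢
    exact ⟨by linarith, by linarith, by linarith⟩
  rw [← integral_indicator hA, ← Complex.integral_comp_polarCoord_symm,
    setIntegral_congr_fun hT key, setIntegral_indicator hQm, inter_eq_self_of_subset_right hsub,
    hQ, Measure.volume_eq_prod]
  have e0 : ∫ x in Icc R1 R2 ×ˢ Ico (Real.pi / 6) (Real.pi / 2),
      (fun t : ℝ => t⁻¹) x.1 * (fun _ : ℝ => (1 : ℝ)) x.2 ∂((volume : Measure ℝ).prod volume) =
      (∫ x in Icc R1 R2, (x : ℝ)⁻¹) * ∫ _ in Ico (Real.pi / 6) (Real.pi / 2), (1 : ℝ) :=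
    setIntegral_prod_mul (fun t : ℝ => t⁻¹) (fun _ : ℝ => (1 : ℝ)) _ _
  refine le_trans ?_ e0.ge
  have e1 : ∫ x in Icc R1 R2, (x : ℝ)⁻¹ = Real.log (R2 / R1) := by
    rw [integral_Icc_eq_integral_Ioc, ← intervalIntegral.integral_of_le h2,
      integral_inv_of_pos h1 (by linarith)]
  have e2 : ∫ _ in Ico (Real.pi / 6) (Real.pi / 2), (1 : ℝ) = Real.pi / 3 := by
    rw [setIntegral_const, smul_eq_mul, mul_one, Measure.real, Real.volume_Ico,
      ENNReal.toReal_ofReal (by linarith)]
    ring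
  rw [e1, e2]
  have h3 : 0 ≤ Real.log (R2 / R1) := Real.log_nonneg (by rw [le_div_iff₀ h1]; linarith)
  have h4 := Real.pi_gt_three
  nlinarith

end Pool.Agent.EAC.PartK
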