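import Pool.Agent.EAC.KDefs

/-!
# EAC-K01: elementary bounds for `sinh` and `sin`

* `norm_sinh_sq`: `sinh (x+iy) = sinh x cos y + i cosh x sin y`, `cosh² x = 1 + sinh² x`.
* `norm_sinh_ge`: `sinh² x ≥ x²`, `sin² y ≥ (2/π)² y²` for `|y| ≤ π/2` (`Real.mul_le_sin`), `(2/π)² ≤ 1`.
* `sinh_abs_re_le`, `norm_sinh_le` (power series, or `‖sinh z‖² = sinh² x + sin² y ≤ sinh² x + y²` and
  `sinh² r - r²` increasing ...; simplest: `Complex.sinh z = (exp z - exp (-z))/2`, the series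
  `Complex.hasSum_sinh` with `tsum_of_norm_bounded`).
* `norm_sinh_ge'`: `r = ‖z‖ ≤ x + π/2`, `x = |re z|`. If `r ≤ 3`: `(1+r)²/50 ≤ 16/50 ≤ 2/π`. If `r ≥ 3`:
  `x ≥ r - 1.5708`, `sinh x ≥ (x + x²/2 + x³/6)/2` (`Real.sum_le_exp_of_nonneg`, `exp(-x) ≤ 1`), and
  `(x + x²/2 + x³/6)/2 ≥ r (1+r)²/50` for `r ≤ x + 1.5708`, `x ≥ 1.42` (polynomial).
-/

set_option autoImplicit false

noncomputable section

namespace Pool.Agent.EAC.PartK

theorem norm_sinh_sq (z : ℂ) :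
    ‖Complex.sinh z‖ ^ 2 = Real.sinh z.re ^ 2 + Real.sin z.im ^ 2 := by
  have h : Complex.sinh z = ((Real.sinh z.re * Real.cos z.im : ℝ) : ℂ) +
      ((Real.cosh z.re * Real.sin z.im : ℝ) : ℂ) * Complex.I := by
    conv_lhs => rw [← Complex.re_add_im z]
    rw [Complex.sinh_add, Complex.sinh_mul_I, Complex.cosh_mul_I]
    push_cast
    ring
  rw [Complex.sq_norm, Complex.normSq_apply, h]
  simp only [Complex.add_re, Complex.ofReal_re, Complex.mul_re, Complex.I_re, Complex.ofReal_im,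
    Complex.I_im, Complex.add_im, Complex.mul_im]
  have h1 := Real.cosh_sq z.re
  have h2 := Real.sin_sq_add_cos_sq z.im
  have h3 : Real.cos z.im ^ 2 = 1 - Real.sin z.im ^ 2 := by linarith
  calc _ = Real.sinh z.re ^ 2 * Real.cos z.im ^ 2 + Real.cosh z.re ^ 2 * Real.sin z.im ^ 2 := by
        ring
    _ = _ := by rw [h1, h3]; ring

private theorem abs_le_sinh_abs (x : ℝ) : |x| ≤ Real.sinh |x| :=
  Real.self_le_sinh_iff.mpr (abs_nonneg x)

private theorem sinh_abs_sq (x : ℝ) : Real.sinh |x| ^ 2 = Real.sinh x ^ 2 := by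
  rcases abs_cases x with h | h
  · rw [h.1]
  · rw [h.1, Real.sinh_neg, neg_sq]

private theorem two_div_pi : 0 < 2 / Real.pi ∧ 2 / Real.pi ≤ 1 ∧ 16 / 50 ≤ 2 / Real.pi := by
  have h1 := Real.pi_gt_three
  have h2 := Real.pi_lt_d2
  refine ⟨by positivity, ?_, ?_⟩
  · rw [div_le_one (by positivity)]
    linarith
  · rw [div_le_div_iff₀ (by norm_num) (by positivity)]
    linarith

theorem norm_sinh_ge {z : ℂ} (hz : |z.im| ≤ Real.pi / 2) :
    2 / Real.pi * ‖z‖ ≤ ‖Complex.sinh z‖ := by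
  obtain ⟨hp0, hp1, -⟩ := two_div_pi
  refine le_of_sq_le_sq ?_ (norm_nonneg _)
  rw [norm_sinh_sq, mul_pow, Complex.sq_norm, Complex.normSq_apply]
  have h1 : |z.re| ^ 2 ≤ Real.sinh |z.re| ^ 2 :=
    pow_le_pow_left₀ (abs_nonneg _) (abs_le_sinh_abs _) 2
  rw [sinh_abs_sq, sq_abs] at h1
  have h2 : 2 / Real.pi * |z.im| ≤ Real.sin |z.im| := Real.mul_le_sin (abs_nonneg _) hz
  have h3 : (2 / Real.pi * |z.im|) ^ 2 ≤ Real.sin |z.im| ^ 2 :=
    pow_le_pow_left₀ (by positivity) h2 2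
  have h4 : Real.sin |z.im| ^ 2 = Real.sin z.im ^ 2 := by
    rcases abs_cases z.im with h | h
    · rw [h.1]
    · rw [h.1, Real.sin_neg, neg_sq]
  rw [h4, mul_pow, sq_abs] at h3
  have h5 : (2 / Real.pi) ^ 2 ≤ 1 := pow_le_one₀ hp0.le hp1
  have h6 : (2 / Real.pi) ^ 2 * z.re ^ 2 ≤ z.re ^ 2 := by
    nlinarith [sq_nonneg z.re]
  nlinarith

theorem sinh_abs_re_le (z : ℂ) : Real.sinh |z.re| ≤ ‖Complex.sinh z‖ := by
  refine le_of_sq_le_sq ?_ (norm_nonneg _)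
  rw [norm_sinh_sq, sinh_abs_sq]
  nlinarith [sq_nonneg (Real.sin z.im)]

theorem norm_sinh_le (z : ℂ) : ‖Complex.sinh z‖ ≤ Real.sinh ‖z‖ := by
  have h1 := Complex.hasSum_sinh z
  have h2 := Real.hasSum_sinh ‖z‖
  rw [← h1.tsum_eq]
  refine tsum_of_norm_bounded h2 fun n => ?_
  rw [norm_div, norm_pow, Complex.norm_natCast]

theorem norm_sinh_ge' {z : ℂ} (hz : |z.im| ≤ Real.pi / 2) :
    1 / 50 * (‖z‖ * (1 + ‖z‖) ^ 2) ≤ ‖Complex.sinh z‖ := by
  obtain ⟨hp0, hp1, hp2⟩ := two_div_pi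
  by_cases hr : ‖z‖ ≤ 3
  · refine le_trans ?_ (norm_sinh_ge hz)
    have h0 := norm_nonneg z
    have h1 : (1 + ‖z‖) ^ 2 ≤ 16 := by nlinarith
    have h2 : 1 / 50 * (1 + ‖z‖) ^ 2 ≤ 2 / Real.pi := by linarith
    calc 1 / 50 * (‖z‖ * (1 + ‖z‖) ^ 2) = (1 / 50 * (1 + ‖z‖) ^ 2) * ‖z‖ := by ring
      _ ≤ _ := mul_le_mul_of_nonneg_right h2 h0
  · push Not at hr
    refine le_trans ?_ (sinh_abs_re_le z)
    set x := |z.re| with hx
    have hpi := Real.pi_lt_d4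
    have h1 : ‖z‖ ≤ x + 1.5708 := by
      have := Complex.norm_le_abs_re_add_abs_im z
      norm_num at hpi ⊢
      linarith
    have hx1 : 1.42 ≤ x := by norm_num at h1 ⊢; linarith
    have hx0 : 0 ≤ x := abs_nonneg _
    have h2 : x + x ^ 2 / 2 + x ^ 3 / 6 ≤ 2 * Real.sinh x := by
      have h3 := Real.sum_le_exp_of_nonneg hx0 4
      simp [Finset.sum_range_succ, Nat.factorial] at h3
      have h4 : Real.exp (-x) ≤ 1 := Real.exp_le_one_iff.mpr (by linarith)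
      rw [Real.sinh_eq]
      linarith
    have h3 : ‖z‖ * (1 + ‖z‖) ^ 2 ≤ (x + 1.5708) * (1 + (x + 1.5708)) ^ 2 := by
      have h0 := norm_nonneg z
      gcongr
    have h4 : 1 / 50 * ((x + 1.5708) * (1 + (x + 1.5708)) ^ 2) ≤
        (x + x ^ 2 / 2 + x ^ 3 / 6) / 2 := by
      norm_num at hx1 ⊢
      nlinarith [mul_nonneg (sub_nonneg.mpr hx1) (sub_nonneg.mpr hx1),
        mul_nonneg (mul_nonneg (sub_nonneg.mpr hx1) (sub_nonneg.mpr hx1)) (sub_nonneg.mpr hx1)]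
    linarith

private theorem sin_eq (z : ℂ) : ‖Complex.sin z‖ = ‖Complex.sinh (z * Complex.I)‖ := by
  rw [Complex.sinh_mul_I, norm_mul, Complex.norm_I, mul_one]

theorem norm_sin_sq (z : ℂ) :
    ‖Complex.sin z‖ ^ 2 = Real.sin z.re ^ 2 + Real.sinh z.im ^ 2 := by
  rw [sin_eq, norm_sinh_sq]
  simp only [Complex.mul_re, Complex.I_re, mul_zero, Complex.I_im, mul_one, zero_sub,
    Complex.mul_im, add_zero, Real.sinh_neg, neg_sq]
  ring

theorem norm_sin_ge {z : ℂ} (hz : |z.re| ≤ Real.pi / 2) :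
    2 / Real.pi * ‖z‖ ≤ ‖Complex.sin z‖ := by
  rw [sin_eq]
  have h := norm_sinh_ge (z := z * Complex.I) (by simpa using hz)
  rwa [norm_mul, Complex.norm_I, mul_one] at h

/-- in particular `|sin z| ≥ |im z|`. -/
theorem norm_sin_ge_im (z : ℂ) : |z.im| ≤ ‖Complex.sin z‖ := by
  rw [sin_eq]
  have h := sinh_abs_re_le (z * Complex.I)
  have h1 : |(z * Complex.I).re| = |z.im| := by simp
  rw [h1] at h
  exact le_trans (abs_le_sinh_abs _) h

theorem norm_sin_le {z : ℂ} (hz : ‖z‖ ≤ 1) : ‖Complex.sin z‖ ≤ 2 * ‖z‖ := by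
  rw [sin_eq]
  have h := norm_sinh_le (z * Complex.I)
  rw [norm_mul, Complex.norm_I, mul_one] at h
  refine le_trans h ?_
  have h0 := norm_nonneg z
  have h1 := (abs_le.mp (Real.abs_exp_sub_one_sub_id_le (x := ‖z‖)
    (by rw [abs_of_nonneg h0]; exact hz))).2
  have h2 := Real.add_one_le_exp (-‖z‖)
  rw [Real.sinh_eq]
  nlinarith

end Pool.Agent.EAC.PartK
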