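import Pool.Agent.EAC.KSinh

/-!
# EAC-K06: the coordinate `s = sq ζ = (tan (ζ/2))^{1/2}` near the corner

`u = ζ/2`, `tan (a+ib) = (sin a cos a + i sinh b cosh b)/(cos² a + sinh² b)`,
`‖tan (a+ib)‖² = (sin² a + sinh² b)/(cos² a + sinh² b)`.
-/

set_option autoImplicit false

noncomputable section

namespace Pool.Agent.EAC.PartK

open Set Filter Topology Metric
open scoped ComplexConjugate

namespace KSqAux

theorem sin_re (u : ℂ) : (Complex.sin u).re = Real.sin u.re * Real.cosh u.im := by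
  rw [Complex.sin_eq]
  simp [← Complex.ofReal_sin, ← Complex.ofReal_cos, ← Complex.ofReal_cosh, ← Complex.ofReal_sinh]

theorem sin_im (u : ℂ) : (Complex.sin u).im = Real.cos u.re * Real.sinh u.im := by
  rw [Complex.sin_eq]
  simp [← Complex.ofReal_sin, ← Complex.ofReal_cos, ← Complex.ofReal_cosh, ← Complex.ofReal_sinh]

theorem cos_re (u : ℂ) : (Complex.cos u).re = Real.cos u.re * Real.cosh u.im := by
  rw [Complex.cos_eq]
  simp [← Complex.ofReal_sin, ← Complex.ofReal_cos, ← Complex.ofReal_cosh, ← Complex.ofReal_sinh]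

theorem cos_im (u : ℂ) : (Complex.cos u).im = -(Real.sin u.re * Real.sinh u.im) := by
  rw [Complex.cos_eq]
  simp [← Complex.ofReal_sin, ← Complex.ofReal_cos, ← Complex.ofReal_cosh, ← Complex.ofReal_sinh]

theorem normSq_cos (u : ℂ) :
    Complex.normSq (Complex.cos u) = Real.cos u.re ^ 2 + Real.sinh u.im ^ 2 := by
  rw [Complex.normSq_apply, cos_re, cos_im]
  have h1 := Real.cosh_sq u.im
  have h2 := Real.sin_sq_add_cos_sq u.re
  have h3 : Real.cos u.re * Real.cosh u.im * (Real.cos u.re * Real.cosh u.im) =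
      Real.cos u.re ^ 2 * Real.cosh u.im ^ 2 := by ring
  rw [h3, h1]
  have h4 : Real.sin u.re ^ 2 = 1 - Real.cos u.re ^ 2 := by linarith
  have h5 : -(Real.sin u.re * Real.sinh u.im) * -(Real.sin u.re * Real.sinh u.im) =
      Real.sin u.re ^ 2 * Real.sinh u.im ^ 2 := by ring
  rw [h5, h4]
  ring

theorem normSq_sin (u : ℂ) :
    Complex.normSq (Complex.sin u) = Real.sin u.re ^ 2 + Real.sinh u.im ^ 2 := by
  rw [Complex.normSq_apply, sin_re, sin_im]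
  have h1 := Real.cosh_sq u.im
  have h2 := Real.sin_sq_add_cos_sq u.re
  have h3 : Real.sin u.re * Real.cosh u.im * (Real.sin u.re * Real.cosh u.im) =
      Real.sin u.re ^ 2 * Real.cosh u.im ^ 2 := by ring
  rw [h3, h1]
  have h4 : Real.cos u.re ^ 2 = 1 - Real.sin u.re ^ 2 := by linarith
  have h5 : Real.cos u.re * Real.sinh u.im * (Real.cos u.re * Real.sinh u.im) =
      Real.cos u.re ^ 2 * Real.sinh u.im ^ 2 := by ring
  rw [h5, h4]
  ring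

theorem tan_re (u : ℂ) : (Complex.tan u).re =
    Real.sin u.re * Real.cos u.re / Complex.normSq (Complex.cos u) := by
  have h1 := Real.cosh_sq u.im
  rw [Complex.tan_eq_sin_div_cos, Complex.div_re, sin_re, sin_im, cos_re, cos_im, ← add_div]
  congr 1
  have : Real.sin u.re * Real.cosh u.im * (Real.cos u.re * Real.cosh u.im) +
      Real.cos u.re * Real.sinh u.im * -(Real.sin u.re * Real.sinh u.im) =
      Real.sin u.re * Real.cos u.re * (Real.cosh u.im ^ 2 - Real.sinh u.im ^ 2) := by ring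
  rw [this, h1]
  ring

theorem tan_im (u : ℂ) : (Complex.tan u).im =
    Real.sinh u.im * Real.cosh u.im / Complex.normSq (Complex.cos u) := by
  have h2 := Real.sin_sq_add_cos_sq u.re
  rw [Complex.tan_eq_sin_div_cos, Complex.div_im, sin_re, sin_im, cos_re, cos_im, ← sub_div]
  congr 1
  have : Real.cos u.re * Real.sinh u.im * (Real.cos u.re * Real.cosh u.im) -
      Real.sin u.re * Real.cosh u.im * -(Real.sin u.re * Real.sinh u.im) =
      Real.sinh u.im * Real.cosh u.im * (Real.sin u.re ^ 2 + Real.cos u.re ^ 2) := by ring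
  rw [this, h2]
  ring

theorem tan_normSq (u : ℂ) : ‖Complex.tan u‖ ^ 2 =
    (Real.sin u.re ^ 2 + Real.sinh u.im ^ 2) / (Real.cos u.re ^ 2 + Real.sinh u.im ^ 2) := by
  rw [← Complex.normSq_eq_norm_sq, Complex.tan_eq_sin_div_cos, Complex.normSq_div, normSq_sin,
    normSq_cos]

theorem sinh_sq_le {b : ℝ} (h0 : 0 ≤ b) (h1 : b ≤ 1 / 4) : Real.sinh b ^ 2 ≤ 16 / 15 * b ^ 2 := by
  have hb2 : b ^ 2 ≤ 1 / 16 := by nlinarith
  have h2 := Real.cosh_le_exp_half_sq b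
  have h3 : Real.cosh b ^ 2 ≤ Real.exp (b ^ 2) := by
    have h4 : Real.cosh b ^ 2 ≤ Real.exp (b ^ 2 / 2) ^ 2 :=
      pow_le_pow_left₀ (Real.cosh_pos b).le h2 2
    have h5 : Real.exp (b ^ 2 / 2) ^ 2 = Real.exp (b ^ 2) := by
      rw [← Real.exp_nat_mul]; congr 1; push_cast; ring
    rw [h5] at h4; exact h4
  have h6 : Real.exp (b ^ 2) ≤ 1 / (1 - b ^ 2) :=
    Real.exp_bound_div_one_sub_of_interval (by positivity) (by linarith)
  have h7 : 1 / (1 - b ^ 2) ≤ 1 + 16 / 15 * b ^ 2 := by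
    rw [div_le_iff₀ (by linarith)]
    nlinarith [sq_nonneg b]
  have h8 := Real.cosh_sq b
  linarith

theorem tan_bounds {u : ℂ} (h0 : 0 ≤ u.re) (h1 : 0 ≤ u.im) (h3 : ‖u‖ ≤ 1 / 4) :
    16 / 25 * ‖u‖ ^ 2 ≤ ‖Complex.tan u‖ ^ 2 ∧ ‖Complex.tan u‖ ^ 2 ≤ 36 / 25 * ‖u‖ ^ 2 := by
  have ha : u.re ≤ 1 / 4 := (Complex.re_le_norm u).trans h3
  have hb : u.im ≤ 1 / 4 := (Complex.im_le_norm u).trans h3
  have hn : ‖u‖ ^ 2 = u.re ^ 2 + u.im ^ 2 := by
    rw [← Complex.normSq_eq_norm_sq, Complex.normSq_apply]; ring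
  have s1 : Real.sin u.re ≤ u.re := Real.sin_le h0
  have s0 : 0 ≤ Real.sin u.re := Real.sin_nonneg_of_nonneg_of_le_pi h0
    (by linarith [Real.pi_gt_three])
  have s2 : 63 / 64 * u.re ≤ Real.sin u.re := by
    rcases h0.eq_or_lt with h | h
    · rw [← h]; simp
    · have h4 := Real.sin_gt_sub_cube h
      have h5 : u.re ^ 3 ≤ 1 / 16 * u.re := by nlinarith [mul_nonneg h0 (sub_nonneg.2 ha)]
      linarith
  have t1 : u.im ≤ Real.sinh u.im := Real.self_le_sinh_iff.2 h1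
  have t2 := sinh_sq_le h1 hb
  have t3 : u.im ^ 2 ≤ Real.sinh u.im ^ 2 := pow_le_pow_left₀ h1 t1 2
  have q1 : Real.sin u.re ^ 2 ≤ u.re ^ 2 := pow_le_pow_left₀ s0 s1 2
  have q2 : (63 / 64 * u.re) ^ 2 ≤ Real.sin u.re ^ 2 :=
    pow_le_pow_left₀ (by positivity) s2 2
  have c1 : Real.cos u.re ^ 2 = 1 - Real.sin u.re ^ 2 := by
    have := Real.sin_sq_add_cos_sq u.re; linarith
  have r1 : u.re ^ 2 ≤ 1 / 16 := by nlinarith
  have r2 : u.im ^ 2 ≤ 1 / 16 := by nlinarith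
  have D1 : 15 / 16 ≤ Real.cos u.re ^ 2 + Real.sinh u.im ^ 2 := by
    rw [c1]; nlinarith [sq_nonneg (Real.sinh u.im)]
  have D2 : Real.cos u.re ^ 2 + Real.sinh u.im ^ 2 ≤ 16 / 15 := by
    rw [c1]; nlinarith [sq_nonneg (Real.sin u.re)]
  rw [tan_normSq, hn]
  constructor
  · rw [le_div_iff₀ (by linarith)]
    have hm : 16 / 25 * (u.re ^ 2 + u.im ^ 2) * (Real.cos u.re ^ 2 + Real.sinh u.im ^ 2) ≤
        16 / 25 * (u.re ^ 2 + u.im ^ 2) * (16 / 15) :=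
      mul_le_mul_of_nonneg_left D2 (by positivity)
    nlinarith [sq_nonneg u.re, sq_nonneg u.im]
  · rw [div_le_iff₀ (by linarith)]
    have hm : 36 / 25 * (u.re ^ 2 + u.im ^ 2) * (15 / 16) ≤
        36 / 25 * (u.re ^ 2 + u.im ^ 2) * (Real.cos u.re ^ 2 + Real.sinh u.im ^ 2) :=
      mul_le_mul_of_nonneg_left D1 (by positivity)
    nlinarith [sq_nonneg u.re, sq_nonneg u.im]

theorem cos_pos_nq {u : ℂ} (h0 : 0 ≤ u.re) (h3 : ‖u‖ ≤ 1 / 4) :
    0 < Complex.normSq (Complex.cos u) := by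
  have ha : u.re ≤ 1 / 4 := (Complex.re_le_norm u).trans h3
  have hc : 0 < Real.cos u.re := Real.cos_pos_of_mem_Ioo
    ⟨by linarith [Real.pi_gt_three], by linarith [Real.pi_gt_three]⟩
  rw [normSq_cos]
  positivity

theorem tan_re_nonneg {u : ℂ} (h0 : 0 ≤ u.re) (h3 : ‖u‖ ≤ 1 / 4) : 0 ≤ (Complex.tan u).re := by
  have ha : u.re ≤ 1 / 4 := (Complex.re_le_norm u).trans h3
  have hc : 0 < Real.cos u.re := Real.cos_pos_of_mem_Ioo
    ⟨by linarith [Real.pi_gt_three], by linarith [Real.pi_gt_three]⟩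
  have s0 : 0 ≤ Real.sin u.re := Real.sin_nonneg_of_nonneg_of_le_pi h0
    (by linarith [Real.pi_gt_three])
  rw [tan_re]
  exact div_nonneg (mul_nonneg s0 hc.le) (cos_pos_nq h0 h3).le

theorem tan_im_nonneg {u : ℂ} (h0 : 0 ≤ u.re) (h1 : 0 ≤ u.im) (h3 : ‖u‖ ≤ 1 / 4) :
    0 ≤ (Complex.tan u).im := by
  rw [tan_im]
  exact div_nonneg (mul_nonneg (Real.sinh_nonneg_iff.2 h1) (Real.cosh_pos _).le)
    (cos_pos_nq h0 h3).le

/-- facts on the principal square root of a point of the closed first quadrant. -/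
theorem root_facts {T : ℂ} (h0 : 0 ≤ T.re) (h1 : 0 ≤ T.im) (h2 : T ≠ 0) :
    0 < (T ^ (1 / 2 : ℂ)).re ∧ 0 ≤ (T ^ (1 / 2 : ℂ)).im ∧
      (T ^ (1 / 2 : ℂ)).im ≤ (T ^ (1 / 2 : ℂ)).re ∧ (T ^ (1 / 2 : ℂ)) ^ 2 = T := by
  have hsq : (T ^ (1 / 2 : ℂ)) ^ 2 = T := by
    have := Complex.cpow_nat_inv_pow T (n := 2) two_ne_zero
    have h : (1 / 2 : ℂ) = ((2 : ℕ) : ℂ)⁻¹ := by norm_num
    rw [h]; exact this
  have ha0 : 0 ≤ Complex.arg T := Complex.arg_nonneg_iff.2 h1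
  have ha1 : Complex.arg T ≤ Real.pi / 2 := by
    have := Complex.abs_arg_le_pi_div_two_iff.2 h0
    exact (abs_le.1 this).2
  have him : (Complex.log T * (1 / 2 : ℂ)).im = Complex.arg T / 2 := by
    rw [show Complex.log T * (1 / 2 : ℂ) = ((1 / 2 : ℝ) : ℂ) * Complex.log T by push_cast; ring,
      Complex.im_ofReal_mul, Complex.log_im]
    ring
  have hre1 : 0 < (T ^ (1 / 2 : ℂ)).re := by
    rw [Complex.cpow_def_of_ne_zero h2, Complex.exp_re, him]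
    refine mul_pos (Real.exp_pos _) (Real.cos_pos_of_mem_Ioo ⟨?_, ?_⟩)
    · linarith [Real.pi_pos]
    · linarith [Real.pi_pos]
  have him1 : 0 ≤ (T ^ (1 / 2 : ℂ)).im := by
    rw [Complex.cpow_def_of_ne_zero h2, Complex.exp_im, him]
    refine mul_nonneg (Real.exp_pos _).le (Real.sin_nonneg_of_nonneg_of_le_pi ?_ ?_)
    · linarith
    · linarith [Real.pi_pos]
  refine ⟨hre1, him1, ?_, hsq⟩
  have h4 : T.re = (T ^ (1 / 2 : ℂ)).re ^ 2 - (T ^ (1 / 2 : ℂ)).im ^ 2 := by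
    conv_lhs => rw [← hsq]
    rw [pow_two, Complex.mul_re]; ring
  by_contra hlt
  push Not at hlt
  nlinarith

end KSqAux

open KSqAux

theorem sq_facts {ζ : ℂ} (h0 : 0 ≤ ζ.re) (h1 : 0 ≤ ζ.im) (h2 : ζ ≠ 0) (h3 : ‖ζ‖ ≤ 1 / 2) :
    0 < (sq ζ).re ∧ 0 ≤ (sq ζ).im ∧ (sq ζ).im ≤ (sq ζ).re ∧ sq ζ ^ 2 = Complex.tan (ζ / 2) ∧
      2 / 5 * ‖ζ‖ ≤ ‖sq ζ‖ ^ 2 ∧ ‖sq ζ‖ ^ 2 ≤ 3 / 5 * ‖ζ‖ := by
  have hre : (ζ / 2).re = ζ.re / 2 := by
    rw [show ζ / 2 = ((1 / 2 : ℝ) : ℂ) * ζ by push_cast; ring, Complex.re_ofReal_mul]; ring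
  have him : (ζ / 2).im = ζ.im / 2 := by
    rw [show ζ / 2 = ((1 / 2 : ℝ) : ℂ) * ζ by push_cast; ring, Complex.im_ofReal_mul]; ring
  have hn : ‖ζ / 2‖ = ‖ζ‖ / 2 := by rw [norm_div]; norm_num
  have g0 : 0 ≤ (ζ / 2).re := by rw [hre]; linarith
  have g1 : 0 ≤ (ζ / 2).im := by rw [him]; linarith
  have g3 : ‖ζ / 2‖ ≤ 1 / 4 := by rw [hn]; linarith
  have hpos : 0 < ‖ζ‖ := norm_pos_iff.2 h2
  obtain ⟨hb1, hb2⟩ := tan_bounds g0 g1 g3
  rw [hn] at hb1 hb2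
  have hT0 : 0 < ‖Complex.tan (ζ / 2)‖ := by
    by_contra hlt
    have : ‖Complex.tan (ζ / 2)‖ = 0 := le_antisymm (not_lt.1 hlt) (norm_nonneg _)
    rw [this] at hb1
    nlinarith
  obtain ⟨e1, e2, e3, e4⟩ := root_facts (tan_re_nonneg g0 g3) (tan_im_nonneg g0 g1 g3)
    (norm_pos_iff.1 hT0)
  have hs : sq ζ = Complex.tan (ζ / 2) ^ (1 / 2 : ℂ) := rfl
  have hns : ‖sq ζ‖ ^ 2 = ‖Complex.tan (ζ / 2)‖ := by
    rw [← norm_pow, hs, e4]
  refine ⟨by rw [hs]; exact e1, by rw [hs]; exact e2, by rw [hs]; exact e3, by rw [hs]; exact e4,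
    ?_, ?_⟩
  · rw [hns]
    refine le_of_sq_le_sq ?_ hT0.le
    nlinarith
  · rw [hns]
    refine le_of_sq_le_sq ?_ (by positivity)
    nlinarith

theorem hasDerivAt_sq {ζ : ℂ} (h0 : 0 ≤ ζ.re) (h1 : 0 ≤ ζ.im) (h2 : ζ ≠ 0) (h3 : ‖ζ‖ ≤ 1 / 2) :
    HasDerivAt sq ((1 + sq ζ ^ 4) / (4 * sq ζ)) ζ := by
  obtain ⟨f1, f2, f3, f4, -, -⟩ := sq_facts h0 h1 h2 h3
  have hre : (ζ / 2).re = ζ.re / 2 := by
    rw [show ζ / 2 = ((1 / 2 : ℝ) : ℂ) * ζ by push_cast; ring, Complex.re_ofReal_mul]; ring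
  have him : (ζ / 2).im = ζ.im / 2 := by
    rw [show ζ / 2 = ((1 / 2 : ℝ) : ℂ) * ζ by push_cast; ring, Complex.im_ofReal_mul]; ring
  have hn : ‖ζ / 2‖ = ‖ζ‖ / 2 := by rw [norm_div]; norm_num
  have g0 : 0 ≤ (ζ / 2).re := by rw [hre]; linarith
  have g1 : 0 ≤ (ζ / 2).im := by rw [him]; linarith
  have g3 : ‖ζ / 2‖ ≤ 1 / 4 := by rw [hn]; linarith
  have hs0 : sq ζ ≠ 0 := by
    intro h
    rw [h] at f1
    simp at f1
  have hT0 : Complex.tan (ζ / 2) ≠ 0 := by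
    rw [← f4]; exact pow_ne_zero 2 hs0
  have hsl : Complex.tan (ζ / 2) ∈ Complex.slitPlane := by
    rw [Complex.mem_slitPlane_iff]
    by_contra hcon
    push Not at hcon
    have e1 : (Complex.tan (ζ / 2)).re = 0 := le_antisymm hcon.1 (tan_re_nonneg g0 g3)
    exact hT0 (Complex.ext e1 hcon.2)
  have hc0 : Complex.cos (ζ / 2) ≠ 0 := by
    intro h
    have := cos_pos_nq g0 g3
    rw [h] at this
    simp at this
  have d1 : HasDerivAt (fun z : ℂ => z / 2) (1 / 2) ζ := (hasDerivAt_id ζ).div_const 2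
  have d2 : HasDerivAt (fun z : ℂ => Complex.tan (z / 2)) (1 / Complex.cos (ζ / 2) ^ 2 * (1 / 2)) ζ :=
    HasDerivAt.comp (h₂ := Complex.tan) (h := fun z : ℂ => z / 2) ζ (Complex.hasDerivAt_tan hc0) d1
  have d3 := d2.cpow_const (c := (1 / 2 : ℂ)) hsl
  have hval : (1 / 2 : ℂ) * Complex.tan (ζ / 2) ^ ((1 / 2 : ℂ) - 1) *
      (1 / Complex.cos (ζ / 2) ^ 2 * (1 / 2)) = (1 + sq ζ ^ 4) / (4 * sq ζ) := by
    have k1 : 1 / Complex.cos (ζ / 2) ^ 2 = 1 + sq ζ ^ 4 := by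
      rw [show sq ζ ^ 4 = (sq ζ ^ 2) ^ 2 by ring, f4, Complex.tan_eq_sin_div_cos]
      field_simp
      rw [add_comm, Complex.sin_sq_add_cos_sq]
    have k2 : Complex.tan (ζ / 2) ^ ((1 / 2 : ℂ) - 1) = 1 / sq ζ := by
      rw [Complex.cpow_sub _ _ hT0, Complex.cpow_one]
      have : Complex.tan (ζ / 2) ^ (1 / 2 : ℂ) = sq ζ := rfl
      rw [this, ← f4]
      field_simp
    rw [k1, k2]
    field_simp
    ring
  rw [hval] at d3
  exact d3

theorem sq_arctan {σ : ℝ} (h0 : 0 < σ) (h1 : σ ≤ 1 / 4) :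
    sq ((2 * Real.arctan (σ ^ 2) : ℝ) : ℂ) = σ ∧ 0 < 2 * Real.arctan (σ ^ 2) ∧
      2 * Real.arctan (σ ^ 2) < 1 / 2 := by
  have hσ2 : 0 < σ ^ 2 := by positivity
  have hpos : 0 < Real.arctan (σ ^ 2) := by
    rw [Real.arctan_pos]; exact hσ2
  refine ⟨?_, by linarith, ?_⟩
  · unfold sq
    have e1 : (((2 * Real.arctan (σ ^ 2) : ℝ) : ℂ)) / 2 = ((Real.arctan (σ ^ 2) : ℝ) : ℂ) := by
      push_cast; ring
    rw [e1, ← Complex.ofReal_tan, Real.tan_arctan]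
    have e2 : (1 / 2 : ℂ) = ((1 / 2 : ℝ) : ℂ) := by push_cast; ring
    rw [e2, ← Complex.ofReal_cpow hσ2.le]
    congr 1
    rw [← Real.sqrt_eq_rpow, Real.sqrt_sq h0.le]
  · have h4 : Real.arctan (σ ^ 2) < Real.tan (Real.arctan (σ ^ 2)) :=
      Real.lt_tan hpos (Real.arctan_lt_pi_div_two _)
    rw [Real.tan_arctan] at h4
    nlinarith

end Pool.Agent.EAC.PartK
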