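import Pool.Agent.EAC.KII
import Pool.Agent.EAC.KRho
import Pool.Agent.EAC.KSq
import Pool.Agent.EAC.KSector

/-!
# EAC-K15: the vorticity of the wedge makes the strain grow

`R1 = 8a²`, `R2 = b²/2`. If `R2 < R1` then `2 log (b/a) < log 16` and the claim follows from `II_antitone`. Otherwise the set
`Rg = {0 < re w, ‖w‖ ≤ 2 im w, R1 ≤ ‖w‖ ≤ R2}` is contained in `S h` (`im w ≤ ‖w‖ ≤ b²/2 ≤ h/2`), in `{4a² ≤ ‖w‖ < 4b²}` and in
`Om h a b`: with `s = sq w` (`sq_facts`) `s1² ≥ ‖s‖²/2 ≥ ‖w‖/5 ≥ 8a²/5 > a²`, `s1² ≤ ‖s‖² ≤ (3/5) b²/2 < b²`.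
There `f ≥ rho ≥ 1/(100‖sin w‖) ≥ 1/(200 ‖w‖)` (`rho_ge`, `norm_sin_le`) and `K0 ≥ 1/(16‖w‖)` (`K0_ge`), so
`I(2a²) - I(2b²) = ∫_{4a² ≤ ‖w‖ < 4b²} K0 f ≥ (1/3200) ∫_{Rg} ‖w‖^{-2} ≥ (1/3200) log (R2/R1)` (`sector_ge`),
`log (R2/R1) = 2 log (b/a) - log 16`.
-/

set_option autoImplicit false

noncomputable section

namespace Pool.Agent.EAC.PartK

open MeasureTheory Set Filter Topology Metric

private theorem wedge_point {h : ℝ} (hh : 0 < h) (h4 : h ≤ 1 / 4) {f : ℂ → ℝ} {a b : ℝ}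
    (ha : 0 < a) (hab : a < b) (hb : b ^ 2 ≤ h) (hf : ∀ ζ ∈ Om h a b, rho ζ ≤ f ζ) {w : ℂ}
    (h0 : 0 < w.re) (h1 : ‖w‖ ≤ 2 * w.im) (h2 : 8 * a ^ 2 ≤ ‖w‖) (h3 : ‖w‖ ≤ b ^ 2 / 2) :
    w ∈ S h ∧ 1 / 3200 * (1 / ‖w‖ ^ 2) ≤ K0 h w * f w := by
  have hb0 : 0 < b := ha.trans hab
  have ha2 : 0 < a ^ 2 := by positivity
  have hn : 0 < ‖w‖ := by linarith
  have hne : w ≠ 0 := norm_pos_iff.1 hn
  have him : 0 < w.im := by linarith
  have him' : w.im ≤ ‖w‖ := (le_abs_self _).trans (Complex.abs_im_le_norm w)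
  have hS : w ∈ S h := ⟨him.le, by linarith⟩
  refine ⟨hS, ?_⟩
  have hK := K0_ge hh hS hne (by linarith) h1
  obtain ⟨s1, s2, s3, -, s5, s6⟩ := sq_facts h0.le him.le hne (by linarith)
  have hsn : ‖sq w‖ ^ 2 = (sq w).re ^ 2 + (sq w).im ^ 2 := by
    rw [Complex.sq_norm, Complex.normSq_apply]; ring
  have hs2 : (sq w).im ^ 2 ≤ (sq w).re ^ 2 := pow_le_pow_left₀ s2 s3 2
  have hs2' : 0 ≤ (sq w).im ^ 2 := sq_nonneg _
  have hOm : w ∈ Om h a b := by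
    refine ⟨hS, h0, by linarith, ?_, ?_⟩
    · refine lt_of_pow_lt_pow_left₀ 2 s1.le ?_
      linarith
    · refine lt_of_pow_lt_pow_left₀ 2 hb0.le ?_
      have : 0 < b ^ 2 := by positivity
      linarith
  have hsin : 0 < ‖Complex.sin w‖ :=
    lt_of_lt_of_le (abs_pos.2 him.ne') (norm_sin_ge_im w)
  have hrho := rho_ge him.le (by linarith) (norm_pos_iff.1 hsin)
  have hsl := norm_sin_le (z := w) (by linarith)
  have hfw : 1 / (200 * ‖w‖) ≤ f w := by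
    refine le_trans ?_ (hrho.trans (hf w hOm))
    exact one_div_le_one_div_of_le (by positivity) (by linarith)
  calc 1 / 3200 * (1 / ‖w‖ ^ 2) = 1 / (16 * ‖w‖) * (1 / (200 * ‖w‖)) := by
        field_simp; norm_num
    _ ≤ K0 h w * f w := mul_le_mul hK hfw (by positivity) (le_trans (by positivity) hK)

theorem II_wedge : ∃ c > 0, ∀ h, 0 < h → h ≤ 1 / 4 → ∀ f, Dens h f → ∀ a b, 0 < a → a < b →
    b ^ 2 ≤ h → (∀ ζ ∈ Om h a b, rho ζ ≤ f ζ) →
      c * (2 * Real.log (b / a) - Real.log 16) ≤ II h f (2 * a ^ 2) - II h f (2 * b ^ 2) := by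
  refine ⟨1 / 3200, by norm_num, fun h hh h4 f hf a b ha hab hb hfr => ?_⟩
  have hb0 : 0 < b := ha.trans hab
  have ha2 : 0 < a ^ 2 := by positivity
  have hb2 : 0 < b ^ 2 := by positivity
  have hab2 : a ^ 2 ≤ b ^ 2 := pow_le_pow_left₀ ha.le hab.le 2
  have hlog : 2 * Real.log (b / a) - Real.log 16 = Real.log ((b ^ 2 / 2) / (8 * a ^ 2)) := by
    have e : (b ^ 2 / 2) / (8 * a ^ 2) = (b / a) ^ 2 / 16 := by
      field_simp; norm_num
    rw [e, Real.log_div (x := (b / a) ^ 2) (by positivity) (by norm_num : (16 : ℝ) ≠ 0), Real.log_pow]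
    norm_num
  rw [hlog]
  rcases lt_or_ge (b ^ 2 / 2) (8 * a ^ 2) with hc | hc
  · have h1 : Real.log ((b ^ 2 / 2) / (8 * a ^ 2)) ≤ 0 := by
      refine Real.log_nonpos (by positivity) ?_
      rw [div_le_one (by positivity)]
      exact hc.le
    have h2 := II_antitone hh h4 hf (r1 := 2 * a ^ 2) (r2 := 2 * b ^ 2) (by positivity)
      (by linarith)
    have : 1 / 3200 * Real.log ((b ^ 2 / 2) / (8 * a ^ 2)) ≤ 0 :=
      mul_nonpos_of_nonneg_of_nonpos (by norm_num) h1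
    linarith
  · have hmS := KInt.measS h
    have hmR : ∀ r : ℝ, MeasurableSet (S h ∩ {w : ℂ | 2 * r ≤ ‖w‖}) := fun r =>
      hmS.inter (measurableSet_le measurable_const measurable_norm)
    have hi := integrableOn_K0 hh h4 hf (r := 2 * a ^ 2) (by positivity)
    have hsub : S h ∩ {w : ℂ | 2 * (2 * b ^ 2) ≤ ‖w‖} ⊆ S h ∩ {w : ℂ | 2 * (2 * a ^ 2) ≤ ‖w‖} := by
      rintro w ⟨hw1, hw2⟩
      refine ⟨hw1, ?_⟩
      simp only [mem_setOf_eq] at hw2 ⊢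
      linarith
    have hdiff : II h f (2 * a ^ 2) - II h f (2 * b ^ 2) =
        ∫ w in (S h ∩ {w : ℂ | 2 * (2 * a ^ 2) ≤ ‖w‖}) \ (S h ∩ {w : ℂ | 2 * (2 * b ^ 2) ≤ ‖w‖}),
          K0 h w * f w := by
      rw [integral_diff (hmR _) hi hsub]
      rfl
    rw [hdiff]
    set Rg : Set ℂ := {w : ℂ | 0 < w.re ∧ ‖w‖ ≤ 2 * w.im ∧ 8 * a ^ 2 ≤ ‖w‖ ∧ ‖w‖ ≤ b ^ 2 / 2}
      with hRg
    have hmRg : MeasurableSet Rg := by
      refine (measurableSet_lt measurable_const Complex.measurable_re).inter ?_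
      refine (measurableSet_le measurable_norm (Complex.measurable_im.const_mul 2)).inter ?_
      exact (measurableSet_le measurable_const measurable_norm).inter
        (measurableSet_le measurable_norm measurable_const)
    have hRsub : Rg ⊆ (S h ∩ {w : ℂ | 2 * (2 * a ^ 2) ≤ ‖w‖}) \
        (S h ∩ {w : ℂ | 2 * (2 * b ^ 2) ≤ ‖w‖}) := by
      rintro w ⟨w0, w1, w2, w3⟩
      refine ⟨⟨(wedge_point hh h4 ha hab hb hfr w0 w1 w2 w3).1, ?_⟩, ?_⟩
      · simp only [mem_setOf_eq]; linarith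
      · rintro ⟨-, h5⟩
        simp only [mem_setOf_eq] at h5
        linarith
    have hid : IntegrableOn (fun w => K0 h w * f w) ((S h ∩ {w : ℂ | 2 * (2 * a ^ 2) ≤ ‖w‖}) \
        (S h ∩ {w : ℂ | 2 * (2 * b ^ 2) ≤ ‖w‖})) := hi.mono_set diff_subset
    have hiR : IntegrableOn (fun w => K0 h w * f w) Rg := hid.mono_set hRsub
    have hpt : ∀ w ∈ Rg, 1 / 3200 * (1 / ‖w‖ ^ 2) ≤ K0 h w * f w := fun w hw =>
      (wedge_point hh h4 ha hab hb hfr hw.1 hw.2.1 hw.2.2.1 hw.2.2.2).2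
    have hiL : IntegrableOn (fun w : ℂ => 1 / 3200 * (1 / ‖w‖ ^ 2)) Rg := by
      refine Integrable.mono' hiR ?_ ?_
      · have hm : Measurable (fun w : ℂ => 1 / 3200 * (1 / ‖w‖ ^ 2)) := by fun_prop
        exact hm.aestronglyMeasurable
      · refine (ae_restrict_iff' hmRg).2 (Eventually.of_forall fun w hw => ?_)
        rw [Real.norm_of_nonneg (by positivity)]
        exact hpt w hw
    calc 1 / 3200 * Real.log ((b ^ 2 / 2) / (8 * a ^ 2))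
        ≤ 1 / 3200 * ∫ w in Rg, 1 / ‖w‖ ^ 2 :=
          mul_le_mul_of_nonneg_left (sector_ge (by positivity) hc) (by norm_num)
      _ = ∫ w in Rg, 1 / 3200 * (1 / ‖w‖ ^ 2) := (integral_const_mul _ _).symm
      _ ≤ ∫ w in Rg, K0 h w * f w := setIntegral_mono_on hiL hiR hmRg hpt
      _ ≤ _ := by
          refine setIntegral_mono_set hid ?_ (HasSubset.Subset.eventuallyLE hRsub)
          refine (ae_restrict_iff' ((hmR _).diff (hmR _))).2 (Eventually.of_forall fun w hw => ?_)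
          exact mul_nonneg (K0_nonneg hh hw.1.1) (hf.nonneg w hw.1.1)

end Pool.Agent.EAC.PartK
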