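import Pool.Agent.EAC.NB3
import Pool.Agent.EAC.Geo4b

/-!
# EAC N1: the initial density `rho * w0` is smooth, periodic, vanishes where `sin X < d`

Proof plan. `rho` is smooth on the open set `Oset ⊇ {sin (Re ζ) ≠ 0}` (`Geo.contDiffOn_rho`), and `rho * w0 = 0` on the open set
`{sin (Re ζ) < d}`, `d > 0`; these two open sets cover `ℂ` (`contDiff_iff_contDiffAt`).
Bounds: `BC_of_periodic`.
-/

set_option autoImplicit false

noncomputable section

namespace Pool.Agent.EAC.ZN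

open MeasureTheory Set Filter Topology Metric
open scoped ENNReal ComplexConjugate
open Pool.Agent.EAC.Geo

theorem f0_smooth {w0 : ℂ → ℝ} (hw : NiceInit w0) :
    ContDiff ℝ (⊤ : ℕ∞) (fun ζ => rho ζ * w0 ζ) := by
  obtain ⟨d, hd, hs⟩ := hw.supp
  rw [contDiff_iff_contDiffAt]
  intro z
  have hc : Continuous (fun w : ℂ => Real.sin w.re) :=
    Real.continuous_sin.comp Complex.continuous_re
  rcases lt_or_ge (Real.sin z.re) d with h | h
  · have h1 : ∀ᶠ w in 𝓝 z, Real.sin w.re < d := (hc.tendsto z).eventually_lt_const h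
    have h2 : (fun ζ => rho ζ * w0 ζ) =ᶠ[𝓝 z] fun _ => (0 : ℝ) := by
      filter_upwards [h1] with w hw1
      by_contra h3
      have h4 : w0 w ≠ 0 := fun h5 => h3 (by rw [h5, mul_zero])
      linarith [hs w h4]
    exact contDiffAt_const.congr_of_eventuallyEq h2
  · have hz : z ∈ Oset := Or.inr (by linarith)
    exact (contDiffOn_rho.contDiffAt (isOpen_Oset.mem_nhds hz)).mul hw.smooth.contDiffAt

theorem f0_per {w0 : ℂ → ℝ} (hw : NiceInit w0) (ζ : ℂ) :
    rho (ζ + 2 * Real.pi) * w0 (ζ + 2 * Real.pi) = rho ζ * w0 ζ := by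
  rw [rho_add_two_pi, hw.per]

theorem f0_BC {w0 : ℂ → ℝ} (hw : NiceInit w0) (n : ℕ) :
    ∃ C, 0 ≤ C ∧ ∀ h : ℝ, h ≤ 1 → BC (univ : Set ℝ) (U h) C n (fun _ ζ => rho ζ * w0 ζ) := by
  obtain ⟨C, hC, hb⟩ := BC_of_periodic (f0_smooth hw) (f0_per hw) n
  exact ⟨C, hC, fun h hh => hb univ (U h) fun z hz => ⟨hz.1.le, (hz.2.trans_le hh).le⟩⟩

/-- `rho * w0` vanishes near every real `x` with `sin x < 0`. -/
theorem f0_slit {w0 : ℂ → ℝ} (hw : NiceInit w0) {x : ℝ} (hx : Real.sin x < 0) :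
    ∃ d > 0, ∀ w : ℂ, ‖w - x‖ < d → rho w * w0 w = 0 := by
  obtain ⟨d, hd, hs⟩ := hw.supp
  have hc : Continuous (fun w : ℂ => Real.sin w.re) :=
    Real.continuous_sin.comp Complex.continuous_re
  have h1 : ∀ᶠ w in 𝓝 (x : ℂ), Real.sin w.re < 0 :=
    (hc.tendsto (x : ℂ)).eventually_lt_const (by simpa using hx)
  obtain ⟨e, he, h2⟩ := Metric.eventually_nhds_iff.1 h1
  refine ⟨e, he, fun w hw1 => ?_⟩
  have h3 := h2 (show dist w (x : ℂ) < e by rwa [dist_eq_norm])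
  by_contra h4
  have h5 : w0 w ≠ 0 := fun h6 => h4 (by rw [h6, mul_zero])
  linarith [hs w h5]

end Pool.Agent.EAC.ZN
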