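import Pool.Agent.EAC.Strip

/-!
# EAC NB1: the class `BC` (bounded derivatives with an explicit constant)

`BC I O C n G`: for `t ∈ I` the function `G t` is `n` times differentiable on `O` (meant for open `O`), all
derivatives up to order `n` are bounded by `C` and are (pointwise in `z`) continuous functions of `t ∈ I`.

Proof plan (all by induction on `n`, generalizing `F` and `G`).
* `BC.mono`: induction on `n`, cases on `m`; `BC.zero`.
* `BC.congr`: on the open set `O` the functions agree near every point, so `fderiv` agree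
  (`Filter.EventuallyEq.fderiv_eq`).
* `BC.clm`: `fderiv (L ∘ G t) z = L.comp (fderiv (G t) z) = (ContinuousLinearMap.compL ℝ ℂ F F' L) (fderiv (G t) z)`,
  operator norm of `compL .. L` is at most `‖L‖`; use `BC.congr` and `BC.mono` (constant).
* `BC.bilin`: `ContinuousLinearMap.hasFDerivAt_of_bilinear`; the derivative is
  `L.precompR ℂ (G t z) (fderiv (G₁ t) z) + L.precompL ℂ (fderiv (G t) z) (G₁ t z)`
  (`ContinuousLinearMap.norm_precompR_le`, `norm_precompL_le`); use `BC.add`, `BC.congr`, `BC.mono`.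
-/

set_option autoImplicit false
set_option maxSynthPendingDepth 3

noncomputable section

namespace Pool.Agent.EAC.ZN

open MeasureTheory Set Filter Topology Metric
open scoped ENNReal ComplexConjugate

/-- see the header. -/
def BC (I : Set ℝ) (O : Set ℂ) (C : ℝ) : (n : ℕ) → {F : Type} → [NormedAddCommGroup F] →
    [NormedSpace ℝ F] → (ℝ → ℂ → F) → Prop
  | 0, _, _, _, G => (∀ z ∈ O, ContinuousOn (fun t => G t z) I) ∧ ∀ t ∈ I, ∀ z ∈ O, ‖G t z‖ ≤ C
  | n + 1, _, _, _, G => ((∀ z ∈ O, ContinuousOn (fun t => G t z) I) ∧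
      ∀ t ∈ I, ∀ z ∈ O, ‖G t z‖ ≤ C) ∧ (∀ t ∈ I, ∀ z ∈ O, DifferentiableAt ℝ (G t) z) ∧
      BC I O C n (fun t => fderiv ℝ (G t))

variable {F F₁ F₂ : Type} [NormedAddCommGroup F] [NormedSpace ℝ F] [NormedAddCommGroup F₁]
  [NormedSpace ℝ F₁] [NormedAddCommGroup F₂] [NormedSpace ℝ F₂]
  {I I' : Set ℝ} {O O' : Set ℂ} {C C' C₁ : ℝ} {n m : ℕ} {G G' : ℝ → ℂ → F} {G₁ : ℝ → ℂ → F₁}

theorem BC.zero (h : BC I O C n G) : BC I O C 0 G := by
  cases n with
  | zero => exact h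
  | succ n => exact h.1

private theorem bc_mono_aux (hI : I' ⊆ I) (hO : O' ⊆ O) (hC : C ≤ C') (n : ℕ) :
    ∀ (m : ℕ) {F : Type} [NormedAddCommGroup F] [NormedSpace ℝ F] {G : ℝ → ℂ → F},
      BC I O C n G → m ≤ n → BC I' O' C' m G := by
  induction n with
  | zero =>
    intro m F _ _ G h hm
    obtain rfl : m = 0 := by omega
    exact ⟨fun z hz => (h.1 z (hO hz)).mono hI,
      fun t ht z hz => (h.2 t (hI ht) z (hO hz)).trans hC⟩
  | succ n ih =>
    intro m F _ _ G h hm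
    obtain ⟨⟨h1, h2⟩, h3, h4⟩ := h
    cases m with
    | zero =>
      exact ⟨fun z hz => (h1 z (hO hz)).mono hI,
        fun t ht z hz => (h2 t (hI ht) z (hO hz)).trans hC⟩
    | succ m =>
      exact ⟨⟨fun z hz => (h1 z (hO hz)).mono hI,
        fun t ht z hz => (h2 t (hI ht) z (hO hz)).trans hC⟩,
        fun t ht z hz => h3 t (hI ht) z (hO hz), ih m h4 (by omega)⟩

theorem BC.mono (h : BC I O C n G) (hI : I' ⊆ I) (hO : O' ⊆ O) (hC : C ≤ C') (hm : m ≤ n) :
    BC I' O' C' m G := bc_mono_aux hI hO hC n m h hm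

private theorem bc_congr_aux (hO : IsOpen O) (n : ℕ) :
    ∀ {F : Type} [NormedAddCommGroup F] [NormedSpace ℝ F] {G G' : ℝ → ℂ → F},
      BC I O C n G → (∀ t ∈ I, ∀ z ∈ O, G t z = G' t z) → BC I O C n G' := by
  induction n with
  | zero =>
    intro F _ _ G G' h he
    exact ⟨fun z hz => (h.1 z hz).congr (fun t ht => (he t ht z hz).symm),
      fun t ht z hz => by rw [← he t ht z hz]; exact h.2 t ht z hz⟩
  | succ n ih =>
    intro F _ _ G G' h he
    obtain ⟨⟨h1, h2⟩, h3, h4⟩ := h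
    have hev : ∀ t ∈ I, ∀ z ∈ O, G' t =ᶠ[𝓝 z] G t := fun t ht z hz => by
      filter_upwards [hO.mem_nhds hz] with w hw
      exact (he t ht w hw).symm
    exact ⟨⟨fun z hz => (h1 z hz).congr (fun t ht => (he t ht z hz).symm),
      fun t ht z hz => by rw [← he t ht z hz]; exact h2 t ht z hz⟩,
      fun t ht z hz => (h3 t ht z hz).congr_of_eventuallyEq (hev t ht z hz),
      ih h4 (fun t ht z hz => ((hev t ht z hz).fderiv_eq).symm)⟩

theorem BC.congr (h : BC I O C n G) (hO : IsOpen O) (he : ∀ t ∈ I, ∀ z ∈ O, G t z = G' t z) :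
    BC I O C n G' := bc_congr_aux hO n h he

private theorem bc_union_aux (n : ℕ) :
    ∀ {F : Type} [NormedAddCommGroup F] [NormedSpace ℝ F] {G : ℝ → ℂ → F},
      BC I O C n G → BC I O' C n G → BC I (O ∪ O') C n G := by
  induction n with
  | zero =>
    intro F _ _ G h h'
    exact ⟨fun z hz => hz.elim (fun hz => h.1 z hz) (fun hz => h'.1 z hz),
      fun t ht z hz => hz.elim (fun hz => h.2 t ht z hz) (fun hz => h'.2 t ht z hz)⟩
  | succ n ih =>
    intro F _ _ G h h'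
    obtain ⟨⟨h1, h2⟩, h3, h4⟩ := h
    obtain ⟨⟨h1', h2'⟩, h3', h4'⟩ := h'
    exact ⟨⟨fun z hz => hz.elim (fun hz => h1 z hz) (fun hz => h1' z hz),
      fun t ht z hz => hz.elim (fun hz => h2 t ht z hz) (fun hz => h2' t ht z hz)⟩,
      fun t ht z hz => hz.elim (fun hz => h3 t ht z hz) (fun hz => h3' t ht z hz),
      ih h4 h4'⟩

theorem BC.union (h : BC I O C n G) (h' : BC I O' C n G) : BC I (O ∪ O') C n G :=
  bc_union_aux n h h'

private theorem bc_add_aux (hO : IsOpen O) (n : ℕ) :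
    ∀ {F : Type} [NormedAddCommGroup F] [NormedSpace ℝ F] {G G' : ℝ → ℂ → F},
      BC I O C n G → BC I O C' n G' → BC I O (C + C') n (fun t z => G t z + G' t z) := by
  induction n with
  | zero =>
    intro F _ _ G G' h h'
    exact ⟨fun z hz => (h.1 z hz).add (h'.1 z hz),
      fun t ht z hz => (norm_add_le _ _).trans (add_le_add (h.2 t ht z hz) (h'.2 t ht z hz))⟩
  | succ n ih =>
    intro F _ _ G G' h h'
    obtain ⟨⟨h1, h2⟩, h3, h4⟩ := h
    obtain ⟨⟨h1', h2'⟩, h3', h4'⟩ := h'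
    refine ⟨⟨fun z hz => (h1 z hz).add (h1' z hz),
      fun t ht z hz => (norm_add_le _ _).trans (add_le_add (h2 t ht z hz) (h2' t ht z hz))⟩,
      fun t ht z hz => (h3 t ht z hz).add (h3' t ht z hz), ?_⟩
    refine bc_congr_aux hO n (ih h4 h4') ?_
    intro t ht z hz
    exact (((h3 t ht z hz).hasFDerivAt.add (h3' t ht z hz).hasFDerivAt).fderiv).symm

theorem BC.add (hO : IsOpen O) (h : BC I O C n G) (h' : BC I O C' n G') :
    BC I O (C + C') n (fun t z => G t z + G' t z) := bc_add_aux hO n h h'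

private theorem bc_clm_aux (hO : IsOpen O) (hC : 0 ≤ C) (n : ℕ) :
    ∀ {F F₁ : Type} [NormedAddCommGroup F] [NormedSpace ℝ F] [NormedAddCommGroup F₁]
      [NormedSpace ℝ F₁] {G : ℝ → ℂ → F} (L : F →L[ℝ] F₁),
      BC I O C n G → BC I O (‖L‖ * C) n (fun t z => L (G t z)) := by
  induction n with
  | zero =>
    intro F F₁ _ _ _ _ G L h
    exact ⟨fun z hz => L.continuous.comp_continuousOn (h.1 z hz),
      fun t ht z hz => (L.le_opNorm _).trans
        (mul_le_mul_of_nonneg_left (h.2 t ht z hz) (norm_nonneg _))⟩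
  | succ n ih =>
    intro F F₁ _ _ _ _ G L h
    obtain ⟨⟨h1, h2⟩, h3, h4⟩ := h
    refine ⟨⟨fun z hz => L.continuous.comp_continuousOn (h1 z hz),
      fun t ht z hz => (L.le_opNorm _).trans
        (mul_le_mul_of_nonneg_left (h2 t ht z hz) (norm_nonneg _))⟩,
      fun t ht z hz => L.differentiableAt.comp z (h3 t ht z hz), ?_⟩
    have hL : ‖ContinuousLinearMap.compL ℝ ℂ F F₁ L‖ ≤ ‖L‖ := by
      refine ((ContinuousLinearMap.compL ℝ ℂ F F₁).le_opNorm L).trans ?_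
      have := ContinuousLinearMap.norm_compL_le ℝ ℂ F F₁
      nlinarith [norm_nonneg L]
    have k := ih (ContinuousLinearMap.compL ℝ ℂ F F₁ L) h4
    refine bc_congr_aux hO n
      (bc_mono_aux subset_rfl subset_rfl (mul_le_mul_of_nonneg_right hL hC) n n k le_rfl) ?_
    intro t ht z hz
    exact ((L.hasFDerivAt.comp z (h3 t ht z hz).hasFDerivAt).fderiv).symm

theorem BC.clm (hO : IsOpen O) (hC : 0 ≤ C) (h : BC I O C n G) (L : F →L[ℝ] F₁) :
    BC I O (‖L‖ * C) n (fun t z => L (G t z)) := bc_clm_aux hO hC n L h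

private theorem bc_bilin_bd {F F₁ F₂ : Type} [NormedAddCommGroup F] [NormedSpace ℝ F]
    [NormedAddCommGroup F₁] [NormedSpace ℝ F₁] [NormedAddCommGroup F₂] [NormedSpace ℝ F₂]
    (hC : 0 ≤ C) (L : F →L[ℝ] F₁ →L[ℝ] F₂) {x : F} {y : F₁} (hx : ‖x‖ ≤ C) (hy : ‖y‖ ≤ C₁) :
    ‖L x y‖ ≤ ‖L‖ * C * C₁ :=
  (L.le_opNorm₂ x y).trans (by gcongr)

private theorem bc_bilin_aux (hO : IsOpen O) (hC : 0 ≤ C) (hC₁ : 0 ≤ C₁) (n : ℕ) :
    ∀ {F F₁ F₂ : Type} [NormedAddCommGroup F] [NormedSpace ℝ F] [NormedAddCommGroup F₁]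
      [NormedSpace ℝ F₁] [NormedAddCommGroup F₂] [NormedSpace ℝ F₂] {G : ℝ → ℂ → F}
      {G₁ : ℝ → ℂ → F₁} (L : F →L[ℝ] F₁ →L[ℝ] F₂),
      BC I O C n G → BC I O C₁ n G₁ →
        BC I O (2 ^ n * ‖L‖ * C * C₁) n (fun t z => L (G t z) (G₁ t z)) := by
  induction n with
  | zero =>
    intro F F₁ F₂ _ _ _ _ _ _ G G₁ L h h'
    refine ⟨fun z hz => ?_, fun t ht z hz => ?_⟩
    · exact (L.continuous.comp_continuousOn (h.1 z hz)).clm_apply (h'.1 z hz)
    · rw [pow_zero, one_mul]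
      exact bc_bilin_bd hC L (h.2 t ht z hz) (h'.2 t ht z hz)
  | succ n ih =>
    intro F F₁ F₂ _ _ _ _ _ _ G G₁ L h h'
    have hn := bc_mono_aux (I' := I) (O' := O) subset_rfl subset_rfl le_rfl (n + 1) n h
      (Nat.le_succ n)
    have hn' := bc_mono_aux (I' := I) (O' := O) subset_rfl subset_rfl le_rfl (n + 1) n h'
      (Nat.le_succ n)
    obtain ⟨⟨h1, h2⟩, h3, h4⟩ := h
    obtain ⟨⟨h1', h2'⟩, h3', h4'⟩ := h'
    refine ⟨⟨fun z hz => ?_, fun t ht z hz => ?_⟩, fun t ht z hz => ?_, ?_⟩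
    · exact (L.continuous.comp_continuousOn (h1 z hz)).clm_apply (h1' z hz)
    · refine (bc_bilin_bd hC L (h2 t ht z hz) (h2' t ht z hz)).trans ?_
      have e : (2 : ℝ) ^ (n + 1) * ‖L‖ * C * C₁ = 2 ^ (n + 1) * (‖L‖ * C * C₁) := by ring
      rw [e]
      have : (1 : ℝ) ≤ 2 ^ (n + 1) := one_le_pow₀ (by norm_num)
      have h0 : 0 ≤ ‖L‖ * C * C₁ := by positivity
      nlinarith
    · exact (L.hasFDerivAt_of_bilinear (h3 t ht z hz).hasFDerivAt
        (h3' t ht z hz).hasFDerivAt).differentiableAt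
    · have k1 := ih (L.precompR ℂ) hn h4'
      have k2 := ih (L.precompL ℂ) h4 hn'
      have k3 := bc_add_aux hO n k1 k2
      have hR : ‖L.precompR ℂ‖ ≤ ‖L‖ := L.norm_precompR_le ℂ
      have hL : ‖L.precompL ℂ‖ ≤ ‖L‖ := L.norm_precompL_le ℂ
      have hle : 2 ^ n * ‖L.precompR ℂ‖ * C * C₁ + 2 ^ n * ‖L.precompL ℂ‖ * C * C₁ ≤
          2 ^ (n + 1) * ‖L‖ * C * C₁ := by
        have e : (2 : ℝ) ^ (n + 1) * ‖L‖ * C * C₁ = 2 ^ n * ‖L‖ * C * C₁ + 2 ^ n * ‖L‖ * C * C₁ := by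
          ring
        rw [e]
        gcongr
      refine bc_congr_aux hO n (bc_mono_aux subset_rfl subset_rfl hle n n k3 le_rfl) ?_
      intro t ht z hz
      exact ((L.hasFDerivAt_of_bilinear (h3 t ht z hz).hasFDerivAt
        (h3' t ht z hz).hasFDerivAt).fderiv).symm

theorem BC.bilin (hO : IsOpen O) (hC : 0 ≤ C) (hC₁ : 0 ≤ C₁) (h : BC I O C n G)
    (h₁ : BC I O C₁ n G₁) (L : F →L[ℝ] F₁ →L[ℝ] F₂) :
    BC I O (2 ^ n * ‖L‖ * C * C₁) n (fun t z => L (G t z) (G₁ t z)) :=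
  bc_bilin_aux hO hC hC₁ n L h h₁

private theorem bc_const_aux (hC : 0 ≤ C) (n : ℕ) :
    ∀ {F : Type} [NormedAddCommGroup F] [NormedSpace ℝ F] {c : ℝ → F}, ContinuousOn c I →
      (∀ t ∈ I, ‖c t‖ ≤ C) → BC I O C n (fun t _ => c t) := by
  induction n with
  | zero =>
    intro F _ _ c hc hb
    exact ⟨fun _ _ => hc, fun t ht _ _ => hb t ht⟩
  | succ n ih =>
    intro F _ _ c hc hb
    refine ⟨⟨fun _ _ => hc, fun t ht _ _ => hb t ht⟩,
      fun t ht z hz => differentiableAt_const _, ?_⟩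
    have e : (fun t : ℝ => fderiv ℝ (fun _ : ℂ => c t)) =
        fun (_ : ℝ) (_ : ℂ) => (0 : ℂ →L[ℝ] F) := by
      funext t z
      exact fderiv_const_apply _
    rw [e]
    exact ih (c := fun _ => (0 : ℂ →L[ℝ] F)) continuousOn_const
      (fun t ht => by rw [norm_zero]; exact hC)

theorem BC.const_space (hC : 0 ≤ C) {c : ℝ → F} (hc : ContinuousOn c I) (hb : ∀ t ∈ I, ‖c t‖ ≤ C) :
    BC I O C n (fun t _ => c t) := bc_const_aux hC n hc hb

end Pool.Agent.EAC.ZN
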