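import Pool.Agent.EAC.NB1

/-!
# EAC NB2: consequences of `BC`

Proof plan.
* `BC.dxdy`: first `dx`: on the open set `O`, `dx (G t) z = (fderiv ℝ (G t) z) 1`, so if `BC I O C (n+1) G` then
  `BC I O C n (fun t => dx (G t))` (`BC.clm` with the evaluation map at `1`, operator norm `≤ ‖1‖ = 1`; same for `dy`,
  `‖I‖ = 1`); then induction on `i` and on `j` (`Function.iterate_succ'`), finally `BC.zero`.
* `BC.contDiffOn`: `∀ n, ContDiffOn ℝ n (G t) O` by induction on `n` (`contDiffOn_succ_iff_fderiv_of_isOpen`), generalizing `F`.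
  Note the hypothesis `∀ n, ∃ C, BC I O C n G` passes to `fderiv`.
* `BC.conj_comp`: `fderiv (fun z => G t (conj z)) z = (fderiv (G t) (conj z)).comp conjCLE`, composition with the isometry
  `conjCLE` on the right is a continuous linear map of norm `≤ 1` on `ℂ →L[ℝ] F`; induction on `n`.
* `BC_of_CC`: `HasFDerivAt.fderiv`, induction on `n`; take the maximum of the constants; `BC.congr`
  (`U h` is open).
-/

set_option autoImplicit false

noncomputable section

namespace Pool.Agent.EAC.ZN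

open MeasureTheory Set Filter Topology Metric
open scoped ENNReal ComplexConjugate

variable {F : Type} [NormedAddCommGroup F] [NormedSpace ℝ F]
  {I : Set ℝ} {O : Set ℂ} {C : ℝ} {n : ℕ} {G : ℝ → ℂ → F}

theorem isOpen_U (h : ℝ) : IsOpen (U h) :=
  (isOpen_lt continuous_const Complex.continuous_im).inter
    (isOpen_lt Complex.continuous_im continuous_const)

private theorem bc_eval (hO : IsOpen O) (hC : 0 ≤ C) (h : BC I O C (n + 1) G) (v : ℂ)
    (hv : ‖v‖ ≤ 1) : BC I O C n (fun t z => fderiv ℝ (G t) z v) := by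
  obtain ⟨_, _, h4⟩ := h
  have hL : ‖ContinuousLinearMap.apply ℝ F v‖ ≤ 1 := by
    refine ContinuousLinearMap.opNorm_le_bound _ zero_le_one (fun f => ?_)
    rw [ContinuousLinearMap.apply_apply, one_mul]
    refine (f.le_opNorm v).trans ?_
    nlinarith [norm_nonneg f]
  have k := BC.clm hO hC h4 (ContinuousLinearMap.apply ℝ F v)
  have hle : ‖ContinuousLinearMap.apply ℝ F v‖ * C ≤ C := by nlinarith
  exact (BC.mono k subset_rfl subset_rfl hle le_rfl).congr hO (fun t _ z _ => rfl)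

theorem BC.dx (hO : IsOpen O) (hC : 0 ≤ C) (h : BC I O C (n + 1) G) :
    BC I O C n (fun t => EAC.dx (G t)) :=
  bc_eval hO hC h 1 (by simp)

theorem BC.dy (hO : IsOpen O) (hC : 0 ≤ C) (h : BC I O C (n + 1) G) :
    BC I O C n (fun t => EAC.dy (G t)) :=
  bc_eval hO hC h Complex.I (by simp)

private theorem bc_iter_dx (hO : IsOpen O) (hC : 0 ≤ C) (i : ℕ) :
    ∀ {n : ℕ} {G : ℝ → ℂ → F}, BC I O C (n + i) G → BC I O C n (fun t => EAC.dx^[i] (G t)) := by
  induction i with
  | zero => intro n G h; exact h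
  | succ i ih =>
    intro n G h
    have h1 : BC I O C ((n + 1) + i) G := by
      have e : (n + 1) + i = n + (i + 1) := by omega
      rw [e]; exact h
    have h2 := BC.dx hO hC (ih h1)
    have e : (fun t => EAC.dx^[i + 1] (G t)) = fun t => EAC.dx (EAC.dx^[i] (G t)) := by
      funext t
      rw [Function.iterate_succ_apply']
    rw [e]
    exact h2

private theorem bc_iter_dy (hO : IsOpen O) (hC : 0 ≤ C) (i : ℕ) :
    ∀ {n : ℕ} {G : ℝ → ℂ → F}, BC I O C (n + i) G → BC I O C n (fun t => EAC.dy^[i] (G t)) := by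
  induction i with
  | zero => intro n G h; exact h
  | succ i ih =>
    intro n G h
    have h1 : BC I O C ((n + 1) + i) G := by
      have e : (n + 1) + i = n + (i + 1) := by omega
      rw [e]; exact h
    have h2 := BC.dy hO hC (ih h1)
    have e : (fun t => EAC.dy^[i + 1] (G t)) = fun t => EAC.dy (EAC.dy^[i] (G t)) := by
      funext t
      rw [Function.iterate_succ_apply']
    rw [e]
    exact h2

theorem BC.dxdy (hO : IsOpen O) (hC : 0 ≤ C) (h : BC I O C n G) {i j : ℕ} (hij : i + j ≤ n) :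
    (∀ t ∈ I, ∀ z ∈ O, ‖(EAC.dy^[j] (EAC.dx^[i] (G t))) z‖ ≤ C) ∧
      ∀ z ∈ O, ContinuousOn (fun t => (EAC.dy^[j] (EAC.dx^[i] (G t))) z) I := by
  have h0 : BC I O C (0 + j + i) G :=
    BC.mono h subset_rfl subset_rfl le_rfl (by omega)
  have h1 : BC I O C (0 + j) (fun t => EAC.dx^[i] (G t)) := bc_iter_dx hO hC i h0
  have h2 : BC I O C 0 (fun t => EAC.dy^[j] (EAC.dx^[i] (G t))) := bc_iter_dy hO hC j h1
  exact ⟨h2.2, h2.1⟩

private theorem bc_contDiffOn_aux (hO : IsOpen O) {t : ℝ} (ht : t ∈ I) (n : ℕ) :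
    ∀ {F : Type} [NormedAddCommGroup F] [NormedSpace ℝ F] {C : ℝ} {G : ℝ → ℂ → F},
      BC I O C (n + 1) G → ContDiffOn ℝ n (G t) O := by
  induction n with
  | zero =>
    intro F _ _ C G h
    obtain ⟨_, h3, _⟩ := h
    have hc : ContinuousOn (G t) O := fun z hz => (h3 t ht z hz).continuousAt.continuousWithinAt
    exact contDiffOn_zero.2 hc
  | succ n ih =>
    intro F _ _ C G h
    obtain ⟨_, h3, h4⟩ := h
    have k : ContDiffOn ℝ ((n : WithTop ℕ∞) + 1) (G t) O := by
      rw [contDiffOn_succ_iff_fderiv_of_isOpen hO]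
      refine ⟨fun z hz => (h3 t ht z hz).differentiableWithinAt, ?_, ih h4⟩
      intro hn
      exact absurd hn (by exact WithTop.coe_ne_top)
    exact_mod_cast k

theorem BC.contDiffOn (hO : IsOpen O) (h : ∀ n, ∃ C, BC I O C n G) {t : ℝ} (ht : t ∈ I) :
    ContDiffOn ℝ (⊤ : ℕ∞) (G t) O := by
  rw [contDiffOn_infty]
  intro n
  obtain ⟨C, hC⟩ := h (n + 1)
  exact bc_contDiffOn_aux hO ht n hC

private theorem isOpen_conj (hO : IsOpen O) : IsOpen {z : ℂ | conj z ∈ O} :=
  hO.preimage Complex.continuous_conj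

private theorem bc_conj_aux (hO : IsOpen O) (hC : 0 ≤ C) (n : ℕ) :
    ∀ {F : Type} [NormedAddCommGroup F] [NormedSpace ℝ F] {G : ℝ → ℂ → F},
      BC I O C n G → BC I {z | conj z ∈ O} C n (fun t z => G t (conj z)) := by
  induction n with
  | zero =>
    intro F _ _ G h
    exact ⟨fun z hz => h.1 (conj z) hz, fun t ht z hz => h.2 t ht (conj z) hz⟩
  | succ n ih =>
    intro F _ _ G h
    obtain ⟨⟨h1, h2⟩, h3, h4⟩ := h
    have hd : ∀ t ∈ I, ∀ z : ℂ, conj z ∈ O → HasFDerivAt (fun z => G t (conj z))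
        ((fderiv ℝ (G t) (conj z)).comp (Complex.conjCLE : ℂ →L[ℝ] ℂ)) z := by
      intro t ht z hz
      exact (h3 t ht (conj z) hz).hasFDerivAt.comp z
        (Complex.conjCLE : ℂ →L[ℝ] ℂ).hasFDerivAt
    refine ⟨⟨fun z hz => h1 (conj z) hz, fun t ht z hz => h2 t ht (conj z) hz⟩,
      fun t ht z hz => (hd t ht z hz).differentiableAt, ?_⟩
    have hL : ‖(ContinuousLinearMap.compL ℝ ℂ ℂ F).flip (Complex.conjCLE : ℂ →L[ℝ] ℂ)‖ ≤ 1 := by
      refine ContinuousLinearMap.opNorm_le_bound _ zero_le_one (fun f => ?_)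
      rw [ContinuousLinearMap.flip_apply, ContinuousLinearMap.compL_apply, one_mul]
      refine (f.opNorm_comp_le _).trans ?_
      rw [Complex.conjCLE_norm, mul_one]
    have k := BC.clm (isOpen_conj hO) hC (ih h4)
      ((ContinuousLinearMap.compL ℝ ℂ ℂ F).flip (Complex.conjCLE : ℂ →L[ℝ] ℂ))
    have hle : ‖(ContinuousLinearMap.compL ℝ ℂ ℂ F).flip (Complex.conjCLE : ℂ →L[ℝ] ℂ)‖ * C ≤ C := by
      nlinarith
    refine (BC.mono k subset_rfl subset_rfl hle le_rfl).congr (isOpen_conj hO) ?_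
    intro t ht z hz
    rw [(hd t ht z hz).fderiv]
    rfl

theorem BC.conj_comp (hO : IsOpen O) (hC : 0 ≤ C) (h : BC I O C n G) :
    BC I {z | conj z ∈ O} C n (fun t z => G t (conj z)) := bc_conj_aux hO hC n h

private theorem bc_of_cc_aux {T h : ℝ} (n : ℕ) :
    ∀ {F : Type} [NormedAddCommGroup F] [NormedSpace ℝ F] {G : ℝ → ℂ → F},
      CC T h n G → ∃ C, 0 ≤ C ∧ BC (Icc 0 T) (U h) C n G := by
  induction n with
  | zero =>
    intro F _ _ G hG
    obtain ⟨hc, ⟨B, hB⟩, _⟩ := hG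
    refine ⟨max B 0, le_max_right _ _, fun z hz => ?_, fun t ht z hz =>
      (hB t ht z hz).trans (le_max_left _ _)⟩
    exact hc.comp (f := fun t : ℝ => (t, z)) (by fun_prop) (fun t ht => ⟨ht, hz⟩)
  | succ n ih =>
    intro F _ _ G hG
    obtain ⟨hc, ⟨B, hB⟩, G', hG', hCC⟩ := hG
    obtain ⟨C, hC, hbc⟩ := ih hCC
    have h1 : BC (Icc 0 T) (U h) (max B C) n (fun t => fderiv ℝ (G t)) :=
      (BC.mono hbc subset_rfl subset_rfl (le_max_right B C) le_rfl).congr (isOpen_U h)
        (fun t ht z hz => ((hG' t ht z hz).fderiv).symm)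
    refine ⟨max B C, hC.trans (le_max_right _ _), ⟨fun z hz => ?_, fun t ht z hz =>
      (hB t ht z hz).trans (le_max_left _ _)⟩, fun t ht z hz =>
      (hG' t ht z hz).differentiableAt, h1⟩
    exact hc.comp (f := fun t : ℝ => (t, z)) (by fun_prop) (fun t ht => ⟨ht, hz⟩)

theorem BC_of_CC {T h : ℝ} (hG : CC T h n G) : ∃ C, 0 ≤ C ∧ BC (Icc 0 T) (U h) C n G :=
  bc_of_cc_aux n hG

end Pool.Agent.EAC.ZN
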