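import Pool.Agent.EAC.NB1

/-!
# EAC NB3: smooth functions are in `BC` on compact sets / on the strip if periodic

Proof plan (induction on `n`, generalizing `F` and `g`).
* `BC_of_contDiffOn`: `g` is continuous on the compact `K`, hence bounded; `fderiv ℝ g` is `ContDiffOn ⊤` on the open `Ω`.
* `BC_of_periodic`: for `z ∈ S 1` there is an integer `m` with `z - 2πm` in the compact rectangle `[0,2π] × [0,1]`;
  `fderiv ℝ g` is again smooth and periodic.
-/

set_option autoImplicit false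

noncomputable section

namespace Pool.Agent.EAC.ZN

open MeasureTheory Set Filter Topology Metric
open scoped ENNReal ComplexConjugate

theorem BC_of_contDiffOn_aux {Ω K : Set ℂ} (hΩ : IsOpen Ω) (hK : IsCompact K) (hKΩ : K ⊆ Ω) (n : ℕ) :
    ∀ (F : Type) [NormedAddCommGroup F] [NormedSpace ℝ F] (g : ℂ → F),
      ContDiffOn ℝ (⊤ : ℕ∞) g Ω →
      ∃ C, 0 ≤ C ∧ ∀ (I : Set ℝ) (O : Set ℂ), O ⊆ K → BC I O C n (fun _ => g) := by
  induction n with
  | zero =>
    intro F _ _ g hg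
    obtain ⟨C, hC⟩ := hK.exists_bound_of_continuousOn (hg.continuousOn.mono hKΩ)
    refine ⟨max C 0, le_max_right _ _, fun I O hO => ?_⟩
    exact ⟨fun z _ => continuousOn_const, fun t _ z hz => (hC z (hO hz)).trans (le_max_left _ _)⟩
  | succ n ih =>
    intro F _ _ g hg
    obtain ⟨C, hC⟩ := hK.exists_bound_of_continuousOn (hg.continuousOn.mono hKΩ)
    have hg' : ContDiffOn ℝ (⊤ : ℕ∞) (fderiv ℝ g) Ω := hg.fderiv_of_isOpen hΩ (by simp)
    obtain ⟨C1, hC1, h1⟩ := ih (ℂ →L[ℝ] F) (fderiv ℝ g) hg'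
    refine ⟨max C C1, hC1.trans (le_max_right _ _), fun I O hO => ?_⟩
    refine ⟨⟨fun z _ => continuousOn_const, fun t _ z hz => (hC z (hO hz)).trans (le_max_left _ _)⟩,
      fun t _ z hz => ?_, ?_⟩
    · exact (hg.differentiableOn (by simp)).differentiableAt (hΩ.mem_nhds (hKΩ (hO hz)))
    · exact (h1 I O hO).mono (subset_refl _) (subset_refl _) (le_max_right _ _) le_rfl

variable {F : Type} [NormedAddCommGroup F] [NormedSpace ℝ F]

theorem BC_of_contDiffOn {Ω K : Set ℂ} (hΩ : IsOpen Ω) (hK : IsCompact K) (hKΩ : K ⊆ Ω) {g : ℂ → F}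
    (hg : ContDiffOn ℝ (⊤ : ℕ∞) g Ω) (n : ℕ) :
    ∃ C, 0 ≤ C ∧ ∀ (I : Set ℝ) (O : Set ℂ), O ⊆ K → BC I O C n (fun _ => g) :=
  BC_of_contDiffOn_aux hΩ hK hKΩ n F g hg

theorem periodic_bound {F : Type} [NormedAddCommGroup F] {g : ℂ → F} (hg : Continuous g)
    (hper : ∀ z, g (z + 2 * Real.pi) = g z) : ∃ C, ∀ z ∈ S 1, ‖g z‖ ≤ C := by
  have hK : IsCompact ((Icc 0 (2 * Real.pi)) ×ℂ (Icc (0 : ℝ) 1)) := isCompact_Icc.reProdIm isCompact_Icc
  obtain ⟨C, hC⟩ := hK.exists_bound_of_continuousOn hg.continuousOn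
  refine ⟨C, fun z hz => ?_⟩
  have hp : Function.Periodic g (2 * Real.pi) := hper
  have hpi : 0 < 2 * Real.pi := by positivity
  obtain ⟨m, hm, -⟩ := existsUnique_add_zsmul_mem_Ico hpi z.re 0
  have h1 : g (z + m • (2 * (Real.pi : ℂ))) = g z := by
    have := hp.zsmul m
    have h2 := this z
    simpa using h2
  rw [← h1]
  apply hC
  rw [Complex.mem_reProdIm]
  constructor
  · have h3 : (z + m • (2 * (Real.pi : ℂ))).re = z.re + m • (2 * Real.pi) := by
      simp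
    rw [h3]
    rw [zero_add] at hm
    exact ⟨hm.1, hm.2.le⟩
  · have h3 : (z + m • (2 * (Real.pi : ℂ))).im = z.im := by
      simp
    rw [h3]
    exact hz

theorem BC_of_periodic_aux (n : ℕ) :
    ∀ (F : Type) [NormedAddCommGroup F] [NormedSpace ℝ F] (g : ℂ → F),
      ContDiff ℝ (⊤ : ℕ∞) g → (∀ z, g (z + 2 * Real.pi) = g z) →
      ∃ C, 0 ≤ C ∧ ∀ (I : Set ℝ) (O : Set ℂ), O ⊆ S 1 → BC I O C n (fun _ => g) := by
  induction n with
  | zero =>
    intro F _ _ g hg hper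
    obtain ⟨C, hC⟩ := periodic_bound hg.continuous hper
    refine ⟨max C 0, le_max_right _ _, fun I O hO => ?_⟩
    exact ⟨fun z _ => continuousOn_const, fun t _ z hz => (hC z (hO hz)).trans (le_max_left _ _)⟩
  | succ n ih =>
    intro F _ _ g hg hper
    obtain ⟨C, hC⟩ := periodic_bound hg.continuous hper
    have hg' : ContDiff ℝ (⊤ : ℕ∞) (fderiv ℝ g) := hg.fderiv_right (by simp)
    have hper' : ∀ z, fderiv ℝ g (z + 2 * Real.pi) = fderiv ℝ g z := by
      intro z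
      rw [← fderiv_comp_add_right]
      congr 1
      funext w
      exact hper w
    obtain ⟨C1, hC1, h1⟩ := ih (ℂ →L[ℝ] F) (fderiv ℝ g) hg' hper'
    refine ⟨max C C1, hC1.trans (le_max_right _ _), fun I O hO => ?_⟩
    refine ⟨⟨fun z _ => continuousOn_const, fun t _ z hz => (hC z (hO hz)).trans (le_max_left _ _)⟩,
      fun t _ z hz => ?_, ?_⟩
    · exact (hg.differentiable (by simp)) z
    · exact (h1 I O hO).mono (subset_refl _) (subset_refl _) (le_max_right _ _) le_rfl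

theorem BC_of_periodic {g : ℂ → F} (hg : ContDiff ℝ (⊤ : ℕ∞) g)
    (hper : ∀ z, g (z + 2 * Real.pi) = g z) (n : ℕ) :
    ∃ C, 0 ≤ C ∧ ∀ (I : Set ℝ) (O : Set ℂ), O ⊆ S 1 → BC I O C n (fun _ => g) :=
  BC_of_periodic_aux n F g hg hper

end Pool.Agent.EAC.ZN
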