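import Pool.Agent.EAC.NB2
import Pool.Agent.EAC.NB3
import Pool.Agent.EAC.Geo2b
import Pool.Agent.EAC.Geo6a

/-!
# EAC NV1: composition with `zet` preserves the class `BC` (upper half of the domain)

Proof plan.
* `Oup h` is open (interior intersected with an open half plane) and contained in the compact set `dom 1`.
* `zp_BC`: `zp = 4 (1-z^2)/qq` is smooth on the open set `{qq ≠ 0} ⊇ dom 1` (`Geo.dom_qq_ne_zero`, `isCompact_dom`, `dom_mono`):
  `BC_of_contDiffOn`.
* `BC_comp_zet`: induction on `n`, generalizing `F`, `G`.  For `z ∈ Oup h`, `zet z ∈ U h` (`Geo.zet_mem_U`), and by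
  `Geo.hasFDerivAt_comp_zet` (`U h` is open and invariant under `ζ ↦ ζ + 2πn`; periodicity for all integers from the
  hypothesis) `fderiv (fun z => G t (zet z)) z = (fderiv (G t) (zet z)).comp (mul (zp z))`, a bilinear expression of
  `fderiv (G t) (zet z)` (class `BC` with `n-1` by the induction hypothesis: `fderiv (G t)` is again periodic on `U h`) and
  `zp z` (`zp_BC`): `BC.bilin` with `L A c = A.comp (ContinuousLinearMap.mul ℝ ℂ c)`, norm `≤ 1`; the constant `c` does not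
  depend on `F`: choose it by recursion before `F` is introduced.
-/

set_option autoImplicit false

noncomputable section

namespace Pool.Agent.EAC.ZN

open MeasureTheory Set Filter Topology Metric
open scoped ENNReal ComplexConjugate
open Pool.Agent.EAC.Geo

/-- upper half of the interior of the domain. -/
def Oup (h : ℝ) : Set ℂ := interior (dom h) ∩ {z | 0 < z.im}

theorem isOpen_Oup (h : ℝ) : IsOpen (Oup h) :=
  isOpen_interior.inter (isOpen_lt continuous_const Complex.continuous_im)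

theorem zp_contDiffOn : ContDiffOn ℝ (⊤ : ℕ∞) zp {z | qq z ≠ 0} := by
  have h1 : ContDiff ℝ (⊤ : ℕ∞) qq := by
    unfold qq
    fun_prop
  have h2 : ContDiff ℝ (⊤ : ℕ∞) (fun z : ℂ => 4 * (1 - z ^ 2)) := by fun_prop
  have h3 : ContDiffOn ℝ (⊤ : ℕ∞) (fun z : ℂ => 4 * (1 - z ^ 2) * (qq z)⁻¹) {z | qq z ≠ 0} :=
    h2.contDiffOn.mul (h1.contDiffOn.inv (fun z hz => hz))
  refine h3.congr fun z _ => ?_
  rw [zp_eq, div_eq_mul_inv]

theorem zp_BC (n : ℕ) : ∃ C, 0 ≤ C ∧ ∀ (I : Set ℝ) (O : Set ℂ), O ⊆ dom 1 →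
    BC I O C n (fun _ => zp) :=
  BC_of_contDiffOn (isOpen_ne.preimage continuous_qq) (isCompact_dom 1)
    (fun z hz => dom_qq_ne_zero le_rfl hz) zp_contDiffOn n

theorem int_per {X : Type*} {h : ℝ} {P : ℂ → X}
    (hP : ∀ ζ ∈ U h, P (ζ + 2 * Real.pi) = P ζ) (ζ : ℂ) (hζ : ζ ∈ U h) (n : ℤ) :
    P (ζ + 2 * Real.pi * n) = P ζ := by
  have hU : ∀ m : ℤ, ζ + 2 * Real.pi * m ∈ U h := by
    intro m
    have : (ζ + 2 * Real.pi * m).im = ζ.im := by simp
    constructor
    · rw [this]; exact hζ.1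
    · rw [this]; exact hζ.2
  induction n using Int.induction_on with
  | zero => simp
  | succ i ih =>
    have := hP _ (hU i)
    rw [ih] at this
    rw [← this]
    congr 1
    push_cast
    ring
  | pred i ih =>
    have := hP _ (hU (-i - 1))
    rw [← this, ← ih]
    congr 1
    push_cast
    ring

theorem BC_comp_zet (n : ℕ) : ∃ c : ℝ, 0 ≤ c ∧ ∀ (F : Type) [NormedAddCommGroup F]
    [NormedSpace ℝ F] (h : ℝ), 0 < h → h ≤ 1 → ∀ (I : Set ℝ) (C : ℝ) (G : ℝ → ℂ → F), 0 ≤ C →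
    (∀ t ∈ I, ∀ ζ ∈ U h, G t (ζ + 2 * Real.pi) = G t ζ) → BC I (U h) C n G →
    BC I (Oup h) (c * C) n (fun t z => G t (zet z)) := by
  induction n with
  | zero =>
    refine ⟨1, zero_le_one, ?_⟩
    intro F _ _ h hh hh1 I C G hC hper hG
    rw [one_mul]
    exact ⟨fun z hz => hG.1 _ (zet_mem_U hh hh1 hz.1 hz.2),
      fun t ht z hz => hG.2 t ht _ (zet_mem_U hh hh1 hz.1 hz.2)⟩
  | succ n ih =>
    obtain ⟨c, hc, ih⟩ := ih
    obtain ⟨Z, hZ, hzp⟩ := zp_BC n
    refine ⟨1 + 2 ^ n * c * Z, by positivity, ?_⟩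
    intro F _ _ h hh hh1 I C G hC hper hG
    have hsub : Oup h ⊆ dom 1 := fun z hz => dom_mono hh1 (interior_subset hz.1)
    obtain ⟨⟨hG0, hGb⟩, hGd, hG'⟩ := hG
    have hUo : IsOpen (U h) := isOpen_U h
    -- periodicity of the derivative
    have hper' : ∀ t ∈ I, ∀ ζ ∈ U h, fderiv ℝ (G t) (ζ + 2 * Real.pi) = fderiv ℝ (G t) ζ := by
      intro t ht ζ hζ
      rw [← fderiv_comp_add_right]
      apply Filter.EventuallyEq.fderiv_eq
      filter_upwards [hUo.mem_nhds hζ] with x hx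
      exact hper t ht x hx
    have h1 := ih (ℂ →L[ℝ] F) h hh hh1 I C (fun t => fderiv ℝ (G t)) hC hper' hG'
    have hd : ∀ t ∈ I, ∀ z ∈ Oup h, HasFDerivAt (fun z => G t (zet z))
        ((fderiv ℝ (G t) (zet z)).comp (ContinuousLinearMap.mul ℝ ℂ (zp z))) z := by
      intro t ht z hz
      have hzU := zet_mem_U hh hh1 hz.1 hz.2
      have hzd : z ∈ dom h := interior_subset hz.1
      refine hasFDerivAt_comp_zet (qA_ne_zero hh1 hzd) (qB_ne_zero hh1 hzd)
        (hGd t ht _ hzU).hasFDerivAt ?_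
      filter_upwards [hUo.mem_nhds hzU] with ζ hζ m
      exact int_per (hper t ht) ζ hζ m
    have hO := isOpen_Oup h
    have h2 : BC I (Oup h) (‖ContinuousLinearMap.mul ℝ ℂ‖ * Z) n
        (fun _ z => ContinuousLinearMap.mul ℝ ℂ (zp z)) :=
      (hzp I (Oup h) hsub).clm hO hZ (ContinuousLinearMap.mul ℝ ℂ)
    have h3 : BC I (Oup h) Z n (fun _ z => ContinuousLinearMap.mul ℝ ℂ (zp z)) := by
      refine h2.mono le_rfl le_rfl ?_ le_rfl
      calc ‖ContinuousLinearMap.mul ℝ ℂ‖ * Z ≤ 1 * Z := by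
            gcongr
            exact ContinuousLinearMap.opNorm_mul_le ℝ ℂ
        _ = Z := one_mul Z
    have h4 := h1.bilin hO (mul_nonneg hc hC) hZ h3 (ContinuousLinearMap.compL ℝ ℂ ℂ F)
    have h5 : BC I (Oup h) (2 ^ n * c * Z * C) n
        (fun t z => (fderiv ℝ (G t) (zet z)).comp (ContinuousLinearMap.mul ℝ ℂ (zp z))) := by
      refine h4.mono le_rfl le_rfl ?_ le_rfl
      have hL := ContinuousLinearMap.norm_compL_le ℝ ℂ ℂ F
      have key : ∀ x : ℝ, x ≤ 1 → 2 ^ n * x * (c * C) * Z ≤ 2 ^ n * c * Z * C := by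
        intro x hx
        calc 2 ^ n * x * (c * C) * Z = x * (2 ^ n * (c * C) * Z) := by ring
          _ ≤ 1 * (2 ^ n * (c * C) * Z) := by gcongr
          _ = 2 ^ n * c * Z * C := by ring
      exact key _ hL
    have h6 : BC I (Oup h) (2 ^ n * c * Z * C) n (fun t => fderiv ℝ (fun z => G t (zet z))) :=
      h5.congr hO (fun t ht z hz => ((hd t ht z hz).fderiv).symm)
    have hle1 : C ≤ (1 + 2 ^ n * c * Z) * C := by
      have : 0 ≤ 2 ^ n * c * Z * C := by positivity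
      linarith
    have hle2 : 2 ^ n * c * Z * C ≤ (1 + 2 ^ n * c * Z) * C := by linarith
    refine ⟨⟨fun z hz => hG0 _ (zet_mem_U hh hh1 hz.1 hz.2), fun t ht z hz =>
      (hGb t ht _ (zet_mem_U hh hh1 hz.1 hz.2)).trans hle1⟩,
      fun t ht z hz => (hd t ht z hz).differentiableAt, ?_⟩
    exact h6.mono le_rfl le_rfl hle2 le_rfl

end Pool.Agent.EAC.ZN
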