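import Pool.Agent.EAC.NV1

/-!
# EAC NV2: the velocity field of a strip function

`velG Λ G z = conj (-i (-iΛ + G (zet z)) zp z)`; `velZ h lam w = velG (Lam ..) (W h (rho w))` by definition.

Proof plan.
* `velG_conj`: `Geo.zet_conj`, `Geo.zp_conj`.
* `vel_BC`: on `Oup h`: `BC.const_space` for `Λ`, `BC_comp_zet`, `BC.add`, `zp_BC`, `BC.bilin` (multiplication),
  `BC.clm` (conjugation, norm `≤ 1`).  On the lower half: `v t z = conj (v t (conj z))` (`velG_conj`), `BC.conj_comp`,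
  `BC.clm`, `BC.congr`; `conj_mem_interior_dom`; `BC.union`.
-/

set_option autoImplicit false

noncomputable section

namespace Pool.Agent.EAC.ZN

open MeasureTheory Set Filter Topology Metric
open scoped ENNReal ComplexConjugate
open Pool.Agent.EAC.Geo

/-- velocity in the plane of the strip function `G` (`= Ψ_X - i Ψ_Y`) and the shear `Λ`. -/
def velG (Λ : ℝ) (G : ℂ → ℂ) (z : ℂ) : ℂ :=
  conj (-Complex.I * (-Complex.I * (Λ : ℂ) + G (zet z)) * zp z)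

theorem velZ_eq (h lam : ℝ) (w : ℂ → ℝ) (z : ℂ) :
    velZ h lam w z = velG (Lam h lam (fun x => rho x * w x)) (W h (fun x => rho x * w x)) z := rfl

theorem velG_conj {Λ : ℝ} {G : ℂ → ℂ} (hG : ∀ ζ, G (conj ζ) = -conj (G ζ)) (z : ℂ) :
    velG Λ G (conj z) = conj (velG Λ G z) := by
  unfold velG
  rw [Geo.zet_conj, Geo.zp_conj, hG]
  simp only [map_mul, map_add, map_neg, Complex.conj_I, Complex.conj_ofReal, Complex.conj_conj]
  ring

/-- the linear map `x ↦ conj (-i x)`. -/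
private def Lc : ℂ →L[ℝ] ℂ :=
  (Complex.conjCLE : ℂ →L[ℝ] ℂ).comp (ContinuousLinearMap.mul ℝ ℂ (-Complex.I))

private theorem Lc_apply (x : ℂ) : Lc x = conj (-Complex.I * x) := rfl

private theorem norm_Lc_le : ‖Lc‖ ≤ 1 := by
  refine ContinuousLinearMap.opNorm_le_bound _ zero_le_one fun x => ?_
  rw [Lc_apply, RCLike.norm_conj, norm_mul, norm_neg, Complex.norm_I]

private theorem norm_mul_le_one : ‖ContinuousLinearMap.mul ℝ ℂ‖ ≤ 1 :=
  ContinuousLinearMap.opNorm_mul_le ℝ ℂ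

private theorem norm_conjCLE_le : ‖(Complex.conjCLE : ℂ →L[ℝ] ℂ)‖ ≤ 1 := by
  refine ContinuousLinearMap.opNorm_le_bound _ zero_le_one fun x => ?_
  simp

theorem vel_BC_up (n : ℕ) : ∃ c : ℝ, 0 ≤ c ∧ ∀ h : ℝ, 0 < h → h ≤ 1 →
    ∀ (I : Set ℝ) (C : ℝ) (Λ : ℝ → ℝ) (G : ℝ → ℂ → ℂ), 0 ≤ C → ContinuousOn Λ I →
    (∀ t ∈ I, |Λ t| ≤ C) →
    (∀ t ∈ I, ∀ ζ ∈ U h, G t (ζ + 2 * Real.pi) = G t ζ) → BC I (U h) C n G →
    BC I (Oup h) (c * C) n (fun t => velG (Λ t) (G t)) := by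
  obtain ⟨c₁, hc₁, h₁⟩ := BC_comp_zet n
  obtain ⟨C₂, hC₂, h₂⟩ := zp_BC n
  refine ⟨2 ^ n * (1 + c₁) * C₂, by positivity, ?_⟩
  intro h hh hh1 I C Λ G hC hΛ hb hper hG
  have hO := isOpen_Oup h
  have e1 : BC I (Oup h) C n (fun t _ => -Complex.I * (Λ t : ℂ)) := by
    apply BC.const_space hC
    · exact continuousOn_const.mul (Complex.continuous_ofReal.comp_continuousOn hΛ)
    · intro t ht
      rw [norm_mul, norm_neg, Complex.norm_I, one_mul, Complex.norm_real]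
      exact hb t ht
  have e2 := h₁ ℂ h hh hh1 I C G hC hper hG
  have e3 := BC.add hO e1 e2
  have hsub : Oup h ⊆ dom 1 := fun z hz => Geo.dom_mono hh1 (interior_subset hz.1)
  have e4 : BC I (Oup h) C₂ n (fun _ => zp) := h₂ I (Oup h) hsub
  have hCc : 0 ≤ C + c₁ * C := by positivity
  have e5 := BC.bilin hO hCc hC₂ e3 e4 (ContinuousLinearMap.mul ℝ ℂ)
  have e6 := BC.clm hO (by positivity) e5 Lc
  have e7 := BC.congr (G' := fun t => velG (Λ t) (G t)) e6 hO (by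
    intro t _ z _
    simp only [Lc_apply, velG, ContinuousLinearMap.mul_apply', mul_assoc])
  refine e7.mono (subset_refl _) (subset_refl _) ?_ le_rfl
  have hL := norm_Lc_le
  have hM := norm_mul_le_one
  calc ‖Lc‖ * (2 ^ n * ‖ContinuousLinearMap.mul ℝ ℂ‖ * (C + c₁ * C) * C₂)
      ≤ 1 * (2 ^ n * 1 * (C + c₁ * C) * C₂) := by gcongr
    _ = 2 ^ n * (1 + c₁) * C₂ * C := by ring

theorem vel_BC (n : ℕ) : ∃ c : ℝ, 0 ≤ c ∧ ∀ h : ℝ, 0 < h → h ≤ 1 →
    ∀ (I : Set ℝ) (C : ℝ) (Λ : ℝ → ℝ) (G : ℝ → ℂ → ℂ), 0 ≤ C → ContinuousOn Λ I →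
    (∀ t ∈ I, |Λ t| ≤ C) → (∀ t ∈ I, ∀ ζ, G t (conj ζ) = -conj (G t ζ)) →
    (∀ t ∈ I, ∀ ζ ∈ U h, G t (ζ + 2 * Real.pi) = G t ζ) → BC I (U h) C n G →
    BC I (interior (dom h) ∩ {z | z.im ≠ 0}) (c * C) n (fun t => velG (Λ t) (G t)) := by
  obtain ⟨c, hc, h₁⟩ := vel_BC_up n
  refine ⟨c, hc, ?_⟩
  intro h hh hh1 I C Λ G hC hΛ hb hcj hper hG
  have hO := isOpen_Oup h
  have hup := h₁ h hh hh1 I C Λ G hC hΛ hb hper hG
  have hcC : 0 ≤ c * C := by positivity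
  have hO' : IsOpen {z : ℂ | conj z ∈ Oup h} := hO.preimage Complex.continuous_conj
  have e1 := BC.conj_comp hO hcC hup
  have e2 := BC.clm hO' hcC e1 (Complex.conjCLE : ℂ →L[ℝ] ℂ)
  have e3 := BC.congr (G' := fun t => velG (Λ t) (G t)) e2 hO' (by
    intro t ht z _
    have := velG_conj (Λ := Λ t) (G := G t) (hcj t ht) z
    show conj (velG (Λ t) (G t) (conj z)) = velG (Λ t) (G t) z
    rw [this, Complex.conj_conj])
  have e4 : BC I {z : ℂ | conj z ∈ Oup h} (c * C) n (fun t => velG (Λ t) (G t)) := by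
    refine e3.mono (subset_refl _) (subset_refl _) ?_ le_rfl
    have := norm_conjCLE_le
    calc ‖(Complex.conjCLE : ℂ →L[ℝ] ℂ)‖ * (c * C) ≤ 1 * (c * C) := by gcongr
      _ = c * C := one_mul _
  have e5 := BC.union hup e4
  refine e5.mono (subset_refl _) ?_ le_rfl le_rfl
  rintro z ⟨hz, hi⟩
  rcases lt_or_gt_of_ne hi with hlt | hgt
  · right
    refine ⟨Geo.conj_mem_interior_dom hh hh1 hz, ?_⟩
    show 0 < (conj z).im
    rw [Complex.conj_im]
    linarith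
  · left
    exact ⟨hz, hgt⟩

end Pool.Agent.EAC.ZN
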