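import Pool.Agent.EAC.NV2

/-!
# EAC NV3: the velocity field is smooth in the interior of the domain

Proof plan. `ContDiffOn` is local: at `z ∈ interior (dom h)` with `z.im ≠ 0` use `vel_BC` and `BC.contDiffOn` with `I = {t}`,
constant families.  At a real point `z₀` (`-1 < z₀ < 1`): `zet z₀` is real with negative sine (`Geo.zet_im_eq_zero`,
`Geo.sin_zet_neg_of_real`), so `G` is complex differentiable in a ball around `zet z₀`, hence smooth; `kap z₀` is in the slit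
plane (`arg (kap z₀) = (zet z₀).re ∈ (-π,0)`, so `≠ π`), so `zet` is holomorphic near `z₀`; `zp` is smooth at `z₀`;
products and compositions of `ContDiffAt ℝ ⊤` functions (`DifferentiableOn.contDiffOn`, `ContDiffAt.restrict_scalars`).
-/

set_option autoImplicit false

noncomputable section

namespace Pool.Agent.EAC.ZN

open MeasureTheory Set Filter Topology Metric
open scoped ENNReal ComplexConjugate
open Pool.Agent.EAC.Geo

private theorem vel_smooth_real {h : ℝ} (hh : 0 < h) (hh1 : h ≤ 1) {Λ : ℝ} {G : ℂ → ℂ}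
    (hs : ∀ x : ℝ, Real.sin x < 0 → ∃ r > 0, DifferentiableOn ℂ G (ball (x : ℂ) r)) {z : ℂ}
    (hz : z ∈ interior (dom h)) (hi : z.im = 0) :
    ContDiffAt ℝ ((⊤ : ℕ∞) : WithTop ℕ∞) (velG Λ G) z := by
  have hzd : z ∈ dom h := interior_subset hz
  have hA : qA z ≠ 0 := qA_ne_zero hh1 hzd
  have hB : qB z ≠ 0 := qB_ne_zero hh1 hzd
  have hq : qq z ≠ 0 := dom_qq_ne_zero hh1 hzd
  have h1 : ‖z‖ < 1 := ((mem_interior_dom hh hh1).1 hz).1
  have him : (zet z).im = 0 := zet_im_eq_zero (Or.inr hi)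
  have hsin := sin_zet_neg_of_real h1 hi
  have hze : (((zet z).re : ℝ) : ℂ) = zet z := by
    apply Complex.ext
    · simp
    · simp [him]
  obtain ⟨r, hr, hG⟩ := hs _ hsin
  rw [hze] at hG
  have hk0 : kap z ≠ 0 := by
    rw [kap_eq]
    exact div_ne_zero hB hA
  have hsl : kap z ∈ Complex.slitPlane := by
    rw [Complex.mem_slitPlane_iff_arg]
    refine ⟨fun he => ?_, hk0⟩
    rw [zet_re, he, Real.sin_pi] at hsin
    exact lt_irrefl _ hsin
  have hkap : ContDiffAt ℂ ((⊤ : ℕ∞) : WithTop ℕ∞) kap z := by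
    have e : kap = fun z => qB z / qA z := funext kap_eq
    rw [e]
    refine ContDiffAt.div ?_ ?_ hA
    · unfold qB; fun_prop
    · unfold qA; fun_prop
  have hzet : ContDiffAt ℂ ((⊤ : ℕ∞) : WithTop ℕ∞) zet z := by
    have e : zet = fun z => -Complex.I * Complex.log (kap z) := rfl
    rw [e]
    exact contDiffAt_const.mul ((Complex.contDiffAt_log hsl).comp z hkap)
  have hzp : ContDiffAt ℂ ((⊤ : ℕ∞) : WithTop ℕ∞) zp z := by
    have e : zp = fun z => 4 * (1 - z ^ 2) / qq z := funext zp_eq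
    rw [e]
    refine ContDiffAt.div ?_ ?_ hq
    · fun_prop
    · unfold qq; fun_prop
  have hGc : ContDiffAt ℂ ((⊤ : ℕ∞) : WithTop ℕ∞) G (zet z) :=
    (hG.contDiffOn isOpen_ball).contDiffAt (isOpen_ball.mem_nhds (mem_ball_self hr))
  have hGz : ContDiffAt ℂ ((⊤ : ℕ∞) : WithTop ℕ∞) (fun z => G (zet z)) z := hGc.comp z hzet
  have hall : ContDiffAt ℂ ((⊤ : ℕ∞) : WithTop ℕ∞)
      (fun z => -Complex.I * (-Complex.I * (Λ : ℂ) + G (zet z)) * zp z) z :=
    (contDiffAt_const.mul (contDiffAt_const.add hGz)).mul hzp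
  exact (Complex.conjCLE.contDiff (n := ((⊤ : ℕ∞) : WithTop ℕ∞))).contDiffAt.comp z
    (hall.restrict_scalars ℝ)

theorem vel_smooth {h : ℝ} (hh : 0 < h) (hh1 : h ≤ 1) {Λ : ℝ} {G : ℂ → ℂ}
    (hc : ∀ ζ, G (conj ζ) = -conj (G ζ)) (hp : ∀ ζ ∈ U h, G (ζ + 2 * Real.pi) = G ζ)
    (hB : ∀ n, ∃ C, BC (univ : Set ℝ) (U h) C n (fun _ => G))
    (hs : ∀ x : ℝ, Real.sin x < 0 → ∃ r > 0, DifferentiableOn ℂ G (ball (x : ℂ) r)) :
    ContDiffOn ℝ (⊤ : ℕ∞) (velG Λ G) (interior (dom h)) := by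
  intro z hz
  refine ContDiffAt.contDiffWithinAt ?_
  by_cases hi : z.im = 0
  · exact vel_smooth_real hh hh1 hs hz hi
  · have hO : IsOpen (interior (dom h) ∩ {z : ℂ | z.im ≠ 0}) :=
      isOpen_interior.inter (isOpen_ne_fun Complex.continuous_im continuous_const)
    have hBC : ∀ n, ∃ C, BC (univ : Set ℝ) (interior (dom h) ∩ {z : ℂ | z.im ≠ 0}) C n
        (fun _ => velG Λ G) := by
      intro n
      obtain ⟨c, -, hcc⟩ := vel_BC n
      obtain ⟨C, hC⟩ := hB n
      refine ⟨c * max C |Λ|, hcc h hh hh1 univ (max C |Λ|) (fun _ => Λ) (fun _ => G)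
        (le_trans (abs_nonneg Λ) (le_max_right _ _)) continuousOn_const
        (fun _ _ => le_max_right _ _) (fun _ _ => hc) (fun _ _ => hp)
        (hC.mono Subset.rfl Subset.rfl (le_max_left _ _) le_rfl)⟩
    exact (BC.contDiffOn hO hBC (mem_univ (0 : ℝ))).contDiffAt (hO.mem_nhds ⟨hz, hi⟩)

end Pool.Agent.EAC.ZN
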