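import Pool.Agent.EAC.Defs

/-!
# EAC NW1: classical derivatives of a smooth function are weak derivatives

Proof plan.
* `contDiffOn_iter`: `dx g`, `dy g` of a `ContDiffOn ⊤` function on an open set are `ContDiffOn ⊤`
  (`ContDiffOn.fderiv_of_isOpen`, evaluation at a vector); iterate.
* `intByParts`: `φ` test function with `tsupport φ ⊆ O`, `u` `C¹` on the open `O`: Mathlib's integration by parts
  `integral_smul_fderiv_eq_neg_fderiv_smul_of_integrable`.
* `isWeak_of_contDiffOn`: induction, moving first the `j` operators `dy`, then the `i` operators `dx`: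
  `∫ φ dy^[j] (dx^[i] v) = (-1)^j ∫ (dy^[j] φ) dx^[i] v = (-1)^(i+j) ∫ (dx^[i] (dy^[j] φ)) v`; the functions
  `dy^[j] φ`, `dx^[i] (dy^[j] φ)` are again smooth with support in `tsupport φ` (note `f^[n+1] x = f^[n] (f x) = f (f^[n] x)`).
  Measurability: `ContinuousOn` on the open set `interior M`.
-/

set_option autoImplicit false

noncomputable section

namespace Pool.Agent.EAC.ZN

open MeasureTheory Set Filter Topology Metric
open scoped ENNReal

/-- directional derivative -/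
private def dd {F : Type*} [NormedAddCommGroup F] [NormedSpace ℝ F] (e : ℂ) (f : ℂ → F) : ℂ → F :=
  fun z => fderiv ℝ f z e

private theorem dx_eq {F : Type*} [NormedAddCommGroup F] [NormedSpace ℝ F] :
    (dx : (ℂ → F) → ℂ → F) = dd 1 := rfl

private theorem dy_eq {F : Type*} [NormedAddCommGroup F] [NormedSpace ℝ F] :
    (dy : (ℂ → F) → ℂ → F) = dd Complex.I := rfl

private theorem contDiffOn_dd {F : Type*} [NormedAddCommGroup F] [NormedSpace ℝ F] (e : ℂ)
    {O : Set ℂ} (hO : IsOpen O) {v : ℂ → F} (hv : ContDiffOn ℝ (⊤ : ℕ∞) v O) :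
    ContDiffOn ℝ (⊤ : ℕ∞) (dd e v) O :=
  (hv.fderiv_of_isOpen hO le_rfl).clm_apply contDiffOn_const

private theorem contDiffOn_dd_iter {F : Type*} [NormedAddCommGroup F] [NormedSpace ℝ F] (e : ℂ)
    {O : Set ℂ} (hO : IsOpen O) {v : ℂ → F} (hv : ContDiffOn ℝ (⊤ : ℕ∞) v O) (n : ℕ) :
    ContDiffOn ℝ (⊤ : ℕ∞) ((dd e)^[n] v) O := by
  induction n with
  | zero => exact hv
  | succ n ih =>
    rw [Function.iterate_succ_apply']
    exact contDiffOn_dd e hO ih

theorem contDiffOn_iter {O : Set ℂ} (hO : IsOpen O) {v : ℂ → ℂ} (hv : ContDiffOn ℝ (⊤ : ℕ∞) v O)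
    (i j : ℕ) : ContDiffOn ℝ (⊤ : ℕ∞) (dy^[j] (dx^[i] v)) O := by
  rw [dx_eq, dy_eq]
  exact contDiffOn_dd_iter _ hO (contDiffOn_dd_iter _ hO hv i) j

private theorem integrable_smul {O : Set ℂ} (hO : IsOpen O) {g : ℂ → ℂ} (hg : ContinuousOn g O)
    {φ : ℂ → ℝ} (hφ : Continuous φ) (hc : HasCompactSupport φ) (hs : tsupport φ ⊆ O) :
    Integrable (fun z => φ z • g z) := by
  have h1 : Continuous (fun z => φ z • g z) := by
    refine continuous_of_tsupport fun x hx => ?_
    have hx' : x ∈ O := hs (tsupport_smul_subset_left φ g hx)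
    exact hφ.continuousAt.smul (hg.continuousAt (hO.mem_nhds hx'))
  exact h1.integrable_of_hasCompactSupport (hc.smul_right)

private theorem setInt_eq {O : Set ℂ} {g : ℂ → ℂ} {φ : ℂ → ℝ} (hs : tsupport φ ⊆ O) :
    ∫ z in O, φ z • g z = ∫ z, φ z • g z := by
  apply setIntegral_eq_integral_of_forall_compl_eq_zero
  intro x hx
  have : φ x = 0 := image_eq_zero_of_notMem_tsupport fun h => hx (hs h)
  rw [this, zero_smul]

theorem intByParts {O : Set ℂ} (hO : IsOpen O) {u : ℂ → ℂ} (hu : ContDiffOn ℝ (⊤ : ℕ∞) u O)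
    {φ : ℂ → ℝ} (hφ : ContDiff ℝ (⊤ : ℕ∞) φ) (hc : HasCompactSupport φ) (hs : tsupport φ ⊆ O)
    (e : ℂ) : ∫ z in O, φ z • (fderiv ℝ u z e) = -∫ z in O, (fderiv ℝ φ z e) • u z := by
  have hs' : tsupport (fun z => fderiv ℝ φ z e) ⊆ O := (tsupport_fderiv_apply_subset ℝ e).trans hs
  have hφ' : Continuous (fun z => fderiv ℝ φ z e) :=
    (hφ.continuous_fderiv (by simp)).clm_apply continuous_const
  rw [setInt_eq (g := fun z => fderiv ℝ u z e) hs, setInt_eq (φ := fun z => fderiv ℝ φ z e) hs']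
  apply integral_smul_fderiv_eq_neg_fderiv_smul_of_integrable
  · exact integrable_smul hO hu.continuousOn hφ' (hc.fderiv_apply ℝ e) hs'
  · exact integrable_smul hO (contDiffOn_dd e hO hu).continuousOn hφ.continuous hc hs
  · exact integrable_smul hO hu.continuousOn hφ.continuous hc hs
  · intro x _
    exact (hφ.differentiable (by simp)).differentiableAt
  · intro x hx
    exact (hu.differentiableOn (by simp)).differentiableAt (hO.mem_nhds (hs hx))

/-- test functions on `O` -/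
private def Tst (O : Set ℂ) (φ : ℂ → ℝ) : Prop :=
  ContDiff ℝ (⊤ : ℕ∞) φ ∧ HasCompactSupport φ ∧ tsupport φ ⊆ O

private theorem Tst.dd {O : Set ℂ} {φ : ℂ → ℝ} (h : Tst O φ) (e : ℂ) : Tst O (dd e φ) :=
  ⟨(h.1.fderiv_right le_rfl).clm_apply contDiff_const, h.2.1.fderiv_apply ℝ e,
    (tsupport_fderiv_apply_subset ℝ e).trans h.2.2⟩

private theorem Tst.iter {O : Set ℂ} {φ : ℂ → ℝ} (h : Tst O φ) (e : ℂ) (n : ℕ) :
    Tst O ((ZN.dd e)^[n] φ) := by
  induction n with
  | zero => exact h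
  | succ n ih =>
    rw [Function.iterate_succ_apply']
    exact ih.dd e

private theorem parts_iter {O : Set ℂ} (hO : IsOpen O) (e : ℂ) (n : ℕ) :
    ∀ {u : ℂ → ℂ}, ContDiffOn ℝ (⊤ : ℕ∞) u O → ∀ {φ : ℂ → ℝ}, Tst O φ →
      ∫ z in O, φ z • (dd e)^[n] u z = (-1 : ℝ) ^ n • ∫ z in O, ((dd e)^[n] φ) z • u z := by
  induction n with
  | zero =>
    intro u _ φ _
    simp
  | succ n ih =>
    intro u hu φ hφ
    have h1 := ih (contDiffOn_dd e hO hu) hφ
    have h2 := hφ.iter e n
    have h3 := intByParts hO hu h2.1 h2.2.1 h2.2.2 e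
    rw [Function.iterate_succ_apply, h1, Function.iterate_succ_apply']
    have h4 : ∫ z in O, ((dd e)^[n] φ) z • dd e u z = -∫ z in O, (dd e ((dd e)^[n] φ)) z • u z := h3
    rw [h4, pow_succ, mul_smul, neg_one_smul]

theorem isWeak_of_contDiffOn {M : Set ℂ} {v : ℂ → ℂ}
    (hv : ContDiffOn ℝ (⊤ : ℕ∞) v (interior M)) (s : ℕ) :
    IsWeak M s v (fun i j => dy^[j] (dx^[i] v)) where
  zero := fun z _ => rfl
  meas := fun i j _ =>
    (contDiffOn_iter isOpen_interior hv i j).continuousOn.aestronglyMeasurable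
      isOpen_interior.measurableSet
  weak := fun i j _ φ hφ hc hs => by
    have hT : Tst (interior M) φ := ⟨hφ, hc, hs⟩
    have h1 : ContDiffOn ℝ (⊤ : ℕ∞) (dx^[i] v) (interior M) :=
      contDiffOn_dd_iter 1 isOpen_interior hv i
    have h2 := parts_iter isOpen_interior Complex.I j h1 hT
    have h3 := parts_iter isOpen_interior 1 i hv (hT.iter Complex.I j)
    rw [← dy_eq, ← dy_eq] at h2
    rw [← dy_eq, ← dx_eq, ← dx_eq] at h3
    rw [h2, h3, smul_smul, ← pow_add, add_comm j i]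

end Pool.Agent.EAC.ZN
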