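import Pool.Agent.EAC.R1a

/-!
# EAC-R1: closure properties of the class `CC T h n`

Induction on `n`, generalizing the spaces. `CC_le_zero`: `CC (n+1)` implies `CC 0`: the derivative is bounded on the convex set `U h`, so
`G t` is Lipschitz with a uniform constant (`Convex.norm_image_sub_le_of_norm_hasFDerivWithin_le`), and bounded Lipschitz functions are
`1`-Hölder. `CC_mono`: `CC (n+1)` implies `CC n`. `CC_clm`: postcomposition with a continuous linear map `L : F →L F'`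
(derivative `L ∘ G'`, i.e. postcomposition with `ContinuousLinearMap.compL ℝ ℂ F F' L`). `CC_bilin`: for a continuous bilinear map `B`, derivative of `B (G₁ t z) (G₂ t z)`
is `B.precompR`, `B.precompL` applied to `(G₁, G₂')`, `(G₁', G₂)`. `CC_pair`.

THIS FILE: CC_clm, CC_neg, CC_bilin, CC_mul, CC_smul.
-/

set_option autoImplicit false

noncomputable section

namespace Pool.Agent.EAC


open Set Filter Topology Metric

variable {T h : ℝ} {F F₁ F₂ F₃ : Type} [NormedAddCommGroup F] [NormedSpace ℝ F]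
  [NormedAddCommGroup F₁] [NormedSpace ℝ F₁] [NormedAddCommGroup F₂] [NormedSpace ℝ F₂]
  [NormedAddCommGroup F₃] [NormedSpace ℝ F₃]

private theorem CC_clm_aux (n : ℕ) : ∀ {F F₁ : Type} [NormedAddCommGroup F] [NormedSpace ℝ F]
    [NormedAddCommGroup F₁] [NormedSpace ℝ F₁] (L : F →L[ℝ] F₁) {G : ℝ → ℂ → F},
    CC T h n G → CC T h n (fun t z => L (G t z)) := by
  induction n with
  | zero =>
    intro F F₁ _ _ _ _ L G hG
    obtain ⟨h1, ⟨B, hB⟩, β, hβ0, hβ1, K, hK⟩ := CC_zero_def.1 hG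
    refine CC_zero_def.2 ⟨L.continuous.comp_continuousOn h1, ⟨‖L‖ * B, fun t ht z hz => ?_⟩,
      β, hβ0, hβ1, ‖L‖ * K, fun t ht z hz w hw => ?_⟩
    · exact (L.le_opNorm _).trans (by gcongr; exact hB t ht z hz)
    · rw [← map_sub, mul_assoc]
      exact (L.le_opNorm _).trans (by gcongr; exact hK t ht z hz w hw)
  | succ n ih =>
    intro F F₁ _ _ _ _ L G hG
    obtain ⟨h1, ⟨B, hB⟩, D, hD, hD'⟩ := CC_succ_def.1 hG
    refine CC_succ_def.2 ⟨L.continuous.comp_continuousOn h1, ⟨‖L‖ * B, fun t ht z hz => ?_⟩,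
      fun t z => ContinuousLinearMap.compL ℝ ℂ F F₁ L (D t z), fun t ht z hz => ?_, ?_⟩
    · exact (L.le_opNorm _).trans (by gcongr; exact hB t ht z hz)
    · exact L.hasFDerivAt.comp z (hD t ht z hz)
    · exact ih (ContinuousLinearMap.compL ℝ ℂ F F₁ L) hD'

theorem CC_clm {n : ℕ} (L : F →L[ℝ] F₁) {G : ℝ → ℂ → F} (hG : CC T h n G) :
    CC T h n (fun t z => L (G t z)) := CC_clm_aux n L hG

theorem CC_neg {n : ℕ} {G : ℝ → ℂ → F} (hG : CC T h n G) : CC T h n (fun t z => -G t z) := by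
  have := CC_clm (-ContinuousLinearMap.id ℝ F) hG
  exact this

private theorem CC_bilin_aux (n : ℕ) : ∀ {F₁ F₂ F₃ : Type}
    [NormedAddCommGroup F₁] [NormedSpace ℝ F₁] [NormedAddCommGroup F₂] [NormedSpace ℝ F₂]
    [NormedAddCommGroup F₃] [NormedSpace ℝ F₃]
    (B : F₁ →L[ℝ] F₂ →L[ℝ] F₃) {G₁ : ℝ → ℂ → F₁} {G₂ : ℝ → ℂ → F₂},
    CC T h n G₁ → CC T h n G₂ → CC T h n (fun t z => B (G₁ t z) (G₂ t z)) := by
  induction n with
  | zero =>
    intro F₁ F₂ F₃ _ _ _ _ _ _ B G₁ G₂ h1 h2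
    obtain ⟨β, hβ0, hβ1, K, hK0, hB₁, hB₂, hK₁, hK₂⟩ := CC_zero_common h1 h2
    refine CC_zero_def.2 ⟨?_, ⟨‖B‖ * K * K, fun t ht z hz => ?_⟩, β, hβ0, hβ1, 2 * ‖B‖ * K * K,
      fun t ht z hz w hw => ?_⟩
    · exact B.continuous₂.comp_continuousOn (h1.1.prodMk h2.1)
    · refine (B.le_opNorm₂ _ _).trans ?_
      gcongr
      · exact hB₁ t ht z hz
      · exact hB₂ t ht z hz
    · have e : B (G₁ t z) (G₂ t z) - B (G₁ t w) (G₂ t w) =
          B (G₁ t z - G₁ t w) (G₂ t z) + B (G₁ t w) (G₂ t z - G₂ t w) := by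
        simp [map_sub]
      rw [e]
      calc ‖B (G₁ t z - G₁ t w) (G₂ t z) + B (G₁ t w) (G₂ t z - G₂ t w)‖
          ≤ ‖B (G₁ t z - G₁ t w) (G₂ t z)‖ + ‖B (G₁ t w) (G₂ t z - G₂ t w)‖ := norm_add_le _ _
        _ ≤ ‖B‖ * (K * ‖z - w‖ ^ β) * K + ‖B‖ * K * (K * ‖z - w‖ ^ β) := by
            refine add_le_add ((B.le_opNorm₂ _ _).trans ?_) ((B.le_opNorm₂ _ _).trans ?_)
            · gcongr
              · exact hK₁ t ht z hz w hw
              · exact hB₂ t ht z hz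
            · gcongr
              · exact hB₁ t ht w hw
              · exact hK₂ t ht z hz w hw
        _ = 2 * ‖B‖ * K * K * ‖z - w‖ ^ β := by ring
  | succ n ih =>
    intro F₁ F₂ F₃ _ _ _ _ _ _ B G₁ G₂ h1 h2
    obtain ⟨a1, -, D₁, hD₁, hD₁'⟩ := CC_succ_def.1 h1
    obtain ⟨a2, -, D₂, hD₂, hD₂'⟩ := CC_succ_def.1 h2
    obtain ⟨B₁, hB₁0, hB₁⟩ := CC_bdd h1
    obtain ⟨B₂, hB₂0, hB₂⟩ := CC_bdd h2
    have i1 : CC T h n (fun t z => B.precompR ℂ (G₁ t z) (D₂ t z)) :=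
      ih (B.precompR ℂ) (CC_succ h1) hD₂'
    have i2 : CC T h n (fun t z => B.precompL ℂ (D₁ t z) (G₂ t z)) :=
      ih (B.precompL ℂ) hD₁' (CC_succ h2)
    refine CC_succ_def.2 ⟨?_, ⟨‖B‖ * B₁ * B₂, fun t ht z hz => ?_⟩,
      fun t z => B.precompR ℂ (G₁ t z) (D₂ t z) + B.precompL ℂ (D₁ t z) (G₂ t z),
      fun t ht z hz => ?_, CC_add i1 i2⟩
    · exact B.continuous₂.comp_continuousOn (a1.prodMk a2)
    · refine (B.le_opNorm₂ _ _).trans ?_
      gcongr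
      · exact hB₁ t ht z hz
      · exact hB₂ t ht z hz
    · exact B.hasFDerivAt_of_bilinear (hD₁ t ht z hz) (hD₂ t ht z hz)

theorem CC_bilin {n : ℕ} (B : F₁ →L[ℝ] F₂ →L[ℝ] F₃) {G₁ : ℝ → ℂ → F₁} {G₂ : ℝ → ℂ → F₂}
    (h1 : CC T h n G₁) (h2 : CC T h n G₂) : CC T h n (fun t z => B (G₁ t z) (G₂ t z)) :=
  CC_bilin_aux n B h1 h2

theorem CC_mul {n : ℕ} {G₁ G₂ : ℝ → ℂ → ℝ} (h1 : CC T h n G₁) (h2 : CC T h n G₂) :
    CC T h n (fun t z => G₁ t z * G₂ t z) :=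
  CC_bilin (ContinuousLinearMap.mul ℝ ℝ) h1 h2

theorem CC_smul {n : ℕ} {G₁ : ℝ → ℂ → ℝ} {G₂ : ℝ → ℂ → F} (h1 : CC T h n G₁) (h2 : CC T h n G₂) :
    CC T h n (fun t z => G₁ t z • G₂ t z) :=
  CC_bilin (ContinuousLinearMap.lsmul ℝ ℝ) h1 h2

end Pool.Agent.EAC
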