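import Pool.Agent.EAC.Strip

/-!
# EAC-R1: closure properties of the class `CC T h n`

Induction on `n`, generalizing the spaces. `CC_le_zero`: `CC (n+1)` implies `CC 0`: the derivative is bounded on the convex set `U h`, so
`G t` is Lipschitz with a uniform constant (`Convex.norm_image_sub_le_of_norm_hasFDerivWithin_le`), and bounded Lipschitz functions are
`1`-Hölder. `CC_mono`: `CC (n+1)` implies `CC n`. `CC_clm`: postcomposition with a continuous linear map `L : F →L F'`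
(derivative `L ∘ G'`, i.e. postcomposition with `ContinuousLinearMap.compL ℝ ℂ F F' L`). `CC_bilin`: for a continuous bilinear map `B`, derivative of `B (G₁ t z) (G₂ t z)`
is `B.precompR`, `B.precompL` applied to `(G₁, G₂')`, `(G₁', G₂)`. `CC_pair`.

THIS FILE: convex_U, isOpen_U, CC_congr, CC_cont, CC_bdd, CC_zero_of, CC_lip, CC_succ, CC_mono, CC_time, CC_const, CC_of_time, CC_add, CC_deriv, CC_of_deriv.
-/

set_option autoImplicit false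

noncomputable section

namespace Pool.Agent.EAC


open Set Filter Topology Metric

variable {T h : ℝ} {F F₁ F₂ F₃ : Type} [NormedAddCommGroup F] [NormedSpace ℝ F]
  [NormedAddCommGroup F₁] [NormedSpace ℝ F₁] [NormedAddCommGroup F₂] [NormedSpace ℝ F₂]
  [NormedAddCommGroup F₃] [NormedSpace ℝ F₃]

theorem convex_U (h : ℝ) : Convex ℝ (U h) := by
  have h1 : U h = {z : ℂ | 0 < z.im} ∩ {z : ℂ | z.im < h} := by
    ext z; simp [U]
  rw [h1]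
  exact (convex_halfSpace_im_gt 0).inter (convex_halfSpace_im_lt h)

theorem isOpen_U (h : ℝ) : IsOpen (U h) := by
  have h1 : U h = {z : ℂ | 0 < z.im} ∩ {z : ℂ | z.im < h} := by
    ext z; simp [U]
  rw [h1]
  exact (isOpen_lt continuous_const Complex.continuous_im).inter
    (isOpen_lt Complex.continuous_im continuous_const)

theorem CC_zero_def {G : ℝ → ℂ → F} : CC T h 0 G ↔
    (ContinuousOn (fun p : ℝ × ℂ => G p.1 p.2) (Icc 0 T ×ˢ U h) ∧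
      (∃ B : ℝ, ∀ t ∈ Icc 0 T, ∀ z ∈ U h, ‖G t z‖ ≤ B) ∧
      ∃ β : ℝ, 0 < β ∧ β ≤ 1 ∧ ∃ K : ℝ, ∀ t ∈ Icc 0 T, ∀ z ∈ U h, ∀ w ∈ U h,
        ‖G t z - G t w‖ ≤ K * ‖z - w‖ ^ β) := Iff.rfl

theorem CC_succ_def {n : ℕ} {G : ℝ → ℂ → F} : CC T h (n + 1) G ↔
    (ContinuousOn (fun p : ℝ × ℂ => G p.1 p.2) (Icc 0 T ×ˢ U h) ∧
      (∃ B : ℝ, ∀ t ∈ Icc 0 T, ∀ z ∈ U h, ‖G t z‖ ≤ B) ∧
      ∃ G' : ℝ → ℂ → (ℂ →L[ℝ] F), (∀ t ∈ Icc 0 T, ∀ z ∈ U h, HasFDerivAt (G t) (G' t z) z) ∧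
        CC T h n G') := Iff.rfl

theorem CC_congr {n : ℕ} {G G' : ℝ → ℂ → F} (hG : CC T h n G)
    (he : ∀ t ∈ Icc 0 T, ∀ z ∈ U h, G t z = G' t z) : CC T h n G' := by
  cases n with
  | zero =>
    obtain ⟨h1, ⟨B, hB⟩, β, hβ0, hβ1, K, hK⟩ := CC_zero_def.1 hG
    refine CC_zero_def.2 ⟨h1.congr ?_, ⟨B, ?_⟩, β, hβ0, hβ1, K, ?_⟩
    · rintro ⟨t, z⟩ ⟨ht, hz⟩
      exact (he t ht z hz).symm
    · intro t ht z hz
      rw [← he t ht z hz]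
      exact hB t ht z hz
    · intro t ht z hz w hw
      rw [← he t ht z hz, ← he t ht w hw]
      exact hK t ht z hz w hw
  | succ n =>
    obtain ⟨h1, ⟨B, hB⟩, D, hD, hD'⟩ := CC_succ_def.1 hG
    refine CC_succ_def.2 ⟨h1.congr ?_, ⟨B, ?_⟩, D, ?_, hD'⟩
    · rintro ⟨t, z⟩ ⟨ht, hz⟩
      exact (he t ht z hz).symm
    · intro t ht z hz
      rw [← he t ht z hz]
      exact hB t ht z hz
    · intro t ht z hz
      refine (hD t ht z hz).congr_of_eventuallyEq ?_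
      filter_upwards [(isOpen_U h).mem_nhds hz] with w hw
      exact (he t ht w hw).symm

theorem CC_cont {n : ℕ} {G : ℝ → ℂ → F} (hG : CC T h n G) :
    ContinuousOn (fun p : ℝ × ℂ => G p.1 p.2) (Icc 0 T ×ˢ U h) := by
  cases n with
  | zero => exact hG.1
  | succ n => exact hG.1

theorem CC_bdd {n : ℕ} {G : ℝ → ℂ → F} (hG : CC T h n G) :
    ∃ B : ℝ, 0 ≤ B ∧ ∀ t ∈ Icc 0 T, ∀ z ∈ U h, ‖G t z‖ ≤ B := by
  have h1 : ∃ B : ℝ, ∀ t ∈ Icc 0 T, ∀ z ∈ U h, ‖G t z‖ ≤ B := by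
    cases n with
    | zero => exact hG.2.1
    | succ n => exact hG.2.1
  obtain ⟨B, hB⟩ := h1
  exact ⟨max B 0, le_max_right _ _, fun t ht z hz => (hB t ht z hz).trans (le_max_left _ _)⟩

theorem CC_lip {n : ℕ} {G : ℝ → ℂ → F} (hG : CC T h (n + 1) G) :
    ∃ L : ℝ, 0 ≤ L ∧ ∀ t ∈ Icc 0 T, ∀ z ∈ U h, ∀ w ∈ U h, ‖G t z - G t w‖ ≤ L * ‖z - w‖ := by
  obtain ⟨h1, ⟨B, hB⟩, D, hD, hD'⟩ := CC_succ_def.1 hG
  obtain ⟨L, hL0, hL⟩ := CC_bdd hD'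
  refine ⟨L, hL0, fun t ht z hz w hw => ?_⟩
  exact (convex_U h).norm_image_sub_le_of_norm_hasFDerivWithin_le
    (fun x hx => (hD t ht x hx).hasFDerivWithinAt) (fun x hx => hL t ht x hx) hw hz

theorem CC_zero_of {n : ℕ} {G : ℝ → ℂ → F} (hG : CC T h n G) : CC T h 0 G := by
  cases n with
  | zero => exact hG
  | succ n =>
    obtain ⟨L, hL0, hL⟩ := CC_lip hG
    refine CC_zero_def.2 ⟨hG.1, hG.2.1, 1, one_pos, le_rfl, L, fun t ht z hz w hw => ?_⟩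
    rw [Real.rpow_one]
    exact hL t ht z hz w hw

private theorem CC_succ_aux (n : ℕ) : ∀ {F : Type} [NormedAddCommGroup F] [NormedSpace ℝ F]
    {G : ℝ → ℂ → F}, CC T h (n + 1) G → CC T h n G := by
  induction n with
  | zero => intro F _ _ G hG; exact CC_zero_of hG
  | succ n ih =>
    intro F _ _ G hG
    obtain ⟨h1, h2, D, hD, hD'⟩ := CC_succ_def.1 hG
    exact CC_succ_def.2 ⟨h1, h2, D, hD, ih hD'⟩

theorem CC_succ {n : ℕ} {G : ℝ → ℂ → F} (hG : CC T h (n + 1) G) : CC T h n G :=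
  CC_succ_aux n hG

theorem CC_mono {n m : ℕ} (hnm : n ≤ m) {G : ℝ → ℂ → F} (hG : CC T h m G) : CC T h n G := by
  induction m, hnm using Nat.le_induction with
  | base => exact hG
  | succ m hm ih => exact ih (CC_succ hG)

private theorem CC_time_aux {T' : ℝ} (hT : T' ≤ T) (n : ℕ) :
    ∀ {F : Type} [NormedAddCommGroup F] [NormedSpace ℝ F]
    {G : ℝ → ℂ → F}, CC T h n G → CC T' h n G := by
  have hsub : Icc 0 T' ⊆ Icc 0 T := Icc_subset_Icc_right hT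
  induction n with
  | zero =>
    intro F _ _ G hG
    obtain ⟨h1, ⟨B, hB⟩, β, hβ0, hβ1, K, hK⟩ := CC_zero_def.1 hG
    exact CC_zero_def.2 ⟨h1.mono (prod_mono hsub subset_rfl), ⟨B, fun t ht => hB t (hsub ht)⟩,
      β, hβ0, hβ1, K, fun t ht => hK t (hsub ht)⟩
  | succ n ih =>
    intro F _ _ G hG
    obtain ⟨h1, ⟨B, hB⟩, D, hD, hD'⟩ := CC_succ_def.1 hG
    exact CC_succ_def.2 ⟨h1.mono (prod_mono hsub subset_rfl), ⟨B, fun t ht => hB t (hsub ht)⟩,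
      D, fun t ht => hD t (hsub ht), ih hD'⟩

theorem CC_time {T' : ℝ} (hT : T' ≤ T) {n : ℕ} {G : ℝ → ℂ → F} (hG : CC T h n G) : CC T' h n G :=
  CC_time_aux hT n hG

private theorem CC_of_time_aux (n : ℕ) : ∀ {F : Type} [NormedAddCommGroup F] [NormedSpace ℝ F]
    {c : ℝ → F}, ContinuousOn c (Icc 0 T) → CC T h n (fun t (_ : ℂ) => c t) := by
  induction n with
  | zero =>
    intro F _ _ c hc
    obtain ⟨B, hB⟩ := isCompact_Icc.exists_bound_of_continuousOn hc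
    refine CC_zero_def.2 ⟨?_, ⟨B, fun t ht z _ => hB t ht⟩, 1, one_pos, le_rfl, 0, ?_⟩
    · exact hc.comp continuousOn_fst (fun p hp => hp.1)
    · intro t ht z hz w hw
      simp
  | succ n ih =>
    intro F _ _ c hc
    obtain ⟨B, hB⟩ := isCompact_Icc.exists_bound_of_continuousOn hc
    refine CC_succ_def.2 ⟨?_, ⟨B, fun t ht z _ => hB t ht⟩, fun _ _ => 0, ?_, ?_⟩
    · exact hc.comp continuousOn_fst (fun p hp => hp.1)
    · intro t ht z hz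
      exact hasFDerivAt_const (c t) z
    · exact ih (c := fun _ => (0 : ℂ →L[ℝ] F)) continuousOn_const

theorem CC_of_time (n : ℕ) {c : ℝ → F} (hc : ContinuousOn c (Icc 0 T)) :
    CC T h n (fun t _ => c t) := CC_of_time_aux n hc

theorem CC_const (n : ℕ) (c : F) : CC T h n (fun _ _ => c) :=
  CC_of_time n (c := fun _ => c) continuousOn_const

omit [NormedSpace ℝ F] in
/-- a bounded `β`-Hölder function is `β'`-Hölder for `β' ≤ β`. -/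
theorem hold_lower {β β' B K : ℝ} {g : ℂ → F} {A : Set ℂ} (hβ' : 0 < β') (hle : β' ≤ β)
    (hB : ∀ z ∈ A, ‖g z‖ ≤ B) (hK : ∀ z ∈ A, ∀ w ∈ A, ‖g z - g w‖ ≤ K * ‖z - w‖ ^ β) :
    ∀ z ∈ A, ∀ w ∈ A, ‖g z - g w‖ ≤ max (|K|) (2 * B) * ‖z - w‖ ^ β' := by
  intro z hz w hw
  rcases le_or_gt ‖z - w‖ 1 with h1 | h1
  · rcases eq_or_ne z w with rfl | hne
    · simp [Real.zero_rpow hβ'.ne']
    · have h0 : 0 < ‖z - w‖ := norm_pos_iff.2 (sub_ne_zero.2 hne)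
      have h2 : ‖z - w‖ ^ β ≤ ‖z - w‖ ^ β' := Real.rpow_le_rpow_of_exponent_ge h0 h1 hle
      calc ‖g z - g w‖ ≤ K * ‖z - w‖ ^ β := hK z hz w hw
        _ ≤ |K| * ‖z - w‖ ^ β := by gcongr; exact le_abs_self K
        _ ≤ |K| * ‖z - w‖ ^ β' := by gcongr
        _ ≤ max (|K|) (2 * B) * ‖z - w‖ ^ β' := by gcongr; exact le_max_left _ _
  · have h2 : 1 ≤ ‖z - w‖ ^ β' := Real.one_le_rpow h1.le hβ'.le
    have h3 : ‖g z - g w‖ ≤ 2 * B := by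
      calc ‖g z - g w‖ ≤ ‖g z‖ + ‖g w‖ := norm_sub_le _ _
        _ ≤ B + B := add_le_add (hB z hz) (hB w hw)
        _ = 2 * B := by ring
    calc ‖g z - g w‖ ≤ 2 * B := h3
      _ ≤ max (|K|) (2 * B) := le_max_right _ _
      _ = max (|K|) (2 * B) * 1 := (mul_one _).symm
      _ ≤ max (|K|) (2 * B) * ‖z - w‖ ^ β' := by
          gcongr

/-- `CC 0` for two functions, with common exponent and constants. -/
theorem CC_zero_common {G₁ : ℝ → ℂ → F₁} {G₂ : ℝ → ℂ → F₂} (h1 : CC T h 0 G₁)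
    (h2 : CC T h 0 G₂) : ∃ β : ℝ, 0 < β ∧ β ≤ 1 ∧ ∃ K : ℝ, 0 ≤ K ∧
      (∀ t ∈ Icc 0 T, ∀ z ∈ U h, ‖G₁ t z‖ ≤ K) ∧ (∀ t ∈ Icc 0 T, ∀ z ∈ U h, ‖G₂ t z‖ ≤ K) ∧
      (∀ t ∈ Icc 0 T, ∀ z ∈ U h, ∀ w ∈ U h, ‖G₁ t z - G₁ t w‖ ≤ K * ‖z - w‖ ^ β) ∧
      (∀ t ∈ Icc 0 T, ∀ z ∈ U h, ∀ w ∈ U h, ‖G₂ t z - G₂ t w‖ ≤ K * ‖z - w‖ ^ β) := by
  obtain ⟨-, ⟨B₁, hB₁⟩, β₁, hβ₁, hβ₁', K₁, hK₁⟩ := CC_zero_def.1 h1
  obtain ⟨-, ⟨B₂, hB₂⟩, β₂, hβ₂, hβ₂', K₂, hK₂⟩ := CC_zero_def.1 h2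
  set M₁ := max (|K₁|) (2 * B₁) with hM₁
  set M₂ := max (|K₂|) (2 * B₂) with hM₂
  have hM₁0 : 0 ≤ M₁ := (abs_nonneg K₁).trans (le_max_left _ _)
  have hM₂0 : 0 ≤ M₂ := (abs_nonneg K₂).trans (le_max_left _ _)
  refine ⟨min β₁ β₂, lt_min hβ₁ hβ₂, (min_le_left _ _).trans hβ₁', M₁ + M₂ + |B₁| + |B₂|,
    by positivity, ?_, ?_, ?_, ?_⟩
  · intro t ht z hz
    have := hB₁ t ht z hz
    have := le_abs_self B₁
    have := abs_nonneg B₂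
    linarith
  · intro t ht z hz
    have := hB₂ t ht z hz
    have := le_abs_self B₂
    have := abs_nonneg B₁
    linarith
  · intro t ht z hz w hw
    refine (hold_lower (lt_min hβ₁ hβ₂) (min_le_left _ _) (hB₁ t ht) (hK₁ t ht) z hz w hw).trans ?_
    gcongr
    have := abs_nonneg B₁
    have := abs_nonneg B₂
    linarith
  · intro t ht z hz w hw
    refine (hold_lower (lt_min hβ₁ hβ₂) (min_le_right _ _) (hB₂ t ht) (hK₂ t ht) z hz w hw).trans ?_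
    gcongr
    have := abs_nonneg B₁
    have := abs_nonneg B₂
    linarith

private theorem CC_add_aux (n : ℕ) : ∀ {F : Type} [NormedAddCommGroup F] [NormedSpace ℝ F]
    {G₁ G₂ : ℝ → ℂ → F}, CC T h n G₁ → CC T h n G₂ →
    CC T h n (fun t z => G₁ t z + G₂ t z) := by
  induction n with
  | zero =>
    intro F _ _ G₁ G₂ h1 h2
    obtain ⟨β, hβ0, hβ1, K, hK0, hB₁, hB₂, hK₁, hK₂⟩ := CC_zero_common h1 h2
    refine CC_zero_def.2 ⟨h1.1.add h2.1, ⟨K + K, fun t ht z hz => ?_⟩, β, hβ0, hβ1, K + K, ?_⟩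
    · exact (norm_add_le _ _).trans (add_le_add (hB₁ t ht z hz) (hB₂ t ht z hz))
    · intro t ht z hz w hw
      calc ‖G₁ t z + G₂ t z - (G₁ t w + G₂ t w)‖ = ‖(G₁ t z - G₁ t w) + (G₂ t z - G₂ t w)‖ := by
            congr 1; abel
        _ ≤ ‖G₁ t z - G₁ t w‖ + ‖G₂ t z - G₂ t w‖ := norm_add_le _ _
        _ ≤ K * ‖z - w‖ ^ β + K * ‖z - w‖ ^ β :=
            add_le_add (hK₁ t ht z hz w hw) (hK₂ t ht z hz w hw)
        _ = (K + K) * ‖z - w‖ ^ β := by ring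
  | succ n ih =>
    intro F _ _ G₁ G₂ h1 h2
    obtain ⟨a1, ⟨B₁, hB₁⟩, D₁, hD₁, hD₁'⟩ := CC_succ_def.1 h1
    obtain ⟨a2, ⟨B₂, hB₂⟩, D₂, hD₂, hD₂'⟩ := CC_succ_def.1 h2
    refine CC_succ_def.2 ⟨a1.add a2, ⟨B₁ + B₂, fun t ht z hz => ?_⟩,
      fun t z => D₁ t z + D₂ t z, ?_, ih hD₁' hD₂'⟩
    · exact (norm_add_le _ _).trans (add_le_add (hB₁ t ht z hz) (hB₂ t ht z hz))
    · intro t ht z hz
      exact (hD₁ t ht z hz).add (hD₂ t ht z hz)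

theorem CC_add {n : ℕ} {G₁ G₂ : ℝ → ℂ → F} (h1 : CC T h n G₁) (h2 : CC T h n G₂) :
    CC T h n (fun t z => G₁ t z + G₂ t z) := CC_add_aux n h1 h2

/-- the derivative of a function of class `CC (n+1)` is of class `CC n`, whichever way it is given. -/
theorem CC_deriv {n : ℕ} {G : ℝ → ℂ → F} {G' : ℝ → ℂ → (ℂ →L[ℝ] F)} (hG : CC T h (n + 1) G)
    (hd : ∀ t ∈ Icc 0 T, ∀ z ∈ U h, HasFDerivAt (G t) (G' t z) z) : CC T h n G' := by
  obtain ⟨h1, h2, D, hD, hD'⟩ := CC_succ_def.1 hG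
  exact CC_congr hD' (fun t ht z hz => (hD t ht z hz).unique (hd t ht z hz))

theorem CC_of_deriv {n : ℕ} {G : ℝ → ℂ → F} {G' : ℝ → ℂ → (ℂ →L[ℝ] F)} {B : ℝ}
    (hc : ContinuousOn (fun p : ℝ × ℂ => G p.1 p.2) (Icc 0 T ×ˢ U h))
    (hB : ∀ t ∈ Icc 0 T, ∀ z ∈ U h, ‖G t z‖ ≤ B)
    (hd : ∀ t ∈ Icc 0 T, ∀ z ∈ U h, HasFDerivAt (G t) (G' t z) z) (hG' : CC T h n G') :
    CC T h (n + 1) G :=
  CC_succ_def.2 ⟨hc, ⟨B, hB⟩, G', hd, hG'⟩

end Pool.Agent.EAC
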