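import Pool.Agent.EAC.R1

/-!
# EAC-R2: smooth periodic functions are of class `CC`; composition with maps of the strip

`CC_smooth`: `G` is smooth in `(t,z)` on an open set containing `[0,T] × S h` and `2π`-periodic in `z`: bounded on the compact set
`[0,T] × {0 ≤ Re z ≤ 2π, 0 ≤ Im z ≤ h}` hence everywhere; the derivative in `z` is again smooth and periodic: induction on `n` (with `n = 0`
from the bound of the derivative: Lipschitz on the convex set `U h`, bounded).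
`CC_comp`: `Φ t z = z + P t z ∈ U h`. `n = 0`: for `‖z-w‖ ≤ 1`: `‖Φ z - Φ w‖ ≤ (1+K)‖z-w‖^β`, compose with the Hölder bound of `G`; for `‖z-w‖ ≥ 1` use
boundedness. `n+1`: derivative `(G' t (Φ t z)).comp (id + P')`, bilinear.

THIS FILE: CC_comp.
-/

set_option autoImplicit false

noncomputable section

namespace Pool.Agent.EAC


open Set Filter Topology Metric

variable {T h : ℝ} {F : Type} [NormedAddCommGroup F] [NormedSpace ℝ F]

theorem CC_comp_cont {n : ℕ} {G : ℝ → ℂ → F} {P : ℝ → ℂ → ℂ} (hG : CC T h n G) (hP : CC T h n P)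
    (hm : ∀ t ∈ Icc 0 T, ∀ z ∈ U h, z + P t z ∈ U h) :
    ContinuousOn (fun p : ℝ × ℂ => G p.1 (p.2 + P p.1 p.2)) (Icc 0 T ×ˢ U h) := by
  have hGc := CC_cont hG
  have hPc := CC_cont hP
  have hmap : ContinuousOn (fun p : ℝ × ℂ => ((p.1, p.2 + P p.1 p.2) : ℝ × ℂ))
      (Icc 0 T ×ˢ U h) :=
    continuousOn_fst.prodMk (continuousOn_snd.add hPc)
  have := hGc.comp hmap (fun p hp => ⟨hp.1, hm p.1 hp.1 p.2 hp.2⟩)
  exact this

theorem CC_comp {n : ℕ} {G : ℝ → ℂ → F} {P : ℝ → ℂ → ℂ} (hG : CC T h n G) (hP : CC T h n P)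
    (hm : ∀ t ∈ Icc 0 T, ∀ z ∈ U h, z + P t z ∈ U h) : CC T h n (fun t z => G t (z + P t z)) := by
  induction n generalizing F with
  | zero =>
    have hc := CC_comp_cont hG hP hm
    obtain ⟨-, ⟨B, hB⟩, βG, hβG0, hβG1, KG, hKG⟩ := hG
    obtain ⟨-, -, βP, hβP0, hβP1, KP, hKP⟩ := hP
    refine ⟨hc, ⟨B, fun t ht z hz => hB t ht _ (hm t ht z hz)⟩, βG * βP, mul_pos hβG0 hβP0,
      mul_le_one₀ hβG1 hβP0.le hβP1, |KG| * (1 + |KP|) ^ βG + 2 * |B|, ?_⟩
    intro t ht z hz w hw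
    have hΦz := hm t ht z hz
    have hΦw := hm t ht w hw
    have hx0 : 0 ≤ ‖z - w‖ := norm_nonneg _
    have hpow : 0 ≤ ‖z - w‖ ^ (βG * βP) := Real.rpow_nonneg hx0 _
    have hK0 : 0 ≤ |KG| * (1 + |KP|) ^ βG := by positivity
    rcases le_total ‖z - w‖ 1 with h1 | h1
    · have e1 : ‖(z + P t z) - (w + P t w)‖ ≤ (1 + |KP|) * ‖z - w‖ ^ βP := by
        have a1 : (z + P t z) - (w + P t w) = (z - w) + (P t z - P t w) := by ring
        have a2 : ‖z - w‖ ≤ ‖z - w‖ ^ βP := by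
          rcases hx0.eq_or_lt with h0 | h0
          · rw [← h0, Real.zero_rpow hβP0.ne']
          · conv_lhs => rw [← Real.rpow_one ‖z - w‖]
            exact Real.rpow_le_rpow_of_exponent_ge h0 h1 hβP1
        have a3 : ‖P t z - P t w‖ ≤ |KP| * ‖z - w‖ ^ βP :=
          (hKP t ht z hz w hw).trans
            (mul_le_mul_of_nonneg_right (le_abs_self _) (Real.rpow_nonneg hx0 _))
        rw [a1]
        calc ‖(z - w) + (P t z - P t w)‖ ≤ ‖z - w‖ + ‖P t z - P t w‖ := norm_add_le _ _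
          _ ≤ ‖z - w‖ ^ βP + |KP| * ‖z - w‖ ^ βP := add_le_add a2 a3
          _ = (1 + |KP|) * ‖z - w‖ ^ βP := by ring
      calc ‖G t (z + P t z) - G t (w + P t w)‖
          ≤ KG * ‖(z + P t z) - (w + P t w)‖ ^ βG := hKG t ht _ hΦz _ hΦw
        _ ≤ |KG| * ‖(z + P t z) - (w + P t w)‖ ^ βG :=
            mul_le_mul_of_nonneg_right (le_abs_self _) (Real.rpow_nonneg (norm_nonneg _) _)
        _ ≤ |KG| * ((1 + |KP|) * ‖z - w‖ ^ βP) ^ βG :=
            mul_le_mul_of_nonneg_left (Real.rpow_le_rpow (norm_nonneg _) e1 hβG0.le)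
              (abs_nonneg _)
        _ = (|KG| * (1 + |KP|) ^ βG) * ‖z - w‖ ^ (βG * βP) := by
            rw [Real.mul_rpow (by positivity) (Real.rpow_nonneg hx0 _), ← Real.rpow_mul hx0,
              mul_comm βP βG]
            ring
        _ ≤ (|KG| * (1 + |KP|) ^ βG + 2 * |B|) * ‖z - w‖ ^ (βG * βP) :=
            mul_le_mul_of_nonneg_right (by linarith [abs_nonneg B]) hpow
    · have e2 : 1 ≤ ‖z - w‖ ^ (βG * βP) :=
        Real.one_le_rpow h1 (mul_pos hβG0 hβP0).le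
      calc ‖G t (z + P t z) - G t (w + P t w)‖
          ≤ ‖G t (z + P t z)‖ + ‖G t (w + P t w)‖ := norm_sub_le _ _
        _ ≤ B + B := add_le_add (hB t ht _ hΦz) (hB t ht _ hΦw)
        _ ≤ 2 * |B| := by linarith [le_abs_self B]
        _ ≤ (|KG| * (1 + |KP|) ^ βG + 2 * |B|) * 1 := by linarith
        _ ≤ (|KG| * (1 + |KP|) ^ βG + 2 * |B|) * ‖z - w‖ ^ (βG * βP) :=
            mul_le_mul_of_nonneg_left e2 (by positivity)
  | succ n ih =>
    have hc := CC_comp_cont hG hP hm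
    have hP1 : CC T h n P := CC_succ hP
    obtain ⟨-, ⟨B, hB⟩, G', hG'd, hG'⟩ := hG
    obtain ⟨-, -, P', hP'd, hP'⟩ := hP
    refine ⟨hc, ⟨B, fun t ht z hz => hB t ht _ (hm t ht z hz)⟩,
      fun t z => (ContinuousLinearMap.compL ℝ ℂ ℂ F) (G' t (z + P t z))
        (ContinuousLinearMap.id ℝ ℂ + P' t z), ?_, ?_⟩
    · intro t ht z hz
      have h1 : HasFDerivAt (fun z => z + P t z) (ContinuousLinearMap.id ℝ ℂ + P' t z) z :=
        (hasFDerivAt_id z).add (hP'd t ht z hz)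
      have h2 := hG'd t ht _ (hm t ht z hz)
      exact h2.comp z h1
    · exact CC_bilin (ContinuousLinearMap.compL ℝ ℂ ℂ F) (ih hG' hP1)
        (CC_add (CC_const n (ContinuousLinearMap.id ℝ ℂ)) hP')

end Pool.Agent.EAC
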