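import Pool.Agent.EAC.R1

/-!
# EAC-R2: smooth periodic functions are of class `CC`; composition with maps of the strip

`CC_smooth`: `G` is smooth in `(t,z)` on an open set containing `[0,T] × S h` and `2π`-periodic in `z`: bounded on the compact set
`[0,T] × {0 ≤ Re z ≤ 2π, 0 ≤ Im z ≤ h}` hence everywhere; the derivative in `z` is again smooth and periodic: induction on `n` (with `n = 0`
from the bound of the derivative: Lipschitz on the convex set `U h`, bounded).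
`CC_comp`: `Φ t z = z + P t z ∈ U h`. `n = 0`: for `‖z-w‖ ≤ 1`: `‖Φ z - Φ w‖ ≤ (1+K)‖z-w‖^β`, compose with the Hölder bound of `G`; for `‖z-w‖ ≥ 1` use
boundedness. `n+1`: derivative `(G' t (Φ t z)).comp (id + P')`, bilinear.

THIS FILE: CC_smooth.
-/

set_option autoImplicit false

noncomputable section

namespace Pool.Agent.EAC


open Set Filter Topology Metric

variable {T h : ℝ} {F : Type} [NormedAddCommGroup F] [NormedSpace ℝ F]

theorem R2a.bdd {F : Type} [NormedAddCommGroup F] [NormedSpace ℝ F] {G : ℝ → ℂ → F}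
    {O : Set (ℝ × ℂ)} (hsub : Icc 0 T ×ˢ S h ⊆ O)
    (hG : ContinuousOn (fun p : ℝ × ℂ => G p.1 p.2) O)
    (hper : ∀ t ∈ Icc 0 T, ∀ z ∈ U h, G t (z + 2 * Real.pi) = G t z) :
    ∃ B : ℝ, ∀ t ∈ Icc 0 T, ∀ z ∈ U h, ‖G t z‖ ≤ B := by
  have hpi := Real.pi_pos
  let K : Set ℂ := Icc 0 (2 * Real.pi) ×ℂ Icc 0 h
  have hK : IsCompact K := isCompact_Icc.reProdIm isCompact_Icc
  have hKS : K ⊆ S h := fun z hz => ⟨hz.2.1, hz.2.2⟩
  have hc : IsCompact (Icc (0 : ℝ) T ×ˢ K) := isCompact_Icc.prod hK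
  have hc2 : ContinuousOn (fun p : ℝ × ℂ => G p.1 p.2) (Icc (0 : ℝ) T ×ˢ K) :=
    hG.mono ((Set.prod_mono_right hKS).trans hsub)
  obtain ⟨B, hB⟩ := hc.exists_bound_of_continuousOn hc2
  refine ⟨B, ?_⟩
  intro t ht z hz
  have hU : ∀ (k : ℤ) (z : ℂ), z ∈ U h → z + k * (2 * Real.pi) ∈ U h := by
    intro k z hz
    have : (z + k * (2 * Real.pi)).im = z.im := by simp
    exact ⟨by rw [this]; exact hz.1, by rw [this]; exact hz.2⟩
  have hnat : ∀ (k : ℕ) (z : ℂ), z ∈ U h → G t (z + (k : ℤ) * (2 * Real.pi)) = G t z := by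
    intro k
    induction k with
    | zero => intro z hz; simp
    | succ k ih =>
      intro z hz
      have e : z + ((k + 1 : ℕ) : ℤ) * (2 * Real.pi) =
          (z + (k : ℤ) * (2 * Real.pi)) + 2 * Real.pi := by
        push_cast
        ring
      rw [e, hper t ht _ (hU k z hz), ih z hz]
  have hint : ∀ (k : ℤ) (z : ℂ), z ∈ U h → G t (z + k * (2 * Real.pi)) = G t z := by
    intro k z hz
    rcases k.eq_nat_or_neg with ⟨m, rfl | rfl⟩
    · exact hnat m z hz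
    · have h1 := hnat m _ (hU (-(m : ℤ)) z hz)
      rw [← h1]
      congr 1
      push_cast
      ring
  let k : ℤ := ⌊z.re / (2 * Real.pi)⌋
  have h1 := hint (-k) z hz
  rw [← h1]
  refine hB (t, z + (-k : ℤ) * (2 * Real.pi)) ⟨ht, ?_⟩
  have e1 : (z + (-k : ℤ) * (2 * Real.pi)).re = z.re - k * (2 * Real.pi) := by
    simp
    ring
  have e2 : (z + (-k : ℤ) * (2 * Real.pi)).im = z.im := by simp
  have h2 : (k : ℝ) ≤ z.re / (2 * Real.pi) := Int.floor_le _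
  have h3 : z.re / (2 * Real.pi) < k + 1 := Int.lt_floor_add_one _
  rw [le_div_iff₀ (by positivity)] at h2
  rw [div_lt_iff₀ (by positivity)] at h3
  refine ⟨?_, ?_⟩
  · show (z + (-k : ℤ) * (2 * Real.pi)).re ∈ Icc 0 (2 * Real.pi)
    rw [e1]
    constructor <;> linarith
  · show (z + (-k : ℤ) * (2 * Real.pi)).im ∈ Icc 0 h
    rw [e2]
    exact ⟨hz.1.le, hz.2.le⟩

theorem R2a.aux (n : ℕ) : ∀ {F : Type} [NormedAddCommGroup F] [NormedSpace ℝ F] {G : ℝ → ℂ → F}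
    {O : Set (ℝ × ℂ)} (_ : IsOpen O)
    (_ : Icc 0 T ×ˢ S h ⊆ O) (_ : ContDiffOn ℝ (⊤ : ℕ∞) (fun p : ℝ × ℂ => G p.1 p.2) O)
    (_ : ∀ t ∈ Icc 0 T, ∀ z ∈ U h, G t (z + 2 * Real.pi) = G t z), CC T h n G := by
  have main : ∀ {F : Type} [NormedAddCommGroup F] [NormedSpace ℝ F] {G : ℝ → ℂ → F}
      {O : Set (ℝ × ℂ)} (_ : IsOpen O)
      (_ : Icc 0 T ×ˢ S h ⊆ O) (_ : ContDiffOn ℝ (⊤ : ℕ∞) (fun p : ℝ × ℂ => G p.1 p.2) O)
      (_ : ∀ t ∈ Icc 0 T, ∀ z ∈ U h, G t (z + 2 * Real.pi) = G t z),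
      ContinuousOn (fun p : ℝ × ℂ => G p.1 p.2) (Icc 0 T ×ˢ U h) ∧
      (∃ B : ℝ, ∀ t ∈ Icc 0 T, ∀ z ∈ U h, ‖G t z‖ ≤ B) ∧
      ∃ G' : ℝ → ℂ → (ℂ →L[ℝ] F), (∀ t ∈ Icc 0 T, ∀ z ∈ U h, HasFDerivAt (G t) (G' t z) z) ∧
        ContDiffOn ℝ (⊤ : ℕ∞) (fun p : ℝ × ℂ => G' p.1 p.2) O ∧
        ∀ t ∈ Icc 0 T, ∀ z ∈ U h, G' t (z + 2 * Real.pi) = G' t z := by
    intro F _ _ G O hO hsub hG hper
    have hUS : U h ⊆ S h := fun z hz => ⟨hz.1.le, hz.2.le⟩
    refine ⟨hG.continuousOn.mono ((Set.prod_mono_right hUS).trans hsub),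
      R2a.bdd hsub hG.continuousOn hper, ?_⟩
    let G' : ℝ → ℂ → (ℂ →L[ℝ] F) := fun t z =>
      (fderiv ℝ (fun p : ℝ × ℂ => G p.1 p.2) (t, z)).comp (ContinuousLinearMap.inr ℝ ℝ ℂ)
    have hd : ∀ t ∈ Icc 0 T, ∀ z ∈ U h, HasFDerivAt (G t) (G' t z) z := by
      intro t ht z hz
      have hmem : (t, z) ∈ O := hsub ⟨ht, hUS hz⟩
      have h1 : DifferentiableAt ℝ (fun p : ℝ × ℂ => G p.1 p.2) (t, z) :=
        (hG.differentiableOn (by simp)).differentiableAt (hO.mem_nhds hmem)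
      have h2 : HasFDerivAt (fun w : ℂ => ((t, w) : ℝ × ℂ)) (ContinuousLinearMap.inr ℝ ℝ ℂ) z :=
        hasFDerivAt_prodMk_right t z
      exact h1.hasFDerivAt.comp z h2
    refine ⟨G', hd, ?_, ?_⟩
    · have h1 : ContDiffOn ℝ (⊤ : ℕ∞) (fderiv ℝ (fun p : ℝ × ℂ => G p.1 p.2)) O :=
        hG.fderiv_of_isOpen hO (by simp)
      exact h1.clm_comp contDiffOn_const
    · intro t ht z hz
      have hz' : z + 2 * Real.pi ∈ U h := by
        have : (z + 2 * Real.pi).im = z.im := by simp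
        exact ⟨by rw [this]; exact hz.1, by rw [this]; exact hz.2⟩
      have h1 : HasFDerivAt (fun w : ℂ => w + 2 * Real.pi) (ContinuousLinearMap.id ℝ ℂ) z :=
        (hasFDerivAt_id z).add_const _
      have h2 := (hd t ht _ hz').comp z h1
      have h3 : HasFDerivAt (G t) ((G' t (z + 2 * Real.pi)).comp (ContinuousLinearMap.id ℝ ℂ)) z := by
        refine h2.congr_of_eventuallyEq ?_
        filter_upwards [(isOpen_U h).mem_nhds hz] with w hw
        exact (hper t ht w hw).symm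
      have h4 := h3.unique (hd t ht z hz)
      rw [ContinuousLinearMap.comp_id] at h4
      exact h4
  induction n with
  | zero =>
    intro F _ _ G O hO hsub hG hper
    obtain ⟨h1, h2, G', hd, hG', hper'⟩ := main hO hsub hG hper
    obtain ⟨B, hB⟩ := R2a.bdd hsub hG'.continuousOn hper'
    refine ⟨h1, h2, 1, one_pos, le_rfl, B, ?_⟩
    intro t ht z hz w hw
    rw [Real.rpow_one]
    exact (convex_U h).norm_image_sub_le_of_norm_hasFDerivWithin_le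
      (fun x hx => (hd t ht x hx).hasFDerivWithinAt) (fun x hx => hB t ht x hx) hw hz
  | succ n ih =>
    intro F _ _ G O hO hsub hG hper
    obtain ⟨h1, h2, G', hd, hG', hper'⟩ := main hO hsub hG hper
    exact ⟨h1, h2, G', hd, ih hO hsub hG' hper'⟩

theorem CC_smooth [FiniteDimensional ℝ F] {G : ℝ → ℂ → F} {O : Set (ℝ × ℂ)} (hO : IsOpen O)
    (hsub : Icc 0 T ×ˢ S h ⊆ O) (hG : ContDiffOn ℝ (⊤ : ℕ∞) (fun p : ℝ × ℂ => G p.1 p.2) O)
    (hper : ∀ t ∈ Icc 0 T, ∀ z ∈ U h, G t (z + 2 * Real.pi) = G t z) (n : ℕ) : CC T h n G :=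
  R2a.aux n hO hsub hG hper

end Pool.Agent.EAC
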