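import Pool.Agent.EAC.Strip

/-!
# EAC-R3: ordinary differential equations: global existence, linear equations with parameter in the class `CC`

`ode_global`: `V : ℝ → E → E` continuous in `t ∈ [0,T]` for each `x`, Lipschitz in `x` with constant `L`: a solution on `[0,T]` with given initial value. (Mathlib's
Picard–Lindelöf on intervals of length `≤ 1/(2L)` with radius `a` large, patched; or contraction in the weighted sup norm.)
`ode_gronwall`: two approximate solutions.
`CC_lin_zero` (`n = 0`): Gronwall: bound `‖Z‖ ≤ (‖z0‖ + T‖F‖)e^{T‖B‖}`; difference `Z(t,x) - Z(t,y)` satisfies a linear equation with source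
`(B(t,x)-B(t,y)) Z(t,y) + F(t,x) - F(t,y)`: Hölder; continuity in `t` from the bounded derivative.
`CC_lin`: induction: `Z₁` the solution of `Z₁' = B(t,x) ∘ Z₁ + (B'(t,x)(·) Z + F'(t,x))`, `Z₁ 0 = 0` in `ℂ →L[ℝ] E` (exists by `ode_global`); `Z₁ ∈ CC n` by induction
(`B ∘ ·` is a bounded operator on `ℂ →L E`, source in `CC n`); `HasFDerivAt (Z t) (Z₁ t x) x` for the remainder
`R = Z(t,x+e) - Z(t,x) - Z₁(t,x)e`: `R' = B R + O(‖e‖^{1+β})` by the Hölder continuity of `B'`, `F'`, `Z` (Taylor on the convex set `U h`).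

THIS FILE: gron.
-/

set_option autoImplicit false

noncomputable section

namespace Pool.Agent.EAC


open Set Filter Topology Metric

variable {T h : ℝ}

/-- Gronwall: `‖r'‖ ≤ L‖r‖ + ε`, `‖r 0‖ ≤ δ` implies `‖r t‖ ≤ (δ + ε t) e^{L t}`. -/
theorem gron {E : Type} [NormedAddCommGroup E] [NormedSpace ℝ E] {T L ε δ : ℝ} (hL : 0 ≤ L)
    (hε : 0 ≤ ε) {r r' : ℝ → E} (hd : ∀ t ∈ Icc 0 T, HasDerivWithinAt r (r' t) (Icc 0 T) t)
    (h0 : ‖r 0‖ ≤ δ) (hb : ∀ t ∈ Icc 0 T, ‖r' t‖ ≤ L * ‖r t‖ + ε) :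
    ∀ t ∈ Icc 0 T, ‖r t‖ ≤ (δ + ε * t) * Real.exp (L * t) := by
  intro t ht
  have hcont : ContinuousOn r (Icc 0 T) := fun s hs => (hd s hs).continuousWithinAt
  have hder : ∀ x ∈ Ico 0 T, HasDerivWithinAt r (r' x) (Ici x) x := by
    intro x hx
    refine (hd x ⟨hx.1, hx.2.le⟩).mono_of_mem_nhdsWithin ?_
    have : Iio T ∈ 𝓝[Ici x] x := nhdsWithin_le_nhds (Iio_mem_nhds hx.2)
    filter_upwards [this, self_mem_nhdsWithin] with u hu hu'
    exact ⟨hx.1.trans hu', le_of_lt hu⟩
  have h1 := norm_le_gronwallBound_of_norm_deriv_right_le hcont hder h0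
    (fun x hx => hb x ⟨hx.1, hx.2.le⟩) t ht
  rw [sub_zero] at h1
  refine h1.trans ?_
  rcases eq_or_lt_of_le hL with h | h
  · rw [← h, gronwallBound_K0]
    simp
  · rw [gronwallBound_of_K_ne_0 h.ne']
    have ht0 := ht.1
    have h2 : Real.exp (L * t) - 1 ≤ (L * t) * Real.exp (L * t) := by
      have h3 : 1 - L * t ≤ Real.exp (-(L * t)) := by
        have := Real.add_one_le_exp (-(L * t))
        linarith
      have h4 := mul_le_mul_of_nonneg_right h3 (Real.exp_pos (L * t)).le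
      rw [← Real.exp_add, neg_add_cancel, Real.exp_zero] at h4
      linarith
    have h5 : ε / L * (Real.exp (L * t) - 1) ≤ ε / L * ((L * t) * Real.exp (L * t)) :=
      mul_le_mul_of_nonneg_left h2 (by positivity)
    have h6 : ε / L * ((L * t) * Real.exp (L * t)) = ε * t * Real.exp (L * t) := by
      field_simp
    linarith

end Pool.Agent.EAC
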