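import Pool.Agent.EAC.Strip

/-!
# EAC-R3: ordinary differential equations: global existence, linear equations with parameter in the class `CC`

`ode_global`: `V : ℝ → E → E` continuous in `t ∈ [0,T]` for each `x`, Lipschitz in `x` with constant `L`: a solution on `[0,T]` with given initial value. (Mathlib's
Picard–Lindelöf on intervals of length `≤ 1/(2L)` with radius `a` large, patched; or contraction in the weighted sup norm.)
`ode_gronwall`: two approximate solutions.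
`CC_lin_zero` (`n = 0`): Gronwall: bound `‖Z‖ ≤ (‖z0‖ + T‖F‖)e^{T‖B‖}`; difference `Z(t,x) - Z(t,y)` satisfies a linear equation with source
`(B(t,x)-B(t,y)) Z(t,y) + F(t,x) - F(t,y)`: Hölder; continuity in `t` from the bounded derivative.
`CC_lin`: induction: `Z₁` the solution of `Z₁' = B(t,x) ∘ Z₁ + (B'(t,x)(·) Z + F'(t,x))`, `Z₁ 0 = 0` in `ℂ →L[ℝ] E` (exists by `ode_global`); `Z₁ ∈ CC n` by induction
(`B ∘ ·` is a bounded operator on `ℂ →L E`, source in `CC n`); `HasFDerivAt (Z t) (Z₁ t x) x` for the remainder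
`R = Z(t,x+e) - Z(t,x) - Z₁(t,x)e`: `R' = B R + O(‖e‖^{1+β})` by the Hölder continuity of `B'`, `F'`, `Z` (Taylor on the convex set `U h`).

THIS FILE: ode_global.
-/

set_option autoImplicit false

noncomputable section

namespace Pool.Agent.EAC


open Set Filter Topology Metric

variable {T h : ℝ}

section general3

variable {E : Type*} [NormedAddCommGroup E] [NormedSpace ℝ E] [CompleteSpace E]

/-- one step of length `δ`, `K δ ≤ 1/2` -/
theorem r3_ode_step {G : ℝ → E → E} {K : ℝ} (hK : 0 ≤ K)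
    (hL : ∀ t, 0 ≤ t → ∀ x y, ‖G t x - G t y‖ ≤ K * ‖x - y‖)
    (hc : ∀ x, ContinuousOn (fun t => G t x) (Ici 0)) {δ : ℝ} (hδ : 0 < δ) (hKδ : K * δ ≤ 1 / 2)
    {c : ℝ} (hc0 : 0 ≤ c) (y : E) :
    ∃ β : ℝ → E, β c = y ∧
      ∀ t ∈ Icc c (c + δ), HasDerivWithinAt β (G t (β t)) (Icc c (c + δ)) t := by
  have hsub : Icc c (c + δ) ⊆ Ici 0 := fun t ht => hc0.trans ht.1
  obtain ⟨M, hM⟩ := (isCompact_Icc (a := c) (b := c + δ)).exists_bound_of_continuousOn
    ((hc y).mono hsub)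
  have hM0 : 0 ≤ M := (norm_nonneg _).trans (hM c ⟨le_refl _, by linarith⟩)
  have hpl : IsPicardLindelof G (⟨c, ⟨le_refl _, by linarith⟩⟩ : Icc c (c + δ)) y
      (⟨2 * M * δ, by positivity⟩ : NNReal) 0 (⟨M + K * (2 * M * δ), by positivity⟩ : NNReal)
      (⟨K, hK⟩ : NNReal) := by
    refine ⟨fun t ht => ?_, fun x _ => (hc x).mono hsub, fun t ht x hx => ?_, ?_⟩
    · exact (LipschitzWith.of_dist_le_mul fun x z => by
        rw [dist_eq_norm, dist_eq_norm]; exact hL t (hsub ht) x z).lipschitzOnWith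
    · have h1 := hL t (hsub ht) x y
      have h2 := hM t ht
      have h3 : ‖x - y‖ ≤ 2 * M * δ := by
        rw [mem_closedBall, dist_eq_norm] at hx; exact hx
      have h4 : ‖G t x‖ ≤ ‖G t x - G t y‖ + ‖G t y‖ := by
        have := norm_add_le (G t x - G t y) (G t y)
        rwa [sub_add_cancel] at this
      have h5 : K * ‖x - y‖ ≤ K * (2 * M * δ) := mul_le_mul_of_nonneg_left h3 hK
      show ‖G t x‖ ≤ M + K * (2 * M * δ)
      linarith
    · show (M + K * (2 * M * δ)) * max (c + δ - c) (c - c) ≤ 2 * M * δ - ((0 : NNReal) : ℝ)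
      rw [max_eq_left (by simpa using hδ.le)]
      have h6 : K * δ * (M * δ) ≤ 1 / 2 * (M * δ) := mul_le_mul_of_nonneg_right hKδ (by positivity)
      simp only [NNReal.coe_zero, sub_zero]
      nlinarith
  exact hpl.exists_eq_forall_mem_Icc_hasDerivWithinAt₀

/-- extension by one step -/
theorem r3_ode_extend {G : ℝ → E → E} {K : ℝ} (hK : 0 ≤ K)
    (hL : ∀ t, 0 ≤ t → ∀ x y, ‖G t x - G t y‖ ≤ K * ‖x - y‖)
    (hc : ∀ x, ContinuousOn (fun t => G t x) (Ici 0)) {δ : ℝ} (hδ : 0 < δ) (hKδ : K * δ ≤ 1 / 2)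
    {c : ℝ} (hc0 : 0 ≤ c) (x : ℝ → E)
    (hx : ∀ t ∈ Icc 0 c, HasDerivWithinAt x (G t (x t)) (Icc 0 c) t) :
    ∃ z : ℝ → E, EqOn z x (Icc 0 c) ∧
      ∀ t ∈ Icc 0 (c + δ), HasDerivWithinAt z (G t (z t)) (Icc 0 (c + δ)) t := by
  obtain ⟨β, hβ, hβ'⟩ := r3_ode_step hK hL hc hδ hKδ hc0 (x c)
  have hzx : EqOn (fun t => if t ≤ c then x t else β t) x (Icc 0 c) := fun t ht => by
    simp [ht.2]
  have hzβ : EqOn (fun t => if t ≤ c then x t else β t) β (Icc c (c + δ)) := fun t ht => by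
    rcases eq_or_lt_of_le ht.1 with h | h
    · subst h; simp [hβ]
    · simp [not_le.2 h]
  refine ⟨fun t => if t ≤ c then x t else β t, hzx, fun t ht => ?_⟩
  have hA : t ≤ c → HasDerivWithinAt (fun t => if t ≤ c then x t else β t)
      (G t (if t ≤ c then x t else β t)) (Icc 0 c) t := fun h => by
    have h1 := hx t ⟨ht.1, h⟩
    rw [if_pos h]
    exact h1.congr hzx (hzx ⟨ht.1, h⟩)
  have hB : c ≤ t → HasDerivWithinAt (fun t => if t ≤ c then x t else β t)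
      (G t (if t ≤ c then x t else β t)) (Icc c (c + δ)) t := fun h => by
    have h1 := hβ' t ⟨h, ht.2⟩
    have h2 := hzβ ⟨h, ht.2⟩
    simp only at h2
    rw [h2]
    exact h1.congr hzβ (hzβ ⟨h, ht.2⟩)
  rcases lt_trichotomy t c with h | h | h
  · refine (hA h.le).mono_of_mem_nhdsWithin ?_
    have : Iio c ∈ 𝓝[Icc 0 (c + δ)] t := nhdsWithin_le_nhds (Iio_mem_nhds h)
    filter_upwards [this, self_mem_nhdsWithin] with u hu hu'
    exact ⟨hu'.1, le_of_lt hu⟩
  · have h1 := (hA h.le).union (hB h.ge)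
    rwa [Icc_union_Icc_eq_Icc hc0 (by linarith)] at h1
  · refine (hB h.le).mono_of_mem_nhdsWithin ?_
    have : Ioi c ∈ 𝓝[Icc 0 (c + δ)] t := nhdsWithin_le_nhds (Ioi_mem_nhds h)
    filter_upwards [this, self_mem_nhdsWithin] with u hu hu'
    exact ⟨le_of_lt hu, hu'.2⟩

/-- Global solutions of globally Lipschitz ordinary differential equations, Banach space version. -/
theorem r3_ode_globalE {G : ℝ → E → E} {K : ℝ} (hK : 0 ≤ K)
    (hL : ∀ t, 0 ≤ t → ∀ x y, ‖G t x - G t y‖ ≤ K * ‖x - y‖)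
    (hc : ∀ x, ContinuousOn (fun t => G t x) (Ici 0)) (x0 : E) :
    ∃ x : ℝ → E, x 0 = x0 ∧ ∀ t, 0 ≤ t → HasDerivWithinAt x (G t (x t)) (Ici 0) t := by
  obtain ⟨δ, hδ, hKδ⟩ : ∃ δ : ℝ, 0 < δ ∧ K * δ ≤ 1 / 2 := by
    refine ⟨1 / (2 * (K + 1)), by positivity, ?_⟩
    rw [mul_one_div, div_le_div_iff₀ (by positivity) (by norm_num)]
    linarith
  -- the solutions on `[0, n δ]`
  let P : ℕ → Type _ := fun n => {x : ℝ → E // x 0 = x0 ∧
    ∀ t ∈ Icc 0 (n * δ), HasDerivWithinAt x (G t (x t)) (Icc 0 (n * δ)) t}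
  have hstep : ∀ n (p : P n), ∃ p' : P (n + 1), EqOn p'.1 p.1 (Icc 0 (n * δ)) := by
    rintro n ⟨x, hx0, hx⟩
    obtain ⟨z, hz, hz'⟩ := r3_ode_extend hK hL hc hδ hKδ (c := n * δ) (by positivity) x hx
    refine ⟨⟨z, ?_, ?_⟩, hz⟩
    · rw [hz ⟨le_refl _, by positivity⟩, hx0]
    · have : ((n + 1 : ℕ) : ℝ) * δ = n * δ + δ := by push_cast; ring
      rw [this]
      exact hz'
  choose next hnext using hstep
  have hbase : ∀ t ∈ Icc (0 : ℝ) (((0 : ℕ) : ℝ) * δ), HasDerivWithinAt (fun _ => x0)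
      (G t x0) (Icc 0 (((0 : ℕ) : ℝ) * δ)) t := by
    intro t ht
    have e : ((0 : ℕ) : ℝ) * δ = 0 := by simp
    rw [e] at ht ⊢
    have h1 : Icc (0 : ℝ) 0 = {0} := by simp
    have h2 : t = 0 := le_antisymm ht.2 ht.1
    rw [h1, h2]
    rw [hasDerivWithinAt_iff_hasFDerivWithinAt]
    exact HasFDerivWithinAt.of_subsingleton (by simp)
  let X : (n : ℕ) → P n := fun n => Nat.rec ⟨fun _ => x0, rfl, hbase⟩ (fun n p => next n p) n
  have hX : ∀ n, EqOn (X (n + 1)).1 (X n).1 (Icc 0 (n * δ)) := fun n => hnext n (X n)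
  have hXX : ∀ m n, n ≤ m → EqOn (X m).1 (X n).1 (Icc 0 (n * δ)) := by
    intro m n hmn
    induction m, hmn using Nat.le_induction with
    | base => exact fun _ _ => rfl
    | succ m hmn ih =>
      intro t ht
      have h1 : t ∈ Icc 0 ((m : ℝ) * δ) := ⟨ht.1, ht.2.trans (by
        have : (n : ℝ) ≤ m := by exact_mod_cast hmn
        exact mul_le_mul_of_nonneg_right this hδ.le)⟩
      rw [hX m h1, ih ht]
  let N : ℝ → ℕ := fun t => ⌊t / δ⌋₊ + 1
  have hN : ∀ t, 0 ≤ t → t < N t * δ := fun t ht => by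
    have := Nat.lt_floor_add_one (t / δ)
    rw [div_lt_iff₀ hδ] at this
    simpa [N] using this
  refine ⟨fun t => (X (N t)).1 t, (X (N 0)).2.1, fun t ht => ?_⟩
  -- near `t` the function is `X (N t + 1)`
  set m := N t with hm
  have hEq : EqOn (fun t => (X (N t)).1 t) (X m).1 (Icc 0 (m * δ)) := by
    intro s hs
    rcases le_total (N s) m with h | h
    · exact (hXX m (N s) h ⟨hs.1, (hN s hs.1).le⟩).symm
    · exact hXX (N s) m h hs
  have htm : t ∈ Icc 0 ((m : ℝ) * δ) := ⟨ht, (hN t ht).le⟩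
  have h1 := (X m).2.2 t htm
  have h2 : HasDerivWithinAt (fun t => (X (N t)).1 t) (G t ((X m).1 t)) (Icc 0 (m * δ)) t :=
    h1.congr hEq (hEq htm)
  have h3 : HasDerivWithinAt (fun t => (X (N t)).1 t) (G t ((X m).1 t)) (Ici 0) t := by
    refine h2.mono_of_mem_nhdsWithin ?_
    have : Iio ((m : ℝ) * δ) ∈ 𝓝[Ici 0] t := nhdsWithin_le_nhds (Iio_mem_nhds (hN t ht))
    filter_upwards [this, self_mem_nhdsWithin] with u hu hu'
    exact ⟨hu', le_of_lt hu⟩
  exact h3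

end general3

theorem ode_global {E : Type} [NormedAddCommGroup E] [NormedSpace ℝ E] [CompleteSpace E] {T : ℝ}
    (hT : 0 ≤ T) {V : ℝ → E → E} {L : ℝ} (hc : ∀ x, ContinuousOn (fun t => V t x) (Icc 0 T))
    (hL : ∀ t ∈ Icc 0 T, ∀ x y, ‖V t x - V t y‖ ≤ L * ‖x - y‖) (x0 : E) :
    ∃ γ : ℝ → E, γ 0 = x0 ∧ ∀ t ∈ Icc 0 T, HasDerivWithinAt γ (V t (γ t)) (Icc 0 T) t := by
  have hLm : ∀ t, 0 ≤ t → ∀ x y, ‖V (min t T) x - V (min t T) y‖ ≤ (max L 0) * ‖x - y‖ := by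
    intro t ht x y
    refine (hL (min t T) ⟨le_min ht hT, min_le_right _ _⟩ x y).trans ?_
    exact mul_le_mul_of_nonneg_right (le_max_left _ _) (norm_nonneg _)
  have hcm : ∀ x, ContinuousOn (fun t => V (min t T) x) (Ici 0) := by
    intro x
    refine (hc x).comp (continuous_id.min continuous_const).continuousOn ?_
    intro t ht
    exact ⟨le_min ht hT, min_le_right _ _⟩
  obtain ⟨γ, h0, hγ⟩ := r3_ode_globalE (le_max_right L 0) hLm hcm x0
  refine ⟨γ, h0, fun t ht => ?_⟩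
  have h1 := hγ t ht.1
  rw [min_eq_left ht.2] at h1
  exact h1.mono Icc_subset_Ici_self

end Pool.Agent.EAC
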