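import Pool.Agent.EAC.R1
import Pool.Agent.EAC.R3a
import Pool.Agent.EAC.R3b

/-!
# EAC-R3: ordinary differential equations: global existence, linear equations with parameter in the class `CC`

`ode_global`: `V : ℝ → E → E` continuous in `t ∈ [0,T]` for each `x`, Lipschitz in `x` with constant `L`: a solution on `[0,T]` with given initial value. (Mathlib's
Picard–Lindelöf on intervals of length `≤ 1/(2L)` with radius `a` large, patched; or contraction in the weighted sup norm.)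
`ode_gronwall`: two approximate solutions.
`CC_lin_zero` (`n = 0`): Gronwall: bound `‖Z‖ ≤ (‖z0‖ + T‖F‖)e^{T‖B‖}`; difference `Z(t,x) - Z(t,y)` satisfies a linear equation with source
`(B(t,x)-B(t,y)) Z(t,y) + F(t,x) - F(t,y)`: Hölder; continuity in `t` from the bounded derivative.
`CC_lin`: induction: `Z₁` the solution of `Z₁' = B(t,x) ∘ Z₁ + (B'(t,x)(·) Z + F'(t,x))`, `Z₁ 0 = 0` in `ℂ →L[ℝ] E` (exists by `ode_global`); `Z₁ ∈ CC n` by induction
(`B ∘ ·` is a bounded operator on `ℂ →L E`, source in `CC n`); `HasFDerivAt (Z t) (Z₁ t x) x` for the remainder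
`R = Z(t,x+e) - Z(t,x) - Z₁(t,x)e`: `R' = B R + O(‖e‖^{1+β})` by the Hölder continuity of `B'`, `F'`, `Z` (Taylor on the convex set `U h`).

THIS FILE: CC_lin_zero.
-/

set_option autoImplicit false

noncomputable section

namespace Pool.Agent.EAC


open Set Filter Topology Metric

variable {T h : ℝ}

/-- lowering the Hölder exponent of a bounded function. -/
theorem r3_holder_le {F : Type*} [NormedAddCommGroup F] {G : ℂ → F} {s : Set ℂ} {b K β γ : ℝ}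
    (hb : ∀ z ∈ s, ‖G z‖ ≤ b) (hγ : 0 < γ) (hγβ : γ ≤ β)
    (hK : ∀ z ∈ s, ∀ w ∈ s, ‖G z - G w‖ ≤ K * ‖z - w‖ ^ β) :
    ∀ z ∈ s, ∀ w ∈ s, ‖G z - G w‖ ≤ (|K| + 2 * |b|) * ‖z - w‖ ^ γ := by
  intro z hz w hw
  have hn := norm_nonneg (z - w)
  have hpg : 0 ≤ ‖z - w‖ ^ γ := Real.rpow_nonneg hn γ
  have hpb : 0 ≤ ‖z - w‖ ^ β := Real.rpow_nonneg hn β
  rcases le_total ‖z - w‖ 1 with h | h
  · have h1 : ‖z - w‖ ^ β ≤ ‖z - w‖ ^ γ := by
      rcases eq_or_lt_of_le hn with h0 | h0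
      · rw [← h0, Real.zero_rpow hγ.ne', Real.zero_rpow (by linarith : β ≠ 0)]
      · exact Real.rpow_le_rpow_of_exponent_ge h0 h hγβ
    calc ‖G z - G w‖ ≤ K * ‖z - w‖ ^ β := hK z hz w hw
      _ ≤ |K| * ‖z - w‖ ^ β := mul_le_mul_of_nonneg_right (le_abs_self K) hpb
      _ ≤ |K| * ‖z - w‖ ^ γ := mul_le_mul_of_nonneg_left h1 (abs_nonneg K)
      _ ≤ (|K| + 2 * |b|) * ‖z - w‖ ^ γ :=
        mul_le_mul_of_nonneg_right (by linarith [abs_nonneg b]) hpg
  · have h1 : 1 ≤ ‖z - w‖ ^ γ := Real.one_le_rpow h hγ.le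
    have h2 : ‖G z - G w‖ ≤ 2 * |b| := by
      have := norm_sub_le (G z) (G w)
      have := hb z hz
      have := hb w hw
      have := le_abs_self b
      linarith
    calc ‖G z - G w‖ ≤ 2 * |b| := h2
      _ ≤ (|K| + 2 * |b|) * 1 := by linarith [abs_nonneg K]
      _ ≤ (|K| + 2 * |b|) * ‖z - w‖ ^ γ :=
        mul_le_mul_of_nonneg_left h1 (by positivity)

theorem CC_lin_zero {E : Type} [NormedAddCommGroup E] [NormedSpace ℝ E] [CompleteSpace E]
    (hT : 0 ≤ T) {B : ℝ → ℂ → (E →L[ℝ] E)} {F : ℝ → ℂ → E} {Z : ℝ → ℂ → E} {z0 : E}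
    (hB : CC T h 0 B) (hF : CC T h 0 F) (h0 : ∀ z ∈ U h, Z 0 z = z0)
    (hd : ∀ t ∈ Icc 0 T, ∀ z ∈ U h,
      HasDerivWithinAt (fun τ => Z τ z) (B t z (Z t z) + F t z) (Icc 0 T) t) : CC T h 0 Z := by
  obtain ⟨hBc, ⟨bB, hbB⟩, β₁, hβ₁, hβ₁', K₁, hK₁⟩ := hB
  obtain ⟨hFc, ⟨bF, hbF⟩, β₂, hβ₂, hβ₂', K₂, hK₂⟩ := hF
  -- nonnegative bounds
  have hbB' : ∀ t ∈ Icc 0 T, ∀ z ∈ U h, ‖B t z‖ ≤ |bB| :=
    fun t ht z hz => (hbB t ht z hz).trans (le_abs_self _)
  have hbF' : ∀ t ∈ Icc 0 T, ∀ z ∈ U h, ‖F t z‖ ≤ |bF| :=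
    fun t ht z hz => (hbF t ht z hz).trans (le_abs_self _)
  set γ := min β₁ β₂ with hγdef
  have hγ : 0 < γ := lt_min hβ₁ hβ₂
  set M := (‖z0‖ + |bF| * T) * Real.exp (|bB| * T) with hM
  have hM0 : 0 ≤ M := by positivity
  -- bound
  have hbd : ∀ t ∈ Icc 0 T, ∀ z ∈ U h, ‖Z t z‖ ≤ M := by
    intro t ht z hz
    have h1 := gron (r := fun τ => Z τ z) (abs_nonneg bB) (abs_nonneg bF) (fun t ht => hd t ht z hz)
      (δ := ‖z0‖) (by simp [h0 z hz]) (fun t ht => by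
        refine (norm_add_le _ _).trans (add_le_add ?_ (hbF' t ht z hz))
        exact ((B t z).le_opNorm _).trans
          (mul_le_mul_of_nonneg_right (hbB' t ht z hz) (norm_nonneg _))) t ht
    refine h1.trans ?_
    have h2 : |bF| * t ≤ |bF| * T := mul_le_mul_of_nonneg_left ht.2 (abs_nonneg _)
    have h3 : Real.exp (|bB| * t) ≤ Real.exp (|bB| * T) :=
      Real.exp_le_exp.2 (mul_le_mul_of_nonneg_left ht.2 (abs_nonneg _))
    have h4 : 0 ≤ ‖z0‖ + |bF| * t := by have := ht.1; positivity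
    calc (‖z0‖ + |bF| * t) * Real.exp (|bB| * t)
        ≤ (‖z0‖ + |bF| * t) * Real.exp (|bB| * T) := mul_le_mul_of_nonneg_left h3 h4
      _ ≤ (‖z0‖ + |bF| * T) * Real.exp (|bB| * T) :=
        mul_le_mul_of_nonneg_right (by linarith) (Real.exp_pos _).le
  -- Hölder
  set c₁ := |K₁| + 2 * |(|bB|)| with hc₁
  set c₂ := |K₂| + 2 * |(|bF|)| with hc₂
  have hc₁0 : 0 ≤ c₁ := by positivity
  have hc₂0 : 0 ≤ c₂ := by positivity
  set C := (c₁ * M + c₂) * T * Real.exp (|bB| * T) with hC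
  have hC0 : 0 ≤ C := by positivity
  have hhol : ∀ t ∈ Icc 0 T, ∀ z ∈ U h, ∀ w ∈ U h, ‖Z t z - Z t w‖ ≤ C * ‖z - w‖ ^ γ := by
    intro t ht z hz w hw
    have hp : 0 ≤ ‖z - w‖ ^ γ := Real.rpow_nonneg (norm_nonneg _) _
    have h1 := gron (r := fun τ => Z τ z - Z τ w)
      (r' := fun τ => (B τ z (Z τ z) + F τ z) - (B τ w (Z τ w) + F τ w))
      (abs_nonneg bB) (ε := (c₁ * M + c₂) * ‖z - w‖ ^ γ) (by positivity)
      (fun t ht => (hd t ht z hz).sub (hd t ht w hw)) (δ := 0) (by simp [h0 z hz, h0 w hw])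
      (fun s hs => by
        have e : (B s z (Z s z) + F s z) - (B s w (Z s w) + F s w) =
            B s z (Z s z - Z s w) + ((B s z - B s w) (Z s w) + (F s z - F s w)) := by
          simp only [map_sub, ContinuousLinearMap.sub_apply]
          abel
        rw [e]
        refine (norm_add_le _ _).trans (add_le_add ?_ ?_)
        · exact ((B s z).le_opNorm _).trans
            (mul_le_mul_of_nonneg_right (hbB' s hs z hz) (norm_nonneg _))
        · refine (norm_add_le _ _).trans ?_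
          have h2 : ‖(B s z - B s w) (Z s w)‖ ≤ c₁ * ‖z - w‖ ^ γ * M := by
            refine ((B s z - B s w).le_opNorm _).trans ?_
            exact mul_le_mul (r3_holder_le (hbB' s hs) hγ (min_le_left _ _) (hK₁ s hs) z hz w hw)
              (hbd s hs w hw) (norm_nonneg _) (by positivity)
          have h3 : ‖F s z - F s w‖ ≤ c₂ * ‖z - w‖ ^ γ :=
            r3_holder_le (hbF' s hs) hγ (min_le_right _ _) (hK₂ s hs) z hz w hw
          calc ‖(B s z - B s w) (Z s w)‖ + ‖F s z - F s w‖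
              ≤ c₁ * ‖z - w‖ ^ γ * M + c₂ * ‖z - w‖ ^ γ := add_le_add h2 h3
            _ = (c₁ * M + c₂) * ‖z - w‖ ^ γ := by ring) t ht
    refine h1.trans ?_
    have h3 : Real.exp (|bB| * t) ≤ Real.exp (|bB| * T) :=
      Real.exp_le_exp.2 (mul_le_mul_of_nonneg_left ht.2 (abs_nonneg _))
    have ht0 := ht.1
    calc (0 + (c₁ * M + c₂) * ‖z - w‖ ^ γ * t) * Real.exp (|bB| * t)
        ≤ (0 + (c₁ * M + c₂) * ‖z - w‖ ^ γ * T) * Real.exp (|bB| * T) := by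
          refine mul_le_mul ?_ h3 (Real.exp_pos _).le (by positivity)
          have : (c₁ * M + c₂) * ‖z - w‖ ^ γ * t ≤ (c₁ * M + c₂) * ‖z - w‖ ^ γ * T :=
            mul_le_mul_of_nonneg_left ht.2 (by positivity)
          linarith
      _ = C * ‖z - w‖ ^ γ := by rw [hC]; ring
  refine ⟨?_, ⟨M, hbd⟩, γ, hγ, (min_le_left _ _).trans hβ₁', C, hhol⟩
  -- continuity
  rintro ⟨t₀, z₀⟩ ⟨ht₀, hz₀⟩
  have ht₀' : t₀ ∈ Icc 0 T := ht₀
  have hz₀' : z₀ ∈ U h := hz₀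
  have hcz : ContinuousWithinAt (fun τ => Z τ z₀) (Icc 0 T) t₀ :=
    (hd t₀ ht₀' z₀ hz₀').continuousWithinAt
  have hA : Tendsto (fun p : ℝ × ℂ => Z p.1 z₀) (𝓝[Icc 0 T ×ˢ U h] (t₀, z₀)) (𝓝 (Z t₀ z₀)) := by
    have h1 : Tendsto (fun p : ℝ × ℂ => p.1) (𝓝[Icc 0 T ×ˢ U h] (t₀, z₀)) (𝓝[Icc 0 T] t₀) := by
      refine tendsto_nhdsWithin_iff.2 ⟨?_, ?_⟩
      · exact (continuous_fst.tendsto (t₀, z₀)).mono_left nhdsWithin_le_nhds
      · filter_upwards [self_mem_nhdsWithin] with p hp using hp.1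
    exact hcz.tendsto.comp h1
  have hD : Tendsto (fun p : ℝ × ℂ => C * ‖p.2 - z₀‖ ^ γ) (𝓝[Icc 0 T ×ˢ U h] (t₀, z₀)) (𝓝 0) := by
    have h1 : Continuous (fun p : ℝ × ℂ => C * ‖p.2 - z₀‖ ^ γ) :=
      continuous_const.mul (((continuous_snd.sub continuous_const).norm).rpow_const
        (fun _ => Or.inr hγ.le))
    have h2 := h1.tendsto (t₀, z₀)
    simp only [sub_self, norm_zero, Real.zero_rpow hγ.ne', mul_zero] at h2
    exact h2.mono_left nhdsWithin_le_nhds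
  have hE : Tendsto (fun p : ℝ × ℂ => Z p.1 p.2 - Z p.1 z₀) (𝓝[Icc 0 T ×ˢ U h] (t₀, z₀)) (𝓝 0) := by
    refine squeeze_zero_norm' ?_ hD
    filter_upwards [self_mem_nhdsWithin] with p hp
    exact hhol p.1 hp.1 p.2 hp.2 z₀ hz₀'
  have := hE.add hA
  simp only [sub_add_cancel, zero_add] at this
  exact this

end Pool.Agent.EAC
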