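import Pool.Agent.EAC.R3c

/-!
# EAC-R3: ordinary differential equations: global existence, linear equations with parameter in the class `CC`

`ode_global`: `V : ℝ → E → E` continuous in `t ∈ [0,T]` for each `x`, Lipschitz in `x` with constant `L`: a solution on `[0,T]` with given initial value. (Mathlib's
Picard–Lindelöf on intervals of length `≤ 1/(2L)` with radius `a` large, patched; or contraction in the weighted sup norm.)
`ode_gronwall`: two approximate solutions.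
`CC_lin_zero` (`n = 0`): Gronwall: bound `‖Z‖ ≤ (‖z0‖ + T‖F‖)e^{T‖B‖}`; difference `Z(t,x) - Z(t,y)` satisfies a linear equation with source
`(B(t,x)-B(t,y)) Z(t,y) + F(t,x) - F(t,y)`: Hölder; continuity in `t` from the bounded derivative.
`CC_lin`: induction: `Z₁` the solution of `Z₁' = B(t,x) ∘ Z₁ + (B'(t,x)(·) Z + F'(t,x))`, `Z₁ 0 = 0` in `ℂ →L[ℝ] E` (exists by `ode_global`); `Z₁ ∈ CC n` by induction
(`B ∘ ·` is a bounded operator on `ℂ →L E`, source in `CC n`); `HasFDerivAt (Z t) (Z₁ t x) x` for the remainder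
`R = Z(t,x+e) - Z(t,x) - Z₁(t,x)e`: `R' = B R + O(‖e‖^{1+β})` by the Hölder continuity of `B'`, `F'`, `Z` (Taylor on the convex set `U h`).

THIS FILE: CC_lin.
-/

set_option autoImplicit false

noncomputable section

namespace Pool.Agent.EAC


open Set Filter Topology Metric

variable {T h : ℝ}

/-- Taylor estimate in the strip. -/
theorem r3_taylor {F : Type*} [NormedAddCommGroup F] [NormedSpace ℝ F] {G : ℂ → F}
    {G' : ℂ → (ℂ →L[ℝ] F)} {s : Set ℂ} (hs : Convex ℝ s) {K γ : ℝ} (hγ : 0 < γ) (hK0 : 0 ≤ K)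
    (hd : ∀ z ∈ s, HasFDerivAt G (G' z) z)
    (hK : ∀ z ∈ s, ∀ w ∈ s, ‖G' z - G' w‖ ≤ K * ‖z - w‖ ^ γ) :
    ∀ z ∈ s, ∀ w ∈ s, ‖G w - G z - G' z (w - z)‖ ≤ K * ‖w - z‖ ^ γ * ‖w - z‖ := by
  intro z hz w hw
  have hsub : segment ℝ z w ⊆ s := hs.segment_subset hz hw
  refine (convex_segment (𝕜 := ℝ) z w).norm_image_sub_le_of_norm_hasFDerivWithin_le'
    (f' := G') (fun x hx => (hd x (hsub hx)).hasFDerivWithinAt) ?_
    (left_mem_segment ℝ z w) (right_mem_segment ℝ z w)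
  intro x hx
  refine (hK x (hsub hx) z hz).trans ?_
  have h1 : ‖x - z‖ ≤ ‖w - z‖ := by
    obtain ⟨a, b, ha, hb, hab, rfl⟩ := hx
    have e : a • z + b • w - z = b • (w - z) := by
      have : a = 1 - b := by linarith
      subst this
      module
    rw [e, norm_smul, Real.norm_eq_abs, abs_of_nonneg hb]
    exact mul_le_of_le_one_left (norm_nonneg _) (by linarith)
  exact mul_le_mul_of_nonneg_left (Real.rpow_le_rpow (norm_nonneg _) h1 hγ.le) hK0

/-- a function with a remainder of order `1 + γ` is differentiable. -/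
theorem r3_hasFDerivAt_of_holder {F : Type*} [NormedAddCommGroup F] [NormedSpace ℝ F] {G : ℂ → F}
    {L : ℂ →L[ℝ] F} {s : Set ℂ} {z : ℂ} (hs : s ∈ 𝓝 z) {C γ : ℝ} (hγ : 0 < γ)
    (hC : ∀ w ∈ s, ‖G w - G z - L (w - z)‖ ≤ C * ‖w - z‖ ^ γ * ‖w - z‖) : HasFDerivAt G L z := by
  refine HasFDerivAt.of_isLittleO ?_
  rw [Asymptotics.isLittleO_iff]
  intro c hc
  have h1 : Tendsto (fun w : ℂ => C * ‖w - z‖ ^ γ) (𝓝 z) (𝓝 0) := by
    have h2 : Continuous (fun w : ℂ => C * ‖w - z‖ ^ γ) :=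
      continuous_const.mul (((continuous_id.sub continuous_const).norm).rpow_const
        (fun _ => Or.inr hγ.le))
    have h3 := h2.tendsto z
    simpa only [sub_self, norm_zero, Real.zero_rpow hγ.ne', mul_zero, id] using h3
  filter_upwards [hs, h1 (Iio_mem_nhds hc)] with w hw hw'
  exact (hC w hw).trans (mul_le_mul_of_nonneg_right (le_of_lt hw') (norm_nonneg _))

/-- the data of `CC 0` with nonnegative constants and a prescribed smaller exponent. -/
theorem r3_CC_holder {F : Type} [NormedAddCommGroup F] [NormedSpace ℝ F] {n : ℕ} {G : ℝ → ℂ → F}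
    (hG : CC T h n G) : ∃ b : ℝ, 0 ≤ b ∧ ∃ β : ℝ, 0 < β ∧ ∀ γ : ℝ, 0 < γ → γ ≤ β → ∃ K : ℝ, 0 ≤ K ∧
      (∀ t ∈ Icc 0 T, ∀ z ∈ U h, ‖G t z‖ ≤ b) ∧ ∀ t ∈ Icc 0 T, ∀ z ∈ U h, ∀ w ∈ U h,
        ‖G t z - G t w‖ ≤ K * ‖z - w‖ ^ γ := by
  obtain ⟨_, ⟨b, hb⟩, β, hβ, _, K, hK⟩ := CC_zero_of hG
  refine ⟨|b|, abs_nonneg _, β, hβ, fun γ hγ hγβ => ⟨|K| + 2 * |(|b|)|, by positivity, ?_, ?_⟩⟩
  · exact fun t ht z hz => (hb t ht z hz).trans (le_abs_self _)
  · intro t ht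
    exact r3_holder_le (fun z hz => (hb t ht z hz).trans (le_abs_self _)) hγ hγβ (hK t ht)

/-- the parameter slice of a function of class `CC` is continuous in time. -/
theorem r3_CC_slice {F : Type} [NormedAddCommGroup F] [NormedSpace ℝ F] {n : ℕ} {G : ℝ → ℂ → F}
    (hG : CC T h n G) {z : ℂ} (hz : z ∈ U h) : ContinuousOn (fun t => G t z) (Icc 0 T) :=
  (CC_cont hG).comp (f := fun t : ℝ => (t, z)) (by fun_prop) (fun _ ht => ⟨ht, hz⟩)

/-- the derivative of the solution of a linear equation in the parameter. -/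
theorem r3_lin_deriv {E : Type} [NormedAddCommGroup E] [NormedSpace ℝ E] [CompleteSpace E]
    (hT : 0 ≤ T) {B : ℝ → ℂ → (E →L[ℝ] E)} {F : ℝ → ℂ → E} {Z : ℝ → ℂ → E} {z0 : E}
    {B' : ℝ → ℂ → (ℂ →L[ℝ] (E →L[ℝ] E))} {F' : ℝ → ℂ → (ℂ →L[ℝ] E)} {Z' : ℝ → ℂ → (ℂ →L[ℝ] E)}
    (hB : CC T h 0 B) (hB' : CC T h 0 B') (hF' : CC T h 0 F') (hZ : CC T h 0 Z)
    (hdB : ∀ t ∈ Icc 0 T, ∀ z ∈ U h, HasFDerivAt (B t) (B' t z) z)
    (hdF : ∀ t ∈ Icc 0 T, ∀ z ∈ U h, HasFDerivAt (F t) (F' t z) z)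
    (h0 : ∀ z ∈ U h, Z 0 z = z0)
    (hd : ∀ t ∈ Icc 0 T, ∀ z ∈ U h,
      HasDerivWithinAt (fun τ => Z τ z) (B t z (Z t z) + F t z) (Icc 0 T) t)
    (h0' : ∀ z ∈ U h, Z' 0 z = 0)
    (hd' : ∀ t ∈ Icc 0 T, ∀ z ∈ U h,
      HasDerivWithinAt (fun τ => Z' τ z)
        ((B t z).comp (Z' t z) + ((B' t z).flip (Z t z) + F' t z)) (Icc 0 T) t) :
    ∀ t ∈ Icc 0 T, ∀ z ∈ U h, HasFDerivAt (Z t) (Z' t z) z := by
  obtain ⟨b, hb0, β₀, hβ₀, hBb⟩ := r3_CC_holder hB
  obtain ⟨b', hb0', β₁, hβ₁, hBb'⟩ := r3_CC_holder hB'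
  obtain ⟨f', hf0', β₂, hβ₂, hFb'⟩ := r3_CC_holder hF'
  obtain ⟨m, hm0, β₃, hβ₃, hZb⟩ := r3_CC_holder hZ
  set γ := min β₁ (min β₂ β₃) with hγdef
  have hγ : 0 < γ := lt_min hβ₁ (lt_min hβ₂ hβ₃)
  obtain ⟨-, -, hBbd, -⟩ := hBb β₀ hβ₀ le_rfl
  obtain ⟨K₁, hK₁0, hB'bd, hK₁⟩ := hBb' γ hγ (min_le_left _ _)
  obtain ⟨K₂, hK₂0, -, hK₂⟩ := hFb' γ hγ ((min_le_right _ _).trans (min_le_left _ _))
  obtain ⟨K₃, hK₃0, hZbd, hK₃⟩ := hZb γ hγ ((min_le_right _ _).trans (min_le_right _ _))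
  intro t ht z hz
  refine r3_hasFDerivAt_of_holder ((isOpen_U h).mem_nhds hz) hγ
    (C := (K₁ * m + b' * K₃ + K₂) * T * Real.exp (b * T)) ?_
  intro w hw
  set N := ‖w - z‖ with hN
  have hN0 : 0 ≤ N := norm_nonneg _
  have hp : 0 ≤ N ^ γ := Real.rpow_nonneg hN0 _
  have h1 := gron (r := fun τ => Z τ w - Z τ z - Z' τ z (w - z))
    (r' := fun τ => (B τ w (Z τ w) + F τ w) - (B τ z (Z τ z) + F τ z) -
      ((B τ z).comp (Z' τ z) + ((B' τ z).flip (Z τ z) + F' τ z)) (w - z))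
    hb0 (ε := (K₁ * m + b' * K₃ + K₂) * N ^ γ * N) (by positivity)
    (fun t ht => ((hd t ht w hw).sub (hd t ht z hz)).sub
      ((ContinuousLinearMap.apply ℝ E (w - z)).hasFDerivAt.comp_hasDerivWithinAt t (hd' t ht z hz)))
    (δ := 0) (by simp [h0 z hz, h0 w hw, h0' z hz])
    (fun s hs => by
      have e : (B s w (Z s w) + F s w) - (B s z (Z s z) + F s z) -
          ((B s z).comp (Z' s z) + ((B' s z).flip (Z s z) + F' s z)) (w - z) =
          B s z (Z s w - Z s z - Z' s z (w - z)) +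
          (((B s w - B s z - B' s z (w - z)) (Z s w) + B' s z (w - z) (Z s w - Z s z)) +
            (F s w - F s z - F' s z (w - z))) := by
        simp only [map_sub, ContinuousLinearMap.sub_apply, ContinuousLinearMap.add_apply,
          ContinuousLinearMap.comp_apply, ContinuousLinearMap.flip_apply]
        abel
      rw [e]
      refine (norm_add_le _ _).trans (add_le_add ?_ ?_)
      · exact ((B s z).le_opNorm _).trans
          (mul_le_mul_of_nonneg_right (hBbd s hs z hz) (norm_nonneg _))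
      · have h2 : ‖(B s w - B s z - B' s z (w - z)) (Z s w)‖ ≤ K₁ * N ^ γ * N * m := by
          refine ((B s w - B s z - B' s z (w - z)).le_opNorm _).trans ?_
          exact mul_le_mul (r3_taylor (convex_U h) hγ hK₁0 (hdB s hs) (hK₁ s hs) z hz w hw)
            (hZbd s hs w hw) (norm_nonneg _) (by positivity)
        have h3 : ‖B' s z (w - z) (Z s w - Z s z)‖ ≤ b' * N * (K₃ * N ^ γ) := by
          refine ((B' s z (w - z)).le_opNorm _).trans ?_
          refine mul_le_mul (((B' s z).le_opNorm _).trans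
            (mul_le_mul_of_nonneg_right (hB'bd s hs z hz) (norm_nonneg _)))
            (hK₃ s hs w hw z hz) (norm_nonneg _) (by positivity)
        have h4 : ‖F s w - F s z - F' s z (w - z)‖ ≤ K₂ * N ^ γ * N :=
          r3_taylor (convex_U h) hγ hK₂0 (hdF s hs) (hK₂ s hs) z hz w hw
        calc _ ≤ (‖(B s w - B s z - B' s z (w - z)) (Z s w)‖ +
              ‖B' s z (w - z) (Z s w - Z s z)‖) + ‖F s w - F s z - F' s z (w - z)‖ :=
            (norm_add_le _ _).trans (add_le_add (norm_add_le _ _) le_rfl)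
          _ ≤ (K₁ * N ^ γ * N * m + b' * N * (K₃ * N ^ γ)) + K₂ * N ^ γ * N :=
            add_le_add (add_le_add h2 h3) h4
          _ = (K₁ * m + b' * K₃ + K₂) * N ^ γ * N := by ring) t ht
  refine h1.trans ?_
  have h3 : Real.exp (b * t) ≤ Real.exp (b * T) :=
    Real.exp_le_exp.2 (mul_le_mul_of_nonneg_left ht.2 hb0)
  have ht0 := ht.1
  calc (0 + (K₁ * m + b' * K₃ + K₂) * N ^ γ * N * t) * Real.exp (b * t)
      ≤ (0 + (K₁ * m + b' * K₃ + K₂) * N ^ γ * N * T) * Real.exp (b * T) := by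
        refine mul_le_mul ?_ h3 (Real.exp_pos _).le (by positivity)
        have : (K₁ * m + b' * K₃ + K₂) * N ^ γ * N * t ≤ (K₁ * m + b' * K₃ + K₂) * N ^ γ * N * T :=
          mul_le_mul_of_nonneg_left ht.2 (by positivity)
        linarith
    _ = (K₁ * m + b' * K₃ + K₂) * T * Real.exp (b * T) * N ^ γ * N := by ring

theorem CC_lin {E : Type} [NormedAddCommGroup E] [NormedSpace ℝ E] [CompleteSpace E] (n : ℕ)
    (hT : 0 ≤ T) {B : ℝ → ℂ → (E →L[ℝ] E)} {F : ℝ → ℂ → E} {Z : ℝ → ℂ → E} {z0 : E}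
    (hB : CC T h n B) (hF : CC T h n F) (h0 : ∀ z ∈ U h, Z 0 z = z0)
    (hd : ∀ t ∈ Icc 0 T, ∀ z ∈ U h,
      HasDerivWithinAt (fun τ => Z τ z) (B t z (Z t z) + F t z) (Icc 0 T) t) : CC T h n Z := by
  induction n generalizing E with
  | zero => exact CC_lin_zero hT hB hF h0 hd
  | succ n ih =>
    have hZn : CC T h n Z := ih (CC_succ hB) (CC_succ hF) h0 hd
    obtain ⟨B', hdB, hB'⟩ := hB.2.2
    obtain ⟨F', hdF, hF'⟩ := hF.2.2
    obtain ⟨b, hb0, -, -, hBb⟩ := r3_CC_holder hB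
    obtain ⟨-, ⟨bz, hbz⟩, -⟩ := CC_zero_of hZn
    -- the source
    let Q : (ℂ →L[ℝ] (E →L[ℝ] E)) →L[ℝ] E →L[ℝ] (ℂ →L[ℝ] E) :=
      (ContinuousLinearMap.flipₗᵢ ℝ ℂ E E).toContinuousLinearEquiv.toContinuousLinearMap
    have hS : CC T h n (fun t z => (B' t z).flip (Z t z) + F' t z) :=
      CC_add (CC_bilin Q hB' hZn) hF'
    have hbB : ∃ b ≥ 0, ∀ t ∈ Icc 0 T, ∀ z ∈ U h, ‖B t z‖ ≤ b := by
      obtain ⟨b, hb0, β, hβ, hh⟩ := r3_CC_holder hB
      obtain ⟨-, -, h1, -⟩ := hh β hβ le_rfl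
      exact ⟨b, hb0, h1⟩
    obtain ⟨bB, hbB0, hbB⟩ := hbB
    -- existence of the derivative
    have hex : ∀ z : ℂ, ∃ Y : ℝ → (ℂ →L[ℝ] E), z ∈ U h → (Y 0 = 0 ∧ ∀ t ∈ Icc 0 T,
        HasDerivWithinAt Y ((B t z).comp (Y t) + ((B' t z).flip (Z t z) + F' t z))
          (Icc 0 T) t) := by
      intro z
      by_cases hz : z ∈ U h
      · obtain ⟨Y, hY0, hY⟩ := ode_global (E := ℂ →L[ℝ] E) hT
          (V := fun t X => (B t z).comp X + ((B' t z).flip (Z t z) + F' t z)) (L := bB)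
          (fun X => by
            have h1 := r3_CC_slice (CC_clm (F₁ := (ℂ →L[ℝ] E) →L[ℝ] (ℂ →L[ℝ] E)) (ContinuousLinearMap.compL ℝ ℂ E E) hB) hz
            have h2 := r3_CC_slice hS hz
            exact (h1.clm_apply continuousOn_const).add h2)
          (fun t ht X Y => by
            have e : ((B t z).comp X + ((B' t z).flip (Z t z) + F' t z)) -
                ((B t z).comp Y + ((B' t z).flip (Z t z) + F' t z)) = (B t z).comp (X - Y) := by
              rw [ContinuousLinearMap.comp_sub]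
              abel
            rw [e]
            exact ((B t z).opNorm_comp_le _).trans
              (mul_le_mul_of_nonneg_right (hbB t ht z hz) (norm_nonneg _))) 0
        exact ⟨Y, fun _ => ⟨hY0, hY⟩⟩
      · exact ⟨0, fun h => absurd h hz⟩
    choose Y hY using hex
    have hZ' : CC T h n (fun t z => Y z t) := by
      refine ih (E := ℂ →L[ℝ] E) (B := fun t z => ContinuousLinearMap.compL ℝ ℂ E E (B t z))
        (F := fun t z => (B' t z).flip (Z t z) + F' t z) (z0 := 0)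
        (CC_clm (F₁ := (ℂ →L[ℝ] E) →L[ℝ] (ℂ →L[ℝ] E)) (ContinuousLinearMap.compL ℝ ℂ E E) (CC_succ hB)) hS (fun z hz => (hY z hz).1) ?_
      intro t ht z hz
      exact (hY z hz).2 t ht
    refine ⟨(CC_zero_of hZn).1, ⟨bz, hbz⟩, fun t z => Y z t, ?_, hZ'⟩
    exact r3_lin_deriv hT (CC_zero_of hB) (CC_zero_of hB') (CC_zero_of hF') (CC_zero_of hZn)
      hdB hdF h0 hd (fun z hz => (hY z hz).1) (fun t ht z hz => (hY z hz).2 t ht)

end Pool.Agent.EAC
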