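import Pool.Agent.EAC.R4a

/-!
# EAC-R4: the flow of a field of class `CC (n+1)` and its inverse are of class `CC (n+1)`

`V ∈ CC (n+1)`, `Φ t : U h → U h` bijective, `Φ 0 = id`, `∂_t Φ = V t (Φ t z)`. `P = Φ - id`.
`CC_flow_zero`: `P` is bounded, Lipschitz in `z` (`gron`), jointly continuous: `CC 0` (and more precisely Lipschitz).
`flow_deriv`: `Z` the solution of `Z' = V'(t, Φ) ∘ Z`, `Z 0 = id` (`ode_global`); the remainder `R = Φ(t,z+e) - Φ(t,z) - Z(t,z)e` satisfies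
`R' = V'(Φ) R + O(‖e‖^{1+β})`. So `HasFDerivAt (Φ t) (Z t z) z`.
`CC_flow`: induction on `n`: `P ∈ CC n` implies `V'(t, z + P) ∈ CC n` (`CC_comp`), so `Z ∈ CC n` (`CC_lin`), so `P ∈ CC (n+1)`.
Inverse: `J = Z⁻¹` solves `J' = -J ∘ V'(t,Φ)`, `J 0 = id`, so `J ∈ CC n`, `J ∘ Z = id = Z ∘ J` (derivative of `J ∘ Z` is `0`, and `Z ∘ J` by uniqueness/finite dimension).
`A t = (Φ t)⁻¹`, `Q = A - id`: `A` is Lipschitz in `z` (backward Gronwall: `‖z - w‖ ≤ e^{LT}‖Φ z - Φ w‖`), jointly continuous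
(`‖A t w - A t' w‖ ≤ e^{LT} ‖Φ t (A t w) ... ‖`), derivative `J(t, A t w)` (`HasFDerivAt.of_local_left_inverse`); induction: `Q ∈ CC n` implies
`J(t, w + Q) ∈ CC n` hence `Q ∈ CC (n+1)`.

THIS FILE: flow_deriv.
-/

set_option autoImplicit false

noncomputable section

namespace Pool.Agent.EAC


open Set Filter Topology Metric

variable {T h : ℝ} {V Φ A : ℝ → ℂ → ℂ}

/-- a one-sided inverse of an endomorphism of the plane is two-sided. -/
private theorem comp_id_comm {X Y : ℂ →L[ℝ] ℂ} (hXY : X.comp Y = ContinuousLinearMap.id ℝ ℂ) :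
    Y.comp X = ContinuousLinearMap.id ℝ ℂ := by
  have h1 : (X : ℂ →ₗ[ℝ] ℂ) * (Y : ℂ →ₗ[ℝ] ℂ) = 1 := by
    ext z
    · have := congrArg (fun W : ℂ →L[ℝ] ℂ => W z) hXY
      simpa using this
  have h2 : (Y : ℂ →ₗ[ℝ] ℂ) * (X : ℂ →ₗ[ℝ] ℂ) = 1 := mul_eq_one_comm.mp h1
  refine ContinuousLinearMap.ext fun z => ?_
  have := congrArg (fun W : ℂ →ₗ[ℝ] ℂ => W z) h2
  simpa using this

/-- Taylor estimate of order `1 + β` on the strip. -/
private theorem taylor_U {f : ℂ → ℂ} {f' : ℂ → (ℂ →L[ℝ] ℂ)} {K β : ℝ} (hβ : 0 < β) (hK : 0 ≤ K)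
    (hf : ∀ z ∈ U h, HasFDerivAt f (f' z) z)
    (hH : ∀ z ∈ U h, ∀ w ∈ U h, ‖f' z - f' w‖ ≤ K * ‖z - w‖ ^ β) {a b : ℂ} (ha : a ∈ U h)
    (hb : b ∈ U h) : ‖f b - f a - f' a (b - a)‖ ≤ K * ‖b - a‖ ^ β * ‖b - a‖ := by
  have hseg : segment ℝ a b ⊆ U h := (convex_U h).segment_subset ha hb
  refine (convex_segment a b).norm_image_sub_le_of_norm_hasFDerivWithin_le' (f' := f')
    (fun x hx => (hf x (hseg hx)).hasFDerivWithinAt) (fun x hx => ?_)
    (left_mem_segment ℝ a b) (right_mem_segment ℝ a b)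
  refine (hH x (hseg hx) a ha).trans ?_
  refine mul_le_mul_of_nonneg_left ?_ hK
  refine Real.rpow_le_rpow (norm_nonneg _) ?_ hβ.le
  obtain ⟨s, hs, rfl⟩ := (segment_eq_image' ℝ a b ▸ hx : x ∈ (fun θ : ℝ => a + θ • (b - a)) '' Icc 0 1)
  simp only [add_sub_cancel_left, norm_smul, Real.norm_eq_abs, abs_of_nonneg hs.1]
  exact mul_le_of_le_one_left (norm_nonneg _) hs.2

theorem flow_deriv (hT : 0 ≤ T) (hF : StripFlow T h V Φ A) {V' : ℝ → ℂ → (ℂ →L[ℝ] ℂ)}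
    (hV : CC T h 1 V) (hV' : ∀ t ∈ Icc 0 T, ∀ z ∈ U h, HasFDerivAt (V t) (V' t z) z)
    (hV0 : CC T h 0 V') :
    ∃ Z J : ℝ → ℂ → (ℂ →L[ℝ] ℂ),
      (∀ z ∈ U h, Z 0 z = ContinuousLinearMap.id ℝ ℂ ∧ J 0 z = ContinuousLinearMap.id ℝ ℂ) ∧
      (∀ t ∈ Icc 0 T, ∀ z ∈ U h,
        HasDerivWithinAt (fun τ => Z τ z) ((V' t (Φ t z)).comp (Z t z)) (Icc 0 T) t ∧
        HasDerivWithinAt (fun τ => J τ z) (-((J t z).comp (V' t (Φ t z)))) (Icc 0 T) t ∧
        (J t z).comp (Z t z) = ContinuousLinearMap.id ℝ ℂ ∧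
        (Z t z).comp (J t z) = ContinuousLinearMap.id ℝ ℂ ∧ HasFDerivAt (Φ t) (Z t z) z) := by
  obtain ⟨B, hB0, hB⟩ := CC_bdd hV0
  obtain ⟨L, hL0, hL⟩ := flow_lip hT hF hV
  have hcV' := CC_cont hV0
  obtain ⟨-, -, β, hβ, -, K₀, hK₀⟩ := hV0
  -- the coefficient along the trajectory of `z`
  have hM : ∀ z ∈ U h, ContinuousOn (fun t => V' t (Φ t z)) (Icc 0 T) := by
    intro z hz
    have h1 : ContinuousOn (fun t => ((t, Φ t z) : ℝ × ℂ)) (Icc 0 T) :=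
      continuousOn_id.prodMk fun t ht => (hF.deriv t ht z hz).continuousWithinAt
    exact hcV'.comp h1 fun t ht => ⟨ht, hF.mem t ht z hz⟩
  have hMB : ∀ z ∈ U h, ∀ t ∈ Icc 0 T, ‖V' t (Φ t z)‖ ≤ B := fun z hz t ht =>
    hB t ht _ (hF.mem t ht z hz)
  have hZ : ∀ z : ℂ, ∃ γ : ℝ → (ℂ →L[ℝ] ℂ), z ∈ U h → γ 0 = ContinuousLinearMap.id ℝ ℂ ∧
      ∀ t ∈ Icc 0 T, HasDerivWithinAt γ ((V' t (Φ t z)).comp (γ t)) (Icc 0 T) t := by
    intro z
    by_cases hz : z ∈ U h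
    · obtain ⟨γ, h0, h1⟩ := ode_global (E := ℂ →L[ℝ] ℂ) hT
        (V := fun t X => (V' t (Φ t z)).comp X) (L := B)
        (fun X => (hM z hz).clm_comp continuousOn_const)
        (fun t ht X Y => by
          rw [← ContinuousLinearMap.comp_sub]
          exact (ContinuousLinearMap.opNorm_comp_le _ _).trans
            (mul_le_mul_of_nonneg_right (hMB z hz t ht) (norm_nonneg _)))
        (ContinuousLinearMap.id ℝ ℂ)
      exact ⟨γ, fun _ => ⟨h0, h1⟩⟩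
    · exact ⟨fun _ => 0, fun hz' => absurd hz' hz⟩
  have hJ : ∀ z : ℂ, ∃ γ : ℝ → (ℂ →L[ℝ] ℂ), z ∈ U h → γ 0 = ContinuousLinearMap.id ℝ ℂ ∧
      ∀ t ∈ Icc 0 T, HasDerivWithinAt γ (-((γ t).comp (V' t (Φ t z)))) (Icc 0 T) t := by
    intro z
    by_cases hz : z ∈ U h
    · obtain ⟨γ, h0, h1⟩ := ode_global (E := ℂ →L[ℝ] ℂ) hT
        (V := fun t X => -(X.comp (V' t (Φ t z)))) (L := B)
        (fun X => (continuousOn_const.clm_comp (hM z hz)).neg)
        (fun t ht X Y => by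
          rw [neg_sub_neg, ← ContinuousLinearMap.sub_comp, norm_sub_rev X Y]
          refine (ContinuousLinearMap.opNorm_comp_le _ _).trans ?_
          rw [mul_comm]
          exact mul_le_mul_of_nonneg_right (hMB z hz t ht) (norm_nonneg _))
        (ContinuousLinearMap.id ℝ ℂ)
      exact ⟨γ, fun _ => ⟨h0, h1⟩⟩
    · exact ⟨fun _ => 0, fun hz' => absurd hz' hz⟩
  choose Zf hZf using hZ
  choose Jf hJf using hJ
  refine ⟨fun t z => Zf z t, fun t z => Jf z t, fun z hz => ⟨(hZf z hz).1, (hJf z hz).1⟩, ?_⟩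
  -- the inverse
  have hJZ : ∀ t ∈ Icc 0 T, ∀ z ∈ U h, (Jf z t).comp (Zf z t) = ContinuousLinearMap.id ℝ ℂ := by
    intro t ht z hz
    have key := gron (E := ℂ →L[ℝ] ℂ) (T := T) (L := 0) (ε := 0) (δ := 0) le_rfl le_rfl
      (r := fun τ => (Jf z τ).comp (Zf z τ) - ContinuousLinearMap.id ℝ ℂ) (r' := fun _ => 0)
      (fun τ hτ => by
        have h1 := ((hJf z hz).2 τ hτ).clm_comp ((hZf z hz).2 τ hτ)
        have h2 := h1.sub_const (ContinuousLinearMap.id ℝ ℂ)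
        refine h2.congr_deriv ?_
        rw [ContinuousLinearMap.neg_comp, ContinuousLinearMap.comp_assoc, neg_add_cancel])
      (by simp [(hZf z hz).1, (hJf z hz).1]) (fun τ hτ => by simp) t ht
    have : ‖(Jf z t).comp (Zf z t) - ContinuousLinearMap.id ℝ ℂ‖ ≤ 0 := by simpa using key
    exact sub_eq_zero.mp (norm_le_zero_iff.mp this)
  intro t ht z hz
  refine ⟨(hZf z hz).2 t ht, (hJf z hz).2 t ht, hJZ t ht z hz, comp_id_comm (hJZ t ht z hz), ?_⟩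
  -- the Hölder bound with a nonnegative constant
  set K := max K₀ 0 with hKdef
  have hK0 : 0 ≤ K := le_max_right _ _
  have hK : ∀ t ∈ Icc 0 T, ∀ z ∈ U h, ∀ w ∈ U h, ‖V' t z - V' t w‖ ≤ K * ‖z - w‖ ^ β :=
    fun t ht z hz w hw => (hK₀ t ht z hz w hw).trans
      (mul_le_mul_of_nonneg_right (le_max_left _ _) (Real.rpow_nonneg (norm_nonneg _) _))
  -- the remainder
  have hR : ∀ w ∈ U h, ‖Φ t w - Φ t z - Zf z t (w - z)‖ ≤
      (K * L ^ β * L * T * Real.exp (B * T)) * ‖w - z‖ ^ β * ‖w - z‖ := by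
    intro w hw
    set ε := K * (L * ‖w - z‖) ^ β * (L * ‖w - z‖) with hε
    have hε0 : 0 ≤ ε := by positivity
    have key := gron (E := ℂ) (T := T) (L := B) (ε := ε) (δ := 0) hB0 hε0
      (r := fun τ => Φ τ w - Φ τ z - Zf z τ (w - z))
      (r' := fun τ => V τ (Φ τ w) - V τ (Φ τ z) - ((V' τ (Φ τ z)).comp (Zf z τ)) (w - z))
      (fun τ hτ => by
        refine ((hF.deriv τ hτ w hw).sub (hF.deriv τ hτ z hz)).sub ?_
        have := ((hZf z hz).2 τ hτ).clm_apply (hasDerivWithinAt_const τ (Icc 0 T) (w - z))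
        simpa using this)
      (by simp [hF.init w hw, hF.init z hz, (hZf z hz).1])
      (fun τ hτ => by
        have ha := hF.mem τ hτ z hz
        have hb := hF.mem τ hτ w hw
        have h1 := taylor_U hβ hK0 (hV' τ hτ) (hK τ hτ) ha hb
        have h2 : ‖V τ (Φ τ w) - V τ (Φ τ z) - V' τ (Φ τ z) (Φ τ w - Φ τ z)‖ ≤ ε := by
          refine h1.trans ?_
          have h3 := (hL τ hτ w hw z hz).1
          rw [hε]
          gcongr
        have h4 : V τ (Φ τ w) - V τ (Φ τ z) - ((V' τ (Φ τ z)).comp (Zf z τ)) (w - z) =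
            V' τ (Φ τ z) (Φ τ w - Φ τ z - Zf z τ (w - z)) +
            (V τ (Φ τ w) - V τ (Φ τ z) - V' τ (Φ τ z) (Φ τ w - Φ τ z)) := by
          simp only [ContinuousLinearMap.comp_apply, map_sub]
          abel
        rw [h4]
        refine (norm_add_le _ _).trans (add_le_add ?_ h2)
        exact ((V' τ (Φ τ z)).le_opNorm _).trans
          (mul_le_mul_of_nonneg_right (hMB z hz τ hτ) (norm_nonneg _))) t ht
    refine key.trans ?_
    rw [zero_add]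
    have h5 : ε * t * Real.exp (B * t) ≤ ε * T * Real.exp (B * T) := by
      have h6 : Real.exp (B * t) ≤ Real.exp (B * T) :=
        Real.exp_le_exp.mpr (mul_le_mul_of_nonneg_left ht.2 hB0)
      exact mul_le_mul (mul_le_mul_of_nonneg_left ht.2 hε0) h6 (Real.exp_pos _).le
        (mul_nonneg hε0 hT)
    refine h5.trans (le_of_eq ?_)
    rw [hε, Real.mul_rpow hL0 (norm_nonneg _)]
    ring
  -- conclusion
  rw [hasFDerivAt_iff_isLittleO]
  rw [Asymptotics.isLittleO_iff]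
  intro c hc
  set C := K * L ^ β * L * T * Real.exp (B * T) with hC
  have hlim : Tendsto (fun w : ℂ => C * ‖w - z‖ ^ β) (𝓝 z) (𝓝 0) := by
    have h1 : Continuous fun w : ℂ => C * ‖w - z‖ ^ β :=
      continuous_const.mul ((continuous_id.sub continuous_const).norm.rpow_const
        fun _ => Or.inr hβ.le)
    have h2 := h1.tendsto z
    simpa [Real.zero_rpow hβ.ne'] using h2
  have hU : ∀ᶠ w in 𝓝 z, w ∈ U h := (isOpen_U h).mem_nhds hz
  filter_upwards [hU, hlim.eventually (gt_mem_nhds hc)] with w hw hw'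
  exact (hR w hw).trans (mul_le_mul_of_nonneg_right hw'.le (norm_nonneg _))

end Pool.Agent.EAC
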