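import Pool.Agent.EAC.R4b

/-!
# EAC-R4: the flow of a field of class `CC (n+1)` and its inverse are of class `CC (n+1)`

`V ∈ CC (n+1)`, `Φ t : U h → U h` bijective, `Φ 0 = id`, `∂_t Φ = V t (Φ t z)`. `P = Φ - id`.
`CC_flow_zero`: `P` is bounded, Lipschitz in `z` (`gron`), jointly continuous: `CC 0` (and more precisely Lipschitz).
`flow_deriv`: `Z` the solution of `Z' = V'(t, Φ) ∘ Z`, `Z 0 = id` (`ode_global`); the remainder `R = Φ(t,z+e) - Φ(t,z) - Z(t,z)e` satisfies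
`R' = V'(Φ) R + O(‖e‖^{1+β})`. So `HasFDerivAt (Φ t) (Z t z) z`.
`CC_flow`: induction on `n`: `P ∈ CC n` implies `V'(t, z + P) ∈ CC n` (`CC_comp`), so `Z ∈ CC n` (`CC_lin`), so `P ∈ CC (n+1)`.
Inverse: `J = Z⁻¹` solves `J' = -J ∘ V'(t,Φ)`, `J 0 = id`, so `J ∈ CC n`, `J ∘ Z = id = Z ∘ J` (derivative of `J ∘ Z` is `0`, and `Z ∘ J` by uniqueness/finite dimension).
`A t = (Φ t)⁻¹`, `Q = A - id`: `A` is Lipschitz in `z` (backward Gronwall: `‖z - w‖ ≤ e^{LT}‖Φ z - Φ w‖`), jointly continuous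
(`‖A t w - A t' w‖ ≤ e^{LT} ‖Φ t (A t w) ... ‖`), derivative `J(t, A t w)` (`HasFDerivAt.of_local_left_inverse`); induction: `Q ∈ CC n` implies
`J(t, w + Q) ∈ CC n` hence `Q ∈ CC (n+1)`.

THIS FILE: CC_flow.
-/

set_option autoImplicit false

noncomputable section

namespace Pool.Agent.EAC


open Set Filter Topology Metric

variable {T h : ℝ} {V Φ A : ℝ → ℂ → ℂ}

/-- one step of the induction. -/
private theorem CC_flow_step (n : ℕ) (hT : 0 ≤ T) (hF : StripFlow T h V Φ A) (hV : CC T h (n + 1) V)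
    (hP : CC T h n (fun t z => Φ t z - z)) : CC T h (n + 1) (fun t z => Φ t z - z) := by
  have hV1 : CC T h 1 V := CC_mono (Nat.le_add_left 1 n) hV
  obtain ⟨-, -, V', hV', hV'n⟩ := id hV
  obtain ⟨Z, J, h0, h1⟩ := flow_deriv hT hF hV1 hV' (CC_zero_of hV'n)
  have hm : ∀ t ∈ Icc 0 T, ∀ z ∈ U h, z + (Φ t z - z) ∈ U h := fun t ht z hz => by
    rw [add_sub_cancel]
    exact hF.mem t ht z hz
  have hc : CC T h n (fun t z => V' t (Φ t z)) :=
    CC_congr (CC_comp hV'n hP hm) fun t _ z _ => by rw [add_sub_cancel]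
  have hB : CC T h n (fun t z => ContinuousLinearMap.compL ℝ ℂ ℂ ℂ (V' t (Φ t z))) :=
    CC_clm (ContinuousLinearMap.compL ℝ ℂ ℂ ℂ) hc
  have hZ : CC T h n Z := by
    refine CC_lin n hT hB (CC_const n (0 : ℂ →L[ℝ] ℂ)) (z0 := ContinuousLinearMap.id ℝ ℂ)
      (fun z hz => (h0 z hz).1) (fun t ht z hz => ?_)
    have := (h1 t ht z hz).1
    simpa using this
  have hZ' : CC T h n (fun t z => Z t z + -ContinuousLinearMap.id ℝ ℂ) :=
    CC_add hZ (CC_const n (-ContinuousLinearMap.id ℝ ℂ))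
  have hP0 := (CC_flow_zero hT hF hV1).1
  obtain ⟨B, -, hB'⟩ := CC_bdd hP0
  refine CC_of_deriv (CC_cont hP0) hB' (fun t ht z hz => ?_) hZ'
  have := (h1 t ht z hz).2.2.2.2
  exact (this.sub (hasFDerivAt_id z)).congr_fderiv (sub_eq_add_neg _ _)

theorem CC_flow (n : ℕ) (hT : 0 ≤ T) (hF : StripFlow T h V Φ A) (hV : CC T h (n + 1) V) :
    CC T h (n + 1) (fun t z => Φ t z - z) := by
  induction n with
  | zero => exact CC_flow_step 0 hT hF hV (CC_flow_zero hT hF hV).1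
  | succ n ih => exact CC_flow_step (n + 1) hT hF hV (ih (CC_succ hV))

end Pool.Agent.EAC
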