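import Pool.Agent.EAC.R4c

/-!
# EAC-R4: the flow of a field of class `CC (n+1)` and its inverse are of class `CC (n+1)`

`V ∈ CC (n+1)`, `Φ t : U h → U h` bijective, `Φ 0 = id`, `∂_t Φ = V t (Φ t z)`. `P = Φ - id`.
`CC_flow_zero`: `P` is bounded, Lipschitz in `z` (`gron`), jointly continuous: `CC 0` (and more precisely Lipschitz).
`flow_deriv`: `Z` the solution of `Z' = V'(t, Φ) ∘ Z`, `Z 0 = id` (`ode_global`); the remainder `R = Φ(t,z+e) - Φ(t,z) - Z(t,z)e` satisfies
`R' = V'(Φ) R + O(‖e‖^{1+β})`. So `HasFDerivAt (Φ t) (Z t z) z`.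
`CC_flow`: induction on `n`: `P ∈ CC n` implies `V'(t, z + P) ∈ CC n` (`CC_comp`), so `Z ∈ CC n` (`CC_lin`), so `P ∈ CC (n+1)`.
Inverse: `J = Z⁻¹` solves `J' = -J ∘ V'(t,Φ)`, `J 0 = id`, so `J ∈ CC n`, `J ∘ Z = id = Z ∘ J` (derivative of `J ∘ Z` is `0`, and `Z ∘ J` by uniqueness/finite dimension).
`A t = (Φ t)⁻¹`, `Q = A - id`: `A` is Lipschitz in `z` (backward Gronwall: `‖z - w‖ ≤ e^{LT}‖Φ z - Φ w‖`), jointly continuous
(`‖A t w - A t' w‖ ≤ e^{LT} ‖Φ t (A t w) ... ‖`), derivative `J(t, A t w)` (`HasFDerivAt.of_local_left_inverse`); induction: `Q ∈ CC n` implies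
`J(t, w + Q) ∈ CC n` hence `Q ∈ CC (n+1)`.

THIS FILE: CC_flow_inv.
-/

set_option autoImplicit false

noncomputable section

namespace Pool.Agent.EAC


open Set Filter Topology Metric

variable {T h : ℝ} {V Φ A : ℝ → ℂ → ℂ}

theorem CC_flow_inv (n : ℕ) (hT : 0 ≤ T) (hF : StripFlow T h V Φ A) (hV : CC T h (n + 1) V) :
    CC T h (n + 1) (fun t z => A t z - z) := by
  have hV1 : CC T h 1 V := CC_mono (by omega) hV
  have hPn : CC T h (n + 1) (fun t z => Φ t z - z) := CC_flow n hT hF hV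
  have hQ0 : CC T h 0 (fun t z => A t z - z) := (CC_flow_zero hT hF hV1).2
  obtain ⟨L, hL, hlip⟩ := flow_lip hT hF hV1
  obtain ⟨V', hVd, hV'⟩ : ∃ V' : ℝ → ℂ → (ℂ →L[ℝ] ℂ),
      (∀ t ∈ Icc 0 T, ∀ z ∈ U h, HasFDerivAt (V t) (V' t z) z) ∧ CC T h n V' := by
    obtain ⟨_, _, V', h1, h2⟩ := hV
    exact ⟨V', h1, h2⟩
  obtain ⟨Z, J, hinit, hZJ⟩ := flow_deriv hT hF hV1 hVd (CC_zero_of hV')
  -- `V' t (Φ t z)` is of class `CC n`
  have hVΦ : CC T h n (fun t z => V' t (Φ t z)) := by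
    have h1 : CC T h n (fun t z => V' t (z + (Φ t z - z))) :=
      CC_comp hV' (CC_succ hPn) (fun t ht z hz => by
        simpa only [add_sub_cancel] using hF.mem t ht z hz)
    refine CC_congr h1 (fun t ht z hz => ?_)
    rw [add_sub_cancel]
  -- `J` is of class `CC n`
  have hJ : CC T h n J := by
    have hB : CC T h n (fun t z =>
        (-(ContinuousLinearMap.compL ℝ ℂ ℂ ℂ).flip) (V' t (Φ t z))) := CC_clm _ hVΦ
    refine CC_lin n hT hB (CC_const n (0 : ℂ →L[ℝ] ℂ)) (fun z hz => (hinit z hz).2) ?_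
    intro t ht z hz
    have h1 := (hZJ t ht z hz).2.1
    have h2 : ((-(ContinuousLinearMap.compL ℝ ℂ ℂ ℂ).flip) (V' t (Φ t z))) (J t z) +
        (0 : ℂ →L[ℝ] ℂ) = -((J t z).comp (V' t (Φ t z))) := by
      simp
    rw [h2]
    exact h1
  -- continuity of `A t`
  have hlipA : ∀ t ∈ Icc 0 T, ∀ z ∈ U h, ∀ w ∈ U h, ‖A t z - A t w‖ ≤ L * ‖z - w‖ := by
    intro t ht z hz w hw
    have := (hlip t ht _ (hF.memA t ht z hz) _ (hF.memA t ht w hw)).2
    rwa [hF.right t ht z hz, hF.right t ht w hw] at this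
  -- the derivative of `A t`
  have hA : ∀ t ∈ Icc 0 T, ∀ z ∈ U h, HasFDerivAt (A t) (J t (A t z)) z := by
    intro t ht z hz
    have hm := hF.memA t ht z hz
    obtain ⟨-, -, h3, h4, h5⟩ := hZJ t ht _ hm
    have hcont : ContinuousAt (A t) z := by
      rw [ContinuousAt, tendsto_iff_norm_sub_tendsto_zero]
      have hlim : Tendsto (fun w : ℂ => L * ‖w - z‖) (𝓝 z) (𝓝 0) := by
        have hc : Continuous (fun w : ℂ => L * ‖w - z‖) := by fun_prop
        simpa using hc.tendsto z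
      refine squeeze_zero' (Eventually.of_forall fun w => norm_nonneg _) ?_ hlim
      filter_upwards [(isOpen_U h).mem_nhds hz] with w hw
      exact hlipA t ht w hw z hz
    let e : ℂ ≃L[ℝ] ℂ := ContinuousLinearEquiv.equivOfInverse (Z t (A t z)) (J t (A t z))
      (fun x => by
        have := congrArg (fun M : ℂ →L[ℝ] ℂ => M x) h3
        simpa using this)
      (fun x => by
        have := congrArg (fun M : ℂ →L[ℝ] ℂ => M x) h4
        simpa using this)
    have hf : HasFDerivAt (Φ t) (e : ℂ →L[ℝ] ℂ) (A t z) := h5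
    have hfg : ∀ᶠ y in 𝓝 z, Φ t (A t y) = y := by
      filter_upwards [(isOpen_U h).mem_nhds hz] with w hw
      exact hF.right t ht w hw
    exact HasFDerivAt.of_local_left_inverse hcont hf hfg
  -- induction
  have key : ∀ m ≤ n + 1, CC T h m (fun t z => A t z - z) := by
    intro m
    induction m with
    | zero => intro _; exact hQ0
    | succ m ih =>
      intro hm
      have hQm := ih (by omega)
      have hJm : CC T h m J := CC_mono (by omega) hJ
      have h1 : CC T h m (fun t z => J t (z + (A t z - z))) :=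
        CC_comp hJm hQm (fun t ht z hz => by
          simpa only [add_sub_cancel] using hF.memA t ht z hz)
      have h2 : CC T h m (fun t z => J t (A t z)) := by
        refine CC_congr h1 (fun t ht z hz => ?_)
        rw [add_sub_cancel]
      have h3 : CC T h m (fun t z => J t (A t z) + -ContinuousLinearMap.id ℝ ℂ) :=
        CC_add h2 (CC_const m _)
      obtain ⟨B, -, hB⟩ := CC_bdd hQm
      refine CC_of_deriv (CC_cont hQm) hB ?_ h3
      intro t ht z hz
      have := (hA t ht z hz).sub (hasFDerivAt_id (𝕜 := ℝ) z)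
      rw [sub_eq_add_neg] at this
      exact this
  exact key (n + 1) le_rfl

end Pool.Agent.EAC
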