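import Pool.Agent.EAC.R2
import Pool.Agent.EAC.R3

/-!
# EAC-R4: the flow of a field of class `CC (n+1)` and its inverse are of class `CC (n+1)`

`V ∈ CC (n+1)`, `Φ t : U h → U h` bijective, `Φ 0 = id`, `∂_t Φ = V t (Φ t z)`. `P = Φ - id`.
`CC_flow_zero`: `P` is bounded, Lipschitz in `z` (`gron`), jointly continuous: `CC 0` (and more precisely Lipschitz).
`flow_deriv`: `Z` the solution of `Z' = V'(t, Φ) ∘ Z`, `Z 0 = id` (`ode_global`); the remainder `R = Φ(t,z+e) - Φ(t,z) - Z(t,z)e` satisfies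
`R' = V'(Φ) R + O(‖e‖^{1+β})`. So `HasFDerivAt (Φ t) (Z t z) z`.
`CC_flow`: induction on `n`: `P ∈ CC n` implies `V'(t, z + P) ∈ CC n` (`CC_comp`), so `Z ∈ CC n` (`CC_lin`), so `P ∈ CC (n+1)`.
Inverse: `J = Z⁻¹` solves `J' = -J ∘ V'(t,Φ)`, `J 0 = id`, so `J ∈ CC n`, `J ∘ Z = id = Z ∘ J` (derivative of `J ∘ Z` is `0`, and `Z ∘ J` by uniqueness/finite dimension).
`A t = (Φ t)⁻¹`, `Q = A - id`: `A` is Lipschitz in `z` (backward Gronwall: `‖z - w‖ ≤ e^{LT}‖Φ z - Φ w‖`), jointly continuous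
(`‖A t w - A t' w‖ ≤ e^{LT} ‖Φ t (A t w) ... ‖`), derivative `J(t, A t w)` (`HasFDerivAt.of_local_left_inverse`); induction: `Q ∈ CC n` implies
`J(t, w + Q) ∈ CC n` hence `Q ∈ CC (n+1)`.

THIS FILE: StripFlow, flow_lip, CC_flow_zero.
-/

set_option autoImplicit false

noncomputable section

namespace Pool.Agent.EAC


open Set Filter Topology Metric

variable {T h : ℝ} {V Φ A : ℝ → ℂ → ℂ}

/-- `Φ` is the flow of `V` on the open strip, for times in `[0,T]`, and `A t` is the inverse of `Φ t`. -/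
structure StripFlow (T h : ℝ) (V Φ A : ℝ → ℂ → ℂ) : Prop where
  init : ∀ z ∈ U h, Φ 0 z = z
  mem : ∀ t ∈ Icc 0 T, ∀ z ∈ U h, Φ t z ∈ U h
  memA : ∀ t ∈ Icc 0 T, ∀ z ∈ U h, A t z ∈ U h
  left : ∀ t ∈ Icc 0 T, ∀ z ∈ U h, A t (Φ t z) = z
  right : ∀ t ∈ Icc 0 T, ∀ z ∈ U h, Φ t (A t z) = z
  deriv : ∀ t ∈ Icc 0 T, ∀ z ∈ U h, HasDerivWithinAt (fun τ => Φ τ z) (V t (Φ t z)) (Icc 0 T) t

theorem flow_lip (hT : 0 ≤ T) (hF : StripFlow T h V Φ A) (hV : CC T h 1 V) :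
    ∃ L ≥ 0, ∀ t ∈ Icc 0 T, ∀ z ∈ U h, ∀ w ∈ U h,
      ‖Φ t z - Φ t w‖ ≤ L * ‖z - w‖ ∧ ‖z - w‖ ≤ L * ‖Φ t z - Φ t w‖ := by
  obtain ⟨L0, hL0, hlip⟩ := CC_lip hV
  refine ⟨Real.exp (L0 * T), (Real.exp_pos _).le, ?_⟩
  intro t ht z hz w hw
  have hr : ∀ s ∈ Icc 0 T, HasDerivWithinAt (fun τ => Φ τ z - Φ τ w)
      (V s (Φ s z) - V s (Φ s w)) (Icc 0 T) s :=
    fun s hs => (hF.deriv s hs z hz).sub (hF.deriv s hs w hw)
  have hb : ∀ s ∈ Icc 0 T, ‖V s (Φ s z) - V s (Φ s w)‖ ≤ L0 * ‖Φ s z - Φ s w‖ + 0 := by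
    intro s hs
    rw [add_zero]
    exact hlip s hs _ (hF.mem s hs z hz) _ (hF.mem s hs w hw)
  have hexp : Real.exp (L0 * t) ≤ Real.exp (L0 * T) :=
    Real.exp_le_exp.2 (mul_le_mul_of_nonneg_left ht.2 hL0)
  constructor
  · have h0 : ‖(fun τ => Φ τ z - Φ τ w) 0‖ ≤ ‖z - w‖ := by
      simp only [hF.init z hz, hF.init w hw, le_refl]
    have := gron hL0 le_rfl hr h0 hb t ht
    simp only [zero_mul, add_zero] at this
    calc ‖Φ t z - Φ t w‖ ≤ ‖z - w‖ * Real.exp (L0 * t) := this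
      _ ≤ ‖z - w‖ * Real.exp (L0 * T) := mul_le_mul_of_nonneg_left hexp (norm_nonneg _)
      _ = Real.exp (L0 * T) * ‖z - w‖ := mul_comm _ _
  · have hmaps : ∀ s ∈ Icc 0 t, t - s ∈ Icc 0 T := by
      intro s hs
      constructor
      · linarith [hs.2]
      · linarith [hs.1, ht.2]
    have hr2 : ∀ s ∈ Icc 0 t, HasDerivWithinAt (fun τ => Φ (t - τ) z - Φ (t - τ) w)
        (-(V (t - s) (Φ (t - s) z) - V (t - s) (Φ (t - s) w))) (Icc 0 t) s := by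
      intro s hs
      have h1 := hr (t - s) (hmaps s hs)
      have h2 : HasDerivWithinAt (fun τ : ℝ => t - τ) (-1) (Icc 0 t) s := by
        simpa using ((hasDerivAt_id s).const_sub t).hasDerivWithinAt
      have h3 := HasDerivWithinAt.scomp s h1 h2 (fun y hy => hmaps y hy)
      rw [neg_one_smul] at h3
      exact h3
    have hb2 : ∀ s ∈ Icc 0 t, ‖-(V (t - s) (Φ (t - s) z) - V (t - s) (Φ (t - s) w))‖ ≤
        L0 * ‖Φ (t - s) z - Φ (t - s) w‖ + 0 := by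
      intro s hs
      rw [norm_neg]
      exact hb (t - s) (hmaps s hs)
    have h0 : ‖(fun τ => Φ (t - τ) z - Φ (t - τ) w) 0‖ ≤ ‖Φ t z - Φ t w‖ := by
      simp only [sub_zero, le_refl]
    have := gron hL0 le_rfl hr2 h0 hb2 t ⟨ht.1, le_rfl⟩
    simp only [sub_self, zero_mul, add_zero, hF.init z hz, hF.init w hw] at this
    calc ‖z - w‖ ≤ ‖Φ t z - Φ t w‖ * Real.exp (L0 * t) := this
      _ ≤ ‖Φ t z - Φ t w‖ * Real.exp (L0 * T) :=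
          mul_le_mul_of_nonneg_left hexp (norm_nonneg _)
      _ = Real.exp (L0 * T) * ‖Φ t z - Φ t w‖ := mul_comm _ _

private theorem cont_of_lip2 {G : ℝ → ℂ → ℂ} {K : ℝ}
    (hz : ∀ t ∈ Icc 0 T, ∀ z ∈ U h, ∀ w ∈ U h, ‖G t z - G t w‖ ≤ K * ‖z - w‖)
    (ht : ∀ t ∈ Icc 0 T, ∀ s ∈ Icc 0 T, ∀ z ∈ U h, ‖G t z - G s z‖ ≤ K * |t - s|) :
    ContinuousOn (fun p : ℝ × ℂ => G p.1 p.2) (Icc 0 T ×ˢ U h) := by
  intro p hp
  rw [ContinuousWithinAt, tendsto_iff_norm_sub_tendsto_zero]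
  have hlim : Tendsto (fun q : ℝ × ℂ => K * ‖q.2 - p.2‖ + K * |q.1 - p.1|)
      (𝓝[Icc 0 T ×ˢ U h] p) (𝓝 0) := by
    have hc : Continuous (fun q : ℝ × ℂ => K * ‖q.2 - p.2‖ + K * |q.1 - p.1|) := by fun_prop
    have := (hc.tendsto p).mono_left (nhdsWithin_le_nhds (s := Icc 0 T ×ˢ U h))
    simpa using this
  refine squeeze_zero' (Eventually.of_forall fun q => norm_nonneg _) ?_ hlim
  filter_upwards [self_mem_nhdsWithin] with q hq
  calc ‖G q.1 q.2 - G p.1 p.2‖ = ‖(G q.1 q.2 - G q.1 p.2) + (G q.1 p.2 - G p.1 p.2)‖ := by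
        rw [sub_add_sub_cancel]
    _ ≤ ‖G q.1 q.2 - G q.1 p.2‖ + ‖G q.1 p.2 - G p.1 p.2‖ := norm_add_le _ _
    _ ≤ K * ‖q.2 - p.2‖ + K * |q.1 - p.1| :=
        add_le_add (hz q.1 hq.1 _ hq.2 _ hp.2) (ht q.1 hq.1 p.1 hp.1 _ hp.2)

theorem CC_flow_zero (hT : 0 ≤ T) (hF : StripFlow T h V Φ A) (hV : CC T h 1 V) :
    CC T h 0 (fun t z => Φ t z - z) ∧ CC T h 0 (fun t z => A t z - z) := by
  obtain ⟨L, hL, hlip⟩ := flow_lip hT hF hV
  obtain ⟨B, hB, hbd⟩ := CC_bdd hV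
  have htime : ∀ t ∈ Icc 0 T, ∀ s ∈ Icc 0 T, ∀ z ∈ U h, ‖Φ t z - Φ s z‖ ≤ B * |t - s| := by
    intro t ht s hs z hz
    have := Convex.norm_image_sub_le_of_norm_hasDerivWithin_le (f := fun τ => Φ τ z)
      (fun x hx => hF.deriv x hx z hz) (fun x hx => hbd x hx _ (hF.mem x hx z hz))
      (convex_Icc 0 T) hs ht
    simpa [Real.norm_eq_abs] using this
  have hlipA : ∀ t ∈ Icc 0 T, ∀ z ∈ U h, ∀ w ∈ U h, ‖A t z - A t w‖ ≤ L * ‖z - w‖ := by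
    intro t ht z hz w hw
    have := (hlip t ht _ (hF.memA t ht z hz) _ (hF.memA t ht w hw)).2
    rwa [hF.right t ht z hz, hF.right t ht w hw] at this
  have htimeA : ∀ t ∈ Icc 0 T, ∀ s ∈ Icc 0 T, ∀ z ∈ U h,
      ‖A t z - A s z‖ ≤ L * (B * |t - s|) := by
    intro t ht s hs z hz
    have hp := hF.memA s hs z hz
    have h1 := hlipA t ht z hz _ (hF.mem t ht _ hp)
    rw [hF.left t ht _ hp] at h1
    refine h1.trans (mul_le_mul_of_nonneg_left ?_ hL)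
    have h2 := htime s hs t ht _ hp
    rw [hF.right s hs z hz, abs_sub_comm] at h2
    exact h2
  have hid : ∀ {G : ℝ → ℂ → ℂ}, ContinuousOn (fun p : ℝ × ℂ => G p.1 p.2) (Icc 0 T ×ˢ U h) →
      ContinuousOn (fun p : ℝ × ℂ => G p.1 p.2 - p.2) (Icc 0 T ×ˢ U h) :=
    fun hG => hG.sub continuous_snd.continuousOn
  have h0T : (0 : ℝ) ∈ Icc 0 T := ⟨le_rfl, hT⟩
  have hbdP : ∀ t ∈ Icc 0 T, ∀ z ∈ U h, ‖Φ t z - z‖ ≤ B * T := by
    intro t ht z hz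
    have := htime t ht 0 h0T z hz
    rw [hF.init z hz, sub_zero, abs_of_nonneg ht.1] at this
    exact this.trans (mul_le_mul_of_nonneg_left ht.2 hB)
  have hhol : ∀ {G : ℝ → ℂ → ℂ}, (∀ t ∈ Icc 0 T, ∀ z ∈ U h, ∀ w ∈ U h,
      ‖G t z - G t w‖ ≤ L * ‖z - w‖) → ∃ β : ℝ, 0 < β ∧ β ≤ 1 ∧ ∃ K : ℝ,
      ∀ t ∈ Icc 0 T, ∀ z ∈ U h, ∀ w ∈ U h,
        ‖(G t z - z) - (G t w - w)‖ ≤ K * ‖z - w‖ ^ β := by
    intro G hG
    refine ⟨1, one_pos, le_rfl, L + 1, ?_⟩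
    intro t ht z hz w hw
    rw [Real.rpow_one]
    calc ‖(G t z - z) - (G t w - w)‖ = ‖(G t z - G t w) - (z - w)‖ := by
          congr 1
          ring
      _ ≤ ‖G t z - G t w‖ + ‖z - w‖ := norm_sub_le _ _
      _ ≤ L * ‖z - w‖ + ‖z - w‖ := by linarith [hG t ht z hz w hw]
      _ = (L + 1) * ‖z - w‖ := by ring
  refine ⟨⟨?_, ⟨B * T, hbdP⟩, hhol (fun t ht z hz w hw => (hlip t ht z hz w hw).1)⟩,
    ⟨?_, ⟨B * T, ?_⟩, hhol hlipA⟩⟩
  · apply hid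
    apply cont_of_lip2 (K := L + B + L * B)
    · intro t ht z hz w hw
      refine ((hlip t ht z hz w hw).1).trans (mul_le_mul_of_nonneg_right ?_ (norm_nonneg _))
      nlinarith [mul_nonneg hL hB]
    · intro t ht s hs z hz
      refine (htime t ht s hs z hz).trans (mul_le_mul_of_nonneg_right ?_ (abs_nonneg _))
      nlinarith [mul_nonneg hL hB]
  · apply hid
    apply cont_of_lip2 (K := L + B + L * B)
    · intro t ht z hz w hw
      refine (hlipA t ht z hz w hw).trans (mul_le_mul_of_nonneg_right ?_ (norm_nonneg _))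
      nlinarith [mul_nonneg hL hB]
    · intro t ht s hs z hz
      refine (htimeA t ht s hs z hz).trans ?_
      rw [← mul_assoc]
      refine mul_le_mul_of_nonneg_right ?_ (abs_nonneg _)
      nlinarith [mul_nonneg hL hB]
  · intro t ht z hz
    have := hbdP t ht _ (hF.memA t ht z hz)
    rw [hF.right t ht z hz] at this
    rwa [norm_sub_rev]

end Pool.Agent.EAC
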