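import Pool.Agent.EAC.Strip

/-!
# EAC-S1a: algebra and pointwise bounds of the kernel `ker h z w`

`a = π(z - conj w)/(2h)`, `b = π(z - w)/(2h)`. `coth a - coth b = sinh(b-a)/(sinh a sinh b)`,
`b - a = -iπ Im w/h`, `sinh(-iy) = -i sin y`. `‖sinh(x+iy)‖² = sinh²x + sin²y`.
`sin²(Im a) - sin²(Im b) = sin(π Im z/h) sin(π Im w/h) ≥ 0` in the strip, so `‖sinh b‖ ≤ ‖sinh a‖`;
`|sin(π Im w/h)| = |sin(Im a - Im b)| ≤ |sin Im a| + |sin Im b| ≤ 2‖sinh a‖`, so `‖ker‖ ≤ 1/(2h‖sinh b‖)`.
`|Im b| ≤ π/2`, Jordan: `|sin y| ≥ 2|y|/π`, `|sinh x| ≥ |x| ≥ 2|x|/π`: `‖sinh b‖ ≥ (2/π)‖b‖ = ‖z-w‖/h`.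
Boundary: `Im z = 0`: `sinh a = conj (sinh b)·...` (`a = conj b`), `Im z = h`: `a = conj b + iπ`.

THIS FILE: ker_shift, ker_conj, ker_measurable, vol_S_diff_U.
-/

set_option autoImplicit false

noncomputable section

namespace Pool.Agent.EAC


open MeasureTheory Set Filter Topology Metric
open scoped ENNReal ComplexConjugate

theorem ker_shift (h : ℝ) (z w : ℂ) (x : ℝ) : ker h (z + x) (w + x) = ker h z w := by
  unfold ker
  have h1 : z + x - conj (w + x) = z - conj w := by
    rw [map_add, Complex.conj_ofReal]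
    ring
  have h2 : z + x - (w + x) = z - w := by ring
  rw [h1, h2]

private theorem cth_conj (w : ℂ) : cth (conj w) = conj (cth w) := by
  unfold cth
  rw [map_div₀, Complex.cosh_conj, Complex.sinh_conj]

theorem ker_conj (h : ℝ) (z w : ℂ) : ker h (conj z) w = -conj (ker h z w) := by
  unfold ker
  have e2 : (conj (2 : ℂ)) = 2 := Complex.conj_ofNat 2
  have h1 : (Real.pi : ℂ) * (conj z - conj w) / (2 * h) = conj ((Real.pi : ℂ) * (z - w) / (2 * h)) := by
    simp [e2]
  have h2 : (Real.pi : ℂ) * (conj z - w) / (2 * h) =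
      conj ((Real.pi : ℂ) * (z - conj w) / (2 * h)) := by
    simp [e2]
  rw [h1, h2, cth_conj, cth_conj, map_mul, Complex.conj_ofReal, map_sub]
  ring

theorem ker_measurable (h : ℝ) : Measurable (fun p : ℂ × ℂ => ker h p.1 p.2) := by
  have hc : Measurable cth := by
    unfold cth
    exact Complex.measurable_cosh.div Complex.measurable_sinh
  have hcj : Measurable (fun w : ℂ => conj w) := Complex.continuous_conj.measurable
  unfold ker
  refine Measurable.const_mul (Measurable.sub (hc.comp ?_) (hc.comp ?_)) _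
  · exact ((measurable_fst.sub (hcj.comp measurable_snd)).const_mul _).div_const _
  · exact ((measurable_fst.sub measurable_snd).const_mul _).div_const _

private theorem vol_im (c : ℝ) : volume {z : ℂ | z.im = c} = 0 := by
  have h1 : {z : ℂ | z.im = c} = Complex.measurableEquivRealProd ⁻¹' (univ ×ˢ ({c} : Set ℝ)) := by
    ext z
    simp [Complex.measurableEquivRealProd]
  rw [h1, Complex.volume_preserving_equiv_real_prod.measure_preimage
    (MeasurableSet.univ.prod (measurableSet_singleton c)).nullMeasurableSet]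
  rw [Measure.volume_eq_prod, Measure.prod_prod]
  simp

theorem vol_S_diff_U (h : ℝ) : volume (S h \ U h) = 0 := by
  refine measure_mono_null (t := {z : ℂ | z.im = 0} ∪ {z : ℂ | z.im = h}) ?_
    (measure_union_null (vol_im 0) (vol_im h))
  rintro z ⟨⟨h1, h2⟩, h3⟩
  by_contra hc
  simp only [mem_union, Set.mem_ofPred_eq, not_or] at hc
  exact h3 ⟨lt_of_le_of_ne h1 (Ne.symm hc.1), lt_of_le_of_ne h2 hc.2⟩

end Pool.Agent.EAC
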