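import Pool.Agent.EAC.Strip

/-!
# EAC-S1a: algebra and pointwise bounds of the kernel `ker h z w`

`a = π(z - conj w)/(2h)`, `b = π(z - w)/(2h)`. `coth a - coth b = sinh(b-a)/(sinh a sinh b)`,
`b - a = -iπ Im w/h`, `sinh(-iy) = -i sin y`. `‖sinh(x+iy)‖² = sinh²x + sin²y`.
`sin²(Im a) - sin²(Im b) = sin(π Im z/h) sin(π Im w/h) ≥ 0` in the strip, so `‖sinh b‖ ≤ ‖sinh a‖`;
`|sin(π Im w/h)| = |sin(Im a - Im b)| ≤ |sin Im a| + |sin Im b| ≤ 2‖sinh a‖`, so `‖ker‖ ≤ 1/(2h‖sinh b‖)`.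
`|Im b| ≤ π/2`, Jordan: `|sin y| ≥ 2|y|/π`, `|sinh x| ≥ |x| ≥ 2|x|/π`: `‖sinh b‖ ≥ (2/π)‖b‖ = ‖z-w‖/h`.
Boundary: `Im z = 0`: `sinh a = conj (sinh b)·...` (`a = conj b`), `Im z = h`: `a = conj b + iπ`.

THIS FILE: kb, ka, sinh_kb_ne, ker_eq, sinh_kb_le, le_sinh_kb, ker_le_sinh, ker_le_inv, ker_le_exp, ker_re_bottom, ker_re_top.
-/

set_option autoImplicit false

noncomputable section

namespace Pool.Agent.EAC


open MeasureTheory Set Filter Topology Metric
open scoped ENNReal ComplexConjugate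

def kb (h : ℝ) (z w : ℂ) : ℂ := Real.pi * (z - w) / (2 * h)

def ka (h : ℝ) (z w : ℂ) : ℂ := Real.pi * (z - conj w) / (2 * h)

theorem S1a1.normsq (z : ℂ) :
    ‖Complex.sinh z‖ ^ 2 = Real.sinh z.re ^ 2 + Real.sin z.im ^ 2 := by
  have h1 : Complex.sinh z = ((Real.sinh z.re * Real.cos z.im : ℝ) : ℂ) +
      ((Real.cosh z.re * Real.sin z.im : ℝ) : ℂ) * Complex.I := by
    conv_lhs => rw [← Complex.re_add_im z]
    rw [Complex.sinh_add, Complex.cosh_mul_I, Complex.sinh_mul_I]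
    push_cast
    ring
  rw [h1, Complex.sq_norm, Complex.normSq_add_mul_I]
  have h2 := Real.cosh_sq z.re
  have h3 := Real.sin_sq_add_cos_sq z.im
  linear_combination Real.sin z.im ^ 2 * h2 + Real.sinh z.re ^ 2 * h3

theorem S1a1.kb_re (h : ℝ) (z w : ℂ) : (kb h z w).re = Real.pi * (z.re - w.re) / (2 * h) := by
  have : kb h z w = ((Real.pi / (2 * h) : ℝ) : ℂ) * (z - w) := by
    rw [kb]; push_cast; ring
  rw [this, Complex.re_ofReal_mul, Complex.sub_re]
  ring

theorem S1a1.kb_im (h : ℝ) (z w : ℂ) : (kb h z w).im = Real.pi * (z.im - w.im) / (2 * h) := by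
  have : kb h z w = ((Real.pi / (2 * h) : ℝ) : ℂ) * (z - w) := by
    rw [kb]; push_cast; ring
  rw [this, Complex.im_ofReal_mul, Complex.sub_im]
  ring

theorem S1a1.ka_re (h : ℝ) (z w : ℂ) : (ka h z w).re = Real.pi * (z.re - w.re) / (2 * h) := by
  have : ka h z w = ((Real.pi / (2 * h) : ℝ) : ℂ) * (z - conj w) := by
    rw [ka]; push_cast; ring
  rw [this, Complex.re_ofReal_mul, Complex.sub_re, Complex.conj_re]
  ring

theorem S1a1.ka_im (h : ℝ) (z w : ℂ) : (ka h z w).im = Real.pi * (z.im + w.im) / (2 * h) := by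
  have : ka h z w = ((Real.pi / (2 * h) : ℝ) : ℂ) * (z - conj w) := by
    rw [ka]; push_cast; ring
  rw [this, Complex.im_ofReal_mul, Complex.sub_im, Complex.conj_im]
  ring

theorem S1a1.im_kb_le {h : ℝ} (hh : 0 < h) {z w : ℂ} (hz : z ∈ S h) (hw : w ∈ S h) :
    |(kb h z w).im| ≤ Real.pi / 2 := by
  obtain ⟨z1, z2⟩ := hz
  obtain ⟨w1, w2⟩ := hw
  have hpi := Real.pi_pos
  have h1 : |z.im - w.im| ≤ h := by
    rw [abs_le]
    constructor <;> linarith
  rw [S1a1.kb_im, abs_div, abs_mul, abs_of_pos hpi, abs_of_pos (by positivity : 0 < 2 * h),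
    div_le_div_iff₀ (by positivity) (by norm_num)]
  nlinarith [mul_le_mul_of_nonneg_left h1 hpi.le]

theorem sinh_kb_le {h : ℝ} (hh : 0 < h) {z w : ℂ} (hz : z ∈ S h) (hw : w ∈ S h) :
    ‖Complex.sinh (kb h z w)‖ ≤ ‖Complex.sinh (ka h z w)‖ := by
  have hpi := Real.pi_pos
  have key : Real.sin (kb h z w).im ^ 2 ≤ Real.sin (ka h z w).im ^ 2 := by
    have e1 := Real.sin_sq_add_cos_sq (ka h z w).im
    have e2 := Real.sin_sq_add_cos_sq (kb h z w).im
    have e3 : Real.sin ((ka h z w).im + (kb h z w).im) * Real.sin ((ka h z w).im - (kb h z w).im) =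
        Real.sin (ka h z w).im ^ 2 - Real.sin (kb h z w).im ^ 2 := by
      rw [Real.sin_add, Real.sin_sub]
      linear_combination Real.sin (ka h z w).im ^ 2 * e2 - Real.sin (kb h z w).im ^ 2 * e1
    have e4 : (ka h z w).im + (kb h z w).im = Real.pi * (z.im / h) := by
      rw [S1a1.ka_im, S1a1.kb_im]
      field_simp
      ring
    have e5 : (ka h z w).im - (kb h z w).im = Real.pi * (w.im / h) := by
      rw [S1a1.ka_im, S1a1.kb_im]
      field_simp
      ring
    have hs : ∀ y : ℝ, 0 ≤ y → y ≤ h → 0 ≤ Real.sin (Real.pi * (y / h)) := by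
      intro y y0 y1
      apply Real.sin_nonneg_of_nonneg_of_le_pi
      · positivity
      · have : y / h ≤ 1 := (div_le_one hh).2 y1
        nlinarith
    rw [e4, e5] at e3
    have := mul_nonneg (hs z.im hz.1 hz.2) (hs w.im hw.1 hw.2)
    linarith
  have h1 := S1a1.normsq (kb h z w)
  have h2 := S1a1.normsq (ka h z w)
  have h3 : (kb h z w).re = (ka h z w).re := by rw [S1a1.kb_re, S1a1.ka_re]
  refine le_of_sq_le_sq ?_ (norm_nonneg _)
  rw [h1, h2, h3]
  linarith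

theorem le_sinh_kb {h : ℝ} (hh : 0 < h) {z w : ℂ} (hz : z ∈ S h) (hw : w ∈ S h) :
    ‖z - w‖ / h ≤ ‖Complex.sinh (kb h z w)‖ ∧
      Real.sinh (Real.pi * |z.re - w.re| / (2 * h)) ≤ ‖Complex.sinh (kb h z w)‖ := by
  have hpi := Real.pi_pos
  have hn := S1a1.normsq (kb h z w)
  constructor
  · refine le_of_sq_le_sq ?_ (norm_nonneg _)
    rw [hn]
    have e1 : (‖z - w‖ / h) ^ 2 = (2 / Real.pi) ^ 2 * ((kb h z w).re ^ 2 + (kb h z w).im ^ 2) := by
      rw [S1a1.kb_re, S1a1.kb_im, div_pow, Complex.sq_norm, Complex.normSq_apply, Complex.sub_re,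
        Complex.sub_im]
      field_simp
    have e2 : (2 / Real.pi) ^ 2 * (kb h z w).re ^ 2 ≤ Real.sinh (kb h z w).re ^ 2 := by
      have h1 : |(kb h z w).re| ≤ |Real.sinh (kb h z w).re| := by
        rw [Real.abs_sinh]
        exact Real.self_le_sinh_iff.2 (abs_nonneg _)
      have h2 : (kb h z w).re ^ 2 ≤ Real.sinh (kb h z w).re ^ 2 := sq_le_sq.2 h1
      have h3 : (2 / Real.pi) ^ 2 ≤ 1 := by
        have : 2 / Real.pi ≤ 1 := (div_le_one hpi).2 (by linarith [Real.pi_gt_three])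
        exact pow_le_one₀ (by positivity) this
      nlinarith [sq_nonneg (kb h z w).re]
    have e3 : (2 / Real.pi) ^ 2 * (kb h z w).im ^ 2 ≤ Real.sin (kb h z w).im ^ 2 := by
      have h0 := S1a1.im_kb_le hh hz hw
      have h1 : 2 / Real.pi * |(kb h z w).im| ≤ Real.sin |(kb h z w).im| :=
        Real.mul_le_sin (abs_nonneg _) h0
      have h2 : Real.sin |(kb h z w).im| ≤ |Real.sin (kb h z w).im| := by
        rcases abs_cases (kb h z w).im with ⟨h3, -⟩ | ⟨h3, -⟩
        · rw [h3]; exact le_abs_self _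
        · rw [h3, Real.sin_neg]; exact neg_le_abs _
      have h4 : |2 / Real.pi * (kb h z w).im| ≤ |Real.sin (kb h z w).im| := by
        rw [abs_mul, abs_of_pos (by positivity : 0 < 2 / Real.pi)]
        exact h1.trans h2
      rw [← mul_pow]
      exact sq_le_sq.2 h4
    rw [e1, mul_add]
    linarith
  · have e1 : Real.pi * |z.re - w.re| / (2 * h) = |(kb h z w).re| := by
      rw [S1a1.kb_re, abs_div, abs_mul, abs_of_pos hpi, abs_of_pos (by positivity : 0 < 2 * h)]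
    rw [e1, ← Real.abs_sinh]
    refine le_of_sq_le_sq ?_ (norm_nonneg _)
    rw [hn, sq_abs]
    linarith [sq_nonneg (Real.sin (kb h z w).im)]

theorem sinh_kb_ne {h : ℝ} (hh : 0 < h) {z w : ℂ} (hz : z ∈ S h) (hw : w ∈ S h) (hzw : z ≠ w) :
    Complex.sinh (kb h z w) ≠ 0 ∧ Complex.sinh (ka h z w) ≠ 0 := by
  have h1 := (le_sinh_kb hh hz hw).1
  have h2 : 0 < ‖z - w‖ := norm_pos_iff.2 (sub_ne_zero.2 hzw)
  have h3 : 0 < ‖z - w‖ / h := by positivity
  have h4 := sinh_kb_le hh hz hw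
  exact ⟨norm_pos_iff.1 (by linarith), norm_pos_iff.1 (by linarith)⟩

theorem ker_eq {h : ℝ} (hh : 0 < h) {z w : ℂ} (hz : z ∈ S h) (hw : w ∈ S h) (hzw : z ≠ w) :
    ker h z w = -Complex.I * (Real.sin (Real.pi * w.im / h) : ℂ) /
      (4 * h * (Complex.sinh (ka h z w) * Complex.sinh (kb h z w))) := by
  obtain ⟨h1, h2⟩ := sinh_kb_ne hh hz hw hzw
  have hc : (h : ℂ) ≠ 0 := Complex.ofReal_ne_zero.2 hh.ne'
  have e1 : ker h z w = (1 / (4 * h) : ℝ) * (cth (ka h z w) - cth (kb h z w)) := rfl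
  have e2 : cth (ka h z w) - cth (kb h z w) =
      Complex.sinh (kb h z w - ka h z w) / (Complex.sinh (ka h z w) * Complex.sinh (kb h z w)) := by
    rw [cth, cth, Complex.sinh_sub, div_sub_div _ _ h2 h1]
    congr 1
    ring
  have e3 : kb h z w - ka h z w = -((Real.pi * w.im / h : ℝ) : ℂ) * Complex.I := by
    rw [kb, ka]
    have h3 : conj w = w - 2 * (w.im : ℂ) * Complex.I := by
      apply Complex.ext <;> simp
      ring
    rw [h3]
    push_cast
    field_simp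
    ring
  rw [e1, e2, e3, neg_mul, Complex.sinh_neg, Complex.sinh_mul_I, Complex.ofReal_sin]
  push_cast
  field_simp

theorem ker_le_sinh {h : ℝ} (hh : 0 < h) {z w : ℂ} (hz : z ∈ S h) (hw : w ∈ S h) (hzw : z ≠ w) :
    ‖ker h z w‖ ≤ (1 / (2 * h)) / ‖Complex.sinh (kb h z w)‖ := by
  obtain ⟨h1, h2⟩ := sinh_kb_ne hh hz hw hzw
  have p1 : 0 < ‖Complex.sinh (kb h z w)‖ := norm_pos_iff.2 h1
  have p2 : 0 < ‖Complex.sinh (ka h z w)‖ := norm_pos_iff.2 h2
  have q : ∀ x : ℂ, |Real.sin x.im| ≤ ‖Complex.sinh x‖ := by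
    intro x
    refine le_of_sq_le_sq ?_ (norm_nonneg _)
    rw [S1a1.normsq, sq_abs]
    linarith [sq_nonneg (Real.sinh x.re)]
  have h3 : |Real.sin (Real.pi * w.im / h)| ≤ 2 * ‖Complex.sinh (ka h z w)‖ := by
    have e5 : Real.pi * w.im / h = (ka h z w).im - (kb h z w).im := by
      rw [S1a1.ka_im, S1a1.kb_im]
      field_simp
      ring
    rw [e5, Real.sin_sub]
    calc |Real.sin (ka h z w).im * Real.cos (kb h z w).im -
          Real.cos (ka h z w).im * Real.sin (kb h z w).im|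
        ≤ |Real.sin (ka h z w).im * Real.cos (kb h z w).im| +
          |Real.cos (ka h z w).im * Real.sin (kb h z w).im| := abs_sub _ _
      _ ≤ |Real.sin (ka h z w).im| * 1 + 1 * |Real.sin (kb h z w).im| := by
          rw [abs_mul, abs_mul]
          exact add_le_add (mul_le_mul_of_nonneg_left (Real.abs_cos_le_one _) (abs_nonneg _))
            (mul_le_mul_of_nonneg_right (Real.abs_cos_le_one _) (abs_nonneg _))
      _ ≤ 2 * ‖Complex.sinh (ka h z w)‖ := by
          have := q (ka h z w)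
          have := (q (kb h z w)).trans (sinh_kb_le hh hz hw)
          linarith
  rw [ker_eq hh hz hw hzw, norm_div, norm_mul, norm_mul, norm_mul, norm_mul, norm_neg,
    Complex.norm_I, one_mul, Complex.norm_real, Complex.norm_real, Real.norm_eq_abs,
    Real.norm_of_nonneg hh.le, Complex.norm_ofNat]
  rw [div_div, div_le_div_iff₀ (by positivity) (by positivity)]
  nlinarith [mul_le_mul_of_nonneg_left h3 (by positivity : 0 ≤ 2 * h * ‖Complex.sinh (kb h z w)‖)]

theorem ker_le_inv {h : ℝ} (hh : 0 < h) {z w : ℂ} (hz : z ∈ S h) (hw : w ∈ S h) (hzw : z ≠ w) :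
    ‖ker h z w‖ ≤ 1 / (2 * ‖z - w‖) := by
  have h2 : 0 < ‖z - w‖ := norm_pos_iff.2 (sub_ne_zero.2 hzw)
  calc ‖ker h z w‖ ≤ (1 / (2 * h)) / ‖Complex.sinh (kb h z w)‖ := ker_le_sinh hh hz hw hzw
    _ ≤ (1 / (2 * h)) / (‖z - w‖ / h) :=
        div_le_div_of_nonneg_left (by positivity) (by positivity) (le_sinh_kb hh hz hw).1
    _ = _ := by field_simp

theorem ker_le_exp {h : ℝ} (hh : 0 < h) {z w : ℂ} (hz : z ∈ S h) (hw : w ∈ S h)
    (hzw : z.re ≠ w.re) :
    ‖ker h z w‖ ≤ (1 / (2 * h)) / Real.sinh (Real.pi * |z.re - w.re| / (2 * h)) := by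
  have hpi := Real.pi_pos
  have hne : z ≠ w := fun h => hzw (by rw [h])
  have h2 : 0 < |z.re - w.re| := abs_pos.2 (sub_ne_zero.2 hzw)
  exact (ker_le_sinh hh hz hw hne).trans
    (div_le_div_of_nonneg_left (by positivity) (Real.sinh_pos_iff.2 (by positivity))
      (le_sinh_kb hh hz hw).2)

theorem S1a1.re_zero {h r : ℝ} {z w : ℂ}
    (hk : ker h z w = -Complex.I * (Real.sin (Real.pi * w.im / h) : ℂ) /
      (4 * h * (Complex.sinh (ka h z w) * Complex.sinh (kb h z w))))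
    (hr : Complex.sinh (ka h z w) * Complex.sinh (kb h z w) = (r : ℂ)) : (ker h z w).re = 0 := by
  rw [hk, hr]
  have : -Complex.I * (Real.sin (Real.pi * w.im / h) : ℂ) / (4 * h * (r : ℂ)) =
      ((Real.sin (Real.pi * w.im / h) / (4 * h * r) : ℝ) : ℂ) * (-Complex.I) := by
    push_cast
    ring
  rw [this, Complex.re_ofReal_mul]
  simp

theorem ker_re_bottom {h : ℝ} (hh : 0 < h) {z w : ℂ} (hz : z.im = 0) (hw : w ∈ S h) (hzw : z ≠ w) :
    (ker h z w).re = 0 := by
  have hzS : z ∈ S h := ⟨hz.ge, hz.le.trans hh.le⟩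
  refine S1a1.re_zero (r := Complex.normSq (Complex.sinh (kb h z w))) (ker_eq hh hzS hw hzw) ?_
  have h1 : conj z = z := Complex.conj_eq_iff_im.2 hz
  have h2 : ka h z w = conj (kb h z w) := by
    rw [ka, kb, map_div₀, map_mul, map_sub, map_mul, h1, Complex.conj_ofReal, Complex.conj_ofReal]
    congr 2
    exact (Complex.conj_ofNat 2).symm
  rw [h2, Complex.sinh_conj, Complex.normSq_eq_conj_mul_self]

theorem ker_re_top {h : ℝ} (hh : 0 < h) {z w : ℂ} (hz : z.im = h) (hw : w ∈ S h) (hzw : z ≠ w) :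
    (ker h z w).re = 0 := by
  have hc : (h : ℂ) ≠ 0 := Complex.ofReal_ne_zero.2 hh.ne'
  have hzS : z ∈ S h := ⟨hz.ge.trans' hh.le, hz.le⟩
  refine S1a1.re_zero (r := -Complex.normSq (Complex.sinh (kb h z w))) (ker_eq hh hzS hw hzw) ?_
  have h1 : conj z = z - 2 * (h : ℂ) * Complex.I := by
    rw [← hz]
    apply Complex.ext <;> simp
    ring
  have h2 : ka h z w = conj (kb h z w) + Real.pi * Complex.I := by
    have h3 : conj (kb h z w) = Real.pi * (conj z - conj w) / (2 * h) := by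
      rw [kb, map_div₀, map_mul, map_sub, map_mul, Complex.conj_ofReal, Complex.conj_ofReal]
      congr 2
      exact Complex.conj_ofNat 2
    rw [h3, h1, ka]
    field_simp
    ring
  rw [h2, Complex.sinh_add, Complex.sinh_mul_I, Complex.cosh_mul_I, Complex.sin_pi,
    Complex.cos_pi, Complex.sinh_conj]
  push_cast
  rw [Complex.normSq_eq_conj_mul_self]
  ring

end Pool.Agent.EAC
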