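import Pool.Agent.EAC.S1a

/-!
# EAC-S1b: integrability of the kernel, dominating function

`ker_int`: split `|Re(z-w)| ≤ h` (use `ker_le_inv` and `int_inv_norm` on `closedBall z (2h)`) and `|Re(z-w)| > h` (use
`ker_le_exp`, `sinh x ≥ e^x/4` for `x ≥ 1`; Fubini: the section in `Im w` has length `h`).
`ker_dom`: a dominating function for `z` in a small ball: used for continuity in `z`: for `‖z - z₀‖ ≤ h/4`... Instead: `W_cont` is proved by
translating: see S2.
`ker_hasDerivAt`: `d/dz coth = -1/sinh²`; `‖∂_z ker‖ ≤ π/(8h²) (1/‖sinh a‖² + 1/‖sinh b‖²) ≤ (π/(4h²))/‖sinh b‖²`.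

THIS FILE: ker_hasDerivAt.
-/

set_option autoImplicit false

noncomputable section

namespace Pool.Agent.EAC


open MeasureTheory Set Filter Topology Metric
open scoped ENNReal ComplexConjugate

theorem ker_hasDerivAt {h : ℝ} (hh : 0 < h) {z w : ℂ} (hb : Complex.sinh (kb h z w) ≠ 0)
    (ha : Complex.sinh (ka h z w) ≠ 0) :
    ∃ d, HasDerivAt (fun z => ker h z w) d z ∧
      ‖d‖ ≤ Real.pi / (8 * h ^ 2) * (1 / ‖Complex.sinh (ka h z w)‖ ^ 2 + 1 / ‖Complex.sinh (kb h z w)‖ ^ 2) := by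
  have key : ∀ c : ℂ, Complex.sinh (Real.pi * (z - c) / (2 * h)) ≠ 0 →
      HasDerivAt (fun z : ℂ => cth (Real.pi * (z - c) / (2 * h)))
        (-(Real.pi / (2 * h)) / Complex.sinh (Real.pi * (z - c) / (2 * h)) ^ 2) z := by
    intro c hc
    have h1 : HasDerivAt (fun z : ℂ => (Real.pi : ℂ) * (z - c) / (2 * h))
        ((Real.pi : ℂ) * 1 / (2 * h)) z :=
      (((hasDerivAt_id z).sub_const c).const_mul (Real.pi : ℂ)).div_const (2 * h : ℂ)
    have h2 := h1.ccosh
    have h3 := h1.csinh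
    have h4 := h2.div h3 hc
    refine h4.congr_deriv ?_
    have hsq := Complex.cosh_sq_sub_sinh_sq ((Real.pi : ℂ) * (z - c) / (2 * h))
    have hsq' : Complex.sinh ((Real.pi : ℂ) * (z - c) / (2 * h)) ^ 2
        - Complex.cosh ((Real.pi : ℂ) * (z - c) / (2 * h)) ^ 2 = -1 := by
      linear_combination -hsq
    congr 1
    linear_combination ((Real.pi : ℂ) / (2 * h)) * hsq'
  have e1 := key (conj w) ha
  have e2 := key w hb
  have e3 := (e1.sub e2).const_mul (((1 / (4 * h) : ℝ)) : ℂ)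
  refine ⟨_, e3, ?_⟩
  have hpi := Real.pi_pos
  have hnorm : ∀ c : ℂ, ‖-((Real.pi : ℂ) / (2 * h)) / Complex.sinh (Real.pi * (z - c) / (2 * h)) ^ 2‖
      = Real.pi / (2 * h) * (1 / ‖Complex.sinh (Real.pi * (z - c) / (2 * h))‖ ^ 2) := by
    intro c
    rw [norm_div, norm_neg, norm_div, norm_mul, norm_pow, Complex.norm_real, Complex.norm_real,
      Complex.norm_ofNat, Real.norm_of_nonneg hpi.le, Real.norm_of_nonneg hh.le]
    ring
  rw [norm_mul, Complex.norm_real, Real.norm_of_nonneg (by positivity)]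
  refine (mul_le_mul_of_nonneg_left (norm_sub_le _ _) (by positivity)).trans ?_
  rw [hnorm, hnorm]
  unfold ka kb
  apply le_of_eq
  field_simp
  ring

end Pool.Agent.EAC
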