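import Pool.Agent.EAC.S1a
import Pool.Agent.EAC.GB

/-!
# EAC-S1b: integrability of the kernel, dominating function

`ker_int`: split `|Re(z-w)| ≤ h` (use `ker_le_inv` and `int_inv_norm` on `closedBall z (2h)`) and `|Re(z-w)| > h` (use
`ker_le_exp`, `sinh x ≥ e^x/4` for `x ≥ 1`; Fubini: the section in `Im w` has length `h`).
`ker_dom`: a dominating function for `z` in a small ball: used for continuity in `z`: for `‖z - z₀‖ ≤ h/4`... Instead: `W_cont` is proved by
translating: see S2.
`ker_hasDerivAt`: `d/dz coth = -1/sinh²`; `‖∂_z ker‖ ≤ π/(8h²) (1/‖sinh a‖² + 1/‖sinh b‖²) ≤ (π/(4h²))/‖sinh b‖²`.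

THIS FILE: ker_int, ker_tail.
-/

set_option autoImplicit false

noncomputable section

namespace Pool.Agent.EAC


open MeasureTheory Set Filter Topology Metric
open scoped ENNReal ComplexConjugate

theorem S_meas (h : ℝ) : MeasurableSet (S h) := by
  have : S h = Complex.im ⁻¹' (Icc 0 h) := by
    ext w; simp [S]
  rw [this]
  exact Complex.measurable_im measurableSet_Icc

/-- a function of the real part on the strip -/
theorem strip_int {φ : ℝ → ℝ} (hφ : Integrable φ) {h : ℝ} (hh : 0 < h) :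
    IntegrableOn (fun w : ℂ => φ w.re) (S h) ∧ ∫ w in S h, φ w.re = h * ∫ x, φ x := by
  have hS : Complex.measurableEquivRealProd ⁻¹' (univ ×ˢ Icc (0 : ℝ) h) = S h := by
    ext w
    simp [S, Complex.measurableEquivRealProd]
  have hemb := Complex.measurableEquivRealProd.measurableEmbedding
  have h1 : IntegrableOn (fun _ : ℝ => (1 : ℝ)) (Icc 0 h) :=
    integrableOn_const (by rw [Real.volume_Icc]; exact ENNReal.ofReal_ne_top)
  have h3 := Integrable.mul_prod (integrableOn_univ.2 hφ) h1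
  rw [Measure.prod_restrict] at h3
  have h4 := (Complex.volume_preserving_equiv_real_prod.integrableOn_comp_preimage hemb).2 h3
  rw [hS] at h4
  have h5 := Complex.volume_preserving_equiv_real_prod.setIntegral_preimage_emb hemb
    (fun p : ℝ × ℝ => φ p.1 * 1) (univ ×ˢ Icc (0 : ℝ) h)
  have h6 := setIntegral_prod_mul (μ := (volume : Measure ℝ)) (ν := (volume : Measure ℝ)) φ
    (fun _ => (1 : ℝ)) univ (Icc 0 h)
  rw [hS, Measure.volume_eq_prod, h6, setIntegral_univ] at h5
  constructor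
  · refine h4.congr (Eventually.of_forall fun w => ?_)
    change φ w.re * 1 = φ w.re
    rw [mul_one]
  · calc ∫ w in S h, φ w.re = ∫ w in S h, φ (Complex.measurableEquivRealProd w).1 * 1 := by
          congr 1; funext w; rw [mul_one]; rfl
      _ = _ := by
          rw [h5, setIntegral_const, Real.volume_real_Icc_of_le hh.le, sub_zero, smul_eq_mul,
            mul_one, mul_comm]

/-- `e^{-|x-X|/h}` on the line -/
theorem exp_int {h : ℝ} (hh : 0 < h) (X : ℝ) :
    Integrable (fun x : ℝ => Real.exp (-|x - X| / h)) := by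
  have h0 : Integrable (fun x : ℝ => Real.exp (-|x| / h)) := by
    rw [← integrableOn_univ, ← Iic_union_Ioi (a := (0 : ℝ)), integrableOn_union]
    constructor
    · refine (integrableOn_exp_mul_Iic (a := 1 / h) (by positivity) 0).congr_fun ?_
        measurableSet_Iic
      intro x hx
      have : x ≤ 0 := hx
      change Real.exp (1 / h * x) = Real.exp (-|x| / h)
      rw [abs_of_nonpos this]
      congr 1
      ring
    · refine (integrableOn_exp_mul_Ioi (a := -(1 / h)) (by
        have : 0 < 1 / h := by positivity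
        linarith) 0).congr_fun ?_ measurableSet_Ioi
      intro x hx
      have : 0 < x := hx
      change Real.exp (-(1 / h) * x) = Real.exp (-|x| / h)
      rw [abs_of_pos this]
      congr 1
      ring
  exact h0.comp_sub_right X

theorem exp_tail {h : ℝ} (hh : 0 < h) {A : ℝ} (hA : 0 ≤ A) (X : ℝ) :
    ∫ x, {x : ℝ | A ≤ |x - X|}.indicator (fun x : ℝ => Real.exp (-|x - X| / h)) x =
      2 * h * Real.exp (-A / h) := by
  set f : ℝ → ℝ := (Ici A).indicator (fun x : ℝ => Real.exp (-x / h)) with hf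
  have e1 : (fun x : ℝ => {x : ℝ | A ≤ |x - X|}.indicator
      (fun x : ℝ => Real.exp (-|x - X| / h)) x) = fun x => f |x - X| := by
    funext x
    by_cases hx : A ≤ |x - X|
    · rw [indicator_of_mem (show x ∈ {x : ℝ | A ≤ |x - X|} from hx), hf,
        indicator_of_mem (show |x - X| ∈ Ici A from hx)]
    · rw [indicator_of_notMem (show x ∉ {x : ℝ | A ≤ |x - X|} from hx), hf,
        indicator_of_notMem (show |x - X| ∉ Ici A from hx)]
  rw [e1]
  have e2 : ∫ x, f |x - X| = ∫ x, f |x| := integral_sub_right_eq_self (fun x => f |x|) X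
  rw [e2, integral_comp_abs, hf, setIntegral_indicator measurableSet_Ici]
  have e3 : ∫ x in Ioi 0 ∩ Ici A, Real.exp (-x / h) = ∫ x in Ioi A, Real.exp (-x / h) := by
    apply setIntegral_congr_set
    rcases hA.lt_or_eq with hA | hA
    · have : Ioi (0 : ℝ) ∩ Ici A = Ici A := by
        ext x
        simp only [mem_inter_iff, mem_Ioi, mem_Ici, and_iff_right_iff_imp]
        intro hx; linarith
      rw [this]
      exact Ioi_ae_eq_Ici.symm
    · have : Ioi (0 : ℝ) ∩ Ici A = Ioi A := by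
        rw [← hA]
        ext x
        simp only [mem_inter_iff, mem_Ioi, mem_Ici, and_iff_left_iff_imp]
        intro hx; exact hx.le
      rw [this]
  rw [e3]
  have e4 : (fun x : ℝ => Real.exp (-x / h)) = fun x => Real.exp (-(1 / h) * x) := by
    funext x; congr 1; ring
  rw [e4, integral_exp_mul_Ioi (by
    have : 0 < 1 / h := by positivity
    linarith)]
  have e5 : -(1 / h) * A = -A / h := by ring
  rw [e5]
  field_simp

theorem sinh_ge_exp {t : ℝ} (ht : 1 ≤ t) : Real.exp t / 4 ≤ Real.sinh t := by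
  rw [Real.sinh_eq]
  have h1 : Real.exp (-t) ≤ 1 := Real.exp_le_one_iff.2 (by linarith)
  have h2 : 2 ≤ Real.exp t := by
    have := Real.add_one_le_exp t
    linarith
  linarith

theorem ker_meas' (h : ℝ) (z : ℂ) : Measurable (fun w => ker h z w) := by
  have h1 := ker_measurable h
  have h2 : Measurable (fun w : ℂ => ((z, w) : ℂ × ℂ)) := measurable_const.prodMk measurable_id
  have h3 := h1.comp h2
  exact h3

/-- exponential bound of the kernel at horizontal distance at least `h` -/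
theorem ker_le_exp' {h : ℝ} (hh : 0 < h) {z w : ℂ} (hz : z ∈ S h) (hw : w ∈ S h)
    (hd : h ≤ |w.re - z.re|) : ‖ker h z w‖ ≤ 2 / h * Real.exp (-|w.re - z.re| / h) := by
  have hpi := Real.pi_gt_three
  rw [abs_sub_comm] at hd ⊢
  have hx : 0 < |z.re - w.re| := by linarith
  have hne : z.re ≠ w.re := by
    intro e
    rw [e, sub_self, abs_zero] at hx
    exact lt_irrefl _ hx
  have h1 := ker_le_exp hh hz hw hne
  have h2 : |z.re - w.re| / h ≤ Real.pi * |z.re - w.re| / (2 * h) := by
    rw [div_le_div_iff₀ hh (by positivity)]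
    nlinarith [mul_pos hx hh]
  have h3 : 1 ≤ |z.re - w.re| / h := by
    rw [le_div_iff₀ hh]; linarith
  have h4 := sinh_ge_exp (h3.trans h2)
  have h5 : Real.exp (|z.re - w.re| / h) ≤ Real.exp (Real.pi * |z.re - w.re| / (2 * h)) :=
    Real.exp_le_exp.2 h2
  have h6 : 0 < Real.exp (|z.re - w.re| / h) := Real.exp_pos _
  have h7 : Real.exp (|z.re - w.re| / h) / 4 ≤
      Real.sinh (Real.pi * |z.re - w.re| / (2 * h)) := by linarith
  calc ‖ker h z w‖ ≤ (1 / (2 * h)) / Real.sinh (Real.pi * |z.re - w.re| / (2 * h)) := h1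
    _ ≤ (1 / (2 * h)) / (Real.exp (|z.re - w.re| / h) / 4) := by
        apply div_le_div_of_nonneg_left (by positivity) (by positivity) h7
    _ = 2 / h * Real.exp (-|z.re - w.re| / h) := by
        rw [neg_div, Real.exp_neg]
        field_simp
        norm_num

theorem far_set_meas (A X : ℝ) : MeasurableSet {w : ℂ | A ≤ |w.re - X|} := by
  have : Measurable fun w : ℂ => |w.re - X| := (Complex.measurable_re.sub_const X).abs
  exact measurableSet_le measurable_const this

/-- integrability and bound on the far part -/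
theorem ker_far {h : ℝ} (hh : 0 < h) {A : ℝ} (hA : h ≤ A) {z : ℂ} (hz : z ∈ S h) :
    IntegrableOn (fun w => ker h z w) (S h ∩ {w | A ≤ |w.re - z.re|}) ∧
      ∫ w in S h ∩ {w | A ≤ |w.re - z.re|}, ‖ker h z w‖ ≤ 4 * h * Real.exp (-A / h) := by
  have hA0 : 0 ≤ A := hh.le.trans hA
  set φ : ℝ → ℝ := {x : ℝ | A ≤ |x - z.re|}.indicator
    (fun x : ℝ => Real.exp (-|x - z.re| / h)) with hφ
  have hm : MeasurableSet {x : ℝ | A ≤ |x - z.re|} :=
    measurableSet_le measurable_const (measurable_id.sub_const _).abs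
  have hφi : Integrable φ := (exp_int hh z.re).indicator hm
  obtain ⟨i1, i2⟩ := strip_int hφi hh
  have hP := far_set_meas A z.re
  have hT : MeasurableSet (S h ∩ {w : ℂ | A ≤ |w.re - z.re|}) := (S_meas h).inter hP
  have hφe : ∀ w ∈ S h ∩ {w : ℂ | A ≤ |w.re - z.re|},
      φ w.re = Real.exp (-|w.re - z.re| / h) := by
    rintro w ⟨-, hw⟩
    exact indicator_of_mem (show w.re ∈ {x : ℝ | A ≤ |x - z.re|} from hw) _
  have hbd : ∀ w ∈ S h ∩ {w : ℂ | A ≤ |w.re - z.re|}, ‖ker h z w‖ ≤ 2 / h * φ w.re := by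
    intro w hw
    rw [hφe w hw]
    exact ker_le_exp' hh hz hw.1 (hA.trans hw.2)
  have hi : IntegrableOn (fun w : ℂ => 2 / h * φ w.re) (S h ∩ {w | A ≤ |w.re - z.re|}) :=
    (i1.mono_set inter_subset_left).const_mul _
  have hk : IntegrableOn (fun w => ker h z w) (S h ∩ {w | A ≤ |w.re - z.re|}) :=
    Integrable.mono' hi (ker_meas' h z).aestronglyMeasurable
      ((ae_restrict_iff' hT).2 (Eventually.of_forall hbd))
  refine ⟨hk, ?_⟩
  have hφnn : ∀ x, 0 ≤ φ x := fun x => indicator_nonneg (fun _ _ => (Real.exp_pos _).le) x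
  calc ∫ w in S h ∩ {w | A ≤ |w.re - z.re|}, ‖ker h z w‖
      ≤ ∫ w in S h ∩ {w | A ≤ |w.re - z.re|}, 2 / h * φ w.re :=
        setIntegral_mono_on hk.norm hi hT hbd
    _ ≤ ∫ w in S h, 2 / h * φ w.re :=
        setIntegral_mono_set (i1.const_mul _)
          (Eventually.of_forall fun w => mul_nonneg (by positivity) (hφnn _))
          (Eventually.of_forall (fun w hw => hw.1))
    _ = 4 * h * Real.exp (-A / h) := by
        rw [integral_const_mul, i2, hφ, exp_tail hh hA0]
        field_simp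
        norm_num

/-- integrability and bound on the near part -/
theorem ker_near {h : ℝ} (hh : 0 < h) {z : ℂ} (hz : z ∈ S h) :
    IntegrableOn (fun w => ker h z w) (S h ∩ {w | h ≤ |w.re - z.re|}ᶜ) ∧
      ∫ w in S h ∩ {w | h ≤ |w.re - z.re|}ᶜ, ‖ker h z w‖ ≤ 6 * Real.pi * h := by
  have hT : MeasurableSet (S h ∩ {w : ℂ | h ≤ |w.re - z.re|}ᶜ) :=
    (S_meas h).inter (far_set_meas h z.re).compl
  obtain ⟨j1, j2⟩ := int_inv_norm (R := 2 * h) (by positivity) z z
  have hsub : S h ∩ {w : ℂ | h ≤ |w.re - z.re|}ᶜ ⊆ closedBall z (2 * h) := by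
    rintro w ⟨hw, hw2⟩
    have hw2 : |w.re - z.re| < h := not_le.1 hw2
    rw [mem_closedBall, dist_eq_norm]
    have h1 := Complex.norm_le_abs_re_add_abs_im (w - z)
    rw [Complex.sub_re, Complex.sub_im] at h1
    have h2 : |w.im - z.im| ≤ h := by
      rw [abs_le]
      have := hw.1
      have := hw.2
      have := hz.1
      have := hz.2
      constructor <;> linarith
    linarith
  have hae : ∀ᵐ w : ℂ, w ≠ z := by
    have := (Set.countable_singleton z).ae_notMem volume
    filter_upwards [this] with w hw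
    simpa using hw
  have hbd : ∀ᵐ w ∂(volume.restrict (S h ∩ {w : ℂ | h ≤ |w.re - z.re|}ᶜ)),
      ‖ker h z w‖ ≤ 1 / 2 * ‖w - z‖⁻¹ := by
    refine (ae_restrict_iff' hT).2 ?_
    filter_upwards [hae] with w hw hwT
    have := ker_le_inv hh hz hwT.1 (Ne.symm hw)
    rw [norm_sub_rev] at this
    rw [one_div, mul_inv] at this
    rw [one_div]
    exact this
  have hi : IntegrableOn (fun w : ℂ => 1 / 2 * ‖w - z‖⁻¹)
      (S h ∩ {w | h ≤ |w.re - z.re|}ᶜ) := (j1.mono_set hsub).const_mul _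
  have hk : IntegrableOn (fun w => ker h z w) (S h ∩ {w | h ≤ |w.re - z.re|}ᶜ) :=
    Integrable.mono' hi (ker_meas' h z).aestronglyMeasurable hbd
  refine ⟨hk, ?_⟩
  calc ∫ w in S h ∩ {w | h ≤ |w.re - z.re|}ᶜ, ‖ker h z w‖
      ≤ ∫ w in S h ∩ {w | h ≤ |w.re - z.re|}ᶜ, 1 / 2 * ‖w - z‖⁻¹ :=
        integral_mono_ae hk.norm hi hbd
    _ ≤ ∫ w in closedBall z (2 * h), 1 / 2 * ‖w - z‖⁻¹ :=
        setIntegral_mono_set (j1.const_mul _)
          (Eventually.of_forall fun w => by positivity) (Eventually.of_forall hsub)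
    _ = 1 / 2 * ∫ w in closedBall z (2 * h), ‖w - z‖⁻¹ := integral_const_mul _ _
    _ ≤ 1 / 2 * (6 * Real.pi * (2 * h)) := by gcongr
    _ = 6 * Real.pi * h := by ring

theorem ker_int : ∃ C > 0, ∀ h : ℝ, 0 < h → ∀ z ∈ S h,
    IntegrableOn (fun w => ker h z w) (S h) ∧ ∫ w in S h, ‖ker h z w‖ ≤ C * h := by
  refine ⟨6 * Real.pi + 4, by positivity, fun h hh z hz => ?_⟩
  obtain ⟨f1, f2⟩ := ker_far hh le_rfl hz
  obtain ⟨n1, n2⟩ := ker_near hh hz
  have hU : S h = (S h ∩ {w : ℂ | h ≤ |w.re - z.re|}) ∪ (S h ∩ {w | h ≤ |w.re - z.re|}ᶜ) := by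
    rw [← inter_union_distrib_left, union_compl_self, inter_univ]
  have hI : IntegrableOn (fun w => ker h z w) (S h) := by
    rw [hU]
    exact f1.union n1
  refine ⟨hI, ?_⟩
  have h1 := integral_inter_add_sdiff (μ := volume) (s := S h) (far_set_meas h z.re)
    (f := fun w => ‖ker h z w‖) hI.norm
  rw [sdiff_eq] at h1
  rw [← h1]
  have h2 : Real.exp (-h / h) ≤ 1 := Real.exp_le_one_iff.2 (by
    rw [neg_div, div_self hh.ne']; norm_num)
  have h3 : 4 * h * Real.exp (-h / h) ≤ 4 * h := by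
    have := mul_le_mul_of_nonneg_left h2 (by positivity : (0 : ℝ) ≤ 4 * h)
    linarith
  linarith

/-- tail of the kernel: `∫_{|Re w - Re z| ≥ A} ‖ker‖ ≤ C h e^{-A/h}`. -/
theorem ker_tail : ∃ C > 0, ∀ h : ℝ, 0 < h → ∀ A, h ≤ A → ∀ z ∈ S h,
    ∫ w in S h ∩ {w | A ≤ |w.re - z.re|}, ‖ker h z w‖ ≤ C * h * Real.exp (-A / h) :=
  ⟨4, by norm_num, fun _ hh _ hA _ hz => (ker_far hh hA hz).2⟩

end Pool.Agent.EAC
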