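import Pool.Agent.EAC.S2a

/-!
# EAC-S2: elementary properties of `W h f`

THIS FILE: W_cont, W_time.  Truncated kernel + dominated convergence + uniform limit.
-/

set_option autoImplicit false

noncomputable section

namespace Pool.Agent.EAC


open MeasureTheory Set Filter Topology Metric
open scoped ENNReal ComplexConjugate

namespace S2b

theorem measurableSet_S (h : ℝ) : MeasurableSet (S h) := by
  have h1 : MeasurableSet {z : ℂ | 0 ≤ z.im} := measurableSet_le measurable_const Complex.measurable_im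
  have h2 : MeasurableSet {z : ℂ | z.im ≤ h} := measurableSet_le Complex.measurable_im measurable_const
  exact h1.inter h2

theorem ae_mem_U (h : ℝ) : ∀ᵐ w ∂(volume.restrict (S h)), w ∈ U h := by
  have h0 : ∀ᵐ w : ℂ ∂volume, w ∉ S h \ U h := measure_eq_zero_iff_ae_notMem.mp (vol_S_diff_U h)
  have h1 : ∀ᵐ w ∂(volume.restrict (S h)), w ∉ S h \ U h := ae_restrict_of_ae h0
  filter_upwards [h1, ae_restrict_mem (measurableSet_S h)] with w hw hwS
  by_contra hwU
  exact hw ⟨hwS, hwU⟩

theorem dom_int (h x0 : ℝ) : IntegrableOn (fun w : ℂ => (1 + (w.re - x0) ^ 2)⁻¹) (S h) := by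
  have hmp := Complex.volume_preserving_equiv_real_prod
  have hemb := Complex.measurableEquivRealProd.measurableEmbedding
  have key : IntegrableOn (fun p : ℝ × ℝ => (1 + (p.1 - x0) ^ 2)⁻¹) (univ ×ˢ Icc 0 h) := by
    have hf : Integrable (fun x : ℝ => (1 + (x - x0) ^ 2)⁻¹) (volume.restrict univ) := by
      rw [Measure.restrict_univ]
      exact integrable_inv_one_add_sq.comp_sub_right x0
    have hg : Integrable (fun _ : ℝ => (1 : ℝ)) (volume.restrict (Icc 0 h)) := by
      exact (integrableOn_const (C := (1 : ℝ)) (by simp) (by simp) : IntegrableOn _ (Icc 0 h))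
    have hfg := hf.mul_prod hg
    rw [Measure.prod_restrict] at hfg
    have he : (fun z : ℝ × ℝ => (1 + (z.1 - x0) ^ 2)⁻¹ * (1 : ℝ)) =
        (fun p : ℝ × ℝ => (1 + (p.1 - x0) ^ 2)⁻¹) := by
      funext z
      rw [mul_one]
    rw [he] at hfg
    exact hfg
  have h2 := (hmp.integrableOn_comp_preimage hemb).mpr key
  have hpre : (Complex.measurableEquivRealProd ⁻¹' (univ ×ˢ Icc 0 h)) = S h := by
    ext w
    simp [S, Complex.measurableEquivRealProd_apply]
  rw [hpre] at h2
  exact h2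

theorem sq_div_four_le_sinh {u : ℝ} (hu : 0 ≤ u) : u ^ 2 / 4 ≤ Real.sinh u := by
  rw [Real.sinh_eq]
  have h1 := Real.quadratic_le_exp_of_nonneg hu
  have h2 : Real.exp (-u) ≤ 1 := Real.exp_le_one_iff.mpr (by linarith)
  linarith

theorem ker_le_sq {h : ℝ} (hh : 0 < h) {z w : ℂ} (hz : z ∈ S h) (hw : w ∈ S h)
    (hzw : z.re ≠ w.re) : ‖ker h z w‖ ≤ h / |z.re - w.re| ^ 2 := by
  have hX : 0 < |z.re - w.re| := abs_pos.mpr (sub_ne_zero.mpr hzw)
  have h1 := ker_le_exp hh hz hw hzw
  refine h1.trans ?_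
  set X := |z.re - w.re| with hXdef
  have hu : 0 < Real.pi * X / (2 * h) := by positivity
  have h2 := sq_div_four_le_sinh hu.le
  have hpi : (9 : ℝ) ≤ Real.pi ^ 2 := by nlinarith [Real.pi_gt_three]
  have hpos : 0 < (Real.pi * X / (2 * h)) ^ 2 / 4 := by positivity
  calc (1 / (2 * h)) / Real.sinh (Real.pi * X / (2 * h))
      ≤ (1 / (2 * h)) / ((Real.pi * X / (2 * h)) ^ 2 / 4) := by
        apply div_le_div_of_nonneg_left _ hpos h2
        positivity
    _ = (8 / Real.pi ^ 2) * (h / X ^ 2) := by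
        field_simp
        ring
    _ ≤ 1 * (h / X ^ 2) := by
        apply mul_le_mul_of_nonneg_right _ (by positivity)
        rw [div_le_one (by positivity)]
        linarith
    _ = h / X ^ 2 := one_mul _

/-- cut-off -/
def chi (δ r : ℝ) : ℝ := min 1 (max 0 (r / δ - 1))

theorem chi_nonneg (δ r : ℝ) : 0 ≤ chi δ r := le_min zero_le_one (le_max_left _ _)

theorem chi_le_one (δ r : ℝ) : chi δ r ≤ 1 := min_le_left _ _

theorem chi_zero {δ r : ℝ} (hδ : 0 < δ) (hr : r ≤ δ) : chi δ r = 0 := by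
  have h1 : r / δ - 1 ≤ 0 := by
    have : r / δ ≤ 1 := (div_le_one hδ).mpr hr
    linarith
  unfold chi
  rw [max_eq_left h1]
  exact min_eq_right zero_le_one

theorem chi_one {δ r : ℝ} (hδ : 0 < δ) (hr : 2 * δ ≤ r) : chi δ r = 1 := by
  have h1 : 1 ≤ r / δ - 1 := by
    have : 2 ≤ r / δ := (le_div_iff₀ hδ).mpr hr
    linarith
  unfold chi
  rw [max_eq_right (by linarith)]
  exact min_eq_left h1

theorem chi_cont (δ : ℝ) : Continuous (chi δ) := by
  unfold chi
  fun_prop

/-- truncated kernel -/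
def kerd (h δ : ℝ) (z w : ℂ) : ℂ := (chi δ ‖z - w‖ : ℂ) * ker h z w

theorem kerd_norm (h δ : ℝ) (z w : ℂ) : ‖kerd h δ z w‖ = chi δ ‖z - w‖ * ‖ker h z w‖ := by
  unfold kerd
  rw [norm_mul, Complex.norm_real, Real.norm_of_nonneg (chi_nonneg _ _)]

theorem kerd_bound {h δ : ℝ} (hh : 0 < h) (hδ : 0 < δ) {z z0 w : ℂ} (hz : z ∈ S h) (hw : w ∈ S h)
    (hz0 : ‖z - z0‖ ≤ 1) :
    ‖kerd h δ z w‖ ≤ (5 / (2 * δ) + 8 * h) * (1 + (w.re - z0.re) ^ 2)⁻¹ := by
  rw [kerd_norm]
  have hpos : 0 < 1 + (w.re - z0.re) ^ 2 := by positivity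
  rcases le_or_gt |w.re - z0.re| 2 with hR | hR
  · rcases le_or_gt ‖z - w‖ δ with hd | hd
    · rw [chi_zero hδ hd, zero_mul]
      positivity
    · have hne : z ≠ w := by
        intro he
        rw [he, sub_self, norm_zero] at hd
        linarith
      have h1 := ker_le_inv hh hz hw hne
      have h2 : 1 / (2 * ‖z - w‖) ≤ 1 / (2 * δ) := by
        apply one_div_le_one_div_of_le (by positivity)
        linarith
      have h3 : (w.re - z0.re) ^ 2 ≤ 4 := by
        rw [← sq_abs]
        nlinarith [abs_nonneg (w.re - z0.re)]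
      calc chi δ ‖z - w‖ * ‖ker h z w‖ ≤ 1 * (1 / (2 * δ)) := by
            apply mul_le_mul (chi_le_one _ _) (h1.trans h2) (norm_nonneg _) zero_le_one
        _ = (5 / (2 * δ)) * (1 / 5) := by ring
        _ ≤ (5 / (2 * δ) + 8 * h) * (1 + (w.re - z0.re) ^ 2)⁻¹ := by
            apply mul_le_mul _ _ (by norm_num) (by positivity)
            · linarith
            · rw [one_div]
              apply inv_anti₀ hpos
              linarith
  · have hre : |z.re - z0.re| ≤ 1 := by
      have h4 := Complex.abs_re_le_norm (z - z0)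
      rw [Complex.sub_re] at h4
      exact h4.trans hz0
    have hX : |w.re - z0.re| / 2 ≤ |z.re - w.re| := by
      have h5 : |w.re - z0.re| ≤ |z.re - w.re| + |z.re - z0.re| := by
        have h6 : w.re - z0.re = -(z.re - w.re) + (z.re - z0.re) := by ring
        rw [h6]
        refine (abs_add_le _ _).trans ?_
        rw [abs_neg]
      linarith
    have hXpos : 0 < |z.re - w.re| := by linarith
    have hne : z.re ≠ w.re := by
      intro he
      rw [he, sub_self, abs_zero] at hXpos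
      exact lt_irrefl _ hXpos
    have h1 := ker_le_sq hh hz hw hne
    have hRsq : 1 ≤ (w.re - z0.re) ^ 2 := by
      rw [← sq_abs]
      nlinarith [abs_nonneg (w.re - z0.re)]
    have h7 : (w.re - z0.re) ^ 2 / 4 ≤ |z.re - w.re| ^ 2 := by
      rw [← sq_abs (w.re - z0.re)]
      nlinarith [abs_nonneg (w.re - z0.re)]
    calc chi δ ‖z - w‖ * ‖ker h z w‖ ≤ 1 * (h / |z.re - w.re| ^ 2) := by
          apply mul_le_mul (chi_le_one _ _) h1 (norm_nonneg _) zero_le_one
      _ = h / |z.re - w.re| ^ 2 := one_mul _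
      _ ≤ h / ((w.re - z0.re) ^ 2 / 4) := by
          apply div_le_div_of_nonneg_left hh.le (by positivity) h7
      _ = 4 * h * ((w.re - z0.re) ^ 2)⁻¹ := by
          have : (w.re - z0.re) ^ 2 ≠ 0 := by positivity
          field_simp
      _ ≤ 4 * h * (2 * (1 + (w.re - z0.re) ^ 2)⁻¹) := by
          apply mul_le_mul_of_nonneg_left _ (by positivity)
          have h8 : (2 : ℝ) * (1 + (w.re - z0.re) ^ 2)⁻¹ = ((1 + (w.re - z0.re) ^ 2) / 2)⁻¹ := by
            rw [inv_div]
            ring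
          rw [h8]
          apply inv_anti₀ (by positivity)
          linarith
      _ = (8 * h) * (1 + (w.re - z0.re) ^ 2)⁻¹ := by ring
      _ ≤ (5 / (2 * δ) + 8 * h) * (1 + (w.re - z0.re) ^ 2)⁻¹ := by
          apply mul_le_mul_of_nonneg_right _ (by positivity)
          have : 0 ≤ 5 / (2 * δ) := by positivity
          linarith

theorem kerd_measurable (h δ : ℝ) (z : ℂ) : Measurable (kerd h δ z) := by
  have h0 : Measurable (fun w : ℂ => (z, w)) := measurable_const.prodMk measurable_id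
  have h1 : Measurable (fun w : ℂ => ker h z w) :=
    Measurable.comp (g := fun p : ℂ × ℂ => ker h p.1 p.2) (f := fun w : ℂ => (z, w))
      (ker_measurable h) h0
  have h2 : Measurable (fun w : ℂ => ((chi δ ‖z - w‖ : ℝ) : ℂ)) := by
    have hc : Continuous (fun w : ℂ => ((chi δ ‖z - w‖ : ℝ) : ℂ)) := by
      have := chi_cont δ
      fun_prop
    exact hc.measurable
  exact h2.mul h1

theorem ker_contAt {h : ℝ} (hh : 0 < h) {z w : ℂ} (hz : z ∈ S h) (hw : w ∈ S h) (hzw : z ≠ w) :
    ContinuousAt (fun z => ker h z w) z := by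
  obtain ⟨hb, ha⟩ := sinh_kb_ne hh hz hw hzw
  unfold kb at hb
  unfold ka at ha
  unfold ker cth
  have c1 : ContinuousAt (fun z : ℂ => (Real.pi * (z - conj w) / (2 * h) : ℂ)) z := by
    apply Continuous.continuousAt
    fun_prop
  have c2 : ContinuousAt (fun z : ℂ => (Real.pi * (z - w) / (2 * h) : ℂ)) z := by
    apply Continuous.continuousAt
    fun_prop
  apply ContinuousAt.mul continuousAt_const
  apply ContinuousAt.sub
  · apply ContinuousAt.div
    · exact Complex.continuous_cosh.continuousAt.comp c1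
    · exact Complex.continuous_sinh.continuousAt.comp c1
    · exact ha
  · apply ContinuousAt.div
    · exact Complex.continuous_cosh.continuousAt.comp c2
    · exact Complex.continuous_sinh.continuousAt.comp c2
    · exact hb

theorem kerd_contAt {h δ : ℝ} (hh : 0 < h) (hδ : 0 < δ) {z w : ℂ} (hz : z ∈ S h) (hw : w ∈ S h) :
    ContinuousAt (fun z => kerd h δ z w) z := by
  have hc : Continuous (fun z : ℂ => ((chi δ ‖z - w‖ : ℝ) : ℂ)) := by
    have := chi_cont δ
    fun_prop
  rcases lt_or_ge ‖z - w‖ δ with hd | hd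
  · have hev : (fun _ : ℂ => (0 : ℂ)) =ᶠ[𝓝 z] (fun z => kerd h δ z w) := by
      have hopen : IsOpen {y : ℂ | ‖y - w‖ < δ} := isOpen_lt (by fun_prop) continuous_const
      filter_upwards [hopen.mem_nhds hd] with y hy
      unfold kerd
      rw [chi_zero hδ (le_of_lt hy)]
      simp
    exact continuousAt_const.congr hev
  · have hne : z ≠ w := by
      intro he
      rw [he, sub_self, norm_zero] at hd
      linarith
    exact hc.continuousAt.mul (ker_contAt hh hz hw hne)

theorem bound_int {h : ℝ} (δ B : ℝ) (z0 : ℂ) :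
    IntegrableOn (fun w : ℂ => B * ((5 / (2 * δ) + 8 * h) * (1 + (w.re - z0.re) ^ 2)⁻¹)) (S h) :=
  ((dom_int h z0.re).const_mul _).const_mul _

/-- continuity of the truncated operator. -/
theorem Wd_cont {h δ : ℝ} (hh : 0 < h) (hδ : 0 < δ) {f : ℝ → ℂ → ℝ} {B : ℝ} {I : Set ℝ}
    (hf : ∀ t ∈ I, BM h (f t) B) (hc : ∀ w ∈ U h, ContinuousOn (fun t => f t w) I) :
    ContinuousOn (fun p : ℝ × ℂ => ∫ w in S h, (f p.1 w : ℂ) * kerd h δ p.2 w) (I ×ˢ S h) := by
  intro p0 hp0
  obtain ⟨ht0, hz0⟩ := hp0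
  apply continuousWithinAt_of_dominated
    (bound := fun w : ℂ => B * ((5 / (2 * δ) + 8 * h) * (1 + (w.re - p0.2.re) ^ 2)⁻¹))
  · filter_upwards [self_mem_nhdsWithin] with p hp
    have h1 : AEStronglyMeasurable (fun w => ((f p.1 w : ℝ) : ℂ)) (volume.restrict (S h)) :=
      Complex.continuous_ofReal.comp_aestronglyMeasurable (hf p.1 hp.1).1
    exact h1.mul (kerd_measurable h δ p.2).aestronglyMeasurable
  · have hnear : ∀ᶠ p : ℝ × ℂ in 𝓝[I ×ˢ S h] p0, ‖p.2 - p0.2‖ ≤ 1 := by
      have hcn : Continuous (fun p : ℝ × ℂ => ‖p.2 - p0.2‖) := by fun_prop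
      have hlt : ∀ᶠ p : ℝ × ℂ in 𝓝 p0, ‖p.2 - p0.2‖ < 1 := by
        apply hcn.continuousAt.eventually_lt continuousAt_const
        simp
      filter_upwards [nhdsWithin_le_nhds hlt] with p hp
      exact le_of_lt hp
    filter_upwards [self_mem_nhdsWithin, hnear] with p hp hpn
    filter_upwards [ae_mem_U h, ae_restrict_mem (measurableSet_S h)] with w hwU hwS
    rw [norm_mul, Complex.norm_real, Real.norm_eq_abs]
    have h1 := (hf p.1 hp.1).2 w hwU
    exact mul_le_mul h1 (kerd_bound hh hδ hp.2 hwS hpn) (norm_nonneg _) ((abs_nonneg _).trans h1)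
  · exact bound_int δ B p0.2
  · filter_upwards [ae_mem_U h, ae_restrict_mem (measurableSet_S h)] with w hwU hwS
    apply ContinuousWithinAt.mul
    · have h1 : ContinuousWithinAt (fun t => f t w) I p0.1 := hc w hwU p0.1 ht0
      have h2 : ContinuousWithinAt (fun p : ℝ × ℂ => f p.1 w) (I ×ˢ S h) p0 :=
        ContinuousWithinAt.comp (t := I) (f := fun p : ℝ × ℂ => p.1) (g := fun t => f t w)
          h1 continuousWithinAt_fst (fun p hp => hp.1)
      exact Complex.continuous_ofReal.continuousAt.comp_continuousWithinAt h2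
    · have h1 := kerd_contAt hh hδ hz0 hwS
      exact (ContinuousAt.comp (f := fun p : ℝ × ℂ => p.2) (g := fun z => kerd h δ z w)
        h1 continuousAt_snd).continuousWithinAt

theorem half_mem_U {h : ℝ} (hh : 0 < h) : (((h / 2 : ℝ) : ℂ) * Complex.I) ∈ U h := by
  constructor
  · simp
    linarith
  · simp
    linarith

/-- uniform closeness of the truncated operator. -/
theorem Wd_close {h δ : ℝ} (hh : 0 < h) (hδ : 0 < δ) {f : ℂ → ℝ} {B : ℝ} (hf : BM h f B) {z : ℂ}
    (hz : z ∈ S h) :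
    ‖W h f z - ∫ w in S h, (f w : ℂ) * kerd h δ z w‖ ≤ 6 * Real.pi * B * δ := by
  have hB : 0 ≤ B := (abs_nonneg _).trans (hf.2 _ (half_mem_U hh))
  have hi1 : Integrable (fun w => (f w : ℂ) * ker h z w) (volume.restrict (S h)) :=
    W_integrable hh hf hz
  have hi2 : Integrable (fun w => (f w : ℂ) * kerd h δ z w) (volume.restrict (S h)) := by
    apply Integrable.mono' (bound_int (h := h) δ B z)
    · have h1 : AEStronglyMeasurable (fun w => ((f w : ℝ) : ℂ)) (volume.restrict (S h)) :=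
        Complex.continuous_ofReal.comp_aestronglyMeasurable hf.1
      exact h1.mul (kerd_measurable h δ z).aestronglyMeasurable
    · filter_upwards [ae_mem_U h, ae_restrict_mem (measurableSet_S h)] with w hwU hwS
      rw [norm_mul, Complex.norm_real, Real.norm_eq_abs]
      have h1 := hf.2 w hwU
      refine mul_le_mul h1 (kerd_bound hh hδ hz hwS ?_) (norm_nonneg _) hB
      simp
  unfold W
  rw [← integral_sub hi1 hi2]
  obtain ⟨hint, hle⟩ := int_inv_norm (R := 2 * δ) (by positivity) z z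
  have hmeas : MeasurableSet (closedBall z (2 * δ)) := measurableSet_closedBall
  have hint' : IntegrableOn (fun w : ℂ => B / 2 * ‖w - z‖⁻¹) (closedBall z (2 * δ)) volume :=
    hint.const_mul (B / 2)
  have hg : Integrable ((closedBall z (2 * δ)).indicator (fun w => B / 2 * ‖w - z‖⁻¹)) volume :=
    hint'.integrable_indicator hmeas
  have hg0 : ∀ w, 0 ≤ (closedBall z (2 * δ)).indicator (fun w => B / 2 * ‖w - z‖⁻¹) w := by
    intro w
    apply indicator_nonneg
    intro x _
    positivity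
  have hbd : ∀ᵐ w ∂(volume.restrict (S h)),
      ‖(f w : ℂ) * ker h z w - (f w : ℂ) * kerd h δ z w‖ ≤
        (closedBall z (2 * δ)).indicator (fun w => B / 2 * ‖w - z‖⁻¹) w := by
    have hzne : ∀ᵐ w ∂(volume.restrict (S h)), w ≠ z := by
      apply ae_restrict_of_ae
      exact Measure.ae_ne volume z
    filter_upwards [ae_mem_U h, ae_restrict_mem (measurableSet_S h), hzne] with w hwU hwS hwz
    by_cases hin : w ∈ closedBall z (2 * δ)
    · rw [indicator_of_mem hin]
      have he : (f w : ℂ) * ker h z w - (f w : ℂ) * kerd h δ z w =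
          (f w : ℂ) * (((1 - chi δ ‖z - w‖ : ℝ) : ℂ) * ker h z w) := by
        unfold kerd
        push_cast
        ring
      rw [he, norm_mul, norm_mul, Complex.norm_real, Complex.norm_real, Real.norm_eq_abs,
        Real.norm_of_nonneg (by linarith [chi_le_one δ ‖z - w‖])]
      have h1 := hf.2 w hwU
      have h2 := ker_le_inv hh hz hwS (Ne.symm hwz)
      have h3 : (1 - chi δ ‖z - w‖) * ‖ker h z w‖ ≤ 1 * (1 / (2 * ‖z - w‖)) := by
        apply mul_le_mul _ h2 (norm_nonneg _) zero_le_one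
        linarith [chi_nonneg δ ‖z - w‖]
      have h4 : (0 : ℝ) ≤ (1 - chi δ ‖z - w‖) * ‖ker h z w‖ :=
        mul_nonneg (by linarith [chi_le_one δ ‖z - w‖]) (norm_nonneg _)
      calc |f w| * ((1 - chi δ ‖z - w‖) * ‖ker h z w‖) ≤ B * (1 * (1 / (2 * ‖z - w‖))) :=
            mul_le_mul h1 h3 h4 hB
        _ = B / 2 * ‖w - z‖⁻¹ := by
            rw [norm_sub_rev z w]
            ring
    · rw [indicator_of_notMem hin]
      have hd : 2 * δ ≤ ‖z - w‖ := by
        rw [mem_closedBall, not_le, dist_eq_norm, norm_sub_rev] at hin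
        exact hin.le
      unfold kerd
      rw [chi_one hδ hd]
      simp
  calc ‖∫ w in S h, ((f w : ℂ) * ker h z w - (f w : ℂ) * kerd h δ z w)‖
      ≤ ∫ w in S h, (closedBall z (2 * δ)).indicator (fun w => B / 2 * ‖w - z‖⁻¹) w :=
        norm_integral_le_of_norm_le hg.restrict hbd
    _ ≤ ∫ w, (closedBall z (2 * δ)).indicator (fun w => B / 2 * ‖w - z‖⁻¹) w :=
        setIntegral_le_integral hg (Eventually.of_forall hg0)
    _ = ∫ w in closedBall z (2 * δ), B / 2 * ‖w - z‖⁻¹ := integral_indicator hmeas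
    _ = B / 2 * ∫ w in closedBall z (2 * δ), ‖w - z‖⁻¹ := integral_const_mul _ _
    _ ≤ B / 2 * (6 * Real.pi * (2 * δ)) := mul_le_mul_of_nonneg_left hle (by positivity)
    _ = 6 * Real.pi * B * δ := by ring

/-- general form: joint continuity under pointwise continuity in `t`. -/
theorem W_joint {h : ℝ} (hh : 0 < h) {f : ℝ → ℂ → ℝ} {B : ℝ} {I : Set ℝ}
    (hf : ∀ t ∈ I, BM h (f t) B) (hc : ∀ w ∈ U h, ContinuousOn (fun t => f t w) I) :
    ContinuousOn (fun p : ℝ × ℂ => W h (f p.1) p.2) (I ×ˢ S h) := by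
  apply continuousOn_of_uniform_approx_of_continuousOn
  intro u hu
  obtain ⟨ε, hε, hεu⟩ := Metric.mem_uniformity_dist.mp hu
  set δ : ℝ := ε / (6 * Real.pi * |B| + 1) with hδdef
  have hden : 0 < 6 * Real.pi * |B| + 1 := by
    have := Real.pi_pos
    positivity
  have hδ : 0 < δ := div_pos hε hden
  refine ⟨fun p : ℝ × ℂ => ∫ w in S h, (f p.1 w : ℂ) * kerd h δ p.2 w, Wd_cont hh hδ hf hc, ?_⟩
  intro p hp
  apply hεu
  rw [dist_eq_norm]
  refine (Wd_close hh hδ (hf p.1 hp.1) hp.2).trans_lt ?_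
  have h1 : 6 * Real.pi * B * δ ≤ 6 * Real.pi * |B| * δ := by
    apply mul_le_mul_of_nonneg_right _ hδ.le
    apply mul_le_mul_of_nonneg_left (le_abs_self B)
    have := Real.pi_pos
    positivity
  have h2 : (6 * Real.pi * |B| + 1) * δ = ε := by
    rw [hδdef]
    field_simp
  linarith

end S2b

theorem W_cont {h : ℝ} (hh : 0 < h) {f : ℂ → ℝ} {B : ℝ} (hf : BM h f B) :
    ContinuousOn (W h f) (S h) := by
  have h1 := S2b.W_joint hh (f := fun _ => f) (B := B) (I := univ) (fun _ _ => hf)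
    (fun w _ => continuousOn_const)
  have h2 : ContinuousOn (fun z : ℂ => ((0 : ℝ), z)) (S h) := by fun_prop
  have h3 : MapsTo (fun z : ℂ => ((0 : ℝ), z)) (S h) ((univ : Set ℝ) ×ˢ S h) :=
    fun z hz => ⟨mem_univ _, hz⟩
  have h4 : ContinuousOn ((fun p : ℝ × ℂ => W h f p.2) ∘ (fun z : ℂ => ((0 : ℝ), z))) (S h) :=
    ContinuousOn.comp h1 h2 h3
  exact h4

theorem W_time {h T : ℝ} (hh : 0 < h) {f : ℝ → ℂ → ℝ} {B : ℝ}
    (hf : ContinuousOn (fun p : ℝ × ℂ => f p.1 p.2) (Icc 0 T ×ˢ U h))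
    (hB : ∀ t ∈ Icc 0 T, ∀ w ∈ U h, |f t w| ≤ B) :
    ContinuousOn (fun p : ℝ × ℂ => W h (f p.1) p.2) (Icc 0 T ×ˢ S h) := by
  apply S2b.W_joint hh (B := B)
  · intro t ht
    apply BM_of_continuousOn _ (hB t ht)
    have h2 : ContinuousOn (fun w : ℂ => (t, w)) (U h) := by fun_prop
    exact hf.comp h2 (fun w hw => ⟨ht, hw⟩)
  · intro w hw
    have h2 : ContinuousOn (fun t : ℝ => (t, w)) (Icc 0 T) := by fun_prop
    exact hf.comp h2 (fun t ht => ⟨ht, hw⟩)

end Pool.Agent.EAC
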