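import Pool.Agent.EAC.S1b

/-!
# EAC-S2: elementary properties of `W h f`

`BM h f B`: `f` measurable on the strip and bounded by `B` on the open strip (a.e. is enough for the integral: `vol_S_diff_U`).
`W_bound`: `ker_int`. `W_shift`: change of variables `w ↦ w + x` (`S h` is invariant), `ker_shift`.
`W_conj`: `ker_conj`. `W_re`: `ker_re_bottom`, `ker_re_top`.

THIS FILE: BM, BM_of_continuousOn, W_integrable, W_bound, W_congr, W_sub, W_add, W_smul, W_shift, W_per, W_conj, W_re.
-/

set_option autoImplicit false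

noncomputable section

namespace Pool.Agent.EAC


open MeasureTheory Set Filter Topology Metric
open scoped ENNReal ComplexConjugate

/-- `f` is measurable and `|f| ≤ B` in the open strip. -/
def BM (h : ℝ) (f : ℂ → ℝ) (B : ℝ) : Prop :=
  AEStronglyMeasurable f (volume.restrict (S h)) ∧ ∀ w ∈ U h, |f w| ≤ B

theorem S2a_U_open (h : ℝ) : IsOpen (U h) := by
  have : U h = Complex.im ⁻¹' Ioo 0 h := by
    ext z
    simp [U]
  rw [this]
  exact isOpen_Ioo.preimage Complex.continuous_im

theorem S2a_S_meas (h : ℝ) : MeasurableSet (S h) := by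
  have : S h = Complex.im ⁻¹' Icc 0 h := by
    ext z
    simp [S]
  rw [this]
  exact measurableSet_Icc.preimage Complex.measurable_im

theorem S2a_S_ae_eq (h : ℝ) : (S h : Set ℂ) =ᵐ[volume] U h := by
  have hUS : U h ⊆ S h := fun z hz => ⟨le_of_lt hz.1, le_of_lt hz.2⟩
  exact (ae_eq_set.mpr ⟨vol_S_diff_U h, by rw [sdiff_eq_empty.mpr hUS]; exact measure_empty⟩)

theorem S2a_restrict (h : ℝ) :
    (volume : Measure ℂ).restrict (S h) = (volume : Measure ℂ).restrict (U h) :=
  Measure.restrict_congr_set (S2a_S_ae_eq h)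

theorem S2a_ae {h : ℝ} {f : ℂ → ℝ} {B : ℝ} (hB : ∀ w ∈ U h, |f w| ≤ B) :
    ∀ᵐ w ∂((volume : Measure ℂ).restrict (S h)), ‖(f w : ℂ)‖ ≤ B := by
  rw [S2a_restrict, ae_restrict_iff' (S2a_U_open h).measurableSet]
  refine Eventually.of_forall fun w hw => ?_
  rw [Complex.norm_real, Real.norm_eq_abs]
  exact hB w hw

theorem BM_of_continuousOn {h : ℝ} {f : ℂ → ℝ} {B : ℝ} (hf : ContinuousOn f (U h))
    (hB : ∀ w ∈ U h, |f w| ≤ B) : BM h f B := by
  refine ⟨?_, hB⟩
  rw [S2a_restrict]
  exact hf.aestronglyMeasurable (S2a_U_open h).measurableSet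

theorem W_integrable {h : ℝ} (hh : 0 < h) {f : ℂ → ℝ} {B : ℝ} (hf : BM h f B) {z : ℂ} (hz : z ∈ S h) :
    IntegrableOn (fun w => (f w : ℂ) * ker h z w) (S h) := by
  obtain ⟨C, hC, hk⟩ := ker_int
  have h1 := (hk h hh z hz).1
  exact Integrable.bdd_mul (c := B) h1 (Complex.continuous_ofReal.comp_aestronglyMeasurable hf.1)
    (S2a_ae hf.2)

theorem S2a_B_nonneg {h : ℝ} (hh : 0 < h) {f : ℂ → ℝ} {B : ℝ} (hf : BM h f B) : 0 ≤ B := by
  have hw : (Complex.I * ((h / 2 : ℝ) : ℂ)) ∈ U h := by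
    constructor
    · simp [hh]
    · simp
      linarith
  exact (abs_nonneg _).trans (hf.2 _ hw)

theorem W_bound : ∃ C > 0, ∀ h : ℝ, 0 < h → ∀ (f : ℂ → ℝ) (B : ℝ), BM h f B →
    ∀ z ∈ S h, ‖W h f z‖ ≤ C * h * B := by
  obtain ⟨C, hC, hk⟩ := ker_int
  refine ⟨C, hC, fun h hh f B hf z hz => ?_⟩
  obtain ⟨h1, h2⟩ := hk h hh z hz
  have hB := S2a_B_nonneg hh hf
  calc ‖W h f z‖ ≤ ∫ w in S h, B * ‖ker h z w‖ := by
        refine norm_integral_le_of_norm_le (h1.norm.const_mul B) ?_
        filter_upwards [S2a_ae hf.2] with w hw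
        rw [norm_mul]
        gcongr
    _ = B * ∫ w in S h, ‖ker h z w‖ := by rw [integral_const_mul]
    _ ≤ B * (C * h) := by gcongr
    _ = C * h * B := by ring

theorem W_congr {h : ℝ} {f g : ℂ → ℝ} (hfg : ∀ w ∈ U h, f w = g w) (z : ℂ) : W h f z = W h g z := by
  unfold W
  rw [S2a_restrict]
  refine setIntegral_congr_fun (S2a_U_open h).measurableSet fun w hw => ?_
  simp only [hfg w hw]

theorem W_sub {h : ℝ} (hh : 0 < h) {f g : ℂ → ℝ} {B B' : ℝ} (hf : BM h f B) (hg : BM h g B') {z : ℂ}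
    (hz : z ∈ S h) : W h (fun w => f w - g w) z = W h f z - W h g z := by
  unfold W
  rw [← integral_sub (W_integrable hh hf hz) (W_integrable hh hg hz)]
  refine integral_congr_ae (Eventually.of_forall fun w => ?_)
  push_cast
  ring

theorem W_add {h : ℝ} (hh : 0 < h) {f g : ℂ → ℝ} {B B' : ℝ} (hf : BM h f B) (hg : BM h g B') {z : ℂ}
    (hz : z ∈ S h) : W h (fun w => f w + g w) z = W h f z + W h g z := by
  unfold W
  rw [← integral_add (W_integrable hh hf hz) (W_integrable hh hg hz)]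
  refine integral_congr_ae (Eventually.of_forall fun w => ?_)
  push_cast
  ring

theorem W_smul (h c : ℝ) (f : ℂ → ℝ) (z : ℂ) : W h (fun w => c * f w) z = c * W h f z := by
  unfold W
  rw [← integral_const_mul]
  refine integral_congr_ae (Eventually.of_forall fun w => ?_)
  push_cast
  ring

theorem W_shift (h : ℝ) (f : ℂ → ℝ) (z : ℂ) (x : ℝ) :
    W h (fun w => f (w + x)) z = W h f (z + x) := by
  unfold W
  have h1 := (measurePreserving_add_right (volume : Measure ℂ) (x : ℂ)).setIntegral_preimage_emb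
    (measurableEmbedding_addRight (x : ℂ)) (fun w => (f w : ℂ) * ker h (z + x) w) (S h)
  have h2 : (fun w : ℂ => w + (x : ℂ)) ⁻¹' S h = S h := by
    ext w
    simp [S]
  rw [h2] at h1
  rw [← h1]
  refine integral_congr_ae (Eventually.of_forall fun w => ?_)
  simp only [ker_shift]

theorem W_per {h : ℝ} {f : ℂ → ℝ} (hf : ∀ w ∈ S h, f (w + 2 * Real.pi) = f w) (z : ℂ) :
    W h f (z + 2 * Real.pi) = W h f z := by
  have h1 := W_shift h f z (2 * Real.pi)
  have h2 : (((2 * Real.pi : ℝ)) : ℂ) = 2 * (Real.pi : ℂ) := by push_cast; ring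
  rw [h2] at h1
  rw [← h1]
  refine W_congr (fun w hw => hf w ⟨le_of_lt hw.1, le_of_lt hw.2⟩) z

theorem W_conj {h : ℝ} (f : ℂ → ℝ) (z : ℂ) : W h f (conj z) = -conj (W h f z) := by
  unfold W
  rw [← integral_conj, ← integral_neg]
  refine integral_congr_ae (Eventually.of_forall fun w => ?_)
  simp only [ker_conj, map_mul, Complex.conj_ofReal]
  ring

theorem W_re {h : ℝ} (hh : 0 < h) (f : ℂ → ℝ) {z : ℂ} (hz : z.im = 0 ∨ z.im = h) :
    (W h f z).re = 0 := by
  unfold W
  by_cases hi : Integrable (fun w => (f w : ℂ) * ker h z w) (volume.restrict (S h))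
  · have h1 : Complex.reCLM (∫ w in S h, (f w : ℂ) * ker h z w) =
        ∫ w in S h, Complex.reCLM ((f w : ℂ) * ker h z w) :=
      (Complex.reCLM.integral_comp_comm hi).symm
    have h2 : ∫ w in S h, Complex.reCLM ((f w : ℂ) * ker h z w) = 0 := by
      refine integral_eq_zero_of_ae ?_
      have h3 : ∀ᵐ w ∂(volume : Measure ℂ), w ≠ z := by
        have := (Set.countable_singleton z).ae_notMem (volume : Measure ℂ)
        simpa using this
      filter_upwards [ae_restrict_of_ae h3, ae_restrict_mem (S2a_S_meas h)] with w hw hwS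
      have h4 : (ker h z w).re = 0 := by
        rcases hz with hz | hz
        · exact ker_re_bottom hh hz hwS (Ne.symm hw)
        · exact ker_re_top hh hz hwS (Ne.symm hw)
      simp [h4]
    rw [h2] at h1
    exact h1
  · rw [integral_undef hi]
    simp

end Pool.Agent.EAC
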