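import Pool.Agent.EAC.S2

/-!
# EAC-S3: the equation `∂̄ W = -f/2`

`f` differentiable in the open strip with bounded continuous derivative `f'`.
`W_deriv_x`: `W h f (z+x) = ∫ f(w+x) ker h z w` (`W_shift`), differentiate under the integral sign
(`hasDerivAt_integral_of_dominated_loc_of_deriv_le`).
`ct_fderiv`: `w` continuously differentiable on `ℂ` with compact support: `CT w` is differentiable, `D(CT w)(ζ) e = CT (fun z => Dw z e) ζ`
(differentiate `∫ w(ζ+s)/s ds`), and `dbar (D (CT w)(ζ)) = CT (dbar Dw) ζ = -π w ζ` (`ct_rep`).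
`W_fderiv`: near `z₀ ∈ U h` take a smooth bump `χ` at `z₀` supported in `U h`; `W[(1-χ)f]` is holomorphic near `z₀`
(kernel holomorphic in `z` for `w` away from `z₀`; `conj w` is never near `z₀` nor the other lattice points); `W[χ f] =
(1/2π) CT(χ f) + holomorphic` because `cth(πu/2h)·(π/2h)... = 1/u + entire near` : `ker h z w = -(1/2π)/(z-w) + (holomorphic in z, bounded)`.
So `W` is real differentiable at `z₀` with `dbar = -f/2`; `D 1 = W[f_x]` by `W_deriv_x`; `D i = i (D 1 - 2 dbar)`.

THIS FILE: W_deriv_x.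
-/

set_option autoImplicit false

noncomputable section

namespace Pool.Agent.EAC


open MeasureTheory Set Filter Topology Metric
open scoped ENNReal ComplexConjugate

private theorem s3a_mem_U {h : ℝ} {w : ℂ} (hw : w ∈ U h) (x : ℝ) : w + (x : ℂ) ∈ U h := by
  obtain ⟨h1, h2⟩ := hw
  constructor
  · simpa using h1
  · simpa using h2

private theorem s3a_ae {h : ℝ} : ∀ᵐ w ∂(volume.restrict (S h)), w ∈ U h := by
  have hS : MeasurableSet (S h) :=
    ((isClosed_le continuous_const Complex.continuous_im).inter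
      (isClosed_le Complex.continuous_im continuous_const)).measurableSet
  rw [ae_restrict_iff' hS, ae_iff]
  refine measure_mono_null ?_ (vol_S_diff_U h)
  intro w hw
  simp only [mem_ofPred_eq, Classical.not_imp] at hw
  exact ⟨hw.1, hw.2⟩

theorem W_deriv_x {h : ℝ} (hh : 0 < h) {f : ℂ → ℝ} {f' : ℂ → (ℂ →L[ℝ] ℝ)} {B B' : ℝ}
    (hd : ∀ z ∈ U h, HasFDerivAt f (f' z) z) (hc : ContinuousOn f' (U h)) (hB : ∀ z ∈ U h, |f z| ≤ B)
    (hB' : ∀ z ∈ U h, ‖f' z‖ ≤ B') {z : ℂ} (hz : z ∈ S h) :
    HasDerivAt (fun x : ℝ => W h f (z + x)) (W h (fun w => f' w 1) z) 0 := by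
  obtain ⟨C, hC, hker⟩ := ker_int
  have hki := (hker h hh z hz).1
  have hshift : (fun x : ℝ => W h f (z + x)) = fun x : ℝ => ∫ w in S h, (f (w + x) : ℂ) * ker h z w := by
    funext x
    rw [← W_shift]
    rfl
  have hfc : ContinuousOn f (U h) := fun w hw => (hd w hw).continuousAt.continuousWithinAt
  have hBMx : ∀ x : ℝ, BM h (fun w => f (w + x)) B := by
    intro x
    apply BM_of_continuousOn
    · apply ContinuousOn.comp hfc (by fun_prop)
      intro w hw
      exact s3a_mem_U hw x
    · intro w hw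
      exact hB _ (s3a_mem_U hw x)
  have hBM' : BM h (fun w => f' w 1) B' := by
    apply BM_of_continuousOn
    · exact hc.clm_apply continuousOn_const
    · intro w hw
      have := (f' w).le_opNorm 1
      rw [norm_one, mul_one, Real.norm_eq_abs] at this
      exact this.trans (hB' w hw)
  have key := hasDerivAt_integral_of_dominated_loc_of_deriv_le (μ := volume.restrict (S h))
    (F := fun (x : ℝ) (w : ℂ) => (f (w + x) : ℂ) * ker h z w)
    (F' := fun (x : ℝ) (w : ℂ) => ((f' (w + x) 1 : ℝ) : ℂ) * ker h z w) (x₀ := 0)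
    (s := univ) (bound := fun w => B' * ‖ker h z w‖) univ_mem
    (Filter.Eventually.of_forall fun x => (W_integrable hh (hBMx x) hz).aestronglyMeasurable)
    (W_integrable hh (hBMx 0) hz) ?_ ?_ ?_ ?_
  · rw [hshift]
    have e : W h (fun w => f' w 1) z = ∫ w in S h, ((f' (w + (0 : ℝ)) 1 : ℝ) : ℂ) * ker h z w := by
      rw [W]
      simp only [Complex.ofReal_zero, add_zero]
    rw [e]
    exact key.2
  · have := (W_integrable hh hBM' hz).aestronglyMeasurable
    simpa only [Complex.ofReal_zero, add_zero] using this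
  · filter_upwards [s3a_ae] with w hw x _
    rw [norm_mul, Complex.norm_real]
    gcongr
    have h1 := (f' (w + x)).le_opNorm 1
    rw [norm_one, mul_one] at h1
    exact h1.trans (hB' _ (s3a_mem_U hw x))
  · exact (hki.norm).const_mul B'
  · filter_upwards [s3a_ae] with w hw x _
    have h1 : HasDerivAt (fun y : ℝ => w + (y : ℂ)) 1 x := by
      have := (Complex.ofRealCLM.hasDerivAt (x := x)).const_add w
      simpa using this
    have h2 := (hd _ (s3a_mem_U hw x)).comp_hasDerivAt x h1
    exact (h2.ofReal_comp).mul_const _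

end Pool.Agent.EAC
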