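import Pool.Agent.EAC.S3
import Pool.Agent.EAC.G5

/-!
# EAC-S4x: common part of S4b and S4c

`StripData`: `g` Lipschitz on the closed strip, differentiable inside with `∂̄g = q`, real on both lines.
`W_data`: `g = i W h f`. `StripData.refl`: reflection `z ↦ conj z + i h`. `strip_glue`: estimates near the bottom line, near
the top line (by reflection) and in discs give the estimate for all pairs of points at distance `≤ h/256`.
-/

set_option autoImplicit false

noncomputable section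

namespace Pool.Agent.EAC

open MeasureTheory Set Filter Topology Metric
open scoped ENNReal ComplexConjugate

structure StripData (h : ℝ) (g : ℂ → ℂ) (D : ℂ → (ℂ →L[ℝ] ℂ)) (q : ℂ → ℂ) (A B : ℝ) : Prop where
  lip : ∃ L0 : ℝ, ∀ z ∈ S h, ∀ w ∈ S h, ‖g z - g w‖ ≤ L0 * ‖z - w‖
  deriv : ∀ z ∈ U h, HasFDerivAt g (D z) z
  dbar : ∀ z ∈ U h, Pool.Agent.EAC.dbar (D z) = q z
  real0 : ∀ z : ℂ, z.im = 0 → (g z).im = 0
  realh : ∀ z : ℂ, z.im = h → (g z).im = 0
  bdg : ∀ z ∈ S h, ‖g z‖ ≤ A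
  bdq : ∀ z ∈ U h, ‖q z‖ ≤ B

/-- reflection of the strip -/
def sig (h : ℝ) (z : ℂ) : ℂ := conj z + (h : ℂ) * Complex.I

theorem sig_im (h : ℝ) (z : ℂ) : (sig h z).im = h - z.im := by
  simp [sig]; ring

theorem sig_re (h : ℝ) (z : ℂ) : (sig h z).re = z.re := by
  simp [sig]

theorem sig_sig (h : ℝ) (z : ℂ) : sig h (sig h z) = z := by
  apply Complex.ext
  · rw [sig_re, sig_re]
  · rw [sig_im, sig_im]; ring

theorem sig_mem_S {h : ℝ} {z : ℂ} (hz : z ∈ S h) : sig h z ∈ S h := by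
  obtain ⟨h1, h2⟩ := hz
  constructor <;> rw [sig_im] <;> linarith

theorem sig_mem_U {h : ℝ} {z : ℂ} (hz : z ∈ U h) : sig h z ∈ U h := by
  obtain ⟨h1, h2⟩ := hz
  constructor <;> rw [sig_im] <;> linarith

theorem norm_conj_sub (z w : ℂ) : ‖conj z - conj w‖ = ‖z - w‖ := by
  rw [← map_sub, Complex.norm_conj]

theorem sig_norm (h : ℝ) (z w : ℂ) : ‖sig h z - sig h w‖ = ‖z - w‖ := by
  unfold sig
  rw [add_sub_add_right_eq_sub, norm_conj_sub]

theorem dbar_conj_comp (L : ℂ →L[ℝ] ℂ) :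
    dbar ((Complex.conjCLE : ℂ →L[ℝ] ℂ).comp (L.comp (Complex.conjCLE : ℂ →L[ℝ] ℂ)))
      = conj (dbar L) := by
  unfold dbar
  simp only [ContinuousLinearMap.comp_apply, ContinuousLinearEquiv.coe_coe, Complex.conjCLE_apply,
    map_mul, map_add, map_one, map_div₀, Complex.conj_I, map_neg, map_ofNat]
  ring

theorem StripData.refl {h A B : ℝ} {g q : ℂ → ℂ} {D : ℂ → (ℂ →L[ℝ] ℂ)}
    (H : StripData h g D q A B) :
    StripData h (fun z => conj (g (sig h z)))
      (fun z => (Complex.conjCLE : ℂ →L[ℝ] ℂ).comp ((D (sig h z)).comp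
        (Complex.conjCLE : ℂ →L[ℝ] ℂ))) (fun z => conj (q (sig h z))) A B where
  lip := by
    obtain ⟨L0, hL⟩ := H.lip
    refine ⟨L0, fun z hz w hw => ?_⟩
    rw [norm_conj_sub, ← sig_norm h z w]
    exact hL _ (sig_mem_S hz) _ (sig_mem_S hw)
  deriv := by
    intro z hz
    have h4 : HasFDerivAt (sig h) (Complex.conjCLE : ℂ →L[ℝ] ℂ) z := by
      unfold sig
      exact (Complex.conjCLE.hasFDerivAt (x := z)).add_const _
    exact (Complex.conjCLE.hasFDerivAt (x := g (sig h z))).comp z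
      ((H.deriv _ (sig_mem_U hz)).comp z h4)
  dbar := by
    intro z hz
    rw [dbar_conj_comp, H.dbar _ (sig_mem_U hz)]
  real0 := by
    intro z hz
    have : (g (sig h z)).im = 0 := H.realh _ (by rw [sig_im, hz, sub_zero])
    simp [this]
  realh := by
    intro z hz
    have : (g (sig h z)).im = 0 := H.real0 _ (by rw [sig_im, hz, sub_self])
    simp [this]
  bdg := by
    intro z hz
    rw [Complex.norm_conj]; exact H.bdg _ (sig_mem_S hz)
  bdq := by
    intro z hz
    rw [Complex.norm_conj]; exact H.bdq _ (sig_mem_U hz)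

theorem StripData.half {h A B : ℝ} {g q : ℂ → ℂ} {D : ℂ → (ℂ →L[ℝ] ℂ)} (hh : 0 < h)
    (H : StripData h g D q A B) {c : ℂ} (hc : c.im = 0) : HalfData (h / 2) c g D q A B := by
  have hS : ∀ z ∈ closedBall c (h / 2), c.im ≤ z.im → z ∈ S h := by
    intro z hz h1
    rw [hc] at h1
    rw [mem_closedBall, dist_eq_norm] at hz
    have := (le_abs_self _).trans ((Complex.abs_im_le_norm (z - c)).trans hz)
    rw [Complex.sub_im, hc] at this
    exact ⟨h1, by linarith⟩
  have hU : ∀ z ∈ ball c (h / 2), c.im < z.im → z ∈ U h := by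
    intro z hz h1
    rw [hc] at h1
    rw [mem_ball, dist_eq_norm] at hz
    have := (le_abs_self _).trans_lt ((Complex.abs_im_le_norm (z - c)).trans_lt hz)
    rw [Complex.sub_im, hc] at this
    exact ⟨h1, by linarith⟩
  obtain ⟨L0, hL⟩ := H.lip
  exact
    { lip := ⟨L0, fun z hz h1 w hw h2 => hL z (hS z hz h1) w (hS w hw h2)⟩
      deriv := fun z hz h1 => H.deriv z (hU z hz h1)
      dbar := fun z hz h1 => H.dbar z (hU z hz h1)
      real := fun z _ h1 => H.real0 z (by rw [h1, hc])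
      bdg := fun z hz h1 => H.bdg z (hS z hz h1)
      bdq := fun z hz h1 => H.bdq z (hU z hz h1) }

theorem ball_sub_U {h : ℝ} {c : ℂ} (h1 : h / 32 ≤ c.im)
    (h2 : c.im ≤ h - h / 32) : ball c (h / 32) ⊆ U h := by
  intro z hz
  rw [mem_ball, dist_eq_norm] at hz
  have h3 := (Complex.abs_im_le_norm (z - c)).trans_lt hz
  rw [Complex.sub_im, abs_lt] at h3
  exact ⟨by linarith [h3.1], by linarith [h3.2]⟩

theorem cball_sub_S {h : ℝ} {c : ℂ} (h1 : h / 32 ≤ c.im)
    (h2 : c.im ≤ h - h / 32) : closedBall c (h / 32) ⊆ S h := by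
  intro z hz
  rw [mem_closedBall, dist_eq_norm] at hz
  have h3 := (Complex.abs_im_le_norm (z - c)).trans hz
  rw [Complex.sub_im, abs_le] at h3
  exact ⟨by linarith [h3.1], by linarith [h3.2]⟩

theorem StripData.disc {h A B : ℝ} {g q : ℂ → ℂ} {D : ℂ → (ℂ →L[ℝ] ℂ)}
    (H : StripData h g D q A B) {c : ℂ} (h1 : h / 32 ≤ c.im) (h2 : c.im ≤ h - h / 32) :
    DiscData (h / 32) c g D q A B := by
  obtain ⟨L0, hL⟩ := H.lip
  exact
    { lip := ⟨L0, fun z hz w hw => hL z (cball_sub_S h1 h2 hz) w (cball_sub_S h1 h2 hw)⟩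
      deriv := fun z hz => H.deriv z (ball_sub_U h1 h2 hz)
      dbar := fun z hz => H.dbar z (ball_sub_U h1 h2 hz)
      bdg := fun z hz => H.bdg z (cball_sub_S h1 h2 hz)
      bdq := fun z hz => H.bdq z (ball_sub_U h1 h2 hz) }

/-- gluing of the local estimates -/
theorem strip_glue {h : ℝ} (hh : 0 < h) {g : ℂ → ℂ} {E : ℝ → ℝ}
    (hbot : ∀ c : ℂ, c.im = 0 → ∀ z ∈ closedBall c (h / 2 / 8), c.im ≤ z.im →
      ∀ w ∈ closedBall c (h / 2 / 8), c.im ≤ w.im → ‖g z - g w‖ ≤ E ‖z - w‖)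
    (htop : ∀ c : ℂ, c.im = 0 → ∀ z ∈ closedBall c (h / 2 / 8), c.im ≤ z.im →
      ∀ w ∈ closedBall c (h / 2 / 8), c.im ≤ w.im →
        ‖conj (g (sig h z)) - conj (g (sig h w))‖ ≤ E ‖z - w‖)
    (hmid : ∀ c : ℂ, h / 32 ≤ c.im → c.im ≤ h - h / 32 → ∀ z ∈ closedBall c (h / 32 / 8),
      ∀ w ∈ closedBall c (h / 32 / 8), ‖g z - g w‖ ≤ E ‖z - w‖)
    {z w : ℂ} (hz : z ∈ S h) (hw : w ∈ S h) (hd : ‖z - w‖ ≤ h / 256) :
    ‖g z - g w‖ ≤ E ‖z - w‖ := by
  -- bottom case, for a general function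
  have key : ∀ {g' : ℂ → ℂ}, (∀ c : ℂ, c.im = 0 → ∀ z ∈ closedBall c (h / 2 / 8), c.im ≤ z.im →
      ∀ w ∈ closedBall c (h / 2 / 8), c.im ≤ w.im → ‖g' z - g' w‖ ≤ E ‖z - w‖) →
      ∀ z ∈ S h, ∀ w ∈ S h, ‖z - w‖ ≤ h / 256 → z.im ≤ h / 32 → ‖g' z - g' w‖ ≤ E ‖z - w‖ := by
    intro g' hb z hz w hw hd hi
    have hc : ((z.re : ℝ) : ℂ).im = 0 := Complex.ofReal_im _
    have h1 : ‖z - (z.re : ℂ)‖ ≤ h / 32 := by
      have : z - (z.re : ℂ) = (z.im : ℂ) * Complex.I := by
        apply Complex.ext <;> simp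
      rw [this, norm_mul, Complex.norm_I, mul_one, Complex.norm_real, Real.norm_eq_abs,
        abs_of_nonneg hz.1]
      exact hi
    have h2 : ‖w - (z.re : ℂ)‖ ≤ h / 2 / 8 := by
      have e : w - (z.re : ℂ) = (z - (z.re : ℂ)) - (z - w) := by ring
      rw [e]
      have := norm_sub_le (z - (z.re : ℂ)) (z - w)
      linarith
    refine hb (z.re : ℂ) hc z ?_ (by rw [hc]; exact hz.1) w ?_ (by rw [hc]; exact hw.1)
    · rw [mem_closedBall, dist_eq_norm]; linarith
    · rw [mem_closedBall, dist_eq_norm]; exact h2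
  by_cases h1 : z.im ≤ h / 32
  · exact key hbot z hz w hw hd h1
  · by_cases h2 : h - h / 32 ≤ z.im
    · have h3 := key (g' := fun z => conj (g (sig h z))) htop (sig h z) (sig_mem_S hz) (sig h w)
        (sig_mem_S hw) (by rw [sig_norm]; exact hd) (by rw [sig_im]; linarith)
      simp only [sig_sig] at h3
      rwa [norm_conj_sub, sig_norm] at h3
    · push Not at h1 h2
      refine hmid z h1.le h2.le z (mem_closedBall_self (by positivity)) w ?_
      rw [mem_closedBall, dist_eq_norm, norm_sub_rev]; linarith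

theorem isOpen_U' (h : ℝ) : IsOpen (U h) :=
  (isOpen_lt continuous_const Complex.continuous_im).inter
    (isOpen_lt Complex.continuous_im continuous_const)

theorem convex_U' (h : ℝ) : Convex ℝ (U h) := by
  intro z hz w hw a b ha hb hab
  have e : (a • z + b • w).im = a * z.im + b * w.im := by simp
  constructor <;> rw [e]
  · rcases ha.eq_or_lt with h0 | h0
    · have : b = 1 := by linarith
      rw [← h0, this]; linarith [hw.1]
    · have := mul_pos h0 hz.1
      have := mul_nonneg hb hw.1.le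
      linarith
  · rcases ha.eq_or_lt with h0 | h0
    · have : b = 1 := by linarith
      rw [← h0, this]; linarith [hw.2]
    · have h1 := mul_lt_mul_of_pos_left hz.2 h0
      have h2 := mul_le_mul_of_nonneg_left hw.2.le hb
      have h3 : a * h + b * h = h := by rw [← add_mul, hab, one_mul]
      linarith

/-- a function continuous on the closed strip with bounded derivative inside is Lipschitz -/
theorem lip_S {h M : ℝ} (hh : 0 < h) {g : ℂ → ℂ} {D : ℂ → (ℂ →L[ℝ] ℂ)}
    (hc : ContinuousOn g (S h)) (hd : ∀ z ∈ U h, HasFDerivAt g (D z) z)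
    (hM : ∀ z ∈ U h, ‖D z‖ ≤ M) : ∀ z ∈ S h, ∀ w ∈ S h, ‖g z - g w‖ ≤ M * ‖z - w‖ := by
  have hU : ∀ z ∈ U h, ∀ w ∈ U h, ‖g z - g w‖ ≤ M * ‖z - w‖ := by
    intro z hz w hw
    exact (convex_U' h).norm_image_sub_le_of_norm_hasFDerivWithin_le
      (fun x hx => (hd x hx).hasFDerivWithinAt) hM hw hz
  intro z hz w hw
  set p : ℝ → ℂ → ℂ := fun t z => ((1 - t : ℝ) : ℂ) * z + ((t * (h / 2) : ℝ) : ℂ) * Complex.I with hp
  have him : ∀ t z, (p t z).im = (1 - t) * z.im + t * (h / 2) := by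
    intro t z; simp [hp]
  have hpU : ∀ z ∈ S h, ∀ t ∈ Ioo (0 : ℝ) 1, p t z ∈ U h := by
    intro z hz t ht
    have a1 := mul_nonneg (sub_nonneg.2 ht.2.le) hz.1
    have a2 := mul_le_mul_of_nonneg_left hz.2 (sub_nonneg.2 ht.2.le)
    have a3 := mul_pos ht.1 hh
    constructor <;> rw [him] <;> nlinarith
  have hpc : ∀ z, Tendsto (fun t => p t z) (𝓝[>] (0 : ℝ)) (𝓝 z) := by
    intro z
    have h1 : Continuous (fun t : ℝ => p t z) := by
      simp only [hp]; fun_prop
    have h2 := (h1.tendsto 0).mono_left (nhdsWithin_le_nhds (s := Ioi (0 : ℝ)))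
    simpa [hp] using h2
  have hev : ∀ᶠ t in 𝓝[>] (0 : ℝ), t ∈ Ioo (0 : ℝ) 1 := Ioo_mem_nhdsGT one_pos
  have hg : ∀ z ∈ S h, Tendsto (fun t => g (p t z)) (𝓝[>] (0 : ℝ)) (𝓝 (g z)) := by
    intro z hz
    have h1 : Tendsto (fun t => p t z) (𝓝[>] (0 : ℝ)) (𝓝[S h] z) := by
      apply tendsto_nhdsWithin_iff.2 ⟨hpc z, ?_⟩
      filter_upwards [hev] with t ht
      exact ⟨(hpU z hz t ht).1.le, (hpU z hz t ht).2.le⟩
    exact (hc z hz).tendsto.comp h1
  have hl := ((hg z hz).sub (hg w hw)).norm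
  have hr := (((hpc z).sub (hpc w)).norm).const_mul M
  refine le_of_tendsto_of_tendsto hl hr ?_
  filter_upwards [hev] with t ht
  exact hU _ (hpU z hz t ht) _ (hpU w hw t ht)

/-- the data of `g = i W`. -/
theorem W_data : ∃ C > 0, ∀ h : ℝ, 0 < h → ∀ (f : ℂ → ℝ) (f' : ℂ → (ℂ →L[ℝ] ℝ)) (B : ℝ), 0 ≤ B →
      (∀ z ∈ U h, HasFDerivAt f (f' z) z) → ContinuousOn f' (U h) → (∃ B', ∀ z ∈ U h, ‖f' z‖ ≤ B') →
      (∀ z ∈ U h, |f z| ≤ B) →
      StripData h (fun z => Complex.I * W h f z) (fun z => Complex.I • DW h f f' z)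
        (fun z => -(Complex.I * (f z : ℂ) / 2)) (C * h * B) B := by
  obtain ⟨C, hC, hW⟩ := W_bound
  refine ⟨C, hC, ?_⟩
  intro h hh f f' B hB hd hc hB' hb
  obtain ⟨B', hB'⟩ := hB'
  have hfc : ContinuousOn f (U h) := fun z hz => (hd z hz).continuousAt.continuousWithinAt
  have hBM : BM h f B := BM_of_continuousOn hfc hb
  have hBM1 : BM h (fun w => f' w 1) B' := by
    apply BM_of_continuousOn
    · exact hc.clm_apply continuousOn_const
    · intro w hw
      have := (f' w).le_opNorm 1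
      rw [norm_one, mul_one, Real.norm_eq_abs] at this
      exact this.trans (hB' w hw)
  have hderiv : ∀ z ∈ U h, HasFDerivAt (fun z => Complex.I * W h f z) (Complex.I • DW h f f' z) z := by
    intro z hz
    exact (W_fderiv hh hd hc hb hB' hz).const_mul Complex.I
  have hDWb : ∀ z ∈ U h, ‖DW h f f' z‖ ≤ C * h * B' + (C * h * B' + B) := by
    intro z hz
    have hzS : z ∈ S h := ⟨hz.1.le, hz.2.le⟩
    have h1 := hW h hh _ _ hBM1 z hzS
    unfold DW
    refine (norm_add_le _ _).trans (add_le_add ?_ ?_)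
    · rw [ContinuousLinearMap.norm_smulRight_apply, Complex.reCLM_norm, one_mul]
      exact h1
    · rw [ContinuousLinearMap.norm_smulRight_apply, Complex.imCLM_norm, one_mul, norm_mul,
        Complex.norm_I, one_mul]
      refine (norm_add_le _ _).trans (add_le_add h1 ?_)
      rw [Complex.norm_real, Real.norm_eq_abs]; exact hb z hz
  exact
    { lip := by
        refine ⟨C * h * B' + (C * h * B' + B), ?_⟩
        apply lip_S hh (D := fun z => Complex.I • DW h f f' z)
        · exact continuousOn_const.mul (W_cont hh hBM)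
        · exact hderiv
        · intro z hz
          rw [norm_smul, Complex.norm_I, one_mul]
          exact hDWb z hz
      deriv := hderiv
      dbar := by
        intro z hz
        unfold DW dbar
        simp only [ContinuousLinearMap.smul_apply, ContinuousLinearMap.add_apply,
          ContinuousLinearMap.smulRight_apply, Complex.reCLM_apply, Complex.imCLM_apply,
          Complex.one_re, Complex.one_im, Complex.I_re, Complex.I_im, smul_eq_mul, one_smul,
          zero_smul, add_zero, zero_add]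
        linear_combination (1 / 2 : ℂ) * Complex.I * (W h (fun w => f' w 1) z + (f z : ℂ)) * Complex.I_sq
      real0 := by
        intro z hz
        have := W_re hh f (z := z) (Or.inl hz)
        simp [this]
      realh := by
        intro z hz
        have := W_re hh f (z := z) (Or.inr hz)
        simp [this]
      bdg := by
        intro z hz
        rw [norm_mul, Complex.norm_I, one_mul]
        exact hW h hh f B hBM z hz
      bdq := by
        intro z hz
        rw [norm_neg, norm_div, norm_mul, Complex.norm_I, one_mul, Complex.norm_real,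
          Real.norm_eq_abs]
        have := hb z hz
        have h2 : ‖(2 : ℂ)‖ = 2 := by norm_num
        rw [h2]
        have := abs_nonneg (f z)
        linarith }

theorem norm_I_mul_sub (a b : ℂ) : ‖Complex.I * a - Complex.I * b‖ = ‖a - b‖ := by
  rw [← mul_sub, norm_mul, Complex.norm_I, one_mul]

end Pool.Agent.EAC
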