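import Pool.Agent.EAC.S3
import Pool.Agent.EAC.G5
import Pool.Agent.EAC.S4x

/-!
# EAC-S4: Lipschitz and log-Lipschitz estimates for `W` (Lemma S)

First for `f` as in `W_fderiv` (then `W h f` is Lipschitz on `S h`, qualitatively, since its derivative is bounded in the convex `U h` and it is continuous on `S h`).
Put `g = i W` (real on `Im = 0` and `Im = h`), `dbar = -i f/2`. For `z₀ ∈ S h`: if `Im z₀ ≤ h/16` use the half disc with centre `c = Re z₀`, `R = h/2`
(`z₀ ∈ closedBall c (R/8)`); if `Im z₀ ≥ h - h/16` the reflected half disc at the top: apply Lemma S to `g*(z) = conj (g (conj z + i h))`; otherwise the disc with centre `z₀`,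
`R = h/16`. So `‖W z - W z₀‖ ≤ C(B+K)‖z-z₀‖` for `‖z-z₀‖ ≤ r₀(h)`; for larger distances use `W_bound`. Constants depend on `h, β` only.
Then for `f` merely Hölder on `U h`: approximation `moll`: extend `f` by `f(clamp Im)` / `holder_ext` and mollify: smooth `f_j` with bounded derivatives (for each `j`),
`|f_j| ≤ 2B`, Hölder constant `2K`, `|f_j - f| ≤ 2K j^{-β}` on `U h`; `W f_j → W f` by `W_bound`, pass to the limit.

THIS FILE: W_lip_smooth.
-/

set_option autoImplicit false

noncomputable section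

namespace Pool.Agent.EAC


open MeasureTheory Set Filter Topology Metric
open scoped ENNReal ComplexConjugate

theorem W_lip_smooth {h β : ℝ} (hh : 0 < h) (hβ : 0 < β) (hβ1 : β ≤ 1) :
    ∃ C ≥ 0, ∀ (f : ℂ → ℝ) (f' : ℂ → (ℂ →L[ℝ] ℝ)) (B K : ℝ), 0 ≤ B → 0 ≤ K →
      (∀ z ∈ U h, HasFDerivAt f (f' z) z) → ContinuousOn f' (U h) → (∃ B', ∀ z ∈ U h, ‖f' z‖ ≤ B') →
      (∀ z ∈ U h, |f z| ≤ B) → (∀ z ∈ U h, ∀ w ∈ U h, |f z - f w| ≤ K * ‖z - w‖ ^ β) →
      (∀ z ∈ S h, ∀ w ∈ S h, ‖W h f z - W h f w‖ ≤ C * (B + K) * ‖z - w‖) := by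
  obtain ⟨C0, hC0, hdata⟩ := W_data
  obtain ⟨C1, hC1, hhalf⟩ := lemmaS_half (R := h / 2) (β := β) (by positivity) hβ hβ1
  obtain ⟨C2, hC2, hdisc⟩ := lemmaS_disc (R := h / 32) (β := β) (by positivity) hβ hβ1
  refine ⟨(C1 + C2) * (C0 * h + 1) + 512 * C0, by positivity, ?_⟩
  intro f f' B K hB hK hd hc hB' hb hhol z hz w hw
  have H := hdata h hh f f' B hB hd hc hB' hb
  set g : ℂ → ℂ := fun z => Complex.I * W h f z with hg
  set q : ℂ → ℂ := fun z => -(Complex.I * (f z : ℂ) / 2) with hq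
  have hA : 0 ≤ C0 * h * B := by positivity
  have hqK : ∀ z ∈ U h, ∀ w ∈ U h, ‖q z - q w‖ ≤ K * ‖z - w‖ ^ β := by
    intro z hz w hw
    have e : q z - q w = -(Complex.I * (((f z - f w : ℝ) : ℂ)) / 2) := by
      simp only [hq]; push_cast; ring
    rw [e, norm_neg, norm_div, norm_mul, Complex.norm_I, one_mul, Complex.norm_real,
      Real.norm_eq_abs]
    have h1 := hhol z hz w hw
    have h2 : ‖(2 : ℂ)‖ = 2 := by norm_num
    rw [h2]
    have := abs_nonneg (f z - f w)
    linarith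
  have hrw : ‖W h f z - W h f w‖ = ‖g z - g w‖ := (norm_I_mul_sub _ _).symm
  rw [hrw]
  have hn := norm_nonneg (z - w)
  by_cases hfar : ‖z - w‖ ≤ h / 256
  · have hUb : ∀ c : ℂ, c.im = 0 → ∀ z ∈ ball c (h / 2), c.im < z.im → z ∈ U h := by
      intro c hc0 z hz h1
      rw [hc0] at h1
      rw [mem_ball, dist_eq_norm] at hz
      have := (le_abs_self _).trans_lt ((Complex.abs_im_le_norm (z - c)).trans_lt hz)
      rw [Complex.sub_im, hc0] at this
      exact ⟨h1, by linarith⟩
    have hE1 : ∀ r : ℝ, 0 ≤ r → C1 * (C0 * h * B + B + K) * r ≤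
        (C1 + C2) * (C0 * h * B + B + K) * r := by
      intro r hr
      have h1 : C1 ≤ C1 + C2 := by linarith
      have h2 : 0 ≤ C0 * h * B + B + K := by positivity
      exact mul_le_mul_of_nonneg_right (mul_le_mul_of_nonneg_right h1 h2) hr
    have hE2 : ∀ r : ℝ, 0 ≤ r → C2 * (C0 * h * B + B + K) * r ≤
        (C1 + C2) * (C0 * h * B + B + K) * r := by
      intro r hr
      have h1 : C2 ≤ C1 + C2 := by linarith
      have h2 : 0 ≤ C0 * h * B + B + K := by positivity
      exact mul_le_mul_of_nonneg_right (mul_le_mul_of_nonneg_right h1 h2) hr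
    have hglue := strip_glue (E := fun r => (C1 + C2) * (C0 * h * B + B + K) * r) hh (g := g)
      (fun c hc0 z hz hz1 w hw hw1 => (hhalf c g _ q (C0 * h * B) B K hA hB hK (H.half hh hc0)
        (fun z hz hz1 w hw hw1 => hqK z (hUb c hc0 z hz hz1) w (hUb c hc0 w hw hw1))
        z hz hz1 w hw hw1).trans (hE1 _ (norm_nonneg _)))
      (fun c hc0 z hz hz1 w hw hw1 => (hhalf c (fun z => conj (g (sig h z))) _
        (fun z => conj (q (sig h z))) (C0 * h * B) B K hA hB hK (H.refl.half hh hc0)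
        (fun z hz hz1 w hw hw1 => by
          rw [norm_conj_sub, ← sig_norm h z w]
          exact hqK _ (sig_mem_U (hUb c hc0 z hz hz1)) _ (sig_mem_U (hUb c hc0 w hw hw1)))
        z hz hz1 w hw hw1).trans (hE1 _ (norm_nonneg _)))
      (fun c hc1 hc2 z hz w hw => (hdisc c g _ q (C0 * h * B) B K hA hB hK (H.disc hc1 hc2)
        (fun z hz w hw => hqK z (ball_sub_U hc1 hc2 hz) w (ball_sub_U hc1 hc2 hw))
        z hz w hw).trans (hE2 _ (norm_nonneg _))) hz hw hfar
    refine hglue.trans ?_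
    refine mul_le_mul_of_nonneg_right ?_ hn
    have h1 : C0 * h * B + B + K ≤ (C0 * h + 1) * (B + K) := by
      have : 0 ≤ C0 * h * K := by positivity
      nlinarith
    have h2 := mul_le_mul_of_nonneg_left h1 (add_nonneg hC1 hC2)
    have h3 : 0 ≤ 512 * C0 * (B + K) := by positivity
    calc (C1 + C2) * (C0 * h * B + B + K) ≤ (C1 + C2) * ((C0 * h + 1) * (B + K)) := h2
      _ ≤ (C1 + C2) * ((C0 * h + 1) * (B + K)) + 512 * C0 * (B + K) := by linarith
      _ = _ := by ring
  · push Not at hfar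
    have h1 := H.bdg z hz
    have h2 := H.bdg w hw
    have h3 : ‖g z - g w‖ ≤ 2 * (C0 * h * B) := (norm_sub_le _ _).trans (by linarith)
    have h4 : 2 * (C0 * h * B) ≤ 512 * C0 * B * ‖z - w‖ := by
      have h5 : h ≤ 256 * ‖z - w‖ := by linarith
      have h6 := mul_le_mul_of_nonneg_left h5 (show 0 ≤ 2 * C0 * B by positivity)
      linarith
    have h7 : 512 * C0 * B * ‖z - w‖ ≤
        ((C1 + C2) * (C0 * h + 1) + 512 * C0) * (B + K) * ‖z - w‖ := by
      refine mul_le_mul_of_nonneg_right ?_ hn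
      have : 0 ≤ (C1 + C2) * (C0 * h + 1) * (B + K) := by positivity
      have : 0 ≤ 512 * C0 * K := by positivity
      linarith
    exact h3.trans (h4.trans h7)

end Pool.Agent.EAC
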