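import Pool.Agent.EAC.S3
import Pool.Agent.EAC.G5
import Pool.Agent.EAC.S4x

/-!
# EAC-S4: Lipschitz and log-Lipschitz estimates for `W` (Lemma S)

First for `f` as in `W_fderiv` (then `W h f` is Lipschitz on `S h`, qualitatively, since its derivative is bounded in the convex `U h` and it is continuous on `S h`).
Put `g = i W` (real on `Im = 0` and `Im = h`), `dbar = -i f/2`. For `z₀ ∈ S h`: if `Im z₀ ≤ h/16` use the half disc with centre `c = Re z₀`, `R = h/2`
(`z₀ ∈ closedBall c (R/8)`); if `Im z₀ ≥ h - h/16` the reflected half disc at the top: apply Lemma S to `g*(z) = conj (g (conj z + i h))`; otherwise the disc with centre `z₀`,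
`R = h/16`. So `‖W z - W z₀‖ ≤ C(B+K)‖z-z₀‖` for `‖z-z₀‖ ≤ r₀(h)`; for larger distances use `W_bound`. Constants depend on `h, β` only.
Then for `f` merely Hölder on `U h`: approximation `moll`: extend `f` by `f(clamp Im)` / `holder_ext` and mollify: smooth `f_j` with bounded derivatives (for each `j`),
`|f_j| ≤ 2B`, Hölder constant `2K`, `|f_j - f| ≤ 2K j^{-β}` on `U h`; `W f_j → W f` by `W_bound`, pass to the limit.

THIS FILE: W_log_smooth.
-/

set_option autoImplicit false

noncomputable section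

namespace Pool.Agent.EAC


open MeasureTheory Set Filter Topology Metric
open scoped ENNReal ComplexConjugate

theorem W_log_smooth {h : ℝ} (hh : 0 < h) :
    ∃ C ≥ 0, ∀ (f : ℂ → ℝ) (f' : ℂ → (ℂ →L[ℝ] ℝ)) (B : ℝ), 0 ≤ B →
      (∀ z ∈ U h, HasFDerivAt f (f' z) z) → ContinuousOn f' (U h) → (∃ B', ∀ z ∈ U h, ‖f' z‖ ≤ B') →
      (∀ z ∈ U h, |f z| ≤ B) →
      (∀ z ∈ S h, ∀ w ∈ S h, ‖W h f z - W h f w‖ ≤ C * B * lgm ‖z - w‖) := by
  obtain ⟨C0, hC0, hdata⟩ := W_data
  obtain ⟨C1, hC1, hhalf⟩ := lemmaS_half_log (R := h / 2) (by positivity)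
  obtain ⟨C2, hC2, hdisc⟩ := lemmaS_disc_log (R := h / 32) (by positivity)
  refine ⟨(C1 + C2) * (C0 * h + 1) + 512 * C0, by positivity, ?_⟩
  intro f f' B hB hd hc hB' hb z hz w hw
  have H := hdata h hh f f' B hB hd hc hB' hb
  set g : ℂ → ℂ := fun z => Complex.I * W h f z with hg
  set q : ℂ → ℂ := fun z => -(Complex.I * (f z : ℂ) / 2) with hq
  have hA : 0 ≤ C0 * h * B := by positivity
  have hrw : ‖W h f z - W h f w‖ = ‖g z - g w‖ := (norm_I_mul_sub _ _).symm
  rw [hrw]
  have hn := norm_nonneg (z - w)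
  have hl := lgm_nonneg hn
  by_cases hfar : ‖z - w‖ ≤ h / 256
  · have hE1 : ∀ r : ℝ, 0 ≤ r → C1 * (C0 * h * B + B) * lgm r ≤
        (C1 + C2) * (C0 * h * B + B) * lgm r := by
      intro r hr
      have h1 : C1 ≤ C1 + C2 := by linarith
      have h2 : 0 ≤ C0 * h * B + B := by positivity
      exact mul_le_mul_of_nonneg_right (mul_le_mul_of_nonneg_right h1 h2) (lgm_nonneg hr)
    have hE2 : ∀ r : ℝ, 0 ≤ r → C2 * (C0 * h * B + B) * lgm r ≤
        (C1 + C2) * (C0 * h * B + B) * lgm r := by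
      intro r hr
      have h1 : C2 ≤ C1 + C2 := by linarith
      have h2 : 0 ≤ C0 * h * B + B := by positivity
      exact mul_le_mul_of_nonneg_right (mul_le_mul_of_nonneg_right h1 h2) (lgm_nonneg hr)
    have hglue := strip_glue (E := fun r => (C1 + C2) * (C0 * h * B + B) * lgm r) hh (g := g)
      (fun c hc0 z hz hz1 w hw hw1 => (hhalf c g _ q (C0 * h * B) B hA hB (H.half hh hc0)
        z hz hz1 w hw hw1).trans (hE1 _ (norm_nonneg _)))
      (fun c hc0 z hz hz1 w hw hw1 => (hhalf c (fun z => conj (g (sig h z))) _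
        (fun z => conj (q (sig h z))) (C0 * h * B) B hA hB (H.refl.half hh hc0)
        z hz hz1 w hw hw1).trans (hE1 _ (norm_nonneg _)))
      (fun c hc1 hc2 z hz w hw => (hdisc c g _ q (C0 * h * B) B hA hB (H.disc hc1 hc2)
        z hz w hw).trans (hE2 _ (norm_nonneg _))) hz hw hfar
    refine hglue.trans ?_
    refine mul_le_mul_of_nonneg_right ?_ hl
    have h3 : 0 ≤ 512 * C0 * B := by positivity
    calc (C1 + C2) * (C0 * h * B + B)
        ≤ (C1 + C2) * (C0 * h * B + B) + 512 * C0 * B := by linarith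
      _ = _ := by ring
  · push Not at hfar
    have h1 := H.bdg z hz
    have h2 := H.bdg w hw
    have h3 : ‖g z - g w‖ ≤ 2 * (C0 * h * B) := (norm_sub_le _ _).trans (by linarith)
    have h4 : 2 * (C0 * h * B) ≤ 512 * C0 * B * lgm ‖z - w‖ := by
      have h5 : h ≤ 256 * lgm ‖z - w‖ := by linarith [le_lgm hn]
      have h6 := mul_le_mul_of_nonneg_left h5 (show 0 ≤ 2 * C0 * B by positivity)
      linarith
    have h7 : 512 * C0 * B * lgm ‖z - w‖ ≤
        ((C1 + C2) * (C0 * h + 1) + 512 * C0) * B * lgm ‖z - w‖ := by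
      refine mul_le_mul_of_nonneg_right ?_ hl
      have : 0 ≤ (C1 + C2) * (C0 * h + 1) * B := by positivity
      linarith
    exact h3.trans (h4.trans h7)

end Pool.Agent.EAC
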