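import Pool.Agent.EAC.S4a
import Pool.Agent.EAC.S4b
import Pool.Agent.EAC.S4c

/-!
# EAC-S4: Lipschitz and log-Lipschitz estimates for `W` (Lemma S)

First for `f` as in `W_fderiv` (then `W h f` is Lipschitz on `S h`, qualitatively, since its derivative is bounded in the convex `U h` and it is continuous on `S h`).
Put `g = i W` (real on `Im = 0` and `Im = h`), `dbar = -i f/2`. For `z₀ ∈ S h`: if `Im z₀ ≤ h/16` use the half disc with centre `c = Re z₀`, `R = h/2`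
(`z₀ ∈ closedBall c (R/8)`); if `Im z₀ ≥ h - h/16` the reflected half disc at the top: apply Lemma S to `g*(z) = conj (g (conj z + i h))`; otherwise the disc with centre `z₀`,
`R = h/16`. So `‖W z - W z₀‖ ≤ C(B+K)‖z-z₀‖` for `‖z-z₀‖ ≤ r₀(h)`; for larger distances use `W_bound`. Constants depend on `h, β` only.
Then for `f` merely Hölder on `U h`: approximation `moll`: extend `f` by `f(clamp Im)` / `holder_ext` and mollify: smooth `f_j` with bounded derivatives (for each `j`),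
`|f_j| ≤ 2B`, Hölder constant `2K`, `|f_j - f| ≤ 2K j^{-β}` on `U h`; `W f_j → W f` by `W_bound`, pass to the limit.

THIS FILE: W_lip, W_log.
-/

set_option autoImplicit false

noncomputable section

namespace Pool.Agent.EAC


open MeasureTheory Set Filter Topology Metric
open scoped ENNReal ComplexConjugate

theorem S4d_cont {h β K : ℝ} (hβ : 0 < β) {f : ℂ → ℝ}
    (hK : ∀ z ∈ U h, ∀ w ∈ U h, |f z - f w| ≤ K * ‖z - w‖ ^ β) : ContinuousOn f (U h) := by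
  intro z hz
  have h1 : Tendsto (fun w : ℂ => K * ‖w - z‖ ^ β) (𝓝[U h] z) (𝓝 0) := by
    have h2 : Continuous (fun w : ℂ => K * ‖w - z‖ ^ β) := by
      refine continuous_const.mul ?_
      exact (continuous_norm.comp (continuous_id.sub continuous_const)).rpow_const
        (fun _ => Or.inr hβ.le)
    have h3 := (h2.tendsto z).mono_left (nhdsWithin_le_nhds (s := U h))
    simpa [Real.zero_rpow hβ.ne'] using h3
  rw [ContinuousWithinAt, tendsto_iff_norm_sub_tendsto_zero]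
  refine squeeze_zero' (Eventually.of_forall fun _ => norm_nonneg _) ?_ h1
  filter_upwards [self_mem_nhdsWithin] with w hw
  rw [Real.norm_eq_abs]
  exact hK w hw z hz

theorem S4d_limit {h β B K : ℝ} (hh : 0 < h) (hβ : 0 < β) (hβ1 : β ≤ 1) (hB0 : 0 ≤ B)
    (hK0 : 0 ≤ K) {f : ℂ → ℝ} (hB : ∀ z ∈ U h, |f z| ≤ B)
    (hK : ∀ z ∈ U h, ∀ w ∈ U h, |f z - f w| ≤ K * ‖z - w‖ ^ β) {z w : ℂ} (hz : z ∈ S h)
    (hw : w ∈ S h) {M : ℝ}
    (H : ∀ g : ℂ → ℝ, ContDiff ℝ (⊤ : ℕ∞) g → (∀ z, |g z| ≤ B) →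
      (∃ B', ∀ z, ‖fderiv ℝ g z‖ ≤ B') → (∀ z w, |g z - g w| ≤ K * ‖z - w‖ ^ β) →
      ‖W h g z - W h g w‖ ≤ M) :
    ‖W h f z - W h f w‖ ≤ M := by
  obtain ⟨C, hC, hWb⟩ := W_bound
  have hf : BM h f B := BM_of_continuousOn (S4d_cont hβ hK) hB
  have key : ∀ δ : ℝ, 0 < δ → δ ≤ 1 →
      ‖W h f z - W h f w‖ ≤ M + 2 * (C * h * (K * δ ^ β)) := by
    intro δ hδ hδ1
    obtain ⟨g, hg, hgB, hg', hgK, hgf⟩ := moll hβ hβ1 hB0 hK0 hB hK δ hδ hδ1
    have hgBM : BM h g B := BM_of_continuousOn hg.continuous.continuousOn (fun w _ => hgB w)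
    have hd : BM h (fun w => g w - f w) (K * δ ^ β) :=
      ⟨hgBM.1.sub hf.1, fun w hw => hgf w hw⟩
    have h1 := hWb h hh _ _ hd z hz
    have h2 := hWb h hh _ _ hd w hw
    rw [W_sub hh hgBM hf hz] at h1
    rw [W_sub hh hgBM hf hw] at h2
    have h3 := H g hg hgB hg' hgK
    have h4 : W h f z - W h f w =
        (W h g z - W h g w) - (W h g z - W h f z) + (W h g w - W h f w) := by ring
    rw [h4]
    calc ‖(W h g z - W h g w) - (W h g z - W h f z) + (W h g w - W h f w)‖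
        ≤ ‖(W h g z - W h g w) - (W h g z - W h f z)‖ + ‖W h g w - W h f w‖ := norm_add_le _ _
      _ ≤ (‖W h g z - W h g w‖ + ‖W h g z - W h f z‖) + ‖W h g w - W h f w‖ := by
          gcongr
          exact norm_sub_le _ _
      _ ≤ M + 2 * (C * h * (K * δ ^ β)) := by linarith
  have hlim : Tendsto (fun δ : ℝ => M + 2 * (C * h * (K * δ ^ β))) (𝓝[>] 0) (𝓝 M) := by
    have h2 : Continuous (fun δ : ℝ => M + 2 * (C * h * (K * δ ^ β))) := by
      refine continuous_const.add (continuous_const.mul (continuous_const.mul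
        (continuous_const.mul ?_)))
      exact continuous_id.rpow_const (fun _ => Or.inr hβ.le)
    have h3 := (h2.tendsto 0).mono_left (nhdsWithin_le_nhds (s := Ioi (0 : ℝ)))
    simpa [Real.zero_rpow hβ.ne'] using h3
  refine ge_of_tendsto hlim ?_
  have h5 : ∀ᶠ δ : ℝ in 𝓝[>] 0, δ < 1 :=
    nhdsWithin_le_nhds (Iio_mem_nhds zero_lt_one)
  filter_upwards [self_mem_nhdsWithin, h5] with δ hδ hδ1
  exact key δ hδ hδ1.le

theorem W_lip {h β : ℝ} (hh : 0 < h) (hβ : 0 < β) (hβ1 : β ≤ 1) :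
    ∃ C ≥ 0, ∀ (f : ℂ → ℝ) (B K : ℝ), 0 ≤ B → 0 ≤ K → (∀ z ∈ U h, |f z| ≤ B) →
      (∀ z ∈ U h, ∀ w ∈ U h, |f z - f w| ≤ K * ‖z - w‖ ^ β) →
      (∀ z ∈ S h, ∀ w ∈ S h, ‖W h f z - W h f w‖ ≤ C * (B + K) * ‖z - w‖) := by
  obtain ⟨C, hC, hS⟩ := W_lip_smooth hh hβ hβ1
  refine ⟨C, hC, fun f B K hB0 hK0 hB hK z hz w hw => ?_⟩
  refine S4d_limit hh hβ hβ1 hB0 hK0 hB hK hz hw ?_
  intro g hg hgB hg' hgK
  refine hS g (fderiv ℝ g) B K hB0 hK0 ?_ ?_ ?_ (fun z _ => hgB z) (fun z _ w _ => hgK z w) z hz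
    w hw
  · intro z _
    exact (hg.differentiable (by simp)).differentiableAt.hasFDerivAt
  · exact (hg.continuous_fderiv (by simp)).continuousOn
  · obtain ⟨B', hB'⟩ := hg'
    exact ⟨B', fun z _ => hB' z⟩

theorem W_log {h : ℝ} (hh : 0 < h) :
    ∃ C ≥ 0, ∀ (f : ℂ → ℝ) (B β K : ℝ), 0 < β → β ≤ 1 → 0 ≤ B → 0 ≤ K → (∀ z ∈ U h, |f z| ≤ B) →
      (∀ z ∈ U h, ∀ w ∈ U h, |f z - f w| ≤ K * ‖z - w‖ ^ β) →
      (∀ z ∈ S h, ∀ w ∈ S h, ‖W h f z - W h f w‖ ≤ C * B * lgm ‖z - w‖) := by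
  obtain ⟨C, hC, hS⟩ := W_log_smooth hh
  refine ⟨C, hC, fun f B β K hβ hβ1 hB0 hK0 hB hK z hz w hw => ?_⟩
  refine S4d_limit hh hβ hβ1 hB0 hK0 hB hK hz hw ?_
  intro g hg hgB hg' hgK
  refine hS g (fderiv ℝ g) B hB0 ?_ ?_ ?_ (fun z _ => hgB z) z hz w hw
  · intro z _
    exact (hg.differentiable (by simp)).differentiableAt.hasFDerivAt
  · exact (hg.continuous_fderiv (by simp)).continuousOn
  · obtain ⟨B', hB'⟩ := hg'
    exact ⟨B', fun z _ => hB' z⟩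

end Pool.Agent.EAC
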