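import Pool.Agent.EAC.Strip

/-!
# EAC-S4: Lipschitz and log-Lipschitz estimates for `W` (Lemma S)

First for `f` as in `W_fderiv` (then `W h f` is Lipschitz on `S h`, qualitatively, since its derivative is bounded in the convex `U h` and it is continuous on `S h`).
Put `g = i W` (real on `Im = 0` and `Im = h`), `dbar = -i f/2`. For `z₀ ∈ S h`: if `Im z₀ ≤ h/16` use the half disc with centre `c = Re z₀`, `R = h/2`
(`z₀ ∈ closedBall c (R/8)`); if `Im z₀ ≥ h - h/16` the reflected half disc at the top: apply Lemma S to `g*(z) = conj (g (conj z + i h))`; otherwise the disc with centre `z₀`,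
`R = h/16`. So `‖W z - W z₀‖ ≤ C(B+K)‖z-z₀‖` for `‖z-z₀‖ ≤ r₀(h)`; for larger distances use `W_bound`. Constants depend on `h, β` only.
Then for `f` merely Hölder on `U h`: approximation `moll`: extend `f` by `f(clamp Im)` / `holder_ext` and mollify: smooth `f_j` with bounded derivatives (for each `j`),
`|f_j| ≤ 2B`, Hölder constant `2K`, `|f_j - f| ≤ 2K j^{-β}` on `U h`; `W f_j → W f` by `W_bound`, pass to the limit.

THIS FILE: moll.
-/

set_option autoImplicit false

noncomputable section

namespace Pool.Agent.EAC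


open MeasureTheory Set Filter Topology Metric
open scoped ENNReal ComplexConjugate Convolution

/-- Hölder extension with the same constants (McShane, truncated). -/
theorem moll_ext {β B K : ℝ} (hβ : 0 < β) (hβ1 : β ≤ 1) (hB0 : 0 ≤ B) (hK0 : 0 ≤ K) {f : ℂ → ℝ}
    {A : Set ℂ} (hB : ∀ z ∈ A, |f z| ≤ B) (hK : ∀ z ∈ A, ∀ w ∈ A, |f z - f w| ≤ K * ‖z - w‖ ^ β) :
    ∃ F : ℂ → ℝ, (∀ z, |F z| ≤ B) ∧ (∀ z w, |F z - F w| ≤ K * ‖z - w‖ ^ β) ∧
      ∀ z ∈ A, F z = f z := by
  rcases A.eq_empty_or_nonempty with hA | hA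
  · refine ⟨fun _ => 0, fun z => by simpa using hB0, fun z w => ?_, ?_⟩
    · simp only [sub_self, abs_zero]
      positivity
    · intro z hz
      rw [hA] at hz
      exact absurd hz (Set.notMem_empty z)
  have hbelow : ∀ z, BddBelow ((fun w => f w + K * ‖z - w‖ ^ β) '' A) := by
    intro z
    refine ⟨-B, ?_⟩
    rintro _ ⟨w, hw, rfl⟩
    have h1 := (abs_le.1 (hB w hw)).1
    have h2 : 0 ≤ K * ‖z - w‖ ^ β := by positivity
    show -B ≤ f w + K * ‖z - w‖ ^ β
    linarith
  have htri : ∀ z z' w : ℂ, ‖z - w‖ ^ β ≤ ‖z' - w‖ ^ β + ‖z - z'‖ ^ β := by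
    intro z z' w
    calc ‖z - w‖ ^ β ≤ (‖z' - w‖ + ‖z - z'‖) ^ β := by
          refine Real.rpow_le_rpow (norm_nonneg _) ?_ hβ.le
          calc ‖z - w‖ = ‖(z' - w) + (z - z')‖ := by congr 1; ring
            _ ≤ _ := norm_add_le _ _
      _ ≤ _ := Real.rpow_add_le_add_rpow (norm_nonneg _) (norm_nonneg _) hβ.le hβ1
  obtain ⟨G, hG⟩ : ∃ G : ℂ → ℝ, ∀ z, G z = sInf ((fun w => f w + K * ‖z - w‖ ^ β) '' A) :=
    ⟨_, fun z => rfl⟩
  have hGle : ∀ z, ∀ w ∈ A, G z ≤ f w + K * ‖z - w‖ ^ β := by
    intro z w hw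
    rw [hG]
    exact csInf_le (hbelow z) ⟨w, hw, rfl⟩
  have hGge : ∀ z c, (∀ w ∈ A, c ≤ f w + K * ‖z - w‖ ^ β) → c ≤ G z := by
    intro z c hc
    rw [hG]
    refine le_csInf (hA.image _) ?_
    rintro _ ⟨w, hw, rfl⟩
    exact hc w hw
  have hGH1 : ∀ z z', G z - G z' ≤ K * ‖z - z'‖ ^ β := by
    intro z z'
    have : G z - K * ‖z - z'‖ ^ β ≤ G z' := by
      refine hGge z' _ ?_
      intro w hw
      have h1 := hGle z w hw
      have h2 := mul_le_mul_of_nonneg_left (htri z z' w) hK0
      linarith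
    linarith
  have hGH : ∀ z z', |G z - G z'| ≤ K * ‖z - z'‖ ^ β := by
    intro z z'
    rw [abs_le]
    constructor
    · have := hGH1 z' z
      rw [norm_sub_rev] at this
      linarith
    · exact hGH1 z z'
  have hGf : ∀ z ∈ A, G z = f z := by
    intro z hz
    refine le_antisymm ?_ ?_
    · have := hGle z z hz
      rw [sub_self, norm_zero, Real.zero_rpow hβ.ne'] at this
      simpa using this
    · refine hGge z _ ?_
      intro w hw
      have := (abs_le.1 (hK z hz w hw)).2
      linarith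
  refine ⟨fun z => max (-B) (min B (G z)), ?_, ?_, ?_⟩
  · intro z
    rw [abs_le]
    exact ⟨le_max_left _ _, max_le (by linarith) (min_le_left _ _)⟩
  · intro z w
    calc |max (-B) (min B (G z)) - max (-B) (min B (G w))| ≤ |min B (G z) - min B (G w)| := by
          have := abs_max_sub_max_le_max (-B) (min B (G z)) (-B) (min B (G w))
          simpa using this
      _ ≤ |G z - G w| := by
          have := abs_min_sub_min_le_max B (G z) B (G w)
          simpa using this
      _ ≤ _ := hGH z w
  · intro z hz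
    have h1 := abs_le.1 (hB z hz)
    show max (-B) (min B (G z)) = f z
    rw [hGf z hz, min_eq_right h1.2, max_eq_right h1.1]

/-- smooth approximation of Hölder functions. -/
theorem moll {h β B K : ℝ} (hβ : 0 < β) (hβ1 : β ≤ 1) (hB0 : 0 ≤ B) (hK0 : 0 ≤ K) {f : ℂ → ℝ}
    (hB : ∀ z ∈ U h, |f z| ≤ B) (hK : ∀ z ∈ U h, ∀ w ∈ U h, |f z - f w| ≤ K * ‖z - w‖ ^ β) :
    ∀ δ > 0, δ ≤ 1 → ∃ g : ℂ → ℝ, ContDiff ℝ (⊤ : ℕ∞) g ∧ (∀ z, |g z| ≤ B) ∧
      (∃ B', ∀ z, ‖fderiv ℝ g z‖ ≤ B') ∧ (∀ z w, |g z - g w| ≤ K * ‖z - w‖ ^ β) ∧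
      ∀ z ∈ U h, |g z - f z| ≤ K * δ ^ β := by
  obtain ⟨F, hFB, hFK, hFf⟩ := moll_ext hβ hβ1 hB0 hK0 hB hK
  have hFc : Continuous F := by
    rw [Metric.continuous_iff]
    intro z ε hε
    have hlim : Tendsto (fun r : ℝ => K * r ^ β) (𝓝 0) (𝓝 0) := by
      have h1 : Continuous (fun r : ℝ => K * r ^ β) :=
        continuous_const.mul (Real.continuous_rpow_const hβ.le)
      have h2 := h1.tendsto 0
      simpa [Real.zero_rpow hβ.ne'] using h2
    obtain ⟨d, hd, hd2⟩ := Metric.tendsto_nhds_nhds.1 hlim ε hε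
    refine ⟨d, hd, fun w hw => ?_⟩
    have h3 := @hd2 ‖w - z‖ (by
      rw [dist_zero_right, Real.norm_eq_abs, abs_of_nonneg (norm_nonneg _), ← dist_eq_norm]
      exact hw)
    rw [dist_zero_right, Real.norm_eq_abs] at h3
    rw [Real.dist_eq]
    exact lt_of_le_of_lt (hFK w z) (lt_of_le_of_lt (le_abs_self _) h3)
  intro δ hδ _
  obtain ⟨φ, hφ⟩ : ∃ φ : ContDiffBump (0 : ℂ), φ.rOut = δ :=
    ⟨⟨δ / 2, δ, by linarith, by linarith⟩, rfl⟩
  obtain ⟨p, hp⟩ : ∃ p : ℂ → ℝ, p = φ.normed volume := ⟨_, rfl⟩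
  have hp0 : ∀ t, 0 ≤ p t := fun t => by rw [hp]; exact φ.nonneg_normed t
  have hp1 : ∫ t, p t = 1 := by rw [hp]; exact φ.integral_normed
  have hpc : HasCompactSupport p := by rw [hp]; exact φ.hasCompactSupport_normed
  have hps : ContDiff ℝ (⊤ : ℕ∞) p := by rw [hp]; exact φ.contDiff_normed
  have hpi : Integrable p := hps.continuous.integrable_of_hasCompactSupport hpc
  have hpF : ∀ z, Integrable (fun t => p t * F (z - t)) := by
    intro z
    refine Continuous.integrable_of_hasCompactSupport ?_ hpc.mul_right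
    exact hps.continuous.mul (hFc.comp (continuous_const.sub continuous_id))
  obtain ⟨g, hg⟩ : ∃ g : ℂ → ℝ, g = (p ⋆[ContinuousLinearMap.lsmul ℝ ℝ, volume] F : ℂ → ℝ) :=
    ⟨_, rfl⟩
  have hge : ∀ z, g z = ∫ t, p t * F (z - t) := by
    intro z
    rw [hg]
    rfl
  refine ⟨g, ?_, ?_, ?_, ?_, ?_⟩
  · rw [hg]
    exact hpc.contDiff_convolution_left _ hps hFc.locallyIntegrable
  · intro z
    rw [hge, ← Real.norm_eq_abs]
    have h1 : ∫ t, p t * B = B := by
      rw [integral_mul_const, hp1, one_mul]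
    calc ‖∫ t, p t * F (z - t)‖ ≤ ∫ t, p t * B := by
          refine norm_integral_le_of_norm_le (hpi.mul_const B) (ae_of_all _ fun t => ?_)
          rw [norm_mul, Real.norm_eq_abs, Real.norm_eq_abs, abs_of_nonneg (hp0 t)]
          exact mul_le_mul_of_nonneg_left (hFB _) (hp0 t)
      _ = B := h1
  · obtain ⟨L, hL⟩ := ContDiff.lipschitzWith_of_hasCompactSupport hpc hps (by simp)
    have hLp : ∀ a b, |p a - p b| ≤ L * ‖a - b‖ := by
      intro a b
      have := hL.dist_le_mul a b
      rwa [Real.dist_eq, dist_eq_norm] at this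
    have hp0' : ∀ x, x ∉ closedBall (0 : ℂ) δ → p x = 0 := by
      intro x hx
      by_contra hne
      have h2 : x ∈ Function.support (φ.normed volume) := by
        rw [← hp]; exact hne
      rw [φ.support_normed_eq, hφ] at h2
      exact hx (ball_subset_closedBall h2)
    have hge2 : ∀ z, g z = ∫ t, p (z - t) * F t := by
      intro z
      rw [hge, ← integral_sub_left_eq_self (fun t => p t * F (z - t)) volume z]
      refine integral_congr_ae (ae_of_all _ fun t => ?_)
      simp
    obtain ⟨V, hV⟩ : ∃ V : ℝ, V = volume.real (closedBall (0 : ℂ) δ) := ⟨_, rfl⟩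
    have hVz : ∀ z : ℂ, volume.real (closedBall z δ) = V := by
      intro z
      rw [hV, Measure.real, Measure.real, Measure.addHaar_closedBall_center]
    have hV0 : 0 ≤ V := by rw [hV]; positivity
    have hlip : LipschitzWith (Real.toNNReal (L * B * (2 * V))) g := by
      refine LipschitzWith.of_dist_le_mul fun z w => ?_
      rw [Real.coe_toNNReal _ (by positivity), Real.dist_eq, dist_eq_norm, hge2, hge2]
      have hi : ∀ z, Integrable (fun t => p (z - t) * F t) := by
        intro z
        have := (hpF z).comp_sub_left z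
        simpa using this
      rw [← integral_sub (hi z) (hi w), ← Real.norm_eq_abs]
      have hind : ∀ z : ℂ, Integrable ((closedBall z δ).indicator (fun _ => (1 : ℝ))) := by
        intro z
        rw [integrable_indicator_iff isClosed_closedBall.measurableSet]
        exact integrableOn_const (by exact measure_closedBall_lt_top.ne)
      have hval : ∀ z : ℂ, ∫ t, (closedBall z δ).indicator (fun _ => (1 : ℝ)) t = V := by
        intro z
        rw [integral_indicator_const _ isClosed_closedBall.measurableSet, smul_eq_mul, mul_one, hVz]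
      have hint : ∫ t, L * ‖z - w‖ * B * ((closedBall z δ).indicator (fun _ => (1 : ℝ)) t +
          (closedBall w δ).indicator (fun _ => (1 : ℝ)) t) = L * B * (2 * V) * ‖z - w‖ := by
        rw [integral_const_mul, integral_add (hind z) (hind w), hval, hval]
        ring
      rw [← hint]
      refine norm_integral_le_of_norm_le (((hind z).add (hind w)).const_mul _)
        (ae_of_all _ fun t => ?_)
      rw [← sub_mul, norm_mul, Real.norm_eq_abs, Real.norm_eq_abs]
      by_cases ht : t ∈ closedBall z δ ∪ closedBall w δ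
      · have h1 : 1 ≤ (closedBall z δ).indicator (fun _ => (1 : ℝ)) t +
            (closedBall w δ).indicator (fun _ => (1 : ℝ)) t := by
          have hn : ∀ z : ℂ, 0 ≤ (closedBall z δ).indicator (fun _ => (1 : ℝ)) t := fun z =>
            Set.indicator_nonneg (fun _ _ => zero_le_one) t
          rcases ht with ht | ht
          · rw [Set.indicator_of_mem ht]
            linarith [hn w]
          · rw [Set.indicator_of_mem ht]
            linarith [hn z]
        have h2 : |p (z - t) - p (w - t)| ≤ L * ‖z - w‖ := by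
          have := hLp (z - t) (w - t)
          rwa [show z - t - (w - t) = z - w by ring] at this
        calc |p (z - t) - p (w - t)| * |F t| ≤ L * ‖z - w‖ * B :=
              mul_le_mul h2 (hFB t) (abs_nonneg _) (by positivity)
          _ = L * ‖z - w‖ * B * 1 := by ring
          _ ≤ _ := mul_le_mul_of_nonneg_left h1 (by positivity)
      · have hz : p (z - t) = 0 := by
          refine hp0' _ fun hmem => ht (Or.inl ?_)
          rw [mem_closedBall, dist_eq_norm, norm_sub_rev]
          simpa using hmem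
        have hw : p (w - t) = 0 := by
          refine hp0' _ fun hmem => ht (Or.inr ?_)
          rw [mem_closedBall, dist_eq_norm, norm_sub_rev]
          simpa using hmem
        rw [hz, hw, sub_self, abs_zero, zero_mul]
        have hn : ∀ z : ℂ, 0 ≤ (closedBall z δ).indicator (fun _ => (1 : ℝ)) t := fun z =>
          Set.indicator_nonneg (fun _ _ => zero_le_one) t
        have := hn z
        have := hn w
        positivity
    exact ⟨_, fun z => norm_fderiv_le_of_lipschitz ℝ hlip⟩
  · intro z w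
    rw [hge, hge, ← integral_sub (hpF z) (hpF w), ← Real.norm_eq_abs]
    have h1 : ∫ t, p t * (K * ‖z - w‖ ^ β) = K * ‖z - w‖ ^ β := by
      rw [integral_mul_const, hp1, one_mul]
    rw [← h1]
    refine norm_integral_le_of_norm_le (hpi.mul_const _) (ae_of_all _ fun t => ?_)
    rw [← mul_sub, norm_mul, Real.norm_eq_abs, Real.norm_eq_abs, abs_of_nonneg (hp0 t)]
    refine mul_le_mul_of_nonneg_left ?_ (hp0 t)
    have := hFK (z - t) (w - t)
    rwa [show z - t - (w - t) = z - w by ring] at this
  · intro z hz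
    rw [← hFf z hz, ← Real.dist_eq, hg, hp]
    refine φ.dist_normed_convolution_le hFc.aestronglyMeasurable ?_
    intro x hx
    rw [hφ, mem_ball, dist_eq_norm] at hx
    rw [Real.dist_eq]
    refine le_trans (hFK x z) ?_
    exact mul_le_mul_of_nonneg_left (Real.rpow_le_rpow (norm_nonneg _) hx.le hβ.le) hK0

end Pool.Agent.EAC
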