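import Pool.Agent.EAC.Strip

/-!
# EAC-S5: Schauder gain: `f ∈ CC n` implies `W[f] ∈ CC (n+1)`

Base case `n = 0`, `f t` bounded by `B`, `β`-Hölder with constant `K`, `β' = β/2`. For fixed `t`:
(1) smooth `f_j → f` (`moll`, `δ = 1/j`), `f_j - f` is bounded by `K j^{-β}` and `β'`-Hölder with constant `C j^{-(β-β')}` (interpolation), so by `W_lip` (exponent `β'`)
  the derivatives `DW h f_j` are uniformly Cauchy on `U h` (`‖D(W f_j - W f_k)‖ ≤ Lip`), hence `W h f` is differentiable with derivative `G' = lim`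
  (`hasFDerivAt_of_tendstoUniformlyOn`), `G' t z = reCLM.smulRight V + imCLM.smulRight (i (V + f))`, `V = ∂_x W`.
(2) Hölder continuity of `V`: for real `s`: `D_s W := W(·+s) - W = W[f(·+s) - f]` is Lipschitz with constant `C |s|^{β-β'}` (`W_lip`), so
  `‖V(z+s) - V(z)‖ ≤ C|s|^γ`, `γ = β-β'`; vertical: `D_s W(z) = s V(z) + O(|s|^{1+γ})`, hence for `Re z = Re w`, `|z-w| ≤ 1`, with `s = |z-w|`:
  `‖V z - V w‖ ≤ 2C s^γ + s^{-1} ‖D_s W z - D_s W w‖ ≤ C' |z-w|^γ`.
(3) continuity in `(t,z)` of `G'`: from the joint continuity of `W[f t] z` (`W_time`), and the uniform Hölder bound of `G'` (interpolation lemma `cont_deriv`).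
Induction: `G' = reCLM.smulRight (W[f_x]) + imCLM.smulRight (i (W[f_x] + f))` with `f_x ∈ CC n`, `f ∈ CC (n+1)`.

THIS FILE: cont_deriv.
-/

set_option autoImplicit false

noncomputable section

namespace Pool.Agent.EAC


open MeasureTheory Set Filter Topology Metric
open scoped ENNReal ComplexConjugate

theorem S5a_clm_norm_le {F : Type} [NormedAddCommGroup F] [NormedSpace ℝ F] (A : ℂ →L[ℝ] F) :
    ‖A‖ ≤ ‖A 1‖ + ‖A Complex.I‖ := by
  refine A.opNorm_le_bound (by positivity) fun z => ?_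
  have hz : z = z.re • (1 : ℂ) + z.im • Complex.I := by
    rw [Complex.real_smul, Complex.real_smul, mul_one]
    exact (Complex.re_add_im z).symm
  have h1 : A z = z.re • A 1 + z.im • A Complex.I := by
    conv_lhs => rw [hz]
    rw [map_add, map_smul, map_smul]
  rw [h1]
  refine (norm_add_le _ _).trans ?_
  rw [norm_smul, norm_smul, Real.norm_eq_abs, Real.norm_eq_abs]
  have h2 := Complex.abs_re_le_norm z
  have h3 := Complex.abs_im_le_norm z
  have h4 := norm_nonneg (A 1)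
  have h5 := norm_nonneg (A Complex.I)
  nlinarith

theorem S5a_isOpen_U (h : ℝ) : IsOpen (U h) := by
  have h1 : IsOpen {z : ℂ | 0 < z.im} := isOpen_lt continuous_const Complex.continuous_im
  have h2 : IsOpen {z : ℂ | z.im < h} := isOpen_lt Complex.continuous_im continuous_const
  exact h1.inter h2

/-- interpolation: joint continuity of the derivative from joint continuity of the function and
uniform Hölder continuity of the derivative. -/
theorem cont_deriv {T h β K : ℝ} {F : Type} [NormedAddCommGroup F] [NormedSpace ℝ F]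
    {G : ℝ → ℂ → F} {G' : ℝ → ℂ → (ℂ →L[ℝ] F)} (hβ : 0 < β)
    (hG : ContinuousOn (fun p : ℝ × ℂ => G p.1 p.2) (Icc 0 T ×ˢ U h))
    (hd : ∀ t ∈ Icc 0 T, ∀ z ∈ U h, HasFDerivAt (G t) (G' t z) z)
    (hK : ∀ t ∈ Icc 0 T, ∀ z ∈ U h, ∀ w ∈ U h, ‖G' t z - G' t w‖ ≤ K * ‖z - w‖ ^ β) :
    ContinuousOn (fun p : ℝ × ℂ => G' p.1 p.2) (Icc 0 T ×ˢ U h) := by
  have hpow : Tendsto (fun s : ℝ => |K| * s ^ β) (𝓝 0) (𝓝 0) := by
    have h1 : Tendsto (fun s : ℝ => |K| * s ^ β) (𝓝 0) (𝓝 (|K| * (0 : ℝ) ^ β)) :=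
      ((Real.continuousAt_rpow_const 0 β (Or.inr hβ.le)).tendsto).const_mul _
    rwa [Real.zero_rpow hβ.ne', mul_zero] at h1
  have hGt : ∀ w ∈ U h, ContinuousOn (fun t => G t w) (Icc 0 T) := by
    intro w hw
    exact hG.comp (f := fun t : ℝ => (t, w)) (by fun_prop) (fun t ht => ⟨ht, hw⟩)
  have step : ∀ z0 ∈ U h, ∀ v : ℂ, ‖v‖ = 1 → ∀ t0 ∈ Icc 0 T,
      Tendsto (fun t => (G' t z0 - G' t0 z0) v) (𝓝[Icc 0 T] t0) (𝓝 0) := by
    intro z0 hz0 v hv t0 ht0
    rw [Metric.tendsto_nhds]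
    intro ε hε
    obtain ⟨r, hr, hrU⟩ := Metric.isOpen_iff.1 (S5a_isOpen_U h) z0 hz0
    have hev : ∀ᶠ s : ℝ in 𝓝 0, |K| * s ^ β < ε / 8 :=
      hpow.eventually (gt_mem_nhds (by positivity))
    obtain ⟨r', hr', hr'K⟩ := Metric.eventually_nhds_iff.1 hev
    set s := min (r / 2) (r' / 2) with hs
    have hs0 : 0 < s := lt_min (by positivity) (by positivity)
    have hsr : s < r := (min_le_left _ _).trans_lt (by linarith)
    have hsK : |K| * s ^ β < ε / 8 := by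
      apply hr'K
      rw [Real.dist_eq, sub_zero, abs_of_pos hs0]
      exact (min_le_right _ _).trans_lt (by linarith)
    have hball : closedBall z0 s ⊆ U h := fun w hw =>
      hrU (mem_ball.2 ((mem_closedBall.1 hw).trans_lt hsr))
    have hsv : ‖(s : ℂ) * v‖ = s := by
      rw [norm_mul, hv, mul_one, Complex.norm_real, Real.norm_of_nonneg hs0.le]
    have hmem : z0 + (s : ℂ) * v ∈ closedBall z0 s := by
      rw [mem_closedBall, dist_eq_norm, add_sub_cancel_left, hsv]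
    have mv : ∀ t ∈ Icc 0 T, ‖G t (z0 + (s : ℂ) * v) - G t z0 - G' t z0 ((s : ℂ) * v)‖ ≤ ε / 8 * s := by
      intro t ht
      have := Convex.norm_image_sub_le_of_norm_hasFDerivWithin_le' (f := G t) (f' := fun w => G' t w)
        (φ := G' t z0) (C := |K| * s ^ β) (s := closedBall z0 s) (x := z0) (y := z0 + (s : ℂ) * v)
        (fun w hw => (hd t ht w (hball hw)).hasFDerivWithinAt) ?_ (convex_closedBall z0 s)
        (mem_closedBall_self hs0.le) hmem
      · rw [add_sub_cancel_left, hsv] at this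
        exact this.trans (mul_le_mul_of_nonneg_right hsK.le hs0.le)
      · intro w hw
        refine (hK t ht w (hball hw) z0 hz0).trans ?_
        have hws : ‖w - z0‖ ≤ s := by
          rw [← dist_eq_norm]; exact mem_closedBall.1 hw
        calc K * ‖w - z0‖ ^ β ≤ |K| * ‖w - z0‖ ^ β :=
              mul_le_mul_of_nonneg_right (le_abs_self K) (Real.rpow_nonneg (norm_nonneg _) _)
          _ ≤ |K| * s ^ β := mul_le_mul_of_nonneg_left
              (Real.rpow_le_rpow (norm_nonneg _) hws hβ.le) (abs_nonneg K)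
    have c1 : ∀ᶠ t in 𝓝[Icc 0 T] t0, dist (G t (z0 + (s : ℂ) * v)) (G t0 (z0 + (s : ℂ) * v)) < ε / 8 * s :=
      Metric.tendsto_nhds.1 (hGt _ (hball hmem) t0 ht0) _ (by positivity)
    have c2 : ∀ᶠ t in 𝓝[Icc 0 T] t0, dist (G t z0) (G t0 z0) < ε / 8 * s :=
      Metric.tendsto_nhds.1 (hGt _ hz0 t0 ht0) _ (by positivity)
    filter_upwards [c1, c2, self_mem_nhdsWithin] with t h1 h2 ht
    rw [dist_eq_norm] at h1 h2
    rw [dist_zero_right]
    have m1 := mv t ht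
    have m0 := mv t0 ht0
    have hlin : (G' t z0 - G' t0 z0) ((s : ℂ) * v) = s • (G' t z0 - G' t0 z0) v := by
      rw [← Complex.real_smul, map_smul]
    have heq : (G' t z0 - G' t0 z0) ((s : ℂ) * v) =
        -(G t (z0 + (s : ℂ) * v) - G t z0 - G' t z0 ((s : ℂ) * v))
        + (G t0 (z0 + (s : ℂ) * v) - G t0 z0 - G' t0 z0 ((s : ℂ) * v))
        + (G t (z0 + (s : ℂ) * v) - G t0 (z0 + (s : ℂ) * v)) - (G t z0 - G t0 z0) := by
      rw [sub_apply]
      abel
    have hn : ‖(G' t z0 - G' t0 z0) ((s : ℂ) * v)‖ ≤ ε / 2 * s := by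
      rw [heq]
      refine (norm_sub_le _ _).trans ?_
      have a1 := norm_add_le (-(G t (z0 + (s : ℂ) * v) - G t z0 - G' t z0 ((s : ℂ) * v))
        + (G t0 (z0 + (s : ℂ) * v) - G t0 z0 - G' t0 z0 ((s : ℂ) * v)))
        (G t (z0 + (s : ℂ) * v) - G t0 (z0 + (s : ℂ) * v))
      have a2 := norm_add_le (-(G t (z0 + (s : ℂ) * v) - G t z0 - G' t z0 ((s : ℂ) * v)))
        (G t0 (z0 + (s : ℂ) * v) - G t0 z0 - G' t0 z0 ((s : ℂ) * v))
      rw [norm_neg] at a2
      linarith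
    rw [hlin, norm_smul, Real.norm_of_nonneg hs0.le] at hn
    have : ‖(G' t z0 - G' t0 z0) v‖ ≤ ε / 2 := by
      rw [mul_comm] at hn
      exact le_of_mul_le_mul_right hn hs0
    linarith
  rintro ⟨t0, z0⟩ ⟨ht0, hz0⟩
  simp only at ht0 hz0
  rw [ContinuousWithinAt, tendsto_iff_norm_sub_tendsto_zero]
  have hfst : Tendsto (fun p : ℝ × ℂ => p.1) (𝓝[Icc 0 T ×ˢ U h] (t0, z0)) (𝓝[Icc 0 T] t0) := by
    refine tendsto_nhdsWithin_iff.2 ⟨(continuous_fst.tendsto _).mono_left nhdsWithin_le_nhds, ?_⟩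
    filter_upwards [self_mem_nhdsWithin] with p hp
    exact hp.1
  have b1 := ((step z0 hz0 1 (by simp) t0 ht0).norm).comp hfst
  have b2 := ((step z0 hz0 Complex.I (by simp) t0 ht0).norm).comp hfst
  have b3 : Tendsto (fun p : ℝ × ℂ => |K| * ‖p.2 - z0‖ ^ β) (𝓝[Icc 0 T ×ˢ U h] (t0, z0)) (𝓝 0) := by
    have : Tendsto (fun p : ℝ × ℂ => ‖p.2 - z0‖) (𝓝[Icc 0 T ×ˢ U h] (t0, z0)) (𝓝 0) := by
      have hc : Continuous (fun p : ℝ × ℂ => ‖p.2 - z0‖) := by fun_prop
      have := (hc.tendsto (t0, z0)).mono_left (nhdsWithin_le_nhds (s := Icc 0 T ×ˢ U h))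
      simpa using this
    exact hpow.comp this
  have b4 := (b3.add b1).add b2
  rw [norm_zero, add_zero, add_zero] at b4
  refine squeeze_zero' (Eventually.of_forall fun p => norm_nonneg _) ?_ b4
  filter_upwards [self_mem_nhdsWithin] with p hp
  have e : G' p.1 p.2 - G' t0 z0 = (G' p.1 p.2 - G' p.1 z0) + (G' p.1 z0 - G' t0 z0) := by abel
  show ‖G' p.1 p.2 - G' t0 z0‖ ≤ |K| * ‖p.2 - z0‖ ^ β + ‖(G' p.1 z0 - G' t0 z0) 1‖
    + ‖(G' p.1 z0 - G' t0 z0) Complex.I‖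
  rw [e]
  refine (norm_add_le _ _).trans ?_
  have f1 : ‖G' p.1 p.2 - G' p.1 z0‖ ≤ |K| * ‖p.2 - z0‖ ^ β :=
    (hK p.1 hp.1 p.2 hp.2 z0 hz0).trans
      (mul_le_mul_of_nonneg_right (le_abs_self K) (Real.rpow_nonneg (norm_nonneg _) _))
  have f2 := S5a_clm_norm_le (G' p.1 z0 - G' t0 z0)
  linarith

end Pool.Agent.EAC
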