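import Pool.Agent.EAC.S4
import Pool.Agent.EAC.S5a
import Pool.Agent.EAC.R1

/-!
# EAC-S5: Schauder gain: `f ∈ CC n` implies `W[f] ∈ CC (n+1)`

Base case `n = 0`, `f t` bounded by `B`, `β`-Hölder with constant `K`, `β' = β/2`. For fixed `t`:
(1) smooth `f_j → f` (`moll`, `δ = 1/j`), `f_j - f` is bounded by `K j^{-β}` and `β'`-Hölder with constant `C j^{-(β-β')}` (interpolation), so by `W_lip` (exponent `β'`)
  the derivatives `DW h f_j` are uniformly Cauchy on `U h` (`‖D(W f_j - W f_k)‖ ≤ Lip`), hence `W h f` is differentiable with derivative `G' = lim`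
  (`hasFDerivAt_of_tendstoUniformlyOn`), `G' t z = reCLM.smulRight V + imCLM.smulRight (i (V + f))`, `V = ∂_x W`.
(2) Hölder continuity of `V`: for real `s`: `D_s W := W(·+s) - W = W[f(·+s) - f]` is Lipschitz with constant `C |s|^{β-β'}` (`W_lip`), so
  `‖V(z+s) - V(z)‖ ≤ C|s|^γ`, `γ = β-β'`; vertical: `D_s W(z) = s V(z) + O(|s|^{1+γ})`, hence for `Re z = Re w`, `|z-w| ≤ 1`, with `s = |z-w|`:
  `‖V z - V w‖ ≤ 2C s^γ + s^{-1} ‖D_s W z - D_s W w‖ ≤ C' |z-w|^γ`.
(3) continuity in `(t,z)` of `G'`: from the joint continuity of `W[f t] z` (`W_time`), and the uniform Hölder bound of `G'` (interpolation lemma `cont_deriv`).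
Induction: `G' = reCLM.smulRight (W[f_x]) + imCLM.smulRight (i (W[f_x] + f))` with `f_x ∈ CC n`, `f ∈ CC (n+1)`.

THIS FILE: W_CC_zero.
-/

set_option autoImplicit false

noncomputable section

namespace Pool.Agent.EAC


open MeasureTheory Set Filter Topology Metric
open scoped ENNReal ComplexConjugate

/-- differentiability from differentiable functions whose difference has small Lipschitz constant. -/
theorem s5b_hasFDerivAt_of_approx {f : ℂ → ℂ} {z : ℂ}
    (H : ∀ ε > 0, ∃ (g : ℂ → ℂ) (D : ℂ →L[ℝ] ℂ), HasFDerivAt g D z ∧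
      ∀ᶠ w in 𝓝 z, ‖(f w - g w) - (f z - g z)‖ ≤ ε * ‖w - z‖) :
    ∃ D : ℂ →L[ℝ] ℂ, HasFDerivAt f D z := by
  have hpos : ∀ n : ℕ, (0 : ℝ) < 1 / ((n : ℝ) + 1) := fun n => by positivity
  choose g D hD hg using fun n : ℕ => H (1 / ((n : ℝ) + 1)) (hpos n)
  have hdiff : ∀ n m : ℕ, ‖D n - D m‖ ≤ 1 / ((n : ℝ) + 1) + 1 / ((m : ℝ) + 1) := by
    intro n m
    have h1 : HasFDerivAt (fun w => g n w - g m w) (D n - D m) z := (hD n).sub (hD m)
    refine h1.le_of_lip' (by have := hpos n; have := hpos m; positivity) ?_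
    filter_upwards [hg n, hg m] with w h2 h3
    have h4 : (g n w - g m w) - (g n z - g m z) =
        ((f w - g m w) - (f z - g m z)) - ((f w - g n w) - (f z - g n z)) := by ring
    rw [h4]
    calc _ ≤ ‖(f w - g m w) - (f z - g m z)‖ + ‖(f w - g n w) - (f z - g n z)‖ := norm_sub_le _ _
      _ ≤ 1 / ((m : ℝ) + 1) * ‖w - z‖ + 1 / ((n : ℝ) + 1) * ‖w - z‖ := add_le_add h3 h2
      _ = (1 / ((n : ℝ) + 1) + 1 / ((m : ℝ) + 1)) * ‖w - z‖ := by ring
  have hlim0 : Tendsto (fun n : ℕ => 1 / ((n : ℝ) + 1)) atTop (𝓝 0) :=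
    tendsto_one_div_add_atTop_nhds_zero_nat
  have hC : CauchySeq D := by
    refine cauchySeq_of_le_tendsto_0 (fun n : ℕ => 2 * (1 / ((n : ℝ) + 1))) ?_ ?_
    · intro n m N hn hm
      rw [dist_eq_norm]
      have e1 : 1 / ((n : ℝ) + 1) ≤ 1 / ((N : ℝ) + 1) := by
        apply one_div_le_one_div_of_le (by positivity)
        have : (N : ℝ) ≤ n := by exact_mod_cast hn
        linarith
      have e2 : 1 / ((m : ℝ) + 1) ≤ 1 / ((N : ℝ) + 1) := by
        apply one_div_le_one_div_of_le (by positivity)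
        have : (N : ℝ) ≤ m := by exact_mod_cast hm
        linarith
      linarith [hdiff n m]
    · simpa using hlim0.const_mul 2
  obtain ⟨D', hD'⟩ := cauchySeq_tendsto_of_complete hC
  have hbd : ∀ n, ‖D n - D'‖ ≤ 1 / ((n : ℝ) + 1) := by
    intro n
    have h1 : Tendsto (fun m => ‖D n - D m‖) atTop (𝓝 ‖D n - D'‖) :=
      (tendsto_const_nhds.sub hD').norm
    have h2 : Tendsto (fun m : ℕ => 1 / ((n : ℝ) + 1) + 1 / ((m : ℝ) + 1)) atTop
        (𝓝 (1 / ((n : ℝ) + 1) + 0)) := tendsto_const_nhds.add hlim0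
    rw [add_zero] at h2
    exact le_of_tendsto_of_tendsto' h1 h2 (fun m => hdiff n m)
  refine ⟨D', ?_⟩
  rw [hasFDerivAt_iff_isLittleO, Asymptotics.isLittleO_iff]
  intro c hc
  obtain ⟨n, hn⟩ : ∃ n : ℕ, 1 / ((n : ℝ) + 1) < c / 3 := exists_nat_one_div_lt (by positivity)
  have h1 := (hD n)
  rw [hasFDerivAt_iff_isLittleO, Asymptotics.isLittleO_iff] at h1
  filter_upwards [h1 (show 0 < c / 3 by positivity), hg n] with w h2 h3
  have h4 : f w - f z - D' (w - z) = ((f w - g n w) - (f z - g n z)) +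
      (g n w - g n z - D n (w - z)) + (D n - D') (w - z) := by
    simp only [sub_apply]; ring
  rw [h4]
  have h5 : ‖(D n - D') (w - z)‖ ≤ c / 3 * ‖w - z‖ :=
    ((D n - D').le_opNorm _).trans (mul_le_mul_of_nonneg_right ((hbd n).trans hn.le) (norm_nonneg _))
  calc _ ≤ ‖(f w - g n w) - (f z - g n z)‖ + ‖g n w - g n z - D n (w - z)‖ + ‖(D n - D') (w - z)‖ :=
        norm_add₃_le
    _ ≤ c / 3 * ‖w - z‖ + c / 3 * ‖w - z‖ + c / 3 * ‖w - z‖ := by
        refine add_le_add (add_le_add (h3.trans ?_) h2) h5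
        exact mul_le_mul_of_nonneg_right hn.le (norm_nonneg _)
    _ = c * ‖w - z‖ := by ring

/-- interpolation of the Hölder exponent. -/
theorem s5b_holder_interp {ε K β x r : ℝ} (hr : 0 ≤ r) (hε : 0 ≤ ε) (hK : 0 ≤ K)
    (h0 : 0 ≤ x) (h1 : x ≤ ε) (h2 : x ≤ K * r ^ β) : x ≤ Real.sqrt (ε * K) * r ^ (β / 2) := by
  have h3 : x ^ 2 ≤ (ε * K) * r ^ β := by nlinarith [Real.rpow_nonneg hr β, mul_nonneg hK (Real.rpow_nonneg hr β)]
  have h4 : (r ^ (β / 2)) ^ 2 = r ^ β := by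
    rw [← Real.rpow_natCast, ← Real.rpow_mul hr]; norm_num
  have h5 : 0 ≤ Real.sqrt (ε * K) * r ^ (β / 2) := by positivity
  refine abs_le_of_sq_le_sq' ?_ h5 |>.2
  rw [mul_pow, h4, Real.sq_sqrt (by positivity)]
  exact h3

/-- constants of the Hölder bound for functions with exponent `β` used with `β/2`. -/
theorem s5b_holder_half {B K β a r : ℝ} (hβ : 0 < β) (hr : 0 ≤ r) (hB : 0 ≤ B) (hK : 0 ≤ K)
    (h1 : a ≤ 2 * B) (h2 : a ≤ K * r ^ β) : a ≤ (2 * B + K) * r ^ (β / 2) := by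
  by_cases hr1 : r ≤ 1
  · have h3 : r ^ β ≤ r ^ (β / 2) := Real.rpow_le_rpow_of_exponent_ge' hr hr1 (by positivity) (by linarith)
    have h4 := Real.rpow_nonneg hr (β / 2)
    calc a ≤ K * r ^ β := h2
      _ ≤ K * r ^ (β / 2) := mul_le_mul_of_nonneg_left h3 hK
      _ ≤ (2 * B + K) * r ^ (β / 2) := by nlinarith [mul_nonneg hB h4]
  · push Not at hr1
    have h3 : 1 ≤ r ^ (β / 2) := Real.one_le_rpow hr1.le (by positivity)
    nlinarith

theorem s5b_U_subset_S (h : ℝ) : U h ⊆ S h := fun _ hz => ⟨hz.1.le, hz.2.le⟩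

theorem s5b_U_add_real {h : ℝ} {z : ℂ} (hz : z ∈ U h) (s : ℝ) : z + s ∈ U h := by
  constructor
  · simpa using hz.1
  · simpa using hz.2

/-- a Hölder function on the strip is continuous. -/
theorem s5b_holder_cont {h β K : ℝ} (hβ : 0 < β) {f : ℂ → ℝ}
    (hK : ∀ z ∈ U h, ∀ w ∈ U h, |f z - f w| ≤ K * ‖z - w‖ ^ β) : ContinuousOn f (U h) := by
  intro z hz
  rw [ContinuousWithinAt, tendsto_iff_dist_tendsto_zero]
  have h1 : Tendsto (fun w : ℂ => K * ‖w - z‖ ^ β) (𝓝[U h] z) (𝓝 0) := by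
    have h2 : Continuous (fun w : ℂ => K * ‖w - z‖ ^ β) :=
      continuous_const.mul ((continuous_id.sub continuous_const).norm.rpow_const (fun _ => Or.inr hβ.le))
    have h3 := h2.tendsto z
    simp only [sub_self, norm_zero, Real.zero_rpow hβ.ne', mul_zero] at h3
    exact h3.mono_left nhdsWithin_le_nhds
  refine squeeze_zero' (Eventually.of_forall fun _ => dist_nonneg) ?_ h1
  filter_upwards [self_mem_nhdsWithin] with w hw
  rw [Real.dist_eq]
  exact hK w hw z hz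

/-- `W h f` is differentiable if `f` is Hölder, with the expected derivative. -/
theorem W_fderiv_holder {h β B K : ℝ} (hh : 0 < h) (hβ : 0 < β) (hβ1 : β ≤ 1) (hB0 : 0 ≤ B)
    (hK0 : 0 ≤ K) {f : ℂ → ℝ} (hB : ∀ z ∈ U h, |f z| ≤ B)
    (hK : ∀ z ∈ U h, ∀ w ∈ U h, |f z - f w| ≤ K * ‖z - w‖ ^ β) {z : ℂ} (hz : z ∈ U h) :
    ∃ D : ℂ →L[ℝ] ℂ, HasFDerivAt (W h f) D z ∧ D Complex.I = Complex.I * (D 1 + f z) := by
  obtain ⟨C, hC0, hC⟩ := W_lip (β := β / 2) hh (by positivity) (by linarith)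
  have hUn : U h ∈ 𝓝 z := (isOpen_U h).mem_nhds hz
  have hBMf : BM h f B := BM_of_continuousOn (s5b_holder_cont hβ hK) hB
  -- the modulus
  set η : ℝ → ℝ := fun δ => C * (K * δ ^ β + Real.sqrt (2 * (K * δ ^ β) * (2 * K))) with hη
  have hηlim : Tendsto η (𝓝[>] 0) (𝓝 0) := by
    have h1 : Continuous η := by
      have h2 : Continuous fun δ : ℝ => δ ^ β := continuous_id.rpow_const (fun _ => Or.inr hβ.le)
      exact continuous_const.mul ((continuous_const.mul h2).add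
        (Real.continuous_sqrt.comp ((continuous_const.mul (continuous_const.mul h2)).mul continuous_const)))
    have h3 := h1.tendsto 0
    simp only [hη, Real.zero_rpow hβ.ne', mul_zero, zero_mul, Real.sqrt_zero, add_zero] at h3
    exact h3.mono_left nhdsWithin_le_nhds
  have key : ∀ ε > 0, ∃ (g : ℂ → ℝ) (D : ℂ →L[ℝ] ℂ), HasFDerivAt (W h g) D z ∧
      D Complex.I = Complex.I * (D 1 + g z) ∧ |g z - f z| ≤ ε ∧
      ∀ᶠ w in 𝓝 z, ‖(W h f w - W h g w) - (W h f z - W h g z)‖ ≤ ε * ‖w - z‖ := by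
    intro ε hε
    have h1 : ∀ᶠ δ in 𝓝[>] (0 : ℝ), η δ < ε := hηlim.eventually (gt_mem_nhds hε)
    have h1' : ∀ᶠ δ in 𝓝[>] (0 : ℝ), K * δ ^ β < ε := by
      have h2 : Continuous fun δ : ℝ => K * δ ^ β :=
        continuous_const.mul (continuous_id.rpow_const (fun _ => Or.inr hβ.le))
      have h3 := h2.tendsto 0
      simp only [Real.zero_rpow hβ.ne', mul_zero] at h3
      exact (h3.mono_left nhdsWithin_le_nhds).eventually (gt_mem_nhds hε)
    have h2 : ∀ᶠ δ in 𝓝[>] (0 : ℝ), δ ∈ Set.Ioo (0 : ℝ) 1 := Ioo_mem_nhdsGT one_pos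
    obtain ⟨δ, ⟨h3, h3'⟩, h4⟩ := ((h1.and h1').and h2).exists
    obtain ⟨g, hg, hgB, ⟨B', hgB'⟩, hgK, hgf⟩ := moll hβ hβ1 hB0 hK0 hB hK δ h4.1 h4.2.le
    have hgd : ∀ z ∈ U h, HasFDerivAt g (fderiv ℝ g z) z := fun w _ =>
      (hg.differentiable (by simp) w).hasFDerivAt
    have hgc : ContinuousOn (fderiv ℝ g) (U h) := (hg.continuous_fderiv (by simp)).continuousOn
    refine ⟨g, DW h g (fderiv ℝ g) z, W_fderiv hh hgd hgc (fun w _ => hgB w) (fun w _ => hgB' w) hz,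
      ?_, (hgf z hz).trans h3'.le, ?_⟩
    · simp [DW]
    · have hBMg : BM h g B := BM_of_continuousOn hg.continuous.continuousOn (fun w _ => hgB w)
      have hd1 : ∀ w ∈ U h, |(fun w => f w - g w) w| ≤ K * δ ^ β := by
        intro w hw
        have := hgf w hw
        rw [abs_sub_comm] at this
        exact this
      have hd2 : ∀ w ∈ U h, ∀ v ∈ U h, |(fun w => f w - g w) w - (fun w => f w - g w) v| ≤
          (Real.sqrt (2 * (K * δ ^ β) * (2 * K))) * ‖w - v‖ ^ (β / 2) := by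
        intro w hw v hv
        refine s5b_holder_interp (norm_nonneg _) (by have := Real.rpow_nonneg h4.1.le β; positivity)
          (by positivity) (abs_nonneg _) ?_ ?_
        · have := abs_sub (f w - g w) (f v - g v)
          have e1 := hd1 w hw
          have e2 := hd1 v hv
          simp only at e1 e2 ⊢
          linarith
        · have e1 := hK w hw v hv
          have e2 := hgK w v
          simp only
          calc |f w - g w - (f v - g v)| = |(f w - f v) - (g w - g v)| := by ring_nf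
            _ ≤ |f w - f v| + |g w - g v| := abs_sub _ _
            _ ≤ 2 * K * ‖w - v‖ ^ β := by linarith
      have e3 := hC (fun w => f w - g w) (K * δ ^ β) (Real.sqrt (2 * (K * δ ^ β) * (2 * K)))
        (by have := Real.rpow_nonneg h4.1.le β; positivity) (Real.sqrt_nonneg _) hd1 hd2
      filter_upwards [hUn] with w hw
      have e4 := e3 w (s5b_U_subset_S h hw) z (s5b_U_subset_S h hz)
      rw [W_sub hh hBMf hBMg (s5b_U_subset_S h hw), W_sub hh hBMf hBMg (s5b_U_subset_S h hz)] at e4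
      exact e4.trans (mul_le_mul_of_nonneg_right h3.le (norm_nonneg _))
  obtain ⟨D, hD⟩ := s5b_hasFDerivAt_of_approx (f := W h f) (z := z) (fun ε hε => by
    obtain ⟨g, D, h1, -, -, h2⟩ := key ε hε
    exact ⟨W h g, D, h1, h2⟩)
  refine ⟨D, hD, ?_⟩
  -- the formula
  rw [← sub_eq_zero, ← norm_le_zero_iff]
  refine le_of_forall_pos_le_add fun ε hε => ?_
  rw [zero_add]
  obtain ⟨g, D', h1, h2, h3, h4⟩ := key (ε / 3) (by positivity)
  have h5 : ‖D - D'‖ ≤ ε / 3 := by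
    refine (hD.sub h1).le_of_lip' (by positivity) ?_
    filter_upwards [h4] with w hw
    exact hw
  have h6 : D Complex.I - Complex.I * (D 1 + f z) = (D - D') Complex.I - Complex.I * ((D - D') 1)
      + Complex.I * ((g z - f z : ℝ) : ℂ) := by
    simp only [sub_apply, Complex.ofReal_sub]
    rw [h2]; ring
  rw [h6]
  have h7 : ‖(D - D') Complex.I‖ ≤ ε / 3 := by
    have := (D - D').le_opNorm Complex.I
    rw [Complex.norm_I, mul_one] at this
    exact this.trans h5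
  have h8 : ‖(D - D') 1‖ ≤ ε / 3 := by
    have := (D - D').le_opNorm 1
    rw [norm_one, mul_one] at this
    exact this.trans h5
  calc _ ≤ ‖(D - D') Complex.I - Complex.I * ((D - D') 1)‖ + ‖Complex.I * ((g z - f z : ℝ) : ℂ)‖ :=
        norm_add_le _ _
    _ ≤ (‖(D - D') Complex.I‖ + ‖Complex.I * ((D - D') 1)‖) + ‖Complex.I * ((g z - f z : ℝ) : ℂ)‖ :=
        add_le_add_left (norm_sub_le _ _) _
    _ ≤ (ε / 3 + ε / 3) + ε / 3 := by
        rw [norm_mul, norm_mul, Complex.norm_I, one_mul, one_mul, Complex.norm_real, Real.norm_eq_abs]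
        exact add_le_add (add_le_add h7 h8) h3
    _ = ε := by ring

/-- the main estimate: uniform bound and Hölder bound of the derivative of `W h f`. -/
theorem W_fderiv_bounds {h β : ℝ} (hh : 0 < h) (hβ : 0 < β) (hβ1 : β ≤ 1) :
    ∃ C ≥ 0, ∀ (f : ℂ → ℝ) (B K : ℝ), 0 ≤ B → 0 ≤ K → (∀ z ∈ U h, |f z| ≤ B) →
      (∀ z ∈ U h, ∀ w ∈ U h, |f z - f w| ≤ K * ‖z - w‖ ^ β) →
      (∀ z ∈ U h, ‖fderiv ℝ (W h f) z‖ ≤ C * (B + K)) ∧
      ∀ z ∈ U h, ∀ w ∈ U h, ‖fderiv ℝ (W h f) z - fderiv ℝ (W h f) w‖ ≤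
        C * (B + K) * ‖z - w‖ ^ (β / 2) := by
  obtain ⟨C, hC0, hC⟩ := W_lip (β := β / 2) hh (by positivity) (by linarith)
  obtain ⟨C', hC'0, hC'⟩ := W_lip (β := β) hh hβ hβ1
  refine ⟨100 * (C + C' + 1), by positivity, ?_⟩
  intro f B K hB0 hK0 hB hK
  have hBM : BM h f B := BM_of_continuousOn (s5b_holder_cont hβ hK) hB
  have hdiff : ∀ z ∈ U h, HasFDerivAt (W h f) (fderiv ℝ (W h f) z) z ∧
      fderiv ℝ (W h f) z Complex.I = Complex.I * (fderiv ℝ (W h f) z 1 + f z) := by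
    intro z hz
    obtain ⟨D, hD, hD2⟩ := W_fderiv_holder hh hβ hβ1 hB0 hK0 hB hK hz
    rw [hD.fderiv]
    exact ⟨hD, hD2⟩
  have hbd : ∀ z ∈ U h, ‖fderiv ℝ (W h f) z‖ ≤ C' * (B + K) := by
    intro z hz
    refine (hdiff z hz).1.le_of_lip' (by positivity) ?_
    filter_upwards [(isOpen_U h).mem_nhds hz] with w hw
    exact hC' f B K hB0 hK0 hB hK w (s5b_U_subset_S h hw) z (s5b_U_subset_S h hz)
  set γ : ℝ := β / 2 with hγ
  have hγ0 : 0 < γ := by positivity
  set L : ℝ := 3 * C * K with hL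
  have hL0 : 0 ≤ L := by positivity
  -- translation difference
  have hDs : ∀ s : ℝ, 0 ≤ s → s ≤ 1 → ∀ z ∈ U h, ∀ w ∈ U h,
      ‖(W h f (z + s) - W h f z) - (W h f (w + s) - W h f w)‖ ≤ L * s ^ γ * ‖z - w‖ := by
    intro s hs hs1 z hz w hw
    have hfs : ∀ z ∈ U h, |(fun w => f (w + s)) z| ≤ B := fun z hz => hB _ (s5b_U_add_real hz s)
    have hfsK : ∀ z ∈ U h, ∀ w ∈ U h, |(fun w => f (w + s)) z - (fun w => f (w + s)) w| ≤
        K * ‖z - w‖ ^ β := by
      intro z hz w hw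
      have := hK _ (s5b_U_add_real hz s) _ (s5b_U_add_real hw s)
      simpa using this
    have hBMs : BM h (fun w => f (w + s)) B := BM_of_continuousOn (s5b_holder_cont hβ hfsK) hfs
    have hd1 : ∀ z ∈ U h, |(fun w => f (w + s) - f w) z| ≤ K * s ^ β := by
      intro z hz
      have := hK _ (s5b_U_add_real hz s) z hz
      simpa [abs_of_nonneg hs] using this
    have hd2 : ∀ z ∈ U h, ∀ w ∈ U h, |(fun w => f (w + s) - f w) z - (fun w => f (w + s) - f w) w|
        ≤ 2 * K * s ^ γ * ‖z - w‖ ^ (β / 2) := by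
      intro z hz w hw
      have e0 : Real.sqrt (2 * (K * s ^ β) * (2 * K)) = 2 * K * s ^ γ := by
        have e1 : (s ^ γ) ^ 2 = s ^ β := by
          rw [← Real.rpow_natCast, ← Real.rpow_mul hs]; norm_num [hγ]
        have e2 : 2 * (K * s ^ β) * (2 * K) = (2 * K * s ^ γ) ^ 2 := by
          rw [mul_pow, e1]; ring
        rw [e2, Real.sqrt_sq (by positivity)]
      rw [← e0]
      refine s5b_holder_interp (norm_nonneg _) (by positivity) (by positivity) (abs_nonneg _) ?_ ?_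
      · have e1 := hd1 z hz
        have e2 := hd1 w hw
        have := abs_sub (f (z + s) - f z) (f (w + s) - f w)
        simp only at e1 e2 ⊢
        linarith
      · have e1 := hK z hz w hw
        have e2 := hfsK z hz w hw
        simp only at e2 ⊢
        calc |f (z + s) - f z - (f (w + s) - f w)| = |(f (z + s) - f (w + s)) - (f z - f w)| := by
              ring_nf
          _ ≤ |f (z + s) - f (w + s)| + |f z - f w| := abs_sub _ _
          _ ≤ 2 * K * ‖z - w‖ ^ β := by linarith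
    have e3 := hC (fun w => f (w + s) - f w) (K * s ^ β) (2 * K * s ^ γ) (by positivity)
      (by positivity) hd1 hd2 z (s5b_U_subset_S h hz) w (s5b_U_subset_S h hw)
    rw [W_sub hh hBMs hBM (s5b_U_subset_S h hz), W_sub hh hBMs hBM (s5b_U_subset_S h hw), W_shift,
      W_shift] at e3
    refine e3.trans (mul_le_mul_of_nonneg_right ?_ (norm_nonneg _))
    have e4 : s ^ β ≤ s ^ γ := Real.rpow_le_rpow_of_exponent_ge' hs hs1 hγ0.le (by rw [hγ]; linarith)
    have e5 : K * s ^ β ≤ K * s ^ γ := mul_le_mul_of_nonneg_left e4 hK0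
    calc C * (K * s ^ β + 2 * K * s ^ γ) ≤ C * (K * s ^ γ + 2 * K * s ^ γ) := by gcongr
      _ = L * s ^ γ := by rw [hL]; ring
  -- horizontal Hölder bound
  have hH1 : ∀ s : ℝ, 0 ≤ s → s ≤ 1 → ∀ z ∈ U h,
      ‖fderiv ℝ (W h f) (z + s) - fderiv ℝ (W h f) z‖ ≤ L * s ^ γ := by
    intro s hs hs1 z hz
    have h1 : HasFDerivAt (fun w => W h f (w + s) - W h f w)
        (fderiv ℝ (W h f) (z + s) - fderiv ℝ (W h f) z) z := by
      refine HasFDerivAt.sub ?_ (hdiff z hz).1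
      have e1 := ((hdiff _ (s5b_U_add_real hz s)).1).comp z ((hasFDerivAt_id (𝕜 := ℝ) z).add_const (s : ℂ))
      exact e1
    refine h1.le_of_lip' (by positivity) ?_
    filter_upwards [(isOpen_U h).mem_nhds hz] with w hw
    exact hDs s hs hs1 w hw z hz
  -- Taylor bound
  have hH2 : ∀ s : ℝ, 0 ≤ s → s ≤ 1 → ∀ z ∈ U h,
      ‖W h f (z + s) - W h f z - s * fderiv ℝ (W h f) z 1‖ ≤ L * s ^ γ * s := by
    intro s hs hs1 z hz
    have h1 : ∀ r ∈ Icc (0 : ℝ) s, HasDerivWithinAt (fun r : ℝ => W h f (z + r) -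
        r * fderiv ℝ (W h f) z 1) (fderiv ℝ (W h f) (z + r) 1 - fderiv ℝ (W h f) z 1)
        (Icc 0 s) r := by
      intro r _
      have e1 : HasDerivAt (fun r : ℝ => W h f (z + r)) (fderiv ℝ (W h f) (z + r) 1) r := by
        have e2 : HasDerivAt (fun r : ℝ => z + (r : ℂ)) 1 r :=
          (Complex.ofRealCLM.hasDerivAt).const_add z
        exact ((hdiff _ (s5b_U_add_real hz r)).1).comp_hasDerivAt r e2
      have e3 : HasDerivAt (fun r : ℝ => (r : ℂ) * fderiv ℝ (W h f) z 1)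
          (fderiv ℝ (W h f) z 1) r := by
        have := (Complex.ofRealCLM.hasDerivAt (x := r)).mul_const (fderiv ℝ (W h f) z 1)
        simpa using this
      exact (e1.sub e3).hasDerivWithinAt
    have h2 : ∀ r ∈ Icc (0 : ℝ) s, ‖fderiv ℝ (W h f) (z + r) 1 - fderiv ℝ (W h f) z 1‖ ≤
        L * s ^ γ := by
      intro r hr
      have e1 := hH1 r hr.1 (hr.2.trans hs1) z hz
      have e2 := (fderiv ℝ (W h f) (z + r) - fderiv ℝ (W h f) z).le_opNorm 1
      rw [norm_one, mul_one, sub_apply] at e2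
      refine e2.trans (e1.trans ?_)
      exact mul_le_mul_of_nonneg_left (Real.rpow_le_rpow hr.1 hr.2 hγ0.le) hL0
    have h3 := (convex_Icc (0 : ℝ) s).norm_image_sub_le_of_norm_hasDerivWithin_le h1 h2
      (left_mem_Icc.2 hs) (right_mem_Icc.2 hs)
    simp only [Complex.ofReal_zero, zero_mul, add_zero, sub_zero, Real.norm_eq_abs,
      abs_of_nonneg hs] at h3
    calc _ = ‖W h f (z + s) - s * fderiv ℝ (W h f) z 1 - W h f z‖ := by congr 1; ring
      _ ≤ _ := h3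
  -- Hölder bound of `V`
  have hV : ∀ z ∈ U h, ∀ w ∈ U h, ‖fderiv ℝ (W h f) z 1 - fderiv ℝ (W h f) w 1‖ ≤
      (3 * L + 2 * (C' * (B + K))) * ‖z - w‖ ^ γ := by
    intro z hz w hw
    rcases eq_or_ne z w with rfl | hne
    · simp [Real.zero_rpow hγ0.ne']
    by_cases hs1 : ‖z - w‖ ≤ 1
    · set s : ℝ := ‖z - w‖ with hs
      have hs0 : 0 < s := norm_pos_iff.2 (sub_ne_zero.2 hne)
      have e1 := hH2 s hs0.le hs1 z hz
      have e2 := hH2 s hs0.le hs1 w hw
      have e3 := hDs s hs0.le hs1 z hz w hw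
      rw [← hs] at e3
      have e4 : (s : ℂ) * (fderiv ℝ (W h f) z 1 - fderiv ℝ (W h f) w 1) =
          ((W h f (z + s) - W h f z) - (W h f (w + s) - W h f w)) -
          (W h f (z + s) - W h f z - s * fderiv ℝ (W h f) z 1) +
          (W h f (w + s) - W h f w - s * fderiv ℝ (W h f) w 1) := by ring
      have e5 : s * ‖fderiv ℝ (W h f) z 1 - fderiv ℝ (W h f) w 1‖ ≤ s * (3 * L * s ^ γ) := by
        calc s * ‖fderiv ℝ (W h f) z 1 - fderiv ℝ (W h f) w 1‖ =
            ‖(s : ℂ) * (fderiv ℝ (W h f) z 1 - fderiv ℝ (W h f) w 1)‖ := by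
              rw [norm_mul, Complex.norm_real, Real.norm_eq_abs, abs_of_pos hs0]
          _ ≤ ‖((W h f (z + s) - W h f z) - (W h f (w + s) - W h f w)) -
              (W h f (z + s) - W h f z - s * fderiv ℝ (W h f) z 1)‖ +
              ‖W h f (w + s) - W h f w - s * fderiv ℝ (W h f) w 1‖ := by
              rw [e4]; exact norm_add_le _ _
          _ ≤ (‖(W h f (z + s) - W h f z) - (W h f (w + s) - W h f w)‖ +
              ‖W h f (z + s) - W h f z - s * fderiv ℝ (W h f) z 1‖) +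
              ‖W h f (w + s) - W h f w - s * fderiv ℝ (W h f) w 1‖ :=
              add_le_add_left (norm_sub_le _ _) _
          _ ≤ (L * s ^ γ * s + L * s ^ γ * s) + L * s ^ γ * s := by gcongr
          _ = s * (3 * L * s ^ γ) := by ring
      have e6 := le_of_mul_le_mul_left e5 hs0
      refine e6.trans (mul_le_mul_of_nonneg_right ?_ (by positivity))
      have : 0 ≤ 2 * (C' * (B + K)) := by positivity
      linarith
    · push Not at hs1
      have e1 : 1 ≤ ‖z - w‖ ^ γ := Real.one_le_rpow hs1.le hγ0.le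
      have e2 : ∀ z ∈ U h, ‖fderiv ℝ (W h f) z 1‖ ≤ C' * (B + K) := by
        intro z hz
        have := (fderiv ℝ (W h f) z).le_opNorm 1
        rw [norm_one, mul_one] at this
        exact this.trans (hbd z hz)
      have e3 := norm_sub_le (fderiv ℝ (W h f) z 1) (fderiv ℝ (W h f) w 1)
      have e4 := e2 z hz
      have e5 := e2 w hw
      have e6 : 0 ≤ C' * (B + K) := by positivity
      nlinarith
  -- Hölder bound of `f`
  have hf2 : ∀ z ∈ U h, ∀ w ∈ U h, |f z - f w| ≤ (2 * B + K) * ‖z - w‖ ^ γ := by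
    intro z hz w hw
    refine s5b_holder_half hβ (norm_nonneg _) hB0 hK0 ?_ (hK z hz w hw)
    have := abs_sub (f z) (f w)
    linarith [hB z hz, hB w hw]
  refine ⟨fun z hz => (hbd z hz).trans (mul_le_mul_of_nonneg_right (by linarith) (by positivity)),
    ?_⟩
  intro z hz w hw
  have hfin : ∀ D : ℂ →L[ℝ] ℂ, ‖D‖ ≤ ‖D 1‖ + ‖D Complex.I‖ := by
    intro D
    refine D.opNorm_le_bound (by positivity) fun v => ?_
    have e1 : D v = (v.re : ℂ) * D 1 + (v.im : ℂ) * D Complex.I := by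
      have e2 : v = v.re • (1 : ℂ) + v.im • Complex.I := by
        simp [Complex.re_add_im]
      conv_lhs => rw [e2]
      rw [map_add, map_smul, map_smul]
      simp
    rw [e1]
    calc _ ≤ ‖(v.re : ℂ) * D 1‖ + ‖(v.im : ℂ) * D Complex.I‖ := norm_add_le _ _
      _ = |v.re| * ‖D 1‖ + |v.im| * ‖D Complex.I‖ := by
          rw [norm_mul, norm_mul, Complex.norm_real, Complex.norm_real, Real.norm_eq_abs,
            Real.norm_eq_abs]
      _ ≤ ‖v‖ * ‖D 1‖ + ‖v‖ * ‖D Complex.I‖ := by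
          gcongr
          · exact Complex.abs_re_le_norm v
          · exact Complex.abs_im_le_norm v
      _ = (‖D 1‖ + ‖D Complex.I‖) * ‖v‖ := by ring
  have e1 := hfin (fderiv ℝ (W h f) z - fderiv ℝ (W h f) w)
  rw [sub_apply, sub_apply, (hdiff z hz).2, (hdiff w hw).2] at e1
  have e2 : Complex.I * (fderiv ℝ (W h f) z 1 + f z) - Complex.I * (fderiv ℝ (W h f) w 1 + f w) =
      Complex.I * ((fderiv ℝ (W h f) z 1 - fderiv ℝ (W h f) w 1) + ((f z - f w : ℝ) : ℂ)) := by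
    push_cast; ring
  rw [e2, norm_mul, Complex.norm_I, one_mul] at e1
  have e3 := norm_add_le (fderiv ℝ (W h f) z 1 - fderiv ℝ (W h f) w 1) ((f z - f w : ℝ) : ℂ)
  rw [Complex.norm_real, Real.norm_eq_abs] at e3
  have e4 := hV z hz w hw
  have e5 := hf2 z hz w hw
  have e6 : 0 ≤ ‖z - w‖ ^ γ := by positivity
  calc _ ≤ 2 * ((3 * L + 2 * (C' * (B + K))) * ‖z - w‖ ^ γ) + (2 * B + K) * ‖z - w‖ ^ γ := by
        linarith
    _ = (2 * (3 * L + 2 * (C' * (B + K))) + (2 * B + K)) * ‖z - w‖ ^ γ := by ring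
    _ ≤ 100 * (C + C' + 1) * (B + K) * ‖z - w‖ ^ γ := by
        refine mul_le_mul_of_nonneg_right ?_ e6
        rw [hL]
        nlinarith [mul_nonneg hC0 hK0, mul_nonneg hC0 hB0, mul_nonneg hC'0 hK0, mul_nonneg hC'0 hB0]

theorem W_CC_zero {T h : ℝ} (hh : 0 < h) {f : ℝ → ℂ → ℝ} (hf : CC T h 0 f) :
    CC T h 1 (fun t z => W h (f t) z) := by
  obtain ⟨hcont, ⟨B₀, hB₀⟩, β, hβ, hβ1, K₀, hK₀⟩ := hf
  set B : ℝ := max B₀ 0 with hBdef
  set K : ℝ := max K₀ 0 with hKdef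
  have hB0 : 0 ≤ B := le_max_right _ _
  have hK0 : 0 ≤ K := le_max_right _ _
  have hB : ∀ t ∈ Icc 0 T, ∀ z ∈ U h, |f t z| ≤ B := fun t ht z hz =>
    (hB₀ t ht z hz).trans (le_max_left _ _)
  have hK : ∀ t ∈ Icc 0 T, ∀ z ∈ U h, ∀ w ∈ U h, |f t z - f t w| ≤ K * ‖z - w‖ ^ β :=
    fun t ht z hz w hw => (hK₀ t ht z hz w hw).trans
      (mul_le_mul_of_nonneg_right (le_max_left _ _) (by positivity))
  obtain ⟨C, hC0, hC⟩ := W_fderiv_bounds hh hβ hβ1
  obtain ⟨C₁, hC₁, hWb⟩ := W_bound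
  have hcW : ContinuousOn (fun p : ℝ × ℂ => W h (f p.1) p.2) (Icc 0 T ×ˢ U h) :=
    (W_time hh hcont hB).mono (Set.prod_mono_right (s5b_U_subset_S h))
  have hd : ∀ t ∈ Icc 0 T, ∀ z ∈ U h,
      HasFDerivAt (fun z => W h (f t) z) (fderiv ℝ (W h (f t)) z) z := by
    intro t ht z hz
    obtain ⟨D, hD, -⟩ := W_fderiv_holder hh hβ hβ1 hB0 hK0 (hB t ht) (hK t ht) hz
    rw [hD.fderiv]
    exact hD
  have hHol : ∀ t ∈ Icc 0 T, ∀ z ∈ U h, ∀ w ∈ U h,
      ‖fderiv ℝ (W h (f t)) z - fderiv ℝ (W h (f t)) w‖ ≤ C * (B + K) * ‖z - w‖ ^ (β / 2) :=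
    fun t ht => (hC (f t) B K hB0 hK0 (hB t ht) (hK t ht)).2
  refine ⟨hcW, ⟨C₁ * h * B, fun t ht z hz => ?_⟩, fun t z => fderiv ℝ (W h (f t)) z, hd, ?_⟩
  · exact hWb h hh (f t) B (BM_of_continuousOn (s5b_holder_cont hβ (hK t ht)) (hB t ht)) z
      (s5b_U_subset_S h hz)
  · refine ⟨cont_deriv (show 0 < β / 2 by positivity) hcW hd hHol,
      ⟨C * (B + K), fun t ht => (hC (f t) B K hB0 hK0 (hB t ht) (hK t ht)).1⟩, β / 2,
      by positivity, by linarith, C * (B + K), hHol⟩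

end Pool.Agent.EAC
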