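import Pool.Agent.EAC.S5b

/-!
# EAC-S5c: Schauder gain: `f ∈ CC n` implies `W[f] ∈ CC (n+1)`

Induction: the derivative of `W[f]` is
`G' = reCLM.smulRight (W[f_x]) + imCLM.smulRight (i (W[f_x] + f))` with `f_x ∈ CC n`, `f ∈ CC (n+1)`.
-/

set_option autoImplicit false

noncomputable section

namespace Pool.Agent.EAC


open MeasureTheory Set Filter Topology Metric
open scoped ENNReal ComplexConjugate

/-- the derivative of `W[f t]` when `f ∈ CC 1`. -/
theorem W_CC_deriv {T h : ℝ} (hh : 0 < h) {f : ℝ → ℂ → ℝ} {f' : ℝ → ℂ → (ℂ →L[ℝ] ℝ)}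
    (hd : ∀ t ∈ Icc 0 T, ∀ z ∈ U h, HasFDerivAt (f t) (f' t z) z) (h0 : CC T h 0 f')
    (h1 : CC T h 1 f) : ∀ t ∈ Icc 0 T, ∀ z ∈ U h, HasFDerivAt (W h (f t)) (DW h (f t) (f' t) z) z := by
  intro t ht z hz
  obtain ⟨B, -, hB⟩ := CC_bdd h1
  obtain ⟨B', -, hB'⟩ := CC_bdd h0
  have hc : ContinuousOn (f' t) (U h) := by
    have h2 := CC_cont h0
    have h3 : ContinuousOn (fun z : ℂ => ((t, z) : ℝ × ℂ)) (U h) := by fun_prop
    exact h2.comp h3 (fun w hw => ⟨ht, hw⟩)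
  exact W_fderiv hh (fun z hz => hd t ht z hz) hc
    (fun z hz => by simpa using hB t ht z hz) (fun z hz => hB' t ht z hz) hz

theorem W_CC {T h : ℝ} (hh : 0 < h) (n : ℕ) {f : ℝ → ℂ → ℝ} (hf : CC T h n f) :
    CC T h (n + 1) (fun t z => W h (f t) z) := by
  induction n generalizing f with
  | zero => exact W_CC_zero hh hf
  | succ n ih =>
    have hf' := hf
    obtain ⟨hcont, ⟨B, hB⟩, f', hd, hf1⟩ := hf'
    have h1 : CC T h 1 f := CC_mono (Nat.succ_le_succ (Nat.zero_le n)) hf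
    have hder := W_CC_deriv hh hd (CC_zero_of hf1) h1
    have hx : CC T h n (fun t w => f' t w 1) :=
      CC_clm (ContinuousLinearMap.apply ℝ ℝ (1 : ℂ)) hf1
    have hWx := ih hx
    have hfc : CC T h (n + 1) (fun t z => ((f t z : ℝ) : ℂ)) := CC_clm Complex.ofRealCLM hf
    have hsum := CC_add hWx hfc
    have hI : CC T h (n + 1) (fun t z => Complex.I * (W h (fun w => f' t w 1) z + (f t z : ℂ))) :=
      CC_clm (ContinuousLinearMap.mul ℝ ℂ Complex.I) hsum
    have hA := CC_clm (ContinuousLinearMap.smulRightL ℝ ℂ ℂ Complex.reCLM) hWx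
    have hB2 := CC_clm (ContinuousLinearMap.smulRightL ℝ ℂ ℂ Complex.imCLM) hI
    have hG := CC_add hA hB2
    have hG' : CC T h (n + 1) (fun t z => DW h (f t) (f' t) z) := by
      refine CC_congr hG ?_
      intro t _ z _
      rfl
    obtain ⟨C, hC, hW⟩ := W_bound
    obtain ⟨B₀, hB₀, hBf⟩ := CC_bdd hf
    refine CC_of_deriv (B := C * h * B₀) ?_ ?_ hder hG'
    · have h2 := W_time hh (CC_cont hf) (B := B₀) (fun t ht w hw => by simpa using hBf t ht w hw)
      refine h2.mono ?_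
      intro p hp
      exact ⟨hp.1, hp.2.1.le, hp.2.2.le⟩
    · intro t ht z hz
      refine hW h hh (f t) B₀ (BM_of_continuousOn ?_ (fun w hw => by simpa using hBf t ht w hw)) z
        ⟨hz.1.le, hz.2.le⟩
      have h2 := CC_cont hf
      have h3 : ContinuousOn (fun z : ℂ => ((t, z) : ℝ × ℂ)) (U h) := by fun_prop
      exact h2.comp h3 (fun w hw => ⟨ht, hw⟩)

end Pool.Agent.EAC
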