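import Pool.Agent.EAC.X1a
import Pool.Agent.EAC.R2

/-!
# EAC-X1: the cut off coefficients

`aa`, `rr` are smooth in `(t,ζ)` on the open set `{(t,ζ) | ζ ∈ Oset ∨ ‖sin ζ‖ < dd D t}` (near the corners `cut = 0`), which contains
`ℝ × S h`; `CC_smooth`. Periodicity: `sin(ζ+2π) = sin ζ`, `mm_per`.

THIS FILE: aa_cont, aa_CC, nice_CC, nice_lip.
-/

set_option autoImplicit false

noncomputable section

namespace Pool.Agent.EAC


open MeasureTheory Set Filter Topology Metric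
open scoped ENNReal ComplexConjugate

/-- the cutoff is smooth in `(t, ζ)`. -/
theorem x1b_cut_contDiff (D : ℝ) : ContDiff ℝ (⊤ : ℕ∞) (fun p : ℝ × ℂ => cut D p.1 p.2) := by
  unfold cut
  have h1 : ContDiff ℝ (⊤ : ℕ∞) (fun p : ℝ × ℂ => Complex.normSq (Complex.sin p.2)) := by
    have h2 : ContDiff ℝ (⊤ : ℕ∞) (fun p : ℝ × ℂ => Complex.sin p.2) :=
      (Complex.contDiff_sin.restrict_scalars ℝ).comp contDiff_snd
    have h3 : (fun p : ℝ × ℂ => Complex.normSq (Complex.sin p.2)) =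
        fun p : ℝ × ℂ => ‖Complex.sin p.2‖ ^ 2 := by
      funext p
      rw [Complex.normSq_eq_norm_sq]
    rw [h3]
    exact (contDiff_norm_sq ℝ).comp h2
  have h4 : ContDiff ℝ (⊤ : ℕ∞) (fun p : ℝ × ℂ => dd D p.1 ^ 2) := by
    unfold dd
    exact ((contDiff_const.mul (contDiff_const.mul contDiff_fst).exp).exp).pow 2
  have h5 : ∀ p : ℝ × ℂ, dd D p.1 ^ 2 ≠ 0 := fun p => pow_ne_zero _ (dd_pos D p.1).ne'
  exact Real.smoothTransition.contDiff.comp ((h1.div h4 h5).sub contDiff_const)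

/-- open set on which `aa`, `rr` are smooth. -/
def OOcut (D : ℝ) : Set (ℝ × ℂ) := {p | p.2 ∈ Oset ∨ ‖Complex.sin p.2‖ < dd D p.1}

theorem x1b_continuous_dd (D : ℝ) : Continuous (dd D) := by
  unfold dd
  fun_prop

theorem x1b_isOpen_OO' (D : ℝ) : IsOpen {p : ℝ × ℂ | ‖Complex.sin p.2‖ < dd D p.1} := by
  refine isOpen_lt ?_ ?_
  · exact (Complex.continuous_sin.comp continuous_snd).norm
  · exact (x1b_continuous_dd D).comp continuous_fst

theorem x1b_isOpen_OO (D : ℝ) : IsOpen (OOcut D) :=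
  (isOpen_Oset.preimage continuous_snd).union (x1b_isOpen_OO' D)

theorem x1b_sub_OO (D : ℝ) (h : ℝ) : (univ : Set ℝ) ×ˢ S h ⊆ OOcut D := by
  rintro ⟨t, ζ⟩ ⟨-, hζ⟩
  by_cases hs : Complex.sin ζ = 0
  · right
    change ‖Complex.sin ζ‖ < dd D t
    rw [hs, norm_zero]
    exact dd_pos D t
  · left
    exact mem_Oset hζ.1 hs

theorem x1b_mul_cut_contDiffOn (D : ℝ) {m : ℂ → ℝ} (hm : ContDiffOn ℝ (⊤ : ℕ∞) m Oset) :
    ContDiffOn ℝ (⊤ : ℕ∞) (fun p : ℝ × ℂ => m p.2 * cut D p.1 p.2) (OOcut D) := by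
  intro p hp
  apply ContDiffAt.contDiffWithinAt
  rcases hp with hp | hp
  · have h1 : ContDiffAt ℝ (⊤ : ℕ∞) m p.2 := hm.contDiffAt (isOpen_Oset.mem_nhds hp)
    exact (h1.comp p contDiffAt_snd).mul (x1b_cut_contDiff D).contDiffAt
  · have h0 : (fun p : ℝ × ℂ => m p.2 * cut D p.1 p.2) =ᶠ[𝓝 p] fun _ => 0 := by
      filter_upwards [(x1b_isOpen_OO' D).mem_nhds hp] with q hq
      rw [cut_zero (le_of_lt hq), mul_zero]
    exact contDiffAt_const.congr_of_eventuallyEq h0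

theorem aa_contDiffOn (D : ℝ) :
    ContDiffOn ℝ (⊤ : ℕ∞) (fun p : ℝ × ℂ => aa D p.1 p.2) (OOcut D) :=
  x1b_mul_cut_contDiffOn D mm_smooth

theorem rr_contDiffOn (D : ℝ) :
    ContDiffOn ℝ (⊤ : ℕ∞) (fun p : ℝ × ℂ => rr D p.1 p.2) (OOcut D) :=
  x1b_mul_cut_contDiffOn D rho_smooth

theorem aa_cont (D : ℝ) {h : ℝ} (hh : 0 < h) : 
    ContinuousOn (fun p : ℝ × ℂ => aa D p.1 p.2) (univ ×ˢ S h) ∧
    ContinuousOn (fun p : ℝ × ℂ => rr D p.1 p.2) (univ ×ˢ S h) :=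
  ⟨(aa_contDiffOn D).continuousOn.mono (x1b_sub_OO D h),
    (rr_contDiffOn D).continuousOn.mono (x1b_sub_OO D h)⟩

theorem aa_CC (D T : ℝ) {h : ℝ} (hh : 0 < h) (n : ℕ) : CC T h n (aa D) ∧ CC T h n (rr D) := by
  have hsub : Icc 0 T ×ˢ S h ⊆ OOcut D := (prod_mono (subset_univ _) subset_rfl).trans (x1b_sub_OO D h)
  refine ⟨CC_smooth (x1b_isOpen_OO D) hsub (aa_contDiffOn D) ?_ n,
    CC_smooth (x1b_isOpen_OO D) hsub (rr_contDiffOn D) ?_ n⟩
  · intro t _ z _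
    unfold aa
    rw [mm_per, cut_per]
  · intro t _ z _
    unfold rr
    rw [rho_per, cut_per]

/-- smooth periodic functions of `ζ` only. -/
theorem nice_CC {w0 : ℂ → ℝ} (hw : NiceInit w0) (T h : ℝ) (n : ℕ) : CC T h n (fun _ => w0) :=
  CC_smooth isOpen_univ (subset_univ _) (hw.smooth.comp contDiff_snd).contDiffOn
    (fun _ _ z _ => hw.per z) n

theorem nice_lip {w0 : ℂ → ℝ} (hw : NiceInit w0) : ∃ L > 0, ∀ z w, |w0 z - w0 w| ≤ L * ‖z - w‖ := by
  set f : ℝ → ℝ := fun x => w0 (x : ℂ) with hf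
  have hsm : ContDiff ℝ (⊤ : ℕ∞) f := hw.smooth.comp Complex.ofRealCLM.contDiff
  have hsm1 : ContDiff ℝ 1 f := hsm.of_le (by exact_mod_cast le_top)
  have hper : ∀ x, f (x + 2 * Real.pi) = f x := by
    intro x
    have := hw.per (x : ℂ)
    rw [hf]
    change w0 ((x + 2 * Real.pi : ℝ) : ℂ) = w0 (x : ℂ)
    rw [← this]
    push_cast
    rfl
  have hd : Function.Periodic (deriv f) (2 * Real.pi) := by
    intro x
    rw [← deriv_comp_add_const]
    congr 1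
    funext y
    exact hper y
  have hdc : Continuous (deriv f) := hsm1.continuous_deriv le_rfl
  obtain ⟨C, hC⟩ := (hd.isBounded_of_continuous (by positivity) hdc).exists_norm_le
  refine ⟨max C 1, lt_of_lt_of_le one_pos (le_max_right _ _), fun z w => ?_⟩
  have h1 : ‖f z.re - f w.re‖ ≤ max C 1 * ‖z.re - w.re‖ := by
    apply Convex.norm_image_sub_le_of_norm_deriv_le (s := univ) (𝕜 := ℝ)
    · intro x _
      exact hsm1.differentiable one_ne_zero x
    · intro x _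
      exact (hC _ ⟨x, rfl⟩).trans (le_max_left _ _)
    · exact convex_univ
    · exact mem_univ _
    · exact mem_univ _
  have h2 : ‖z.re - w.re‖ ≤ ‖z - w‖ := by
    rw [Real.norm_eq_abs, ← Complex.sub_re]
    exact Complex.abs_re_le_norm _
  rw [hw.indep z, hw.indep w, ← Real.norm_eq_abs]
  exact h1.trans (mul_le_mul_of_nonneg_left h2 (le_trans zero_le_one (le_max_right _ _)))

end Pool.Agent.EAC
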