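import Pool.Agent.EAC.XDefs
import Pool.Agent.EAC.Geo
import Pool.Agent.EAC.Geo4a

/-!
# EAC-X1: the cut off coefficients

`aa`, `rr` are smooth in `(t,ζ)` on the open set `{(t,ζ) | ζ ∈ Oset ∨ ‖sin ζ‖ < dd D t}` (near the corners `cut = 0`), which contains
`ℝ × S h`; `CC_smooth`. Periodicity: `sin(ζ+2π) = sin ζ`, `mm_per`.

THIS FILE: dd_pos, dd_anti, cut_mem, cut_zero, cut_one, cut_per, aa_bound.
-/

set_option autoImplicit false

noncomputable section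

namespace Pool.Agent.EAC


open MeasureTheory Set Filter Topology Metric
open scoped ENNReal ComplexConjugate

theorem dd_pos (D t : ℝ) : 0 < dd D t := Real.exp_pos _

theorem dd_anti {D s t : ℝ} (hD : 0 ≤ D) (hst : s ≤ t) : dd D t ≤ dd D s := by
  unfold dd
  apply Real.exp_le_exp.mpr
  have h1 : Real.exp (D * s) ≤ Real.exp (D * t) :=
    Real.exp_le_exp.mpr (mul_le_mul_of_nonneg_left hst hD)
  have h2 := mul_le_mul_of_nonneg_left h1 hD
  linarith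

theorem cut_mem (D t : ℝ) (ζ : ℂ) : 0 ≤ cut D t ζ ∧ cut D t ζ ≤ 1 :=
  ⟨Real.smoothTransition.nonneg _, Real.smoothTransition.le_one _⟩

theorem cut_zero {D t : ℝ} {ζ : ℂ} (hζ : ‖Complex.sin ζ‖ ≤ dd D t) : cut D t ζ = 0 := by
  unfold cut
  apply Real.smoothTransition.zero_of_nonpos
  have hd := dd_pos D t
  have h1 : Complex.normSq (Complex.sin ζ) ≤ dd D t ^ 2 := by
    rw [Complex.normSq_eq_norm_sq]
    exact pow_le_pow_left₀ (norm_nonneg _) hζ 2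
  have h2 : Complex.normSq (Complex.sin ζ) / dd D t ^ 2 ≤ 1 :=
    (div_le_one (by positivity)).mpr h1
  linarith

theorem cut_one {D t : ℝ} {ζ : ℂ} (hζ : 2 * dd D t ^ 2 ≤ ‖Complex.sin ζ‖ ^ 2) : cut D t ζ = 1 := by
  unfold cut
  apply Real.smoothTransition.one_of_one_le
  have hd := dd_pos D t
  have h2 : 2 ≤ Complex.normSq (Complex.sin ζ) / dd D t ^ 2 := by
    rw [le_div_iff₀ (by positivity), Complex.normSq_eq_norm_sq]
    exact hζ
  linarith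

theorem cut_per (D t : ℝ) (ζ : ℂ) : cut D t (ζ + 2 * Real.pi) = cut D t ζ := by
  unfold cut
  rw [Complex.sin_add_two_pi]

theorem aa_bound : ∃ C > 0, ∀ (D t : ℝ) (ζ : ℂ), 0 ≤ ζ.im → ζ.im ≤ 1 →
    0 ≤ aa D t ζ ∧ aa D t ζ ≤ C * ‖Complex.sin ζ‖ ∧
    0 ≤ rr D t ζ ∧ rr D t ζ * ‖Complex.sin ζ‖ ≤ C ∧ rr D t ζ ≤ C / dd D t := by
  refine ⟨128, by norm_num, ?_⟩
  intro D t ζ h0 h1
  obtain ⟨c0, c1⟩ := cut_mem D t ζ
  have hd := dd_pos D t
  have hs := norm_nonneg (Complex.sin ζ)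
  have m0 : 0 ≤ mm ζ := by unfold mm; positivity
  have r0 : 0 ≤ rho ζ := by unfold rho; exact inv_nonneg.mpr m0
  have m1 : mm ζ ≤ 128 * ‖Complex.sin ζ‖ := Geo.mm_le ⟨h0, h1⟩
  have r1 : rho ζ * ‖Complex.sin ζ‖ ≤ 1 / 2 := by
    -- `2 ‖sin‖ ≤ mm`
    have h2 := Geo.le_mm h0
    unfold rho
    by_cases hm : mm ζ = 0
    · rw [hm]; norm_num
    · have hm' : 0 < mm ζ := lt_of_le_of_ne m0 (Ne.symm hm)
      rw [inv_mul_le_iff₀ hm']
      linarith
  refine ⟨mul_nonneg m0 c0, ?_, mul_nonneg r0 c0, ?_, ?_⟩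
  · unfold aa
    calc mm ζ * cut D t ζ ≤ mm ζ * 1 := mul_le_mul_of_nonneg_left c1 m0
      _ ≤ 128 * ‖Complex.sin ζ‖ := by rw [mul_one]; exact m1
  · unfold rr
    calc rho ζ * cut D t ζ * ‖Complex.sin ζ‖ = rho ζ * ‖Complex.sin ζ‖ * cut D t ζ := by ring
      _ ≤ rho ζ * ‖Complex.sin ζ‖ * 1 :=
          mul_le_mul_of_nonneg_left c1 (mul_nonneg r0 hs)
      _ ≤ 128 := by linarith
  · unfold rr
    rw [le_div_iff₀ hd]
    by_cases hc : ‖Complex.sin ζ‖ ≤ dd D t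
    · rw [cut_zero hc]; norm_num
    · push Not at hc
      calc rho ζ * cut D t ζ * dd D t ≤ rho ζ * 1 * ‖Complex.sin ζ‖ := by
            apply mul_le_mul (mul_le_mul_of_nonneg_left c1 r0) hc.le hd.le
            exact mul_nonneg r0 zero_le_one
        _ ≤ 128 := by rw [mul_one]; linarith

end Pool.Agent.EAC
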