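import Pool.Agent.EAC.X2a

/-!
# EAC-X2: flow of a tangent Lipschitz field on the closed strip, all times

Extend `V t z` to `z ∈ ℂ` by `V t (z.re + i·max 0 (min h z.im))`: bounded, Lipschitz on `ℂ`. `ode_global`. A solution starting in `S h` stays in `S h`:
where `im γ ≤ 0` the vertical velocity is `0`, so `im γ` cannot become negative (if `im γ(t₁) < 0` take the last time `t₀ < t₁` with `im γ = 0`; `im γ` is constant on
`[t₀,t₁]`); same at the top. Points of the line `im = 0` stay there and, by backward uniqueness, others never reach it.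
Surjectivity: solve backwards (`τ ↦ -V (t-τ)`). Uniqueness: `gron`. Shift: uniqueness. For all `T` at once: choose the solution on `[0, n]` and patch by uniqueness
(`Φ t z` := the solution on `[0, ⌈t⌉+1]`).
`sflow_holder`: `u(s) = ‖Φ s (A t z) - Φ s (A t w)‖`, `|u'| ≤ M lgm u`, `u(t) = ‖z - w‖ =: u_t ≤ 1`; with `σ = t - s` compare with the supersolution
`ū(σ) = exp(1 + Mσ) u_t^{exp(-Mσ)}`: `ū' = M ū (1 - e^{-Mσ} log u_t) ≥ M lgm ū`, `ū(0) = e u_t > u_t` (`u_t = 0` is trivial by uniqueness).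
`sflow_stab`: `u = Φ₁ s (A₁ t z) - Φ₂ s (A₂ t z)`, `u(t) = 0`, `‖u'‖ ≤ L‖u‖ + c s^n`: `‖u 0‖ ≤ ∫_0^t e^{Ls} c s^n ds`.

THIS FILE: sflow_exists.
-/

set_option autoImplicit false

noncomputable section

namespace Pool.Agent.EAC


open MeasureTheory Set Filter Topology Metric
open scoped ENNReal ComplexConjugate

theorem sflow_exists {h : ℝ} (hh : 0 < h) {V : ℝ → ℂ → ℂ} (hV : ∀ T, 0 ≤ T → FieldOK T h V) :
    ∃ Φ A, ∀ T, 0 ≤ T → SFlow T h V Φ A := by
  have hV' : ∀ n : ℕ, FieldOK (n : ℝ) h V := fun n => hV n (Nat.cast_nonneg n)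
  have hex : ∀ n : ℕ, ∃ Φ A, SFlow (n : ℝ) h V Φ A := fun n =>
    sflow_exists_T hh (Nat.cast_nonneg n) (hV' n)
  choose F G hFG using hex
  -- agreement
  have agree : ∀ n m : ℕ, n ≤ m → ∀ t ∈ Icc (0 : ℝ) n, ∀ z ∈ S h, F n t z = F m t z := by
    intro n m hnm t ht z hz
    have hnm' : (n : ℝ) ≤ m := by exact_mod_cast hnm
    have hsub : Icc (0 : ℝ) n ⊆ Icc (0 : ℝ) m := Icc_subset_Icc_right hnm'
    refine strip_unique (hV' n) (γ₁ := fun τ => F n τ z) (γ₂ := fun τ => F m τ z) (t₀ := 0)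
      ⟨le_refl _, Nat.cast_nonneg n⟩ (fun s hs => (hFG n).mem s hs z hz)
      (fun s hs => (hFG m).mem s (hsub hs) z hz) (fun s hs => (hFG n).deriv s hs z hz)
      (fun s hs => ((hFG m).deriv s (hsub hs) z hz).mono hsub) ?_ t ht
    show F n 0 z = F m 0 z
    rw [(hFG n).init z hz, (hFG m).init z hz]
  have agreeG : ∀ n m : ℕ, n ≤ m → ∀ t ∈ Icc (0 : ℝ) n, ∀ z ∈ S h, G n t z = G m t z := by
    intro n m hnm t ht z hz
    have hnm' : (n : ℝ) ≤ m := by exact_mod_cast hnm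
    have ht' : t ∈ Icc (0 : ℝ) m := ⟨ht.1, ht.2.trans hnm'⟩
    have h1 := (hFG n).memA t ht z hz
    have h2 := agree n m hnm t ht _ h1
    rw [(hFG n).right t ht z hz] at h2
    have h3 := (hFG m).left t ht' _ h1
    rw [← h2] at h3
    exact h3.symm
  let N : ℝ → ℕ := fun t => ⌈t⌉₊
  have hN : ∀ t, t ≤ N t := fun t => Nat.le_ceil t
  have key : ∀ n : ℕ, ∀ t ∈ Icc (0 : ℝ) n, ∀ z ∈ S h,
      F (N t) t z = F n t z ∧ G (N t) t z = G n t z := by
    intro n t ht z hz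
    have h1 : N t ≤ n := Nat.ceil_le.2 ht.2
    exact ⟨agree (N t) n h1 t ⟨ht.1, hN t⟩ z hz, agreeG (N t) n h1 t ⟨ht.1, hN t⟩ z hz⟩
  refine ⟨fun t z => F (N t) t z, fun t z => G (N t) t z, fun T hT => ?_⟩
  have hTN : T ≤ (N T : ℝ) := hN T
  have hsub : Icc (0 : ℝ) T ⊆ Icc (0 : ℝ) (N T) := Icc_subset_Icc_right hTN
  have hF := hFG (N T)
  have hsh : ∀ z ∈ S h, z + 2 * Real.pi ∈ S h := by
    intro z hz
    simpa [S] using hz
  have kF : ∀ t ∈ Icc (0 : ℝ) T, ∀ z ∈ S h, F (N t) t z = F (N T) t z :=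
    fun t ht z hz => (key (N T) t (hsub ht) z hz).1
  have kG : ∀ t ∈ Icc (0 : ℝ) T, ∀ z ∈ S h, G (N t) t z = G (N T) t z :=
    fun t ht z hz => (key (N T) t (hsub ht) z hz).2
  have h0T : (0 : ℝ) ∈ Icc 0 T := ⟨le_refl _, hT⟩
  refine ⟨?_, ?_, ?_, ?_, ?_, ?_, ?_, ?_, ?_, ?_⟩
  · intro z hz
    show F (N 0) 0 z = z
    rw [kF 0 h0T z hz]
    exact hF.init z hz
  · intro t ht z hz
    show F (N t) t z ∈ S h
    rw [kF t ht z hz]
    exact hF.mem t (hsub ht) z hz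
  · intro t ht z hz
    show G (N t) t z ∈ S h
    rw [kG t ht z hz]
    exact hF.memA t (hsub ht) z hz
  · intro t ht z hz
    show G (N t) t (F (N t) t z) = z
    rw [kF t ht z hz, kG t ht _ (hF.mem t (hsub ht) z hz)]
    exact hF.left t (hsub ht) z hz
  · intro t ht z hz
    show F (N t) t (G (N t) t z) = z
    rw [kG t ht z hz, kF t ht _ (hF.memA t (hsub ht) z hz)]
    exact hF.right t (hsub ht) z hz
  · intro t ht z hz
    show HasDerivWithinAt (fun τ => F (N τ) τ z) (V t (F (N t) t z)) (Icc 0 T) t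
    rw [kF t ht z hz]
    exact ((hF.deriv t (hsub ht) z hz).mono hsub).congr (fun s hs => kF s hs z hz) (kF t ht z hz)
  · intro t ht z hz
    show (F (N t) t z).im = 0 ↔ z.im = 0
    rw [kF t ht z hz]
    exact hF.bot t (hsub ht) z hz
  · intro t ht z hz
    show (F (N t) t z).im = h ↔ z.im = h
    rw [kF t ht z hz]
    exact hF.top t (hsub ht) z hz
  · intro t ht z hz
    show F (N t) t (z + 2 * Real.pi) = F (N t) t z + 2 * Real.pi
    rw [kF t ht z hz, kF t ht _ (hsh z hz)]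
    exact hF.shift t (hsub ht) z hz
  · intro t ht z hz
    show G (N t) t (z + 2 * Real.pi) = G (N t) t z + 2 * Real.pi
    rw [kG t ht z hz, kG t ht _ (hsh z hz)]
    exact hF.shiftA t (hsub ht) z hz

end Pool.Agent.EAC
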