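import Pool.Agent.EAC.X2a

/-!
# EAC-X2: flow of a tangent Lipschitz field on the closed strip, all times

Extend `V t z` to `z ∈ ℂ` by `V t (z.re + i·max 0 (min h z.im))`: bounded, Lipschitz on `ℂ`. `ode_global`. A solution starting in `S h` stays in `S h`:
where `im γ ≤ 0` the vertical velocity is `0`, so `im γ` cannot become negative (if `im γ(t₁) < 0` take the last time `t₀ < t₁` with `im γ = 0`; `im γ` is constant on
`[t₀,t₁]`); same at the top. Points of the line `im = 0` stay there and, by backward uniqueness, others never reach it.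
Surjectivity: solve backwards (`τ ↦ -V (t-τ)`). Uniqueness: `gron`. Shift: uniqueness. For all `T` at once: choose the solution on `[0, n]` and patch by uniqueness
(`Φ t z` := the solution on `[0, ⌈t⌉+1]`).
`sflow_holder`: `u(s) = ‖Φ s (A t z) - Φ s (A t w)‖`, `|u'| ≤ M lgm u`, `u(t) = ‖z - w‖ =: u_t ≤ 1`; with `σ = t - s` compare with the supersolution
`ū(σ) = exp(1 + Mσ) u_t^{exp(-Mσ)}`: `ū' = M ū (1 - e^{-Mσ} log u_t) ≥ M lgm ū`, `ū(0) = e u_t > u_t` (`u_t = 0` is trivial by uniqueness).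
`sflow_stab`: `u = Φ₁ s (A₁ t z) - Φ₂ s (A₂ t z)`, `u(t) = 0`, `‖u'‖ ≤ L‖u‖ + c s^n`: `‖u 0‖ ≤ ∫_0^t e^{Ls} c s^n ds`.

THIS FILE: sflow_cont.
-/

set_option autoImplicit false

noncomputable section

namespace Pool.Agent.EAC


open MeasureTheory Set Filter Topology Metric
open scoped ENNReal ComplexConjugate

/-- the flow is bi-Lipschitz in the space variable. -/
private theorem sflow_bilip {T h L : ℝ} {V Φ A : ℝ → ℂ → ℂ}
    (hL : ∀ t ∈ Icc 0 T, ∀ z ∈ S h, ∀ w ∈ S h, ‖V t z - V t w‖ ≤ L * ‖z - w‖)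
    (hF : SFlow T h V Φ A) {a b : ℂ} (ha : a ∈ S h) (hb : b ∈ S h) {t : ℝ} (ht : t ∈ Icc 0 T) :
    ‖Φ t a - Φ t b‖ ≤ Real.exp (L * t) * ‖a - b‖ ∧
      ‖a - b‖ ≤ Real.exp (L * t) * ‖Φ t a - Φ t b‖ := by
  have hsub : Icc 0 t ⊆ Icc 0 T := Icc_subset_Icc le_rfl ht.2
  have h0t : (0 : ℝ) ∈ Icc 0 t := ⟨le_rfl, ht.1⟩
  have htt : t ∈ Icc 0 t := ⟨ht.1, le_rfl⟩
  have hr : ∀ τ ∈ Icc 0 t, HasDerivWithinAt (fun τ => Φ τ a - Φ τ b)
      (V τ (Φ τ a) - V τ (Φ τ b)) (Icc 0 t) τ := fun τ hτ =>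
    (((hF.deriv τ (hsub hτ) a ha).mono hsub).sub ((hF.deriv τ (hsub hτ) b hb).mono hsub))
  have hin : ∀ τ ∈ Icc 0 t, |inner ℝ (Φ τ a - Φ τ b) (V τ (Φ τ a) - V τ (Φ τ b))| ≤
      L * ‖Φ τ a - Φ τ b‖ ^ 2 := by
    intro τ hτ
    refine (abs_real_inner_le_norm _ _).trans ?_
    have h1 := hL τ (hsub hτ) _ (hF.mem τ (hsub hτ) a ha) _ (hF.mem τ (hsub hτ) b hb)
    calc ‖Φ τ a - Φ τ b‖ * ‖V τ (Φ τ a) - V τ (Φ τ b)‖
        ≤ ‖Φ τ a - Φ τ b‖ * (L * ‖Φ τ a - Φ τ b‖) := by gcongr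
      _ = L * ‖Φ τ a - Φ τ b‖ ^ 2 := by ring
  have hexp : ∀ c τ : ℝ, HasDerivAt (fun τ => Real.exp (c * τ)) (Real.exp (c * τ) * c) τ := by
    intro c τ
    have := ((hasDerivAt_id τ).const_mul c).exp
    simpa using this
  have key : ∀ c : ℝ, ∀ τ ∈ Icc 0 t, HasDerivWithinAt
      (fun τ => ‖Φ τ a - Φ τ b‖ ^ 2 * Real.exp (c * τ))
      (2 * inner ℝ (Φ τ a - Φ τ b) (V τ (Φ τ a) - V τ (Φ τ b)) * Real.exp (c * τ) +
        ‖Φ τ a - Φ τ b‖ ^ 2 * (Real.exp (c * τ) * c)) (Icc 0 t) τ := fun c τ hτ =>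
    (hr τ hτ).norm_sq.mul (hexp c τ).hasDerivWithinAt
  have hmono : MonotoneOn (fun τ => ‖Φ τ a - Φ τ b‖ ^ 2 * Real.exp (2 * L * τ)) (Icc 0 t) := by
    refine monotoneOn_of_hasDerivWithinAt_nonneg (convex_Icc 0 t)
      (fun τ hτ => (key _ τ hτ).continuousWithinAt)
      (fun τ hτ => (key _ τ (interior_subset hτ)).mono interior_subset) ?_
    intro τ hτ
    have h1 := (abs_le.1 (hin τ (interior_subset hτ))).1
    have h2 := Real.exp_pos (2 * L * τ)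
    have h3 : 0 ≤ (2 * (inner ℝ (Φ τ a - Φ τ b) (V τ (Φ τ a) - V τ (Φ τ b)) +
        L * ‖Φ τ a - Φ τ b‖ ^ 2)) * Real.exp (2 * L * τ) :=
      mul_nonneg (by linarith) h2.le
    calc (0 : ℝ) ≤ _ := h3
      _ = _ := by ring
  have hanti : AntitoneOn (fun τ => ‖Φ τ a - Φ τ b‖ ^ 2 * Real.exp (-(2 * L) * τ)) (Icc 0 t) := by
    refine antitoneOn_of_hasDerivWithinAt_nonpos (convex_Icc 0 t)
      (fun τ hτ => (key _ τ hτ).continuousWithinAt)
      (fun τ hτ => (key _ τ (interior_subset hτ)).mono interior_subset) ?_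
    intro τ hτ
    have h1 := (abs_le.1 (hin τ (interior_subset hτ))).2
    have h2 := Real.exp_pos (-(2 * L) * τ)
    have h3 : (2 * (inner ℝ (Φ τ a - Φ τ b) (V τ (Φ τ a) - V τ (Φ τ b)) -
        L * ‖Φ τ a - Φ τ b‖ ^ 2)) * Real.exp (-(2 * L) * τ) ≤ 0 :=
      mul_nonpos_of_nonpos_of_nonneg (by linarith) h2.le
    calc _ = (2 * (inner ℝ (Φ τ a - Φ τ b) (V τ (Φ τ a) - V τ (Φ τ b)) -
        L * ‖Φ τ a - Φ τ b‖ ^ 2)) * Real.exp (-(2 * L) * τ) := by ring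
      _ ≤ 0 := h3
  have e1 := hmono h0t htt ht.1
  have e2 := hanti h0t htt ht.1
  simp only [mul_zero, Real.exp_zero, mul_one] at e1 e2
  rw [hF.init a ha, hF.init b hb] at e1 e2
  have hsq : Real.exp (2 * L * t) = Real.exp (L * t) ^ 2 := by
    rw [← Real.exp_nat_mul]
    congr 1
    push_cast
    ring
  constructor
  · have h3 : ‖Φ t a - Φ t b‖ ^ 2 ≤ (Real.exp (L * t) * ‖a - b‖) ^ 2 := by
      rw [mul_pow, ← hsq]
      have h4 : ‖Φ t a - Φ t b‖ ^ 2 =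
          (‖Φ t a - Φ t b‖ ^ 2 * Real.exp (-(2 * L) * t)) * Real.exp (2 * L * t) := by
        rw [mul_assoc, ← Real.exp_add]
        have : -(2 * L) * t + 2 * L * t = 0 := by ring
        rw [this, Real.exp_zero, mul_one]
      rw [h4, mul_comm (Real.exp (2 * L * t))]
      exact mul_le_mul_of_nonneg_right e2 (Real.exp_pos _).le
    exact (pow_le_pow_iff_left₀ (norm_nonneg _)
      (mul_nonneg (Real.exp_pos _).le (norm_nonneg _)) two_ne_zero).1 h3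
  · have h3 : ‖a - b‖ ^ 2 ≤ (Real.exp (L * t) * ‖Φ t a - Φ t b‖) ^ 2 := by
      rw [mul_pow, ← hsq, mul_comm]
      exact e1
    exact (pow_le_pow_iff_left₀ (norm_nonneg _)
      (mul_nonneg (Real.exp_pos _).le (norm_nonneg _)) two_ne_zero).1 h3

/-- a function which is Lipschitz in both variables is continuous. -/
private theorem cont_of_lip {s : Set (ℝ × ℂ)} {F : ℝ × ℂ → ℂ} {B K : ℝ} (hB : 0 ≤ B) (hK : 0 ≤ K)
    (h : ∀ p ∈ s, ∀ q ∈ s, ‖F p - F q‖ ≤ B * |p.1 - q.1| + K * ‖p.2 - q.2‖) : ContinuousOn F s := by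
  have hl : LipschitzOnWith (Real.toNNReal (B + K)) F s := by
    refine LipschitzOnWith.of_dist_le_mul fun p hp q hq => ?_
    rw [Real.coe_toNNReal _ (by positivity), dist_eq_norm]
    refine (h p hp q hq).trans ?_
    have h1 : |p.1 - q.1| ≤ dist p q := by
      rw [← Real.dist_eq]
      exact (le_max_left _ _)
    have h2 : ‖p.2 - q.2‖ ≤ dist p q := by
      rw [← dist_eq_norm]
      exact (le_max_right _ _)
    calc B * |p.1 - q.1| + K * ‖p.2 - q.2‖ ≤ B * dist p q + K * dist p q := by gcongr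
      _ = (B + K) * dist p q := by ring
  exact hl.continuousOn

/-- joint continuity of the flow and of its inverse. -/
theorem sflow_cont {T h : ℝ} (hT : 0 ≤ T) {V Φ A : ℝ → ℂ → ℂ} (hV : FieldOK T h V)
    (hF : SFlow T h V Φ A) :
    ContinuousOn (fun p : ℝ × ℂ => Φ p.1 p.2) (Icc 0 T ×ˢ S h) ∧
      ContinuousOn (fun p : ℝ × ℂ => A p.1 p.2) (Icc 0 T ×ˢ S h) := by
  obtain ⟨L, hL0, hL⟩ := hV.lip
  obtain ⟨B, hB⟩ := hV.bdd
  by_cases hne : (S h).Nonempty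
  swap
  · rw [Set.not_nonempty_iff_eq_empty] at hne
    rw [hne, Set.prod_empty]
    exact ⟨continuousOn_empty _, continuousOn_empty _⟩
  obtain ⟨z₀, hz₀⟩ := hne
  have hB0 : 0 ≤ B := (norm_nonneg _).trans (hB 0 ⟨le_rfl, hT⟩ z₀ hz₀)
  have hE : ∀ t ∈ Icc 0 T, Real.exp (L * t) ≤ Real.exp (L * T) := fun t ht =>
    Real.exp_le_exp.2 (mul_le_mul_of_nonneg_left ht.2 hL0)
  have htime : ∀ z ∈ S h, ∀ t ∈ Icc 0 T, ∀ s ∈ Icc 0 T, ‖Φ t z - Φ s z‖ ≤ B * |t - s| := by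
    intro z hz t ht s hs
    have := Convex.norm_image_sub_le_of_norm_hasDerivWithin_le (f := fun τ => Φ τ z)
      (fun τ hτ => hF.deriv τ hτ z hz) (fun τ hτ => hB τ hτ _ (hF.mem τ hτ z hz))
      (convex_Icc 0 T) hs ht
    simpa [Real.norm_eq_abs] using this
  constructor
  · refine cont_of_lip (B := B) (K := Real.exp (L * T)) hB0 (Real.exp_pos _).le ?_
    rintro ⟨t, z⟩ ⟨ht, hz⟩ ⟨s, w⟩ ⟨hs, hw⟩
    simp only at ht hz hs hw ⊢
    have h1 := htime z hz t ht s hs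
    have h2 := (sflow_bilip hL hF hz hw hs).1
    have h3 := hE s hs
    calc ‖Φ t z - Φ s w‖ = ‖(Φ t z - Φ s z) + (Φ s z - Φ s w)‖ := by congr 1; ring
      _ ≤ ‖Φ t z - Φ s z‖ + ‖Φ s z - Φ s w‖ := norm_add_le _ _
      _ ≤ B * |t - s| + Real.exp (L * T) * ‖z - w‖ := by
        refine add_le_add h1 (h2.trans ?_)
        exact mul_le_mul_of_nonneg_right h3 (norm_nonneg _)
  · refine cont_of_lip (B := Real.exp (L * T) * B) (K := Real.exp (L * T))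
      (mul_nonneg (Real.exp_pos _).le hB0) (Real.exp_pos _).le ?_
    rintro ⟨t, z⟩ ⟨ht, hz⟩ ⟨s, w⟩ ⟨hs, hw⟩
    simp only at ht hz hs hw ⊢
    have hmz := hF.memA t ht z hz
    have hmw := hF.memA s hs w hw
    have h2 := (sflow_bilip hL hF hmz hmw hs).2
    rw [hF.right s hs w hw] at h2
    have h4 : ‖Φ s (A t z) - w‖ ≤ B * |t - s| + ‖z - w‖ := by
      have h5 := htime (A t z) hmz s hs t ht
      rw [hF.right t ht z hz, abs_sub_comm] at h5
      calc ‖Φ s (A t z) - w‖ = ‖(Φ s (A t z) - z) + (z - w)‖ := by congr 1; ring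
        _ ≤ ‖Φ s (A t z) - z‖ + ‖z - w‖ := norm_add_le _ _
        _ ≤ B * |t - s| + ‖z - w‖ := by linarith
    have h3 := hE s hs
    calc ‖A t z - A s w‖ ≤ Real.exp (L * s) * ‖Φ s (A t z) - w‖ := h2
      _ ≤ Real.exp (L * T) * (B * |t - s| + ‖z - w‖) := by
        gcongr
      _ = Real.exp (L * T) * B * |t - s| + Real.exp (L * T) * ‖z - w‖ := by ring

end Pool.Agent.EAC
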