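import Pool.Agent.EAC.X2a

/-!
# EAC-X2: flow of a tangent Lipschitz field on the closed strip, all times

Extend `V t z` to `z ∈ ℂ` by `V t (z.re + i·max 0 (min h z.im))`: bounded, Lipschitz on `ℂ`. `ode_global`. A solution starting in `S h` stays in `S h`:
where `im γ ≤ 0` the vertical velocity is `0`, so `im γ` cannot become negative (if `im γ(t₁) < 0` take the last time `t₀ < t₁` with `im γ = 0`; `im γ` is constant on
`[t₀,t₁]`); same at the top. Points of the line `im = 0` stay there and, by backward uniqueness, others never reach it.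
Surjectivity: solve backwards (`τ ↦ -V (t-τ)`). Uniqueness: `gron`. Shift: uniqueness. For all `T` at once: choose the solution on `[0, n]` and patch by uniqueness
(`Φ t z` := the solution on `[0, ⌈t⌉+1]`).
`sflow_holder`: `u(s) = ‖Φ s (A t z) - Φ s (A t w)‖`, `|u'| ≤ M lgm u`, `u(t) = ‖z - w‖ =: u_t ≤ 1`; with `σ = t - s` compare with the supersolution
`ū(σ) = exp(1 + Mσ) u_t^{exp(-Mσ)}`: `ū' = M ū (1 - e^{-Mσ} log u_t) ≥ M lgm ū`, `ū(0) = e u_t > u_t` (`u_t = 0` is trivial by uniqueness).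
`sflow_stab`: `u = Φ₁ s (A₁ t z) - Φ₂ s (A₂ t z)`, `u(t) = 0`, `‖u'‖ ≤ L‖u‖ + c s^n`: `‖u 0‖ ≤ ∫_0^t e^{Ls} c s^n ds`.

THIS FILE: sflow_holder.
-/

set_option autoImplicit false

noncomputable section

namespace Pool.Agent.EAC


open MeasureTheory Set Filter Topology Metric
open scoped ENNReal ComplexConjugate

private theorem rev_deriv_d {f f' : ℝ → ℂ} {T t : ℝ} (ht : t ∈ Icc 0 T)
    (hd : ∀ s ∈ Icc 0 T, HasDerivWithinAt f (f' s) (Icc 0 T) s) :
    ∀ σ ∈ Icc 0 t, HasDerivWithinAt (fun σ => f (t - σ)) (-f' (t - σ)) (Icc 0 t) σ := by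
  intro σ hσ
  have hm : MapsTo (fun σ : ℝ => t - σ) (Icc 0 t) (Icc 0 T) := fun τ hτ =>
    ⟨by linarith [hτ.2], by linarith [hτ.1, ht.2]⟩
  have h1 : HasDerivWithinAt (fun σ : ℝ => t - σ) (-1) (Icc 0 t) σ := by
    simpa using (hasDerivWithinAt_id σ (Icc 0 t)).const_sub t
  have h2 := (hd (t - σ) (hm hσ)).scomp σ h1 hm
  simpa [Function.comp_def] using h2

/-- Hölder estimate of the inverse flow of a log-Lipschitz field. -/
theorem sflow_holder {T h M : ℝ} (hT : 0 ≤ T) (hM : 0 ≤ M) {V Φ A : ℝ → ℂ → ℂ}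
    (hV : FieldOK T h V)
    (hlog : ∀ t ∈ Icc 0 T, ∀ z ∈ S h, ∀ w ∈ S h, ‖V t z - V t w‖ ≤ M * lgm ‖z - w‖)
    (hF : SFlow T h V Φ A) :
    ∀ t ∈ Icc 0 T, ∀ z ∈ S h, ∀ w ∈ S h, ‖z - w‖ ≤ 1 →
      ‖A t z - A t w‖ ≤ Real.exp (1 + M * T) * ‖z - w‖ ^ Real.exp (-M * T) := by
  intro t ht z hz w hw hzw
  rcases eq_or_lt_of_le (norm_nonneg (z - w)) with h0 | hpos
  · have : z = w := by
      rw [← sub_eq_zero, ← norm_eq_zero, ← h0]
    rw [this, sub_self, norm_zero]
    positivity
  set u := ‖z - w‖ with hu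
  have hx1 := hF.memA t ht z hz
  have hx2 := hF.memA t ht w hw
  set x1 := A t z with hx1d
  set x2 := A t w with hx2d
  have d1 := rev_deriv_d ht (fun s hs => hF.deriv s hs x1 hx1)
  have d2 := rev_deriv_d ht (fun s hs => hF.deriv s hs x2 hx2)
  have hd : ∀ σ ∈ Icc 0 t, HasDerivWithinAt (fun σ => Φ (t - σ) x1 - Φ (t - σ) x2)
      (-V (t - σ) (Φ (t - σ) x1) - -V (t - σ) (Φ (t - σ) x2)) (Icc 0 t) σ :=
    fun σ hσ => (d1 σ hσ).sub (d2 σ hσ)
  have hlogu : Real.log u ≤ 0 := Real.log_nonpos hpos.le hzw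
  -- comparison, `u ^ e = exp (e log u)`
  have key : ∀ ε : ℝ, 0 < ε → ‖x1 - x2‖ ≤
      Real.exp (1 + (M + ε) * t + Real.exp (-(M + ε) * t) * Real.log u) := by
    intro ε hε
    set N := M + ε with hN
    have hNpos : 0 < N := by linarith
    have hB : ∀ σ : ℝ, HasDerivAt
        (fun σ => Real.exp (1 + N * σ + Real.exp (-N * σ) * Real.log u))
        (Real.exp (1 + N * σ + Real.exp (-N * σ) * Real.log u) *
          (N * (1 - Real.exp (-N * σ) * Real.log u))) σ := by
      intro σ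
      have e1 : HasDerivAt (fun σ => Real.exp (-N * σ)) (Real.exp (-N * σ) * (-N)) σ := by
        have := ((hasDerivAt_id σ).const_mul (-N)).exp
        simpa using this
      have e2 : HasDerivAt (fun σ : ℝ => 1 + N * σ) N σ := by
        have := ((hasDerivAt_id σ).const_mul N).const_add 1
        simpa using this
      have e3 := (e2.add (e1.mul_const (Real.log u))).exp
      have e4 : N * (1 - Real.exp (-N * σ) * Real.log u) =
        N + Real.exp (-N * σ) * (-N) * Real.log u := by ring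
      rw [e4]
      exact e3
    have hcont : ContinuousOn (fun σ => Φ (t - σ) x1 - Φ (t - σ) x2) (Icc 0 t) :=
      fun σ hσ => (hd σ hσ).continuousWithinAt
    have hr : ∀ σ ∈ Ico 0 t, HasDerivWithinAt (fun σ => Φ (t - σ) x1 - Φ (t - σ) x2)
        (-V (t - σ) (Φ (t - σ) x1) - -V (t - σ) (Φ (t - σ) x2)) (Ici σ) σ := fun σ hσ =>
      (hd σ (Ico_subset_Icc_self hσ)).mono_of_mem_nhdsWithin (Icc_mem_nhdsGE_of_mem hσ)
    have h0 : ‖Φ (t - 0) x1 - Φ (t - 0) x2‖ ≤
        Real.exp (1 + N * 0 + Real.exp (-N * 0) * Real.log u) := by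
      rw [sub_zero, hx1d, hx2d, hF.right t ht z hz, hF.right t ht w hw]
      simp only [mul_zero, add_zero, Real.exp_zero, one_mul]
      rw [Real.exp_add, Real.exp_log hpos]
      have := Real.add_one_le_exp (1 : ℝ)
      nlinarith
    have hbound : ∀ σ ∈ Ico 0 t, ‖Φ (t - σ) x1 - Φ (t - σ) x2‖ =
        Real.exp (1 + N * σ + Real.exp (-N * σ) * Real.log u) →
        ‖-V (t - σ) (Φ (t - σ) x1) - -V (t - σ) (Φ (t - σ) x2)‖ <
        Real.exp (1 + N * σ + Real.exp (-N * σ) * Real.log u) *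
          (N * (1 - Real.exp (-N * σ) * Real.log u)) := by
      intro σ hσ heq
      have hs : t - σ ∈ Icc 0 T := ⟨by linarith [hσ.2], by linarith [hσ.1, ht.2]⟩
      have m1 := hF.mem _ hs x1 hx1
      have m2 := hF.mem _ hs x2 hx2
      have b1 := hlog _ hs _ m1 _ m2
      rw [heq] at b1
      have b3 : ‖-V (t - σ) (Φ (t - σ) x1) - -V (t - σ) (Φ (t - σ) x2)‖ =
          ‖V (t - σ) (Φ (t - σ) x1) - V (t - σ) (Φ (t - σ) x2)‖ := by
        rw [← norm_neg]
        congr 1
        ring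
      rw [b3]
      refine lt_of_le_of_lt b1 ?_
      unfold lgm
      rw [Real.log_exp]
      set q := -(Real.exp (-N * σ) * Real.log u) with hq
      have hq0 : 0 ≤ q := by
        have := mul_nonneg (Real.exp_pos (-N * σ)).le (neg_nonneg.mpr hlogu)
        rw [hq]; linarith
      have hmax : max 0 (-(1 + N * σ + Real.exp (-N * σ) * Real.log u)) ≤ q := by
        refine max_le hq0 ?_
        have := mul_nonneg hNpos.le hσ.1
        rw [hq]; linarith
      set E := Real.exp (1 + N * σ + Real.exp (-N * σ) * Real.log u) with hE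
      have hE0 : 0 < E := Real.exp_pos _
      have e5 : (1 - Real.exp (-N * σ) * Real.log u) = 1 + q := by rw [hq]; ring
      rw [e5]
      have e6 : M * (E * (1 + max 0 (-(1 + N * σ + Real.exp (-N * σ) * Real.log u)))) ≤
          M * (E * (1 + q)) := by
        apply mul_le_mul_of_nonneg_left _ hM
        apply mul_le_mul_of_nonneg_left _ hE0.le
        linarith
      have e7 : M * (E * (1 + q)) < N * (E * (1 + q)) := by
        apply mul_lt_mul_of_pos_right _ (by positivity)
        linarith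
      calc _ ≤ M * (E * (1 + q)) := e6
        _ < N * (E * (1 + q)) := e7
        _ = E * (N * (1 + q)) := by ring
    have h3 := image_norm_le_of_norm_deriv_right_lt_deriv_boundary hcont hr h0 hB hbound
      (x := t) ⟨ht.1, le_refl _⟩
    simp only [sub_self] at h3
    rw [hF.init x1 hx1, hF.init x2 hx2] at h3
    exact h3
  have hlim : ‖x1 - x2‖ ≤ Real.exp (1 + M * t + Real.exp (-M * t) * Real.log u) := by
    have hc : ContinuousWithinAt
        (fun ε : ℝ => Real.exp (1 + (M + ε) * t + Real.exp (-(M + ε) * t) * Real.log u)) (Ioi 0) 0 := by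
      apply Continuous.continuousWithinAt
      fun_prop
    have h4 := ge_of_tendsto hc (by
      filter_upwards [self_mem_nhdsWithin] with ε hε using key ε hε)
    simpa using h4
  refine hlim.trans ?_
  have e8 : Real.exp (1 + M * T) * u ^ Real.exp (-M * T) =
      Real.exp (1 + M * T + Real.exp (-M * T) * Real.log u) := by
    rw [Real.rpow_def_of_pos hpos, ← Real.exp_add]
    congr 1
    ring
  rw [e8]
  apply Real.exp_le_exp.mpr
  have e9 : M * t ≤ M * T := mul_le_mul_of_nonneg_left ht.2 hM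
  have e10 : Real.exp (-M * T) ≤ Real.exp (-M * t) := Real.exp_le_exp.mpr (by linarith)
  have e11 : Real.exp (-M * t) * Real.log u ≤ Real.exp (-M * T) * Real.log u :=
    mul_le_mul_of_nonpos_right e10 hlogu
  linarith

end Pool.Agent.EAC
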