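import Pool.Agent.EAC.X2a

/-!
# EAC-X2: flow of a tangent Lipschitz field on the closed strip, all times

Extend `V t z` to `z ∈ ℂ` by `V t (z.re + i·max 0 (min h z.im))`: bounded, Lipschitz on `ℂ`. `ode_global`. A solution starting in `S h` stays in `S h`:
where `im γ ≤ 0` the vertical velocity is `0`, so `im γ` cannot become negative (if `im γ(t₁) < 0` take the last time `t₀ < t₁` with `im γ = 0`; `im γ` is constant on
`[t₀,t₁]`); same at the top. Points of the line `im = 0` stay there and, by backward uniqueness, others never reach it.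
Surjectivity: solve backwards (`τ ↦ -V (t-τ)`). Uniqueness: `gron`. Shift: uniqueness. For all `T` at once: choose the solution on `[0, n]` and patch by uniqueness
(`Φ t z` := the solution on `[0, ⌈t⌉+1]`).
`sflow_holder`: `u(s) = ‖Φ s (A t z) - Φ s (A t w)‖`, `|u'| ≤ M lgm u`, `u(t) = ‖z - w‖ =: u_t ≤ 1`; with `σ = t - s` compare with the supersolution
`ū(σ) = exp(1 + Mσ) u_t^{exp(-Mσ)}`: `ū' = M ū (1 - e^{-Mσ} log u_t) ≥ M lgm ū`, `ū(0) = e u_t > u_t` (`u_t = 0` is trivial by uniqueness).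
`sflow_stab`: `u = Φ₁ s (A₁ t z) - Φ₂ s (A₂ t z)`, `u(t) = 0`, `‖u'‖ ≤ L‖u‖ + c s^n`: `‖u 0‖ ≤ ∫_0^t e^{Ls} c s^n ds`.

THIS FILE: sflow_stab.
-/

set_option autoImplicit false

noncomputable section

namespace Pool.Agent.EAC


open MeasureTheory Set Filter Topology Metric
open scoped ENNReal ComplexConjugate

private theorem rev_deriv_e {f f' : ℝ → ℂ} {T t : ℝ} (ht : t ∈ Icc 0 T)
    (hd : ∀ s ∈ Icc 0 T, HasDerivWithinAt f (f' s) (Icc 0 T) s) :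
    ∀ σ ∈ Icc 0 t, HasDerivWithinAt (fun σ => f (t - σ)) (-f' (t - σ)) (Icc 0 t) σ := by
  intro σ hσ
  have hm : MapsTo (fun σ : ℝ => t - σ) (Icc 0 t) (Icc 0 T) := fun τ hτ =>
    ⟨by linarith [hτ.2], by linarith [hτ.1, ht.2]⟩
  have h1 : HasDerivWithinAt (fun σ : ℝ => t - σ) (-1) (Icc 0 t) σ := by
    simpa using (hasDerivWithinAt_id σ (Icc 0 t)).const_sub t
  have h2 := (hd (t - σ) (hm hσ)).scomp σ h1 hm
  simpa [Function.comp_def] using h2

/-- stability. -/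
theorem sflow_stab {T h L c : ℝ} {n : ℕ} (hT : 0 ≤ T) (hL : 0 ≤ L) (hc : 0 ≤ c)
    {V₁ Φ₁ A₁ V₂ Φ₂ A₂ : ℝ → ℂ → ℂ}
    (hlip : ∀ t ∈ Icc 0 T, ∀ z ∈ S h, ∀ w ∈ S h, ‖V₁ t z - V₁ t w‖ ≤ L * ‖z - w‖)
    (hdiff : ∀ t ∈ Icc 0 T, ∀ z ∈ S h, ‖V₁ t z - V₂ t z‖ ≤ c * t ^ n)
    (h1 : SFlow T h V₁ Φ₁ A₁) (h2 : SFlow T h V₂ Φ₂ A₂) :
    ∀ t ∈ Icc 0 T, ∀ z ∈ S h,
      ‖A₁ t z - A₂ t z‖ ≤ Real.exp (L * T) * c * t ^ (n + 1) / (n + 1) := by
  intro t ht z hz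
  have hx1 := h1.memA t ht z hz
  have hx2 := h2.memA t ht z hz
  set x1 := A₁ t z with hx1d
  set x2 := A₂ t z with hx2d
  have d1 := rev_deriv_e ht (fun s hs => h1.deriv s hs x1 hx1)
  have d2 := rev_deriv_e ht (fun s hs => h2.deriv s hs x2 hx2)
  have hd : ∀ σ ∈ Icc 0 t, HasDerivWithinAt (fun σ => Φ₁ (t - σ) x1 - Φ₂ (t - σ) x2)
      (-V₁ (t - σ) (Φ₁ (t - σ) x1) - -V₂ (t - σ) (Φ₂ (t - σ) x2)) (Icc 0 t) σ :=
    fun σ hσ => (d1 σ hσ).sub (d2 σ hσ)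
  have hn : (0 : ℝ) < n + 1 := by positivity
  -- the comparison function
  have key : ∀ ε : ℝ, 0 < ε → ‖x1 - x2‖ ≤
      Real.exp (L * t) * (c * (t ^ (n + 1) - (t - t) ^ (n + 1)) / (n + 1) + ε * (1 + t)) := by
    intro ε hε
    have hB : ∀ σ : ℝ, HasDerivAt
        (fun σ => Real.exp (L * σ) * (c * (t ^ (n + 1) - (t - σ) ^ (n + 1)) / (n + 1) + ε * (1 + σ)))
        (L * (Real.exp (L * σ) * (c * (t ^ (n + 1) - (t - σ) ^ (n + 1)) / (n + 1) + ε * (1 + σ))) +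
          Real.exp (L * σ) * (c * (t - σ) ^ n + ε)) σ := by
      intro σ
      have e1 : HasDerivAt (fun σ => Real.exp (L * σ)) (Real.exp (L * σ) * L) σ := by
        have := ((hasDerivAt_id σ).const_mul L).exp
        simpa using this
      have e2 : HasDerivAt (fun σ : ℝ => (t - σ) ^ (n + 1)) (((n + 1 : ℕ) : ℝ) * (t - σ) ^ n * (-1)) σ := by
        have := ((hasDerivAt_id σ).const_sub t).fun_pow (n + 1)
        simpa using this
      have e3 : HasDerivAt (fun σ : ℝ => c * (t ^ (n + 1) - (t - σ) ^ (n + 1)) / (n + 1) + ε * (1 + σ))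
          (c * (-(((n + 1 : ℕ) : ℝ) * (t - σ) ^ n * (-1))) / (n + 1) + ε * 1) σ := by
        have e4 := ((e2.const_sub (t ^ (n + 1))).const_mul c).div_const ((n : ℝ) + 1)
        have e5 := ((hasDerivAt_id σ).const_add 1).const_mul ε
        exact e4.add (by simpa using e5)
      have e6 := e1.mul e3
      have e7 : c * (-(((n + 1 : ℕ) : ℝ) * (t - σ) ^ n * (-1))) / (n + 1) = c * (t - σ) ^ n := by
        push_cast
        field_simp
      rw [e7] at e6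
      have e8 : L * (Real.exp (L * σ) * (c * (t ^ (n + 1) - (t - σ) ^ (n + 1)) / (n + 1) + ε * (1 + σ))) +
          Real.exp (L * σ) * (c * (t - σ) ^ n + ε) = Real.exp (L * σ) * L *
          (c * (t ^ (n + 1) - (t - σ) ^ (n + 1)) / (n + 1) + ε * (1 + σ)) +
          Real.exp (L * σ) * (c * (t - σ) ^ n + ε * 1) := by ring
      rw [e8]
      exact e6
    have hcont : ContinuousOn (fun σ => Φ₁ (t - σ) x1 - Φ₂ (t - σ) x2) (Icc 0 t) :=
      fun σ hσ => (hd σ hσ).continuousWithinAt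
    have hr : ∀ σ ∈ Ico 0 t, HasDerivWithinAt (fun σ => Φ₁ (t - σ) x1 - Φ₂ (t - σ) x2)
        (-V₁ (t - σ) (Φ₁ (t - σ) x1) - -V₂ (t - σ) (Φ₂ (t - σ) x2)) (Ici σ) σ := fun σ hσ =>
      (hd σ (Ico_subset_Icc_self hσ)).mono_of_mem_nhdsWithin (Icc_mem_nhdsGE_of_mem hσ)
    have h0 : ‖Φ₁ (t - 0) x1 - Φ₂ (t - 0) x2‖ ≤ Real.exp (L * 0) *
        (c * (t ^ (n + 1) - (t - 0) ^ (n + 1)) / (n + 1) + ε * (1 + 0)) := by
      rw [sub_zero, hx1d, hx2d, h1.right t ht z hz, h2.right t ht z hz, sub_self, norm_zero]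
      simp [hε.le]
    have hbound : ∀ σ ∈ Ico 0 t, ‖Φ₁ (t - σ) x1 - Φ₂ (t - σ) x2‖ =
        Real.exp (L * σ) * (c * (t ^ (n + 1) - (t - σ) ^ (n + 1)) / (n + 1) + ε * (1 + σ)) →
        ‖-V₁ (t - σ) (Φ₁ (t - σ) x1) - -V₂ (t - σ) (Φ₂ (t - σ) x2)‖ <
        (L * (Real.exp (L * σ) * (c * (t ^ (n + 1) - (t - σ) ^ (n + 1)) / (n + 1) + ε * (1 + σ))) +
          Real.exp (L * σ) * (c * (t - σ) ^ n + ε)) := by
      intro σ hσ heq
      rw [← heq]
      have hs : t - σ ∈ Icc 0 T := ⟨by linarith [hσ.2], by linarith [hσ.1, ht.2]⟩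
      have m1 := h1.mem _ hs x1 hx1
      have m2 := h2.mem _ hs x2 hx2
      have b1 := hlip _ hs _ m1 _ m2
      have b2 := hdiff _ hs _ m2
      have b3 : ‖-V₁ (t - σ) (Φ₁ (t - σ) x1) - -V₂ (t - σ) (Φ₂ (t - σ) x2)‖ ≤
          ‖V₁ (t - σ) (Φ₁ (t - σ) x1) - V₁ (t - σ) (Φ₂ (t - σ) x2)‖ +
          ‖V₁ (t - σ) (Φ₂ (t - σ) x2) - V₂ (t - σ) (Φ₂ (t - σ) x2)‖ := by
        have e : -V₁ (t - σ) (Φ₁ (t - σ) x1) - -V₂ (t - σ) (Φ₂ (t - σ) x2) =
            -((V₁ (t - σ) (Φ₁ (t - σ) x1) - V₁ (t - σ) (Φ₂ (t - σ) x2)) +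
            (V₁ (t - σ) (Φ₂ (t - σ) x2) - V₂ (t - σ) (Φ₂ (t - σ) x2))) := by ring
        rw [e, norm_neg]
        exact norm_add_le _ _
      have b4 : 1 ≤ Real.exp (L * σ) := Real.one_le_exp (mul_nonneg hL hσ.1)
      have b5 : 0 ≤ c * (t - σ) ^ n := mul_nonneg hc (pow_nonneg (by linarith [hσ.2]) n)
      nlinarith
    have h3 := image_norm_le_of_norm_deriv_right_lt_deriv_boundary hcont hr h0 hB hbound
      (x := t) ⟨ht.1, le_refl _⟩
    simp only [sub_self] at h3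
    rw [h1.init x1 hx1, h2.init x2 hx2] at h3
    simpa using h3
  have hlim : ‖x1 - x2‖ ≤ Real.exp (L * t) * (c * t ^ (n + 1) / (n + 1)) := by
    refine le_of_forall_pos_le_add fun δ hδ => ?_
    have h4 := key (δ / (Real.exp (L * t) * (1 + t))) (by
      have := ht.1
      positivity)
    have h5 : 0 < Real.exp (L * t) * (1 + t) := by
      have := ht.1
      positivity
    rw [sub_self, zero_pow (Nat.succ_ne_zero n), sub_zero, mul_add] at h4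
    have h6 : Real.exp (L * t) * (δ / (Real.exp (L * t) * (1 + t)) * (1 + t)) = δ := by
      have := ht.1
      field_simp
    linarith
  refine hlim.trans ?_
  have h7 : Real.exp (L * t) ≤ Real.exp (L * T) :=
    Real.exp_le_exp.mpr (mul_le_mul_of_nonneg_left ht.2 hL)
  have h8 : 0 ≤ c * t ^ (n + 1) / (n + 1) := by
    have := ht.1
    positivity
  calc Real.exp (L * t) * (c * t ^ (n + 1) / (n + 1)) ≤ Real.exp (L * T) * (c * t ^ (n + 1) / (n + 1)) :=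
        mul_le_mul_of_nonneg_right h7 h8
    _ = Real.exp (L * T) * c * t ^ (n + 1) / (n + 1) := by ring

end Pool.Agent.EAC
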