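import Pool.Agent.EAC.XDefs
import Pool.Agent.EAC.R3

/-!
# EAC-X2: flow of a tangent Lipschitz field on the closed strip, all times

Extend `V t z` to `z ∈ ℂ` by `V t (z.re + i·max 0 (min h z.im))`: bounded, Lipschitz on `ℂ`. `ode_global`. A solution starting in `S h` stays in `S h`:
where `im γ ≤ 0` the vertical velocity is `0`, so `im γ` cannot become negative (if `im γ(t₁) < 0` take the last time `t₀ < t₁` with `im γ = 0`; `im γ` is constant on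
`[t₀,t₁]`); same at the top. Points of the line `im = 0` stay there and, by backward uniqueness, others never reach it.
Surjectivity: solve backwards (`τ ↦ -V (t-τ)`). Uniqueness: `gron`. Shift: uniqueness. For all `T` at once: choose the solution on `[0, n]` and patch by uniqueness
(`Φ t z` := the solution on `[0, ⌈t⌉+1]`).
`sflow_holder`: `u(s) = ‖Φ s (A t z) - Φ s (A t w)‖`, `|u'| ≤ M lgm u`, `u(t) = ‖z - w‖ =: u_t ≤ 1`; with `σ = t - s` compare with the supersolution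
`ū(σ) = exp(1 + Mσ) u_t^{exp(-Mσ)}`: `ū' = M ū (1 - e^{-Mσ} log u_t) ≥ M lgm ū`, `ū(0) = e u_t > u_t` (`u_t = 0` is trivial by uniqueness).
`sflow_stab`: `u = Φ₁ s (A₁ t z) - Φ₂ s (A₂ t z)`, `u(t) = 0`, `‖u'‖ ≤ L‖u‖ + c s^n`: `‖u 0‖ ≤ ∫_0^t e^{Ls} c s^n ds`.

THIS FILE: strip_unique, sflow_exists_T.
-/

set_option autoImplicit false

noncomputable section

namespace Pool.Agent.EAC


open MeasureTheory Set Filter Topology Metric
open scoped ENNReal ComplexConjugate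

private lemma uniq_gen {E : Type} [NormedAddCommGroup E] [NormedSpace ℝ E] {T L : ℝ} (hL0 : 0 ≤ L)
    {V : ℝ → E → E} {s : Set E}
    (hL : ∀ t ∈ Icc 0 T, ∀ x ∈ s, ∀ y ∈ s, ‖V t x - V t y‖ ≤ L * ‖x - y‖)
    {γ₁ γ₂ : ℝ → E} {t₀ : ℝ} (ht₀ : t₀ ∈ Icc 0 T)
    (h1 : ∀ t ∈ Icc 0 T, γ₁ t ∈ s) (h2 : ∀ t ∈ Icc 0 T, γ₂ t ∈ s)
    (hd1 : ∀ t ∈ Icc 0 T, HasDerivWithinAt γ₁ (V t (γ₁ t)) (Icc 0 T) t)
    (hd2 : ∀ t ∈ Icc 0 T, HasDerivWithinAt γ₂ (V t (γ₂ t)) (Icc 0 T) t) (h0 : γ₁ t₀ = γ₂ t₀) :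
    ∀ t ∈ Icc 0 T, γ₁ t = γ₂ t := by
  intro t ht
  have hlip : ∀ t ∈ Icc 0 T, LipschitzOnWith (⟨L, hL0⟩ : NNReal) (V t) s := fun t ht =>
    LipschitzOnWith.of_dist_le_mul (fun x hx y hy => by
      rw [dist_eq_norm, dist_eq_norm]; exact hL t ht x hx y hy)
  have hc1 : ContinuousOn γ₁ (Icc 0 T) := fun t ht => (hd1 t ht).continuousWithinAt
  have hc2 : ContinuousOn γ₂ (Icc 0 T) := fun t ht => (hd2 t ht).continuousWithinAt
  rcases le_total t₀ t with hle | hle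
  · have hsub : Icc t₀ T ⊆ Icc 0 T := Icc_subset_Icc_left ht₀.1
    have hsub' : ∀ u ∈ Ico t₀ T, u ∈ Icc 0 T := fun u hu => hsub (Ico_subset_Icc_self hu)
    have hmono : ∀ u ∈ Ico t₀ T, Icc 0 T ∈ 𝓝[≥] u := fun u hu =>
      mem_of_superset (Icc_mem_nhdsGE hu.2) (Icc_subset_Icc_left (hsub' u hu).1)
    exact ODE_solution_unique_of_mem_Icc_right (a := t₀) (b := T) (v := V) (s := fun _ => s)
      (K := ⟨L, hL0⟩) (fun u hu => hlip u (hsub' u hu)) (hc1.mono hsub)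
      (fun u hu => (hd1 u (hsub' u hu)).mono_of_mem_nhdsWithin (hmono u hu))
      (fun u hu => h1 u (hsub' u hu)) (hc2.mono hsub)
      (fun u hu => (hd2 u (hsub' u hu)).mono_of_mem_nhdsWithin (hmono u hu))
      (fun u hu => h2 u (hsub' u hu)) h0 ⟨hle, ht.2⟩
  · have hsub : Icc 0 t₀ ⊆ Icc 0 T := Icc_subset_Icc_right ht₀.2
    have hsub' : ∀ u ∈ Ioc 0 t₀, u ∈ Icc 0 T := fun u hu => hsub (Ioc_subset_Icc_self hu)
    have hmono : ∀ u ∈ Ioc 0 t₀, Icc 0 T ∈ 𝓝[≤] u := fun u hu =>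
      mem_of_superset (Icc_mem_nhdsLE hu.1) (Icc_subset_Icc_right (hsub' u hu).2)
    exact ODE_solution_unique_of_mem_Icc_left (a := 0) (b := t₀) (v := V) (s := fun _ => s)
      (K := ⟨L, hL0⟩) (fun u hu => hlip u (hsub' u hu)) (hc1.mono hsub)
      (fun u hu => (hd1 u (hsub' u hu)).mono_of_mem_nhdsWithin (hmono u hu))
      (fun u hu => h1 u (hsub' u hu)) (hc2.mono hsub)
      (fun u hu => (hd2 u (hsub' u hu)).mono_of_mem_nhdsWithin (hmono u hu))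
      (fun u hu => h2 u (hsub' u hu)) h0 ⟨ht.1, hle⟩

private lemma zero_gen {T L : ℝ} (hL0 : 0 ≤ L) {y y' : ℝ → ℝ}
    (hy : ∀ t ∈ Icc 0 T, HasDerivWithinAt y (y' t) (Icc 0 T) t)
    (hb : ∀ t ∈ Icc 0 T, |y' t| ≤ L * |y t|) {t₀ : ℝ} (ht₀ : t₀ ∈ Icc 0 T) (h0 : y t₀ = 0) :
    ∀ t ∈ Icc 0 T, y t = 0 := by
  have hc : ∀ t ∈ Icc 0 T, |y' t / y t| ≤ L := by
    intro t ht
    rcases eq_or_ne (y t) 0 with h | h
    · rw [h, div_zero, abs_zero]; exact hL0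
    · rw [abs_div, div_le_iff₀ (abs_pos.2 h)]; exact hb t ht
  refine uniq_gen (E := ℝ) (V := fun t x => (y' t / y t) * x) (s := univ) (L := L) hL0 ?_ ht₀
    (fun _ _ => mem_univ _) (fun _ _ => mem_univ _) ?_ ?_ (γ₂ := fun _ => 0) h0
  · intro t ht x _ z _
    rw [← mul_sub, norm_mul, Real.norm_eq_abs]
    exact mul_le_mul_of_nonneg_right (hc t ht) (norm_nonneg _)
  · intro t ht
    have : y' t / y t * y t = y' t := by
      rcases eq_or_ne (y t) 0 with h | h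
      · have := hb t ht
        rw [h, abs_zero, mul_zero] at this
        rw [h, mul_zero]
        exact (abs_nonpos_iff.1 this).symm
      · exact div_mul_cancel₀ _ h
    show HasDerivWithinAt y (y' t / y t * y t) (Icc 0 T) t
    rw [this]
    exact hy t ht
  · intro t ht
    show HasDerivWithinAt (fun _ => (0 : ℝ)) (y' t / y t * 0) (Icc 0 T) t
    rw [mul_zero]
    exact hasDerivWithinAt_const _ _ _

private lemma sgn_gen {T L : ℝ} (hL0 : 0 ≤ L) {y y' : ℝ → ℝ}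
    (hy : ∀ t ∈ Icc 0 T, HasDerivWithinAt y (y' t) (Icc 0 T) t)
    (hb : ∀ t ∈ Icc 0 T, |y' t| ≤ L * |y t|) {t₀ : ℝ} (ht₀ : t₀ ∈ Icc 0 T) (h0 : 0 ≤ y t₀) :
    ∀ t ∈ Icc 0 T, 0 ≤ y t ∧ (y t = 0 ↔ y t₀ = 0) := by
  intro t ht
  have hz := fun u hu h => zero_gen hL0 hy hb (t₀ := u) hu h
  refine ⟨?_, fun h => hz t ht h t₀ ht₀, fun h => hz t₀ ht₀ h t ht⟩
  by_contra hneg
  push Not at hneg
  have hc : ContinuousOn y (Icc 0 T) := fun t ht => (hy t ht).continuousWithinAt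
  have hsub : uIcc t t₀ ⊆ Icc 0 T := by
    intro u hu
    rw [mem_uIcc] at hu
    rcases hu with hu | hu
    · exact ⟨ht.1.trans hu.1, hu.2.trans ht₀.2⟩
    · exact ⟨ht₀.1.trans hu.1, hu.2.trans ht.2⟩
  obtain ⟨u, hu, hu0⟩ := intermediate_value_uIcc (hc.mono hsub)
    (show (0 : ℝ) ∈ uIcc (y t) (y t₀) from mem_uIcc.2 (Or.inl ⟨hneg.le, h0⟩))
  have := hz u (hsub hu) hu0 t ht
  linarith

/-- uniqueness of trajectories in the strip. -/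
theorem strip_unique {T h : ℝ} {V : ℝ → ℂ → ℂ} (hV : FieldOK T h V) {γ₁ γ₂ : ℝ → ℂ} {t₀ : ℝ}
    (ht₀ : t₀ ∈ Icc 0 T) (h1 : ∀ t ∈ Icc 0 T, γ₁ t ∈ S h) (h2 : ∀ t ∈ Icc 0 T, γ₂ t ∈ S h)
    (hd1 : ∀ t ∈ Icc 0 T, HasDerivWithinAt γ₁ (V t (γ₁ t)) (Icc 0 T) t)
    (hd2 : ∀ t ∈ Icc 0 T, HasDerivWithinAt γ₂ (V t (γ₂ t)) (Icc 0 T) t) (h0 : γ₁ t₀ = γ₂ t₀) :
    ∀ t ∈ Icc 0 T, γ₁ t = γ₂ t := by
  obtain ⟨L, hL0, hL⟩ := hV.lip
  exact uniq_gen hL0 hL ht₀ h1 h2 hd1 hd2 h0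

private def cl (h : ℝ) (z : ℂ) : ℂ := ⟨z.re, max 0 (min h z.im)⟩

private lemma cl_mem {h : ℝ} (hh : 0 < h) (z : ℂ) : cl h z ∈ S h :=
  ⟨le_max_left _ _, max_le hh.le (min_le_left _ _)⟩

private lemma cl_eq {h : ℝ} {z : ℂ} (hz : z ∈ S h) : cl h z = z := by
  apply Complex.ext
  · rfl
  · show max 0 (min h z.im) = z.im
    rw [min_eq_right hz.2, max_eq_right hz.1]

private lemma cl_lip (h : ℝ) (z w : ℂ) : ‖cl h z - cl h w‖ ≤ ‖z - w‖ := by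
  have h1 : |max 0 (min h z.im) - max 0 (min h w.im)| ≤ |z.im - w.im| := by
    refine (abs_max_sub_max_le_max _ _ _ _).trans ?_
    rw [sub_self, abs_zero]
    refine max_le (abs_nonneg _) ?_
    refine (abs_min_sub_min_le_max _ _ _ _).trans ?_
    rw [sub_self, abs_zero]
    exact max_le (abs_nonneg _) le_rfl
  rw [Complex.norm_def, Complex.norm_def]
  apply Real.sqrt_le_sqrt
  rw [Complex.normSq_apply, Complex.normSq_apply]
  have h2 : (cl h z - cl h w).re = (z - w).re := rfl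
  have h3 : (cl h z - cl h w).im = max 0 (min h z.im) - max 0 (min h w.im) := rfl
  have h4 : (z - w).im = z.im - w.im := rfl
  rw [h2, h3, h4]
  have h5 := mul_self_le_mul_self (abs_nonneg _) h1
  rw [abs_mul_abs_self, abs_mul_abs_self] at h5
  linarith

private lemma cl_shift (h : ℝ) (z : ℂ) : cl h (z + 2 * Real.pi) = cl h z + 2 * Real.pi := by
  have him : ((2 : ℂ) * (Real.pi : ℂ)).im = 0 := by
    simp
  apply Complex.ext
  · show (z + 2 * Real.pi).re = (cl h z + 2 * Real.pi).re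
    rw [Complex.add_re, Complex.add_re]
    rfl
  · show max 0 (min h (z + 2 * Real.pi).im) = (cl h z + 2 * Real.pi).im
    rw [Complex.add_im, Complex.add_im, him, add_zero, add_zero]
    rfl

private lemma VE_lip {T h L : ℝ} (hh : 0 < h) {V : ℝ → ℂ → ℂ} (hL0 : 0 ≤ L)
    (hL : ∀ t ∈ Icc 0 T, ∀ z ∈ S h, ∀ w ∈ S h, ‖V t z - V t w‖ ≤ L * ‖z - w‖) :
    ∀ t ∈ Icc 0 T, ∀ x y, ‖V t (cl h x) - V t (cl h y)‖ ≤ L * ‖x - y‖ := fun t ht x y =>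
  (hL t ht _ (cl_mem hh x) _ (cl_mem hh y)).trans (mul_le_mul_of_nonneg_left (cl_lip h x y) hL0)

private lemma VE_bot {T h L : ℝ} (hh : 0 < h) {V : ℝ → ℂ → ℂ} (hL0 : 0 ≤ L)
    (hL : ∀ t ∈ Icc 0 T, ∀ z ∈ S h, ∀ w ∈ S h, ‖V t z - V t w‖ ≤ L * ‖z - w‖)
    (htan : ∀ t ∈ Icc 0 T, ∀ z ∈ S h, z.im = 0 ∨ z.im = h → (V t z).im = 0) :
    ∀ t ∈ Icc 0 T, ∀ x : ℂ, |(V t (cl h x)).im| ≤ L * |x.im| := by
  intro t ht x
  have hp : (⟨x.re, 0⟩ : ℂ) ∈ S h := ⟨le_rfl, hh.le⟩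
  have h1 := VE_lip hh hL0 hL t ht x ⟨x.re, 0⟩
  rw [cl_eq hp] at h1
  have h2 : (V t ⟨x.re, 0⟩).im = 0 := htan t ht _ hp (Or.inl rfl)
  have h3 : (V t (cl h x)).im = (V t (cl h x) - V t ⟨x.re, 0⟩).im := by
    rw [Complex.sub_im, h2, sub_zero]
  have h4 : x - ⟨x.re, 0⟩ = (x.im : ℂ) * Complex.I := by
    apply Complex.ext <;> simp
  rw [h3]
  refine (Complex.abs_im_le_norm _).trans (h1.trans_eq ?_)
  rw [h4, norm_mul, Complex.norm_I, mul_one, Complex.norm_real, Real.norm_eq_abs]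

private lemma VE_top {T h L : ℝ} (hh : 0 < h) {V : ℝ → ℂ → ℂ} (hL0 : 0 ≤ L)
    (hL : ∀ t ∈ Icc 0 T, ∀ z ∈ S h, ∀ w ∈ S h, ‖V t z - V t w‖ ≤ L * ‖z - w‖)
    (htan : ∀ t ∈ Icc 0 T, ∀ z ∈ S h, z.im = 0 ∨ z.im = h → (V t z).im = 0) :
    ∀ t ∈ Icc 0 T, ∀ x : ℂ, |(V t (cl h x)).im| ≤ L * |h - x.im| := by
  intro t ht x
  have hp : (⟨x.re, h⟩ : ℂ) ∈ S h := ⟨hh.le, le_rfl⟩
  have h1 := VE_lip hh hL0 hL t ht x ⟨x.re, h⟩
  rw [cl_eq hp] at h1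
  have h2 : (V t ⟨x.re, h⟩).im = 0 := htan t ht _ hp (Or.inr rfl)
  have h3 : (V t (cl h x)).im = (V t (cl h x) - V t ⟨x.re, h⟩).im := by
    rw [Complex.sub_im, h2, sub_zero]
  have h4 : x - ⟨x.re, h⟩ = ((x.im - h : ℝ) : ℂ) * Complex.I := by
    apply Complex.ext <;> simp
  rw [h3]
  refine (Complex.abs_im_le_norm _).trans (h1.trans_eq ?_)
  rw [h4, norm_mul, Complex.norm_I, mul_one, Complex.norm_real, Real.norm_eq_abs, abs_sub_comm]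

/-- solutions of the extended equation stay in the strip, on any interval `[0,b]`, `b ≤ T`. -/
private lemma stay {T h : ℝ} (hh : 0 < h) {V : ℝ → ℂ → ℂ} (hV : FieldOK T h V) {b : ℝ}
    (hb : b ≤ T) {γ : ℝ → ℂ}
    (hγ : ∀ t ∈ Icc 0 b, HasDerivWithinAt γ (V t (cl h (γ t))) (Icc 0 b) t) {t₀ : ℝ}
    (ht₀ : t₀ ∈ Icc 0 b) (h0 : γ t₀ ∈ S h) :
    ∀ t ∈ Icc 0 b, γ t ∈ S h ∧ ((γ t).im = 0 ↔ (γ t₀).im = 0) ∧
      ((γ t).im = h ↔ (γ t₀).im = h) := by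
  obtain ⟨L, hL0, hL⟩ := hV.lip
  have hsub : ∀ u ∈ Icc 0 b, u ∈ Icc 0 T := fun u hu => ⟨hu.1, hu.2.trans hb⟩
  have him : ∀ t ∈ Icc 0 b, HasDerivWithinAt (fun t => (γ t).im) ((V t (cl h (γ t))).im)
      (Icc 0 b) t := fun t ht => by
    have := Complex.imCLM.hasFDerivAt.comp_hasDerivWithinAt t (hγ t ht)
    exact this
  have him2 : ∀ t ∈ Icc 0 b, HasDerivWithinAt (fun t => h - (γ t).im) (-(V t (cl h (γ t))).im)
      (Icc 0 b) t := fun t ht => (him t ht).const_sub h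
  have hA := sgn_gen (T := b) (L := L) hL0 him
    (fun t ht => VE_bot hh hL0 hL hV.tan t (hsub t ht) _) ht₀ h0.1
  have hB := sgn_gen (T := b) (L := L) hL0 him2
    (fun t ht => by rw [abs_neg]; exact VE_top hh hL0 hL hV.tan t (hsub t ht) _) ht₀
    (sub_nonneg.2 h0.2)
  intro t ht
  refine ⟨⟨(hA t ht).1, sub_nonneg.1 (hB t ht).1⟩, (hA t ht).2, ?_⟩
  have := (hB t ht).2
  rw [sub_eq_zero, sub_eq_zero] at this
  exact ⟨fun e => (this.1 e.symm).symm, fun e => (this.2 e.symm).symm⟩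

/-- backward solutions. -/
private lemma backw {T h : ℝ} (hh : 0 < h) {V : ℝ → ℂ → ℂ} (hV : FieldOK T h V) {b : ℝ}
    (hb : b ∈ Icc 0 T) (w : ℂ) : ∃ γ : ℝ → ℂ, γ b = w ∧
      ∀ t ∈ Icc 0 b, HasDerivWithinAt γ (V t (cl h (γ t))) (Icc 0 b) t := by
  obtain ⟨L, hL0, hL⟩ := hV.lip
  have hrev : ∀ u ∈ Icc 0 b, b - u ∈ Icc 0 T := fun u hu =>
    ⟨sub_nonneg.2 hu.2, (sub_le_self b hu.1).trans hb.2⟩
  have hrev' : MapsTo (fun u => b - u) (Icc 0 b) (Icc 0 b) := fun u hu =>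
    ⟨sub_nonneg.2 hu.2, sub_le_self b hu.1⟩
  obtain ⟨δ, hδ0, hδ⟩ := ode_global (E := ℂ) (T := b) hb.1
    (V := fun s x => -V (b - s) (cl h x)) (L := L)
    (fun x => by
      refine ContinuousOn.neg ?_
      have h1 : ContinuousOn (fun s : ℝ => ((b - s, cl h x) : ℝ × ℂ)) (Icc 0 b) :=
        (continuousOn_const.sub continuousOn_id).prodMk continuousOn_const
      exact hV.cont.comp h1 (fun s hs => ⟨hrev s hs, cl_mem hh x⟩))
    (fun t ht x y => by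
      rw [neg_sub_neg, norm_sub_rev]
      exact VE_lip hh hL0 hL (b - t) (hrev t ht) x y) w
  refine ⟨fun s => δ (b - s), by simpa using hδ0, fun t ht => ?_⟩
  have h1 := hδ (b - t) (hrev' ht)
  have h2 : HasDerivWithinAt (fun s : ℝ => b - s) (-1) (Icc 0 b) t :=
    (hasDerivWithinAt_id t _).const_sub b
  have h3 := HasDerivWithinAt.scomp (g₁ := δ) (h := fun s : ℝ => b - s) t h1 h2 hrev'
  rw [neg_one_smul, neg_neg, sub_sub_cancel] at h3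
  exact h3

theorem sflow_exists_T {T h : ℝ} (hh : 0 < h) (hT : 0 ≤ T) {V : ℝ → ℂ → ℂ} (hV : FieldOK T h V) :
    ∃ Φ A, SFlow T h V Φ A := by
  obtain ⟨L, hL0, hL⟩ := hV.lip
  have hF : ∀ z : ℂ, ∃ γ : ℝ → ℂ, γ 0 = z ∧
      ∀ t ∈ Icc 0 T, HasDerivWithinAt γ (V t (cl h (γ t))) (Icc 0 T) t := fun z =>
    ode_global (E := ℂ) (T := T) hT (V := fun s x => V s (cl h x)) (L := L)
      (fun x => by
        have h1 : ContinuousOn (fun s : ℝ => ((s, cl h x) : ℝ × ℂ)) (Icc 0 T) :=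
          continuousOn_id.prodMk continuousOn_const
        exact hV.cont.comp h1 (fun s hs => ⟨hs, cl_mem hh x⟩))
      (fun t ht x y => VE_lip hh hL0 hL t ht x y) z
  choose F hF0 hF using hF
  have hA : ∀ (t : ℝ) (w : ℂ), ∃ a : ℂ, t ∈ Icc 0 T → ∃ γ : ℝ → ℂ, γ t = w ∧ γ 0 = a ∧
      ∀ s ∈ Icc 0 t, HasDerivWithinAt γ (V s (cl h (γ s))) (Icc 0 t) s := by
    intro t w
    by_cases ht : t ∈ Icc 0 T
    · obtain ⟨γ, h1, h2⟩ := backw hh hV ht w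
      exact ⟨γ 0, fun _ => ⟨γ, h1, rfl, h2⟩⟩
    · exact ⟨0, fun h => absurd h ht⟩
  choose A hA using hA
  have hsub : ∀ t ∈ Icc 0 T, ∀ s ∈ Icc 0 t, s ∈ Icc 0 T := fun t ht s hs =>
    ⟨hs.1, hs.2.trans ht.2⟩
  have huniq : ∀ t ∈ Icc 0 T, ∀ γ₁ γ₂ : ℝ → ℂ, ∀ t₀ ∈ Icc 0 t,
      (∀ s ∈ Icc 0 t, HasDerivWithinAt γ₁ (V s (cl h (γ₁ s))) (Icc 0 t) s) →
      (∀ s ∈ Icc 0 t, HasDerivWithinAt γ₂ (V s (cl h (γ₂ s))) (Icc 0 t) s) →
      γ₁ t₀ = γ₂ t₀ → ∀ s ∈ Icc 0 t, γ₁ s = γ₂ s := by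
    intro t ht γ₁ γ₂ t₀ ht₀ h1 h2 h0
    exact uniq_gen (E := ℂ) (V := fun s x => V s (cl h x)) (s := univ) hL0
      (fun s hs x _ y _ => VE_lip hh hL0 hL s (hsub t ht s hs) x y) ht₀
      (fun _ _ => mem_univ _) (fun _ _ => mem_univ _) h1 h2 h0
  have hFr : ∀ t ∈ Icc 0 T, ∀ z : ℂ, ∀ s ∈ Icc 0 t,
      HasDerivWithinAt (F z) (V s (cl h (F z s))) (Icc 0 t) s := fun t ht z s hs =>
    (hF z s (hsub t ht s hs)).mono (Icc_subset_Icc_right ht.2)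
  have hshift : ∀ t ∈ Icc 0 T, ∀ γ : ℝ → ℂ,
      (∀ s ∈ Icc 0 t, HasDerivWithinAt γ (V s (cl h (γ s))) (Icc 0 t) s) →
      ∀ s ∈ Icc 0 t, HasDerivWithinAt (fun s => γ s + 2 * Real.pi)
        (V s (cl h (γ s + 2 * Real.pi))) (Icc 0 t) s := by
    intro t ht γ hγ s hs
    rw [cl_shift, hV.per s (hsub t ht s hs) _ (cl_mem hh _)]
    exact (hγ s hs).add_const _
  have hr : ∀ t ∈ Icc 0 T, t ∈ Icc 0 t := fun t ht => ⟨ht.1, le_rfl⟩
  have hl : ∀ t ∈ Icc 0 T, (0 : ℝ) ∈ Icc 0 t := fun t ht => ⟨le_rfl, ht.1⟩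
  have h0T : (0 : ℝ) ∈ Icc 0 T := ⟨le_rfl, hT⟩
  have hst : ∀ z ∈ S h, ∀ t ∈ Icc 0 T, F z t ∈ S h ∧ ((F z t).im = 0 ↔ z.im = 0) ∧
      ((F z t).im = h ↔ z.im = h) := by
    intro z hz t ht
    have := stay hh hV le_rfl (hF z) h0T (by rw [hF0]; exact hz) t ht
    rwa [hF0] at this
  refine ⟨fun t z => F z t, A, ?_⟩
  refine ⟨fun z _ => hF0 z, fun t ht z hz => (hst z hz t ht).1, ?_, ?_, ?_, ?_, ?_, ?_, ?_, ?_⟩
  · intro t ht z hz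
    obtain ⟨γ, h1, h2, h3⟩ := hA t z ht
    rw [← h2]
    exact (stay hh hV ht.2 h3 (hr t ht) (by rw [h1]; exact hz) 0 (hl t ht)).1
  · intro t ht z hz
    obtain ⟨γ, h1, h2, h3⟩ := hA t (F z t) ht
    show A t (F z t) = z
    rw [← h2]
    have := huniq t ht γ (F z) t (hr t ht) h3 (hFr t ht z) h1 0 (hl t ht)
    rw [this, hF0]
  · intro t ht z hz
    obtain ⟨γ, h1, h2, h3⟩ := hA t z ht
    show F (A t z) t = z
    have := huniq t ht (F (A t z)) γ 0 (hl t ht) (hFr t ht _) h3 (by rw [hF0, h2]) t (hr t ht)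
    rw [this, h1]
  · intro t ht z hz
    have h1 := hF z t ht
    rw [cl_eq (hst z hz t ht).1] at h1
    exact h1
  · intro t ht z hz
    exact (hst z hz t ht).2.1
  · intro t ht z hz
    exact (hst z hz t ht).2.2
  · intro t ht z hz
    exact huniq t ht (F (z + 2 * Real.pi)) (fun s => F z s + 2 * Real.pi) 0 (hl t ht)
      (hFr t ht _) (hshift t ht _ (hFr t ht z)) (by simp only [hF0]) t (hr t ht)
  · intro t ht z hz
    obtain ⟨γ, h1, h2, h3⟩ := hA t z ht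
    obtain ⟨γ', h1', h2', h3'⟩ := hA t (z + 2 * Real.pi) ht
    rw [← h2, ← h2']
    exact huniq t ht γ' (fun s => γ s + 2 * Real.pi) t (hr t ht) h3' (hshift t ht _ h3)
      (by simp only [h1, h1']) 0 (hl t ht)

end Pool.Agent.EAC
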