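import Pool.Agent.EAC.X1
import Pool.Agent.EAC.X2
import Pool.Agent.EAC.S4

/-!
# EAC-X4: the velocity field `VV D h lam w` of a vorticity `w`

`f t = rr D t * w t` is bounded by `C/dd D T` (for `0 ≤ t ≤ T`), Hölder, continuous; `W` is continuous (`W_time`), `|W| ≤ C`, log-Lipschitz with constant depending on `D,T,h`
only (`W_log`), Lipschitz with constant depending also on `β, K` (`W_lip`). `Lam h lam (f t)` is bounded and continuous in `t`, `|Lam(f) - Lam(g)| ≤ C sup|f-g|`.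
`aa` is bounded and Lipschitz. Products of bounded log-Lipschitz functions are log-Lipschitz (`r ≤ lgm r`). Tangency: `Im (a(-Λ + i conj W)) = a Re W = 0` on the boundary (`W_re`).
`vel_speed`: the size near the corners, with a constant independent of `D, t, w`: `W_log_sing`, `aa ≤ C ‖sin‖`; `Lam ≤ lam + C` because `∫_{Sper} 1/‖sin‖ < ∞`.
`W_log_sing`: `|f w| ≤ 1/‖sin w‖`: `‖W f z‖ ≤ ∫ 1/(2‖z-w‖‖sin w‖)` over `|Re w - Re z| ≤ π`, plus exponentially small tail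
(`ker_le_exp`, `∫_{period} 1/‖sin‖ < ∞`); `‖sin w‖ ≥ c dist(w, πℤ)`, and
`∫_{ball} 1/(‖z-w‖‖w-a‖) ≤ C (1 + log⁺(1/‖z-a‖))`.

THIS FILE: vel_lip.
-/

set_option autoImplicit false

noncomputable section

namespace Pool.Agent.EAC


open MeasureTheory Set Filter Topology Metric
open scoped ENNReal ComplexConjugate

theorem x4b_mem_closure {h : ℝ} (hh : 0 < h) {z : ℂ} (hz : z ∈ S h) : z ∈ closure (U h) := by
  have h1 : U h = Complex.im ⁻¹' (Ioo 0 h) := rfl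
  rw [h1, Complex.closure_preimage_im, closure_Ioo hh.ne]
  exact hz

theorem x4b_U_sub {h : ℝ} : U h ⊆ S h := fun _ hz => ⟨hz.1.le, hz.2.le⟩

theorem x4b_bdd_ext {h : ℝ} (hh : 0 < h) {E : Type*} [NormedAddCommGroup E] {g : ℂ → E} {B : ℝ}
    (hc : ContinuousOn g (S h)) (hB : ∀ z ∈ U h, ‖g z‖ ≤ B) : ∀ z ∈ S h, ‖g z‖ ≤ B := by
  intro z hz
  exact ContinuousWithinAt.closure_le (x4b_mem_closure hh hz) ((hc z hz).norm.mono x4b_U_sub)
    continuousWithinAt_const hB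

theorem x4b_lip_ext {h : ℝ} (hh : 0 < h) {E : Type*} [NormedAddCommGroup E] {g : ℂ → E} {L : ℝ}
    (hc : ContinuousOn g (S h)) (hl : ∀ z ∈ U h, ∀ w ∈ U h, ‖g z - g w‖ ≤ L * ‖z - w‖) :
    ∀ z ∈ S h, ∀ w ∈ S h, ‖g z - g w‖ ≤ L * ‖z - w‖ := by
  have h1 : ∀ z ∈ S h, ∀ w ∈ U h, ‖g z - g w‖ ≤ L * ‖z - w‖ := by
    intro z hz w hw
    refine ContinuousWithinAt.closure_le (s := U h) (f := fun z => ‖g z - g w‖)
      (g := fun z => L * ‖z - w‖) (x4b_mem_closure hh hz) ?_ ?_ (fun y hy => hl y hy w hw)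
    · exact (((hc z hz).sub continuousWithinAt_const).norm).mono x4b_U_sub
    · exact (Continuous.continuousWithinAt (by fun_prop))
  intro z hz w hw
  refine ContinuousWithinAt.closure_le (s := U h) (f := fun w => ‖g z - g w‖)
    (g := fun w => L * ‖z - w‖) (x4b_mem_closure hh hw) ?_ ?_ (fun y hy => h1 z hz y hy)
  · exact ((continuousWithinAt_const.sub (hc w hw)).norm).mono x4b_U_sub
  · exact (Continuous.continuousWithinAt (by fun_prop))

theorem x4b_slice {T h : ℝ} {F : Type*} [TopologicalSpace F] {g : ℝ × ℂ → F} {A : Set ℝ}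
    (hc : ContinuousOn g (A ×ˢ S h)) {t : ℝ} (ht : t ∈ A) :
    ContinuousOn (fun z => g (t, z)) (S h) :=
  hc.comp (Continuous.continuousOn (by fun_prop)) (fun _ hz => ⟨ht, hz⟩)

/-- bounded and Lipschitz implies Hölder. -/
theorem x4b_holder {L R β r d : ℝ} (hL : 0 ≤ L) (hR : 0 ≤ R) (hβ : 0 < β) (hβ1 : β ≤ 1)
    (hr : 0 ≤ r) (h1 : d ≤ L * r) (h2 : d ≤ 2 * R) : d ≤ max L (2 * R) * r ^ β := by
  rcases le_total r 1 with h | h
  · have h3 : r ≤ r ^ β := by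
      rcases hr.eq_or_lt with h0 | h0
      · rw [← h0, Real.zero_rpow hβ.ne']
      · calc r = r ^ (1 : ℝ) := (Real.rpow_one r).symm
          _ ≤ r ^ β := Real.rpow_le_rpow_of_exponent_ge h0 h hβ1
    calc d ≤ L * r := h1
      _ ≤ max L (2 * R) * r ^ β :=
        mul_le_mul (le_max_left _ _) h3 hr (le_trans hL (le_max_left _ _))
  · have h3 : 1 ≤ r ^ β := Real.one_le_rpow h hβ.le
    calc d ≤ 2 * R := h2
      _ = 2 * R * 1 := (mul_one _).symm
      _ ≤ max L (2 * R) * r ^ β :=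
        mul_le_mul (le_max_right _ _) h3 zero_le_one (le_trans hL (le_max_left _ _))

theorem x4b_vol (h : ℝ) : volume (Sper h) < ⊤ := by
  have h1 : Sper h ⊆ (Icc 0 (2 * Real.pi)) ×ℂ (Icc 0 h) := by
    intro z hz
    exact ⟨⟨hz.1, hz.2.1.le⟩, ⟨hz.2.2.1, hz.2.2.2⟩⟩
  refine lt_of_le_of_lt (measure_mono h1) ?_
  exact (IsCompact.reProdIm isCompact_Icc isCompact_Icc).measure_lt_top

theorem x4b_Lam {h lam B : ℝ} (hh : 0 < h) (hh1 : h ≤ 1) (hB0 : 0 ≤ B) {f : ℂ → ℝ}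
    (hB : ∀ z ∈ S h, |f z| ≤ B) :
    |Lam h lam f| ≤ |lam| + 1 / (2 * Real.pi * h) * (B * (volume.real (Sper h))) := by
  unfold Lam
  have h1 : ‖∫ w in Sper h, w.im * f w‖ ≤ B * volume.real (Sper h) := by
    apply norm_setIntegral_le_of_norm_le_const (x4b_vol h)
    intro z hz
    rw [norm_mul, Real.norm_eq_abs, Real.norm_eq_abs]
    have h2 : |z.im| ≤ 1 := by
      rw [abs_of_nonneg hz.2.2.1]
      exact hz.2.2.2.trans hh1
    calc |z.im| * |f z| ≤ 1 * B :=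
          mul_le_mul h2 (hB z ⟨hz.2.2.1, hz.2.2.2⟩) (abs_nonneg _) zero_le_one
      _ = B := one_mul _
  have h3 : 0 ≤ 1 / (2 * Real.pi * h) := by positivity
  refine (abs_add_le _ _).trans ?_
  rw [abs_mul, abs_of_nonneg h3]
  gcongr
  exact h1

theorem vel_lip {D h lam T β K : ℝ} (hh : 0 < h) (hh1 : h ≤ 1) (hT : 0 ≤ T) (hβ : 0 < β) (hβ1 : β ≤ 1) :
    ∃ L ≥ 0, ∀ w : ℝ → ℂ → ℝ, St T h β K w →
      ∀ t ∈ Icc 0 T, ∀ z ∈ S h, ∀ y ∈ S h, ‖VV D h lam w t z - VV D h lam w t y‖ ≤ L * ‖z - y‖ := by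
  have ha1 : CC T h (0 + 1) (aa D) := (aa_CC D T hh 1).1
  have hr1 : CC T h (0 + 1) (rr D) := (aa_CC D T hh 1).2
  obtain ⟨A, hA0, hA⟩ := CC_bdd ha1
  obtain ⟨LA, hLA0, hLA⟩ := CC_lip ha1
  obtain ⟨R, hR0, hR⟩ := CC_bdd hr1
  obtain ⟨LR, hLR0, hLR⟩ := CC_lip hr1
  obtain ⟨C1, hC10, hW⟩ := W_lip hh hβ hβ1
  obtain ⟨C2, hC20, hWb⟩ := W_bound
  have hac : ∀ t, ContinuousOn (aa D t) (S h) := fun t =>
    x4b_slice (T := T) (aa_cont D hh).1 (mem_univ t)
  have hrc : ∀ t, ContinuousOn (rr D t) (S h) := fun t =>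
    x4b_slice (T := T) (aa_cont D hh).2 (mem_univ t)
  have hA' : ∀ t ∈ Icc 0 T, ∀ z ∈ S h, ‖aa D t z‖ ≤ A := fun t ht =>
    x4b_bdd_ext hh (hac t) (hA t ht)
  have hLA' : ∀ t ∈ Icc 0 T, ∀ z ∈ S h, ∀ y ∈ S h, ‖aa D t z - aa D t y‖ ≤ LA * ‖z - y‖ :=
    fun t ht => x4b_lip_ext hh (hac t) (hLA t ht)
  have hR' : ∀ t ∈ Icc 0 T, ∀ z ∈ S h, ‖rr D t z‖ ≤ R := fun t ht =>
    x4b_bdd_ext hh (hrc t) (hR t ht)
  obtain ⟨K', hK'⟩ : ∃ K', K' = max K 0 := ⟨_, rfl⟩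
  have hK'0 : 0 ≤ K' := by rw [hK']; exact le_max_right _ _
  obtain ⟨Kf, hKf⟩ : ∃ Kf, Kf = R * K' + max LR (2 * R) := ⟨_, rfl⟩
  have hKf0 : 0 ≤ Kf := by
    rw [hKf]
    exact add_nonneg (mul_nonneg hR0 hK'0) (le_trans hLR0 (le_max_left _ _))
  obtain ⟨LL, hLL⟩ : ∃ LL, LL = |lam| + 1 / (2 * Real.pi * h) * (R * (volume.real (Sper h))) :=
    ⟨_, rfl⟩
  have hLL0 : 0 ≤ LL := by
    rw [hLL]
    positivity
  refine ⟨LA * (LL + C2 * h * R) + A * (C1 * (R + Kf)), by positivity, ?_⟩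
  intro w hw t ht z hz y hy
  obtain ⟨f, hf⟩ : ∃ f : ℂ → ℝ, f = fun x => rr D t x * w t x := ⟨_, rfl⟩
  have hw1 : ∀ x ∈ S h, |w t x| ≤ 1 := by
    intro x hx
    rw [abs_of_nonneg (hw.range t ht x hx).1]
    exact (hw.range t ht x hx).2
  have hfB : ∀ x ∈ S h, |f x| ≤ R := by
    intro x hx
    rw [hf]
    change |rr D t x * w t x| ≤ R
    rw [abs_mul]
    calc |rr D t x| * |w t x| ≤ R * 1 :=
          mul_le_mul (hR' t ht x hx) (hw1 x hx) (abs_nonneg _) hR0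
      _ = R := mul_one R
  have hfH : ∀ x ∈ U h, ∀ x' ∈ U h, |f x - f x'| ≤ Kf * ‖x - x'‖ ^ β := by
    intro x hx x' hx'
    have hxS := x4b_U_sub hx
    have hxS' := x4b_U_sub hx'
    have e : f x - f x' = rr D t x * (w t x - w t x') + (rr D t x - rr D t x') * w t x' := by
      rw [hf]
      ring
    have h1 : |rr D t x * (w t x - w t x')| ≤ R * K' * ‖x - x'‖ ^ β := by
      rw [abs_mul, mul_assoc]
      refine mul_le_mul (hR' t ht x hxS) ?_ (abs_nonneg _) hR0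
      refine (hw.holder t ht x hxS x' hxS').trans ?_
      apply mul_le_mul_of_nonneg_right
      · rw [hK']; exact le_max_left _ _
      · positivity
    have h2 : |(rr D t x - rr D t x') * w t x'| ≤ max LR (2 * R) * ‖x - x'‖ ^ β := by
      apply x4b_holder hLR0 hR0 hβ hβ1 (norm_nonneg _)
      · rw [abs_mul]
        calc |rr D t x - rr D t x'| * |w t x'| ≤ (LR * ‖x - x'‖) * 1 :=
              mul_le_mul (hLR t ht x hx x' hx') (hw1 x' hxS') (abs_nonneg _) (by positivity)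
          _ = LR * ‖x - x'‖ := mul_one _
      · rw [abs_mul]
        have h3 : |rr D t x - rr D t x'| ≤ 2 * R := by
          have h4 := hR t ht x hx
          have h5 := hR t ht x' hx'
          rw [Real.norm_eq_abs] at h4 h5
          calc |rr D t x - rr D t x'| ≤ |rr D t x| + |rr D t x'| := abs_sub _ _
            _ ≤ 2 * R := by linarith
        calc |rr D t x - rr D t x'| * |w t x'| ≤ (2 * R) * 1 :=
              mul_le_mul h3 (hw1 x' hxS') (abs_nonneg _) (by positivity)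
          _ = 2 * R := mul_one _
    rw [e]
    calc _ ≤ |rr D t x * (w t x - w t x')| + |(rr D t x - rr D t x') * w t x'| :=
          abs_add_le _ _
      _ ≤ R * K' * ‖x - x'‖ ^ β + max LR (2 * R) * ‖x - x'‖ ^ β := add_le_add h1 h2
      _ = Kf * ‖x - x'‖ ^ β := by rw [hKf]; ring
  have hwc : ContinuousOn (w t) (S h) := x4b_slice (T := T) hw.cont ht
  have hfc : ContinuousOn f (U h) := by
    rw [hf]
    exact ((hrc t).mul hwc).mono x4b_U_sub
  have hBM : BM h f R := BM_of_continuousOn hfc (fun x hx => hfB x (x4b_U_sub hx))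
  have hL1 : |Lam h lam f| ≤ LL := by
    rw [hLL]
    exact x4b_Lam hh hh1 hR0 hfB
  have hW1 : ‖W h f z‖ ≤ C2 * h * R := hWb h hh f R hBM z hz
  have hW2 : ‖W h f z - W h f y‖ ≤ C1 * (R + Kf) * ‖z - y‖ :=
    hW f R Kf hR0 hKf0 (fun x hx => hfB x (x4b_U_sub hx)) hfH z hz y hy
  have e : VV D h lam w t z - VV D h lam w t y =
      ((aa D t z - aa D t y : ℝ) : ℂ) * (-(Lam h lam f : ℂ) + Complex.I * conj (W h f z)) +
        (aa D t y : ℂ) * (Complex.I * conj (W h f z - W h f y)) := by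
    unfold VV Vel
    rw [← hf, map_sub]
    push_cast
    ring
  rw [e]
  have h1 : ‖((aa D t z - aa D t y : ℝ) : ℂ) *
      (-(Lam h lam f : ℂ) + Complex.I * conj (W h f z))‖ ≤
      LA * ‖z - y‖ * (LL + C2 * h * R) := by
    rw [norm_mul, Complex.norm_real]
    refine mul_le_mul (hLA' t ht z hz y hy) ?_ (norm_nonneg _) (by positivity)
    refine (norm_add_le _ _).trans ?_
    rw [norm_neg, Complex.norm_real, norm_mul, Complex.norm_I, one_mul, Complex.norm_conj]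
    exact add_le_add hL1 hW1
  have h2 : ‖(aa D t y : ℂ) * (Complex.I * conj (W h f z - W h f y))‖ ≤
      A * (C1 * (R + Kf) * ‖z - y‖) := by
    rw [norm_mul, Complex.norm_real, norm_mul, Complex.norm_I, one_mul, Complex.norm_conj]
    exact mul_le_mul (hA' t ht y hy) hW2 (norm_nonneg _) hA0
  calc _ ≤ LA * ‖z - y‖ * (LL + C2 * h * R) + A * (C1 * (R + Kf) * ‖z - y‖) :=
        (norm_add_le _ _).trans (add_le_add h1 h2)
    _ = (LA * (LL + C2 * h * R) + A * (C1 * (R + Kf))) * ‖z - y‖ := by ring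

end Pool.Agent.EAC
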