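import Pool.Agent.EAC.X1
import Pool.Agent.EAC.X2
import Pool.Agent.EAC.S4

/-!
# EAC-X4: the velocity field `VV D h lam w` of a vorticity `w`

`f t = rr D t * w t` is bounded by `C/dd D T` (for `0 ≤ t ≤ T`), Hölder, continuous; `W` is continuous (`W_time`), `|W| ≤ C`, log-Lipschitz with constant depending on `D,T,h`
only (`W_log`), Lipschitz with constant depending also on `β, K` (`W_lip`). `Lam h lam (f t)` is bounded and continuous in `t`, `|Lam(f) - Lam(g)| ≤ C sup|f-g|`.
`aa` is bounded and Lipschitz. Products of bounded log-Lipschitz functions are log-Lipschitz (`r ≤ lgm r`). Tangency: `Im (a(-Λ + i conj W)) = a Re W = 0` on the boundary (`W_re`).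
`vel_speed`: the size near the corners, with a constant independent of `D, t, w`: `W_log_sing`, `aa ≤ C ‖sin‖`; `Lam ≤ lam + C` because `∫_{Sper} 1/‖sin‖ < ∞`.
`W_log_sing`: `|f w| ≤ 1/‖sin w‖`: `‖W f z‖ ≤ ∫ 1/(2‖z-w‖‖sin w‖)` over `|Re w - Re z| ≤ π`, plus exponentially small tail
(`ker_le_exp`, `∫_{period} 1/‖sin‖ < ∞`); `‖sin w‖ ≥ c dist(w, πℤ)`, and
`∫_{ball} 1/(‖z-w‖‖w-a‖) ≤ C (1 + log⁺(1/‖z-a‖))`.

THIS FILE: vel_diff.
-/

set_option autoImplicit false

noncomputable section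

namespace Pool.Agent.EAC


open MeasureTheory Set Filter Topology Metric
open scoped ENNReal ComplexConjugate

private lemma dd_lower {D T t : ℝ} (ht : t ∈ Icc 0 T) :
    Real.exp (-|D| * Real.exp (|D| * T)) ≤ dd D t := by
  unfold dd
  apply Real.exp_le_exp.mpr
  have h1 : D * Real.exp (D * t) ≤ |D| * Real.exp (|D| * T) := by
    have h2 : D * t ≤ |D| * T := by
      have h3 : D * t ≤ |D| * t := mul_le_mul_of_nonneg_right (le_abs_self D) ht.1
      have h4 : |D| * t ≤ |D| * T := mul_le_mul_of_nonneg_left ht.2 (abs_nonneg D)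
      linarith
    have h5 : D * Real.exp (D * t) ≤ |D| * Real.exp (D * t) :=
      mul_le_mul_of_nonneg_right (le_abs_self D) (Real.exp_pos _).le
    have h6 : |D| * Real.exp (D * t) ≤ |D| * Real.exp (|D| * T) :=
      mul_le_mul_of_nonneg_left (Real.exp_le_exp.mpr h2) (abs_nonneg D)
    linarith
  linarith

private lemma norm_sin_le {z : ℂ} (h0 : 0 ≤ z.im) (h1 : z.im ≤ 1) :
    ‖Complex.sin z‖ ≤ Real.cosh 1 := by
  have h2 : ‖Complex.sin z‖ ≤ Real.cosh z.im := by
    have hz : z = (z.re : ℂ) + (z.im : ℂ) * Complex.I := (Complex.re_add_im z).symm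
    have h3 : Complex.sin z = (Real.sin z.re * Real.cosh z.im : ℝ) +
        (Real.cos z.re * Real.sinh z.im : ℝ) * Complex.I := by
      conv_lhs => rw [hz]
      rw [Complex.sin_add, Complex.cos_mul_I, Complex.sin_mul_I]
      push_cast
      ring
    rw [h3]
    have h4 : Complex.normSq ((Real.sin z.re * Real.cosh z.im : ℝ) +
        (Real.cos z.re * Real.sinh z.im : ℝ) * Complex.I : ℂ) ≤ Real.cosh z.im ^ 2 := by
      rw [Complex.normSq_add_mul_I]
      have e1 := Real.sin_sq_add_cos_sq z.re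
      have e2 := Real.cosh_sq z.im
      nlinarith [sq_nonneg (Real.sinh z.im), sq_nonneg (Real.cosh z.im), sq_nonneg (Real.cos z.re),
        mul_nonneg (sq_nonneg (Real.cos z.re)) (sq_nonneg (Real.sinh z.im))]
    have h5 := Complex.sq_norm ((Real.sin z.re * Real.cosh z.im : ℝ) +
        (Real.cos z.re * Real.sinh z.im : ℝ) * Complex.I : ℂ)
    rw [← h5] at h4
    exact le_of_sq_le_sq h4 (Real.cosh_pos _).le
  refine h2.trans ?_
  rw [Real.cosh_le_cosh, abs_of_nonneg h0, abs_of_nonneg zero_le_one]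
  exact h1

private lemma Sper_measurable (h : ℝ) : MeasurableSet (Sper h) := by
  have : Sper h = {z | 0 ≤ z.re} ∩ {z | z.re < 2 * Real.pi} ∩ ({z | 0 ≤ z.im} ∩ {z | z.im ≤ h}) := by
    ext z; simp only [Sper, mem_ofPred_eq, mem_inter_iff]; tauto
  rw [this]
  exact ((measurableSet_le measurable_const Complex.measurable_re).inter
    (measurableSet_lt Complex.measurable_re measurable_const)).inter
    ((measurableSet_le measurable_const Complex.measurable_im).inter
      (measurableSet_le Complex.measurable_im measurable_const))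

private lemma Sper_subset (h : ℝ) : Sper h ⊆ S h := fun z hz => ⟨hz.2.2.1, hz.2.2.2⟩

private lemma Sper_finite (h : ℝ) : volume (Sper h) < ⊤ := by
  have hb : Bornology.IsBounded (Sper h) := by
    rw [isBounded_iff_forall_norm_le]
    refine ⟨2 * Real.pi + |h|, fun z hz => ?_⟩
    refine (Complex.norm_le_abs_re_add_abs_im z).trans ?_
    have h1 : |z.re| ≤ 2 * Real.pi := by rw [abs_of_nonneg hz.1]; exact hz.2.1.le
    have h2 : |z.im| ≤ |h| := by
      rw [abs_of_nonneg hz.2.2.1]; exact hz.2.2.2.trans (le_abs_self h)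
    linarith
  exact hb.measure_lt_top

private lemma S_measurable (h : ℝ) : MeasurableSet (S h) := by
  have : S h = {z | 0 ≤ z.im} ∩ {z | z.im ≤ h} := by
    ext z; simp only [S, mem_ofPred_eq, mem_inter_iff]
  rw [this]
  exact (measurableSet_le measurable_const Complex.measurable_im).inter
      (measurableSet_le Complex.measurable_im measurable_const)

private lemma rr_w_cont {D h T β K : ℝ} (hh : 0 < h) {w : ℝ → ℂ → ℝ} (hw : St T h β K w) {t : ℝ}
    (ht : t ∈ Icc 0 T) : ContinuousOn (fun x => rr D t x * w t x) (S h) := by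
  have h1 : ContinuousOn (fun z : ℂ => ((t, z) : ℝ × ℂ)) (S h) :=
    (Continuous.prodMk continuous_const continuous_id).continuousOn
  have h2 : ContinuousOn ((fun p : ℝ × ℂ => rr D p.1 p.2) ∘ (fun z : ℂ => ((t, z) : ℝ × ℂ))) (S h) :=
    ContinuousOn.comp (t := univ ×ˢ S h) (aa_cont D hh).2 h1 (fun z hz => ⟨mem_univ _, hz⟩)
  have h3 : ContinuousOn ((fun p : ℝ × ℂ => w p.1 p.2) ∘ (fun z : ℂ => ((t, z) : ℝ × ℂ))) (S h) :=
    ContinuousOn.comp (t := Icc 0 T ×ˢ S h) hw.cont h1 (fun z hz => ⟨ht, hz⟩)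
  exact h2.mul h3

theorem vel_diff {D h lam T : ℝ} (hh : 0 < h) (hh1 : h ≤ 1) (hT : 0 ≤ T) :
    ∃ C ≥ 0, ∀ (β K : ℝ) (w w' : ℝ → ℂ → ℝ), 0 < β → β ≤ 1 → St T h β K w → St T h β K w' →
      ∀ t ∈ Icc 0 T, ∀ δ, 0 ≤ δ → (∀ z ∈ S h, |w t z - w' t z| ≤ δ) →
        ∀ z ∈ S h, ‖VV D h lam w t z - VV D h lam w' t z‖ ≤ C * δ := by
  obtain ⟨C1, hC1, haa⟩ := aa_bound
  obtain ⟨C2, hC2, hW⟩ := W_bound
  set d : ℝ := Real.exp (-|D| * Real.exp (|D| * T)) with hd
  have hdpos : 0 < d := Real.exp_pos _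
  set R : ℝ := C1 / d with hR
  have hRpos : 0 < R := div_pos hC1 hdpos
  set A : ℝ := C1 * Real.cosh 1 with hA
  have hApos : 0 < A := mul_pos hC1 (Real.cosh_pos _)
  have hph : 0 < 1 / (2 * Real.pi * h) := by positivity
  set Cl : ℝ := 1 / (2 * Real.pi * h) * ((h * R) * (volume (Sper h)).toReal) with hCl
  have hClpos : 0 ≤ Cl := by positivity
  refine ⟨A * (Cl + C2 * h * R), by positivity, ?_⟩
  intro β K w w' hβ hβ1 hw hw' t ht δ hδ hww z hz
  -- bounds
  have hrr : ∀ x ∈ S h, 0 ≤ rr D t x ∧ rr D t x ≤ R := by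
    intro x hx
    obtain ⟨_, _, h3, _, h5⟩ := haa D t x hx.1 (hx.2.trans hh1)
    refine ⟨h3, h5.trans ?_⟩
    exact div_le_div_of_nonneg_left hC1.le hdpos (dd_lower ht)
  have hf := rr_w_cont (D := D) hh hw ht
  have hf' := rr_w_cont (D := D) hh hw' ht
  have hUS : U h ⊆ S h := fun x hx => ⟨hx.1.le, hx.2.le⟩
  have hfb : ∀ x ∈ S h, |rr D t x * w t x| ≤ R := by
    intro x hx
    obtain ⟨a1, a2⟩ := hrr x hx
    obtain ⟨b1, b2⟩ := hw.range t ht x hx
    rw [abs_of_nonneg (mul_nonneg a1 b1)]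
    nlinarith
  have hfb' : ∀ x ∈ S h, |rr D t x * w' t x| ≤ R := by
    intro x hx
    obtain ⟨a1, a2⟩ := hrr x hx
    obtain ⟨b1, b2⟩ := hw'.range t ht x hx
    rw [abs_of_nonneg (mul_nonneg a1 b1)]
    nlinarith
  have hdb : ∀ x ∈ S h, |rr D t x * w t x - rr D t x * w' t x| ≤ R * δ := by
    intro x hx
    obtain ⟨a1, a2⟩ := hrr x hx
    rw [← mul_sub, abs_mul, abs_of_nonneg a1]
    exact mul_le_mul a2 (hww x hx) (abs_nonneg _) hRpos.le
  have hBM : BM h (fun x => rr D t x * w t x) R :=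
    BM_of_continuousOn (hf.mono hUS) (fun x hx => hfb x (hUS hx))
  have hBM' : BM h (fun x => rr D t x * w' t x) R :=
    BM_of_continuousOn (hf'.mono hUS) (fun x hx => hfb' x (hUS hx))
  have hBMd : BM h (fun x => rr D t x * w t x - rr D t x * w' t x) (R * δ) :=
    BM_of_continuousOn ((hf.sub hf').mono hUS) (fun x hx => hdb x (hUS hx))
  have hWd : ‖W h (fun x => rr D t x * w t x) z - W h (fun x => rr D t x * w' t x) z‖ ≤
      C2 * h * (R * δ) := by
    rw [← W_sub hh hBM hBM' hz]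
    exact hW h hh _ _ hBMd z hz
  -- Lam
  have hint : ∀ g : ℂ → ℝ, ContinuousOn g (S h) → (∀ x ∈ S h, |g x| ≤ R) →
      IntegrableOn (fun x : ℂ => x.im * g x) (Sper h) := by
    intro g hg hgb
    have hc : ContinuousOn (fun x : ℂ => x.im * g x) (Sper h) :=
      (Complex.continuous_im.continuousOn.mul hg).mono (Sper_subset h)
    refine IntegrableOn.of_bound (Sper_finite h)
      (hc.aestronglyMeasurable (Sper_measurable h)) (h * R) ?_
    rw [ae_restrict_iff' (Sper_measurable h)]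
    refine Filter.Eventually.of_forall (fun x hx => ?_)
    have hxs := Sper_subset h hx
    rw [Real.norm_eq_abs, abs_mul, abs_of_nonneg hxs.1]
    exact mul_le_mul hxs.2 (hgb x hxs) (abs_nonneg _) hh.le
  have hLam : |Lam h lam (fun x => rr D t x * w t x) - Lam h lam (fun x => rr D t x * w' t x)| ≤
      Cl * δ := by
    unfold Lam
    rw [add_sub_add_left_eq_sub, ← mul_sub, ← integral_sub (hint _ hf hfb) (hint _ hf' hfb'),
      abs_mul, abs_of_pos hph]
    have hb : ‖∫ x in Sper h, (x.im * (rr D t x * w t x) - x.im * (rr D t x * w' t x))‖ ≤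
        (h * (R * δ)) * (volume (Sper h)).toReal := by
      refine norm_setIntegral_le_of_norm_le_const (Sper_finite h) ?_
      intro x hx
      have hxs := Sper_subset h hx
      rw [← mul_sub, Real.norm_eq_abs, abs_mul, abs_of_nonneg hxs.1]
      exact mul_le_mul hxs.2 (hdb x hxs) (abs_nonneg _) hh.le
    rw [Real.norm_eq_abs] at hb
    calc _ ≤ 1 / (2 * Real.pi * h) * ((h * (R * δ)) * (volume (Sper h)).toReal) :=
          mul_le_mul_of_nonneg_left hb hph.le
      _ = Cl * δ := by rw [hCl]; ring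
  -- conclusion
  have ha : 0 ≤ aa D t z ∧ aa D t z ≤ A := by
    obtain ⟨h1, h2, _⟩ := haa D t z hz.1 (hz.2.trans hh1)
    refine ⟨h1, h2.trans ?_⟩
    exact mul_le_mul_of_nonneg_left (norm_sin_le hz.1 (hz.2.trans hh1)) hC1.le
  have hEq : VV D h lam w t z - VV D h lam w' t z = (aa D t z : ℂ) *
      (-((Lam h lam (fun x => rr D t x * w t x) - Lam h lam (fun x => rr D t x * w' t x) : ℝ) : ℂ) +
        Complex.I * conj (W h (fun x => rr D t x * w t x) z - W h (fun x => rr D t x * w' t x) z)) := by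
    unfold VV Vel
    rw [map_sub]
    push_cast
    ring
  rw [hEq, norm_mul, Complex.norm_real, Real.norm_eq_abs, abs_of_nonneg ha.1]
  have hsum : ‖-((Lam h lam (fun x => rr D t x * w t x) -
      Lam h lam (fun x => rr D t x * w' t x) : ℝ) : ℂ) +
        Complex.I * conj (W h (fun x => rr D t x * w t x) z - W h (fun x => rr D t x * w' t x) z)‖ ≤
      Cl * δ + C2 * h * (R * δ) := by
    refine (norm_add_le _ _).trans ?_
    rw [norm_neg, Complex.norm_real, Real.norm_eq_abs, norm_mul, Complex.norm_I, one_mul,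
      RCLike.norm_conj]
    exact add_le_add hLam hWd
  calc _ ≤ A * (Cl * δ + C2 * h * (R * δ)) :=
        mul_le_mul ha.2 hsum (norm_nonneg _) hApos.le
    _ = A * (Cl + C2 * h * R) * δ := by ring

end Pool.Agent.EAC
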