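import Pool.Agent.EAC.S1a
import Pool.Agent.EAC.GB

/-!
# EAC-X4: the velocity field `VV D h lam w` of a vorticity `w`

`f t = rr D t * w t` is bounded by `C/dd D T` (for `0 ≤ t ≤ T`), Hölder, continuous; `W` is continuous (`W_time`), `|W| ≤ C`, log-Lipschitz with constant depending on `D,T,h`
only (`W_log`), Lipschitz with constant depending also on `β, K` (`W_lip`). `Lam h lam (f t)` is bounded and continuous in `t`, `|Lam(f) - Lam(g)| ≤ C sup|f-g|`.
`aa` is bounded and Lipschitz. Products of bounded log-Lipschitz functions are log-Lipschitz (`r ≤ lgm r`). Tangency: `Im (a(-Λ + i conj W)) = a Re W = 0` on the boundary (`W_re`).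
`vel_speed`: the size near the corners, with a constant independent of `D, t, w`: `W_log_sing`, `aa ≤ C ‖sin‖`; `Lam ≤ lam + C` because `∫_{Sper} 1/‖sin‖ < ∞`.
`W_log_sing`: `|f w| ≤ 1/‖sin w‖`: `‖W f z‖ ≤ ∫ 1/(2‖z-w‖‖sin w‖)` over `|Re w - Re z| ≤ π`, plus exponentially small tail
(`ker_le_exp`, `∫_{period} 1/‖sin‖ < ∞`); `‖sin w‖ ≥ c dist(w, πℤ)`, and
`∫_{ball} 1/(‖z-w‖‖w-a‖) ≤ C (1 + log⁺(1/‖z-a‖))`.

THIS FILE: W_log_sing.
-/

set_option autoImplicit false

noncomputable section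

namespace Pool.Agent.EAC


open MeasureTheory Set Filter Topology Metric
open scoped ENNReal ComplexConjugate

/-! ### elementary bounds of the sine -/

theorem x4d_norm_sin_sq (u : ℂ) :
    ‖Complex.sin u‖ ^ 2 = Real.sin u.re ^ 2 + Real.sinh u.im ^ 2 := by
  rw [Complex.sin_eq, Complex.sq_norm, Complex.normSq_apply]
  have e1 : (Complex.sin u.re * Complex.cosh u.im + Complex.cos u.re * Complex.sinh u.im *
      Complex.I) = ((Real.sin u.re * Real.cosh u.im : ℝ) : ℂ) +
      ((Real.cos u.re * Real.sinh u.im : ℝ) : ℂ) * Complex.I := by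
    push_cast; ring
  rw [e1]
  simp only [Complex.add_re, Complex.add_im, Complex.ofReal_re, Complex.ofReal_im, Complex.mul_re,
    Complex.mul_im, Complex.I_re, Complex.I_im]
  have h1 := Real.cosh_sq u.im
  have h2 := Real.sin_sq_add_cos_sq u.re
  linear_combination (Real.sin u.re ^ 2) * h1 + (Real.sinh u.im ^ 2) * h2

theorem x4d_sin_shift (z : ℂ) (k : ℤ) : ‖Complex.sin (z - k * Real.pi)‖ = ‖Complex.sin z‖ := by
  have e : ‖Complex.sin (z - k * Real.pi)‖ ^ 2 = ‖Complex.sin z‖ ^ 2 := by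
    rw [x4d_norm_sin_sq, x4d_norm_sin_sq]
    have h1 : (z - k * Real.pi : ℂ).re = z.re - k * Real.pi := by simp
    have h2 : (z - k * Real.pi : ℂ).im = z.im := by simp
    rw [h1, h2, Real.sin_sub_int_mul_pi, mul_pow, ← zpow_natCast, ← zpow_mul]
    have : ((-1 : ℝ) ^ (k * ((2 : ℕ) : ℤ))) = 1 := by
      apply Even.neg_one_zpow
      exact ⟨k, by push_cast; ring⟩
    rw [this, one_mul]
  exact (pow_left_inj₀ (norm_nonneg _) (norm_nonneg _) two_ne_zero).1 e

theorem x4d_le_sin {w : ℂ} {k : ℤ} (hw : |w.re - k * Real.pi| ≤ Real.pi / 2) :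
    2 / Real.pi * ‖w - k * Real.pi‖ ≤ ‖Complex.sin w‖ := by
  rw [← x4d_sin_shift w k]
  set u : ℂ := w - k * Real.pi with hu
  have hre : u.re = w.re - k * Real.pi := by
    rw [hu]; simp
  rw [← hre] at hw
  have h1 := Real.mul_abs_le_abs_sin hw
  have hpi := Real.pi_pos
  have h2 : |u.im| ≤ |Real.sinh u.im| := by
    rw [Real.abs_sinh]
    exact Real.self_le_sinh_iff.2 (abs_nonneg _)
  have h3 : (2 / Real.pi * ‖u‖) ^ 2 ≤ ‖Complex.sin u‖ ^ 2 := by
    rw [x4d_norm_sin_sq, mul_pow, Complex.sq_norm, Complex.normSq_apply]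
    have a1 : (2 / Real.pi * |u.re|) ^ 2 ≤ |Real.sin u.re| ^ 2 := by gcongr
    have a2 : |u.im| ^ 2 ≤ |Real.sinh u.im| ^ 2 := by gcongr
    rw [sq_abs] at a1 a2
    rw [sq_abs] at a2
    rw [mul_pow, sq_abs] at a1
    have a3 : (2 / Real.pi) ^ 2 ≤ 1 := by
      have : 2 / Real.pi ≤ 1 := by
        rw [div_le_one hpi]; linarith [Real.pi_gt_three]
      have h0 : 0 ≤ 2 / Real.pi := by positivity
      nlinarith
    nlinarith [sq_nonneg u.im]
  exact le_of_sq_le_sq h3 (norm_nonneg _)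

theorem x4d_sin_le {z : ℂ} (h0 : 0 ≤ z.im) (h1 : z.im ≤ 1) (k : ℤ) :
    ‖Complex.sin z‖ ≤ 2 * ‖z - k * Real.pi‖ := by
  rw [← x4d_sin_shift z k]
  set u : ℂ := z - k * Real.pi with hu
  have him : u.im = z.im := by
    rw [hu]; simp
  rw [← him] at h0 h1
  have h2 : |Real.sinh u.im| ≤ 2 * |u.im| := by
    rw [abs_of_nonneg h0, abs_of_nonneg (Real.sinh_nonneg_iff.2 h0), Real.sinh_eq]
    have a1 := Real.abs_exp_sub_one_sub_id_le (x := u.im) (by rw [abs_of_nonneg h0]; exact h1)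
    have a2 := (abs_le.1 a1).2
    have a3 := Real.add_one_le_exp (-u.im)
    nlinarith
  have h3 : |Real.sin u.re| ≤ |u.re| := Real.abs_sin_le_abs
  have h4 : ‖Complex.sin u‖ ^ 2 ≤ (2 * ‖u‖) ^ 2 := by
    rw [x4d_norm_sin_sq, mul_pow, Complex.sq_norm, Complex.normSq_apply]
    have a1 : |Real.sin u.re| ^ 2 ≤ |u.re| ^ 2 := by gcongr
    have a2 : |Real.sinh u.im| ^ 2 ≤ (2 * |u.im|) ^ 2 := by gcongr
    rw [sq_abs, sq_abs] at a1
    rw [mul_pow, sq_abs, sq_abs] at a2
    nlinarith [sq_nonneg u.re]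
  exact le_of_sq_le_sq h4 (by positivity)

/-! ### the convolution estimate -/

theorem x4d_lint {g : ℂ → ℝ} {s : Set ℂ} (hg : IntegrableOn g s)
    (hg0 : ∀ w, 0 ≤ g w) {B : ℝ} (hB : ∫ w in s, g w ≤ B) :
    ∫⁻ w in s, ENNReal.ofReal (g w) ≤ ENNReal.ofReal B := by
  rw [← ofReal_integral_eq_lintegral_ofReal hg (ae_of_all _ hg0)]
  exact ENNReal.ofReal_le_ofReal hB

theorem x4d_inv (c ζ : ℂ) {R K : ℝ} (hR : 0 < R) (hK : 0 ≤ K) :
    ∫⁻ w in closedBall c R, ENNReal.ofReal (K * ‖w - ζ‖⁻¹) ≤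
      ENNReal.ofReal (K * (6 * Real.pi * R)) := by
  obtain ⟨h1, h2⟩ := int_inv_norm hR c ζ
  refine x4d_lint (h1.const_mul K) (fun w => by positivity) ?_
  rw [integral_const_mul]
  exact mul_le_mul_of_nonneg_left h2 hK

theorem x4d_conv {a z : ℂ} (hza : z ≠ a) {R : ℝ} (hR : 0 < R) :
    ∫⁻ w in closedBall a R, ENNReal.ofReal (‖z - w‖⁻¹ * ‖w - a‖⁻¹) ≤
      ENNReal.ofReal (12 * Real.pi + 6 * Real.pi * max 0 (Real.log (2 * R / ‖z - a‖))) := by
  set δ : ℝ := ‖z - a‖ with hδdef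
  have hδ : 0 < δ := norm_pos_iff.2 (sub_ne_zero.2 hza)
  have hpi := Real.pi_pos
  have hsub : closedBall a R ⊆ (closedBall z (δ / 2) ∪ closedBall a (δ / 2)) ∪
      {w | w ∈ closedBall a R ∧ δ / 2 ≤ ‖w - z‖ ∧ δ / 2 ≤ ‖w - a‖} := by
    intro w hw
    by_cases h1 : ‖w - z‖ ≤ δ / 2
    · exact Or.inl (Or.inl (by rw [mem_closedBall, dist_eq_norm]; exact h1))
    by_cases h2 : ‖w - a‖ ≤ δ / 2
    · exact Or.inl (Or.inr (by rw [mem_closedBall, dist_eq_norm]; exact h2))
    · exact Or.inr ⟨hw, (not_le.1 h1).le, (not_le.1 h2).le⟩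
  have tri : ∀ w : ℂ, δ ≤ ‖w - z‖ + ‖w - a‖ := by
    intro w
    have : z - a = (w - a) - (w - z) := by ring
    rw [hδdef, this]
    have := norm_sub_le (w - a) (w - z)
    linarith
  have hA : ∫⁻ w in closedBall z (δ / 2), ENNReal.ofReal (‖z - w‖⁻¹ * ‖w - a‖⁻¹) ≤
      ENNReal.ofReal (6 * Real.pi) := by
    calc ∫⁻ w in closedBall z (δ / 2), ENNReal.ofReal (‖z - w‖⁻¹ * ‖w - a‖⁻¹)
        ≤ ∫⁻ w in closedBall z (δ / 2), ENNReal.ofReal ((2 / δ) * ‖w - z‖⁻¹) := by
          refine setLIntegral_mono' measurableSet_closedBall fun w hw => ?_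
          apply ENNReal.ofReal_le_ofReal
          rw [mem_closedBall, dist_eq_norm] at hw
          have h1 : δ / 2 ≤ ‖w - a‖ := by have := tri w; linarith
          have h2 : ‖w - a‖⁻¹ ≤ 2 / δ := by
            rw [show 2 / δ = (δ / 2)⁻¹ by rw [inv_div]]
            exact inv_anti₀ (by positivity) h1
          rw [norm_sub_rev z w, mul_comm]
          exact mul_le_mul_of_nonneg_right h2 (by positivity)
      _ ≤ ENNReal.ofReal ((2 / δ) * (6 * Real.pi * (δ / 2))) :=
          x4d_inv z z (by positivity) (by positivity)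
      _ = ENNReal.ofReal (6 * Real.pi) := by congr 1; field_simp
  have hB : ∫⁻ w in closedBall a (δ / 2), ENNReal.ofReal (‖z - w‖⁻¹ * ‖w - a‖⁻¹) ≤
      ENNReal.ofReal (6 * Real.pi) := by
    calc ∫⁻ w in closedBall a (δ / 2), ENNReal.ofReal (‖z - w‖⁻¹ * ‖w - a‖⁻¹)
        ≤ ∫⁻ w in closedBall a (δ / 2), ENNReal.ofReal ((2 / δ) * ‖w - a‖⁻¹) := by
          refine setLIntegral_mono' measurableSet_closedBall fun w hw => ?_
          apply ENNReal.ofReal_le_ofReal
          rw [mem_closedBall, dist_eq_norm] at hw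
          have h1 : δ / 2 ≤ ‖z - w‖ := by
            have := tri w
            rw [norm_sub_rev z w]; linarith
          have h2 : ‖z - w‖⁻¹ ≤ 2 / δ := by
            rw [show 2 / δ = (δ / 2)⁻¹ by rw [inv_div]]
            exact inv_anti₀ (by positivity) h1
          exact mul_le_mul_of_nonneg_right h2 (by positivity)
      _ ≤ ENNReal.ofReal ((2 / δ) * (6 * Real.pi * (δ / 2))) :=
          x4d_inv a a (by positivity) (by positivity)
      _ = ENNReal.ofReal (6 * Real.pi) := by congr 1; field_simp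
  have hC : ∫⁻ w in {w | w ∈ closedBall a R ∧ δ / 2 ≤ ‖w - z‖ ∧ δ / 2 ≤ ‖w - a‖},
      ENNReal.ofReal (‖z - w‖⁻¹ * ‖w - a‖⁻¹) ≤
      ENNReal.ofReal (6 * Real.pi * max 0 (Real.log (2 * R / δ))) := by
    rcases le_or_gt (δ / 2) R with hRδ | hRδ
    · have hms : MeasurableSet (closedBall a R \ ball a (δ / 2)) :=
        measurableSet_closedBall.diff measurableSet_ball
      obtain ⟨i1, i2⟩ := int_inv_sq (by positivity : 0 < δ / 2) hRδ a
      have hms' : MeasurableSet {w | w ∈ closedBall a R ∧ δ / 2 ≤ ‖w - z‖ ∧ δ / 2 ≤ ‖w - a‖} := by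
        refine (measurableSet_closedBall (x := a) (ε := R)).inter ?_
        refine MeasurableSet.inter ?_ ?_
        · exact measurableSet_le (f := fun _ : ℂ => δ / 2) (g := fun w : ℂ => ‖w - z‖)
            measurable_const (by fun_prop)
        · exact measurableSet_le (f := fun _ : ℂ => δ / 2) (g := fun w : ℂ => ‖w - a‖)
            measurable_const (by fun_prop)
      calc ∫⁻ w in {w | w ∈ closedBall a R ∧ δ / 2 ≤ ‖w - z‖ ∧ δ / 2 ≤ ‖w - a‖},
            ENNReal.ofReal (‖z - w‖⁻¹ * ‖w - a‖⁻¹)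
          ≤ ∫⁻ w in {w | w ∈ closedBall a R ∧ δ / 2 ≤ ‖w - z‖ ∧ δ / 2 ≤ ‖w - a‖},
            ENNReal.ofReal (3 * (‖w - a‖ ^ 2)⁻¹) := by
            refine setLIntegral_mono' hms' fun w hw => ?_
            obtain ⟨-, h1, h2⟩ := hw
            apply ENNReal.ofReal_le_ofReal
            have p1 : 0 < ‖w - a‖ := by linarith
            have p2 : 0 < ‖w - z‖ := by linarith
            have t : ‖w - a‖ ≤ 3 * ‖w - z‖ := by
              have e : w - a = (w - z) + (z - a) := by ring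
              have := norm_add_le (w - z) (z - a)
              rw [← e, ← hδdef] at this
              linarith
            have q : ‖z - w‖⁻¹ ≤ 3 * ‖w - a‖⁻¹ := by
              rw [norm_sub_rev z w]
              have : (3 * ‖w - z‖)⁻¹ ≤ ‖w - a‖⁻¹ := inv_anti₀ p1 t
              rw [mul_inv] at this
              linarith
            calc ‖z - w‖⁻¹ * ‖w - a‖⁻¹ ≤ (3 * ‖w - a‖⁻¹) * ‖w - a‖⁻¹ :=
                  mul_le_mul_of_nonneg_right q (by positivity)
              _ = 3 * (‖w - a‖ ^ 2)⁻¹ := by rw [pow_two, mul_inv]; ring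
        _ ≤ ∫⁻ w in closedBall a R \ ball a (δ / 2), ENNReal.ofReal (3 * (‖w - a‖ ^ 2)⁻¹) := by
            apply lintegral_mono_set
            rintro w ⟨hw1, -, hw3⟩
            refine ⟨hw1, ?_⟩
            rw [mem_ball, dist_eq_norm, not_lt]
            exact hw3
        _ ≤ ENNReal.ofReal (6 * Real.pi * max 0 (Real.log (2 * R / δ))) := by
            refine x4d_lint (i1.const_mul 3) (fun w => by positivity) ?_
            rw [integral_const_mul, i2]
            have e : R / (δ / 2) = 2 * R / δ := by field_simp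
            rw [e]
            have := le_max_right 0 (Real.log (2 * R / δ))
            nlinarith
    · have hempty : {w | w ∈ closedBall a R ∧ δ / 2 ≤ ‖w - z‖ ∧ δ / 2 ≤ ‖w - a‖} = ∅ := by
        rw [Set.eq_empty_iff_forall_notMem]
        rintro w ⟨h1, -, h3⟩
        rw [mem_closedBall, dist_eq_norm] at h1
        linarith
      rw [hempty]
      simp
  calc ∫⁻ w in closedBall a R, ENNReal.ofReal (‖z - w‖⁻¹ * ‖w - a‖⁻¹)
      ≤ ∫⁻ w in (closedBall z (δ / 2) ∪ closedBall a (δ / 2)) ∪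
      {w | w ∈ closedBall a R ∧ δ / 2 ≤ ‖w - z‖ ∧ δ / 2 ≤ ‖w - a‖},
        ENNReal.ofReal (‖z - w‖⁻¹ * ‖w - a‖⁻¹) := lintegral_mono_set hsub
    _ ≤ (ENNReal.ofReal (6 * Real.pi) + ENNReal.ofReal (6 * Real.pi)) +
        ENNReal.ofReal (6 * Real.pi * max 0 (Real.log (2 * R / δ))) := by
        refine (lintegral_union_le _ _ _).trans ?_
        refine add_le_add ((lintegral_union_le _ _ _).trans (add_le_add hA hB)) hC
    _ = ENNReal.ofReal (12 * Real.pi + 6 * Real.pi * max 0 (Real.log (2 * R / δ))) := by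
        rw [← ENNReal.ofReal_add (by positivity) (by positivity),
          ← ENNReal.ofReal_add (by positivity) (by positivity)]
        congr 1; ring

/-! ### the cells -/

def x4dQ (h : ℝ) (k : ℤ) : Set ℂ := S h ∩ {w | |w.re - k * Real.pi| ≤ Real.pi / 2}

theorem x4d_measS (h : ℝ) : MeasurableSet (S h) := by
  unfold S
  exact (measurableSet_le (f := fun _ : ℂ => (0 : ℝ)) (g := fun w : ℂ => w.im)
    measurable_const Complex.measurable_im).inter
    (measurableSet_le (f := fun w : ℂ => w.im) (g := fun _ : ℂ => h)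
    Complex.measurable_im measurable_const)

theorem x4d_measQ (h : ℝ) (k : ℤ) : MeasurableSet (x4dQ h k) := by
  refine (x4d_measS h).inter ?_
  exact measurableSet_le (f := fun w : ℂ => |w.re - k * Real.pi|)
    (g := fun _ : ℂ => Real.pi / 2) (by fun_prop) measurable_const

theorem x4d_cover (h : ℝ) : S h ⊆ ⋃ k : ℤ, x4dQ h k := by
  intro w hw
  rw [mem_iUnion]
  refine ⟨round (w.re / Real.pi), hw, ?_⟩
  have hpi := Real.pi_pos
  have h1 := abs_sub_round (w.re / Real.pi)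
  show |w.re - (round (w.re / Real.pi) : ℤ) * Real.pi| ≤ Real.pi / 2
  have e : w.re - (round (w.re / Real.pi) : ℤ) * Real.pi =
      (w.re / Real.pi - (round (w.re / Real.pi) : ℤ)) * Real.pi := by
    field_simp
  rw [e, abs_mul, abs_of_pos hpi]
  nlinarith

theorem x4d_Q_sub {h : ℝ} (hh1 : h ≤ 1) (k : ℤ) :
    x4dQ h k ⊆ closedBall ((k * Real.pi : ℂ)) 3 := by
  rintro w ⟨⟨h1, h2⟩, h3⟩
  rw [mem_closedBall, dist_eq_norm]
  have a := Complex.norm_le_abs_re_add_abs_im (w - k * Real.pi)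
  have e1 : (w - k * Real.pi : ℂ).re = w.re - k * Real.pi := by simp
  have e2 : (w - k * Real.pi : ℂ).im = w.im := by simp
  rw [e1, e2, abs_of_nonneg h1] at a
  have h4 : |w.re - k * Real.pi| ≤ Real.pi / 2 := h3
  have := Real.pi_lt_d2
  linarith

theorem x4d_inv_sin {h : ℝ} {k : ℤ} {w : ℂ} (hw : w ∈ x4dQ h k) :
    ‖Complex.sin w‖⁻¹ ≤ Real.pi / 2 * ‖w - k * Real.pi‖⁻¹ := by
  have hpi := Real.pi_pos
  have h1 := x4d_le_sin hw.2
  rcases (norm_nonneg (w - k * Real.pi)).eq_or_lt with h0 | h0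
  · have : w = k * Real.pi := by
      rw [← sub_eq_zero, ← norm_eq_zero]; exact h0.symm
    have h2 : Complex.sin w = 0 := by rw [this]; exact Complex.sin_int_mul_pi k
    rw [h2]
    simp only [norm_zero, inv_zero]
    positivity
  · have h2 : (2 / Real.pi * ‖w - k * Real.pi‖)⁻¹ = Real.pi / 2 * ‖w - k * Real.pi‖⁻¹ := by
      rw [mul_inv, inv_div]
    rw [← h2]
    exact inv_anti₀ (by positivity) h1

theorem x4d_near {h : ℝ} (hh : 0 < h) (hh1 : h ≤ 1) {z : ℂ} (hz : z ∈ S h)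
    (hs : Complex.sin z ≠ 0) (k : ℤ) :
    ∫⁻ w in x4dQ h k, ENNReal.ofReal (‖ker h z w‖ * ‖Complex.sin w‖⁻¹) ≤
      ENNReal.ofReal (Real.pi / 4 * (78 * Real.pi) *
        (1 + max 0 (-Real.log ‖Complex.sin z‖))) := by
  have hpi := Real.pi_pos
  have hza : z ≠ k * Real.pi := by
    intro e; apply hs; rw [e]; exact Complex.sin_int_mul_pi k
  have hza' : 0 < ‖z - k * Real.pi‖ := norm_pos_iff.2 (sub_ne_zero.2 hza)
  have hsp : 0 < ‖Complex.sin z‖ := norm_pos_iff.2 hs
  have hne : ∀ᵐ w : ℂ, w ≠ z := by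
    rw [ae_iff]; simp
  calc ∫⁻ w in x4dQ h k, ENNReal.ofReal (‖ker h z w‖ * ‖Complex.sin w‖⁻¹)
      ≤ ∫⁻ w in x4dQ h k, ENNReal.ofReal (Real.pi / 4) *
          ENNReal.ofReal (‖z - w‖⁻¹ * ‖w - k * Real.pi‖⁻¹) := by
        refine setLIntegral_mono_ae' (x4d_measQ h k) ?_
        filter_upwards [hne] with w hw hwQ
        rw [← ENNReal.ofReal_mul (by positivity)]
        apply ENNReal.ofReal_le_ofReal
        have h1 := ker_le_inv hh hz hwQ.1 hw.symm
        have h2 := x4d_inv_sin hwQ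
        calc ‖ker h z w‖ * ‖Complex.sin w‖⁻¹
            ≤ (1 / (2 * ‖z - w‖)) * (Real.pi / 2 * ‖w - k * Real.pi‖⁻¹) :=
              mul_le_mul h1 h2 (by positivity) (by positivity)
          _ = Real.pi / 4 * (‖z - w‖⁻¹ * ‖w - k * Real.pi‖⁻¹) := by
              rw [one_div, mul_inv]; ring
    _ ≤ ∫⁻ w in closedBall (k * Real.pi : ℂ) 3, ENNReal.ofReal (Real.pi / 4) *
          ENNReal.ofReal (‖z - w‖⁻¹ * ‖w - k * Real.pi‖⁻¹) :=
        lintegral_mono_set (x4d_Q_sub hh1 k)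
    _ = ENNReal.ofReal (Real.pi / 4) * ∫⁻ w in closedBall (k * Real.pi : ℂ) 3,
          ENNReal.ofReal (‖z - w‖⁻¹ * ‖w - k * Real.pi‖⁻¹) := by
        rw [lintegral_const_mul']
        exact ENNReal.ofReal_ne_top
    _ ≤ ENNReal.ofReal (Real.pi / 4) * ENNReal.ofReal (12 * Real.pi + 6 * Real.pi *
          max 0 (Real.log (2 * 3 / ‖z - k * Real.pi‖))) := by
        gcongr
        exact x4d_conv hza (by norm_num)
    _ ≤ ENNReal.ofReal (Real.pi / 4 * (78 * Real.pi) *
        (1 + max 0 (-Real.log ‖Complex.sin z‖))) := by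
        rw [← ENNReal.ofReal_mul (by positivity)]
        apply ENNReal.ofReal_le_ofReal
        set L : ℝ := max 0 (-Real.log ‖Complex.sin z‖) with hL
        have hL0 : 0 ≤ L := le_max_left _ _
        have hlog : Real.log (2 * 3 / ‖z - k * Real.pi‖) ≤ 11 + L := by
          have h1 : 2 * 3 / ‖z - k * Real.pi‖ ≤ 12 / ‖Complex.sin z‖ := by
            rw [div_le_div_iff₀ hza' hsp]
            have := x4d_sin_le hz.1 (hz.2.trans hh1) k
            linarith
          have h2 := Real.log_le_log (by positivity) h1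
          rw [Real.log_div (by norm_num) hsp.ne'] at h2
          have h3 := Real.log_le_sub_one_of_pos (show (0 : ℝ) < 12 by norm_num)
          have h4 : -Real.log ‖Complex.sin z‖ ≤ L := le_max_right _ _
          linarith
        have hm : max 0 (Real.log (2 * 3 / ‖z - k * Real.pi‖)) ≤ 11 + L :=
          max_le (by linarith) hlog
        have h5 : 12 * Real.pi + 6 * Real.pi * max 0 (Real.log (2 * 3 / ‖z - k * Real.pi‖)) ≤
            78 * Real.pi * (1 + L) := by nlinarith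
        calc Real.pi / 4 * (12 * Real.pi + 6 * Real.pi *
            max 0 (Real.log (2 * 3 / ‖z - k * Real.pi‖)))
            ≤ Real.pi / 4 * (78 * Real.pi * (1 + L)) := by gcongr
          _ = Real.pi / 4 * (78 * Real.pi) * (1 + L) := by ring

theorem x4d_sinh {x : ℝ} (hx : 1 ≤ x) : Real.exp x / 4 ≤ Real.sinh x := by
  rw [Real.sinh_eq]
  have h1 : Real.exp (-x) ≤ 1 := Real.exp_le_one_iff.2 (by linarith)
  have h2 := Real.add_one_le_exp x
  linarith

theorem x4d_far {h : ℝ} (hh : 0 < h) (hh1 : h ≤ 1) {z : ℂ} (hz : z ∈ S h) {k₀ : ℤ}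
    (hk₀ : |z.re - k₀ * Real.pi| ≤ Real.pi / 2) {k : ℤ} (hk : 2 ≤ |k - k₀|) :
    ∫⁻ w in x4dQ h k, ENNReal.ofReal (‖ker h z w‖ * ‖Complex.sin w‖⁻¹) ≤
      ENNReal.ofReal (18 * Real.pi ^ 2 / h * Real.exp (-|(k - k₀ : ℤ)|)) := by
  have hpi := Real.pi_pos
  have hpi3 := Real.pi_gt_three
  set j : ℝ := ((|k - k₀| : ℤ) : ℝ) with hj
  have hj2 : (2 : ℝ) ≤ j := by rw [hj]; exact_mod_cast hk
  have hjabs : j = |(k : ℝ) - k₀| := by rw [hj]; push_cast; rfl
  have hker : ∀ w ∈ x4dQ h k, ‖ker h z w‖ ≤ 2 / h * Real.exp (-j) := by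
    intro w hw
    have hw2 : |w.re - k * Real.pi| ≤ Real.pi / 2 := hw.2
    have hd : (j - 1) * Real.pi ≤ |z.re - w.re| := by
      have e : (k : ℝ) * Real.pi - k₀ * Real.pi =
          (z.re - k₀ * Real.pi) - (z.re - w.re) - (w.re - k * Real.pi) := by ring
      have h1 : |(k : ℝ) * Real.pi - k₀ * Real.pi| = j * Real.pi := by
        rw [← sub_mul, abs_mul, abs_of_pos hpi, hjabs]
      have h2 : j * Real.pi ≤ |z.re - k₀ * Real.pi| + |z.re - w.re| + |w.re - k * Real.pi| := by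
        rw [← h1, e]
        refine (abs_sub _ _).trans ?_
        gcongr
        exact abs_sub _ _
      nlinarith
    have hpos : 0 < |z.re - w.re| := by nlinarith
    have hne : z.re ≠ w.re := by
      intro e; rw [e, sub_self, abs_zero] at hpos; exact lt_irrefl _ hpos
    have h3 := ker_le_exp hh hz hw.1 hne
    set x : ℝ := Real.pi * |z.re - w.re| / (2 * h) with hx
    have hxj : j ≤ x := by
      rw [hx, le_div_iff₀ (by positivity)]
      have : j * (2 * h) ≤ j * 2 := by nlinarith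
      nlinarith
    have h4 := x4d_sinh (x := x) (by linarith)
    have h5 : Real.exp j / 4 ≤ Real.sinh x := by
      have := Real.exp_le_exp.2 hxj
      linarith
    have hej := Real.exp_pos j
    calc ‖ker h z w‖ ≤ (1 / (2 * h)) / Real.sinh x := h3
      _ ≤ (1 / (2 * h)) / (Real.exp j / 4) := by gcongr
      _ = 2 / h * Real.exp (-j) := by rw [Real.exp_neg]; field_simp; norm_num
  have hcast : (-|(k - k₀ : ℤ)| : ℝ) = -j := by rw [hj]
  calc ∫⁻ w in x4dQ h k, ENNReal.ofReal (‖ker h z w‖ * ‖Complex.sin w‖⁻¹)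
      ≤ ∫⁻ w in x4dQ h k, ENNReal.ofReal (Real.pi / h * Real.exp (-j) *
          ‖w - k * Real.pi‖⁻¹) := by
        refine setLIntegral_mono' (x4d_measQ h k) fun w hw => ?_
        apply ENNReal.ofReal_le_ofReal
        have h1 := hker w hw
        have h2 := x4d_inv_sin hw
        calc ‖ker h z w‖ * ‖Complex.sin w‖⁻¹
            ≤ (2 / h * Real.exp (-j)) * (Real.pi / 2 * ‖w - k * Real.pi‖⁻¹) :=
              mul_le_mul h1 h2 (by positivity) (by positivity)
          _ = Real.pi / h * Real.exp (-j) * ‖w - k * Real.pi‖⁻¹ := by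
              field_simp
    _ ≤ ∫⁻ w in closedBall (k * Real.pi : ℂ) 3, ENNReal.ofReal (Real.pi / h * Real.exp (-j) *
          ‖w - k * Real.pi‖⁻¹) := lintegral_mono_set (x4d_Q_sub hh1 k)
    _ ≤ ENNReal.ofReal (Real.pi / h * Real.exp (-j) * (6 * Real.pi * 3)) :=
        x4d_inv _ _ (by norm_num) (by positivity)
    _ ≤ _ := by
        apply ENNReal.ofReal_le_ofReal
        rw [hcast]
        apply le_of_eq
        ring

theorem x4d_summable : Summable (fun k : ℤ => Real.exp (-|(k : ℤ)|)) := by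
  apply Summable.of_nat_of_neg
  · simpa using Real.summable_exp_neg_nat
  · simpa using Real.summable_exp_neg_nat

theorem W_log_sing {h : ℝ} (hh : 0 < h) (hh1 : h ≤ 1) :
    ∃ C > 0, ∀ (f : ℂ → ℝ), AEStronglyMeasurable f (volume.restrict (S h)) →
      (∀ w ∈ U h, |f w| * ‖Complex.sin w‖ ≤ 1) → ∀ z ∈ S h, Complex.sin z ≠ 0 →
        ‖W h f z‖ ≤ C * (1 + max 0 (-Real.log ‖Complex.sin z‖)) := by
  have hpi := Real.pi_pos
  set K : ℝ := Real.pi / 4 * (78 * Real.pi) * Real.exp 1 + 18 * Real.pi ^ 2 / h with hK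
  have hK0 : 0 < K := by positivity
  set T : ℝ := ∑' k : ℤ, Real.exp (-|(k : ℤ)|) with hT
  have hT0 : 0 ≤ T := tsum_nonneg fun k => (Real.exp_pos _).le
  refine ⟨K * T + 1, by positivity, fun f _ hf z hz hs => ?_⟩
  set L : ℝ := max 0 (-Real.log ‖Complex.sin z‖) with hL
  have hL0 : 0 ≤ L := le_max_left _ _
  -- the cell of `z`
  obtain ⟨k₀, hk₀⟩ := mem_iUnion.1 (x4d_cover h hz)
  have hcell : ∀ k : ℤ, ∫⁻ w in x4dQ h k, ENNReal.ofReal (‖ker h z w‖ * ‖Complex.sin w‖⁻¹) ≤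
      ENNReal.ofReal (K * (1 + L) * Real.exp (-|(k - k₀ : ℤ)|)) := by
    intro k
    have he := Real.exp_pos (-|((k - k₀ : ℤ) : ℝ)|)
    rcases le_or_gt 2 |k - k₀| with hk | hk
    · refine (x4d_far hh hh1 hz hk₀.2 hk).trans (ENNReal.ofReal_le_ofReal ?_)
      have h1 : 18 * Real.pi ^ 2 / h ≤ K * (1 + L) := by
        have : 18 * Real.pi ^ 2 / h ≤ K := by
          rw [hK]
          have : 0 ≤ Real.pi / 4 * (78 * Real.pi) * Real.exp 1 := by positivity
          linarith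
        nlinarith
      have e : (-|(k - k₀ : ℤ)| : ℝ) = -|((k - k₀ : ℤ) : ℝ)| := by push_cast; rfl
      rw [e]
      exact mul_le_mul_of_nonneg_right h1 he.le
    · refine (x4d_near hh hh1 hz hs k).trans (ENNReal.ofReal_le_ofReal ?_)
      have h1 : |k - k₀| ≤ 1 := by omega
      have h2 : Real.exp (-1) ≤ Real.exp (-|((k - k₀ : ℤ) : ℝ)|) := by
        apply Real.exp_le_exp.2
        have : |((k - k₀ : ℤ) : ℝ)| ≤ 1 := by exact_mod_cast h1
        linarith
      have h3 : (1 : ℝ) ≤ Real.exp 1 * Real.exp (-|((k - k₀ : ℤ) : ℝ)|) := by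
        have : Real.exp 1 * Real.exp (-1) = 1 := by rw [← Real.exp_add]; simp
        nlinarith [Real.exp_pos 1]
      have e : (-|(k - k₀ : ℤ)| : ℝ) = -|((k - k₀ : ℤ) : ℝ)| := by push_cast; rfl
      rw [e]
      have h4 : 0 ≤ Real.pi / 4 * (78 * Real.pi) * (1 + L) := by positivity
      calc Real.pi / 4 * (78 * Real.pi) * (1 + L)
          ≤ Real.pi / 4 * (78 * Real.pi) * (1 + L) *
            (Real.exp 1 * Real.exp (-|((k - k₀ : ℤ) : ℝ)|)) := by nlinarith
        _ = (Real.pi / 4 * (78 * Real.pi) * Real.exp 1) * (1 + L) *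
            Real.exp (-|((k - k₀ : ℤ) : ℝ)|) := by ring
        _ ≤ K * (1 + L) * Real.exp (-|((k - k₀ : ℤ) : ℝ)|) := by
            have : Real.pi / 4 * (78 * Real.pi) * Real.exp 1 ≤ K := by
              rw [hK]
              have : 0 ≤ 18 * Real.pi ^ 2 / h := by positivity
              linarith
            gcongr
  have hsum : (∑' k : ℤ, ENNReal.ofReal (K * (1 + L) * Real.exp (-|(k - k₀ : ℤ)|))) =
      ENNReal.ofReal (K * (1 + L) * T) := by
    have e1 : (∑' k : ℤ, ENNReal.ofReal (K * (1 + L) * Real.exp (-|(k - k₀ : ℤ)|))) =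
        ∑' k : ℤ, ENNReal.ofReal (K * (1 + L) * Real.exp (-|(k : ℤ)|)) := by
      rw [← (Equiv.subRight k₀).tsum_eq
        (fun k : ℤ => ENNReal.ofReal (K * (1 + L) * Real.exp (-|(k : ℤ)|)))]
      rfl
    rw [e1, ← ENNReal.ofReal_tsum_of_nonneg (fun k => by positivity)
      (x4d_summable.mul_left _), tsum_mul_left]
  have hW : ‖W h f z‖ₑ ≤ ENNReal.ofReal (K * (1 + L) * T) := by
    rw [← hsum]
    calc ‖W h f z‖ₑ ≤ ∫⁻ w in S h, ‖(f w : ℂ) * ker h z w‖ₑ := enorm_integral_le_lintegral_enorm _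
      _ ≤ ∫⁻ w in S h, ENNReal.ofReal (‖ker h z w‖ * ‖Complex.sin w‖⁻¹) := by
          refine setLIntegral_mono_ae' (x4d_measS h) ?_
          have hae : ∀ᵐ w : ℂ, w ∉ S h \ U h := by
            have e : {a : ℂ | ¬ a ∉ S h \ U h} = S h \ U h := by ext a; exact not_not
            rw [ae_iff, e]; exact vol_S_diff_U h
          filter_upwards [hae] with w hw hwS
          have hwU : w ∈ U h := by
            by_contra hcon
            exact hw ⟨hwS, hcon⟩
          have hsw : Complex.sin w ≠ 0 := by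
            intro e
            rw [Complex.sin_eq_zero_iff] at e
            obtain ⟨n, hn⟩ := e
            have : w.im = 0 := by rw [hn]; simp
            exact hwU.1.ne' this
          have hsw' : 0 < ‖Complex.sin w‖ := norm_pos_iff.2 hsw
          rw [← ofReal_norm]
          apply ENNReal.ofReal_le_ofReal
          rw [norm_mul, Complex.norm_real, Real.norm_eq_abs, mul_comm]
          have := hf w hwU
          have h2 : |f w| ≤ ‖Complex.sin w‖⁻¹ := by
            rw [← one_div, le_div_iff₀ hsw']; exact this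
          exact mul_le_mul_of_nonneg_left h2 (norm_nonneg _)
      _ ≤ ∫⁻ w in ⋃ k : ℤ, x4dQ h k, ENNReal.ofReal (‖ker h z w‖ * ‖Complex.sin w‖⁻¹) :=
          lintegral_mono_set (x4d_cover h)
      _ ≤ ∑' k : ℤ, ∫⁻ w in x4dQ h k, ENNReal.ofReal (‖ker h z w‖ * ‖Complex.sin w‖⁻¹) :=
          lintegral_iUnion_le _ _
      _ ≤ ∑' k : ℤ, ENNReal.ofReal (K * (1 + L) * Real.exp (-|(k - k₀ : ℤ)|)) :=
          ENNReal.tsum_le_tsum hcell
  have hW' : ‖W h f z‖ ≤ K * (1 + L) * T := by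
    rw [← ofReal_norm] at hW
    exact (ENNReal.ofReal_le_ofReal_iff (by positivity)).1 hW
  nlinarith

end Pool.Agent.EAC
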