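import Pool.Agent.EAC.X1
import Pool.Agent.EAC.X4d
import Pool.Agent.EAC.S2

/-!
# EAC-X4: the velocity field `VV D h lam w` of a vorticity `w`

`f t = rr D t * w t` is bounded by `C/dd D T` (for `0 ≤ t ≤ T`), Hölder, continuous; `W` is continuous (`W_time`), `|W| ≤ C`, log-Lipschitz with constant depending on `D,T,h`
only (`W_log`), Lipschitz with constant depending also on `β, K` (`W_lip`). `Lam h lam (f t)` is bounded and continuous in `t`, `|Lam(f) - Lam(g)| ≤ C sup|f-g|`.
`aa` is bounded and Lipschitz. Products of bounded log-Lipschitz functions are log-Lipschitz (`r ≤ lgm r`). Tangency: `Im (a(-Λ + i conj W)) = a Re W = 0` on the boundary (`W_re`).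
`vel_speed`: the size near the corners, with a constant independent of `D, t, w`: `W_log_sing`, `aa ≤ C ‖sin‖`; `Lam ≤ lam + C` because `∫_{Sper} 1/‖sin‖ < ∞`.
`W_log_sing`: `|f w| ≤ 1/‖sin w‖`: `‖W f z‖ ≤ ∫ 1/(2‖z-w‖‖sin w‖)` over `|Re w - Re z| ≤ π`, plus exponentially small tail
(`ker_le_exp`, `∫_{period} 1/‖sin‖ < ∞`); `‖sin w‖ ≥ c dist(w, πℤ)`, and
`∫_{ball} 1/(‖z-w‖‖w-a‖) ≤ C (1 + log⁺(1/‖z-a‖))`.

THIS FILE: vel_speed.
-/

set_option autoImplicit false

noncomputable section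

namespace Pool.Agent.EAC


open MeasureTheory Set Filter Topology Metric
open scoped ENNReal ComplexConjugate

private lemma im_le_norm_sin {z : ℂ} (h0 : 0 ≤ z.im) : z.im ≤ ‖Complex.sin z‖ := by
  have hz : z = (z.re : ℂ) + (z.im : ℂ) * Complex.I := (Complex.re_add_im z).symm
  have h3 : Complex.sin z = (Real.sin z.re * Real.cosh z.im : ℝ) +
      (Real.cos z.re * Real.sinh z.im : ℝ) * Complex.I := by
    conv_lhs => rw [hz]
    rw [Complex.sin_add, Complex.cos_mul_I, Complex.sin_mul_I]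
    push_cast
    ring
  have h1 : z.im ≤ Real.sinh z.im := Real.self_le_sinh_iff.mpr h0
  refine h1.trans ?_
  have h4 : Real.sinh z.im ^ 2 ≤ ‖Complex.sin z‖ ^ 2 := by
    rw [h3, Complex.sq_norm, Complex.normSq_add_mul_I]
    have e1 := Real.sin_sq_add_cos_sq z.re
    have e2 := Real.cosh_sq z.im
    nlinarith [sq_nonneg (Real.sin z.re), sq_nonneg (Real.cos z.re)]
  exact le_of_sq_le_sq h4 (norm_nonneg _)

private lemma Sper_measurable' (h : ℝ) : MeasurableSet (Sper h) := by
  have : Sper h = {z | 0 ≤ z.re} ∩ {z | z.re < 2 * Real.pi} ∩ ({z | 0 ≤ z.im} ∩ {z | z.im ≤ h}) := by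
    ext z; simp only [Sper, mem_ofPred_eq, mem_inter_iff]; tauto
  rw [this]
  exact ((measurableSet_le measurable_const Complex.measurable_re).inter
    (measurableSet_lt Complex.measurable_re measurable_const)).inter
    ((measurableSet_le measurable_const Complex.measurable_im).inter
      (measurableSet_le Complex.measurable_im measurable_const))

private lemma S_measurable' (h : ℝ) : MeasurableSet (S h) := by
  have : S h = {z | 0 ≤ z.im} ∩ {z | z.im ≤ h} := by
    ext z; simp only [S, mem_ofPred_eq, mem_inter_iff]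
  rw [this]
  exact (measurableSet_le measurable_const Complex.measurable_im).inter
      (measurableSet_le Complex.measurable_im measurable_const)

private lemma Sper_finite' (h : ℝ) : volume (Sper h) < ⊤ := by
  have hb : Bornology.IsBounded (Sper h) := by
    rw [isBounded_iff_forall_norm_le]
    refine ⟨2 * Real.pi + |h|, fun z hz => ?_⟩
    refine (Complex.norm_le_abs_re_add_abs_im z).trans ?_
    have h1 : |z.re| ≤ 2 * Real.pi := by rw [abs_of_nonneg hz.1]; exact hz.2.1.le
    have h2 : |z.im| ≤ |h| := by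
      rw [abs_of_nonneg hz.2.2.1]; exact hz.2.2.2.trans (le_abs_self h)
    linarith
  exact hb.measure_lt_top

private lemma rr_w_cont' {D h T β K : ℝ} (hh : 0 < h) {w : ℝ → ℂ → ℝ} (hw : St T h β K w) {t : ℝ}
    (ht : t ∈ Icc 0 T) : ContinuousOn (fun x => rr D t x * w t x) (S h) := by
  have h1 : ContinuousOn (fun z : ℂ => ((t, z) : ℝ × ℂ)) (S h) :=
    (Continuous.prodMk continuous_const continuous_id).continuousOn
  have h2 : ContinuousOn ((fun p : ℝ × ℂ => rr D p.1 p.2) ∘ (fun z : ℂ => ((t, z) : ℝ × ℂ))) (S h) :=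
    ContinuousOn.comp (t := univ ×ˢ S h) (aa_cont D hh).2 h1 (fun z hz => ⟨mem_univ _, hz⟩)
  have h3 : ContinuousOn ((fun p : ℝ × ℂ => w p.1 p.2) ∘ (fun z : ℂ => ((t, z) : ℝ × ℂ))) (S h) :=
    ContinuousOn.comp (t := Icc 0 T ×ˢ S h) hw.cont h1 (fun z hz => ⟨ht, hz⟩)
  exact h2.mul h3

/-- speed near the corners, constant independent of `D, T, β, K, w`. -/
theorem vel_speed {h lam : ℝ} (hh : 0 < h) (hh1 : h ≤ 1) :
    ∃ C > 0, ∀ (D T β K : ℝ) (w : ℝ → ℂ → ℝ), 0 < β → β ≤ 1 → St T h β K w →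
      ∀ t ∈ Icc 0 T, ∀ z ∈ S h,
        ‖VV D h lam w t z‖ ≤ C * ‖Complex.sin z‖ * (1 + max 0 (-Real.log ‖Complex.sin z‖)) := by
  obtain ⟨C1, hC1, haa⟩ := aa_bound
  obtain ⟨C2, hC2, hW⟩ := W_log_sing hh hh1
  have hph : 0 < 1 / (2 * Real.pi * h) := by positivity
  set Cl : ℝ := |lam| + 1 / (2 * Real.pi * h) * (C1 * (volume (Sper h)).toReal) with hCl
  have hClpos : 0 ≤ Cl := by positivity
  refine ⟨C1 * (Cl + C1 * C2), by positivity, ?_⟩
  intro D T β K w hβ hβ1 hw t ht z hz
  obtain ⟨ha0, ha1, _⟩ := haa D t z hz.1 (hz.2.trans hh1)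
  set f : ℂ → ℝ := fun x => rr D t x * w t x with hf
  have hfc : ContinuousOn f (S h) := rr_w_cont' hh hw ht
  have hfb : ∀ x ∈ S h, |f x| * ‖Complex.sin x‖ ≤ C1 := by
    intro x hx
    obtain ⟨_, _, a1, a2, _⟩ := haa D t x hx.1 (hx.2.trans hh1)
    obtain ⟨b1, b2⟩ := hw.range t ht x hx
    rw [hf]
    simp only
    rw [abs_of_nonneg (mul_nonneg a1 b1)]
    have : rr D t x * w t x * ‖Complex.sin x‖ = (rr D t x * ‖Complex.sin x‖) * w t x := by ring
    rw [this]
    have h0 : 0 ≤ rr D t x * ‖Complex.sin x‖ := mul_nonneg a1 (norm_nonneg _)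
    nlinarith
  have hLam : |Lam h lam f| ≤ Cl := by
    unfold Lam
    refine (abs_add_le _ _).trans ?_
    rw [hCl, abs_mul, abs_of_pos hph]
    have hb : ‖∫ x in Sper h, x.im * f x‖ ≤ C1 * (volume (Sper h)).toReal := by
      refine norm_setIntegral_le_of_norm_le_const (Sper_finite' h) ?_
      intro x hx
      have hxs : x ∈ S h := ⟨hx.2.2.1, hx.2.2.2⟩
      rw [Real.norm_eq_abs, abs_mul, abs_of_nonneg hxs.1, mul_comm]
      exact (mul_le_mul_of_nonneg_left (im_le_norm_sin hxs.1) (abs_nonneg _)).trans (hfb x hxs)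
    rw [Real.norm_eq_abs] at hb
    have := mul_le_mul_of_nonneg_left hb hph.le
    linarith
  by_cases hs : Complex.sin z = 0
  · have : aa D t z = 0 := by
      rw [hs, norm_zero, mul_zero] at ha1
      linarith
    unfold VV Vel
    rw [this]
    simp [hs]
  · have hWz : ‖W h f z‖ ≤ C1 * (C2 * (1 + max 0 (-Real.log ‖Complex.sin z‖))) := by
      have h1 := hW (fun x => C1⁻¹ * f x) ?_ ?_ z hz hs
      · rw [W_smul, norm_mul, Complex.norm_real, Real.norm_eq_abs, abs_of_pos (inv_pos.mpr hC1)] at h1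
        rw [inv_mul_le_iff₀ hC1] at h1
        exact h1
      · exact (continuousOn_const.mul hfc).aestronglyMeasurable (S_measurable' h)
      · intro x hx
        have hxs : x ∈ S h := ⟨hx.1.le, hx.2.le⟩
        rw [abs_mul, abs_of_pos (inv_pos.mpr hC1), mul_assoc, inv_mul_le_iff₀ hC1, mul_one]
        exact hfb x hxs
    set L : ℝ := 1 + max 0 (-Real.log ‖Complex.sin z‖) with hL
    have hL1 : 1 ≤ L := by
      have := le_max_left (0 : ℝ) (-Real.log ‖Complex.sin z‖)
      linarith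
    have hsum : ‖-((Lam h lam f : ℝ) : ℂ) + Complex.I * conj (W h f z)‖ ≤ (Cl + C1 * C2) * L := by
      refine (norm_add_le _ _).trans ?_
      rw [norm_neg, Complex.norm_real, Real.norm_eq_abs, norm_mul, Complex.norm_I, one_mul,
        RCLike.norm_conj]
      nlinarith
    unfold VV Vel
    rw [norm_mul, Complex.norm_real, Real.norm_eq_abs, abs_of_nonneg ha0]
    calc _ ≤ (C1 * ‖Complex.sin z‖) * ((Cl + C1 * C2) * L) :=
          mul_le_mul ha1 hsum (norm_nonneg _) (by positivity)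
      _ = C1 * (Cl + C1 * C2) * ‖Complex.sin z‖ * L := by ring

end Pool.Agent.EAC
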