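import Pool.Agent.EAC.X4a
import Pool.Agent.EAC.X4b
import Pool.Agent.EAC.X4c
import Pool.Agent.EAC.X4d
import Pool.Agent.EAC.X4e
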