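import Pool.Agent.EAC.X1
import Pool.Agent.EAC.X2
import Pool.Agent.EAC.S4

/-!
# EAC-X4: the velocity field `VV D h lam w` of a vorticity `w`

`f t = rr D t * w t` is bounded by `C/dd D T` (for `0 ≤ t ≤ T`), Hölder, continuous; `W` is continuous (`W_time`), `|W| ≤ C`, log-Lipschitz with constant depending on `D,T,h`
only (`W_log`), Lipschitz with constant depending also on `β, K` (`W_lip`). `Lam h lam (f t)` is bounded and continuous in `t`, `|Lam(f) - Lam(g)| ≤ C sup|f-g|`.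
`aa` is bounded and Lipschitz. Products of bounded log-Lipschitz functions are log-Lipschitz (`r ≤ lgm r`). Tangency: `Im (a(-Λ + i conj W)) = a Re W = 0` on the boundary (`W_re`).
`vel_speed`: the size near the corners, with a constant independent of `D, t, w`: `W_log_sing`, `aa ≤ C ‖sin‖`; `Lam ≤ lam + C` because `∫_{Sper} 1/‖sin‖ < ∞`.
`W_log_sing`: `|f w| ≤ 1/‖sin w‖`: `‖W f z‖ ≤ ∫ 1/(2‖z-w‖‖sin w‖)` over `|Re w - Re z| ≤ π`, plus exponentially small tail
(`ker_le_exp`, `∫_{period} 1/‖sin‖ < ∞`); `‖sin w‖ ≥ c dist(w, πℤ)`, and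
`∫_{ball} 1/(‖z-w‖‖w-a‖) ≤ C (1 + log⁺(1/‖z-a‖))`.

THIS FILE: vel_field.
-/

set_option autoImplicit false

noncomputable section

namespace Pool.Agent.EAC


open MeasureTheory Set Filter Topology Metric
open scoped ENNReal ComplexConjugate

private theorem x4_le_lgm {r : ℝ} (hr : 0 ≤ r) : r ≤ lgm r := by
  unfold lgm
  nlinarith [mul_nonneg hr (le_max_left 0 (-Real.log r))]

private theorem x4_U_sub_S (h : ℝ) : U h ⊆ S h := fun _ hz => ⟨hz.1.le, hz.2.le⟩

private theorem x4_Sper_sub_S (h : ℝ) : Sper h ⊆ S h := fun _ hz => ⟨hz.2.2.1, hz.2.2.2⟩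

private theorem x4_closure_U {h : ℝ} (hh : 0 < h) : S h ⊆ closure (U h) := by
  intro z hz
  have hm : ∀ ε : ℝ, 0 < ε → ε < 1 →
      ((z.re : ℂ) + (((1 - ε) * z.im + ε * (h / 2) : ℝ) : ℂ) * Complex.I) ∈ U h := by
    intro ε h0 h1
    have h2 := hz.1
    have h3 := hz.2
    constructor
    · simp
      nlinarith
    · simp
      nlinarith
  have ht : Tendsto (fun ε : ℝ => (z.re : ℂ) + (((1 - ε) * z.im + ε * (h / 2) : ℝ) : ℂ) * Complex.I)
      (𝓝[>] 0) (𝓝 z) := by
    have hc : Continuous (fun ε : ℝ =>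
        (z.re : ℂ) + (((1 - ε) * z.im + ε * (h / 2) : ℝ) : ℂ) * Complex.I) := by fun_prop
    have h4 := hc.tendsto 0
    have h5 : (z.re : ℂ) + (((1 - (0:ℝ)) * z.im + 0 * (h / 2) : ℝ) : ℂ) * Complex.I = z := by
      apply Complex.ext <;> simp
    rw [h5] at h4
    exact h4.mono_left nhdsWithin_le_nhds
  refine mem_closure_of_tendsto ht ?_
  filter_upwards [Ioo_mem_nhdsGT (zero_lt_one : (0:ℝ) < 1)] with ε hε
  exact hm ε hε.1 hε.2

private theorem x4_dd_lower (D : ℝ) {T : ℝ} (hT : 0 ≤ T) :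
    ∃ δ > 0, ∀ t ∈ Icc 0 T, δ ≤ dd D t := by
  have hc : Continuous (fun t : ℝ => dd D t) := by
    unfold dd
    fun_prop
  obtain ⟨t0, _, h0⟩ := isCompact_Icc.exists_isMinOn (⟨0, left_mem_Icc.mpr hT⟩ : (Icc 0 T).Nonempty)
    hc.continuousOn
  exact ⟨dd D t0, dd_pos D t0, fun t ht => h0 ht⟩

private theorem x4_sin_le {z : ℂ} (h0 : 0 ≤ z.im) (h1 : z.im ≤ 1) : ‖Complex.sin z‖ ≤ Real.exp 1 := by
  have h2 : ‖Complex.sin z‖ ≤ Real.exp |z.im| := by
    rw [Complex.sin, norm_div, norm_mul, Complex.norm_I, mul_one, Complex.norm_ofNat]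
    have h3 := norm_sub_le (Complex.exp (-z * Complex.I)) (Complex.exp (z * Complex.I))
    rw [Complex.norm_exp, Complex.norm_exp] at h3
    have h4 : (-z * Complex.I).re = z.im := by simp
    have h5 : (z * Complex.I).re = -z.im := by simp
    rw [h4, h5] at h3
    have h6 := Real.exp_le_exp.mpr (le_abs_self z.im)
    have h7 := Real.exp_le_exp.mpr (neg_abs_le z.im |> fun h => neg_le.mp h)
    linarith
  refine h2.trans (Real.exp_le_exp.mpr ?_)
  rw [abs_of_nonneg h0]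
  exact h1

private theorem x4_aa_per (D t : ℝ) (z : ℂ) : aa D t (z + 2 * Real.pi) = aa D t z := by
  unfold aa
  rw [mm_per, cut_per]

private theorem x4_rr_per (D t : ℝ) (z : ℂ) : rr D t (z + 2 * Real.pi) = rr D t z := by
  unfold rr
  rw [rho_per, cut_per]

private theorem x4_meas_Sper (h : ℝ) : MeasurableSet (Sper h) := by
  unfold Sper
  have h1 : Measurable (fun z : ℂ => z.re) := Complex.measurable_re
  have h2 : Measurable (fun z : ℂ => z.im) := Complex.measurable_im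
  exact ((measurableSet_le measurable_const h1).inter
    ((measurableSet_lt h1 measurable_const).inter
      ((measurableSet_le measurable_const h2).inter (measurableSet_le h2 measurable_const))))

private theorem x4_vol_Sper (h : ℝ) : volume (Sper h) < ⊤ := by
  have hb : Sper h ⊆ closedBall (0 : ℂ) (2 * Real.pi + |h|) := by
    intro z hz
    obtain ⟨h1, h2, h3, h4⟩ := hz
    rw [mem_closedBall_zero_iff]
    refine (Complex.norm_le_abs_re_add_abs_im z).trans ?_
    rw [abs_of_nonneg h1, abs_of_nonneg h3]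
    have := le_abs_self h
    linarith
  exact (measure_mono hb).trans_lt measure_closedBall_lt_top

private theorem x4_slice {F : Type} [TopologicalSpace F] {A : Set ℝ} {B : Set ℂ} {G : ℝ → ℂ → F}
    (hG : ContinuousOn (fun p : ℝ × ℂ => G p.1 p.2) (A ×ˢ B)) {t : ℝ} (ht : t ∈ A) :
    ContinuousOn (fun z => G t z) B := by
  have h1 : ContinuousOn (fun z : ℂ => ((t, z) : ℝ × ℂ)) B :=
    (continuous_const.prodMk continuous_id).continuousOn
  have h2 : MapsTo (fun z : ℂ => ((t, z) : ℝ × ℂ)) B (A ×ˢ B) :=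
    fun z hz => ⟨ht, hz⟩
  have h3 := ContinuousOn.comp hG h1 h2
  exact h3

private theorem x4_slice2 {F : Type} [TopologicalSpace F] {A : Set ℝ} {B : Set ℂ} {G : ℝ → ℂ → F}
    (hG : ContinuousOn (fun p : ℝ × ℂ => G p.1 p.2) (A ×ˢ B)) {z : ℂ} (hz : z ∈ B) :
    ContinuousOn (fun t => G t z) A := by
  have h1 : ContinuousOn (fun t : ℝ => ((t, z) : ℝ × ℂ)) A :=
    (continuous_id.prodMk continuous_const).continuousOn
  have h2 : MapsTo (fun t : ℝ => ((t, z) : ℝ × ℂ)) A (A ×ˢ B) :=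
    fun t ht => ⟨ht, hz⟩
  have h3 := ContinuousOn.comp hG h1 h2
  exact h3

/-- properties of the velocity field; `M` and the bound do not depend on `β, K`. -/
theorem vel_field {D h lam T : ℝ} (hh : 0 < h) (hh1 : h ≤ 1) (hT : 0 ≤ T) :
    ∃ M ≥ 0, ∀ (β K : ℝ) (w : ℝ → ℂ → ℝ), 0 < β → β ≤ 1 → St T h β K w →
      FieldOK T h (VV D h lam w) ∧
      ∀ t ∈ Icc 0 T, ∀ z ∈ S h, ∀ y ∈ S h, ‖VV D h lam w t z - VV D h lam w t y‖ ≤ M * lgm ‖z - y‖ := by
  obtain ⟨C0, hC0, hab⟩ := aa_bound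
  obtain ⟨δ, hδ, hdd⟩ := x4_dd_lower D hT
  obtain ⟨CB, hCB, hWB⟩ := W_bound
  obtain ⟨CL, hCL, hWL⟩ := W_log hh
  obtain ⟨hac, hrc⟩ := aa_cont D hh
  obtain ⟨La, hLa, hLaL⟩ := CC_lip (aa_CC D T hh 1).1
  obtain ⟨Lr, hLr, hLrL⟩ := CC_lip (aa_CC D T hh 1).2
  have hUS := x4_U_sub_S h
  -- bounds
  obtain ⟨A, hA0, hA⟩ : ∃ A : ℝ, 0 ≤ A ∧ ∀ t : ℝ, ∀ z ∈ S h, |aa D t z| ≤ A := by
    refine ⟨C0 * Real.exp 1, by positivity, fun t z hz => ?_⟩
    obtain ⟨h1, h2, -⟩ := hab D t z hz.1 (hz.2.trans hh1)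
    rw [abs_of_nonneg h1]
    refine h2.trans (mul_le_mul_of_nonneg_left (x4_sin_le hz.1 (hz.2.trans hh1)) hC0.le)
  obtain ⟨B, hB0, hB⟩ : ∃ B : ℝ, 0 ≤ B ∧ ∀ t ∈ Icc 0 T, ∀ z ∈ S h, |rr D t z| ≤ B := by
    refine ⟨C0 / δ, by positivity, fun t ht z hz => ?_⟩
    obtain ⟨-, -, h1, -, h2⟩ := hab D t z hz.1 (hz.2.trans hh1)
    rw [abs_of_nonneg h1]
    refine h2.trans (div_le_div_of_nonneg_left hC0.le hδ (hdd t ht))
  -- Lipschitz bound for `aa` on the closed strip
  have haL : ∀ t ∈ Icc 0 T, ∀ z ∈ S h, ∀ y ∈ S h, |aa D t z - aa D t y| ≤ La * ‖z - y‖ := by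
    intro t ht
    have hc : ContinuousOn (fun z => aa D t z) (S h) := x4_slice hac (mem_univ t)
    intro z hz y hy
    have hcl : ∀ p ∈ S h ×ˢ S h, |aa D t p.1 - aa D t p.2| ≤ La * ‖p.1 - p.2‖ := by
      have hcl1 : S h ×ˢ S h ⊆ closure (U h ×ˢ U h) := by
        rw [closure_prod_eq]
        exact prod_mono (x4_closure_U hh) (x4_closure_U hh)
      intro p hp
      have hpc : p ∈ closure (U h ×ˢ U h) := hcl1 hp
      rw [mem_closure_iff_nhdsWithin_neBot] at hpc
      have hsub : U h ×ˢ U h ⊆ S h ×ˢ S h := prod_mono hUS hUS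
      have hc1 : Tendsto (fun p : ℂ × ℂ => aa D t p.1) (𝓝[U h ×ˢ U h] p) (𝓝 (aa D t p.1)) := by
        have h7 := hc.comp (s := S h ×ˢ S h) continuousOn_fst (fun q hq => hq.1)
        exact (h7 p hp).mono_left (nhdsWithin_mono _ hsub)
      have hc2 : Tendsto (fun p : ℂ × ℂ => aa D t p.2) (𝓝[U h ×ˢ U h] p) (𝓝 (aa D t p.2)) := by
        have h7 := hc.comp (s := S h ×ˢ S h) continuousOn_snd (fun q hq => hq.2)
        exact (h7 p hp).mono_left (nhdsWithin_mono _ hsub)
      have hc3 : Tendsto (fun p : ℂ × ℂ => La * ‖p.1 - p.2‖) (𝓝[U h ×ˢ U h] p)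
          (𝓝 (La * ‖p.1 - p.2‖)) := by
        have : Continuous (fun p : ℂ × ℂ => La * ‖p.1 - p.2‖) := by fun_prop
        exact (this.tendsto p).mono_left nhdsWithin_le_nhds
      refine le_of_tendsto_of_tendsto (hc1.sub hc2).abs hc3 ?_
      filter_upwards [self_mem_nhdsWithin] with q hq
      exact hLaL t ht q.1 hq.1 q.2 hq.2
    exact hcl (z, y) ⟨hz, hy⟩
  -- bound of the strength
  set Λ : ℝ := |lam| + |1 / (2 * Real.pi * h)| * (h * B * (volume (Sper h)).toReal) with hΛ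
  have hΛ0 : 0 ≤ Λ := by positivity
  set WB : ℝ := CB * h * B with hWBd
  have hWB0 : 0 ≤ WB := by positivity
  refine ⟨La * (Λ + WB) + A * (CL * B), by positivity, ?_⟩
  intro β K w hβ hβ1 hw
  have hK0 : 0 ≤ K := by
    have h1 := hw.holder 0 (left_mem_Icc.mpr hT) 0 ⟨by simp, by simpa using hh.le⟩ 1
      ⟨by simp, by simpa using hh.le⟩
    have h2 : ‖(0 : ℂ) - 1‖ = 1 := by simp
    rw [h2, Real.one_rpow, mul_one] at h1
    exact (abs_nonneg _).trans h1
  -- the density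
  set f : ℝ → ℂ → ℝ := fun t x => rr D t x * w t x with hf
  have hwabs : ∀ t ∈ Icc 0 T, ∀ z ∈ S h, |w t z| ≤ 1 := by
    intro t ht z hz
    obtain ⟨h1, h2⟩ := hw.range t ht z hz
    rw [abs_of_nonneg h1]
    exact h2
  have hfB : ∀ t ∈ Icc 0 T, ∀ z ∈ S h, |f t z| ≤ B := by
    intro t ht z hz
    rw [hf]
    simp only [abs_mul]
    calc |rr D t z| * |w t z| ≤ B * 1 :=
          mul_le_mul (hB t ht z hz) (hwabs t ht z hz) (abs_nonneg _) hB0
      _ = B := mul_one _
  have hfc : ContinuousOn (fun p : ℝ × ℂ => f p.1 p.2) (Icc 0 T ×ˢ S h) := by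
    have h1 : ContinuousOn (fun p : ℝ × ℂ => rr D p.1 p.2) (Icc 0 T ×ˢ S h) :=
      hrc.mono (prod_mono (subset_univ _) subset_rfl)
    exact h1.mul hw.cont
  have hft : ∀ t ∈ Icc 0 T, ContinuousOn (f t) (S h) := fun t ht => x4_slice hfc ht
  have hfBM : ∀ t ∈ Icc 0 T, BM h (f t) B := fun t ht =>
    BM_of_continuousOn ((hft t ht).mono hUS) (fun z hz => hfB t ht z (hUS hz))
  have hfW : ∀ t ∈ Icc 0 T, ∀ z ∈ S h, ‖W h (f t) z‖ ≤ WB := fun t ht z hz =>
    hWB h hh (f t) B (hfBM t ht) z hz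
  set K' : ℝ := Lr + 2 * B + B * K with hK'
  have hK'0 : 0 ≤ K' := by positivity
  have hfH : ∀ t ∈ Icc 0 T, ∀ z ∈ U h, ∀ y ∈ U h, |f t z - f t y| ≤ K' * ‖z - y‖ ^ β := by
    intro t ht z hz y hy
    rcases le_or_gt ‖z - y‖ 1 with h1 | h1
    · have h2 : ‖z - y‖ ≤ ‖z - y‖ ^ β := by
        have := Real.rpow_le_rpow_of_exponent_ge' (norm_nonneg (z - y)) h1 hβ.le hβ1
        rwa [Real.rpow_one] at this
      have h3 : f t z - f t y = (rr D t z - rr D t y) * w t z + rr D t y * (w t z - w t y) := by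
        simp only [hf]; ring
      rw [h3]
      have h4 : |rr D t z - rr D t y| ≤ Lr * ‖z - y‖ := hLrL t ht z hz y hy
      have h5 := hw.holder t ht z (hUS hz) y (hUS hy)
      have h6 := hwabs t ht z (hUS hz)
      have h7 := hB t ht y (hUS hy)
      have hp : 0 ≤ ‖z - y‖ ^ β := Real.rpow_nonneg (norm_nonneg _) _
      calc |(rr D t z - rr D t y) * w t z + rr D t y * (w t z - w t y)|
          ≤ |(rr D t z - rr D t y) * w t z| + |rr D t y * (w t z - w t y)| := abs_add_le _ _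
        _ = |rr D t z - rr D t y| * |w t z| + |rr D t y| * |w t z - w t y| := by
            rw [abs_mul, abs_mul]
        _ ≤ (Lr * ‖z - y‖) * 1 + B * (K * ‖z - y‖ ^ β) := by
            refine add_le_add (mul_le_mul h4 h6 (abs_nonneg _) (by positivity))
              (mul_le_mul h7 h5 (abs_nonneg _) hB0)
        _ ≤ K' * ‖z - y‖ ^ β := by
            rw [hK']
            nlinarith [mul_le_mul_of_nonneg_left h2 hLr, mul_nonneg hB0 hp]
    · have h2 : 1 ≤ ‖z - y‖ ^ β := Real.one_le_rpow h1.le hβ.le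
      have h3 := hfB t ht z (hUS hz)
      have h4 := hfB t ht y (hUS hy)
      have h5 : |f t z - f t y| ≤ 2 * B := by
        have := abs_sub (f t z) (f t y)
        linarith
      have h6 : 0 ≤ B * K := mul_nonneg hB0 hK0
      calc |f t z - f t y| ≤ 2 * B := h5
        _ ≤ K' := by rw [hK']; linarith
        _ ≤ K' * ‖z - y‖ ^ β := by nlinarith
  -- the strength
  have hLamB : ∀ t ∈ Icc 0 T, |Lam h lam (f t)| ≤ Λ := by
    intro t ht
    unfold Lam
    refine (abs_add_le _ _).trans ?_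
    rw [hΛ, abs_mul]
    refine add_le_add le_rfl (mul_le_mul_of_nonneg_left ?_ (abs_nonneg _))
    have h1 := norm_setIntegral_le_of_norm_le_const (μ := volume) (s := Sper h)
      (f := fun w : ℂ => w.im * f t w) (C := h * B) (x4_vol_Sper h) (fun z hz => by
        have hzS := x4_Sper_sub_S h hz
        rw [Real.norm_eq_abs, abs_mul, abs_of_nonneg hzS.1]
        exact mul_le_mul hzS.2 (hfB t ht z hzS) (abs_nonneg _) hh.le)
    simpa [Real.norm_eq_abs, Measure.real] using h1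
  have hLamC : ContinuousOn (fun t => Lam h lam (f t)) (Icc 0 T) := by
    unfold Lam
    refine continuousOn_const.add (continuousOn_const.mul ?_)
    refine continuousOn_of_dominated (bound := fun _ => h * B) ?_ ?_ ?_ ?_
    · intro t ht
      refine ContinuousOn.aestronglyMeasurable ?_ (x4_meas_Sper h)
      exact Complex.continuous_im.continuousOn.mul ((hft t ht).mono (x4_Sper_sub_S h))
    · intro t ht
      refine (ae_restrict_iff' (x4_meas_Sper h)).mpr (Eventually.of_forall fun z hz => ?_)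
      have hzS := x4_Sper_sub_S h hz
      rw [Real.norm_eq_abs, abs_mul, abs_of_nonneg hzS.1]
      exact mul_le_mul hzS.2 (hfB t ht z hzS) (abs_nonneg _) hh.le
    · have : IsFiniteMeasure (volume.restrict (Sper h)) :=
        ⟨by rw [Measure.restrict_apply_univ]; exact x4_vol_Sper h⟩
      exact integrable_const _
    · refine (ae_restrict_iff' (x4_meas_Sper h)).mpr (Eventually.of_forall fun z hz => ?_)
      have hzS := x4_Sper_sub_S h hz
      exact continuousOn_const.mul (x4_slice2 hfc hzS)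
  have hWc : ContinuousOn (fun p : ℝ × ℂ => W h (f p.1) p.2) (Icc 0 T ×ˢ S h) :=
    W_time hh (hfc.mono (prod_mono subset_rfl hUS)) (fun t ht z hz => hfB t ht z (hUS hz))
  have hVdef : ∀ t z, VV D h lam w t z =
      (aa D t z : ℂ) * (-(Lam h lam (f t) : ℂ) + Complex.I * conj (W h (f t) z)) := fun t z => rfl
  have hG : ∀ t ∈ Icc 0 T, ∀ z ∈ S h,
      ‖-(Lam h lam (f t) : ℂ) + Complex.I * conj (W h (f t) z)‖ ≤ Λ + WB := by
    intro t ht z hz
    refine (norm_add_le _ _).trans ?_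
    rw [norm_neg, Complex.norm_real, norm_mul, Complex.norm_I, one_mul, RCLike.norm_conj]
    exact add_le_add (hLamB t ht) (hfW t ht z hz)
  -- difference estimate
  have hdiff : ∀ t ∈ Icc 0 T, ∀ z ∈ S h, ∀ y ∈ S h,
      ‖VV D h lam w t z - VV D h lam w t y‖ ≤
        La * ‖z - y‖ * (Λ + WB) + A * ‖W h (f t) z - W h (f t) y‖ := by
    intro t ht z hz y hy
    have h1 : VV D h lam w t z - VV D h lam w t y =
        ((aa D t z - aa D t y : ℝ) : ℂ) * (-(Lam h lam (f t) : ℂ) + Complex.I * conj (W h (f t) z)) +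
          (aa D t y : ℂ) * (Complex.I * conj (W h (f t) z - W h (f t) y)) := by
      rw [hVdef, hVdef, map_sub]
      push_cast
      ring
    rw [h1]
    refine (norm_add_le _ _).trans (add_le_add ?_ ?_)
    · rw [norm_mul, Complex.norm_real, Real.norm_eq_abs]
      exact mul_le_mul (haL t ht z hz y hy) (hG t ht z hz) (norm_nonneg _) (by positivity)
    · rw [norm_mul, Complex.norm_real, Real.norm_eq_abs, norm_mul, Complex.norm_I, one_mul,
        RCLike.norm_conj]
      exact mul_le_mul_of_nonneg_right (hA t y hy) (norm_nonneg _)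
  refine ⟨⟨?_, ?_, ?_, ?_, ?_⟩, ?_⟩
  · -- continuity
    have h1 : ContinuousOn (fun p : ℝ × ℂ => (aa D p.1 p.2 : ℂ)) (Icc 0 T ×ˢ S h) :=
      Complex.continuous_ofReal.comp_continuousOn (hac.mono (prod_mono (subset_univ _) subset_rfl))
    have h2 : ContinuousOn (fun p : ℝ × ℂ => (Lam h lam (f p.1) : ℂ)) (Icc 0 T ×ˢ S h) :=
      Complex.continuous_ofReal.comp_continuousOn
        (hLamC.comp continuousOn_fst (fun p hp => hp.1))
    have h3 : ContinuousOn (fun p : ℝ × ℂ => conj (W h (f p.1) p.2)) (Icc 0 T ×ˢ S h) :=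
      Complex.continuous_conj.comp_continuousOn hWc
    exact h1.mul (h2.neg.add (continuousOn_const.mul h3))
  · refine ⟨A * (Λ + WB), fun t ht z hz => ?_⟩
    rw [hVdef, norm_mul, Complex.norm_real, Real.norm_eq_abs]
    exact mul_le_mul (hA t z hz) (hG t ht z hz) (norm_nonneg _) hA0
  · obtain ⟨C', hC', hWlip⟩ := W_lip hh hβ hβ1
    refine ⟨La * (Λ + WB) + A * (C' * (B + K')), by positivity, fun t ht z hz y hy => ?_⟩
    refine (hdiff t ht z hz y hy).trans ?_
    have h1 := hWlip (f t) B K' hB0 hK'0 (fun z hz => hfB t ht z (hUS hz)) (hfH t ht) z hz y hy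
    have h2 := mul_le_mul_of_nonneg_left h1 hA0
    calc La * ‖z - y‖ * (Λ + WB) + A * ‖W h (f t) z - W h (f t) y‖
        ≤ La * ‖z - y‖ * (Λ + WB) + A * (C' * (B + K') * ‖z - y‖) := by linarith
      _ = (La * (Λ + WB) + A * (C' * (B + K'))) * ‖z - y‖ := by ring
  · intro t ht z hz hzb
    rw [hVdef]
    have h1 := W_re hh (f t) hzb
    simp [h1]
  · intro t ht z hz
    rw [hVdef, hVdef, x4_aa_per]
    have h1 : W h (f t) (z + 2 * Real.pi) = W h (f t) z := by
      refine W_per (fun y hy => ?_) z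
      simp only [hf]
      rw [x4_rr_per, hw.per t ht y hy]
    rw [h1]
  · intro t ht z hz y hy
    refine (hdiff t ht z hz y hy).trans ?_
    have h1 := hWL (f t) B β K' hβ hβ1 hB0 hK'0 (fun z hz => hfB t ht z (hUS hz)) (hfH t ht) z hz y hy
    have h2 := mul_le_mul_of_nonneg_left h1 hA0
    have h3 := x4_le_lgm (norm_nonneg (z - y))
    have h4 : La * ‖z - y‖ * (Λ + WB) ≤ La * lgm ‖z - y‖ * (Λ + WB) :=
      mul_le_mul_of_nonneg_right (mul_le_mul_of_nonneg_left h3 hLa) (by positivity)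
    calc La * ‖z - y‖ * (Λ + WB) + A * ‖W h (f t) z - W h (f t) y‖
        ≤ La * lgm ‖z - y‖ * (Λ + WB) + A * (CL * B * lgm ‖z - y‖) := by linarith
      _ = (La * (Λ + WB) + A * (CL * B)) * lgm ‖z - y‖ := by ring

end Pool.Agent.EAC
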