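import Pool.Agent.EAC.X5a

/-!
# EAC-X5: existence of the solution with cut off coefficients (iteration)

`w^0 t z = w0 z`; given `w^j` (a state on every `[0,T]`), `Φ^j, A^j` the flow of `VV D h lam w^j` (`vel_field`, `sflow_exists`), `w^{j+1} t z = w0 (A^j t z)`.
Uniform Hölder bounds: for every `T`, with `M = M(T)` of `vel_field`, `β_T = exp(-M T)`, `K_T = max (C Lip w0 exp(1+MT)) 1...`: `|w0(A z) - w0(A y)| ≤ Lip w0 ‖A z - A y‖` for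
`‖z-y‖ ≤ 1` (`sflow_holder`), `≤ 1 ≤ ‖z-y‖^β` for `‖z-y‖ ≥ 1`; for `w^0` as well. The bound does not depend on the Hölder constant of `w^j`.
Differences: `|w^{j+1} - w^j|(t,z) ≤ (C_T t)^j / j!` on `[0,T]` (`vel_diff`, `sflow_stab` with `L` from `vel_lip`, `|w0(A)-w0(A')| ≤ Lip w0 ‖A - A'‖`). Hence uniform convergence on `[0,T] × S h`
to `w`, a state; `Φ, A` the flow of `VV D h lam w`; `‖A^j - A‖ → 0` (`vel_diff`, `sflow_stab` with `n = 0`), so `w t z = w0 (A t z)`.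

THIS FILE: iteration.
-/

set_option autoImplicit false

noncomputable section

namespace Pool.Agent.EAC


open MeasureTheory Set Filter Topology Metric
open scoped ENNReal ComplexConjugate

/-- the flow of the velocity field of a state, for all times. -/
theorem VV_flow {D h lam : ℝ} (hh : 0 < h) (hh1 : h ≤ 1) {w : ℝ → ℂ → ℝ}
    (hw : ∀ T, 0 ≤ T → ∃ β K : ℝ, 0 < β ∧ β ≤ 1 ∧ St T h β K w) :
    ∃ Φ A : ℝ → ℂ → ℂ, ∀ T, 0 ≤ T → SFlow T h (VV D h lam w) Φ A := by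
  refine sflow_exists hh (fun T hT => ?_)
  obtain ⟨M, -, hM⟩ := vel_field (D := D) (lam := lam) hh hh1 hT
  obtain ⟨β, K, hβ, hβ1, hSt⟩ := hw T hT
  exact (hM β K w hβ hβ1 hSt).1

/-- the iteration. -/
theorem iteration {D h lam : ℝ} (hh : 0 < h) (hh1 : h ≤ 1) {w0 : ℂ → ℝ} (hw0 : NiceInit w0) :
    ∃ (w : ℕ → ℝ → ℂ → ℝ) (Φ A : ℕ → ℝ → ℂ → ℂ), w 0 = (fun _ => w0) ∧
      (∀ T, 0 ≤ T → ∃ β K : ℝ, 0 < β ∧ β ≤ 1 ∧ 0 ≤ K ∧ ∀ j, St T h β K (w j)) ∧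
      (∀ T, 0 ≤ T → ∀ j, SFlow T h (VV D h lam (w j)) (Φ j) (A j)) ∧
      ∀ j, w (j + 1) = fun t z => w0 (A j t z) := by
  have hex : ∀ T : ℝ, ∃ β K : ℝ, 0 ≤ T → (0 < β ∧ β ≤ 1 ∧ 0 ≤ K ∧ St T h β K (fun _ => w0) ∧
      ∀ (β' K' : ℝ) (w : ℝ → ℂ → ℝ) (Φ A : ℝ → ℂ → ℂ), 0 < β' → β' ≤ 1 → St T h β' K' w →
        SFlow T h (VV D h lam w) Φ A → St T h β K (fun t z => w0 (A t z))) := by
    intro T
    by_cases hT : 0 ≤ T
    · obtain ⟨β, K, h1⟩ := step_holder (D := D) (lam := lam) hh hh1 hT hw0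
      exact ⟨β, K, fun _ => h1⟩
    · exact ⟨0, 0, fun h1 => absurd h1 hT⟩
  choose β K hβK using hex
  have hfl : ∀ w : {w : ℝ → ℂ → ℝ // ∀ T, 0 ≤ T → St T h (β T) (K T) w},
      ∃ Φ A : ℝ → ℂ → ℂ, ∀ T, 0 ≤ T → SFlow T h (VV D h lam w.1) Φ A := by
    intro w
    refine VV_flow hh hh1 (fun T hT => ?_)
    obtain ⟨hb, hb1, -, -, -⟩ := hβK T hT
    exact ⟨β T, K T, hb, hb1, w.2 T hT⟩
  choose Φ A hΦA using hfl
  let step : {w : ℝ → ℂ → ℝ // ∀ T, 0 ≤ T → St T h (β T) (K T) w} →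
      {w : ℝ → ℂ → ℝ // ∀ T, 0 ≤ T → St T h (β T) (K T) w} := fun w =>
    ⟨fun t z => w0 (A w t z), fun T hT =>
      (hβK T hT).2.2.2.2 (β T) (K T) w.1 (Φ w) (A w) (hβK T hT).1 (hβK T hT).2.1 (w.2 T hT)
        (hΦA w T hT)⟩
  let sq : ℕ → {w : ℝ → ℂ → ℝ // ∀ T, 0 ≤ T → St T h (β T) (K T) w} := fun n =>
    Nat.rec ⟨fun _ => w0, fun T hT => (hβK T hT).2.2.2.1⟩ (fun _ w => step w) n
  refine ⟨fun n => (sq n).1, fun n => Φ (sq n), fun n => A (sq n), rfl, ?_, ?_, fun j => rfl⟩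
  · intro T hT
    exact ⟨β T, K T, (hβK T hT).1, (hβK T hT).2.1, (hβK T hT).2.2.1, fun j => (sq j).2 T hT⟩
  · intro T hT j
    exact hΦA (sq j) T hT

end Pool.Agent.EAC
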