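import Pool.Agent.EAC.X4

/-!
# EAC-X5: existence of the solution with cut off coefficients (iteration)

`w^0 t z = w0 z`; given `w^j` (a state on every `[0,T]`), `Φ^j, A^j` the flow of `VV D h lam w^j` (`vel_field`, `sflow_exists`), `w^{j+1} t z = w0 (A^j t z)`.
Uniform Hölder bounds: for every `T`, with `M = M(T)` of `vel_field`, `β_T = exp(-M T)`, `K_T = max (C Lip w0 exp(1+MT)) 1...`: `|w0(A z) - w0(A y)| ≤ Lip w0 ‖A z - A y‖` for
`‖z-y‖ ≤ 1` (`sflow_holder`), `≤ 1 ≤ ‖z-y‖^β` for `‖z-y‖ ≥ 1`; for `w^0` as well. The bound does not depend on the Hölder constant of `w^j`.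
Differences: `|w^{j+1} - w^j|(t,z) ≤ (C_T t)^j / j!` on `[0,T]` (`vel_diff`, `sflow_stab` with `L` from `vel_lip`, `|w0(A)-w0(A')| ≤ Lip w0 ‖A - A'‖`). Hence uniform convergence on `[0,T] × S h`
to `w`, a state; `Φ, A` the flow of `VV D h lam w`; `‖A^j - A‖ → 0` (`vel_diff`, `sflow_stab` with `n = 0`), so `w t z = w0 (A t z)`.

THIS FILE: converge.
-/

set_option autoImplicit false

noncomputable section

namespace Pool.Agent.EAC


open MeasureTheory Set Filter Topology Metric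
open scoped ENNReal ComplexConjugate

/-- convergence. -/
theorem converge {D h lam : ℝ} (hh : 0 < h) (hh1 : h ≤ 1) {w0 : ℂ → ℝ} (hw0 : NiceInit w0)
    {w : ℕ → ℝ → ℂ → ℝ} {Φ A : ℕ → ℝ → ℂ → ℂ} (h0 : w 0 = (fun _ => w0))
    (hSt : ∀ T, 0 ≤ T → ∃ β K : ℝ, 0 < β ∧ β ≤ 1 ∧ 0 ≤ K ∧ ∀ j, St T h β K (w j))
    (hF : ∀ T, 0 ≤ T → ∀ j, SFlow T h (VV D h lam (w j)) (Φ j) (A j))
    (hs : ∀ j, w (j + 1) = fun t z => w0 (A j t z)) :
    ∀ T, 0 ≤ T → ∃ C : ℝ, 0 ≤ C ∧ ∀ j, ∀ t ∈ Icc 0 T, ∀ z ∈ S h,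
      |w (j + 1) t z - w j t z| ≤ (C * t) ^ j / (j.factorial : ℝ) := by
  intro T hT
  obtain ⟨β, K, hβ, hβ1, hK, hst⟩ := hSt T hT
  obtain ⟨L, hL, hlip⟩ := vel_lip (D := D) (lam := lam) (K := K) hh hh1 hT hβ hβ1
  obtain ⟨Cd, hCd, hdiff⟩ := vel_diff (D := D) (lam := lam) hh hh1 hT
  obtain ⟨L0, hL0, hw0L⟩ := nice_lip hw0
  obtain ⟨C, hCdef⟩ : ∃ C, C = L0 * Real.exp (L * T) * Cd := ⟨_, rfl⟩
  have hC : 0 ≤ C := by
    rw [hCdef]
    exact mul_nonneg (mul_nonneg hL0.le (Real.exp_pos _).le) hCd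
  refine ⟨C, hC, ?_⟩
  intro j
  induction j with
  | zero =>
    intro t ht z hz
    have h1 := (hst 1).range t ht z hz
    have h2 := (hst 0).range t ht z hz
    rw [pow_zero, Nat.factorial_zero, Nat.cast_one, div_one, zero_add, abs_le]
    constructor <;> linarith [h1.1, h1.2, h2.1, h2.2]
  | succ j ih =>
    have hfac : (0 : ℝ) < (j.factorial : ℝ) := by exact_mod_cast Nat.factorial_pos j
    have hc : 0 ≤ Cd * (C ^ j / (j.factorial : ℝ)) :=
      mul_nonneg hCd (div_nonneg (pow_nonneg hC _) hfac.le)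
    have hst' := sflow_stab (n := j) hT hL hc (hlip (w (j + 1)) (hst (j + 1))) (by
      intro t ht z hz
      have h3 := hdiff β K (w (j + 1)) (w j) hβ hβ1 (hst (j + 1)) (hst j) t ht
        ((C * t) ^ j / (j.factorial : ℝ))
        (div_nonneg (pow_nonneg (mul_nonneg hC ht.1) _) hfac.le) (ih t ht) z hz
      refine h3.trans (le_of_eq ?_)
      rw [mul_pow]
      ring) (hF T hT (j + 1)) (hF T hT j)
    intro t ht z hz
    have h4 := hst' t ht z hz
    have e1 : w (j + 1 + 1) t z = w0 (A (j + 1) t z) := by rw [hs (j + 1)]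
    have e2 : w (j + 1) t z = w0 (A j t z) := by rw [hs j]
    rw [e1, e2]
    refine (hw0L _ _).trans ?_
    refine (mul_le_mul_of_nonneg_left h4 hL0.le).trans (le_of_eq ?_)
    have hj1 : ((j : ℝ) + 1) ≠ 0 := by positivity
    have e3 : L0 * (Real.exp (L * T) * (Cd * (C ^ j / (j.factorial : ℝ))) * t ^ (j + 1) / (j + 1)) =
        C * C ^ j * t ^ (j + 1) / ((j + 1) * (j.factorial : ℝ)) := by
      rw [hCdef]
      field_simp
    rw [e3, Nat.factorial_succ, mul_pow, pow_succ' C j]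
    push_cast
    rfl

end Pool.Agent.EAC
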