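import Pool.Agent.EAC.X5b
import Pool.Agent.EAC.X5c

/-!
# EAC-X5: existence of the solution with cut off coefficients (iteration)

`w^0 t z = w0 z`; given `w^j` (a state on every `[0,T]`), `Φ^j, A^j` the flow of `VV D h lam w^j` (`vel_field`, `sflow_exists`), `w^{j+1} t z = w0 (A^j t z)`.
Uniform Hölder bounds: for every `T`, with `M = M(T)` of `vel_field`, `β_T = exp(-M T)`, `K_T = max (C Lip w0 exp(1+MT)) 1...`: `|w0(A z) - w0(A y)| ≤ Lip w0 ‖A z - A y‖` for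
`‖z-y‖ ≤ 1` (`sflow_holder`), `≤ 1 ≤ ‖z-y‖^β` for `‖z-y‖ ≥ 1`; for `w^0` as well. The bound does not depend on the Hölder constant of `w^j`.
Differences: `|w^{j+1} - w^j|(t,z) ≤ (C_T t)^j / j!` on `[0,T]` (`vel_diff`, `sflow_stab` with `L` from `vel_lip`, `|w0(A)-w0(A')| ≤ Lip w0 ‖A - A'‖`). Hence uniform convergence on `[0,T] × S h`
to `w`, a state; `Φ, A` the flow of `VV D h lam w`; `‖A^j - A‖ → 0` (`vel_diff`, `sflow_stab` with `n = 0`), so `w t z = w0 (A t z)`.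

THIS FILE: X_fix.
-/

set_option autoImplicit false

noncomputable section

namespace Pool.Agent.EAC


open MeasureTheory Set Filter Topology Metric
open scoped ENNReal ComplexConjugate

/-- uniform convergence of the iterates. -/
theorem iter_limit {h : ℝ} {w : ℕ → ℝ → ℂ → ℝ}
    (hC : ∀ T, 0 ≤ T → ∃ C : ℝ, 0 ≤ C ∧ ∀ j, ∀ t ∈ Icc 0 T, ∀ z ∈ S h,
      |w (j + 1) t z - w j t z| ≤ (C * t) ^ j / (j.factorial : ℝ)) :
    ∃ w' : ℝ → ℂ → ℝ, ∀ T, 0 ≤ T → ∃ ε : ℕ → ℝ, Tendsto ε atTop (𝓝 0) ∧ (∀ j, 0 ≤ ε j) ∧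
      ∀ j, ∀ t ∈ Icc 0 T, ∀ z ∈ S h, |w j t z - w' t z| ≤ ε j := by
  -- the tail of the exponential series
  have hb : ∀ T, 0 ≤ T → ∃ C : ℝ, ∀ j, ∀ t ∈ Icc 0 T, ∀ z ∈ S h,
      dist (w j t z) (w (j + 1) t z) ≤ C ^ j / (j.factorial : ℝ) := by
    intro T hT
    obtain ⟨C, hC0, h1⟩ := hC T hT
    refine ⟨C * T, fun j t ht z hz => ?_⟩
    rw [dist_comm, Real.dist_eq]
    refine (h1 j t ht z hz).trans ?_
    gcongr
    · exact mul_nonneg hC0 ht.1
    · exact ht.2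
  have hlim : ∀ t, 0 ≤ t → ∀ z ∈ S h, ∃ l : ℝ, Tendsto (fun j => w j t z) atTop (𝓝 l) := by
    intro t ht z hz
    obtain ⟨C, h1⟩ := hb t ht
    have hcau : CauchySeq (fun j => w j t z) :=
      cauchySeq_of_dist_le_of_summable _ (fun j => h1 j t ⟨ht, le_refl t⟩ z hz)
        (Real.summable_pow_div_factorial C)
    exact cauchySeq_tendsto_of_complete hcau
  refine ⟨fun t z => limUnder atTop (fun j => w j t z), fun T hT => ?_⟩
  obtain ⟨C, h1⟩ := hb T hT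
  have hsum := Real.summable_pow_div_factorial C
  refine ⟨fun j => |∑' m, C ^ (m + j) / ((m + j).factorial : ℝ)|, ?_, fun j => abs_nonneg _, ?_⟩
  · have h2 := tendsto_sum_nat_add (fun j => C ^ j / (j.factorial : ℝ))
    simpa using h2.abs
  · intro j t ht z hz
    have hl : Tendsto (fun j => w j t z) atTop (𝓝 (limUnder atTop (fun j => w j t z))) :=
      tendsto_nhds_limUnder (hlim t ht.1 z hz)
    have h3 := dist_le_tsum_of_dist_le_of_tendsto _ (fun j => h1 j t ht z hz) hsum hl j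
    rw [Real.dist_eq] at h3
    refine h3.trans ?_
    have h4 : (∑' m, C ^ (j + m) / ((j + m).factorial : ℝ)) =
        ∑' m, C ^ (m + j) / ((m + j).factorial : ℝ) := by
      congr 1
      ext m
      rw [add_comm j m]
    rw [h4]
    exact le_abs_self _

/-- uniform limits of states are states. -/
theorem St_limit {T h β K : ℝ} {w : ℕ → ℝ → ℂ → ℝ} {w' : ℝ → ℂ → ℝ}
    (hw : ∀ j, St T h β K (w j)) {ε : ℕ → ℝ} (hε : Tendsto ε atTop (𝓝 0))
    (hd : ∀ j, ∀ t ∈ Icc 0 T, ∀ z ∈ S h, |w j t z - w' t z| ≤ ε j) : St T h β K w' := by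
  have hpt : ∀ t ∈ Icc 0 T, ∀ z ∈ S h, Tendsto (fun j => w j t z) atTop (𝓝 (w' t z)) := by
    intro t ht z hz
    rw [tendsto_iff_dist_tendsto_zero]
    refine squeeze_zero (fun j => dist_nonneg) (fun j => ?_) hε
    rw [Real.dist_eq]
    exact hd j t ht z hz
  have hmem : ∀ z ∈ S h, z + 2 * (Real.pi : ℂ) ∈ S h := by
    intro z hz
    simpa [S] using hz
  refine ⟨?_, fun t ht z hz => ?_, fun t ht z hz => ⟨?_, ?_⟩, fun t ht z hz y hy => ?_⟩
  · have hu : TendstoUniformlyOn (fun (j : ℕ) (p : ℝ × ℂ) => w j p.1 p.2)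
        (fun p : ℝ × ℂ => w' p.1 p.2) atTop (Icc 0 T ×ˢ S h) := by
      rw [Metric.tendstoUniformlyOn_iff]
      intro e he
      filter_upwards [hε.eventually (gt_mem_nhds he)] with j hj p hp
      rw [dist_comm, Real.dist_eq]
      exact (hd j p.1 hp.1 p.2 hp.2).trans_lt hj
    exact hu.continuousOn (Eventually.of_forall fun j => (hw j).cont).frequently
  · refine tendsto_nhds_unique ((hpt t ht _ (hmem z hz)).congr (fun j => ?_)) (hpt t ht z hz)
    exact (hw j).per t ht z hz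
  · exact ge_of_tendsto' (hpt t ht z hz) (fun j => ((hw j).range t ht z hz).1)
  · exact le_of_tendsto' (hpt t ht z hz) (fun j => ((hw j).range t ht z hz).2)
  · refine le_of_tendsto' ((hpt t ht z hz).sub (hpt t ht y hy)).abs (fun j => ?_)
    exact (hw j).holder t ht z hz y hy

theorem X_fix {D h lam : ℝ} (hh : 0 < h) (hh1 : h ≤ 1) {w0 : ℂ → ℝ} (hw0 : NiceInit w0) :
    ∃ (w : ℝ → ℂ → ℝ) (Φ A : ℝ → ℂ → ℂ),
      (∀ T, 0 ≤ T → ∃ β K : ℝ, 0 < β ∧ β ≤ 1 ∧ 0 ≤ K ∧ St T h β K w) ∧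
      (∀ T, 0 ≤ T → SFlow T h (VV D h lam w) Φ A) ∧
      ∀ t, 0 ≤ t → ∀ z ∈ S h, w t z = w0 (A t z) := by
  obtain ⟨w, Φ, A, h0, hSt, hF, hs⟩ := iteration (D := D) (lam := lam) hh hh1 hw0
  obtain ⟨w', hw'⟩ := iter_limit (converge hh hh1 hw0 h0 hSt hF hs)
  have hSt' : ∀ T, 0 ≤ T → ∃ β K : ℝ, 0 < β ∧ β ≤ 1 ∧ 0 ≤ K ∧ St T h β K w' := by
    intro T hT
    obtain ⟨β, K, hβ, hβ1, hK, hj⟩ := hSt T hT
    obtain ⟨ε, hε, -, hd⟩ := hw' T hT
    exact ⟨β, K, hβ, hβ1, hK, St_limit hj hε hd⟩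
  obtain ⟨Φ', A', hF'⟩ := VV_flow (D := D) (lam := lam) hh hh1 (w := w') (fun T hT => by
    obtain ⟨β, K, hβ, hβ1, -, hj⟩ := hSt' T hT
    exact ⟨β, K, hβ, hβ1, hj⟩)
  refine ⟨w', Φ', A', hSt', hF', fun T hT z hz => ?_⟩
  have hTm : T ∈ Icc 0 T := ⟨hT, le_refl T⟩
  obtain ⟨β, K, hβ, hβ1, -, hj⟩ := hSt T hT
  obtain ⟨ε, hε, hε0, hd⟩ := hw' T hT
  have hj' : St T h β K w' := St_limit hj hε hd
  obtain ⟨L, hL0, hL⟩ := vel_lip (D := D) (lam := lam) (K := K) hh hh1 hT hβ hβ1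
  obtain ⟨C, hC0, hC⟩ := vel_diff (D := D) (lam := lam) hh hh1 hT
  have hstab : ∀ j, ‖A j T z - A' T z‖ ≤ Real.exp (L * T) * (C * ε j) * T := by
    intro j
    have h1 := sflow_stab (n := 0) (c := C * ε j) hT hL0 (mul_nonneg hC0 (hε0 j))
      (hL (w j) (hj j)) (fun t ht y hy => by
        rw [pow_zero, mul_one]
        exact hC β K (w j) w' hβ hβ1 (hj j) hj' t ht (ε j) (hε0 j) (hd j t ht) y hy)
      (hF T hT j) (hF' T hT) T hTm z hz
    simpa using h1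
  have hA : Tendsto (fun j => A j T z) atTop (𝓝 (A' T z)) := by
    rw [tendsto_iff_norm_sub_tendsto_zero]
    refine squeeze_zero (fun j => norm_nonneg _) hstab ?_
    have h2 := ((hε.const_mul C).const_mul (Real.exp (L * T))).mul_const T
    simpa using h2
  have h3 : Tendsto (fun j => w (j + 1) T z) atTop (𝓝 (w0 (A' T z))) := by
    have h4 := (hw0.smooth.continuous.tendsto (A' T z)).comp hA
    refine h4.congr (fun j => ?_)
    rw [hs j]
    rfl
  have h5 : Tendsto (fun j => w j T z) atTop (𝓝 (w' T z)) := by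
    rw [tendsto_iff_dist_tendsto_zero]
    refine squeeze_zero (fun j => dist_nonneg) (fun j => ?_) hε
    rw [Real.dist_eq]
    exact hd j T hTm z hz
  exact tendsto_nhds_unique ((tendsto_add_atTop_iff_nat 1).2 h5) h3

end Pool.Agent.EAC
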