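import Pool.Agent.EAC.X4

/-!
# EAC-X5: existence of the solution with cut off coefficients (iteration)

`w^0 t z = w0 z`; given `w^j` (a state on every `[0,T]`), `Φ^j, A^j` the flow of `VV D h lam w^j` (`vel_field`, `sflow_exists`), `w^{j+1} t z = w0 (A^j t z)`.
Uniform Hölder bounds: for every `T`, with `M = M(T)` of `vel_field`, `β_T = exp(-M T)`, `K_T = max (C Lip w0 exp(1+MT)) 1...`: `|w0(A z) - w0(A y)| ≤ Lip w0 ‖A z - A y‖` for
`‖z-y‖ ≤ 1` (`sflow_holder`), `≤ 1 ≤ ‖z-y‖^β` for `‖z-y‖ ≥ 1`; for `w^0` as well. The bound does not depend on the Hölder constant of `w^j`.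
Differences: `|w^{j+1} - w^j|(t,z) ≤ (C_T t)^j / j!` on `[0,T]` (`vel_diff`, `sflow_stab` with `L` from `vel_lip`, `|w0(A)-w0(A')| ≤ Lip w0 ‖A - A'‖`). Hence uniform convergence on `[0,T] × S h`
to `w`, a state; `Φ, A` the flow of `VV D h lam w`; `‖A^j - A‖ → 0` (`vel_diff`, `sflow_stab` with `n = 0`), so `w t z = w0 (A t z)`.

THIS FILE: step_holder.
-/

set_option autoImplicit false

noncomputable section

namespace Pool.Agent.EAC


open MeasureTheory Set Filter Topology Metric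
open scoped ENNReal ComplexConjugate

/-- values in `[0,1]` differ by at most `1`. -/
theorem step_holder_aux {w0 : ℂ → ℝ} (hw0 : NiceInit w0) {β K r : ℝ} (hβ : 0 < β) (hK1 : 1 ≤ K)
    {x y : ℂ} (hs : r ≤ 1 → |w0 x - w0 y| ≤ K * r ^ β) :
    |w0 x - w0 y| ≤ K * r ^ β := by
  rcases le_total r 1 with h1 | h1
  · exact hs h1
  · have h2 : (1 : ℝ) ≤ r ^ β := Real.one_le_rpow h1 hβ.le
    have h3 : |w0 x - w0 y| ≤ 1 := by
      have hx := hw0.range x
      have hy := hw0.range y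
      rw [abs_le]
      constructor <;> linarith [hx.1, hx.2, hy.1, hy.2]
    calc |w0 x - w0 y| ≤ 1 * 1 := by rw [one_mul]; exact h3
      _ ≤ K * r ^ β := by
        apply mul_le_mul hK1 h2 zero_le_one (by linarith)

/-- one step of the iteration: Hölder bounds independent of the previous iterate. -/
theorem step_holder {D h lam T : ℝ} (hh : 0 < h) (hh1 : h ≤ 1) (hT : 0 ≤ T) {w0 : ℂ → ℝ}
    (hw0 : NiceInit w0) :
    ∃ β K : ℝ, 0 < β ∧ β ≤ 1 ∧ 0 ≤ K ∧ St T h β K (fun _ => w0) ∧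
      ∀ (β' K' : ℝ) (w : ℝ → ℂ → ℝ) (Φ A : ℝ → ℂ → ℂ), 0 < β' → β' ≤ 1 → St T h β' K' w →
        SFlow T h (VV D h lam w) Φ A → St T h β K (fun t z => w0 (A t z)) := by
  obtain ⟨M, hM0, hM⟩ := vel_field (D := D) (lam := lam) hh hh1 hT
  obtain ⟨L, hL0, hL⟩ := nice_lip hw0
  have hMT : 0 ≤ M * T := mul_nonneg hM0 hT
  set β : ℝ := Real.exp (-M * T) with hβdef
  have hβ0 : 0 < β := Real.exp_pos _
  have hβ1 : β ≤ 1 := by
    rw [hβdef, Real.exp_le_one_iff]
    linarith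
  set K : ℝ := L * Real.exp (1 + M * T) + 1 with hKdef
  have hE : 1 ≤ Real.exp (1 + M * T) := Real.one_le_exp (by linarith)
  have hLE : L ≤ L * Real.exp (1 + M * T) := by nlinarith
  have hK1 : 1 ≤ K := by linarith
  have hcw0 : Continuous w0 := hw0.smooth.continuous
  refine ⟨β, K, hβ0, hβ1, by linarith, ?_, ?_⟩
  · refine ⟨(hcw0.comp continuous_snd).continuousOn, fun t _ z _ => hw0.per z,
      fun t _ z _ => hw0.range z, fun t _ z _ y _ => ?_⟩
    refine step_holder_aux hw0 hβ0 hK1 (fun h1 => ?_)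
    have h2 : ‖z - y‖ ≤ ‖z - y‖ ^ β := by
      rcases (norm_nonneg (z - y)).eq_or_lt with h0 | h0
      · rw [← h0, Real.zero_rpow hβ0.ne']
      · calc ‖z - y‖ = ‖z - y‖ ^ (1 : ℝ) := (Real.rpow_one _).symm
          _ ≤ ‖z - y‖ ^ β := Real.rpow_le_rpow_of_exponent_ge h0 h1 hβ1
    calc |w0 z - w0 y| ≤ L * ‖z - y‖ := hL z y
      _ ≤ K * ‖z - y‖ ^ β := mul_le_mul (by linarith) h2 (norm_nonneg _) (by linarith)
  · intro β' K' w Φ A hβ' hβ'1 hw hF
    obtain ⟨hV, hlog⟩ := hM β' K' w hβ' hβ'1 hw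
    have hA := (sflow_cont hT hV hF).2
    refine ⟨hcw0.comp_continuousOn hA, fun t ht z hz => ?_, fun t _ z _ => hw0.range _,
      fun t ht z hz y hy => ?_⟩
    · show w0 (A t (z + 2 * Real.pi)) = w0 (A t z)
      rw [hF.shiftA t ht z hz, hw0.per]
    · refine step_holder_aux hw0 hβ0 hK1 (fun h1 => ?_)
      have h2 := sflow_holder hT hM0 hV hlog hF t ht z hz y hy h1
      calc |w0 (A t z) - w0 (A t y)| ≤ L * ‖A t z - A t y‖ := hL _ _
        _ ≤ L * (Real.exp (1 + M * T) * ‖z - y‖ ^ β) := mul_le_mul_of_nonneg_left h2 hL0.le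
        _ = (L * Real.exp (1 + M * T)) * ‖z - y‖ ^ β := by ring
        _ ≤ K * ‖z - y‖ ^ β :=
          mul_le_mul_of_nonneg_right (by linarith) (Real.rpow_nonneg (norm_nonneg _) _)

end Pool.Agent.EAC
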