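import Pool.Agent.EAC.X4

/-!
# EAC-X6: support of the vorticity: distance from the corners, distance from `J`

`supp_corner`: `u(t) = ‖sin(Φ t x)‖`, `w0 x ≠ 0`, so `u(0) ≥ |sin Re x| ≥ d₀`. `|u'| ≤ ‖cos‖ ‖VV‖ ≤ C₁ u (1 + max 0 (-log u))` (`vel_speed`, `‖cos‖ ≤ cosh 1`), `C₁` independent of `D`.
So `y = 1 + max 0 (-log u)` satisfies `y(t) ≤ y(0) e^{C₁ t}` (supersolution argument), `u(t) ≥ exp(-y₀ e^{C₁ t})`, `y₀ = 1 + max 0 (-log d₀)`; take `D = C₁ + y₀ + 1`:
`2 (dd D t)² ≤ u(t)²` for all `t ≥ 0`.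
`supp_J`: the set `K₀ = {ζ ∈ S h, 0 ≤ Re ζ ≤ 2π, d₀ ≤ sin Re ζ}` is compact and contains the support of `w0` modulo `2π`; `(t,x) ↦ Φ t x` is continuous on `[0,T] × K₀`;
its image is compact and does not meet the closed set `{Im ζ = 0, sin Re ζ ≤ 0}`: if `Im (Φ t x) = 0` then `Im x = 0`, and on the line `Im = 0` the corners (`sin = 0`) are fixed
(`VV = 0` there), so `sin Re` keeps its sign along the trajectory (intermediate value theorem + uniqueness). A compact set and a closed set which is disjoint have positive distance; if `sin Re ζ ≤ 0` then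
`Re ζ` belongs to the closed set, and `Im ζ = ‖ζ - Re ζ‖`.

THIS FILE: supp_corner.
-/

set_option autoImplicit false

noncomputable section

namespace Pool.Agent.EAC


open MeasureTheory Set Filter Topology Metric
open scoped ENNReal ComplexConjugate

theorem norm_cos_le_cosh (z : ℂ) : ‖Complex.cos z‖ ≤ Real.cosh z.im := by
  have h1 : Complex.cos z = (Complex.exp (z * Complex.I) + Complex.exp (-z * Complex.I)) / 2 := rfl
  rw [h1, norm_div, Complex.norm_ofNat, Real.cosh_eq]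
  have h2 : ‖Complex.exp (z * Complex.I) + Complex.exp (-z * Complex.I)‖ ≤
      Real.exp (-z.im) + Real.exp z.im := by
    refine (norm_add_le _ _).trans (le_of_eq ?_)
    rw [Complex.norm_exp, Complex.norm_exp]
    simp
  rw [add_comm (Real.exp z.im)]
  gcongr

theorem abs_sin_re_le_norm (z : ℂ) : |Real.sin z.re| ≤ ‖Complex.sin z‖ := by
  have h1 : (Complex.sin z).re = Real.sin z.re * Real.cosh z.im := by
    rw [Complex.sin_eq z]
    simp [← Complex.ofReal_sin, ← Complex.ofReal_cos, ← Complex.ofReal_cosh, ← Complex.ofReal_sinh]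
  have h2 := Complex.abs_re_le_norm (Complex.sin z)
  rw [h1, abs_mul, abs_of_pos (Real.cosh_pos _)] at h2
  have h3 := Real.one_le_cosh z.im
  nlinarith [abs_nonneg (Real.sin z.re)]

theorem supp_corner {h lam : ℝ} (hh : 0 < h) (hh1 : h ≤ 1) {w0 : ℂ → ℝ} (hw0 : NiceInit w0) :
    ∃ D > 0, ∀ (w : ℝ → ℂ → ℝ) (Φ A : ℝ → ℂ → ℂ),
      (∀ T, 0 ≤ T → ∃ β K : ℝ, 0 < β ∧ β ≤ 1 ∧ 0 ≤ K ∧ St T h β K w) →
      (∀ T, 0 ≤ T → SFlow T h (VV D h lam w) Φ A) →
      ∀ t, 0 ≤ t → ∀ x ∈ S h, w0 x ≠ 0 → 2 * dd D t ^ 2 ≤ ‖Complex.sin (Φ t x)‖ ^ 2 := by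
  obtain ⟨d0, hd0, hd⟩ := hw0.supp
  obtain ⟨C, hC, hCv⟩ := vel_speed (lam := lam) hh hh1
  set C0 : ℝ := Real.cosh 1 * C with hC0
  have hC0pos : 0 < C0 := mul_pos (Real.cosh_pos _) hC
  set C1 : ℝ := 2 * C0 + 1 with hC1
  have hC1pos : 0 < C1 := by positivity
  set y0 : ℝ := 1 + max 0 (-Real.log d0) with hy0
  have hy01 : 1 ≤ y0 := by
    have := le_max_left 0 (-Real.log d0)
    linarith
  refine ⟨C1 + y0 + 1, by positivity, ?_⟩
  intro w Φ A hSt hfl t ht x hx hwx
  set m2 : ℝ → ℝ := fun τ => Real.exp (-(2 * y0) * Real.exp (C1 * τ)) with hm2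
  -- the barrier
  have hbar : m2 t ≤ ‖Complex.sin (Φ t x)‖ ^ 2 := by
    have hF := hfl t ht
    obtain ⟨β, K, hβ, hβ1, hK, hS⟩ := hSt t ht
    have hderiv : ∀ τ ∈ Icc 0 t, HasDerivWithinAt (fun τ => ‖Complex.sin (Φ τ x)‖ ^ 2)
        (2 * inner ℝ (Complex.sin (Φ τ x))
          (Complex.cos (Φ τ x) * VV (C1 + y0 + 1) h lam w τ (Φ τ x))) (Icc 0 t) τ := by
      intro τ hτ
      have h1 := hF.deriv τ hτ x hx
      have h2 := (Complex.hasDerivAt_sin (Φ τ x)).comp_hasDerivWithinAt τ h1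
      exact h2.norm_sq
    have hmd : ∀ τ, HasDerivAt m2 (m2 τ * (-(2 * y0) * (Real.exp (C1 * τ) * C1))) τ := by
      intro τ
      have h1 : HasDerivAt (fun τ => Real.exp (C1 * τ)) (Real.exp (C1 * τ) * C1) τ := by
        have := ((hasDerivAt_id τ).const_mul C1).exp
        simpa using this
      exact (h1.const_mul (-(2 * y0))).exp
    have key := image_le_of_deriv_right_lt_deriv_boundary
      (f := fun τ => -‖Complex.sin (Φ τ x)‖ ^ 2)
      (f' := fun τ => -(2 * inner ℝ (Complex.sin (Φ τ x))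
          (Complex.cos (Φ τ x) * VV (C1 + y0 + 1) h lam w τ (Φ τ x))))
      (a := 0) (b := t) (B := fun τ => -m2 τ)
      (B' := fun τ => -(m2 τ * (-(2 * y0) * (Real.exp (C1 * τ) * C1))))
      (fun τ hτ => (hderiv τ hτ).neg.continuousWithinAt)
      (fun τ hτ => ?_) ?_ (fun τ => (hmd τ).neg) (fun τ hτ heq => ?_)
    · have := key (right_mem_Icc.2 ht)
      linarith
    · have h1 := (hderiv τ ⟨hτ.1, hτ.2.le⟩).neg
      exact (h1.mono (Icc_subset_Icc_left hτ.1)).mono_of_mem_nhdsWithin (Icc_mem_nhdsGE hτ.2)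
    · rw [hF.init x hx]
      have h1 : d0 ≤ ‖Complex.sin x‖ := (hd x hwx).trans ((le_abs_self _).trans (abs_sin_re_le_norm x))
      have h2 : m2 0 ≤ d0 ^ 2 := by
        simp only [hm2, mul_zero, Real.exp_zero, mul_one]
        have h3 : -(2 * y0) ≤ 2 * Real.log d0 := by
          have := le_max_right 0 (-Real.log d0)
          linarith
        calc Real.exp (-(2 * y0)) ≤ Real.exp (2 * Real.log d0) := Real.exp_le_exp.2 h3
          _ = d0 ^ 2 := by
            rw [show 2 * Real.log d0 = Real.log d0 + Real.log d0 by ring, Real.exp_add,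
              Real.exp_log hd0]
            ring
      have h4 : d0 ^ 2 ≤ ‖Complex.sin x‖ ^ 2 := by gcongr
      linarith
    · set u : ℝ := ‖Complex.sin (Φ τ x)‖ with hu
      set V : ℂ := VV (C1 + y0 + 1) h lam w τ (Φ τ x) with hV
      have hτ' : τ ∈ Icc 0 t := ⟨hτ.1, hτ.2.le⟩
      have hmem := hF.mem τ hτ' x hx
      have hVle : ‖V‖ ≤ C * u * (1 + max 0 (-Real.log u)) :=
        hCv (C1 + y0 + 1) t β K w hβ hβ1 hS τ hτ' _ hmem
      have hcos : ‖Complex.cos (Φ τ x)‖ ≤ Real.cosh 1 := by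
        refine (norm_cos_le_cosh _).trans ?_
        rw [Real.cosh_le_cosh, abs_of_nonneg hmem.1, abs_one]
        exact hmem.2.trans hh1
      have hu2 : u ^ 2 = m2 τ := by linarith
      have hm2pos : 0 < m2 τ := Real.exp_pos _
      have hu0 : 0 ≤ u := norm_nonneg _
      have hupos : 0 < u := by
        rcases hu0.lt_or_eq with h1 | h1
        · exact h1
        · rw [← h1] at hu2; norm_num at hu2; linarith
      have hlog : -Real.log u = y0 * Real.exp (C1 * τ) := by
        have h1 : Real.log (u ^ 2) = -(2 * y0) * Real.exp (C1 * τ) := by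
          rw [hu2]; exact Real.log_exp _
        rw [Real.log_pow] at h1
        push_cast at h1
        linarith
      set E : ℝ := y0 * Real.exp (C1 * τ) with hE
      have hE1 : 1 ≤ E := by
        have h1 : 1 ≤ Real.exp (C1 * τ) := Real.one_le_exp (mul_nonneg hC1pos.le hτ.1)
        calc (1 : ℝ) = 1 * 1 := by ring
          _ ≤ y0 * Real.exp (C1 * τ) := by gcongr
      rw [hlog, max_eq_right (by linarith)] at hVle
      have hinner : -(u * (Real.cosh 1 * (C * u * (1 + E)))) ≤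
          inner ℝ (Complex.sin (Φ τ x)) (Complex.cos (Φ τ x) * V) := by
        have h1 := abs_real_inner_le_norm (Complex.sin (Φ τ x)) (Complex.cos (Φ τ x) * V)
        have h2 : ‖Complex.cos (Φ τ x) * V‖ ≤ Real.cosh 1 * (C * u * (1 + E)) := by
          rw [norm_mul]
          have := Real.cosh_pos 1
          gcongr
        have h3 : ‖Complex.sin (Φ τ x)‖ * ‖Complex.cos (Φ τ x) * V‖ ≤
            u * (Real.cosh 1 * (C * u * (1 + E))) := by rw [← hu]; gcongr
        linarith [neg_abs_le (inner ℝ (Complex.sin (Φ τ x)) (Complex.cos (Φ τ x) * V))]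
      have h5 : u * (Real.cosh 1 * (C * u * (1 + E))) = C0 * m2 τ * (1 + E) := by
        rw [← hu2, hC0]; ring
      rw [h5] at hinner
      have h6 : C0 * m2 τ * (1 + E) ≤ C0 * m2 τ * (2 * E) := by
        have : 0 < C0 * m2 τ := mul_pos hC0pos hm2pos
        gcongr
        linarith
      have h7 : m2 τ * (-(2 * y0) * (Real.exp (C1 * τ) * C1)) = -(2 * m2 τ * E * C1) := by
        rw [hE]; ring
      rw [h7]
      have h8 : 2 * m2 τ * E * C1 = 2 * (C0 * m2 τ * (2 * E)) + 2 * m2 τ * E := by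
        rw [hC1]; ring
      have h9 : 0 < 2 * m2 τ * E := by positivity
      linarith
  refine le_trans ?_ hbar
  simp only [hm2, dd]
  rw [← Real.exp_nat_mul]
  have hl2 : Real.log 2 ≤ 1 := by
    have := Real.log_two_lt_d9
    linarith
  have hexp2 : (2 : ℝ) = Real.exp (Real.log 2) := (Real.exp_log (by norm_num)).symm
  have h10 : Real.exp (C1 * t) ≤ Real.exp ((C1 + y0 + 1) * t) := by
    apply Real.exp_le_exp.2
    have : 0 ≤ y0 + 1 := by linarith
    nlinarith
  have h11 : 1 ≤ Real.exp (C1 * t) := Real.one_le_exp (mul_nonneg hC1pos.le ht)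
  have h12 : 2 * Real.exp (((2 : ℕ) : ℝ) * (-(C1 + y0 + 1) * Real.exp ((C1 + y0 + 1) * t))) =
      Real.exp (Real.log 2 + ((2 : ℕ) : ℝ) * (-(C1 + y0 + 1) * Real.exp ((C1 + y0 + 1) * t))) := by
    rw [Real.exp_add, Real.exp_log (by norm_num)]
  rw [h12]
  apply Real.exp_le_exp.2
  push_cast
  have h13 : (y0 + 1) * Real.exp (C1 * t) ≤ (C1 + y0 + 1) * Real.exp ((C1 + y0 + 1) * t) := by
    have : y0 + 1 ≤ C1 + y0 + 1 := by linarith
    have h0 : 0 ≤ y0 + 1 := by linarith
    gcongr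
  nlinarith

end Pool.Agent.EAC
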