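import Pool.Agent.EAC.X1
import Pool.Agent.EAC.R4
import Pool.Agent.EAC.S5

/-!
# EAC-X8: bootstrap: the vorticity is of class `CC n` for all `n`

`boot`: `w ∈ CC n` ⇒ `f = rr w ∈ CC n` (`aa_CC`, `CC_mul`) ⇒ `W[f] ∈ CC (n+1)` (`W_CC`), `Lam` continuous in `t` (`CC_of_time`) ⇒ `VV ∈ CC (n+1)`
(conjugation is a real linear map) ⇒ `A - id ∈ CC (n+1)` (`CC_flow_inv` with the `StripFlow` obtained from `SFlow`: the open strip is invariant by `bot`, `top`) ⇒
`w = w0 (z + (A - id)) ∈ CC (n+1)` (`CC_comp`, `nice_CC`). Base case `n = 0`: `St`.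

THIS FILE: Lam_contT, SFlow.toStripFlow, VV_CC.
-/

set_option autoImplicit false

noncomputable section

namespace Pool.Agent.EAC


open MeasureTheory Set Filter Topology Metric
open scoped ENNReal ComplexConjugate

/-- the part of a period of the strip inside the open strip. -/
theorem x8_meas (h : ℝ) : MeasurableSet (Sper h ∩ U h) := by
  have h1 : MeasurableSet (U h) := (isOpen_U h).measurableSet
  have h2 : MeasurableSet (Sper h) := by
    have e : Sper h = ({z : ℂ | 0 ≤ z.re} ∩ {z : ℂ | z.re < 2 * Real.pi}) ∩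
        ({z : ℂ | 0 ≤ z.im} ∩ {z : ℂ | z.im ≤ h}) := by
      ext z
      constructor
      · rintro ⟨a, b, c, d⟩; exact ⟨⟨a, b⟩, c, d⟩
      · rintro ⟨⟨a, b⟩, c, d⟩; exact ⟨a, b, c, d⟩
    rw [e]
    exact ((measurableSet_le measurable_const Complex.measurable_re).inter
      (measurableSet_lt Complex.measurable_re measurable_const)).inter
      ((measurableSet_le measurable_const Complex.measurable_im).inter
      (measurableSet_le Complex.measurable_im measurable_const))
  exact h2.inter h1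

theorem x8_ae (h : ℝ) : (Sper h : Set ℂ) =ᵐ[volume] (Sper h ∩ U h : Set ℂ) := by
  refine ae_eq_set.2 ⟨?_, ?_⟩
  · refine measure_mono_null ?_ (vol_S_diff_U h)
    rintro z ⟨hz, hz'⟩
    exact ⟨⟨hz.2.2.1, hz.2.2.2⟩, fun hu => hz' ⟨hz, hu⟩⟩
  · refine measure_mono_null (t := ∅) ?_ measure_empty
    rintro z ⟨hz, hz'⟩
    exact (hz' hz.1).elim

theorem x8_vol (h : ℝ) : volume (Sper h ∩ U h) < ⊤ := by
  have hb : Bornology.IsBounded (Sper h ∩ U h) := by
    refine (isBounded_iff_forall_norm_le).2 ⟨2 * Real.pi + |h|, ?_⟩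
    rintro z ⟨⟨h1, h2, h3, h4⟩, -⟩
    refine (Complex.norm_le_abs_re_add_abs_im z).trans (add_le_add ?_ ?_)
    · rw [abs_of_nonneg h1]; exact h2.le
    · rw [abs_of_nonneg h3]; exact h4.trans (le_abs_self h)
  exact hb.measure_lt_top

theorem Lam_contT {T h lam : ℝ} (hh : 0 < h) {f : ℝ → ℂ → ℝ} (hf : CC T h 0 f) :
    ContinuousOn (fun t => Lam h lam (f t)) (Icc 0 T) := by
  unfold Lam
  refine continuousOn_const.add (continuousOn_const.mul ?_)
  have e : (fun t => ∫ w in Sper h, w.im * f t w) = fun t => ∫ w in Sper h ∩ U h, w.im * f t w := by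
    funext t
    exact setIntegral_congr_set (x8_ae h)
  rw [e]
  obtain ⟨b, hb0, hb⟩ := CC_bdd hf
  refine continuousOn_of_dominated (bound := fun _ => h * b) ?_ ?_ ?_ ?_
  · intro t ht
    have hc : ContinuousOn (f t) (U h) :=
      (CC_cont hf).comp (f := fun z : ℂ => (t, z)) (by fun_prop) (fun _ hz => ⟨ht, hz⟩)
    have hc' : ContinuousOn (fun w : ℂ => w.im * f t w) (Sper h ∩ U h) :=
      Complex.continuous_im.continuousOn.mul (hc.mono inter_subset_right)
    exact hc'.aestronglyMeasurable (x8_meas h)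
  · intro t ht
    refine (ae_restrict_iff' (x8_meas h)).2 (Eventually.of_forall ?_)
    rintro w ⟨-, hw⟩
    rw [norm_mul, Real.norm_eq_abs, abs_of_pos hw.1]
    exact mul_le_mul hw.2.le (hb t ht w hw) (norm_nonneg _) hh.le
  · haveI : IsFiniteMeasure (volume.restrict (Sper h ∩ U h)) := ⟨by
      rw [Measure.restrict_apply_univ]; exact x8_vol h⟩
    exact integrable_const _
  · refine (ae_restrict_iff' (x8_meas h)).2 (Eventually.of_forall ?_)
    rintro w ⟨-, hw⟩
    exact continuousOn_const.mul ((CC_cont hf).comp (f := fun t : ℝ => (t, w)) (by fun_prop)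
      (fun _ ht => ⟨ht, hw⟩))

theorem SFlow.toStripFlow {T h : ℝ} {V Φ A : ℝ → ℂ → ℂ} (hF : SFlow T h V Φ A) :
    StripFlow T h V Φ A := by
  have hUS : U h ⊆ S h := fun z hz => ⟨hz.1.le, hz.2.le⟩
  refine ⟨fun z hz => hF.init z (hUS hz), ?_, ?_, fun t ht z hz => hF.left t ht z (hUS hz),
    fun t ht z hz => hF.right t ht z (hUS hz), fun t ht z hz => hF.deriv t ht z (hUS hz)⟩
  · intro t ht z hz
    have h1 := hF.mem t ht z (hUS hz)
    refine ⟨lt_of_le_of_ne h1.1 fun e => ?_, lt_of_le_of_ne h1.2 fun e => ?_⟩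
    · exact hz.1.ne' ((hF.bot t ht z (hUS hz)).1 e.symm)
    · exact hz.2.ne ((hF.top t ht z (hUS hz)).1 e)
  · intro t ht z hz
    have h1 := hF.memA t ht z (hUS hz)
    have h2 := hF.right t ht z (hUS hz)
    refine ⟨lt_of_le_of_ne h1.1 fun e => ?_, lt_of_le_of_ne h1.2 fun e => ?_⟩
    · have := (hF.bot t ht _ h1).2 e.symm
      rw [h2] at this
      exact hz.1.ne' this
    · have := (hF.top t ht _ h1).2 e
      rw [h2] at this
      exact hz.2.ne this

theorem VV_CC {D T h lam : ℝ} (hh : 0 < h) (n : ℕ) {w : ℝ → ℂ → ℝ} (hw : CC T h n w) :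
    CC T h (n + 1) (VV D h lam w) := by
  have hf : CC T h n (fun t x => rr D t x * w t x) := CC_mul (aa_CC D T hh n).2 hw
  have hW : CC T h (n + 1) (fun t z => W h (fun x => rr D t x * w t x) z) := W_CC hh n hf
  let L : ℂ →L[ℝ] ℂ := (ContinuousLinearMap.mul ℝ ℂ Complex.I).comp
    (Complex.conjCLE : ℂ →L[ℝ] ℂ)
  have hLW : CC T h (n + 1) (fun t z => L (W h (fun x => rr D t x * w t x) z)) := CC_clm L hW
  have hLam : CC T h (n + 1) (fun t _ => -((Lam h lam (fun x => rr D t x * w t x) : ℝ) : ℂ)) := by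
    refine CC_of_time (n + 1) ?_
    exact (Complex.continuous_ofReal.comp_continuousOn (Lam_contT hh (CC_zero_of hf))).neg
  have hall := CC_smul (aa_CC D T hh (n + 1)).1 (CC_add hLam hLW)
  refine CC_congr hall fun t ht z hz => ?_
  simp only [VV, Vel, Complex.real_smul]
  rfl

end Pool.Agent.EAC
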