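import Pool.Agent.EAC.Strip
import Pool.Agent.EAC.GDefs

/-!
# EAC, PART X: definitions
-/

set_option autoImplicit false

noncomputable section

namespace Pool.Agent.EAC

open MeasureTheory Set Filter Topology Metric
open scoped ENNReal ComplexConjugate

/-- radius of the cutoff near the corners. -/
def dd (D t : ℝ) : ℝ := Real.exp (-D * Real.exp (D * t))

/-- cutoff: `0` if `‖sin ζ‖ ≤ dd D t`, `1` if `‖sin ζ‖² ≥ 2 (dd D t)²`. -/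
def cut (D t : ℝ) (ζ : ℂ) : ℝ :=
  Real.smoothTransition (Complex.normSq (Complex.sin ζ) / dd D t ^ 2 - 1)

/-- cut off coefficients. -/
def aa (D t : ℝ) (ζ : ℂ) : ℝ := mm ζ * cut D t ζ
def rr (D t : ℝ) (ζ : ℂ) : ℝ := rho ζ * cut D t ζ

/-- velocity field on the closed strip: continuous, bounded, Lipschitz, tangent, periodic. -/
structure FieldOK (T h : ℝ) (V : ℝ → ℂ → ℂ) : Prop where
  cont : ContinuousOn (fun p : ℝ × ℂ => V p.1 p.2) (Icc 0 T ×ˢ S h)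
  bdd : ∃ B : ℝ, ∀ t ∈ Icc 0 T, ∀ z ∈ S h, ‖V t z‖ ≤ B
  lip : ∃ L : ℝ, 0 ≤ L ∧ ∀ t ∈ Icc 0 T, ∀ z ∈ S h, ∀ w ∈ S h, ‖V t z - V t w‖ ≤ L * ‖z - w‖
  tan : ∀ t ∈ Icc 0 T, ∀ z ∈ S h, z.im = 0 ∨ z.im = h → (V t z).im = 0
  per : ∀ t ∈ Icc 0 T, ∀ z ∈ S h, V t (z + 2 * Real.pi) = V t z

/-- flow on the closed strip and its inverse. -/
structure SFlow (T h : ℝ) (V Φ A : ℝ → ℂ → ℂ) : Prop where
  init : ∀ z ∈ S h, Φ 0 z = z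
  mem : ∀ t ∈ Icc 0 T, ∀ z ∈ S h, Φ t z ∈ S h
  memA : ∀ t ∈ Icc 0 T, ∀ z ∈ S h, A t z ∈ S h
  left : ∀ t ∈ Icc 0 T, ∀ z ∈ S h, A t (Φ t z) = z
  right : ∀ t ∈ Icc 0 T, ∀ z ∈ S h, Φ t (A t z) = z
  deriv : ∀ t ∈ Icc 0 T, ∀ z ∈ S h, HasDerivWithinAt (fun τ => Φ τ z) (V t (Φ t z)) (Icc 0 T) t
  bot : ∀ t ∈ Icc 0 T, ∀ z ∈ S h, ((Φ t z).im = 0 ↔ z.im = 0)
  top : ∀ t ∈ Icc 0 T, ∀ z ∈ S h, ((Φ t z).im = h ↔ z.im = h)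
  shift : ∀ t ∈ Icc 0 T, ∀ z ∈ S h, Φ t (z + 2 * Real.pi) = Φ t z + 2 * Real.pi
  shiftA : ∀ t ∈ Icc 0 T, ∀ z ∈ S h, A t (z + 2 * Real.pi) = A t z + 2 * Real.pi

/-- vorticity on `[0,T]`. -/
structure St (T h β K : ℝ) (w : ℝ → ℂ → ℝ) : Prop where
  cont : ContinuousOn (fun p : ℝ × ℂ => w p.1 p.2) (Icc 0 T ×ˢ S h)
  per : ∀ t ∈ Icc 0 T, ∀ z ∈ S h, w t (z + 2 * Real.pi) = w t z
  range : ∀ t ∈ Icc 0 T, ∀ z ∈ S h, 0 ≤ w t z ∧ w t z ≤ 1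
  holder : ∀ t ∈ Icc 0 T, ∀ z ∈ S h, ∀ y ∈ S h, |w t z - w t y| ≤ K * ‖z - y‖ ^ β

/-- the cut off velocity field of the vorticity `w`. -/
def VV (D h lam : ℝ) (w : ℝ → ℂ → ℝ) (t : ℝ) (z : ℂ) : ℂ :=
  Vel h lam (aa D t) (fun x => rr D t x * w t x) z

end Pool.Agent.EAC
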