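import Pool.Agent.EAC.ZDefs
import Pool.Agent.EAC.S5
import Pool.Agent.EAC.R2
import Pool.Agent.EAC.Geo

/-!
# EAC-ZB1: the fields `G t = -i Λ t + W h (f t)`

`FieldZ T h f G`: all the properties of `G` used later. `fieldZ_of`: `S2` (`W_cont`, `W_per`, `W_conj`, `W_re`, `W_bound`, `BM_of_continuousOn` with `CC_cont`, `CC_bdd`),
`deriv`: `W_CC_deriv` (or `W_fderiv`; `f'` from the definition of `CC T h 1`), `DW h f f' z = lin (W h (f' · 1) z) (f z)` (`ContinuousLinearMap.ext`, an element of `ℂ` is `re + im i`).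
`lip`: the derivative of `W h (f t)` is bounded on `U h` uniformly in `t` (`CC_lip` for `W_CC`), so `G t` is Lipschitz on `U h`, and on `S h` by continuity
(`S h ⊆ closure (U h)`: `LipschitzOnWith.closure`-type argument, or pass to the limit along `ζ + i ε (h/2 - Im ζ)`).
`FieldZ.contS2`: `G t` is continuous on the double strip `S2 h` (closed sets `0 ≤ Im`, `Im ≤ 0`; `cj`; on `Im = 0` the value is purely imaginary so the two definitions agree).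
-/

set_option autoImplicit false

noncomputable section

namespace Pool.Agent.EAC

open MeasureTheory Set Filter Topology Metric
open scoped ENNReal ComplexConjugate
open Geo hiding isOpen_Oset mem_Oset

structure FieldZ (T h : ℝ) (f : ℝ → ℂ → ℝ) (G : ℝ → ℂ → ℂ) : Prop where
  cont : ∀ t ∈ Icc 0 T, ContinuousOn (G t) (S h)
  per : ∀ t ∈ Icc 0 T, ∀ ζ, G t (ζ + 2 * Real.pi) = G t ζ
  cj : ∀ t ∈ Icc 0 T, ∀ ζ, G t (conj ζ) = -conj (G t ζ)
  re0 : ∀ t ∈ Icc 0 T, ∀ ζ : ℂ, ζ.im = 0 ∨ ζ.im = h → (G t ζ).re = 0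
  deriv : ∀ t ∈ Icc 0 T, ∀ ζ ∈ U h, ∃ a, HasFDerivAt (G t) (lin a (f t ζ)) ζ
  lip : ∃ C : ℝ, 0 ≤ C ∧ ∀ t ∈ Icc 0 T, (∀ ζ ∈ S h, ‖G t ζ‖ ≤ C) ∧
    ∀ ζ ∈ S h, ∀ ζ' ∈ S h, ‖G t ζ - G t ζ'‖ ≤ C * ‖ζ - ζ'‖

theorem FieldZ.per_int {T h : ℝ} {f : ℝ → ℂ → ℝ} {G : ℝ → ℂ → ℂ} (hG : FieldZ T h f G) {t : ℝ}
    (ht : t ∈ Icc 0 T) (ζ : ℂ) (n : ℤ) : G t (ζ + 2 * Real.pi * n) = G t ζ := by
  have h1 : Function.Periodic (G t) (2 * (Real.pi : ℂ)) := fun z => hG.per t ht z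
  have h2 := h1.int_mul n ζ
  rw [mul_comm ((n : ℤ) : ℂ)] at h2
  exact h2

theorem FieldZ.contS2 {T h : ℝ} {f : ℝ → ℂ → ℝ} {G : ℝ → ℂ → ℂ} (hG : FieldZ T h f G) {t : ℝ}
    (ht : t ∈ Icc 0 T) : ContinuousOn (G t) (S2 h) := by
  have hS : IsClosed (S h) := s3c_isClosed_S h
  have hcj : Continuous (fun z : ℂ => conj z) := Complex.continuous_conj
  have h1 : ContinuousOn (G t) ((fun z : ℂ => conj z) ⁻¹' S h) := by
    have h2 : ContinuousOn (fun z : ℂ => -conj (G t (conj z))) ((fun z : ℂ => conj z) ⁻¹' S h) := by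
      have h3 : ContinuousOn (fun z : ℂ => G t (conj z)) ((fun z : ℂ => conj z) ⁻¹' S h) :=
        (hG.cont t ht).comp hcj.continuousOn (fun z hz => hz)
      exact (hcj.comp_continuousOn h3).neg
    refine h2.congr (fun z _ => ?_)
    have h4 := hG.cj t ht (conj z)
    rw [Complex.conj_conj] at h4
    exact h4
  have h5 := (hG.cont t ht).union_of_isClosed h1 hS (hS.preimage hcj)
  refine h5.mono (fun z hz => ?_)
  rcases le_total 0 z.im with h6 | h6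
  · exact Or.inl ⟨h6, hz.2⟩
  · refine Or.inr ⟨?_, ?_⟩
    · rw [Complex.conj_im]; linarith
    · rw [Complex.conj_im]; linarith [hz.1]

theorem fieldZ_of {T h : ℝ} (hh : 0 < h) {f : ℝ → ℂ → ℝ} {Λ : ℝ → ℝ} (hf : CC T h 1 f)
    (hper : ∀ t ∈ Icc 0 T, ∀ ζ ∈ S h, f t (ζ + 2 * Real.pi) = f t ζ)
    (hΛ : ∃ C : ℝ, ∀ t ∈ Icc 0 T, |Λ t| ≤ C) :
    FieldZ T h f (fun t ζ => -Complex.I * (Λ t : ℂ) + W h (f t) ζ) := by
  obtain ⟨B, hB0, hB⟩ := CC_bdd hf
  have hBf : ∀ t ∈ Icc 0 T, ∀ w ∈ U h, |f t w| ≤ B := fun t ht w hw => by simpa using hB t ht w hw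
  have hBM : ∀ t ∈ Icc 0 T, BM h (f t) B := by
    intro t ht
    refine BM_of_continuousOn ?_ (hBf t ht)
    have h2 := CC_cont hf
    have h3 : ContinuousOn (fun z : ℂ => ((t, z) : ℝ × ℂ)) (U h) := by fun_prop
    exact h2.comp h3 (fun w hw => ⟨ht, hw⟩)
  have hcont : ∀ t ∈ Icc 0 T, ContinuousOn (fun ζ => -Complex.I * (Λ t : ℂ) + W h (f t) ζ) (S h) :=
    fun t ht => continuousOn_const.add (W_cont hh (hBM t ht))
  have hf' := hf
  obtain ⟨-, -, f', hd, hf1⟩ := hf'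
  have hder := W_CC_deriv hh hd hf1 hf
  have hlin : ∀ t ∈ Icc 0 T, ∀ z ∈ U h, HasFDerivAt (fun ζ => -Complex.I * (Λ t : ℂ) + W h (f t) ζ)
      (lin (W h (fun w => f' t w 1) z) (f t z)) z := by
    intro t ht z hz
    have h1 := (hder t ht z hz).const_add (-Complex.I * (Λ t : ℂ))
    have e : DW h (f t) (f' t) z = lin (W h (fun w => f' t w 1) z) (f t z) := by
      refine ContinuousLinearMap.ext fun x => ?_
      rw [lin_apply]
      have h2 : x = (x.re : ℂ) + (x.im : ℂ) * Complex.I := (Complex.re_add_im x).symm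
      have h3 : (DW h (f t) (f' t) z) x = (x.re : ℂ) * W h (fun w => f' t w 1) z +
          (x.im : ℂ) * (Complex.I * (W h (fun w => f' t w 1) z + (f t z : ℂ))) := by
        simp [DW]
      rw [h3]
      conv_rhs => rw [h2]
      simp only [Complex.add_im, Complex.mul_im, Complex.ofReal_im, Complex.ofReal_re, Complex.I_im,
        Complex.I_re, mul_one, mul_zero, zero_add, add_zero]
      ring
    rw [e] at h1
    exact h1
  have hCC := W_CC hh 1 hf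
  obtain ⟨-, -, D, hD, hD'⟩ := CC_succ_def.1 hCC
  obtain ⟨M, hM0, hM⟩ := CC_bdd hD'
  obtain ⟨C₁, hC₁, hW⟩ := W_bound
  obtain ⟨C₂, hC₂⟩ := hΛ
  refine ⟨hcont, ?_, ?_, ?_, ?_, ?_⟩
  · intro t ht ζ
    show -Complex.I * (Λ t : ℂ) + W h (f t) (ζ + 2 * Real.pi) = _
    rw [W_per (hper t ht)]
  · intro t ht ζ
    show -Complex.I * (Λ t : ℂ) + W h (f t) (conj ζ) = -conj (-Complex.I * (Λ t : ℂ) + W h (f t) ζ)
    rw [W_conj, map_add, map_mul, map_neg, Complex.conj_I, Complex.conj_ofReal]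
    ring
  · intro t ht ζ hζ
    show (-Complex.I * (Λ t : ℂ) + W h (f t) ζ).re = 0
    rw [Complex.add_re, W_re hh (f t) hζ]
    simp
  · intro t ht ζ hζ
    exact ⟨_, hlin t ht ζ hζ⟩
  · refine ⟨max M (|C₂| + C₁ * h * B), le_trans hM0 (le_max_left _ _), fun t ht => ⟨?_, ?_⟩⟩
    · intro ζ hζ
      have h1 := hW h hh (f t) B (hBM t ht) ζ hζ
      have h2 := hC₂ t ht
      refine le_trans ?_ (le_max_right _ _)
      calc ‖-Complex.I * (Λ t : ℂ) + W h (f t) ζ‖ ≤ ‖-Complex.I * (Λ t : ℂ)‖ + ‖W h (f t) ζ‖ :=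
            norm_add_le _ _
        _ ≤ |C₂| + C₁ * h * B := by
            have h3 : ‖-Complex.I * (Λ t : ℂ)‖ = |Λ t| := by
              rw [norm_mul, norm_neg, Complex.norm_I, one_mul, Complex.norm_real, Real.norm_eq_abs]
            rw [h3]
            exact add_le_add (h2.trans (le_abs_self _)) h1
    · intro ζ hζ ζ' hζ'
      have h1 := lip_S hh (W_cont hh (hBM t ht)) (fun z hz => hD t ht z hz)
        (fun z hz => hM t ht z hz) ζ hζ ζ' hζ'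
      have e : (-Complex.I * (Λ t : ℂ) + W h (f t) ζ) - (-Complex.I * (Λ t : ℂ) + W h (f t) ζ')
          = W h (f t) ζ - W h (f t) ζ' := by ring
      show ‖(-Complex.I * (Λ t : ℂ) + W h (f t) ζ) - (-Complex.I * (Λ t : ℂ) + W h (f t) ζ')‖ ≤ _
      rw [e]
      exact h1.trans (mul_le_mul_of_nonneg_right (le_max_left _ _) (norm_nonneg _))

/-- composition with `zet`. -/
theorem FieldZ.cont_zet {T h : ℝ} (hh : 0 < h) (hh1 : h ≤ 1) {f : ℝ → ℂ → ℝ} {G : ℝ → ℂ → ℂ}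
    (hG : FieldZ T h f G) {t : ℝ} (ht : t ∈ Icc 0 T) :
    ContinuousOn (fun z => G t (zet z)) (dom h) := by
  have hsub : ∀ z ∈ dom h, zet z ∈ S2 h := fun z hz => abs_le.mp (abs_zet_im_le hh1 hz)
  intro z₀ hz₀
  refine continuousWithinAt_comp_zet (S' := S2 h) (qA_ne_zero hh1 hz₀) (qB_ne_zero hh1 hz₀)
    (hG.contS2 ht (zet z₀) (hsub z₀ hz₀)) ?_ (fun ζ _ n => hG.per_int ht ζ n) hz₀ hsub
  intro ζ hζ n
  have h1 : (ζ + 2 * (Real.pi : ℂ) * (n : ℂ)).im = ζ.im := by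
    simp
  show -h ≤ (ζ + 2 * (Real.pi : ℂ) * (n : ℂ)).im ∧ (ζ + 2 * (Real.pi : ℂ) * (n : ℂ)).im ≤ h
  rw [h1]
  exact hζ

end Pool.Agent.EAC
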