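import Pool.Agent.EAC.ZB2a

/-!
# EAC-ZB2: regularity of `Tot`, `ft`, `Tott` for a `StripSol`

`Tot_field`: `fieldZ_of` with `f = fr w`; `hw.smooth`, `hw.per`, `rho_add_two_pi`.
`Tot_CC`: `W_CC`, `CC_of_time`, `CC_add`.
`ft_CC`: on `U h` `ft` is a sum of products (`CC_congr`); `(t,ζ) ↦ fderiv ℝ (w t) ζ` is `CC n` (`CC_deriv`, `CC_clm` for the evaluation at `1`, `i`); `re`, `im` of `Tot`: `CC_clm`.
`ft_per`: on `U h` `w t (· + 2π) = w t` near `ζ`, so the derivatives agree.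
-/

set_option autoImplicit false

noncomputable section

namespace Pool.Agent.EAC

open MeasureTheory Set Filter Topology Metric
open scoped ENNReal ComplexConjugate
open Geo hiding isOpen_Oset mem_Oset

theorem fr_CC {h lam : ℝ} {w : ℝ → ℂ → ℝ} {Φ : ℝ → ℂ → ℂ} (hw : StripSol h lam w Φ) {T : ℝ}
    (hT : 0 < T) (n : ℕ) : CC T h n (fr w) := (hw.smooth T hT n).2

theorem fr_per {h lam : ℝ} {w : ℝ → ℂ → ℝ} {Φ : ℝ → ℂ → ℂ} (hw : StripSol h lam w Φ) {t : ℝ}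
    (ht : 0 ≤ t) {ζ : ℂ} (hζ : ζ ∈ S h) : fr w t (ζ + 2 * Real.pi) = fr w t ζ := by
  unfold fr; rw [rho_add_two_pi, hw.per t ht ζ hζ]

private theorem zb2_BM {T h : ℝ} {f : ℝ → ℂ → ℝ} (hf : CC T h 0 f) :
    ∃ B : ℝ, 0 ≤ B ∧ ∀ t ∈ Icc 0 T, BM h (f t) B := by
  obtain ⟨B, hB0, hB⟩ := CC_bdd hf
  refine ⟨B, hB0, fun t ht => BM_of_continuousOn ?_ (fun w hw => by simpa using hB t ht w hw)⟩
  have h3 : ContinuousOn (fun z : ℂ => ((t, z) : ℝ × ℂ)) (U h) := by fun_prop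
  exact (CC_cont hf).comp h3 (fun w hw => ⟨ht, hw⟩)

theorem Tot_field {h lam : ℝ} (hh : 0 < h) {w : ℝ → ℂ → ℝ} {Φ : ℝ → ℂ → ℂ}
    (hw : StripSol h lam w Φ) {T : ℝ} (hT : 0 < T) : FieldZ T h (fr w) (Tot h lam w) := by
  obtain ⟨B, hB0, hB⟩ := zb2_BM (fr_CC hw hT 0)
  refine fieldZ_of hh (fr_CC hw hT 1) (fun t ht ζ hζ => fr_per hw ht.1 hζ)
    (Λ := fun t => Lam h lam (fr w t)) ⟨|lam| + h * B, fun t ht => ?_⟩
  exact (abs_add_le _ _).trans (add_le_add_right (Lam_bd (lam := lam) hh _ B (hB t ht)) _)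

theorem Tot_CC {h lam : ℝ} (hh : 0 < h) {w : ℝ → ℂ → ℝ} {Φ : ℝ → ℂ → ℂ}
    (hw : StripSol h lam w Φ) {T : ℝ} (hT : 0 < T) (n : ℕ) : CC T h n (Tot h lam w) := by
  have h1 := CC_succ (W_CC hh n (fr_CC hw hT n))
  have h2 : ContinuousOn (fun t => -Complex.I * ((Lam h lam (fr w t) : ℝ) : ℂ)) (Icc 0 T) :=
    continuousOn_const.mul
      (Complex.continuous_ofReal.comp_continuousOn (Lam_cont' hh (fr_CC hw hT 0)))
  exact CC_add (CC_of_time n h2) h1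

private theorem zb2_diff {h lam : ℝ} {w : ℝ → ℂ → ℝ} {Φ : ℝ → ℂ → ℂ}
    (hw : StripSol h lam w Φ) {T : ℝ} (hT : 0 < T) : ∀ t ∈ Icc 0 T, ∀ z ∈ U h,
      HasFDerivAt (w t) (fderiv ℝ (w t) z) z := by
  intro t ht z hz
  obtain ⟨_, _, D, hD, _⟩ := (hw.smooth T hT 1).1
  exact (hD t ht z hz).differentiableAt.hasFDerivAt

theorem ft_CC {h lam : ℝ} (hh : 0 < h) {w : ℝ → ℂ → ℝ} {Φ : ℝ → ℂ → ℂ}
    (hw : StripSol h lam w Φ) {T : ℝ} (hT : 0 < T) (n : ℕ) : CC T h n (ft h lam w) := by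
  have h1 : CC T h n (fun t z => fderiv ℝ (w t) z) :=
    CC_deriv (hw.smooth T hT (n + 1)).1 (zb2_diff hw hT)
  have h2 : CC T h n (fun t z => fderiv ℝ (w t) z 1) :=
    CC_clm (ContinuousLinearMap.apply ℝ ℝ (1 : ℂ)) h1
  have h3 : CC T h n (fun t z => fderiv ℝ (w t) z Complex.I) :=
    CC_clm (ContinuousLinearMap.apply ℝ ℝ Complex.I) h1
  have h4 : CC T h n (fun t z => (Tot h lam w t z).im) := CC_clm Complex.imCLM (Tot_CC hh hw hT n)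
  have h5 : CC T h n (fun t z => (Tot h lam w t z).re) := CC_clm Complex.reCLM (Tot_CC hh hw hT n)
  refine CC_congr (CC_add (CC_neg (CC_mul h2 h4)) (CC_neg (CC_mul h3 h5))) ?_
  intro t _ z hz
  rw [ft, if_pos hz, sub_eq_add_neg]

private theorem zb2_U {h : ℝ} {ζ : ℂ} : ζ + 2 * Real.pi ∈ U h ↔ ζ ∈ U h := by
  have : (ζ + 2 * Real.pi).im = ζ.im := by
    rw [Complex.add_im]
    have : (2 * (Real.pi : ℂ)).im = 0 := by simp
    rw [this, add_zero]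
  simp only [U, Set.mem_ofPred_eq, this]

theorem ft_per {h lam : ℝ} (hh : 0 < h) {w : ℝ → ℂ → ℝ} {Φ : ℝ → ℂ → ℂ}
    (hw : StripSol h lam w Φ) {t : ℝ} (ht : 0 ≤ t) (ζ : ℂ) :
    ft h lam w t (ζ + 2 * Real.pi) = ft h lam w t ζ := by
  by_cases hζ : ζ ∈ U h
  · have hT : (0 : ℝ) < t + 1 := by linarith
    have hper := (Tot_field hh hw hT).per t ⟨ht, by linarith⟩ ζ
    have hd : fderiv ℝ (w t) (ζ + 2 * Real.pi) = fderiv ℝ (w t) ζ := by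
      rw [← fderiv_comp_add_right]
      apply Filter.EventuallyEq.fderiv_eq
      filter_upwards [(isOpen_U h).mem_nhds hζ] with z hz
      exact hw.per t ht z ⟨hz.1.le, hz.2.le⟩
    rw [ft, ft, if_pos (zb2_U.2 hζ), if_pos hζ, hper, hd]
  · rw [ft, ft, if_neg (fun h' => hζ (zb2_U.1 h')), if_neg hζ]

theorem Tott_field {h lam : ℝ} (hh : 0 < h) {w : ℝ → ℂ → ℝ} {Φ : ℝ → ℂ → ℂ}
    (hw : StripSol h lam w Φ) {T : ℝ} (hT : 0 < T) :
    FieldZ T h (ft h lam w) (Tott h lam w) := by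
  obtain ⟨B, hB0, hB⟩ := zb2_BM (ft_CC hh hw hT 0)
  exact fieldZ_of hh (ft_CC hh hw hT 1) (fun t ht ζ _ => ft_per hh hw ht.1 ζ)
    (Λ := fun t => Lamt h lam w t) ⟨h * B, fun t ht => Lam_bd (lam := lam) hh _ B (hB t ht)⟩

end Pool.Agent.EAC
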