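import Pool.Agent.EAC.ZB1

/-!
# EAC-ZB2a: `Lam` of a bounded density

`Lam_bd`: `Sper h` has finite measure `2π h`, `|Im| ≤ h` on it, `Sper h \ U h` is a null set (horizontal lines; `vol_S_diff_U`). `Lam_cont'`: dominated convergence
(`CC_cont`, `CC_bdd`; or `continuousOn` version `MeasureTheory.continuousWithinAt_of_dominated`).
-/

set_option autoImplicit false

noncomputable section

namespace Pool.Agent.EAC

open MeasureTheory Set Filter Topology Metric
open scoped ENNReal ComplexConjugate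
open Geo hiding isOpen_Oset mem_Oset

private theorem zb2a_Sper_eq (h : ℝ) : Sper h =
    Complex.measurableEquivRealProd ⁻¹' (Ico 0 (2 * Real.pi) ×ˢ Icc 0 h) := by
  ext z
  simp [Sper, Complex.measurableEquivRealProd, and_assoc]

private theorem zb2a_Sper_meas (h : ℝ) : MeasurableSet (Sper h) := by
  rw [zb2a_Sper_eq]
  exact Complex.measurableEquivRealProd.measurable (measurableSet_Ico.prod measurableSet_Icc)

private theorem zb2a_vol {h : ℝ} (hh : 0 < h) :
    volume (Sper h) = ENNReal.ofReal (2 * Real.pi * h) := by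
  rw [zb2a_Sper_eq, Complex.volume_preserving_equiv_real_prod.measure_preimage
    (measurableSet_Ico.prod measurableSet_Icc).nullMeasurableSet]
  rw [Measure.volume_eq_prod, Measure.prod_prod, Real.volume_Ico, Real.volume_Icc,
    ← ENNReal.ofReal_mul (by linarith [Real.pi_pos])]
  congr 1
  ring

private theorem zb2a_null (h : ℝ) : volume (Sper h \ U h) = 0 := by
  refine measure_mono_null (t := S h \ U h) ?_ (vol_S_diff_U h)
  intro z hz
  exact ⟨⟨hz.1.2.2.1, hz.1.2.2.2⟩, hz.2⟩

private theorem zb2a_restrict (h : ℝ) :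
    (volume : Measure ℂ).restrict (Sper h) = (volume : Measure ℂ).restrict (Sper h ∩ U h) := by
  apply Measure.restrict_congr_set
  refine ae_eq_set.mpr ⟨?_, ?_⟩
  · rw [sdiff_self_inter]
    exact zb2a_null h
  · rw [sdiff_eq_empty.mpr inter_subset_left]
    exact measure_empty

private theorem zb2a_meas_inter (h : ℝ) : MeasurableSet (Sper h ∩ U h) :=
  (zb2a_Sper_meas h).inter (isOpen_U h).measurableSet

private theorem zb2a_ae {h : ℝ} {p : ℂ → Prop} (hp : ∀ z ∈ Sper h ∩ U h, p z) :
    ∀ᵐ z ∂((volume : Measure ℂ).restrict (Sper h)), p z := by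
  rw [zb2a_restrict, ae_restrict_iff' (zb2a_meas_inter h)]
  exact Eventually.of_forall hp

private theorem zb2a_bound {h B : ℝ} {f : ℂ → ℝ} (hB : ∀ w ∈ U h, |f w| ≤ B) :
    ∀ z ∈ Sper h ∩ U h, ‖z.im * f z‖ ≤ h * B := by
  rintro z ⟨_, hz⟩
  rw [norm_mul, Real.norm_eq_abs, Real.norm_eq_abs, abs_of_pos hz.1]
  exact mul_le_mul hz.2.le (hB z hz) (abs_nonneg _) (hz.1.trans hz.2).le

theorem Lam_bd {h lam : ℝ} (hh : 0 < h) : ∀ (f : ℂ → ℝ) (B : ℝ), BM h f B →
    |(1 / (2 * Real.pi * h)) * ∫ ζ in Sper h, ζ.im * f ζ| ≤ h * B := by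
  intro f B hf
  have hpi := Real.pi_pos
  have h1 : ‖∫ ζ in Sper h, ζ.im * f ζ‖ ≤ h * B * volume.real (Sper h) := by
    apply norm_setIntegral_le_of_norm_le_const_ae
    · rw [zb2a_vol hh]
      exact ENNReal.ofReal_lt_top
    · exact zb2a_ae (zb2a_bound hf.2)
  have h2 : volume.real (Sper h) = 2 * Real.pi * h := by
    rw [Measure.real, zb2a_vol hh, ENNReal.toReal_ofReal (by positivity)]
  rw [h2, Real.norm_eq_abs] at h1
  rw [abs_mul, abs_of_pos (by positivity : (0 : ℝ) < 1 / (2 * Real.pi * h))]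
  calc 1 / (2 * Real.pi * h) * |∫ ζ in Sper h, ζ.im * f ζ|
      ≤ 1 / (2 * Real.pi * h) * (h * B * (2 * Real.pi * h)) :=
        mul_le_mul_of_nonneg_left h1 (by positivity)
    _ = h * B := by field_simp

theorem Lam_cont' {T h lam : ℝ} (hh : 0 < h) {f : ℝ → ℂ → ℝ} (hf : CC T h 0 f) :
    ContinuousOn (fun t => Lam h lam (f t)) (Icc 0 T) := by
  obtain ⟨B, hB0, hB⟩ := CC_bdd hf
  have hc := CC_cont hf
  have key : ContinuousOn (fun t => ∫ w in Sper h, w.im * f t w) (Icc 0 T) := by
    intro t₀ ht₀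
    apply continuousWithinAt_of_dominated (bound := fun _ => h * B)
    · filter_upwards [self_mem_nhdsWithin] with t ht
      rw [zb2a_restrict]
      apply ContinuousOn.aestronglyMeasurable _ (zb2a_meas_inter h)
      apply ContinuousOn.mul Complex.continuous_im.continuousOn
      exact hc.comp (f := fun z : ℂ => (t, z)) (by fun_prop) (fun z hz => ⟨ht, hz.2⟩)
    · filter_upwards [self_mem_nhdsWithin] with t ht
      exact zb2a_ae (zb2a_bound (fun w hw => by simpa using hB t ht w hw))
    · have : volume (Sper h) ≠ ⊤ := by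
        rw [zb2a_vol hh]
        exact ENNReal.ofReal_ne_top
      exact integrableOn_const this
    · apply zb2a_ae
      intro z hz
      have h1 : ContinuousOn (fun t => f t z) (Icc 0 T) :=
        hc.comp (f := fun t : ℝ => (t, z)) (by fun_prop) (fun t ht => ⟨ht, hz.2⟩)
      exact (h1 t₀ ht₀).const_mul _ |>.congr (fun _ _ => rfl) rfl
  unfold Lam
  exact continuousOn_const.add (continuousOn_const.mul key)

end Pool.Agent.EAC
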