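import Pool.Agent.EAC.ZB2

/-!
# EAC-ZC1: the transport equation in strip coordinates

`w_time`: `x = ζ ∈ U h`, `Φ t ζ₀ = x` (`hw.bij`), `y τ = Φ τ ζ₀` (`hw.flow`, derivative `V = Vel .. x` at `τ = t`), `w τ (y τ) = w 0 ζ₀ = w t x` (`hw.cons`). So
`w τ x - w t x = -(w τ (y τ) - w τ x)`, and with the derivative `G' τ` of `w τ` (`CC T h 1`, jointly continuous on `[0,T] × U h`)
`‖w τ (y τ) - w τ x - G' t x (y τ - x)‖ ≤ sup_{ξ ∈ [x, y τ]} ‖G' τ ξ - G' t x‖ ‖y τ - x‖ = o(|τ - t|)` (`Convex.norm_image_sub_le_of_norm_hasFDerivWithin_le'` on a small ball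
around `x` inside `U h`). Write everything with `isLittleO`/`hasDerivWithinAt_iff_isLittleO`.
`fr_time`: multiply by `rho ζ`; `Vel_eq`, `rho_mul_mm` (`U_subset_Oset`): `- rho mm Dw(i conj Tot)`, `i conj Tot = Im Tot + i Re Tot`.
-/

set_option autoImplicit false

noncomputable section

namespace Pool.Agent.EAC

open MeasureTheory Set Filter Topology Metric
open scoped ENNReal ComplexConjugate
open Geo hiding isOpen_Oset mem_Oset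

theorem w_time {h lam : ℝ} (hh : 0 < h) {w : ℝ → ℂ → ℝ} {Φ : ℝ → ℂ → ℂ}
    (hw : StripSol h lam w Φ) {T : ℝ} (hT : 0 < T) {t : ℝ} (ht : t ∈ Icc 0 T) {ζ : ℂ} (hζ : ζ ∈ U h) :
    HasDerivWithinAt (fun τ => w τ ζ)
      (-(fderiv ℝ (w t) ζ (Vel h lam mm (fun x => rho x * w t x) ζ))) (Icc 0 T) t := by
  have hζS : ζ ∈ S h := ⟨hζ.1.le, hζ.2.le⟩
  obtain ⟨ζ₀, hζ₀, hΦ⟩ := (hw.bij t ht.1).surjOn hζS
  obtain ⟨_, _, G', hG', hG'0⟩ := (hw.smooth T hT 1).1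
  obtain ⟨hGc, _⟩ := hG'0
  have hfl := hw.flow t ht.1 ζ₀ hζ₀
  rw [hΦ] at hfl
  have hfl2 : HasDerivWithinAt (fun τ => Φ τ ζ₀)
      (Vel h lam mm (fun x => rho x * w t x) ζ) (Icc 0 T) t :=
    hfl.mono Icc_subset_Ici_self
  set V := Vel h lam mm (fun x => rho x * w t x) ζ with hV
  have hfd : fderiv ℝ (w t) ζ = G' t ζ := (hG' t ht ζ hζ).fderiv
  rw [hfd]
  have hyc : Tendsto (fun τ => Φ τ ζ₀) (𝓝[Icc 0 T] t) (𝓝 ζ) := by
    have := hfl2.continuousWithinAt.tendsto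
    rwa [hΦ] at this
  have hopen : IsOpen (U h) := by
    have h1 : IsOpen {z : ℂ | 0 < z.im} := isOpen_lt continuous_const Complex.continuous_im
    have h2 : IsOpen {z : ℂ | z.im < h} := isOpen_lt Complex.continuous_im continuous_const
    exact h1.inter h2
  obtain ⟨r, hr, hrU⟩ := Metric.isOpen_iff.1 hopen ζ hζ
  have key : (fun τ => w τ (Φ τ ζ₀) - w τ ζ - G' t ζ (Φ τ ζ₀ - ζ)) =o[𝓝[Icc 0 T] t]
      fun τ => Φ τ ζ₀ - ζ := by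
    rw [Asymptotics.isLittleO_iff]
    intro ε hε
    have hcw := hGc (t, ζ) ⟨ht, hζ⟩
    rw [Metric.continuousWithinAt_iff] at hcw
    obtain ⟨δ, hδ, hδ'⟩ := hcw ε hε
    have e1 : ∀ᶠ τ in 𝓝[Icc 0 T] t, dist (Φ τ ζ₀) ζ < min δ r :=
      (Metric.tendsto_nhds.1 hyc) _ (lt_min hδ hr)
    have e2 : ∀ᶠ τ in 𝓝[Icc 0 T] t, τ ∈ Icc (0:ℝ) T := self_mem_nhdsWithin
    have e3 : ∀ᶠ τ in 𝓝[Icc 0 T] t, dist τ t < δ :=
      (Metric.tendsto_nhds.1 (tendsto_nhdsWithin_of_tendsto_nhds tendsto_id)) _ hδ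
    filter_upwards [e1, e2, e3] with τ h1 h2 h3
    have hb : ∀ ξ ∈ ball ζ (min δ r), ‖G' τ ξ - G' t ζ‖ ≤ ε := by
      intro ξ hξ
      have hξU : ξ ∈ U h := hrU (ball_subset_ball (min_le_right _ _) hξ)
      have hd : dist ((τ, ξ) : ℝ × ℂ) (t, ζ) < δ := by
        rw [Prod.dist_eq]
        exact max_lt h3 (lt_of_lt_of_le (mem_ball.1 hξ) (min_le_left _ _))
      have := hδ' (show ((τ, ξ) : ℝ × ℂ) ∈ Icc 0 T ×ˢ U h from ⟨h2, hξU⟩) hd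
      rw [dist_eq_norm] at this
      exact this.le
    have hmv := (convex_ball ζ (min δ r)).norm_image_sub_le_of_norm_hasFDerivWithin_le'
      (f := w τ) (f' := G' τ) (φ := G' t ζ) (C := ε)
      (fun ξ hξ => (hG' τ h2 ξ (hrU (ball_subset_ball (min_le_right _ _) hξ))).hasFDerivWithinAt)
      hb (mem_ball_self (lt_min hδ hr)) (mem_ball.2 h1)
    exact hmv
  have hO : (fun τ => Φ τ ζ₀ - ζ) =O[𝓝[Icc 0 T] t] fun τ => τ - t := by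
    have := hfl2.hasFDerivWithinAt.isBigO_sub
    rwa [hΦ] at this
  have key2 : (fun τ => w τ (Φ τ ζ₀) - w τ ζ - G' t ζ (Φ τ ζ₀ - ζ)) =o[𝓝[Icc 0 T] t]
      fun τ => τ - t := key.trans_isBigO hO
  have hd1 : HasDerivWithinAt (fun τ => w τ (Φ τ ζ₀) - w τ ζ - G' t ζ (Φ τ ζ₀ - ζ)) 0
      (Icc 0 T) t := by
    rw [hasDerivWithinAt_iff_isLittleO]
    have : (fun x' => w x' (Φ x' ζ₀) - w x' ζ - G' t ζ (Φ x' ζ₀ - ζ) -
        (w t (Φ t ζ₀) - w t ζ - G' t ζ (Φ t ζ₀ - ζ)) - (x' - t) • (0:ℝ)) =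
        (fun τ => w τ (Φ τ ζ₀) - w τ ζ - G' t ζ (Φ τ ζ₀ - ζ)) := by
      funext x'
      rw [hΦ]; simp
    rw [this]
    exact key2
  have hd2 : HasDerivWithinAt (fun τ => G' t ζ (Φ τ ζ₀ - ζ)) (G' t ζ V) (Icc 0 T) t :=
    (G' t ζ).hasFDerivAt.comp_hasDerivWithinAt t (hfl2.sub_const ζ)
  have hd3 : HasDerivWithinAt (fun τ => w τ (Φ τ ζ₀) - w τ ζ) (0 + G' t ζ V) (Icc 0 T) t := by
    refine (hd1.add hd2).congr (fun τ _ => ?_) ?_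
    · simp
    · simp
  have hd4 : HasDerivWithinAt (fun τ => w t ζ - (w τ (Φ τ ζ₀) - w τ ζ)) (-(0 + G' t ζ V))
      (Icc 0 T) t := hd3.const_sub (w t ζ)
  have hc0 : w t ζ = w 0 ζ₀ := by rw [← hΦ]; exact hw.cons t ht.1 ζ₀ hζ₀
  have hd5 : HasDerivWithinAt (fun τ => w τ ζ) (-(0 + G' t ζ V)) (Icc 0 T) t := by
    refine hd4.congr (fun τ hτ => ?_) ?_
    · rw [hw.cons τ hτ.1 ζ₀ hζ₀, hc0]; ring
    · rw [hw.cons t ht.1 ζ₀ hζ₀, hc0]; ring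
  simpa using hd5

theorem fr_time {h lam : ℝ} (hh : 0 < h) {w : ℝ → ℂ → ℝ} {Φ : ℝ → ℂ → ℂ}
    (hw : StripSol h lam w Φ) {T : ℝ} (hT : 0 < T) {t : ℝ} (ht : t ∈ Icc 0 T) {ζ : ℂ} (hζ : ζ ∈ U h) :
    HasDerivWithinAt (fun τ => fr w τ ζ) (ft h lam w t ζ) (Icc 0 T) t := by
  have h1 := (w_time hh hw hT ht hζ).const_mul (rho ζ)
  have h2 : rho ζ * mm ζ = 1 := rho_mul_mm (U_subset_Oset h hζ)
  have h3 : ft h lam w t ζ =
      rho ζ * (-(fderiv ℝ (w t) ζ (Vel h lam mm (fun x => rho x * w t x) ζ))) := by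
    rw [Vel_eq, ft, if_pos hζ]
    have h4 : (mm ζ : ℂ) * (Complex.I * conj (Tot h lam w t ζ)) =
        (mm ζ * (Tot h lam w t ζ).im) • (1 : ℂ) + (mm ζ * (Tot h lam w t ζ).re) • Complex.I := by
      apply Complex.ext <;> simp
    rw [h4, map_add, map_smul, map_smul, smul_eq_mul, smul_eq_mul]
    linear_combination (-(fderiv ℝ (w t) ζ 1 * (Tot h lam w t ζ).im) -
      fderiv ℝ (w t) ζ Complex.I * (Tot h lam w t ζ).re) * (-h2)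
  rw [h3]
  exact h1

end Pool.Agent.EAC
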