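import Pool.Agent.EAC.ZDefs

/-!
# EAC-ZG5: generic lemma: derivative under the integral sign within `[0,T]`

`hasDerivWithinAt_iff_tendsto_slope'`/`hasDerivWithinAt_iff_tendsto_slope` and dominated convergence
(`MeasureTheory.tendsto_integral_filter_of_dominated_convergence`, the filter `𝓝[Icc 0 T \ {t}] t` is countably generated);
the slopes are bounded by `bound a` by the mean value inequality on the convex set `Icc 0 T`
(`Convex.norm_image_sub_le_of_norm_hasDerivWithin_le`), their limit is `F' t a`. Integrability of `F τ` from `hint` at all times.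
-/

set_option autoImplicit false

noncomputable section

namespace Pool.Agent.EAC

open MeasureTheory Set Filter Topology Metric
open scoped ENNReal ComplexConjugate

theorem hasDerivWithinAt_integral {α E : Type} [MeasurableSpace α] [NormedAddCommGroup E]
    [NormedSpace ℝ E] [CompleteSpace E] {μ : Measure α} {T : ℝ} {F F' : ℝ → α → E} {bound : α → ℝ}
    (hint : ∀ t ∈ Icc 0 T, Integrable (F t) μ)
    (hd : ∀ᵐ a ∂μ, ∀ t ∈ Icc 0 T, HasDerivWithinAt (fun τ => F τ a) (F' t a) (Icc 0 T) t)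
    (hb : ∀ᵐ a ∂μ, ∀ t ∈ Icc 0 T, ‖F' t a‖ ≤ bound a) (hbi : Integrable bound μ)
    {t : ℝ} (ht : t ∈ Icc 0 T) :
    HasDerivWithinAt (fun τ => ∫ a, F τ a ∂μ) (∫ a, F' t a ∂μ) (Icc 0 T) t := by
  rw [hasDerivWithinAt_iff_tendsto_slope]
  have hev : ∀ᶠ τ in 𝓝[Icc 0 T \ {t}] t, τ ∈ Icc 0 T \ {t} := self_mem_nhdsWithin
  have hI : ∀ τ ∈ Icc 0 T \ {t}, slope (fun τ => ∫ a, F τ a ∂μ) t τ
      = ∫ a, slope (fun τ => F τ a) t τ ∂μ := by
    intro τ hτ
    simp only [slope_def_module]
    rw [integral_smul, integral_sub (hint τ hτ.1) (hint t ht)]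
  have hmeas : ∀ τ ∈ Icc 0 T \ {t},
      AEStronglyMeasurable (fun a => slope (fun τ => F τ a) t τ) μ := by
    intro τ hτ
    simp only [slope_def_module]
    exact ((hint τ hτ.1).sub (hint t ht)).aestronglyMeasurable.const_smul _
  have hbd : ∀ τ ∈ Icc 0 T \ {t}, ∀ᵐ a ∂μ, ‖slope (fun τ => F τ a) t τ‖ ≤ bound a := by
    intro τ hτ
    filter_upwards [hd, hb] with a had hba
    have h1 : ‖F τ a - F t a‖ ≤ bound a * ‖τ - t‖ :=
      (convex_Icc (0:ℝ) T).norm_image_sub_le_of_norm_hasDerivWithin_le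
        (fun s hs => had s hs) (fun s hs => hba s hs) ht hτ.1
    have h2 : 0 < ‖τ - t‖ := by
      rw [norm_pos_iff, sub_ne_zero]
      exact hτ.2
    rw [slope_def_module, norm_smul, norm_inv, inv_mul_le_iff₀ h2, mul_comm]
    exact h1
  have key : Tendsto (fun τ => ∫ a, slope (fun τ => F τ a) t τ ∂μ) (𝓝[Icc 0 T \ {t}] t)
      (𝓝 (∫ a, F' t a ∂μ)) := by
    refine tendsto_integral_filter_of_dominated_convergence bound ?_ ?_ hbi ?_
    · filter_upwards [hev] with τ hτ using hmeas τ hτ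
    · filter_upwards [hev] with τ hτ using hbd τ hτ
    · filter_upwards [hd] with a had
      exact hasDerivWithinAt_iff_tendsto_slope.1 (had t ht)
  refine key.congr' ?_
  filter_upwards [hev] with τ hτ using (hI τ hτ).symm

end Pool.Agent.EAC
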