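import Pool.Agent.EAC.ZB1
import Pool.Agent.EAC.ZG5

/-!
# EAC-ZC2a: time derivative of `W`, `Lam`

`hasDerivWithinAt_integral` (ZG5) with `μ = volume.restrict (S h)` (resp. `Sper h`); the hypotheses on `U h` hold almost everywhere
(`vol_S_diff_U`); bound `B ‖ker h z w‖` integrable (`ker_int`). `Lam`: `Sper h \ U h` is a null set, `|Im| ≤ h`, finite measure.
-/

set_option autoImplicit false

noncomputable section

namespace Pool.Agent.EAC

open MeasureTheory Set Filter Topology Metric
open scoped ENNReal ComplexConjugate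
open Geo hiding isOpen_Oset mem_Oset

private theorem zc2a_ae {h : ℝ} : ∀ᵐ w ∂((volume : Measure ℂ).restrict (S h)), w ∈ U h := by
  rw [S2a_restrict]
  exact ae_restrict_mem (S2a_U_open h).measurableSet

private theorem zc2a_Sper_sub_S (h : ℝ) : Sper h ⊆ S h := fun _ hz => ⟨hz.2.2.1, hz.2.2.2⟩

private theorem zc2a_meas_Sper (h : ℝ) : MeasurableSet (Sper h) := by
  unfold Sper
  apply MeasurableSet.inter (measurableSet_le measurable_const Complex.measurable_re)
  apply MeasurableSet.inter (measurableSet_lt Complex.measurable_re measurable_const)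
  apply MeasurableSet.inter (measurableSet_le measurable_const Complex.measurable_im)
  exact measurableSet_le Complex.measurable_im measurable_const

private theorem zc2a_vol_Sper (h : ℝ) : volume (Sper h) < ⊤ := by
  have hb : Sper h ⊆ closedBall (0 : ℂ) (2 * Real.pi + |h|) := by
    intro z hz
    rw [mem_closedBall, dist_zero_right]
    have h1 := Complex.norm_le_abs_re_add_abs_im z
    have h2 : |z.re| ≤ 2 * Real.pi := by
      rw [abs_of_nonneg hz.1]
      exact hz.2.1.le
    have h3 : |z.im| ≤ |h| := by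
      rw [abs_of_nonneg hz.2.2.1]
      exact hz.2.2.2.trans (le_abs_self h)
    linarith
  exact (measure_mono hb).trans_lt measure_closedBall_lt_top

theorem W_hasDeriv {T h B : ℝ} (hh : 0 < h) {f g : ℝ → ℂ → ℝ} (hf : ∀ t ∈ Icc 0 T, BM h (f t) B)
    (hg : ∀ t ∈ Icc 0 T, BM h (g t) B)
    (hd : ∀ t ∈ Icc 0 T, ∀ ζ ∈ U h, HasDerivWithinAt (fun τ => f τ ζ) (g t ζ) (Icc 0 T) t)
    {z : ℂ} (hz : z ∈ S h) {t : ℝ} (ht : t ∈ Icc 0 T) :
    HasDerivWithinAt (fun τ => W h (f τ) z) (W h (g t) z) (Icc 0 T) t := by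
  obtain ⟨C, hC, hk⟩ := ker_int
  have h1 := (hk h hh z hz).1
  refine hasDerivWithinAt_integral (μ := (volume : Measure ℂ).restrict (S h))
    (F := fun τ w => (f τ w : ℂ) * ker h z w) (F' := fun τ w => (g τ w : ℂ) * ker h z w)
    (bound := fun w => B * ‖ker h z w‖) (fun s hs => W_integrable hh (hf s hs) hz) ?_ ?_
    (h1.norm.const_mul B) ht
  · filter_upwards [zc2a_ae (h := h)] with w hw s hs
    exact ((hd s hs w hw).ofReal_comp).mul_const _
  · filter_upwards [zc2a_ae (h := h)] with w hw s hs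
    rw [norm_mul, Complex.norm_real, Real.norm_eq_abs]
    exact mul_le_mul_of_nonneg_right ((hg s hs).2 w hw) (norm_nonneg _)

theorem Lam_hasDeriv {T h lam B : ℝ} (hh : 0 < h) {f g : ℝ → ℂ → ℝ} (hf : ∀ t ∈ Icc 0 T, BM h (f t) B)
    (hg : ∀ t ∈ Icc 0 T, BM h (g t) B)
    (hd : ∀ t ∈ Icc 0 T, ∀ ζ ∈ U h, HasDerivWithinAt (fun τ => f τ ζ) (g t ζ) (Icc 0 T) t)
    {t : ℝ} (ht : t ∈ Icc 0 T) :
    HasDerivWithinAt (fun τ => Lam h lam (f τ))
      ((1 / (2 * Real.pi * h)) * ∫ ζ in Sper h, ζ.im * g t ζ) (Icc 0 T) t := by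
  have hB : 0 ≤ B := S2a_B_nonneg hh (hf t ht)
  have hres : (volume : Measure ℂ).restrict (Sper h) ≤ (volume : Measure ℂ).restrict (S h) :=
    Measure.restrict_mono (zc2a_Sper_sub_S h) le_rfl
  have hae : ∀ᵐ w ∂((volume : Measure ℂ).restrict (Sper h)), w ∈ U h :=
    ae_mono hres (zc2a_ae (h := h))
  have hfin : IsFiniteMeasure ((volume : Measure ℂ).restrict (Sper h)) :=
    ⟨by rw [Measure.restrict_apply_univ]; exact zc2a_vol_Sper h⟩
  have hcong : (fun τ => Lam h lam (f τ)) = fun τ => lam + (1 / (2 * Real.pi * h)) *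
      ∫ ζ in Sper h, ζ.im * f τ ζ := rfl
  rw [hcong]
  refine HasDerivWithinAt.const_add _ (HasDerivWithinAt.const_mul _ ?_)
  refine hasDerivWithinAt_integral (μ := (volume : Measure ℂ).restrict (Sper h))
    (F := fun τ w => w.im * f τ w) (F' := fun τ w => w.im * g τ w)
    (bound := fun _ => h * B) ?_ ?_ ?_ (integrable_const _) ht
  · intro s hs
    refine Integrable.mono' (integrable_const (h * B)) ?_ ?_
    · exact (Complex.continuous_im.aestronglyMeasurable).mul ((hf s hs).1.mono_measure hres)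
    · filter_upwards [hae] with w hw
      rw [norm_mul, Real.norm_eq_abs, Real.norm_eq_abs, abs_of_pos hw.1]
      exact mul_le_mul hw.2.le ((hf s hs).2 w hw) (abs_nonneg _) hh.le
  · filter_upwards [hae] with w hw s hs
    exact (hd s hs w hw).const_mul _
  · filter_upwards [hae] with w hw s hs
    rw [norm_mul, Real.norm_eq_abs, Real.norm_eq_abs, abs_of_pos hw.1]
    exact mul_le_mul hw.2.le ((hg s hs).2 w hw) (abs_nonneg _) hh.le

end Pool.Agent.EAC
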