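import Pool.Agent.EAC.ZC1
import Pool.Agent.EAC.ZC2a

/-!
# EAC-ZC2: time derivative of `Tot`, `velZ`
-/

set_option autoImplicit false

noncomputable section

namespace Pool.Agent.EAC

open MeasureTheory Set Filter Topology Metric
open scoped ENNReal ComplexConjugate
open Geo hiding isOpen_Oset mem_Oset

private theorem zc2_BM {T h : ℝ} {f : ℝ → ℂ → ℝ} (hf : CC T h 0 f) :
    ∃ B, ∀ t ∈ Icc 0 T, BM h (f t) B := by
  obtain ⟨B, _, hB⟩ := CC_bdd hf
  refine ⟨B, fun t ht => BM_of_continuousOn ?_ (fun z hz => hB t ht z hz)⟩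
  exact (CC_cont hf).comp (f := fun z : ℂ => ((t, z) : ℝ × ℂ)) (by fun_prop) (fun z hz => ⟨ht, hz⟩)

private theorem zc2_Tot {h lam : ℝ} (hh : 0 < h) {w : ℝ → ℂ → ℝ} {Φ : ℝ → ℂ → ℂ}
    (hw : StripSol h lam w Φ) {T : ℝ} (hT : 0 < T) {t : ℝ} (ht : t ∈ Icc 0 T) {ζ : ℂ} (hζ : ζ ∈ S h) :
    HasDerivWithinAt (fun τ => Tot h lam w τ ζ) (Tott h lam w t ζ) (Icc 0 T) t := by
  obtain ⟨B1, hB1⟩ := zc2_BM (fr_CC hw hT 0)
  obtain ⟨B2, hB2⟩ := zc2_BM (ft_CC hh hw hT 0)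
  have hmono : ∀ {f : ℂ → ℝ} {B B' : ℝ}, B ≤ B' → BM h f B → BM h f B' :=
    fun hBB hf => ⟨hf.1, fun z hz => (hf.2 z hz).trans hBB⟩
  have hf : ∀ t ∈ Icc 0 T, BM h (fr w t) (max B1 B2) := fun t ht => hmono (le_max_left _ _) (hB1 t ht)
  have hg : ∀ t ∈ Icc 0 T, BM h (ft h lam w t) (max B1 B2) :=
    fun t ht => hmono (le_max_right _ _) (hB2 t ht)
  have hd : ∀ t ∈ Icc 0 T, ∀ ζ ∈ U h,
      HasDerivWithinAt (fun τ => fr w τ ζ) (ft h lam w t ζ) (Icc 0 T) t :=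
    fun t ht ζ hζ => fr_time hh hw hT ht hζ
  have h1 := W_hasDeriv hh hf hg hd hζ ht
  have h2 := Lam_hasDeriv (lam := lam) hh hf hg hd ht
  have h3 := (h2.ofReal_comp.const_mul (-Complex.I)).add h1
  exact h3

theorem velZ_time {h lam : ℝ} (hh : 0 < h) (hh1 : h ≤ 1) {w : ℝ → ℂ → ℝ} {Φ : ℝ → ℂ → ℂ}
    (hw : StripSol h lam w Φ) {T : ℝ} (hT : 0 < T) {t : ℝ} (ht : t ∈ Icc 0 T) {z : ℂ}
    (hz : z ∈ dom h) :
    HasDerivWithinAt (fun τ => velZ h lam (w τ) z)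
      (conj (-Complex.I * Tott h lam w t (zet z) * zp z)) (Icc 0 T) t := by
  have key : HasDerivWithinAt (fun τ => Tot h lam w τ (zet z)) (Tott h lam w t (zet z)) (Icc 0 T) t := by
    rcases le_total 0 z.im with hi | hi
    · exact zc2_Tot hh hw hT ht (zet_mem_S hh1 hz hi)
    · have hz' : conj z ∈ dom h := conj_mem_dom hz
      have hi' : 0 ≤ (conj z).im := by rw [Complex.conj_im]; linarith
      have h1 := zc2_Tot hh hw hT ht (zet_mem_S hh1 hz' hi')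
      have e : zet z = conj (zet (conj z)) := by rw [zet_conj, Complex.conj_conj]
      have h2 : HasDerivWithinAt (fun τ => -conj (Tot h lam w τ (zet (conj z))))
          (-conj (Tott h lam w t (zet (conj z)))) (Icc 0 T) t := by
        have := (Complex.conjCLE : ℂ ≃L[ℝ] ℂ).toContinuousLinearMap.hasFDerivAt.comp_hasDerivWithinAt
          t h1
        exact this.neg
      have hT' := Tott_field hh hw hT
      rw [e, hT'.cj t ht]
      refine h2.congr_of_mem (fun τ hτ => ?_) ht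
      exact (Tot_field hh hw hT).cj τ hτ _
  have h4 := (key.const_mul (-Complex.I)).mul_const (zp z)
  exact (Complex.conjCLE : ℂ ≃L[ℝ] ℂ).toContinuousLinearMap.hasFDerivAt.comp_hasDerivWithinAt t h4

end Pool.Agent.EAC
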