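import Pool.Agent.EAC.ZDefs
import Pool.Agent.EAC.Geo

/-!
# EAC-ZD0: `zet` and `zp` are Lipschitz on the whole `dom h`; periodic Lipschitz functions of `zet z`

`zet_lip_all`: both points in the upper half: `zet_lip`; both in the lower half: conjugate (`zet_conj`, `conj_mem_dom`); one in each: the segment crosses the real line at a point
`x ∈ [-1,1]` (`convex_closedBall`), `x ∈ dom h` (`mem_dom_of_circle_or_real`), `‖z - x‖ + ‖x - z'‖ = ‖z - z'‖`, add the two integers.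
`zp_lip_all`: `zp = 4(1-z²)/qq z`, `‖qq z‖ ≥ 1/8` (`eighth_le_qq`), `‖z‖ ≤ 1`: the numerator of the difference is a polynomial times `z - z'`.
`zet_comp_lip`: from `zet_lip_all`: with `n` as there, `x = zet z`, `y = zet z' + 2πn ∈ S2 h` (`abs_zet_im_le`), `|G x - G y| ≤ C ‖x - y‖`.
-/

set_option autoImplicit false

noncomputable section

namespace Pool.Agent.EAC

open MeasureTheory Set Filter Topology Metric
open scoped ENNReal ComplexConjugate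
open Geo hiding isOpen_Oset mem_Oset

theorem zet_mem_S2 {h : ℝ} (hh1 : h ≤ 1) {z : ℂ} (hz : z ∈ dom h) : zet z ∈ S2 h := by
  have := abs_zet_im_le hh1 hz
  exact ⟨(abs_le.mp this).1, (abs_le.mp this).2⟩

private theorem zet_lip_mixed {L h : ℝ} (hh : 0 < h)
    (H : ∀ z ∈ dom h, ∀ z' ∈ dom h, 0 ≤ z.im → 0 ≤ z'.im →
      ∃ n : ℤ, ‖zet z - zet z' - 2 * Real.pi * n‖ ≤ L * ‖z - z'‖)
    (H' : ∀ z ∈ dom h, ∀ z' ∈ dom h, z.im ≤ 0 → z'.im ≤ 0 →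
      ∃ n : ℤ, ‖zet z - zet z' - 2 * Real.pi * n‖ ≤ L * ‖z - z'‖)
    {z z' : ℂ} (hz : z ∈ dom h) (hz' : z' ∈ dom h) (hi : 0 ≤ z.im) (hi' : z'.im ≤ 0) :
    ∃ n : ℤ, ‖zet z - zet z' - 2 * Real.pi * n‖ ≤ L * ‖z - z'‖ := by
  obtain ⟨x, hx, hxi⟩ : ∃ x ∈ segment ℝ z z', x.im = 0 := by
    rcases eq_or_lt_of_le (hi'.trans hi) with h0 | h0
    · exact ⟨z, left_mem_segment ℝ z z', by linarith⟩
    · have hd : 0 < z.im - z'.im := by linarith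
      refine ⟨(-z'.im / (z.im - z'.im)) • z + (z.im / (z.im - z'.im)) • z', ?_, ?_⟩
      · refine ⟨-z'.im / (z.im - z'.im), z.im / (z.im - z'.im), ?_, ?_, ?_, rfl⟩
        · exact div_nonneg (by linarith) hd.le
        · exact div_nonneg hi hd.le
        · field_simp
          ring
      · simp only [Complex.add_im, Complex.smul_im, smul_eq_mul]
        field_simp
        ring
  have hn : ‖z‖ ≤ 1 := (mem_dom_iff.1 hz).1
  have hn' : ‖z'‖ ≤ 1 := (mem_dom_iff.1 hz').1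
  have hxn : ‖x‖ ≤ 1 := by
    have h1 := (convex_closedBall (0 : ℂ) 1).segment_subset
      (mem_closedBall_zero_iff.2 hn) (mem_closedBall_zero_iff.2 hn') hx
    exact mem_closedBall_zero_iff.1 h1
  have hxd : x ∈ dom h := mem_dom_of_circle_or_real hh.le hxn (Or.inr hxi)
  obtain ⟨n, h1⟩ := H z hz x hxd hi hxi.ge
  obtain ⟨m, h2⟩ := H' x hxd z' hz' hxi.le hi'
  refine ⟨n + m, ?_⟩
  have h3 := dist_add_dist_of_mem_segment hx
  rw [dist_eq_norm, dist_eq_norm, dist_eq_norm] at h3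
  have h4 : zet z - zet z' - 2 * Real.pi * ((n + m : ℤ) : ℂ) =
      (zet z - zet x - 2 * Real.pi * n) + (zet x - zet z' - 2 * Real.pi * m) := by
    push_cast
    ring
  rw [h4, ← h3, mul_add]
  exact (norm_add_le _ _).trans (add_le_add h1 h2)

theorem zet_lip_all : ∃ L : ℝ, 0 < L ∧ ∀ h : ℝ, 0 < h → h ≤ 1 → ∀ z ∈ dom h, ∀ z' ∈ dom h,
    ∃ n : ℤ, ‖zet z - zet z' - 2 * Real.pi * n‖ ≤ L * ‖z - z'‖ := by
  obtain ⟨L, hL, H0⟩ := zet_lip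
  refine ⟨L, hL, ?_⟩
  intro h hh hh1 z hz z' hz'
  have H := H0 h hh hh1
  have H' : ∀ z ∈ dom h, ∀ z' ∈ dom h, z.im ≤ 0 → z'.im ≤ 0 →
      ∃ n : ℤ, ‖zet z - zet z' - 2 * Real.pi * n‖ ≤ L * ‖z - z'‖ := by
    intro z hz z' hz' hi hi'
    obtain ⟨n, hn⟩ := H (conj z) (conj_mem_dom hz) (conj z') (conj_mem_dom hz')
      (by simpa using hi) (by simpa using hi')
    refine ⟨n, ?_⟩
    rw [zet_conj, zet_conj] at hn
    have h1 : conj (zet z) - conj (zet z') - 2 * Real.pi * (n : ℂ) =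
        conj (zet z - zet z' - 2 * Real.pi * n) := by
      simp only [map_sub, map_mul, Complex.conj_ofReal, map_intCast, Complex.conj_ofNat]
    rw [h1, Complex.norm_conj, ← map_sub, Complex.norm_conj] at hn
    exact hn
  rcases le_total 0 z.im with hi | hi <;> rcases le_total 0 z'.im with hi' | hi'
  · exact H z hz z' hz' hi hi'
  · exact zet_lip_mixed hh H H' hz hz' hi hi'
  · obtain ⟨n, hn⟩ := zet_lip_mixed hh H H' hz' hz hi' hi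
    refine ⟨-n, ?_⟩
    have h1 : zet z - zet z' - 2 * Real.pi * ((-n : ℤ) : ℂ) =
        -(zet z' - zet z - 2 * Real.pi * n) := by
      push_cast
      ring
    rw [h1, norm_neg, norm_sub_rev z z']
    exact hn
  · exact H' z hz z' hz' hi hi'

theorem zp_lip_all : ∃ L : ℝ, 0 < L ∧ ∀ h : ℝ, 0 < h → h ≤ 1 → (∀ z ∈ dom h, ‖zp z‖ ≤ L) ∧
    ∀ z ∈ dom h, ∀ z' ∈ dom h, ‖zp z - zp z'‖ ≤ L * ‖z - z'‖ := by
  refine ⟨5120, by norm_num, ?_⟩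
  intro h _ hh1
  refine ⟨?_, ?_⟩
  · intro z hz
    have hn : ‖z‖ ≤ 1 := (mem_dom_iff.1 hz).1
    have hq := eighth_le_qq hh1 hz
    have hq0 : 0 < ‖qq z‖ := by linarith
    rw [zp_eq, norm_div, div_le_iff₀ hq0, norm_mul]
    have h1 : ‖1 - z ^ 2‖ ≤ 2 := by
      refine (norm_sub_le _ _).trans ?_
      rw [norm_one, norm_pow]
      have : ‖z‖ ^ 2 ≤ 1 := pow_le_one₀ (norm_nonneg _) hn
      linarith
    have h2 : ‖(4 : ℂ)‖ = 4 := by norm_num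
    rw [h2]
    nlinarith
  · intro z hz z' hz'
    have hn : ‖z‖ ≤ 1 := (mem_dom_iff.1 hz).1
    have hn' : ‖z'‖ ≤ 1 := (mem_dom_iff.1 hz').1
    have hq := eighth_le_qq hh1 hz
    have hq' := eighth_le_qq hh1 hz'
    have hq0 : 0 < ‖qq z‖ := by linarith
    have hq0' : 0 < ‖qq z'‖ := by linarith
    have hne : qq z ≠ 0 := norm_pos_iff.1 hq0
    have hne' : qq z' ≠ 0 := norm_pos_iff.1 hq0'
    have e : zp z - zp z' = (z' - z) * (4 * (z' + z) * (z ^ 2 + z' ^ 2 + 7 - z ^ 2 * z' ^ 2)) /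
        (qq z * qq z') := by
      rw [zp_eq, zp_eq, div_sub_div _ _ hne hne']
      congr 1
      unfold qq
      ring
    have hs : ‖z‖ ^ 2 ≤ 1 := pow_le_one₀ (norm_nonneg _) hn
    have hs' : ‖z'‖ ^ 2 ≤ 1 := pow_le_one₀ (norm_nonneg _) hn'
    have h1 : ‖z ^ 2 + z' ^ 2 + 7 - z ^ 2 * z' ^ 2‖ ≤ 10 := by
      have h7 : ‖(7 : ℂ)‖ = 7 := by norm_num
      calc ‖z ^ 2 + z' ^ 2 + 7 - z ^ 2 * z' ^ 2‖
          ≤ ‖z ^ 2 + z' ^ 2 + 7‖ + ‖z ^ 2 * z' ^ 2‖ := norm_sub_le _ _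
        _ ≤ (‖z ^ 2 + z' ^ 2‖ + ‖(7 : ℂ)‖) + ‖z ^ 2 * z' ^ 2‖ := by gcongr; exact norm_add_le _ _
        _ ≤ ((‖z ^ 2‖ + ‖z' ^ 2‖) + ‖(7 : ℂ)‖) + ‖z ^ 2 * z' ^ 2‖ := by gcongr; exact norm_add_le _ _
        _ ≤ 10 := by
          rw [norm_mul, norm_pow, norm_pow, h7]
          have : ‖z‖ ^ 2 * ‖z'‖ ^ 2 ≤ 1 := mul_le_one₀ hs (by positivity) hs'
          linarith
    have h2 : ‖4 * (z' + z)‖ ≤ 8 := by
      rw [norm_mul]
      have h4 : ‖(4 : ℂ)‖ = 4 := by norm_num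
      have h5 : ‖z' + z‖ ≤ 2 := (norm_add_le _ _).trans (by linarith)
      rw [h4]
      linarith
    have h3 : ‖4 * (z' + z) * (z ^ 2 + z' ^ 2 + 7 - z ^ 2 * z' ^ 2)‖ ≤ 80 := by
      rw [norm_mul]
      calc _ ≤ 8 * 10 := mul_le_mul h2 h1 (norm_nonneg _) (by norm_num)
        _ = 80 := by norm_num
    have h4 : 1 / 64 ≤ ‖qq z‖ * ‖qq z'‖ := by nlinarith
    rw [e, norm_div, norm_mul, norm_mul (qq z), div_le_iff₀ (by positivity), norm_sub_rev z' z]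
    have h5 : ‖z - z'‖ * ‖4 * (z' + z) * (z ^ 2 + z' ^ 2 + 7 - z ^ 2 * z' ^ 2)‖ ≤
        ‖z - z'‖ * 80 := mul_le_mul_of_nonneg_left h3 (norm_nonneg _)
    refine h5.trans ?_
    have h6 : 80 ≤ 5120 * (‖qq z‖ * ‖qq z'‖) := by linarith
    calc ‖z - z'‖ * 80 ≤ ‖z - z'‖ * (5120 * (‖qq z‖ * ‖qq z'‖)) :=
          mul_le_mul_of_nonneg_left h6 (norm_nonneg _)
      _ = 5120 * ‖z - z'‖ * (‖qq z‖ * ‖qq z'‖) := by ring

theorem zet_comp_lip : ∃ L : ℝ, 0 < L ∧ ∀ h : ℝ, 0 < h → h ≤ 1 → ∀ (F : ℂ → ℝ) (C : ℝ), 0 ≤ C →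
    (∀ x ∈ S2 h, ∀ y ∈ S2 h, |F x - F y| ≤ C * ‖x - y‖) →
    (∀ x ∈ S2 h, ∀ n : ℤ, F (x + 2 * Real.pi * n) = F x) →
    ∀ z ∈ dom h, ∀ z' ∈ dom h, |F (zet z) - F (zet z')| ≤ L * C * ‖z - z'‖ := by
  obtain ⟨L, hL, H⟩ := zet_lip_all
  refine ⟨L, hL, ?_⟩
  intro h hh hh1 F C hC hF hper z hz z' hz'
  obtain ⟨n, hn⟩ := H h hh hh1 z hz z' hz'
  have h1 : zet z' + 2 * Real.pi * n ∈ S2 h := by
    have h2 := zet_mem_S2 hh1 hz'
    have h3 : (zet z' + 2 * Real.pi * n).im = (zet z').im := by simp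
    unfold S2 at h2 ⊢
    rw [Set.mem_ofPred_eq, h3]
    exact h2
  rw [← hper (zet z') (zet_mem_S2 hh1 hz') n]
  refine (hF _ (zet_mem_S2 hh1 hz) _ h1).trans ?_
  have h4 : zet z - (zet z' + 2 * Real.pi * n) = zet z - zet z' - 2 * Real.pi * n := by ring
  rw [h4]
  calc C * ‖zet z - zet z' - 2 * Real.pi * n‖ ≤ C * (L * ‖z - z'‖) :=
        mul_le_mul_of_nonneg_left hn hC
    _ = L * C * ‖z - z'‖ := by ring

end Pool.Agent.EAC
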