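import Pool.Agent.EAC.ZDefs

/-!
# EAC-ZG2: generic lemma: gluing of Lipschitz functions along segments

`M` closed, `ψ` continuous on the plane, `C`-Lipschitz on `M`, with derivative `0` at every point off `M`. Then `ψ` is
`C`-Lipschitz on the plane.
Proof: `x, y`; `g t = ψ (x + t (y - x))` is continuous on `[0,1]`, `F = {t ∈ [0,1] : x + t(y-x) ∈ M}` is closed. If `F` is empty `g` is
constant (derivative zero). Otherwise let `a = sInf F`, `b = sSup F` (in `F`); `g` is constant on `[0,a]` and on `[b,1]`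
(continuous on the closed interval, derivative `0` inside: `constant_of_derivWithin_zero` / `is_const_of_deriv_eq_zero` on open intervals and continuity), and
`|g a - g b| ≤ C |a-b| ‖y - x‖`.
-/

set_option autoImplicit false

noncomputable section

namespace Pool.Agent.EAC

open MeasureTheory Set Filter Topology Metric
open scoped ENNReal ComplexConjugate

private theorem const_seg {ψ : ℂ → ℝ} {M : Set ℂ} (hc : Continuous ψ)
    (h0 : ∀ z, z ∉ M → HasFDerivAt ψ (0 : ℂ →L[ℝ] ℝ) z) (x v : ℂ) {a b : ℝ} (hab : a ≤ b)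
    (hn : ∀ t ∈ Ioo a b, x + t * v ∉ M) : ψ (x + a * v) = ψ (x + b * v) := by
  have hg : ContinuousOn (fun t : ℝ => ψ (x + t * v)) (Icc a b) := by fun_prop
  rcases hab.eq_or_lt with h1 | h1
  · rw [h1]
  obtain ⟨c, hcm, hceq⟩ := exists_hasDerivAt_eq_slope (fun t : ℝ => ψ (x + t * v)) (fun _ => 0) h1 hg
    (fun t ht => by
      have h2 := h0 _ (hn t ht)
      have h3 : HasDerivAt (fun t : ℝ => x + (t : ℂ) * v) (1 * v) t :=
        ((Complex.ofRealCLM.hasDerivAt (x := t)).mul_const v).const_add x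
      have h4 := h2.comp_hasDerivAt t h3
      exact h4)
  have h5 : 0 < b - a := sub_pos.mpr h1
  rw [eq_comm, div_eq_iff h5.ne', zero_mul, sub_eq_zero] at hceq
  exact hceq.symm

theorem lip_glue {M : Set ℂ} (hM : IsClosed M) {ψ : ℂ → ℝ} {C : ℝ} (hC : 0 ≤ C)
    (hc : Continuous ψ) (hl : ∀ x ∈ M, ∀ y ∈ M, |ψ x - ψ y| ≤ C * ‖x - y‖)
    (h0 : ∀ z, z ∉ M → HasFDerivAt ψ (0 : ℂ →L[ℝ] ℝ) z) :
    ∀ x y, |ψ x - ψ y| ≤ C * ‖x - y‖ := by
  intro x y
  set v : ℂ := y - x with hv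
  have hγ : Continuous (fun t : ℝ => x + (t : ℂ) * v) := by fun_prop
  set Fs : Set ℝ := Icc 0 1 ∩ (fun t : ℝ => x + (t : ℂ) * v) ⁻¹' M with hFs
  have hFc : IsCompact Fs := isCompact_Icc.inter_right (hM.preimage hγ)
  have e0 : x + ((0 : ℝ) : ℂ) * v = x := by simp
  have e1 : x + ((1 : ℝ) : ℂ) * v = y := by simp [hv]
  by_cases hne : Fs.Nonempty
  · have ha := hFc.sInf_mem hne
    have hb := hFc.sSup_mem hne
    set a := sInf Fs
    set b := sSup Fs
    have hba : ∀ t ∈ Fs, a ≤ t ∧ t ≤ b := fun t ht =>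
      ⟨csInf_le hFc.bddBelow ht, le_csSup hFc.bddAbove ht⟩
    have h1 : ψ (x + ((0 : ℝ) : ℂ) * v) = ψ (x + (a : ℂ) * v) :=
      const_seg hc h0 x v ha.1.1 (fun t ht hm => by
        have := (hba t ⟨⟨ht.1.le, ht.2.le.trans ha.1.2⟩, hm⟩).1
        linarith [ht.2])
    have h2 : ψ (x + (b : ℂ) * v) = ψ (x + ((1 : ℝ) : ℂ) * v) :=
      const_seg hc h0 x v hb.1.2 (fun t ht hm => by
        have := (hba t ⟨⟨hb.1.1.trans ht.1.le, ht.2.le⟩, hm⟩).2
        linarith [ht.1])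
    rw [e0] at h1
    rw [e1] at h2
    rw [h1, ← h2]
    refine (hl _ ha.2 _ hb.2).trans ?_
    have e3 : x + (a : ℂ) * v - (x + (b : ℂ) * v) = ((a - b : ℝ) : ℂ) * v := by push_cast; ring
    rw [e3, norm_mul, Complex.norm_real, Real.norm_eq_abs, norm_sub_rev x y, ← hv]
    have h3 : |a - b| ≤ 1 := by
      have := ha.1.1
      have := ha.1.2
      have := hb.1.1
      have := hb.1.2
      rw [abs_le]
      constructor <;> linarith
    have h4 : |a - b| * ‖v‖ ≤ ‖v‖ := by nlinarith [norm_nonneg v]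
    exact mul_le_mul_of_nonneg_left h4 hC
  · have h1 : ψ (x + ((0 : ℝ) : ℂ) * v) = ψ (x + ((1 : ℝ) : ℂ) * v) :=
      const_seg hc h0 x v zero_le_one (fun t ht hm => hne ⟨t, ⟨ht.1.le, ht.2.le⟩, hm⟩)
    rw [e0, e1] at h1
    rw [h1, sub_self, abs_zero]
    positivity

end Pool.Agent.EAC
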