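import Pool.Agent.EAC.ZD0
import Pool.Agent.EAC.ZG2

/-!
# EAC-ZD2: the stream function in the plane

`psOdd ψ ζ = ψ ζ` for `Im ζ ≥ 0`, `-ψ (conj ζ)` below: `C`-Lipschitz on `S2 h` (if `Im x ≥ 0 > Im y`, compare with the real point of the segment where `ψ = 0`),
invariant by `2πn` (induction on `n` from `S h`, `ψ` periodic on `S h`). `P z = psOdd ψ (zet z)` is Lipschitz on `dom h` (`zet_comp_lip`).
Global function: `Q z = if 1 ≤ ‖z‖ then 0 else if ‖qB z‖ ≤ e^{-h} ‖qA z‖ then c else if e^h ‖qA z‖ ≤ ‖qB z‖ then -c else P z`.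
On `dom h`: `Q = P` (`‖z‖ = 1`: `zet_im_eq_zero` so `P = 0`; `‖qB‖ = e^{-h}‖qA‖`: `Im (zet z) = h` (`zet_im`), `P = c`; `‖qB‖ = e^h ‖qA‖`: `Im (zet z) = -h`, `P = -c`).
`Q` is continuous: four closed sets `{1 ≤ ‖z‖}`, `{‖z‖ ≤ 1, ‖qB‖ ≤ e^{-h}‖qA‖}`, `{‖z‖ ≤ 1, e^h‖qA‖ ≤ ‖qB‖}`, `dom h` cover the plane, on each of them `Q` equals a continuous function
(on the second: `c` if `‖z‖ < 1`, and a point with `‖z‖ = 1` has `‖qA‖ = ‖qB‖ ≠ 0`, so it is not in the second set). Off `dom h` (open) `Q` is locally constant.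
`lip_glue` (ZG2, with the constant `L C` of `zet_comp_lip`). The derivative on `interior (dom h)`, `Im z ≠ 0`: `Q = P` near `z`; `Im z > 0`: `zet z ∈ U h`, `hasFDerivAt_comp_zet` with
`psOdd ψ = ψ` on `U h`; result `reL (G (zet z)) ∘ (zp z ·) = reL (G (zet z) * zp z)`; `Im z < 0`: `Q (z) = -Q (conj z)`, chain rule with conjugation, `G (conj ζ) = -conj (G ζ)`, `zp_conj`.
-/

set_option autoImplicit false

noncomputable section

namespace Pool.Agent.EAC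

open MeasureTheory Set Filter Topology Metric
open scoped ENNReal ComplexConjugate
open Geo hiding isOpen_Oset mem_Oset

open Classical in
def psOdd (ψ : ℂ → ℝ) (ζ : ℂ) : ℝ := if 0 ≤ ζ.im then ψ ζ else -ψ (conj ζ)

private theorem psOdd_of_nonneg {ψ : ℂ → ℝ} {ζ : ℂ} (h : 0 ≤ ζ.im) : psOdd ψ ζ = ψ ζ := by
  unfold psOdd; rw [if_pos h]

private theorem psOdd_of_neg {ψ : ℂ → ℝ} {ζ : ℂ} (h : ζ.im < 0) : psOdd ψ ζ = -ψ (conj ζ) := by
  unfold psOdd; rw [if_neg (not_le.2 h)]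

private theorem psOdd_lip_aux {C : ℝ} {ψ : ℂ → ℝ}
    (hl : ∀ x y, |ψ x - ψ y| ≤ C * ‖x - y‖) (h0 : ∀ ζ : ℂ, ζ.im = 0 → ψ ζ = 0)
    (x y : ℂ) (hx : 0 ≤ x.im) (hy : y.im < 0) : |ψ x + ψ (conj y)| ≤ C * ‖x - y‖ := by
  have hd : 0 < x.im - y.im := by linarith
  set s : ℝ := x.im / (x.im - y.im) with hs
  have hs0 : 0 ≤ s := div_nonneg hx hd.le
  have hs1 : s ≤ 1 := by rw [hs, div_le_one hd]; linarith
  set p : ℂ := x + s * (y - x) with hp
  have hpim : p.im = 0 := by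
    simp only [hp, Complex.add_im, Complex.mul_im, Complex.ofReal_re, Complex.ofReal_im,
      Complex.sub_im, Complex.sub_re, zero_mul, add_zero]
    rw [hs]
    field_simp
    ring
  have hpc : conj p = p := Complex.conj_eq_iff_im.2 hpim
  have hp0 : ψ p = 0 := h0 p hpim
  have h1 : |ψ x - ψ p| ≤ C * ‖x - p‖ := hl x p
  have h2 : |ψ (conj y) - ψ p| ≤ C * ‖y - p‖ := by
    refine (hl (conj y) p).trans (le_of_eq ?_)
    congr 1
    rw [← Complex.norm_conj (y - p), map_sub, hpc]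
  have h3 : ‖x - p‖ = s * ‖x - y‖ := by
    have : x - p = (s : ℂ) * (x - y) := by rw [hp]; ring
    rw [this, norm_mul, Complex.norm_real, Real.norm_of_nonneg hs0]
  have h4 : ‖y - p‖ = (1 - s) * ‖x - y‖ := by
    have : y - p = ((1 - s : ℝ) : ℂ) * -(x - y) := by rw [hp]; push_cast; ring
    rw [this, norm_mul, Complex.norm_real, norm_neg, Real.norm_of_nonneg (by linarith)]
  rw [hp0, sub_zero] at h1 h2
  calc |ψ x + ψ (conj y)| ≤ |ψ x| + |ψ (conj y)| := abs_add_le _ _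
    _ ≤ C * ‖x - p‖ + C * ‖y - p‖ := add_le_add h1 h2
    _ = C * ‖x - y‖ := by rw [h3, h4]; ring

theorem psOdd_lip {h C : ℝ} (hh : 0 < h) (hC : 0 ≤ C) {ψ : ℂ → ℝ}
    (hl : ∀ x y, |ψ x - ψ y| ≤ C * ‖x - y‖) (h0 : ∀ ζ : ℂ, ζ.im = 0 → ψ ζ = 0) :
    ∀ x ∈ S2 h, ∀ y ∈ S2 h, |psOdd ψ x - psOdd ψ y| ≤ C * ‖x - y‖ := by
  intro x _ y _
  rcases le_or_gt 0 x.im with hx | hx <;> rcases le_or_gt 0 y.im with hy | hy
  · rw [psOdd_of_nonneg hx, psOdd_of_nonneg hy]; exact hl x y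
  · rw [psOdd_of_nonneg hx, psOdd_of_neg hy, sub_neg_eq_add]
    exact psOdd_lip_aux hl h0 x y hx hy
  · rw [psOdd_of_neg hx, psOdd_of_nonneg hy]
    have := psOdd_lip_aux hl h0 y x hy hx
    have e : -ψ (conj x) - ψ y = -(ψ y + ψ (conj x)) := by ring
    rw [e, abs_neg, norm_sub_rev]
    exact this
  · rw [psOdd_of_neg hx, psOdd_of_neg hy]
    have e : -ψ (conj x) - -ψ (conj y) = -(ψ (conj x) - ψ (conj y)) := by ring
    rw [e, abs_neg]
    refine (hl (conj x) (conj y)).trans (le_of_eq ?_)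
    rw [← map_sub, Complex.norm_conj]

private theorem per_int {h : ℝ} {ψ : ℂ → ℝ} (hp : ∀ ζ ∈ S h, ψ (ζ + 2 * Real.pi) = ψ ζ) :
    ∀ x ∈ S h, ∀ n : ℤ, ψ (x + 2 * Real.pi * n) = ψ x := by
  have him : ∀ (x : ℂ) (n : ℤ), (x + 2 * Real.pi * n).im = x.im := by
    intro x n
    have : (2 * (Real.pi : ℂ) * (n : ℂ)) = ((2 * Real.pi * n : ℝ) : ℂ) := by push_cast; ring
    rw [this, Complex.add_im, Complex.ofReal_im, add_zero]
  have hm : ∀ x ∈ S h, ∀ n : ℤ, x + 2 * Real.pi * n ∈ S h := by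
    intro x hx n
    constructor
    · rw [him]; exact hx.1
    · rw [him]; exact hx.2
  have hnat : ∀ x ∈ S h, ∀ n : ℕ, ψ (x + 2 * Real.pi * ((n : ℤ) : ℂ)) = ψ x := by
    intro x hx n
    induction n with
    | zero => simp
    | succ n ih =>
      have e : x + 2 * Real.pi * (((n + 1 : ℕ) : ℤ) : ℂ) =
          (x + 2 * Real.pi * ((n : ℤ) : ℂ)) + 2 * Real.pi := by push_cast; ring
      rw [e, hp _ (hm x hx n), ih]
  intro x hx n
  obtain ⟨m, rfl | rfl⟩ := n.eq_nat_or_neg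
  · exact hnat x hx m
  · have h1 := hnat _ (hm x hx (-(m : ℤ))) m
    have e : x + 2 * Real.pi * ((-(m : ℤ) : ℤ) : ℂ) + 2 * Real.pi * ((m : ℤ) : ℂ) = x := by
      push_cast; ring
    rw [e] at h1
    exact h1.symm

theorem psOdd_per {h : ℝ} (hh : 0 < h) {ψ : ℂ → ℝ} (hp : ∀ ζ ∈ S h, ψ (ζ + 2 * Real.pi) = ψ ζ) :
    ∀ x ∈ S2 h, ∀ n : ℤ, psOdd ψ (x + 2 * Real.pi * n) = psOdd ψ x := by
  intro x hx n
  have him : (x + 2 * Real.pi * n).im = x.im := by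
    have : (2 * (Real.pi : ℂ) * (n : ℂ)) = ((2 * Real.pi * n : ℝ) : ℂ) := by push_cast; ring
    rw [this, Complex.add_im, Complex.ofReal_im, add_zero]
  rcases le_or_gt 0 x.im with h1 | h1
  · rw [psOdd_of_nonneg h1, psOdd_of_nonneg (by rw [him]; exact h1)]
    exact per_int hp x ⟨h1, hx.2⟩ n
  · rw [psOdd_of_neg h1, psOdd_of_neg (by rw [him]; exact h1)]
    have e : conj (x + 2 * Real.pi * n) = conj x + 2 * Real.pi * n := by
      have e2 : (2 * (Real.pi : ℂ) * (n : ℂ)) = ((2 * Real.pi * n : ℝ) : ℂ) := by push_cast; ring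
      rw [map_add, e2, Complex.conj_ofReal]
    rw [e, per_int hp (conj x) ⟨by rw [Complex.conj_im]; linarith, by
      rw [Complex.conj_im]; linarith [hx.1]⟩ n]

open Classical in
/-- the global stream function. -/
private def QQ (h c : ℝ) (ψ : ℂ → ℝ) (z : ℂ) : ℝ :=
  if 1 ≤ ‖z‖ then 0 else if ‖qB z‖ ≤ Real.exp (-h) * ‖qA z‖ then c
    else if Real.exp h * ‖qA z‖ ≤ ‖qB z‖ then -c else psOdd ψ (zet z)

private theorem lt_one_of_B {h : ℝ} (hh : 0 < h) {z : ℂ} (h1 : ‖z‖ ≤ 1)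
    (h2 : ‖qB z‖ ≤ Real.exp (-h) * ‖qA z‖) : ‖z‖ < 1 := by
  refine lt_of_le_of_ne h1 fun he => ?_
  have h3 := norm_qB_eq_qA (Or.inl he)
  have h4 := two_le_norm_add z
  have h5 : Real.exp (-h) < 1 := by rw [Real.exp_lt_one_iff]; linarith
  rw [h3] at h2 h4
  nlinarith

private theorem lt_one_of_A {h : ℝ} (hh : 0 < h) {z : ℂ} (h1 : ‖z‖ ≤ 1)
    (h2 : Real.exp h * ‖qA z‖ ≤ ‖qB z‖) : ‖z‖ < 1 := by
  refine lt_of_le_of_ne h1 fun he => ?_
  have h3 := norm_qB_eq_qA (Or.inl he)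
  have h4 := two_le_norm_add z
  have h5 : 1 < Real.exp h := by rw [Real.one_lt_exp_iff]; exact hh
  rw [h3] at h2 h4
  nlinarith

private theorem not_B_of_A {h : ℝ} (hh : 0 < h) {z : ℂ}
    (h2 : Real.exp h * ‖qA z‖ ≤ ‖qB z‖) : ¬ ‖qB z‖ ≤ Real.exp (-h) * ‖qA z‖ := by
  intro h1
  have h4 := two_le_norm_add z
  have h5 : Real.exp (-h) < 1 := by rw [Real.exp_lt_one_iff]; linarith
  have h6 : 1 < Real.exp h := by rw [Real.one_lt_exp_iff]; exact hh
  have h7 := norm_nonneg (qA z)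
  have h8 := norm_nonneg (qB z)
  have h9 : Real.exp h * ‖qA z‖ ≤ Real.exp (-h) * ‖qA z‖ := h2.trans h1
  have h10 : ‖qA z‖ ≤ 0 := by nlinarith
  have h11 : ‖qA z‖ = 0 := le_antisymm h10 h7
  rw [h11] at h1 h4
  linarith

private theorem QQ_of_ge {h c : ℝ} {ψ : ℂ → ℝ} {z : ℂ} (h1 : 1 ≤ ‖z‖) : QQ h c ψ z = 0 := by
  unfold QQ; rw [if_pos h1]

private theorem QQ_of_B {h c : ℝ} (hh : 0 < h) {ψ : ℂ → ℝ} {z : ℂ} (h1 : ‖z‖ ≤ 1)
    (h2 : ‖qB z‖ ≤ Real.exp (-h) * ‖qA z‖) : QQ h c ψ z = c := by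
  unfold QQ
  rw [if_neg (not_le.2 (lt_one_of_B hh h1 h2)), if_pos h2]

private theorem QQ_of_A {h c : ℝ} (hh : 0 < h) {ψ : ℂ → ℝ} {z : ℂ} (h1 : ‖z‖ ≤ 1)
    (h2 : Real.exp h * ‖qA z‖ ≤ ‖qB z‖) : QQ h c ψ z = -c := by
  unfold QQ
  rw [if_neg (not_le.2 (lt_one_of_A hh h1 h2)), if_neg (not_B_of_A hh h2), if_pos h2]

private theorem QQ_of_dom {h c : ℝ} (hh : 0 < h) (hh1 : h ≤ 1) {ψ : ℂ → ℝ}
    (h0 : ∀ ζ : ℂ, ζ.im = 0 → ψ ζ = 0) (h1 : ∀ ζ : ℂ, ζ.im = h → ψ ζ = c) {z : ℂ}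
    (hz : z ∈ dom h) : QQ h c ψ z = psOdd ψ (zet z) := by
  obtain ⟨a1, a2, a3⟩ := mem_dom_iff.1 hz
  have hA := norm_pos_iff.2 (qA_ne_zero hh1 hz)
  unfold QQ
  split_ifs with b1 b2 b3
  · have hi := zet_im_eq_zero (Or.inl (le_antisymm a1 b1) : ‖z‖ = 1 ∨ z.im = 0)
    rw [psOdd_of_nonneg hi.ge, h0 _ hi]
  · have e : ‖qB z‖ = Real.exp (-h) * ‖qA z‖ := le_antisymm b2 a2
    have hi : (zet z).im = h := by
      rw [zet_im, kap_eq, norm_div, e, mul_div_assoc, div_self hA.ne', mul_one, Real.log_exp]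
      ring
    rw [psOdd_of_nonneg (by rw [hi]; exact hh.le), h1 _ hi]
  · have e : ‖qB z‖ = Real.exp h * ‖qA z‖ := le_antisymm a3 b3
    have hi : (zet z).im = -h := by
      rw [zet_im, kap_eq, norm_div, e, mul_div_assoc, div_self hA.ne', mul_one, Real.log_exp]
    rw [psOdd_of_neg (by rw [hi]; linarith), h1 (conj (zet z)) (by rw [Complex.conj_im, hi]; ring)]
  · rfl

private theorem psOdd_conj {ψ : ℂ → ℝ} (h0 : ∀ ζ : ℂ, ζ.im = 0 → ψ ζ = 0) (ζ : ℂ) :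
    psOdd ψ (conj ζ) = -psOdd ψ ζ := by
  rcases lt_trichotomy ζ.im 0 with h | h | h
  · rw [psOdd_of_neg h, psOdd_of_nonneg (by rw [Complex.conj_im]; linarith), neg_neg]
  · rw [psOdd_of_nonneg h.ge, psOdd_of_nonneg (by rw [Complex.conj_im, h]; simp), h0 _ h,
      h0 _ (by rw [Complex.conj_im, h]; simp), neg_zero]
  · rw [psOdd_of_nonneg h.le, psOdd_of_neg (by rw [Complex.conj_im]; linarith), Complex.conj_conj]

private theorem off_dom {h c : ℝ} (hh : 0 < h) {ψ : ℂ → ℝ} {z : ℂ}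
    (hz : z ∉ dom h) : HasFDerivAt (QQ h c ψ) (0 : ℂ →L[ℝ] ℝ) z := by
  rcases lt_or_ge 1 ‖z‖ with h1 | h1
  · have hO : IsOpen {w : ℂ | 1 < ‖w‖} := isOpen_lt continuous_const continuous_norm
    refine (hasFDerivAt_const (0 : ℝ) z).congr_of_eventuallyEq ?_
    filter_upwards [hO.mem_nhds h1] with w hw
    exact QQ_of_ge (le_of_lt hw)
  · rcases lt_or_ge ‖qB z‖ (Real.exp (-h) * ‖qA z‖) with h2 | h2
    · have h3 := lt_one_of_B hh h1 h2.le
      have hO : IsOpen ({w : ℂ | ‖w‖ < 1} ∩ {w : ℂ | ‖qB w‖ < Real.exp (-h) * ‖qA w‖}) :=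
        IsOpen.inter (isOpen_lt continuous_norm continuous_const)
          (isOpen_lt continuous_qB.norm (continuous_const.mul continuous_qA.norm))
      refine (hasFDerivAt_const c z).congr_of_eventuallyEq ?_
      filter_upwards [hO.mem_nhds ⟨h3, h2⟩] with w hw
      exact QQ_of_B hh (le_of_lt hw.1) (le_of_lt hw.2)
    · rcases lt_or_ge (Real.exp h * ‖qA z‖) ‖qB z‖ with h3 | h3
      · have h4 := lt_one_of_A hh h1 h3.le
        have hO : IsOpen ({w : ℂ | ‖w‖ < 1} ∩ {w : ℂ | Real.exp h * ‖qA w‖ < ‖qB w‖}) :=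
          IsOpen.inter (isOpen_lt continuous_norm continuous_const)
            (isOpen_lt (continuous_const.mul continuous_qA.norm) continuous_qB.norm)
        refine (hasFDerivAt_const (-c) z).congr_of_eventuallyEq ?_
        filter_upwards [hO.mem_nhds ⟨h4, h3⟩] with w hw
        exact QQ_of_A hh (le_of_lt hw.1) (le_of_lt hw.2)
      · exact absurd (mem_dom_iff.2 ⟨h1, h2, h3⟩) hz

theorem stream_plane {h C c : ℝ} (hh : 0 < h) (hh1 : h ≤ 1) (hC : 0 ≤ C) {G : ℂ → ℂ} {ψ : ℂ → ℝ}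
    (hper : ∀ ζ, G (ζ + 2 * Real.pi) = G ζ) (hcj : ∀ ζ, G (conj ζ) = -conj (G ζ))
    (hl : ∀ x y, |ψ x - ψ y| ≤ C * ‖x - y‖) (hd : ∀ ζ ∈ U h, HasFDerivAt ψ (reL (G ζ)) ζ)
    (h0 : ∀ ζ : ℂ, ζ.im = 0 → ψ ζ = 0) (h1 : ∀ ζ : ℂ, ζ.im = h → ψ ζ = c)
    (hp : ∀ ζ ∈ S h, ψ (ζ + 2 * Real.pi) = ψ ζ) :
    ∃ (Q : ℂ → ℝ) (K : NNReal), LipschitzWith K Q ∧
      (∀ z ∈ interior (dom h), z.im ≠ 0 → HasFDerivAt Q (reL (G (zet z) * zp z)) z) ∧
      ∀ z, z ∉ dom h → HasFDerivAt Q (0 : ℂ →L[ℝ] ℝ) z := by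
  obtain ⟨L, hL, hLip⟩ := zet_comp_lip
  have hP : ∀ z ∈ dom h, ∀ z' ∈ dom h,
      |psOdd ψ (zet z) - psOdd ψ (zet z')| ≤ L * C * ‖z - z'‖ :=
    hLip h hh hh1 (psOdd ψ) C hC (psOdd_lip hh hC hl h0) (psOdd_per hh hp)
  have hLC : 0 ≤ L * C := mul_nonneg hL.le hC
  have hQD : ∀ z ∈ dom h, QQ h c ψ z = psOdd ψ (zet z) := fun z hz => QQ_of_dom hh hh1 h0 h1 hz
  have hQl : ∀ x ∈ dom h, ∀ y ∈ dom h, |QQ h c ψ x - QQ h c ψ y| ≤ L * C * ‖x - y‖ := by
    intro x hx y hy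
    rw [hQD x hx, hQD y hy]
    exact hP x hx y hy
  -- continuity
  have hcD : ContinuousOn (QQ h c ψ) (dom h) := by
    have : LipschitzOnWith (L * C).toNNReal (QQ h c ψ) (dom h) := by
      refine LipschitzOnWith.of_dist_le_mul fun x hx y hy => ?_
      rw [Real.dist_eq, dist_eq_norm, Real.coe_toNNReal _ hLC]
      exact hQl x hx y hy
    exact this.continuousOn
  have hc1 : ContinuousOn (QQ h c ψ) {z : ℂ | 1 ≤ ‖z‖} :=
    (continuousOn_const (c := (0 : ℝ))).congr fun z hz => QQ_of_ge hz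
  have hc2 : ContinuousOn (QQ h c ψ) ({z : ℂ | ‖z‖ ≤ 1} ∩
      {z : ℂ | ‖qB z‖ ≤ Real.exp (-h) * ‖qA z‖}) :=
    (continuousOn_const (c := c)).congr fun z hz => QQ_of_B hh hz.1 hz.2
  have hc3 : ContinuousOn (QQ h c ψ) ({z : ℂ | ‖z‖ ≤ 1} ∩
      {z : ℂ | Real.exp h * ‖qA z‖ ≤ ‖qB z‖}) :=
    (continuousOn_const (c := -c)).congr fun z hz => QQ_of_A hh hz.1 hz.2
  have k1 : IsClosed {z : ℂ | 1 ≤ ‖z‖} := isClosed_le continuous_const continuous_norm
  have k2 : IsClosed ({z : ℂ | ‖z‖ ≤ 1} ∩ {z : ℂ | ‖qB z‖ ≤ Real.exp (-h) * ‖qA z‖}) :=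
    IsClosed.inter (isClosed_le continuous_norm continuous_const)
      (isClosed_le continuous_qB.norm (continuous_const.mul continuous_qA.norm))
  have k3 : IsClosed ({z : ℂ | ‖z‖ ≤ 1} ∩ {z : ℂ | Real.exp h * ‖qA z‖ ≤ ‖qB z‖}) :=
    IsClosed.inter (isClosed_le continuous_norm continuous_const)
      (isClosed_le (continuous_const.mul continuous_qA.norm) continuous_qB.norm)
  have kD : IsClosed (dom h) := (isCompact_dom h).isClosed
  have hcon : Continuous (QQ h c ψ) := by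
    rw [← continuousOn_univ]
    have h2 := hcD.union_of_isClosed hc1 kD k1
    have h3 := h2.union_of_isClosed hc2 (kD.union k1) k2
    have h4 := h3.union_of_isClosed hc3 ((kD.union k1).union k2) k3
    refine h4.mono fun z _ => ?_
    rcases le_or_gt 1 ‖z‖ with b1 | b1
    · exact Or.inl (Or.inl (Or.inr b1))
    · rcases le_or_gt ‖qB z‖ (Real.exp (-h) * ‖qA z‖) with b2 | b2
      · exact Or.inl (Or.inr ⟨b1.le, b2⟩)
      · rcases le_or_gt (Real.exp h * ‖qA z‖) ‖qB z‖ with b3 | b3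
        · exact Or.inr ⟨b1.le, b3⟩
        · exact Or.inl (Or.inl (Or.inl (mem_dom_iff.2 ⟨b1.le, b2.le, b3.le⟩)))
  have hglob := lip_glue kD hLC hcon hQl fun z hz => off_dom hh hz
  -- upper half derivative
  have hup : ∀ z ∈ interior (dom h), 0 < z.im →
      HasFDerivAt (QQ h c ψ) (reL (G (zet z) * zp z)) z := by
    intro z hz hi
    have hzd : z ∈ dom h := interior_subset hz
    have hU := zet_mem_U hh hh1 hz hi
    have hUo : IsOpen (U h) := by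
      have e : U h = {z : ℂ | 0 < z.im} ∩ {z : ℂ | z.im < h} := rfl
      rw [e]
      exact (isOpen_lt continuous_const Complex.continuous_im).inter
        (isOpen_lt Complex.continuous_im continuous_const)
    have hps : HasFDerivAt (psOdd ψ) (reL (G (zet z))) (zet z) := by
      refine (hd _ hU).congr_of_eventuallyEq ?_
      filter_upwards [hUo.mem_nhds hU] with w hw
      exact psOdd_of_nonneg (le_of_lt hw.1)
    have hpe : ∀ᶠ ζ in 𝓝 (zet z), ∀ n : ℤ, psOdd ψ (ζ + 2 * Real.pi * n) = psOdd ψ ζ := by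
      filter_upwards [hUo.mem_nhds hU] with w hw
      exact psOdd_per hh hp w ⟨by linarith [hw.1], le_of_lt hw.2⟩
    have h5 := hasFDerivAt_comp_zet (qA_ne_zero hh1 hzd) (qB_ne_zero hh1 hzd) hps hpe
    have e : (reL (G (zet z))).comp (ContinuousLinearMap.mul ℝ ℂ (zp z)) =
        reL (G (zet z) * zp z) := by
      refine ContinuousLinearMap.ext fun ξ => ?_
      rw [ContinuousLinearMap.comp_apply, reL_apply, reL_apply, ContinuousLinearMap.mul_apply',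
        mul_assoc]
    rw [e] at h5
    refine h5.congr_of_eventuallyEq ?_
    filter_upwards [isOpen_interior.mem_nhds hz] with w hw
    exact hQD w (interior_subset hw)
  refine ⟨QQ h c ψ, (L * C).toNNReal, ?_, ?_, fun z hz => off_dom hh hz⟩
  · refine LipschitzWith.of_dist_le_mul fun x y => ?_
    rw [Real.dist_eq, dist_eq_norm, Real.coe_toNNReal _ hLC]
    exact hglob x y
  · intro z hz hi
    rcases lt_or_gt_of_ne hi with h2 | h2
    · have hcz := conj_mem_interior_dom hh hh1 hz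
      have h3 := hup (conj z) hcz (by rw [Complex.conj_im]; linarith)
      have h4 : HasFDerivAt (fun w : ℂ => -QQ h c ψ (conj w))
          (-((reL (G (zet (conj z)) * zp (conj z))).comp
            (Complex.conjCLE : ℂ →L[ℝ] ℂ))) z := by
        have h5 : HasFDerivAt (fun w : ℂ => conj w) (Complex.conjCLE : ℂ →L[ℝ] ℂ) z :=
          (Complex.conjCLE : ℂ →L[ℝ] ℂ).hasFDerivAt
        exact (HasFDerivAt.comp z h3 h5).neg
      have e : -((reL (G (zet (conj z)) * zp (conj z))).comp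
            (Complex.conjCLE : ℂ →L[ℝ] ℂ)) = reL (G (zet z) * zp z) := by
        refine ContinuousLinearMap.ext fun ξ => ?_
        rw [neg_apply, ContinuousLinearMap.comp_apply, reL_apply, reL_apply,
          zet_conj, zp_conj, hcj]
        have e2 : -conj (G (zet z)) * conj (zp z) * ((Complex.conjCLE : ℂ →L[ℝ] ℂ) ξ) =
            -conj (G (zet z) * zp z * ξ) := by
          rw [map_mul, map_mul]
          simp
        rw [e2, Complex.neg_re, Complex.conj_re, neg_neg]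
      rw [e] at h4
      refine h4.congr_of_eventuallyEq ?_
      filter_upwards [isOpen_interior.mem_nhds hz] with w hw
      have hwd : w ∈ dom h := interior_subset hw
      rw [hQD w hwd, hQD (conj w) (conj_mem_dom hwd), zet_conj, psOdd_conj h0, neg_neg]
    · exact hup z hz h2

end Pool.Agent.EAC
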