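import Pool.Agent.EAC.Strip

/-!
# EAC, PART Z: definitions

`fr w t = rho w_t`, `Tot = W_tot = psi_X - i psi_Y`, `ft = ∂_t (rho w) = w_X psi_Y - w_Y psi_X`, `Lamt = ∂_t Λ`, `Tott = ∂_t W_tot`,
`bet = B_X - i B_Y`, `B` the Bernoulli function `p + |v|²/2` in strip coordinates.
-/

set_option autoImplicit false

noncomputable section

namespace Pool.Agent.EAC

open MeasureTheory Set Filter Topology Metric
open scoped ENNReal ComplexConjugate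

/-- `f = rho w`. -/
def fr (w : ℝ → ℂ → ℝ) (t : ℝ) (ζ : ℂ) : ℝ := rho ζ * w t ζ

/-- `W_tot = psi_X - i psi_Y`. -/
def Tot (h lam : ℝ) (w : ℝ → ℂ → ℝ) (t : ℝ) (ζ : ℂ) : ℂ :=
  -Complex.I * (Lam h lam (fr w t) : ℂ) + W h (fr w t) ζ

open Classical in
/-- `∂_t (rho w) = w_X psi_Y - w_Y psi_X` in the open strip, `0` outside. -/
def ft (h lam : ℝ) (w : ℝ → ℂ → ℝ) (t : ℝ) (ζ : ℂ) : ℝ :=
  if ζ ∈ U h then -(fderiv ℝ (w t) ζ 1 * (Tot h lam w t ζ).im) -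
    fderiv ℝ (w t) ζ Complex.I * (Tot h lam w t ζ).re else 0

/-- `∂_t Λ`. -/
def Lamt (h lam : ℝ) (w : ℝ → ℂ → ℝ) (t : ℝ) : ℝ :=
  (1 / (2 * Real.pi * h)) * ∫ ζ in Sper h, ζ.im * ft h lam w t ζ

/-- `∂_t W_tot`. -/
def Tott (h lam : ℝ) (w : ℝ → ℂ → ℝ) (t : ℝ) (ζ : ℂ) : ℂ :=
  -Complex.I * (Lamt h lam w t : ℂ) + W h (ft h lam w t) ζ

/-- `B_X - i B_Y`. -/
def bet (h lam : ℝ) (w : ℝ → ℂ → ℝ) (t : ℝ) (ζ : ℂ) : ℂ :=
  Complex.I * Tott h lam w t ζ - (w t ζ : ℂ) * Tot h lam w t ζ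

/-- the closed double strip. -/
def S2 (h : ℝ) : Set ℂ := {z | -h ≤ z.im ∧ z.im ≤ h}

/-- `X + iY ↦ X + i|Y|`. -/
def fld (ζ : ℂ) : ℂ := ⟨ζ.re, |ζ.im|⟩

/-- the real linear map `ξ ↦ Re (c ξ)`. -/
def reL (c : ℂ) : ℂ →L[ℝ] ℝ := Complex.reCLM.comp (ContinuousLinearMap.mul ℝ ℂ c)

/-- the real linear map `ξ ↦ a ξ + i b Im ξ` (derivative of `W h f`, `a = W h f_X`, `b = f`). -/
def lin (a : ℂ) (b : ℝ) : ℂ →L[ℝ] ℂ :=
  ContinuousLinearMap.mul ℝ ℂ a + (Complex.imCLM.smulRight (Complex.I * (b : ℂ)))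

theorem reL_apply (c ξ : ℂ) : reL c ξ = (c * ξ).re := by
  simp [reL]

theorem lin_apply (a : ℂ) (b : ℝ) (ξ : ℂ) : lin a b ξ = a * ξ + ((ξ.im : ℝ) : ℂ) * (Complex.I * b) := by
  simp [lin]

theorem velZ_eq (h lam : ℝ) (w : ℝ → ℂ → ℝ) (t : ℝ) (z : ℂ) :
    velZ h lam (w t) z = conj (-Complex.I * Tot h lam w t (zet z) * zp z) := rfl

theorem Vel_eq (h lam : ℝ) (w : ℝ → ℂ → ℝ) (t : ℝ) (ζ : ℂ) :
    Vel h lam mm (fun x => rho x * w t x) ζ = (mm ζ : ℂ) * (Complex.I * conj (Tot h lam w t ζ)) := by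
  simp only [Vel, Tot]
  change (mm ζ : ℂ) * (-(Lam h lam (fr w t) : ℂ) + Complex.I * conj (W h (fr w t) ζ)) = _
  rw [map_add, map_mul, map_neg, Complex.conj_I, Complex.conj_ofReal]
  ring_nf
  rw [Complex.I_sq]
  ring

/-- the density `f` is bounded by `C`, periodic, and differentiable in the open strip with
derivative bounded by `C` and continuous. -/
structure Good (h : ℝ) (f : ℂ → ℝ) (C : ℝ) : Prop where
  meas : AEStronglyMeasurable f (volume.restrict (S h))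
  bd : ∀ ζ ∈ S h, |f ζ| ≤ C
  per : ∀ ζ ∈ S h, f (ζ + 2 * Real.pi) = f ζ
  diff : ∃ f' : ℂ → ℂ →L[ℝ] ℝ, ContinuousOn f' (U h) ∧ ∀ ζ ∈ U h, HasFDerivAt f (f' ζ) ζ ∧ ‖f' ζ‖ ≤ C

end Pool.Agent.EAC
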