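import Pool.Agent.EAC.ZB2

/-!
# EAC-ZE1: the Bernoulli form `Re (bet dζ)` is closed; its size

`bet = i Tott - w Tot`. Derivative on `U h`: `g' ξ = i (a' ξ + i ft Im ξ) - (w' ξ Tot + w (a ξ + i fr Im ξ))` (`FieldZ.deriv` for `Tott_field`, `Tot_field`; `w' = fderiv ℝ (w t) ζ`,
`w t` is differentiable on `U h` by `hw.smooth`). `(g' i).re = -Re a' - ft - w_Y Re Tot + w Im a`, `(g' 1).im = Re a' - w_X Im Tot - w Im a`; the sum vanishes by the definition of `ft`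
(`simp [ft, hζ]`).
`bet_per`: periodicity on `U h`. `bet_bd`: `FieldZ.lip`, `hw.range`.
-/

set_option autoImplicit false

noncomputable section

namespace Pool.Agent.EAC

open MeasureTheory Set Filter Topology Metric
open scoped ENNReal ComplexConjugate
open Geo hiding isOpen_Oset mem_Oset

theorem bet_closed {h lam : ℝ} (hh : 0 < h) {w : ℝ → ℂ → ℝ} {Φ : ℝ → ℂ → ℂ}
    (hw : StripSol h lam w Φ) {T : ℝ} (hT : 0 < T) {t : ℝ} (ht : t ∈ Icc 0 T) {ζ : ℂ} (hζ : ζ ∈ U h) :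
    ∃ g' : ℂ →L[ℝ] ℂ, HasFDerivAt (bet h lam w t) g' ζ ∧ (g' Complex.I).re = -(g' 1).im := by
  obtain ⟨a', ha'⟩ := (Tott_field hh hw hT).deriv t ht ζ hζ
  obtain ⟨a, ha⟩ := (Tot_field hh hw hT).deriv t ht ζ hζ
  obtain ⟨-, -, f', hf', -⟩ := (hw.smooth T hT 1).1
  have hwd := hf' t ht ζ hζ
  have hfd : fderiv ℝ (w t) ζ = f' t ζ := hwd.fderiv
  have h1 : HasFDerivAt (fun z : ℂ => ((w t z : ℝ) : ℂ)) (Complex.ofRealCLM.comp (f' t ζ)) ζ :=
    Complex.ofRealCLM.hasFDerivAt.comp ζ hwd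
  have h2 := (ha'.const_mul Complex.I).sub (h1.mul ha)
  refine ⟨_, h2, ?_⟩
  have hft : ft h lam w t ζ = -(f' t ζ 1 * (Tot h lam w t ζ).im) -
      f' t ζ Complex.I * (Tot h lam w t ζ).re := by
    unfold ft
    rw [if_pos hζ, hfd]
  simp only [ContinuousLinearMap.sub_apply, ContinuousLinearMap.add_apply,
    ContinuousLinearMap.smul_apply, lin_apply, smul_eq_mul, ContinuousLinearMap.comp_apply,
    Complex.ofRealCLM_apply, Complex.sub_re, Complex.add_re, Complex.mul_re, Complex.sub_im,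
    Complex.add_im, Complex.mul_im, Complex.I_re, Complex.I_im, Complex.one_re, Complex.one_im,
    Complex.ofReal_re, Complex.ofReal_im, mul_zero, mul_one, zero_mul, one_mul, zero_sub, sub_zero,
    zero_add, add_zero]
  rw [hft]
  ring

theorem bet_per {h lam : ℝ} (hh : 0 < h) {w : ℝ → ℂ → ℝ} {Φ : ℝ → ℂ → ℂ}
    (hw : StripSol h lam w Φ) {t : ℝ} (ht : 0 ≤ t) {ζ : ℂ} (hζ : ζ ∈ S h) :
    bet h lam w t (ζ + 2 * Real.pi) = bet h lam w t ζ := by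
  have hT : (0 : ℝ) < t + 1 := by linarith
  have ht' : t ∈ Icc 0 (t + 1) := ⟨ht, by linarith⟩
  unfold bet
  rw [(Tott_field hh hw hT).per t ht' ζ, (Tot_field hh hw hT).per t ht' ζ, hw.per t ht ζ hζ]

theorem bet_bd {h lam : ℝ} (hh : 0 < h) {w : ℝ → ℂ → ℝ} {Φ : ℝ → ℂ → ℂ}
    (hw : StripSol h lam w Φ) {T : ℝ} (hT : 0 < T) :
    ∃ C : ℝ, 0 ≤ C ∧ ∀ t ∈ Icc 0 T, ∀ ζ ∈ S h, ‖bet h lam w t ζ‖ ≤ C := by
  obtain ⟨C₁, hC₁, h1⟩ := (Tott_field hh hw hT).lip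
  obtain ⟨C₂, hC₂, h2⟩ := (Tot_field hh hw hT).lip
  refine ⟨C₁ + C₂, by linarith, fun t ht ζ hζ => ?_⟩
  have h3 := (h1 t ht).1 ζ hζ
  have h4 := (h2 t ht).1 ζ hζ
  have h5 := hw.range t ht.1 ζ hζ
  unfold bet
  refine (norm_sub_le _ _).trans (add_le_add ?_ ?_)
  · rw [norm_mul, Complex.norm_I, one_mul]
    exact h3
  · rw [norm_mul, Complex.norm_real, Real.norm_eq_abs, abs_of_nonneg h5.1]
    calc w t ζ * ‖Tot h lam w t ζ‖ ≤ 1 * ‖Tot h lam w t ζ‖ :=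
          mul_le_mul_of_nonneg_right h5.2 (norm_nonneg _)
      _ ≤ C₂ := by rw [one_mul]; exact h4

end Pool.Agent.EAC
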