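import Pool.Agent.EAC.ZE2b

/-!
# EAC-ZE2: conservation of the circulation: `∫_{Sper} Re bet = 0`

`Re bet = Lamt - Im (W h ft) - w Re Tot`; `∫_{Sper} Lamt = 2π h Lamt = ∫_{Sper} Im · ft` (definition of `Lamt`); `∫_{Sper} Im (W h ft) = ∫_0^{2π} ∫_0^h ... = 0` (`W_mean`, second form of
`sper_fubini`); `circ_ibp`. All the integrands are bounded and continuous on `U h` (`sper_fubini` gives integrability).
-/

set_option autoImplicit false

noncomputable section

namespace Pool.Agent.EAC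

open MeasureTheory Set Filter Topology Metric
open scoped ENNReal ComplexConjugate
open Geo hiding isOpen_Oset mem_Oset

private theorem cz_U_sub_S (h : ℝ) : U h ⊆ S h := fun _ hζ => ⟨hζ.1.le, hζ.2.le⟩

private theorem cz_CC_cont {T h : ℝ} {G : ℝ → ℂ → ℝ} (hG : CC T h 0 G) {t : ℝ} (ht : t ∈ Icc 0 T) :
    ContinuousOn (G t) (U h) := by
  have h2 : ContinuousOn (fun w : ℂ => (t, w)) (U h) := by fun_prop
  exact (CC_cont hG).comp h2 (fun w hw => ⟨ht, hw⟩)

theorem circ_zero {h lam : ℝ} (hh : 0 < h) {w : ℝ → ℂ → ℝ} {Φ : ℝ → ℂ → ℂ}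
    (hw : StripSol h lam w Φ) {T : ℝ} (hT : 0 < T) {t : ℝ} (ht : t ∈ Icc 0 T) :
    ∫ ζ in Sper h, (bet h lam w t ζ).re = 0 := by
  have hft := ft_CC (lam := lam) hh hw hT 0
  obtain ⟨Bf, hBf0, hBf⟩ := CC_bdd hft
  have hfc := cz_CC_cont hft ht
  have hwC := (hw.smooth T hT 0).1
  obtain ⟨Bw, hBw0, hBw⟩ := CC_bdd hwC
  have hwc := cz_CC_cont hwC ht
  have hG := Tot_field (lam := lam) hh hw hT
  have hGt := Tott_field (lam := lam) hh hw hT
  obtain ⟨C, hC0, hC⟩ := hG.lip
  obtain ⟨C', hC'0, hC'⟩ := hGt.lip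
  have hGc := (hG.cont t ht).mono (cz_U_sub_S h)
  have hGtc := (hGt.cont t ht).mono (cz_U_sub_S h)
  have hBM : BM h (ft h lam w t) Bf := BM_of_continuousOn hfc (fun ζ hζ => hBf t ht ζ hζ)
  -- `g2 = Im · ft`
  have c2 : ContinuousOn (fun ζ : ℂ => ζ.im * ft h lam w t ζ) (U h) :=
    Complex.continuous_im.continuousOn.mul hfc
  have b2 : ∀ ζ ∈ U h, |ζ.im * ft h lam w t ζ| ≤ h * Bf := by
    intro ζ hζ
    rw [abs_mul, abs_of_pos hζ.1]
    exact mul_le_mul hζ.2.le (hBf t ht ζ hζ) (abs_nonneg _) hh.le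
  obtain ⟨i2, -, -⟩ := sper_fubini hh c2 b2
  -- `g1 = Im · ft - w Re Tot`
  have c4 : ContinuousOn (fun ζ : ℂ => w t ζ * (Tot h lam w t ζ).re) (U h) :=
    hwc.mul (Complex.continuous_re.comp_continuousOn hGc)
  have b4 : ∀ ζ ∈ U h, |w t ζ * (Tot h lam w t ζ).re| ≤ Bw * C := by
    intro ζ hζ
    rw [abs_mul]
    exact mul_le_mul (hBw t ht ζ hζ) ((Complex.abs_re_le_norm _).trans
      ((hC t ht).1 ζ (cz_U_sub_S h hζ))) (abs_nonneg _) hBw0
  obtain ⟨i4, -, -⟩ := sper_fubini hh c4 b4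
  -- `g3 = Im Tott`
  have c3 : ContinuousOn (fun ζ : ℂ => (Tott h lam w t ζ).im) (U h) :=
    Complex.continuous_im.comp_continuousOn hGtc
  have b3 : ∀ ζ ∈ U h, |(Tott h lam w t ζ).im| ≤ C' := fun ζ hζ =>
    (Complex.abs_im_le_norm _).trans ((hC' t ht).1 ζ (cz_U_sub_S h hζ))
  obtain ⟨i3, -, e3⟩ := sper_fubini hh c3 b3
  -- integral of `g3`
  have hin : ∀ x : ℝ, ∫ y in (0 : ℝ)..h, (Tott h lam w t (x + y * Complex.I)).im =
      -(h * Lamt h lam w t) := by
    intro x
    have hT1 : ∀ y : ℝ, (Tott h lam w t (x + y * Complex.I)).im = -Lamt h lam w t +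
        (W h (ft h lam w t) (x + y * Complex.I)).im := by
      intro y
      unfold Tott
      simp
    have hcW : ContinuousOn (fun y : ℝ => (Tott h lam w t (x + y * Complex.I)).im) (uIcc 0 h) := by
      refine Complex.continuous_im.comp_continuousOn ?_
      refine (hGt.cont t ht).comp (by fun_prop) ?_
      intro y hy
      rw [uIcc_of_le hh.le] at hy
      simp only [S, mem_ofPred_eq, Complex.add_im, Complex.ofReal_im, Complex.mul_im,
        Complex.ofReal_re, Complex.I_im, Complex.I_re, mul_one, mul_zero, add_zero, zero_add]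
      exact hy
    have hcW' : IntervalIntegrable (fun y : ℝ => (W h (ft h lam w t) (x + y * Complex.I)).im)
        volume 0 h := by
      have e : (fun y : ℝ => (W h (ft h lam w t) (x + y * Complex.I)).im) = fun y : ℝ =>
          (Tott h lam w t (x + y * Complex.I)).im + Lamt h lam w t := by
        funext y
        rw [hT1 y]; ring
      rw [e]
      exact hcW.intervalIntegrable.add intervalIntegrable_const
    calc ∫ y in (0 : ℝ)..h, (Tott h lam w t (x + y * Complex.I)).im
        = ∫ y in (0 : ℝ)..h, (-Lamt h lam w t + (W h (ft h lam w t) (x + y * Complex.I)).im) :=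
          intervalIntegral.integral_congr (fun y _ => hT1 y)
      _ = (∫ _y in (0 : ℝ)..h, -Lamt h lam w t) +
          ∫ y in (0 : ℝ)..h, (W h (ft h lam w t) (x + y * Complex.I)).im :=
          intervalIntegral.integral_add intervalIntegrable_const hcW'
      _ = -(h * Lamt h lam w t) := by
          rw [W_mean hh hBM x, intervalIntegral.integral_const]
          simp
  have e3' : ∫ ζ in Sper h, (Tott h lam w t ζ).im = -(2 * Real.pi * h * Lamt h lam w t) := by
    rw [e3]
    simp only [hin]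
    rw [intervalIntegral.integral_const]
    simp only [smul_eq_mul, sub_zero]
    ring
  -- definition of `Lamt`
  have e2' : ∫ ζ in Sper h, ζ.im * ft h lam w t ζ = 2 * Real.pi * h * Lamt h lam w t := by
    unfold Lamt
    have hpi := Real.pi_pos
    field_simp
  have key : ∀ ζ : ℂ, (bet h lam w t ζ).re = (ζ.im * ft h lam w t ζ -
      w t ζ * (Tot h lam w t ζ).re) - ζ.im * ft h lam w t ζ - (Tott h lam w t ζ).im := by
    intro ζ
    unfold bet
    simp
    ring
  simp only [key]
  rw [integral_sub, integral_sub, circ_ibp hh hw hT ht, e2', e3']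
  · ring
  · exact i2.sub i4
  · exact i2
  · exact (i2.sub i4).sub i2
  · exact i3

end Pool.Agent.EAC
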