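import Pool.Agent.EAC.ZB1

/-!
# EAC-ZE2a: Fubini on one period of the strip

`Sper h` is, up to null sets, the rectangle `(0,2π) × (0,h)` (`Complex.volume_preserving_equiv_real_prod`, `MeasureTheory.setIntegral_prod`,
`intervalIntegral.integral_of_le`, `integral_integral_swap`); bounded integrand, continuous on `U h` (`Sper h \ U h` is a null set).
-/

set_option autoImplicit false

noncomputable section

namespace Pool.Agent.EAC

open MeasureTheory Set Filter Topology Metric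
open scoped ENNReal ComplexConjugate
open Geo hiding isOpen_Oset mem_Oset

theorem sper_fubini {h B : ℝ} (hh : 0 < h) {F : ℂ → ℝ} (hF : ContinuousOn F (U h))
    (hB : ∀ ζ ∈ U h, |F ζ| ≤ B) :
    IntegrableOn F (Sper h) ∧
    (∫ ζ in Sper h, F ζ = ∫ y in (0 : ℝ)..h, ∫ x in (0 : ℝ)..(2 * Real.pi), F (x + y * Complex.I)) ∧
    (∫ ζ in Sper h, F ζ = ∫ x in (0 : ℝ)..(2 * Real.pi), ∫ y in (0 : ℝ)..h, F (x + y * Complex.I)) := by
  have hpi : (0 : ℝ) ≤ 2 * Real.pi := by positivity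
  have hmp := Complex.volume_preserving_equiv_real_prod
  have hme : MeasurableEmbedding (Complex.measurableEquivRealProd : ℂ → ℝ × ℝ) :=
    Complex.measurableEquivRealProd.measurableEmbedding
  -- the function on the plane
  obtain ⟨G, hG⟩ : ∃ G : ℝ × ℝ → ℝ, G = fun p => F (p.1 + p.2 * Complex.I) := ⟨_, rfl⟩
  have hGF : ∀ ζ : ℂ, G (Complex.measurableEquivRealProd ζ) = F ζ := by
    intro ζ
    rw [hG]
    simp only [Complex.measurableEquivRealProd_apply]
    rw [Complex.re_add_im]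
  have hU : ∀ p : ℝ × ℝ, p ∈ (univ : Set ℝ) ×ˢ Ioo 0 h → ((p.1 : ℂ) + p.2 * Complex.I) ∈ U h := by
    rintro ⟨x, y⟩ ⟨_, hy⟩
    constructor
    · simpa using hy.1
    · simpa using hy.2
  have hGc : ContinuousOn G ((univ : Set ℝ) ×ˢ Ioo 0 h) := by
    rw [hG]
    exact hF.comp (by fun_prop) hU
  have hint0 : IntegrableOn G (Ioo 0 (2 * Real.pi) ×ˢ Ioo 0 h) (volume.prod volume) := by
    have hms : MeasurableSet (Ioo (0 : ℝ) (2 * Real.pi) ×ˢ Ioo (0 : ℝ) h) :=
      measurableSet_Ioo.prod measurableSet_Ioo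
    have hsub : Ioo (0 : ℝ) (2 * Real.pi) ×ˢ Ioo (0 : ℝ) h ⊆ (univ : Set ℝ) ×ˢ Ioo 0 h :=
      prod_mono (subset_univ _) subset_rfl
    have hfin : IsFiniteMeasure (((volume : Measure ℝ).prod (volume : Measure ℝ)).restrict
        (Ioo (0 : ℝ) (2 * Real.pi) ×ˢ Ioo (0 : ℝ) h)) := by
      constructor
      rw [Measure.restrict_apply_univ, Measure.prod_prod, Real.volume_Ioo, Real.volume_Ioo]
      exact ENNReal.mul_lt_top ENNReal.ofReal_lt_top ENNReal.ofReal_lt_top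
    refine Integrable.of_bound ((hGc.mono hsub).aestronglyMeasurable hms) B ?_
    · rw [ae_restrict_iff' hms]
      refine Filter.Eventually.of_forall fun p hp => ?_
      rw [hG, Real.norm_eq_abs]
      exact hB _ (hU p (hsub hp))
  have hae1 : (Ioc (0 : ℝ) (2 * Real.pi) ×ˢ Ioc (0 : ℝ) h : Set (ℝ × ℝ)) =ᵐ[volume.prod volume]
      (Ioo (0 : ℝ) (2 * Real.pi) ×ˢ Ioo (0 : ℝ) h : Set (ℝ × ℝ)) :=
    Measure.set_prod_ae_eq Ioo_ae_eq_Ioc.symm Ioo_ae_eq_Ioc.symm
  have hae2 : (Ico (0 : ℝ) (2 * Real.pi) ×ˢ Icc (0 : ℝ) h : Set (ℝ × ℝ)) =ᵐ[volume.prod volume]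
      (Ioo (0 : ℝ) (2 * Real.pi) ×ˢ Ioo (0 : ℝ) h : Set (ℝ × ℝ)) :=
    Measure.set_prod_ae_eq Ioo_ae_eq_Ico.symm Ioo_ae_eq_Icc.symm
  have hint1 : IntegrableOn G (Ioc 0 (2 * Real.pi) ×ˢ Ioc 0 h) (volume.prod volume) :=
    hint0.congr_set_ae hae1
  have hint2 : IntegrableOn G (Ico 0 (2 * Real.pi) ×ˢ Icc 0 h) (volume.prod volume) :=
    hint0.congr_set_ae hae2
  have hset : Sper h = Complex.measurableEquivRealProd ⁻¹'
      (Ico (0 : ℝ) (2 * Real.pi) ×ˢ Icc (0 : ℝ) h) := by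
    ext ζ
    simp only [Sper, mem_preimage, Complex.measurableEquivRealProd_apply, mem_prod, mem_Ico,
      mem_Icc]
    constructor
    · rintro ⟨h1, h2, h3, h4⟩
      exact ⟨⟨h1, h2⟩, h3, h4⟩
    · rintro ⟨⟨h1, h2⟩, h3, h4⟩
      exact ⟨h1, h2, h3, h4⟩
  have hFG : F = G ∘ Complex.measurableEquivRealProd := by
    funext ζ
    exact (hGF ζ).symm
  have hI : ∫ ζ in Sper h, F ζ = ∫ p in Ioc 0 (2 * Real.pi) ×ˢ Ioc 0 h, G p ∂(volume.prod volume) := by
    rw [setIntegral_congr_set hae1, ← setIntegral_congr_set hae2, hset]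
    have := hmp.setIntegral_preimage_emb hme G (Ico (0 : ℝ) (2 * Real.pi) ×ˢ Icc (0 : ℝ) h)
    simp only [hGF] at this
    exact this
  have e1 : ∫ p in Ioc 0 (2 * Real.pi) ×ˢ Ioc 0 h, G p ∂(volume.prod volume) =
      ∫ x in Ioc 0 (2 * Real.pi), ∫ y in Ioc 0 h, G (x, y) := setIntegral_prod G hint1
  have e2 : ∫ x in Ioc 0 (2 * Real.pi), ∫ y in Ioc 0 h, G (x, y) =
      ∫ y in Ioc 0 h, ∫ x in Ioc 0 (2 * Real.pi), G (x, y) := by
    apply integral_integral_swap
    rw [Measure.prod_restrict]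
    exact hint1
  refine ⟨?_, ?_, ?_⟩
  · rw [hset, hFG]
    exact (hmp.integrableOn_comp_preimage hme).mpr hint2
  · rw [hI, e1, e2, intervalIntegral.integral_of_le hh.le]
    refine integral_congr_ae (Filter.Eventually.of_forall fun y => ?_)
    dsimp only
    rw [intervalIntegral.integral_of_le hpi, hG]
  · rw [hI, e1, intervalIntegral.integral_of_le hpi]
    refine integral_congr_ae (Filter.Eventually.of_forall fun x => ?_)
    dsimp only
    rw [intervalIntegral.integral_of_le hh.le, hG]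

end Pool.Agent.EAC
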