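import Pool.Agent.EAC.ZE1
import Pool.Agent.EAC.ZE2a

/-!
# EAC-ZE2b: integration by parts for the circulation

`F1 = Im · w · (-Im Tot)`, `G1 = Im · w · Re Tot`: on `U h`, with `D Tot = lin a fr`: `∂_X F1 - ∂_Y G1 = Im · ft - w Re Tot` (`∂_X (-Im Tot) = -Im a`, `∂_Y (Re Tot) = Re (a i + i fr) = -Im a`).
`∫_{Sper} ∂_X F1 = ∫_0^h (F1(2π+iy) - F1(iy)) dy = 0` (FTC, periodicity), `∫_{Sper} ∂_Y G1 = ∫_0^{2π} (G1(x+ih) - G1(x)) dx = 0`
(`intervalIntegral.integral_eq_sub_of_hasDerivAt_of_le`, `G1` continuous on `S h` (`hw.cont`, `FieldZ.cont`), `Re Tot = 0` at `Im = h`, factor `Im = 0` at the bottom).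
All derivatives are continuous and bounded on `U h` (`CC_cont`, `CC_bdd` for `CC T h 1 w`, `Tot_CC`).
-/

set_option autoImplicit false

noncomputable section

namespace Pool.Agent.EAC

open MeasureTheory Set Filter Topology Metric
open scoped ENNReal ComplexConjugate
open Geo hiding isOpen_Oset mem_Oset

private theorem contOn_slice_ZE2b {T h : ℝ} {F : Type} [NormedAddCommGroup F] [NormedSpace ℝ F]
    {G : ℝ → ℂ → F} (hG : ContinuousOn (fun p : ℝ × ℂ => G p.1 p.2) (Icc 0 T ×ˢ U h)) {t : ℝ}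
    (ht : t ∈ Icc 0 T) : ContinuousOn (G t) (U h) := by
  have h1 : ContinuousOn (fun z : ℂ => ((t, z) : ℝ × ℂ)) (U h) := by fun_prop
  exact hG.comp h1 (fun z hz => ⟨ht, hz⟩)

private theorem hasDerivAt_hor_ZE2b (x y : ℝ) :
    HasDerivAt (fun x : ℝ => (x : ℂ) + y * Complex.I) 1 x := by
  have h1 : HasDerivAt (fun x : ℝ => (x : ℂ)) 1 x := (hasDerivAt_id x).ofReal_comp
  simpa using h1.add_const ((y : ℂ) * Complex.I)

private theorem hasDerivAt_ver_ZE2b (x y : ℝ) :
    HasDerivAt (fun y : ℝ => (x : ℂ) + y * Complex.I) Complex.I y := by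
  have h1 : HasDerivAt (fun x : ℝ => (x : ℂ)) 1 y := (hasDerivAt_id y).ofReal_comp
  have h2 := (h1.mul_const Complex.I).const_add (x : ℂ)
  simpa using h2

private theorem comp_hor_ZE2b {F : Type} [NormedAddCommGroup F] [NormedSpace ℝ F] {g : ℂ → F}
    {g' : ℂ →L[ℝ] F} {x y : ℝ} (hg : HasFDerivAt g g' ((x : ℂ) + y * Complex.I)) :
    HasDerivAt (fun x : ℝ => g ((x : ℂ) + y * Complex.I)) (g' 1) x :=
  HasFDerivAt.comp_hasDerivAt (l := g) (l' := g') x hg (hasDerivAt_hor_ZE2b x y)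

private theorem comp_ver_ZE2b {F : Type} [NormedAddCommGroup F] [NormedSpace ℝ F] {g : ℂ → F}
    {g' : ℂ →L[ℝ] F} {x y : ℝ} (hg : HasFDerivAt g g' ((x : ℂ) + y * Complex.I)) :
    HasDerivAt (fun y : ℝ => g ((x : ℂ) + y * Complex.I)) (g' Complex.I) y :=
  HasFDerivAt.comp_hasDerivAt (l := g) (l' := g') y hg (hasDerivAt_ver_ZE2b x y)

theorem circ_ibp {h lam : ℝ} (hh : 0 < h) {w : ℝ → ℂ → ℝ} {Φ : ℝ → ℂ → ℂ}
    (hw : StripSol h lam w Φ) {T : ℝ} (hT : 0 < T) {t : ℝ} (ht : t ∈ Icc 0 T) :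
    ∫ ζ in Sper h, (ζ.im * ft h lam w t ζ - w t ζ * (Tot h lam w t ζ).re) = 0 := by
  classical
  have hf := Tot_field hh hw hT
  obtain ⟨hwc, -, w', hw', hw'0⟩ := CC_succ_def.1 (hw.smooth T hT 1).1
  obtain ⟨hAc, -, A', hA', hA'0⟩ := CC_succ_def.1 (Tot_CC hh hw hT 1)
  obtain ⟨Cw, hCw0, hCw⟩ := CC_bdd (hw.smooth T hT 1).1
  obtain ⟨CA, hCA0, hCA⟩ := CC_bdd (Tot_CC hh hw hT 1)
  obtain ⟨Cw', hCw'0, hCw'⟩ := CC_bdd hw'0
  obtain ⟨CA', hCA'0, hCA'⟩ := CC_bdd hA'0
  have hwc' : ContinuousOn (w t) (U h) := contOn_slice_ZE2b hwc ht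
  have hAc' : ContinuousOn (Tot h lam w t) (U h) := contOn_slice_ZE2b hAc ht
  have hw'c : ContinuousOn (w' t) (U h) := contOn_slice_ZE2b (CC_cont hw'0) ht
  have hA'c : ContinuousOn (A' t) (U h) := contOn_slice_ZE2b (CC_cont hA'0) ht
  have hA'I : ∀ ζ ∈ U h, (A' t ζ Complex.I).re = -(A' t ζ 1).im := by
    intro ζ hζ
    obtain ⟨a, ha⟩ := hf.deriv t ht ζ hζ
    have e1 : A' t ζ = lin a (fr w t ζ) := (hA' t ht ζ hζ).unique ha
    rw [e1, lin_apply, lin_apply]
    simp
  set P : ℂ → ℝ := fun ζ => if ζ ∈ U h then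
    ζ.im * (-(w' t ζ 1 * (Tot h lam w t ζ).im) - w t ζ * (A' t ζ 1).im) else 0 with hPdef
  set Q : ℂ → ℝ := fun ζ => w t ζ * (Tot h lam w t ζ).re + if ζ ∈ U h then
    ζ.im * (w' t ζ Complex.I * (Tot h lam w t ζ).re - w t ζ * (A' t ζ 1).im) else 0 with hQdef
  have hR : ∀ ζ, ζ.im * ft h lam w t ζ - w t ζ * (Tot h lam w t ζ).re = P ζ - Q ζ := by
    intro ζ
    simp only [hPdef, hQdef]
    by_cases hζ : ζ ∈ U h
    · have e1 : fderiv ℝ (w t) ζ = w' t ζ := (hw' t ht ζ hζ).fderiv
      simp only [ft, hζ, if_true, e1]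
      ring
    · simp [ft, hζ]
  -- bounds
  have hb1 : ∀ ζ ∈ U h, |ζ.im| ≤ h := by
    intro ζ hζ
    rw [abs_of_pos hζ.1]; exact hζ.2.le
  have hbT : ∀ ζ ∈ U h, |(Tot h lam w t ζ).im| ≤ CA ∧ |(Tot h lam w t ζ).re| ≤ CA := by
    intro ζ hζ
    exact ⟨(Complex.abs_im_le_norm _).trans (hCA t ht ζ hζ),
      (Complex.abs_re_le_norm _).trans (hCA t ht ζ hζ)⟩
  have hbw : ∀ ζ ∈ U h, |w t ζ| ≤ Cw := fun ζ hζ => hCw t ht ζ hζ
  have hbw1 : ∀ ζ ∈ U h, |w' t ζ 1| ≤ Cw' := by
    intro ζ hζ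
    have := (w' t ζ).le_opNorm 1
    rw [norm_one, mul_one] at this
    exact this.trans (hCw' t ht ζ hζ)
  have hbwI : ∀ ζ ∈ U h, |w' t ζ Complex.I| ≤ Cw' := by
    intro ζ hζ
    have := (w' t ζ).le_opNorm Complex.I
    rw [Complex.norm_I, mul_one] at this
    exact this.trans (hCw' t ht ζ hζ)
  have hbA1 : ∀ ζ ∈ U h, |(A' t ζ 1).im| ≤ CA' := by
    intro ζ hζ
    have := (A' t ζ).le_opNorm 1
    rw [norm_one, mul_one] at this
    exact (Complex.abs_im_le_norm _).trans (this.trans (hCA' t ht ζ hζ))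
  have hPb : ∀ ζ ∈ U h, |P ζ| ≤ h * (Cw' * CA + Cw * CA') := by
    intro ζ hζ
    simp only [hPdef, hζ, if_true]
    rw [abs_mul]
    refine mul_le_mul (hb1 ζ hζ) ?_ (abs_nonneg _) hh.le
    refine (abs_sub _ _).trans ?_
    rw [abs_neg, abs_mul, abs_mul]
    exact add_le_add (mul_le_mul (hbw1 ζ hζ) (hbT ζ hζ).1 (abs_nonneg _) hCw'0)
      (mul_le_mul (hbw ζ hζ) (hbA1 ζ hζ) (abs_nonneg _) hCw0)
  have hQb : ∀ ζ ∈ U h, |Q ζ| ≤ Cw * CA + h * (Cw' * CA + Cw * CA') := by
    intro ζ hζ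
    simp only [hQdef, hζ, if_true]
    refine (abs_add_le _ _).trans (add_le_add ?_ ?_)
    · rw [abs_mul]
      exact mul_le_mul (hbw ζ hζ) (hbT ζ hζ).2 (abs_nonneg _) hCw0
    · rw [abs_mul]
      refine mul_le_mul (hb1 ζ hζ) ?_ (abs_nonneg _) hh.le
      refine (abs_sub _ _).trans ?_
      rw [abs_mul, abs_mul]
      exact add_le_add (mul_le_mul (hbwI ζ hζ) (hbT ζ hζ).2 (abs_nonneg _) hCw'0)
        (mul_le_mul (hbw ζ hζ) (hbA1 ζ hζ) (abs_nonneg _) hCw0)
  -- continuity
  have hcIm : ContinuousOn (fun ζ : ℂ => ζ.im) (U h) := Complex.continuous_im.continuousOn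
  have hcTi : ContinuousOn (fun ζ => (Tot h lam w t ζ).im) (U h) :=
    Complex.continuous_im.comp_continuousOn hAc'
  have hcTr : ContinuousOn (fun ζ => (Tot h lam w t ζ).re) (U h) :=
    Complex.continuous_re.comp_continuousOn hAc'
  have hcw1 : ContinuousOn (fun ζ => w' t ζ 1) (U h) := hw'c.clm_apply continuousOn_const
  have hcwI : ContinuousOn (fun ζ => w' t ζ Complex.I) (U h) := hw'c.clm_apply continuousOn_const
  have hcA1 : ContinuousOn (fun ζ => (A' t ζ 1).im) (U h) :=
    Complex.continuous_im.comp_continuousOn (hA'c.clm_apply continuousOn_const)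
  have hPc : ContinuousOn P (U h) := by
    refine (hcIm.mul (((hcw1.mul hcTi).neg).sub (hwc'.mul hcA1))).congr ?_
    intro ζ hζ
    simp only [hPdef, hζ, if_true]
    rfl
  have hQc : ContinuousOn Q (U h) := by
    refine ((hwc'.mul hcTr).add (hcIm.mul ((hcwI.mul hcTr).sub (hwc'.mul hcA1)))).congr ?_
    intro ζ hζ
    simp only [hQdef, hζ, if_true]
    rfl
  obtain ⟨hPi, hP1, -⟩ := sper_fubini hh hPc hPb
  obtain ⟨hQi, -, hQ2⟩ := sper_fubini hh hQc hQb
  have hmemU : ∀ x y : ℝ, 0 < y → y < h → ((x : ℂ) + y * Complex.I) ∈ U h := by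
    intro x y h0 h1
    simp only [U, mem_ofPred_eq, Complex.add_im, Complex.ofReal_im, Complex.mul_im,
      Complex.I_im, Complex.I_re, Complex.ofReal_re, mul_one, mul_zero, zero_add, add_zero]
    exact ⟨h0, h1⟩
  have him : ∀ x y : ℝ, ((x : ℂ) + y * Complex.I).im = y := by
    intro x y; simp
  -- the first integral
  have hP0 : ∫ ζ in Sper h, P ζ = 0 := by
    rw [hP1]
    rw [intervalIntegral.integral_of_le hh.le]
    refine setIntegral_eq_zero_of_forall_eq_zero ?_
    intro y hy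
    rcases lt_or_eq_of_le hy.2 with hlt | heq
    · have hd : ∀ x ∈ uIcc (0 : ℝ) (2 * Real.pi), HasDerivAt
          (fun x : ℝ => y * (w t (x + y * Complex.I) * -(Tot h lam w t (x + y * Complex.I)).im))
          (P (x + y * Complex.I)) x := by
        intro x _
        have hU := hmemU x y hy.1 hlt
        have d1 : HasDerivAt (fun x : ℝ => w t (x + y * Complex.I))
            (w' t (x + y * Complex.I) 1) x :=
          comp_hor_ZE2b (hw' t ht _ hU)
        have d2 : HasDerivAt (fun x : ℝ => Tot h lam w t (x + y * Complex.I))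
            (A' t (x + y * Complex.I) 1) x :=
          comp_hor_ZE2b (hA' t ht _ hU)
        have d3 : HasDerivAt (fun x : ℝ => (Tot h lam w t (x + y * Complex.I)).im)
            (A' t (x + y * Complex.I) 1).im x :=
          Complex.imCLM.hasFDerivAt.comp_hasDerivAt x d2
        have d4 := (d1.mul d3.neg).const_mul y
        refine d4.congr_deriv ?_
        simp only [hPdef, hU, if_true, him, Pi.neg_apply]
        ring
      have hint : IntervalIntegrable (fun x : ℝ => P (x + y * Complex.I)) volume 0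
          (2 * Real.pi) := by
        refine Continuous.intervalIntegrable ?_ _ _
        refine hPc.comp_continuous (by fun_prop) (fun x => hmemU x y hy.1 hlt)
      have e := intervalIntegral.integral_eq_sub_of_hasDerivAt hd hint
      refine e.trans ?_
      have hyS : ((0 : ℂ) + y * Complex.I) ∈ S h := by
        have := hmemU 0 y hy.1 hlt
        simp only [Complex.ofReal_zero] at this
        exact ⟨this.1.le, this.2.le⟩
      have p1 : w t (((2 * Real.pi : ℝ) : ℂ) + y * Complex.I) = w t (0 + y * Complex.I) := by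
        rw [← hw.per t ht.1 _ hyS]
        congr 1
        push_cast; ring
      have p2 : Tot h lam w t (((2 * Real.pi : ℝ) : ℂ) + y * Complex.I) =
          Tot h lam w t (0 + y * Complex.I) := by
        rw [← hf.per t ht (0 + y * Complex.I)]
        congr 1
        push_cast; ring
      rw [p1, p2, Complex.ofReal_zero, sub_self]
    · have : ∀ x : ℝ, P (x + y * Complex.I) = 0 := by
        intro x
        have hn : ((x : ℂ) + y * Complex.I) ∉ U h := by
          intro hc
          have := hc.2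
          rw [him] at this
          linarith
        simp only [hPdef, hn, if_false]
      simp [this]
  have hQ0 : ∫ ζ in Sper h, Q ζ = 0 := by
    rw [hQ2]
    have hz : ∀ x : ℝ, ∫ y in (0 : ℝ)..h, Q (x + y * Complex.I) = 0 := by
      intro x
      have hmapS : MapsTo (fun y : ℝ => (x : ℂ) + y * Complex.I) (Icc 0 h) (S h) := by
        intro y hy
        simp only [S, mem_ofPred_eq, him]
        exact hy
      have hvc : ContinuousOn (fun y : ℝ => (x : ℂ) + y * Complex.I) (Icc 0 h) := by fun_prop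
      have hwS : ContinuousOn (w t) (S h) := by
        have h1 : ContinuousOn (fun z : ℂ => ((t, z) : ℝ × ℂ)) (S h) := by fun_prop
        exact hw.cont.comp h1 (fun z hz => ⟨ht.1, hz⟩)
      have c1 : ContinuousOn (fun y : ℝ => y * (w t (x + y * Complex.I) *
          (Tot h lam w t (x + y * Complex.I)).re)) (Icc 0 h) := by
        refine continuousOn_id.mul (ContinuousOn.mul ?_ ?_)
        · exact hwS.comp hvc hmapS
        · exact Complex.continuous_re.comp_continuousOn ((hf.cont t ht).comp hvc hmapS)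
      have hd : ∀ y ∈ Ioo (0 : ℝ) h, HasDerivAt (fun y : ℝ => y * (w t (x + y * Complex.I) *
          (Tot h lam w t (x + y * Complex.I)).re)) (Q (x + y * Complex.I)) y := by
        intro y hy
        have hU := hmemU x y hy.1 hy.2
        have d1 : HasDerivAt (fun y : ℝ => w t (x + y * Complex.I))
            (w' t (x + y * Complex.I) Complex.I) y :=
          comp_ver_ZE2b (hw' t ht _ hU)
        have d2 : HasDerivAt (fun y : ℝ => Tot h lam w t (x + y * Complex.I))
            (A' t (x + y * Complex.I) Complex.I) y :=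
          comp_ver_ZE2b (hA' t ht _ hU)
        have d3 : HasDerivAt (fun y : ℝ => (Tot h lam w t (x + y * Complex.I)).re)
            (A' t (x + y * Complex.I) Complex.I).re y :=
          Complex.reCLM.hasFDerivAt.comp_hasDerivAt y d2
        have d4 := (hasDerivAt_id y).mul (d1.mul d3)
        refine d4.congr_deriv ?_
        simp only [hQdef, hU, if_true, him, hA'I _ hU, id, Pi.mul_apply]
        ring
      have hint : IntervalIntegrable (fun y : ℝ => Q (x + y * Complex.I)) volume 0 h := by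
        rw [intervalIntegrable_iff_integrableOn_Ioo_of_le hh.le]
        have hcQ : ContinuousOn (fun y : ℝ => Q (x + y * Complex.I)) (Ioo 0 h) :=
          hQc.comp (by fun_prop) (fun y hy => hmemU x y hy.1 hy.2)
        refine Integrable.of_bound (hcQ.aestronglyMeasurable measurableSet_Ioo)
          (Cw * CA + h * (Cw' * CA + Cw * CA')) ?_
        refine (ae_restrict_iff' measurableSet_Ioo).2 (Eventually.of_forall ?_)
        intro y hy
        exact hQb _ (hmemU x y hy.1 hy.2)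
      rw [intervalIntegral.integral_eq_sub_of_hasDerivAt_of_le hh.le c1 hd hint]
      have r0 : (Tot h lam w t (x + h * Complex.I)).re = 0 :=
        hf.re0 t ht _ (Or.inr (him x h))
      rw [r0]; simp
    simp only [hz]
    simp
  have : ∫ ζ in Sper h, (ζ.im * ft h lam w t ζ - w t ζ * (Tot h lam w t ζ).re) =
      ∫ ζ in Sper h, (P ζ - Q ζ) := by
    congr 1
    funext ζ
    exact hR ζ
  rw [this, integral_sub hPi hQi, hP0, hQ0, sub_zero]

end Pool.Agent.EAC
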