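import Pool.Agent.EAC.ZE2
import Pool.Agent.EAC.ZG3

/-!
# EAC-ZE3: the Bernoulli function in the strip

`potential` (ZG3) for `g = bet h lam w t`, constant `C` from `bet_bd` (the same for all `t ∈ [0,T]`; choose `B t` for each `t`, e.g. `Classical.choose`/`choose` over `t ∈ Icc 0 T`).
Periodicity: `D(ζ) = B t (ζ + 2π) - B t ζ` has derivative zero on the convex set `U h` (`bet_per`), so it is a constant `c` there. For every `y ∈ (0,h)`:
`∫_0^{2π} Re bet (x + iy) dx = B t (2π + iy) - B t (iy) = c` (FTC), so by `sper_fubini` `∫_{Sper} Re bet = h c`, and `circ_zero` gives `c = 0`. By continuity (`B t` Lipschitz) `D = 0` on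
`closure (U h) ⊇ S h`.
-/

set_option autoImplicit false

noncomputable section

namespace Pool.Agent.EAC

open MeasureTheory Set Filter Topology Metric
open scoped ENNReal ComplexConjugate
open Geo hiding isOpen_Oset mem_Oset

private theorem ze3_isOpen_U (h : ℝ) : IsOpen (U h) :=
  (isOpen_lt continuous_const Complex.continuous_im).inter
    (isOpen_lt Complex.continuous_im continuous_const)

private theorem ze3_U_eq (h : ℝ) : U h = Complex.im ⁻¹' Ioo 0 h := rfl

private theorem ze3_convex_U (h : ℝ) : Convex ℝ (U h) := by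
  rw [ze3_U_eq]
  exact (convex_Ioo 0 h).linear_preimage Complex.imLm

private theorem ze3_add_mem {h : ℝ} {ζ : ℂ} (hζ : ζ ∈ U h) : ζ + 2 * Real.pi ∈ U h := by
  have e : (ζ + 2 * Real.pi : ℂ).im = ζ.im := by
    rw [Complex.add_im]
    have : (2 * (Real.pi : ℂ)).im = 0 := by
      rw [Complex.mul_im]
      simp
    rw [this, add_zero]
  exact ⟨by rw [e]; exact hζ.1, by rw [e]; exact hζ.2⟩

private theorem ze3_S_closure {h : ℝ} (hh : 0 < h) : S h ⊆ closure (U h) := by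
  rw [ze3_U_eq, Complex.closure_preimage_im, closure_Ioo hh.ne]
  intro z hz
  exact ⟨hz.1, hz.2⟩

private theorem ze3_U_sub_S {h : ℝ} : U h ⊆ S h := fun _ hz => ⟨hz.1.le, hz.2.le⟩

private theorem ze3_single {h lam : ℝ} (hh : 0 < h) {w : ℝ → ℂ → ℝ} {Φ : ℝ → ℂ → ℂ}
    (hw : StripSol h lam w Φ) {T : ℝ} (hT : 0 < T) {t : ℝ} (ht : t ∈ Icc 0 T) {C : ℝ} (hC : 0 ≤ C)
    (hb : ∀ ζ ∈ S h, ‖bet h lam w t ζ‖ ≤ C) :
    ∃ ψ : ℂ → ℝ, (∀ x y, |ψ x - ψ y| ≤ C * ‖x - y‖) ∧
      (∀ ζ ∈ U h, HasFDerivAt ψ (reL (bet h lam w t ζ)) ζ) ∧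
      ∀ ζ ∈ S h, ψ (ζ + 2 * Real.pi) = ψ ζ := by
  have hcl : ∀ ζ ∈ U h, ∃ g' : ℂ →L[ℝ] ℂ, HasFDerivAt (bet h lam w t) g' ζ ∧
      (g' Complex.I).re = -(g' 1).im := fun ζ hζ => bet_closed hh hw hT ht hζ
  choose! g' hg' using hcl
  obtain ⟨ψ, hψ1, hψ2⟩ := potential hC (fun ζ hζ => (hg' ζ hζ).1) (fun ζ hζ => (hg' ζ hζ).2)
    (fun ζ hζ => hb ζ (ze3_U_sub_S hζ))
  refine ⟨ψ, hψ1, hψ2, ?_⟩
  have hcont : Continuous ψ := by
    rw [continuous_iff_continuousAt]
    intro x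
    rw [ContinuousAt, tendsto_iff_dist_tendsto_zero]
    have h0 : Tendsto (fun y : ℂ => C * ‖y - x‖) (𝓝 x) (𝓝 0) := by
      have : Continuous (fun y : ℂ => C * ‖y - x‖) := by fun_prop
      have := this.tendsto x
      simpa using this
    refine squeeze_zero (fun _ => dist_nonneg) (fun y => ?_) h0
    rw [Real.dist_eq]
    exact hψ1 y x
  have hD : ∀ ζ ∈ U h, HasFDerivAt (fun z => ψ (z + 2 * Real.pi) - ψ z) (0 : ℂ →L[ℝ] ℝ) ζ := by
    intro ζ hζ
    have h1 : HasFDerivAt (fun z => ψ (z + 2 * Real.pi))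
        (reL (bet h lam w t (ζ + 2 * Real.pi))) ζ := by
      have := (hψ2 _ (ze3_add_mem hζ)).comp ζ ((hasFDerivAt_id ζ).add_const (2 * Real.pi : ℂ))
      rw [ContinuousLinearMap.comp_id] at this
      exact this
    have h2 := h1.sub (hψ2 ζ hζ)
    rw [bet_per hh hw ht.1 (ze3_U_sub_S hζ), sub_self] at h2
    exact h2
  have hconst : ∀ x ∈ U h, ∀ y ∈ U h,
      ψ (x + 2 * Real.pi) - ψ x = ψ (y + 2 * Real.pi) - ψ y := by
    intro x hx y hy
    exact (ze3_isOpen_U h).is_const_of_fderiv_eq_zero (𝕜 := ℝ)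
      (f := fun z => ψ (z + 2 * Real.pi) - ψ z) (ze3_convex_U h).isPreconnected
      (fun z hz => (hD z hz).differentiableAt.differentiableWithinAt)
      (fun z hz => (hD z hz).fderiv) hx hy
  have hmid : ((h / 2 : ℝ) : ℂ) * Complex.I ∈ U h := by
    constructor
    · simp only [Complex.mul_im, Complex.ofReal_re, Complex.I_im, Complex.ofReal_im, Complex.I_re]
      linarith
    · simp only [Complex.mul_im, Complex.ofReal_re, Complex.I_im, Complex.ofReal_im, Complex.I_re]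
      linarith
  set c : ℝ := ψ (((h / 2 : ℝ) : ℂ) * Complex.I + 2 * Real.pi) -
    ψ (((h / 2 : ℝ) : ℂ) * Complex.I) with hc
  have hcU : ∀ ζ ∈ U h, ψ (ζ + 2 * Real.pi) - ψ ζ = c := fun ζ hζ => hconst ζ hζ _ hmid
  have hbc : ContinuousOn (bet h lam w t) (U h) :=
    fun ζ hζ => (hg' ζ hζ).1.continuousAt.continuousWithinAt
  have hre : ContinuousOn (fun ζ => (bet h lam w t ζ).re) (U h) :=
    Complex.continuous_re.comp_continuousOn hbc
  have hline : ∀ y ∈ Ioo 0 h, ∫ x in (0 : ℝ)..(2 * Real.pi),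
      (bet h lam w t (x + y * Complex.I)).re = c := by
    intro y hy
    have hmem : ∀ x : ℝ, (x + y * Complex.I : ℂ) ∈ U h := by
      intro x
      have e : (x + y * Complex.I : ℂ).im = y := by simp
      exact ⟨by rw [e]; exact hy.1, by rw [e]; exact hy.2⟩
    have hd : ∀ x : ℝ, HasDerivAt (fun x : ℝ => ψ (x + y * Complex.I))
        (bet h lam w t (x + y * Complex.I)).re x := by
      intro x
      have h1 : HasDerivAt (fun x : ℝ => (x + y * Complex.I : ℂ)) 1 x :=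
        (Complex.ofRealCLM.hasDerivAt (x := x)).add_const _
      have h2 := (hψ2 _ (hmem x)).comp_hasDerivAt x h1
      rw [reL_apply, mul_one] at h2
      exact h2
    have hci : Continuous (fun x : ℝ => (bet h lam w t (x + y * Complex.I)).re) := by
      have : ContinuousOn (fun x : ℝ => (bet h lam w t (x + y * Complex.I)).re) univ :=
        hre.comp (f := fun x : ℝ => (x + y * Complex.I : ℂ)) (by fun_prop) (fun x _ => hmem x)
      exact continuousOn_univ.mp this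
    rw [intervalIntegral.integral_eq_sub_of_hasDerivAt (fun x _ => hd x)
      (hci.intervalIntegrable _ _)]
    have h3 := hcU (y * Complex.I) (by
      have := hmem 0
      simpa using this)
    rw [← h3]
    congr 2
    · push_cast
      ring
    · push_cast
      ring
  have hfub := (sper_fubini hh hre (B := C) (fun ζ hζ =>
    (Complex.abs_re_le_norm _).trans (hb ζ (ze3_U_sub_S hζ)))).2.1
  rw [circ_zero hh hw hT ht, intervalIntegral.integral_of_le hh.le, integral_Ioc_eq_integral_Ioo,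
    setIntegral_congr_fun measurableSet_Ioo (fun y hy => hline y hy), setIntegral_const,
    smul_eq_mul, Real.volume_real_Ioo_of_le hh.le, sub_zero] at hfub
  have hc0 : c = 0 := by
    rcases mul_eq_zero.mp hfub.symm with h1 | h1
    · exact absurd h1 hh.ne'
    · exact h1
  intro ζ hζ
  have hclosed : IsClosed {z : ℂ | ψ (z + 2 * Real.pi) - ψ z = 0} := by
    apply isClosed_eq _ continuous_const
    fun_prop
  have hsub : closure (U h) ⊆ {z : ℂ | ψ (z + 2 * Real.pi) - ψ z = 0} :=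
    closure_minimal (fun z hz => by
      change ψ (z + 2 * Real.pi) - ψ z = 0
      rw [hcU z hz, hc0]) hclosed
  have := hsub (ze3_S_closure hh hζ)
  exact sub_eq_zero.mp this

theorem bernoulli_fun {h lam : ℝ} (hh : 0 < h) {w : ℝ → ℂ → ℝ} {Φ : ℝ → ℂ → ℂ}
    (hw : StripSol h lam w Φ) {T : ℝ} (hT : 0 < T) :
    ∃ (B : ℝ → ℂ → ℝ) (C : ℝ), 0 ≤ C ∧ ∀ t ∈ Icc 0 T, (∀ x y, |B t x - B t y| ≤ C * ‖x - y‖) ∧
      (∀ ζ ∈ U h, HasFDerivAt (B t) (reL (bet h lam w t ζ)) ζ) ∧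
      ∀ ζ ∈ S h, B t (ζ + 2 * Real.pi) = B t ζ := by
  obtain ⟨C, hC, hb⟩ := bet_bd hh hw hT
  have key : ∀ t ∈ Icc 0 T, ∃ ψ : ℂ → ℝ, (∀ x y, |ψ x - ψ y| ≤ C * ‖x - y‖) ∧
      (∀ ζ ∈ U h, HasFDerivAt ψ (reL (bet h lam w t ζ)) ζ) ∧
      ∀ ζ ∈ S h, ψ (ζ + 2 * Real.pi) = ψ ζ :=
    fun t ht => ze3_single hh hw hT ht hC (hb t ht)
  choose! B hB using key
  exact ⟨B, C, hC, hB⟩

end Pool.Agent.EAC
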