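import Pool.Agent.EAC.ZD0
import Pool.Agent.EAC.ZB2

/-!
# EAC-ZE4: the pressure is Lipschitz on `dom h`, uniformly in time

`pres`: `p = B(fld(zet z)) - |v|²/2`. `x ↦ B t (fld x)` is `C`-Lipschitz on the plane (`‖fld x - fld y‖ ≤ ‖x - y‖`) and invariant by `2πn` on `S2 h` (`fld x ∈ S h`): `zet_comp_lip`.
`‖velZ z‖² = ‖Tot t (zet z)‖² ‖zp z‖²` (`velZ_eq`); `‖Tot t x‖ = ‖Tot t (fld x)‖` (`FieldZ.cj`), so `x ↦ ‖Tot t x‖²` is bounded by `C²` and `2C²`-Lipschitz on `S2 h`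
(`FieldZ.lip`; `|a² - b²| = |a-b||a+b|`), invariant by `2πn` (`FieldZ.per_int`): `zet_comp_lip`; `‖zp‖²` is bounded and Lipschitz (`zp_lip_all`); product of bounded Lipschitz functions.
-/

set_option autoImplicit false

noncomputable section

namespace Pool.Agent.EAC

open MeasureTheory Set Filter Topology Metric
open scoped ENNReal ComplexConjugate
open Geo hiding isOpen_Oset mem_Oset

def pres (h lam : ℝ) (w : ℝ → ℂ → ℝ) (B : ℝ → ℂ → ℝ) (t : ℝ) (z : ℂ) : ℝ :=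
  B t (fld (zet z)) - ‖velZ h lam (w t) z‖ ^ 2 / 2

theorem fld_lip (x y : ℂ) : ‖fld x - fld y‖ ≤ ‖x - y‖ := by
  have h1 : Complex.normSq (fld x - fld y) ≤ Complex.normSq (x - y) := by
    rw [Complex.normSq_apply, Complex.normSq_apply]
    have e1 : (fld x - fld y).re = x.re - y.re := rfl
    have e2 : (fld x - fld y).im = |x.im| - |y.im| := rfl
    rw [e1, e2, Complex.sub_re, Complex.sub_im]
    have h2 : (|x.im| - |y.im|) * (|x.im| - |y.im|) ≤ (x.im - y.im) * (x.im - y.im) := by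
      have := abs_abs_sub_abs_le_abs_sub x.im y.im
      have h3 := mul_self_le_mul_self (abs_nonneg _) this
      rwa [abs_mul_abs_self, abs_mul_abs_self] at h3
    linarith
  rw [Complex.normSq_eq_norm_sq, Complex.normSq_eq_norm_sq] at h1
  exact (pow_le_pow_iff_left₀ (norm_nonneg _) (norm_nonneg _) two_ne_zero).1 h1

private theorem fld_mem {h : ℝ} {x : ℂ} (hx : x ∈ S2 h) : fld x ∈ S h :=
  ⟨abs_nonneg _, abs_le.2 ⟨hx.1, hx.2⟩⟩

private theorem fld_shift (x : ℂ) (n : ℤ) :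
    fld (x + 2 * Real.pi * n) = fld x + 2 * Real.pi * n := by
  apply Complex.ext
  · simp [fld]
  · simp [fld]

private theorem per_all {h : ℝ} {b : ℂ → ℝ} (hb : ∀ ζ ∈ S h, b (ζ + 2 * Real.pi) = b ζ) (n : ℤ) :
    ∀ ζ ∈ S h, b (ζ + 2 * Real.pi * n) = b ζ := by
  have hS : ∀ ζ ∈ S h, ∀ m : ℤ, ζ + 2 * Real.pi * m ∈ S h := by
    intro ζ hζ m
    refine ⟨?_, ?_⟩
    · simpa using hζ.1
    · simpa using hζ.2
  induction n using Int.induction_on with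
  | zero => intro ζ _; simp
  | succ k ih =>
    intro ζ hζ
    have e : ζ + 2 * Real.pi * ((k + 1 : ℤ) : ℂ) = (ζ + 2 * Real.pi * (k : ℤ)) + 2 * Real.pi := by
      push_cast; ring
    rw [e, hb _ (hS ζ hζ k), ih ζ hζ]
  | pred k ih =>
    intro ζ hζ
    have e : ζ + 2 * Real.pi * ((-(k : ℤ) : ℤ) : ℂ) =
        (ζ + 2 * Real.pi * ((-(k : ℤ) - 1 : ℤ) : ℂ)) + 2 * Real.pi := by
      push_cast; ring
    rw [← ih ζ hζ, e, hb _ (hS ζ hζ _)]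

private theorem norm_fld {T h : ℝ} {f : ℝ → ℂ → ℝ} {G : ℝ → ℂ → ℂ} (hG : FieldZ T h f G) {t : ℝ}
    (ht : t ∈ Icc 0 T) (x : ℂ) : ‖G t x‖ = ‖G t (fld x)‖ := by
  rcases le_or_gt 0 x.im with h0 | h0
  · have : fld x = x := by
      apply Complex.ext
      · rfl
      · exact abs_of_nonneg h0
    rw [this]
  · have : fld x = conj x := by
      apply Complex.ext
      · simp [fld]
      · simp [fld, abs_of_neg h0]
    rw [this, hG.cj t ht, norm_neg, RCLike.norm_conj]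

theorem pres_lip {h lam : ℝ} (hh : 0 < h) (hh1 : h ≤ 1) {w : ℝ → ℂ → ℝ} {Φ : ℝ → ℂ → ℂ}
    (hw : StripSol h lam w Φ) {T : ℝ} (hT : 0 < T) {B : ℝ → ℂ → ℝ} {C : ℝ} (hC : 0 ≤ C)
    (hB : ∀ t ∈ Icc 0 T, (∀ x y, |B t x - B t y| ≤ C * ‖x - y‖) ∧
      ∀ ζ ∈ S h, B t (ζ + 2 * Real.pi) = B t ζ) :
    ∃ K : NNReal, ∀ t ∈ Icc 0 T, LipschitzOnWith K (pres h lam w B t) (dom h) := by
  obtain ⟨L, hL, hLz⟩ := zet_comp_lip
  obtain ⟨M, hM, hMz⟩ := zp_lip_all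
  obtain ⟨hM1, hM2⟩ := hMz h hh hh1
  have hF := Tot_field hh hw hT
  obtain ⟨D, hD, hDl⟩ := hF.lip
  have hK0 : 0 ≤ L * C + (L * (2 * D * D) * M ^ 2 + D ^ 2 * (2 * M * M)) / 2 := by positivity
  refine ⟨⟨L * C + (L * (2 * D * D) * M ^ 2 + D ^ 2 * (2 * M * M)) / 2, hK0⟩, fun t ht => ?_⟩
  obtain ⟨hb1, hb2⟩ := hB t ht
  obtain ⟨hd1, hd2⟩ := hDl t ht
  refine LipschitzOnWith.of_dist_le_mul fun z hz z' hz' => ?_
  rw [Real.dist_eq, dist_eq_norm]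
  change |pres h lam w B t z - pres h lam w B t z'| ≤
    (L * C + (L * (2 * D * D) * M ^ 2 + D ^ 2 * (2 * M * M)) / 2) * ‖z - z'‖
  have hz2 := zet_mem_S2 hh1 hz
  have hz2' := zet_mem_S2 hh1 hz'
  -- the Bernoulli part
  have p1 : |B t (fld (zet z)) - B t (fld (zet z'))| ≤ L * C * ‖z - z'‖ := by
    refine hLz h hh hh1 (fun x => B t (fld x)) C hC (fun x _ y _ => ?_) (fun x hx n => ?_) z hz z' hz'
    · exact (hb1 _ _).trans (mul_le_mul_of_nonneg_left (fld_lip x y) hC)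
    · change B t (fld (x + 2 * Real.pi * n)) = B t (fld x)
      rw [fld_shift, per_all hb2 n _ (fld_mem hx)]
  -- the velocity
  have q1 : ∀ x ∈ S2 h, ‖Tot h lam w t x‖ ≤ D := by
    intro x hx
    rw [norm_fld hF ht x]
    exact hd1 _ (fld_mem hx)
  have p2 : |‖Tot h lam w t (zet z)‖ ^ 2 - ‖Tot h lam w t (zet z')‖ ^ 2| ≤
      L * (2 * D * D) * ‖z - z'‖ := by
    refine hLz h hh hh1 (fun x => ‖Tot h lam w t x‖ ^ 2) (2 * D * D) (by positivity)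
      (fun x hx y hy => ?_) (fun x _ n => ?_) z hz z' hz'
    · have e : ‖Tot h lam w t x‖ ^ 2 - ‖Tot h lam w t y‖ ^ 2 =
          (‖Tot h lam w t x‖ + ‖Tot h lam w t y‖) * (‖Tot h lam w t x‖ - ‖Tot h lam w t y‖) := by
        ring
      have e1 : |‖Tot h lam w t x‖ - ‖Tot h lam w t y‖| ≤ D * ‖x - y‖ := by
        rw [norm_fld hF ht x, norm_fld hF ht y]
        exact (abs_norm_sub_norm_le _ _).trans ((hd2 _ (fld_mem hx) _ (fld_mem hy)).trans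
          (mul_le_mul_of_nonneg_left (fld_lip x y) hD))
      have e2 : |‖Tot h lam w t x‖ + ‖Tot h lam w t y‖| ≤ 2 * D := by
        rw [abs_of_nonneg (by positivity)]
        linarith [q1 x hx, q1 y hy]
      change |‖Tot h lam w t x‖ ^ 2 - ‖Tot h lam w t y‖ ^ 2| ≤ _
      rw [e, abs_mul]
      calc _ ≤ (2 * D) * (D * ‖x - y‖) := mul_le_mul e2 e1 (abs_nonneg _) (by positivity)
        _ = 2 * D * D * ‖x - y‖ := by ring
    · change ‖Tot h lam w t (x + 2 * Real.pi * n)‖ ^ 2 = ‖Tot h lam w t x‖ ^ 2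
      rw [hF.per_int ht]
  have p3 : |‖zp z‖ ^ 2 - ‖zp z'‖ ^ 2| ≤ 2 * M * M * ‖z - z'‖ := by
    have e : ‖zp z‖ ^ 2 - ‖zp z'‖ ^ 2 = (‖zp z‖ + ‖zp z'‖) * (‖zp z‖ - ‖zp z'‖) := by ring
    have e1 : |‖zp z‖ - ‖zp z'‖| ≤ M * ‖z - z'‖ :=
      (abs_norm_sub_norm_le _ _).trans (hM2 z hz z' hz')
    have e2 : |‖zp z‖ + ‖zp z'‖| ≤ 2 * M := by
      rw [abs_of_nonneg (by positivity)]
      linarith [hM1 z hz, hM1 z' hz']
    rw [e, abs_mul]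
    calc _ ≤ (2 * M) * (M * ‖z - z'‖) := mul_le_mul e2 e1 (abs_nonneg _) (by positivity)
      _ = 2 * M * M * ‖z - z'‖ := by ring
  have nv : ∀ x, ‖velZ h lam (w t) x‖ ^ 2 = ‖Tot h lam w t (zet x)‖ ^ 2 * ‖zp x‖ ^ 2 := by
    intro x
    rw [velZ_eq, RCLike.norm_conj, norm_mul, norm_mul, norm_neg, Complex.norm_I, one_mul, mul_pow]
  have p4 : |‖velZ h lam (w t) z‖ ^ 2 - ‖velZ h lam (w t) z'‖ ^ 2| ≤
      (L * (2 * D * D) * M ^ 2 + D ^ 2 * (2 * M * M)) * ‖z - z'‖ := by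
    rw [nv z, nv z']
    have e : ‖Tot h lam w t (zet z)‖ ^ 2 * ‖zp z‖ ^ 2 - ‖Tot h lam w t (zet z')‖ ^ 2 * ‖zp z'‖ ^ 2 =
        (‖Tot h lam w t (zet z)‖ ^ 2 - ‖Tot h lam w t (zet z')‖ ^ 2) * ‖zp z‖ ^ 2 +
        ‖Tot h lam w t (zet z')‖ ^ 2 * (‖zp z‖ ^ 2 - ‖zp z'‖ ^ 2) := by ring
    rw [e]
    refine (abs_add_le _ _).trans ?_
    rw [abs_mul, abs_mul, abs_of_nonneg (by positivity : 0 ≤ ‖zp z‖ ^ 2),
      abs_of_nonneg (by positivity : 0 ≤ ‖Tot h lam w t (zet z')‖ ^ 2)]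
    have f1 : |‖Tot h lam w t (zet z)‖ ^ 2 - ‖Tot h lam w t (zet z')‖ ^ 2| * ‖zp z‖ ^ 2 ≤
        (L * (2 * D * D) * ‖z - z'‖) * M ^ 2 :=
      mul_le_mul p2 (pow_le_pow_left₀ (norm_nonneg _) (hM1 z hz) 2) (by positivity) (by positivity)
    have f2 : ‖Tot h lam w t (zet z')‖ ^ 2 * |‖zp z‖ ^ 2 - ‖zp z'‖ ^ 2| ≤
        D ^ 2 * (2 * M * M * ‖z - z'‖) :=
      mul_le_mul (pow_le_pow_left₀ (norm_nonneg _) (q1 _ hz2') 2) p3 (abs_nonneg _) (by positivity)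
    linarith
  unfold pres
  have e : B t (fld (zet z)) - ‖velZ h lam (w t) z‖ ^ 2 / 2 -
      (B t (fld (zet z')) - ‖velZ h lam (w t) z'‖ ^ 2 / 2) =
      (B t (fld (zet z)) - B t (fld (zet z'))) -
      (‖velZ h lam (w t) z‖ ^ 2 - ‖velZ h lam (w t) z'‖ ^ 2) / 2 := by ring
  rw [e]
  refine (abs_sub _ _).trans ?_
  rw [abs_div, abs_of_pos (by norm_num : (0:ℝ) < 2)]
  linarith

end Pool.Agent.EAC
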