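import Pool.Agent.EAC.ZE5a

/-!
# EAC-ZE5: the momentum equation off the real line

`0 < Im z`: `momentum_upper`. `Im z < 0`: everything at `conj z` (`conj_mem_interior_dom`): `pres (conj z) = pres z` (`zet_conj`, `fld (conj ζ) = fld ζ`), `velZ (conj z) = conj (velZ z)`
(`velZ_eq`, `FieldZ.cj` for `Tot_field`, `zp_conj`), the same for `conj (-i Tott (zet z) zp z)` (`Tott_field`); for a real differentiable `u`,
`fderiv (u ∘ conj) z ξ = fderiv u (conj z) (conj ξ)` (`Complex.conjCLE`); `grad (p ∘ conj) z = conj (grad p (conj z))`.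
-/

set_option autoImplicit false

noncomputable section

namespace Pool.Agent.EAC

open MeasureTheory Set Filter Topology Metric
open scoped ENNReal ComplexConjugate
open Geo hiding isOpen_Oset mem_Oset

theorem ze5_conj_field (F : ℂ → ℂ) (hF : ∀ ζ, F (conj ζ) = -conj (F ζ)) (x : ℂ) :
    conj (-Complex.I * F (zet (conj x)) * zp (conj x)) =
      conj (conj (-Complex.I * F (zet x) * zp x)) := by
  rw [zet_conj, hF, zp_conj]
  simp

theorem ze5_fderiv {F : ℂ → ℂ} (hF : ∀ x, F (conj x) = conj (F x)) {z : ℂ}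
    (hd : DifferentiableAt ℝ F (conj z)) :
    DifferentiableAt ℝ F z ∧ ∀ u, fderiv ℝ F z u = conj (fderiv ℝ F (conj z) (conj u)) := by
  have h1 : HasFDerivAt (fun x : ℂ => conj x) (Complex.conjCLE : ℂ →L[ℝ] ℂ) z :=
    Complex.conjCLE.hasFDerivAt
  have h2 : HasFDerivAt (fun x => F (conj x)) ((fderiv ℝ F (conj z)).comp
      (Complex.conjCLE : ℂ →L[ℝ] ℂ)) z := hd.hasFDerivAt.comp z h1
  have h3 : HasFDerivAt (fun x => conj (F (conj x))) ((Complex.conjCLE : ℂ →L[ℝ] ℂ).comp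
      ((fderiv ℝ F (conj z)).comp (Complex.conjCLE : ℂ →L[ℝ] ℂ))) z :=
    Complex.conjCLE.hasFDerivAt.comp z h2
  have e : (fun x => conj (F (conj x))) = F := by
    funext x
    rw [hF, Complex.conj_conj]
  rw [e] at h3
  refine ⟨h3.differentiableAt, fun u => ?_⟩
  rw [h3.fderiv]
  rfl

theorem ze5_fderiv' {F : ℂ → ℝ} (hF : ∀ x, F (conj x) = F x) {z : ℂ}
    (hd : DifferentiableAt ℝ F (conj z)) :
    DifferentiableAt ℝ F z ∧ grad F z = conj (grad F (conj z)) := by
  have h1 : HasFDerivAt (fun x : ℂ => conj x) (Complex.conjCLE : ℂ →L[ℝ] ℂ) z :=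
    Complex.conjCLE.hasFDerivAt
  have h2 : HasFDerivAt (fun x => F (conj x)) ((fderiv ℝ F (conj z)).comp
      (Complex.conjCLE : ℂ →L[ℝ] ℂ)) z := hd.hasFDerivAt.comp z h1
  have e : (fun x => F (conj x)) = F := by
    funext x
    exact hF x
  rw [e] at h2
  refine ⟨h2.differentiableAt, ?_⟩
  unfold grad dx dy
  rw [h2.fderiv]
  have e1 : ((fderiv ℝ F (conj z)).comp (Complex.conjCLE : ℂ →L[ℝ] ℂ)) 1 =
      fderiv ℝ F (conj z) 1 := by simp
  have e2 : ((fderiv ℝ F (conj z)).comp (Complex.conjCLE : ℂ →L[ℝ] ℂ)) Complex.I =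
      -fderiv ℝ F (conj z) Complex.I := by simp
  rw [e1, e2]
  apply Complex.ext <;> simp

theorem momentum_off_real {h lam : ℝ} (hh : 0 < h) (hh1 : h ≤ 1) {w : ℝ → ℂ → ℝ} {Φ : ℝ → ℂ → ℂ}
    (hw : StripSol h lam w Φ) {T : ℝ} (hT : 0 < T) {B : ℝ → ℂ → ℝ} {t : ℝ} (ht : t ∈ Icc 0 T)
    (hB : ∀ ζ ∈ U h, HasFDerivAt (B t) (reL (bet h lam w t ζ)) ζ)
    (hp : ∀ ζ ∈ S h, B t (ζ + 2 * Real.pi) = B t ζ) {z : ℂ} (hz : z ∈ interior (dom h))
    (hi : z.im ≠ 0) :
    DifferentiableAt ℝ (velZ h lam (w t)) z ∧ DifferentiableAt ℝ (pres h lam w B t) z ∧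
      conj (-Complex.I * Tott h lam w t (zet z) * zp z) =
        -(fderiv ℝ (velZ h lam (w t)) z (velZ h lam (w t) z)) - grad (pres h lam w B t) z := by
  rcases lt_or_gt_of_ne hi with hneg | hpos
  · have hz' : conj z ∈ interior (dom h) := conj_mem_interior_dom hh hh1 hz
    have hi' : 0 < (conj z).im := by rw [Complex.conj_im]; linarith
    obtain ⟨h1, h2, h3⟩ := momentum_upper hh hh1 hw hT ht hB hp hz' hi'
    have hV : ∀ x, velZ h lam (w t) (conj x) = conj (velZ h lam (w t) x) := fun x => by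
      rw [velZ_eq, velZ_eq]
      exact ze5_conj_field _ ((Tot_field hh hw hT).cj t ht) x
    have hP : ∀ x, pres h lam w B t (conj x) = pres h lam w B t x := fun x => by
      unfold pres
      rw [hV, Complex.norm_conj, zet_conj]
      congr 2
      apply Complex.ext <;> simp [fld]
    obtain ⟨d1, d2⟩ := ze5_fderiv hV h1
    obtain ⟨d3, d4⟩ := ze5_fderiv' hP h2
    refine ⟨d1, d3, ?_⟩
    have e1 := ze5_conj_field _ ((Tott_field hh hw hT).cj t ht) z
    rw [h3] at e1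
    have e2 := congrArg (fun x : ℂ => conj x) e1
    simp only [Complex.conj_conj] at e2
    rw [← e2, d2, d4, hV, map_sub, map_neg]
  · exact momentum_upper hh hh1 hw hT ht hB hp hz hpos

end Pool.Agent.EAC
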