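import Pool.Agent.EAC.ZDefs

/-!
# EAC-ZG6: the algebra of the momentum equation (upper half)

With `q = -i Tot zp` (`= conj v`), `D Tot = lin a f`, `zp' = b`: `dq(u) = -i ((a zp u + i f Im (zp u)) zp + Tot b u)`;
`dp(u) = Re (β zp u) - Re (conj q dq(u))`, `β = i τ - w Tot`, `f |zp|² = w`. Claim: `conj (-i τ zp) = - conj (dq(v)) - (dp 1 + i dp i)`, `v = conj q`.
Proof (see the plan in the message): take conjugates; `dp 1 - i dp i = β zp - conj q α + i f zp Re(conj q zp)` with
`α = -i (a zp² + Tot b)`, `dq(v) = α conj q + f zp Im (zp conj q)`, and `Im x + i Re x = i conj x`, so that everything reduces to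
`-i f zp conj(zp) q = - w Tot zp`.
In Lean: `Complex.ext` after writing everything with real and imaginary parts, or do the two steps above by hand; `hw : f * (zp.re^2 + zp.im^2) = w`.
-/

set_option autoImplicit false

noncomputable section

namespace Pool.Agent.EAC

open MeasureTheory Set Filter Topology Metric
open scoped ENNReal ComplexConjugate

theorem momentum_algebra (Tot zp a b τ : ℂ) (f w : ℝ) (hw : f * Complex.normSq zp = w)
    (q : ℂ) (hq : q = -Complex.I * Tot * zp)
    (dq : ℂ → ℂ) (hdq : ∀ u, dq u = -Complex.I * (lin a f (zp * u) * zp + Tot * (b * u)))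
    (dp : ℂ → ℝ) (hdp : ∀ u, dp u = ((Complex.I * τ - w * Tot) * zp * u).re - (conj q * dq u).re) :
    conj (-Complex.I * τ * zp) =
      -(conj (dq (conj q))) - (((dp 1 : ℝ) : ℂ) + ((dp Complex.I : ℝ) : ℂ) * Complex.I) := by
  subst hw hq
  have e1 := hdp 1
  have e2 := hdp Complex.I
  rw [hdq] at e1 e2
  rw [e1, e2, hdq]
  simp only [lin_apply, Complex.normSq_apply]
  apply Complex.ext
  · simp only [Complex.add_re, Complex.sub_re, Complex.neg_re, Complex.mul_re, Complex.conj_re,
      Complex.add_im, Complex.sub_im, Complex.neg_im, Complex.mul_im, Complex.conj_im,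
      Complex.I_re, Complex.I_im, Complex.one_re, Complex.one_im, Complex.ofReal_re,
      Complex.ofReal_im]
    ring
  · simp only [Complex.add_re, Complex.sub_re, Complex.neg_re, Complex.mul_re, Complex.conj_re,
      Complex.add_im, Complex.sub_im, Complex.neg_im, Complex.mul_im, Complex.conj_im,
      Complex.I_re, Complex.I_im, Complex.one_re, Complex.one_im, Complex.ofReal_re,
      Complex.ofReal_im]
    ring

end Pool.Agent.EAC
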