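import Pool.Agent.EAC.ZE4
import Pool.Agent.EAC.ZG6

/-!
# EAC-ZE5a: the momentum equation in the upper half

`z ∈ interior (dom h)`, `0 < Im z`: `ζ = zet z ∈ U h` (`zet_mem_U`). `Q z := -i Tot t (zet z) zp z`, `velZ = conj Q`. Near `z` (`Im > 0`, interior) `fld (zet z) = zet z`, so
`pres = B t (zet z) - ‖Q z‖²/2`. Derivatives: `Tot t ∘ zet`: `hasFDerivAt_comp_zet` with `FieldZ.deriv`: `u ↦ lin a f (zp u)`, `f = fr w t ζ`; `zp` is complex differentiable (`b = zp'`,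
`qq ≠ 0`): `dq u = -i (lin a f (zp u) zp + Tot (b u))`; `B t ∘ zet`: `u ↦ Re (bet zp u)`; `‖Q‖²/2`: `u ↦ Re (conj q dq u)`. `bet = i Tott - w Tot`. Then `momentum_algebra` (ZG6) with
`τ = Tott t ζ`, `w = w t ζ`; `f |zp|² = w` is `rho (zet z) ‖zp z‖² = 1`: `rho ζ = ‖zp (Zi ζ)‖⁻²`, `Zi (zet z) = z` (`Zi_zet`), `zp z ≠ 0`.
`grad p z = dp 1 + i dp i`.
`Im z < 0`: everything at `conj z`: `pres (conj z) = pres z`, `velZ (conj z) = conj (velZ z)`, the same for `conj (-i Tott zp)` (`zet_conj`, `FieldZ.cj`, `zp_conj`); for a real differentiable `u`,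
`fderiv (u ∘ conj) z ξ = fderiv u (conj z) (conj ξ)`.
-/

set_option autoImplicit false

noncomputable section

namespace Pool.Agent.EAC

open MeasureTheory Set Filter Topology Metric
open scoped ENNReal ComplexConjugate
open Geo hiding isOpen_Oset mem_Oset

private theorem mu_S_shift {h : ℝ} {ζ : ℂ} (hζ : ζ ∈ S h) (n : ℤ) : ζ + 2 * Real.pi * n ∈ S h := by
  obtain ⟨h0, h1⟩ := hζ
  have e : (ζ + 2 * Real.pi * n : ℂ).im = ζ.im := by simp
  exact ⟨by rw [e]; exact h0, by rw [e]; exact h1⟩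

private theorem mu_per_nat {h : ℝ} {F : ℂ → ℝ} (hp : ∀ ζ ∈ S h, F (ζ + 2 * Real.pi) = F ζ) {ζ : ℂ}
    (hζ : ζ ∈ S h) (n : ℕ) : F (ζ + 2 * Real.pi * (n : ℤ)) = F ζ := by
  induction n with
  | zero => simp
  | succ n ih =>
    have e : (ζ + 2 * Real.pi * ((n + 1 : ℕ) : ℤ) : ℂ) = (ζ + 2 * Real.pi * (n : ℤ)) + 2 * Real.pi := by
      push_cast; ring
    rw [e, hp _ (mu_S_shift hζ n), ih]

private theorem mu_per_int {h : ℝ} {F : ℂ → ℝ} (hp : ∀ ζ ∈ S h, F (ζ + 2 * Real.pi) = F ζ) {ζ : ℂ}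
    (hζ : ζ ∈ S h) (n : ℤ) : F (ζ + 2 * Real.pi * n) = F ζ := by
  obtain ⟨k, rfl | rfl⟩ := n.eq_nat_or_neg
  · exact mu_per_nat hp hζ k
  · have h1 := mu_S_shift hζ (-(k : ℤ))
    have h2 := mu_per_nat hp h1 k
    rw [← h2]
    congr 1
    push_cast; ring

private theorem mu_isOpen_U (h : ℝ) : IsOpen (U h) :=
  (isOpen_lt continuous_const Complex.continuous_im).inter
    (isOpen_lt Complex.continuous_im continuous_const)

private theorem mu_U_sub_S (h : ℝ) : U h ⊆ S h := fun _ hζ => ⟨hζ.1.le, hζ.2.le⟩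

private theorem mu_zp_diff {z : ℂ} (h : qq z ≠ 0) : DifferentiableAt ℂ zp z := by
  have h1 : DifferentiableAt ℂ (fun z : ℂ => 4 * (1 - z ^ 2)) z := by fun_prop
  have h2 : DifferentiableAt ℂ (fun z : ℂ => z ^ 4 + 6 * z ^ 2 + 1) z := by fun_prop
  exact h1.div h2 h

private theorem mu_zp_ne {z : ℂ} (h1 : ‖z‖ < 1) (hq : qq z ≠ 0) : zp z ≠ 0 := by
  rw [zp_eq]
  refine div_ne_zero (mul_ne_zero (by norm_num) ?_) hq
  intro h0
  have h2 : z ^ 2 = 1 := (sub_eq_zero.mp h0).symm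
  have h3 : ‖z‖ ^ 2 = 1 := by rw [← norm_pow, h2, norm_one]
  nlinarith [norm_nonneg z]

theorem momentum_upper {h lam : ℝ} (hh : 0 < h) (hh1 : h ≤ 1) {w : ℝ → ℂ → ℝ} {Φ : ℝ → ℂ → ℂ}
    (hw : StripSol h lam w Φ) {T : ℝ} (hT : 0 < T) {B : ℝ → ℂ → ℝ} {t : ℝ} (ht : t ∈ Icc 0 T)
    (hB : ∀ ζ ∈ U h, HasFDerivAt (B t) (reL (bet h lam w t ζ)) ζ)
    (hp : ∀ ζ ∈ S h, B t (ζ + 2 * Real.pi) = B t ζ) {z : ℂ} (hz : z ∈ interior (dom h))
    (hi : 0 < z.im) :
    DifferentiableAt ℝ (velZ h lam (w t)) z ∧ DifferentiableAt ℝ (pres h lam w B t) z ∧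
      conj (-Complex.I * Tott h lam w t (zet z) * zp z) =
        -(fderiv ℝ (velZ h lam (w t)) z (velZ h lam (w t) z)) - grad (pres h lam w B t) z := by
  have hzd : z ∈ dom h := interior_subset hz
  have hA := qA_ne_zero hh1 hzd
  have hBne := qB_ne_zero hh1 hzd
  have hq := dom_qq_ne_zero hh1 hzd
  have hnz : ‖z‖ < 1 := ((mem_interior_dom hh hh1).1 hz).1
  have hζ : zet z ∈ U h := zet_mem_U hh hh1 hz hi
  have hG := Tot_field (lam := lam) hh hw hT
  obtain ⟨a, ha⟩ := hG.deriv t ht (zet z) hζ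
  -- derivative of `Tot t ∘ zet`
  have hTz := hasFDerivAt_comp_zet hA hBne ha
    (Eventually.of_forall fun ζ n => hG.per_int ht ζ n)
  -- derivative of `B t ∘ zet`
  have hBz := hasFDerivAt_comp_zet hA hBne (hB (zet z) hζ)
    (by
      filter_upwards [(mu_isOpen_U h).mem_nhds hζ] with ζ hζ' n
      exact mu_per_int hp (mu_U_sub_S h hζ') n)
  -- derivative of `zp`
  have hzpR : HasFDerivAt zp (ContinuousLinearMap.mul ℝ ℂ (deriv zp z)) z := by
    have h4 := (mu_zp_diff hq).hasDerivAt.hasFDerivAt.restrictScalars ℝ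
    have e : (ContinuousLinearMap.mul ℝ ℂ (deriv zp z)) =
        (ContinuousLinearMap.toSpanSingleton ℂ (deriv zp z)).restrictScalars ℝ := by
      refine ContinuousLinearMap.ext fun x => ?_
      simp [mul_comm]
    rw [e]; exact h4
  -- derivative of `Q`
  obtain ⟨dQ, hdQ, hdQe⟩ : ∃ dQ : ℂ →L[ℝ] ℂ,
      HasFDerivAt (fun z => -Complex.I * Tot h lam w t (zet z) * zp z) dQ z ∧
      ∀ u, dQ u = -Complex.I * (lin a (fr w t (zet z)) (zp z * u) * zp z +
        Tot h lam w t (zet z) * (deriv zp z * u)) := by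
    refine ⟨_, (hTz.const_mul (-Complex.I)).mul hzpR, fun u => ?_⟩
    simp only [add_apply, smul_apply, smul_eq_mul,
      ContinuousLinearMap.comp_apply, ContinuousLinearMap.mul_apply']
    ring
  have hvel : velZ h lam (w t) = fun z => conj (-Complex.I * Tot h lam w t (zet z) * zp z) := by
    funext z
    exact velZ_eq h lam w t z
  have hvd : HasFDerivAt (velZ h lam (w t))
      ((Complex.conjCLE : ℂ →L[ℝ] ℂ).comp dQ) z := by
    rw [hvel]
    exact (Complex.conjCLE : ℂ →L[ℝ] ℂ).hasFDerivAt.comp z hdQ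
  -- the pressure
  have hpe : pres h lam w B t =ᶠ[𝓝 z] fun z => B t (zet z) -
      (1 / 2 : ℝ) * ‖-Complex.I * Tot h lam w t (zet z) * zp z‖ ^ 2 := by
    filter_upwards [isOpen_interior.mem_nhds hz,
      (isOpen_lt continuous_const Complex.continuous_im).mem_nhds hi] with x hx hxi
    have hxU : zet x ∈ U h := zet_mem_U hh hh1 hx hxi
    have e : fld (zet x) = zet x := by
      unfold fld
      rw [abs_of_pos hxU.1]
    unfold pres
    rw [e, velZ_eq, RCLike.norm_conj]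
    ring
  have hns : HasFDerivAt (fun z => ‖-Complex.I * Tot h lam w t (zet z) * zp z‖ ^ 2)
      (2 • (innerSL ℝ (-Complex.I * Tot h lam w t (zet z) * zp z)).comp dQ) z := hdQ.norm_sq
  obtain ⟨dp, hdp, hdpe⟩ : ∃ dp : ℂ →L[ℝ] ℝ, HasFDerivAt (pres h lam w B t) dp z ∧
      ∀ u, dp u = (bet h lam w t (zet z) * zp z * u).re -
        (conj (-Complex.I * Tot h lam w t (zet z) * zp z) * dQ u).re := by
    refine ⟨_, (hBz.sub (hns.const_mul (1 / 2 : ℝ))).congr_of_eventuallyEq hpe, fun u => ?_⟩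
    simp only [sub_apply, smul_apply, smul_eq_mul, nsmul_eq_mul,
      ContinuousLinearMap.comp_apply, ContinuousLinearMap.mul_apply', reL_apply, innerSL_apply_apply,
      Complex.inner]
    rw [mul_assoc (bet h lam w t (zet z))]
    push_cast
    ring_nf
  refine ⟨hvd.differentiableAt, hdp.differentiableAt, ?_⟩
  have hfw : fr w t (zet z) * Complex.normSq (zp z) = w t (zet z) := by
    have hZ : Zi (zet z) = z := Zi_zet hnz.le hi.le hBne
    have hne : ‖zp z‖ ≠ 0 := norm_ne_zero_iff.mpr (mu_zp_ne hnz hq)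
    unfold fr rho mm
    rw [hZ, Complex.normSq_eq_norm_sq]
    field_simp
  have key := momentum_algebra (Tot h lam w t (zet z)) (zp z) a (deriv zp z)
    (Tott h lam w t (zet z)) (fr w t (zet z)) (w t (zet z)) hfw _ rfl (fun u => dQ u) hdQe
    (fun u => dp u) (fun u => by rw [hdpe u]; rfl)
  rw [key, hvd.fderiv, velZ_eq]
  unfold grad dx dy
  rw [hdp.fderiv]
  rfl

end Pool.Agent.EAC
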