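import Pool.Agent.EAC.ZDefs

/-!
# EAC-ZG1: generic lemma: a continuous function differentiable off the real line

`p` is continuous at every point of an open set `O` of the plane, differentiable at every point of `O` off the real line with derivative `D z`,
and `D` is continuous on `O`. Then `p` is differentiable with derivative `D z` at every point of `O`.
Proof: let `x ∈ O` be real, `ball x r ⊆ O`. On the convex open half balls `s± = ball x r ∩ {±Im > 0}` apply
`hasFDerivWithinAt_closure_of_tendsto_fderiv` (`f_cont` on `closure s`: use a smaller ball so that the closure is inside `O`); then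
`HasFDerivWithinAt.union` and `closure s₊ ∪ closure s₋ ∈ 𝓝 x`.
-/

set_option autoImplicit false

noncomputable section

namespace Pool.Agent.EAC

open MeasureTheory Set Filter Topology Metric
open scoped ENNReal ComplexConjugate

/-- One open convex half ball: the derivative on its closure. -/
private theorem zg1_half {O : Set ℂ} {p : ℂ → ℝ} {D : ℂ → ℂ →L[ℝ] ℝ}
    (hp : ContinuousOn p O) (hD : ContinuousOn D O)
    (hd : ∀ z ∈ O, z.im ≠ 0 → HasFDerivAt p (D z) z) {s : Set ℂ} (hs : IsOpen s) (hc : Convex ℝ s)
    (hsO : closure s ⊆ O) (hsim : ∀ z ∈ s, z.im ≠ 0) {x : ℂ} (hx : x ∈ O) :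
    HasFDerivWithinAt p (D x) (closure s) x := by
  have hsub : s ⊆ O := subset_closure.trans hsO
  refine hasFDerivWithinAt_closure_of_tendsto_fderiv
    (fun z hz => (hd z (hsub hz) (hsim z hz)).differentiableAt.differentiableWithinAt) hc hs
    (fun y hy => (hp y (hsO hy)).mono hsub) ?_
  have h1 : Tendsto D (𝓝[s] x) (𝓝 (D x)) := (hD x hx).mono_left (nhdsWithin_mono _ hsub)
  refine h1.congr' ?_
  filter_upwards [self_mem_nhdsWithin] with z hz
  exact (hd z (hsub hz) (hsim z hz)).fderiv.symm

theorem hasFDerivAt_across_real {O : Set ℂ} (hO : IsOpen O) {p : ℂ → ℝ} {D : ℂ → ℂ →L[ℝ] ℝ}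
    (hp : ContinuousOn p O) (hD : ContinuousOn D O)
    (hd : ∀ z ∈ O, z.im ≠ 0 → HasFDerivAt p (D z) z) : ∀ z ∈ O, HasFDerivAt p (D z) z := by
  intro x hx
  by_cases hxi : x.im = 0
  swap
  · exact hd x hx hxi
  obtain ⟨r, hr, hball⟩ := Metric.isOpen_iff.1 hO x hx
  have hr2 : 0 < r / 2 := by linarith
  -- the two half balls
  set sp : Set ℂ := ball x (r / 2) ∩ {z : ℂ | 0 < z.im} with hsp
  set sm : Set ℂ := ball x (r / 2) ∩ {z : ℂ | z.im < 0} with hsm
  have hop : IsOpen sp := isOpen_ball.inter (isOpen_lt continuous_const Complex.continuous_im)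
  have hom : IsOpen sm := isOpen_ball.inter (isOpen_lt Complex.continuous_im continuous_const)
  have hcp : Convex ℝ sp := (convex_ball _ _).inter (convex_halfSpace_im_gt 0)
  have hcm : Convex ℝ sm := (convex_ball _ _).inter (convex_halfSpace_im_lt 0)
  have hclO : closedBall x (r / 2) ⊆ O :=
    (closedBall_subset_ball (by linarith)).trans hball
  have hclp : closure sp ⊆ O :=
    (closure_mono inter_subset_left).trans (closure_ball_subset_closedBall.trans hclO)
  have hclm : closure sm ⊆ O :=
    (closure_mono inter_subset_left).trans (closure_ball_subset_closedBall.trans hclO)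
  have h1 := zg1_half hp hD hd hop hcp hclp (fun z hz => ne_of_gt hz.2) hx
  have h2 := zg1_half hp hD hd hom hcm hclm (fun z hz => ne_of_lt hz.2) hx
  have h3 := h1.union h2
  refine h3.hasFDerivAt ?_
  refine mem_of_superset (ball_mem_nhds x hr2) ?_
  intro z hz
  by_cases hz0 : z.im < 0
  · exact Or.inr (subset_closure ⟨hz, hz0⟩)
  · left
    push Not at hz0
    -- approximate by points above
    rw [mem_closure_iff_nhds]
    intro t ht
    have h4 : t ∩ ball x (r / 2) ∈ 𝓝 z := inter_mem ht (isOpen_ball.mem_nhds hz)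
    obtain ⟨e, he, hbe⟩ := Metric.mem_nhds_iff.1 h4
    refine ⟨z + (e / 2 : ℝ) * Complex.I, ?_, ?_⟩
    · refine (hbe ?_).1
      rw [mem_ball, dist_eq_norm]
      simp [abs_of_pos he]
      linarith
    · refine ⟨(hbe ?_).2, ?_⟩
      · rw [mem_ball, dist_eq_norm]
        simp [abs_of_pos he]
        linarith
      · show 0 < (z + (e / 2 : ℝ) * Complex.I).im
        simp
        linarith

end Pool.Agent.EAC
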