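import Pool.Agent.EAC.ZE5
import Pool.Agent.EAC.ZG1
import Pool.Agent.EAC.ZC2
import Pool.Agent.EAC.ZE3

/-!
# EAC-ZE6: the momentum equation everywhere in the interior

Hypothesis `hsm`: `velZ h lam (w t)` is `C^∞` in the interior of `dom h` (shared theorem of PART N). Let `gr z = -(conj (-i Tott (zet z) zp z)) - fderiv (velZ) z (velZ z)`; it is continuous on
`interior (dom h)` (`FieldZ.cont_zet` for `Tott_field`, `zp` continuous, `hsm`). `D z = reL (conj (gr z))` is continuous, and for `Im z ≠ 0` `pres` has derivative `D z`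
(`momentum_off_real`; a real linear functional `L` on `ℂ` is `reL (conj (L 1 + i L i))`). `pres` is continuous (`pres_lip`). `hasFDerivAt_across_real` (ZG1).
`momentum_all` collects: uniform Lipschitz constant (`bernoulli_fun`, `pres_lip`), differentiability, and the equation, with `velZ_time`.
-/

set_option autoImplicit false

noncomputable section

namespace Pool.Agent.EAC

open MeasureTheory Set Filter Topology Metric
open scoped ENNReal ComplexConjugate
open Geo hiding isOpen_Oset mem_Oset

theorem ze6_reL_grad (L : ℂ →L[ℝ] ℝ) :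
    L = reL (conj (((L 1 : ℝ) : ℂ) + ((L Complex.I : ℝ) : ℂ) * Complex.I)) := by
  ext u
  rw [reL_apply]
  have e : u = u.re • (1 : ℂ) + u.im • Complex.I := by apply Complex.ext <;> simp
  conv_lhs => rw [e, map_add, map_smul, map_smul]
  simp
  ring

theorem momentum_all {h lam : ℝ} (hh : 0 < h) (hh1 : h ≤ 1) {w : ℝ → ℂ → ℝ} {Φ : ℝ → ℂ → ℂ}
    (hw : StripSol h lam w Φ) {T : ℝ} (hT : 0 < T)
    (hsm : ∀ t ∈ Icc 0 T, ContDiffOn ℝ (⊤ : ℕ∞) (velZ h lam (w t)) (interior (dom h))) :
    ∃ (p : ℝ → ℂ → ℝ) (K : NNReal), ∀ t ∈ Icc 0 T, LipschitzOnWith K (p t) (dom h) ∧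
      ∀ z ∈ interior (dom h), DifferentiableAt ℝ (p t) z ∧
        HasDerivWithinAt (fun τ => velZ h lam (w τ) z)
          (-(fderiv ℝ (velZ h lam (w t)) z (velZ h lam (w t) z)) - grad (p t) z) (Icc 0 T) t := by
  obtain ⟨B, C, hC, hB⟩ := bernoulli_fun hh hw hT
  obtain ⟨K, hK⟩ := pres_lip hh hh1 hw hT hC (fun t ht => ⟨(hB t ht).1, (hB t ht).2.2⟩)
  refine ⟨pres h lam w B, K, fun t ht => ⟨hK t ht, ?_⟩⟩
  obtain ⟨hB1, hB2, hB3⟩ := hB t ht
  -- the time derivative of the velocity
  set A : ℂ → ℂ := fun z => conj (-Complex.I * Tott h lam w t (zet z) * zp z) with hA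
  set gr : ℂ → ℂ := fun z => -(A z) - fderiv ℝ (velZ h lam (w t)) z (velZ h lam (w t) z) with hgr
  have hoff : ∀ z ∈ interior (dom h), z.im ≠ 0 →
      DifferentiableAt ℝ (pres h lam w B t) z ∧ grad (pres h lam w B t) z = gr z := by
    intro z hz hi
    obtain ⟨-, h2, h3⟩ := momentum_off_real hh hh1 hw hT ht hB2 hB3 hz hi
    refine ⟨h2, ?_⟩
    simp only [hgr, hA]
    rw [h3]
    ring
  have hAc : ContinuousOn A (interior (dom h)) := by
    have h1 : ContinuousOn (fun z => Tott h lam w t (zet z)) (dom h) :=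
      (Tott_field hh hw hT).cont_zet hh hh1 ht
    have h2 : ContinuousOn zp (dom h) := by
      obtain ⟨L, hL, hzp⟩ := zp_lip_all
      obtain ⟨-, h3⟩ := hzp h hh hh1
      refine LipschitzOnWith.continuousOn (K := ⟨L, hL.le⟩) ?_
      refine LipschitzOnWith.of_dist_le_mul fun x hx y hy => ?_
      rw [dist_eq_norm, dist_eq_norm]
      exact h3 x hx y hy
    exact (Complex.continuous_conj.comp_continuousOn
      ((continuousOn_const.mul h1).mul h2)).mono interior_subset
  have hgc : ContinuousOn gr (interior (dom h)) := by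
    have h1 := hsm t ht
    have h2 : ContinuousOn (fderiv ℝ (velZ h lam (w t))) (interior (dom h)) :=
      h1.continuousOn_fderiv_of_isOpen isOpen_interior (by simp)
    exact hAc.neg.sub (h2.clm_apply h1.continuousOn)
  have hD : ContinuousOn (fun z => reL (conj (gr z))) (interior (dom h)) := by
    have h1 : Continuous (fun c : ℂ => reL c) := by
      have e : (fun c : ℂ => reL c) = fun c => (ContinuousLinearMap.compL ℝ ℂ ℂ ℝ Complex.reCLM)
        (ContinuousLinearMap.mul ℝ ℂ c) := rfl
      rw [e]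
      exact (ContinuousLinearMap.continuous _).comp (ContinuousLinearMap.continuous _)
    exact (h1.comp Complex.continuous_conj).comp_continuousOn hgc
  have hall := hasFDerivAt_across_real isOpen_interior
    ((hK t ht).continuousOn.mono interior_subset) hD (fun z hz hi => by
      obtain ⟨h1, h2⟩ := hoff z hz hi
      have h3 := h1.hasFDerivAt
      rw [ze6_reL_grad (fderiv ℝ (pres h lam w B t) z)] at h3
      have h4 : (((fderiv ℝ (pres h lam w B t) z 1 : ℝ) : ℂ) +
        ((fderiv ℝ (pres h lam w B t) z Complex.I : ℝ) : ℂ) * Complex.I) = gr z := h2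
      rw [h4] at h3
      exact h3)
  intro z hz
  have h1 := hall z hz
  refine ⟨h1.differentiableAt, ?_⟩
  have h2 := velZ_time hh hh1 hw hT ht (interior_subset hz)
  have h3 : grad (pres h lam w B t) z = gr z := by
    unfold grad dx dy
    rw [h1.fderiv, reL_apply, reL_apply]
    apply Complex.ext <;> simp
  rw [h3]
  have e : -(fderiv ℝ (velZ h lam (w t)) z (velZ h lam (w t) z)) - gr z = A z := by
    simp only [hgr]; ring
  rw [e]
  exact h2

end Pool.Agent.EAC
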