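import Pool.Agent.EAC.ZB2

/-!
# EAC-ZF1: the velocity in the strip near the bottom and near the corners

`Vel_eq`: `Vel = mm · i conj Tot`: `Im Vel = mm Re Tot`, `‖Vel‖ = mm ‖Tot‖`. `mm_le` (`S h ⊆ S 1`): `mm ≤ 128 ‖sin ζ‖ ≤ 128 cosh 1`. `FieldZ.lip` (`Tot_field`): `|Re Tot ζ| = |Re Tot ζ - Re Tot (Re ζ)| ≤ C Im ζ`
(`FieldZ.re0` at the real point `Re ζ`).
-/

set_option autoImplicit false

noncomputable section

namespace Pool.Agent.EAC

open MeasureTheory Set Filter Topology Metric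
open scoped ENNReal ComplexConjugate
open Geo hiding isOpen_Oset mem_Oset

private theorem zf1_sin_le {ζ : ℂ} (h0 : 0 ≤ ζ.im) (h1 : ζ.im ≤ 1) : ‖Complex.sin ζ‖ ≤ Real.exp 1 := by
  have e : Complex.sin ζ = (Complex.exp (-ζ * Complex.I) - Complex.exp (ζ * Complex.I))
      * Complex.I / 2 := rfl
  have n1 : ‖Complex.exp (-ζ * Complex.I)‖ ≤ Real.exp 1 := by
    rw [Complex.norm_exp]
    apply Real.exp_le_exp.mpr
    simp
    linarith
  have n2 : ‖Complex.exp (ζ * Complex.I)‖ ≤ Real.exp 1 := by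
    rw [Complex.norm_exp]
    apply Real.exp_le_exp.mpr
    simp
    linarith
  rw [e, norm_div, norm_mul, Complex.norm_I, mul_one]
  have n3 := norm_sub_le (Complex.exp (-ζ * Complex.I)) (Complex.exp (ζ * Complex.I))
  simp only [Complex.norm_ofNat]
  linarith

theorem vel_bounds {h lam : ℝ} (hh : 0 < h) (hh1 : h ≤ 1) {w : ℝ → ℂ → ℝ} {Φ : ℝ → ℂ → ℂ}
    (hw : StripSol h lam w Φ) {T : ℝ} (hT : 0 < T) :
    ∃ C : ℝ, 0 ≤ C ∧ ∀ t ∈ Icc 0 T, ∀ ζ ∈ S h,
      |(Vel h lam mm (fun x => rho x * w t x) ζ).im| ≤ C * ζ.im ∧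
      ‖Vel h lam mm (fun x => rho x * w t x) ζ‖ ≤ C * ‖Complex.sin ζ‖ := by
  have hF := Tot_field hh hw hT
  obtain ⟨C, hC, hlip⟩ := hF.lip
  have he1 : 1 ≤ Real.exp 1 := Real.one_le_exp zero_le_one
  refine ⟨128 * Real.exp 1 * C, by positivity, fun t ht ζ hζ => ?_⟩
  obtain ⟨hb, hl⟩ := hlip t ht
  have h0 : 0 ≤ ζ.im := hζ.1
  have h1 : ζ.im ≤ 1 := hζ.2.trans hh1
  have hS1 : ζ ∈ S 1 := ⟨h0, h1⟩
  have hm0 := mm_nonneg ζ
  have hm := Geo.mm_le hS1
  have hsin := zf1_sin_le h0 h1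
  rw [Vel_eq]
  constructor
  · have e : ((mm ζ : ℂ) * (Complex.I * conj (Tot h lam w t ζ))).im =
        mm ζ * (Tot h lam w t ζ).re := by
      simp
    rw [e, abs_mul, abs_of_nonneg hm0]
    have hr : ((ζ.re : ℝ) : ℂ) ∈ S h := ⟨by simp, by simpa using hh.le⟩
    have h2 := hl ζ hζ _ hr
    have h3 : (Tot h lam w t ((ζ.re : ℝ) : ℂ)).re = 0 := hF.re0 t ht _ (Or.inl (by simp))
    have h4 : |(Tot h lam w t ζ).re| ≤ C * ζ.im := by
      have h5 : (Tot h lam w t ζ).re = (Tot h lam w t ζ - Tot h lam w t ((ζ.re : ℝ) : ℂ)).re := by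
        rw [Complex.sub_re, h3, sub_zero]
      rw [h5]
      refine (Complex.abs_re_le_norm _).trans (h2.trans (le_of_eq ?_))
      have h6 : ζ - ((ζ.re : ℝ) : ℂ) = (ζ.im : ℂ) * Complex.I := by
        apply Complex.ext <;> simp
      rw [h6, norm_mul, Complex.norm_I, mul_one, Complex.norm_real, Real.norm_of_nonneg h0]
    calc mm ζ * |(Tot h lam w t ζ).re| ≤ (128 * Real.exp 1) * (C * ζ.im) := by
          apply mul_le_mul _ h4 (abs_nonneg _) (by positivity)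
          exact hm.trans (by nlinarith)
      _ = 128 * Real.exp 1 * C * ζ.im := by ring
  · rw [norm_mul, norm_mul, Complex.norm_I, one_mul, RCLike.norm_conj, Complex.norm_real,
      Real.norm_of_nonneg hm0]
    have h7 := hb ζ hζ
    calc mm ζ * ‖Tot h lam w t ζ‖ ≤ (128 * ‖Complex.sin ζ‖) * C :=
          mul_le_mul hm h7 (norm_nonneg _) (by positivity)
      _ ≤ 128 * Real.exp 1 * C * ‖Complex.sin ζ‖ := by
          have : 0 ≤ 128 * ‖Complex.sin ζ‖ * C := by positivity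
          nlinarith

end Pool.Agent.EAC
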