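import Pool.Agent.EAC.ZDefs

/-!
# EAC-ZG4: generic lemmas: Gronwall both ways, sign preservation

`gron_two`: `y` is differentiable (within `[0,T]`) with `‖y'‖ ≤ C ‖y‖`: then `‖y t‖ ≤ e^{Ct} ‖y 0‖` (`norm_le_gronwallBound_of_norm_deriv_right_le`)
and `‖y 0‖ ≤ e^{Ct} ‖y t‖` (the same for `s ↦ y (t - s)`).
`sign_pres`: real `y`: `0 < y t ↔ 0 < y 0`, `y t = 0 ↔ y 0 = 0` (intermediate value theorem: if `y 0 > 0` and `y t ≤ 0` then `y s = 0` somewhere).
-/

set_option autoImplicit false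

noncomputable section

namespace Pool.Agent.EAC

open MeasureTheory Set Filter Topology Metric
open scoped ENNReal ComplexConjugate

private theorem zg4_gron {E : Type*} [NormedAddCommGroup E] [NormedSpace ℝ E] {T C : ℝ}
    {y y' : ℝ → E}
    (hd : ∀ t ∈ Icc 0 T, HasDerivWithinAt y (y' t) (Icc 0 T) t)
    (hb : ∀ t ∈ Icc 0 T, ‖y' t‖ ≤ C * ‖y t‖) {t : ℝ} (ht : t ∈ Icc 0 T) :
    ‖y t‖ ≤ Real.exp (C * t) * ‖y 0‖ ∧ ‖y 0‖ ≤ Real.exp (C * t) * ‖y t‖ := by
  have hsub : Icc 0 t ⊆ Icc 0 T := Icc_subset_Icc_right ht.2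
  constructor
  · have h := norm_le_gronwallBound_of_norm_deriv_right_le (f := y) (f' := y') (δ := ‖y 0‖)
      (K := C) (ε := 0) (a := 0) (b := t)
      (fun x hx => ((hd x (hsub hx)).mono hsub).continuousWithinAt)
      (fun x hx => by
        have h1 := hd x (hsub (Ico_subset_Icc_self hx))
        have h2 : Icc 0 T ∈ 𝓝[Ici x] x :=
          mem_of_superset (Icc_mem_nhdsGE (lt_of_lt_of_le hx.2 ht.2)) (Icc_subset_Icc_left hx.1)
        exact h1.mono_of_mem_nhdsWithin h2)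
      le_rfl
      (fun x hx => by simpa using hb x (hsub (Ico_subset_Icc_self hx)))
      t ⟨ht.1, le_rfl⟩
    rw [gronwallBound_ε0, sub_zero] at h
    linarith [h, mul_comm ‖y 0‖ (Real.exp (C * t))]
  · -- the reversed function
    have h := norm_le_gronwallBound_of_norm_deriv_right_le (f := fun s => y (t - s))
      (f' := fun s => -y' (t - s)) (δ := ‖y t‖)
      (K := C) (ε := 0) (a := 0) (b := t)
      (by
        have hc : ContinuousOn y (Icc 0 t) :=
          fun x hx => ((hd x (hsub hx)).mono hsub).continuousWithinAt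
        exact hc.comp (by fun_prop) (fun s hs => ⟨by linarith [hs.2], by linarith [hs.1]⟩))
      (fun x hx => by
        have hx' : t - x ∈ Icc 0 T := ⟨by linarith [hx.2], by linarith [hx.1, ht.2]⟩
        have h1 := hd (t - x) hx'
        have h0 : HasDerivWithinAt (fun s : ℝ => t - s) (-1) (Icc 0 t) x := by
          simpa using ((hasDerivAt_id x).const_sub t).hasDerivWithinAt
        have h3 := h1.scomp x (h := fun s : ℝ => t - s) h0 (fun s hs => ⟨by linarith [hs.2], by linarith [hs.1, ht.2]⟩)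
        have h2 : Icc 0 t ∈ 𝓝[Ici x] x :=
          mem_of_superset (Icc_mem_nhdsGE hx.2) (Icc_subset_Icc_left hx.1)
        have h4 := h3.mono_of_mem_nhdsWithin h2
        simpa [Function.comp_def] using h4)
      (by simp)
      (fun x hx => by
        have hx' : t - x ∈ Icc 0 T := ⟨by linarith [hx.2], by linarith [hx.1, ht.2]⟩
        simpa using hb (t - x) hx')
      t ⟨ht.1, le_rfl⟩
    rw [gronwallBound_ε0, sub_zero] at h
    simp only [sub_self] at h
    linarith [h, mul_comm ‖y t‖ (Real.exp (C * t))]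

theorem gron_two {T C : ℝ} (hC : 0 ≤ C) {y y' : ℝ → ℂ}
    (hd : ∀ t ∈ Icc 0 T, HasDerivWithinAt y (y' t) (Icc 0 T) t)
    (hb : ∀ t ∈ Icc 0 T, ‖y' t‖ ≤ C * ‖y t‖) {t : ℝ} (ht : t ∈ Icc 0 T) :
    ‖y t‖ ≤ Real.exp (C * t) * ‖y 0‖ ∧ ‖y 0‖ ≤ Real.exp (C * t) * ‖y t‖ :=
  zg4_gron hd hb ht

theorem sign_pres {T C : ℝ} (hC : 0 ≤ C) {y y' : ℝ → ℝ}
    (hd : ∀ t ∈ Icc 0 T, HasDerivWithinAt y (y' t) (Icc 0 T) t)
    (hb : ∀ t ∈ Icc 0 T, |y' t| ≤ C * |y t|) {t : ℝ} (ht : t ∈ Icc 0 T) :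
    (y t = 0 ↔ y 0 = 0) ∧ (0 < y t ↔ 0 < y 0) := by
  have hg : ∀ s ∈ Icc 0 T, |y s| ≤ Real.exp (C * s) * |y 0| ∧ |y 0| ≤ Real.exp (C * s) * |y s| :=
    fun s hs => zg4_gron hd (by simpa using hb) hs
  have hz : ∀ s ∈ Icc 0 T, (y s = 0 ↔ y 0 = 0) := by
    intro s hs
    obtain ⟨h1, h2⟩ := hg s hs
    constructor
    · intro h
      rw [h, abs_zero, mul_zero] at h2
      exact abs_nonpos_iff.1 h2
    · intro h
      rw [h, abs_zero, mul_zero] at h1
      exact abs_nonpos_iff.1 h1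
  refine ⟨hz t ht, ?_⟩
  have hc : ContinuousOn y (Icc 0 t) := fun x hx =>
    ((hd x (Icc_subset_Icc_right ht.2 hx)).mono (Icc_subset_Icc_right ht.2)).continuousWithinAt
  constructor
  · intro h
    by_contra h0
    push Not at h0
    -- `y 0 ≤ 0 < y t`
    obtain ⟨s, hs, hs0⟩ := intermediate_value_Icc ht.1 hc (show (0 : ℝ) ∈ Icc (y 0) (y t) from ⟨h0, h.le⟩)
    have h3 := (hz s (Icc_subset_Icc_right ht.2 hs)).1 hs0
    have h4 := (hz t ht).2 h3
    linarith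
  · intro h
    by_contra h0
    push Not at h0
    obtain ⟨s, hs, hs0⟩ := intermediate_value_Icc' ht.1 hc (show (0 : ℝ) ∈ Icc (y t) (y 0) from ⟨h0, h.le⟩)
    have h3 := (hz s (Icc_subset_Icc_right ht.2 hs)).1 hs0
    linarith

end Pool.Agent.EAC
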