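import Pool.Agent.EAC.ZF1
import Pool.Agent.EAC.ZG4

/-!
# EAC-ZF2: invariant sets of the flow in the strip

`T = t + 1`, constant `C` of `vel_bounds`. (1) `y = Im (Φ t ζ)`: `sign_pres`. (2) `y = sin (Φ t ζ)`: `y' = cos (Φ) Vel`, `‖cos‖ ≤ cosh 1 ≤ 2`: `gron_two`.
(3) if `sin ζ = 0` then `sin (Φ t ζ) = 0` for all `t`, `Vel = 0` along the trajectory, so `Φ t ζ` is constant (`constant_of_derivWithin_zero` or `gron_two` for `Φ t ζ - ζ`).
(4) `ζ.im = 0`: `Φ t ζ` is real, `y = sin (Re Φ t ζ)` real, `y' = cos(Re Φ) Re Vel`, `|y'| ≤ C |y|` (`‖sin Φ‖ = |sin Re Φ|` for a real point): `sign_pres`.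
(5) from (1), (4) and `Zi_im_eq_zero_iff`. (6) `hw.shift`, induction on `n` (for negative `n` apply `shift` at `ζ + 2πn ∈ S h`).
-/

set_option autoImplicit false

noncomputable section

namespace Pool.Agent.EAC

open MeasureTheory Set Filter Topology Metric
open scoped ENNReal ComplexConjugate
open Geo hiding isOpen_Oset mem_Oset

theorem Phi_mem {h lam : ℝ} {w : ℝ → ℂ → ℝ} {Φ : ℝ → ℂ → ℂ}
    (hw : StripSol h lam w Φ) {t : ℝ} (ht : 0 ≤ t) {ζ : ℂ} (hζ : ζ ∈ S h) : Φ t ζ ∈ S h :=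
  (hw.bij t ht).mapsTo hζ

theorem Phi_deriv_Icc {h lam : ℝ} {w : ℝ → ℂ → ℝ} {Φ : ℝ → ℂ → ℂ}
    (hw : StripSol h lam w Φ) {T t : ℝ} (ht : t ∈ Icc 0 T) {ζ : ℂ} (hζ : ζ ∈ S h) :
    HasDerivWithinAt (fun τ => Φ τ ζ)
      (Vel h lam mm (fun x => rho x * w t x) (Φ t ζ)) (Icc 0 T) t :=
  (hw.flow t ht.1 ζ hζ).mono Icc_subset_Ici_self

theorem Phi_im_zero {h lam : ℝ} (hh : 0 < h) (hh1 : h ≤ 1) {w : ℝ → ℂ → ℝ} {Φ : ℝ → ℂ → ℂ}
    (hw : StripSol h lam w Φ) {t : ℝ} (ht : 0 ≤ t) {ζ : ℂ} (hζ : ζ ∈ S h) :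
    (Φ t ζ).im = 0 ↔ ζ.im = 0 := by
  have hT : 0 < t + 1 := by linarith
  obtain ⟨C, hC, hb⟩ := vel_bounds hh hh1 hw hT
  have key := sign_pres (T := t + 1) hC (y := fun τ => (Φ τ ζ).im)
    (y' := fun τ => (Vel h lam mm (fun x => rho x * w τ x) (Φ τ ζ)).im)
    (fun τ hτ => by
      have := Complex.imCLM.hasFDerivAt.comp_hasDerivWithinAt τ (Phi_deriv_Icc hw hτ hζ)
      exact this)
    (fun τ hτ => by
      have h1 := Phi_mem hw hτ.1 hζ
      have h2 := (hb τ hτ _ h1).1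
      rw [abs_of_nonneg h1.1]
      exact h2)
    (t := t) ⟨ht, by linarith⟩
  have h0 := hw.init ζ hζ
  have h1 := key.1
  simp only [h0] at h1
  exact h1

theorem norm_cos_le_two {z : ℂ} (h0 : 0 ≤ z.im) (h1 : z.im ≤ 1) : ‖Complex.cos z‖ ≤ 2 := by
  rw [Complex.cos, norm_div]
  have e1 : ‖Complex.exp (z * Complex.I)‖ = Real.exp (-z.im) := by
    rw [Complex.norm_exp]
    congr 1
    simp
  have e2 : ‖Complex.exp (-z * Complex.I)‖ = Real.exp (z.im) := by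
    rw [Complex.norm_exp]
    congr 1
    simp
  have h2 := norm_add_le (Complex.exp (z * Complex.I)) (Complex.exp (-z * Complex.I))
  rw [e1, e2] at h2
  have h3 : Real.exp (-z.im) ≤ 1 := Real.exp_le_one_iff.2 (by linarith)
  have h4 : Real.exp (z.im) ≤ 3 := by
    have := Real.exp_le_exp.2 h1
    have := Real.exp_one_lt_d9
    linarith
  have h5 : ‖(2 : ℂ)‖ = 2 := by simp
  rw [h5]
  linarith

theorem Phi_sin_zero {h lam : ℝ} (hh : 0 < h) (hh1 : h ≤ 1) {w : ℝ → ℂ → ℝ} {Φ : ℝ → ℂ → ℂ}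
    (hw : StripSol h lam w Φ) {t : ℝ} (ht : 0 ≤ t) {ζ : ℂ} (hζ : ζ ∈ S h) :
    (Complex.sin (Φ t ζ) = 0 ↔ Complex.sin ζ = 0) ∧ (Complex.sin ζ = 0 → Φ t ζ = ζ) := by
  have hT : 0 < t + 1 := by linarith
  obtain ⟨C, hC, hb⟩ := vel_bounds hh hh1 hw hT
  have h0 := hw.init ζ hζ
  have key : ∀ τ ∈ Icc 0 (t + 1), (Complex.sin (Φ τ ζ) = 0 ↔ Complex.sin ζ = 0) := by
    intro s hs
    have key := gron_two (T := t + 1) (C := 2 * C) (by linarith)
      (y := fun τ => Complex.sin (Φ τ ζ))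
      (y' := fun τ => Complex.cos (Φ τ ζ) * (Vel h lam mm (fun x => rho x * w τ x) (Φ τ ζ)))
      (fun τ hτ => by
        have := (Complex.hasDerivAt_sin (Φ τ ζ)).comp_hasDerivWithinAt τ (Phi_deriv_Icc hw hτ hζ)
        exact this)
      (fun τ hτ => by
        have h1 := Phi_mem hw hτ.1 hζ
        have h2 := (hb τ hτ _ h1).2
        have h3 := norm_cos_le_two h1.1 (h1.2.trans hh1)
        rw [norm_mul]
        calc _ ≤ 2 * (C * ‖Complex.sin (Φ τ ζ)‖) :=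
              mul_le_mul h3 h2 (norm_nonneg _) (by norm_num)
          _ = _ := by ring)
      (t := s) hs
    simp only [h0] at key
    constructor
    · intro hz
      have := key.2
      rw [hz, norm_zero, mul_zero] at this
      exact norm_le_zero_iff.1 this
    · intro hz
      have := key.1
      rw [hz, norm_zero, mul_zero] at this
      exact norm_le_zero_iff.1 this
  refine ⟨key t ⟨ht, by linarith⟩, fun hz => ?_⟩
  have k2 := gron_two (T := t + 1) (C := 0) le_rfl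
    (y := fun τ => Φ τ ζ - ζ)
    (y' := fun τ => (Vel h lam mm (fun x => rho x * w τ x) (Φ τ ζ)))
    (fun τ hτ => (Phi_deriv_Icc hw hτ hζ).sub_const ζ)
    (fun τ hτ => by
      have h1 := Phi_mem hw hτ.1 hζ
      have h2 := (hb τ hτ _ h1).2
      rw [(key τ hτ).2 hz, norm_zero, mul_zero] at h2
      rw [zero_mul]
      exact h2)
    (t := t) ⟨ht, by linarith⟩
  have h3 := k2.1
  simp only [h0, sub_self, norm_zero, mul_zero] at h3
  exact sub_eq_zero.1 (norm_le_zero_iff.1 h3)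

theorem Phi_Zi_im {h lam : ℝ} (hh : 0 < h) (hh1 : h ≤ 1) {w : ℝ → ℂ → ℝ} {Φ : ℝ → ℂ → ℂ}
    (hw : StripSol h lam w Φ) {t : ℝ} (ht : 0 ≤ t) {ζ : ℂ} (hζ : ζ ∈ S h) :
    (Zi (Φ t ζ)).im = 0 ↔ (Zi ζ).im = 0 := by
  rw [Zi_im_eq_zero_iff (Phi_mem hw ht hζ).1, Zi_im_eq_zero_iff hζ.1, Phi_im_zero hh hh1 hw ht hζ]
  refine and_congr_right fun hz => ?_
  have hT : 0 < t + 1 := by linarith
  obtain ⟨C, hC, hb⟩ := vel_bounds hh hh1 hw hT
  have h0 := hw.init ζ hζ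
  have key := sign_pres (T := t + 1) hC (y := fun τ => Real.sin (Φ τ ζ).re)
    (y' := fun τ => Real.cos (Φ τ ζ).re * (Vel h lam mm (fun x => rho x * w τ x) (Φ τ ζ)).re)
    (fun τ hτ => by
      have h1 := Complex.reCLM.hasFDerivAt.comp_hasDerivWithinAt τ (Phi_deriv_Icc hw hτ hζ)
      have h2 := (Real.hasDerivAt_sin (Φ τ ζ).re).comp_hasDerivWithinAt τ h1
      exact h2)
    (fun τ hτ => by
      have h1 := Phi_mem hw hτ.1 hζ
      have h2 := (hb τ hτ _ h1).2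
      have h3 : (Φ τ ζ).im = 0 := (Phi_im_zero hh hh1 hw hτ.1 hζ).2 hz
      have h4 : ‖Complex.sin (Φ τ ζ)‖ = |Real.sin (Φ τ ζ).re| := by
        rw [← ofReal_sin_re h3, Complex.norm_real, Real.norm_eq_abs]
      rw [h4] at h2
      rw [abs_mul]
      calc _ ≤ 1 * ‖Vel h lam mm (fun x => rho x * w τ x) (Φ τ ζ)‖ :=
            mul_le_mul (Real.abs_cos_le_one _) (Complex.abs_re_le_norm _) (abs_nonneg _)
              (by norm_num)
        _ ≤ _ := by rw [one_mul]; exact h2)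
    (t := t) ⟨ht, by linarith⟩
  have h1 := key.2
  simp only [h0] at h1
  rw [← not_lt, ← not_lt, h1]

theorem Phi_shift {h lam : ℝ} {w : ℝ → ℂ → ℝ} {Φ : ℝ → ℂ → ℂ}
    (hw : StripSol h lam w Φ) {t : ℝ} (ht : 0 ≤ t) {ζ : ℂ} (hζ : ζ ∈ S h) (n : ℤ) :
    Φ t (ζ + 2 * Real.pi * n) = Φ t ζ + 2 * Real.pi * n := by
  have hS : ∀ m : ℤ, ζ + 2 * Real.pi * m ∈ S h := by
    intro m
    have : (ζ + 2 * Real.pi * m).im = ζ.im := by
      simp
    refine ⟨?_, ?_⟩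
    · rw [this]; exact hζ.1
    · rw [this]; exact hζ.2
  induction n using Int.induction_on with
  | zero => simp
  | succ n ih =>
    have h1 := hw.shift t ht _ (hS n)
    rw [ih] at h1
    push_cast at h1 ⊢
    rw [show ζ + 2 * (Real.pi : ℂ) * ((n : ℂ) + 1) = ζ + 2 * Real.pi * n + 2 * Real.pi by ring, h1]
    ring
  | pred n ih =>
    have h1 := hw.shift t ht _ (hS (-(n : ℤ) - 1))
    have h2 : ζ + 2 * (Real.pi : ℂ) * ((-(n : ℤ) - 1 : ℤ) : ℂ) + 2 * Real.pi =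
        ζ + 2 * Real.pi * ((-(n : ℤ) : ℤ) : ℂ) := by
      push_cast
      ring
    rw [h2, ih] at h1
    have h3 : Φ t (ζ + 2 * (Real.pi : ℂ) * ((-(n : ℤ) - 1 : ℤ) : ℂ)) =
        Φ t ζ + 2 * Real.pi * ((-(n : ℤ) : ℤ) : ℂ) - 2 * Real.pi := by
      rw [h1]; ring
    rw [h3]
    push_cast
    ring

end Pool.Agent.EAC
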