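import Pool.Agent.EAC.ZF2

/-!
# EAC-ZF3a: the flow in the plane: definition

`velZ_conj`: `zet_conj`, `zp_conj`, `W_conj`. `gam_Zi`: `0 ≤ Im (Zi ζ)` (`Zi_im_nonneg`), `zet (Zi ζ) = ζ + 2πn` (`zet_Zi`), `Phi_shift`, `Zi_add_int`.
`gam_init`: `hw.init` (`zet z ∈ S h`: `zet_mem_S`), `Zi_zet`.
-/

set_option autoImplicit false

noncomputable section

namespace Pool.Agent.EAC

open MeasureTheory Set Filter Topology Metric
open scoped ENNReal ComplexConjugate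
open Geo hiding isOpen_Oset mem_Oset

open Classical in
def gam (Φ : ℝ → ℂ → ℂ) (t : ℝ) (z : ℂ) : ℂ :=
  if 0 ≤ z.im then Zi (Φ t (zet z)) else conj (Zi (Φ t (zet (conj z))))

theorem velZ_conj (h lam : ℝ) (w : ℂ → ℝ) (z : ℂ) :
    velZ h lam w (conj z) = conj (velZ h lam w z) := by
  unfold velZ
  rw [zet_conj, zp_conj, W_conj]
  simp only [map_mul, map_add, map_neg, Complex.conj_I, Complex.conj_ofReal, Complex.conj_conj,
    neg_neg]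
  ring_nf

theorem gam_Zi {h lam : ℝ} {w : ℝ → ℂ → ℝ} {Φ : ℝ → ℂ → ℂ}
    (hw : StripSol h lam w Φ) {t : ℝ} (ht : 0 ≤ t) {ζ : ℂ} (hζ : ζ ∈ S h) :
    gam Φ t (Zi ζ) = Zi (Φ t ζ) := by
  obtain ⟨n, hn⟩ := zet_Zi ζ
  unfold gam
  rw [if_pos (Zi_im_nonneg hζ.1), hn, Phi_shift hw ht hζ n, Zi_add_int]

theorem gam_init {h lam : ℝ} (hh : 0 < h) (hh1 : h ≤ 1) {w : ℝ → ℂ → ℝ} {Φ : ℝ → ℂ → ℂ}
    (hw : StripSol h lam w Φ) {z : ℂ} (hz : z ∈ dom h) : gam Φ 0 z = z := by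
  have key : ∀ x : ℂ, x ∈ dom h → 0 ≤ x.im → Zi (Φ 0 (zet x)) = x := fun x hx hi => by
    rw [hw.init _ (zet_mem_S hh1 hx hi)]
    exact Zi_zet hx.1 hi (qB_ne_zero hh1 hx)
  unfold gam
  split_ifs with hi
  · exact key z hz hi
  · rw [key (conj z) (conj_mem_dom hz) (by rw [Complex.conj_im]; linarith [not_le.mp hi])]
    exact Complex.conj_conj z

end Pool.Agent.EAC
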