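import Pool.Agent.EAC.ZF3a

/-!
# EAC-ZF3b: the flow in the plane is a bijection of `dom h`

Upper part `M⁺ = Zi '' S h` is mapped to itself (`hw.bij`, `gam_Zi`), points with `Im > 0` to points with `Im > 0` and conversely (`Phi_Zi_im`, `Zi_im_nonneg`); every point of `dom h` is `Zi ζ` or
`conj (Zi ζ)` with `ζ ∈ S h` (`mem_dom_iff_Zi`); for `Im z < 0`: `gam Φ t z = conj (gam Φ t (conj z))`.
Injective: both upper: `Zi_inj`, `Phi_shift`, injectivity of `Φ t`; both lower: the same after conjugation; mixed is impossible (upper image has `Im ≥ 0`, lower image has `Im < 0`).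
Surjective: `y = Zi η`, `η = Φ t ζ`: `y = gam (Zi ζ)`; `y = conj (Zi η)` with `Im y < 0`: `y = gam (conj (Zi ζ))`, `Im (Zi ζ) > 0` by `Phi_Zi_im`.
-/

set_option autoImplicit false

noncomputable section

namespace Pool.Agent.EAC

open MeasureTheory Set Filter Topology Metric
open scoped ENNReal ComplexConjugate
open Geo hiding isOpen_Oset mem_Oset

private theorem gam_lower (Φ : ℝ → ℂ → ℂ) (t : ℝ) {z : ℂ} (hz : z.im < 0) :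
    gam Φ t z = conj (gam Φ t (conj z)) := by
  have h1 : ¬ (0 ≤ z.im) := not_le.mpr hz
  have h2 : 0 ≤ (conj z).im := by simpa using hz.le
  rw [gam, gam, if_neg h1, if_pos h2]

private theorem dom_cases {h : ℝ} (hh : 0 < h) (hh1 : h ≤ 1) {z : ℂ} (hz : z ∈ dom h) :
    (∃ ζ ∈ S h, z = Zi ζ) ∨ (∃ ζ ∈ S h, z = conj (Zi ζ) ∧ 0 < (Zi ζ).im) := by
  obtain ⟨ζ, hζ, h1 | h1⟩ := (mem_dom_iff_Zi hh.le hh1).mp hz
  · exact Or.inl ⟨ζ, hζ, h1⟩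
  · rcases (Zi_im_nonneg hζ.1).eq_or_lt with h2 | h2
    · left
      refine ⟨ζ, hζ, ?_⟩
      rw [h1]
      exact Complex.conj_eq_iff_im.mpr h2.symm
    · exact Or.inr ⟨ζ, hζ, h1, h2⟩

private theorem Zi_Phi_inj {h lam : ℝ} {w : ℝ → ℂ → ℝ} {Φ : ℝ → ℂ → ℂ}
    (hw : StripSol h lam w Φ) {t : ℝ} (ht : 0 ≤ t) {ζ ζ' : ℂ} (hζ : ζ ∈ S h) (hζ' : ζ' ∈ S h)
    (he : Zi (Φ t ζ) = Zi (Φ t ζ')) : Zi ζ = Zi ζ' := by
  obtain ⟨n, hn⟩ := Zi_inj he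
  rw [← Phi_shift hw ht hζ n] at hn
  have hm : ζ + 2 * Real.pi * n ∈ S h := by
    have : (ζ + 2 * Real.pi * n).im = ζ.im := by simp
    exact ⟨by rw [this]; exact hζ.1, by rw [this]; exact hζ.2⟩
  rw [(hw.bij t ht).injOn hζ' hm hn, Zi_add_int]

private theorem gam_conj_Zi {h lam : ℝ} {w : ℝ → ℂ → ℝ} {Φ : ℝ → ℂ → ℂ}
    (hw : StripSol h lam w Φ) {t : ℝ} (ht : 0 ≤ t) {ζ : ℂ} (hζ : ζ ∈ S h) (hp : 0 < (Zi ζ).im) :
    gam Φ t (conj (Zi ζ)) = conj (Zi (Φ t ζ)) := by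
  rw [gam_lower Φ t (by simpa using hp), Complex.conj_conj, gam_Zi hw ht hζ]

private theorem Phi_Zi_pos {h lam : ℝ} (hh : 0 < h) (hh1 : h ≤ 1) {w : ℝ → ℂ → ℝ} {Φ : ℝ → ℂ → ℂ}
    (hw : StripSol h lam w Φ) {t : ℝ} (ht : 0 ≤ t) {ζ : ℂ} (hζ : ζ ∈ S h) :
    0 < (Zi (Φ t ζ)).im ↔ 0 < (Zi ζ).im := by
  have h1 := Zi_im_nonneg hζ.1
  have h2 := Zi_im_nonneg ((hw.bij t ht).mapsTo hζ).1
  have h3 := Phi_Zi_im hh hh1 hw ht hζ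
  constructor
  · intro hp
    exact lt_of_le_of_ne h1 (fun h0 => hp.ne' (h3.mpr h0.symm))
  · intro hp
    exact lt_of_le_of_ne h2 (fun h0 => hp.ne' (h3.mp h0.symm))

theorem gam_bij {h lam : ℝ} (hh : 0 < h) (hh1 : h ≤ 1) {w : ℝ → ℂ → ℝ} {Φ : ℝ → ℂ → ℂ}
    (hw : StripSol h lam w Φ) {t : ℝ} (ht : 0 ≤ t) : BijOn (gam Φ t) (dom h) (dom h) := by
  refine ⟨?_, ?_, ?_⟩
  · intro z hz
    rcases dom_cases hh hh1 hz with ⟨ζ, hζ, rfl⟩ | ⟨ζ, hζ, rfl, hp⟩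
    · rw [gam_Zi hw ht hζ]
      exact (mem_dom_iff_Zi hh.le hh1).mpr ⟨_, (hw.bij t ht).mapsTo hζ, Or.inl rfl⟩
    · rw [gam_conj_Zi hw ht hζ hp]
      exact (mem_dom_iff_Zi hh.le hh1).mpr ⟨_, (hw.bij t ht).mapsTo hζ, Or.inr rfl⟩
  · intro z hz z' hz' he
    rcases dom_cases hh hh1 hz with ⟨ζ, hζ, rfl⟩ | ⟨ζ, hζ, rfl, hp⟩ <;>
    rcases dom_cases hh hh1 hz' with ⟨ζ', hζ', rfl⟩ | ⟨ζ', hζ', rfl, hp'⟩
    · rw [gam_Zi hw ht hζ, gam_Zi hw ht hζ'] at he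
      exact Zi_Phi_inj hw ht hζ hζ' he
    · rw [gam_Zi hw ht hζ, gam_conj_Zi hw ht hζ' hp'] at he
      have h1 := Zi_im_nonneg ((hw.bij t ht).mapsTo hζ).1
      have h2 := (Phi_Zi_pos hh hh1 hw ht hζ').mpr hp'
      rw [he, Complex.conj_im] at h1
      linarith
    · rw [gam_Zi hw ht hζ', gam_conj_Zi hw ht hζ hp] at he
      have h1 := Zi_im_nonneg ((hw.bij t ht).mapsTo hζ').1
      have h2 := (Phi_Zi_pos hh hh1 hw ht hζ).mpr hp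
      rw [← he, Complex.conj_im] at h1
      linarith
    · rw [gam_conj_Zi hw ht hζ hp, gam_conj_Zi hw ht hζ' hp'] at he
      rw [Zi_Phi_inj hw ht hζ hζ' ((starRingEnd ℂ).injective he)]
  · intro y hy
    rcases dom_cases hh hh1 hy with ⟨η, hη, rfl⟩ | ⟨η, hη, rfl, hp⟩
    · obtain ⟨ζ, hζ, rfl⟩ := (hw.bij t ht).surjOn hη
      exact ⟨Zi ζ, (mem_dom_iff_Zi hh.le hh1).mpr ⟨ζ, hζ, Or.inl rfl⟩, gam_Zi hw ht hζ⟩
    · obtain ⟨ζ, hζ, rfl⟩ := (hw.bij t ht).surjOn hη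
      exact ⟨conj (Zi ζ), (mem_dom_iff_Zi hh.le hh1).mpr ⟨ζ, hζ, Or.inr rfl⟩,
        gam_conj_Zi hw ht hζ ((Phi_Zi_pos hh hh1 hw ht hζ).mp hp)⟩

end Pool.Agent.EAC
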